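import Pool.Agent.PHCert.Ent

/-!
# PHCert: numerical facts about `V` and `log φ` by comparison of integer powers
-/

set_option autoImplicit false

namespace Pool.Agent.PHCert

open Zp

theorem gold_lt : Real.goldenRatio < 161803399 / 10 ^ 8 := by
  unfold Real.goldenRatio
  have h : √5 < 223606798 / 10 ^ 8 := by
    rw [Real.sqrt_lt' (by norm_num)]
    norm_num
  linarith

theorem lt_gold : 161803398 / 10 ^ 8 < Real.goldenRatio := by
  unfold Real.goldenRatio
  have h : (223606796 : ℝ) / 10 ^ 8 < √5 := by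
    rw [Real.lt_sqrt (by norm_num)]
    norm_num
  linarith

theorem Lp_lt : Lp < Real.log 161803399 - 8 * Real.log 10 := by
  have h := Real.log_lt_log Real.goldenRatio_pos gold_lt
  have h2 : Real.log (161803399 / 10 ^ 8) = Real.log 161803399 - 8 * Real.log 10 := by
    rw [Real.log_div (by norm_num) (by norm_num), Real.log_pow]
    norm_num
  rw [h2] at h
  exact h

theorem lt_Lp : Real.log 161803398 - 8 * Real.log 10 < Lp := by
  have h := Real.log_lt_log (by norm_num) lt_gold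
  have h2 : Real.log (161803398 / 10 ^ 8) = Real.log 161803398 - 8 * Real.log 10 := by
    rw [Real.log_div (by norm_num) (by norm_num), Real.log_pow]
    norm_num
  rw [h2] at h
  exact h

/-- lower bounds of `V` at integral points -/
theorem ray_nat (p q c : ℕ) (hp : 0 < p) (hq : 0 < q)
    (h : 161803399 ^ c * (p ^ p * q ^ q) ^ 1000 ≤ (p + q) ^ ((p + q) * 1000) * 10 ^ (8 * c)) :
    (c : ℝ) * 100 * Lp ≤ (DD : ℝ) * VV p q := by
  have hp' : (0 : ℝ) < p := by exact_mod_cast hp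
  have hq' : (0 : ℝ) < q := by exact_mod_cast hq
  have h1 : (161803399 : ℝ) ^ c * ((p : ℝ) ^ p * (q : ℝ) ^ q) ^ 1000 ≤
      ((p : ℝ) + q) ^ ((p + q) * 1000) * 10 ^ (8 * c) := by exact_mod_cast h
  have h2 := Real.log_le_log (by positivity) h1
  rw [Real.log_mul (by positivity) (by positivity), Real.log_mul (by positivity) (by positivity), Real.log_pow,
    Real.log_pow, Real.log_mul (by positivity) (by positivity), Real.log_pow, Real.log_pow, Real.log_pow,
    Real.log_pow] at h2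
  push_cast at h2
  have h3 := mul_le_mul_of_nonneg_left Lp_lt.le (Nat.cast_nonneg c : (0 : ℝ) ≤ c)
  unfold VV DD
  push_cast
  nlinarith

/-- upper bounds of `-log` -/
theorem neglog_le (i a : ℕ) (hi : 0 < i) (h : 100 ^ 2000 * 10 ^ (8 * a) ≤ i ^ 2000 * 161803398 ^ a) :
    -Real.log ((i : ℝ) / 100) ≤ (a : ℝ) / 2000 * Lp := by
  have hi' : (0 : ℝ) < i := by exact_mod_cast hi
  have h1 : (100 : ℝ) ^ 2000 * 10 ^ (8 * a) ≤ (i : ℝ) ^ 2000 * 161803398 ^ a := by exact_mod_cast h
  have h2 := Real.log_le_log (by positivity) h1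
  rw [Real.log_mul (by positivity) (by positivity), Real.log_mul (by positivity) (by positivity), Real.log_pow,
    Real.log_pow, Real.log_pow, Real.log_pow] at h2
  push_cast at h2
  have h3 := mul_le_mul_of_nonneg_left lt_Lp.le (Nat.cast_nonneg a : (0 : ℝ) ≤ a)
  rw [Real.log_div hi'.ne' (by norm_num)]
  nlinarith

/-- tangents at rational points -/
theorem tang_nat (i j a b : ℕ) (hi : 0 < i) (hj : 0 < j) (hij : i + j = 100)
    (h1 : 100 ^ 2000 * 10 ^ (8 * a) ≤ i ^ 2000 * 161803398 ^ a)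
    (h2 : 100 ^ 2000 * 10 ^ (8 * b) ≤ j ^ 2000 * 161803398 ^ b) : Tang.Ok ⟨50 * a, 50 * b⟩ := by
  intro x y hx hy
  have hi' : (0 : ℝ) < i := by exact_mod_cast hi
  have hj' : (0 : ℝ) < j := by exact_mod_cast hj
  have hij' : (i : ℝ) + j = 100 := by exact_mod_cast hij
  have h := VV_le hx hy (p := (i : ℝ) / 100) (q := (j : ℝ) / 100) (by positivity) (by positivity)
    (by rw [← add_div, hij']; norm_num)
  have h3 := mul_le_mul_of_nonneg_left (neglog_le i a hi h1) hx
  have h4 := mul_le_mul_of_nonneg_left (neglog_le j b hj h2) hy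
  unfold DD
  push_cast
  nlinarith

/-- the golden tangent -/
theorem tang_gold : Tang.Ok ⟨100000, 200000⟩ := by
  intro x y hx hy
  have hg := Real.goldenRatio_pos
  have hsq := Real.goldenRatio_sq
  have h := VV_le hx hy (p := Real.goldenRatio⁻¹) (q := (Real.goldenRatio ^ 2)⁻¹) (by positivity) (by positivity) (by
    rw [hsq]
    have h1 : Real.goldenRatio⁻¹ = Real.goldenRatio / (Real.goldenRatio + 1) := by
      rw [← hsq]
      field_simp
    rw [h1, ← one_div, ← add_div, div_self (by positivity)])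
  rw [Real.log_inv, Real.log_inv, Real.log_pow] at h
  unfold DD
  push_cast at h ⊢
  change VV x y ≤ -(x * -Lp) - y * -(2 * Lp) at h
  nlinarith

theorem tang_symm {a b : ℤ} (h : Tang.Ok ⟨a, b⟩) : Tang.Ok ⟨b, a⟩ := by
  intro x y hx hy
  have := h y x hy hx
  rw [VV_comm]
  linarith

/-- a ray with a lower bound of `V` -/
structure Ray where
  p : Zp
  q : Zp
  c : Zp

/-- validity of a ray -/
structure Ray.Ok (r : Ray) : Prop where
  p0 : 0 ≤ r.p.val
  q0 : 0 ≤ r.q.val
  low : r.c.val * Lp ≤ (DD : ℝ) * VV r.p.val r.q.val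

theorem Ray.Ok.symm {p q c : Zp} (h : Ray.Ok ⟨p, q, c⟩) : Ray.Ok ⟨q, p, c⟩ :=
  ⟨h.q0, h.p0, by rw [VV_comm]; exact h.low⟩

theorem val_int (n : ℤ) : (⟨n, 0⟩ : Zp).val = n := by
  simp [val]

theorem ray_ok (p q c : ℕ) (hp : 0 < p) (hq : 0 < q)
    (h : 161803399 ^ c * (p ^ p * q ^ q) ^ 1000 ≤ (p + q) ^ ((p + q) * 1000) * 10 ^ (8 * c)) :
    Ray.Ok ⟨⟨p, 0⟩, ⟨q, 0⟩, ⟨100 * c, 0⟩⟩ := by
  refine ⟨by rw [val_int]; positivity, by rw [val_int]; positivity, ?_⟩
  rw [val_int, val_int, val_int]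
  have := ray_nat p q c hp hq h
  push_cast
  linarith

theorem ray_zero : Ray.Ok ⟨⟨1, 0⟩, ⟨0, 0⟩, ⟨0, 0⟩⟩ := by
  refine ⟨by rw [val_int]; norm_num, by rw [val_int]; norm_num, ?_⟩
  simp [val, VV_zero_right]

theorem ray_gold : Ray.Ok ⟨⟨0, 1⟩, ⟨1, 0⟩, ⟨200000, 100000⟩⟩ := by
  have hg := Real.goldenRatio_pos
  have hsq := Real.goldenRatio_sq
  have e : (⟨0, 1⟩ : Zp).val = Real.goldenRatio := by simp [val]
  refine ⟨by rw [e]; exact hg.le, by rw [val_int]; norm_num, ?_⟩
  rw [val_int, e]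
  have e2 : VV Real.goldenRatio (1 : ℤ) = (Real.goldenRatio + 2) * Lp := by
    unfold VV
    push_cast
    rw [← hsq, Real.log_pow, Real.log_one]
    unfold Lp
    rw [hsq]
    push_cast
    ring
  rw [e2]
  unfold val DD
  push_cast
  nlinarith

/-- the check of a chord against a list of rays -/
def chordChk (R : List Ray) (c : Chord) : Bool :=
  (((c.p2.mul c.q1).add (c.p1.mul c.q2).neg).ispos) &&
    ((R.any fun r => r.p.beq c.p1 && (r.q.beq c.q1 &&
      (r.c.add ((c.A.mul c.p1).add (c.B.mul c.q1)).neg).nneg)) &&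
    (R.any fun r => r.p.beq c.p2 && (r.q.beq c.q2 &&
      (r.c.add ((c.A.mul c.p2).add (c.B.mul c.q2)).neg).nneg)))

theorem ispos_val {x : Zp} (h : x.ispos = true) : 0 < x.val := by
  unfold ispos at h
  rcases hs : x.sg with _ | _ | _
  · simp [hs] at h
  · simp [hs] at h
  · exact sg_pos hs

theorem chordChk_sound {R : List Ray} (hR : ∀ r ∈ R, r.Ok) {c : Chord} (h : chordChk R c = true) : c.Ok := by
  unfold chordChk at h
  rw [Bool.and_eq_true, Bool.and_eq_true] at h
  obtain ⟨h1, h2, h3⟩ := h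
  have hd := ispos_val h1
  rw [val_add, val_neg, val_mul, val_mul] at hd
  rw [List.any_eq_true] at h2 h3
  obtain ⟨r, hr, hr2⟩ := h2
  obtain ⟨r', hr', hr2'⟩ := h3
  rw [Bool.and_eq_true, Bool.and_eq_true] at hr2 hr2'
  obtain ⟨a1, a2, a3⟩ := hr2
  obtain ⟨b1, b2, b3⟩ := hr2'
  have e1 := beq_sound a1
  have e2 := beq_sound a2
  have e3 := nneg_sound a3
  have f1 := beq_sound b1
  have f2 := beq_sound b2
  have f3 := nneg_sound b3
  rw [val_add, val_neg, val_add, val_mul, val_mul] at e3 f3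
  have k := hR r hr
  have k' := hR r' hr'
  have hL := Lp_pos
  refine ⟨?_, ?_, ?_, ?_, by linarith, ?_, ?_⟩
  · rw [← e1]; exact k.p0
  · rw [← e2]; exact k.q0
  · rw [← f1]; exact k'.p0
  · rw [← f2]; exact k'.q0
  · refine le_trans (mul_le_mul_of_nonneg_right ?_ hL.le) (by rw [← e1, ← e2]; exact k.low)
    linarith
  · refine le_trans (mul_le_mul_of_nonneg_right ?_ hL.le) (by rw [← f1, ← f2]; exact k'.low)
    linarith

end Pool.Agent.PHCert
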