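import Pool.Agent.PHCert.Sound
import Pool.Agent.PHCert.Num

/-!
# PHCert: functions given by kinks, inequalities as problems
-/

set_option autoImplicit false

namespace Pool.Agent.PHCert

open Zp

/-- a kink `k max (0, q l - p len)`, `len = e, f, e + f` for `comp = 0, 1, 2` -/
structure Kd where
  comp : Nat
  p : Zp
  q : Nat
  k : Zp

/-- a function `c l + ∑ kinks` -/
structure Fd where
  c : Zp
  K : List Kd

/-- the length -/
noncomputable def lenR (comp : Nat) (e f : ℝ) : ℝ :=
  match comp with
  | 0 => e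
  | 1 => f
  | _ => e + f

/-- the length as a form -/
def lenV (comp : Nat) (e f : V4) : V4 :=
  match comp with
  | 0 => e
  | 1 => f
  | _ => e.add f

theorem dotR_lenV (comp : Nat) (e f : V4) (x : Fin 4 → ℝ) :
    dotR (lenV comp e f) x = lenR comp (dotR e x) (dotR f x) := by
  unfold lenV lenR
  split
  · rfl
  · rfl
  · rw [dotR_add]

/-- value of a list of kinks -/
noncomputable def kev : List Kd → ℝ → ℝ → ℝ → ℝ
  | [], _, _, _ => 0
  | k :: K, e, f, l => k.k.val * max 0 (k.q * l - k.p.val * lenR k.comp e f) + kev K e f l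

/-- value of a function -/
noncomputable def Fd.ev (F : Fd) (e f l : ℝ) : ℝ := F.c.val * l + kev F.K e f l

/-- a term of an inequality -/
structure Term where
  s : Int
  F : Fd
  e : V4
  f : V4
  l : V4

/-- value of a list of terms -/
noncomputable def tev : List Term → (Fin 4 → ℝ) → ℝ
  | [], _ => 0
  | t :: ts, x => t.s * t.F.ev (dotR t.e x) (dotR t.f x) (dotR t.l x) + tev ts x

/-- the zero form -/
def V4.zero : V4 := ⟨Zp.zero, Zp.zero, Zp.zero, Zp.zero⟩

/-- the linear part -/
def linOf : List Term → V4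
  | [] => V4.zero
  | t :: ts => (V4.smul (t.F.c.smul t.s) t.l).add (linOf ts)

/-- the hinge of a kink -/
def hingeOf (s : Int) (e f l : V4) (k : Kd) : Hinge :=
  ⟨k.k.smul s, (V4.smul ⟨Int.ofNat k.q, 0⟩ l).add (V4.smul k.p.neg (lenV k.comp e f))⟩

/-- all hinges -/
def hingesOf : List Term → List Hinge
  | [] => []
  | t :: ts => (t.F.K.map (hingeOf t.s t.e t.f t.l)) ++ hingesOf ts

theorem evH_append : ∀ (A B : List Hinge) (x : Fin 4 → ℝ), evH (A ++ B) x = evH A x + evH B x
  | [], B, x => by simp [evH]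
  | h :: A, B, x => by
    simp only [List.cons_append, evH]
    rw [evH_append A B x]
    ring

theorem evH_kinks (s : Int) (e f l : V4) (x : Fin 4 → ℝ) : ∀ K : List Kd,
    evH (K.map (hingeOf s e f l)) x = s * kev K (dotR e x) (dotR f x) (dotR l x)
  | [] => by simp [evH, kev]
  | k :: K => by
    simp only [List.map_cons, evH, kev]
    rw [evH_kinks s e f l x K]
    have e1 : (hingeOf s e f l k).c.val = s * k.k.val := val_smul _ _
    have e2 : dotR (hingeOf s e f l k).l x =
        k.q * dotR l x - k.p.val * lenR k.comp (dotR e x) (dotR f x) := by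
      show dotR ((V4.smul ⟨Int.ofNat k.q, 0⟩ l).add (V4.smul k.p.neg (lenV k.comp e f))) x = _
      rw [dotR_add, dotR_smul, dotR_smul, val_neg, dotR_lenV]
      have : (⟨Int.ofNat k.q, 0⟩ : Zp).val = k.q := by simp [val]
      rw [this]
      ring
    rw [e1, e2]
    ring

theorem linOf_ev : ∀ (ts : List Term) (x : Fin 4 → ℝ), dotR (linOf ts) x + evH (hingesOf ts) x = tev ts x
  | [], x => by
    simp [linOf, hingesOf, tev, evH, dotR, V4.zero, val_zero]
  | t :: ts, x => by
    simp only [linOf, hingesOf, tev]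
    rw [dotR_add, dotR_smul, val_smul, evH_append, evH_kinks, ← linOf_ev ts x]
    unfold Fd.ev
    ring

/-- insertion with merging -/
def insH : List Hinge → Hinge → List Hinge
  | [], h => [h]
  | g :: H, h => match g.l.beq h.l with
    | true => ⟨g.c.add h.c, g.l⟩ :: H
    | false => g :: insH H h

theorem evH_insH (x : Fin 4 → ℝ) (h : Hinge) : ∀ H : List Hinge,
    evH (insH H h) x = evH H x + h.c.val * max 0 (dotR h.l x)
  | [] => by simp [insH, evH]
  | g :: H => by
    unfold insH
    split
    · next hb =>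
      have := V4.beq_sound hb
      simp only [evH, val_add]
      rw [this]
      ring
    · simp only [evH]
      rw [evH_insH x h H]
      ring

/-- the hinge is active on the cone -/
def active (r0 r1 r2 r3 : V4) (h : Hinge) : Bool :=
  (h.l.dot r0).ispos || ((h.l.dot r1).ispos || ((h.l.dot r2).ispos || (h.l.dot r3).ispos))

/-- vanishing coefficient -/
def zeroC (h : Hinge) : Bool := h.c.beq Zp.zero

/-- merging of the active hinges -/
def canonGo (r0 r1 r2 r3 : V4) : List Hinge → List Hinge → List Hinge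
  | acc, [] => acc
  | acc, h :: H => match active r0 r1 r2 r3 h with
    | true => canonGo r0 r1 r2 r3 (insH acc h) H
    | false => canonGo r0 r1 r2 r3 acc H

/-- removing zeros -/
def dropZ : List Hinge → List Hinge
  | [] => []
  | h :: H => match zeroC h with
    | true => dropZ H
    | false => h :: dropZ H

theorem evH_dropZ (x : Fin 4 → ℝ) : ∀ H : List Hinge, evH (dropZ H) x = evH H x
  | [] => rfl
  | h :: H => by
    unfold dropZ
    split
    · next hz =>
      have := beq_sound hz
      simp only [evH]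
      rw [evH_dropZ x H, this, val_zero]
      ring
    · simp only [evH]
      rw [evH_dropZ x H]

theorem active_false {r0 r1 r2 r3 : V4} {h : Hinge} (ha : active r0 r1 r2 r3 h = false) {a0 a1 a2 a3 : ℝ}
    (h0 : 0 ≤ a0) (h1 : 0 ≤ a1) (h2 : 0 ≤ a2) (h3 : 0 ≤ a3) :
    max 0 (dotR h.l (cmb a0 a1 a2 a3 r0 r1 r2 r3)) = 0 := by
  have key : ∀ z : Zp, z.ispos = false → z.val ≤ 0 := by
    intro z hz
    unfold ispos at hz
    rcases hs : z.sg with _ | _ | _
    · exact sg_neg hs
    · exact (sg_zero hs).le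
    · simp [hs] at hz
  unfold active at ha
  simp only [Bool.or_eq_false_iff] at ha
  obtain ⟨g0, g1, g2, g3⟩ := ha
  have k0 := key _ g0
  have k1 := key _ g1
  have k2 := key _ g2
  have k3 := key _ g3
  rw [dot_val] at k0 k1 k2 k3
  rw [dotR_cmb]
  apply max_eq_left
  have := mul_nonneg h0 (neg_nonneg.2 k0)
  have := mul_nonneg h1 (neg_nonneg.2 k1)
  have := mul_nonneg h2 (neg_nonneg.2 k2)
  have := mul_nonneg h3 (neg_nonneg.2 k3)
  linarith

theorem evH_canonGo {r0 r1 r2 r3 : V4} {a0 a1 a2 a3 : ℝ}
    (h0 : 0 ≤ a0) (h1 : 0 ≤ a1) (h2 : 0 ≤ a2) (h3 : 0 ≤ a3) : ∀ (H acc : List Hinge),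
    evH (canonGo r0 r1 r2 r3 acc H) (cmb a0 a1 a2 a3 r0 r1 r2 r3) =
      evH acc (cmb a0 a1 a2 a3 r0 r1 r2 r3) + evH H (cmb a0 a1 a2 a3 r0 r1 r2 r3)
  | [], acc => by simp [canonGo, evH]
  | h :: H, acc => by
    unfold canonGo
    split
    · rw [evH_canonGo h0 h1 h2 h3 H, evH_insH]
      simp only [evH]
      ring
    · next ha =>
      rw [evH_canonGo h0 h1 h2 h3 H]
      simp only [evH]
      rw [active_false ha h0 h1 h2 h3]
      ring

/-- equality test for lists of hinges -/
def eqH : List Hinge → List Hinge → Bool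
  | [], [] => true
  | g :: G, h :: H => g.c.beq h.c && (g.l.beq h.l && eqH G H)
  | _, _ => false

theorem eqH_sound : ∀ G H : List Hinge, eqH G H = true → G = H
  | [], [], _ => rfl
  | g :: G, h :: H, hh => by
    simp only [eqH, Bool.and_eq_true] at hh
    obtain ⟨h1, h2, h3⟩ := hh
    have e1 := beq_sound h1
    have e2 := V4.beq_sound h2
    have e3 := eqH_sound G H h3
    cases g
    cases h
    simp only at e1 e2
    rw [e1, e2, e3]
  | [], h :: H, hh => by simp [eqH] at hh
  | g :: G, [], hh => by simp [eqH] at hh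

/-- the data of a problem are correct -/
def Prob.okData (T : Prob) (ts : List Term) (r0 r1 r2 r3 : V4) : Bool :=
  (linOf ts).beq T.lin && eqH (dropZ (canonGo r0 r1 r2 r3 [] (hingesOf ts))) T.H

end Pool.Agent.PHCert
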