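import Pool.Agent.PHCert.Good

/-!
# PHCert: the four kinds of domains
-/

set_option autoImplicit false

namespace Pool.Agent.PHCert

open Zp

/-- `1` -/
def z1 : Zp := ⟨.ofNat 1, .ofNat 0⟩

/-- `2` -/
def z2 : Zp := ⟨.ofNat 2, .ofNat 0⟩

/-- `0` -/
def z0 : Zp := ⟨.ofNat 0, .ofNat 0⟩

/-- first coordinate -/
def v0 : V4 := ⟨z1, z0, z0, z0⟩

/-- second coordinate -/
def v1 : V4 := ⟨z0, z1, z0, z0⟩

/-- third coordinate -/
def v2 : V4 := ⟨z0, z0, z1, z0⟩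

/-- fourth coordinate -/
def v3 : V4 := ⟨z0, z0, z0, z1⟩

theorem z0_val : z0.val = 0 := by simp [z0, val]

theorem z1_val : z1.val = 1 := by simp [z1, val]

theorem z2_val : z2.val = 2 := by simp [z2, val]

theorem dotR_v0 (x : Fin 4 → ℝ) : dotR v0 x = x 0 := by simp [dotR, v0, z0_val, z1_val]

theorem dotR_v1 (x : Fin 4 → ℝ) : dotR v1 x = x 1 := by simp [dotR, v1, z0_val, z1_val]

theorem dotR_v2 (x : Fin 4 → ℝ) : dotR v2 x = x 2 := by simp [dotR, v2, z0_val, z1_val]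

theorem dotR_v3 (x : Fin 4 → ℝ) : dotR v3 x = x 3 := by simp [dotR, v3, z0_val, z1_val]

/-- The inequality from the data and the cone statement. -/
theorem good_gen {T : Prob} {ts : List Term} {r0 r1 r2 r3 : V4} (hd : T.okData ts r0 r1 r2 r3 = true)
    (h : Good T r0 r1 r2 r3) {x : Fin 4 → ℝ} (hx2 : 0 ≤ x 2)
    (hx3 : 0 ≤ x 3) {a0 a1 a2 a3 : ℝ} (h0 : 0 ≤ a0) (h1 : 0 ≤ a1) (h2 : 0 ≤ a2) (h3 : 0 ≤ a3)
    (hx : x = cmb a0 a1 a2 a3 r0 r1 r2 r3) : 0 ≤ tev ts x +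
      (if T.E = true then (DD : ℝ) / Lp * (VV (x 0) (x 1) - Real.goldenRatio ^ 2 * VV (x 2) (x 3)) else 0) := by
  have h4 := h x hx2 hx3 a0 a1 a2 a3 h0 h1 h2 h3 hx
  unfold Prob.okData at hd
  rw [Bool.and_eq_true] at hd
  have e1 := V4.beq_sound hd.1
  have e2 := eqH_sound _ _ hd.2
  unfold Prob.F at h4
  rw [← e1, ← e2, evH_dropZ] at h4
  have e3 : evH (canonGo r0 r1 r2 r3 [] (hingesOf ts)) x = evH (hingesOf ts) x := by
    rw [hx, evH_canonGo h0 h1 h2 h3]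
    simp [evH]
  rw [e3, linOf_ev] at h4
  exact h4

theorem gen_D {lin : V4} {H : List Hinge} {ts : List Term}
    (hd : (PD lin H).okData ts v0 v1 v2 ⟨z1, z1, z1, z1⟩ = true)
    (h : Good (PD lin H) v0 v1 v2 ⟨z1, z1, z1, z1⟩) {n r s l : ℝ} (h0 : 0 ≤ l) (hn : l ≤ n)
    (hr : l ≤ r) (hs : l ≤ s) : 0 ≤ tev ts ![n, r, s, l] := by
  have h1 := good_gen (T := PD lin H) hd h (x := ![n, r, s, l]) (by simpa using h0.trans hs)
    (by simpa using h0) (a0 := n - l) (a1 := r - l) (a2 := s - l) (a3 := l) (by linarith) (by linarith)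
    (by linarith) h0 (by
      funext i
      fin_cases i <;> simp [cmb, vecR, v0, v1, v2, z0_val, z1_val])
  simpa [PD] using h1

theorem gen_DS {lin : V4} {H : List Hinge} {ts : List Term}
    (hd : (PD lin H).okData ts v0 ⟨z0, z1, z1, z0⟩ v2 ⟨z1, z1, z1, z1⟩ = true)
    (h : Good (PD lin H) v0 ⟨z0, z1, z1, z0⟩ v2 ⟨z1, z1, z1, z1⟩) {n r s l : ℝ} (h0 : 0 ≤ l)
    (hn : l ≤ n) (hr : l ≤ r) (hs : r ≤ s) : 0 ≤ tev ts ![n, r, s, l] := by
  have h1 := good_gen (T := PD lin H) hd h (x := ![n, r, s, l])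
    (by simpa using h0.trans (hr.trans hs))
    (by simpa using h0) (a0 := n - l) (a1 := r - l) (a2 := s - r) (a3 := l) (by linarith) (by linarith)
    (by linarith) h0 (by
      funext i
      fin_cases i <;> simp [cmb, vecR, v0, v2, z0_val, z1_val])
  simpa [PD] using h1

theorem gen_E {lin : V4} {H : List Hinge} {ts : List Term}
    (hd : (PE lin H).okData ts v0 v1 ⟨z1, z1, z1, z0⟩ ⟨z1, z1, z0, z1⟩ = true)
    (h : Good (PE lin H) v0 v1 ⟨z1, z1, z1, z0⟩ ⟨z1, z1, z0, z1⟩) {e f a b : ℝ} (ha : 0 ≤ a)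
    (hb : 0 ≤ b) (he : a + b ≤ e) (hf : a + b ≤ f) :
    0 ≤ tev ts ![e, f, a, b] + (DD : ℝ) / Lp * (VV e f - Real.goldenRatio ^ 2 * VV a b) := by
  have h1 := good_gen (T := PE lin H) hd h (x := ![e, f, a, b]) (by simpa using ha)
    (by simpa using hb) (a0 := e - (a + b)) (a1 := f - (a + b)) (a2 := a) (a3 := b) (by linarith) (by linarith)
    ha hb (by
      funext i
      fin_cases i <;> simp [cmb, vecR, v0, v1, z0_val, z1_val] <;> ring)
  simpa [PE] using h1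

theorem gen_ES {lin : V4} {H : List Hinge} {ts : List Term}
    (hd : (PE lin H).okData ts v0 v1 ⟨z2, z2, z1, z1⟩ ⟨z1, z1, z0, z1⟩ = true)
    (h : Good (PE lin H) v0 v1 ⟨z2, z2, z1, z1⟩ ⟨z1, z1, z0, z1⟩) {e f a b : ℝ} (ha : 0 ≤ a)
    (hb : a ≤ b) (he : a + b ≤ e) (hf : a + b ≤ f) :
    0 ≤ tev ts ![e, f, a, b] + (DD : ℝ) / Lp * (VV e f - Real.goldenRatio ^ 2 * VV a b) := by
  have h1 := good_gen (T := PE lin H) hd h (x := ![e, f, a, b]) (by simpa using ha)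
    (by simpa using ha.trans hb) (a0 := e - (a + b)) (a1 := f - (a + b)) (a2 := a) (a3 := b - a) (by linarith)
    (by linarith) ha (by linarith) (by
      funext i
      fin_cases i <;> simp [cmb, vecR, v0, v1, z0_val, z1_val, z2_val] <;> ring)
  simpa [PE] using h1

end Pool.Agent.PHCert
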