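import Pool.Agent.PHCert.D0a

/-!
# PHCert: inequality D0
-/

set_option autoImplicit false

namespace Pool.Agent.PHCert.D0

open Zp Pool.Agent.PHCert

noncomputable section

theorem root : Good (PD lin H) v0 v1 v2 ⟨z1, z1, z1, z1⟩ := g0

theorem ineq {n r s l : ℝ} (h0 : 0 ≤ l) (hn : l ≤ n) (hr : l ≤ r) (hs : l ≤ s) :
    0 ≤ tev ts ![n, r, s, l] := gen_D data root h0 hn hr hs

end

end Pool.Agent.PHCert.D0
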