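import Pool.Agent.PHCert.Cone

/-!
# PHCert: inequality D0, the data
-/

set_option autoImplicit false

namespace Pool.Agent.PHCert.D0

open Zp Pool.Agent.PHCert

noncomputable section

/-- linear part -/
def lin : V4 := ⟨⟨.ofNat 0, .ofNat 0⟩, ⟨.ofNat 0, .ofNat 0⟩, ⟨.ofNat 0, .ofNat 0⟩, ⟨.ofNat 158312, .ofNat 0⟩⟩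

/-- hinges -/
def H : List Hinge := [
  ⟨⟨.negSucc 1058, .ofNat 0⟩, ⟨⟨.negSucc 6, .ofNat 0⟩, ⟨.negSucc 6, .ofNat 0⟩, ⟨.ofNat 0, .ofNat 0⟩, ⟨.ofNat 20, .ofNat 0⟩⟩⟩,
  ⟨⟨.ofNat 136, .ofNat 0⟩, ⟨⟨.ofNat 0, .ofNat 0⟩, ⟨.ofNat 0, .ofNat 0⟩, ⟨.negSucc 6, .ofNat 0⟩, ⟨.ofNat 20, .ofNat 0⟩⟩⟩,
  ⟨⟨.ofNat 63927, .ofNat 0⟩, ⟨⟨.ofNat 0, .ofNat 0⟩, ⟨.ofNat 0, .ofNat 0⟩, ⟨.negSucc 0, .ofNat 0⟩, ⟨.ofNat 2, .ofNat 0⟩⟩⟩,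
  ⟨⟨.ofNat 430, .ofNat 0⟩, ⟨⟨.ofNat 0, .ofNat 0⟩, ⟨.negSucc 10, .ofNat 0⟩, ⟨.ofNat 0, .ofNat 0⟩, ⟨.ofNat 20, .ofNat 0⟩⟩⟩,
  ⟨⟨.negSucc 719, .ofNat 0⟩, ⟨⟨.ofNat 0, .ofNat 0⟩, ⟨.negSucc 6, .ofNat 0⟩, ⟨.ofNat 0, .ofNat 0⟩, ⟨.ofNat 10, .ofNat 0⟩⟩⟩,
  ⟨⟨.ofNat 119442, .ofNat 0⟩, ⟨⟨.negSucc 4, .ofNat 3⟩, ⟨.negSucc 4, .ofNat 3⟩, ⟨.negSucc 4, .ofNat 3⟩, ⟨.ofNat 1, .ofNat 0⟩⟩⟩,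
  ⟨⟨.ofNat 51363, .ofNat 0⟩, ⟨⟨.ofNat 3, .negSucc 1⟩, ⟨.ofNat 3, .negSucc 1⟩, ⟨.ofNat 3, .negSucc 1⟩, ⟨.ofNat 1, .ofNat 0⟩⟩⟩,
  ⟨⟨.negSucc 119441, .ofNat 0⟩, ⟨⟨.ofNat 0, .ofNat 0⟩, ⟨.ofNat 0, .ofNat 0⟩, ⟨.negSucc 4, .ofNat 3⟩, ⟨.ofNat 1, .ofNat 0⟩⟩⟩,
  ⟨⟨.negSucc 63155, .ofNat 0⟩, ⟨⟨.ofNat 0, .ofNat 0⟩, ⟨.ofNat 0, .ofNat 0⟩, ⟨.ofNat 3, .negSucc 1⟩, ⟨.ofNat 1, .ofNat 0⟩⟩⟩,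
  ⟨⟨.ofNat 6777, .ofNat 0⟩, ⟨⟨.ofNat 0, .ofNat 0⟩, ⟨.ofNat 0, .ofNat 0⟩, ⟨.negSucc 1, .ofNat 0⟩, ⟨.ofNat 5, .ofNat 0⟩⟩⟩,
  ⟨⟨.negSucc 10314, .ofNat 0⟩, ⟨⟨.ofNat 0, .ofNat 0⟩, ⟨.ofNat 0, .ofNat 0⟩, ⟨.negSucc 12, .ofNat 0⟩, ⟨.ofNat 20, .ofNat 0⟩⟩⟩,
  ⟨⟨.ofNat 600, .ofNat 0⟩, ⟨⟨.negSucc 0, .ofNat 0⟩, ⟨.ofNat 0, .ofNat 0⟩, ⟨.ofNat 0, .ofNat 0⟩, ⟨.ofNat 20, .ofNat 0⟩⟩⟩,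
  ⟨⟨.ofNat 135, .ofNat 0⟩, ⟨⟨.negSucc 2, .ofNat 0⟩, ⟨.ofNat 0, .ofNat 0⟩, ⟨.ofNat 0, .ofNat 0⟩, ⟨.ofNat 10, .ofNat 0⟩⟩⟩,
  ⟨⟨.negSucc 5, .ofNat 0⟩, ⟨⟨.negSucc 6, .ofNat 0⟩, ⟨.ofNat 0, .ofNat 0⟩, ⟨.ofNat 0, .ofNat 0⟩, ⟨.ofNat 10, .ofNat 0⟩⟩⟩,
  ⟨⟨.ofNat 449, .ofNat 0⟩, ⟨⟨.negSucc 2, .ofNat 0⟩, ⟨.ofNat 0, .ofNat 0⟩, ⟨.negSucc 2, .ofNat 0⟩, ⟨.ofNat 10, .ofNat 0⟩⟩⟩,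
  ⟨⟨.negSucc 1112, .ofNat 0⟩, ⟨⟨.ofNat 0, .ofNat 0⟩, ⟨.negSucc 16, .ofNat 0⟩, ⟨.ofNat 0, .ofNat 0⟩, ⟨.ofNat 20, .ofNat 0⟩⟩⟩,
  ⟨⟨.negSucc 429, .ofNat 0⟩, ⟨⟨.negSucc 10, .ofNat 0⟩, ⟨.ofNat 0, .ofNat 0⟩, ⟨.ofNat 0, .ofNat 0⟩, ⟨.ofNat 20, .ofNat 0⟩⟩⟩,
  ⟨⟨.negSucc 119441, .ofNat 0⟩, ⟨⟨.negSucc 4, .ofNat 3⟩, ⟨.negSucc 4, .ofNat 3⟩, ⟨.ofNat 0, .ofNat 0⟩, ⟨.ofNat 1, .ofNat 0⟩⟩⟩,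
  ⟨⟨.negSucc 51362, .ofNat 0⟩, ⟨⟨.ofNat 3, .negSucc 1⟩, ⟨.ofNat 3, .negSucc 1⟩, ⟨.ofNat 0, .ofNat 0⟩, ⟨.ofNat 1, .ofNat 0⟩⟩⟩,
  ⟨⟨.ofNat 54491, .ofNat 0⟩, ⟨⟨.negSucc 1, .ofNat 1⟩, ⟨.negSucc 1, .ofNat 1⟩, ⟨.ofNat 0, .ofNat 0⟩, ⟨.ofNat 1, .ofNat 0⟩⟩⟩,
  ⟨⟨.ofNat 3984, .ofNat 0⟩, ⟨⟨.negSucc 1, .ofNat 0⟩, ⟨.negSucc 1, .ofNat 0⟩, ⟨.ofNat 0, .ofNat 0⟩, ⟨.ofNat 5, .ofNat 0⟩⟩⟩]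

/-- the terms -/
def ts : List Term := [⟨1, faa, (v0.add v1), v2, v3⟩, ⟨1, fcc, (v0.add v2), v1, v3⟩, ⟨-1, fbb, v2, v0, v3⟩, ⟨-1, fcc, v1, v0, v3⟩]

theorem data : (PD lin H).okData ts v0 v1 v2 ⟨z1, z1, z1, z1⟩ = true := by
  decide +kernel

end

end Pool.Agent.PHCert.D0
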