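import Pool.Agent.PHCert.D0H

/-!
# PHCert: inequality D0, part 1 (43 leaves, checked by the kernel)
-/

set_option autoImplicit false

namespace Pool.Agent.PHCert.D0

open Zp Pool.Agent.PHCert

noncomputable section

/-- part of a tree -/
def t0_4 : Tree := .s12 ⟨⟨.ofNat 1, .ofNat 0⟩, ⟨.negSucc 0, .ofNat 3⟩, ⟨.ofNat 2, .ofNat 0⟩, ⟨.ofNat 1, .ofNat 0⟩⟩ ⟨.negSucc 1, .ofNat 3⟩ ⟨.ofNat 1, .ofNat 0⟩ ⟨.negSucc 0, .ofNat 3⟩ 0 (.s13 ⟨⟨.ofNat 1, .ofNat 0⟩, ⟨.ofNat 0, .ofNat 1⟩, ⟨.ofNat 2, .ofNat 0⟩, ⟨.ofNat 1, .ofNat 0⟩⟩ ⟨.ofNat 1, .ofNat 0⟩ ⟨.ofNat 2, .ofNat 1⟩ ⟨.ofNat 3, .ofNat 1⟩ 0 (.s03 ⟨⟨.ofNat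 0, .ofNat 1⟩, ⟨.ofNat 1, .ofNat 0⟩, ⟨.ofNat 2, .ofNat 0⟩, ⟨.ofNat 1, .ofNat 0⟩⟩ ⟨.ofNat 1, .ofNat 0⟩ ⟨.ofNat 2, .ofNat 1⟩ ⟨.ofNat 3, .ofNat 1⟩ 0 (.s23 ⟨⟨.ofNat 2, .ofNat 0⟩, ⟨.ofNat 2, .ofNat 0⟩, ⟨.ofNat 5, .ofNat 0⟩, ⟨.ofNat 2, .ofNat 0⟩⟩ ⟨.ofNat 0, .ofNat 1⟩ ⟨.ofNat 6, .ofNat 1⟩ ⟨.ofNat 3, .ofNat 1⟩ 0 (.leaf 0 [0, 0, 42]) (.s02 ⟨⟨.ofNat 1, .ofNat 8⟩, ⟨.ofNat 6, .ofNat 2⟩, ⟨.ofNat 15, .ofNat 5⟩, ⟨.ofNat 6, .ofNat 2⟩⟩ ⟨.ofNat 6, .ofNat 1⟩ ⟨.ofNat 0, .ofNat 1⟩ ⟨.ofNat 1, .ofNat 0⟩ 0 (.s12 ⟨⟨.ofNat 6, .ofNat 2⟩, ⟨.ofNat 1, .ofNat 8⟩, ⟨.ofNat 15, .ofNat 5⟩, ⟨.ofNat 6, .ofNat 2⟩⟩ ⟨.ofNat 6, .ofNat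 1⟩ ⟨.ofNat 0, .ofNat 1⟩ ⟨.ofNat 1, .ofNat 0⟩ 0 (.leaf 0 [64, 59]) (.leaf 0 [26, 37])) (.leaf 0 [4, 32]))) (.s23 ⟨⟨.ofNat 1, .ofNat 8⟩, ⟨.ofNat 6, .ofNat 2⟩, ⟨.ofNat 15, .ofNat 5⟩, ⟨.ofNat 6, .ofNat 2⟩⟩ ⟨.ofNat 0, .ofNat 1⟩ ⟨.ofNat 6, .ofNat 1⟩ ⟨.ofNat 1, .ofNat 0⟩ 0 (.s02 ⟨⟨.negSucc 0, .ofNat 14⟩, ⟨.ofNat 15, .negSucc 0⟩, ⟨.ofNat 38, .negSucc 2⟩, ⟨.ofNat 15, .negSucc 0⟩⟩ ⟨.ofNat 1, .ofNat 0⟩ ⟨.negSucc 0, .ofNat 2⟩ ⟨.ofNat 0, .ofNat 1⟩ 0 (.leaf 0 [13]) (.leaf 0 [64, 15])) (.s02 ⟨⟨.ofNat 0, .ofNat 1⟩, ⟨.ofNat 1, .ofNat 0⟩, ⟨.ofNat 1, .ofNat 2⟩, ⟨.ofNat 1, .ofNat 0⟩⟩ ⟨.ofNat 1, .ofNat 0⟩ ⟨.ofNat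 2, .ofNat 1⟩ ⟨.ofNat 3, .ofNat 1⟩ 0 (.s12 ⟨⟨.ofNat 6, .ofNat 2⟩, ⟨.ofNat 1, .ofNat 8⟩, ⟨.ofNat 15, .ofNat 5⟩, ⟨.ofNat 6, .ofNat 2⟩⟩ ⟨.ofNat 6, .ofNat 1⟩ ⟨.ofNat 0, .ofNat 1⟩ ⟨.ofNat 1, .ofNat 0⟩ 0 (.leaf 0 [64, 56]) (.leaf 0 [64, 56, 0])) (.s03 ⟨⟨.negSucc 0, .ofNat 14⟩, ⟨.ofNat 15, .negSucc 0⟩, ⟨.ofNat 38, .negSucc 2⟩, ⟨.ofNat 15, .negSucc 0⟩⟩ ⟨.ofNat 1, .ofNat 0⟩ ⟨.negSucc 0, .ofNat 2⟩ ⟨.ofNat 0, .ofNat 1⟩ 0 (.leaf 0 [64, 56, 0]) (.leaf 0 [64, 56, 64, 0]))))) (.s23 ⟨⟨.ofNat 6, .ofNat 2⟩, ⟨.ofNat 1, .ofNat 8⟩, ⟨.ofNat 15, .ofNat 5⟩, ⟨.ofNat 6, .ofNat 2⟩⟩ ⟨.ofNat 0, .ofNat 1⟩ ⟨.ofNat 6, .ofNat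 1⟩ ⟨.ofNat 1, .ofNat 0⟩ 0 (.leaf 0 [64, 64, 0, 13]) (.leaf 0 [64, 64, 23, 64, 0, 9, 0]))) (.s13 ⟨⟨.negSucc 0, .ofNat 3⟩, ⟨.ofNat 3, .ofNat 2⟩, ⟨.negSucc 0, .ofNat 5⟩, ⟨.negSucc 0, .ofNat 3⟩⟩ ⟨.negSucc 0, .ofNat 1⟩ ⟨.ofNat 0, .ofNat 2⟩ ⟨.ofNat 1, .ofNat 0⟩ 0 (.s23 ⟨⟨.ofNat 1, .ofNat 0⟩, ⟨.ofNat 0, .ofNat 1⟩, ⟨.ofNat 2, .ofNat 0⟩, ⟨.ofNat 1, .ofNat 0⟩⟩ ⟨.ofNat 1, .ofNat 0⟩ ⟨.ofNat 2, .ofNat 1⟩ ⟨.ofNat 3, .ofNat 1⟩ 0 (.s03 ⟨⟨.ofNat 0, .ofNat 1⟩, ⟨.ofNat 1, .ofNat 0⟩, ⟨.ofNat 2, .ofNat 0⟩, ⟨.ofNat 1, .ofNat 0⟩⟩ ⟨.ofNat 1, .ofNat 0⟩ ⟨.ofNat 2, .ofNat 1⟩ ⟨.ofNat 3, .ofNat 1⟩ 0 (.leaf 0 [0, 0, 42])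 (.leaf 0 [64, 25])) (.leaf 0 [37, 64, 64])) (.leaf 0 [4, 64, 0]))

/-- part of a tree -/
def t0_3 : Tree := .s02 ⟨⟨.negSucc 0, .ofNat 3⟩, ⟨.ofNat 1, .ofNat 0⟩, ⟨.ofNat 2, .ofNat 0⟩, ⟨.ofNat 1, .ofNat 0⟩⟩ ⟨.negSucc 1, .ofNat 3⟩ ⟨.ofNat 1, .ofNat 0⟩ ⟨.negSucc 0, .ofNat 3⟩ 0 t0_4 (.s13 ⟨⟨.negSucc 0, .ofNat 3⟩, ⟨.ofNat 3, .ofNat 2⟩, ⟨.negSucc 0, .ofNat 5⟩, ⟨.negSucc 0, .ofNat 3⟩⟩ ⟨.negSucc 0, .ofNat 1⟩ ⟨.ofNat 0, .ofNat 2⟩ ⟨.ofNat 1, .ofNat 0⟩ 0 (.s03 ⟨⟨.ofNat 3, .ofNat 2⟩, ⟨.negSucc 0, .ofNat 3⟩, ⟨.negSucc 0, .ofNat 5⟩, ⟨.negSucc 0, .ofNat 3⟩⟩ ⟨.negSucc 0, .ofNat 1⟩ ⟨.ofNat 0, .ofNat 2⟩ ⟨.ofNat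 1, .ofNat 0⟩ 0 (.s23 ⟨⟨.ofNat 0, .ofNat 1⟩, ⟨.ofNat 1, .ofNat 0⟩, ⟨.ofNat 2, .ofNat 0⟩, ⟨.ofNat 1, .ofNat 0⟩⟩ ⟨.ofNat 1, .ofNat 0⟩ ⟨.ofNat 2, .ofNat 1⟩ ⟨.ofNat 3, .ofNat 1⟩ 0 (.leaf 0 [0, 0, 42]) (.leaf 0 [64, 7])) (.leaf 0 [64, 1])) (.leaf 0 [7, 0, 0]))

/-- part of a tree -/
def t0_2 : Tree := .s23 ⟨⟨.ofNat 1, .ofNat 0⟩, ⟨.ofNat 1, .ofNat 0⟩, ⟨.ofNat 0, .ofNat 3⟩, ⟨.ofNat 1, .ofNat 0⟩⟩ ⟨.ofNat 3, .ofNat 1⟩ ⟨.ofNat 0, .ofNat 1⟩ ⟨.ofNat 0, .ofNat 1⟩ 0 t0_3 (.s02 ⟨⟨.ofNat 0, .ofNat 3⟩, ⟨.ofNat 1, .ofNat 0⟩, ⟨.ofNat 2, .ofNat 0⟩, ⟨.ofNat 1, .ofNat 0⟩⟩ ⟨.ofNat 1, .ofNat 0⟩ ⟨.ofNat 1, .ofNat 0⟩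 ⟨.ofNat 1, .ofNat 0⟩ 0 (.s12 ⟨⟨.ofNat 1, .ofNat 0⟩, ⟨.ofNat 0, .ofNat 3⟩, ⟨.ofNat 2, .ofNat 0⟩, ⟨.ofNat 1, .ofNat 0⟩⟩ ⟨.ofNat 1, .ofNat 0⟩ ⟨.ofNat 1, .ofNat 0⟩ ⟨.ofNat 1, .ofNat 0⟩ 0 (.leaf 0 [0, 64, 0, 64, 0, 0, 0]) (.s13 ⟨⟨.ofNat 1, .ofNat 0⟩, ⟨.negSucc 0, .ofNat 3⟩, ⟨.ofNat 2, .ofNat 0⟩, ⟨.ofNat 1, .ofNat 0⟩⟩ ⟨.negSucc 1, .ofNat 3⟩ ⟨.ofNat 1, .ofNat 0⟩ ⟨.negSucc 0, .ofNat 3⟩ 0 (.leaf 0 [0, 39, 0, 64, 0, 0, 0]) (.leaf 0 [0, 64, 1]))) (.s03 ⟨⟨.negSucc 0, .ofNat 3⟩, ⟨.ofNat 1, .ofNat 0⟩, ⟨.ofNat 2, .ofNat 0⟩, ⟨.ofNat 1, .ofNat 0⟩⟩ ⟨.negSucc 1, .ofNat 3⟩ ⟨.ofNat 1, .ofNat 0⟩ ⟨.negSucc 0, .ofNat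 3⟩ 0 (.s13 ⟨⟨.ofNat 1, .ofNat 0⟩, ⟨.negSucc 0, .ofNat 3⟩, ⟨.ofNat 2, .ofNat 0⟩, ⟨.ofNat 1, .ofNat 0⟩⟩ ⟨.negSucc 1, .ofNat 3⟩ ⟨.ofNat 1, .ofNat 0⟩ ⟨.negSucc 0, .ofNat 3⟩ 0 (.leaf 0 [0, 39, 0, 64, 0, 0, 0]) (.leaf 0 [4, 64, 0])) (.leaf 0 [7, 0, 0])))

/-- part of a tree -/
def t0_1 : Tree := .s23 ⟨⟨.ofNat 1, .ofNat 0⟩, ⟨.ofNat 1, .ofNat 0⟩, ⟨.ofNat 2, .ofNat 0⟩, ⟨.ofNat 1, .ofNat 0⟩⟩ ⟨.ofNat 1, .ofNat 0⟩ ⟨.ofNat 1, .ofNat 0⟩ ⟨.ofNat 1, .ofNat 0⟩ 0 (.s13 ⟨⟨.ofNat 1, .ofNat 0⟩, ⟨.ofNat 0, .ofNat 1⟩, ⟨.ofNat 1, .ofNat 0⟩, ⟨.ofNat 1, .ofNat 0⟩⟩ ⟨.negSucc 0, .ofNat 1⟩ ⟨.ofNat 0, .ofNat 2⟩ ⟨.negSucc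 0, .ofNat 3⟩ 0 (.s03 ⟨⟨.ofNat 0, .ofNat 1⟩, ⟨.ofNat 1, .ofNat 0⟩, ⟨.ofNat 1, .ofNat 0⟩, ⟨.ofNat 1, .ofNat 0⟩⟩ ⟨.negSucc 0, .ofNat 1⟩ ⟨.ofNat 0, .ofNat 2⟩ ⟨.negSucc 0, .ofNat 3⟩ 0 (.leaf 0 [19]) (.s02 ⟨⟨.ofNat 3, .ofNat 2⟩, ⟨.negSucc 0, .ofNat 3⟩, ⟨.negSucc 0, .ofNat 5⟩, ⟨.negSucc 0, .ofNat 3⟩⟩ ⟨.negSucc 0, .ofNat 1⟩ ⟨.ofNat 0, .ofNat 2⟩ ⟨.ofNat 1, .ofNat 0⟩ 0 (.leaf 0 [64, 64, 19]) (.s03 ⟨⟨.negSucc 0, .ofNat 2⟩, ⟨.ofNat 1, .ofNat 0⟩, ⟨.ofNat 1, .ofNat 0⟩, ⟨.ofNat 1, .ofNat 0⟩⟩ ⟨.ofNat 2, .negSucc 0⟩ ⟨.ofNat 0, .ofNat 1⟩ ⟨.ofNat 2, .ofNat 0⟩ 0 (.leaf 0 [63, 64]) (.s01 ⟨⟨.ofNat 4, .ofNat 1⟩,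 ⟨.ofNat 0, .ofNat 3⟩, ⟨.ofNat 0, .ofNat 2⟩, ⟨.ofNat 0, .ofNat 2⟩⟩ ⟨.negSucc 0, .ofNat 1⟩ ⟨.ofNat 1, .ofNat 1⟩ ⟨.ofNat 1, .ofNat 0⟩ 0 (.leaf 0 [60, 64]) (.leaf 0 [64, 13]))))) (.s12 ⟨⟨.negSucc 0, .ofNat 3⟩, ⟨.ofNat 3, .ofNat 2⟩, ⟨.negSucc 0, .ofNat 5⟩, ⟨.negSucc 0, .ofNat 3⟩⟩ ⟨.negSucc 0, .ofNat 1⟩ ⟨.ofNat 0, .ofNat 2⟩ ⟨.ofNat 1, .ofNat 0⟩ 0 (.s02 ⟨⟨.ofNat 3, .ofNat 2⟩, ⟨.negSucc 0, .ofNat 3⟩, ⟨.negSucc 0, .ofNat 5⟩, ⟨.negSucc 0, .ofNat 3⟩⟩ ⟨.negSucc 0, .ofNat 1⟩ ⟨.ofNat 0, .ofNat 2⟩ ⟨.ofNat 1, .ofNat 0⟩ 0 (.leaf 0 [64, 64, 32]) (.s03 ⟨⟨.ofNat 4, .ofNat 1⟩, ⟨.ofNat 0, .ofNat 3⟩, ⟨.ofNat 0,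 .ofNat 2⟩, ⟨.ofNat 0, .ofNat 2⟩⟩ ⟨.negSucc 0, .ofNat 1⟩ ⟨.ofNat 1, .ofNat 1⟩ ⟨.ofNat 1, .ofNat 0⟩ 0 (.leaf 0 [60, 64]) (.leaf 0 [64, 13]))) (.s03 ⟨⟨.ofNat 4, .ofNat 1⟩, ⟨.ofNat 0, .ofNat 3⟩, ⟨.ofNat 0, .ofNat 2⟩, ⟨.ofNat 0, .ofNat 2⟩⟩ ⟨.negSucc 0, .ofNat 1⟩ ⟨.ofNat 1, .ofNat 1⟩ ⟨.ofNat 1, .ofNat 0⟩ 0 (.s13 ⟨⟨.ofNat 1, .ofNat 0⟩, ⟨.negSucc 0, .ofNat 2⟩, ⟨.ofNat 1, .ofNat 0⟩, ⟨.ofNat 1, .ofNat 0⟩⟩ ⟨.ofNat 2, .negSucc 0⟩ ⟨.ofNat 0, .ofNat 1⟩ ⟨.ofNat 2, .ofNat 0⟩ 0 (.leaf 0 [26, 64]) (.leaf 0 [13])) (.leaf 0 [14, 64, 5])))) t0_2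

/-- part of a tree -/
def t0_0 : Tree := .s13 ⟨⟨.ofNat 1, .ofNat 0⟩, ⟨.ofNat 0, .ofNat 3⟩, ⟨.ofNat 1, .ofNat 0⟩, ⟨.ofNat 1, .ofNat 0⟩⟩ ⟨.negSucc 0, .ofNat 3⟩ ⟨.ofNat 1, .ofNat 0⟩ ⟨.ofNat 1, .ofNat 0⟩ 0 t0_1 (.s02 ⟨⟨.ofNat 0, .ofNat 3⟩, ⟨.ofNat 1, .ofNat 0⟩, ⟨.ofNat 2, .ofNat 0⟩, ⟨.ofNat 1, .ofNat 0⟩⟩ ⟨.ofNat 1, .ofNat 0⟩ ⟨.ofNat 1, .ofNat 0⟩ ⟨.ofNat 1, .ofNat 0⟩ 0 (.s23 ⟨⟨.ofNat 1, .ofNat 0⟩, ⟨.ofNat 0, .ofNat 3⟩, ⟨.ofNat 2, .ofNat 0⟩, ⟨.ofNat 1, .ofNat 0⟩⟩ ⟨.ofNat 1, .ofNat 0⟩ ⟨.ofNat 1, .ofNat 0⟩ ⟨.ofNat 1, .ofNat 0⟩ 0 (.leaf 0 [0, 64, 1]) (.leaf 0 [0, 0, 0, 0, 0])) (.leaf 0 [0, 0, 0]))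

/-- part of a tree -/
def t0 : Tree := .s03 ⟨⟨.ofNat 0, .ofNat 3⟩, ⟨.ofNat 1, .ofNat 0⟩, ⟨.ofNat 1, .ofNat 0⟩, ⟨.ofNat 1, .ofNat 0⟩⟩ ⟨.negSucc 0, .ofNat 3⟩ ⟨.ofNat 1, .ofNat 0⟩ ⟨.ofNat 1, .ofNat 0⟩ 0 t0_0 (.s23 ⟨⟨.ofNat 0, .ofNat 3⟩, ⟨.ofNat 1, .ofNat 0⟩, ⟨.ofNat 2, .ofNat 0⟩, ⟨.ofNat 1, .ofNat 0⟩⟩ ⟨.ofNat 1, .ofNat 0⟩ ⟨.ofNat 1, .ofNat 0⟩ ⟨.ofNat 1, .ofNat 0⟩ 0 (.s03 ⟨⟨.ofNat 20, .ofNat 0⟩, ⟨.ofNat 1, .ofNat 0⟩, ⟨.ofNat 1, .ofNat 0⟩, ⟨.ofNat 1, .ofNat 0⟩⟩ ⟨.negSucc 2, .ofNat 17⟩ ⟨.ofNat 0, .ofNat 1⟩ ⟨.ofNat 0, .ofNat 1⟩ 0 (.leaf 0 [0]) (.leaf 0 [0, 0])) (.leaf 0 [0, 0, 0, 0]))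

theorem g0 : Good (PD lin H) ⟨⟨.ofNat 1, .ofNat 0⟩, ⟨.ofNat 0, .ofNat 0⟩, ⟨.ofNat 0, .ofNat 0⟩, ⟨.ofNat 0, .ofNat 0⟩⟩
    ⟨⟨.ofNat 0, .ofNat 0⟩, ⟨.ofNat 1, .ofNat 0⟩, ⟨.ofNat 0, .ofNat 0⟩, ⟨.ofNat 0, .ofNat 0⟩⟩
    ⟨⟨.ofNat 0, .ofNat 0⟩, ⟨.ofNat 0, .ofNat 0⟩, ⟨.ofNat 1, .ofNat 0⟩, ⟨.ofNat 0, .ofNat 0⟩⟩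
    ⟨⟨.ofNat 1, .ofNat 0⟩, ⟨.ofNat 1, .ofNat 0⟩, ⟨.ofNat 1, .ofNat 0⟩, ⟨.ofNat 1, .ofNat 0⟩⟩ :=
  goodD lin H t0 (by decide +kernel)

end

end Pool.Agent.PHCert.D0
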