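import Pool.Agent.PHCert.D1H

/-!
# PHCert: inequality D1, part 2 (78 leaves, checked by the kernel)
-/

set_option autoImplicit false

namespace Pool.Agent.PHCert.D1

open Zp Pool.Agent.PHCert

noncomputable section

/-- part of a tree -/
def t5_0 : Tree := .s13 ⟨⟨.ofNat 9, .ofNat 0⟩, ⟨.ofNat 11, .ofNat 0⟩, ⟨.ofNat 0, .ofNat 9⟩, ⟨.ofNat 9, .ofNat 0⟩⟩ ⟨.ofNat 0, .ofNat 2⟩ ⟨.ofNat 9, .negSucc 1⟩ ⟨.ofNat 1, .ofNat 0⟩ 0 (.s02 ⟨⟨.ofNat 9, .ofNat 2⟩, ⟨.ofNat 7, .ofNat 2⟩, ⟨.ofNat 2, .ofNat 9⟩, ⟨.ofNat 7, .ofNat 2⟩⟩ ⟨.ofNat 0, .ofNat 1⟩ ⟨.ofNat 2, .ofNat 0⟩ ⟨.ofNat 0, .ofNat 1⟩ 0 (.s23 ⟨⟨.ofNat 1,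 .ofNat 0⟩, ⟨.ofNat 1, .ofNat 0⟩, ⟨.ofNat 2, .ofNat 0⟩, ⟨.ofNat 1, .ofNat 0⟩⟩ ⟨.negSucc 0, .ofNat 1⟩ ⟨.ofNat 1, .ofNat 0⟩ ⟨.ofNat 0, .ofNat 1⟩ 0 (.s13 ⟨⟨.ofNat 9, .ofNat 0⟩, ⟨.ofNat 10, .ofNat 0⟩, ⟨.ofNat 0, .ofNat 9⟩, ⟨.ofNat 9, .ofNat 0⟩⟩ ⟨.ofNat 1, .ofNat 0⟩ ⟨.ofNat 9, .ofNat 0⟩ ⟨.ofNat 2, .ofNat 0⟩ 0 (.leaf 0 [63]) (.leaf 0 [64, 11])) (.s12 ⟨⟨.ofNat 9, .ofNat 0⟩, ⟨.ofNat 7, .ofNat 2⟩, ⟨.ofNat 18, .ofNat 0⟩, ⟨.ofNat 9, .ofNat 0⟩⟩ ⟨.ofNat 0, .ofNat 1⟩ ⟨.ofNat 9, .ofNat 0⟩ ⟨.ofNat 1, .ofNat 1⟩ 0 (.s02 ⟨⟨.ofNat 3, .ofNat 4⟩, ⟨.ofNat 5, .ofNat 2⟩, ⟨.ofNat 12, .ofNat 2⟩, ⟨.ofNat 5, .ofNat 2⟩⟩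 ⟨.ofNat 0, .ofNat 1⟩ ⟨.ofNat 5, .ofNat 0⟩ ⟨.ofNat 1, .ofNat 1⟩ 0 (.leaf 0 [40, 64, 64]) (.leaf 0 [60, 64])) (.leaf 0 [64, 11]))) (.s13 ⟨⟨.ofNat 9, .ofNat 0⟩, ⟨.ofNat 10, .ofNat 0⟩, ⟨.ofNat 0, .ofNat 9⟩, ⟨.ofNat 9, .ofNat 0⟩⟩ ⟨.ofNat 1, .ofNat 0⟩ ⟨.ofNat 9, .ofNat 0⟩ ⟨.ofNat 2, .ofNat 0⟩ 0 (.leaf 0 []) (.leaf 0 [17]))) (.s02 ⟨⟨.ofNat 9, .ofNat 2⟩, ⟨.ofNat 7, .ofNat 2⟩, ⟨.ofNat 2, .ofNat 9⟩, ⟨.ofNat 7, .ofNat 2⟩⟩ ⟨.ofNat 0, .ofNat 1⟩ ⟨.ofNat 2, .ofNat 0⟩ ⟨.ofNat 0, .ofNat 1⟩ 0 (.s23 ⟨⟨.ofNat 9, .ofNat 0⟩, ⟨.ofNat 7, .ofNat 2⟩, ⟨.ofNat 18, .ofNat 0⟩, ⟨.ofNat 9, .ofNat 0⟩⟩ ⟨.ofNat 9, .ofNat 0⟩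 ⟨.ofNat 0, .ofNat 1⟩ ⟨.ofNat 1, .ofNat 1⟩ 0 (.s01 ⟨⟨.ofNat 81, .ofNat 16⟩, ⟨.ofNat 70, .ofNat 20⟩, ⟨.ofNat 18, .ofNat 81⟩, ⟨.ofNat 63, .ofNat 18⟩⟩ ⟨.ofNat 9, .negSucc 0⟩ ⟨.ofNat 2, .ofNat 9⟩ ⟨.ofNat 1, .ofNat 0⟩ 0 (.leaf 0 [0, 0, 64]) (.leaf 0 [64, 64, 11])) (.s12 ⟨⟨.ofNat 0, .ofNat 1⟩, ⟨.negSucc 0, .ofNat 2⟩, ⟨.ofNat 0, .ofNat 2⟩, ⟨.ofNat 0, .ofNat 1⟩⟩ ⟨.ofNat 0, .ofNat 1⟩ ⟨.ofNat 1, .ofNat 0⟩ ⟨.ofNat 0, .ofNat 1⟩ 0 (.s02 ⟨⟨.ofNat 3, .ofNat 4⟩, ⟨.ofNat 5, .ofNat 2⟩, ⟨.ofNat 12, .ofNat 2⟩, ⟨.ofNat 5, .ofNat 2⟩⟩ ⟨.ofNat 0, .ofNat 1⟩ ⟨.ofNat 5, .ofNat 0⟩ ⟨.ofNat 1, .ofNat 1⟩ 0 (.leaf 0 [64, 40,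 34, 64]) (.leaf 0 [0, 64, 43])) (.s01 ⟨⟨.ofNat 81, .ofNat 16⟩, ⟨.ofNat 70, .ofNat 20⟩, ⟨.ofNat 18, .ofNat 81⟩, ⟨.ofNat 63, .ofNat 18⟩⟩ ⟨.ofNat 9, .negSucc 0⟩ ⟨.ofNat 2, .ofNat 9⟩ ⟨.ofNat 1, .ofNat 0⟩ 0 (.leaf 0 [0, 0, 64]) (.leaf 0 [0, 64, 43])))) (.s01 ⟨⟨.ofNat 99, .negSucc 1⟩, ⟨.ofNat 90, .ofNat 0⟩, ⟨.ofNat 20, .ofNat 63⟩, ⟨.ofNat 81, .ofNat 0⟩⟩ ⟨.ofNat 9, .negSucc 0⟩ ⟨.ofNat 0, .ofNat 9⟩ ⟨.ofNat 1, .ofNat 0⟩ 0 (.s12 ⟨⟨.ofNat 81, .ofNat 16⟩, ⟨.ofNat 70, .ofNat 20⟩, ⟨.ofNat 18, .ofNat 81⟩, ⟨.ofNat 63, .ofNat 18⟩⟩ ⟨.ofNat 2, .ofNat 9⟩ ⟨.ofNat 9, .negSucc 0⟩ ⟨.ofNat 1, .ofNat 0⟩ 0 (.leaf 0 [64,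 11]) (.leaf 0 [0])) (.leaf 0 [0, 17])))

/-- part of a tree -/
def t5_2 : Tree := .s23 ⟨⟨.ofNat 9, .ofNat 2⟩, ⟨.ofNat 7, .ofNat 2⟩, ⟨.ofNat 2, .ofNat 9⟩, ⟨.ofNat 7, .ofNat 2⟩⟩ ⟨.ofNat 2, .ofNat 0⟩ ⟨.ofNat 0, .ofNat 1⟩ ⟨.ofNat 0, .ofNat 1⟩ 0 (.s01 ⟨⟨.negSucc 0, .ofNat 2⟩, ⟨.ofNat 2, .ofNat 0⟩, ⟨.ofNat 1, .ofNat 1⟩, ⟨.ofNat 0, .ofNat 1⟩⟩ ⟨.ofNat 0, .ofNat 1⟩ ⟨.ofNat 1, .ofNat 0⟩ ⟨.ofNat 0, .ofNat 1⟩ 0 (.s13 ⟨⟨.ofNat 99, .negSucc 1⟩, ⟨.ofNat 90, .ofNat 0⟩, ⟨.ofNat 20, .ofNat 63⟩, ⟨.ofNat 81, .ofNat 0⟩⟩ ⟨.ofNat 0, .ofNat 9⟩ ⟨.ofNat 9, .negSucc 0⟩ ⟨.ofNat 1, .ofNat 0⟩ 0 (.leaf 0 [64, 4, 64]) (.s12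 ⟨⟨.ofNat 81, .ofNat 16⟩, ⟨.ofNat 70, .ofNat 20⟩, ⟨.ofNat 18, .ofNat 81⟩, ⟨.ofNat 63, .ofNat 18⟩⟩ ⟨.ofNat 2, .ofNat 9⟩ ⟨.ofNat 9, .negSucc 0⟩ ⟨.ofNat 1, .ofNat 0⟩ 0 (.leaf 0 [64, 4, 64]) (.leaf 0 [0]))) (.s03 ⟨⟨.negSucc 10, .ofNat 18⟩, ⟨.negSucc 1, .ofNat 9⟩, ⟨.ofNat 5, .ofNat 9⟩, ⟨.negSucc 1, .ofNat 9⟩⟩ ⟨.ofNat 0, .ofNat 7⟩ ⟨.ofNat 1, .ofNat 0⟩ ⟨.ofNat 0, .ofNat 1⟩ 0 (.leaf 0 [64, 4, 64, 64]) (.s02 ⟨⟨.ofNat 3, .negSucc 0⟩, ⟨.ofNat 1, .ofNat 0⟩, ⟨.ofNat 0, .ofNat 1⟩, ⟨.ofNat 1, .ofNat 0⟩⟩ ⟨.ofNat 5, .ofNat 0⟩ ⟨.negSucc 0, .ofNat 1⟩ ⟨.ofNat 0, .ofNat 7⟩ 0 (.leaf 0 [64, 4, 64, 64]) (.leaf 0 [0,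 43, 14])))) (.s12 ⟨⟨.ofNat 0, .ofNat 1⟩, ⟨.negSucc 0, .ofNat 2⟩, ⟨.ofNat 0, .ofNat 2⟩, ⟨.ofNat 0, .ofNat 1⟩⟩ ⟨.ofNat 0, .ofNat 1⟩ ⟨.ofNat 1, .ofNat 0⟩ ⟨.ofNat 0, .ofNat 1⟩ 0 (.s23 ⟨⟨.ofNat 3, .ofNat 4⟩, ⟨.ofNat 5, .ofNat 2⟩, ⟨.ofNat 12, .ofNat 2⟩, ⟨.ofNat 5, .ofNat 2⟩⟩ ⟨.ofNat 5, .ofNat 0⟩ ⟨.ofNat 0, .ofNat 1⟩ ⟨.ofNat 1, .ofNat 1⟩ 0 (.s03 ⟨⟨.ofNat 3, .negSucc 0⟩, ⟨.ofNat 1, .ofNat 0⟩, ⟨.ofNat 0, .ofNat 1⟩, ⟨.ofNat 1, .ofNat 0⟩⟩ ⟨.ofNat 5, .ofNat 0⟩ ⟨.negSucc 0, .ofNat 1⟩ ⟨.ofNat 0, .ofNat 7⟩ 0 (.leaf 0 [0, 64, 43]) (.leaf 0 [0, 0, 64, 0, 34])) (.s02 ⟨⟨.negSucc 8, .ofNat 22⟩, ⟨.ofNat 0, .ofNat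 11⟩, ⟨.ofNat 0, .ofNat 20⟩, ⟨.ofNat 0, .ofNat 11⟩⟩ ⟨.ofNat 2, .ofNat 13⟩ ⟨.ofNat 9, .negSucc 1⟩ ⟨.ofNat 0, .ofNat 1⟩ 0 (.leaf 0 [18, 38, 64, 64, 64]) (.leaf 0 [0, 0, 64, 0, 34]))) (.s01 ⟨⟨.negSucc 0, .ofNat 2⟩, ⟨.ofNat 2, .ofNat 0⟩, ⟨.ofNat 1, .ofNat 1⟩, ⟨.ofNat 0, .ofNat 1⟩⟩ ⟨.ofNat 0, .ofNat 1⟩ ⟨.ofNat 1, .ofNat 0⟩ ⟨.ofNat 0, .ofNat 1⟩ 0 (.s13 ⟨⟨.ofNat 81, .ofNat 16⟩, ⟨.ofNat 70, .ofNat 20⟩, ⟨.ofNat 18, .ofNat 81⟩, ⟨.ofNat 63, .ofNat 18⟩⟩ ⟨.ofNat 2, .ofNat 9⟩ ⟨.ofNat 9, .negSucc 0⟩ ⟨.ofNat 1, .ofNat 0⟩ 0 (.leaf 0 [64, 0, 64, 43]) (.leaf 0 [0, 64])) (.s03 ⟨⟨.ofNat 3, .negSucc 0⟩, ⟨.ofNat 1,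 .ofNat 0⟩, ⟨.ofNat 0, .ofNat 1⟩, ⟨.ofNat 1, .ofNat 0⟩⟩ ⟨.ofNat 5, .ofNat 0⟩ ⟨.negSucc 0, .ofNat 1⟩ ⟨.ofNat 0, .ofNat 7⟩ 0 (.leaf 0 [64, 0, 64, 43]) (.leaf 0 [0, 64, 0, 34]))))

/-- part of a tree -/
def t5_1 : Tree := .s02 ⟨⟨.ofNat 0, .ofNat 1⟩, ⟨.ofNat 1, .ofNat 0⟩, ⟨.ofNat 0, .ofNat 1⟩, ⟨.ofNat 1, .ofNat 0⟩⟩ ⟨.ofNat 1, .ofNat 0⟩ ⟨.negSucc 0, .ofNat 1⟩ ⟨.ofNat 0, .ofNat 1⟩ 0 t5_2 (.s12 ⟨⟨.negSucc 0, .ofNat 2⟩, ⟨.ofNat 2, .ofNat 0⟩, ⟨.ofNat 1, .ofNat 1⟩, ⟨.ofNat 0, .ofNat 1⟩⟩ ⟨.ofNat 1, .ofNat 0⟩ ⟨.ofNat 0, .ofNat 1⟩ ⟨.ofNat 0, .ofNat 1⟩ 0 (.s23 ⟨⟨.negSucc 10, .ofNat 18⟩, ⟨.negSucc 1, .ofNat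 9⟩, ⟨.ofNat 5, .ofNat 9⟩, ⟨.negSucc 1, .ofNat 9⟩⟩ ⟨.ofNat 0, .ofNat 7⟩ ⟨.ofNat 1, .ofNat 0⟩ ⟨.ofNat 0, .ofNat 1⟩ 0 (.leaf 0 [64, 0, 64, 40, 64]) (.leaf 0 [0, 0, 64, 0, 45])) (.s13 ⟨⟨.ofNat 99, .negSucc 1⟩, ⟨.ofNat 90, .ofNat 0⟩, ⟨.ofNat 20, .ofNat 63⟩, ⟨.ofNat 81, .ofNat 0⟩⟩ ⟨.ofNat 0, .ofNat 9⟩ ⟨.ofNat 9, .negSucc 0⟩ ⟨.ofNat 1, .ofNat 0⟩ 0 (.leaf 0 [64, 0, 64, 40, 64]) (.leaf 0 [0, 0, 0, 64, 55])))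

/-- part of a tree -/
def t5 : Tree := .s03 ⟨⟨.ofNat 11, .ofNat 0⟩, ⟨.ofNat 9, .ofNat 0⟩, ⟨.ofNat 2, .ofNat 7⟩, ⟨.ofNat 9, .ofNat 0⟩⟩ ⟨.ofNat 2, .ofNat 0⟩ ⟨.ofNat 7, .ofNat 0⟩ ⟨.ofNat 1, .ofNat 0⟩ 0 t5_0 t5_1

theorem g5 : Good (PD lin H) ⟨⟨.ofNat 2, .ofNat 0⟩, ⟨.ofNat 1, .ofNat 0⟩, ⟨.ofNat 1, .ofNat 0⟩, ⟨.ofNat 1, .ofNat 0⟩⟩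
    ⟨⟨.ofNat 1, .ofNat 0⟩, ⟨.ofNat 0, .ofNat 1⟩, ⟨.ofNat 0, .ofNat 1⟩, ⟨.ofNat 1, .ofNat 0⟩⟩
    ⟨⟨.ofNat 1, .ofNat 0⟩, ⟨.ofNat 1, .ofNat 0⟩, ⟨.ofNat 1, .ofNat 1⟩, ⟨.ofNat 1, .ofNat 0⟩⟩
    ⟨⟨.ofNat 1, .ofNat 0⟩, ⟨.ofNat 1, .ofNat 0⟩, ⟨.ofNat 0, .ofNat 1⟩, ⟨.ofNat 1, .ofNat 0⟩⟩ :=
  goodD lin H t5 (by decide +kernel)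

/-- part of a tree -/
def t6_3 : Tree := .s12 ⟨⟨.ofNat 1, .ofNat 0⟩, ⟨.ofNat 0, .ofNat 2⟩, ⟨.ofNat 1, .ofNat 1⟩, ⟨.ofNat 1, .ofNat 0⟩⟩ ⟨.negSucc 0, .ofNat 2⟩ ⟨.ofNat 1, .ofNat 0⟩ ⟨.ofNat 1, .ofNat 0⟩ 0 (.s12 ⟨⟨.ofNat 1, .ofNat 0⟩, ⟨.ofNat 0, .ofNat 1⟩, ⟨.ofNat 1, .ofNat 1⟩, ⟨.ofNat 1, .ofNat 0⟩⟩ ⟨.negSucc 0, .ofNat 1⟩ ⟨.ofNat 0, .ofNat 1⟩ ⟨.negSucc 0, .ofNat 2⟩ 0 (.s23 ⟨⟨.negSucc 0, .ofNat 2⟩, ⟨.ofNat 2, .ofNat 1⟩, ⟨.ofNat 2, .ofNat 2⟩, ⟨.negSucc 0, .ofNat 2⟩⟩ ⟨.ofNat 2, .ofNat 0⟩ ⟨.ofNat 1, .ofNat 0⟩ ⟨.ofNat 0, .ofNat 1⟩ 0 (.s03 ⟨⟨.negSucc 8, .ofNat 42⟩, ⟨.ofNat 38, .ofNat 7⟩, ⟨.ofNat 18,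 .ofNat 36⟩, ⟨.ofNat 9, .ofNat 20⟩⟩ ⟨.ofNat 0, .ofNat 2⟩ ⟨.ofNat 9, .negSucc 1⟩ ⟨.ofNat 0, .ofNat 1⟩ 0 (.leaf 0 [12, 0, 64]) (.leaf 0 [0, 0, 23, 64, 64])) (.leaf 0 [0, 0, 0, 23, 64, 64])) (.s01 ⟨⟨.ofNat 42, .ofNat 2⟩, ⟨.negSucc 10, .ofNat 29⟩, ⟨.ofNat 29, .ofNat 18⟩, ⟨.ofNat 31, .ofNat 0⟩⟩ ⟨.ofNat 1, .ofNat 2⟩ ⟨.ofNat 9, .negSucc 1⟩ ⟨.ofNat 1, .ofNat 1⟩ 0 (.leaf 0 [0, 0, 41, 64]) (.s03 ⟨⟨.negSucc 8, .ofNat 42⟩, ⟨.ofNat 38, .ofNat 7⟩, ⟨.ofNat 18, .ofNat 36⟩, ⟨.ofNat 9, .ofNat 20⟩⟩ ⟨.ofNat 0, .ofNat 2⟩ ⟨.ofNat 9, .negSucc 1⟩ ⟨.ofNat 0, .ofNat 1⟩ 0 (.leaf 0 [12, 0, 64, 64]) (.leaf 0 [0, 0, 23,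 64, 64])))) (.s01 ⟨⟨.negSucc 8, .ofNat 22⟩, ⟨.ofNat 31, .ofNat 11⟩, ⟨.ofNat 0, .ofNat 20⟩, ⟨.ofNat 0, .ofNat 11⟩⟩ ⟨.ofNat 1, .ofNat 0⟩ ⟨.ofNat 31, .ofNat 0⟩ ⟨.ofNat 1, .ofNat 0⟩ 0 (.s23 ⟨⟨.ofNat 0, .ofNat 3⟩, ⟨.negSucc 3, .ofNat 11⟩, ⟨.ofNat 0, .ofNat 7⟩, ⟨.ofNat 0, .ofNat 3⟩⟩ ⟨.ofNat 1, .ofNat 1⟩ ⟨.ofNat 3, .negSucc 0⟩ ⟨.ofNat 1, .ofNat 0⟩ 0 (.leaf 0 [0, 64]) (.leaf 0 [0, 0, 39, 64])) (.s01 ⟨⟨.negSucc 8, .ofNat 22⟩, ⟨.ofNat 20, .ofNat 0⟩, ⟨.ofNat 0, .ofNat 20⟩, ⟨.ofNat 0, .ofNat 11⟩⟩ ⟨.ofNat 11, .ofNat 22⟩ ⟨.negSucc 10, .ofNat 9⟩ ⟨.ofNat 0, .ofNat 31⟩ 0 (.s02 ⟨⟨.negSucc 24, .ofNat 46⟩, ⟨.ofNat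 70, .ofNat 40⟩, ⟨.ofNat 10, .ofNat 65⟩, ⟨.ofNat 4, .ofNat 26⟩⟩ ⟨.negSucc 2, .ofNat 2⟩ ⟨.ofNat 0, .ofNat 15⟩ ⟨.negSucc 0, .ofNat 1⟩ 0 (.leaf 0 [0, 41, 64]) (.leaf 0 [9, 10, 64])) (.s02 ⟨⟨.ofNat 42, .ofNat 2⟩, ⟨.negSucc 10, .ofNat 29⟩, ⟨.ofNat 29, .ofNat 18⟩, ⟨.ofNat 31, .ofNat 0⟩⟩ ⟨.ofNat 1, .ofNat 2⟩ ⟨.ofNat 9, .negSucc 1⟩ ⟨.ofNat 1, .ofNat 1⟩ 0 (.s12 ⟨⟨.negSucc 24, .ofNat 46⟩, ⟨.ofNat 70, .ofNat 40⟩, ⟨.ofNat 10, .ofNat 65⟩, ⟨.ofNat 4, .ofNat 26⟩⟩ ⟨.negSucc 2, .ofNat 2⟩ ⟨.ofNat 0, .ofNat 15⟩ ⟨.negSucc 0, .ofNat 1⟩ 0 (.leaf 0 [0, 0, 41, 64]) (.leaf 0 [9, 10, 64])) (.leaf 0 [0, 64, 64, 0, 64,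 39]))))

/-- part of a tree -/
def t6_2 : Tree := .s02 ⟨⟨.negSucc 8, .ofNat 22⟩, ⟨.ofNat 0, .ofNat 11⟩, ⟨.ofNat 0, .ofNat 20⟩, ⟨.ofNat 0, .ofNat 11⟩⟩ ⟨.ofNat 2, .ofNat 13⟩ ⟨.ofNat 9, .negSucc 1⟩ ⟨.ofNat 0, .ofNat 1⟩ 0 t6_3 (.s12 ⟨⟨.negSucc 8, .ofNat 22⟩, ⟨.ofNat 31, .ofNat 11⟩, ⟨.ofNat 0, .ofNat 20⟩, ⟨.ofNat 0, .ofNat 11⟩⟩ ⟨.ofNat 31, .ofNat 0⟩ ⟨.ofNat 1, .ofNat 0⟩ ⟨.ofNat 1, .ofNat 0⟩ 0 (.s12 ⟨⟨.negSucc 8, .ofNat 22⟩, ⟨.ofNat 20, .ofNat 0⟩, ⟨.ofNat 0, .ofNat 20⟩, ⟨.ofNat 0, .ofNat 11⟩⟩ ⟨.negSucc 10, .ofNat 9⟩ ⟨.ofNat 11, .ofNat 22⟩ ⟨.ofNat 0, .ofNat 31⟩ 0 (.leaf 0 [0, 46, 64, 0, 0, 21]) (.leaf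 0 [64, 64, 0, 49])) (.s01 ⟨⟨.ofNat 0, .ofNat 1⟩, ⟨.ofNat 1, .ofNat 1⟩, ⟨.ofNat 0, .ofNat 1⟩, ⟨.ofNat 1, .ofNat 0⟩⟩ ⟨.ofNat 1, .ofNat 0⟩ ⟨.ofNat 0, .ofNat 1⟩ ⟨.ofNat 1, .ofNat 0⟩ 0 (.leaf 0 [0, 37, 64]) (.leaf 0 [64, 64, 0, 49])))

/-- part of a tree -/
def t6_1 : Tree := .s02 ⟨⟨.ofNat 0, .ofNat 1⟩, ⟨.ofNat 1, .ofNat 0⟩, ⟨.ofNat 0, .ofNat 1⟩, ⟨.ofNat 1, .ofNat 0⟩⟩ ⟨.ofNat 1, .ofNat 0⟩ ⟨.negSucc 0, .ofNat 1⟩ ⟨.ofNat 0, .ofNat 1⟩ 0 t6_2 (.s12 ⟨⟨.ofNat 0, .ofNat 1⟩, ⟨.ofNat 1, .ofNat 1⟩, ⟨.ofNat 0, .ofNat 1⟩, ⟨.ofNat 1, .ofNat 0⟩⟩ ⟨.ofNat 0, .ofNat 1⟩ ⟨.ofNat 1, .ofNat 0⟩ ⟨.ofNat 1, .ofNat 0⟩ 0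 (.s03 ⟨⟨.negSucc 0, .ofNat 2⟩, ⟨.ofNat 3, .ofNat 0⟩, ⟨.ofNat 1, .ofNat 1⟩, ⟨.ofNat 0, .ofNat 1⟩⟩ ⟨.ofNat 1, .ofNat 0⟩ ⟨.ofNat 1, .ofNat 0⟩ ⟨.ofNat 0, .ofNat 1⟩ 0 (.leaf 0 [64, 64, 0, 49]) (.leaf 0 [0, 64, 6, 0])) (.s03 ⟨⟨.negSucc 0, .ofNat 2⟩, ⟨.ofNat 3, .ofNat 0⟩, ⟨.ofNat 1, .ofNat 1⟩, ⟨.ofNat 0, .ofNat 1⟩⟩ ⟨.ofNat 1, .ofNat 0⟩ ⟨.ofNat 1, .ofNat 0⟩ ⟨.ofNat 0, .ofNat 1⟩ 0 (.leaf 0 [0, 46, 64]) (.leaf 0 [0, 17, 0, 0, 0])))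

/-- part of a tree -/
def t6_0 : Tree := .s23 ⟨⟨.ofNat 0, .ofNat 1⟩, ⟨.negSucc 0, .ofNat 3⟩, ⟨.ofNat 0, .ofNat 2⟩, ⟨.ofNat 0, .ofNat 1⟩⟩ ⟨.ofNat 1, .ofNat 0⟩ ⟨.ofNat 0, .ofNat 1⟩ ⟨.ofNat 0, .ofNat 1⟩ 0 (.s02 ⟨⟨.negSucc 0, .ofNat 2⟩, ⟨.ofNat 3, .ofNat 0⟩, ⟨.ofNat 1, .ofNat 1⟩, ⟨.ofNat 0, .ofNat 1⟩⟩ ⟨.ofNat 1, .ofNat 0⟩ ⟨.ofNat 1, .ofNat 0⟩ ⟨.ofNat 0, .ofNat 1⟩ 0 (.leaf 0 [0, 46]) (.leaf 0 [0, 0, 0, 0, 20])) t6_1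

/-- part of a tree -/
def t6 : Tree := .s13 ⟨⟨.ofNat 1, .ofNat 0⟩, ⟨.ofNat 0, .ofNat 2⟩, ⟨.ofNat 0, .ofNat 1⟩, ⟨.ofNat 1, .ofNat 0⟩⟩ ⟨.ofNat 0, .ofNat 1⟩ ⟨.ofNat 1, .ofNat 0⟩ ⟨.ofNat 1, .ofNat 0⟩ 0 (.s23 ⟨⟨.ofNat 0, .ofNat 1⟩, ⟨.negSucc 0, .ofNat 2⟩, ⟨.ofNat 0, .ofNat 2⟩, ⟨.ofNat 0, .ofNat 1⟩⟩ ⟨.ofNat 1, .ofNat 0⟩ ⟨.ofNat 0, .ofNat 1⟩ ⟨.ofNat 0, .ofNat 1⟩ 0 (.s02 ⟨⟨.negSucc 0, .ofNat 2⟩, ⟨.ofNat 2, .ofNat 0⟩, ⟨.ofNat 1, .ofNat 1⟩, ⟨.ofNat 0, .ofNat 1⟩⟩ ⟨.ofNat 1, .ofNat 0⟩ ⟨.ofNat 1, .ofNat 0⟩ ⟨.ofNat 0, .ofNat 1⟩ 0 (.leaf 0 [0, 64, 64, 1]) (.leaf 0 [0, 64, 0, 64])) (.s12 ⟨⟨.ofNat 0, .ofNat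 1⟩, ⟨.negSucc 0, .ofNat 3⟩, ⟨.ofNat 0, .ofNat 2⟩, ⟨.ofNat 0, .ofNat 1⟩⟩ ⟨.ofNat 0, .ofNat 1⟩ ⟨.ofNat 1, .ofNat 0⟩ ⟨.ofNat 0, .ofNat 1⟩ 0 (.s02 ⟨⟨.ofNat 0, .ofNat 1⟩, ⟨.ofNat 1, .ofNat 0⟩, ⟨.ofNat 0, .ofNat 1⟩, ⟨.ofNat 1, .ofNat 0⟩⟩ ⟨.ofNat 1, .ofNat 0⟩ ⟨.negSucc 0, .ofNat 1⟩ ⟨.ofNat 0, .ofNat 1⟩ 0 (.s02 ⟨⟨.negSucc 8, .ofNat 22⟩, ⟨.ofNat 0, .ofNat 11⟩, ⟨.ofNat 0, .ofNat 20⟩, ⟨.ofNat 0, .ofNat 11⟩⟩ ⟨.ofNat 2, .ofNat 13⟩ ⟨.ofNat 9, .negSucc 1⟩ ⟨.ofNat 0, .ofNat 1⟩ 0 (.s12 ⟨⟨.negSucc 0, .ofNat 2⟩, ⟨.ofNat 2, .ofNat 1⟩, ⟨.ofNat 2, .ofNat 2⟩, ⟨.negSucc 0, .ofNat 2⟩⟩ ⟨.ofNat 1, .ofNat 0⟩ ⟨.ofNat 2,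 .ofNat 0⟩ ⟨.ofNat 0, .ofNat 1⟩ 0 (.leaf 0 [64, 0, 25, 18, 64, 64]) (.leaf 0 [0, 64, 64, 0, 64, 39])) (.leaf 0 [0, 46, 64, 0, 0, 21])) (.s03 ⟨⟨.negSucc 0, .ofNat 2⟩, ⟨.ofNat 2, .ofNat 0⟩, ⟨.ofNat 1, .ofNat 1⟩, ⟨.ofNat 0, .ofNat 1⟩⟩ ⟨.ofNat 1, .ofNat 0⟩ ⟨.ofNat 1, .ofNat 0⟩ ⟨.ofNat 0, .ofNat 1⟩ 0 (.leaf 0 [0, 62, 64, 0, 64, 9]) (.s01 ⟨⟨.negSucc 0, .ofNat 2⟩, ⟨.ofNat 3, .ofNat 0⟩, ⟨.ofNat 1, .ofNat 1⟩, ⟨.ofNat 0, .ofNat 1⟩⟩ ⟨.ofNat 1, .ofNat 0⟩ ⟨.ofNat 1, .ofNat 0⟩ ⟨.ofNat 0, .ofNat 1⟩ 0 (.leaf 0 [64, 64, 0, 49]) (.leaf 0 [0, 64, 19, 0])))) (.s03 ⟨⟨.negSucc 0, .ofNat 2⟩, ⟨.ofNat 2, .ofNat 0⟩,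 ⟨.ofNat 1, .ofNat 1⟩, ⟨.ofNat 0, .ofNat 1⟩⟩ ⟨.ofNat 1, .ofNat 0⟩ ⟨.ofNat 1, .ofNat 0⟩ ⟨.ofNat 0, .ofNat 1⟩ 0 (.leaf 0 [0, 41, 0, 0]) (.s02 ⟨⟨.negSucc 0, .ofNat 2⟩, ⟨.ofNat 3, .ofNat 0⟩, ⟨.ofNat 1, .ofNat 1⟩, ⟨.ofNat 0, .ofNat 1⟩⟩ ⟨.ofNat 1, .ofNat 0⟩ ⟨.ofNat 1, .ofNat 0⟩ ⟨.ofNat 0, .ofNat 1⟩ 0 (.leaf 0 [53, 0]) (.leaf 0 [0, 0, 0, 38]))))) t6_0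

theorem g6 : Good (PD lin H) ⟨⟨.ofNat 2, .ofNat 0⟩, ⟨.ofNat 1, .ofNat 0⟩, ⟨.ofNat 1, .ofNat 0⟩, ⟨.ofNat 1, .ofNat 0⟩⟩
    ⟨⟨.ofNat 0, .ofNat 0⟩, ⟨.ofNat 1, .ofNat 0⟩, ⟨.ofNat 0, .ofNat 0⟩, ⟨.ofNat 0, .ofNat 0⟩⟩
    ⟨⟨.ofNat 1, .ofNat 0⟩, ⟨.ofNat 1, .ofNat 0⟩, ⟨.ofNat 1, .ofNat 1⟩, ⟨.ofNat 1, .ofNat 0⟩⟩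
    ⟨⟨.ofNat 1, .ofNat 0⟩, ⟨.ofNat 0, .ofNat 1⟩, ⟨.ofNat 0, .ofNat 1⟩, ⟨.ofNat 1, .ofNat 0⟩⟩ :=
  goodD lin H t6 (by decide +kernel)

/-- part of a tree -/
def t9 : Tree := .s03 ⟨⟨.ofNat 0, .ofNat 2⟩, ⟨.ofNat 1, .ofNat 0⟩, ⟨.ofNat 1, .ofNat 0⟩, ⟨.ofNat 1, .ofNat 0⟩⟩ ⟨.ofNat 2, .ofNat 0⟩ ⟨.ofNat 0, .ofNat 1⟩ ⟨.ofNat 0, .ofNat 1⟩ 0 (.s12 ⟨⟨.ofNat 0, .ofNat 1⟩, ⟨.ofNat 1, .ofNat 1⟩, ⟨.ofNat 0, .ofNat 1⟩, ⟨.ofNat 1, .ofNat 0⟩⟩ ⟨.ofNat 0, .ofNat 1⟩ ⟨.ofNat 1, .ofNat 0⟩ ⟨.ofNat 1, .ofNat 0⟩ 0 (.leaf 0 [0, 29, 64, 20, 64]) (.leaf 0 [0, 64, 23, 0, 0, 64])) (.s02 ⟨⟨.ofNat 1, .ofNat 1⟩, ⟨.ofNat 1, .ofNat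 0⟩, ⟨.ofNat 0, .ofNat 1⟩, ⟨.ofNat 1, .ofNat 0⟩⟩ ⟨.ofNat 1, .ofNat 0⟩ ⟨.ofNat 1, .ofNat 0⟩ ⟨.ofNat 1, .ofNat 0⟩ 0 (.s12 ⟨⟨.ofNat 0, .ofNat 1⟩, ⟨.ofNat 1, .ofNat 1⟩, ⟨.ofNat 0, .ofNat 1⟩, ⟨.ofNat 1, .ofNat 0⟩⟩ ⟨.ofNat 0, .ofNat 1⟩ ⟨.ofNat 1, .ofNat 0⟩ ⟨.ofNat 1, .ofNat 0⟩ 0 (.s02 ⟨⟨.ofNat 10, .negSucc 2⟩, ⟨.ofNat 3, .ofNat 0⟩, ⟨.ofNat 0, .ofNat 3⟩, ⟨.ofNat 3, .ofNat 0⟩⟩ ⟨.ofNat 4, .negSucc 1⟩ ⟨.negSucc 0, .ofNat 5⟩ ⟨.ofNat 1, .ofNat 1⟩ 0 (.leaf 0 [0, 34, 64, 26, 64]) (.s12 ⟨⟨.negSucc 36, .ofNat 69⟩, ⟨.ofNat 0, .ofNat 30⟩, ⟨.ofNat 27, .ofNat 27⟩, ⟨.ofNat 0, .ofNat 27⟩⟩ ⟨.ofNat 3, .ofNat 0⟩ ⟨.negSucc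 0, .ofNat 9⟩ ⟨.ofNat 1, .ofNat 0⟩ 0 (.leaf 0 [0, 0, 33]) (.leaf 0 [0, 0, 64, 5, 0]))) (.s01 ⟨⟨.ofNat 1, .ofNat 1⟩, ⟨.ofNat 0, .ofNat 1⟩, ⟨.ofNat 0, .ofNat 1⟩, ⟨.ofNat 1, .ofNat 0⟩⟩ ⟨.ofNat 0, .ofNat 1⟩ ⟨.ofNat 1, .ofNat 0⟩ ⟨.ofNat 0, .ofNat 1⟩ 0 (.leaf 0 [0, 0, 0, 0, 26]) (.leaf 0 [0, 0, 64, 5, 0]))) (.s02 ⟨⟨.ofNat 0, .ofNat 2⟩, ⟨.ofNat 1, .ofNat 0⟩, ⟨.ofNat 0, .ofNat 1⟩, ⟨.ofNat 1, .ofNat 0⟩⟩ ⟨.ofNat 1, .ofNat 0⟩ ⟨.ofNat 0, .ofNat 1⟩ ⟨.ofNat 0, .ofNat 1⟩ 0 (.s12 ⟨⟨.ofNat 1, .ofNat 1⟩, ⟨.ofNat 0, .ofNat 1⟩, ⟨.ofNat 0, .ofNat 1⟩, ⟨.ofNat 1, .ofNat 0⟩⟩ ⟨.ofNat 1, .ofNat 0⟩ ⟨.ofNat 0, .ofNat 1⟩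 ⟨.ofNat 0, .ofNat 1⟩ 0 (.leaf 0 [0, 12]) (.leaf 0 [0, 0, 0])) (.leaf 0 [0, 0, 0])))

theorem g9 : Good (PD lin H) ⟨⟨.ofNat 1, .ofNat 0⟩, ⟨.ofNat 0, .ofNat 0⟩, ⟨.ofNat 0, .ofNat 0⟩, ⟨.ofNat 0, .ofNat 0⟩⟩
    ⟨⟨.ofNat 0, .ofNat 0⟩, ⟨.ofNat 1, .ofNat 0⟩, ⟨.ofNat 0, .ofNat 0⟩, ⟨.ofNat 0, .ofNat 0⟩⟩
    ⟨⟨.ofNat 0, .ofNat 1⟩, ⟨.ofNat 1, .ofNat 0⟩, ⟨.ofNat 0, .ofNat 1⟩, ⟨.ofNat 1, .ofNat 0⟩⟩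
    ⟨⟨.ofNat 2, .ofNat 0⟩, ⟨.ofNat 1, .ofNat 0⟩, ⟨.ofNat 1, .ofNat 0⟩, ⟨.ofNat 1, .ofNat 0⟩⟩ :=
  goodD lin H t9 (by decide +kernel)

end

end Pool.Agent.PHCert.D1
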