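import Pool.Agent.PHCert.D1H

/-!
# PHCert: inequality D1, part 3 (81 leaves, checked by the kernel)
-/

set_option autoImplicit false

namespace Pool.Agent.PHCert.D1

open Zp Pool.Agent.PHCert

noncomputable section

/-- part of a tree -/
def t10_1 : Tree := .s02 ⟨⟨.ofNat 10, .ofNat 0⟩, ⟨.ofNat 7, .ofNat 0⟩, ⟨.ofNat 10, .ofNat 4⟩, ⟨.ofNat 7, .ofNat 0⟩⟩ ⟨.ofNat 3, .ofNat 0⟩ ⟨.ofNat 44, .ofNat 14⟩ ⟨.ofNat 11, .ofNat 2⟩ 0 (.s12 ⟨⟨.ofNat 1, .ofNat 0⟩, ⟨.ofNat 0, .ofNat 1⟩, ⟨.ofNat 1, .ofNat 1⟩, ⟨.ofNat 1, .ofNat 0⟩⟩ ⟨.negSucc 0, .ofNat 1⟩ ⟨.ofNat 0, .ofNat 1⟩ ⟨.negSucc 0, .ofNat 2⟩ 0 (.leaf 0 [0, 0, 0, 23,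 64, 64, 64]) (.s01 ⟨⟨.negSucc 9, .ofNat 17⟩, ⟨.ofNat 14, .ofNat 1⟩, ⟨.ofNat 1, .ofNat 18⟩, ⟨.negSucc 9, .ofNat 14⟩⟩ ⟨.ofNat 1, .ofNat 2⟩ ⟨.negSucc 2, .ofNat 4⟩ ⟨.ofNat 1, .ofNat 1⟩ 0 (.s13 ⟨⟨.ofNat 42, .ofNat 2⟩, ⟨.negSucc 10, .ofNat 29⟩, ⟨.ofNat 29, .ofNat 18⟩, ⟨.ofNat 31, .ofNat 0⟩⟩ ⟨.ofNat 9, .negSucc 1⟩ ⟨.ofNat 1, .ofNat 2⟩ ⟨.ofNat 1, .ofNat 1⟩ 0 (.leaf 0 [0, 0, 23, 64, 64, 64]) (.leaf 0 [0, 41, 64, 64])) (.leaf 0 [0, 0, 23, 64, 64, 64]))) (.s01 ⟨⟨.ofNat 110, .ofNat 20⟩, ⟨.ofNat 61, .ofNat 116⟩, ⟨.ofNat 118, .ofNat 72⟩, ⟨.ofNat 77, .ofNat 14⟩⟩ ⟨.ofNat 3, .ofNat 0⟩ ⟨.ofNat 44, .ofNat 14⟩ ⟨.ofNat 1,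 .ofNat 0⟩ 0 (.s12 ⟨⟨.negSucc 9, .ofNat 17⟩, ⟨.ofNat 14, .ofNat 1⟩, ⟨.ofNat 1, .ofNat 18⟩, ⟨.negSucc 9, .ofNat 14⟩⟩ ⟨.negSucc 2, .ofNat 4⟩ ⟨.ofNat 1, .ofNat 2⟩ ⟨.ofNat 1, .ofNat 1⟩ 0 (.s02 ⟨⟨.ofNat 10, .ofNat 0⟩, ⟨.negSucc 2, .ofNat 7⟩, ⟨.ofNat 10, .ofNat 4⟩, ⟨.ofNat 7, .ofNat 0⟩⟩ ⟨.negSucc 9, .ofNat 7⟩ ⟨.ofNat 80, .ofNat 31⟩ ⟨.negSucc 15, .ofNat 102⟩ 0 (.leaf 0 [0, 1, 64, 64, 0]) (.s03 ⟨⟨.negSucc 808, .ofNat 1942⟩, ⟨.ofNat 1309, .ofNat 285⟩, ⟨.negSucc 617, .ofNat 2188⟩, ⟨.negSucc 1226, .ofNat 1727⟩⟩ ⟨.ofNat 20, .negSucc 10⟩ ⟨.ofNat 80, .ofNat 31⟩ ⟨.ofNat 0, .ofNat 1⟩ 0 (.leaf 0 [0, 1, 64, 64, 0]) (.leaf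 0 [27, 64, 0]))) (.s13 ⟨⟨.ofNat 42, .ofNat 2⟩, ⟨.negSucc 10, .ofNat 29⟩, ⟨.ofNat 29, .ofNat 18⟩, ⟨.ofNat 31, .ofNat 0⟩⟩ ⟨.ofNat 9, .negSucc 1⟩ ⟨.ofNat 1, .ofNat 2⟩ ⟨.ofNat 1, .ofNat 1⟩ 0 (.s03 ⟨⟨.negSucc 808, .ofNat 1942⟩, ⟨.ofNat 1309, .ofNat 285⟩, ⟨.negSucc 617, .ofNat 2188⟩, ⟨.negSucc 1226, .ofNat 1727⟩⟩ ⟨.ofNat 20, .negSucc 10⟩ ⟨.ofNat 80, .ofNat 31⟩ ⟨.ofNat 0, .ofNat 1⟩ 0 (.leaf 0 [0, 1, 64, 64, 0]) (.leaf 0 [27, 64, 0])) (.leaf 0 [0, 41, 64, 64]))) (.s12 ⟨⟨.ofNat 10, .ofNat 0⟩, ⟨.negSucc 2, .ofNat 7⟩, ⟨.ofNat 10, .ofNat 4⟩, ⟨.ofNat 7, .ofNat 0⟩⟩ ⟨.negSucc 9, .ofNat 7⟩ ⟨.ofNat 80, .ofNat 31⟩ ⟨.negSucc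 15, .ofNat 102⟩ 0 (.s02 ⟨⟨.ofNat 0, .ofNat 1⟩, ⟨.ofNat 1, .ofNat 0⟩, ⟨.negSucc 0, .ofNat 2⟩, ⟨.ofNat 1, .ofNat 0⟩⟩ ⟨.ofNat 7, .negSucc 2⟩ ⟨.negSucc 8, .ofNat 13⟩ ⟨.ofNat 14, .ofNat 58⟩ 0 (.leaf 0 [64, 3, 64, 64]) (.s03 ⟨⟨.ofNat 0, .ofNat 11⟩, ⟨.ofNat 11, .ofNat 0⟩, ⟨.ofNat 20, .ofNat 0⟩, ⟨.ofNat 11, .ofNat 0⟩⟩ ⟨.ofNat 9, .negSucc 1⟩ ⟨.ofNat 13, .ofNat 4⟩ ⟨.ofNat 13, .ofNat 15⟩ 0 (.leaf 0 [0, 3, 64, 64]) (.leaf 0 [64, 40]))) (.s13 ⟨⟨.negSucc 808, .ofNat 1942⟩, ⟨.ofNat 1309, .ofNat 285⟩, ⟨.negSucc 617, .ofNat 2188⟩, ⟨.negSucc 1226, .ofNat 1727⟩⟩ ⟨.ofNat 20, .negSucc 10⟩ ⟨.ofNat 80, .ofNat 31⟩ ⟨.ofNat 0,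 .ofNat 1⟩ 0 (.s03 ⟨⟨.ofNat 0, .ofNat 11⟩, ⟨.ofNat 11, .ofNat 0⟩, ⟨.ofNat 20, .ofNat 0⟩, ⟨.ofNat 11, .ofNat 0⟩⟩ ⟨.ofNat 9, .negSucc 1⟩ ⟨.ofNat 13, .ofNat 4⟩ ⟨.ofNat 13, .ofNat 15⟩ 0 (.leaf 0 [0, 3, 64, 64]) (.leaf 0 [64, 40])) (.leaf 0 [64, 0, 0]))))

/-- part of a tree -/
def t10_0 : Tree := .s23 ⟨⟨.negSucc 8, .ofNat 22⟩, ⟨.ofNat 0, .ofNat 11⟩, ⟨.ofNat 0, .ofNat 20⟩, ⟨.ofNat 0, .ofNat 11⟩⟩ ⟨.ofNat 9, .negSucc 1⟩ ⟨.ofNat 2, .ofNat 13⟩ ⟨.ofNat 0, .ofNat 1⟩ 0 (.s13 ⟨⟨.negSucc 8, .ofNat 22⟩, ⟨.ofNat 29, .negSucc 1⟩, ⟨.ofNat 0, .ofNat 20⟩, ⟨.ofNat 0, .ofNat 11⟩⟩ ⟨.ofNat 9, .negSucc 1⟩ ⟨.ofNat 2, .ofNat 13⟩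 ⟨.ofNat 0, .ofNat 1⟩ 0 (.s03 ⟨⟨.ofNat 56, .ofNat 5⟩, ⟨.ofNat 33, .ofNat 3⟩, ⟨.ofNat 54, .ofNat 5⟩, ⟨.ofNat 33, .ofNat 3⟩⟩ ⟨.negSucc 2, .ofNat 2⟩ ⟨.ofNat 3, .ofNat 11⟩ ⟨.negSucc 0, .ofNat 1⟩ 0 (.leaf 0 [0, 42, 22]) (.s02 ⟨⟨.ofNat 0, .ofNat 11⟩, ⟨.ofNat 11, .ofNat 0⟩, ⟨.ofNat 20, .ofNat 0⟩, ⟨.ofNat 11, .ofNat 0⟩⟩ ⟨.ofNat 9, .negSucc 1⟩ ⟨.ofNat 13, .ofNat 4⟩ ⟨.ofNat 13, .ofNat 15⟩ 0 (.leaf 0 [0, 10, 64, 17]) (.leaf 0 [0, 45, 64]))) (.s01 ⟨⟨.ofNat 110, .ofNat 20⟩, ⟨.ofNat 61, .ofNat 116⟩, ⟨.ofNat 118, .ofNat 72⟩, ⟨.ofNat 77, .ofNat 14⟩⟩ ⟨.ofNat 3, .ofNat 0⟩ ⟨.ofNat 44, .ofNat 14⟩ ⟨.ofNat 1, .ofNat 0⟩ 0 (.s12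 ⟨⟨.ofNat 42, .ofNat 2⟩, ⟨.negSucc 10, .ofNat 29⟩, ⟨.ofNat 29, .ofNat 18⟩, ⟨.ofNat 31, .ofNat 0⟩⟩ ⟨.ofNat 9, .negSucc 1⟩ ⟨.ofNat 1, .ofNat 2⟩ ⟨.ofNat 1, .ofNat 1⟩ 0 (.s02 ⟨⟨.negSucc 808, .ofNat 1942⟩, ⟨.ofNat 1309, .ofNat 285⟩, ⟨.negSucc 617, .ofNat 2188⟩, ⟨.negSucc 1226, .ofNat 1727⟩⟩ ⟨.ofNat 20, .negSucc 10⟩ ⟨.ofNat 80, .ofNat 31⟩ ⟨.ofNat 0, .ofNat 1⟩ 0 (.leaf 0 [0, 64, 0, 38]) (.leaf 0 [0, 27, 64])) (.leaf 0 [0, 0, 41, 64, 64])) (.s12 ⟨⟨.negSucc 808, .ofNat 1942⟩, ⟨.ofNat 1309, .ofNat 285⟩, ⟨.negSucc 617, .ofNat 2188⟩, ⟨.negSucc 1226, .ofNat 1727⟩⟩ ⟨.ofNat 20, .negSucc 10⟩ ⟨.ofNat 80, .ofNat 31⟩ ⟨.ofNat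 0, .ofNat 1⟩ 0 (.s02 ⟨⟨.ofNat 0, .ofNat 11⟩, ⟨.ofNat 11, .ofNat 0⟩, ⟨.ofNat 20, .ofNat 0⟩, ⟨.ofNat 11, .ofNat 0⟩⟩ ⟨.ofNat 9, .negSucc 1⟩ ⟨.ofNat 13, .ofNat 4⟩ ⟨.ofNat 13, .ofNat 15⟩ 0 (.leaf 0 [0, 10, 64, 17]) (.leaf 0 [0, 45, 64])) (.leaf 0 [0, 64, 0, 0])))) t10_1

/-- part of a tree -/
def t10 : Tree := .s02 ⟨⟨.ofNat 22, .ofNat 2⟩, ⟨.ofNat 11, .ofNat 0⟩, ⟨.ofNat 20, .ofNat 0⟩, ⟨.ofNat 11, .ofNat 0⟩⟩ ⟨.ofNat 2, .ofNat 13⟩ ⟨.ofNat 9, .negSucc 1⟩ ⟨.ofNat 1, .ofNat 1⟩ 0 t10_0 (.s01 ⟨⟨.ofNat 2, .ofNat 24⟩, ⟨.ofNat 29, .negSucc 1⟩, ⟨.ofNat 0, .ofNat 20⟩, ⟨.ofNat 0, .ofNat 11⟩⟩ ⟨.ofNat 2, .ofNat 13⟩ ⟨.ofNat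 9, .negSucc 1⟩ ⟨.ofNat 0, .ofNat 1⟩ 0 (.s13 ⟨⟨.negSucc 8, .ofNat 22⟩, ⟨.ofNat 29, .negSucc 1⟩, ⟨.ofNat 0, .ofNat 20⟩, ⟨.ofNat 0, .ofNat 11⟩⟩ ⟨.ofNat 9, .negSucc 1⟩ ⟨.ofNat 2, .ofNat 13⟩ ⟨.ofNat 0, .ofNat 1⟩ 0 (.s23 ⟨⟨.ofNat 56, .ofNat 5⟩, ⟨.ofNat 33, .ofNat 3⟩, ⟨.ofNat 54, .ofNat 5⟩, ⟨.ofNat 33, .ofNat 3⟩⟩ ⟨.negSucc 2, .ofNat 2⟩ ⟨.ofNat 3, .ofNat 11⟩ ⟨.negSucc 0, .ofNat 1⟩ 0 (.s03 ⟨⟨.ofNat 5, .ofNat 61⟩, ⟨.ofNat 74, .negSucc 5⟩, ⟨.ofNat 5, .ofNat 59⟩, ⟨.ofNat 3, .ofNat 36⟩⟩ ⟨.ofNat 5, .negSucc 2⟩ ⟨.ofNat 3, .ofNat 11⟩ ⟨.ofNat 2, .negSucc 0⟩ 0 (.leaf 0 [39]) (.leaf 0 [0, 26, 64])) (.leaf 0 [0, 26, 64]))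 (.s12 ⟨⟨.ofNat 110, .ofNat 20⟩, ⟨.ofNat 61, .ofNat 116⟩, ⟨.ofNat 118, .ofNat 72⟩, ⟨.ofNat 77, .ofNat 14⟩⟩ ⟨.ofNat 44, .ofNat 14⟩ ⟨.ofNat 3, .ofNat 0⟩ ⟨.ofNat 1, .ofNat 0⟩ 0 (.leaf 0 [0, 64, 0, 0]) (.s13 ⟨⟨.negSucc 2, .ofNat 4⟩, ⟨.ofNat 8, .ofNat 1⟩, ⟨.ofNat 0, .ofNat 5⟩, ⟨.ofNat 0, .ofNat 2⟩⟩ ⟨.ofNat 0, .ofNat 15⟩ ⟨.negSucc 2, .ofNat 2⟩ ⟨.negSucc 8, .ofNat 11⟩ 0 (.leaf 0 [0, 0, 0, 23]) (.s01 ⟨⟨.negSucc 0, .ofNat 3⟩, ⟨.ofNat 8, .ofNat 1⟩, ⟨.ofNat 0, .ofNat 5⟩, ⟨.ofNat 0, .ofNat 2⟩⟩ ⟨.negSucc 2, .ofNat 2⟩ ⟨.ofNat 0, .ofNat 15⟩ ⟨.negSucc 8, .ofNat 11⟩ 0 (.leaf 0 [18, 0]) (.leaf 0 [0, 0, 23]))))) (.s03 ⟨⟨.ofNat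 10, .negSucc 2⟩, ⟨.ofNat 3, .ofNat 0⟩, ⟨.ofNat 0, .ofNat 3⟩, ⟨.ofNat 3, .ofNat 0⟩⟩ ⟨.ofNat 4, .negSucc 1⟩ ⟨.negSucc 0, .ofNat 5⟩ ⟨.ofNat 1, .ofNat 1⟩ 0 (.s23 ⟨⟨.ofNat 56, .ofNat 5⟩, ⟨.ofNat 33, .ofNat 3⟩, ⟨.ofNat 54, .ofNat 5⟩, ⟨.ofNat 33, .ofNat 3⟩⟩ ⟨.negSucc 2, .ofNat 2⟩ ⟨.ofNat 3, .ofNat 11⟩ ⟨.negSucc 0, .ofNat 1⟩ 0 (.s13 ⟨⟨.ofNat 5, .ofNat 61⟩, ⟨.ofNat 74, .negSucc 5⟩, ⟨.ofNat 5, .ofNat 59⟩, ⟨.ofNat 3, .ofNat 36⟩⟩ ⟨.ofNat 5, .negSucc 2⟩ ⟨.ofNat 3, .ofNat 11⟩ ⟨.ofNat 2, .negSucc 0⟩ 0 (.leaf 0 []) (.leaf 0 [39, 64])) (.leaf 0 [39, 64])) (.leaf 0 [40, 57])))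

theorem g10 : Good (PD lin H) ⟨⟨.ofNat 1, .ofNat 1⟩, ⟨.ofNat 1, .ofNat 0⟩, ⟨.ofNat 0, .ofNat 1⟩, ⟨.ofNat 1, .ofNat 0⟩⟩
    ⟨⟨.ofNat 1, .ofNat 0⟩, ⟨.ofNat 0, .ofNat 2⟩, ⟨.ofNat 1, .ofNat 1⟩, ⟨.ofNat 1, .ofNat 0⟩⟩
    ⟨⟨.ofNat 1, .ofNat 0⟩, ⟨.ofNat 1, .ofNat 0⟩, ⟨.ofNat 1, .ofNat 1⟩, ⟨.ofNat 1, .ofNat 0⟩⟩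
    ⟨⟨.ofNat 0, .ofNat 1⟩, ⟨.ofNat 1, .ofNat 0⟩, ⟨.ofNat 0, .ofNat 1⟩, ⟨.ofNat 1, .ofNat 0⟩⟩ :=
  goodD lin H t10 (by decide +kernel)

/-- part of a tree -/
def t11 : Tree := .s02 ⟨⟨.ofNat 2, .ofNat 24⟩, ⟨.ofNat 29, .negSucc 1⟩, ⟨.ofNat 0, .ofNat 20⟩, ⟨.ofNat 0, .ofNat 11⟩⟩ ⟨.ofNat 2, .ofNat 13⟩ ⟨.ofNat 9, .negSucc 1⟩ ⟨.ofNat 0, .ofNat 1⟩ 0 (.s23 ⟨⟨.negSucc 8, .ofNat 22⟩, ⟨.ofNat 29, .negSucc 1⟩, ⟨.ofNat 0, .ofNat 20⟩, ⟨.ofNat 0, .ofNat 11⟩⟩ ⟨.ofNat 9, .negSucc 1⟩ ⟨.ofNat 2, .ofNat 13⟩ ⟨.ofNat 0, .ofNat 1⟩ 0 (.s13 ⟨⟨.ofNat 0, .ofNat 1⟩, ⟨.ofNat 1, .ofNat 1⟩, ⟨.ofNat 0, .ofNat 1⟩, ⟨.ofNat 1, .ofNat 0⟩⟩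 ⟨.ofNat 0, .ofNat 1⟩ ⟨.ofNat 1, .ofNat 0⟩ ⟨.ofNat 1, .ofNat 0⟩ 0 (.s03 ⟨⟨.ofNat 5, .ofNat 61⟩, ⟨.ofNat 74, .negSucc 5⟩, ⟨.ofNat 5, .ofNat 59⟩, ⟨.ofNat 3, .ofNat 36⟩⟩ ⟨.ofNat 5, .negSucc 2⟩ ⟨.ofNat 3, .ofNat 11⟩ ⟨.ofNat 2, .negSucc 0⟩ 0 (.leaf 0 [64, 6]) (.leaf 0 [2, 39, 0, 64])) (.leaf 0 [0, 1, 0, 64])) (.s02 ⟨⟨.ofNat 10, .ofNat 0⟩, ⟨.negSucc 8, .ofNat 17⟩, ⟨.ofNat 10, .ofNat 4⟩, ⟨.ofNat 7, .ofNat 0⟩⟩ ⟨.negSucc 2, .ofNat 3⟩ ⟨.ofNat 44, .ofNat 14⟩ ⟨.ofNat 11, .ofNat 2⟩ 0 (.s23 ⟨⟨.negSucc 2, .ofNat 4⟩, ⟨.ofNat 8, .ofNat 1⟩, ⟨.ofNat 0, .ofNat 5⟩, ⟨.ofNat 0, .ofNat 2⟩⟩ ⟨.ofNat 0, .ofNat 15⟩ ⟨.negSucc 2, .ofNat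 2⟩ ⟨.negSucc 8, .ofNat 11⟩ 0 (.leaf 0 [0, 0, 0, 64, 26]) (.leaf 0 [0, 25, 0])) (.leaf 0 [0, 1, 0, 64]))) (.s13 ⟨⟨.ofNat 0, .ofNat 1⟩, ⟨.ofNat 1, .ofNat 1⟩, ⟨.ofNat 0, .ofNat 1⟩, ⟨.ofNat 1, .ofNat 0⟩⟩ ⟨.ofNat 0, .ofNat 1⟩ ⟨.ofNat 1, .ofNat 0⟩ ⟨.ofNat 1, .ofNat 0⟩ 0 (.s03 ⟨⟨.ofNat 10, .negSucc 2⟩, ⟨.ofNat 3, .ofNat 0⟩, ⟨.ofNat 0, .ofNat 3⟩, ⟨.ofNat 3, .ofNat 0⟩⟩ ⟨.ofNat 4, .negSucc 1⟩ ⟨.negSucc 0, .ofNat 5⟩ ⟨.ofNat 1, .ofNat 1⟩ 0 (.s23 ⟨⟨.ofNat 5, .ofNat 61⟩, ⟨.ofNat 74, .negSucc 5⟩, ⟨.ofNat 5, .ofNat 59⟩, ⟨.ofNat 3, .ofNat 36⟩⟩ ⟨.ofNat 5, .negSucc 2⟩ ⟨.ofNat 3, .ofNat 11⟩ ⟨.ofNat 2, .negSucc 0⟩ 0 (.leaf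 0 [64, 30]) (.s01 ⟨⟨.negSucc 36, .ofNat 69⟩, ⟨.ofNat 0, .ofNat 30⟩, ⟨.ofNat 27, .ofNat 27⟩, ⟨.ofNat 0, .ofNat 27⟩⟩ ⟨.negSucc 0, .ofNat 9⟩ ⟨.ofNat 3, .ofNat 0⟩ ⟨.ofNat 1, .ofNat 0⟩ 0 (.leaf 0 [2, 39, 0, 64]) (.leaf 0 [0, 39, 64]))) (.s13 ⟨⟨.negSucc 36, .ofNat 69⟩, ⟨.ofNat 0, .ofNat 30⟩, ⟨.ofNat 27, .ofNat 27⟩, ⟨.ofNat 0, .ofNat 27⟩⟩ ⟨.ofNat 3, .ofNat 0⟩ ⟨.negSucc 0, .ofNat 9⟩ ⟨.ofNat 1, .ofNat 0⟩ 0 (.leaf 0 [0, 40, 57]) (.leaf 0 [0, 64, 5, 0]))) (.s01 ⟨⟨.ofNat 1, .ofNat 1⟩, ⟨.ofNat 0, .ofNat 1⟩, ⟨.ofNat 0, .ofNat 1⟩, ⟨.ofNat 1, .ofNat 0⟩⟩ ⟨.ofNat 0, .ofNat 1⟩ ⟨.ofNat 1, .ofNat 0⟩ ⟨.ofNat 0, .ofNat 1⟩ 0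 (.leaf 0 [0, 0, 0, 0]) (.leaf 0 [0, 64, 5, 0])))

theorem g11 : Good (PD lin H) ⟨⟨.ofNat 1, .ofNat 1⟩, ⟨.ofNat 1, .ofNat 0⟩, ⟨.ofNat 0, .ofNat 1⟩, ⟨.ofNat 1, .ofNat 0⟩⟩
    ⟨⟨.ofNat 0, .ofNat 0⟩, ⟨.ofNat 1, .ofNat 0⟩, ⟨.ofNat 0, .ofNat 0⟩, ⟨.ofNat 0, .ofNat 0⟩⟩
    ⟨⟨.ofNat 1, .ofNat 0⟩, ⟨.ofNat 0, .ofNat 2⟩, ⟨.ofNat 1, .ofNat 1⟩, ⟨.ofNat 1, .ofNat 0⟩⟩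
    ⟨⟨.ofNat 0, .ofNat 1⟩, ⟨.ofNat 1, .ofNat 0⟩, ⟨.ofNat 0, .ofNat 1⟩, ⟨.ofNat 1, .ofNat 0⟩⟩ :=
  goodD lin H t11 (by decide +kernel)

/-- part of a tree -/
def t13_2 : Tree := .s02 ⟨⟨.ofNat 0, .ofNat 1⟩, ⟨.ofNat 1, .ofNat 0⟩, ⟨.ofNat 1, .ofNat 1⟩, ⟨.ofNat 1, .ofNat 0⟩⟩ ⟨.negSucc 0, .ofNat 1⟩ ⟨.ofNat 0, .ofNat 1⟩ ⟨.negSucc 0, .ofNat 2⟩ 0 (.s23 ⟨⟨.ofNat 10, .ofNat 0⟩, ⟨.ofNat 7, .ofNat 0⟩, ⟨.ofNat 10, .ofNat 4⟩, ⟨.ofNat 7, .ofNat 0⟩⟩ ⟨.ofNat 44, .ofNat 14⟩ ⟨.ofNat 3, .ofNat 0⟩ ⟨.ofNat 11, .ofNat 2⟩ 0 (.s13 ⟨⟨.ofNat 110, .ofNat 20⟩, ⟨.ofNat 61, .ofNat 116⟩, ⟨.ofNat 118, .ofNat 72⟩, ⟨.ofNat 77, .ofNat 14⟩⟩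 ⟨.ofNat 44, .ofNat 14⟩ ⟨.ofNat 3, .ofNat 0⟩ ⟨.ofNat 1, .ofNat 0⟩ 0 (.leaf 0 [0, 64, 5, 60, 0]) (.s12 ⟨⟨.negSucc 9, .ofNat 17⟩, ⟨.ofNat 14, .ofNat 1⟩, ⟨.ofNat 1, .ofNat 18⟩, ⟨.negSucc 9, .ofNat 14⟩⟩ ⟨.negSucc 2, .ofNat 4⟩ ⟨.ofNat 1, .ofNat 2⟩ ⟨.ofNat 1, .ofNat 1⟩ 0 (.leaf 0 [0, 64, 5, 60, 0, 0]) (.leaf 0 [24, 0, 0, 0, 64]))) (.s12 ⟨⟨.ofNat 1, .ofNat 0⟩, ⟨.ofNat 0, .ofNat 1⟩, ⟨.ofNat 1, .ofNat 1⟩, ⟨.ofNat 1, .ofNat 0⟩⟩ ⟨.negSucc 0, .ofNat 1⟩ ⟨.ofNat 0, .ofNat 1⟩ ⟨.negSucc 0, .ofNat 2⟩ 0 (.leaf 0 [0, 0, 10, 0, 0, 26]) (.s13 ⟨⟨.negSucc 9, .ofNat 17⟩, ⟨.ofNat 14, .ofNat 1⟩, ⟨.ofNat 1, .ofNat 18⟩, ⟨.negSucc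 9, .ofNat 14⟩⟩ ⟨.negSucc 2, .ofNat 4⟩ ⟨.ofNat 1, .ofNat 2⟩ ⟨.ofNat 1, .ofNat 1⟩ 0 (.leaf 0 [0, 10, 0, 0, 26]) (.leaf 0 [24, 0, 0, 0, 64])))) (.s01 ⟨⟨.ofNat 1, .ofNat 0⟩, ⟨.ofNat 0, .ofNat 1⟩, ⟨.ofNat 0, .ofNat 1⟩, ⟨.negSucc 0, .ofNat 1⟩⟩ ⟨.negSucc 0, .ofNat 1⟩ ⟨.ofNat 0, .ofNat 1⟩ ⟨.ofNat 2, .ofNat 1⟩ 0 (.s13 ⟨⟨.ofNat 42, .negSucc 4⟩, ⟨.ofNat 52, .ofNat 19⟩, ⟨.ofNat 55, .ofNat 10⟩, ⟨.ofNat 22, .ofNat 4⟩⟩ ⟨.ofNat 0, .ofNat 15⟩ ⟨.ofNat 2, .negSucc 0⟩ ⟨.ofNat 1, .ofNat 0⟩ 0 (.s03 ⟨⟨.ofNat 57, .negSucc 4⟩, ⟨.ofNat 37, .ofNat 19⟩, ⟨.ofNat 55, .ofNat 10⟩, ⟨.ofNat 22, .ofNat 4⟩⟩ ⟨.ofNat 0, .ofNat 15⟩ ⟨.negSucc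 2, .ofNat 2⟩ ⟨.negSucc 0, .ofNat 1⟩ 0 (.s23 ⟨⟨.ofNat 57, .negSucc 4⟩, ⟨.ofNat 22, .ofNat 4⟩, ⟨.ofNat 55, .ofNat 10⟩, ⟨.ofNat 22, .ofNat 4⟩⟩ ⟨.ofNat 0, .ofNat 15⟩ ⟨.ofNat 2, .negSucc 0⟩ ⟨.ofNat 1, .ofNat 0⟩ 0 (.leaf 0 [1, 0, 0]) (.leaf 0 [0, 0, 6])) (.leaf 0 [0, 0, 7])) (.s01 ⟨⟨.ofNat 10, .ofNat 0⟩, ⟨.negSucc 2, .ofNat 14⟩, ⟨.ofNat 7, .ofNat 7⟩, ⟨.ofNat 7, .ofNat 0⟩⟩ ⟨.ofNat 3, .ofNat 3⟩ ⟨.ofNat 7, .negSucc 2⟩ ⟨.ofNat 1, .ofNat 0⟩ 0 (.leaf 0 [6, 0, 0, 46]) (.leaf 0 [0, 0, 7]))) (.s13 ⟨⟨.ofNat 57, .negSucc 4⟩, ⟨.ofNat 37, .ofNat 19⟩, ⟨.ofNat 55, .ofNat 10⟩, ⟨.ofNat 22, .ofNat 4⟩⟩ ⟨.ofNat 0, .ofNat 15⟩ ⟨.negSucc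 2, .ofNat 2⟩ ⟨.negSucc 0, .ofNat 1⟩ 0 (.leaf 0 [51, 0, 64, 12]) (.leaf 0 [12, 0, 0])))

/-- part of a tree -/
def t13_1 : Tree := .s12 ⟨⟨.ofNat 1, .ofNat 0⟩, ⟨.ofNat 0, .ofNat 2⟩, ⟨.ofNat 1, .ofNat 1⟩, ⟨.ofNat 1, .ofNat 0⟩⟩ ⟨.negSucc 0, .ofNat 2⟩ ⟨.ofNat 1, .ofNat 0⟩ ⟨.ofNat 1, .ofNat 0⟩ 0 t13_2 (.s02 ⟨⟨.ofNat 1, .ofNat 0⟩, ⟨.ofNat 0, .ofNat 1⟩, ⟨.ofNat 0, .ofNat 1⟩, ⟨.negSucc 0, .ofNat 1⟩⟩ ⟨.negSucc 0, .ofNat 1⟩ ⟨.ofNat 0, .ofNat 1⟩ ⟨.ofNat 2, .ofNat 1⟩ 0 (.s23 ⟨⟨.ofNat 42, .negSucc 4⟩, ⟨.ofNat 52, .ofNat 19⟩, ⟨.ofNat 55, .ofNat 10⟩, ⟨.ofNat 22, .ofNat 4⟩⟩ ⟨.ofNat 0, .ofNat 15⟩ ⟨.ofNat 2, .negSucc 0⟩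 ⟨.ofNat 1, .ofNat 0⟩ 0 (.s03 ⟨⟨.ofNat 57, .negSucc 4⟩, ⟨.ofNat 37, .ofNat 19⟩, ⟨.ofNat 55, .ofNat 10⟩, ⟨.ofNat 22, .ofNat 4⟩⟩ ⟨.ofNat 0, .ofNat 15⟩ ⟨.negSucc 2, .ofNat 2⟩ ⟨.negSucc 0, .ofNat 1⟩ 0 (.s13 ⟨⟨.ofNat 22, .ofNat 2⟩, ⟨.negSucc 10, .ofNat 20⟩, ⟨.ofNat 20, .ofNat 0⟩, ⟨.ofNat 11, .ofNat 0⟩⟩ ⟨.ofNat 20, .negSucc 1⟩ ⟨.ofNat 0, .ofNat 1⟩ ⟨.ofNat 0, .ofNat 1⟩ 0 (.leaf 0 [1, 0, 0]) (.leaf 0 [0, 17])) (.leaf 0 [0, 17])) (.s02 ⟨⟨.ofNat 10, .ofNat 0⟩, ⟨.negSucc 2, .ofNat 14⟩, ⟨.ofNat 7, .ofNat 7⟩, ⟨.ofNat 7, .ofNat 0⟩⟩ ⟨.ofNat 3, .ofNat 3⟩ ⟨.ofNat 7, .negSucc 2⟩ ⟨.ofNat 1, .ofNat 0⟩ 0 (.leaf 0 [0, 0]) (.leaf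 0 [0, 20]))) (.s23 ⟨⟨.ofNat 57, .negSucc 4⟩, ⟨.ofNat 37, .ofNat 19⟩, ⟨.ofNat 55, .ofNat 10⟩, ⟨.ofNat 22, .ofNat 4⟩⟩ ⟨.ofNat 0, .ofNat 15⟩ ⟨.negSucc 2, .ofNat 2⟩ ⟨.negSucc 0, .ofNat 1⟩ 0 (.s13 ⟨⟨.ofNat 22, .ofNat 2⟩, ⟨.negSucc 10, .ofNat 20⟩, ⟨.ofNat 20, .ofNat 0⟩, ⟨.ofNat 11, .ofNat 0⟩⟩ ⟨.ofNat 20, .negSucc 1⟩ ⟨.ofNat 0, .ofNat 1⟩ ⟨.ofNat 0, .ofNat 1⟩ 0 (.s01 ⟨⟨.ofNat 2, .ofNat 44⟩, ⟨.ofNat 29, .ofNat 18⟩, ⟨.ofNat 29, .ofNat 18⟩, ⟨.ofNat 31, .ofNat 0⟩⟩ ⟨.ofNat 9, .negSucc 1⟩ ⟨.ofNat 2, .ofNat 3⟩ ⟨.ofNat 1, .ofNat 1⟩ 0 (.leaf 0 [37, 0]) (.leaf 0 [51, 0, 64, 12])) (.leaf 0 [0, 0, 0, 64, 9])) (.leaf 0 [0,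 0, 0, 8])))

/-- part of a tree -/
def t13_0 : Tree := .s02 ⟨⟨.ofNat 0, .ofNat 2⟩, ⟨.ofNat 1, .ofNat 0⟩, ⟨.ofNat 1, .ofNat 1⟩, ⟨.ofNat 1, .ofNat 0⟩⟩ ⟨.negSucc 0, .ofNat 2⟩ ⟨.ofNat 1, .ofNat 0⟩ ⟨.ofNat 1, .ofNat 0⟩ 0 t13_1 (.s03 ⟨⟨.ofNat 0, .ofNat 22⟩, ⟨.ofNat 11, .ofNat 0⟩, ⟨.ofNat 20, .ofNat 0⟩, ⟨.ofNat 11, .ofNat 0⟩⟩ ⟨.ofNat 20, .negSucc 1⟩ ⟨.ofNat 0, .ofNat 1⟩ ⟨.ofNat 0, .ofNat 1⟩ 0 (.s13 ⟨⟨.ofNat 22, .ofNat 2⟩, ⟨.negSucc 10, .ofNat 20⟩, ⟨.ofNat 20, .ofNat 0⟩, ⟨.ofNat 11, .ofNat 0⟩⟩ ⟨.ofNat 20, .negSucc 1⟩ ⟨.ofNat 0, .ofNat 1⟩ ⟨.ofNat 0, .ofNat 1⟩ 0 (.s12 ⟨⟨.ofNat 2, .ofNat 44⟩, ⟨.ofNat 29, .ofNat 18⟩,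 ⟨.ofNat 29, .ofNat 18⟩, ⟨.ofNat 31, .ofNat 0⟩⟩ ⟨.ofNat 2, .ofNat 3⟩ ⟨.ofNat 9, .negSucc 1⟩ ⟨.ofNat 1, .ofNat 1⟩ 0 (.leaf 0 [64, 17, 64, 10]) (.leaf 0 [55, 0, 23])) (.leaf 0 [0, 0, 64, 9])) (.leaf 0 [0, 0, 57]))

/-- part of a tree -/
def t13 : Tree := .s23 ⟨⟨.ofNat 22, .ofNat 2⟩, ⟨.ofNat 11, .ofNat 0⟩, ⟨.ofNat 20, .ofNat 0⟩, ⟨.ofNat 11, .ofNat 0⟩⟩ ⟨.ofNat 9, .negSucc 1⟩ ⟨.ofNat 2, .ofNat 13⟩ ⟨.ofNat 1, .ofNat 1⟩ 0 (.s02 ⟨⟨.ofNat 0, .ofNat 22⟩, ⟨.ofNat 11, .ofNat 0⟩, ⟨.ofNat 20, .ofNat 0⟩, ⟨.ofNat 11, .ofNat 0⟩⟩ ⟨.ofNat 20, .negSucc 1⟩ ⟨.ofNat 0, .ofNat 1⟩ ⟨.ofNat 0, .ofNat 1⟩ 0 (.s12 ⟨⟨.ofNat 22, .ofNat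 2⟩, ⟨.negSucc 10, .ofNat 20⟩, ⟨.ofNat 20, .ofNat 0⟩, ⟨.ofNat 11, .ofNat 0⟩⟩ ⟨.ofNat 20, .negSucc 1⟩ ⟨.ofNat 0, .ofNat 1⟩ ⟨.ofNat 0, .ofNat 1⟩ 0 (.leaf 0 [58, 0, 24]) (.s13 ⟨⟨.ofNat 1, .ofNat 1⟩, ⟨.ofNat 0, .ofNat 1⟩, ⟨.ofNat 0, .ofNat 1⟩, ⟨.ofNat 1, .ofNat 0⟩⟩ ⟨.ofNat 1, .ofNat 0⟩ ⟨.ofNat 0, .ofNat 1⟩ ⟨.ofNat 0, .ofNat 1⟩ 0 (.leaf 0 [58, 0, 24]) (.leaf 0 [0, 0, 17]))) (.s03 ⟨⟨.ofNat 0, .ofNat 2⟩, ⟨.ofNat 1, .ofNat 0⟩, ⟨.ofNat 0, .ofNat 1⟩, ⟨.ofNat 1, .ofNat 0⟩⟩ ⟨.ofNat 1, .ofNat 0⟩ ⟨.ofNat 0, .ofNat 1⟩ ⟨.ofNat 0, .ofNat 1⟩ 0 (.s13 ⟨⟨.ofNat 1, .ofNat 1⟩, ⟨.ofNat 0, .ofNat 1⟩, ⟨.ofNat 0, .ofNat 1⟩, ⟨.ofNat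 1, .ofNat 0⟩⟩ ⟨.ofNat 1, .ofNat 0⟩ ⟨.ofNat 0, .ofNat 1⟩ ⟨.ofNat 0, .ofNat 1⟩ 0 (.leaf 0 [12]) (.leaf 0 [0, 0])) (.leaf 0 [0, 0]))) t13_0

theorem g13 : Good (PD lin H) ⟨⟨.ofNat 1, .ofNat 0⟩, ⟨.ofNat 0, .ofNat 0⟩, ⟨.ofNat 0, .ofNat 0⟩, ⟨.ofNat 0, .ofNat 0⟩⟩
    ⟨⟨.ofNat 0, .ofNat 0⟩, ⟨.ofNat 1, .ofNat 0⟩, ⟨.ofNat 0, .ofNat 0⟩, ⟨.ofNat 0, .ofNat 0⟩⟩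
    ⟨⟨.ofNat 1, .ofNat 0⟩, ⟨.ofNat 1, .ofNat 0⟩, ⟨.ofNat 1, .ofNat 1⟩, ⟨.ofNat 1, .ofNat 0⟩⟩
    ⟨⟨.ofNat 1, .ofNat 1⟩, ⟨.ofNat 1, .ofNat 0⟩, ⟨.ofNat 0, .ofNat 1⟩, ⟨.ofNat 1, .ofNat 0⟩⟩ :=
  goodD lin H t13 (by decide +kernel)

end

end Pool.Agent.PHCert.D1
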