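import Pool.Agent.PHCert.D1H

/-!
# PHCert: inequality D1, part 4 (14 leaves, checked by the kernel)
-/

set_option autoImplicit false

namespace Pool.Agent.PHCert.D1

open Zp Pool.Agent.PHCert

noncomputable section

/-- part of a tree -/
def t17_0 : Tree := .s03 ⟨⟨.ofNat 0, .ofNat 1⟩, ⟨.ofNat 1, .ofNat 0⟩, ⟨.ofNat 1, .ofNat 1⟩, ⟨.ofNat 1, .ofNat 0⟩⟩ ⟨.ofNat 1, .ofNat 0⟩ ⟨.ofNat 0, .ofNat 1⟩ ⟨.ofNat 0, .ofNat 1⟩ 0 (.s13 ⟨⟨.ofNat 1, .ofNat 0⟩, ⟨.ofNat 0, .ofNat 2⟩, ⟨.ofNat 1, .ofNat 1⟩, ⟨.ofNat 1, .ofNat 0⟩⟩ ⟨.negSucc 0, .ofNat 2⟩ ⟨.ofNat 1, .ofNat 0⟩ ⟨.ofNat 1, .ofNat 0⟩ 0 (.s13 ⟨⟨.ofNat 1, .ofNat 0⟩, ⟨.ofNat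 0, .ofNat 1⟩, ⟨.ofNat 1, .ofNat 1⟩, ⟨.ofNat 1, .ofNat 0⟩⟩ ⟨.negSucc 0, .ofNat 1⟩ ⟨.ofNat 0, .ofNat 1⟩ ⟨.negSucc 0, .ofNat 2⟩ 0 (.leaf 0 [0, 0, 31, 64, 0, 57]) (.leaf 0 [0, 0, 21, 0, 63, 0, 64, 0])) (.s12 ⟨⟨.ofNat 1, .ofNat 0⟩, ⟨.ofNat 0, .ofNat 2⟩, ⟨.ofNat 4, .ofNat 0⟩, ⟨.ofNat 1, .ofNat 0⟩⟩ ⟨.negSucc 0, .ofNat 2⟩ ⟨.ofNat 1, .ofNat 0⟩ ⟨.ofNat 1, .ofNat 0⟩ 0 (.leaf 0 [0, 0, 18, 0, 62, 0, 64, 0]) (.s01 ⟨⟨.ofNat 1, .ofNat 0⟩, ⟨.ofNat 0, .ofNat 1⟩, ⟨.ofNat 0, .ofNat 1⟩, ⟨.negSucc 0, .ofNat 1⟩⟩ ⟨.ofNat 1, .ofNat 0⟩ ⟨.ofNat 0, .ofNat 1⟩ ⟨.ofNat 0, .ofNat 1⟩ 0 (.s03 ⟨⟨.ofNat 10, .ofNat 0⟩, ⟨.negSucc 2, .ofNat 14⟩,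 ⟨.ofNat 7, .ofNat 7⟩, ⟨.ofNat 7, .ofNat 0⟩⟩ ⟨.ofNat 3, .ofNat 3⟩ ⟨.ofNat 7, .negSucc 2⟩ ⟨.ofNat 1, .ofNat 0⟩ 0 (.leaf 0 [61, 0]) (.leaf 0 [61, 23])) (.s13 ⟨⟨.ofNat 10, .ofNat 0⟩, ⟨.negSucc 2, .ofNat 14⟩, ⟨.ofNat 7, .ofNat 7⟩, ⟨.ofNat 7, .ofNat 0⟩⟩ ⟨.ofNat 3, .ofNat 3⟩ ⟨.ofNat 7, .negSucc 2⟩ ⟨.ofNat 1, .ofNat 0⟩ 0 (.leaf 0 [4, 0, 63, 0, 48]) (.leaf 0 [0, 0, 61, 23]))))) (.s02 ⟨⟨.ofNat 0, .ofNat 2⟩, ⟨.ofNat 1, .ofNat 0⟩, ⟨.ofNat 4, .ofNat 0⟩, ⟨.ofNat 1, .ofNat 0⟩⟩ ⟨.negSucc 0, .ofNat 2⟩ ⟨.ofNat 1, .ofNat 0⟩ ⟨.ofNat 1, .ofNat 0⟩ 0 (.s12 ⟨⟨.ofNat 1, .ofNat 0⟩, ⟨.ofNat 0, .ofNat 2⟩, ⟨.ofNat 4, .ofNat 0⟩, ⟨.ofNat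 1, .ofNat 0⟩⟩ ⟨.negSucc 0, .ofNat 2⟩ ⟨.ofNat 1, .ofNat 0⟩ ⟨.ofNat 1, .ofNat 0⟩ 0 (.leaf 0 [0, 0, 64, 0, 27, 5]) (.s13 ⟨⟨.ofNat 1, .ofNat 0⟩, ⟨.ofNat 0, .ofNat 1⟩, ⟨.ofNat 0, .ofNat 1⟩, ⟨.negSucc 0, .ofNat 1⟩⟩ ⟨.ofNat 0, .ofNat 1⟩ ⟨.ofNat 1, .ofNat 0⟩ ⟨.ofNat 0, .ofNat 1⟩ 0 (.leaf 0 [12, 0, 0]) (.leaf 0 [0, 0, 3]))) (.s03 ⟨⟨.ofNat 0, .ofNat 2⟩, ⟨.ofNat 1, .ofNat 0⟩, ⟨.ofNat 1, .ofNat 1⟩, ⟨.ofNat 1, .ofNat 0⟩⟩ ⟨.ofNat 0, .ofNat 1⟩ ⟨.ofNat 1, .ofNat 0⟩ ⟨.ofNat 1, .ofNat 0⟩ 0 (.s13 ⟨⟨.ofNat 1, .ofNat 0⟩, ⟨.ofNat 0, .ofNat 1⟩, ⟨.ofNat 0, .ofNat 1⟩, ⟨.negSucc 0, .ofNat 1⟩⟩ ⟨.ofNat 0, .ofNat 1⟩ ⟨.ofNat 1, .ofNat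 0⟩ ⟨.ofNat 0, .ofNat 1⟩ 0 (.leaf 0 [12, 0]) (.leaf 0 [0, 0])) (.leaf 0 [0, 0])))

/-- part of a tree -/
def t17 : Tree := .s23 ⟨⟨.ofNat 1, .ofNat 0⟩, ⟨.ofNat 1, .ofNat 0⟩, ⟨.ofNat 4, .ofNat 0⟩, ⟨.ofNat 1, .ofNat 0⟩⟩ ⟨.negSucc 0, .ofNat 2⟩ ⟨.ofNat 0, .ofNat 1⟩ ⟨.ofNat 0, .ofNat 1⟩ 0 t17_0 (.leaf 0 [0, 0, 0, 0, 0, 0, 0])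

theorem g17 : Good (PD lin H) ⟨⟨.ofNat 1, .ofNat 0⟩, ⟨.ofNat 0, .ofNat 0⟩, ⟨.ofNat 0, .ofNat 0⟩, ⟨.ofNat 0, .ofNat 0⟩⟩
    ⟨⟨.ofNat 0, .ofNat 0⟩, ⟨.ofNat 1, .ofNat 0⟩, ⟨.ofNat 0, .ofNat 0⟩, ⟨.ofNat 0, .ofNat 0⟩⟩
    ⟨⟨.ofNat 0, .ofNat 0⟩, ⟨.ofNat 0, .ofNat 0⟩, ⟨.ofNat 1, .ofNat 0⟩, ⟨.ofNat 0, .ofNat 0⟩⟩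
    ⟨⟨.ofNat 1, .ofNat 0⟩, ⟨.ofNat 1, .ofNat 0⟩, ⟨.ofNat 1, .ofNat 1⟩, ⟨.ofNat 1, .ofNat 0⟩⟩ :=
  goodD lin H t17 (by decide +kernel)

end

end Pool.Agent.PHCert.D1
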