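import Pool.Agent.PHCert.D1a
import Pool.Agent.PHCert.D1b
import Pool.Agent.PHCert.D1c
import Pool.Agent.PHCert.D1d

/-!
# PHCert: inequality D1
-/

set_option autoImplicit false

namespace Pool.Agent.PHCert.D1

open Zp Pool.Agent.PHCert

noncomputable section

theorem g3 : Good (PD lin H) ⟨⟨.ofNat 2, .ofNat 0⟩, ⟨.ofNat 1, .ofNat 0⟩, ⟨.ofNat 1, .ofNat 0⟩, ⟨.ofNat 1, .ofNat 0⟩⟩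
    ⟨⟨.ofNat 0, .ofNat 0⟩, ⟨.ofNat 1, .ofNat 0⟩, ⟨.ofNat 0, .ofNat 0⟩, ⟨.ofNat 0, .ofNat 0⟩⟩
    ⟨⟨.ofNat 1, .ofNat 0⟩, ⟨.ofNat 0, .ofNat 1⟩, ⟨.ofNat 0, .ofNat 1⟩, ⟨.ofNat 1, .ofNat 0⟩⟩
    ⟨⟨.ofNat 1, .ofNat 0⟩, ⟨.ofNat 1, .ofNat 0⟩, ⟨.ofNat 1, .ofNat 0⟩, ⟨.ofNat 1, .ofNat 0⟩⟩ :=
  good12 ⟨.ofNat 0, .ofNat 1⟩ ⟨.ofNat 1, .ofNat 0⟩ ⟨.ofNat 1, .ofNat 0⟩ (by decide +kernel) g1 g2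

theorem g4 : Good (PD lin H) ⟨⟨.ofNat 2, .ofNat 0⟩, ⟨.ofNat 1, .ofNat 0⟩, ⟨.ofNat 1, .ofNat 0⟩, ⟨.ofNat 1, .ofNat 0⟩⟩
    ⟨⟨.ofNat 0, .ofNat 0⟩, ⟨.ofNat 1, .ofNat 0⟩, ⟨.ofNat 0, .ofNat 0⟩, ⟨.ofNat 0, .ofNat 0⟩⟩
    ⟨⟨.ofNat 1, .ofNat 0⟩, ⟨.ofNat 1, .ofNat 0⟩, ⟨.ofNat 0, .ofNat 1⟩, ⟨.ofNat 1, .ofNat 0⟩⟩
    ⟨⟨.ofNat 1, .ofNat 0⟩, ⟨.ofNat 1, .ofNat 0⟩, ⟨.ofNat 1, .ofNat 0⟩, ⟨.ofNat 1, .ofNat 0⟩⟩ :=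
  good12 ⟨.ofNat 1, .ofNat 0⟩ ⟨.ofNat 0, .ofNat 1⟩ ⟨.ofNat 0, .ofNat 1⟩ (by decide +kernel) g0 g3

theorem g7 : Good (PD lin H) ⟨⟨.ofNat 2, .ofNat 0⟩, ⟨.ofNat 1, .ofNat 0⟩, ⟨.ofNat 1, .ofNat 0⟩, ⟨.ofNat 1, .ofNat 0⟩⟩
    ⟨⟨.ofNat 0, .ofNat 0⟩, ⟨.ofNat 1, .ofNat 0⟩, ⟨.ofNat 0, .ofNat 0⟩, ⟨.ofNat 0, .ofNat 0⟩⟩
    ⟨⟨.ofNat 1, .ofNat 0⟩, ⟨.ofNat 1, .ofNat 0⟩, ⟨.ofNat 1, .ofNat 1⟩, ⟨.ofNat 1, .ofNat 0⟩⟩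
    ⟨⟨.ofNat 1, .ofNat 0⟩, ⟨.ofNat 1, .ofNat 0⟩, ⟨.ofNat 0, .ofNat 1⟩, ⟨.ofNat 1, .ofNat 0⟩⟩ :=
  good13 ⟨.ofNat 1, .ofNat 0⟩ ⟨.ofNat 0, .ofNat 1⟩ ⟨.ofNat 0, .ofNat 1⟩ (by decide +kernel) g5 g6

theorem g8 : Good (PD lin H) ⟨⟨.ofNat 2, .ofNat 0⟩, ⟨.ofNat 1, .ofNat 0⟩, ⟨.ofNat 1, .ofNat 0⟩, ⟨.ofNat 1, .ofNat 0⟩⟩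
    ⟨⟨.ofNat 0, .ofNat 0⟩, ⟨.ofNat 1, .ofNat 0⟩, ⟨.ofNat 0, .ofNat 0⟩, ⟨.ofNat 0, .ofNat 0⟩⟩
    ⟨⟨.ofNat 1, .ofNat 0⟩, ⟨.ofNat 1, .ofNat 0⟩, ⟨.ofNat 1, .ofNat 1⟩, ⟨.ofNat 1, .ofNat 0⟩⟩
    ⟨⟨.ofNat 1, .ofNat 0⟩, ⟨.ofNat 1, .ofNat 0⟩, ⟨.ofNat 1, .ofNat 0⟩, ⟨.ofNat 1, .ofNat 0⟩⟩ :=
  good23 ⟨.negSucc 0, .ofNat 1⟩ ⟨.ofNat 1, .ofNat 0⟩ ⟨.ofNat 0, .ofNat 1⟩ (by decide +kernel) g4 g7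

theorem g12 : Good (PD lin H) ⟨⟨.ofNat 1, .ofNat 1⟩, ⟨.ofNat 1, .ofNat 0⟩, ⟨.ofNat 0, .ofNat 1⟩, ⟨.ofNat 1, .ofNat 0⟩⟩
    ⟨⟨.ofNat 0, .ofNat 0⟩, ⟨.ofNat 1, .ofNat 0⟩, ⟨.ofNat 0, .ofNat 0⟩, ⟨.ofNat 0, .ofNat 0⟩⟩
    ⟨⟨.ofNat 1, .ofNat 0⟩, ⟨.ofNat 1, .ofNat 0⟩, ⟨.ofNat 1, .ofNat 1⟩, ⟨.ofNat 1, .ofNat 0⟩⟩
    ⟨⟨.ofNat 0, .ofNat 1⟩, ⟨.ofNat 1, .ofNat 0⟩, ⟨.ofNat 0, .ofNat 1⟩, ⟨.ofNat 1, .ofNat 0⟩⟩ :=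
  good12 ⟨.negSucc 0, .ofNat 2⟩ ⟨.ofNat 1, .ofNat 0⟩ ⟨.ofNat 1, .ofNat 0⟩ (by decide +kernel) g10 g11

theorem g14 : Good (PD lin H) ⟨⟨.ofNat 1, .ofNat 0⟩, ⟨.ofNat 0, .ofNat 0⟩, ⟨.ofNat 0, .ofNat 0⟩, ⟨.ofNat 0, .ofNat 0⟩⟩
    ⟨⟨.ofNat 0, .ofNat 0⟩, ⟨.ofNat 1, .ofNat 0⟩, ⟨.ofNat 0, .ofNat 0⟩, ⟨.ofNat 0, .ofNat 0⟩⟩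
    ⟨⟨.ofNat 1, .ofNat 0⟩, ⟨.ofNat 1, .ofNat 0⟩, ⟨.ofNat 1, .ofNat 1⟩, ⟨.ofNat 1, .ofNat 0⟩⟩
    ⟨⟨.ofNat 0, .ofNat 1⟩, ⟨.ofNat 1, .ofNat 0⟩, ⟨.ofNat 0, .ofNat 1⟩, ⟨.ofNat 1, .ofNat 0⟩⟩ :=
  good03 ⟨.ofNat 1, .ofNat 0⟩ ⟨.ofNat 1, .ofNat 0⟩ ⟨.ofNat 1, .ofNat 0⟩ (by decide +kernel) g12 g13

theorem g15 : Good (PD lin H) ⟨⟨.ofNat 1, .ofNat 0⟩, ⟨.ofNat 0, .ofNat 0⟩, ⟨.ofNat 0, .ofNat 0⟩, ⟨.ofNat 0, .ofNat 0⟩⟩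
    ⟨⟨.ofNat 0, .ofNat 0⟩, ⟨.ofNat 1, .ofNat 0⟩, ⟨.ofNat 0, .ofNat 0⟩, ⟨.ofNat 0, .ofNat 0⟩⟩
    ⟨⟨.ofNat 1, .ofNat 0⟩, ⟨.ofNat 1, .ofNat 0⟩, ⟨.ofNat 1, .ofNat 1⟩, ⟨.ofNat 1, .ofNat 0⟩⟩
    ⟨⟨.ofNat 2, .ofNat 0⟩, ⟨.ofNat 1, .ofNat 0⟩, ⟨.ofNat 1, .ofNat 0⟩, ⟨.ofNat 1, .ofNat 0⟩⟩ :=
  good23 ⟨.negSucc 0, .ofNat 1⟩ ⟨.ofNat 1, .ofNat 0⟩ ⟨.ofNat 0, .ofNat 1⟩ (by decide +kernel) g9 g14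

theorem g16 : Good (PD lin H) ⟨⟨.ofNat 1, .ofNat 0⟩, ⟨.ofNat 0, .ofNat 0⟩, ⟨.ofNat 0, .ofNat 0⟩, ⟨.ofNat 0, .ofNat 0⟩⟩
    ⟨⟨.ofNat 0, .ofNat 0⟩, ⟨.ofNat 1, .ofNat 0⟩, ⟨.ofNat 0, .ofNat 0⟩, ⟨.ofNat 0, .ofNat 0⟩⟩
    ⟨⟨.ofNat 1, .ofNat 0⟩, ⟨.ofNat 1, .ofNat 0⟩, ⟨.ofNat 1, .ofNat 1⟩, ⟨.ofNat 1, .ofNat 0⟩⟩
    ⟨⟨.ofNat 1, .ofNat 0⟩, ⟨.ofNat 1, .ofNat 0⟩, ⟨.ofNat 1, .ofNat 0⟩, ⟨.ofNat 1, .ofNat 0⟩⟩ :=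
  good03 ⟨.ofNat 1, .ofNat 0⟩ ⟨.ofNat 1, .ofNat 0⟩ ⟨.ofNat 1, .ofNat 0⟩ (by decide +kernel) g8 g15

theorem g18 : Good (PD lin H) ⟨⟨.ofNat 1, .ofNat 0⟩, ⟨.ofNat 0, .ofNat 0⟩, ⟨.ofNat 0, .ofNat 0⟩, ⟨.ofNat 0, .ofNat 0⟩⟩
    ⟨⟨.ofNat 0, .ofNat 0⟩, ⟨.ofNat 1, .ofNat 0⟩, ⟨.ofNat 0, .ofNat 0⟩, ⟨.ofNat 0, .ofNat 0⟩⟩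
    ⟨⟨.ofNat 0, .ofNat 0⟩, ⟨.ofNat 0, .ofNat 0⟩, ⟨.ofNat 1, .ofNat 0⟩, ⟨.ofNat 0, .ofNat 0⟩⟩
    ⟨⟨.ofNat 1, .ofNat 0⟩, ⟨.ofNat 1, .ofNat 0⟩, ⟨.ofNat 1, .ofNat 0⟩, ⟨.ofNat 1, .ofNat 0⟩⟩ :=
  good23 ⟨.ofNat 0, .ofNat 1⟩ ⟨.ofNat 1, .ofNat 0⟩ ⟨.ofNat 1, .ofNat 0⟩ (by decide +kernel) g16 g17

theorem root : Good (PD lin H) v0 v1 v2 ⟨z1, z1, z1, z1⟩ := g18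

theorem ineq {n r s l : ℝ} (h0 : 0 ≤ l) (hn : l ≤ n) (hr : l ≤ r) (hs : l ≤ s) :
    0 ≤ tev ts ![n, r, s, l] := gen_D data root h0 hn hr hs

end

end Pool.Agent.PHCert.D1
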