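import Pool.Agent.PHCert.Cone

/-!
# PHCert: inequality D1, the data
-/

set_option autoImplicit false

namespace Pool.Agent.PHCert.D1

open Zp Pool.Agent.PHCert

noncomputable section

/-- linear part -/
def lin : V4 := ⟨⟨.ofNat 0, .ofNat 0⟩, ⟨.ofNat 0, .ofNat 0⟩, ⟨.ofNat 0, .ofNat 0⟩, ⟨.negSucc 128063, .ofNat 89541⟩⟩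

/-- hinges -/
def H : List Hinge := [
  ⟨⟨.negSucc 2743, .ofNat 0⟩, ⟨⟨.negSucc 4, .ofNat 3⟩, ⟨.negSucc 4, .ofNat 3⟩, ⟨.ofNat 0, .ofNat 0⟩, ⟨.ofNat 1, .ofNat 0⟩⟩⟩,
  ⟨⟨.ofNat 12065, .ofNat 0⟩, ⟨⟨.ofNat 3, .negSucc 1⟩, ⟨.ofNat 3, .negSucc 1⟩, ⟨.ofNat 0, .ofNat 0⟩, ⟨.ofNat 1, .ofNat 0⟩⟩⟩,
  ⟨⟨.negSucc 24, .ofNat 0⟩, ⟨⟨.negSucc 6, .ofNat 0⟩, ⟨.negSucc 6, .ofNat 0⟩, ⟨.ofNat 0, .ofNat 0⟩, ⟨.ofNat 20, .ofNat 0⟩⟩⟩,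
  ⟨⟨.ofNat 13, .ofNat 0⟩, ⟨⟨.negSucc 1, .ofNat 0⟩, ⟨.negSucc 1, .ofNat 0⟩, ⟨.ofNat 0, .ofNat 0⟩, ⟨.ofNat 5, .ofNat 0⟩⟩⟩,
  ⟨⟨.ofNat 1227, .ofNat 0⟩, ⟨⟨.negSucc 8, .ofNat 0⟩, ⟨.negSucc 8, .ofNat 0⟩, ⟨.ofNat 0, .ofNat 0⟩, ⟨.ofNat 20, .ofNat 0⟩⟩⟩,
  ⟨⟨.ofNat 26140, .ofNat 0⟩, ⟨⟨.ofNat 0, .ofNat 0⟩, ⟨.ofNat 0, .ofNat 0⟩, ⟨.negSucc 0, .ofNat 0⟩, ⟨.ofNat 4, .ofNat 0⟩⟩⟩,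
  ⟨⟨.ofNat 145442, .ofNat 0⟩, ⟨⟨.ofNat 0, .ofNat 0⟩, ⟨.ofNat 0, .ofNat 0⟩, ⟨.negSucc 1, .ofNat 1⟩, ⟨.ofNat 1, .ofNat 0⟩⟩⟩,
  ⟨⟨.ofNat 3001, .ofNat 0⟩, ⟨⟨.ofNat 0, .ofNat 0⟩, ⟨.ofNat 0, .ofNat 0⟩, ⟨.negSucc 10, .ofNat 0⟩, ⟨.ofNat 20, .ofNat 0⟩⟩⟩,
  ⟨⟨.ofNat 96903, .ofNat 0⟩, ⟨⟨.ofNat 0, .ofNat 0⟩, ⟨.ofNat 0, .ofNat 0⟩, ⟨.ofNat 1, .negSucc 0⟩, ⟨.ofNat 1, .ofNat 0⟩⟩⟩,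
  ⟨⟨.ofNat 165, .ofNat 0⟩, ⟨⟨.ofNat 0, .ofNat 0⟩, ⟨.ofNat 0, .ofNat 0⟩, ⟨.negSucc 2, .ofNat 0⟩, ⟨.ofNat 4, .ofNat 0⟩⟩⟩,
  ⟨⟨.negSucc 10482, .ofNat 0⟩, ⟨⟨.negSucc 0, .ofNat 0⟩, ⟨.negSucc 0, .ofNat 0⟩, ⟨.negSucc 0, .ofNat 0⟩, ⟨.ofNat 5, .ofNat 0⟩⟩⟩,
  ⟨⟨.ofNat 4261, .ofNat 0⟩, ⟨⟨.negSucc 12, .ofNat 0⟩, ⟨.negSucc 12, .ofNat 0⟩, ⟨.negSucc 12, .ofNat 0⟩, ⟨.ofNat 40, .ofNat 0⟩⟩⟩,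
  ⟨⟨.ofNat 10879, .ofNat 0⟩, ⟨⟨.negSucc 2, .ofNat 0⟩, ⟨.ofNat 0, .ofNat 0⟩, ⟨.negSucc 2, .ofNat 0⟩, ⟨.ofNat 10, .ofNat 0⟩⟩⟩,
  ⟨⟨.ofNat 53610, .ofNat 0⟩, ⟨⟨.negSucc 0, .ofNat 0⟩, ⟨.ofNat 0, .ofNat 0⟩, ⟨.negSucc 0, .ofNat 0⟩, ⟨.ofNat 3, .ofNat 0⟩⟩⟩,
  ⟨⟨.ofNat 10273, .ofNat 0⟩, ⟨⟨.negSucc 1, .ofNat 1⟩, ⟨.ofNat 0, .ofNat 0⟩, ⟨.negSucc 1, .ofNat 1⟩, ⟨.ofNat 1, .ofNat 0⟩⟩⟩,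
  ⟨⟨.ofNat 136, .ofNat 0⟩, ⟨⟨.ofNat 0, .ofNat 0⟩, ⟨.negSucc 10, .ofNat 0⟩, ⟨.ofNat 0, .ofNat 0⟩, ⟨.ofNat 20, .ofNat 0⟩⟩⟩,
  ⟨⟨.ofNat 888, .ofNat 0⟩, ⟨⟨.ofNat 0, .ofNat 0⟩, ⟨.negSucc 8, .ofNat 0⟩, ⟨.ofNat 0, .ofNat 0⟩, ⟨.ofNat 10, .ofNat 0⟩⟩⟩,
  ⟨⟨.negSucc 57225, .ofNat 0⟩, ⟨⟨.ofNat 3, .negSucc 1⟩, ⟨.ofNat 3, .negSucc 1⟩, ⟨.ofNat 3, .negSucc 1⟩, ⟨.ofNat 1, .ofNat 0⟩⟩⟩,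
  ⟨⟨.negSucc 72, .ofNat 0⟩, ⟨⟨.negSucc 10, .ofNat 0⟩, ⟨.negSucc 10, .ofNat 0⟩, ⟨.negSucc 10, .ofNat 0⟩, ⟨.ofNat 40, .ofNat 0⟩⟩⟩,
  ⟨⟨.negSucc 10878, .ofNat 0⟩, ⟨⟨.ofNat 0, .ofNat 0⟩, ⟨.ofNat 0, .ofNat 0⟩, ⟨.negSucc 2, .ofNat 0⟩, ⟨.ofNat 10, .ofNat 0⟩⟩⟩,
  ⟨⟨.negSucc 53609, .ofNat 0⟩, ⟨⟨.ofNat 0, .ofNat 0⟩, ⟨.ofNat 0, .ofNat 0⟩, ⟨.negSucc 0, .ofNat 0⟩, ⟨.ofNat 3, .ofNat 0⟩⟩⟩,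
  ⟨⟨.ofNat 6139, .ofNat 0⟩, ⟨⟨.ofNat 0, .ofNat 0⟩, ⟨.ofNat 0, .ofNat 0⟩, ⟨.negSucc 1, .ofNat 0⟩, ⟨.ofNat 5, .ofNat 0⟩⟩⟩,
  ⟨⟨.negSucc 30320, .ofNat 0⟩, ⟨⟨.ofNat 0, .ofNat 0⟩, ⟨.ofNat 0, .ofNat 0⟩, ⟨.negSucc 0, .ofNat 0⟩, ⟨.ofNat 2, .ofNat 0⟩⟩⟩,
  ⟨⟨.negSucc 13748, .ofNat 0⟩, ⟨⟨.ofNat 0, .ofNat 0⟩, ⟨.ofNat 0, .ofNat 0⟩, ⟨.negSucc 2, .ofNat 0⟩, ⟨.ofNat 5, .ofNat 0⟩⟩⟩,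
  ⟨⟨.negSucc 565, .ofNat 0⟩, ⟨⟨.negSucc 10, .ofNat 0⟩, ⟨.ofNat 0, .ofNat 0⟩, ⟨.ofNat 0, .ofNat 0⟩, ⟨.ofNat 20, .ofNat 0⟩⟩⟩,
  ⟨⟨.negSucc 887, .ofNat 0⟩, ⟨⟨.negSucc 8, .ofNat 0⟩, ⟨.ofNat 0, .ofNat 0⟩, ⟨.ofNat 0, .ofNat 0⟩, ⟨.ofNat 10, .ofNat 0⟩⟩⟩,
  ⟨⟨.negSucc 8451, .ofNat 0⟩, ⟨⟨.negSucc 0, .ofNat 0⟩, ⟨.ofNat 0, .ofNat 0⟩, ⟨.negSucc 0, .ofNat 0⟩, ⟨.ofNat 5, .ofNat 0⟩⟩⟩,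
  ⟨⟨.ofNat 57226, .ofNat 0⟩, ⟨⟨.ofNat 3, .negSucc 1⟩, ⟨.ofNat 0, .ofNat 0⟩, ⟨.ofNat 3, .negSucc 1⟩, ⟨.ofNat 1, .ofNat 0⟩⟩⟩,
  ⟨⟨.ofNat 73, .ofNat 0⟩, ⟨⟨.negSucc 10, .ofNat 0⟩, ⟨.ofNat 0, .ofNat 0⟩, ⟨.negSucc 10, .ofNat 0⟩, ⟨.ofNat 40, .ofNat 0⟩⟩⟩,
  ⟨⟨.negSucc 7730, .ofNat 0⟩, ⟨⟨.negSucc 12, .ofNat 0⟩, ⟨.ofNat 0, .ofNat 0⟩, ⟨.negSucc 12, .ofNat 0⟩, ⟨.ofNat 40, .ofNat 0⟩⟩⟩,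
  ⟨⟨.negSucc 1112, .ofNat 0⟩, ⟨⟨.ofNat 0, .ofNat 0⟩, ⟨.negSucc 16, .ofNat 0⟩, ⟨.ofNat 0, .ofNat 0⟩, ⟨.ofNat 20, .ofNat 0⟩⟩⟩,
  ⟨⟨.ofNat 720, .ofNat 0⟩, ⟨⟨.negSucc 6, .ofNat 0⟩, ⟨.ofNat 0, .ofNat 0⟩, ⟨.ofNat 0, .ofNat 0⟩, ⟨.ofNat 10, .ofNat 0⟩⟩⟩,
  ⟨⟨.ofNat 54491, .ofNat 0⟩, ⟨⟨.negSucc 1, .ofNat 1⟩, ⟨.negSucc 1, .ofNat 1⟩, ⟨.ofNat 0, .ofNat 0⟩, ⟨.ofNat 1, .ofNat 0⟩⟩⟩]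

/-- the terms -/
def ts : List Term := [⟨1, fab, (v0.add v1), v2, v3⟩, ⟨1, fbc, (v0.add v2), v1, v3⟩, ⟨-1, fbc, v2, v0, v3⟩, ⟨-1, fcc, v1, v0, v3⟩]

theorem data : (PD lin H).okData ts v0 v1 v2 ⟨z1, z1, z1, z1⟩ = true := by
  decide +kernel

end

end Pool.Agent.PHCert.D1
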