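import Pool.Agent.PHCert.D1H

/-!
# PHCert: inequality D1, part 1 (72 leaves, checked by the kernel)
-/

set_option autoImplicit false

namespace Pool.Agent.PHCert.D1

open Zp Pool.Agent.PHCert

noncomputable section

/-- part of a tree -/
def t0_0 : Tree := .s12 ⟨⟨.ofNat 9, .ofNat 0⟩, ⟨.ofNat 11, .ofNat 0⟩, ⟨.ofNat 0, .ofNat 9⟩, ⟨.ofNat 9, .ofNat 0⟩⟩ ⟨.ofNat 0, .ofNat 2⟩ ⟨.ofNat 9, .negSucc 1⟩ ⟨.ofNat 1, .ofNat 0⟩ 0 (.s12 ⟨⟨.ofNat 9, .ofNat 0⟩, ⟨.ofNat 10, .ofNat 0⟩, ⟨.ofNat 0, .ofNat 9⟩, ⟨.ofNat 9, .ofNat 0⟩⟩ ⟨.ofNat 1, .ofNat 0⟩ ⟨.ofNat 9, .ofNat 0⟩ ⟨.ofNat 2, .ofNat 0⟩ 0 (.leaf 0 [64, 0, 64]) (.s13 ⟨⟨.ofNat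 18, .ofNat 0⟩, ⟨.ofNat 20, .ofNat 0⟩, ⟨.ofNat 9, .ofNat 9⟩, ⟨.ofNat 18, .ofNat 0⟩⟩ ⟨.ofNat 1, .ofNat 0⟩ ⟨.ofNat 9, .ofNat 0⟩ ⟨.ofNat 1, .ofNat 0⟩ 0 (.leaf 0 [64, 0, 64]) (.s01 ⟨⟨.ofNat 10, .ofNat 0⟩, ⟨.ofNat 10, .ofNat 0⟩, ⟨.ofNat 1, .ofNat 8⟩, ⟨.ofNat 9, .ofNat 0⟩⟩ ⟨.ofNat 1, .ofNat 0⟩ ⟨.ofNat 1, .ofNat 0⟩ ⟨.ofNat 2, .ofNat 0⟩ 0 (.leaf 0 [0, 62]) (.leaf 0 [0, 57])))) (.s01 ⟨⟨.ofNat 99, .negSucc 1⟩, ⟨.ofNat 90, .ofNat 0⟩, ⟨.ofNat 20, .ofNat 63⟩, ⟨.ofNat 81, .ofNat 0⟩⟩ ⟨.ofNat 9, .negSucc 0⟩ ⟨.ofNat 0, .ofNat 9⟩ ⟨.ofNat 1, .ofNat 0⟩ 0 (.s13 ⟨⟨.ofNat 26, .ofNat 0⟩, ⟨.ofNat 27, .ofNat 0⟩, ⟨.ofNat 27, .ofNat 0⟩, ⟨.ofNat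 26, .ofNat 0⟩⟩ ⟨.ofNat 0, .ofNat 1⟩ ⟨.ofNat 26, .negSucc 0⟩ ⟨.ofNat 1, .ofNat 0⟩ 0 (.s23 ⟨⟨.ofNat 18, .ofNat 0⟩, ⟨.ofNat 20, .ofNat 0⟩, ⟨.ofNat 9, .ofNat 9⟩, ⟨.ofNat 18, .ofNat 0⟩⟩ ⟨.ofNat 1, .ofNat 0⟩ ⟨.ofNat 9, .ofNat 0⟩ ⟨.ofNat 1, .ofNat 0⟩ 0 (.leaf 0 [64, 64, 0, 64]) (.s12 ⟨⟨.ofNat 387, .ofNat 0⟩, ⟨.ofNat 430, .ofNat 0⟩, ⟨.ofNat 243, .ofNat 153⟩, ⟨.ofNat 387, .ofNat 0⟩⟩ ⟨.ofNat 9, .ofNat 0⟩ ⟨.ofNat 17, .ofNat 0⟩ ⟨.ofNat 1, .ofNat 0⟩ 0 (.leaf 0 [55, 0, 64]) (.leaf 0 [60, 0, 64]))) (.s13 ⟨⟨.ofNat 9, .ofNat 0⟩, ⟨.ofNat 11, .ofNat 0⟩, ⟨.ofNat 11, .ofNat 0⟩, ⟨.ofNat 9, .ofNat 0⟩⟩ ⟨.ofNat 0, .ofNat 43⟩ ⟨.ofNat 9,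 .negSucc 1⟩ ⟨.ofNat 26, .negSucc 0⟩ 0 (.s23 ⟨⟨.ofNat 387, .ofNat 0⟩, ⟨.ofNat 430, .ofNat 0⟩, ⟨.ofNat 243, .ofNat 153⟩, ⟨.ofNat 387, .ofNat 0⟩⟩ ⟨.ofNat 17, .ofNat 0⟩ ⟨.ofNat 9, .ofNat 0⟩ ⟨.ofNat 1, .ofNat 0⟩ 0 (.leaf 0 [64, 64, 64, 25]) (.leaf 0 [55, 0, 64])) (.leaf 0 [0, 0, 64]))) (.s23 ⟨⟨.ofNat 18, .ofNat 0⟩, ⟨.ofNat 20, .ofNat 0⟩, ⟨.ofNat 9, .ofNat 9⟩, ⟨.ofNat 18, .ofNat 0⟩⟩ ⟨.ofNat 1, .ofNat 0⟩ ⟨.ofNat 9, .ofNat 0⟩ ⟨.ofNat 1, .ofNat 0⟩ 0 (.leaf 0 [64, 64, 0, 64]) (.s02 ⟨⟨.ofNat 10, .ofNat 0⟩, ⟨.ofNat 10, .ofNat 0⟩, ⟨.ofNat 1, .ofNat 8⟩, ⟨.ofNat 9, .ofNat 0⟩⟩ ⟨.ofNat 1, .ofNat 0⟩ ⟨.ofNat 1, .ofNat 0⟩ ⟨.ofNat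 2, .ofNat 0⟩ 0 (.leaf 0 [54, 0, 64]) (.leaf 0 [54, 0, 64]))))

/-- part of a tree -/
def t0 : Tree := .s02 ⟨⟨.ofNat 11, .ofNat 0⟩, ⟨.ofNat 9, .ofNat 0⟩, ⟨.ofNat 2, .ofNat 7⟩, ⟨.ofNat 9, .ofNat 0⟩⟩ ⟨.ofNat 2, .ofNat 0⟩ ⟨.ofNat 7, .ofNat 0⟩ ⟨.ofNat 1, .ofNat 0⟩ 0 t0_0 (.s12 ⟨⟨.ofNat 99, .negSucc 1⟩, ⟨.ofNat 90, .ofNat 0⟩, ⟨.ofNat 20, .ofNat 63⟩, ⟨.ofNat 81, .ofNat 0⟩⟩ ⟨.ofNat 0, .ofNat 9⟩ ⟨.ofNat 9, .negSucc 0⟩ ⟨.ofNat 1, .ofNat 0⟩ 0 (.s03 ⟨⟨.ofNat 14, .ofNat 0⟩, ⟨.ofNat 13, .ofNat 0⟩, ⟨.ofNat 13, .ofNat 0⟩, ⟨.ofNat 13, .ofNat 0⟩⟩ ⟨.ofNat 1, .ofNat 0⟩ ⟨.ofNat 12, .ofNat 0⟩ ⟨.ofNat 1, .ofNat 0⟩ 0 (.leaf 0 [64, 64,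 0, 64]) (.leaf 0 [64, 35, 64, 64, 64, 64])) (.s13 ⟨⟨.ofNat 26, .ofNat 0⟩, ⟨.ofNat 27, .ofNat 0⟩, ⟨.ofNat 27, .ofNat 0⟩, ⟨.ofNat 26, .ofNat 0⟩⟩ ⟨.ofNat 0, .ofNat 1⟩ ⟨.ofNat 26, .negSucc 0⟩ ⟨.ofNat 1, .ofNat 0⟩ 0 (.s03 ⟨⟨.ofNat 11, .ofNat 0⟩, ⟨.ofNat 9, .ofNat 0⟩, ⟨.ofNat 9, .ofNat 0⟩, ⟨.ofNat 9, .ofNat 0⟩⟩ ⟨.ofNat 2, .ofNat 0⟩ ⟨.ofNat 7, .ofNat 0⟩ ⟨.ofNat 1, .ofNat 0⟩ 0 (.leaf 0 [64, 64, 0, 64]) (.s01 ⟨⟨.ofNat 268, .ofNat 0⟩, ⟨.ofNat 232, .ofNat 0⟩, ⟨.ofNat 232, .ofNat 0⟩, ⟨.ofNat 225, .ofNat 0⟩⟩ ⟨.ofNat 43, .ofNat 0⟩ ⟨.ofNat 7, .ofNat 0⟩ ⟨.ofNat 1, .ofNat 0⟩ 0 (.leaf 0 [60, 0, 64]) (.leaf 0 [64, 64, 64, 45, 64])))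 (.s03 ⟨⟨.ofNat 268, .ofNat 0⟩, ⟨.ofNat 232, .ofNat 0⟩, ⟨.ofNat 232, .ofNat 0⟩, ⟨.ofNat 225, .ofNat 0⟩⟩ ⟨.ofNat 43, .ofNat 0⟩ ⟨.ofNat 7, .ofNat 0⟩ ⟨.ofNat 1, .ofNat 0⟩ 0 (.s13 ⟨⟨.ofNat 9, .ofNat 0⟩, ⟨.ofNat 11, .ofNat 0⟩, ⟨.ofNat 11, .ofNat 0⟩, ⟨.ofNat 9, .ofNat 0⟩⟩ ⟨.ofNat 0, .ofNat 43⟩ ⟨.ofNat 9, .negSucc 1⟩ ⟨.ofNat 26, .negSucc 0⟩ 0 (.leaf 0 [64, 64, 64, 25]) (.s01 ⟨⟨.negSucc 105, .ofNat 2306⟩, ⟨.negSucc 69, .ofNat 2180⟩, ⟨.negSucc 69, .ofNat 2180⟩, ⟨.negSucc 62, .ofNat 1962⟩⟩ ⟨.ofNat 9, .negSucc 0⟩ ⟨.ofNat 0, .ofNat 162⟩ ⟨.negSucc 0, .ofNat 1⟩ 0 (.leaf 0 [0, 0, 64]) (.leaf 0 [64, 64, 21]))) (.s13 ⟨⟨.negSucc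 105, .ofNat 2306⟩, ⟨.negSucc 69, .ofNat 2180⟩, ⟨.negSucc 69, .ofNat 2180⟩, ⟨.negSucc 62, .ofNat 1962⟩⟩ ⟨.ofNat 0, .ofNat 162⟩ ⟨.ofNat 9, .negSucc 0⟩ ⟨.negSucc 0, .ofNat 1⟩ 0 (.leaf 0 [64, 64, 64, 43, 64]) (.leaf 0 [0, 0, 26, 0, 64, 64])))))

theorem g0 : Good (PD lin H) ⟨⟨.ofNat 2, .ofNat 0⟩, ⟨.ofNat 1, .ofNat 0⟩, ⟨.ofNat 1, .ofNat 0⟩, ⟨.ofNat 1, .ofNat 0⟩⟩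
    ⟨⟨.ofNat 1, .ofNat 0⟩, ⟨.ofNat 0, .ofNat 1⟩, ⟨.ofNat 0, .ofNat 1⟩, ⟨.ofNat 1, .ofNat 0⟩⟩
    ⟨⟨.ofNat 1, .ofNat 0⟩, ⟨.ofNat 1, .ofNat 0⟩, ⟨.ofNat 0, .ofNat 1⟩, ⟨.ofNat 1, .ofNat 0⟩⟩
    ⟨⟨.ofNat 1, .ofNat 0⟩, ⟨.ofNat 1, .ofNat 0⟩, ⟨.ofNat 1, .ofNat 0⟩, ⟨.ofNat 1, .ofNat 0⟩⟩ :=
  goodD lin H t0 (by decide +kernel)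

/-- part of a tree -/
def t1_1 : Tree := .s02 ⟨⟨.ofNat 268, .ofNat 0⟩, ⟨.ofNat 232, .ofNat 0⟩, ⟨.ofNat 232, .ofNat 0⟩, ⟨.ofNat 225, .ofNat 0⟩⟩ ⟨.ofNat 43, .ofNat 0⟩ ⟨.ofNat 7, .ofNat 0⟩ ⟨.ofNat 1, .ofNat 0⟩ 0 (.s12 ⟨⟨.ofNat 459, .ofNat 207⟩, ⟨.ofNat 561, .ofNat 253⟩, ⟨.ofNat 518, .ofNat 210⟩, ⟨.ofNat 459, .ofNat 207⟩⟩ ⟨.ofNat 0, .ofNat 43⟩ ⟨.negSucc 12, .ofNat 16⟩ ⟨.negSucc 0, .ofNat 1⟩ 0 (.s13 ⟨⟨.ofNat 2093, .ofNat 637⟩, ⟨.ofNat 2195, .ofNat 683⟩, ⟨.ofNat 2152, .ofNat 640⟩, ⟨.ofNat 2093, .ofNat 637⟩⟩ ⟨.ofNat 1, .ofNat 0⟩ ⟨.ofNat 1634, .ofNat 430⟩ ⟨.ofNat 1, .ofNat 0⟩ 0 (.leaf 0 [3]) (.leaf 0 [26])) (.s13 ⟨⟨.ofNat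 39, .ofNat 13⟩, ⟨.ofNat 41, .ofNat 14⟩, ⟨.ofNat 40, .ofNat 13⟩, ⟨.ofNat 39, .ofNat 13⟩⟩ ⟨.ofNat 1, .ofNat 1⟩ ⟨.ofNat 38, .ofNat 10⟩ ⟨.ofNat 1, .ofNat 0⟩ 0 (.s23 ⟨⟨.ofNat 2093, .ofNat 637⟩, ⟨.ofNat 2195, .ofNat 683⟩, ⟨.ofNat 2152, .ofNat 640⟩, ⟨.ofNat 2093, .ofNat 637⟩⟩ ⟨.ofNat 1, .ofNat 0⟩ ⟨.ofNat 1634, .ofNat 430⟩ ⟨.ofNat 1, .ofNat 0⟩ 0 (.leaf 0 [3]) (.leaf 0 [22])) (.s13 ⟨⟨.ofNat 18, .ofNat 9⟩, ⟨.ofNat 22, .ofNat 11⟩, ⟨.ofNat 20, .ofNat 9⟩, ⟨.ofNat 18, .ofNat 9⟩⟩ ⟨.ofNat 17, .ofNat 77⟩ ⟨.negSucc 12, .ofNat 16⟩ ⟨.negSucc 27, .ofNat 38⟩ 0 (.leaf 0 [22]) (.s01 ⟨⟨.ofNat 4718, .ofNat 2094⟩, ⟨.ofNat 4430, .ofNat 2040⟩,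 ⟨.ofNat 4268, .ofNat 1878⟩, ⟨.ofNat 3987, .ofNat 1836⟩⟩ ⟨.negSucc 10, .ofNat 17⟩ ⟨.ofNat 0, .ofNat 162⟩ ⟨.negSucc 0, .ofNat 1⟩ 0 (.leaf 0 [42]) (.leaf 0 [22]))))) (.s03 ⟨⟨.ofNat 14, .ofNat 0⟩, ⟨.ofNat 13, .ofNat 0⟩, ⟨.ofNat 13, .ofNat 0⟩, ⟨.ofNat 13, .ofNat 0⟩⟩ ⟨.ofNat 1, .ofNat 0⟩ ⟨.ofNat 12, .ofNat 0⟩ ⟨.ofNat 1, .ofNat 0⟩ 0 (.s13 ⟨⟨.ofNat 18, .ofNat 9⟩, ⟨.ofNat 22, .ofNat 11⟩, ⟨.ofNat 20, .ofNat 9⟩, ⟨.ofNat 18, .ofNat 9⟩⟩ ⟨.ofNat 2, .ofNat 2⟩ ⟨.ofNat 16, .ofNat 3⟩ ⟨.ofNat 1, .ofNat 0⟩ 0 (.s13 ⟨⟨.ofNat 39, .ofNat 13⟩, ⟨.ofNat 41, .ofNat 14⟩, ⟨.ofNat 40, .ofNat 13⟩, ⟨.ofNat 39, .ofNat 13⟩⟩ ⟨.ofNat 1, .ofNat 0⟩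 ⟨.ofNat 60, .ofNat 17⟩ ⟨.ofNat 2, .ofNat 0⟩ 0 (.leaf 0 [3]) (.leaf 0 [23])) (.s01 ⟨⟨.ofNat 241, .ofNat 93⟩, ⟨.ofNat 259, .ofNat 107⟩, ⟨.ofNat 242, .ofNat 90⟩, ⟨.ofNat 225, .ofNat 90⟩⟩ ⟨.negSucc 12, .ofNat 16⟩ ⟨.ofNat 0, .ofNat 17⟩ ⟨.negSucc 0, .ofNat 1⟩ 0 (.s12 ⟨⟨.ofNat 4718, .ofNat 2094⟩, ⟨.ofNat 4430, .ofNat 2040⟩, ⟨.ofNat 4268, .ofNat 1878⟩, ⟨.ofNat 3987, .ofNat 1836⟩⟩ ⟨.ofNat 0, .ofNat 162⟩ ⟨.negSucc 10, .ofNat 17⟩ ⟨.negSucc 0, .ofNat 1⟩ 0 (.leaf 0 [22]) (.leaf 0 [42])) (.leaf 0 [23]))) (.s03 ⟨⟨.ofNat 11, .ofNat 0⟩, ⟨.ofNat 9, .ofNat 0⟩, ⟨.ofNat 9, .ofNat 0⟩, ⟨.ofNat 9, .ofNat 0⟩⟩ ⟨.ofNat 17, .ofNat 0⟩ ⟨.ofNat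 7, .ofNat 0⟩ ⟨.ofNat 12, .ofNat 0⟩ 0 (.s13 ⟨⟨.ofNat 241, .ofNat 93⟩, ⟨.ofNat 259, .ofNat 107⟩, ⟨.ofNat 242, .ofNat 90⟩, ⟨.ofNat 225, .ofNat 90⟩⟩ ⟨.ofNat 0, .ofNat 17⟩ ⟨.negSucc 12, .ofNat 16⟩ ⟨.negSucc 0, .ofNat 1⟩ 0 (.leaf 0 [53]) (.s01 ⟨⟨.ofNat 196, .ofNat 93⟩, ⟨.ofNat 180, .ofNat 90⟩, ⟨.ofNat 171, .ofNat 81⟩, ⟨.ofNat 162, .ofNat 81⟩⟩ ⟨.negSucc 10, .ofNat 17⟩ ⟨.ofNat 0, .ofNat 9⟩ ⟨.negSucc 0, .ofNat 1⟩ 0 (.s12 ⟨⟨.ofNat 4718, .ofNat 2094⟩, ⟨.ofNat 4430, .ofNat 2040⟩, ⟨.ofNat 4268, .ofNat 1878⟩, ⟨.ofNat 3987, .ofNat 1836⟩⟩ ⟨.ofNat 0, .ofNat 162⟩ ⟨.negSucc 10, .ofNat 17⟩ ⟨.negSucc 0, .ofNat 1⟩ 0 (.leaf 0 [47])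 (.leaf 0 [27])) (.leaf 0 [53]))) (.s13 ⟨⟨.ofNat 196, .ofNat 93⟩, ⟨.ofNat 180, .ofNat 90⟩, ⟨.ofNat 171, .ofNat 81⟩, ⟨.ofNat 162, .ofNat 81⟩⟩ ⟨.ofNat 0, .ofNat 9⟩ ⟨.negSucc 10, .ofNat 17⟩ ⟨.negSucc 0, .ofNat 1⟩ 0 (.leaf 0 [64, 64, 45, 64]) (.s12 ⟨⟨.ofNat 4718, .ofNat 2094⟩, ⟨.ofNat 4430, .ofNat 2040⟩, ⟨.ofNat 4268, .ofNat 1878⟩, ⟨.ofNat 3987, .ofNat 1836⟩⟩ ⟨.ofNat 0, .ofNat 162⟩ ⟨.negSucc 10, .ofNat 17⟩ ⟨.negSucc 0, .ofNat 1⟩ 0 (.leaf 0 [64, 64, 43, 64]) (.leaf 0 [0, 64, 0, 57, 57])))))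

/-- part of a tree -/
def t1_0 : Tree := .s23 ⟨⟨.ofNat 26, .ofNat 0⟩, ⟨.ofNat 27, .ofNat 0⟩, ⟨.ofNat 27, .ofNat 0⟩, ⟨.ofNat 26, .ofNat 0⟩⟩ ⟨.ofNat 0, .ofNat 1⟩ ⟨.ofNat 26, .negSucc 0⟩ ⟨.ofNat 1, .ofNat 0⟩ 0 t1_1 (.s03 ⟨⟨.ofNat 268, .ofNat 0⟩, ⟨.ofNat 232, .ofNat 0⟩, ⟨.ofNat 232, .ofNat 0⟩, ⟨.ofNat 225, .ofNat 0⟩⟩ ⟨.ofNat 43, .ofNat 0⟩ ⟨.ofNat 7, .ofNat 0⟩ ⟨.ofNat 1, .ofNat 0⟩ 0 (.s13 ⟨⟨.ofNat 459, .ofNat 207⟩, ⟨.ofNat 561, .ofNat 253⟩, ⟨.ofNat 518, .ofNat 210⟩, ⟨.ofNat 459, .ofNat 207⟩⟩ ⟨.ofNat 0, .ofNat 43⟩ ⟨.negSucc 12, .ofNat 16⟩ ⟨.negSucc 0, .ofNat 1⟩ 0 (.s23 ⟨⟨.ofNat 9, .ofNat 0⟩, ⟨.ofNat 11, .ofNat 0⟩,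 ⟨.ofNat 11, .ofNat 0⟩, ⟨.ofNat 9, .ofNat 0⟩⟩ ⟨.ofNat 0, .ofNat 43⟩ ⟨.ofNat 9, .negSucc 1⟩ ⟨.ofNat 26, .negSucc 0⟩ 0 (.leaf 0 [25]) (.s02 ⟨⟨.negSucc 105, .ofNat 2306⟩, ⟨.negSucc 69, .ofNat 2180⟩, ⟨.negSucc 69, .ofNat 2180⟩, ⟨.negSucc 62, .ofNat 1962⟩⟩ ⟨.ofNat 9, .negSucc 0⟩ ⟨.ofNat 0, .ofNat 162⟩ ⟨.negSucc 0, .ofNat 1⟩ 0 (.leaf 0 [0, 0]) (.leaf 0 [21]))) (.s01 ⟨⟨.ofNat 4718, .ofNat 2094⟩, ⟨.ofNat 4430, .ofNat 2040⟩, ⟨.ofNat 4268, .ofNat 1878⟩, ⟨.ofNat 3987, .ofNat 1836⟩⟩ ⟨.negSucc 10, .ofNat 17⟩ ⟨.ofNat 0, .ofNat 162⟩ ⟨.negSucc 0, .ofNat 1⟩ 0 (.leaf 0 [0, 0]) (.s02 ⟨⟨.negSucc 105, .ofNat 2306⟩, ⟨.negSucc 69, .ofNat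 2180⟩, ⟨.negSucc 69, .ofNat 2180⟩, ⟨.negSucc 62, .ofNat 1962⟩⟩ ⟨.ofNat 9, .negSucc 0⟩ ⟨.ofNat 0, .ofNat 162⟩ ⟨.negSucc 0, .ofNat 1⟩ 0 (.leaf 0 [0, 0]) (.leaf 0 [22])))) (.s13 ⟨⟨.ofNat 4718, .ofNat 2094⟩, ⟨.ofNat 4430, .ofNat 2040⟩, ⟨.ofNat 4268, .ofNat 1878⟩, ⟨.ofNat 3987, .ofNat 1836⟩⟩ ⟨.ofNat 0, .ofNat 162⟩ ⟨.negSucc 10, .ofNat 17⟩ ⟨.negSucc 0, .ofNat 1⟩ 0 (.s23 ⟨⟨.negSucc 105, .ofNat 2306⟩, ⟨.negSucc 69, .ofNat 2180⟩, ⟨.negSucc 69, .ofNat 2180⟩, ⟨.negSucc 62, .ofNat 1962⟩⟩ ⟨.ofNat 0, .ofNat 162⟩ ⟨.ofNat 9, .negSucc 0⟩ ⟨.negSucc 0, .ofNat 1⟩ 0 (.leaf 0 [64, 64, 43, 64]) (.leaf 0 [0, 0, 64, 0, 64, 57])) (.leaf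 0 [0, 0, 64, 0, 64, 57])))

/-- part of a tree -/
def t1 : Tree := .s13 ⟨⟨.negSucc 0, .ofNat 2⟩, ⟨.ofNat 2, .ofNat 1⟩, ⟨.ofNat 1, .ofNat 1⟩, ⟨.negSucc 0, .ofNat 2⟩⟩ ⟨.negSucc 0, .ofNat 1⟩ ⟨.ofNat 0, .ofNat 1⟩ ⟨.ofNat 1, .ofNat 0⟩ 0 t1_0 (.leaf 0 [0, 60, 64, 0, 64])

theorem g1 : Good (PD lin H) ⟨⟨.ofNat 2, .ofNat 0⟩, ⟨.ofNat 1, .ofNat 0⟩, ⟨.ofNat 1, .ofNat 0⟩, ⟨.ofNat 1, .ofNat 0⟩⟩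
    ⟨⟨.ofNat 1, .ofNat 0⟩, ⟨.ofNat 0, .ofNat 2⟩, ⟨.ofNat 0, .ofNat 1⟩, ⟨.ofNat 1, .ofNat 0⟩⟩
    ⟨⟨.ofNat 1, .ofNat 0⟩, ⟨.ofNat 0, .ofNat 1⟩, ⟨.ofNat 0, .ofNat 1⟩, ⟨.ofNat 1, .ofNat 0⟩⟩
    ⟨⟨.ofNat 1, .ofNat 0⟩, ⟨.ofNat 1, .ofNat 0⟩, ⟨.ofNat 1, .ofNat 0⟩, ⟨.ofNat 1, .ofNat 0⟩⟩ :=
  goodD lin H t1 (by decide +kernel)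

/-- part of a tree -/
def t2_1 : Tree := .s03 ⟨⟨.ofNat 14, .ofNat 0⟩, ⟨.ofNat 13, .ofNat 0⟩, ⟨.ofNat 13, .ofNat 0⟩, ⟨.ofNat 13, .ofNat 0⟩⟩ ⟨.ofNat 1, .ofNat 0⟩ ⟨.ofNat 12, .ofNat 0⟩ ⟨.ofNat 1, .ofNat 0⟩ 0 (.s23 ⟨⟨.ofNat 18, .ofNat 9⟩, ⟨.ofNat 22, .ofNat 11⟩, ⟨.ofNat 20, .ofNat 9⟩, ⟨.ofNat 18, .ofNat 9⟩⟩ ⟨.ofNat 2, .ofNat 2⟩ ⟨.ofNat 16, .ofNat 3⟩ ⟨.ofNat 1, .ofNat 0⟩ 0 (.s13 ⟨⟨.ofNat 9, .ofNat 0⟩, ⟨.ofNat 11, .ofNat 0⟩, ⟨.ofNat 9, .ofNat 0⟩, ⟨.ofNat 9, .ofNat 0⟩⟩ ⟨.ofNat 0, .ofNat 2⟩ ⟨.ofNat 9, .negSucc 1⟩ ⟨.ofNat 1, .ofNat 0⟩ 0 (.s23 ⟨⟨.ofNat 39, .ofNat 13⟩, ⟨.ofNat 41, .ofNat 14⟩, ⟨.ofNat 40, .ofNat 13⟩, ⟨.ofNat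 39, .ofNat 13⟩⟩ ⟨.ofNat 1, .ofNat 0⟩ ⟨.ofNat 60, .ofNat 17⟩ ⟨.ofNat 2, .ofNat 0⟩ 0 (.s13 ⟨⟨.ofNat 13, .ofNat 0⟩, ⟨.ofNat 14, .ofNat 0⟩, ⟨.ofNat 13, .ofNat 0⟩, ⟨.ofNat 13, .ofNat 0⟩⟩ ⟨.ofNat 1, .ofNat 0⟩ ⟨.ofNat 17, .ofNat 0⟩ ⟨.ofNat 2, .ofNat 0⟩ 0 (.leaf 0 []) (.leaf 0 [24])) (.leaf 0 [23])) (.s01 ⟨⟨.negSucc 10, .ofNat 115⟩, ⟨.negSucc 8, .ofNat 125⟩, ⟨.negSucc 8, .ofNat 108⟩, ⟨.negSucc 8, .ofNat 108⟩⟩ ⟨.ofNat 9, .negSucc 1⟩ ⟨.ofNat 0, .ofNat 17⟩ ⟨.negSucc 0, .ofNat 1⟩ 0 (.leaf 0 [48]) (.leaf 0 [23]))) (.s02 ⟨⟨.ofNat 241, .ofNat 93⟩, ⟨.ofNat 259, .ofNat 107⟩, ⟨.ofNat 242, .ofNat 90⟩, ⟨.ofNat 225, .ofNat 90⟩⟩ ⟨.negSucc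 12, .ofNat 16⟩ ⟨.ofNat 0, .ofNat 17⟩ ⟨.negSucc 0, .ofNat 1⟩ 0 (.leaf 0 [42]) (.s01 ⟨⟨.negSucc 10, .ofNat 115⟩, ⟨.negSucc 8, .ofNat 125⟩, ⟨.negSucc 8, .ofNat 108⟩, ⟨.negSucc 8, .ofNat 108⟩⟩ ⟨.ofNat 9, .negSucc 1⟩ ⟨.ofNat 0, .ofNat 17⟩ ⟨.negSucc 0, .ofNat 1⟩ 0 (.leaf 0 [48]) (.leaf 0 [23])))) (.s03 ⟨⟨.ofNat 11, .ofNat 0⟩, ⟨.ofNat 9, .ofNat 0⟩, ⟨.ofNat 9, .ofNat 0⟩, ⟨.ofNat 9, .ofNat 0⟩⟩ ⟨.ofNat 17, .ofNat 0⟩ ⟨.ofNat 7, .ofNat 0⟩ ⟨.ofNat 12, .ofNat 0⟩ 0 (.s23 ⟨⟨.ofNat 241, .ofNat 93⟩, ⟨.ofNat 259, .ofNat 107⟩, ⟨.ofNat 242, .ofNat 90⟩, ⟨.ofNat 225, .ofNat 90⟩⟩ ⟨.ofNat 0, .ofNat 17⟩ ⟨.negSucc 12, .ofNat 16⟩ ⟨.negSucc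 0, .ofNat 1⟩ 0 (.s13 ⟨⟨.negSucc 10, .ofNat 115⟩, ⟨.negSucc 8, .ofNat 125⟩, ⟨.negSucc 8, .ofNat 108⟩, ⟨.negSucc 8, .ofNat 108⟩⟩ ⟨.ofNat 0, .ofNat 17⟩ ⟨.ofNat 9, .negSucc 1⟩ ⟨.negSucc 0, .ofNat 1⟩ 0 (.leaf 0 [53]) (.s01 ⟨⟨.negSucc 1, .ofNat 97⟩, ⟨.ofNat 0, .ofNat 90⟩, ⟨.ofNat 0, .ofNat 81⟩, ⟨.ofNat 0, .ofNat 81⟩⟩ ⟨.ofNat 9, .negSucc 0⟩ ⟨.ofNat 0, .ofNat 9⟩ ⟨.negSucc 0, .ofNat 1⟩ 0 (.leaf 0 [34]) (.leaf 0 [53]))) (.s02 ⟨⟨.ofNat 196, .ofNat 93⟩, ⟨.ofNat 180, .ofNat 90⟩, ⟨.ofNat 171, .ofNat 81⟩, ⟨.ofNat 162, .ofNat 81⟩⟩ ⟨.negSucc 10, .ofNat 17⟩ ⟨.ofNat 0, .ofNat 9⟩ ⟨.negSucc 0, .ofNat 1⟩ 0 (.leaf 0 [27]) (.s01 ⟨⟨.negSucc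 1, .ofNat 97⟩, ⟨.ofNat 0, .ofNat 90⟩, ⟨.ofNat 0, .ofNat 81⟩, ⟨.ofNat 0, .ofNat 81⟩⟩ ⟨.ofNat 9, .negSucc 0⟩ ⟨.ofNat 0, .ofNat 9⟩ ⟨.negSucc 0, .ofNat 1⟩ 0 (.leaf 0 [34]) (.leaf 0 [53])))) (.s23 ⟨⟨.ofNat 196, .ofNat 93⟩, ⟨.ofNat 180, .ofNat 90⟩, ⟨.ofNat 171, .ofNat 81⟩, ⟨.ofNat 162, .ofNat 81⟩⟩ ⟨.ofNat 0, .ofNat 9⟩ ⟨.negSucc 10, .ofNat 17⟩ ⟨.negSucc 0, .ofNat 1⟩ 0 (.s13 ⟨⟨.negSucc 1, .ofNat 97⟩, ⟨.ofNat 0, .ofNat 90⟩, ⟨.ofNat 0, .ofNat 81⟩, ⟨.ofNat 0, .ofNat 81⟩⟩ ⟨.ofNat 0, .ofNat 9⟩ ⟨.ofNat 9, .negSucc 0⟩ ⟨.negSucc 0, .ofNat 1⟩ 0 (.leaf 0 [64, 64, 45, 64]) (.leaf 0 [0, 64, 0, 53, 57])) (.leaf 0 [0, 64, 0, 57, 56])))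

/-- part of a tree -/
def t2_0 : Tree := .s23 ⟨⟨.negSucc 0, .ofNat 2⟩, ⟨.ofNat 2, .ofNat 1⟩, ⟨.ofNat 1, .ofNat 1⟩, ⟨.negSucc 0, .ofNat 2⟩⟩ ⟨.negSucc 0, .ofNat 1⟩ ⟨.ofNat 0, .ofNat 1⟩ ⟨.ofNat 1, .ofNat 0⟩ 0 t2_1 (.leaf 0 [64, 64, 37, 0, 64])

/-- part of a tree -/
def t2 : Tree := .s13 ⟨⟨.ofNat 1, .ofNat 0⟩, ⟨.ofNat 0, .ofNat 1⟩, ⟨.ofNat 1, .ofNat 0⟩, ⟨.ofNat 1, .ofNat 0⟩⟩ ⟨.ofNat 1, .ofNat 0⟩ ⟨.ofNat 0, .ofNat 1⟩ ⟨.ofNat 0, .ofNat 1⟩ 0 t2_0 (.s13 ⟨⟨.ofNat 1, .ofNat 0⟩, ⟨.ofNat 0, .ofNat 2⟩, ⟨.ofNat 1, .ofNat 0⟩, ⟨.ofNat 1, .ofNat 0⟩⟩ ⟨.ofNat 0, .ofNat 1⟩ ⟨.ofNat 1, .ofNat 0⟩ ⟨.ofNat 1, .ofNat 0⟩ 0 (.leaf 0 [64,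 64, 34, 0, 63]) (.leaf 0 [0, 0, 0, 0, 0, 20]))

theorem g2 : Good (PD lin H) ⟨⟨.ofNat 2, .ofNat 0⟩, ⟨.ofNat 1, .ofNat 0⟩, ⟨.ofNat 1, .ofNat 0⟩, ⟨.ofNat 1, .ofNat 0⟩⟩
    ⟨⟨.ofNat 0, .ofNat 0⟩, ⟨.ofNat 1, .ofNat 0⟩, ⟨.ofNat 0, .ofNat 0⟩, ⟨.ofNat 0, .ofNat 0⟩⟩
    ⟨⟨.ofNat 1, .ofNat 0⟩, ⟨.ofNat 0, .ofNat 2⟩, ⟨.ofNat 0, .ofNat 1⟩, ⟨.ofNat 1, .ofNat 0⟩⟩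
    ⟨⟨.ofNat 1, .ofNat 0⟩, ⟨.ofNat 1, .ofNat 0⟩, ⟨.ofNat 1, .ofNat 0⟩, ⟨.ofNat 1, .ofNat 0⟩⟩ :=
  goodD lin H t2 (by decide +kernel)

end

end Pool.Agent.PHCert.D1
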