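import Pool.Agent.PHCert.D2H

/-!
# PHCert: inequality D2, part 2 (85 leaves, checked by the kernel)
-/

set_option autoImplicit false

namespace Pool.Agent.PHCert.D2

open Zp Pool.Agent.PHCert

noncomputable section

/-- part of a tree -/
def t3 : Tree := .s23 ⟨⟨.ofNat 0, .ofNat 52⟩, ⟨.ofNat 0, .ofNat 78⟩, ⟨.negSucc 2, .ofNat 93⟩, ⟨.ofNat 0, .ofNat 39⟩⟩ ⟨.ofNat 6, .negSucc 0⟩ ⟨.ofNat 0, .ofNat 13⟩ ⟨.negSucc 1, .ofNat 2⟩ 0 (.s12 ⟨⟨.ofNat 0, .ofNat 1313⟩, ⟨.ofNat 0, .ofNat 2340⟩, ⟨.negSucc 59, .ofNat 2640⟩, ⟨.ofNat 0, .ofNat 1053⟩⟩ ⟨.ofNat 0, .ofNat 39⟩ ⟨.ofNat 20, .ofNat 0⟩ ⟨.ofNat 1, .ofNat 0⟩ 0 (.leaf 0 [63,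 0, 0, 57, 0]) (.s13 ⟨⟨.negSucc 12, .ofNat 40⟩, ⟨.ofNat 60, .ofNat 0⟩, ⟨.ofNat 60, .ofNat 0⟩, ⟨.ofNat 27, .ofNat 0⟩⟩ ⟨.ofNat 1, .ofNat 0⟩ ⟨.ofNat 20, .ofNat 0⟩ ⟨.ofNat 1, .ofNat 0⟩ 0 (.leaf 0 [63, 0, 0, 57, 0]) (.s13 ⟨⟨.ofNat 1, .ofNat 5⟩, ⟨.ofNat 15, .ofNat 0⟩, ⟨.ofNat 15, .ofNat 0⟩, ⟨.ofNat 6, .ofNat 0⟩⟩ ⟨.ofNat 3, .ofNat 0⟩ ⟨.ofNat 1, .ofNat 0⟩ ⟨.ofNat 8, .ofNat 0⟩ 0 (.leaf 0 [0, 0, 0, 63, 0]) (.s01 ⟨⟨.negSucc 168, .ofNat 520⟩, ⟨.ofNat 780, .ofNat 0⟩, ⟨.ofNat 900, .ofNat 0⟩, ⟨.ofNat 351, .ofNat 0⟩⟩ ⟨.ofNat 20, .ofNat 0⟩ ⟨.ofNat 13, .ofNat 0⟩ ⟨.ofNat 1, .ofNat 0⟩ 0 (.s12 ⟨⟨.ofNat 0, .ofNat 533⟩, ⟨.ofNat 0,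 .ofNat 1170⟩, ⟨.negSucc 14, .ofNat 1245⟩, ⟨.ofNat 0, .ofNat 468⟩⟩ ⟨.ofNat 0, .ofNat 117⟩ ⟨.ofNat 1, .ofNat 0⟩ ⟨.ofNat 4, .ofNat 0⟩ 0 (.leaf 0 [56, 64, 0, 0, 64, 0]) (.s01 ⟨⟨.ofNat 13, .ofNat 65⟩, ⟨.ofNat 195, .ofNat 0⟩, ⟨.ofNat 210, .ofNat 0⟩, ⟨.ofNat 78, .ofNat 0⟩⟩ ⟨.ofNat 1, .ofNat 0⟩ ⟨.ofNat 39, .ofNat 0⟩ ⟨.ofNat 8, .ofNat 0⟩ 0 (.s13 ⟨⟨.ofNat 13, .negSucc 3⟩, ⟨.ofNat 3, .ofNat 6⟩, ⟨.ofNat 3, .ofNat 6⟩, ⟨.ofNat 0, .ofNat 3⟩⟩ ⟨.negSucc 2, .ofNat 3⟩ ⟨.ofNat 6, .negSucc 0⟩ ⟨.ofNat 0, .ofNat 5⟩ 0 (.leaf 0 [40, 63, 0]) (.leaf 0 [64, 17, 48])) (.leaf 0 [40, 63, 0, 64]))) (.leaf 0 [0, 0, 0, 64, 63, 0]))))) (.s02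 ⟨⟨.ofNat 52, .ofNat 0⟩, ⟨.ofNat 78, .ofNat 0⟩, ⟨.ofNat 96, .ofNat 0⟩, ⟨.ofNat 39, .ofNat 0⟩⟩ ⟨.ofNat 0, .ofNat 1⟩ ⟨.ofNat 6, .negSucc 0⟩ ⟨.ofNat 2, .ofNat 0⟩ 0 (.s12 ⟨⟨.ofNat 39, .ofNat 0⟩, ⟨.ofNat 91, .ofNat 0⟩, ⟨.ofNat 102, .ofNat 0⟩, ⟨.ofNat 39, .ofNat 0⟩⟩ ⟨.ofNat 13, .ofNat 0⟩ ⟨.ofNat 11, .ofNat 0⟩ ⟨.ofNat 6, .ofNat 0⟩ 0 (.leaf 0 [30, 0, 64]) (.s13 ⟨⟨.ofNat 0, .ofNat 1313⟩, ⟨.ofNat 0, .ofNat 2340⟩, ⟨.negSucc 59, .ofNat 2640⟩, ⟨.ofNat 0, .ofNat 1053⟩⟩ ⟨.ofNat 0, .ofNat 39⟩ ⟨.ofNat 20, .ofNat 0⟩ ⟨.ofNat 1, .ofNat 0⟩ 0 (.leaf 0 [23, 0, 64]) (.leaf 0 [0, 64, 0, 0, 0, 28, 0]))) (.s13 ⟨⟨.ofNat 0, .ofNat 1313⟩,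 ⟨.ofNat 0, .ofNat 2340⟩, ⟨.negSucc 59, .ofNat 2640⟩, ⟨.ofNat 0, .ofNat 1053⟩⟩ ⟨.ofNat 0, .ofNat 39⟩ ⟨.ofNat 20, .ofNat 0⟩ ⟨.ofNat 1, .ofNat 0⟩ 0 (.leaf 0 [64, 0, 57, 0]) (.s12 ⟨⟨.ofNat 1313, .ofNat 0⟩, ⟨.ofNat 2340, .ofNat 0⟩, ⟨.ofNat 2700, .ofNat 0⟩, ⟨.ofNat 1053, .ofNat 0⟩⟩ ⟨.ofNat 39, .ofNat 0⟩ ⟨.ofNat 20, .ofNat 0⟩ ⟨.ofNat 1, .ofNat 0⟩ 0 (.leaf 0 [64, 0, 34, 58, 0]) (.s01 ⟨⟨.negSucc 168, .ofNat 520⟩, ⟨.ofNat 780, .ofNat 0⟩, ⟨.ofNat 900, .ofNat 0⟩, ⟨.ofNat 351, .ofNat 0⟩⟩ ⟨.ofNat 20, .ofNat 0⟩ ⟨.ofNat 13, .ofNat 0⟩ ⟨.ofNat 1, .ofNat 0⟩ 0 (.leaf 0 [57, 0, 0, 64, 0, 64, 28, 0]) (.leaf 0 [64, 0, 0, 53, 0])))))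

theorem g3 : Good (PD lin H) ⟨⟨.negSucc 12, .ofNat 26⟩, ⟨.ofNat 26, .ofNat 0⟩, ⟨.ofNat 32, .ofNat 0⟩, ⟨.ofNat 13, .ofNat 0⟩⟩
    ⟨⟨.ofNat 7, .ofNat 0⟩, ⟨.ofNat 20, .ofNat 0⟩, ⟨.ofNat 20, .ofNat 0⟩, ⟨.ofNat 7, .ofNat 0⟩⟩
    ⟨⟨.ofNat 13, .ofNat 0⟩, ⟨.ofNat 26, .ofNat 0⟩, ⟨.ofNat 32, .ofNat 0⟩, ⟨.ofNat 13, .ofNat 0⟩⟩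
    ⟨⟨.negSucc 0, .ofNat 2⟩, ⟨.ofNat 2, .ofNat 0⟩, ⟨.ofNat 2, .ofNat 0⟩, ⟨.ofNat 1, .ofNat 0⟩⟩ :=
  goodD lin H t3 (by decide +kernel)

/-- part of a tree -/
def t4_2 : Tree := .s13 ⟨⟨.ofNat 124, .negSucc 48⟩, ⟨.ofNat 20, .ofNat 40⟩, ⟨.ofNat 20, .ofNat 40⟩, ⟨.ofNat 0, .ofNat 20⟩⟩ ⟨.ofNat 7, .ofNat 5⟩ ⟨.ofNat 6, .negSucc 0⟩ ⟨.ofNat 2, .ofNat 2⟩ 0 (.s13 ⟨⟨.negSucc 1, .ofNat 9⟩, ⟨.ofNat 20, .ofNat 0⟩, ⟨.ofNat 20, .ofNat 0⟩, ⟨.ofNat 8, .ofNat 0⟩⟩ ⟨.ofNat 0, .ofNat 1⟩ ⟨.ofNat 8, .negSucc 3⟩ ⟨.negSucc 1, .ofNat 7⟩ 0 (.s03 ⟨⟨.ofNat 4, .ofNat 1⟩, ⟨.ofNat 0, .ofNat 5⟩, ⟨.ofNat 0, .ofNat 5⟩, ⟨.ofNat 0, .ofNat 2⟩⟩ ⟨.ofNat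 5, .ofNat 10⟩ ⟨.ofNat 2, .negSucc 0⟩ ⟨.ofNat 9, .negSucc 1⟩ 0 (.leaf 0 [0, 61]) (.s02 ⟨⟨.ofNat 234, .ofNat 91⟩, ⟨.ofNat 0, .ofNat 260⟩, ⟨.negSucc 11, .ofNat 302⟩, ⟨.ofNat 0, .ofNat 117⟩⟩ ⟨.ofNat 0, .ofNat 26⟩ ⟨.negSucc 10, .ofNat 9⟩ ⟨.ofNat 2, .negSucc 0⟩ 0 (.leaf 0 [0, 64, 61]) (.s12 ⟨⟨.ofNat 1551, .ofNat 250⟩, ⟨.ofNat 60, .ofNat 1640⟩, ⟨.negSucc 149, .ofNat 1844⟩, ⟨.negSucc 14, .ofNat 708⟩⟩ ⟨.negSucc 11, .ofNat 42⟩ ⟨.negSucc 9, .ofNat 7⟩ ⟨.negSucc 0, .ofNat 1⟩ 0 (.leaf 0 [0]) (.leaf 0 [0])))) (.s12 ⟨⟨.negSucc 77, .ofNat 1443⟩, ⟨.ofNat 2600, .ofNat 0⟩, ⟨.ofNat 3140, .negSucc 119⟩, ⟨.ofNat 1170, .ofNat 0⟩⟩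 ⟨.ofNat 0, .ofNat 13⟩ ⟨.negSucc 19, .ofNat 70⟩ ⟨.ofNat 0, .ofNat 1⟩ 0 (.s02 ⟨⟨.ofNat 234, .ofNat 91⟩, ⟨.ofNat 0, .ofNat 260⟩, ⟨.negSucc 11, .ofNat 302⟩, ⟨.ofNat 0, .ofNat 117⟩⟩ ⟨.ofNat 0, .ofNat 26⟩ ⟨.negSucc 10, .ofNat 9⟩ ⟨.ofNat 2, .negSucc 0⟩ 0 (.leaf 0 [0, 64, 61]) (.s23 ⟨⟨.ofNat 1551, .ofNat 250⟩, ⟨.ofNat 60, .ofNat 1640⟩, ⟨.negSucc 149, .ofNat 1844⟩, ⟨.negSucc 14, .ofNat 708⟩⟩ ⟨.negSucc 9, .ofNat 7⟩ ⟨.negSucc 11, .ofNat 42⟩ ⟨.negSucc 0, .ofNat 1⟩ 0 (.s01 ⟨⟨.negSucc 38, .ofNat 299⟩, ⟨.ofNat 650, .ofNat 0⟩, ⟨.ofNat 770, .negSucc 59⟩, ⟨.ofNat 260, .ofNat 0⟩⟩ ⟨.ofNat 0, .ofNat 650⟩ ⟨.negSucc 2, .ofNat 2⟩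 ⟨.negSucc 10, .ofNat 9⟩ 0 (.leaf 0 [60]) (.leaf 0 [60, 0])) (.leaf 0 [0]))) (.s12 ⟨⟨.ofNat 572, .ofNat 143⟩, ⟨.ofNat 1300, .ofNat 0⟩, ⟨.ofNat 1540, .negSucc 119⟩, ⟨.ofNat 520, .ofNat 0⟩⟩ ⟨.ofNat 0, .ofNat 65⟩ ⟨.negSucc 1, .ofNat 2⟩ ⟨.negSucc 1, .ofNat 7⟩ 0 (.s02 ⟨⟨.negSucc 38, .ofNat 299⟩, ⟨.ofNat 650, .ofNat 0⟩, ⟨.ofNat 770, .negSucc 59⟩, ⟨.ofNat 260, .ofNat 0⟩⟩ ⟨.ofNat 0, .ofNat 650⟩ ⟨.negSucc 2, .ofNat 2⟩ ⟨.negSucc 10, .ofNat 9⟩ 0 (.leaf 0 [60]) (.leaf 0 [60])) (.leaf 0 [0, 0])))) (.s12 ⟨⟨.negSucc 168, .ofNat 520⟩, ⟨.ofNat 780, .ofNat 0⟩, ⟨.ofNat 900, .ofNat 0⟩, ⟨.ofNat 351, .ofNat 0⟩⟩ ⟨.ofNat 13, .ofNat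 0⟩ ⟨.ofNat 20, .ofNat 0⟩ ⟨.ofNat 1, .ofNat 0⟩ 0 (.s23 ⟨⟨.negSucc 77, .ofNat 1443⟩, ⟨.ofNat 2600, .ofNat 0⟩, ⟨.ofNat 3140, .negSucc 119⟩, ⟨.ofNat 1170, .ofNat 0⟩⟩ ⟨.negSucc 19, .ofNat 70⟩ ⟨.ofNat 0, .ofNat 13⟩ ⟨.ofNat 0, .ofNat 1⟩ 0 (.leaf 0 [0, 0, 56, 0]) (.leaf 0 [0, 0, 0])) (.s12 ⟨⟨.ofNat 13, .ofNat 65⟩, ⟨.ofNat 195, .ofNat 0⟩, ⟨.ofNat 210, .ofNat 0⟩, ⟨.ofNat 78, .ofNat 0⟩⟩ ⟨.ofNat 39, .ofNat 0⟩ ⟨.ofNat 1, .ofNat 0⟩ ⟨.ofNat 8, .ofNat 0⟩ 0 (.leaf 0 [0, 64, 0, 56, 0]) (.leaf 0 [0, 0, 38])))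

/-- part of a tree -/
def t4_1 : Tree := .s03 ⟨⟨.ofNat 1, .ofNat 0⟩, ⟨.ofNat 0, .ofNat 1⟩, ⟨.ofNat 0, .ofNat 1⟩, ⟨.negSucc 0, .ofNat 1⟩⟩ ⟨.ofNat 20, .negSucc 10⟩ ⟨.negSucc 19, .ofNat 13⟩ ⟨.ofNat 0, .ofNat 40⟩ 0 t4_2 (.s02 ⟨⟨.ofNat 234, .ofNat 91⟩, ⟨.ofNat 0, .ofNat 260⟩, ⟨.ofNat 0, .ofNat 300⟩, ⟨.ofNat 0, .ofNat 117⟩⟩ ⟨.ofNat 13, .ofNat 0⟩ ⟨.ofNat 0, .ofNat 20⟩ ⟨.ofNat 3, .ofNat 0⟩ 0 (.s12 ⟨⟨.negSucc 168, .ofNat 520⟩, ⟨.ofNat 780, .ofNat 0⟩, ⟨.ofNat 900, .ofNat 0⟩, ⟨.ofNat 351, .ofNat 0⟩⟩ ⟨.ofNat 13, .ofNat 0⟩ ⟨.ofNat 20, .ofNat 0⟩ ⟨.ofNat 1, .ofNat 0⟩ 0 (.leaf 0 [0, 0, 0]) (.leaf 0 [0, 0, 0, 64, 43, 0]))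 (.s12 ⟨⟨.ofNat 1612, .negSucc 636⟩, ⟨.ofNat 260, .ofNat 520⟩, ⟨.ofNat 120, .ofNat 640⟩, ⟨.ofNat 0, .ofNat 260⟩⟩ ⟨.negSucc 25, .ofNat 91⟩ ⟨.negSucc 6, .ofNat 6⟩ ⟨.ofNat 0, .ofNat 2⟩ 0 (.s02 ⟨⟨.ofNat 0, .ofNat 13⟩, ⟨.ofNat 13, .ofNat 13⟩, ⟨.ofNat 26, .ofNat 6⟩, ⟨.ofNat 13, .ofNat 0⟩⟩ ⟨.ofNat 117, .negSucc 25⟩ ⟨.negSucc 6, .ofNat 6⟩ ⟨.ofNat 40, .ofNat 40⟩ 0 (.leaf 0 [0, 0, 7, 0]) (.leaf 0 [0, 7])) (.leaf 0 [0, 0])))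

/-- part of a tree -/
def t4_0 : Tree := .s03 ⟨⟨.ofNat 18, .ofNat 7⟩, ⟨.ofNat 0, .ofNat 20⟩, ⟨.ofNat 0, .ofNat 20⟩, ⟨.ofNat 0, .ofNat 9⟩⟩ ⟨.ofNat 1, .ofNat 0⟩ ⟨.ofNat 0, .ofNat 20⟩ ⟨.ofNat 3, .ofNat 0⟩ 0 (.s13 ⟨⟨.ofNat 13, .negSucc 3⟩, ⟨.ofNat 3, .ofNat 6⟩, ⟨.ofNat 3, .ofNat 6⟩, ⟨.ofNat 0, .ofNat 3⟩⟩ ⟨.ofNat 0, .ofNat 1⟩ ⟨.ofNat 6, .negSucc 0⟩ ⟨.ofNat 0, .ofNat 2⟩ 0 (.s13 ⟨⟨.negSucc 12, .ofNat 40⟩, ⟨.ofNat 60, .ofNat 0⟩, ⟨.ofNat 60, .ofNat 0⟩, ⟨.ofNat 27, .ofNat 0⟩⟩ ⟨.ofNat 0, .ofNat 2⟩ ⟨.negSucc 5, .ofNat 21⟩ ⟨.ofNat 0, .ofNat 1⟩ 0 (.leaf 0 [23, 8]) (.s01 ⟨⟨.ofNat 67, .ofNat 12⟩, ⟨.negSucc 29, .ofNat 105⟩,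 ⟨.negSucc 29, .ofNat 105⟩, ⟨.negSucc 11, .ofNat 42⟩⟩ ⟨.ofNat 6, .negSucc 2⟩ ⟨.ofNat 0, .ofNat 5⟩ ⟨.ofNat 1, .ofNat 0⟩ 0 (.s13 ⟨⟨.ofNat 1, .ofNat 5⟩, ⟨.ofNat 15, .ofNat 0⟩, ⟨.ofNat 15, .ofNat 0⟩, ⟨.ofNat 6, .ofNat 0⟩⟩ ⟨.ofNat 0, .ofNat 5⟩ ⟨.negSucc 0, .ofNat 1⟩ ⟨.negSucc 1, .ofNat 7⟩ 0 (.leaf 0 [0, 63]) (.leaf 0 [0, 0, 0, 0, 64, 15])) (.leaf 0 [0, 62]))) (.s01 ⟨⟨.ofNat 124, .negSucc 48⟩, ⟨.ofNat 20, .ofNat 40⟩, ⟨.ofNat 20, .ofNat 40⟩, ⟨.ofNat 0, .ofNat 20⟩⟩ ⟨.ofNat 6, .negSucc 0⟩ ⟨.ofNat 7, .ofNat 5⟩ ⟨.ofNat 2, .ofNat 2⟩ 0 (.s12 ⟨⟨.negSucc 168, .ofNat 520⟩, ⟨.ofNat 780, .ofNat 0⟩, ⟨.ofNat 900, .ofNat 0⟩, ⟨.ofNat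 351, .ofNat 0⟩⟩ ⟨.ofNat 13, .ofNat 0⟩ ⟨.ofNat 20, .ofNat 0⟩ ⟨.ofNat 1, .ofNat 0⟩ 0 (.leaf 0 [0, 0, 0, 0, 64, 15]) (.leaf 0 [0, 15, 0, 64, 64, 15])) (.s03 ⟨⟨.ofNat 67, .ofNat 12⟩, ⟨.negSucc 29, .ofNat 105⟩, ⟨.negSucc 29, .ofNat 105⟩, ⟨.negSucc 11, .ofNat 42⟩⟩ ⟨.ofNat 6, .negSucc 2⟩ ⟨.ofNat 0, .ofNat 5⟩ ⟨.ofNat 1, .ofNat 0⟩ 0 (.leaf 0 [0, 0, 0, 0, 64, 15]) (.s01 ⟨⟨.negSucc 1, .ofNat 9⟩, ⟨.ofNat 20, .ofNat 0⟩, ⟨.ofNat 20, .ofNat 0⟩, ⟨.ofNat 8, .ofNat 0⟩⟩ ⟨.ofNat 8, .negSucc 3⟩ ⟨.ofNat 0, .ofNat 1⟩ ⟨.negSucc 1, .ofNat 7⟩ 0 (.s12 ⟨⟨.negSucc 77, .ofNat 1443⟩, ⟨.ofNat 2600, .ofNat 0⟩, ⟨.ofNat 3140, .negSucc 119⟩,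 ⟨.ofNat 1170, .ofNat 0⟩⟩ ⟨.ofNat 0, .ofNat 13⟩ ⟨.negSucc 19, .ofNat 70⟩ ⟨.ofNat 0, .ofNat 1⟩ 0 (.leaf 0 [0, 64, 62]) (.leaf 0 [0, 0, 64, 16])) (.leaf 0 [0, 62]))))) t4_1

/-- part of a tree -/
def t4 : Tree := .s01 ⟨⟨.ofNat 14, .ofNat 1⟩, ⟨.ofNat 0, .ofNat 20⟩, ⟨.ofNat 0, .ofNat 20⟩, ⟨.ofNat 0, .ofNat 7⟩⟩ ⟨.ofNat 8, .ofNat 2⟩ ⟨.ofNat 1, .ofNat 2⟩ ⟨.ofNat 1, .ofNat 1⟩ 0 t4_0 (.s13 ⟨⟨.ofNat 18, .ofNat 7⟩, ⟨.ofNat 0, .ofNat 20⟩, ⟨.ofNat 0, .ofNat 20⟩, ⟨.ofNat 0, .ofNat 9⟩⟩ ⟨.ofNat 1, .ofNat 0⟩ ⟨.ofNat 0, .ofNat 20⟩ ⟨.ofNat 3, .ofNat 0⟩ 0 (.leaf 0 [26]) (.s13 ⟨⟨.ofNat 1, .ofNat 0⟩, ⟨.ofNat 0, .ofNat 1⟩, ⟨.ofNat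 0, .ofNat 1⟩, ⟨.negSucc 0, .ofNat 1⟩⟩ ⟨.ofNat 20, .negSucc 10⟩ ⟨.negSucc 19, .ofNat 13⟩ ⟨.ofNat 0, .ofNat 40⟩ 0 (.s13 ⟨⟨.ofNat 4, .ofNat 1⟩, ⟨.ofNat 0, .ofNat 5⟩, ⟨.ofNat 0, .ofNat 5⟩, ⟨.ofNat 0, .ofNat 2⟩⟩ ⟨.ofNat 5, .ofNat 10⟩ ⟨.ofNat 2, .negSucc 0⟩ ⟨.ofNat 9, .negSucc 1⟩ 0 (.leaf 0 [0]) (.leaf 0 [0, 0, 0])) (.s12 ⟨⟨.ofNat 234, .ofNat 91⟩, ⟨.ofNat 0, .ofNat 260⟩, ⟨.ofNat 0, .ofNat 300⟩, ⟨.ofNat 0, .ofNat 117⟩⟩ ⟨.ofNat 13, .ofNat 0⟩ ⟨.ofNat 0, .ofNat 20⟩ ⟨.ofNat 3, .ofNat 0⟩ 0 (.leaf 0 [0, 0, 0]) (.s12 ⟨⟨.ofNat 0, .ofNat 13⟩, ⟨.ofNat 13, .ofNat 13⟩, ⟨.ofNat 26, .ofNat 6⟩, ⟨.ofNat 13, .ofNat 0⟩⟩ ⟨.ofNat 117,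 .negSucc 25⟩ ⟨.negSucc 6, .ofNat 6⟩ ⟨.ofNat 40, .ofNat 40⟩ 0 (.leaf 0 [6, 0]) (.leaf 0 [])))))

theorem g4 : Good (PD lin H) ⟨⟨.ofNat 1, .ofNat 0⟩, ⟨.ofNat 0, .ofNat 0⟩, ⟨.ofNat 0, .ofNat 0⟩, ⟨.ofNat 0, .ofNat 0⟩⟩
    ⟨⟨.ofNat 7, .ofNat 0⟩, ⟨.ofNat 20, .ofNat 0⟩, ⟨.ofNat 20, .ofNat 0⟩, ⟨.ofNat 7, .ofNat 0⟩⟩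
    ⟨⟨.negSucc 12, .ofNat 26⟩, ⟨.ofNat 26, .ofNat 0⟩, ⟨.ofNat 32, .ofNat 0⟩, ⟨.ofNat 13, .ofNat 0⟩⟩
    ⟨⟨.negSucc 0, .ofNat 2⟩, ⟨.ofNat 2, .ofNat 0⟩, ⟨.ofNat 2, .ofNat 0⟩, ⟨.ofNat 1, .ofNat 0⟩⟩ :=
  goodD lin H t4 (by decide +kernel)

/-- part of a tree -/
def t8_1 : Tree := .s03 ⟨⟨.ofNat 14, .ofNat 1⟩, ⟨.ofNat 0, .ofNat 20⟩, ⟨.ofNat 0, .ofNat 20⟩, ⟨.ofNat 0, .ofNat 7⟩⟩ ⟨.ofNat 8, .ofNat 2⟩ ⟨.ofNat 1, .ofNat 2⟩ ⟨.ofNat 1, .ofNat 1⟩ 0 (.s01 ⟨⟨.negSucc 5, .ofNat 50⟩, ⟨.ofNat 6, .ofNat 90⟩, ⟨.negSucc 0, .ofNat 125⟩, ⟨.ofNat 0, .ofNat 42⟩⟩ ⟨.ofNat 0, .ofNat 1⟩ ⟨.negSucc 6, .ofNat 35⟩ ⟨.ofNat 1, .ofNat 0⟩ 0 (.s13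 ⟨⟨.ofNat 27, .ofNat 0⟩, ⟨.ofNat 60, .ofNat 0⟩, ⟨.ofNat 80, .ofNat 0⟩, ⟨.ofNat 27, .ofNat 0⟩⟩ ⟨.ofNat 20, .ofNat 0⟩ ⟨.ofNat 1, .ofNat 0⟩ ⟨.ofNat 1, .ofNat 0⟩ 0 (.s23 ⟨⟨.negSucc 168, .ofNat 520⟩, ⟨.ofNat 780, .ofNat 0⟩, ⟨.ofNat 900, .ofNat 0⟩, ⟨.ofNat 351, .ofNat 0⟩⟩ ⟨.ofNat 20, .ofNat 0⟩ ⟨.ofNat 13, .ofNat 0⟩ ⟨.ofNat 1, .ofNat 0⟩ 0 (.leaf 0 [0, 0, 64, 0, 0, 64, 64, 22, 0]) (.leaf 0 [64, 0, 64, 0, 0, 41, 0, 50, 0])) (.leaf 0 [64, 3, 64, 0, 0, 64, 0, 64, 64])) (.s02 ⟨⟨.ofNat 0, .ofNat 13⟩, ⟨.ofNat 13, .ofNat 13⟩, ⟨.ofNat 26, .ofNat 6⟩, ⟨.ofNat 13, .ofNat 0⟩⟩ ⟨.ofNat 13, .ofNat 0⟩ ⟨.ofNat 6, .negSucc 0⟩ ⟨.ofNat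 6, .ofNat 6⟩ 0 (.s23 ⟨⟨.ofNat 164, .negSucc 4⟩, ⟨.negSucc 17, .ofNat 164⟩, ⟨.negSucc 35, .ofNat 188⟩, ⟨.negSucc 17, .ofNat 73⟩⟩ ⟨.negSucc 2, .ofNat 4⟩ ⟨.ofNat 3, .ofNat 3⟩ ⟨.ofNat 1, .ofNat 0⟩ 0 (.s03 ⟨⟨.ofNat 146, .ofNat 19⟩, ⟨.ofNat 146, .ofNat 110⟩, ⟨.ofNat 12, .ofNat 200⟩, ⟨.negSucc 35, .ofNat 97⟩⟩ ⟨.ofNat 8, .ofNat 2⟩ ⟨.negSucc 0, .ofNat 5⟩ ⟨.ofNat 0, .ofNat 1⟩ 0 (.leaf 0 [18, 64, 0, 64, 0, 0]) (.leaf 0 [20, 64, 64, 0, 0, 0])) (.leaf 0 [14, 64, 0, 0, 0, 0, 3, 0])) (.s01 ⟨⟨.negSucc 19, .ofNat 20⟩, ⟨.ofNat 6, .ofNat 12⟩, ⟨.negSucc 0, .ofNat 18⟩, ⟨.ofNat 0, .ofNat 6⟩⟩ ⟨.ofNat 6, .ofNat 0⟩ ⟨.negSucc 0, .ofNat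 1⟩ ⟨.ofNat 0, .ofNat 7⟩ 0 (.s23 ⟨⟨.ofNat 146, .ofNat 19⟩, ⟨.ofNat 146, .ofNat 110⟩, ⟨.ofNat 12, .ofNat 200⟩, ⟨.negSucc 35, .ofNat 97⟩⟩ ⟨.ofNat 8, .ofNat 2⟩ ⟨.negSucc 0, .ofNat 5⟩ ⟨.ofNat 0, .ofNat 1⟩ 0 (.leaf 0 [18, 64, 0, 64, 0, 0]) (.leaf 0 [20, 64, 64, 0, 0, 0])) (.s23 ⟨⟨.ofNat 146, .ofNat 19⟩, ⟨.ofNat 146, .ofNat 110⟩, ⟨.ofNat 12, .ofNat 200⟩, ⟨.negSucc 35, .ofNat 97⟩⟩ ⟨.ofNat 8, .ofNat 2⟩ ⟨.negSucc 0, .ofNat 5⟩ ⟨.ofNat 0, .ofNat 1⟩ 0 (.leaf 0 [6, 56, 0]) (.leaf 0 [0, 64, 4]))))) (.s01 ⟨⟨.negSucc 0, .ofNat 2⟩, ⟨.ofNat 2, .ofNat 0⟩, ⟨.ofNat 3, .ofNat 0⟩, ⟨.ofNat 1, .ofNat 0⟩⟩ ⟨.ofNat 2, .ofNat 0⟩ ⟨.ofNat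 0, .ofNat 1⟩ ⟨.ofNat 0, .ofNat 1⟩ 0 (.s13 ⟨⟨.negSucc 5, .ofNat 50⟩, ⟨.ofNat 6, .ofNat 90⟩, ⟨.negSucc 0, .ofNat 125⟩, ⟨.ofNat 0, .ofNat 42⟩⟩ ⟨.negSucc 6, .ofNat 35⟩ ⟨.ofNat 0, .ofNat 1⟩ ⟨.ofNat 1, .ofNat 0⟩ 0 (.s23 ⟨⟨.ofNat 0, .ofNat 13⟩, ⟨.ofNat 13, .ofNat 13⟩, ⟨.ofNat 26, .ofNat 6⟩, ⟨.ofNat 13, .ofNat 0⟩⟩ ⟨.ofNat 6, .negSucc 0⟩ ⟨.ofNat 13, .ofNat 0⟩ ⟨.ofNat 6, .ofNat 6⟩ 0 (.s03 ⟨⟨.ofNat 0, .ofNat 6⟩, ⟨.ofNat 6, .ofNat 6⟩, ⟨.ofNat 19, .negSucc 0⟩, ⟨.ofNat 6, .ofNat 0⟩⟩ ⟨.ofNat 6, .negSucc 0⟩ ⟨.ofNat 1, .ofNat 0⟩ ⟨.ofNat 1, .ofNat 1⟩ 0 (.s13 ⟨⟨.negSucc 19, .ofNat 20⟩, ⟨.ofNat 6, .ofNat 12⟩, ⟨.negSucc 0, .ofNat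 18⟩, ⟨.ofNat 0, .ofNat 6⟩⟩ ⟨.negSucc 0, .ofNat 1⟩ ⟨.ofNat 6, .ofNat 0⟩ ⟨.ofNat 0, .ofNat 7⟩ 0 (.leaf 0 [0, 61, 0]) (.leaf 0 [20, 64, 0, 0, 0])) (.leaf 0 [20, 64, 0, 0, 0, 0])) (.leaf 0 [14, 64, 0, 0, 0, 0, 3, 0])) (.leaf 0 [64, 0, 48, 0, 64, 0, 51, 64])) (.s23 ⟨⟨.ofNat 234, .ofNat 91⟩, ⟨.ofNat 0, .ofNat 260⟩, ⟨.ofNat 0, .ofNat 300⟩, ⟨.ofNat 0, .ofNat 117⟩⟩ ⟨.ofNat 0, .ofNat 20⟩ ⟨.ofNat 13, .ofNat 0⟩ ⟨.ofNat 3, .ofNat 0⟩ 0 (.s13 ⟨⟨.ofNat 0, .ofNat 6⟩, ⟨.ofNat 6, .ofNat 6⟩, ⟨.ofNat 19, .negSucc 0⟩, ⟨.ofNat 6, .ofNat 0⟩⟩ ⟨.ofNat 6, .negSucc 0⟩ ⟨.ofNat 1, .ofNat 0⟩ ⟨.ofNat 1, .ofNat 1⟩ 0 (.s23 ⟨⟨.ofNat 0, .ofNat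 13⟩, ⟨.ofNat 13, .ofNat 13⟩, ⟨.ofNat 26, .ofNat 6⟩, ⟨.ofNat 13, .ofNat 0⟩⟩ ⟨.negSucc 6, .ofNat 6⟩ ⟨.ofNat 117, .negSucc 25⟩ ⟨.ofNat 40, .ofNat 40⟩ 0 (.leaf 0 [61]) (.leaf 0 [61, 0, 0])) (.leaf 0 [56, 0, 0, 6])) (.leaf 0 [60, 0, 0])))

/-- part of a tree -/
def t8_0 : Tree := .s02 ⟨⟨.negSucc 12, .ofNat 26⟩, ⟨.ofNat 26, .ofNat 0⟩, ⟨.ofNat 32, .ofNat 0⟩, ⟨.ofNat 13, .ofNat 0⟩⟩ ⟨.ofNat 26, .ofNat 0⟩ ⟨.ofNat 0, .ofNat 1⟩ ⟨.ofNat 0, .ofNat 1⟩ 0 (.s02 ⟨⟨.ofNat 52, .ofNat 0⟩, ⟨.ofNat 78, .ofNat 0⟩, ⟨.ofNat 96, .ofNat 0⟩, ⟨.ofNat 39, .ofNat 0⟩⟩ ⟨.ofNat 0, .ofNat 1⟩ ⟨.ofNat 6, .negSucc 0⟩ ⟨.ofNat 2, .ofNat 0⟩ 0 (.s23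 ⟨⟨.ofNat 39, .ofNat 0⟩, ⟨.ofNat 91, .ofNat 0⟩, ⟨.ofNat 102, .ofNat 0⟩, ⟨.ofNat 39, .ofNat 0⟩⟩ ⟨.ofNat 11, .ofNat 0⟩ ⟨.ofNat 13, .ofNat 0⟩ ⟨.ofNat 6, .ofNat 0⟩ 0 (.leaf 0 [0, 54, 0, 64, 0, 0, 0, 32, 64]) (.leaf 0 [64, 64, 30, 0, 64])) (.s23 ⟨⟨.ofNat 1313, .ofNat 0⟩, ⟨.ofNat 2340, .ofNat 0⟩, ⟨.ofNat 2700, .ofNat 0⟩, ⟨.ofNat 1053, .ofNat 0⟩⟩ ⟨.ofNat 20, .ofNat 0⟩ ⟨.ofNat 39, .ofNat 0⟩ ⟨.ofNat 1, .ofNat 0⟩ 0 (.s13 ⟨⟨.ofNat 27, .ofNat 0⟩, ⟨.ofNat 60, .ofNat 0⟩, ⟨.ofNat 80, .ofNat 0⟩, ⟨.ofNat 27, .ofNat 0⟩⟩ ⟨.ofNat 20, .ofNat 0⟩ ⟨.ofNat 1, .ofNat 0⟩ ⟨.ofNat 1, .ofNat 0⟩ 0 (.s03 ⟨⟨.negSucc 168, .ofNat 520⟩, ⟨.ofNat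 780, .ofNat 0⟩, ⟨.ofNat 900, .ofNat 0⟩, ⟨.ofNat 351, .ofNat 0⟩⟩ ⟨.ofNat 20, .ofNat 0⟩ ⟨.ofNat 13, .ofNat 0⟩ ⟨.ofNat 1, .ofNat 0⟩ 0 (.leaf 0 [16, 0, 64, 0, 0, 64, 64, 24, 0]) (.leaf 0 [64, 0, 64, 0, 0, 0, 50, 0])) (.leaf 0 [64, 3, 64, 0, 0, 0, 64, 64])) (.leaf 0 [64, 3, 64, 0, 0, 0, 64, 64]))) t8_1

/-- part of a tree -/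
def t8 : Tree := .s23 ⟨⟨.ofNat 13, .ofNat 0⟩, ⟨.ofNat 26, .ofNat 0⟩, ⟨.ofNat 32, .ofNat 0⟩, ⟨.ofNat 13, .ofNat 0⟩⟩ ⟨.ofNat 6, .ofNat 0⟩ ⟨.ofNat 1, .ofNat 0⟩ ⟨.ofNat 1, .ofNat 0⟩ 0 t8_0 (.s02 ⟨⟨.ofNat 0, .ofNat 2⟩, ⟨.ofNat 1, .ofNat 0⟩, ⟨.ofNat 2, .ofNat 0⟩, ⟨.ofNat 1, .ofNat 0⟩⟩ ⟨.negSucc 0, .ofNat 2⟩ ⟨.ofNat 1, .ofNat 0⟩ ⟨.ofNat 1, .ofNat 0⟩ 0 (.s02 ⟨⟨.ofNat 0, .ofNat 1⟩, ⟨.ofNat 1, .ofNat 0⟩, ⟨.ofNat 2, .ofNat 0⟩, ⟨.ofNat 1, .ofNat 0⟩⟩ ⟨.negSucc 0, .ofNat 1⟩ ⟨.ofNat 0, .ofNat 1⟩ ⟨.negSucc 0, .ofNat 2⟩ 0 (.s23 ⟨⟨.ofNat 13, .ofNat 0⟩, ⟨.ofNat 0, .ofNat 13⟩, ⟨.ofNat 20, .ofNat 6⟩, ⟨.ofNat 13, .ofNat 0⟩⟩ ⟨.ofNat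 13, .ofNat 0⟩ ⟨.ofNat 0, .ofNat 1⟩ ⟨.ofNat 1, .ofNat 1⟩ 0 (.leaf 0 [64, 64, 0, 0, 9, 0, 0, 0, 41, 0]) (.s12 ⟨⟨.ofNat 13, .ofNat 0⟩, ⟨.ofNat 20, .ofNat 0⟩, ⟨.ofNat 33, .ofNat 0⟩, ⟨.ofNat 13, .ofNat 0⟩⟩ ⟨.ofNat 7, .ofNat 0⟩ ⟨.ofNat 6, .ofNat 0⟩ ⟨.ofNat 1, .ofNat 0⟩ 0 (.leaf 0 [0, 64, 64, 64, 7, 0, 0, 64, 64]) (.leaf 0 [0, 64, 64, 0, 0, 18, 0, 0, 0, 0, 0]))) (.leaf 0 [64, 64, 64, 64, 0, 64, 9, 0, 0, 0, 41, 64, 0, 64])) (.s03 ⟨⟨.negSucc 12, .ofNat 26⟩, ⟨.ofNat 26, .ofNat 0⟩, ⟨.ofNat 32, .ofNat 0⟩, ⟨.ofNat 13, .ofNat 0⟩⟩ ⟨.ofNat 26, .ofNat 0⟩ ⟨.ofNat 0, .ofNat 1⟩ ⟨.ofNat 0, .ofNat 1⟩ 0 (.s23 ⟨⟨.ofNat 13, .ofNat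 117⟩, ⟨.negSucc 12, .ofNat 143⟩, ⟨.negSucc 5, .ofNat 186⟩, ⟨.ofNat 0, .ofNat 78⟩⟩ ⟨.ofNat 0, .ofNat 13⟩ ⟨.ofNat 6, .negSucc 0⟩ ⟨.negSucc 0, .ofNat 1⟩ 0 (.s03 ⟨⟨.ofNat 52, .ofNat 0⟩, ⟨.ofNat 78, .ofNat 0⟩, ⟨.ofNat 96, .ofNat 0⟩, ⟨.ofNat 39, .ofNat 0⟩⟩ ⟨.ofNat 0, .ofNat 1⟩ ⟨.ofNat 6, .negSucc 0⟩ ⟨.ofNat 2, .ofNat 0⟩ 0 (.leaf 0 [64, 27, 0, 64]) (.leaf 0 [64, 3, 64, 0, 0, 0, 64, 64])) (.leaf 0 [64, 3, 64, 0, 0, 0, 0, 0, 0, 0, 0, 64, 64])) (.s01 ⟨⟨.negSucc 0, .ofNat 2⟩, ⟨.ofNat 2, .ofNat 0⟩, ⟨.ofNat 3, .ofNat 0⟩, ⟨.ofNat 1, .ofNat 0⟩⟩ ⟨.ofNat 2, .ofNat 0⟩ ⟨.ofNat 0, .ofNat 1⟩ ⟨.ofNat 0, .ofNat 1⟩ 0 (.leaf 0 [64,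 0, 48, 0, 0, 0, 0, 0, 0, 0, 51, 64]) (.leaf 0 [64, 64, 0, 1, 0, 0, 0, 0]))))

theorem g8 : Good (PD lin H) ⟨⟨.ofNat 1, .ofNat 0⟩, ⟨.ofNat 0, .ofNat 0⟩, ⟨.ofNat 0, .ofNat 0⟩, ⟨.ofNat 0, .ofNat 0⟩⟩
    ⟨⟨.ofNat 1, .ofNat 0⟩, ⟨.ofNat 2, .ofNat 0⟩, ⟨.ofNat 3, .ofNat 0⟩, ⟨.ofNat 1, .ofNat 0⟩⟩
    ⟨⟨.ofNat 1, .ofNat 0⟩, ⟨.ofNat 1, .ofNat 0⟩, ⟨.ofNat 2, .ofNat 0⟩, ⟨.ofNat 1, .ofNat 0⟩⟩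
    ⟨⟨.ofNat 7, .ofNat 0⟩, ⟨.ofNat 20, .ofNat 0⟩, ⟨.ofNat 20, .ofNat 0⟩, ⟨.ofNat 7, .ofNat 0⟩⟩ :=
  goodD lin H t8 (by decide +kernel)

end

end Pool.Agent.PHCert.D2
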