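import Pool.Agent.PHCert.D2H

/-!
# PHCert: inequality D2, part 3 (52 leaves, checked by the kernel)
-/

set_option autoImplicit false

namespace Pool.Agent.PHCert.D2

open Zp Pool.Agent.PHCert

noncomputable section

/-- part of a tree -/
def t9_1 : Tree := .s13 ⟨⟨.ofNat 1, .ofNat 0⟩, ⟨.ofNat 0, .ofNat 2⟩, ⟨.ofNat 0, .ofNat 2⟩, ⟨.ofNat 1, .ofNat 0⟩⟩ ⟨.ofNat 14, .negSucc 5⟩ ⟨.ofNat 0, .ofNat 1⟩ ⟨.ofNat 0, .ofNat 7⟩ 0 (.s02 ⟨⟨.ofNat 126, .ofNat 44⟩, ⟨.ofNat 0, .ofNat 280⟩, ⟨.ofNat 0, .ofNat 315⟩, ⟨.ofNat 0, .ofNat 98⟩⟩ ⟨.ofNat 3, .ofNat 0⟩ ⟨.ofNat 0, .ofNat 35⟩ ⟨.ofNat 1, .ofNat 0⟩ 0 (.s12 ⟨⟨.ofNat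 0, .ofNat 7⟩, ⟨.ofNat 0, .ofNat 20⟩, ⟨.negSucc 2, .ofNat 24⟩, ⟨.ofNat 0, .ofNat 7⟩⟩ ⟨.ofNat 3, .ofNat 3⟩ ⟨.negSucc 2, .ofNat 4⟩ ⟨.ofNat 1, .ofNat 0⟩ 0 (.s02 ⟨⟨.ofNat 168, .ofNat 12⟩, ⟨.ofNat 252, .ofNat 88⟩, ⟨.ofNat 378, .ofNat 97⟩, ⟨.ofNat 126, .ofNat 30⟩⟩ ⟨.ofNat 0, .ofNat 1⟩ ⟨.negSucc 7, .ofNat 370⟩ ⟨.ofNat 0, .ofNat 3⟩ 0 (.leaf 0 [0, 64, 64, 0, 24, 64]) (.leaf 0 [64, 0, 8, 37, 0, 0])) (.leaf 0 [0, 0, 43])) (.s03 ⟨⟨.ofNat 320, .negSucc 78⟩, ⟨.negSucc 109, .ofNat 380⟩, ⟨.negSucc 109, .ofNat 380⟩, ⟨.negSucc 27, .ofNat 119⟩⟩ ⟨.ofNat 7, .negSucc 2⟩ ⟨.ofNat 5, .ofNat 5⟩ ⟨.ofNat 1, .ofNat 0⟩ 0 (.leaf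 0 [0, 0, 43]) (.leaf 0 [13]))) (.s12 ⟨⟨.ofNat 7, .ofNat 0⟩, ⟨.ofNat 20, .ofNat 0⟩, ⟨.ofNat 27, .ofNat 0⟩, ⟨.ofNat 7, .ofNat 0⟩⟩ ⟨.ofNat 6, .ofNat 0⟩ ⟨.ofNat 7, .ofNat 0⟩ ⟨.ofNat 1, .ofNat 0⟩ 0 (.s02 ⟨⟨.ofNat 126, .ofNat 44⟩, ⟨.ofNat 0, .ofNat 280⟩, ⟨.ofNat 0, .ofNat 315⟩, ⟨.ofNat 0, .ofNat 98⟩⟩ ⟨.ofNat 3, .ofNat 0⟩ ⟨.ofNat 0, .ofNat 35⟩ ⟨.ofNat 1, .ofNat 0⟩ 0 (.s23 ⟨⟨.ofNat 0, .ofNat 7⟩, ⟨.ofNat 0, .ofNat 20⟩, ⟨.negSucc 2, .ofNat 24⟩, ⟨.ofNat 0, .ofNat 7⟩⟩ ⟨.negSucc 2, .ofNat 4⟩ ⟨.ofNat 3, .ofNat 3⟩ ⟨.ofNat 1, .ofNat 0⟩ 0 (.leaf 0 [20, 19, 0]) (.s02 ⟨⟨.ofNat 168, .ofNat 12⟩, ⟨.ofNat 252, .ofNat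 88⟩, ⟨.ofNat 378, .ofNat 97⟩, ⟨.ofNat 126, .ofNat 30⟩⟩ ⟨.ofNat 0, .ofNat 1⟩ ⟨.negSucc 7, .ofNat 370⟩ ⟨.ofNat 0, .ofNat 3⟩ 0 (.s23 ⟨⟨.ofNat 0, .ofNat 6⟩, ⟨.ofNat 0, .ofNat 14⟩, ⟨.negSucc 0, .ofNat 19⟩, ⟨.ofNat 0, .ofNat 6⟩⟩ ⟨.ofNat 0, .ofNat 11⟩ ⟨.ofNat 1, .ofNat 0⟩ ⟨.ofNat 3, .ofNat 0⟩ 0 (.leaf 0 [11, 46, 0, 0, 64]) (.s12 ⟨⟨.ofNat 3, .ofNat 0⟩, ⟨.ofNat 7, .ofNat 0⟩, ⟨.ofNat 10, .ofNat 0⟩, ⟨.ofNat 3, .ofNat 0⟩⟩ ⟨.ofNat 1, .ofNat 0⟩ ⟨.ofNat 11, .ofNat 0⟩ ⟨.ofNat 6, .ofNat 0⟩ 0 (.leaf 0 [19, 64]) (.leaf 0 [0, 59, 0, 0, 64]))) (.leaf 0 [64, 18, 36, 0, 0, 0]))) (.leaf 0 [0, 0, 27])) (.s12 ⟨⟨.ofNat 1,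 .ofNat 0⟩, ⟨.ofNat 0, .ofNat 2⟩, ⟨.ofNat 1, .ofNat 2⟩, ⟨.ofNat 1, .ofNat 0⟩⟩ ⟨.ofNat 14, .negSucc 5⟩ ⟨.ofNat 0, .ofNat 1⟩ ⟨.ofNat 0, .ofNat 7⟩ 0 (.leaf 0 [0, 0, 27]) (.leaf 0 [0, 0])))

/-- part of a tree -/
def t9_0 : Tree := .s01 ⟨⟨.ofNat 42, .ofNat 3⟩, ⟨.ofNat 0, .ofNat 70⟩, ⟨.ofNat 0, .ofNat 70⟩, ⟨.ofNat 0, .ofNat 21⟩⟩ ⟨.ofNat 3, .ofNat 0⟩ ⟨.ofNat 0, .ofNat 10⟩ ⟨.ofNat 1, .ofNat 0⟩ 0 t9_1 (.s12 ⟨⟨.ofNat 126, .ofNat 44⟩, ⟨.ofNat 0, .ofNat 280⟩, ⟨.ofNat 0, .ofNat 315⟩, ⟨.ofNat 0, .ofNat 98⟩⟩ ⟨.ofNat 3, .ofNat 0⟩ ⟨.ofNat 0, .ofNat 35⟩ ⟨.ofNat 1, .ofNat 0⟩ 0 (.s02 ⟨⟨.negSucc 5, .ofNat 50⟩, ⟨.ofNat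 6, .ofNat 90⟩, ⟨.negSucc 0, .ofNat 125⟩, ⟨.ofNat 0, .ofNat 42⟩⟩ ⟨.ofNat 0, .ofNat 1⟩ ⟨.negSucc 6, .ofNat 35⟩ ⟨.ofNat 1, .ofNat 0⟩ 0 (.s12 ⟨⟨.ofNat 168, .ofNat 12⟩, ⟨.ofNat 252, .ofNat 88⟩, ⟨.ofNat 378, .ofNat 97⟩, ⟨.ofNat 126, .ofNat 30⟩⟩ ⟨.ofNat 0, .ofNat 1⟩ ⟨.negSucc 7, .ofNat 370⟩ ⟨.ofNat 0, .ofNat 3⟩ 0 (.leaf 0 [0, 64, 64, 0, 24, 64]) (.leaf 0 [64, 0, 18, 36, 0, 0])) (.leaf 0 [17, 0, 0, 64, 0, 0])) (.s13 ⟨⟨.ofNat 320, .negSucc 78⟩, ⟨.negSucc 109, .ofNat 380⟩, ⟨.negSucc 109, .ofNat 380⟩, ⟨.negSucc 27, .ofNat 119⟩⟩ ⟨.ofNat 7, .negSucc 2⟩ ⟨.ofNat 5, .ofNat 5⟩ ⟨.ofNat 1, .ofNat 0⟩ 0 (.leaf 0 [0,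 0, 43]) (.leaf 0 [13])))

/-- part of a tree -/
def t9_3 : Tree := .s12 ⟨⟨.ofNat 7, .ofNat 0⟩, ⟨.ofNat 20, .ofNat 0⟩, ⟨.ofNat 27, .ofNat 0⟩, ⟨.ofNat 7, .ofNat 0⟩⟩ ⟨.ofNat 6, .ofNat 0⟩ ⟨.ofNat 7, .ofNat 0⟩ ⟨.ofNat 1, .ofNat 0⟩ 0 (.s23 ⟨⟨.ofNat 126, .ofNat 44⟩, ⟨.ofNat 0, .ofNat 280⟩, ⟨.ofNat 0, .ofNat 315⟩, ⟨.ofNat 0, .ofNat 98⟩⟩ ⟨.ofNat 0, .ofNat 35⟩ ⟨.ofNat 3, .ofNat 0⟩ ⟨.ofNat 1, .ofNat 0⟩ 0 (.s01 ⟨⟨.ofNat 14, .ofNat 1⟩, ⟨.ofNat 0, .ofNat 20⟩, ⟨.ofNat 0, .ofNat 27⟩, ⟨.ofNat 0, .ofNat 7⟩⟩ ⟨.ofNat 8, .ofNat 2⟩ ⟨.ofNat 1, .ofNat 2⟩ ⟨.ofNat 1, .ofNat 1⟩ 0 (.leaf 0 [0, 0, 27]) (.leaf 0 [18, 0])) (.s02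 ⟨⟨.negSucc 0, .ofNat 2⟩, ⟨.ofNat 2, .ofNat 0⟩, ⟨.ofNat 3, .ofNat 0⟩, ⟨.ofNat 1, .ofNat 0⟩⟩ ⟨.ofNat 2, .ofNat 0⟩ ⟨.ofNat 0, .ofNat 1⟩ ⟨.ofNat 0, .ofNat 1⟩ 0 (.s02 ⟨⟨.ofNat 4, .ofNat 0⟩, ⟨.ofNat 6, .ofNat 0⟩, ⟨.ofNat 9, .ofNat 0⟩, ⟨.ofNat 3, .ofNat 0⟩⟩ ⟨.ofNat 0, .ofNat 1⟩ ⟨.ofNat 6, .negSucc 0⟩ ⟨.ofNat 2, .ofNat 0⟩ 0 (.s23 ⟨⟨.ofNat 168, .ofNat 12⟩, ⟨.ofNat 252, .ofNat 88⟩, ⟨.ofNat 378, .ofNat 97⟩, ⟨.ofNat 126, .ofNat 30⟩⟩ ⟨.negSucc 7, .ofNat 370⟩ ⟨.ofNat 0, .ofNat 1⟩ ⟨.ofNat 0, .ofNat 3⟩ 0 (.leaf 0 [64, 18, 47, 0, 0, 0, 0]) (.s12 ⟨⟨.ofNat 3, .ofNat 0⟩, ⟨.ofNat 7, .ofNat 0⟩, ⟨.ofNat 10, .ofNat 0⟩,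 ⟨.ofNat 3, .ofNat 0⟩⟩ ⟨.ofNat 1, .ofNat 0⟩ ⟨.ofNat 11, .ofNat 0⟩ ⟨.ofNat 6, .ofNat 0⟩ 0 (.leaf 0 [30, 35]) (.leaf 0 [0, 64, 0, 0, 3, 0]))) (.leaf 0 [46, 16, 50, 0, 0, 0])) (.s01 ⟨⟨.ofNat 14, .ofNat 1⟩, ⟨.ofNat 0, .ofNat 20⟩, ⟨.ofNat 0, .ofNat 27⟩, ⟨.ofNat 0, .ofNat 7⟩⟩ ⟨.ofNat 8, .ofNat 2⟩ ⟨.ofNat 1, .ofNat 2⟩ ⟨.ofNat 1, .ofNat 1⟩ 0 (.leaf 0 [0, 0, 37, 0, 0]) (.leaf 0 [11, 22, 0, 0, 0])))) (.s02 ⟨⟨.ofNat 14, .ofNat 1⟩, ⟨.ofNat 0, .ofNat 20⟩, ⟨.ofNat 0, .ofNat 27⟩, ⟨.ofNat 0, .ofNat 7⟩⟩ ⟨.ofNat 8, .ofNat 2⟩ ⟨.ofNat 1, .ofNat 2⟩ ⟨.ofNat 1, .ofNat 1⟩ 0 (.s12 ⟨⟨.ofNat 1, .ofNat 0⟩, ⟨.ofNat 0, .ofNat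 2⟩, ⟨.ofNat 1, .ofNat 2⟩, ⟨.ofNat 1, .ofNat 0⟩⟩ ⟨.ofNat 14, .negSucc 5⟩ ⟨.ofNat 0, .ofNat 1⟩ ⟨.ofNat 0, .ofNat 7⟩ 0 (.leaf 0 [0, 27]) (.s01 ⟨⟨.ofNat 42, .ofNat 3⟩, ⟨.ofNat 0, .ofNat 70⟩, ⟨.ofNat 0, .ofNat 91⟩, ⟨.ofNat 0, .ofNat 21⟩⟩ ⟨.ofNat 3, .ofNat 0⟩ ⟨.ofNat 0, .ofNat 10⟩ ⟨.ofNat 1, .ofNat 0⟩ 0 (.leaf 0 [0]) (.leaf 0 []))) (.s12 ⟨⟨.ofNat 42, .ofNat 3⟩, ⟨.ofNat 0, .ofNat 70⟩, ⟨.ofNat 0, .ofNat 91⟩, ⟨.ofNat 0, .ofNat 21⟩⟩ ⟨.ofNat 0, .ofNat 10⟩ ⟨.ofNat 3, .ofNat 0⟩ ⟨.ofNat 1, .ofNat 0⟩ 0 (.leaf 0 []) (.leaf 0 [])))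

/-- part of a tree -/
def t9_2 : Tree := .s13 ⟨⟨.ofNat 42, .ofNat 3⟩, ⟨.ofNat 0, .ofNat 70⟩, ⟨.ofNat 0, .ofNat 70⟩, ⟨.ofNat 0, .ofNat 21⟩⟩ ⟨.ofNat 0, .ofNat 10⟩ ⟨.ofNat 3, .ofNat 0⟩ ⟨.ofNat 1, .ofNat 0⟩ 0 (.s12 ⟨⟨.ofNat 126, .ofNat 44⟩, ⟨.ofNat 0, .ofNat 280⟩, ⟨.ofNat 0, .ofNat 315⟩, ⟨.ofNat 0, .ofNat 98⟩⟩ ⟨.ofNat 3, .ofNat 0⟩ ⟨.ofNat 0, .ofNat 35⟩ ⟨.ofNat 1, .ofNat 0⟩ 0 (.s02 ⟨⟨.negSucc 0, .ofNat 2⟩, ⟨.ofNat 2, .ofNat 0⟩, ⟨.ofNat 3, .ofNat 0⟩, ⟨.ofNat 1, .ofNat 0⟩⟩ ⟨.ofNat 2, .ofNat 0⟩ ⟨.ofNat 0, .ofNat 1⟩ ⟨.ofNat 0, .ofNat 1⟩ 0 (.s23 ⟨⟨.negSucc 5, .ofNat 50⟩, ⟨.ofNat 6, .ofNat 90⟩, ⟨.negSucc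 0, .ofNat 125⟩, ⟨.ofNat 0, .ofNat 42⟩⟩ ⟨.negSucc 6, .ofNat 35⟩ ⟨.ofNat 0, .ofNat 1⟩ ⟨.ofNat 1, .ofNat 0⟩ 0 (.leaf 0 [20, 0, 0, 10, 0, 0]) (.s02 ⟨⟨.ofNat 4, .ofNat 0⟩, ⟨.ofNat 6, .ofNat 0⟩, ⟨.ofNat 9, .ofNat 0⟩, ⟨.ofNat 3, .ofNat 0⟩⟩ ⟨.ofNat 0, .ofNat 1⟩ ⟨.ofNat 6, .negSucc 0⟩ ⟨.ofNat 2, .ofNat 0⟩ 0 (.s12 ⟨⟨.ofNat 168, .ofNat 12⟩, ⟨.ofNat 252, .ofNat 88⟩, ⟨.ofNat 378, .ofNat 97⟩, ⟨.ofNat 126, .ofNat 30⟩⟩ ⟨.ofNat 0, .ofNat 1⟩ ⟨.negSucc 7, .ofNat 370⟩ ⟨.ofNat 0, .ofNat 3⟩ 0 (.leaf 0 [57, 64]) (.leaf 0 [64, 53, 0, 0, 0, 0])) (.leaf 0 [47, 55, 0, 0, 0, 0]))) (.leaf 0 [5, 0, 0, 0])) (.leaf 0 [0])) t9_3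

/-- part of a tree -/
def t9 : Tree := .s03 ⟨⟨.ofNat 14, .ofNat 1⟩, ⟨.ofNat 0, .ofNat 20⟩, ⟨.ofNat 0, .ofNat 20⟩, ⟨.ofNat 0, .ofNat 7⟩⟩ ⟨.ofNat 8, .ofNat 2⟩ ⟨.ofNat 1, .ofNat 2⟩ ⟨.ofNat 1, .ofNat 1⟩ 0 t9_0 t9_2

theorem g9 : Good (PD lin H) ⟨⟨.ofNat 1, .ofNat 0⟩, ⟨.ofNat 0, .ofNat 0⟩, ⟨.ofNat 0, .ofNat 0⟩, ⟨.ofNat 0, .ofNat 0⟩⟩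
    ⟨⟨.ofNat 0, .ofNat 0⟩, ⟨.ofNat 1, .ofNat 0⟩, ⟨.ofNat 1, .ofNat 0⟩, ⟨.ofNat 0, .ofNat 0⟩⟩
    ⟨⟨.ofNat 1, .ofNat 0⟩, ⟨.ofNat 2, .ofNat 0⟩, ⟨.ofNat 3, .ofNat 0⟩, ⟨.ofNat 1, .ofNat 0⟩⟩
    ⟨⟨.ofNat 7, .ofNat 0⟩, ⟨.ofNat 20, .ofNat 0⟩, ⟨.ofNat 20, .ofNat 0⟩, ⟨.ofNat 7, .ofNat 0⟩⟩ :=
  goodD lin H t9 (by decide +kernel)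

/-- part of a tree -/
def t13 : Tree := .s13 ⟨⟨.ofNat 1, .ofNat 0⟩, ⟨.ofNat 2, .ofNat 0⟩, ⟨.ofNat 3, .ofNat 0⟩, ⟨.ofNat 1, .ofNat 0⟩⟩ ⟨.ofNat 1, .ofNat 0⟩ ⟨.ofNat 1, .ofNat 0⟩ ⟨.ofNat 1, .ofNat 0⟩ 0 (.s03 ⟨⟨.ofNat 7, .ofNat 0⟩, ⟨.ofNat 3, .ofNat 0⟩, ⟨.ofNat 6, .ofNat 0⟩, ⟨.ofNat 3, .ofNat 0⟩⟩ ⟨.ofNat 4, .ofNat 0⟩ ⟨.ofNat 3, .ofNat 0⟩ ⟨.ofNat 1, .ofNat 0⟩ 0 (.s13 ⟨⟨.ofNat 13, .ofNat 0⟩, ⟨.ofNat 20, .ofNat 0⟩, ⟨.ofNat 33, .ofNat 0⟩, ⟨.ofNat 13, .ofNat 0⟩⟩ ⟨.ofNat 7, .ofNat 0⟩ ⟨.ofNat 6, .ofNat 0⟩ ⟨.ofNat 1, .ofNat 0⟩ 0 (.s23 ⟨⟨.ofNat 7, .ofNat 0⟩, ⟨.ofNat 7, .ofNat 0⟩, ⟨.ofNat 20, .ofNat 0⟩, ⟨.ofNat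 7, .ofNat 0⟩⟩ ⟨.ofNat 6, .ofNat 0⟩ ⟨.ofNat 7, .ofNat 0⟩ ⟨.ofNat 1, .ofNat 0⟩ 0 (.leaf 0 [64, 0, 64, 0, 64, 26, 64, 29, 0, 64, 64, 64, 64]) (.leaf 0 [64, 0, 0, 0, 0, 0, 0, 0, 0, 0, 0, 0, 0, 0])) (.leaf 0 [47, 0, 0, 0, 0, 0, 0, 0, 0, 0, 0, 0, 0])) (.s01 ⟨⟨.negSucc 0, .ofNat 2⟩, ⟨.ofNat 2, .ofNat 0⟩, ⟨.ofNat 3, .ofNat 0⟩, ⟨.ofNat 1, .ofNat 0⟩⟩ ⟨.ofNat 2, .ofNat 0⟩ ⟨.ofNat 0, .ofNat 1⟩ ⟨.ofNat 0, .ofNat 1⟩ 0 (.leaf 0 [64, 17, 0, 0, 0, 0, 2, 0, 0, 0, 0, 0, 64]) (.leaf 0 [0, 0, 0, 0, 0, 29, 0, 0, 0, 0, 0, 0]))) (.s13 ⟨⟨.ofNat 7, .ofNat 0⟩, ⟨.ofNat 20, .ofNat 0⟩, ⟨.ofNat 27, .ofNat 0⟩, ⟨.ofNat 7, .ofNat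 0⟩⟩ ⟨.ofNat 6, .ofNat 0⟩ ⟨.ofNat 7, .ofNat 0⟩ ⟨.ofNat 1, .ofNat 0⟩ 0 (.s03 ⟨⟨.negSucc 0, .ofNat 2⟩, ⟨.ofNat 2, .ofNat 0⟩, ⟨.ofNat 3, .ofNat 0⟩, ⟨.ofNat 1, .ofNat 0⟩⟩ ⟨.ofNat 2, .ofNat 0⟩ ⟨.ofNat 0, .ofNat 1⟩ ⟨.ofNat 0, .ofNat 1⟩ 0 (.s03 ⟨⟨.ofNat 4, .ofNat 0⟩, ⟨.ofNat 6, .ofNat 0⟩, ⟨.ofNat 9, .ofNat 0⟩, ⟨.ofNat 3, .ofNat 0⟩⟩ ⟨.ofNat 0, .ofNat 1⟩ ⟨.ofNat 6, .negSucc 0⟩ ⟨.ofNat 2, .ofNat 0⟩ 0 (.s13 ⟨⟨.ofNat 3, .ofNat 0⟩, ⟨.ofNat 7, .ofNat 0⟩, ⟨.ofNat 10, .ofNat 0⟩, ⟨.ofNat 3, .ofNat 0⟩⟩ ⟨.ofNat 1, .ofNat 0⟩ ⟨.ofNat 11, .ofNat 0⟩ ⟨.ofNat 6, .ofNat 0⟩ 0 (.leaf 0 [0, 55, 0]) (.leaf 0 [0, 64, 0, 3, 0]))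 (.leaf 0 [46, 0, 64, 0, 3, 0])) (.s01 ⟨⟨.ofNat 14, .ofNat 1⟩, ⟨.ofNat 0, .ofNat 20⟩, ⟨.ofNat 0, .ofNat 27⟩, ⟨.ofNat 0, .ofNat 7⟩⟩ ⟨.ofNat 8, .ofNat 2⟩ ⟨.ofNat 1, .ofNat 2⟩ ⟨.ofNat 1, .ofNat 1⟩ 0 (.leaf 0 [0, 0, 37, 0, 0]) (.leaf 0 [0, 37, 0, 0]))) (.s03 ⟨⟨.ofNat 14, .ofNat 1⟩, ⟨.ofNat 0, .ofNat 20⟩, ⟨.ofNat 0, .ofNat 27⟩, ⟨.ofNat 0, .ofNat 7⟩⟩ ⟨.ofNat 8, .ofNat 2⟩ ⟨.ofNat 1, .ofNat 2⟩ ⟨.ofNat 1, .ofNat 1⟩ 0 (.s13 ⟨⟨.ofNat 1, .ofNat 0⟩, ⟨.ofNat 0, .ofNat 2⟩, ⟨.ofNat 1, .ofNat 2⟩, ⟨.ofNat 1, .ofNat 0⟩⟩ ⟨.ofNat 14, .negSucc 5⟩ ⟨.ofNat 0, .ofNat 1⟩ ⟨.ofNat 0, .ofNat 7⟩ 0 (.leaf 0 [12]) (.s01 ⟨⟨.ofNat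 42, .ofNat 3⟩, ⟨.ofNat 0, .ofNat 70⟩, ⟨.ofNat 0, .ofNat 91⟩, ⟨.ofNat 0, .ofNat 21⟩⟩ ⟨.ofNat 3, .ofNat 0⟩ ⟨.ofNat 0, .ofNat 10⟩ ⟨.ofNat 1, .ofNat 0⟩ 0 (.leaf 0 [0]) (.leaf 0 []))) (.s13 ⟨⟨.ofNat 42, .ofNat 3⟩, ⟨.ofNat 0, .ofNat 70⟩, ⟨.ofNat 0, .ofNat 91⟩, ⟨.ofNat 0, .ofNat 21⟩⟩ ⟨.ofNat 0, .ofNat 10⟩ ⟨.ofNat 3, .ofNat 0⟩ ⟨.ofNat 1, .ofNat 0⟩ 0 (.leaf 0 []) (.leaf 0 []))))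

theorem g13 : Good (PD lin H) ⟨⟨.ofNat 1, .ofNat 0⟩, ⟨.ofNat 0, .ofNat 0⟩, ⟨.ofNat 0, .ofNat 0⟩, ⟨.ofNat 0, .ofNat 0⟩⟩
    ⟨⟨.ofNat 0, .ofNat 0⟩, ⟨.ofNat 1, .ofNat 0⟩, ⟨.ofNat 1, .ofNat 0⟩, ⟨.ofNat 0, .ofNat 0⟩⟩
    ⟨⟨.ofNat 0, .ofNat 0⟩, ⟨.ofNat 0, .ofNat 0⟩, ⟨.ofNat 1, .ofNat 0⟩, ⟨.ofNat 0, .ofNat 0⟩⟩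
    ⟨⟨.ofNat 1, .ofNat 0⟩, ⟨.ofNat 1, .ofNat 0⟩, ⟨.ofNat 2, .ofNat 0⟩, ⟨.ofNat 1, .ofNat 0⟩⟩ :=
  goodD lin H t13 (by decide +kernel)

end

end Pool.Agent.PHCert.D2
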