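import Pool.Agent.PHCert.D2a
import Pool.Agent.PHCert.D2b
import Pool.Agent.PHCert.D2c

/-!
# PHCert: inequality D2
-/

set_option autoImplicit false

namespace Pool.Agent.PHCert.D2

open Zp Pool.Agent.PHCert

noncomputable section

theorem g5 : Good (PD lin H) ⟨⟨.ofNat 1, .ofNat 0⟩, ⟨.ofNat 0, .ofNat 0⟩, ⟨.ofNat 0, .ofNat 0⟩, ⟨.ofNat 0, .ofNat 0⟩⟩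
    ⟨⟨.ofNat 7, .ofNat 0⟩, ⟨.ofNat 20, .ofNat 0⟩, ⟨.ofNat 20, .ofNat 0⟩, ⟨.ofNat 7, .ofNat 0⟩⟩
    ⟨⟨.ofNat 13, .ofNat 0⟩, ⟨.ofNat 26, .ofNat 0⟩, ⟨.ofNat 32, .ofNat 0⟩, ⟨.ofNat 13, .ofNat 0⟩⟩
    ⟨⟨.negSucc 0, .ofNat 2⟩, ⟨.ofNat 2, .ofNat 0⟩, ⟨.ofNat 2, .ofNat 0⟩, ⟨.ofNat 1, .ofNat 0⟩⟩ :=
  good02 ⟨.ofNat 26, .ofNat 0⟩ ⟨.ofNat 0, .ofNat 1⟩ ⟨.ofNat 0, .ofNat 1⟩ (by decide +kernel) g3 g4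

theorem g6 : Good (PD lin H) ⟨⟨.ofNat 1, .ofNat 0⟩, ⟨.ofNat 0, .ofNat 0⟩, ⟨.ofNat 0, .ofNat 0⟩, ⟨.ofNat 0, .ofNat 0⟩⟩
    ⟨⟨.ofNat 7, .ofNat 0⟩, ⟨.ofNat 20, .ofNat 0⟩, ⟨.ofNat 20, .ofNat 0⟩, ⟨.ofNat 7, .ofNat 0⟩⟩
    ⟨⟨.ofNat 1, .ofNat 0⟩, ⟨.ofNat 1, .ofNat 0⟩, ⟨.ofNat 2, .ofNat 0⟩, ⟨.ofNat 1, .ofNat 0⟩⟩
    ⟨⟨.negSucc 0, .ofNat 2⟩, ⟨.ofNat 2, .ofNat 0⟩, ⟨.ofNat 2, .ofNat 0⟩, ⟨.ofNat 1, .ofNat 0⟩⟩ :=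
  good12 ⟨.ofNat 1, .ofNat 0⟩ ⟨.ofNat 6, .ofNat 0⟩ ⟨.ofNat 1, .ofNat 0⟩ (by decide +kernel) g2 g5

theorem g7 : Good (PD lin H) ⟨⟨.ofNat 1, .ofNat 0⟩, ⟨.ofNat 0, .ofNat 0⟩, ⟨.ofNat 0, .ofNat 0⟩, ⟨.ofNat 0, .ofNat 0⟩⟩
    ⟨⟨.ofNat 7, .ofNat 0⟩, ⟨.ofNat 20, .ofNat 0⟩, ⟨.ofNat 20, .ofNat 0⟩, ⟨.ofNat 7, .ofNat 0⟩⟩
    ⟨⟨.ofNat 1, .ofNat 0⟩, ⟨.ofNat 1, .ofNat 0⟩, ⟨.ofNat 2, .ofNat 0⟩, ⟨.ofNat 1, .ofNat 0⟩⟩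
    ⟨⟨.ofNat 1, .ofNat 0⟩, ⟨.ofNat 2, .ofNat 0⟩, ⟨.ofNat 2, .ofNat 0⟩, ⟨.ofNat 1, .ofNat 0⟩⟩ :=
  good03 ⟨.ofNat 2, .ofNat 0⟩ ⟨.ofNat 0, .ofNat 1⟩ ⟨.ofNat 0, .ofNat 1⟩ (by decide +kernel) g1 g6

theorem g10 : Good (PD lin H) ⟨⟨.ofNat 1, .ofNat 0⟩, ⟨.ofNat 0, .ofNat 0⟩, ⟨.ofNat 0, .ofNat 0⟩, ⟨.ofNat 0, .ofNat 0⟩⟩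
    ⟨⟨.ofNat 0, .ofNat 0⟩, ⟨.ofNat 1, .ofNat 0⟩, ⟨.ofNat 1, .ofNat 0⟩, ⟨.ofNat 0, .ofNat 0⟩⟩
    ⟨⟨.ofNat 1, .ofNat 0⟩, ⟨.ofNat 1, .ofNat 0⟩, ⟨.ofNat 2, .ofNat 0⟩, ⟨.ofNat 1, .ofNat 0⟩⟩
    ⟨⟨.ofNat 7, .ofNat 0⟩, ⟨.ofNat 20, .ofNat 0⟩, ⟨.ofNat 20, .ofNat 0⟩, ⟨.ofNat 7, .ofNat 0⟩⟩ :=
  good12 ⟨.ofNat 1, .ofNat 0⟩ ⟨.ofNat 1, .ofNat 0⟩ ⟨.ofNat 1, .ofNat 0⟩ (by decide +kernel) g8 g9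

theorem g11 : Good (PD lin H) ⟨⟨.ofNat 1, .ofNat 0⟩, ⟨.ofNat 0, .ofNat 0⟩, ⟨.ofNat 0, .ofNat 0⟩, ⟨.ofNat 0, .ofNat 0⟩⟩
    ⟨⟨.ofNat 0, .ofNat 0⟩, ⟨.ofNat 1, .ofNat 0⟩, ⟨.ofNat 1, .ofNat 0⟩, ⟨.ofNat 0, .ofNat 0⟩⟩
    ⟨⟨.ofNat 1, .ofNat 0⟩, ⟨.ofNat 1, .ofNat 0⟩, ⟨.ofNat 2, .ofNat 0⟩, ⟨.ofNat 1, .ofNat 0⟩⟩
    ⟨⟨.ofNat 1, .ofNat 0⟩, ⟨.ofNat 2, .ofNat 0⟩, ⟨.ofNat 2, .ofNat 0⟩, ⟨.ofNat 1, .ofNat 0⟩⟩ :=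
  good13 ⟨.ofNat 6, .ofNat 0⟩ ⟨.ofNat 7, .ofNat 0⟩ ⟨.ofNat 1, .ofNat 0⟩ (by decide +kernel) g7 g10

theorem g12 : Good (PD lin H) ⟨⟨.ofNat 1, .ofNat 0⟩, ⟨.ofNat 0, .ofNat 0⟩, ⟨.ofNat 0, .ofNat 0⟩, ⟨.ofNat 0, .ofNat 0⟩⟩
    ⟨⟨.ofNat 0, .ofNat 0⟩, ⟨.ofNat 1, .ofNat 0⟩, ⟨.ofNat 1, .ofNat 0⟩, ⟨.ofNat 0, .ofNat 0⟩⟩
    ⟨⟨.ofNat 1, .ofNat 0⟩, ⟨.ofNat 1, .ofNat 0⟩, ⟨.ofNat 2, .ofNat 0⟩, ⟨.ofNat 1, .ofNat 0⟩⟩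
    ⟨⟨.ofNat 1, .ofNat 0⟩, ⟨.ofNat 1, .ofNat 0⟩, ⟨.ofNat 1, .ofNat 0⟩, ⟨.ofNat 1, .ofNat 0⟩⟩ :=
  good13 ⟨.ofNat 1, .ofNat 0⟩ ⟨.ofNat 1, .ofNat 0⟩ ⟨.ofNat 1, .ofNat 0⟩ (by decide +kernel) g0 g11

theorem g14 : Good (PD lin H) ⟨⟨.ofNat 1, .ofNat 0⟩, ⟨.ofNat 0, .ofNat 0⟩, ⟨.ofNat 0, .ofNat 0⟩, ⟨.ofNat 0, .ofNat 0⟩⟩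
    ⟨⟨.ofNat 0, .ofNat 0⟩, ⟨.ofNat 1, .ofNat 0⟩, ⟨.ofNat 1, .ofNat 0⟩, ⟨.ofNat 0, .ofNat 0⟩⟩
    ⟨⟨.ofNat 0, .ofNat 0⟩, ⟨.ofNat 0, .ofNat 0⟩, ⟨.ofNat 1, .ofNat 0⟩, ⟨.ofNat 0, .ofNat 0⟩⟩
    ⟨⟨.ofNat 1, .ofNat 0⟩, ⟨.ofNat 1, .ofNat 0⟩, ⟨.ofNat 1, .ofNat 0⟩, ⟨.ofNat 1, .ofNat 0⟩⟩ :=
  good23 ⟨.ofNat 1, .ofNat 0⟩ ⟨.ofNat 1, .ofNat 0⟩ ⟨.ofNat 1, .ofNat 0⟩ (by decide +kernel) g12 g13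

theorem root : Good (PD lin H) v0 ⟨z0, z1, z1, z0⟩ v2 ⟨z1, z1, z1, z1⟩ := g14

theorem ineq {n r s l : ℝ} (h0 : 0 ≤ l) (hn : l ≤ n) (hr : l ≤ r) (hs : r ≤ s) :
    0 ≤ tev ts ![n, r, s, l] := gen_DS data root h0 hn hr hs

end

end Pool.Agent.PHCert.D2
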