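import Pool.Agent.PHCert.Cone

/-!
# PHCert: inequality D2, the data
-/

set_option autoImplicit false

namespace Pool.Agent.PHCert.D2

open Zp Pool.Agent.PHCert

noncomputable section

/-- linear part -/
def lin : V4 := ⟨⟨.ofNat 0, .ofNat 0⟩, ⟨.ofNat 0, .ofNat 0⟩, ⟨.ofNat 0, .ofNat 0⟩, ⟨.ofNat 17452, .negSucc 7299⟩⟩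

/-- hinges -/
def H : List Hinge := [
  ⟨⟨.negSucc 22, .ofNat 0⟩, ⟨⟨.negSucc 0, .ofNat 0⟩, ⟨.negSucc 0, .ofNat 0⟩, ⟨.ofNat 0, .ofNat 0⟩, ⟨.ofNat 5, .ofNat 0⟩⟩⟩,
  ⟨⟨.ofNat 3055, .ofNat 0⟩, ⟨⟨.negSucc 0, .ofNat 0⟩, ⟨.negSucc 0, .ofNat 0⟩, ⟨.ofNat 0, .ofNat 0⟩, ⟨.ofNat 4, .ofNat 0⟩⟩⟩,
  ⟨⟨.ofNat 14039, .ofNat 0⟩, ⟨⟨.negSucc 2, .ofNat 0⟩, ⟨.negSucc 2, .ofNat 0⟩, ⟨.ofNat 0, .ofNat 0⟩, ⟨.ofNat 10, .ofNat 0⟩⟩⟩,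
  ⟨⟨.ofNat 146875, .ofNat 0⟩, ⟨⟨.negSucc 1, .ofNat 1⟩, ⟨.negSucc 1, .ofNat 1⟩, ⟨.ofNat 0, .ofNat 0⟩, ⟨.ofNat 1, .ofNat 0⟩⟩⟩,
  ⟨⟨.ofNat 4933, .ofNat 0⟩, ⟨⟨.negSucc 8, .ofNat 0⟩, ⟨.negSucc 8, .ofNat 0⟩, ⟨.ofNat 0, .ofNat 0⟩, ⟨.ofNat 20, .ofNat 0⟩⟩⟩,
  ⟨⟨.ofNat 2670, .ofNat 0⟩, ⟨⟨.ofNat 0, .ofNat 0⟩, ⟨.ofNat 0, .ofNat 0⟩, ⟨.negSucc 2, .ofNat 0⟩, ⟨.ofNat 10, .ofNat 0⟩⟩⟩,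
  ⟨⟨.negSucc 38878, .ofNat 0⟩, ⟨⟨.ofNat 0, .ofNat 0⟩, ⟨.ofNat 0, .ofNat 0⟩, ⟨.negSucc 0, .ofNat 0⟩, ⟨.ofNat 3, .ofNat 0⟩⟩⟩,
  ⟨⟨.ofNat 4128, .ofNat 0⟩, ⟨⟨.ofNat 0, .ofNat 0⟩, ⟨.ofNat 0, .ofNat 0⟩, ⟨.negSucc 6, .ofNat 0⟩, ⟨.ofNat 20, .ofNat 0⟩⟩⟩,
  ⟨⟨.ofNat 30664, .ofNat 0⟩, ⟨⟨.ofNat 0, .ofNat 0⟩, ⟨.ofNat 0, .ofNat 0⟩, ⟨.negSucc 1, .ofNat 1⟩, ⟨.ofNat 1, .ofNat 0⟩⟩⟩,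
  ⟨⟨.ofNat 3797, .ofNat 0⟩, ⟨⟨.ofNat 0, .ofNat 0⟩, ⟨.ofNat 0, .ofNat 0⟩, ⟨.negSucc 8, .ofNat 0⟩, ⟨.ofNat 20, .ofNat 0⟩⟩⟩,
  ⟨⟨.ofNat 125306, .ofNat 0⟩, ⟨⟨.ofNat 0, .ofNat 0⟩, ⟨.ofNat 0, .ofNat 0⟩, ⟨.negSucc 0, .ofNat 0⟩, ⟨.ofNat 2, .ofNat 0⟩⟩⟩,
  ⟨⟨.negSucc 45595, .ofNat 0⟩, ⟨⟨.ofNat 0, .ofNat 0⟩, ⟨.ofNat 0, .ofNat 0⟩, ⟨.ofNat 1, .negSucc 0⟩, ⟨.ofNat 1, .ofNat 0⟩⟩⟩,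
  ⟨⟨.ofNat 4389, .ofNat 0⟩, ⟨⟨.ofNat 0, .ofNat 0⟩, ⟨.ofNat 0, .ofNat 0⟩, ⟨.negSucc 12, .ofNat 0⟩, ⟨.ofNat 20, .ofNat 0⟩⟩⟩,
  ⟨⟨.ofNat 10039, .ofNat 0⟩, ⟨⟨.ofNat 0, .ofNat 0⟩, ⟨.ofNat 0, .ofNat 0⟩, ⟨.negSucc 6, .ofNat 0⟩, ⟨.ofNat 10, .ofNat 0⟩⟩⟩,
  ⟨⟨.ofNat 12417, .ofNat 0⟩, ⟨⟨.ofNat 0, .ofNat 0⟩, ⟨.ofNat 0, .ofNat 0⟩, ⟨.negSucc 2, .ofNat 0⟩, ⟨.ofNat 4, .ofNat 0⟩⟩⟩,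
  ⟨⟨.ofNat 12152, .ofNat 0⟩, ⟨⟨.ofNat 0, .ofNat 0⟩, ⟨.ofNat 0, .ofNat 0⟩, ⟨.negSucc 3, .ofNat 0⟩, ⟨.ofNat 5, .ofNat 0⟩⟩⟩,
  ⟨⟨.negSucc 29, .ofNat 0⟩, ⟨⟨.negSucc 2, .ofNat 0⟩, ⟨.negSucc 2, .ofNat 0⟩, ⟨.negSucc 2, .ofNat 0⟩, ⟨.ofNat 40, .ofNat 0⟩⟩⟩,
  ⟨⟨.negSucc 163449, .ofNat 10672⟩, ⟨⟨.negSucc 4, .ofNat 3⟩, ⟨.negSucc 4, .ofNat 3⟩, ⟨.negSucc 4, .ofNat 3⟩, ⟨.ofNat 1, .ofNat 0⟩⟩⟩,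
  ⟨⟨.negSucc 1363, .ofNat 0⟩, ⟨⟨.negSucc 2, .ofNat 0⟩, ⟨.negSucc 2, .ofNat 0⟩, ⟨.negSucc 2, .ofNat 0⟩, ⟨.ofNat 20, .ofNat 0⟩⟩⟩,
  ⟨⟨.negSucc 8397, .ofNat 0⟩, ⟨⟨.negSucc 6, .ofNat 0⟩, ⟨.negSucc 6, .ofNat 0⟩, ⟨.negSucc 6, .ofNat 0⟩, ⟨.ofNat 40, .ofNat 0⟩⟩⟩,
  ⟨⟨.negSucc 56743, .ofNat 0⟩, ⟨⟨.negSucc 0, .ofNat 0⟩, ⟨.negSucc 0, .ofNat 0⟩, ⟨.negSucc 0, .ofNat 0⟩, ⟨.ofNat 5, .ofNat 0⟩⟩⟩,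
  ⟨⟨.negSucc 113287, .ofNat 0⟩, ⟨⟨.ofNat 3, .negSucc 1⟩, ⟨.ofNat 3, .negSucc 1⟩, ⟨.ofNat 3, .negSucc 1⟩, ⟨.ofNat 1, .ofNat 0⟩⟩⟩,
  ⟨⟨.negSucc 100863, .ofNat 0⟩, ⟨⟨.negSucc 0, .ofNat 0⟩, ⟨.negSucc 0, .ofNat 0⟩, ⟨.negSucc 0, .ofNat 0⟩, ⟨.ofNat 4, .ofNat 0⟩⟩⟩,
  ⟨⟨.negSucc 11869, .ofNat 0⟩, ⟨⟨.negSucc 10, .ofNat 0⟩, ⟨.negSucc 10, .ofNat 0⟩, ⟨.negSucc 10, .ofNat 0⟩, ⟨.ofNat 40, .ofNat 0⟩⟩⟩,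
  ⟨⟨.negSucc 22, .ofNat 0⟩, ⟨⟨.negSucc 0, .ofNat 0⟩, ⟨.ofNat 0, .ofNat 0⟩, ⟨.negSucc 0, .ofNat 0⟩, ⟨.ofNat 5, .ofNat 0⟩⟩⟩,
  ⟨⟨.ofNat 3055, .ofNat 0⟩, ⟨⟨.negSucc 0, .ofNat 0⟩, ⟨.ofNat 0, .ofNat 0⟩, ⟨.negSucc 0, .ofNat 0⟩, ⟨.ofNat 4, .ofNat 0⟩⟩⟩,
  ⟨⟨.ofNat 14039, .ofNat 0⟩, ⟨⟨.negSucc 2, .ofNat 0⟩, ⟨.ofNat 0, .ofNat 0⟩, ⟨.negSucc 2, .ofNat 0⟩, ⟨.ofNat 10, .ofNat 0⟩⟩⟩,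
  ⟨⟨.ofNat 146875, .ofNat 0⟩, ⟨⟨.negSucc 1, .ofNat 1⟩, ⟨.ofNat 0, .ofNat 0⟩, ⟨.negSucc 1, .ofNat 1⟩, ⟨.ofNat 1, .ofNat 0⟩⟩⟩,
  ⟨⟨.ofNat 4933, .ofNat 0⟩, ⟨⟨.negSucc 8, .ofNat 0⟩, ⟨.ofNat 0, .ofNat 0⟩, ⟨.negSucc 8, .ofNat 0⟩, ⟨.ofNat 20, .ofNat 0⟩⟩⟩,
  ⟨⟨.ofNat 2670, .ofNat 0⟩, ⟨⟨.ofNat 0, .ofNat 0⟩, ⟨.negSucc 2, .ofNat 0⟩, ⟨.ofNat 0, .ofNat 0⟩, ⟨.ofNat 10, .ofNat 0⟩⟩⟩,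
  ⟨⟨.negSucc 38878, .ofNat 0⟩, ⟨⟨.ofNat 0, .ofNat 0⟩, ⟨.negSucc 0, .ofNat 0⟩, ⟨.ofNat 0, .ofNat 0⟩, ⟨.ofNat 3, .ofNat 0⟩⟩⟩,
  ⟨⟨.ofNat 4128, .ofNat 0⟩, ⟨⟨.ofNat 0, .ofNat 0⟩, ⟨.negSucc 6, .ofNat 0⟩, ⟨.ofNat 0, .ofNat 0⟩, ⟨.ofNat 20, .ofNat 0⟩⟩⟩,
  ⟨⟨.ofNat 30664, .ofNat 0⟩, ⟨⟨.ofNat 0, .ofNat 0⟩, ⟨.negSucc 1, .ofNat 1⟩, ⟨.ofNat 0, .ofNat 0⟩, ⟨.ofNat 1, .ofNat 0⟩⟩⟩,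
  ⟨⟨.ofNat 3797, .ofNat 0⟩, ⟨⟨.ofNat 0, .ofNat 0⟩, ⟨.negSucc 8, .ofNat 0⟩, ⟨.ofNat 0, .ofNat 0⟩, ⟨.ofNat 20, .ofNat 0⟩⟩⟩,
  ⟨⟨.ofNat 125306, .ofNat 0⟩, ⟨⟨.ofNat 0, .ofNat 0⟩, ⟨.negSucc 0, .ofNat 0⟩, ⟨.ofNat 0, .ofNat 0⟩, ⟨.ofNat 2, .ofNat 0⟩⟩⟩,
  ⟨⟨.negSucc 45595, .ofNat 0⟩, ⟨⟨.ofNat 0, .ofNat 0⟩, ⟨.ofNat 1, .negSucc 0⟩, ⟨.ofNat 0, .ofNat 0⟩, ⟨.ofNat 1, .ofNat 0⟩⟩⟩,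
  ⟨⟨.ofNat 4389, .ofNat 0⟩, ⟨⟨.ofNat 0, .ofNat 0⟩, ⟨.negSucc 12, .ofNat 0⟩, ⟨.ofNat 0, .ofNat 0⟩, ⟨.ofNat 20, .ofNat 0⟩⟩⟩,
  ⟨⟨.ofNat 10039, .ofNat 0⟩, ⟨⟨.ofNat 0, .ofNat 0⟩, ⟨.negSucc 6, .ofNat 0⟩, ⟨.ofNat 0, .ofNat 0⟩, ⟨.ofNat 10, .ofNat 0⟩⟩⟩,
  ⟨⟨.ofNat 12417, .ofNat 0⟩, ⟨⟨.ofNat 0, .ofNat 0⟩, ⟨.negSucc 2, .ofNat 0⟩, ⟨.ofNat 0, .ofNat 0⟩, ⟨.ofNat 4, .ofNat 0⟩⟩⟩,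
  ⟨⟨.ofNat 12152, .ofNat 0⟩, ⟨⟨.ofNat 0, .ofNat 0⟩, ⟨.negSucc 3, .ofNat 0⟩, ⟨.ofNat 0, .ofNat 0⟩, ⟨.ofNat 5, .ofNat 0⟩⟩⟩,
  ⟨⟨.ofNat 6139, .ofNat 0⟩, ⟨⟨.ofNat 0, .ofNat 0⟩, ⟨.ofNat 0, .ofNat 0⟩, ⟨.negSucc 1, .ofNat 0⟩, ⟨.ofNat 5, .ofNat 0⟩⟩⟩,
  ⟨⟨.negSucc 271, .ofNat 0⟩, ⟨⟨.negSucc 10, .ofNat 0⟩, ⟨.ofNat 0, .ofNat 0⟩, ⟨.ofNat 0, .ofNat 0⟩, ⟨.ofNat 20, .ofNat 0⟩⟩⟩,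
  ⟨⟨.negSucc 1775, .ofNat 0⟩, ⟨⟨.negSucc 8, .ofNat 0⟩, ⟨.ofNat 0, .ofNat 0⟩, ⟨.ofNat 0, .ofNat 0⟩, ⟨.ofNat 10, .ofNat 0⟩⟩⟩,
  ⟨⟨.ofNat 57226, .ofNat 0⟩, ⟨⟨.ofNat 3, .negSucc 1⟩, ⟨.ofNat 0, .ofNat 0⟩, ⟨.ofNat 3, .negSucc 1⟩, ⟨.ofNat 1, .ofNat 0⟩⟩⟩,
  ⟨⟨.ofNat 73, .ofNat 0⟩, ⟨⟨.negSucc 10, .ofNat 0⟩, ⟨.ofNat 0, .ofNat 0⟩, ⟨.negSucc 10, .ofNat 0⟩, ⟨.ofNat 40, .ofNat 0⟩⟩⟩,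
  ⟨⟨.negSucc 7730, .ofNat 0⟩, ⟨⟨.negSucc 12, .ofNat 0⟩, ⟨.ofNat 0, .ofNat 0⟩, ⟨.negSucc 12, .ofNat 0⟩, ⟨.ofNat 40, .ofNat 0⟩⟩⟩,
  ⟨⟨.ofNat 6139, .ofNat 0⟩, ⟨⟨.negSucc 1, .ofNat 0⟩, ⟨.ofNat 0, .ofNat 0⟩, ⟨.negSucc 1, .ofNat 0⟩, ⟨.ofNat 5, .ofNat 0⟩⟩⟩,
  ⟨⟨.ofNat 6139, .ofNat 0⟩, ⟨⟨.ofNat 0, .ofNat 0⟩, ⟨.negSucc 1, .ofNat 0⟩, ⟨.ofNat 0, .ofNat 0⟩, ⟨.ofNat 5, .ofNat 0⟩⟩⟩,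
  ⟨⟨.ofNat 57226, .ofNat 0⟩, ⟨⟨.ofNat 3, .negSucc 1⟩, ⟨.ofNat 3, .negSucc 1⟩, ⟨.ofNat 0, .ofNat 0⟩, ⟨.ofNat 1, .ofNat 0⟩⟩⟩,
  ⟨⟨.ofNat 73, .ofNat 0⟩, ⟨⟨.negSucc 10, .ofNat 0⟩, ⟨.negSucc 10, .ofNat 0⟩, ⟨.ofNat 0, .ofNat 0⟩, ⟨.ofNat 40, .ofNat 0⟩⟩⟩,
  ⟨⟨.negSucc 7730, .ofNat 0⟩, ⟨⟨.negSucc 12, .ofNat 0⟩, ⟨.negSucc 12, .ofNat 0⟩, ⟨.ofNat 0, .ofNat 0⟩, ⟨.ofNat 40, .ofNat 0⟩⟩⟩,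
  ⟨⟨.ofNat 6139, .ofNat 0⟩, ⟨⟨.negSucc 1, .ofNat 0⟩, ⟨.negSucc 1, .ofNat 0⟩, ⟨.ofNat 0, .ofNat 0⟩, ⟨.ofNat 5, .ofNat 0⟩⟩⟩]

/-- the terms -/
def ts : List Term := [⟨1, fac, (v0.add v1), v2, v3⟩, ⟨1, fac, (v0.add v2), v1, v3⟩, ⟨-1, fbc, v2, v0, v3⟩, ⟨-1, fbc, v1, v0, v3⟩]

theorem data : (PD lin H).okData ts v0 ⟨z0, z1, z1, z0⟩ v2 ⟨z1, z1, z1, z1⟩ = true := by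
  decide +kernel

end

end Pool.Agent.PHCert.D2
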