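import Pool.Agent.PHCert.D2H

/-!
# PHCert: inequality D2, part 1 (90 leaves, checked by the kernel)
-/

set_option autoImplicit false

namespace Pool.Agent.PHCert.D2

open Zp Pool.Agent.PHCert

noncomputable section

/-- part of a tree -/
def t0_3 : Tree := .s13 ⟨⟨.ofNat 13, .ofNat 0⟩, ⟨.ofNat 20, .ofNat 0⟩, ⟨.ofNat 20, .ofNat 0⟩, ⟨.ofNat 13, .ofNat 0⟩⟩ ⟨.ofNat 0, .ofNat 7⟩ ⟨.ofNat 13, .negSucc 6⟩ ⟨.ofNat 1, .ofNat 0⟩ 0 (.s13 ⟨⟨.ofNat 7, .ofNat 0⟩, ⟨.ofNat 10, .ofNat 0⟩, ⟨.ofNat 10, .ofNat 0⟩, ⟨.ofNat 7, .ofNat 0⟩⟩ ⟨.ofNat 3, .ofNat 0⟩ ⟨.ofNat 10, .ofNat 0⟩ ⟨.ofNat 7, .ofNat 0⟩ 0 (.s23 ⟨⟨.ofNat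 3, .ofNat 0⟩, ⟨.ofNat 3, .ofNat 0⟩, ⟨.ofNat 4, .ofNat 0⟩, ⟨.ofNat 3, .ofNat 0⟩⟩ ⟨.ofNat 1, .ofNat 0⟩ ⟨.ofNat 8, .ofNat 0⟩ ⟨.ofNat 7, .ofNat 0⟩ 0 (.s13 ⟨⟨.ofNat 3, .ofNat 0⟩, ⟨.ofNat 4, .ofNat 0⟩, ⟨.ofNat 4, .ofNat 0⟩, ⟨.ofNat 3, .ofNat 0⟩⟩ ⟨.ofNat 1, .ofNat 0⟩ ⟨.ofNat 2, .ofNat 0⟩ ⟨.ofNat 3, .ofNat 0⟩ 0 (.s23 ⟨⟨.ofNat 4, .ofNat 0⟩, ⟨.ofNat 4, .ofNat 0⟩, ⟨.ofNat 5, .ofNat 0⟩, ⟨.ofNat 4, .ofNat 0⟩⟩ ⟨.ofNat 1, .ofNat 0⟩ ⟨.ofNat 1, .ofNat 0⟩ ⟨.ofNat 1, .ofNat 0⟩ 0 (.s13 ⟨⟨.ofNat 4, .ofNat 0⟩, ⟨.ofNat 5, .ofNat 0⟩, ⟨.ofNat 5, .ofNat 0⟩, ⟨.ofNat 4, .ofNat 0⟩⟩ ⟨.ofNat 1, .ofNat 0⟩ ⟨.ofNat 1, .ofNat 0⟩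 ⟨.ofNat 1, .ofNat 0⟩ 0 (.leaf 0 [33, 33, 64, 64]) (.leaf 0 [15, 0, 64, 64, 64])) (.leaf 0 [15, 0, 64, 64, 64])) (.s12 ⟨⟨.ofNat 27, .ofNat 0⟩, ⟨.ofNat 36, .ofNat 0⟩, ⟨.ofNat 38, .ofNat 0⟩, ⟨.ofNat 27, .ofNat 0⟩⟩ ⟨.ofNat 3, .ofNat 0⟩ ⟨.ofNat 2, .ofNat 0⟩ ⟨.ofNat 1, .ofNat 0⟩ 0 (.leaf 0 [0, 0, 0, 55, 64, 64]) (.leaf 0 [0, 0, 0, 0, 64, 64]))) (.s13 ⟨⟨.ofNat 27, .ofNat 0⟩, ⟨.ofNat 36, .ofNat 0⟩, ⟨.ofNat 38, .ofNat 0⟩, ⟨.ofNat 27, .ofNat 0⟩⟩ ⟨.ofNat 3, .ofNat 0⟩ ⟨.ofNat 2, .ofNat 0⟩ ⟨.ofNat 1, .ofNat 0⟩ 0 (.leaf 0 [0, 64, 0, 0, 55, 64, 64]) (.s12 ⟨⟨.ofNat 117, .ofNat 0⟩, ⟨.ofNat 156, .ofNat 0⟩, ⟨.ofNat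 170, .ofNat 0⟩, ⟨.ofNat 117, .ofNat 0⟩⟩ ⟨.ofNat 13, .ofNat 0⟩ ⟨.ofNat 2, .ofNat 0⟩ ⟨.ofNat 1, .ofNat 0⟩ 0 (.leaf 0 [0, 0, 0, 0, 12, 64, 64]) (.leaf 0 [47, 0, 0, 1, 0, 64, 64])))) (.s13 ⟨⟨.ofNat 2, .ofNat 0⟩, ⟨.ofNat 3, .ofNat 0⟩, ⟨.ofNat 3, .ofNat 0⟩, ⟨.ofNat 2, .ofNat 0⟩⟩ ⟨.ofNat 1, .ofNat 0⟩ ⟨.ofNat 1, .ofNat 0⟩ ⟨.ofNat 10, .ofNat 0⟩ 0 (.leaf 0 [0, 0, 0, 0, 54, 0, 0, 57, 64]) (.s12 ⟨⟨.ofNat 91, .ofNat 0⟩, ⟨.ofNat 130, .ofNat 0⟩, ⟨.ofNat 140, .ofNat 0⟩, ⟨.ofNat 91, .ofNat 0⟩⟩ ⟨.ofNat 39, .ofNat 0⟩ ⟨.ofNat 10, .ofNat 0⟩ ⟨.ofNat 7, .ofNat 0⟩ 0 (.leaf 0 [0, 0, 0, 0, 54, 0, 0, 64]) (.leaf 0 [0, 0,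 0, 0, 0, 0, 0])))) (.s12 ⟨⟨.ofNat 0, .ofNat 169⟩, ⟨.ofNat 0, .ofNat 260⟩, ⟨.negSucc 48, .ofNat 302⟩, ⟨.ofNat 0, .ofNat 169⟩⟩ ⟨.ofNat 0, .ofNat 91⟩ ⟨.ofNat 13, .negSucc 6⟩ ⟨.negSucc 0, .ofNat 1⟩ 0 (.s12 ⟨⟨.ofNat 0, .ofNat 91⟩, ⟨.ofNat 0, .ofNat 130⟩, ⟨.negSucc 20, .ofNat 158⟩, ⟨.ofNat 0, .ofNat 91⟩⟩ ⟨.ofNat 3, .ofNat 0⟩ ⟨.ofNat 0, .ofNat 10⟩ ⟨.ofNat 7, .ofNat 0⟩ 0 (.s23 ⟨⟨.ofNat 91, .ofNat 0⟩, ⟨.ofNat 130, .ofNat 0⟩, ⟨.ofNat 140, .ofNat 0⟩, ⟨.ofNat 91, .ofNat 0⟩⟩ ⟨.ofNat 10, .ofNat 0⟩ ⟨.ofNat 39, .ofNat 0⟩ ⟨.ofNat 7, .ofNat 0⟩ 0 (.leaf 0 [59, 0, 0, 0, 0, 0, 0, 7]) (.leaf 0 [0, 0, 0, 0, 0, 44, 0,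 64])) (.s01 ⟨⟨.ofNat 78, .ofNat 156⟩, ⟨.negSucc 90, .ofNat 338⟩, ⟨.negSucc 139, .ofNat 380⟩, ⟨.negSucc 90, .ofNat 247⟩⟩ ⟨.negSucc 12, .ofNat 65⟩ ⟨.ofNat 1, .ofNat 1⟩ ⟨.ofNat 1, .ofNat 1⟩ 0 (.leaf 0 [1]) (.leaf 0 [59, 0, 0, 0, 0, 0, 0, 7]))) (.leaf 0 [0, 0, 0, 0, 0, 0, 0, 0]))

/-- part of a tree -/
def t0_2 : Tree := .s23 ⟨⟨.ofNat 13, .ofNat 0⟩, ⟨.ofNat 13, .ofNat 0⟩, ⟨.ofNat 20, .ofNat 0⟩, ⟨.ofNat 13, .ofNat 0⟩⟩ ⟨.ofNat 7, .ofNat 0⟩ ⟨.ofNat 6, .ofNat 0⟩ ⟨.ofNat 1, .ofNat 0⟩ 0 t0_3 (.s13 ⟨⟨.ofNat 0, .ofNat 169⟩, ⟨.ofNat 0, .ofNat 260⟩, ⟨.negSucc 48, .ofNat 302⟩, ⟨.ofNat 0, .ofNat 169⟩⟩ ⟨.ofNat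 0, .ofNat 91⟩ ⟨.ofNat 13, .negSucc 6⟩ ⟨.negSucc 0, .ofNat 1⟩ 0 (.s13 ⟨⟨.ofNat 0, .ofNat 91⟩, ⟨.ofNat 0, .ofNat 130⟩, ⟨.negSucc 20, .ofNat 158⟩, ⟨.ofNat 0, .ofNat 91⟩⟩ ⟨.ofNat 3, .ofNat 0⟩ ⟨.ofNat 0, .ofNat 10⟩ ⟨.ofNat 7, .ofNat 0⟩ 0 (.leaf 0 [0, 0, 0, 0, 0, 64, 64, 1, 64]) (.leaf 0 [0, 0, 0, 0, 0, 59, 0, 0, 0, 0])) (.s01 ⟨⟨.ofNat 13, .ofNat 6⟩, ⟨.ofNat 0, .ofNat 20⟩, ⟨.ofNat 0, .ofNat 20⟩, ⟨.ofNat 0, .ofNat 13⟩⟩ ⟨.negSucc 6, .ofNat 6⟩ ⟨.ofNat 7, .ofNat 7⟩ ⟨.ofNat 1, .ofNat 0⟩ 0 (.s12 ⟨⟨.ofNat 0, .ofNat 13⟩, ⟨.ofNat 0, .ofNat 20⟩, ⟨.negSucc 6, .ofNat 26⟩, ⟨.ofNat 0, .ofNat 13⟩⟩ ⟨.ofNat 7, .ofNat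 7⟩ ⟨.negSucc 6, .ofNat 6⟩ ⟨.ofNat 1, .ofNat 0⟩ 0 (.s23 ⟨⟨.negSucc 12, .ofNat 49⟩, ⟨.ofNat 169, .negSucc 41⟩, ⟨.ofNat 49, .ofNat 36⟩, ⟨.negSucc 12, .ofNat 49⟩⟩ ⟨.negSucc 10, .ofNat 26⟩ ⟨.ofNat 1, .ofNat 2⟩ ⟨.ofNat 5, .ofNat 8⟩ 0 (.s13 ⟨⟨.ofNat 13, .ofNat 0⟩, ⟨.ofNat 20, .ofNat 0⟩, ⟨.ofNat 0, .ofNat 13⟩, ⟨.ofNat 13, .ofNat 0⟩⟩ ⟨.negSucc 6, .ofNat 6⟩ ⟨.ofNat 1, .ofNat 0⟩ ⟨.ofNat 6, .ofNat 12⟩ 0 (.leaf 0 []) (.leaf 0 [])) (.leaf 0 [0, 2, 0, 0, 64])) (.s23 ⟨⟨.ofNat 13, .ofNat 0⟩, ⟨.ofNat 20, .ofNat 0⟩, ⟨.ofNat 0, .ofNat 13⟩, ⟨.ofNat 13, .ofNat 0⟩⟩ ⟨.negSucc 6, .ofNat 6⟩ ⟨.ofNat 1, .ofNat 0⟩ ⟨.ofNat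 6, .ofNat 12⟩ 0 (.leaf 0 []) (.leaf 0 []))) (.leaf 0 [0, 0, 0, 0, 0, 59, 0, 0, 0, 0])))

/-- part of a tree -/
def t0_1 : Tree := .s13 ⟨⟨.ofNat 1, .ofNat 0⟩, ⟨.ofNat 0, .ofNat 1⟩, ⟨.ofNat 0, .ofNat 1⟩, ⟨.ofNat 1, .ofNat 0⟩⟩ ⟨.ofNat 1, .ofNat 0⟩ ⟨.negSucc 0, .ofNat 1⟩ ⟨.ofNat 0, .ofNat 1⟩ 0 t0_2 (.s12 ⟨⟨.ofNat 1, .ofNat 0⟩, ⟨.ofNat 0, .ofNat 1⟩, ⟨.ofNat 2, .ofNat 0⟩, ⟨.ofNat 1, .ofNat 0⟩⟩ ⟨.ofNat 1, .ofNat 0⟩ ⟨.negSucc 0, .ofNat 1⟩ ⟨.ofNat 0, .ofNat 1⟩ 0 (.leaf 0 [0, 0, 0, 0, 0, 0, 0, 0, 0, 0]) (.leaf 0 [0, 0, 0, 0, 0, 0, 0, 0]))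

/-- part of a tree -/
def t0_0 : Tree := .s03 ⟨⟨.ofNat 0, .ofNat 1⟩, ⟨.ofNat 1, .ofNat 0⟩, ⟨.ofNat 1, .ofNat 0⟩, ⟨.ofNat 1, .ofNat 0⟩⟩ ⟨.negSucc 0, .ofNat 1⟩ ⟨.ofNat 0, .ofNat 1⟩ ⟨.negSucc 0, .ofNat 2⟩ 0 t0_1 (.s02 ⟨⟨.ofNat 2, .ofNat 1⟩, ⟨.negSucc 0, .ofNat 2⟩, ⟨.negSucc 0, .ofNat 3⟩, ⟨.negSucc 0, .ofNat 2⟩⟩ ⟨.negSucc 0, .ofNat 1⟩ ⟨.ofNat 0, .ofNat 1⟩ ⟨.ofNat 1, .ofNat 0⟩ 0 (.s12 ⟨⟨.ofNat 1, .ofNat 0⟩, ⟨.ofNat 0, .ofNat 1⟩, ⟨.ofNat 2, .ofNat 0⟩, ⟨.ofNat 1, .ofNat 0⟩⟩ ⟨.ofNat 1, .ofNat 0⟩ ⟨.negSucc 0, .ofNat 1⟩ ⟨.ofNat 0, .ofNat 1⟩ 0 (.leaf 0 [0, 0, 0, 0, 0, 64, 3, 0, 0, 0, 0]) (.leaf 0 [0, 0,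 0, 0, 64, 1, 0, 0, 0])) (.leaf 0 [64, 64, 1, 0, 0, 0, 64, 64, 0, 0, 0, 0, 64, 64]))

/-- part of a tree -/
def t0_4 : Tree := .s01 ⟨⟨.negSucc 0, .ofNat 2⟩, ⟨.ofNat 2, .ofNat 0⟩, ⟨.ofNat 2, .ofNat 0⟩, ⟨.ofNat 1, .ofNat 0⟩⟩ ⟨.ofNat 2, .ofNat 0⟩ ⟨.ofNat 0, .ofNat 1⟩ ⟨.ofNat 0, .ofNat 1⟩ 0 (.s23 ⟨⟨.ofNat 14, .ofNat 7⟩, ⟨.ofNat 6, .ofNat 3⟩, ⟨.ofNat 12, .ofNat 2⟩, ⟨.ofNat 6, .ofNat 3⟩⟩ ⟨.ofNat 6, .negSucc 0⟩ ⟨.ofNat 0, .ofNat 4⟩ ⟨.ofNat 1, .ofNat 0⟩ 0 (.s13 ⟨⟨.ofNat 1, .ofNat 9⟩, ⟨.negSucc 0, .ofNat 11⟩, ⟨.negSucc 0, .ofNat 11⟩, ⟨.ofNat 0, .ofNat 6⟩⟩ ⟨.negSucc 0, .ofNat 5⟩ ⟨.ofNat 1, .ofNat 1⟩ ⟨.ofNat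 1, .ofNat 0⟩ 0 (.leaf 0 [0, 21, 0, 0, 0, 0, 0, 0, 0, 0, 0, 0]) (.s01 ⟨⟨.ofNat 4, .ofNat 0⟩, ⟨.ofNat 6, .ofNat 0⟩, ⟨.ofNat 6, .ofNat 0⟩, ⟨.ofNat 3, .ofNat 0⟩⟩ ⟨.ofNat 0, .ofNat 1⟩ ⟨.ofNat 6, .negSucc 0⟩ ⟨.ofNat 2, .ofNat 0⟩ 0 (.leaf 0 [0, 0, 63, 0, 0, 0, 0, 64]) (.leaf 0 [64, 0, 0, 64, 5, 0, 0, 0, 64, 64]))) (.s02 ⟨⟨.ofNat 14, .ofNat 3⟩, ⟨.ofNat 6, .ofNat 7⟩, ⟨.ofNat 12, .ofNat 6⟩, ⟨.ofNat 6, .ofNat 3⟩⟩ ⟨.ofNat 0, .ofNat 4⟩ ⟨.ofNat 6, .negSucc 0⟩ ⟨.ofNat 1, .ofNat 0⟩ 0 (.s23 ⟨⟨.ofNat 2, .ofNat 1⟩, ⟨.negSucc 0, .ofNat 2⟩, ⟨.negSucc 0, .ofNat 3⟩, ⟨.negSucc 0, .ofNat 2⟩⟩ ⟨.ofNat 11, .negSucc 1⟩ ⟨.negSucc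 0, .ofNat 1⟩ ⟨.ofNat 0, .ofNat 4⟩ 0 (.leaf 0 [0, 0, 64, 1, 0, 0, 0, 64]) (.s02 ⟨⟨.ofNat 0, .ofNat 3⟩, ⟨.ofNat 3, .ofNat 1⟩, ⟨.ofNat 4, .ofNat 2⟩, ⟨.ofNat 2, .ofNat 1⟩⟩ ⟨.ofNat 1, .ofNat 0⟩ ⟨.negSucc 1, .ofNat 9⟩ ⟨.ofNat 0, .ofNat 4⟩ 0 (.s12 ⟨⟨.ofNat 1, .ofNat 0⟩, ⟨.ofNat 0, .ofNat 1⟩, ⟨.ofNat 2, .ofNat 0⟩, ⟨.ofNat 1, .ofNat 0⟩⟩ ⟨.ofNat 1, .ofNat 0⟩ ⟨.negSucc 0, .ofNat 1⟩ ⟨.ofNat 0, .ofNat 1⟩ 0 (.leaf 0 [0, 64, 3, 0, 0, 0, 0]) (.leaf 0 [64, 1, 0, 0, 0])) (.leaf 0 [64, 1, 0, 0, 0, 64]))) (.s01 ⟨⟨.ofNat 4, .ofNat 0⟩, ⟨.ofNat 6, .ofNat 0⟩, ⟨.ofNat 6, .ofNat 0⟩, ⟨.ofNat 3, .ofNat 0⟩⟩ ⟨.ofNat 0, .ofNat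 1⟩ ⟨.ofNat 6, .negSucc 0⟩ ⟨.ofNat 2, .ofNat 0⟩ 0 (.leaf 0 [0, 0, 63, 0, 0, 0, 0, 64]) (.leaf 0 [64, 0, 0, 64, 5, 0, 0, 0, 64, 64])))) (.s02 ⟨⟨.ofNat 7, .ofNat 0⟩, ⟨.ofNat 3, .ofNat 0⟩, ⟨.ofNat 6, .ofNat 0⟩, ⟨.ofNat 3, .ofNat 0⟩⟩ ⟨.ofNat 4, .ofNat 0⟩ ⟨.ofNat 3, .ofNat 0⟩ ⟨.ofNat 1, .ofNat 0⟩ 0 (.s23 ⟨⟨.ofNat 14, .ofNat 7⟩, ⟨.ofNat 6, .ofNat 3⟩, ⟨.ofNat 12, .ofNat 2⟩, ⟨.ofNat 6, .ofNat 3⟩⟩ ⟨.ofNat 6, .negSucc 0⟩ ⟨.ofNat 0, .ofNat 4⟩ ⟨.ofNat 1, .ofNat 0⟩ 0 (.leaf 0 [0, 6, 0, 0, 0, 0, 15, 0, 0, 0, 0, 0]) (.s12 ⟨⟨.ofNat 14, .ofNat 3⟩, ⟨.ofNat 6, .ofNat 7⟩, ⟨.ofNat 12, .ofNat 6⟩, ⟨.ofNat 6, .ofNat 3⟩⟩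 ⟨.ofNat 0, .ofNat 4⟩ ⟨.ofNat 6, .negSucc 0⟩ ⟨.ofNat 1, .ofNat 0⟩ 0 (.leaf 0 [26, 0, 0, 0, 64, 0, 64, 64, 64, 0, 64, 64, 0]) (.leaf 0 [64, 0, 0, 0, 18, 0, 0, 0, 0, 0]))) (.leaf 0 [0, 0, 0, 0, 0, 22, 0, 0, 0, 0, 0]))

/-- part of a tree -/
def t0 : Tree := .s03 ⟨⟨.ofNat 0, .ofNat 2⟩, ⟨.ofNat 1, .ofNat 0⟩, ⟨.ofNat 1, .ofNat 0⟩, ⟨.ofNat 1, .ofNat 0⟩⟩ ⟨.negSucc 0, .ofNat 2⟩ ⟨.ofNat 1, .ofNat 0⟩ ⟨.ofNat 1, .ofNat 0⟩ 0 t0_0 t0_4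

theorem g0 : Good (PD lin H) ⟨⟨.ofNat 1, .ofNat 0⟩, ⟨.ofNat 0, .ofNat 0⟩, ⟨.ofNat 0, .ofNat 0⟩, ⟨.ofNat 0, .ofNat 0⟩⟩
    ⟨⟨.ofNat 1, .ofNat 0⟩, ⟨.ofNat 2, .ofNat 0⟩, ⟨.ofNat 2, .ofNat 0⟩, ⟨.ofNat 1, .ofNat 0⟩⟩
    ⟨⟨.ofNat 1, .ofNat 0⟩, ⟨.ofNat 1, .ofNat 0⟩, ⟨.ofNat 2, .ofNat 0⟩, ⟨.ofNat 1, .ofNat 0⟩⟩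
    ⟨⟨.ofNat 1, .ofNat 0⟩, ⟨.ofNat 1, .ofNat 0⟩, ⟨.ofNat 1, .ofNat 0⟩, ⟨.ofNat 1, .ofNat 0⟩⟩ :=
  goodD lin H t0 (by decide +kernel)

/-- part of a tree -/
def t1_0 : Tree := .s12 ⟨⟨.ofNat 39, .ofNat 0⟩, ⟨.ofNat 91, .ofNat 0⟩, ⟨.ofNat 102, .ofNat 0⟩, ⟨.ofNat 39, .ofNat 0⟩⟩ ⟨.ofNat 4, .ofNat 0⟩ ⟨.ofNat 11, .ofNat 0⟩ ⟨.ofNat 1, .ofNat 0⟩ 0 (.s12 ⟨⟨.ofNat 27, .ofNat 0⟩, ⟨.ofNat 40, .ofNat 0⟩, ⟨.ofNat 60, .ofNat 0⟩, ⟨.ofNat 27, .ofNat 0⟩⟩ ⟨.ofNat 1, .ofNat 0⟩ ⟨.ofNat 69, .ofNat 0⟩ ⟨.ofNat 4, .ofNat 0⟩ 0 (.s02 ⟨⟨.ofNat 0, .ofNat 3⟩, ⟨.ofNat 3, .ofNat 1⟩, ⟨.ofNat 4, .ofNat 2⟩, ⟨.ofNat 2, .ofNat 1⟩⟩ ⟨.ofNat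 1, .ofNat 0⟩ ⟨.negSucc 1, .ofNat 9⟩ ⟨.ofNat 0, .ofNat 4⟩ 0 (.s23 ⟨⟨.ofNat 1, .ofNat 0⟩, ⟨.ofNat 0, .ofNat 1⟩, ⟨.ofNat 2, .ofNat 0⟩, ⟨.ofNat 1, .ofNat 0⟩⟩ ⟨.negSucc 0, .ofNat 1⟩ ⟨.ofNat 1, .ofNat 0⟩ ⟨.ofNat 0, .ofNat 1⟩ 0 (.leaf 0 [1, 64, 0, 0, 0, 0]) (.leaf 0 [0, 64, 3, 0, 0, 0, 0])) (.leaf 0 [1, 64, 0, 0, 0, 64, 0])) (.s13 ⟨⟨.ofNat 108, .ofNat 0⟩, ⟨.ofNat 229, .ofNat 0⟩, ⟨.ofNat 240, .ofNat 0⟩, ⟨.ofNat 108, .ofNat 0⟩⟩ ⟨.ofNat 1, .ofNat 0⟩ ⟨.ofNat 69, .ofNat 0⟩ ⟨.ofNat 1, .ofNat 0⟩ 0 (.s12 ⟨⟨.ofNat 9, .ofNat 0⟩, ⟨.ofNat 18, .ofNat 0⟩, ⟨.ofNat 20, .ofNat 0⟩, ⟨.ofNat 9, .ofNat 0⟩⟩ ⟨.ofNat 14, .ofNat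 0⟩ ⟨.ofNat 13, .ofNat 0⟩ ⟨.ofNat 207, .ofNat 0⟩ 0 (.leaf 0 [1, 64, 0, 64, 0]) (.leaf 0 [62, 16, 64])) (.s12 ⟨⟨.ofNat 13, .ofNat 0⟩, ⟨.ofNat 26, .ofNat 0⟩, ⟨.ofNat 32, .ofNat 0⟩, ⟨.ofNat 13, .ofNat 0⟩⟩ ⟨.ofNat 14, .ofNat 0⟩ ⟨.ofNat 13, .ofNat 0⟩ ⟨.ofNat 69, .ofNat 0⟩ 0 (.s23 ⟨⟨.ofNat 9, .ofNat 0⟩, ⟨.ofNat 18, .ofNat 0⟩, ⟨.ofNat 20, .ofNat 0⟩, ⟨.ofNat 9, .ofNat 0⟩⟩ ⟨.ofNat 13, .ofNat 0⟩ ⟨.ofNat 14, .ofNat 0⟩ ⟨.ofNat 207, .ofNat 0⟩ 0 (.leaf 0 [12, 51, 14, 64]) (.leaf 0 [0, 0, 54, 0, 64, 0])) (.s03 ⟨⟨.negSucc 71, .ofNat 744⟩, ⟨.negSucc 144, .ofNat 1301⟩, ⟨.negSucc 167, .ofNat 1416⟩, ⟨.negSucc 71, .ofNat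 648⟩⟩ ⟨.ofNat 0, .ofNat 12⟩ ⟨.negSucc 0, .ofNat 5⟩ ⟨.ofNat 1, .ofNat 0⟩ 0 (.s13 ⟨⟨.ofNat 72, .ofNat 0⟩, ⟨.ofNat 157, .ofNat 0⟩, ⟨.ofNat 168, .ofNat 0⟩, ⟨.ofNat 72, .ofNat 0⟩⟩ ⟨.ofNat 12, .ofNat 0⟩ ⟨.ofNat 11, .ofNat 0⟩ ⟨.ofNat 23, .ofNat 0⟩ 0 (.leaf 0 [0, 35]) (.leaf 0 [0, 22, 64])) (.leaf 0 [0, 31, 0, 44, 64]))))) (.s13 ⟨⟨.ofNat 3, .ofNat 0⟩, ⟨.ofNat 7, .ofNat 0⟩, ⟨.ofNat 7, .ofNat 0⟩, ⟨.ofNat 3, .ofNat 0⟩⟩ ⟨.ofNat 1, .ofNat 0⟩ ⟨.ofNat 11, .ofNat 0⟩ ⟨.ofNat 6, .ofNat 0⟩ 0 (.s23 ⟨⟨.ofNat 108, .ofNat 0⟩, ⟨.ofNat 229, .ofNat 0⟩, ⟨.ofNat 240, .ofNat 0⟩, ⟨.ofNat 108, .ofNat 0⟩⟩ ⟨.ofNat 1, .ofNat 0⟩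 ⟨.ofNat 69, .ofNat 0⟩ ⟨.ofNat 1, .ofNat 0⟩ 0 (.s13 ⟨⟨.ofNat 9, .ofNat 0⟩, ⟨.ofNat 20, .ofNat 0⟩, ⟨.ofNat 20, .ofNat 0⟩, ⟨.ofNat 9, .ofNat 0⟩⟩ ⟨.ofNat 2, .ofNat 0⟩ ⟨.ofNat 3, .ofNat 0⟩ ⟨.ofNat 1, .ofNat 0⟩ 0 (.leaf 0 [62, 4, 64]) (.s01 ⟨⟨.ofNat 0, .ofNat 32⟩, ⟨.ofNat 0, .ofNat 48⟩, ⟨.negSucc 0, .ofNat 53⟩, ⟨.ofNat 0, .ofNat 24⟩⟩ ⟨.ofNat 0, .ofNat 1⟩ ⟨.negSucc 0, .ofNat 5⟩ ⟨.ofNat 1, .ofNat 0⟩ 0 (.leaf 0 [0, 38, 42]) (.leaf 0 [42, 0, 64]))) (.s03 ⟨⟨.negSucc 71, .ofNat 744⟩, ⟨.negSucc 144, .ofNat 1301⟩, ⟨.negSucc 167, .ofNat 1416⟩, ⟨.negSucc 71, .ofNat 648⟩⟩ ⟨.ofNat 0, .ofNat 12⟩ ⟨.negSucc 0, .ofNat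 5⟩ ⟨.ofNat 1, .ofNat 0⟩ 0 (.s23 ⟨⟨.ofNat 72, .ofNat 0⟩, ⟨.ofNat 157, .ofNat 0⟩, ⟨.ofNat 168, .ofNat 0⟩, ⟨.ofNat 72, .ofNat 0⟩⟩ ⟨.ofNat 12, .ofNat 0⟩ ⟨.ofNat 11, .ofNat 0⟩ ⟨.ofNat 23, .ofNat 0⟩ 0 (.leaf 0 [0, 33]) (.leaf 0 [0, 22, 64])) (.leaf 0 [0, 31, 0, 44, 64]))) (.s01 ⟨⟨.ofNat 60, .negSucc 7⟩, ⟨.ofNat 71, .ofNat 8⟩, ⟨.ofNat 90, .ofNat 0⟩, ⟨.ofNat 36, .ofNat 0⟩⟩ ⟨.negSucc 0, .ofNat 2⟩ ⟨.ofNat 0, .ofNat 3⟩ ⟨.ofNat 0, .ofNat 1⟩ 0 (.s13 ⟨⟨.ofNat 2, .ofNat 0⟩, ⟨.ofNat 5, .ofNat 0⟩, ⟨.ofNat 5, .ofNat 0⟩, ⟨.ofNat 2, .ofNat 0⟩⟩ ⟨.ofNat 1, .ofNat 0⟩ ⟨.ofNat 5, .ofNat 0⟩ ⟨.ofNat 11, .ofNat 0⟩ 0 (.leaf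 0 [40, 64, 64]) (.leaf 0 [37, 64, 13, 0, 64])) (.leaf 0 [0, 31, 0, 43, 64, 64])))

/-- part of a tree -/
def t1_1 : Tree := .s03 ⟨⟨.ofNat 4, .ofNat 0⟩, ⟨.ofNat 6, .ofNat 0⟩, ⟨.ofNat 6, .ofNat 0⟩, ⟨.ofNat 3, .ofNat 0⟩⟩ ⟨.ofNat 0, .ofNat 1⟩ ⟨.ofNat 6, .negSucc 0⟩ ⟨.ofNat 2, .ofNat 0⟩ 0 (.s13 ⟨⟨.ofNat 3, .ofNat 0⟩, ⟨.ofNat 7, .ofNat 0⟩, ⟨.ofNat 7, .ofNat 0⟩, ⟨.ofNat 3, .ofNat 0⟩⟩ ⟨.ofNat 1, .ofNat 0⟩ ⟨.ofNat 11, .ofNat 0⟩ ⟨.ofNat 6, .ofNat 0⟩ 0 (.s13 ⟨⟨.ofNat 9, .ofNat 0⟩, ⟨.ofNat 20, .ofNat 0⟩, ⟨.ofNat 20, .ofNat 0⟩, ⟨.ofNat 9, .ofNat 0⟩⟩ ⟨.ofNat 2, .ofNat 0⟩ ⟨.ofNat 3, .ofNat 0⟩ ⟨.ofNat 1, .ofNat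 0⟩ 0 (.leaf 0 [62, 4, 64]) (.s01 ⟨⟨.ofNat 10, .ofNat 0⟩, ⟨.ofNat 20, .ofNat 0⟩, ⟨.ofNat 20, .ofNat 0⟩, ⟨.ofNat 9, .ofNat 0⟩⟩ ⟨.ofNat 1, .ofNat 0⟩ ⟨.ofNat 2, .ofNat 0⟩ ⟨.ofNat 1, .ofNat 0⟩ 0 (.s12 ⟨⟨.ofNat 0, .ofNat 32⟩, ⟨.ofNat 0, .ofNat 48⟩, ⟨.negSucc 0, .ofNat 53⟩, ⟨.ofNat 0, .ofNat 24⟩⟩ ⟨.negSucc 0, .ofNat 5⟩ ⟨.ofNat 0, .ofNat 1⟩ ⟨.ofNat 1, .ofNat 0⟩ 0 (.leaf 0 [42, 0, 64]) (.leaf 0 [0, 38, 42])) (.leaf 0 [42, 0, 64]))) (.s01 ⟨⟨.ofNat 101, .ofNat 0⟩, ⟨.ofNat 180, .ofNat 0⟩, ⟨.ofNat 180, .ofNat 0⟩, ⟨.ofNat 81, .ofNat 0⟩⟩ ⟨.ofNat 20, .ofNat 0⟩ ⟨.ofNat 3, .ofNat 0⟩ ⟨.ofNat 1, .ofNat 0⟩ 0 (.s12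 ⟨⟨.ofNat 60, .negSucc 7⟩, ⟨.ofNat 71, .ofNat 8⟩, ⟨.ofNat 90, .ofNat 0⟩, ⟨.ofNat 36, .ofNat 0⟩⟩ ⟨.ofNat 0, .ofNat 3⟩ ⟨.negSucc 0, .ofNat 2⟩ ⟨.ofNat 0, .ofNat 1⟩ 0 (.leaf 0 [0, 39, 0, 64, 64]) (.s01 ⟨⟨.ofNat 41, .ofNat 0⟩, ⟨.ofNat 90, .ofNat 0⟩, ⟨.ofNat 90, .ofNat 0⟩, ⟨.ofNat 36, .ofNat 0⟩⟩ ⟨.ofNat 1, .ofNat 0⟩ ⟨.ofNat 9, .ofNat 0⟩ ⟨.ofNat 4, .ofNat 0⟩ 0 (.s13 ⟨⟨.ofNat 2, .ofNat 0⟩, ⟨.ofNat 5, .ofNat 0⟩, ⟨.ofNat 5, .ofNat 0⟩, ⟨.ofNat 2, .ofNat 0⟩⟩ ⟨.ofNat 1, .ofNat 0⟩ ⟨.ofNat 5, .ofNat 0⟩ ⟨.ofNat 11, .ofNat 0⟩ 0 (.leaf 0 [49, 64]) (.leaf 0 [37, 64, 13, 0, 64])) (.leaf 0 [43, 64]))) (.s03 ⟨⟨.ofNat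 10, .ofNat 0⟩, ⟨.ofNat 20, .ofNat 0⟩, ⟨.ofNat 20, .ofNat 0⟩, ⟨.ofNat 9, .ofNat 0⟩⟩ ⟨.ofNat 1, .ofNat 0⟩ ⟨.ofNat 2, .ofNat 0⟩ ⟨.ofNat 1, .ofNat 0⟩ 0 (.leaf 0 [0, 39, 0, 64]) (.leaf 0 [0, 64])))) (.s13 ⟨⟨.ofNat 101, .ofNat 0⟩, ⟨.ofNat 180, .ofNat 0⟩, ⟨.ofNat 180, .ofNat 0⟩, ⟨.ofNat 81, .ofNat 0⟩⟩ ⟨.ofNat 3, .ofNat 0⟩ ⟨.ofNat 20, .ofNat 0⟩ ⟨.ofNat 1, .ofNat 0⟩ 0 (.leaf 0 [64, 64, 10, 64, 64]) (.s12 ⟨⟨.ofNat 126, .ofNat 11⟩, ⟨.ofNat 156, .ofNat 22⟩, ⟨.ofNat 192, .ofNat 16⟩, ⟨.ofNat 78, .ofNat 11⟩⟩ ⟨.negSucc 0, .ofNat 5⟩ ⟨.ofNat 0, .ofNat 6⟩ ⟨.ofNat 0, .ofNat 1⟩ 0 (.leaf 0 [64, 64, 64, 10, 64, 64])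 (.s01 ⟨⟨.negSucc 12, .ofNat 40⟩, ⟨.ofNat 60, .ofNat 0⟩, ⟨.ofNat 60, .ofNat 0⟩, ⟨.ofNat 27, .ofNat 0⟩⟩ ⟨.ofNat 20, .ofNat 0⟩ ⟨.ofNat 1, .ofNat 0⟩ ⟨.ofNat 1, .ofNat 0⟩ 0 (.s13 ⟨⟨.ofNat 41, .ofNat 0⟩, ⟨.ofNat 90, .ofNat 0⟩, ⟨.ofNat 90, .ofNat 0⟩, ⟨.ofNat 36, .ofNat 0⟩⟩ ⟨.ofNat 9, .ofNat 0⟩ ⟨.ofNat 1, .ofNat 0⟩ ⟨.ofNat 4, .ofNat 0⟩ 0 (.leaf 0 [64, 64, 5, 0, 64]) (.s01 ⟨⟨.ofNat 1, .ofNat 5⟩, ⟨.ofNat 15, .ofNat 0⟩, ⟨.ofNat 15, .ofNat 0⟩, ⟨.ofNat 6, .ofNat 0⟩⟩ ⟨.ofNat 1, .ofNat 0⟩ ⟨.ofNat 3, .ofNat 0⟩ ⟨.ofNat 8, .ofNat 0⟩ 0 (.s12 ⟨⟨.ofNat 140, .negSucc 37⟩, ⟨.negSucc 30, .ofNat 120⟩, ⟨.ofNat 54, .ofNat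 72⟩, ⟨.ofNat 36, .ofNat 18⟩⟩ ⟨.negSucc 18, .ofNat 65⟩ ⟨.ofNat 6, .negSucc 0⟩ ⟨.ofNat 6, .ofNat 6⟩ 0 (.leaf 0 [64, 0, 0, 0, 64, 0]) (.s01 ⟨⟨.ofNat 13, .negSucc 3⟩, ⟨.ofNat 3, .ofNat 6⟩, ⟨.ofNat 3, .ofNat 6⟩, ⟨.ofNat 0, .ofNat 3⟩⟩ ⟨.ofNat 6, .negSucc 0⟩ ⟨.negSucc 2, .ofNat 3⟩ ⟨.ofNat 0, .ofNat 5⟩ 0 (.leaf 0 [54, 24]) (.leaf 0 [64, 0]))) (.leaf 0 [64, 0, 0, 0]))) (.leaf 0 [64, 49, 41, 0, 0]))))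

/-- part of a tree -/
def t1 : Tree := .s02 ⟨⟨.ofNat 14, .ofNat 3⟩, ⟨.ofNat 6, .ofNat 7⟩, ⟨.ofNat 12, .ofNat 6⟩, ⟨.ofNat 6, .ofNat 3⟩⟩ ⟨.ofNat 0, .ofNat 4⟩ ⟨.ofNat 6, .negSucc 0⟩ ⟨.ofNat 1, .ofNat 0⟩ 0 t1_0 t1_1

theorem g1 : Good (PD lin H) ⟨⟨.negSucc 0, .ofNat 2⟩, ⟨.ofNat 2, .ofNat 0⟩, ⟨.ofNat 2, .ofNat 0⟩, ⟨.ofNat 1, .ofNat 0⟩⟩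
    ⟨⟨.ofNat 7, .ofNat 0⟩, ⟨.ofNat 20, .ofNat 0⟩, ⟨.ofNat 20, .ofNat 0⟩, ⟨.ofNat 7, .ofNat 0⟩⟩
    ⟨⟨.ofNat 1, .ofNat 0⟩, ⟨.ofNat 1, .ofNat 0⟩, ⟨.ofNat 2, .ofNat 0⟩, ⟨.ofNat 1, .ofNat 0⟩⟩
    ⟨⟨.ofNat 1, .ofNat 0⟩, ⟨.ofNat 2, .ofNat 0⟩, ⟨.ofNat 2, .ofNat 0⟩, ⟨.ofNat 1, .ofNat 0⟩⟩ :=
  goodD lin H t1 (by decide +kernel)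

/-- part of a tree -/
def t2 : Tree := .s02 ⟨⟨.ofNat 0, .ofNat 2⟩, ⟨.ofNat 1, .ofNat 0⟩, ⟨.ofNat 2, .ofNat 0⟩, ⟨.ofNat 1, .ofNat 0⟩⟩ ⟨.negSucc 0, .ofNat 2⟩ ⟨.ofNat 1, .ofNat 0⟩ ⟨.ofNat 1, .ofNat 0⟩ 0 (.s23 ⟨⟨.ofNat 14, .ofNat 3⟩, ⟨.ofNat 6, .ofNat 7⟩, ⟨.ofNat 12, .ofNat 6⟩, ⟨.ofNat 6, .ofNat 3⟩⟩ ⟨.ofNat 6, .negSucc 0⟩ ⟨.ofNat 0, .ofNat 4⟩ ⟨.ofNat 1, .ofNat 0⟩ 0 (.s13 ⟨⟨.ofNat 0, .ofNat 52⟩, ⟨.ofNat 0, .ofNat 78⟩, ⟨.negSucc 2, .ofNat 93⟩, ⟨.ofNat 0, .ofNat 39⟩⟩ ⟨.ofNat 6, .negSucc 0⟩ ⟨.ofNat 0, .ofNat 13⟩ ⟨.negSucc 1, .ofNat 2⟩ 0 (.leaf 0 [64, 64, 0, 0, 0, 0, 0, 63, 0]) (.leaf 0 [64, 48, 0, 64,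 0, 0, 0, 0, 64, 0, 64])) (.s02 ⟨⟨.ofNat 0, .ofNat 1⟩, ⟨.ofNat 1, .ofNat 0⟩, ⟨.ofNat 2, .ofNat 0⟩, ⟨.ofNat 1, .ofNat 0⟩⟩ ⟨.negSucc 0, .ofNat 1⟩ ⟨.ofNat 0, .ofNat 1⟩ ⟨.negSucc 0, .ofNat 2⟩ 0 (.s23 ⟨⟨.ofNat 0, .ofNat 3⟩, ⟨.ofNat 3, .ofNat 1⟩, ⟨.ofNat 4, .ofNat 2⟩, ⟨.ofNat 2, .ofNat 1⟩⟩ ⟨.negSucc 1, .ofNat 9⟩ ⟨.ofNat 1, .ofNat 0⟩ ⟨.ofNat 0, .ofNat 4⟩ 0 (.leaf 0 [0, 9, 0, 0, 0, 64]) (.s12 ⟨⟨.ofNat 13, .ofNat 0⟩, ⟨.ofNat 0, .ofNat 13⟩, ⟨.ofNat 20, .ofNat 6⟩, ⟨.ofNat 13, .ofNat 0⟩⟩ ⟨.ofNat 0, .ofNat 1⟩ ⟨.ofNat 13, .ofNat 0⟩ ⟨.ofNat 1, .ofNat 1⟩ 0 (.leaf 0 [0, 64, 64, 64, 7, 0, 0, 64]) (.leaf 0 [0, 0,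 9, 0, 0, 0]))) (.leaf 0 [64, 64, 0, 64, 9, 0, 0, 0, 64, 30, 64]))) (.s01 ⟨⟨.negSucc 12, .ofNat 26⟩, ⟨.ofNat 26, .ofNat 0⟩, ⟨.ofNat 32, .ofNat 0⟩, ⟨.ofNat 13, .ofNat 0⟩⟩ ⟨.ofNat 26, .ofNat 0⟩ ⟨.ofNat 0, .ofNat 1⟩ ⟨.ofNat 0, .ofNat 1⟩ 0 (.s12 ⟨⟨.ofNat 13, .ofNat 117⟩, ⟨.negSucc 12, .ofNat 143⟩, ⟨.negSucc 5, .ofNat 186⟩, ⟨.ofNat 0, .ofNat 78⟩⟩ ⟨.ofNat 6, .negSucc 0⟩ ⟨.ofNat 0, .ofNat 13⟩ ⟨.negSucc 0, .ofNat 1⟩ 0 (.leaf 0 [0, 23, 0, 7, 0, 0, 0, 0, 0]) (.s13 ⟨⟨.ofNat 0, .ofNat 52⟩, ⟨.ofNat 0, .ofNat 78⟩, ⟨.negSucc 2, .ofNat 93⟩, ⟨.ofNat 0, .ofNat 39⟩⟩ ⟨.ofNat 6, .negSucc 0⟩ ⟨.ofNat 0, .ofNat 13⟩ ⟨.negSucc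 1, .ofNat 2⟩ 0 (.leaf 0 [0, 1, 0, 56, 0]) (.s01 ⟨⟨.ofNat 52, .ofNat 0⟩, ⟨.ofNat 78, .ofNat 0⟩, ⟨.ofNat 96, .ofNat 0⟩, ⟨.ofNat 39, .ofNat 0⟩⟩ ⟨.ofNat 0, .ofNat 1⟩ ⟨.ofNat 6, .negSucc 0⟩ ⟨.ofNat 2, .ofNat 0⟩ 0 (.leaf 0 [45]) (.leaf 0 [64, 0, 43, 0])))) (.leaf 0 [23, 7, 0, 0, 0]))

theorem g2 : Good (PD lin H) ⟨⟨.ofNat 1, .ofNat 0⟩, ⟨.ofNat 0, .ofNat 0⟩, ⟨.ofNat 0, .ofNat 0⟩, ⟨.ofNat 0, .ofNat 0⟩⟩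
    ⟨⟨.ofNat 13, .ofNat 0⟩, ⟨.ofNat 26, .ofNat 0⟩, ⟨.ofNat 32, .ofNat 0⟩, ⟨.ofNat 13, .ofNat 0⟩⟩
    ⟨⟨.ofNat 1, .ofNat 0⟩, ⟨.ofNat 1, .ofNat 0⟩, ⟨.ofNat 2, .ofNat 0⟩, ⟨.ofNat 1, .ofNat 0⟩⟩
    ⟨⟨.negSucc 0, .ofNat 2⟩, ⟨.ofNat 2, .ofNat 0⟩, ⟨.ofNat 2, .ofNat 0⟩, ⟨.ofNat 1, .ofNat 0⟩⟩ :=
  goodD lin H t2 (by decide +kernel)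

end

end Pool.Agent.PHCert.D2
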