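import Pool.Agent.PHCert.D3a

/-!
# PHCert: inequality D3
-/

set_option autoImplicit false

namespace Pool.Agent.PHCert.D3

open Zp Pool.Agent.PHCert

noncomputable section

theorem g2 : Good (PD lin H) ⟨⟨.ofNat 1, .ofNat 0⟩, ⟨.ofNat 0, .ofNat 0⟩, ⟨.ofNat 0, .ofNat 0⟩, ⟨.ofNat 0, .ofNat 0⟩⟩
    ⟨⟨.ofNat 0, .ofNat 0⟩, ⟨.ofNat 1, .ofNat 0⟩, ⟨.ofNat 1, .ofNat 0⟩, ⟨.ofNat 0, .ofNat 0⟩⟩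
    ⟨⟨.ofNat 0, .ofNat 0⟩, ⟨.ofNat 0, .ofNat 0⟩, ⟨.ofNat 1, .ofNat 0⟩, ⟨.ofNat 0, .ofNat 0⟩⟩
    ⟨⟨.ofNat 1, .ofNat 0⟩, ⟨.ofNat 1, .ofNat 0⟩, ⟨.ofNat 1, .ofNat 0⟩, ⟨.ofNat 1, .ofNat 0⟩⟩ :=
  good03 ⟨.ofNat 1, .ofNat 0⟩ ⟨.ofNat 0, .ofNat 1⟩ ⟨.ofNat 0, .ofNat 1⟩ (by decide +kernel) g0 g1

theorem root : Good (PD lin H) v0 ⟨z0, z1, z1, z0⟩ v2 ⟨z1, z1, z1, z1⟩ := g2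

theorem ineq {n r s l : ℝ} (h0 : 0 ≤ l) (hn : l ≤ n) (hr : l ≤ r) (hs : r ≤ s) :
    0 ≤ tev ts ![n, r, s, l] := gen_DS data root h0 hn hr hs

end

end Pool.Agent.PHCert.D3
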