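import Pool.Agent.PHCert.Cone

/-!
# PHCert: inequality D3, the data
-/

set_option autoImplicit false

namespace Pool.Agent.PHCert.D3

open Zp Pool.Agent.PHCert

noncomputable section

/-- linear part -/
def lin : V4 := ⟨⟨.ofNat 0, .ofNat 0⟩, ⟨.ofNat 0, .ofNat 0⟩, ⟨.ofNat 0, .ofNat 0⟩, ⟨.negSucc 1205133, .ofNat 762250⟩⟩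

/-- hinges -/
def H : List Hinge := [
  ⟨⟨.ofNat 11793, .ofNat 0⟩, ⟨⟨.ofNat 3, .negSucc 1⟩, ⟨.ofNat 3, .negSucc 1⟩, ⟨.ofNat 0, .ofNat 0⟩, ⟨.ofNat 1, .ofNat 0⟩⟩⟩,
  ⟨⟨.negSucc 2283, .ofNat 0⟩, ⟨⟨.negSucc 6, .ofNat 0⟩, ⟨.negSucc 6, .ofNat 0⟩, ⟨.ofNat 0, .ofNat 0⟩, ⟨.ofNat 20, .ofNat 0⟩⟩⟩,
  ⟨⟨.negSucc 2792, .ofNat 0⟩, ⟨⟨.negSucc 1, .ofNat 0⟩, ⟨.negSucc 1, .ofNat 0⟩, ⟨.ofNat 0, .ofNat 0⟩, ⟨.ofNat 5, .ofNat 0⟩⟩⟩,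
  ⟨⟨.negSucc 599, .ofNat 0⟩, ⟨⟨.ofNat 0, .ofNat 0⟩, ⟨.ofNat 0, .ofNat 0⟩, ⟨.negSucc 0, .ofNat 0⟩, ⟨.ofNat 20, .ofNat 0⟩⟩⟩,
  ⟨⟨.negSucc 134, .ofNat 0⟩, ⟨⟨.ofNat 0, .ofNat 0⟩, ⟨.ofNat 0, .ofNat 0⟩, ⟨.negSucc 2, .ofNat 0⟩, ⟨.ofNat 10, .ofNat 0⟩⟩⟩,
  ⟨⟨.ofNat 726, .ofNat 0⟩, ⟨⟨.ofNat 0, .ofNat 0⟩, ⟨.ofNat 0, .ofNat 0⟩, ⟨.negSucc 6, .ofNat 0⟩, ⟨.ofNat 10, .ofNat 0⟩⟩⟩,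
  ⟨⟨.negSucc 897, .ofNat 0⟩, ⟨⟨.negSucc 2, .ofNat 0⟩, ⟨.negSucc 2, .ofNat 0⟩, ⟨.negSucc 2, .ofNat 0⟩, ⟨.ofNat 10, .ofNat 0⟩⟩⟩,
  ⟨⟨.ofNat 11793, .ofNat 0⟩, ⟨⟨.ofNat 3, .negSucc 1⟩, ⟨.ofNat 0, .ofNat 0⟩, ⟨.ofNat 3, .negSucc 1⟩, ⟨.ofNat 1, .ofNat 0⟩⟩⟩,
  ⟨⟨.negSucc 2283, .ofNat 0⟩, ⟨⟨.negSucc 6, .ofNat 0⟩, ⟨.ofNat 0, .ofNat 0⟩, ⟨.negSucc 6, .ofNat 0⟩, ⟨.ofNat 20, .ofNat 0⟩⟩⟩,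
  ⟨⟨.negSucc 2792, .ofNat 0⟩, ⟨⟨.negSucc 1, .ofNat 0⟩, ⟨.ofNat 0, .ofNat 0⟩, ⟨.negSucc 1, .ofNat 0⟩, ⟨.ofNat 5, .ofNat 0⟩⟩⟩,
  ⟨⟨.negSucc 599, .ofNat 0⟩, ⟨⟨.ofNat 0, .ofNat 0⟩, ⟨.negSucc 0, .ofNat 0⟩, ⟨.ofNat 0, .ofNat 0⟩, ⟨.ofNat 20, .ofNat 0⟩⟩⟩,
  ⟨⟨.negSucc 134, .ofNat 0⟩, ⟨⟨.ofNat 0, .ofNat 0⟩, ⟨.negSucc 2, .ofNat 0⟩, ⟨.ofNat 0, .ofNat 0⟩, ⟨.ofNat 10, .ofNat 0⟩⟩⟩,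
  ⟨⟨.ofNat 726, .ofNat 0⟩, ⟨⟨.ofNat 0, .ofNat 0⟩, ⟨.negSucc 6, .ofNat 0⟩, ⟨.ofNat 0, .ofNat 0⟩, ⟨.ofNat 10, .ofNat 0⟩⟩⟩,
  ⟨⟨.negSucc 1112, .ofNat 0⟩, ⟨⟨.ofNat 0, .ofNat 0⟩, ⟨.ofNat 0, .ofNat 0⟩, ⟨.negSucc 16, .ofNat 0⟩, ⟨.ofNat 20, .ofNat 0⟩⟩⟩,
  ⟨⟨.negSucc 859, .ofNat 0⟩, ⟨⟨.negSucc 10, .ofNat 0⟩, ⟨.ofNat 0, .ofNat 0⟩, ⟨.ofNat 0, .ofNat 0⟩, ⟨.ofNat 20, .ofNat 0⟩⟩⟩,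
  ⟨⟨.ofNat 1440, .ofNat 0⟩, ⟨⟨.negSucc 6, .ofNat 0⟩, ⟨.ofNat 0, .ofNat 0⟩, ⟨.ofNat 0, .ofNat 0⟩, ⟨.ofNat 10, .ofNat 0⟩⟩⟩,
  ⟨⟨.ofNat 54491, .ofNat 0⟩, ⟨⟨.negSucc 1, .ofNat 1⟩, ⟨.ofNat 0, .ofNat 0⟩, ⟨.negSucc 1, .ofNat 1⟩, ⟨.ofNat 1, .ofNat 0⟩⟩⟩,
  ⟨⟨.negSucc 1112, .ofNat 0⟩, ⟨⟨.ofNat 0, .ofNat 0⟩, ⟨.negSucc 16, .ofNat 0⟩, ⟨.ofNat 0, .ofNat 0⟩, ⟨.ofNat 20, .ofNat 0⟩⟩⟩,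
  ⟨⟨.ofNat 54491, .ofNat 0⟩, ⟨⟨.negSucc 1, .ofNat 1⟩, ⟨.negSucc 1, .ofNat 1⟩, ⟨.ofNat 0, .ofNat 0⟩, ⟨.ofNat 1, .ofNat 0⟩⟩⟩]

/-- the terms -/
def ts : List Term := [⟨1, fbb, (v0.add v1), v2, v3⟩, ⟨1, fbb, (v0.add v2), v1, v3⟩, ⟨-1, fcc, v2, v0, v3⟩, ⟨-1, fcc, v1, v0, v3⟩]

theorem data : (PD lin H).okData ts v0 ⟨z0, z1, z1, z0⟩ v2 ⟨z1, z1, z1, z1⟩ = true := by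
  decide +kernel

end

end Pool.Agent.PHCert.D3
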