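import Pool.Agent.PHCert.D3H

/-!
# PHCert: inequality D3, part 1 (56 leaves, checked by the kernel)
-/

set_option autoImplicit false

namespace Pool.Agent.PHCert.D3

open Zp Pool.Agent.PHCert

noncomputable section

/-- part of a tree -/
def t0_1 : Tree := .s23 ⟨⟨.ofNat 1, .ofNat 0⟩, ⟨.ofNat 1, .ofNat 0⟩, ⟨.ofNat 0, .ofNat 1⟩, ⟨.ofNat 1, .ofNat 0⟩⟩ ⟨.negSucc 0, .ofNat 1⟩ ⟨.ofNat 0, .ofNat 1⟩ ⟨.negSucc 0, .ofNat 2⟩ 0 (.s13 ⟨⟨.ofNat 1, .ofNat 0⟩, ⟨.ofNat 0, .ofNat 1⟩, ⟨.ofNat 0, .ofNat 1⟩, ⟨.ofNat 1, .ofNat 0⟩⟩ ⟨.negSucc 0, .ofNat 1⟩ ⟨.ofNat 0, .ofNat 1⟩ ⟨.negSucc 0, .ofNat 2⟩ 0 (.s03 ⟨⟨.ofNat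 10, .ofNat 0⟩, ⟨.ofNat 7, .ofNat 0⟩, ⟨.ofNat 7, .ofNat 0⟩, ⟨.ofNat 7, .ofNat 0⟩⟩ ⟨.ofNat 0, .ofNat 3⟩ ⟨.ofNat 7, .negSucc 2⟩ ⟨.ofNat 1, .ofNat 0⟩ 0 (.leaf 0 [64, 47]) (.s02 ⟨⟨.ofNat 10, .ofNat 0⟩, ⟨.ofNat 7, .ofNat 0⟩, ⟨.negSucc 2, .ofNat 7⟩, ⟨.ofNat 7, .ofNat 0⟩⟩ ⟨.ofNat 0, .ofNat 3⟩ ⟨.ofNat 7, .negSucc 2⟩ ⟨.ofNat 1, .ofNat 0⟩ 0 (.leaf 0 [64, 47]) (.s01 ⟨⟨.ofNat 10, .ofNat 0⟩, ⟨.negSucc 2, .ofNat 7⟩, ⟨.negSucc 2, .ofNat 7⟩, ⟨.ofNat 7, .ofNat 0⟩⟩ ⟨.ofNat 0, .ofNat 3⟩ ⟨.ofNat 7, .negSucc 2⟩ ⟨.ofNat 1, .ofNat 0⟩ 0 (.leaf 0 [64, 47]) (.leaf 0 [])))) (.s12 ⟨⟨.negSucc 0, .ofNat 2⟩, ⟨.ofNat 2, .ofNat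 1⟩, ⟨.ofNat 3, .ofNat 1⟩, ⟨.negSucc 0, .ofNat 2⟩⟩ ⟨.negSucc 0, .ofNat 1⟩ ⟨.ofNat 0, .ofNat 1⟩ ⟨.ofNat 1, .ofNat 0⟩ 0 (.s02 ⟨⟨.ofNat 10, .ofNat 0⟩, ⟨.ofNat 7, .ofNat 0⟩, ⟨.negSucc 2, .ofNat 7⟩, ⟨.ofNat 7, .ofNat 0⟩⟩ ⟨.ofNat 0, .ofNat 3⟩ ⟨.ofNat 7, .negSucc 2⟩ ⟨.ofNat 1, .ofNat 0⟩ 0 (.leaf 0 [10, 64]) (.s03 ⟨⟨.ofNat 10, .ofNat 0⟩, ⟨.negSucc 2, .ofNat 7⟩, ⟨.negSucc 2, .ofNat 7⟩, ⟨.ofNat 7, .ofNat 0⟩⟩ ⟨.ofNat 0, .ofNat 3⟩ ⟨.ofNat 7, .negSucc 2⟩ ⟨.ofNat 1, .ofNat 0⟩ 0 (.leaf 0 [10, 64]) (.s01 ⟨⟨.ofNat 20, .ofNat 10⟩, ⟨.ofNat 1, .ofNat 18⟩, ⟨.negSucc 1, .ofNat 22⟩, ⟨.ofNat 14, .ofNat 7⟩⟩ ⟨.ofNat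 3, .ofNat 9⟩ ⟨.negSucc 2, .ofNat 4⟩ ⟨.ofNat 1, .ofNat 0⟩ 0 (.leaf 0 [19, 64]) (.leaf 0 [])))) (.s01 ⟨⟨.ofNat 17, .ofNat 4⟩, ⟨.negSucc 9, .ofNat 20⟩, ⟨.negSucc 9, .ofNat 20⟩, ⟨.negSucc 6, .ofNat 14⟩⟩ ⟨.ofNat 14, .ofNat 4⟩ ⟨.ofNat 0, .ofNat 3⟩ ⟨.ofNat 0, .ofNat 1⟩ 0 (.leaf 0 [61]) (.s03 ⟨⟨.ofNat 10, .ofNat 0⟩, ⟨.negSucc 2, .ofNat 7⟩, ⟨.negSucc 2, .ofNat 7⟩, ⟨.ofNat 7, .ofNat 0⟩⟩ ⟨.ofNat 0, .ofNat 3⟩ ⟨.ofNat 7, .negSucc 2⟩ ⟨.ofNat 1, .ofNat 0⟩ 0 (.leaf 0 [28, 31, 64]) (.s02 ⟨⟨.ofNat 20, .ofNat 10⟩, ⟨.ofNat 1, .ofNat 18⟩, ⟨.negSucc 1, .ofNat 22⟩, ⟨.ofNat 14, .ofNat 7⟩⟩ ⟨.ofNat 3, .ofNat 9⟩ ⟨.negSucc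 2, .ofNat 4⟩ ⟨.ofNat 1, .ofNat 0⟩ 0 (.leaf 0 [10, 64, 64]) (.leaf 0 [])))))) (.s13 ⟨⟨.negSucc 0, .ofNat 2⟩, ⟨.ofNat 2, .ofNat 1⟩, ⟨.ofNat 3, .ofNat 1⟩, ⟨.negSucc 0, .ofNat 2⟩⟩ ⟨.negSucc 0, .ofNat 1⟩ ⟨.ofNat 0, .ofNat 1⟩ ⟨.ofNat 1, .ofNat 0⟩ 0 (.s02 ⟨⟨.ofNat 17, .ofNat 4⟩, ⟨.negSucc 6, .ofNat 14⟩, ⟨.negSucc 9, .ofNat 20⟩, ⟨.negSucc 6, .ofNat 14⟩⟩ ⟨.ofNat 14, .ofNat 4⟩ ⟨.ofNat 0, .ofNat 3⟩ ⟨.ofNat 0, .ofNat 1⟩ 0 (.leaf 0 [61, 64]) (.s03 ⟨⟨.ofNat 10, .ofNat 0⟩, ⟨.ofNat 7, .ofNat 0⟩, ⟨.negSucc 2, .ofNat 7⟩, ⟨.ofNat 7, .ofNat 0⟩⟩ ⟨.ofNat 0, .ofNat 3⟩ ⟨.ofNat 7, .negSucc 2⟩ ⟨.ofNat 1, .ofNat 0⟩ 0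 (.leaf 0 [19, 64, 64]) (.s01 ⟨⟨.ofNat 20, .ofNat 10⟩, ⟨.ofNat 1, .ofNat 18⟩, ⟨.negSucc 1, .ofNat 22⟩, ⟨.ofNat 14, .ofNat 7⟩⟩ ⟨.ofNat 3, .ofNat 9⟩ ⟨.negSucc 2, .ofNat 4⟩ ⟨.ofNat 1, .ofNat 0⟩ 0 (.leaf 0 [19, 64, 64]) (.leaf 0 [])))) (.s12 ⟨⟨.ofNat 1, .ofNat 0⟩, ⟨.ofNat 0, .ofNat 1⟩, ⟨.ofNat 0, .ofNat 2⟩, ⟨.ofNat 1, .ofNat 0⟩⟩ ⟨.negSucc 0, .ofNat 1⟩ ⟨.ofNat 0, .ofNat 1⟩ ⟨.negSucc 0, .ofNat 2⟩ 0 (.s02 ⟨⟨.ofNat 17, .ofNat 4⟩, ⟨.negSucc 6, .ofNat 14⟩, ⟨.negSucc 9, .ofNat 20⟩, ⟨.negSucc 6, .ofNat 14⟩⟩ ⟨.ofNat 14, .ofNat 4⟩ ⟨.ofNat 0, .ofNat 3⟩ ⟨.ofNat 0, .ofNat 1⟩ 0 (.leaf 0 [53, 64]) (.s01 ⟨⟨.ofNat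 17, .ofNat 4⟩, ⟨.negSucc 9, .ofNat 17⟩, ⟨.negSucc 9, .ofNat 20⟩, ⟨.negSucc 6, .ofNat 14⟩⟩ ⟨.ofNat 14, .ofNat 4⟩ ⟨.ofNat 0, .ofNat 3⟩ ⟨.ofNat 0, .ofNat 1⟩ 0 (.leaf 0 [53, 64]) (.s03 ⟨⟨.ofNat 20, .ofNat 10⟩, ⟨.ofNat 1, .ofNat 18⟩, ⟨.negSucc 1, .ofNat 22⟩, ⟨.ofNat 14, .ofNat 7⟩⟩ ⟨.ofNat 3, .ofNat 9⟩ ⟨.negSucc 2, .ofNat 4⟩ ⟨.ofNat 1, .ofNat 0⟩ 0 (.leaf 0 [0, 61, 64]) (.leaf 0 [])))) (.s02 ⟨⟨.ofNat 17, .ofNat 4⟩, ⟨.negSucc 9, .ofNat 17⟩, ⟨.negSucc 9, .ofNat 20⟩, ⟨.negSucc 6, .ofNat 14⟩⟩ ⟨.ofNat 14, .ofNat 4⟩ ⟨.ofNat 0, .ofNat 3⟩ ⟨.ofNat 0, .ofNat 1⟩ 0 (.leaf 0 [11, 64]) (.s01 ⟨⟨.ofNat 17, .ofNat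 4⟩, ⟨.negSucc 9, .ofNat 20⟩, ⟨.negSucc 9, .ofNat 20⟩, ⟨.negSucc 6, .ofNat 14⟩⟩ ⟨.ofNat 14, .ofNat 4⟩ ⟨.ofNat 0, .ofNat 3⟩ ⟨.ofNat 0, .ofNat 1⟩ 0 (.leaf 0 [11, 64]) (.s03 ⟨⟨.ofNat 20, .ofNat 10⟩, ⟨.ofNat 1, .ofNat 18⟩, ⟨.negSucc 1, .ofNat 22⟩, ⟨.ofNat 14, .ofNat 7⟩⟩ ⟨.ofNat 3, .ofNat 9⟩ ⟨.negSucc 2, .ofNat 4⟩ ⟨.ofNat 1, .ofNat 0⟩ 0 (.leaf 0 [0, 57, 64]) (.leaf 0 []))))))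

/-- part of a tree -/
def t0_0 : Tree := .s23 ⟨⟨.ofNat 1, .ofNat 0⟩, ⟨.ofNat 1, .ofNat 0⟩, ⟨.ofNat 0, .ofNat 2⟩, ⟨.ofNat 1, .ofNat 0⟩⟩ ⟨.negSucc 0, .ofNat 2⟩ ⟨.ofNat 1, .ofNat 0⟩ ⟨.ofNat 1, .ofNat 0⟩ 0 t0_1 (.s02 ⟨⟨.ofNat 0, .ofNat 1⟩, ⟨.ofNat 1, .ofNat 0⟩, ⟨.ofNat 1, .ofNat 1⟩, ⟨.ofNat 1, .ofNat 0⟩⟩ ⟨.ofNat 1, .ofNat 0⟩ ⟨.ofNat 0, .ofNat 1⟩ ⟨.ofNat 1, .ofNat 0⟩ 0 (.s13 ⟨⟨.ofNat 1, .ofNat 0⟩, ⟨.ofNat 0, .ofNat 1⟩, ⟨.ofNat 0, .ofNat 2⟩, ⟨.ofNat 1, .ofNat 0⟩⟩ ⟨.negSucc 0, .ofNat 1⟩ ⟨.ofNat 0, .ofNat 1⟩ ⟨.negSucc 0, .ofNat 2⟩ 0 (.leaf 0 [64, 49]) (.leaf 0 [7, 17])) (.s13 ⟨⟨.ofNat 1, .ofNat 0⟩,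 ⟨.ofNat 0, .ofNat 1⟩, ⟨.ofNat 0, .ofNat 2⟩, ⟨.ofNat 1, .ofNat 0⟩⟩ ⟨.negSucc 0, .ofNat 1⟩ ⟨.ofNat 0, .ofNat 1⟩ ⟨.negSucc 0, .ofNat 2⟩ 0 (.s03 ⟨⟨.ofNat 17, .ofNat 4⟩, ⟨.negSucc 6, .ofNat 14⟩, ⟨.negSucc 9, .ofNat 20⟩, ⟨.negSucc 6, .ofNat 14⟩⟩ ⟨.ofNat 14, .ofNat 4⟩ ⟨.ofNat 0, .ofNat 3⟩ ⟨.ofNat 0, .ofNat 1⟩ 0 (.leaf 0 [64, 49]) (.s01 ⟨⟨.ofNat 17, .ofNat 4⟩, ⟨.negSucc 9, .ofNat 17⟩, ⟨.negSucc 9, .ofNat 20⟩, ⟨.negSucc 6, .ofNat 14⟩⟩ ⟨.ofNat 14, .ofNat 4⟩ ⟨.ofNat 0, .ofNat 3⟩ ⟨.ofNat 0, .ofNat 1⟩ 0 (.leaf 0 [64, 49]) (.s02 ⟨⟨.ofNat 0, .ofNat 7⟩, ⟨.ofNat 7, .ofNat 0⟩, ⟨.ofNat 10, .ofNat 0⟩, ⟨.ofNat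 7, .ofNat 0⟩⟩ ⟨.negSucc 2, .ofNat 7⟩ ⟨.ofNat 3, .ofNat 0⟩ ⟨.ofNat 0, .ofNat 1⟩ 0 (.leaf 0 []) (.leaf 0 [])))) (.s03 ⟨⟨.ofNat 17, .ofNat 4⟩, ⟨.negSucc 9, .ofNat 17⟩, ⟨.negSucc 9, .ofNat 20⟩, ⟨.negSucc 6, .ofNat 14⟩⟩ ⟨.ofNat 14, .ofNat 4⟩ ⟨.ofNat 0, .ofNat 3⟩ ⟨.ofNat 0, .ofNat 1⟩ 0 (.leaf 0 [7, 17]) (.s01 ⟨⟨.ofNat 17, .ofNat 4⟩, ⟨.negSucc 9, .ofNat 20⟩, ⟨.negSucc 9, .ofNat 20⟩, ⟨.negSucc 6, .ofNat 14⟩⟩ ⟨.ofNat 14, .ofNat 4⟩ ⟨.ofNat 0, .ofNat 3⟩ ⟨.ofNat 0, .ofNat 1⟩ 0 (.leaf 0 [0, 6]) (.s02 ⟨⟨.ofNat 0, .ofNat 7⟩, ⟨.ofNat 7, .ofNat 0⟩, ⟨.ofNat 10, .ofNat 0⟩, ⟨.ofNat 7, .ofNat 0⟩⟩ ⟨.negSucc 2, .ofNat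 7⟩ ⟨.ofNat 3, .ofNat 0⟩ ⟨.ofNat 0, .ofNat 1⟩ 0 (.leaf 0 []) (.leaf 0 []))))))

/-- part of a tree -/
def t0 : Tree := .s13 ⟨⟨.ofNat 1, .ofNat 0⟩, ⟨.ofNat 0, .ofNat 2⟩, ⟨.ofNat 0, .ofNat 2⟩, ⟨.ofNat 1, .ofNat 0⟩⟩ ⟨.negSucc 0, .ofNat 2⟩ ⟨.ofNat 1, .ofNat 0⟩ ⟨.ofNat 1, .ofNat 0⟩ 0 t0_0 (.s01 ⟨⟨.ofNat 1, .ofNat 0⟩, ⟨.ofNat 0, .ofNat 1⟩, ⟨.ofNat 0, .ofNat 1⟩, ⟨.negSucc 0, .ofNat 1⟩⟩ ⟨.ofNat 1, .ofNat 0⟩ ⟨.ofNat 0, .ofNat 1⟩ ⟨.ofNat 0, .ofNat 1⟩ 0 (.leaf 0 [45]) (.s02 ⟨⟨.ofNat 0, .ofNat 1⟩, ⟨.ofNat 1, .ofNat 0⟩, ⟨.ofNat 1, .ofNat 1⟩, ⟨.ofNat 1, .ofNat 0⟩⟩ ⟨.ofNat 1, .ofNat 0⟩ ⟨.ofNat 0, .ofNat 1⟩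 ⟨.ofNat 1, .ofNat 0⟩ 0 (.leaf 0 [0, 6]) (.s03 ⟨⟨.ofNat 17, .ofNat 4⟩, ⟨.negSucc 9, .ofNat 20⟩, ⟨.negSucc 9, .ofNat 20⟩, ⟨.negSucc 6, .ofNat 14⟩⟩ ⟨.ofNat 14, .ofNat 4⟩ ⟨.ofNat 0, .ofNat 3⟩ ⟨.ofNat 0, .ofNat 1⟩ 0 (.leaf 0 [0, 6]) (.s01 ⟨⟨.ofNat 0, .ofNat 7⟩, ⟨.ofNat 10, .ofNat 0⟩, ⟨.ofNat 10, .ofNat 0⟩, ⟨.ofNat 7, .ofNat 0⟩⟩ ⟨.negSucc 2, .ofNat 7⟩ ⟨.ofNat 0, .ofNat 3⟩ ⟨.ofNat 0, .ofNat 1⟩ 0 (.leaf 0 [25]) (.s02 ⟨⟨.ofNat 0, .ofNat 7⟩, ⟨.ofNat 7, .ofNat 0⟩, ⟨.ofNat 10, .ofNat 0⟩, ⟨.ofNat 7, .ofNat 0⟩⟩ ⟨.negSucc 2, .ofNat 7⟩ ⟨.ofNat 3, .ofNat 0⟩ ⟨.ofNat 0, .ofNat 1⟩ 0 (.leaf 0 []) (.leaf 0 []))))))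

theorem g0 : Good (PD lin H) ⟨⟨.ofNat 0, .ofNat 1⟩, ⟨.ofNat 1, .ofNat 0⟩, ⟨.ofNat 1, .ofNat 0⟩, ⟨.ofNat 1, .ofNat 0⟩⟩
    ⟨⟨.ofNat 0, .ofNat 0⟩, ⟨.ofNat 1, .ofNat 0⟩, ⟨.ofNat 1, .ofNat 0⟩, ⟨.ofNat 0, .ofNat 0⟩⟩
    ⟨⟨.ofNat 0, .ofNat 0⟩, ⟨.ofNat 0, .ofNat 0⟩, ⟨.ofNat 1, .ofNat 0⟩, ⟨.ofNat 0, .ofNat 0⟩⟩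
    ⟨⟨.ofNat 1, .ofNat 0⟩, ⟨.ofNat 1, .ofNat 0⟩, ⟨.ofNat 1, .ofNat 0⟩, ⟨.ofNat 1, .ofNat 0⟩⟩ :=
  goodD lin H t0 (by decide +kernel)

/-- part of a tree -/
def t1_0 : Tree := .s13 ⟨⟨.ofNat 1, .ofNat 0⟩, ⟨.ofNat 0, .ofNat 1⟩, ⟨.ofNat 0, .ofNat 1⟩, ⟨.negSucc 0, .ofNat 1⟩⟩ ⟨.ofNat 0, .ofNat 1⟩ ⟨.ofNat 1, .ofNat 0⟩ ⟨.ofNat 0, .ofNat 1⟩ 0 (.s23 ⟨⟨.ofNat 0, .ofNat 1⟩, ⟨.ofNat 1, .ofNat 0⟩, ⟨.ofNat 1, .ofNat 1⟩, ⟨.ofNat 1, .ofNat 0⟩⟩ ⟨.ofNat 0, .ofNat 1⟩ ⟨.ofNat 1, .ofNat 0⟩ ⟨.ofNat 1, .ofNat 0⟩ 0 (.s13 ⟨⟨.ofNat 0, .ofNat 7⟩, ⟨.ofNat 10, .ofNat 0⟩, ⟨.ofNat 10, .ofNat 0⟩, ⟨.ofNat 7, .ofNat 0⟩⟩ ⟨.ofNat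 0, .ofNat 3⟩ ⟨.negSucc 2, .ofNat 7⟩ ⟨.ofNat 0, .ofNat 1⟩ 0 (.s23 ⟨⟨.ofNat 0, .ofNat 7⟩, ⟨.ofNat 7, .ofNat 0⟩, ⟨.ofNat 10, .ofNat 0⟩, ⟨.ofNat 7, .ofNat 0⟩⟩ ⟨.ofNat 3, .ofNat 0⟩ ⟨.negSucc 2, .ofNat 7⟩ ⟨.ofNat 0, .ofNat 1⟩ 0 (.leaf 0 []) (.leaf 0 [29])) (.s02 ⟨⟨.negSucc 2, .ofNat 14⟩, ⟨.ofNat 7, .ofNat 0⟩, ⟨.ofNat 10, .ofNat 0⟩, ⟨.ofNat 7, .ofNat 0⟩⟩ ⟨.negSucc 2, .ofNat 7⟩ ⟨.ofNat 3, .ofNat 0⟩ ⟨.ofNat 0, .ofNat 1⟩ 0 (.leaf 0 [25]) (.s01 ⟨⟨.negSucc 2, .ofNat 14⟩, ⟨.ofNat 10, .ofNat 0⟩, ⟨.ofNat 10, .ofNat 0⟩, ⟨.ofNat 7, .ofNat 0⟩⟩ ⟨.negSucc 2, .ofNat 7⟩ ⟨.ofNat 0, .ofNat 3⟩ ⟨.ofNat 0, .ofNat 1⟩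 0 (.leaf 0 [20]) (.leaf 0 [])))) (.s02 ⟨⟨.ofNat 0, .ofNat 14⟩, ⟨.ofNat 7, .ofNat 0⟩, ⟨.ofNat 10, .ofNat 0⟩, ⟨.ofNat 7, .ofNat 0⟩⟩ ⟨.ofNat 7, .ofNat 0⟩ ⟨.ofNat 3, .ofNat 0⟩ ⟨.ofNat 1, .ofNat 0⟩ 0 (.leaf 0 [25]) (.s03 ⟨⟨.negSucc 2, .ofNat 14⟩, ⟨.ofNat 7, .ofNat 0⟩, ⟨.ofNat 10, .ofNat 0⟩, ⟨.ofNat 7, .ofNat 0⟩⟩ ⟨.negSucc 2, .ofNat 7⟩ ⟨.ofNat 3, .ofNat 0⟩ ⟨.ofNat 0, .ofNat 1⟩ 0 (.leaf 0 [25]) (.s01 ⟨⟨.negSucc 2, .ofNat 14⟩, ⟨.ofNat 10, .ofNat 0⟩, ⟨.ofNat 10, .ofNat 0⟩, ⟨.ofNat 7, .ofNat 0⟩⟩ ⟨.negSucc 2, .ofNat 7⟩ ⟨.ofNat 0, .ofNat 3⟩ ⟨.ofNat 0, .ofNat 1⟩ 0 (.leaf 0 [25]) (.leaf 0 []))))) (.s02 ⟨⟨.ofNat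 0, .ofNat 14⟩, ⟨.ofNat 7, .ofNat 0⟩, ⟨.ofNat 10, .ofNat 0⟩, ⟨.ofNat 7, .ofNat 0⟩⟩ ⟨.ofNat 7, .ofNat 0⟩ ⟨.ofNat 3, .ofNat 0⟩ ⟨.ofNat 1, .ofNat 0⟩ 0 (.leaf 0 [0]) (.s01 ⟨⟨.ofNat 0, .ofNat 14⟩, ⟨.ofNat 10, .ofNat 0⟩, ⟨.ofNat 10, .ofNat 0⟩, ⟨.ofNat 7, .ofNat 0⟩⟩ ⟨.ofNat 7, .ofNat 0⟩ ⟨.ofNat 3, .ofNat 0⟩ ⟨.ofNat 1, .ofNat 0⟩ 0 (.leaf 0 [0]) (.s03 ⟨⟨.negSucc 2, .ofNat 14⟩, ⟨.ofNat 10, .ofNat 0⟩, ⟨.ofNat 10, .ofNat 0⟩, ⟨.ofNat 7, .ofNat 0⟩⟩ ⟨.negSucc 2, .ofNat 7⟩ ⟨.ofNat 0, .ofNat 3⟩ ⟨.ofNat 0, .ofNat 1⟩ 0 (.leaf 0 [25]) (.leaf 0 []))))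

/-- part of a tree -/
def t1 : Tree := .s03 ⟨⟨.ofNat 0, .ofNat 2⟩, ⟨.ofNat 1, .ofNat 0⟩, ⟨.ofNat 1, .ofNat 0⟩, ⟨.ofNat 1, .ofNat 0⟩⟩ ⟨.ofNat 0, .ofNat 1⟩ ⟨.ofNat 1, .ofNat 0⟩ ⟨.ofNat 1, .ofNat 0⟩ 0 t1_0 (.s23 ⟨⟨.ofNat 0, .ofNat 14⟩, ⟨.ofNat 7, .ofNat 0⟩, ⟨.ofNat 10, .ofNat 0⟩, ⟨.ofNat 7, .ofNat 0⟩⟩ ⟨.ofNat 3, .ofNat 0⟩ ⟨.ofNat 7, .ofNat 0⟩ ⟨.ofNat 1, .ofNat 0⟩ 0 (.s13 ⟨⟨.ofNat 0, .ofNat 14⟩, ⟨.ofNat 10, .ofNat 0⟩, ⟨.ofNat 10, .ofNat 0⟩, ⟨.ofNat 7, .ofNat 0⟩⟩ ⟨.ofNat 3, .ofNat 0⟩ ⟨.ofNat 7, .ofNat 0⟩ ⟨.ofNat 1, .ofNat 0⟩ 0 (.leaf 0 []) (.leaf 0 [0])) (.leaf 0 [0]))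

theorem g1 : Good (PD lin H) ⟨⟨.ofNat 1, .ofNat 0⟩, ⟨.ofNat 0, .ofNat 0⟩, ⟨.ofNat 0, .ofNat 0⟩, ⟨.ofNat 0, .ofNat 0⟩⟩
    ⟨⟨.ofNat 0, .ofNat 0⟩, ⟨.ofNat 1, .ofNat 0⟩, ⟨.ofNat 1, .ofNat 0⟩, ⟨.ofNat 0, .ofNat 0⟩⟩
    ⟨⟨.ofNat 0, .ofNat 0⟩, ⟨.ofNat 0, .ofNat 0⟩, ⟨.ofNat 1, .ofNat 0⟩, ⟨.ofNat 0, .ofNat 0⟩⟩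
    ⟨⟨.ofNat 0, .ofNat 1⟩, ⟨.ofNat 1, .ofNat 0⟩, ⟨.ofNat 1, .ofNat 0⟩, ⟨.ofNat 1, .ofNat 0⟩⟩ :=
  goodD lin H t1 (by decide +kernel)

end

end Pool.Agent.PHCert.D3
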