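import Pool.Agent.PHCert.D4H

/-!
# PHCert: inequality D4, part 1 (44 leaves, checked by the kernel)
-/

set_option autoImplicit false

namespace Pool.Agent.PHCert.D4

open Zp Pool.Agent.PHCert

noncomputable section

/-- part of a tree -/
def t0_5 : Tree := .s23 ⟨⟨.ofNat 1, .ofNat 0⟩, ⟨.ofNat 2, .ofNat 0⟩, ⟨.ofNat 0, .ofNat 1⟩, ⟨.ofNat 1, .ofNat 0⟩⟩ ⟨.ofNat 1, .ofNat 0⟩ ⟨.ofNat 2, .ofNat 1⟩ ⟨.ofNat 3, .ofNat 1⟩ 0 (.s03 ⟨⟨.ofNat 0, .ofNat 1⟩, ⟨.ofNat 2, .ofNat 0⟩, ⟨.ofNat 1, .ofNat 0⟩, ⟨.ofNat 1, .ofNat 0⟩⟩ ⟨.ofNat 1, .ofNat 0⟩ ⟨.ofNat 2, .ofNat 1⟩ ⟨.ofNat 3, .ofNat 1⟩ 0 (.s13 ⟨⟨.ofNat 2, .ofNat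 0⟩, ⟨.ofNat 5, .ofNat 0⟩, ⟨.ofNat 2, .ofNat 0⟩, ⟨.ofNat 2, .ofNat 0⟩⟩ ⟨.ofNat 0, .ofNat 1⟩ ⟨.ofNat 6, .ofNat 1⟩ ⟨.ofNat 3, .ofNat 1⟩ 0 (.leaf 0 [4, 64, 64]) (.s12 ⟨⟨.ofNat 6, .ofNat 2⟩, ⟨.ofNat 15, .ofNat 5⟩, ⟨.ofNat 1, .ofNat 8⟩, ⟨.ofNat 6, .ofNat 2⟩⟩ ⟨.ofNat 0, .ofNat 1⟩ ⟨.ofNat 6, .ofNat 1⟩ ⟨.ofNat 1, .ofNat 0⟩ 0 (.leaf 0 [18, 60]) (.leaf 0 [64, 8, 44]))) (.s12 ⟨⟨.ofNat 6, .ofNat 2⟩, ⟨.ofNat 15, .ofNat 5⟩, ⟨.ofNat 1, .ofNat 8⟩, ⟨.ofNat 6, .ofNat 2⟩⟩ ⟨.ofNat 0, .ofNat 1⟩ ⟨.ofNat 6, .ofNat 1⟩ ⟨.ofNat 1, .ofNat 0⟩ 0 (.s01 ⟨⟨.negSucc 2, .ofNat 17⟩, ⟨.negSucc 2, .ofNat 35⟩, ⟨.ofNat 16, .ofNat 10⟩,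 ⟨.negSucc 0, .ofNat 14⟩⟩ ⟨.ofNat 1, .ofNat 0⟩ ⟨.negSucc 0, .ofNat 2⟩ ⟨.ofNat 1, .ofNat 0⟩ 0 (.leaf 0 [12]) (.leaf 0 [64, 20])) (.s01 ⟨⟨.ofNat 0, .ofNat 1⟩, ⟨.ofNat 1, .ofNat 2⟩, ⟨.ofNat 1, .ofNat 0⟩, ⟨.ofNat 1, .ofNat 0⟩⟩ ⟨.ofNat 1, .ofNat 0⟩ ⟨.ofNat 2, .ofNat 1⟩ ⟨.ofNat 3, .ofNat 1⟩ 0 (.leaf 0 [64, 2, 0]) (.s02 ⟨⟨.negSucc 2, .ofNat 17⟩, ⟨.negSucc 2, .ofNat 35⟩, ⟨.ofNat 16, .ofNat 10⟩, ⟨.negSucc 0, .ofNat 14⟩⟩ ⟨.ofNat 1, .ofNat 0⟩ ⟨.negSucc 0, .ofNat 2⟩ ⟨.ofNat 1, .ofNat 0⟩ 0 (.leaf 0 [64, 17]) (.leaf 0 [64, 17, 64]))))) (.s13 ⟨⟨.ofNat 6, .ofNat 2⟩, ⟨.ofNat 15, .ofNat 5⟩, ⟨.ofNat 1, .ofNat 8⟩,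 ⟨.ofNat 6, .ofNat 2⟩⟩ ⟨.ofNat 0, .ofNat 1⟩ ⟨.ofNat 6, .ofNat 1⟩ ⟨.ofNat 1, .ofNat 0⟩ 0 (.s12 ⟨⟨.ofNat 15, .negSucc 0⟩, ⟨.ofNat 38, .negSucc 2⟩, ⟨.negSucc 0, .ofNat 14⟩, ⟨.ofNat 15, .negSucc 0⟩⟩ ⟨.negSucc 0, .ofNat 2⟩ ⟨.ofNat 1, .ofNat 0⟩ ⟨.ofNat 0, .ofNat 1⟩ 0 (.leaf 0 [64, 25]) (.s01 ⟨⟨.negSucc 2, .ofNat 17⟩, ⟨.negSucc 2, .ofNat 35⟩, ⟨.ofNat 16, .ofNat 10⟩, ⟨.negSucc 0, .ofNat 14⟩⟩ ⟨.ofNat 1, .ofNat 0⟩ ⟨.negSucc 0, .ofNat 2⟩ ⟨.ofNat 1, .ofNat 0⟩ 0 (.leaf 0 [12]) (.leaf 0 [64, 20]))) (.s12 ⟨⟨.ofNat 1, .ofNat 0⟩, ⟨.ofNat 1, .ofNat 2⟩, ⟨.ofNat 0, .ofNat 1⟩, ⟨.ofNat 1, .ofNat 0⟩⟩ ⟨.ofNat 2, .ofNat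 1⟩ ⟨.ofNat 1, .ofNat 0⟩ ⟨.ofNat 3, .ofNat 1⟩ 0 (.s23 ⟨⟨.ofNat 15, .negSucc 0⟩, ⟨.ofNat 38, .negSucc 2⟩, ⟨.negSucc 0, .ofNat 14⟩, ⟨.ofNat 15, .negSucc 0⟩⟩ ⟨.ofNat 1, .ofNat 0⟩ ⟨.negSucc 0, .ofNat 2⟩ ⟨.ofNat 0, .ofNat 1⟩ 0 (.s03 ⟨⟨.negSucc 2, .ofNat 17⟩, ⟨.negSucc 2, .ofNat 35⟩, ⟨.ofNat 16, .ofNat 10⟩, ⟨.negSucc 0, .ofNat 14⟩⟩ ⟨.ofNat 1, .ofNat 0⟩ ⟨.negSucc 0, .ofNat 2⟩ ⟨.ofNat 1, .ofNat 0⟩ 0 (.leaf 0 [58, 0]) (.leaf 0 [58, 0, 64])) (.leaf 0 [58, 0, 64, 0])) (.s01 ⟨⟨.ofNat 0, .ofNat 1⟩, ⟨.ofNat 1, .ofNat 2⟩, ⟨.ofNat 1, .ofNat 0⟩, ⟨.ofNat 1, .ofNat 0⟩⟩ ⟨.ofNat 1, .ofNat 0⟩ ⟨.ofNat 2, .ofNat 1⟩ ⟨.ofNat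 3, .ofNat 1⟩ 0 (.leaf 0 [58, 64]) (.s03 ⟨⟨.negSucc 2, .ofNat 17⟩, ⟨.negSucc 2, .ofNat 35⟩, ⟨.ofNat 16, .ofNat 10⟩, ⟨.negSucc 0, .ofNat 14⟩⟩ ⟨.ofNat 1, .ofNat 0⟩ ⟨.negSucc 0, .ofNat 2⟩ ⟨.ofNat 1, .ofNat 0⟩ 0 (.leaf 0 [58, 0]) (.leaf 0 [54, 0, 64])))))

/-- part of a tree -/
def t0_4 : Tree := .s12 ⟨⟨.ofNat 1, .ofNat 0⟩, ⟨.ofNat 2, .ofNat 0⟩, ⟨.negSucc 0, .ofNat 3⟩, ⟨.ofNat 1, .ofNat 0⟩⟩ ⟨.ofNat 1, .ofNat 0⟩ ⟨.negSucc 1, .ofNat 3⟩ ⟨.negSucc 0, .ofNat 3⟩ 0 (.s23 ⟨⟨.negSucc 0, .ofNat 3⟩, ⟨.negSucc 0, .ofNat 5⟩, ⟨.ofNat 3, .ofNat 2⟩, ⟨.negSucc 0, .ofNat 3⟩⟩ ⟨.negSucc 0, .ofNat 1⟩ ⟨.ofNat 0, .ofNat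 2⟩ ⟨.ofNat 1, .ofNat 0⟩ 0 (.s03 ⟨⟨.ofNat 0, .ofNat 1⟩, ⟨.ofNat 2, .ofNat 0⟩, ⟨.ofNat 1, .ofNat 0⟩, ⟨.ofNat 1, .ofNat 0⟩⟩ ⟨.ofNat 1, .ofNat 0⟩ ⟨.ofNat 2, .ofNat 1⟩ ⟨.ofNat 3, .ofNat 1⟩ 0 (.s13 ⟨⟨.ofNat 1, .ofNat 0⟩, ⟨.ofNat 2, .ofNat 0⟩, ⟨.ofNat 0, .ofNat 1⟩, ⟨.ofNat 1, .ofNat 0⟩⟩ ⟨.ofNat 1, .ofNat 0⟩ ⟨.ofNat 2, .ofNat 1⟩ ⟨.ofNat 3, .ofNat 1⟩ 0 (.leaf 0 [9, 64, 64]) (.leaf 0 [39])) (.leaf 0 [64, 15])) (.leaf 0 [64, 29])) t0_5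

/-- part of a tree -/
def t0_3 : Tree := .s01 ⟨⟨.negSucc 0, .ofNat 3⟩, ⟨.ofNat 2, .ofNat 0⟩, ⟨.ofNat 1, .ofNat 0⟩, ⟨.ofNat 1, .ofNat 0⟩⟩ ⟨.negSucc 1, .ofNat 3⟩ ⟨.ofNat 1, .ofNat 0⟩ ⟨.negSucc 0, .ofNat 3⟩ 0 t0_4 (.s03 ⟨⟨.ofNat 3, .ofNat 2⟩, ⟨.negSucc 0, .ofNat 5⟩, ⟨.negSucc 0, .ofNat 3⟩, ⟨.negSucc 0, .ofNat 3⟩⟩ ⟨.negSucc 0, .ofNat 1⟩ ⟨.ofNat 0, .ofNat 2⟩ ⟨.ofNat 1, .ofNat 0⟩ 0 (.s23 ⟨⟨.negSucc 0, .ofNat 3⟩, ⟨.negSucc 0, .ofNat 5⟩, ⟨.ofNat 3, .ofNat 2⟩, ⟨.negSucc 0, .ofNat 3⟩⟩ ⟨.negSucc 0, .ofNat 1⟩ ⟨.ofNat 0, .ofNat 2⟩ ⟨.ofNat 1, .ofNat 0⟩ 0 (.s13 ⟨⟨.ofNat 0, .ofNat 1⟩, ⟨.ofNat 2, .ofNat 0⟩, ⟨.ofNat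 1, .ofNat 0⟩, ⟨.ofNat 1, .ofNat 0⟩⟩ ⟨.ofNat 1, .ofNat 0⟩ ⟨.ofNat 2, .ofNat 1⟩ ⟨.ofNat 3, .ofNat 1⟩ 0 (.leaf 0 [11, 64, 64]) (.leaf 0 [64, 15])) (.leaf 0 [64, 29])) (.leaf 0 [64, 13]))

/-- part of a tree -/
def t0_2 : Tree := .s13 ⟨⟨.ofNat 1, .ofNat 0⟩, ⟨.ofNat 2, .ofNat 0⟩, ⟨.ofNat 1, .ofNat 0⟩, ⟨.ofNat 1, .ofNat 0⟩⟩ ⟨.ofNat 1, .ofNat 0⟩ ⟨.negSucc 1, .ofNat 3⟩ ⟨.negSucc 0, .ofNat 3⟩ 0 (.s03 ⟨⟨.negSucc 0, .ofNat 2⟩, ⟨.ofNat 1, .ofNat 0⟩, ⟨.ofNat 1, .ofNat 0⟩, ⟨.ofNat 1, .ofNat 0⟩⟩ ⟨.ofNat 2, .ofNat 0⟩ ⟨.ofNat 1, .ofNat 2⟩ ⟨.ofNat 3, .ofNat 2⟩ 0 (.s23 ⟨⟨.ofNat 1, .ofNat 0⟩, ⟨.ofNat 1, .ofNat 0⟩,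 ⟨.ofNat 0, .ofNat 1⟩, ⟨.ofNat 1, .ofNat 0⟩⟩ ⟨.negSucc 0, .ofNat 1⟩ ⟨.ofNat 0, .ofNat 2⟩ ⟨.negSucc 0, .ofNat 3⟩ 0 (.s03 ⟨⟨.ofNat 0, .ofNat 1⟩, ⟨.ofNat 1, .ofNat 0⟩, ⟨.ofNat 1, .ofNat 0⟩, ⟨.ofNat 1, .ofNat 0⟩⟩ ⟨.ofNat 1, .ofNat 0⟩ ⟨.ofNat 1, .ofNat 0⟩ ⟨.ofNat 2, .ofNat 0⟩ 0 (.leaf 0 [10]) (.s01 ⟨⟨.ofNat 0, .ofNat 2⟩, ⟨.ofNat 3, .ofNat 0⟩, ⟨.ofNat 2, .ofNat 0⟩, ⟨.ofNat 2, .ofNat 0⟩⟩ ⟨.ofNat 1, .ofNat 0⟩ ⟨.ofNat 1, .ofNat 0⟩ ⟨.ofNat 1, .ofNat 0⟩ 0 (.leaf 0 [10]) (.leaf 0 []))) (.s12 ⟨⟨.negSucc 0, .ofNat 3⟩, ⟨.negSucc 0, .ofNat 5⟩, ⟨.ofNat 3, .ofNat 2⟩, ⟨.negSucc 0, .ofNat 3⟩⟩ ⟨.ofNat 0, .ofNat 2⟩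 ⟨.negSucc 0, .ofNat 1⟩ ⟨.ofNat 1, .ofNat 0⟩ 0 (.s23 ⟨⟨.ofNat 1, .ofNat 0⟩, ⟨.ofNat 1, .ofNat 0⟩, ⟨.negSucc 0, .ofNat 2⟩, ⟨.ofNat 1, .ofNat 0⟩⟩ ⟨.ofNat 2, .negSucc 0⟩ ⟨.ofNat 0, .ofNat 1⟩ ⟨.ofNat 2, .ofNat 0⟩ 0 (.leaf 0 [63]) (.leaf 0 [])) (.s01 ⟨⟨.ofNat 0, .ofNat 2⟩, ⟨.ofNat 3, .ofNat 0⟩, ⟨.ofNat 2, .ofNat 0⟩, ⟨.ofNat 2, .ofNat 0⟩⟩ ⟨.ofNat 1, .ofNat 0⟩ ⟨.ofNat 1, .ofNat 0⟩ ⟨.ofNat 1, .ofNat 0⟩ 0 (.leaf 0 [64, 10]) (.leaf 0 [63])))) (.s01 ⟨⟨.ofNat 3, .ofNat 2⟩, ⟨.negSucc 0, .ofNat 5⟩, ⟨.negSucc 0, .ofNat 3⟩, ⟨.negSucc 0, .ofNat 3⟩⟩ ⟨.negSucc 0, .ofNat 1⟩ ⟨.ofNat 0, .ofNat 2⟩ ⟨.ofNat 1, .ofNat 0⟩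 0 (.s12 ⟨⟨.negSucc 0, .ofNat 3⟩, ⟨.negSucc 0, .ofNat 5⟩, ⟨.ofNat 3, .ofNat 2⟩, ⟨.negSucc 0, .ofNat 3⟩⟩ ⟨.ofNat 0, .ofNat 2⟩ ⟨.negSucc 0, .ofNat 1⟩ ⟨.ofNat 1, .ofNat 0⟩ 0 (.leaf 0 [59]) (.s13 ⟨⟨.ofNat 0, .ofNat 2⟩, ⟨.ofNat 3, .ofNat 0⟩, ⟨.ofNat 2, .ofNat 0⟩, ⟨.ofNat 2, .ofNat 0⟩⟩ ⟨.ofNat 1, .ofNat 0⟩ ⟨.ofNat 1, .ofNat 0⟩ ⟨.ofNat 1, .ofNat 0⟩ 0 (.leaf 0 [10, 64]) (.leaf 0 [34, 64, 64]))) (.leaf 0 [64, 13]))) t0_3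

/-- part of a tree -/
def t0_1 : Tree := .s23 ⟨⟨.ofNat 1, .ofNat 0⟩, ⟨.ofNat 1, .ofNat 0⟩, ⟨.ofNat 0, .ofNat 3⟩, ⟨.ofNat 1, .ofNat 0⟩⟩ ⟨.negSucc 0, .ofNat 3⟩ ⟨.ofNat 1, .ofNat 0⟩ ⟨.ofNat 1, .ofNat 0⟩ 0 t0_2 (.s01 ⟨⟨.negSucc 0, .ofNat 3⟩, ⟨.ofNat 2, .ofNat 0⟩, ⟨.ofNat 1, .ofNat 0⟩, ⟨.ofNat 1, .ofNat 0⟩⟩ ⟨.negSucc 1, .ofNat 3⟩ ⟨.ofNat 1, .ofNat 0⟩ ⟨.negSucc 0, .ofNat 3⟩ 0 (.s13 ⟨⟨.ofNat 1, .ofNat 0⟩, ⟨.ofNat 2, .ofNat 0⟩, ⟨.negSucc 0, .ofNat 3⟩, ⟨.ofNat 1, .ofNat 0⟩⟩ ⟨.ofNat 1, .ofNat 0⟩ ⟨.negSucc 1, .ofNat 3⟩ ⟨.negSucc 0, .ofNat 3⟩ 0 (.leaf 0 [64, 29]) (.leaf 0 [0, 0, 64, 0, 0, 0])) (.leaf 0 [64,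 13]))

/-- part of a tree -/
def t0_0 : Tree := .s13 ⟨⟨.ofNat 1, .ofNat 0⟩, ⟨.ofNat 0, .ofNat 3⟩, ⟨.ofNat 1, .ofNat 0⟩, ⟨.ofNat 1, .ofNat 0⟩⟩ ⟨.negSucc 0, .ofNat 3⟩ ⟨.ofNat 1, .ofNat 0⟩ ⟨.ofNat 1, .ofNat 0⟩ 0 t0_1 (.s01 ⟨⟨.ofNat 0, .ofNat 3⟩, ⟨.ofNat 2, .ofNat 0⟩, ⟨.ofNat 1, .ofNat 0⟩, ⟨.ofNat 1, .ofNat 0⟩⟩ ⟨.ofNat 1, .ofNat 0⟩ ⟨.ofNat 1, .ofNat 0⟩ ⟨.ofNat 1, .ofNat 0⟩ 0 (.leaf 0 [0, 0, 64, 0, 0]) (.s03 ⟨⟨.negSucc 0, .ofNat 3⟩, ⟨.ofNat 2, .ofNat 0⟩, ⟨.ofNat 1, .ofNat 0⟩, ⟨.ofNat 1, .ofNat 0⟩⟩ ⟨.negSucc 1, .ofNat 3⟩ ⟨.ofNat 1, .ofNat 0⟩ ⟨.negSucc 0, .ofNat 3⟩ 0 (.leaf 0 [0, 0, 64, 0, 0]) (.leaf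 0 [])))

/-- part of a tree -/
def t0 : Tree := .s03 ⟨⟨.ofNat 0, .ofNat 3⟩, ⟨.ofNat 1, .ofNat 0⟩, ⟨.ofNat 1, .ofNat 0⟩, ⟨.ofNat 1, .ofNat 0⟩⟩ ⟨.negSucc 0, .ofNat 3⟩ ⟨.ofNat 1, .ofNat 0⟩ ⟨.ofNat 1, .ofNat 0⟩ 0 t0_0 (.s13 ⟨⟨.ofNat 0, .ofNat 3⟩, ⟨.ofNat 2, .ofNat 0⟩, ⟨.ofNat 1, .ofNat 0⟩, ⟨.ofNat 1, .ofNat 0⟩⟩ ⟨.ofNat 1, .ofNat 0⟩ ⟨.ofNat 1, .ofNat 0⟩ ⟨.ofNat 1, .ofNat 0⟩ 0 (.leaf 0 [0]) (.leaf 0 [0, 0, 0]))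

theorem g0 : Good (PD lin H) ⟨⟨.ofNat 1, .ofNat 0⟩, ⟨.ofNat 0, .ofNat 0⟩, ⟨.ofNat 0, .ofNat 0⟩, ⟨.ofNat 0, .ofNat 0⟩⟩
    ⟨⟨.ofNat 0, .ofNat 0⟩, ⟨.ofNat 1, .ofNat 0⟩, ⟨.ofNat 0, .ofNat 0⟩, ⟨.ofNat 0, .ofNat 0⟩⟩
    ⟨⟨.ofNat 0, .ofNat 0⟩, ⟨.ofNat 0, .ofNat 0⟩, ⟨.ofNat 1, .ofNat 0⟩, ⟨.ofNat 0, .ofNat 0⟩⟩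
    ⟨⟨.ofNat 1, .ofNat 0⟩, ⟨.ofNat 1, .ofNat 0⟩, ⟨.ofNat 1, .ofNat 0⟩, ⟨.ofNat 1, .ofNat 0⟩⟩ :=
  goodD lin H t0 (by decide +kernel)

end

end Pool.Agent.PHCert.D4
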