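import Pool.Agent.PHCert.Cone

/-!
# PHCert: inequality D5, the data
-/

set_option autoImplicit false

namespace Pool.Agent.PHCert.D5

open Zp Pool.Agent.PHCert

noncomputable section

/-- linear part -/
def lin : V4 := ⟨⟨.ofNat 0, .ofNat 0⟩, ⟨.ofNat 0, .ofNat 0⟩, ⟨.ofNat 0, .ofNat 0⟩, ⟨.ofNat 474503, .negSucc 291583⟩⟩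

/-- hinges -/
def H : List Hinge := [
  ⟨⟨.negSucc 2743, .ofNat 0⟩, ⟨⟨.ofNat 0, .ofNat 0⟩, ⟨.negSucc 4, .ofNat 3⟩, ⟨.ofNat 0, .ofNat 0⟩, ⟨.ofNat 1, .ofNat 0⟩⟩⟩,
  ⟨⟨.ofNat 272, .ofNat 0⟩, ⟨⟨.ofNat 0, .ofNat 0⟩, ⟨.ofNat 3, .negSucc 1⟩, ⟨.ofNat 0, .ofNat 0⟩, ⟨.ofNat 1, .ofNat 0⟩⟩⟩,
  ⟨⟨.ofNat 2259, .ofNat 0⟩, ⟨⟨.ofNat 0, .ofNat 0⟩, ⟨.negSucc 6, .ofNat 0⟩, ⟨.ofNat 0, .ofNat 0⟩, ⟨.ofNat 20, .ofNat 0⟩⟩⟩,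
  ⟨⟨.ofNat 2806, .ofNat 0⟩, ⟨⟨.ofNat 0, .ofNat 0⟩, ⟨.negSucc 1, .ofNat 0⟩, ⟨.ofNat 0, .ofNat 0⟩, ⟨.ofNat 5, .ofNat 0⟩⟩⟩,
  ⟨⟨.ofNat 1227, .ofNat 0⟩, ⟨⟨.ofNat 0, .ofNat 0⟩, ⟨.negSucc 8, .ofNat 0⟩, ⟨.ofNat 0, .ofNat 0⟩, ⟨.ofNat 20, .ofNat 0⟩⟩⟩,
  ⟨⟨.negSucc 19765, .ofNat 0⟩, ⟨⟨.ofNat 0, .ofNat 0⟩, ⟨.negSucc 0, .ofNat 0⟩, ⟨.ofNat 0, .ofNat 0⟩, ⟨.ofNat 2, .ofNat 0⟩⟩⟩,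
  ⟨⟨.ofNat 434, .ofNat 0⟩, ⟨⟨.ofNat 0, .ofNat 0⟩, ⟨.negSucc 12, .ofNat 0⟩, ⟨.ofNat 0, .ofNat 0⟩, ⟨.ofNat 20, .ofNat 0⟩⟩⟩,
  ⟨⟨.ofNat 26140, .ofNat 0⟩, ⟨⟨.negSucc 0, .ofNat 0⟩, ⟨.ofNat 0, .ofNat 0⟩, ⟨.negSucc 0, .ofNat 0⟩, ⟨.ofNat 4, .ofNat 0⟩⟩⟩,
  ⟨⟨.ofNat 155715, .ofNat 0⟩, ⟨⟨.negSucc 1, .ofNat 1⟩, ⟨.ofNat 0, .ofNat 0⟩, ⟨.negSucc 1, .ofNat 1⟩, ⟨.ofNat 1, .ofNat 0⟩⟩⟩,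
  ⟨⟨.negSucc 10482, .ofNat 0⟩, ⟨⟨.negSucc 0, .ofNat 0⟩, ⟨.negSucc 0, .ofNat 0⟩, ⟨.negSucc 0, .ofNat 0⟩, ⟨.ofNat 5, .ofNat 0⟩⟩⟩,
  ⟨⟨.ofNat 4261, .ofNat 0⟩, ⟨⟨.negSucc 12, .ofNat 0⟩, ⟨.negSucc 12, .ofNat 0⟩, ⟨.negSucc 12, .ofNat 0⟩, ⟨.ofNat 40, .ofNat 0⟩⟩⟩,
  ⟨⟨.negSucc 57225, .ofNat 0⟩, ⟨⟨.ofNat 3, .negSucc 1⟩, ⟨.ofNat 3, .negSucc 1⟩, ⟨.ofNat 3, .negSucc 1⟩, ⟨.ofNat 1, .ofNat 0⟩⟩⟩,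
  ⟨⟨.negSucc 72, .ofNat 0⟩, ⟨⟨.negSucc 10, .ofNat 0⟩, ⟨.negSucc 10, .ofNat 0⟩, ⟨.negSucc 10, .ofNat 0⟩, ⟨.ofNat 40, .ofNat 0⟩⟩⟩,
  ⟨⟨.ofNat 600, .ofNat 0⟩, ⟨⟨.negSucc 0, .ofNat 0⟩, ⟨.ofNat 0, .ofNat 0⟩, ⟨.ofNat 0, .ofNat 0⟩, ⟨.ofNat 20, .ofNat 0⟩⟩⟩,
  ⟨⟨.ofNat 135, .ofNat 0⟩, ⟨⟨.negSucc 2, .ofNat 0⟩, ⟨.ofNat 0, .ofNat 0⟩, ⟨.ofNat 0, .ofNat 0⟩, ⟨.ofNat 10, .ofNat 0⟩⟩⟩,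
  ⟨⟨.negSucc 725, .ofNat 0⟩, ⟨⟨.negSucc 6, .ofNat 0⟩, ⟨.ofNat 0, .ofNat 0⟩, ⟨.ofNat 0, .ofNat 0⟩, ⟨.ofNat 10, .ofNat 0⟩⟩⟩,
  ⟨⟨.ofNat 449, .ofNat 0⟩, ⟨⟨.negSucc 2, .ofNat 0⟩, ⟨.negSucc 2, .ofNat 0⟩, ⟨.ofNat 0, .ofNat 0⟩, ⟨.ofNat 10, .ofNat 0⟩⟩⟩,
  ⟨⟨.negSucc 135, .ofNat 0⟩, ⟨⟨.negSucc 10, .ofNat 0⟩, ⟨.ofNat 0, .ofNat 0⟩, ⟨.ofNat 0, .ofNat 0⟩, ⟨.ofNat 20, .ofNat 0⟩⟩⟩,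
  ⟨⟨.negSucc 887, .ofNat 0⟩, ⟨⟨.negSucc 8, .ofNat 0⟩, ⟨.ofNat 0, .ofNat 0⟩, ⟨.ofNat 0, .ofNat 0⟩, ⟨.ofNat 10, .ofNat 0⟩⟩⟩,
  ⟨⟨.negSucc 8451, .ofNat 0⟩, ⟨⟨.negSucc 0, .ofNat 0⟩, ⟨.ofNat 0, .ofNat 0⟩, ⟨.negSucc 0, .ofNat 0⟩, ⟨.ofNat 5, .ofNat 0⟩⟩⟩,
  ⟨⟨.ofNat 57226, .ofNat 0⟩, ⟨⟨.ofNat 3, .negSucc 1⟩, ⟨.ofNat 0, .ofNat 0⟩, ⟨.ofNat 3, .negSucc 1⟩, ⟨.ofNat 1, .ofNat 0⟩⟩⟩,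
  ⟨⟨.ofNat 73, .ofNat 0⟩, ⟨⟨.negSucc 10, .ofNat 0⟩, ⟨.ofNat 0, .ofNat 0⟩, ⟨.negSucc 10, .ofNat 0⟩, ⟨.ofNat 40, .ofNat 0⟩⟩⟩,
  ⟨⟨.negSucc 7730, .ofNat 0⟩, ⟨⟨.negSucc 12, .ofNat 0⟩, ⟨.ofNat 0, .ofNat 0⟩, ⟨.negSucc 12, .ofNat 0⟩, ⟨.ofNat 40, .ofNat 0⟩⟩⟩,
  ⟨⟨.ofNat 6139, .ofNat 0⟩, ⟨⟨.negSucc 1, .ofNat 0⟩, ⟨.ofNat 0, .ofNat 0⟩, ⟨.negSucc 1, .ofNat 0⟩, ⟨.ofNat 5, .ofNat 0⟩⟩⟩]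

/-- the terms -/
def ts : List Term := [⟨1, fab, v1, (v0.add v2), v3⟩, ⟨1, fbc, v2, (v0.add v1), v3⟩, ⟨-1, fbb, v1, v0, v3⟩, ⟨-1, fbc, v2, v0, v3⟩]

theorem data : (PD lin H).okData ts v0 v1 v2 ⟨z1, z1, z1, z1⟩ = true := by
  decide +kernel

end

end Pool.Agent.PHCert.D5
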