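import Pool.Agent.PHCert.D5H

/-!
# PHCert: inequality D5, part 1 (28 leaves, checked by the kernel)
-/

set_option autoImplicit false

namespace Pool.Agent.PHCert.D5

open Zp Pool.Agent.PHCert

noncomputable section

/-- part of a tree -/
def t0_2 : Tree := .s13 ⟨⟨.ofNat 9, .ofNat 0⟩, ⟨.ofNat 20, .ofNat 0⟩, ⟨.ofNat 9, .ofNat 0⟩, ⟨.ofNat 9, .ofNat 0⟩⟩ ⟨.ofNat 11, .ofNat 0⟩ ⟨.ofNat 40, .ofNat 0⟩ ⟨.ofNat 13, .ofNat 0⟩ 0 (.s23 ⟨⟨.ofNat 1, .ofNat 0⟩, ⟨.ofNat 1, .ofNat 0⟩, ⟨.ofNat 0, .ofNat 1⟩, ⟨.ofNat 1, .ofNat 0⟩⟩ ⟨.ofNat 1, .ofNat 0⟩ ⟨.negSucc 0, .ofNat 2⟩ ⟨.ofNat 0, .ofNat 2⟩ 0 (.s03 ⟨⟨.ofNat 0, .ofNat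 1⟩, ⟨.ofNat 1, .ofNat 0⟩, ⟨.ofNat 1, .ofNat 0⟩, ⟨.ofNat 1, .ofNat 0⟩⟩ ⟨.ofNat 1, .ofNat 0⟩ ⟨.negSucc 0, .ofNat 2⟩ ⟨.ofNat 0, .ofNat 2⟩ 0 (.s13 ⟨⟨.ofNat 13, .ofNat 0⟩, ⟨.ofNat 14, .ofNat 0⟩, ⟨.ofNat 13, .ofNat 0⟩, ⟨.ofNat 13, .ofNat 0⟩⟩ ⟨.ofNat 1, .ofNat 0⟩ ⟨.ofNat 134, .ofNat 0⟩ ⟨.ofNat 11, .ofNat 0⟩ 0 (.leaf 0 [19, 64]) (.leaf 0 [59, 64])) (.s01 ⟨⟨.ofNat 0, .ofNat 18⟩, ⟨.ofNat 51, .negSucc 10⟩, ⟨.ofNat 18, .ofNat 0⟩, ⟨.ofNat 18, .ofNat 0⟩⟩ ⟨.ofNat 9, .ofNat 0⟩ ⟨.negSucc 0, .ofNat 2⟩ ⟨.ofNat 0, .ofNat 1⟩ 0 (.leaf 0 [22, 64, 64]) (.leaf 0 [43, 64, 64]))) (.s12 ⟨⟨.ofNat 18, .ofNat 0⟩, ⟨.ofNat 51, .negSucc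 10⟩, ⟨.ofNat 0, .ofNat 18⟩, ⟨.ofNat 18, .ofNat 0⟩⟩ ⟨.negSucc 0, .ofNat 2⟩ ⟨.ofNat 9, .ofNat 0⟩ ⟨.ofNat 0, .ofNat 1⟩ 0 (.leaf 0 [43, 64, 64]) (.s01 ⟨⟨.ofNat 0, .ofNat 18⟩, ⟨.ofNat 51, .negSucc 10⟩, ⟨.ofNat 18, .ofNat 0⟩, ⟨.ofNat 18, .ofNat 0⟩⟩ ⟨.ofNat 9, .ofNat 0⟩ ⟨.negSucc 0, .ofNat 2⟩ ⟨.ofNat 0, .ofNat 1⟩ 0 (.leaf 0 [22, 64, 64]) (.leaf 0 [43, 64, 64])))) (.s23 ⟨⟨.ofNat 18, .ofNat 0⟩, ⟨.ofNat 51, .negSucc 10⟩, ⟨.ofNat 0, .ofNat 18⟩, ⟨.ofNat 18, .ofNat 0⟩⟩ ⟨.ofNat 9, .ofNat 0⟩ ⟨.negSucc 0, .ofNat 2⟩ ⟨.ofNat 0, .ofNat 1⟩ 0 (.s03 ⟨⟨.ofNat 0, .ofNat 18⟩, ⟨.ofNat 51, .negSucc 10⟩, ⟨.ofNat 18, .ofNat 0⟩,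 ⟨.ofNat 18, .ofNat 0⟩⟩ ⟨.ofNat 9, .ofNat 0⟩ ⟨.negSucc 0, .ofNat 2⟩ ⟨.ofNat 0, .ofNat 1⟩ 0 (.leaf 0 [15, 0, 0, 64]) (.s01 ⟨⟨.ofNat 0, .ofNat 14⟩, ⟨.ofNat 53, .negSucc 12⟩, ⟨.ofNat 14, .ofNat 0⟩, ⟨.ofNat 14, .ofNat 0⟩⟩ ⟨.ofNat 7, .ofNat 0⟩ ⟨.negSucc 0, .ofNat 2⟩ ⟨.ofNat 0, .ofNat 1⟩ 0 (.leaf 0 [15, 0, 0, 64]) (.leaf 0 [64, 6, 0, 64]))) (.s12 ⟨⟨.ofNat 14, .ofNat 0⟩, ⟨.ofNat 53, .negSucc 12⟩, ⟨.ofNat 0, .ofNat 14⟩, ⟨.ofNat 14, .ofNat 0⟩⟩ ⟨.negSucc 0, .ofNat 2⟩ ⟨.ofNat 7, .ofNat 0⟩ ⟨.ofNat 0, .ofNat 1⟩ 0 (.leaf 0 [64, 5, 44, 64]) (.s01 ⟨⟨.ofNat 0, .ofNat 14⟩, ⟨.ofNat 53, .negSucc 12⟩, ⟨.ofNat 14, .ofNat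 0⟩, ⟨.ofNat 14, .ofNat 0⟩⟩ ⟨.ofNat 7, .ofNat 0⟩ ⟨.negSucc 0, .ofNat 2⟩ ⟨.ofNat 0, .ofNat 1⟩ 0 (.leaf 0 [15, 0, 0, 64]) (.leaf 0 [64, 2, 0, 64]))))

/-- part of a tree -/
def t0_1 : Tree := .s13 ⟨⟨.ofNat 7, .ofNat 0⟩, ⟨.ofNat 20, .ofNat 0⟩, ⟨.ofNat 7, .ofNat 0⟩, ⟨.ofNat 7, .ofNat 0⟩⟩ ⟨.ofNat 13, .ofNat 0⟩ ⟨.ofNat 7, .ofNat 0⟩ ⟨.ofNat 1, .ofNat 0⟩ 0 t0_2 (.s23 ⟨⟨.ofNat 14, .ofNat 0⟩, ⟨.ofNat 53, .negSucc 12⟩, ⟨.ofNat 0, .ofNat 14⟩, ⟨.ofNat 14, .ofNat 0⟩⟩ ⟨.ofNat 7, .ofNat 0⟩ ⟨.negSucc 0, .ofNat 2⟩ ⟨.ofNat 0, .ofNat 1⟩ 0 (.s03 ⟨⟨.ofNat 0, .ofNat 14⟩, ⟨.ofNat 53, .negSucc 12⟩, ⟨.ofNat 14, .ofNat 0⟩, ⟨.ofNat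 14, .ofNat 0⟩⟩ ⟨.ofNat 7, .ofNat 0⟩ ⟨.negSucc 0, .ofNat 2⟩ ⟨.ofNat 0, .ofNat 1⟩ 0 (.s12 ⟨⟨.ofNat 7, .ofNat 0⟩, ⟨.ofNat 20, .ofNat 0⟩, ⟨.ofNat 0, .ofNat 7⟩, ⟨.ofNat 7, .ofNat 0⟩⟩ ⟨.ofNat 13, .ofNat 0⟩ ⟨.ofNat 0, .ofNat 1⟩ ⟨.ofNat 0, .ofNat 2⟩ 0 (.leaf 0 [0, 0, 57]) (.leaf 0 [0, 0, 0, 57])) (.s01 ⟨⟨.ofNat 21, .ofNat 0⟩, ⟨.ofNat 20, .ofNat 0⟩, ⟨.ofNat 7, .ofNat 0⟩, ⟨.ofNat 7, .ofNat 0⟩⟩ ⟨.ofNat 7, .ofNat 0⟩ ⟨.ofNat 13, .ofNat 0⟩ ⟨.ofNat 1, .ofNat 0⟩ 0 (.leaf 0 [0, 0, 0, 0, 64]) (.leaf 0 [64, 4, 0, 0, 0]))) (.s12 ⟨⟨.ofNat 7, .ofNat 0⟩, ⟨.ofNat 20, .ofNat 0⟩, ⟨.ofNat 21, .ofNat 0⟩, ⟨.ofNat 7, .ofNat 0⟩⟩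 ⟨.ofNat 13, .ofNat 0⟩ ⟨.ofNat 7, .ofNat 0⟩ ⟨.ofNat 1, .ofNat 0⟩ 0 (.leaf 0 [60, 0, 0, 0, 0]) (.s01 ⟨⟨.ofNat 21, .ofNat 0⟩, ⟨.ofNat 20, .ofNat 0⟩, ⟨.ofNat 7, .ofNat 0⟩, ⟨.ofNat 7, .ofNat 0⟩⟩ ⟨.ofNat 7, .ofNat 0⟩ ⟨.ofNat 13, .ofNat 0⟩ ⟨.ofNat 1, .ofNat 0⟩ 0 (.leaf 0 [0, 0, 0, 0, 64]) (.leaf 0 [56, 0, 0, 0, 0]))))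

/-- part of a tree -/
def t0_0 : Tree := .s23 ⟨⟨.ofNat 1, .ofNat 0⟩, ⟨.ofNat 1, .ofNat 0⟩, ⟨.ofNat 3, .ofNat 0⟩, ⟨.ofNat 1, .ofNat 0⟩⟩ ⟨.ofNat 2, .ofNat 0⟩ ⟨.ofNat 1, .ofNat 0⟩ ⟨.ofNat 1, .ofNat 0⟩ 0 t0_1 (.s13 ⟨⟨.ofNat 7, .ofNat 0⟩, ⟨.ofNat 20, .ofNat 0⟩, ⟨.ofNat 21, .ofNat 0⟩, ⟨.ofNat 7, .ofNat 0⟩⟩ ⟨.ofNat 13, .ofNat 0⟩ ⟨.ofNat 7, .ofNat 0⟩ ⟨.ofNat 1, .ofNat 0⟩ 0 (.leaf 0 [0, 0, 0, 0, 0]) (.s01 ⟨⟨.ofNat 21, .ofNat 0⟩, ⟨.ofNat 20, .ofNat 0⟩, ⟨.ofNat 7, .ofNat 0⟩, ⟨.ofNat 7, .ofNat 0⟩⟩ ⟨.ofNat 7, .ofNat 0⟩ ⟨.ofNat 13, .ofNat 0⟩ ⟨.ofNat 1, .ofNat 0⟩ 0 (.leaf 0 [0, 0]) (.leaf 0 [0, 0, 0, 0])))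

/-- part of a tree -/
def t0 : Tree := .s03 ⟨⟨.ofNat 3, .ofNat 0⟩, ⟨.ofNat 1, .ofNat 0⟩, ⟨.ofNat 1, .ofNat 0⟩, ⟨.ofNat 1, .ofNat 0⟩⟩ ⟨.ofNat 2, .ofNat 0⟩ ⟨.ofNat 1, .ofNat 0⟩ ⟨.ofNat 1, .ofNat 0⟩ 0 t0_0 (.s13 ⟨⟨.ofNat 21, .ofNat 0⟩, ⟨.ofNat 20, .ofNat 0⟩, ⟨.ofNat 7, .ofNat 0⟩, ⟨.ofNat 7, .ofNat 0⟩⟩ ⟨.ofNat 13, .ofNat 0⟩ ⟨.ofNat 7, .ofNat 0⟩ ⟨.ofNat 1, .ofNat 0⟩ 0 (.s03 ⟨⟨.ofNat 20, .ofNat 0⟩, ⟨.ofNat 1, .ofNat 0⟩, ⟨.ofNat 1, .ofNat 0⟩, ⟨.ofNat 1, .ofNat 0⟩⟩ ⟨.ofNat 17, .ofNat 0⟩ ⟨.ofNat 1, .ofNat 0⟩ ⟨.ofNat 1, .ofNat 0⟩ 0 (.leaf 0 [21, 0, 0, 1, 0]) (.s01 ⟨⟨.ofNat 140, .ofNat 0⟩, ⟨.ofNat 20, .ofNat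 0⟩, ⟨.ofNat 7, .ofNat 0⟩, ⟨.ofNat 7, .ofNat 0⟩⟩ ⟨.ofNat 119, .ofNat 0⟩ ⟨.ofNat 1, .ofNat 0⟩ ⟨.ofNat 1, .ofNat 0⟩ 0 (.leaf 0 [21, 0, 0, 0, 0]) (.leaf 0 [24, 0, 0]))) (.s03 ⟨⟨.ofNat 140, .ofNat 0⟩, ⟨.ofNat 20, .ofNat 0⟩, ⟨.ofNat 7, .ofNat 0⟩, ⟨.ofNat 7, .ofNat 0⟩⟩ ⟨.ofNat 119, .ofNat 0⟩ ⟨.ofNat 1, .ofNat 0⟩ ⟨.ofNat 1, .ofNat 0⟩ 0 (.leaf 0 [0, 5, 0]) (.leaf 0 [0])))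

theorem g0 : Good (PD lin H) ⟨⟨.ofNat 1, .ofNat 0⟩, ⟨.ofNat 0, .ofNat 0⟩, ⟨.ofNat 0, .ofNat 0⟩, ⟨.ofNat 0, .ofNat 0⟩⟩
    ⟨⟨.ofNat 0, .ofNat 0⟩, ⟨.ofNat 1, .ofNat 0⟩, ⟨.ofNat 0, .ofNat 0⟩, ⟨.ofNat 0, .ofNat 0⟩⟩
    ⟨⟨.ofNat 0, .ofNat 0⟩, ⟨.ofNat 0, .ofNat 0⟩, ⟨.ofNat 1, .ofNat 0⟩, ⟨.ofNat 0, .ofNat 0⟩⟩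
    ⟨⟨.ofNat 1, .ofNat 0⟩, ⟨.ofNat 1, .ofNat 0⟩, ⟨.ofNat 1, .ofNat 0⟩, ⟨.ofNat 1, .ofNat 0⟩⟩ :=
  goodD lin H t0 (by decide +kernel)

end

end Pool.Agent.PHCert.D5
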