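import Pool.Agent.PHCert.D6H

/-!
# PHCert: inequality D6, part 2 (85 leaves, checked by the kernel)
-/

set_option autoImplicit false

namespace Pool.Agent.PHCert.D6

open Zp Pool.Agent.PHCert

noncomputable section

/-- part of a tree -/
def t9_1 : Tree := .s13 ⟨⟨.ofNat 3, .ofNat 0⟩, ⟨.ofNat 8, .negSucc 0⟩, ⟨.ofNat 3, .ofNat 3⟩, ⟨.ofNat 3, .ofNat 0⟩⟩ ⟨.ofNat 1, .ofNat 0⟩ ⟨.negSucc 0, .ofNat 3⟩ ⟨.ofNat 0, .ofNat 1⟩ 0 (.s23 ⟨⟨.ofNat 9, .ofNat 0⟩, ⟨.ofNat 18, .ofNat 0⟩, ⟨.ofNat 20, .ofNat 0⟩, ⟨.ofNat 9, .ofNat 0⟩⟩ ⟨.ofNat 0, .ofNat 2⟩ ⟨.ofNat 9, .negSucc 1⟩ ⟨.ofNat 1, .ofNat 0⟩ 0 (.s13 ⟨⟨.ofNat 27,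 .ofNat 0⟩, ⟨.ofNat 52, .ofNat 2⟩, ⟨.ofNat 60, .ofNat 0⟩, ⟨.ofNat 27, .ofNat 0⟩⟩ ⟨.ofNat 2, .ofNat 2⟩ ⟨.negSucc 5, .ofNat 21⟩ ⟨.ofNat 0, .ofNat 1⟩ 0 (.s03 ⟨⟨.ofNat 4, .ofNat 0⟩, ⟨.ofNat 6, .ofNat 0⟩, ⟨.ofNat 6, .ofNat 0⟩, ⟨.ofNat 3, .ofNat 0⟩⟩ ⟨.ofNat 0, .ofNat 1⟩ ⟨.ofNat 6, .negSucc 0⟩ ⟨.ofNat 2, .ofNat 0⟩ 0 (.leaf 0 []) (.s02 ⟨⟨.negSucc 2, .ofNat 27⟩, ⟨.negSucc 5, .ofNat 48⟩, ⟨.negSucc 6, .ofNat 53⟩, ⟨.negSucc 2, .ofNat 24⟩⟩ ⟨.ofNat 0, .ofNat 3⟩ ⟨.ofNat 6, .negSucc 0⟩ ⟨.negSucc 1, .ofNat 2⟩ 0 (.leaf 0 []) (.leaf 0 [16, 64, 64, 64]))) (.s02 ⟨⟨.negSucc 2, .ofNat 27⟩, ⟨.negSucc 5, .ofNat 48⟩, ⟨.negSucc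 6, .ofNat 53⟩, ⟨.negSucc 2, .ofNat 24⟩⟩ ⟨.ofNat 0, .ofNat 3⟩ ⟨.ofNat 6, .negSucc 0⟩ ⟨.negSucc 1, .ofNat 2⟩ 0 (.leaf 0 [54, 0, 64]) (.leaf 0 [14, 43, 64, 64, 64, 64]))) (.s03 ⟨⟨.negSucc 2, .ofNat 27⟩, ⟨.negSucc 5, .ofNat 48⟩, ⟨.negSucc 6, .ofNat 53⟩, ⟨.negSucc 2, .ofNat 24⟩⟩ ⟨.ofNat 0, .ofNat 3⟩ ⟨.ofNat 6, .negSucc 0⟩ ⟨.negSucc 1, .ofNat 2⟩ 0 (.leaf 0 [53, 0, 64]) (.leaf 0 [0, 31, 64, 64, 0]))) (.s02 ⟨⟨.ofNat 8, .ofNat 0⟩, ⟨.ofNat 12, .ofNat 0⟩, ⟨.ofNat 5, .ofNat 6⟩, ⟨.ofNat 6, .ofNat 0⟩⟩ ⟨.ofNat 0, .ofNat 1⟩ ⟨.ofNat 6, .negSucc 0⟩ ⟨.ofNat 1, .ofNat 0⟩ 0 (.s12 ⟨⟨.ofNat 3, .ofNat 0⟩, ⟨.ofNat 7, .ofNat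 0⟩, ⟨.ofNat 2, .ofNat 6⟩, ⟨.ofNat 3, .ofNat 0⟩⟩ ⟨.ofNat 0, .ofNat 1⟩ ⟨.ofNat 3, .negSucc 0⟩ ⟨.ofNat 1, .ofNat 0⟩ 0 (.leaf 0 [64, 64, 0, 0, 25, 0]) (.s13 ⟨⟨.ofNat 3, .ofNat 0⟩, ⟨.ofNat 10, .negSucc 1⟩, ⟨.ofNat 0, .ofNat 6⟩, ⟨.ofNat 3, .ofNat 0⟩⟩ ⟨.ofNat 3, .ofNat 0⟩ ⟨.negSucc 1, .ofNat 3⟩ ⟨.negSucc 0, .ofNat 3⟩ 0 (.leaf 0 [64, 64, 0, 0, 25, 0]) (.s01 ⟨⟨.ofNat 72, .negSucc 3⟩, ⟨.ofNat 120, .ofNat 0⟩, ⟨.ofNat 33, .ofNat 92⟩, ⟨.ofNat 54, .ofNat 0⟩⟩ ⟨.ofNat 9, .negSucc 1⟩ ⟨.ofNat 0, .ofNat 12⟩ ⟨.ofNat 1, .ofNat 0⟩ 0 (.leaf 0 [9, 0, 0, 64]) (.leaf 0 [64, 64, 0, 0, 0, 25])))) (.s03 ⟨⟨.ofNat 3, .ofNat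 18⟩, ⟨.negSucc 12, .ofNat 42⟩, ⟨.ofNat 12, .ofNat 33⟩, ⟨.negSucc 2, .ofNat 18⟩⟩ ⟨.ofNat 0, .ofNat 3⟩ ⟨.negSucc 0, .ofNat 5⟩ ⟨.ofNat 1, .ofNat 0⟩ 0 (.s13 ⟨⟨.ofNat 3, .ofNat 0⟩, ⟨.ofNat 10, .negSucc 1⟩, ⟨.ofNat 0, .ofNat 6⟩, ⟨.ofNat 3, .ofNat 0⟩⟩ ⟨.ofNat 3, .ofNat 0⟩ ⟨.negSucc 1, .ofNat 3⟩ ⟨.negSucc 0, .ofNat 3⟩ 0 (.leaf 0 [64, 13, 0, 0]) (.s12 ⟨⟨.negSucc 17, .ofNat 67⟩, ⟨.ofNat 9, .ofNat 96⟩, ⟨.negSucc 59, .ofNat 190⟩, ⟨.negSucc 17, .ofNat 57⟩⟩ ⟨.ofNat 27, .ofNat 9⟩ ⟨.ofNat 5, .ofNat 5⟩ ⟨.ofNat 0, .ofNat 1⟩ 0 (.leaf 0 [64, 10, 17, 0, 64]) (.s01 ⟨⟨.negSucc 50, .ofNat 171⟩, ⟨.negSucc 49, .ofNat 306⟩,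 ⟨.negSucc 269, .ofNat 570⟩, ⟨.negSucc 80, .ofNat 171⟩⟩ ⟨.ofNat 0, .ofNat 5⟩ ⟨.ofNat 81, .ofNat 15⟩ ⟨.ofNat 0, .ofNat 1⟩ 0 (.leaf 0 [0, 9, 0, 0, 64]) (.leaf 0 [64, 7, 0, 64])))) (.s01 ⟨⟨.negSucc 0, .ofNat 10⟩, ⟨.ofNat 14, .ofNat 4⟩, ⟨.ofNat 30, .ofNat 0⟩, ⟨.ofNat 9, .ofNat 0⟩⟩ ⟨.ofNat 5, .ofNat 0⟩ ⟨.ofNat 4, .ofNat 0⟩ ⟨.ofNat 1, .ofNat 0⟩ 0 (.s12 ⟨⟨.negSucc 17, .ofNat 67⟩, ⟨.ofNat 9, .ofNat 96⟩, ⟨.negSucc 59, .ofNat 190⟩, ⟨.negSucc 17, .ofNat 57⟩⟩ ⟨.ofNat 27, .ofNat 9⟩ ⟨.ofNat 5, .ofNat 5⟩ ⟨.ofNat 0, .ofNat 1⟩ 0 (.leaf 0 [64, 1, 64, 0, 64]) (.s13 ⟨⟨.negSucc 50, .ofNat 171⟩, ⟨.negSucc 49, .ofNat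 306⟩, ⟨.negSucc 269, .ofNat 570⟩, ⟨.negSucc 80, .ofNat 171⟩⟩ ⟨.ofNat 81, .ofNat 15⟩ ⟨.ofNat 0, .ofNat 5⟩ ⟨.ofNat 0, .ofNat 1⟩ 0 (.leaf 0 [64, 0, 64, 64]) (.leaf 0 [0, 0, 40, 64]))) (.leaf 0 [64, 31, 0, 0, 0, 4]))))

/-- part of a tree -/
def t9_0 : Tree := .s03 ⟨⟨.negSucc 0, .ofNat 2⟩, ⟨.ofNat 2, .ofNat 0⟩, ⟨.ofNat 2, .ofNat 0⟩, ⟨.ofNat 1, .ofNat 0⟩⟩ ⟨.ofNat 2, .ofNat 0⟩ ⟨.ofNat 0, .ofNat 1⟩ ⟨.ofNat 0, .ofNat 1⟩ 0 t9_1 (.s02 ⟨⟨.negSucc 0, .ofNat 2⟩, ⟨.ofNat 2, .ofNat 0⟩, ⟨.ofNat 1, .ofNat 1⟩, ⟨.ofNat 1, .ofNat 0⟩⟩ ⟨.ofNat 2, .ofNat 0⟩ ⟨.ofNat 0, .ofNat 1⟩ ⟨.ofNat 0, .ofNat 1⟩ 0 (.s23 ⟨⟨.ofNat 8,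 .ofNat 0⟩, ⟨.ofNat 12, .ofNat 0⟩, ⟨.ofNat 5, .ofNat 6⟩, ⟨.ofNat 6, .ofNat 0⟩⟩ ⟨.ofNat 6, .negSucc 0⟩ ⟨.ofNat 0, .ofNat 1⟩ ⟨.ofNat 1, .ofNat 0⟩ 0 (.s13 ⟨⟨.ofNat 8, .ofNat 1⟩, ⟨.negSucc 0, .ofNat 7⟩, ⟨.ofNat 3, .ofNat 6⟩, ⟨.ofNat 0, .ofNat 3⟩⟩ ⟨.ofNat 1, .ofNat 0⟩ ⟨.negSucc 0, .ofNat 3⟩ ⟨.ofNat 1, .ofNat 0⟩ 0 (.leaf 0 [5, 0, 64, 33]) (.s12 ⟨⟨.ofNat 72, .negSucc 3⟩, ⟨.ofNat 120, .ofNat 0⟩, ⟨.ofNat 33, .ofNat 92⟩, ⟨.ofNat 54, .ofNat 0⟩⟩ ⟨.ofNat 0, .ofNat 12⟩ ⟨.ofNat 9, .negSucc 1⟩ ⟨.ofNat 1, .ofNat 0⟩ 0 (.leaf 0 [64, 10, 64, 0, 64]) (.leaf 0 [0, 38, 0, 64, 0]))) (.s02 ⟨⟨.ofNat 4, .ofNat 0⟩, ⟨.ofNat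 6, .ofNat 0⟩, ⟨.ofNat 3, .ofNat 3⟩, ⟨.ofNat 3, .ofNat 0⟩⟩ ⟨.ofNat 0, .ofNat 1⟩ ⟨.ofNat 6, .negSucc 0⟩ ⟨.ofNat 2, .ofNat 0⟩ 0 (.s12 ⟨⟨.ofNat 3, .ofNat 0⟩, ⟨.ofNat 7, .ofNat 0⟩, ⟨.ofNat 2, .ofNat 6⟩, ⟨.ofNat 3, .ofNat 0⟩⟩ ⟨.ofNat 0, .ofNat 1⟩ ⟨.ofNat 3, .negSucc 0⟩ ⟨.ofNat 1, .ofNat 0⟩ 0 (.leaf 0 [64, 64, 0, 0, 25, 0]) (.s13 ⟨⟨.ofNat 72, .negSucc 3⟩, ⟨.ofNat 120, .ofNat 0⟩, ⟨.ofNat 33, .ofNat 92⟩, ⟨.ofNat 54, .ofNat 0⟩⟩ ⟨.ofNat 0, .ofNat 12⟩ ⟨.ofNat 9, .negSucc 1⟩ ⟨.ofNat 1, .ofNat 0⟩ 0 (.leaf 0 [64, 64, 0, 0, 25]) (.leaf 0 [8, 64, 0, 64, 0]))) (.s13 ⟨⟨.ofNat 72, .negSucc 3⟩, ⟨.ofNat 120, .ofNat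 0⟩, ⟨.ofNat 33, .ofNat 92⟩, ⟨.ofNat 54, .ofNat 0⟩⟩ ⟨.ofNat 0, .ofNat 12⟩ ⟨.ofNat 9, .negSucc 1⟩ ⟨.ofNat 1, .ofNat 0⟩ 0 (.leaf 0 [64, 10, 64, 0, 64]) (.leaf 0 [8, 64, 0, 64, 64, 0])))) (.s13 ⟨⟨.ofNat 8, .ofNat 1⟩, ⟨.negSucc 0, .ofNat 7⟩, ⟨.ofNat 3, .ofNat 6⟩, ⟨.ofNat 0, .ofNat 3⟩⟩ ⟨.ofNat 1, .ofNat 0⟩ ⟨.negSucc 0, .ofNat 3⟩ ⟨.ofNat 1, .ofNat 0⟩ 0 (.leaf 0 [7, 0, 64]) (.s01 ⟨⟨.ofNat 0, .ofNat 1⟩, ⟨.ofNat 1, .ofNat 1⟩, ⟨.ofNat 5, .ofNat 0⟩, ⟨.ofNat 1, .ofNat 0⟩⟩ ⟨.ofNat 1, .ofNat 0⟩ ⟨.ofNat 0, .ofNat 1⟩ ⟨.ofNat 0, .ofNat 1⟩ 0 (.leaf 0 [0, 38, 0, 64, 0]) (.leaf 0 [0, 48, 0, 64, 0]))))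

/-- part of a tree -/
def t9 : Tree := .s23 ⟨⟨.ofNat 1, .ofNat 0⟩, ⟨.ofNat 2, .ofNat 0⟩, ⟨.ofNat 1, .ofNat 1⟩, ⟨.ofNat 1, .ofNat 0⟩⟩ ⟨.ofNat 1, .ofNat 0⟩ ⟨.ofNat 0, .ofNat 1⟩ ⟨.ofNat 0, .ofNat 1⟩ 0 t9_0 (.s23 ⟨⟨.ofNat 1, .ofNat 0⟩, ⟨.ofNat 2, .ofNat 0⟩, ⟨.ofNat 5, .ofNat 0⟩, ⟨.ofNat 1, .ofNat 0⟩⟩ ⟨.negSucc 0, .ofNat 3⟩ ⟨.ofNat 0, .ofNat 1⟩ ⟨.ofNat 0, .ofNat 1⟩ 0 (.s03 ⟨⟨.negSucc 0, .ofNat 2⟩, ⟨.ofNat 2, .ofNat 0⟩, ⟨.ofNat 1, .ofNat 1⟩, ⟨.ofNat 1, .ofNat 0⟩⟩ ⟨.ofNat 2, .ofNat 0⟩ ⟨.ofNat 0, .ofNat 1⟩ ⟨.ofNat 0, .ofNat 1⟩ 0 (.s03 ⟨⟨.ofNat 4, .ofNat 0⟩, ⟨.ofNat 6, .ofNat 0⟩, ⟨.ofNat 3, .ofNat 3⟩,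 ⟨.ofNat 3, .ofNat 0⟩⟩ ⟨.ofNat 0, .ofNat 1⟩ ⟨.ofNat 6, .negSucc 0⟩ ⟨.ofNat 2, .ofNat 0⟩ 0 (.s13 ⟨⟨.ofNat 3, .ofNat 0⟩, ⟨.ofNat 7, .ofNat 0⟩, ⟨.ofNat 2, .ofNat 6⟩, ⟨.ofNat 3, .ofNat 0⟩⟩ ⟨.ofNat 0, .ofNat 1⟩ ⟨.ofNat 3, .negSucc 0⟩ ⟨.ofNat 1, .ofNat 0⟩ 0 (.leaf 0 [64, 64, 64, 6, 0]) (.leaf 0 [8, 64, 0, 0, 64, 0])) (.leaf 0 [8, 64, 0, 0, 64, 64, 0])) (.s02 ⟨⟨.negSucc 0, .ofNat 2⟩, ⟨.ofNat 2, .ofNat 0⟩, ⟨.ofNat 5, .ofNat 0⟩, ⟨.ofNat 1, .ofNat 0⟩⟩ ⟨.ofNat 2, .ofNat 0⟩ ⟨.ofNat 0, .ofNat 1⟩ ⟨.ofNat 0, .ofNat 1⟩ 0 (.leaf 0 [7, 0, 0, 3, 64, 64]) (.s01 ⟨⟨.ofNat 0, .ofNat 1⟩, ⟨.ofNat 1, .ofNat 1⟩, ⟨.ofNat 5,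 .ofNat 0⟩, ⟨.ofNat 1, .ofNat 0⟩⟩ ⟨.ofNat 1, .ofNat 0⟩ ⟨.ofNat 0, .ofNat 1⟩ ⟨.ofNat 0, .ofNat 1⟩ 0 (.leaf 0 [0, 38, 0, 64, 0]) (.leaf 0 [0, 41, 0, 64])))) (.s03 ⟨⟨.negSucc 0, .ofNat 2⟩, ⟨.ofNat 2, .ofNat 0⟩, ⟨.ofNat 5, .ofNat 0⟩, ⟨.ofNat 1, .ofNat 0⟩⟩ ⟨.ofNat 2, .ofNat 0⟩ ⟨.ofNat 0, .ofNat 1⟩ ⟨.ofNat 0, .ofNat 1⟩ 0 (.leaf 0 [1, 12, 64, 64]) (.s01 ⟨⟨.ofNat 0, .ofNat 1⟩, ⟨.ofNat 1, .ofNat 1⟩, ⟨.ofNat 5, .ofNat 0⟩, ⟨.ofNat 1, .ofNat 0⟩⟩ ⟨.ofNat 1, .ofNat 0⟩ ⟨.ofNat 0, .ofNat 1⟩ ⟨.ofNat 0, .ofNat 1⟩ 0 (.leaf 0 [2, 64, 0]) (.leaf 0 [3, 64]))))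

theorem g9 : Good (PD lin H) ⟨⟨.ofNat 1, .ofNat 0⟩, ⟨.ofNat 0, .ofNat 0⟩, ⟨.ofNat 0, .ofNat 0⟩, ⟨.ofNat 0, .ofNat 0⟩⟩
    ⟨⟨.ofNat 1, .ofNat 0⟩, ⟨.ofNat 1, .ofNat 1⟩, ⟨.ofNat 5, .ofNat 0⟩, ⟨.ofNat 1, .ofNat 0⟩⟩
    ⟨⟨.ofNat 0, .ofNat 0⟩, ⟨.ofNat 0, .ofNat 0⟩, ⟨.ofNat 1, .ofNat 0⟩, ⟨.ofNat 0, .ofNat 0⟩⟩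
    ⟨⟨.ofNat 1, .ofNat 0⟩, ⟨.ofNat 2, .ofNat 0⟩, ⟨.ofNat 2, .ofNat 0⟩, ⟨.ofNat 1, .ofNat 0⟩⟩ :=
  goodD lin H t9 (by decide +kernel)

/-- part of a tree -/
def t10_2 : Tree := .s13 ⟨⟨.ofNat 3, .ofNat 0⟩, ⟨.ofNat 7, .ofNat 0⟩, ⟨.ofNat 7, .ofNat 0⟩, ⟨.ofNat 3, .ofNat 0⟩⟩ ⟨.ofNat 0, .ofNat 1⟩ ⟨.ofNat 3, .negSucc 0⟩ ⟨.ofNat 1, .ofNat 0⟩ 0 (.s23 ⟨⟨.ofNat 27, .ofNat 0⟩, ⟨.ofNat 52, .ofNat 2⟩, ⟨.ofNat 60, .ofNat 0⟩, ⟨.ofNat 27, .ofNat 0⟩⟩ ⟨.ofNat 2, .ofNat 2⟩ ⟨.negSucc 5, .ofNat 21⟩ ⟨.ofNat 0, .ofNat 1⟩ 0 (.s13 ⟨⟨.ofNat 9, .ofNat 0⟩, ⟨.ofNat 20, .ofNat 0⟩, ⟨.ofNat 20, .ofNat 0⟩, ⟨.ofNat 9, .ofNat 0⟩⟩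 ⟨.ofNat 2, .ofNat 0⟩ ⟨.ofNat 3, .ofNat 0⟩ ⟨.ofNat 1, .ofNat 0⟩ 0 (.leaf 0 []) (.s01 ⟨⟨.ofNat 10, .ofNat 0⟩, ⟨.ofNat 20, .ofNat 0⟩, ⟨.ofNat 20, .ofNat 0⟩, ⟨.ofNat 9, .ofNat 0⟩⟩ ⟨.ofNat 1, .ofNat 0⟩ ⟨.ofNat 2, .ofNat 0⟩ ⟨.ofNat 1, .ofNat 0⟩ 0 (.s12 ⟨⟨.negSucc 17, .ofNat 81⟩, ⟨.negSucc 39, .ofNat 180⟩, ⟨.negSucc 41, .ofNat 186⟩, ⟨.negSucc 17, .ofNat 81⟩⟩ ⟨.negSucc 5, .ofNat 18⟩ ⟨.ofNat 0, .ofNat 1⟩ ⟨.ofNat 1, .ofNat 0⟩ 0 (.leaf 0 []) (.leaf 0 [])) (.leaf 0 []))) (.s01 ⟨⟨.ofNat 10, .ofNat 0⟩, ⟨.ofNat 20, .ofNat 0⟩, ⟨.ofNat 20, .ofNat 0⟩, ⟨.ofNat 9, .ofNat 0⟩⟩ ⟨.ofNat 1, .ofNat 0⟩ ⟨.ofNat 2, .ofNat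 0⟩ ⟨.ofNat 1, .ofNat 0⟩ 0 (.s13 ⟨⟨.negSucc 17, .ofNat 81⟩, ⟨.negSucc 39, .ofNat 180⟩, ⟨.negSucc 41, .ofNat 186⟩, ⟨.negSucc 17, .ofNat 81⟩⟩ ⟨.negSucc 5, .ofNat 18⟩ ⟨.ofNat 0, .ofNat 1⟩ ⟨.ofNat 1, .ofNat 0⟩ 0 (.leaf 0 [49, 64]) (.leaf 0 [15, 45, 64])) (.leaf 0 [35, 5, 64]))) (.s01 ⟨⟨.negSucc 0, .ofNat 7⟩, ⟨.ofNat 0, .ofNat 15⟩, ⟨.ofNat 0, .ofNat 15⟩, ⟨.ofNat 0, .ofNat 6⟩⟩ ⟨.ofNat 2, .negSucc 0⟩ ⟨.ofNat 0, .ofNat 3⟩ ⟨.negSucc 0, .ofNat 1⟩ 0 (.s12 ⟨⟨.ofNat 2, .ofNat 0⟩, ⟨.ofNat 5, .ofNat 0⟩, ⟨.ofNat 2, .ofNat 2⟩, ⟨.ofNat 2, .ofNat 0⟩⟩ ⟨.ofNat 1, .ofNat 3⟩ ⟨.negSucc 0, .ofNat 1⟩ ⟨.negSucc 0, .ofNat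 3⟩ 0 (.leaf 0 [0, 0, 16]) (.s13 ⟨⟨.ofNat 2, .ofNat 0⟩, ⟨.ofNat 5, .ofNat 0⟩, ⟨.ofNat 5, .ofNat 0⟩, ⟨.ofNat 2, .ofNat 0⟩⟩ ⟨.ofNat 1, .ofNat 1⟩ ⟨.negSucc 0, .ofNat 1⟩ ⟨.negSucc 0, .ofNat 2⟩ 0 (.leaf 0 [16]) (.leaf 0 []))) (.s02 ⟨⟨.ofNat 36, .negSucc 1⟩, ⟨.ofNat 52, .ofNat 2⟩, ⟨.ofNat 60, .ofNat 0⟩, ⟨.ofNat 27, .ofNat 0⟩⟩ ⟨.ofNat 9, .negSucc 1⟩ ⟨.ofNat 0, .ofNat 2⟩ ⟨.ofNat 1, .ofNat 0⟩ 0 (.leaf 0 [10, 0, 64]) (.s01 ⟨⟨.negSucc 1, .ofNat 34⟩, ⟨.ofNat 0, .ofNat 60⟩, ⟨.ofNat 0, .ofNat 60⟩, ⟨.ofNat 0, .ofNat 27⟩⟩ ⟨.ofNat 0, .ofNat 5⟩ ⟨.ofNat 2, .ofNat 0⟩ ⟨.ofNat 1, .ofNat 0⟩ 0 (.leaf 0 [10, 0]) (.leaf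 0 [20, 0, 0]))))

/-- part of a tree -/
def t10_1 : Tree := .s03 ⟨⟨.ofNat 4, .ofNat 0⟩, ⟨.ofNat 6, .ofNat 0⟩, ⟨.ofNat 6, .ofNat 0⟩, ⟨.ofNat 3, .ofNat 0⟩⟩ ⟨.ofNat 0, .ofNat 1⟩ ⟨.ofNat 6, .negSucc 0⟩ ⟨.ofNat 2, .ofNat 0⟩ 0 t10_2 (.s13 ⟨⟨.negSucc 1, .ofNat 34⟩, ⟨.ofNat 0, .ofNat 60⟩, ⟨.ofNat 0, .ofNat 60⟩, ⟨.ofNat 0, .ofNat 27⟩⟩ ⟨.ofNat 0, .ofNat 6⟩ ⟨.ofNat 9, .negSucc 1⟩ ⟨.negSucc 0, .ofNat 1⟩ 0 (.leaf 0 [10, 30, 64, 64, 64]) (.leaf 0 [0, 0, 0, 16, 64, 0, 64]))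

/-- part of a tree -/
def t10_0 : Tree := .s23 ⟨⟨.ofNat 3, .ofNat 0⟩, ⟨.ofNat 8, .negSucc 0⟩, ⟨.ofNat 3, .ofNat 3⟩, ⟨.ofNat 3, .ofNat 0⟩⟩ ⟨.ofNat 1, .ofNat 0⟩ ⟨.negSucc 0, .ofNat 3⟩ ⟨.ofNat 0, .ofNat 1⟩ 0 t10_1 (.s12 ⟨⟨.ofNat 1, .ofNat 0⟩, ⟨.ofNat 1, .ofNat 1⟩, ⟨.ofNat 0, .ofNat 2⟩, ⟨.ofNat 1, .ofNat 0⟩⟩ ⟨.negSucc 1, .ofNat 3⟩ ⟨.ofNat 1, .ofNat 0⟩ ⟨.negSucc 0, .ofNat 3⟩ 0 (.s03 ⟨⟨.ofNat 3, .ofNat 18⟩, ⟨.negSucc 12, .ofNat 42⟩, ⟨.ofNat 12, .ofNat 33⟩, ⟨.negSucc 2, .ofNat 18⟩⟩ ⟨.ofNat 0, .ofNat 3⟩ ⟨.negSucc 0, .ofNat 5⟩ ⟨.ofNat 1, .ofNat 0⟩ 0 (.s23 ⟨⟨.ofNat 3, .ofNat 0⟩, ⟨.ofNat 10, .negSucc 1⟩,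 ⟨.ofNat 0, .ofNat 6⟩, ⟨.ofNat 3, .ofNat 0⟩⟩ ⟨.ofNat 3, .ofNat 0⟩ ⟨.negSucc 1, .ofNat 3⟩ ⟨.negSucc 0, .ofNat 3⟩ 0 (.leaf 0 [29, 0, 8, 64, 0]) (.s02 ⟨⟨.negSucc 50, .ofNat 171⟩, ⟨.negSucc 49, .ofNat 306⟩, ⟨.negSucc 269, .ofNat 570⟩, ⟨.negSucc 80, .ofNat 171⟩⟩ ⟨.ofNat 0, .ofNat 5⟩ ⟨.ofNat 81, .ofNat 15⟩ ⟨.ofNat 0, .ofNat 1⟩ 0 (.leaf 0 [9, 0, 0, 64]) (.leaf 0 [33, 0, 0, 64, 64]))) (.s02 ⟨⟨.negSucc 0, .ofNat 10⟩, ⟨.ofNat 14, .ofNat 4⟩, ⟨.ofNat 30, .ofNat 0⟩, ⟨.ofNat 9, .ofNat 0⟩⟩ ⟨.ofNat 5, .ofNat 0⟩ ⟨.ofNat 4, .ofNat 0⟩ ⟨.ofNat 1, .ofNat 0⟩ 0 (.s23 ⟨⟨.negSucc 50, .ofNat 171⟩, ⟨.negSucc 49, .ofNat 306⟩,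 ⟨.negSucc 269, .ofNat 570⟩, ⟨.negSucc 80, .ofNat 171⟩⟩ ⟨.ofNat 81, .ofNat 15⟩ ⟨.ofNat 0, .ofNat 5⟩ ⟨.ofNat 0, .ofNat 1⟩ 0 (.leaf 0 [33, 0, 64, 64, 64]) (.leaf 0 [21, 0, 3, 64])) (.leaf 0 [0, 29, 0, 64, 0, 0, 25]))) (.leaf 0 [0, 28, 0, 0, 16, 64, 0, 64]))

/-- part of a tree -/
def t10 : Tree := .s03 ⟨⟨.negSucc 0, .ofNat 2⟩, ⟨.ofNat 2, .ofNat 0⟩, ⟨.ofNat 2, .ofNat 0⟩, ⟨.ofNat 1, .ofNat 0⟩⟩ ⟨.ofNat 2, .ofNat 0⟩ ⟨.ofNat 0, .ofNat 1⟩ ⟨.ofNat 0, .ofNat 1⟩ 0 t10_0 (.s01 ⟨⟨.ofNat 1, .ofNat 0⟩, ⟨.ofNat 0, .ofNat 1⟩, ⟨.ofNat 0, .ofNat 1⟩, ⟨.negSucc 0, .ofNat 1⟩⟩ ⟨.negSucc 0, .ofNat 1⟩ ⟨.ofNat 1, .ofNat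 0⟩ ⟨.ofNat 0, .ofNat 1⟩ 0 (.s12 ⟨⟨.ofNat 1, .ofNat 0⟩, ⟨.ofNat 1, .ofNat 1⟩, ⟨.ofNat 0, .ofNat 2⟩, ⟨.ofNat 1, .ofNat 0⟩⟩ ⟨.negSucc 1, .ofNat 3⟩ ⟨.ofNat 1, .ofNat 0⟩ ⟨.negSucc 0, .ofNat 3⟩ 0 (.s23 ⟨⟨.ofNat 8, .ofNat 1⟩, ⟨.negSucc 0, .ofNat 7⟩, ⟨.ofNat 3, .ofNat 6⟩, ⟨.ofNat 0, .ofNat 3⟩⟩ ⟨.ofNat 1, .ofNat 0⟩ ⟨.negSucc 0, .ofNat 3⟩ ⟨.ofNat 1, .ofNat 0⟩ 0 (.leaf 0 [0, 29, 0, 64, 0, 0]) (.leaf 0 [0, 64, 4, 0, 0])) (.leaf 0 [0, 33, 0, 14, 0, 0, 0])) (.s23 ⟨⟨.ofNat 8, .ofNat 1⟩, ⟨.negSucc 0, .ofNat 7⟩, ⟨.ofNat 3, .ofNat 6⟩, ⟨.ofNat 0, .ofNat 3⟩⟩ ⟨.ofNat 1, .ofNat 0⟩ ⟨.negSucc 0, .ofNat 3⟩ ⟨.ofNat 1, .ofNat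 0⟩ 0 (.leaf 0 [6, 0, 64, 0, 64]) (.s02 ⟨⟨.ofNat 0, .ofNat 1⟩, ⟨.ofNat 1, .ofNat 1⟩, ⟨.ofNat 5, .ofNat 0⟩, ⟨.ofNat 1, .ofNat 0⟩⟩ ⟨.ofNat 1, .ofNat 0⟩ ⟨.ofNat 0, .ofNat 1⟩ ⟨.ofNat 0, .ofNat 1⟩ 0 (.leaf 0 [0, 64, 4, 0, 0]) (.leaf 0 [0, 64, 5, 6, 0]))))

theorem g10 : Good (PD lin H) ⟨⟨.ofNat 1, .ofNat 0⟩, ⟨.ofNat 0, .ofNat 0⟩, ⟨.ofNat 0, .ofNat 0⟩, ⟨.ofNat 0, .ofNat 0⟩⟩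
    ⟨⟨.ofNat 1, .ofNat 0⟩, ⟨.ofNat 1, .ofNat 1⟩, ⟨.ofNat 1, .ofNat 1⟩, ⟨.ofNat 1, .ofNat 0⟩⟩
    ⟨⟨.ofNat 1, .ofNat 0⟩, ⟨.ofNat 1, .ofNat 1⟩, ⟨.ofNat 5, .ofNat 0⟩, ⟨.ofNat 1, .ofNat 0⟩⟩
    ⟨⟨.ofNat 1, .ofNat 0⟩, ⟨.ofNat 2, .ofNat 0⟩, ⟨.ofNat 2, .ofNat 0⟩, ⟨.ofNat 1, .ofNat 0⟩⟩ :=
  goodD lin H t10 (by decide +kernel)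

/-- part of a tree -/
def t12_0 : Tree := .s23 ⟨⟨.ofNat 1, .ofNat 0⟩, ⟨.ofNat 1, .ofNat 1⟩, ⟨.ofNat 5, .ofNat 0⟩, ⟨.ofNat 1, .ofNat 0⟩⟩ ⟨.negSucc 0, .ofNat 3⟩ ⟨.ofNat 0, .ofNat 1⟩ ⟨.ofNat 0, .ofNat 1⟩ 0 (.s03 ⟨⟨.ofNat 1, .ofNat 0⟩, ⟨.ofNat 0, .ofNat 1⟩, ⟨.ofNat 0, .ofNat 1⟩, ⟨.negSucc 0, .ofNat 1⟩⟩ ⟨.negSucc 0, .ofNat 1⟩ ⟨.ofNat 1, .ofNat 0⟩ ⟨.ofNat 0, .ofNat 1⟩ 0 (.s13 ⟨⟨.ofNat 1, .ofNat 0⟩, ⟨.ofNat 0, .ofNat 2⟩, ⟨.ofNat 0, .ofNat 2⟩, ⟨.ofNat 1, .ofNat 0⟩⟩ ⟨.ofNat 1, .ofNat 0⟩ ⟨.negSucc 1, .ofNat 3⟩ ⟨.negSucc 0, .ofNat 3⟩ 0 (.s23 ⟨⟨.ofNat 1, .ofNat 0⟩, ⟨.ofNat 1, .ofNat 1⟩, ⟨.ofNat 0, .ofNat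 2⟩, ⟨.ofNat 1, .ofNat 0⟩⟩ ⟨.ofNat 1, .ofNat 0⟩ ⟨.negSucc 1, .ofNat 3⟩ ⟨.negSucc 0, .ofNat 3⟩ 0 (.leaf 0 [63, 0]) (.leaf 0 [64, 4, 0])) (.s12 ⟨⟨.ofNat 1, .ofNat 0⟩, ⟨.ofNat 0, .ofNat 2⟩, ⟨.ofNat 5, .ofNat 0⟩, ⟨.ofNat 1, .ofNat 0⟩⟩ ⟨.ofNat 1, .ofNat 0⟩ ⟨.negSucc 1, .ofNat 3⟩ ⟨.negSucc 0, .ofNat 3⟩ 0 (.leaf 0 [64, 4, 0]) (.s01 ⟨⟨.ofNat 2, .ofNat 9⟩, ⟨.negSucc 9, .ofNat 30⟩, ⟨.negSucc 9, .ofNat 30⟩, ⟨.negSucc 2, .ofNat 9⟩⟩ ⟨.ofNat 0, .ofNat 5⟩ ⟨.ofNat 7, .negSucc 2⟩ ⟨.negSucc 0, .ofNat 1⟩ 0 (.leaf 0 [7, 0, 0, 0]) (.leaf 0 [64, 11])))) (.s02 ⟨⟨.ofNat 0, .ofNat 1⟩, ⟨.ofNat 1, .ofNat 1⟩, ⟨.ofNat 5, .ofNat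 0⟩, ⟨.ofNat 1, .ofNat 0⟩⟩ ⟨.ofNat 1, .ofNat 0⟩ ⟨.ofNat 0, .ofNat 1⟩ ⟨.ofNat 0, .ofNat 1⟩ 0 (.s12 ⟨⟨.ofNat 1, .ofNat 0⟩, ⟨.ofNat 0, .ofNat 2⟩, ⟨.ofNat 5, .ofNat 0⟩, ⟨.ofNat 1, .ofNat 0⟩⟩ ⟨.ofNat 1, .ofNat 0⟩ ⟨.negSucc 1, .ofNat 3⟩ ⟨.negSucc 0, .ofNat 3⟩ 0 (.leaf 0 [64, 4, 0]) (.s13 ⟨⟨.ofNat 2, .ofNat 9⟩, ⟨.negSucc 9, .ofNat 30⟩, ⟨.negSucc 9, .ofNat 30⟩, ⟨.negSucc 2, .ofNat 9⟩⟩ ⟨.ofNat 7, .negSucc 2⟩ ⟨.ofNat 0, .ofNat 5⟩ ⟨.negSucc 0, .ofNat 1⟩ 0 (.leaf 0 [64, 5]) (.s01 ⟨⟨.ofNat 2, .ofNat 9⟩, ⟨.negSucc 9, .ofNat 30⟩, ⟨.negSucc 14, .ofNat 45⟩, ⟨.negSucc 2, .ofNat 9⟩⟩ ⟨.ofNat 0, .ofNat 5⟩ ⟨.negSucc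 2, .ofNat 4⟩ ⟨.ofNat 1, .ofNat 0⟩ 0 (.leaf 0 [6, 0, 0]) (.leaf 0 [10])))) (.s13 ⟨⟨.ofNat 2, .ofNat 9⟩, ⟨.negSucc 9, .ofNat 30⟩, ⟨.negSucc 9, .ofNat 30⟩, ⟨.negSucc 2, .ofNat 9⟩⟩ ⟨.ofNat 7, .negSucc 2⟩ ⟨.ofNat 0, .ofNat 5⟩ ⟨.negSucc 0, .ofNat 1⟩ 0 (.leaf 0 [64, 5]) (.s12 ⟨⟨.ofNat 2, .ofNat 9⟩, ⟨.negSucc 9, .ofNat 30⟩, ⟨.negSucc 14, .ofNat 45⟩, ⟨.negSucc 2, .ofNat 9⟩⟩ ⟨.negSucc 2, .ofNat 4⟩ ⟨.ofNat 0, .ofNat 5⟩ ⟨.ofNat 1, .ofNat 0⟩ 0 (.leaf 0 [10]) (.leaf 0 [3, 0]))))) (.s03 ⟨⟨.ofNat 0, .ofNat 1⟩, ⟨.ofNat 1, .ofNat 1⟩, ⟨.ofNat 5, .ofNat 0⟩, ⟨.ofNat 1, .ofNat 0⟩⟩ ⟨.ofNat 1, .ofNat 0⟩ ⟨.ofNat 0, .ofNat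 1⟩ ⟨.ofNat 0, .ofNat 1⟩ 0 (.s13 ⟨⟨.ofNat 1, .ofNat 0⟩, ⟨.ofNat 0, .ofNat 2⟩, ⟨.ofNat 5, .ofNat 0⟩, ⟨.ofNat 1, .ofNat 0⟩⟩ ⟨.ofNat 1, .ofNat 0⟩ ⟨.negSucc 1, .ofNat 3⟩ ⟨.negSucc 0, .ofNat 3⟩ 0 (.leaf 0 [2]) (.s01 ⟨⟨.ofNat 2, .ofNat 9⟩, ⟨.negSucc 9, .ofNat 30⟩, ⟨.negSucc 14, .ofNat 45⟩, ⟨.negSucc 2, .ofNat 9⟩⟩ ⟨.ofNat 0, .ofNat 5⟩ ⟨.negSucc 2, .ofNat 4⟩ ⟨.ofNat 1, .ofNat 0⟩ 0 (.leaf 0 [6, 0]) (.leaf 0 []))) (.s13 ⟨⟨.ofNat 2, .ofNat 9⟩, ⟨.negSucc 9, .ofNat 30⟩, ⟨.negSucc 14, .ofNat 45⟩, ⟨.negSucc 2, .ofNat 9⟩⟩ ⟨.negSucc 2, .ofNat 4⟩ ⟨.ofNat 0, .ofNat 5⟩ ⟨.ofNat 1, .ofNat 0⟩ 0 (.leaf 0 []) (.leaf 0 [3])))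

/-- part of a tree -/
def t12 : Tree := .s13 ⟨⟨.ofNat 1, .ofNat 0⟩, ⟨.ofNat 5, .ofNat 0⟩, ⟨.ofNat 5, .ofNat 0⟩, ⟨.ofNat 1, .ofNat 0⟩⟩ ⟨.negSucc 0, .ofNat 3⟩ ⟨.ofNat 0, .ofNat 1⟩ ⟨.ofNat 0, .ofNat 1⟩ 0 t12_0 (.leaf 0 [])

theorem g12 : Good (PD lin H) ⟨⟨.ofNat 1, .ofNat 0⟩, ⟨.ofNat 0, .ofNat 0⟩, ⟨.ofNat 0, .ofNat 0⟩, ⟨.ofNat 0, .ofNat 0⟩⟩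
    ⟨⟨.ofNat 0, .ofNat 0⟩, ⟨.ofNat 1, .ofNat 0⟩, ⟨.ofNat 1, .ofNat 0⟩, ⟨.ofNat 0, .ofNat 0⟩⟩
    ⟨⟨.ofNat 0, .ofNat 0⟩, ⟨.ofNat 0, .ofNat 0⟩, ⟨.ofNat 1, .ofNat 0⟩, ⟨.ofNat 0, .ofNat 0⟩⟩
    ⟨⟨.ofNat 1, .ofNat 0⟩, ⟨.ofNat 1, .ofNat 1⟩, ⟨.ofNat 1, .ofNat 1⟩, ⟨.ofNat 1, .ofNat 0⟩⟩ :=
  goodD lin H t12 (by decide +kernel)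

end

end Pool.Agent.PHCert.D6
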