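import Pool.Agent.PHCert.D6H

/-!
# PHCert: inequality D6, part 1 (85 leaves, checked by the kernel)
-/

set_option autoImplicit false

namespace Pool.Agent.PHCert.D6

open Zp Pool.Agent.PHCert

noncomputable section

/-- part of a tree -/
def t0 : Tree := .s23 ⟨⟨.ofNat 4, .ofNat 0⟩, ⟨.ofNat 4, .ofNat 0⟩, ⟨.ofNat 5, .ofNat 0⟩, ⟨.ofNat 4, .ofNat 0⟩⟩ ⟨.ofNat 1, .ofNat 0⟩ ⟨.negSucc 0, .ofNat 4⟩ ⟨.ofNat 0, .ofNat 1⟩ 0 (.s13 ⟨⟨.ofNat 4, .ofNat 0⟩, ⟨.ofNat 5, .ofNat 0⟩, ⟨.ofNat 5, .ofNat 0⟩, ⟨.ofNat 4, .ofNat 0⟩⟩ ⟨.ofNat 1, .ofNat 0⟩ ⟨.ofNat 5, .ofNat 0⟩ ⟨.ofNat 3, .ofNat 0⟩ 0 (.leaf 0 [64, 64, 64, 21, 64, 64,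 64, 21, 64, 64]) (.s12 ⟨⟨.ofNat 48, .ofNat 0⟩, ⟨.ofNat 60, .ofNat 0⟩, ⟨.ofNat 65, .ofNat 0⟩, ⟨.ofNat 48, .ofNat 0⟩⟩ ⟨.ofNat 4, .ofNat 0⟩ ⟨.ofNat 5, .ofNat 0⟩ ⟨.ofNat 1, .ofNat 0⟩ 0 (.leaf 0 [64, 64, 64, 0, 64, 64, 64, 30, 64, 64]) (.leaf 0 [1, 64, 64, 64, 0, 64, 64, 64, 64, 59]))) (.s13 ⟨⟨.ofNat 48, .ofNat 0⟩, ⟨.ofNat 60, .ofNat 0⟩, ⟨.ofNat 65, .ofNat 0⟩, ⟨.ofNat 48, .ofNat 0⟩⟩ ⟨.ofNat 4, .ofNat 0⟩ ⟨.ofNat 5, .ofNat 0⟩ ⟨.ofNat 1, .ofNat 0⟩ 0 (.s02 ⟨⟨.negSucc 11, .ofNat 49⟩, ⟨.ofNat 0, .ofNat 21⟩, ⟨.ofNat 0, .ofNat 30⟩, ⟨.ofNat 0, .ofNat 21⟩⟩ ⟨.negSucc 2, .ofNat 7⟩ ⟨.ofNat 9, .ofNat 0⟩ ⟨.ofNat 1, .ofNat 0⟩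 0 (.s23 ⟨⟨.ofNat 7, .ofNat 0⟩, ⟨.ofNat 7, .ofNat 0⟩, ⟨.ofNat 10, .ofNat 0⟩, ⟨.ofNat 7, .ofNat 0⟩⟩ ⟨.ofNat 5, .ofNat 0⟩ ⟨.negSucc 2, .ofNat 7⟩ ⟨.negSucc 0, .ofNat 4⟩ 0 (.leaf 0 [64, 64, 64, 64, 64, 64, 64, 64, 23]) (.s12 ⟨⟨.negSucc 16, .ofNat 48⟩, ⟨.negSucc 28, .ofNat 60⟩, ⟨.negSucc 33, .ofNat 96⟩, ⟨.negSucc 16, .ofNat 48⟩⟩ ⟨.ofNat 1, .ofNat 0⟩ ⟨.ofNat 0, .ofNat 31⟩ ⟨.ofNat 0, .ofNat 1⟩ 0 (.leaf 0 [64, 64, 59, 0, 64, 64, 0, 0, 0, 64, 64, 64, 64, 64, 0]) (.leaf 0 [64, 64, 64, 64, 64, 64, 64, 0, 64, 64, 17, 64, 64]))) (.leaf 0 [64, 64, 64, 64, 7, 64, 64, 64, 47, 64, 64])) (.s02 ⟨⟨.negSucc 3, .ofNat 7⟩, ⟨.ofNat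 0, .ofNat 3⟩, ⟨.ofNat 0, .ofNat 6⟩, ⟨.ofNat 0, .ofNat 3⟩⟩ ⟨.ofNat 1, .ofNat 0⟩ ⟨.ofNat 0, .ofNat 3⟩ ⟨.ofNat 0, .ofNat 1⟩ 0 (.s23 ⟨⟨.negSucc 16, .ofNat 48⟩, ⟨.negSucc 28, .ofNat 60⟩, ⟨.negSucc 33, .ofNat 96⟩, ⟨.negSucc 16, .ofNat 48⟩⟩ ⟨.ofNat 0, .ofNat 31⟩ ⟨.ofNat 1, .ofNat 0⟩ ⟨.ofNat 0, .ofNat 1⟩ 0 (.leaf 0 [2, 64, 64, 64, 64, 64, 64, 64, 0, 0, 64, 21]) (.s12 ⟨⟨.negSucc 2, .ofNat 7⟩, ⟨.negSucc 5, .ofNat 10⟩, ⟨.negSucc 5, .ofNat 14⟩, ⟨.negSucc 2, .ofNat 7⟩⟩ ⟨.ofNat 1, .ofNat 0⟩ ⟨.ofNat 0, .ofNat 4⟩ ⟨.ofNat 0, .ofNat 1⟩ 0 (.leaf 0 [55, 34, 64, 64, 64]) (.leaf 0 [0, 64, 64, 64, 64, 64, 64, 61, 0, 64, 0])))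 (.leaf 0 [3, 64, 64, 64, 64, 64, 64, 64, 0, 0, 64, 64, 64, 64, 54])))

theorem g0 : Good (PD lin H) ⟨⟨.ofNat 7, .ofNat 0⟩, ⟨.ofNat 3, .ofNat 0⟩, ⟨.ofNat 3, .ofNat 0⟩, ⟨.ofNat 3, .ofNat 0⟩⟩
    ⟨⟨.ofNat 7, .ofNat 0⟩, ⟨.ofNat 10, .ofNat 0⟩, ⟨.ofNat 10, .ofNat 0⟩, ⟨.ofNat 7, .ofNat 0⟩⟩
    ⟨⟨.ofNat 1, .ofNat 0⟩, ⟨.ofNat 1, .ofNat 0⟩, ⟨.ofNat 1, .ofNat 1⟩, ⟨.ofNat 1, .ofNat 0⟩⟩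
    ⟨⟨.ofNat 1, .ofNat 0⟩, ⟨.ofNat 1, .ofNat 0⟩, ⟨.ofNat 1, .ofNat 0⟩, ⟨.ofNat 1, .ofNat 0⟩⟩ :=
  goodD lin H t0 (by decide +kernel)

/-- part of a tree -/
def t1_2 : Tree := .s03 ⟨⟨.ofNat 120, .ofNat 0⟩, ⟨.ofNat 140, .ofNat 0⟩, ⟨.ofNat 140, .ofNat 0⟩, ⟨.ofNat 91, .ofNat 0⟩⟩ ⟨.ofNat 29, .ofNat 0⟩ ⟨.ofNat 27, .ofNat 0⟩ ⟨.ofNat 8, .ofNat 0⟩ 0 (.s13 ⟨⟨.ofNat 7, .ofNat 0⟩, ⟨.ofNat 13, .ofNat 0⟩, ⟨.ofNat 13, .ofNat 0⟩, ⟨.ofNat 7, .ofNat 0⟩⟩ ⟨.ofNat 29, .ofNat 0⟩ ⟨.ofNat 1, .ofNat 0⟩ ⟨.ofNat 6, .ofNat 0⟩ 0 (.s13 ⟨⟨.ofNat 1, .ofNat 0⟩, ⟨.ofNat 0, .ofNat 1⟩, ⟨.ofNat 0, .ofNat 1⟩, ⟨.ofNat 1, .ofNat 0⟩⟩ ⟨.ofNat 2,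 .negSucc 0⟩ ⟨.negSucc 0, .ofNat 1⟩ ⟨.ofNat 1, .ofNat 6⟩ 0 (.s23 ⟨⟨.ofNat 13, .ofNat 0⟩, ⟨.ofNat 20, .ofNat 0⟩, ⟨.ofNat 0, .ofNat 13⟩, ⟨.ofNat 13, .ofNat 0⟩⟩ ⟨.negSucc 0, .ofNat 1⟩ ⟨.ofNat 13, .ofNat 0⟩ ⟨.ofNat 6, .ofNat 7⟩ 0 (.leaf 0 [62, 61]) (.leaf 0 [53, 0, 64])) (.s13 ⟨⟨.ofNat 3, .ofNat 0⟩, ⟨.ofNat 5, .ofNat 0⟩, ⟨.ofNat 5, .ofNat 0⟩, ⟨.ofNat 3, .ofNat 0⟩⟩ ⟨.ofNat 2, .negSucc 0⟩ ⟨.ofNat 4, .ofNat 4⟩ ⟨.ofNat 6, .negSucc 0⟩ 0 (.s12 ⟨⟨.ofNat 0, .ofNat 35⟩, ⟨.ofNat 35, .ofNat 35⟩, ⟨.negSucc 51, .ofNat 93⟩, ⟨.ofNat 0, .ofNat 35⟩⟩ ⟨.negSucc 6, .ofNat 35⟩ ⟨.ofNat 1, .ofNat 0⟩ ⟨.ofNat 1, .ofNat 2⟩ 0 (.leaf 0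 [46, 0, 30]) (.leaf 0 [0, 46, 0])) (.s12 ⟨⟨.ofNat 7, .ofNat 0⟩, ⟨.ofNat 0, .ofNat 7⟩, ⟨.ofNat 13, .ofNat 0⟩, ⟨.ofNat 7, .ofNat 0⟩⟩ ⟨.negSucc 6, .ofNat 7⟩ ⟨.ofNat 1, .ofNat 0⟩ ⟨.ofNat 6, .ofNat 7⟩ 0 (.leaf 0 [9, 0, 0, 0]) (.s12 ⟨⟨.ofNat 21, .ofNat 0⟩, ⟨.ofNat 35, .ofNat 0⟩, ⟨.ofNat 39, .ofNat 0⟩, ⟨.ofNat 21, .ofNat 0⟩⟩ ⟨.negSucc 6, .ofNat 7⟩ ⟨.ofNat 4, .ofNat 8⟩ ⟨.negSucc 0, .ofNat 5⟩ 0 (.leaf 0 [1, 0, 0]) (.leaf 0 [1, 0, 0, 0]))))) (.s12 ⟨⟨.ofNat 294, .ofNat 0⟩, ⟨.ofNat 546, .ofNat 0⟩, ⟨.ofNat 575, .ofNat 0⟩, ⟨.ofNat 294, .ofNat 0⟩⟩ ⟨.ofNat 203, .ofNat 0⟩ ⟨.ofNat 1, .ofNat 0⟩ ⟨.ofNat 1, .ofNat 0⟩ 0 (.s23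 ⟨⟨.ofNat 7, .ofNat 0⟩, ⟨.ofNat 0, .ofNat 7⟩, ⟨.ofNat 13, .ofNat 0⟩, ⟨.ofNat 7, .ofNat 0⟩⟩ ⟨.ofNat 1, .ofNat 0⟩ ⟨.negSucc 6, .ofNat 7⟩ ⟨.ofNat 6, .ofNat 7⟩ 0 (.s23 ⟨⟨.ofNat 21, .ofNat 0⟩, ⟨.ofNat 35, .ofNat 0⟩, ⟨.ofNat 39, .ofNat 0⟩, ⟨.ofNat 21, .ofNat 0⟩⟩ ⟨.ofNat 4, .ofNat 8⟩ ⟨.negSucc 6, .ofNat 7⟩ ⟨.negSucc 0, .ofNat 5⟩ 0 (.leaf 0 [1, 0, 0, 0]) (.leaf 0 [37, 0, 0, 0])) (.s12 ⟨⟨.ofNat 42, .ofNat 0⟩, ⟨.ofNat 0, .ofNat 42⟩, ⟨.ofNat 58, .ofNat 13⟩, ⟨.ofNat 42, .ofNat 0⟩⟩ ⟨.negSucc 0, .ofNat 1⟩ ⟨.ofNat 6, .ofNat 0⟩ ⟨.ofNat 6, .ofNat 7⟩ 0 (.leaf 0 [0, 0, 52]) (.leaf 0 [37, 0, 0, 0]))) (.leaf 0 [1, 0, 0, 0])))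 (.s02 ⟨⟨.ofNat 6720, .ofNat 0⟩, ⟨.ofNat 7840, .ofNat 0⟩, ⟨.ofNat 8623, .ofNat 0⟩, ⟨.ofNat 5096, .ofNat 0⟩⟩ ⟨.ofNat 203, .ofNat 0⟩ ⟨.ofNat 27, .ofNat 0⟩ ⟨.ofNat 1, .ofNat 0⟩ 0 (.s12 ⟨⟨.ofNat 294, .ofNat 0⟩, ⟨.ofNat 546, .ofNat 0⟩, ⟨.ofNat 575, .ofNat 0⟩, ⟨.ofNat 294, .ofNat 0⟩⟩ ⟨.ofNat 203, .ofNat 0⟩ ⟨.ofNat 1, .ofNat 0⟩ ⟨.ofNat 1, .ofNat 0⟩ 0 (.s12 ⟨⟨.ofNat 42, .ofNat 0⟩, ⟨.ofNat 0, .ofNat 42⟩, ⟨.ofNat 58, .ofNat 13⟩, ⟨.ofNat 42, .ofNat 0⟩⟩ ⟨.negSucc 0, .ofNat 1⟩ ⟨.ofNat 6, .ofNat 0⟩ ⟨.ofNat 6, .ofNat 7⟩ 0 (.leaf 0 [64, 0, 0, 52]) (.leaf 0 [25, 0, 64, 0, 0])) (.leaf 0 [3, 0, 64, 0, 0])) (.leaf 0 [4, 0, 64,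 0, 0, 57]))

/-- part of a tree -/
def t1_1 : Tree := .s23 ⟨⟨.ofNat 91, .ofNat 0⟩, ⟨.ofNat 140, .ofNat 0⟩, ⟨.ofNat 169, .ofNat 0⟩, ⟨.ofNat 91, .ofNat 0⟩⟩ ⟨.ofNat 0, .ofNat 29⟩ ⟨.ofNat 42, .ofNat 13⟩ ⟨.ofNat 6, .ofNat 6⟩ 0 t1_2 (.s02 ⟨⟨.negSucc 7, .ofNat 21⟩, ⟨.ofNat 0, .ofNat 20⟩, ⟨.ofNat 0, .ofNat 26⟩, ⟨.ofNat 0, .ofNat 13⟩⟩ ⟨.ofNat 1, .ofNat 0⟩ ⟨.ofNat 0, .ofNat 1⟩ ⟨.ofNat 0, .ofNat 1⟩ 0 (.s23 ⟨⟨.ofNat 13, .ofNat 0⟩, ⟨.ofNat 20, .ofNat 0⟩, ⟨.ofNat 26, .ofNat 0⟩, ⟨.ofNat 13, .ofNat 0⟩⟩ ⟨.ofNat 0, .ofNat 13⟩ ⟨.ofNat 6, .ofNat 0⟩ ⟨.ofNat 42, .ofNat 13⟩ 0 (.s13 ⟨⟨.ofNat 294, .ofNat 0⟩, ⟨.ofNat 546, .ofNat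 0⟩, ⟨.ofNat 575, .ofNat 0⟩, ⟨.ofNat 294, .ofNat 0⟩⟩ ⟨.ofNat 203, .ofNat 0⟩ ⟨.ofNat 1, .ofNat 0⟩ ⟨.ofNat 1, .ofNat 0⟩ 0 (.s13 ⟨⟨.ofNat 42, .ofNat 0⟩, ⟨.ofNat 0, .ofNat 42⟩, ⟨.ofNat 58, .ofNat 13⟩, ⟨.ofNat 42, .ofNat 0⟩⟩ ⟨.negSucc 0, .ofNat 1⟩ ⟨.ofNat 6, .ofNat 0⟩ ⟨.ofNat 6, .ofNat 7⟩ 0 (.leaf 0 [64, 45]) (.leaf 0 [34, 0, 64, 0])) (.s12 ⟨⟨.ofNat 7, .ofNat 0⟩, ⟨.ofNat 13, .ofNat 0⟩, ⟨.ofNat 14, .ofNat 0⟩, ⟨.ofNat 7, .ofNat 0⟩⟩ ⟨.ofNat 29, .ofNat 0⟩ ⟨.ofNat 1, .ofNat 0⟩ ⟨.ofNat 6, .ofNat 0⟩ 0 (.leaf 0 [34, 0, 64, 0]) (.leaf 0 [0, 0, 50, 6]))) (.s13 ⟨⟨.ofNat 7, .ofNat 0⟩, ⟨.ofNat 13, .ofNat 0⟩, ⟨.ofNat 14, .ofNat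 0⟩, ⟨.ofNat 7, .ofNat 0⟩⟩ ⟨.ofNat 29, .ofNat 0⟩ ⟨.ofNat 1, .ofNat 0⟩ ⟨.ofNat 6, .ofNat 0⟩ 0 (.leaf 0 [44, 0, 64, 0]) (.leaf 0 [0, 0, 64, 19, 0]))) (.s03 ⟨⟨.ofNat 6720, .ofNat 0⟩, ⟨.ofNat 7840, .ofNat 0⟩, ⟨.ofNat 8623, .ofNat 0⟩, ⟨.ofNat 5096, .ofNat 0⟩⟩ ⟨.ofNat 203, .ofNat 0⟩ ⟨.ofNat 27, .ofNat 0⟩ ⟨.ofNat 1, .ofNat 0⟩ 0 (.s13 ⟨⟨.ofNat 294, .ofNat 0⟩, ⟨.ofNat 546, .ofNat 0⟩, ⟨.ofNat 575, .ofNat 0⟩, ⟨.ofNat 294, .ofNat 0⟩⟩ ⟨.ofNat 203, .ofNat 0⟩ ⟨.ofNat 1, .ofNat 0⟩ ⟨.ofNat 1, .ofNat 0⟩ 0 (.s13 ⟨⟨.ofNat 42, .ofNat 0⟩, ⟨.ofNat 0, .ofNat 42⟩, ⟨.ofNat 58, .ofNat 13⟩, ⟨.ofNat 42, .ofNat 0⟩⟩ ⟨.negSucc 0, .ofNat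 1⟩ ⟨.ofNat 6, .ofNat 0⟩ ⟨.ofNat 6, .ofNat 7⟩ 0 (.leaf 0 [64, 45]) (.leaf 0 [25, 0, 64])) (.leaf 0 [0, 0, 50, 6])) (.leaf 0 [0, 0, 0, 0, 64, 3])))

/-- part of a tree -/
def t1_0 : Tree := .s13 ⟨⟨.ofNat 13, .ofNat 0⟩, ⟨.ofNat 20, .ofNat 0⟩, ⟨.ofNat 20, .ofNat 0⟩, ⟨.ofNat 13, .ofNat 0⟩⟩ ⟨.ofNat 5, .ofNat 0⟩ ⟨.ofNat 3, .ofNat 0⟩ ⟨.ofNat 2, .ofNat 0⟩ 0 (.s23 ⟨⟨.ofNat 208, .ofNat 65⟩, ⟨.ofNat 290, .ofNat 100⟩, ⟨.ofNat 320, .ofNat 100⟩, ⟨.ofNat 208, .ofNat 65⟩⟩ ⟨.ofNat 5, .ofNat 0⟩ ⟨.ofNat 0, .ofNat 39⟩ ⟨.ofNat 0, .ofNat 1⟩ 0 (.leaf 0 [64, 64, 64, 64, 64, 64, 8, 64]) (.s12 ⟨⟨.ofNat 13, .ofNat 0⟩, ⟨.ofNat 20, .ofNat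 0⟩, ⟨.ofNat 26, .ofNat 0⟩, ⟨.ofNat 13, .ofNat 0⟩⟩ ⟨.negSucc 0, .ofNat 1⟩ ⟨.ofNat 1, .ofNat 0⟩ ⟨.ofNat 0, .ofNat 1⟩ 0 (.s23 ⟨⟨.ofNat 16, .ofNat 5⟩, ⟨.ofNat 20, .ofNat 10⟩, ⟨.ofNat 32, .ofNat 10⟩, ⟨.ofNat 16, .ofNat 5⟩⟩ ⟨.ofNat 16, .ofNat 5⟩ ⟨.negSucc 0, .ofNat 1⟩ ⟨.ofNat 0, .ofNat 13⟩ 0 (.s03 ⟨⟨.ofNat 7680, .ofNat 2400⟩, ⟨.ofNat 8555, .ofNat 2800⟩, ⟨.ofNat 8960, .ofNat 2800⟩, ⟨.ofNat 5824, .ofNat 1820⟩⟩ ⟨.ofNat 464, .ofNat 145⟩ ⟨.ofNat 27, .ofNat 0⟩ ⟨.ofNat 2, .ofNat 0⟩ 0 (.s13 ⟨⟨.ofNat 1456, .ofNat 455⟩, ⟨.ofNat 2175, .ofNat 700⟩, ⟨.ofNat 2704, .ofNat 845⟩, ⟨.ofNat 1456, .ofNat 455⟩⟩ ⟨.ofNat 464, .ofNat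 145⟩ ⟨.ofNat 13, .ofNat 0⟩ ⟨.ofNat 6, .ofNat 0⟩ 0 (.leaf 0 [64, 0, 0, 0, 64, 64]) (.leaf 0 [0, 0, 51])) (.leaf 0 [0, 0, 0, 64, 64, 36])) (.leaf 0 [64, 11, 0, 0, 64, 64, 0])) (.s12 ⟨⟨.ofNat 13, .ofNat 0⟩, ⟨.ofNat 20, .ofNat 0⟩, ⟨.ofNat 0, .ofNat 13⟩, ⟨.ofNat 13, .ofNat 0⟩⟩ ⟨.ofNat 13, .ofNat 0⟩ ⟨.negSucc 6, .ofNat 6⟩ ⟨.ofNat 6, .ofNat 6⟩ 0 (.s03 ⟨⟨.ofNat 7680, .ofNat 2400⟩, ⟨.ofNat 8555, .ofNat 2800⟩, ⟨.ofNat 8960, .ofNat 2800⟩, ⟨.ofNat 5824, .ofNat 1820⟩⟩ ⟨.ofNat 464, .ofNat 145⟩ ⟨.ofNat 27, .ofNat 0⟩ ⟨.ofNat 2, .ofNat 0⟩ 0 (.s23 ⟨⟨.ofNat 1456, .ofNat 455⟩, ⟨.ofNat 2175, .ofNat 700⟩, ⟨.ofNat 2704, .ofNat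 845⟩, ⟨.ofNat 1456, .ofNat 455⟩⟩ ⟨.ofNat 464, .ofNat 145⟩ ⟨.ofNat 13, .ofNat 0⟩ ⟨.ofNat 6, .ofNat 0⟩ 0 (.leaf 0 [0, 64, 20, 64, 32]) (.s12 ⟨⟨.ofNat 91, .ofNat 0⟩, ⟨.ofNat 140, .ofNat 0⟩, ⟨.ofNat 169, .ofNat 0⟩, ⟨.ofNat 91, .ofNat 0⟩⟩ ⟨.ofNat 1, .ofNat 1⟩ ⟨.ofNat 6, .negSucc 0⟩ ⟨.ofNat 1, .ofNat 0⟩ 0 (.leaf 0 [0, 0, 54]) (.leaf 0 [36, 0, 64]))) (.s01 ⟨⟨.ofNat 1989, .ofNat 78⟩, ⟨.ofNat 2100, .ofNat 280⟩, ⟨.ofNat 1911, .ofNat 442⟩, ⟨.ofNat 1365, .ofNat 182⟩⟩ ⟨.ofNat 78, .negSucc 12⟩ ⟨.ofNat 27, .ofNat 27⟩ ⟨.ofNat 1, .ofNat 0⟩ 0 (.s12 ⟨⟨.ofNat 91, .ofNat 0⟩, ⟨.ofNat 140, .ofNat 0⟩, ⟨.ofNat 169, .ofNat 0⟩, ⟨.ofNat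 91, .ofNat 0⟩⟩ ⟨.ofNat 1, .ofNat 1⟩ ⟨.ofNat 6, .negSucc 0⟩ ⟨.ofNat 1, .ofNat 0⟩ 0 (.leaf 0 [0, 0, 54]) (.leaf 0 [36, 0, 64])) (.leaf 0 [0, 0, 0, 64, 64, 36]))) (.leaf 0 [64, 64, 58, 64, 64, 55, 0])))) t1_1

/-- part of a tree -/
def t1 : Tree := .s12 ⟨⟨.ofNat 13, .ofNat 0⟩, ⟨.ofNat 20, .ofNat 0⟩, ⟨.ofNat 20, .ofNat 6⟩, ⟨.ofNat 13, .ofNat 0⟩⟩ ⟨.ofNat 7, .ofNat 0⟩ ⟨.ofNat 6, .ofNat 0⟩ ⟨.ofNat 1, .ofNat 0⟩ 0 (.s23 ⟨⟨.negSucc 38, .ofNat 91⟩, ⟨.negSucc 59, .ofNat 130⟩, ⟨.negSucc 59, .ofNat 140⟩, ⟨.negSucc 38, .ofNat 91⟩⟩ ⟨.ofNat 0, .ofNat 10⟩ ⟨.ofNat 13, .ofNat 6⟩ ⟨.ofNat 0, .ofNat 1⟩ 0 (.s13 ⟨⟨.ofNat 208, .ofNat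 65⟩, ⟨.ofNat 290, .ofNat 100⟩, ⟨.ofNat 320, .ofNat 100⟩, ⟨.ofNat 208, .ofNat 65⟩⟩ ⟨.ofNat 5, .ofNat 0⟩ ⟨.ofNat 0, .ofNat 39⟩ ⟨.ofNat 0, .ofNat 1⟩ 0 (.leaf 0 [6, 64, 64, 64, 64, 64, 64, 64, 21]) (.s13 ⟨⟨.ofNat 16, .ofNat 5⟩, ⟨.ofNat 20, .ofNat 10⟩, ⟨.ofNat 32, .ofNat 10⟩, ⟨.ofNat 16, .ofNat 5⟩⟩ ⟨.ofNat 16, .ofNat 5⟩ ⟨.negSucc 0, .ofNat 1⟩ ⟨.ofNat 0, .ofNat 13⟩ 0 (.leaf 0 [14, 64, 64, 0, 0, 0, 64, 64, 64, 64]) (.s12 ⟨⟨.negSucc 38, .ofNat 91⟩, ⟨.negSucc 49, .ofNat 130⟩, ⟨.negSucc 77, .ofNat 182⟩, ⟨.negSucc 38, .ofNat 91⟩⟩ ⟨.negSucc 2, .ofNat 7⟩ ⟨.negSucc 0, .ofNat 1⟩ ⟨.ofNat 0, .ofNat 1⟩ 0 (.leaf 0 [14, 64,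 64, 0, 0, 0, 64, 64, 64, 64]) (.leaf 0 [64, 11, 0, 0, 64, 64, 0, 0])))) (.s23 ⟨⟨.negSucc 2, .ofNat 7⟩, ⟨.negSucc 5, .ofNat 10⟩, ⟨.negSucc 5, .ofNat 14⟩, ⟨.negSucc 2, .ofNat 7⟩⟩ ⟨.negSucc 17, .ofNat 42⟩ ⟨.negSucc 0, .ofNat 1⟩ ⟨.negSucc 6, .ofNat 13⟩ 0 (.s13 ⟨⟨.negSucc 38, .ofNat 91⟩, ⟨.negSucc 49, .ofNat 130⟩, ⟨.negSucc 77, .ofNat 182⟩, ⟨.negSucc 38, .ofNat 91⟩⟩ ⟨.negSucc 2, .ofNat 7⟩ ⟨.negSucc 0, .ofNat 1⟩ ⟨.ofNat 0, .ofNat 1⟩ 0 (.leaf 0 [29, 0, 64, 64, 0, 0, 0, 64, 64, 64, 64]) (.leaf 0 [0, 0, 64, 14, 0, 0, 64, 64, 49, 0])) (.leaf 0 [39, 0, 64, 64, 2, 0, 0, 64, 64, 0, 0, 0, 64]))) t1_0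

theorem g1 : Good (PD lin H) ⟨⟨.ofNat 21, .ofNat 0⟩, ⟨.ofNat 20, .ofNat 0⟩, ⟨.ofNat 20, .ofNat 0⟩, ⟨.ofNat 13, .ofNat 0⟩⟩
    ⟨⟨.ofNat 1, .ofNat 0⟩, ⟨.ofNat 2, .ofNat 0⟩, ⟨.ofNat 2, .ofNat 0⟩, ⟨.ofNat 1, .ofNat 0⟩⟩
    ⟨⟨.ofNat 1, .ofNat 0⟩, ⟨.ofNat 1, .ofNat 0⟩, ⟨.ofNat 1, .ofNat 1⟩, ⟨.ofNat 1, .ofNat 0⟩⟩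
    ⟨⟨.ofNat 7, .ofNat 0⟩, ⟨.ofNat 10, .ofNat 0⟩, ⟨.ofNat 10, .ofNat 0⟩, ⟨.ofNat 7, .ofNat 0⟩⟩ :=
  goodD lin H t1 (by decide +kernel)

/-- part of a tree -/
def t2 : Tree := .s02 ⟨⟨.negSucc 3, .ofNat 7⟩, ⟨.ofNat 0, .ofNat 3⟩, ⟨.ofNat 0, .ofNat 6⟩, ⟨.ofNat 0, .ofNat 3⟩⟩ ⟨.ofNat 1, .ofNat 0⟩ ⟨.ofNat 0, .ofNat 3⟩ ⟨.ofNat 0, .ofNat 1⟩ 0 (.s23 ⟨⟨.negSucc 2, .ofNat 7⟩, ⟨.negSucc 5, .ofNat 10⟩, ⟨.negSucc 5, .ofNat 14⟩, ⟨.negSucc 2, .ofNat 7⟩⟩ ⟨.ofNat 0, .ofNat 4⟩ ⟨.ofNat 1, .ofNat 0⟩ ⟨.ofNat 0, .ofNat 1⟩ 0 (.leaf 0 [64, 0, 64, 64, 64, 64, 64, 64, 61, 64, 64, 64, 64, 0]) (.leaf 0 [64, 0, 0, 64, 23, 0, 0, 64, 64,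 0, 0, 0, 64])) (.leaf 0 [64, 0, 64, 64, 64, 64, 64, 64, 64, 0, 0, 64, 64, 64, 64, 4])

theorem g2 : Good (PD lin H) ⟨⟨.ofNat 7, .ofNat 0⟩, ⟨.ofNat 3, .ofNat 0⟩, ⟨.ofNat 3, .ofNat 0⟩, ⟨.ofNat 3, .ofNat 0⟩⟩
    ⟨⟨.ofNat 21, .ofNat 0⟩, ⟨.ofNat 20, .ofNat 0⟩, ⟨.ofNat 20, .ofNat 0⟩, ⟨.ofNat 13, .ofNat 0⟩⟩
    ⟨⟨.ofNat 1, .ofNat 0⟩, ⟨.ofNat 1, .ofNat 0⟩, ⟨.ofNat 1, .ofNat 1⟩, ⟨.ofNat 1, .ofNat 0⟩⟩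
    ⟨⟨.ofNat 7, .ofNat 0⟩, ⟨.ofNat 10, .ofNat 0⟩, ⟨.ofNat 10, .ofNat 0⟩, ⟨.ofNat 7, .ofNat 0⟩⟩ :=
  goodD lin H t2 (by decide +kernel)

/-- part of a tree -/
def t5 : Tree := .s02 ⟨⟨.ofNat 0, .ofNat 2⟩, ⟨.ofNat 1, .ofNat 0⟩, ⟨.ofNat 1, .ofNat 1⟩, ⟨.ofNat 1, .ofNat 0⟩⟩ ⟨.negSucc 0, .ofNat 2⟩ ⟨.ofNat 1, .ofNat 0⟩ ⟨.ofNat 1, .ofNat 0⟩ 0 (.s13 ⟨⟨.ofNat 37, .ofNat 0⟩, ⟨.ofNat 30, .ofNat 0⟩, ⟨.ofNat 30, .ofNat 0⟩, ⟨.ofNat 21, .ofNat 0⟩⟩ ⟨.ofNat 9, .ofNat 0⟩ ⟨.ofNat 4, .ofNat 0⟩ ⟨.ofNat 1, .ofNat 0⟩ 0 (.leaf 0 [64, 0, 64, 27, 0, 0, 0, 0, 0, 64, 64, 31, 0, 0, 64, 0, 64, 64, 64]) (.s12 ⟨⟨.ofNat 7, .ofNat 0⟩, ⟨.ofNat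 10, .ofNat 0⟩, ⟨.ofNat 10, .ofNat 4⟩, ⟨.ofNat 7, .ofNat 0⟩⟩ ⟨.ofNat 3, .ofNat 0⟩ ⟨.ofNat 4, .ofNat 0⟩ ⟨.ofNat 1, .ofNat 0⟩ 0 (.leaf 0 [0, 0, 64, 6, 0, 0, 0, 64, 64, 40, 0, 0, 64, 0, 64, 64, 64]) (.leaf 0 [0, 0, 0, 0, 0, 55, 64, 0, 0, 0, 0, 64, 58, 0, 0, 64, 0, 64, 64, 64]))) (.s01 ⟨⟨.negSucc 0, .ofNat 2⟩, ⟨.ofNat 2, .ofNat 0⟩, ⟨.ofNat 2, .ofNat 0⟩, ⟨.ofNat 1, .ofNat 0⟩⟩ ⟨.ofNat 2, .ofNat 0⟩ ⟨.ofNat 0, .ofNat 1⟩ ⟨.ofNat 0, .ofNat 1⟩ 0 (.s01 ⟨⟨.ofNat 4, .ofNat 0⟩, ⟨.ofNat 6, .ofNat 0⟩, ⟨.ofNat 6, .ofNat 0⟩, ⟨.ofNat 3, .ofNat 0⟩⟩ ⟨.ofNat 0, .ofNat 1⟩ ⟨.ofNat 6, .negSucc 0⟩ ⟨.ofNat 2, .ofNat 0⟩ 0 (.leaf 0 [0,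 0, 0, 0, 0, 56, 64, 0, 0, 0, 0, 0, 0, 64, 64, 64, 64, 64]) (.leaf 0 [64, 64, 4, 0, 0, 64, 42, 0, 0, 0, 0, 0, 64, 64, 64, 0])) (.leaf 0 [64, 64, 48, 0, 0, 64, 64, 2, 0, 0, 0, 0, 0, 0, 64, 0, 0]))

theorem g5 : Good (PD lin H) ⟨⟨.ofNat 1, .ofNat 0⟩, ⟨.ofNat 0, .ofNat 0⟩, ⟨.ofNat 0, .ofNat 0⟩, ⟨.ofNat 0, .ofNat 0⟩⟩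
    ⟨⟨.ofNat 1, .ofNat 0⟩, ⟨.ofNat 2, .ofNat 0⟩, ⟨.ofNat 2, .ofNat 0⟩, ⟨.ofNat 1, .ofNat 0⟩⟩
    ⟨⟨.ofNat 1, .ofNat 0⟩, ⟨.ofNat 1, .ofNat 0⟩, ⟨.ofNat 1, .ofNat 1⟩, ⟨.ofNat 1, .ofNat 0⟩⟩
    ⟨⟨.ofNat 7, .ofNat 0⟩, ⟨.ofNat 3, .ofNat 0⟩, ⟨.ofNat 3, .ofNat 0⟩, ⟨.ofNat 3, .ofNat 0⟩⟩ :=
  goodD lin H t5 (by decide +kernel)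

/-- part of a tree -/
def t7 : Tree := .s12 ⟨⟨.ofNat 1, .ofNat 0⟩, ⟨.ofNat 2, .ofNat 0⟩, ⟨.ofNat 1, .ofNat 1⟩, ⟨.ofNat 1, .ofNat 0⟩⟩ ⟨.ofNat 0, .ofNat 1⟩ ⟨.ofNat 1, .ofNat 0⟩ ⟨.ofNat 0, .ofNat 1⟩ 0 (.s23 ⟨⟨.ofNat 1, .ofNat 0⟩, ⟨.ofNat 1, .ofNat 0⟩, ⟨.ofNat 5, .ofNat 0⟩, ⟨.ofNat 1, .ofNat 0⟩⟩ ⟨.negSucc 0, .ofNat 3⟩ ⟨.ofNat 0, .ofNat 1⟩ ⟨.ofNat 0, .ofNat 1⟩ 0 (.s03 ⟨⟨.ofNat 0, .ofNat 2⟩, ⟨.ofNat 1, .ofNat 0⟩, ⟨.ofNat 1, .ofNat 1⟩, ⟨.ofNat 1, .ofNat 0⟩⟩ ⟨.negSucc 0, .ofNat 2⟩ ⟨.ofNat 1, .ofNat 0⟩ ⟨.ofNat 1, .ofNat 0⟩ 0 (.leaf 0 [64, 59, 0, 0, 0, 64, 64, 64, 64, 59, 0, 0, 64, 0, 64, 0]) (.s02 ⟨⟨.ofNat 0, .ofNat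 2⟩, ⟨.ofNat 1, .ofNat 0⟩, ⟨.ofNat 5, .ofNat 0⟩, ⟨.ofNat 1, .ofNat 0⟩⟩ ⟨.negSucc 0, .ofNat 2⟩ ⟨.ofNat 1, .ofNat 0⟩ ⟨.ofNat 1, .ofNat 0⟩ 0 (.leaf 0 [0, 0, 0, 0, 0, 64, 53, 64, 31, 0, 0, 0, 64, 0, 0, 0]) (.s01 ⟨⟨.negSucc 0, .ofNat 2⟩, ⟨.ofNat 2, .ofNat 0⟩, ⟨.ofNat 1, .ofNat 1⟩, ⟨.ofNat 1, .ofNat 0⟩⟩ ⟨.ofNat 2, .ofNat 0⟩ ⟨.ofNat 0, .ofNat 1⟩ ⟨.ofNat 0, .ofNat 1⟩ 0 (.leaf 0 [0, 0, 0, 0, 0, 64, 64, 41, 64, 27, 0]) (.leaf 0 [64, 64, 1, 0, 0, 64, 1])))) (.s12 ⟨⟨.ofNat 1, .ofNat 0⟩, ⟨.ofNat 2, .ofNat 0⟩, ⟨.ofNat 5, .ofNat 0⟩, ⟨.ofNat 1, .ofNat 0⟩⟩ ⟨.ofNat 0, .ofNat 1⟩ ⟨.negSucc 0, .ofNat 3⟩ ⟨.ofNat 0, .ofNat 1⟩ 0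 (.leaf 0 [64, 41, 0, 0, 0, 0, 0, 0, 0, 0, 0, 0, 0]) (.s03 ⟨⟨.ofNat 0, .ofNat 2⟩, ⟨.ofNat 1, .ofNat 0⟩, ⟨.ofNat 5, .ofNat 0⟩, ⟨.ofNat 1, .ofNat 0⟩⟩ ⟨.negSucc 0, .ofNat 2⟩ ⟨.ofNat 1, .ofNat 0⟩ ⟨.ofNat 1, .ofNat 0⟩ 0 (.leaf 0 [0, 0, 0, 0, 0, 64, 53, 64, 31, 0, 0, 0, 64, 0, 0, 0]) (.s01 ⟨⟨.negSucc 0, .ofNat 2⟩, ⟨.ofNat 2, .ofNat 0⟩, ⟨.ofNat 1, .ofNat 1⟩, ⟨.ofNat 1, .ofNat 0⟩⟩ ⟨.ofNat 2, .ofNat 0⟩ ⟨.ofNat 0, .ofNat 1⟩ ⟨.ofNat 0, .ofNat 1⟩ 0 (.leaf 0 [0, 0, 0, 0, 0, 64, 64, 46, 64, 15, 0]) (.leaf 0 [0, 0, 0, 0, 0, 0, 0, 0, 0, 0]))))) (.s03 ⟨⟨.ofNat 0, .ofNat 2⟩, ⟨.ofNat 1, .ofNat 0⟩, ⟨.ofNat 1, .ofNat 1⟩, ⟨.ofNat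 1, .ofNat 0⟩⟩ ⟨.negSucc 0, .ofNat 2⟩ ⟨.ofNat 1, .ofNat 0⟩ ⟨.ofNat 1, .ofNat 0⟩ 0 (.s13 ⟨⟨.ofNat 0, .ofNat 9⟩, ⟨.negSucc 1, .ofNat 16⟩, ⟨.ofNat 0, .ofNat 20⟩, ⟨.ofNat 0, .ofNat 9⟩⟩ ⟨.negSucc 1, .ofNat 7⟩ ⟨.ofNat 2, .ofNat 2⟩ ⟨.ofNat 1, .ofNat 0⟩ 0 (.leaf 0 [64, 59, 0, 0, 0, 0, 64, 64, 59, 0, 0, 64, 0, 3, 64, 0]) (.s12 ⟨⟨.ofNat 9, .ofNat 0⟩, ⟨.ofNat 18, .ofNat 0⟩, ⟨.ofNat 20, .ofNat 0⟩, ⟨.ofNat 9, .ofNat 0⟩⟩ ⟨.ofNat 9, .negSucc 1⟩ ⟨.ofNat 0, .ofNat 2⟩ ⟨.ofNat 1, .ofNat 0⟩ 0 (.leaf 0 [0, 0, 0, 0, 0, 51, 64, 21, 0, 64, 64, 64, 64]) (.leaf 0 [0, 0, 0, 0, 0, 56, 64, 64, 5, 0, 64, 64, 64, 64]))) (.s01 ⟨⟨.negSucc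 0, .ofNat 2⟩, ⟨.ofNat 2, .ofNat 0⟩, ⟨.ofNat 2, .ofNat 0⟩, ⟨.ofNat 1, .ofNat 0⟩⟩ ⟨.ofNat 2, .ofNat 0⟩ ⟨.ofNat 0, .ofNat 1⟩ ⟨.ofNat 0, .ofNat 1⟩ 0 (.s12 ⟨⟨.ofNat 9, .ofNat 0⟩, ⟨.ofNat 18, .ofNat 0⟩, ⟨.ofNat 20, .ofNat 0⟩, ⟨.ofNat 9, .ofNat 0⟩⟩ ⟨.ofNat 9, .negSucc 1⟩ ⟨.ofNat 0, .ofNat 2⟩ ⟨.ofNat 1, .ofNat 0⟩ 0 (.s13 ⟨⟨.ofNat 87, .ofNat 24⟩, ⟨.ofNat 162, .ofNat 39⟩, ⟨.ofNat 183, .ofNat 46⟩, ⟨.ofNat 81, .ofNat 21⟩⟩ ⟨.ofNat 9, .ofNat 2⟩ ⟨.ofNat 0, .ofNat 3⟩ ⟨.ofNat 1, .ofNat 0⟩ 0 (.leaf 0 [0, 0, 0, 0, 0, 0, 31, 64, 64, 64, 0]) (.s01 ⟨⟨.negSucc 2, .ofNat 27⟩, ⟨.negSucc 5, .ofNat 48⟩, ⟨.negSucc 6, .ofNat 53⟩, ⟨.negSucc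 2, .ofNat 24⟩⟩ ⟨.ofNat 0, .ofNat 3⟩ ⟨.ofNat 6, .negSucc 0⟩ ⟨.negSucc 1, .ofNat 2⟩ 0 (.leaf 0 [53, 0, 64]) (.leaf 0 [0, 31, 64, 64, 0]))) (.s01 ⟨⟨.ofNat 4, .ofNat 0⟩, ⟨.ofNat 6, .ofNat 0⟩, ⟨.ofNat 6, .ofNat 0⟩, ⟨.ofNat 3, .ofNat 0⟩⟩ ⟨.ofNat 0, .ofNat 1⟩ ⟨.ofNat 6, .negSucc 0⟩ ⟨.ofNat 2, .ofNat 0⟩ 0 (.leaf 0 [0, 0, 0, 0, 0, 56, 64, 64, 64, 64, 64, 64]) (.s23 ⟨⟨.ofNat 87, .ofNat 24⟩, ⟨.ofNat 162, .ofNat 39⟩, ⟨.ofNat 183, .ofNat 46⟩, ⟨.ofNat 81, .ofNat 21⟩⟩ ⟨.ofNat 9, .ofNat 2⟩ ⟨.ofNat 0, .ofNat 3⟩ ⟨.ofNat 1, .ofNat 0⟩ 0 (.leaf 0 [0, 0, 0, 0, 0, 10, 30, 64, 64, 64, 0]) (.s02 ⟨⟨.negSucc 2, .ofNat 27⟩, ⟨.negSucc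 5, .ofNat 48⟩, ⟨.negSucc 6, .ofNat 53⟩, ⟨.negSucc 2, .ofNat 24⟩⟩ ⟨.ofNat 0, .ofNat 3⟩ ⟨.ofNat 6, .negSucc 0⟩ ⟨.negSucc 1, .ofNat 2⟩ 0 (.leaf 0 [58]) (.leaf 0 [64, 38, 64, 64]))))) (.s02 ⟨⟨.negSucc 0, .ofNat 2⟩, ⟨.ofNat 2, .ofNat 0⟩, ⟨.ofNat 1, .ofNat 1⟩, ⟨.ofNat 1, .ofNat 0⟩⟩ ⟨.ofNat 2, .ofNat 0⟩ ⟨.ofNat 0, .ofNat 1⟩ ⟨.ofNat 0, .ofNat 1⟩ 0 (.leaf 0 [0, 0, 0, 0, 0, 0, 26, 64, 30, 64, 0]) (.leaf 0 [64, 54, 0, 0, 0, 0, 64]))))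

theorem g7 : Good (PD lin H) ⟨⟨.ofNat 1, .ofNat 0⟩, ⟨.ofNat 0, .ofNat 0⟩, ⟨.ofNat 0, .ofNat 0⟩, ⟨.ofNat 0, .ofNat 0⟩⟩
    ⟨⟨.ofNat 1, .ofNat 0⟩, ⟨.ofNat 2, .ofNat 0⟩, ⟨.ofNat 2, .ofNat 0⟩, ⟨.ofNat 1, .ofNat 0⟩⟩
    ⟨⟨.ofNat 0, .ofNat 0⟩, ⟨.ofNat 0, .ofNat 0⟩, ⟨.ofNat 1, .ofNat 0⟩, ⟨.ofNat 0, .ofNat 0⟩⟩
    ⟨⟨.ofNat 1, .ofNat 0⟩, ⟨.ofNat 1, .ofNat 0⟩, ⟨.ofNat 1, .ofNat 1⟩, ⟨.ofNat 1, .ofNat 0⟩⟩ :=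
  goodD lin H t7 (by decide +kernel)

end

end Pool.Agent.PHCert.D6
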