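import Pool.Agent.PHCert.D7a

/-!
# PHCert: inequality D7
-/

set_option autoImplicit false

namespace Pool.Agent.PHCert.D7

open Zp Pool.Agent.PHCert

noncomputable section

theorem root : Good (PD lin H) v0 ⟨z0, z1, z1, z0⟩ v2 ⟨z1, z1, z1, z1⟩ := g0

theorem ineq {n r s l : ℝ} (h0 : 0 ≤ l) (hn : l ≤ n) (hr : l ≤ r) (hs : r ≤ s) :
    0 ≤ tev ts ![n, r, s, l] := gen_DS data root h0 hn hr hs

end

end Pool.Agent.PHCert.D7
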