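import Pool.Agent.PHCert.D7H

/-!
# PHCert: inequality D7, part 1 (8 leaves, checked by the kernel)
-/

set_option autoImplicit false

namespace Pool.Agent.PHCert.D7

open Zp Pool.Agent.PHCert

noncomputable section

/-- part of a tree -/
def t0 : Tree := .s03 ⟨⟨.ofNat 20, .ofNat 0⟩, ⟨.ofNat 1, .ofNat 0⟩, ⟨.ofNat 1, .ofNat 0⟩, ⟨.ofNat 1, .ofNat 0⟩⟩ ⟨.ofNat 19, .ofNat 0⟩ ⟨.ofNat 1, .ofNat 0⟩ ⟨.ofNat 1, .ofNat 0⟩ 0 (.s03 ⟨⟨.ofNat 10, .ofNat 0⟩, ⟨.ofNat 3, .ofNat 0⟩, ⟨.ofNat 3, .ofNat 0⟩, ⟨.ofNat 3, .ofNat 0⟩⟩ ⟨.ofNat 7, .ofNat 0⟩ ⟨.ofNat 50, .ofNat 0⟩ ⟨.ofNat 19, .ofNat 0⟩ 0 (.s23 ⟨⟨.ofNat 3, .ofNat 0⟩, ⟨.ofNat 3, .ofNat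 0⟩, ⟨.ofNat 7, .ofNat 0⟩, ⟨.ofNat 3, .ofNat 0⟩⟩ ⟨.ofNat 4, .ofNat 0⟩ ⟨.ofNat 3, .ofNat 0⟩ ⟨.ofNat 1, .ofNat 0⟩ 0 (.s13 ⟨⟨.ofNat 3, .ofNat 0⟩, ⟨.ofNat 7, .ofNat 0⟩, ⟨.ofNat 7, .ofNat 0⟩, ⟨.ofNat 3, .ofNat 0⟩⟩ ⟨.ofNat 4, .ofNat 0⟩ ⟨.ofNat 3, .ofNat 0⟩ ⟨.ofNat 1, .ofNat 0⟩ 0 (.s03 ⟨⟨.ofNat 7, .ofNat 0⟩, ⟨.ofNat 3, .ofNat 0⟩, ⟨.ofNat 3, .ofNat 0⟩, ⟨.ofNat 3, .ofNat 0⟩⟩ ⟨.ofNat 4, .ofNat 0⟩ ⟨.ofNat 9, .ofNat 0⟩ ⟨.ofNat 7, .ofNat 0⟩ 0 (.leaf 0 []) (.leaf 0 [43])) (.s12 ⟨⟨.ofNat 3, .ofNat 0⟩, ⟨.ofNat 7, .ofNat 0⟩, ⟨.ofNat 11, .ofNat 0⟩, ⟨.ofNat 3, .ofNat 0⟩⟩ ⟨.ofNat 4, .ofNat 0⟩ ⟨.ofNat 1, .ofNat 0⟩ ⟨.ofNat 1, .ofNat 0⟩ 0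 (.leaf 0 [43]) (.leaf 0 []))) (.s13 ⟨⟨.ofNat 3, .ofNat 0⟩, ⟨.ofNat 7, .ofNat 0⟩, ⟨.ofNat 11, .ofNat 0⟩, ⟨.ofNat 3, .ofNat 0⟩⟩ ⟨.ofNat 4, .ofNat 0⟩ ⟨.ofNat 1, .ofNat 0⟩ ⟨.ofNat 1, .ofNat 0⟩ 0 (.leaf 0 [43]) (.leaf 0 []))) (.leaf 0 [])) (.leaf 0 [])

theorem g0 : Good (PD lin H) ⟨⟨.ofNat 1, .ofNat 0⟩, ⟨.ofNat 0, .ofNat 0⟩, ⟨.ofNat 0, .ofNat 0⟩, ⟨.ofNat 0, .ofNat 0⟩⟩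
    ⟨⟨.ofNat 0, .ofNat 0⟩, ⟨.ofNat 1, .ofNat 0⟩, ⟨.ofNat 1, .ofNat 0⟩, ⟨.ofNat 0, .ofNat 0⟩⟩
    ⟨⟨.ofNat 0, .ofNat 0⟩, ⟨.ofNat 0, .ofNat 0⟩, ⟨.ofNat 1, .ofNat 0⟩, ⟨.ofNat 0, .ofNat 0⟩⟩
    ⟨⟨.ofNat 1, .ofNat 0⟩, ⟨.ofNat 1, .ofNat 0⟩, ⟨.ofNat 1, .ofNat 0⟩, ⟨.ofNat 1, .ofNat 0⟩⟩ :=
  goodD lin H t0 (by decide +kernel)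

end

end Pool.Agent.PHCert.D7
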