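import Pool.Agent.PHCert.Build

/-!
# PHCert: the six functions, chords and tangents
-/

set_option autoImplicit false

namespace Pool.Agent.PHCert

open Zp

noncomputable section

/-- the function `aa` -/
def faa : Fd := ⟨⟨.negSucc 47499, .ofNat 0⟩, [
    ⟨0, ⟨.ofNat 7, .ofNat 0⟩, 20, ⟨.ofNat 5373, .ofNat 0⟩⟩,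
    ⟨0, ⟨.ofNat 1, .ofNat 0⟩, 2, ⟨.ofNat 51154, .ofNat 0⟩⟩,
    ⟨1, ⟨.ofNat 7, .ofNat 0⟩, 20, ⟨.ofNat 4284, .ofNat 0⟩⟩,
    ⟨1, ⟨.ofNat 1, .ofNat 0⟩, 2, ⟨.ofNat 63927, .ofNat 0⟩⟩]⟩

/-- the function `ab` -/
def fab : Fd := ⟨⟨.ofNat 268691, .negSucc 291583⟩, [
    ⟨0, ⟨.ofNat 5, .negSucc 2⟩, 1, ⟨.ofNat 116698, .ofNat 0⟩⟩,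
    ⟨0, ⟨.negSucc 2, .ofNat 2⟩, 1, ⟨.ofNat 63428, .ofNat 0⟩⟩,
    ⟨0, ⟨.ofNat 7, .ofNat 0⟩, 20, ⟨.ofNat 6407, .ofNat 0⟩⟩,
    ⟨0, ⟨.ofNat 2, .ofNat 0⟩, 5, ⟨.negSucc 3970, .ofNat 0⟩⟩,
    ⟨0, ⟨.ofNat 9, .ofNat 0⟩, 20, ⟨.ofNat 1227, .ofNat 0⟩⟩,
    ⟨0, ⟨.ofNat 1, .ofNat 0⟩, 2, ⟨.negSucc 19765, .ofNat 0⟩⟩,
    ⟨0, ⟨.ofNat 13, .ofNat 0⟩, 20, ⟨.ofNat 10749, .ofNat 0⟩⟩,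
    ⟨1, ⟨.ofNat 1, .ofNat 0⟩, 4, ⟨.ofNat 26140, .ofNat 0⟩⟩,
    ⟨1, ⟨.ofNat 2, .negSucc 0⟩, 1, ⟨.negSucc 145428, .ofNat 0⟩⟩,
    ⟨1, ⟨.ofNat 11, .ofNat 0⟩, 20, ⟨.ofNat 5592, .ofNat 0⟩⟩,
    ⟨1, ⟨.negSucc 0, .ofNat 1⟩, 1, ⟨.ofNat 297835, .ofNat 0⟩⟩,
    ⟨1, ⟨.ofNat 7, .ofNat 0⟩, 10, ⟨.ofNat 2545, .ofNat 0⟩⟩,
    ⟨1, ⟨.ofNat 3, .ofNat 0⟩, 4, ⟨.ofNat 6997, .ofNat 0⟩⟩,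
    ⟨2, ⟨.ofNat 1, .ofNat 0⟩, 5, ⟨.negSucc 18934, .ofNat 0⟩⟩,
    ⟨2, ⟨.ofNat 13, .ofNat 0⟩, 40, ⟨.negSucc 3469, .ofNat 0⟩⟩]⟩

/-- the function `ac` -/
def fac : Fd := ⟨⟨.negSucc 169786, .negSucc 3649⟩, [
    ⟨0, ⟨.ofNat 1, .ofNat 0⟩, 5, ⟨.ofNat 8429, .ofNat 0⟩⟩,
    ⟨0, ⟨.ofNat 1, .ofNat 0⟩, 4, ⟨.ofNat 3055, .ofNat 0⟩⟩,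
    ⟨0, ⟨.ofNat 3, .ofNat 0⟩, 10, ⟨.ofNat 14039, .ofNat 0⟩⟩,
    ⟨0, ⟨.ofNat 2, .negSucc 0⟩, 1, ⟨.negSucc 154268, .ofNat 0⟩⟩,
    ⟨0, ⟨.ofNat 9, .ofNat 0⟩, 20, ⟨.ofNat 4933, .ofNat 0⟩⟩,
    ⟨0, ⟨.ofNat 1, .ofNat 0⟩, 2, ⟨.ofNat 128174, .ofNat 0⟩⟩,
    ⟨0, ⟨.ofNat 3, .ofNat 0⟩, 5, ⟨.ofNat 15771, .ofNat 0⟩⟩,
    ⟨0, ⟨.negSucc 0, .ofNat 1⟩, 1, ⟨.ofNat 226261, .ofNat 0⟩⟩,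
    ⟨0, ⟨.ofNat 13, .ofNat 0⟩, 20, ⟨.ofNat 4210, .ofNat 0⟩⟩,
    ⟨0, ⟨.ofNat 7, .ofNat 0⟩, 10, ⟨.ofNat 14936, .ofNat 0⟩⟩,
    ⟨0, ⟨.ofNat 4, .ofNat 0⟩, 5, ⟨.ofNat 21282, .ofNat 0⟩⟩,
    ⟨1, ⟨.ofNat 3, .ofNat 0⟩, 10, ⟨.ofNat 13549, .ofNat 0⟩⟩,
    ⟨1, ⟨.ofNat 1, .ofNat 0⟩, 3, ⟨.ofNat 14731, .ofNat 0⟩⟩,
    ⟨1, ⟨.ofNat 7, .ofNat 0⟩, 20, ⟨.ofNat 4128, .ofNat 0⟩⟩,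
    ⟨1, ⟨.ofNat 2, .negSucc 0⟩, 1, ⟨.negSucc 260206, .ofNat 0⟩⟩,
    ⟨1, ⟨.ofNat 9, .ofNat 0⟩, 20, ⟨.ofNat 3797, .ofNat 0⟩⟩,
    ⟨1, ⟨.ofNat 1, .ofNat 0⟩, 2, ⟨.ofNat 155627, .ofNat 0⟩⟩,
    ⟨1, ⟨.ofNat 11, .ofNat 0⟩, 20, ⟨.ofNat 2591, .ofNat 0⟩⟩,
    ⟨1, ⟨.ofNat 3, .ofNat 0⟩, 5, ⟨.ofNat 13749, .ofNat 0⟩⟩,
    ⟨1, ⟨.negSucc 0, .ofNat 1⟩, 1, ⟨.ofNat 155336, .ofNat 0⟩⟩,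
    ⟨1, ⟨.ofNat 13, .ofNat 0⟩, 20, ⟨.ofNat 4389, .ofNat 0⟩⟩,
    ⟨1, ⟨.ofNat 7, .ofNat 0⟩, 10, ⟨.ofNat 12584, .ofNat 0⟩⟩,
    ⟨1, ⟨.ofNat 3, .ofNat 0⟩, 4, ⟨.ofNat 19249, .ofNat 0⟩⟩,
    ⟨1, ⟨.ofNat 4, .ofNat 0⟩, 5, ⟨.ofNat 12152, .ofNat 0⟩⟩,
    ⟨2, ⟨.ofNat 3, .ofNat 0⟩, 40, ⟨.negSucc 14, .ofNat 0⟩⟩,
    ⟨2, ⟨.ofNat 5, .negSucc 2⟩, 1, ⟨.negSucc 81724, .ofNat 5336⟩⟩,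
    ⟨2, ⟨.ofNat 3, .ofNat 0⟩, 20, ⟨.negSucc 681, .ofNat 0⟩⟩,
    ⟨2, ⟨.ofNat 7, .ofNat 0⟩, 40, ⟨.negSucc 4198, .ofNat 0⟩⟩,
    ⟨2, ⟨.ofNat 1, .ofNat 0⟩, 5, ⟨.negSucc 28371, .ofNat 0⟩⟩,
    ⟨2, ⟨.negSucc 2, .ofNat 2⟩, 1, ⟨.negSucc 56643, .ofNat 0⟩⟩,
    ⟨2, ⟨.ofNat 1, .ofNat 0⟩, 4, ⟨.negSucc 50431, .ofNat 0⟩⟩,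
    ⟨2, ⟨.ofNat 11, .ofNat 0⟩, 40, ⟨.negSucc 5934, .ofNat 0⟩⟩,
    ⟨2, ⟨.ofNat 1, .ofNat 0⟩, 3, ⟨.negSucc 15428, .ofNat 0⟩⟩,
    ⟨2, ⟨.ofNat 7, .ofNat 0⟩, 20, ⟨.negSucc 13346, .ofNat 0⟩⟩]⟩

/-- the function `bb` -/
def fbb : Fd := ⟨⟨.negSucc 205811, .ofNat 0⟩, [
    ⟨0, ⟨.ofNat 5, .negSucc 2⟩, 1, ⟨.ofNat 119442, .ofNat 0⟩⟩,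
    ⟨0, ⟨.negSucc 2, .ofNat 2⟩, 1, ⟨.ofNat 63156, .ofNat 0⟩⟩,
    ⟨0, ⟨.ofNat 7, .ofNat 0⟩, 20, ⟨.ofNat 4148, .ofNat 0⟩⟩,
    ⟨0, ⟨.ofNat 2, .ofNat 0⟩, 5, ⟨.negSucc 6776, .ofNat 0⟩⟩,
    ⟨0, ⟨.ofNat 13, .ofNat 0⟩, 20, ⟨.ofNat 10315, .ofNat 0⟩⟩,
    ⟨1, ⟨.ofNat 1, .ofNat 0⟩, 20, ⟨.negSucc 599, .ofNat 0⟩⟩,
    ⟨1, ⟨.ofNat 3, .ofNat 0⟩, 10, ⟨.negSucc 134, .ofNat 0⟩⟩,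
    ⟨1, ⟨.ofNat 7, .ofNat 0⟩, 10, ⟨.ofNat 726, .ofNat 0⟩⟩,
    ⟨2, ⟨.ofNat 3, .ofNat 0⟩, 10, ⟨.negSucc 448, .ofNat 0⟩⟩]⟩

/-- the function `bc` -/
def fbc : Fd := ⟨⟨.negSucc 178512, .ofNat 0⟩, [
    ⟨0, ⟨.ofNat 3, .ofNat 0⟩, 10, ⟨.ofNat 10879, .ofNat 0⟩⟩,
    ⟨0, ⟨.ofNat 1, .ofNat 0⟩, 3, ⟨.ofNat 53610, .ofNat 0⟩⟩,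
    ⟨0, ⟨.ofNat 2, .negSucc 0⟩, 1, ⟨.negSucc 290870, .ofNat 0⟩⟩,
    ⟨0, ⟨.ofNat 2, .ofNat 0⟩, 5, ⟨.negSucc 6138, .ofNat 0⟩⟩,
    ⟨0, ⟨.ofNat 1, .ofNat 0⟩, 2, ⟨.ofNat 30321, .ofNat 0⟩⟩,
    ⟨0, ⟨.ofNat 11, .ofNat 0⟩, 20, ⟨.ofNat 2591, .ofNat 0⟩⟩,
    ⟨0, ⟨.ofNat 3, .ofNat 0⟩, 5, ⟨.ofNat 13749, .ofNat 0⟩⟩,
    ⟨0, ⟨.negSucc 0, .ofNat 1⟩, 1, ⟨.ofNat 200932, .ofNat 0⟩⟩,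
    ⟨0, ⟨.ofNat 7, .ofNat 0⟩, 10, ⟨.ofNat 2545, .ofNat 0⟩⟩,
    ⟨0, ⟨.ofNat 3, .ofNat 0⟩, 4, ⟨.ofNat 6832, .ofNat 0⟩⟩,
    ⟨1, ⟨.ofNat 11, .ofNat 0⟩, 20, ⟨.ofNat 136, .ofNat 0⟩⟩,
    ⟨1, ⟨.ofNat 9, .ofNat 0⟩, 10, ⟨.ofNat 888, .ofNat 0⟩⟩,
    ⟨2, ⟨.ofNat 1, .ofNat 0⟩, 5, ⟨.ofNat 8452, .ofNat 0⟩⟩,
    ⟨2, ⟨.negSucc 2, .ofNat 2⟩, 1, ⟨.negSucc 57225, .ofNat 0⟩⟩,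
    ⟨2, ⟨.ofNat 11, .ofNat 0⟩, 40, ⟨.negSucc 72, .ofNat 0⟩⟩,
    ⟨2, ⟨.ofNat 13, .ofNat 0⟩, 40, ⟨.ofNat 7731, .ofNat 0⟩⟩,
    ⟨2, ⟨.ofNat 2, .negSucc 0⟩, 1, ⟨.negSucc 301143, .ofNat 0⟩⟩,
    ⟨2, ⟨.ofNat 2, .ofNat 0⟩, 5, ⟨.negSucc 6138, .ofNat 0⟩⟩]⟩

/-- the function `cc` -/
def fcc : Fd := ⟨⟨.ofNat 396755, .negSucc 381124⟩, [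
    ⟨0, ⟨.ofNat 17, .ofNat 0⟩, 20, ⟨.ofNat 1113, .ofNat 0⟩⟩,
    ⟨1, ⟨.ofNat 11, .ofNat 0⟩, 20, ⟨.ofNat 430, .ofNat 0⟩⟩,
    ⟨1, ⟨.ofNat 7, .ofNat 0⟩, 10, ⟨.negSucc 719, .ofNat 0⟩⟩,
    ⟨2, ⟨.ofNat 5, .negSucc 2⟩, 1, ⟨.ofNat 119442, .ofNat 0⟩⟩,
    ⟨2, ⟨.negSucc 2, .ofNat 2⟩, 1, ⟨.ofNat 51363, .ofNat 0⟩⟩,
    ⟨2, ⟨.ofNat 7, .ofNat 0⟩, 20, ⟨.ofNat 6432, .ofNat 0⟩⟩,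
    ⟨2, ⟨.ofNat 2, .negSucc 0⟩, 1, ⟨.negSucc 54490, .ofNat 0⟩⟩,
    ⟨2, ⟨.ofNat 2, .ofNat 0⟩, 5, ⟨.negSucc 3983, .ofNat 0⟩⟩]⟩

/-- chords of `V` -/
def chords : List Chord := [⟨⟨.ofNat 1, .ofNat 0⟩, ⟨.ofNat 1, .ofNat 0⟩, ⟨.ofNat 13, .ofNat 0⟩, ⟨.ofNat 12, .ofNat 0⟩, ⟨.ofNat 140800, .ofNat 0⟩, ⟨.ofNat 147200, .ofNat 0⟩⟩,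
  ⟨⟨.ofNat 13, .ofNat 0⟩, ⟨.ofNat 12, .ofNat 0⟩, ⟨.ofNat 27, .ofNat 0⟩, ⟨.ofNat 23, .ofNat 0⟩, ⟨.ofNat 131968, .ofNat 0⟩, ⟨.ofNat 156768, .ofNat 0⟩⟩,
  ⟨⟨.ofNat 27, .ofNat 0⟩, ⟨.ofNat 23, .ofNat 0⟩, ⟨.ofNat 14, .ofNat 0⟩, ⟨.ofNat 11, .ofNat 0⟩, ⟨.ofNat 124148, .ofNat 0⟩, ⟨.ofNat 165948, .ofNat 0⟩⟩,
  ⟨⟨.ofNat 14, .ofNat 0⟩, ⟨.ofNat 11, .ofNat 0⟩, ⟨.ofNat 29, .ofNat 0⟩, ⟨.ofNat 21, .ofNat 0⟩, ⟨.ofNat 116800, .ofNat 0⟩, ⟨.ofNat 175300, .ofNat 0⟩⟩,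
  ⟨⟨.ofNat 29, .ofNat 0⟩, ⟨.ofNat 21, .ofNat 0⟩, ⟨.ofNat 3, .ofNat 0⟩, ⟨.ofNat 2, .ofNat 0⟩, ⟨.ofNat 109240, .ofNat 0⟩, ⟨.ofNat 185740, .ofNat 0⟩⟩,
  ⟨⟨.ofNat 3, .ofNat 0⟩, ⟨.ofNat 2, .ofNat 0⟩, ⟨.ofNat 11, .ofNat 0⟩, ⟨.ofNat 7, .ofNat 0⟩, ⟨.ofNat 104800, .ofNat 0⟩, ⟨.ofNat 192400, .ofNat 0⟩⟩,
  ⟨⟨.ofNat 11, .ofNat 0⟩, ⟨.ofNat 7, .ofNat 0⟩, ⟨.ofNat 0, .ofNat 1⟩, ⟨.ofNat 1, .ofNat 0⟩, ⟨.ofNat 101227, .ofNat 0⟩, ⟨.ofNat 200000, .negSucc 1226⟩⟩,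
  ⟨⟨.ofNat 0, .ofNat 1⟩, ⟨.ofNat 1, .ofNat 0⟩, ⟨.ofNat 5, .ofNat 0⟩, ⟨.ofNat 3, .ofNat 0⟩, ⟨.ofNat 98629, .ofNat 0⟩, ⟨.ofNat 200000, .ofNat 1371⟩⟩,
  ⟨⟨.ofNat 5, .ofNat 0⟩, ⟨.ofNat 3, .ofNat 0⟩, ⟨.ofNat 16, .ofNat 0⟩, ⟨.ofNat 9, .ofNat 0⟩, ⟨.ofNat 95199, .ofNat 0⟩, ⟨.ofNat 207935, .ofNat 0⟩⟩,
  ⟨⟨.ofNat 16, .ofNat 0⟩, ⟨.ofNat 9, .ofNat 0⟩, ⟨.ofNat 33, .ofNat 0⟩, ⟨.ofNat 17, .ofNat 0⟩, ⟨.ofNat 89488, .ofNat 0⟩, ⟨.ofNat 218088, .ofNat 0⟩⟩,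
  ⟨⟨.ofNat 33, .ofNat 0⟩, ⟨.ofNat 17, .ofNat 0⟩, ⟨.ofNat 2, .ofNat 0⟩, ⟨.ofNat 1, .ofNat 0⟩, ⟨.ofNat 85000, .ofNat 0⟩, ⟨.ofNat 226800, .ofNat 0⟩⟩,
  ⟨⟨.ofNat 2, .ofNat 0⟩, ⟨.ofNat 1, .ofNat 0⟩, ⟨.ofNat 17, .ofNat 0⟩, ⟨.ofNat 8, .ofNat 0⟩, ⟨.ofNat 82300, .ofNat 0⟩, ⟨.ofNat 232200, .ofNat 0⟩⟩,
  ⟨⟨.ofNat 17, .ofNat 0⟩, ⟨.ofNat 8, .ofNat 0⟩, ⟨.ofNat 7, .ofNat 0⟩, ⟨.ofNat 3, .ofNat 0⟩, ⟨.ofNat 77020, .ofNat 0⟩, ⟨.ofNat 243420, .ofNat 0⟩⟩,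
  ⟨⟨.ofNat 7, .ofNat 0⟩, ⟨.ofNat 3, .ofNat 0⟩, ⟨.ofNat 29, .ofNat 0⟩, ⟨.ofNat 11, .ofNat 0⟩, ⟨.ofNat 70360, .ofNat 0⟩, ⟨.ofNat 258960, .ofNat 0⟩⟩,
  ⟨⟨.ofNat 29, .ofNat 0⟩, ⟨.ofNat 11, .ofNat 0⟩, ⟨.ofNat 3, .ofNat 0⟩, ⟨.ofNat 1, .ofNat 0⟩, ⟨.ofNat 63100, .ofNat 0⟩, ⟨.ofNat 278100, .ofNat 0⟩⟩,
  ⟨⟨.ofNat 3, .ofNat 0⟩, ⟨.ofNat 1, .ofNat 0⟩, ⟨.ofNat 31, .ofNat 0⟩, ⟨.ofNat 9, .ofNat 0⟩, ⟨.ofNat 56300, .ofNat 0⟩, ⟨.ofNat 298500, .ofNat 0⟩⟩,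
  ⟨⟨.ofNat 31, .ofNat 0⟩, ⟨.ofNat 9, .ofNat 0⟩, ⟨.ofNat 4, .ofNat 0⟩, ⟨.ofNat 1, .ofNat 0⟩, ⟨.ofNat 49460, .ofNat 0⟩, ⟨.ofNat 322060, .ofNat 0⟩⟩,
  ⟨⟨.ofNat 4, .ofNat 0⟩, ⟨.ofNat 1, .ofNat 0⟩, ⟨.ofNat 33, .ofNat 0⟩, ⟨.ofNat 7, .ofNat 0⟩, ⟨.ofNat 43060, .ofNat 0⟩, ⟨.ofNat 347660, .ofNat 0⟩⟩,
  ⟨⟨.ofNat 33, .ofNat 0⟩, ⟨.ofNat 7, .ofNat 0⟩, ⟨.ofNat 17, .ofNat 0⟩, ⟨.ofNat 3, .ofNat 0⟩, ⟨.ofNat 36690, .ofNat 0⟩, ⟨.ofNat 377690, .ofNat 0⟩⟩,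
  ⟨⟨.ofNat 17, .ofNat 0⟩, ⟨.ofNat 3, .ofNat 0⟩, ⟨.ofNat 7, .ofNat 0⟩, ⟨.ofNat 1, .ofNat 0⟩, ⟨.ofNat 30525, .ofNat 0⟩, ⟨.ofNat 412625, .ofNat 0⟩⟩,
  ⟨⟨.ofNat 7, .ofNat 0⟩, ⟨.ofNat 1, .ofNat 0⟩, ⟨.ofNat 9, .ofNat 0⟩, ⟨.ofNat 1, .ofNat 0⟩, ⟨.ofNat 24600, .ofNat 0⟩, ⟨.ofNat 454100, .ofNat 0⟩⟩,
  ⟨⟨.ofNat 9, .ofNat 0⟩, ⟨.ofNat 1, .ofNat 0⟩, ⟨.ofNat 37, .ofNat 0⟩, ⟨.ofNat 3, .ofNat 0⟩, ⟨.ofNat 18770, .ofNat 0⟩, ⟨.ofNat 506570, .ofNat 0⟩⟩,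
  ⟨⟨.ofNat 37, .ofNat 0⟩, ⟨.ofNat 3, .ofNat 0⟩, ⟨.ofNat 19, .ofNat 0⟩, ⟨.ofNat 1, .ofNat 0⟩, ⟨.ofNat 13040, .ofNat 0⟩, ⟨.ofNat 577240, .ofNat 0⟩⟩,
  ⟨⟨.ofNat 19, .ofNat 0⟩, ⟨.ofNat 1, .ofNat 0⟩, ⟨.ofNat 39, .ofNat 0⟩, ⟨.ofNat 1, .ofNat 0⟩, ⟨.ofNat 7335, .ofNat 0⟩, ⟨.ofNat 685635, .ofNat 0⟩⟩,
  ⟨⟨.ofNat 39, .ofNat 0⟩, ⟨.ofNat 1, .ofNat 0⟩, ⟨.ofNat 99, .ofNat 0⟩, ⟨.ofNat 1, .ofNat 0⟩, ⟨.ofNat 3200, .ofNat 0⟩, ⟨.ofNat 846900, .ofNat 0⟩⟩,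
  ⟨⟨.ofNat 99, .ofNat 0⟩, ⟨.ofNat 1, .ofNat 0⟩, ⟨.ofNat 1, .ofNat 0⟩, ⟨.ofNat 0, .ofNat 0⟩, ⟨.ofNat 0, .ofNat 0⟩, ⟨.ofNat 1163700, .ofNat 0⟩⟩,
  ⟨⟨.ofNat 12, .ofNat 0⟩, ⟨.ofNat 13, .ofNat 0⟩, ⟨.ofNat 1, .ofNat 0⟩, ⟨.ofNat 1, .ofNat 0⟩, ⟨.ofNat 147200, .ofNat 0⟩, ⟨.ofNat 140800, .ofNat 0⟩⟩,
  ⟨⟨.ofNat 23, .ofNat 0⟩, ⟨.ofNat 27, .ofNat 0⟩, ⟨.ofNat 12, .ofNat 0⟩, ⟨.ofNat 13, .ofNat 0⟩, ⟨.ofNat 156768, .ofNat 0⟩, ⟨.ofNat 131968, .ofNat 0⟩⟩,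
  ⟨⟨.ofNat 11, .ofNat 0⟩, ⟨.ofNat 14, .ofNat 0⟩, ⟨.ofNat 23, .ofNat 0⟩, ⟨.ofNat 27, .ofNat 0⟩, ⟨.ofNat 165948, .ofNat 0⟩, ⟨.ofNat 124148, .ofNat 0⟩⟩,
  ⟨⟨.ofNat 21, .ofNat 0⟩, ⟨.ofNat 29, .ofNat 0⟩, ⟨.ofNat 11, .ofNat 0⟩, ⟨.ofNat 14, .ofNat 0⟩, ⟨.ofNat 175300, .ofNat 0⟩, ⟨.ofNat 116800, .ofNat 0⟩⟩,
  ⟨⟨.ofNat 2, .ofNat 0⟩, ⟨.ofNat 3, .ofNat 0⟩, ⟨.ofNat 21, .ofNat 0⟩, ⟨.ofNat 29, .ofNat 0⟩, ⟨.ofNat 185740, .ofNat 0⟩, ⟨.ofNat 109240, .ofNat 0⟩⟩,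
  ⟨⟨.ofNat 7, .ofNat 0⟩, ⟨.ofNat 11, .ofNat 0⟩, ⟨.ofNat 2, .ofNat 0⟩, ⟨.ofNat 3, .ofNat 0⟩, ⟨.ofNat 192400, .ofNat 0⟩, ⟨.ofNat 104800, .ofNat 0⟩⟩,
  ⟨⟨.ofNat 1, .ofNat 0⟩, ⟨.ofNat 0, .ofNat 1⟩, ⟨.ofNat 7, .ofNat 0⟩, ⟨.ofNat 11, .ofNat 0⟩, ⟨.ofNat 200000, .negSucc 1226⟩, ⟨.ofNat 101227, .ofNat 0⟩⟩,
  ⟨⟨.ofNat 3, .ofNat 0⟩, ⟨.ofNat 5, .ofNat 0⟩, ⟨.ofNat 1, .ofNat 0⟩, ⟨.ofNat 0, .ofNat 1⟩, ⟨.ofNat 200000, .ofNat 1371⟩, ⟨.ofNat 98629, .ofNat 0⟩⟩,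
  ⟨⟨.ofNat 9, .ofNat 0⟩, ⟨.ofNat 16, .ofNat 0⟩, ⟨.ofNat 3, .ofNat 0⟩, ⟨.ofNat 5, .ofNat 0⟩, ⟨.ofNat 207935, .ofNat 0⟩, ⟨.ofNat 95199, .ofNat 0⟩⟩,
  ⟨⟨.ofNat 17, .ofNat 0⟩, ⟨.ofNat 33, .ofNat 0⟩, ⟨.ofNat 9, .ofNat 0⟩, ⟨.ofNat 16, .ofNat 0⟩, ⟨.ofNat 218088, .ofNat 0⟩, ⟨.ofNat 89488, .ofNat 0⟩⟩,
  ⟨⟨.ofNat 1, .ofNat 0⟩, ⟨.ofNat 2, .ofNat 0⟩, ⟨.ofNat 17, .ofNat 0⟩, ⟨.ofNat 33, .ofNat 0⟩, ⟨.ofNat 226800, .ofNat 0⟩, ⟨.ofNat 85000, .ofNat 0⟩⟩,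
  ⟨⟨.ofNat 8, .ofNat 0⟩, ⟨.ofNat 17, .ofNat 0⟩, ⟨.ofNat 1, .ofNat 0⟩, ⟨.ofNat 2, .ofNat 0⟩, ⟨.ofNat 232200, .ofNat 0⟩, ⟨.ofNat 82300, .ofNat 0⟩⟩,
  ⟨⟨.ofNat 3, .ofNat 0⟩, ⟨.ofNat 7, .ofNat 0⟩, ⟨.ofNat 8, .ofNat 0⟩, ⟨.ofNat 17, .ofNat 0⟩, ⟨.ofNat 243420, .ofNat 0⟩, ⟨.ofNat 77020, .ofNat 0⟩⟩,
  ⟨⟨.ofNat 11, .ofNat 0⟩, ⟨.ofNat 29, .ofNat 0⟩, ⟨.ofNat 3, .ofNat 0⟩, ⟨.ofNat 7, .ofNat 0⟩, ⟨.ofNat 258960, .ofNat 0⟩, ⟨.ofNat 70360, .ofNat 0⟩⟩,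
  ⟨⟨.ofNat 1, .ofNat 0⟩, ⟨.ofNat 3, .ofNat 0⟩, ⟨.ofNat 11, .ofNat 0⟩, ⟨.ofNat 29, .ofNat 0⟩, ⟨.ofNat 278100, .ofNat 0⟩, ⟨.ofNat 63100, .ofNat 0⟩⟩,
  ⟨⟨.ofNat 9, .ofNat 0⟩, ⟨.ofNat 31, .ofNat 0⟩, ⟨.ofNat 1, .ofNat 0⟩, ⟨.ofNat 3, .ofNat 0⟩, ⟨.ofNat 298500, .ofNat 0⟩, ⟨.ofNat 56300, .ofNat 0⟩⟩,
  ⟨⟨.ofNat 1, .ofNat 0⟩, ⟨.ofNat 4, .ofNat 0⟩, ⟨.ofNat 9, .ofNat 0⟩, ⟨.ofNat 31, .ofNat 0⟩, ⟨.ofNat 322060, .ofNat 0⟩, ⟨.ofNat 49460, .ofNat 0⟩⟩,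
  ⟨⟨.ofNat 7, .ofNat 0⟩, ⟨.ofNat 33, .ofNat 0⟩, ⟨.ofNat 1, .ofNat 0⟩, ⟨.ofNat 4, .ofNat 0⟩, ⟨.ofNat 347660, .ofNat 0⟩, ⟨.ofNat 43060, .ofNat 0⟩⟩,
  ⟨⟨.ofNat 3, .ofNat 0⟩, ⟨.ofNat 17, .ofNat 0⟩, ⟨.ofNat 7, .ofNat 0⟩, ⟨.ofNat 33, .ofNat 0⟩, ⟨.ofNat 377690, .ofNat 0⟩, ⟨.ofNat 36690, .ofNat 0⟩⟩,
  ⟨⟨.ofNat 1, .ofNat 0⟩, ⟨.ofNat 7, .ofNat 0⟩, ⟨.ofNat 3, .ofNat 0⟩, ⟨.ofNat 17, .ofNat 0⟩, ⟨.ofNat 412625, .ofNat 0⟩, ⟨.ofNat 30525, .ofNat 0⟩⟩,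
  ⟨⟨.ofNat 1, .ofNat 0⟩, ⟨.ofNat 9, .ofNat 0⟩, ⟨.ofNat 1, .ofNat 0⟩, ⟨.ofNat 7, .ofNat 0⟩, ⟨.ofNat 454100, .ofNat 0⟩, ⟨.ofNat 24600, .ofNat 0⟩⟩,
  ⟨⟨.ofNat 3, .ofNat 0⟩, ⟨.ofNat 37, .ofNat 0⟩, ⟨.ofNat 1, .ofNat 0⟩, ⟨.ofNat 9, .ofNat 0⟩, ⟨.ofNat 506570, .ofNat 0⟩, ⟨.ofNat 18770, .ofNat 0⟩⟩,
  ⟨⟨.ofNat 1, .ofNat 0⟩, ⟨.ofNat 19, .ofNat 0⟩, ⟨.ofNat 3, .ofNat 0⟩, ⟨.ofNat 37, .ofNat 0⟩, ⟨.ofNat 577240, .ofNat 0⟩, ⟨.ofNat 13040, .ofNat 0⟩⟩,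
  ⟨⟨.ofNat 1, .ofNat 0⟩, ⟨.ofNat 39, .ofNat 0⟩, ⟨.ofNat 1, .ofNat 0⟩, ⟨.ofNat 19, .ofNat 0⟩, ⟨.ofNat 685635, .ofNat 0⟩, ⟨.ofNat 7335, .ofNat 0⟩⟩,
  ⟨⟨.ofNat 1, .ofNat 0⟩, ⟨.ofNat 99, .ofNat 0⟩, ⟨.ofNat 1, .ofNat 0⟩, ⟨.ofNat 39, .ofNat 0⟩, ⟨.ofNat 846900, .ofNat 0⟩, ⟨.ofNat 3200, .ofNat 0⟩⟩,
  ⟨⟨.ofNat 0, .ofNat 0⟩, ⟨.ofNat 1, .ofNat 0⟩, ⟨.ofNat 1, .ofNat 0⟩, ⟨.ofNat 99, .ofNat 0⟩, ⟨.ofNat 1163700, .ofNat 0⟩, ⟨.ofNat 0, .ofNat 0⟩⟩]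

/-- tangents of `V` -/
def tans : List Tang := [⟨.ofNat 10700, .ofNat 622550⟩,
  ⟨.ofNat 21900, .ofNat 478500⟩,
  ⟨.ofNat 33800, .ofNat 394250⟩,
  ⟨.ofNat 46400, .ofNat 334500⟩,
  ⟨.ofNat 59800, .ofNat 288100⟩,
  ⟨.ofNat 74150, .ofNat 250200⟩,
  ⟨.ofNat 86350, .ofNat 224200⟩,
  ⟨.ofNat 100000, .ofNat 200000⟩,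
  ⟨.ofNat 113200, .ofNat 180300⟩,
  ⟨.ofNat 128050, .ofNat 161400⟩,
  ⟨.ofNat 144050, .ofNat 144050⟩,
  ⟨.ofNat 161400, .ofNat 128050⟩,
  ⟨.ofNat 180300, .ofNat 113200⟩,
  ⟨.ofNat 200000, .ofNat 100000⟩,
  ⟨.ofNat 224200, .ofNat 86350⟩,
  ⟨.ofNat 250200, .ofNat 74150⟩,
  ⟨.ofNat 288100, .ofNat 59800⟩,
  ⟨.ofNat 334500, .ofNat 46400⟩,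
  ⟨.ofNat 394250, .ofNat 33800⟩,
  ⟨.ofNat 478500, .ofNat 21900⟩,
  ⟨.ofNat 622550, .ofNat 10700⟩]

end

end Pool.Agent.PHCert
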