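import Pool.Agent.PHCert.Zp

/-!
# Project PHCert: vectors, piecewise linear functions, branch and bound trees
-/

set_option autoImplicit false

namespace Pool.Agent.PHCert

open Zp

/-- vectors of `ℤ[φ]^4` (linear forms and points) -/
structure V4 where
  a : Zp
  b : Zp
  c : Zp
  d : Zp
deriving DecidableEq

namespace V4

/-- scalar product -/
def dot (l v : V4) : Zp :=
  ((l.a.mul v.a).add (l.b.mul v.b)).add ((l.c.mul v.c).add (l.d.mul v.d))

/-- sum -/
def add (l v : V4) : V4 := ⟨l.a.add v.a, l.b.add v.b, l.c.add v.c, l.d.add v.d⟩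

/-- multiple -/
def smul (t : Zp) (v : V4) : V4 := ⟨t.mul v.a, t.mul v.b, t.mul v.c, t.mul v.d⟩

/-- equality test -/
def beq (l v : V4) : Bool := l.a.beq v.a && (l.b.beq v.b && (l.c.beq v.c && l.d.beq v.d))

theorem beq_sound {l v : V4} (h : l.beq v = true) : l = v := by
  unfold beq at h
  simp only [Bool.and_eq_true] at h
  obtain ⟨h1, h2, h3, h4⟩ := h
  cases l
  cases v
  simp only [V4.mk.injEq]
  exact ⟨Zp.beq_sound h1, Zp.beq_sound h2, Zp.beq_sound h3, Zp.beq_sound h4⟩

end V4

/-- the point of `ℝ^4` -/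
noncomputable def vecR (v : V4) : Fin 4 → ℝ := ![v.a.val, v.b.val, v.c.val, v.d.val]

/-- the linear form on `ℝ^4` -/
noncomputable def dotR (l : V4) (x : Fin 4 → ℝ) : ℝ :=
  l.a.val * x 0 + l.b.val * x 1 + l.c.val * x 2 + l.d.val * x 3

theorem dot_val (l v : V4) : (l.dot v).val = dotR l (vecR v) := by
  unfold V4.dot dotR vecR
  rw [val_add, val_add, val_add, val_mul, val_mul, val_mul, val_mul]
  simp [Matrix.cons_val_zero, Matrix.cons_val_one]
  ring

theorem dotR_add (l m : V4) (x : Fin 4 → ℝ) : dotR (l.add m) x = dotR l x + dotR m x := by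
  unfold V4.add dotR
  simp only [val_add]
  ring

theorem dotR_smul (t : Zp) (m : V4) (x : Fin 4 → ℝ) : dotR (V4.smul t m) x = t.val * dotR m x := by
  unfold V4.smul dotR
  simp only [val_mul]
  ring

theorem dotR_comb (l : V4) (a0 a1 a2 a3 : ℝ) (x0 x1 x2 x3 : Fin 4 → ℝ) :
    dotR l (a0 • x0 + a1 • x1 + a2 • x2 + a3 • x3) =
      a0 * dotR l x0 + a1 * dotR l x1 + a2 * dotR l x2 + a3 * dotR l x3 := by
  unfold dotR
  simp only [Pi.add_apply, Pi.smul_apply, smul_eq_mul]
  ring

/-- the term `c max (0, l x)` -/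
structure Hinge where
  c : Zp
  l : V4
deriving DecidableEq

/-- the value of a sum of hinges -/
noncomputable def evH : List Hinge → (Fin 4 → ℝ) → ℝ
  | [], _ => 0
  | h :: H, x => h.c.val * max 0 (dotR h.l x) + evH H x

/-- `log φ` -/
noncomputable def Lp : ℝ := Real.log Real.goldenRatio

/-- the entropy function `(x + y) log (x + y) - x log x - y log y` -/
noncomputable def VV (x y : ℝ) : ℝ := (x + y) * Real.log (x + y) - x * Real.log x - y * Real.log y

/-- scale -/
def DD : Int := 100000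

/-- A linear lower bound of `V` between two rays. -/
structure Chord where
  p1 : Zp
  q1 : Zp
  p2 : Zp
  q2 : Zp
  A : Zp
  B : Zp

/-- what a chord means -/
structure Chord.Ok (c : Chord) : Prop where
  p1 : 0 ≤ c.p1.val
  q1 : 0 ≤ c.q1.val
  p2 : 0 ≤ c.p2.val
  q2 : 0 ≤ c.q2.val
  det : 0 < c.p2.val * c.q1.val - c.p1.val * c.q2.val
  low1 : (c.A.val * c.p1.val + c.B.val * c.q1.val) * Lp ≤ (DD : ℝ) * VV c.p1.val c.q1.val
  low2 : (c.A.val * c.p2.val + c.B.val * c.q2.val) * Lp ≤ (DD : ℝ) * VV c.p2.val c.q2.val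

/-- `(e, f)` lies between the rays of the chord -/
def Chord.inside (c : Chord) (e f : Zp) : Bool :=
  ((e.mul c.q1).add (f.mul c.p1).neg).nneg && ((f.mul c.p2).add (e.mul c.q2).neg).nneg

/-- A tangent: `V (x, y) ≤ (a x + b y) log φ / D`. -/
structure Tang where
  a : Int
  b : Int

/-- what a tangent means -/
def Tang.Ok (t : Tang) : Prop :=
  ∀ x y : ℝ, 0 ≤ x → 0 ≤ y → (DD : ℝ) * VV x y ≤ ((t.a : ℝ) * x + (t.b : ℝ) * y) * Lp

/-- a problem: a linear form, hinges and (if `E`) the entropy terms -/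
structure Prob where
  E : Bool
  lin : V4
  H : List Hinge
  ch : List Chord
  tn : List Tang

/-- the function (in units of `log φ / D`) -/
noncomputable def Prob.F (T : Prob) (x : Fin 4 → ℝ) : ℝ :=
  dotR T.lin x + evH T.H x +
    (if T.E = true then (DD : ℝ) / Lp * (VV (x 0) (x 1) - Real.goldenRatio ^ 2 * VV (x 2) (x 3)) else 0)

/-- an entry of a vertex: sign of the form and value of the hinge without `max` -/
structure Ent where
  s : Sg
  cl : Zp

/-- a vertex with its values -/
structure Vtx where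
  x : V4
  base : Zp
  row : List Ent

/-- entry of a hinge at a point -/
def Hinge.ent (x : V4) (h : Hinge) : Ent :=
  let v := h.l.dot x
  ⟨v.sg, h.c.mul v⟩

/-- lookup in a list of chords -/
def getC : List Chord → Nat → Option Chord
  | [], _ => none
  | c :: _, 0 => some c
  | _ :: C, n + 1 => getC C n

/-- lookup in a list of tangents -/
def getT : List Tang → Nat → Option Tang
  | [], _ => none
  | c :: _, 0 => some c
  | _ :: C, n + 1 => getT C n

/-- the base value at a point -/
def Prob.base (T : Prob) (x : V4) (k : Nat) : Zp :=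
  match T.E with
  | false => T.lin.dot x
  | true => match getC T.ch k with
    | none => Zp.zero
    | some c => (T.lin.dot x).add ((c.A.mul x.a).add (c.B.mul x.b))

/-- validity of the chord index -/
def Prob.okC (T : Prob) (x : V4) (k : Nat) : Bool :=
  match T.E with
  | false => true
  | true => match getC T.ch k with
    | none => false
    | some c => c.inside x.a x.b

/-- the vertex at `x` -/
def Prob.mk' (T : Prob) (x : V4) (k : Nat) : Vtx := ⟨x, T.base x k, T.H.map (Hinge.ent x)⟩

/-- one of four signs is positive -/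
def anyP (a b c d : Sg) : Bool :=
  match a, b, c, d with
  | Sg.p, _, _, _ => true
  | _, Sg.p, _, _ => true
  | _, _, Sg.p, _ => true
  | _, _, _, Sg.p => true
  | _, _, _, _ => false

/-- one of four signs is negative -/
def anyM (a b c d : Sg) : Bool :=
  match a, b, c, d with
  | Sg.m, _, _, _ => true
  | _, Sg.m, _, _ => true
  | _, _, Sg.m, _ => true
  | _, _, _, Sg.m => true
  | _, _, _, _ => false

/-- 64 times the positive part -/
def Ent.pp (e : Ent) : Zp :=
  match e.s with
  | Sg.p => e.cl.smul 64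
  | _ => Zp.zero

/-- the leaf computation -/
def leafGo : List Bool → List Ent → List Ent → List Ent → List Ent → List Nat → Zp → Zp → Zp → Zp → Bool
  | [], _, _, _, _, _, s0, s1, s2, s3 => s0.nneg && (s1.nneg && (s2.nneg && s3.nneg))
  | f :: fl, e0 :: r0, e1 :: r1, e2 :: r2, e3 :: r3, th, s0, s1, s2, s3 =>
    match f && (anyP e0.s e1.s e2.s e3.s && anyM e0.s e1.s e2.s e3.s) with
    | true => match th with
      | [] => false
      | k :: th => Nat.ble k 64 && leafGo fl r0 r1 r2 r3 th (s0.add (e0.cl.smul (Int.ofNat k)))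
          (s1.add (e1.cl.smul (Int.ofNat k))) (s2.add (e2.cl.smul (Int.ofNat k))) (s3.add (e3.cl.smul (Int.ofNat k)))
    | false => leafGo fl r0 r1 r2 r3 th (s0.add e0.pp) (s1.add e1.pp) (s2.add e2.pp) (s3.add e3.pp)
  | _ :: _, _, _, _, _, _, _, _, _, _ => false

/-- start value of a leaf -/
def Prob.start (T : Prob) (t : Tang) (v : Vtx) : Zp :=
  match T.E with
  | false => v.base.smul 64
  | true => (v.base.add (((v.x.c.smul t.a).add (v.x.d.smul t.b)).mul ⟨-1, -1⟩)).smul 64

/-- branch and bound trees -/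
inductive Tree where
  | leaf (tan : Nat) (th : List Nat)
  | s01 (w : V4) (al be ga : Zp) (k : Nat) (t1 t2 : Tree)
  | s02 (w : V4) (al be ga : Zp) (k : Nat) (t1 t2 : Tree)
  | s03 (w : V4) (al be ga : Zp) (k : Nat) (t1 t2 : Tree)
  | s12 (w : V4) (al be ga : Zp) (k : Nat) (t1 t2 : Tree)
  | s13 (w : V4) (al be ga : Zp) (k : Nat) (t1 t2 : Tree)
  | s23 (w : V4) (al be ga : Zp) (k : Nat) (t1 t2 : Tree)

/-- positivity -/
def Zp.ispos (x : Zp) : Bool :=
  match x.sg with
  | Sg.p => true
  | _ => false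

/-- validity of a splitting: `ga w = al u + be v` -/
def splitOk (w : V4) (al be ga : Zp) (u v : V4) : Bool :=
  al.ispos && (be.ispos && (ga.ispos && (V4.smul ga w).beq ((V4.smul al u).add (V4.smul be v))))

/-- the checker -/
def Prob.check (T : Prob) (fl : List Bool) : Tree → Vtx → Vtx → Vtx → Vtx → Bool
  | Tree.leaf tan th, v0, v1, v2, v3 =>
    match getT T.tn tan with
    | none => false
    | some t => leafGo fl v0.row v1.row v2.row v3.row th (T.start t v0) (T.start t v1) (T.start t v2) (T.start t v3)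
  | Tree.s01 w al be ga k t1 t2, v0, v1, v2, v3 =>
    splitOk w al be ga v0.x v1.x && (T.okC w k &&
      (T.check fl t1 (T.mk' w k) v1 v2 v3 && T.check fl t2 v0 (T.mk' w k) v2 v3))
  | Tree.s02 w al be ga k t1 t2, v0, v1, v2, v3 =>
    splitOk w al be ga v0.x v2.x && (T.okC w k &&
      (T.check fl t1 (T.mk' w k) v1 v2 v3 && T.check fl t2 v0 v1 (T.mk' w k) v3))
  | Tree.s03 w al be ga k t1 t2, v0, v1, v2, v3 =>
    splitOk w al be ga v0.x v3.x && (T.okC w k &&
      (T.check fl t1 (T.mk' w k) v1 v2 v3 && T.check fl t2 v0 v1 v2 (T.mk' w k)))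
  | Tree.s12 w al be ga k t1 t2, v0, v1, v2, v3 =>
    splitOk w al be ga v1.x v2.x && (T.okC w k &&
      (T.check fl t1 v0 (T.mk' w k) v2 v3 && T.check fl t2 v0 v1 (T.mk' w k) v3))
  | Tree.s13 w al be ga k t1 t2, v0, v1, v2, v3 =>
    splitOk w al be ga v1.x v3.x && (T.okC w k &&
      (T.check fl t1 v0 (T.mk' w k) v2 v3 && T.check fl t2 v0 v1 v2 (T.mk' w k)))
  | Tree.s23 w al be ga k t1 t2, v0, v1, v2, v3 =>
    splitOk w al be ga v2.x v3.x && (T.okC w k &&
      (T.check fl t1 v0 v1 (T.mk' w k) v3 && T.check fl t2 v0 v1 v2 (T.mk' w k)))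

/-- flags: which hinges are convex -/
def flags (H : List Hinge) : List Bool := H.map fun h => h.c.nneg

/-- the check of a problem on a simplicial cone -/
def Prob.run (T : Prob) (t : Tree) (r0 r1 r2 r3 : V4) (k0 k1 k2 k3 : Nat) : Bool :=
  T.okC r0 k0 && (T.okC r1 k1 && (T.okC r2 k2 && (T.okC r3 k3 &&
    T.check (flags T.H) t (T.mk' r0 k0) (T.mk' r1 k1) (T.mk' r2 k2) (T.mk' r3 k3))))

end Pool.Agent.PHCert
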