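import Pool.Agent.PHCert.E1a

/-!
# PHCert: inequality E1
-/

set_option autoImplicit false

namespace Pool.Agent.PHCert.E1

open Zp Pool.Agent.PHCert

noncomputable section

theorem root : Good (PE lin H) v0 v1 ⟨z2, z2, z1, z1⟩ ⟨z1, z1, z0, z1⟩ := g0

theorem ineq {e f a b : ℝ} (ha : 0 ≤ a) (hb : a ≤ b) (he : a + b ≤ e) (hf : a + b ≤ f) :
    0 ≤ tev ts ![e, f, a, b] + (DD : ℝ) / Lp * (VV e f - Real.goldenRatio ^ 2 * VV a b) := gen_ES data root ha hb he hf

end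

end Pool.Agent.PHCert.E1
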