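import Pool.Agent.PHCert.E1H

/-!
# PHCert: inequality E1, part 1 (35 leaves, checked by the kernel)
-/

set_option autoImplicit false

namespace Pool.Agent.PHCert.E1

open Zp Pool.Agent.PHCert

noncomputable section

/-- part of a tree -/
def t0_2 : Tree := .s23 ⟨⟨.ofNat 9, .ofNat 0⟩, ⟨.ofNat 9, .ofNat 0⟩, ⟨.ofNat 2, .ofNat 0⟩, ⟨.ofNat 7, .ofNat 0⟩⟩ ⟨.ofNat 2, .ofNat 0⟩ ⟨.ofNat 49, .ofNat 0⟩ ⟨.ofNat 11, .ofNat 0⟩ 0 (.s03 ⟨⟨.ofNat 80, .ofNat 40⟩, ⟨.ofNat 52, .ofNat 26⟩, ⟨.negSucc 6, .ofNat 7⟩, ⟨.ofNat 59, .ofNat 19⟩⟩ ⟨.negSucc 6, .ofNat 7⟩ ⟨.ofNat 66, .ofNat 12⟩ ⟨.ofNat 1, .ofNat 0⟩ 5 (.leaf 18 [64, 64]) (.s02 ⟨⟨.ofNat 120,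 .ofNat 0⟩, ⟨.ofNat 78, .ofNat 0⟩, ⟨.ofNat 8, .ofNat 7⟩, ⟨.ofNat 70, .negSucc 6⟩⟩ ⟨.ofNat 21, .ofNat 0⟩ ⟨.ofNat 4, .ofNat 26⟩ ⟨.ofNat 1, .ofNat 3⟩ 5 (.leaf 18 [64, 64, 29]) (.s03 ⟨⟨.ofNat 23, .ofNat 18⟩, ⟨.ofNat 17, .ofNat 0⟩, ⟨.ofNat 3, .ofNat 0⟩, ⟨.ofNat 14, .ofNat 0⟩⟩ ⟨.negSucc 40, .ofNat 234⟩ ⟨.ofNat 0, .ofNat 11⟩ ⟨.ofNat 12, .ofNat 78⟩ 15 (.leaf 18 [64, 0, 64, 64, 0, 0]) (.leaf 15 [64, 53, 0, 64, 0, 0, 0, 0])))) (.s03 ⟨⟨.ofNat 120, .ofNat 0⟩, ⟨.ofNat 78, .ofNat 0⟩, ⟨.ofNat 8, .ofNat 7⟩, ⟨.ofNat 70, .negSucc 6⟩⟩ ⟨.ofNat 21, .ofNat 0⟩ ⟨.ofNat 4, .ofNat 26⟩ ⟨.ofNat 1, .ofNat 3⟩ 5 (.s12 ⟨⟨.ofNat 121, .ofNat 0⟩, ⟨.ofNat 121,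 .ofNat 46⟩, ⟨.ofNat 33, .ofNat 0⟩, ⟨.ofNat 88, .ofNat 0⟩⟩ ⟨.ofNat 46, .ofNat 0⟩ ⟨.ofNat 3, .ofNat 0⟩ ⟨.ofNat 1, .ofNat 0⟩ 32 (.s23 ⟨⟨.ofNat 22, .ofNat 0⟩, ⟨.ofNat 22, .ofNat 0⟩, ⟨.ofNat 7, .ofNat 0⟩, ⟨.ofNat 15, .ofNat 0⟩⟩ ⟨.ofNat 19, .ofNat 0⟩ ⟨.ofNat 67, .ofNat 0⟩ ⟨.ofNat 49, .ofNat 0⟩ 0 (.leaf 16 [64, 64, 64]) (.s02 ⟨⟨.negSucc 624, .ofNat 2025⟩, ⟨.negSucc 624, .ofNat 1725⟩, ⟨.negSucc 224, .ofNat 621⟩, ⟨.negSucc 399, .ofNat 1104⟩⟩ ⟨.ofNat 0, .ofNat 50⟩ ⟨.negSucc 174, .ofNat 327⟩ ⟨.ofNat 7, .ofNat 0⟩ 2 (.s12 ⟨⟨.ofNat 275, .ofNat 0⟩, ⟨.ofNat 275, .ofNat 50⟩, ⟨.ofNat 99, .ofNat 0⟩, ⟨.ofNat 176, .ofNat 0⟩⟩ ⟨.ofNat 25, .ofNat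 0⟩ ⟨.ofNat 132, .ofNat 0⟩ ⟨.ofNat 23, .ofNat 0⟩ 29 (.s23 ⟨⟨.ofNat 5, .ofNat 0⟩, ⟨.ofNat 5, .ofNat 0⟩, ⟨.ofNat 2, .ofNat 0⟩, ⟨.ofNat 3, .ofNat 0⟩⟩ ⟨.ofNat 9, .ofNat 0⟩ ⟨.ofNat 5, .ofNat 0⟩ ⟨.ofNat 67, .ofNat 0⟩ 0 (.leaf 14 [45, 0]) (.leaf 13 [64, 64, 64])) (.leaf 14 [64, 21])) (.leaf 15 [64, 64, 5]))) (.leaf 17 [15, 64, 35])) (.s02 ⟨⟨.negSucc 999, .ofNat 2000⟩, ⟨.negSucc 649, .ofNat 1300⟩, ⟨.negSucc 243, .ofNat 551⟩, ⟨.negSucc 405, .ofNat 749⟩⟩ ⟨.ofNat 175, .ofNat 0⟩ ⟨.ofNat 12, .ofNat 78⟩ ⟨.ofNat 1, .ofNat 1⟩ 5 (.s12 ⟨⟨.ofNat 242, .ofNat 0⟩, ⟨.ofNat 242, .ofNat 67⟩, ⟨.ofNat 77, .ofNat 0⟩, ⟨.ofNat 165, .ofNat 0⟩⟩ ⟨.ofNat 67,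 .ofNat 0⟩ ⟨.ofNat 7, .ofNat 0⟩ ⟨.ofNat 1, .ofNat 0⟩ 30 (.s23 ⟨⟨.negSucc 624, .ofNat 2025⟩, ⟨.negSucc 624, .ofNat 1725⟩, ⟨.negSucc 224, .ofNat 621⟩, ⟨.negSucc 399, .ofNat 1104⟩⟩ ⟨.negSucc 174, .ofNat 327⟩ ⟨.ofNat 0, .ofNat 50⟩ ⟨.ofNat 7, .ofNat 0⟩ 2 (.leaf 14 [64, 45, 64, 0]) (.leaf 13 [64, 25, 64, 64, 64, 64])) (.leaf 14 [64, 16, 0, 0])) (.leaf 14 [64, 64, 0, 64, 7, 0, 0, 5])))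

/-- part of a tree -/
def t0_1 : Tree := .s13 ⟨⟨.ofNat 1, .ofNat 0⟩, ⟨.ofNat 1, .ofNat 1⟩, ⟨.ofNat 0, .ofNat 0⟩, ⟨.ofNat 1, .ofNat 0⟩⟩ ⟨.ofNat 0, .ofNat 1⟩ ⟨.ofNat 1, .ofNat 0⟩ ⟨.ofNat 1, .ofNat 0⟩ 39 t0_2 (.s12 ⟨⟨.ofNat 25, .ofNat 0⟩, ⟨.ofNat 14, .ofNat 14⟩, ⟨.ofNat 11, .ofNat 0⟩, ⟨.ofNat 14, .ofNat 0⟩⟩ ⟨.ofNat 14, .ofNat 3⟩ ⟨.ofNat 0, .ofNat 1⟩ ⟨.ofNat 0, .ofNat 1⟩ 30 (.s02 ⟨⟨.negSucc 999, .ofNat 2000⟩, ⟨.negSucc 649, .ofNat 1300⟩, ⟨.negSucc 243, .ofNat 551⟩, ⟨.negSucc 405, .ofNat 749⟩⟩ ⟨.ofNat 175, .ofNat 0⟩ ⟨.ofNat 12, .ofNat 78⟩ ⟨.ofNat 1, .ofNat 1⟩ 5 (.s23 ⟨⟨.ofNat 275, .ofNat 0⟩, ⟨.ofNat 275, .ofNat 50⟩, ⟨.ofNat 99,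 .ofNat 0⟩, ⟨.ofNat 176, .ofNat 0⟩⟩ ⟨.ofNat 9, .ofNat 0⟩ ⟨.ofNat 50, .ofNat 0⟩ ⟨.ofNat 1, .ofNat 0⟩ 29 (.leaf 14 [64, 0, 16, 0, 0]) (.leaf 12 [64, 5, 64, 35, 64, 64])) (.s01 ⟨⟨.negSucc 999, .ofNat 2000⟩, ⟨.ofNat 868, .ofNat 742⟩, ⟨.negSucc 243, .ofNat 551⟩, ⟨.negSucc 405, .ofNat 749⟩⟩ ⟨.ofNat 175, .ofNat 0⟩ ⟨.ofNat 12, .ofNat 78⟩ ⟨.ofNat 1, .ofNat 1⟩ 0 (.leaf 14 [64, 0, 16, 0, 0, 64]) (.leaf 14 [64, 64, 0, 64, 7, 0, 0, 5]))) (.s02 ⟨⟨.negSucc 999, .ofNat 2000⟩, ⟨.ofNat 868, .ofNat 742⟩, ⟨.negSucc 243, .ofNat 551⟩, ⟨.negSucc 405, .ofNat 749⟩⟩ ⟨.ofNat 175, .ofNat 0⟩ ⟨.ofNat 12, .ofNat 78⟩ ⟨.ofNat 1, .ofNat 1⟩ 0 (.leaf 14 [0, 0,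 64, 64, 0, 0]) (.leaf 15 [64, 37, 0, 0, 0, 0, 0, 0, 0])))

/-- part of a tree -/
def t0_0 : Tree := .s23 ⟨⟨.ofNat 25, .ofNat 0⟩, ⟨.ofNat 25, .ofNat 0⟩, ⟨.ofNat 11, .ofNat 0⟩, ⟨.ofNat 14, .ofNat 0⟩⟩ ⟨.ofNat 11, .ofNat 0⟩ ⟨.ofNat 3, .ofNat 0⟩ ⟨.ofNat 1, .ofNat 0⟩ 0 t0_1 (.s12 ⟨⟨.ofNat 2, .ofNat 0⟩, ⟨.ofNat 1, .ofNat 1⟩, ⟨.ofNat 1, .ofNat 0⟩, ⟨.ofNat 1, .ofNat 0⟩⟩ ⟨.ofNat 1, .ofNat 0⟩ ⟨.ofNat 0, .ofNat 1⟩ ⟨.ofNat 0, .ofNat 1⟩ 29 (.s02 ⟨⟨.ofNat 40, .ofNat 0⟩, ⟨.ofNat 26, .ofNat 0⟩, ⟨.ofNat 13, .ofNat 0⟩, ⟨.ofNat 13, .ofNat 0⟩⟩ ⟨.negSucc 6, .ofNat 7⟩ ⟨.ofNat 33, .ofNat 6⟩ ⟨.ofNat 2, .ofNat 1⟩ 5 (.leaf 10 [64, 64, 64, 61, 64]) (.s03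 ⟨⟨.negSucc 999, .ofNat 2000⟩, ⟨.negSucc 649, .ofNat 1300⟩, ⟨.negSucc 243, .ofNat 551⟩, ⟨.negSucc 405, .ofNat 749⟩⟩ ⟨.ofNat 175, .ofNat 0⟩ ⟨.ofNat 12, .ofNat 78⟩ ⟨.ofNat 1, .ofNat 1⟩ 5 (.leaf 11 [56, 64, 64, 11, 64]) (.s01 ⟨⟨.negSucc 39, .ofNat 80⟩, ⟨.ofNat 34, .ofNat 25⟩, ⟨.negSucc 12, .ofNat 26⟩, ⟨.negSucc 12, .ofNat 26⟩⟩ ⟨.negSucc 6, .ofNat 7⟩ ⟨.ofNat 33, .ofNat 6⟩ ⟨.ofNat 0, .ofNat 1⟩ 2 (.leaf 10 [0, 44, 64, 64]) (.leaf 10 [64, 50, 0])))) (.s13 ⟨⟨.ofNat 25, .ofNat 0⟩, ⟨.ofNat 14, .ofNat 14⟩, ⟨.ofNat 11, .ofNat 0⟩, ⟨.ofNat 14, .ofNat 0⟩⟩ ⟨.ofNat 14, .ofNat 3⟩ ⟨.ofNat 0, .ofNat 1⟩ ⟨.ofNat 0, .ofNat 1⟩ 30 (.s03 ⟨⟨.negSucc 999,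 .ofNat 2000⟩, ⟨.negSucc 649, .ofNat 1300⟩, ⟨.negSucc 243, .ofNat 551⟩, ⟨.negSucc 405, .ofNat 749⟩⟩ ⟨.ofNat 175, .ofNat 0⟩ ⟨.ofNat 12, .ofNat 78⟩ ⟨.ofNat 1, .ofNat 1⟩ 5 (.leaf 11 [64, 15, 64, 33, 64, 64]) (.s02 ⟨⟨.negSucc 39, .ofNat 80⟩, ⟨.ofNat 34, .ofNat 25⟩, ⟨.negSucc 12, .ofNat 26⟩, ⟨.negSucc 12, .ofNat 26⟩⟩ ⟨.negSucc 6, .ofNat 7⟩ ⟨.ofNat 33, .ofNat 6⟩ ⟨.ofNat 0, .ofNat 1⟩ 2 (.leaf 11 [64, 64, 41, 27, 64, 0, 64]) (.s01 ⟨⟨.negSucc 999, .ofNat 2000⟩, ⟨.ofNat 868, .ofNat 742⟩, ⟨.negSucc 243, .ofNat 551⟩, ⟨.negSucc 405, .ofNat 749⟩⟩ ⟨.ofNat 175, .ofNat 0⟩ ⟨.ofNat 12, .ofNat 78⟩ ⟨.ofNat 1, .ofNat 1⟩ 0 (.leaf 11 [64, 0, 26, 64,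 0, 64]) (.leaf 11 [64, 46, 64, 0])))) (.s02 ⟨⟨.negSucc 39, .ofNat 80⟩, ⟨.ofNat 34, .ofNat 25⟩, ⟨.negSucc 12, .ofNat 26⟩, ⟨.negSucc 12, .ofNat 26⟩⟩ ⟨.negSucc 6, .ofNat 7⟩ ⟨.ofNat 33, .ofNat 6⟩ ⟨.ofNat 0, .ofNat 1⟩ 2 (.leaf 10 [0, 64, 0, 0, 64, 0, 0, 0]) (.s03 ⟨⟨.negSucc 999, .ofNat 2000⟩, ⟨.ofNat 868, .ofNat 742⟩, ⟨.negSucc 243, .ofNat 551⟩, ⟨.negSucc 405, .ofNat 749⟩⟩ ⟨.ofNat 175, .ofNat 0⟩ ⟨.ofNat 12, .ofNat 78⟩ ⟨.ofNat 1, .ofNat 1⟩ 0 (.leaf 11 [0, 64, 0, 64, 6, 0, 0]) (.leaf 11 [64, 23, 0, 0, 0])))))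

/-- part of a tree -/
def t0 : Tree := .s02 ⟨⟨.ofNat 4, .ofNat 6⟩, ⟨.ofNat 2, .ofNat 0⟩, ⟨.ofNat 1, .ofNat 0⟩, ⟨.ofNat 1, .ofNat 0⟩⟩ ⟨.ofNat 2, .ofNat 6⟩ ⟨.ofNat 1, .ofNat 0⟩ ⟨.ofNat 1, .ofNat 0⟩ 19 t0_0 (.s03 ⟨⟨.ofNat 2, .ofNat 3⟩, ⟨.ofNat 1, .ofNat 0⟩, ⟨.ofNat 0, .ofNat 0⟩, ⟨.ofNat 1, .ofNat 0⟩⟩ ⟨.ofNat 1, .ofNat 3⟩ ⟨.ofNat 1, .ofNat 0⟩ ⟨.ofNat 1, .ofNat 0⟩ 19 (.s23 ⟨⟨.ofNat 10, .ofNat 6⟩, ⟨.ofNat 8, .ofNat 0⟩, ⟨.ofNat 1, .ofNat 0⟩, ⟨.ofNat 7, .ofNat 0⟩⟩ ⟨.ofNat 1, .ofNat 0⟩ ⟨.ofNat 6, .ofNat 0⟩ ⟨.ofNat 1, .ofNat 0⟩ 13 (.s13 ⟨⟨.ofNat 1, .ofNat 0⟩, ⟨.ofNat 1, .ofNat 1⟩, ⟨.ofNat 0, .ofNat 0⟩, ⟨.ofNat 1, .ofNat 0⟩⟩ ⟨.ofNat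 0, .ofNat 1⟩ ⟨.ofNat 1, .ofNat 0⟩ ⟨.ofNat 1, .ofNat 0⟩ 39 (.leaf 20 [64, 64, 0, 64, 64, 0, 64, 26]) (.leaf 20 [64, 64, 0, 0, 0, 0, 0, 0])) (.leaf 17 [33, 0, 0, 0, 0, 0])) (.leaf 16 [0, 0, 0]))

theorem g0 : Good (PE lin H) ⟨⟨.ofNat 1, .ofNat 0⟩, ⟨.ofNat 0, .ofNat 0⟩, ⟨.ofNat 0, .ofNat 0⟩, ⟨.ofNat 0, .ofNat 0⟩⟩
    ⟨⟨.ofNat 0, .ofNat 0⟩, ⟨.ofNat 1, .ofNat 0⟩, ⟨.ofNat 0, .ofNat 0⟩, ⟨.ofNat 0, .ofNat 0⟩⟩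
    ⟨⟨.ofNat 2, .ofNat 0⟩, ⟨.ofNat 2, .ofNat 0⟩, ⟨.ofNat 1, .ofNat 0⟩, ⟨.ofNat 1, .ofNat 0⟩⟩
    ⟨⟨.ofNat 1, .ofNat 0⟩, ⟨.ofNat 1, .ofNat 0⟩, ⟨.ofNat 0, .ofNat 0⟩, ⟨.ofNat 1, .ofNat 0⟩⟩ :=
  goodE lin H t0 25 51 0 0 (by decide +kernel)

end

end Pool.Agent.PHCert.E1
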