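import Pool.Agent.PHCert.E2H

/-!
# PHCert: inequality E2, part 2 (73 leaves, checked by the kernel)
-/

set_option autoImplicit false

namespace Pool.Agent.PHCert.E2

open Zp Pool.Agent.PHCert

noncomputable section

/-- part of a tree -/
def t3_2 : Tree := .s03 ⟨⟨.negSucc 724, .ofNat 1696⟩, ⟨.ofNat 507, .ofNat 338⟩, ⟨.ofNat 676, .negSucc 168⟩, ⟨.negSucc 168, .ofNat 507⟩⟩ ⟨.ofNat 5239, .negSucc 844⟩ ⟨.ofNat 501, .negSucc 125⟩ ⟨.ofNat 2571, .ofNat 7006⟩ 9 (.s13 ⟨⟨.negSucc 2543549191, .ofNat 23337029475⟩, ⟨.negSucc 587500783, .ofNat 12307308052⟩, ⟨.negSucc 330537635, .ofNat 4395233700⟩, ⟨.negSucc 587622463, .ofNat 7813748800⟩⟩ ⟨.ofNat 598, .ofNat 1495⟩ ⟨.negSucc 43279, .ofNat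 684112⟩ ⟨.ofNat 0, .ofNat 1⟩ 9 (.s03 ⟨⟨.negSucc 13534, .ofNat 27277⟩, ⟨.negSucc 4224, .ofNat 12675⟩, ⟨.negSucc 1520, .ofNat 4563⟩, ⟨.negSucc 2703, .ofNat 8112⟩⟩ ⟨.ofNat 0, .ofNat 23⟩ ⟨.ofNat 16, .negSucc 8⟩ ⟨.ofNat 15, .negSucc 6⟩ 9 (.s02 ⟨⟨.ofNat 500, .ofNat 0⟩, ⟨.ofNat 275, .ofNat 0⟩, ⟨.ofNat 99, .ofNat 0⟩, ⟨.ofNat 176, .ofNat 0⟩⟩ ⟨.negSucc 49, .ofNat 175⟩ ⟨.ofNat 28709, .ofNat 10871⟩ ⟨.ofNat 11444, .ofNat 4061⟩ 9 (.leaf 14 [64, 0, 0, 4]) (.leaf 14 [0, 4])) (.s02 ⟨⟨.negSucc 105999, .ofNat 319500⟩, ⟨.negSucc 58299, .ofNat 175725⟩, ⟨.ofNat 104579, .negSucc 12281⟩, ⟨.negSucc 162878, .ofNat 188007⟩⟩ ⟨.ofNat 175, .ofNat 125⟩ ⟨.negSucc 541, .ofNat 5135⟩ ⟨.ofNat 1, .ofNat 1⟩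 9 (.s23 ⟨⟨.ofNat 500, .ofNat 0⟩, ⟨.ofNat 275, .ofNat 0⟩, ⟨.ofNat 99, .ofNat 0⟩, ⟨.ofNat 176, .ofNat 0⟩⟩ ⟨.ofNat 28709, .ofNat 10871⟩ ⟨.negSucc 49, .ofNat 175⟩ ⟨.ofNat 11444, .ofNat 4061⟩ 9 (.leaf 13 []) (.leaf 13 [64, 0, 0, 2])) (.leaf 13 []))) (.s12 ⟨⟨.ofNat 1663531500, .ofNat 246256000⟩, ⟨.ofNat 1020160425, .ofNat 93804400⟩, ⟨.ofNat 220298421, .ofNat 134988832⟩, ⟨.ofNat 694643904, .ofNat 451968⟩⟩ ⟨.negSucc 49, .ofNat 175⟩ ⟨.negSucc 11602851, .ofNat 23425117⟩ ⟨.ofNat 0, .ofNat 1⟩ 8 (.s02 ⟨⟨.negSucc 105999, .ofNat 319500⟩, ⟨.negSucc 58299, .ofNat 175725⟩, ⟨.ofNat 104579, .negSucc 12281⟩, ⟨.negSucc 162878, .ofNat 188007⟩⟩ ⟨.ofNat 175, .ofNat 125⟩ ⟨.negSucc 541, .ofNat 5135⟩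 ⟨.ofNat 1, .ofNat 1⟩ 9 (.leaf 13 [64, 0, 0, 3]) (.leaf 13 [])) (.leaf 13 []))) (.s02 ⟨⟨.negSucc 3849, .ofNat 33085⟩, ⟨.ofNat 21200, .ofNat 3040⟩, ⟨.ofNat 8480, .ofNat 1216⟩, ⟨.ofNat 12720, .ofNat 1824⟩⟩ ⟨.ofNat 5, .ofNat 10⟩ ⟨.ofNat 374, .ofNat 53⟩ ⟨.ofNat 1, .ofNat 1⟩ 9 (.s12 ⟨⟨.ofNat 1663531500, .ofNat 246256000⟩, ⟨.ofNat 1020160425, .ofNat 93804400⟩, ⟨.ofNat 220298421, .ofNat 134988832⟩, ⟨.ofNat 694643904, .ofNat 451968⟩⟩ ⟨.negSucc 49, .ofNat 175⟩ ⟨.negSucc 11602851, .ofNat 23425117⟩ ⟨.ofNat 0, .ofNat 1⟩ 8 (.s23 ⟨⟨.negSucc 105999, .ofNat 319500⟩, ⟨.negSucc 58299, .ofNat 175725⟩, ⟨.ofNat 104579, .negSucc 12281⟩, ⟨.negSucc 162878, .ofNat 188007⟩⟩ ⟨.negSucc 541, .ofNat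 5135⟩ ⟨.ofNat 175, .ofNat 125⟩ ⟨.ofNat 1, .ofNat 1⟩ 9 (.s02 ⟨⟨.negSucc 58510665, .ofNat 161597061⟩, ⟨.ofNat 45489456, .ofNat 39977264⟩, ⟨.ofNat 51001648, .negSucc 5512191⟩, ⟨.negSucc 5512191, .ofNat 45489456⟩⟩ ⟨.negSucc 14063, .ofNat 26759⟩ ⟨.ofNat 608, .ofNat 4848⟩ ⟨.ofNat 0, .ofNat 15⟩ 9 (.leaf 13 []) (.leaf 13 [61])) (.s02 ⟨⟨.ofNat 35089, .ofNat 2576⟩, ⟨.ofNat 5456, .ofNat 10304⟩, ⟨.ofNat 608, .ofNat 4848⟩, ⟨.ofNat 4848, .ofNat 5456⟩⟩ ⟨.negSucc 1, .ofNat 5⟩ ⟨.ofNat 4240, .ofNat 608⟩ ⟨.ofNat 5, .ofNat 5⟩ 8 (.leaf 13 [0, 0, 3]) (.s03 ⟨⟨.negSucc 58510665, .ofNat 161597061⟩, ⟨.ofNat 45489456, .ofNat 39977264⟩, ⟨.ofNat 51001648, .negSucc 5512191⟩, ⟨.negSucc 5512191, .ofNat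 45489456⟩⟩ ⟨.negSucc 14063, .ofNat 26759⟩ ⟨.ofNat 608, .ofNat 4848⟩ ⟨.ofNat 0, .ofNat 15⟩ 9 (.leaf 13 [17]) (.leaf 13 [7, 64])))) (.leaf 13 [61])) (.s03 ⟨⟨.negSucc 2384, .ofNat 5391⟩, ⟨.negSucc 844, .ofNat 2535⟩, ⟨.negSucc 337, .ofNat 1014⟩, ⟨.negSucc 506, .ofNat 1521⟩⟩ ⟨.ofNat 676, .negSucc 168⟩ ⟨.ofNat 374, .ofNat 53⟩ ⟨.negSucc 125, .ofNat 375⟩ 10 (.leaf 13 []) (.leaf 12 [])))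

/-- part of a tree -/
def t3_1 : Tree := .s01 ⟨⟨.ofNat 8811170, .ofNat 578209⟩, ⟨.ofNat 1206088, .ofNat 2538172⟩, ⟨.negSucc 125995, .ofNat 1332084⟩, ⟨.ofNat 889200, .ofNat 1317472⟩⟩ ⟨.negSucc 402, .ofNat 1885⟩ ⟨.ofNat 501, .negSucc 125⟩ ⟨.ofNat 0, .ofNat 1⟩ 9 (.leaf 14 [61, 0, 64, 64, 0, 0]) t3_2

/-- part of a tree -/
def t3_0 : Tree := .s03 ⟨⟨.negSucc 13391, .ofNat 24300⟩, ⟨.negSucc 3717, .ofNat 11154⟩, ⟨.negSucc 1182, .ofNat 3549⟩, ⟨.negSucc 2534, .ofNat 7605⟩⟩ ⟨.ofNat 3146, .negSucc 1133⟩ ⟨.ofNat 4435, .ofNat 2571⟩ ⟨.negSucc 196, .ofNat 393⟩ 9 (.leaf 15 [0, 64, 64, 64, 64, 6, 0]) t3_1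

/-- part of a tree -/
def t3_3 : Tree := .s02 ⟨⟨.ofNat 4426, .ofNat 2021⟩, ⟨.ofNat 2494, .ofNat 999⟩, ⟨.ofNat 1110, .ofNat 395⟩, ⟨.ofNat 1384, .ofNat 604⟩⟩ ⟨.negSucc 4, .ofNat 6⟩ ⟨.ofNat 0, .ofNat 28⟩ ⟨.negSucc 0, .ofNat 1⟩ 9 (.s23 ⟨⟨.ofNat 884500, .ofNat 195500⟩, ⟨.ofNat 486475, .ofNat 107525⟩, ⟨.ofNat 133963, .ofNat 75653⟩, ⟨.ofNat 352512, .ofNat 31872⟩⟩ ⟨.ofNat 7957, .ofNat 1842⟩ ⟨.ofNat 225, .negSucc 49⟩ ⟨.ofNat 1, .ofNat 0⟩ 9 (.s01 ⟨⟨.ofNat 4134529, .ofNat 2853236⟩, ⟨.ofNat 3772028, .ofNat 1108536⟩, ⟨.ofNat 1516944, .ofNat 252824⟩, ⟨.ofNat 2275416, .ofNat 379236⟩⟩ ⟨.ofNat 0, .ofNat 715⟩ ⟨.negSucc 22, .ofNat 539⟩ ⟨.ofNat 0, .ofNat 1⟩ 6 (.s13 ⟨⟨.ofNat 1009234, .ofNat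 3811183⟩, ⟨.ofNat 2747836, .ofNat 765336⟩, ⟨.ofNat 1212640, .ofNat 173888⟩, ⟨.ofNat 1818960, .ofNat 260832⟩⟩ ⟨.ofNat 695, .negSucc 320⟩ ⟨.ofNat 0, .ofNat 715⟩ ⟨.ofNat 1, .ofNat 0⟩ 9 (.s23 ⟨⟨.negSucc 3849, .ofNat 33085⟩, ⟨.ofNat 21200, .ofNat 3040⟩, ⟨.ofNat 8480, .ofNat 1216⟩, ⟨.ofNat 12720, .ofNat 1824⟩⟩ ⟨.ofNat 374, .ofNat 53⟩ ⟨.negSucc 23294, .ofNat 116625⟩ ⟨.ofNat 9799, .ofNat 11641⟩ 9 (.leaf 12 [0, 64, 63]) (.leaf 13 [1, 64, 62])) (.leaf 13 [64, 64, 64, 59])) (.s02 ⟨⟨.negSucc 354580269, .ofNat 1149830225⟩, ⟨.negSucc 220511079, .ofNat 643381700⟩, ⟨.negSucc 88204431, .ofNat 257352680⟩, ⟨.negSucc 132306647, .ofNat 386029020⟩⟩ ⟨.negSucc 23294, .ofNat 116625⟩ ⟨.ofNat 516,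 .ofNat 1055⟩ ⟨.ofNat 1, .ofNat 1⟩ 9 (.s23 ⟨⟨.negSucc 3849, .ofNat 33085⟩, ⟨.ofNat 21200, .ofNat 3040⟩, ⟨.ofNat 8480, .ofNat 1216⟩, ⟨.ofNat 12720, .ofNat 1824⟩⟩ ⟨.ofNat 374, .ofNat 53⟩ ⟨.negSucc 23294, .ofNat 116625⟩ ⟨.ofNat 9799, .ofNat 11641⟩ 9 (.leaf 12 [0, 64, 64]) (.leaf 13 [1, 64, 62])) (.leaf 12 [0, 64, 64]))) (.s02 ⟨⟨.ofNat 3105, .ofNat 2925⟩, ⟨.ofNat 4420, .ofNat 0⟩, ⟨.ofNat 1768, .ofNat 0⟩, ⟨.ofNat 2652, .ofNat 0⟩⟩ ⟨.ofNat 0, .ofNat 5⟩ ⟨.negSucc 22, .ofNat 539⟩ ⟨.ofNat 1, .ofNat 7⟩ 8 (.leaf 13 [0, 64, 64, 52, 0, 0]) (.s01 ⟨⟨.ofNat 4134529, .ofNat 2853236⟩, ⟨.ofNat 3772028, .ofNat 1108536⟩, ⟨.ofNat 1516944, .ofNat 252824⟩, ⟨.ofNat 2275416, .ofNat 379236⟩⟩ ⟨.ofNat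 0, .ofNat 715⟩ ⟨.negSucc 22, .ofNat 539⟩ ⟨.ofNat 0, .ofNat 1⟩ 6 (.leaf 13 [64, 64, 59]) (.s03 ⟨⟨.negSucc 354580269, .ofNat 1149830225⟩, ⟨.negSucc 220511079, .ofNat 643381700⟩, ⟨.negSucc 88204431, .ofNat 257352680⟩, ⟨.negSucc 132306647, .ofNat 386029020⟩⟩ ⟨.negSucc 23294, .ofNat 116625⟩ ⟨.ofNat 516, .ofNat 1055⟩ ⟨.ofNat 1, .ofNat 1⟩ 9 (.leaf 13 [21, 64, 64]) (.leaf 12 [11, 64, 64]))))) (.s01 ⟨⟨.ofNat 17361, .ofNat 2691⟩, ⟨.ofNat 11050, .ofNat 884⟩, ⟨.ofNat 4862, .ofNat 0⟩, ⟨.ofNat 6188, .ofNat 0⟩⟩ ⟨.ofNat 25, .ofNat 0⟩ ⟨.ofNat 1, .ofNat 0⟩ ⟨.ofNat 1, .ofNat 0⟩ 8 (.leaf 12 [0, 64, 64, 62, 64]) (.s03 ⟨⟨.negSucc 391, .ofNat 8747⟩, ⟨.ofNat 0, .ofNat 4225⟩, ⟨.ofNat 0, .ofNat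 1859⟩, ⟨.ofNat 0, .ofNat 2366⟩⟩ ⟨.negSucc 195, .ofNat 571⟩ ⟨.ofNat 13, .ofNat 52⟩ ⟨.ofNat 70, .ofNat 0⟩ 11 (.leaf 12 [60, 64, 64]) (.s02 ⟨⟨.ofNat 15525, .ofNat 3575⟩, ⟨.ofNat 11050, .ofNat 0⟩, ⟨.ofNat 4862, .ofNat 0⟩, ⟨.ofNat 6188, .ofNat 0⟩⟩ ⟨.negSucc 157, .ofNat 557⟩ ⟨.ofNat 143, .ofNat 0⟩ ⟨.ofNat 28, .ofNat 28⟩ 9 (.leaf 12 [60, 64, 64]) (.leaf 11 [33, 64, 64, 64]))))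

/-- part of a tree -/
def t3 : Tree := .s03 ⟨⟨.ofNat 3912, .ofNat 835⟩, ⟨.ofNat 1448, .ofNat 765⟩, ⟨.ofNat 376, .ofNat 445⟩, ⟨.ofNat 1072, .ofNat 320⟩⟩ ⟨.ofNat 393, .ofNat 196⟩ ⟨.ofNat 0, .ofNat 140⟩ ⟨.ofNat 69, .ofNat 23⟩ 10 t3_0 t3_3

theorem g3 : Good (PE lin H) ⟨⟨.ofNat 621, .ofNat 0⟩, ⟨.ofNat 299, .ofNat 0⟩, ⟨.ofNat 143, .ofNat 0⟩, ⟨.ofNat 156, .ofNat 0⟩⟩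
    ⟨⟨.ofNat 1836, .ofNat 2691⟩, ⟨.ofNat 3575, .ofNat 884⟩, ⟨.ofNat 1287, .ofNat 0⟩, ⟨.ofNat 2288, .ofNat 0⟩⟩
    ⟨⟨.ofNat 0, .ofNat 25⟩, ⟨.ofNat 25, .ofNat 0⟩, ⟨.ofNat 9, .ofNat 0⟩, ⟨.ofNat 16, .ofNat 0⟩⟩
    ⟨⟨.ofNat 0, .ofNat 322⟩, ⟨.ofNat 322, .ofNat 0⟩, ⟨.ofNat 297, .negSucc 142⟩, ⟨.ofNat 25, .ofNat 143⟩⟩ :=
  goodE lin H t3 11 2 6 6 (by decide +kernel)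

/-- part of a tree -/
def t4_0 : Tree := .s02 ⟨⟨.ofNat 460, .ofNat 0⟩, ⟨.ofNat 253, .ofNat 0⟩, ⟨.ofNat 121, .ofNat 0⟩, ⟨.ofNat 132, .ofNat 0⟩⟩ ⟨.negSucc 10, .ofNat 9⟩ ⟨.ofNat 0, .ofNat 37⟩ ⟨.negSucc 12, .ofNat 14⟩ 9 (.s23 ⟨⟨.ofNat 899300, .ofNat 222180⟩, ⟨.ofNat 494615, .ofNat 122199⟩, ⟨.ofNat 223227, .ofNat 48923⟩, ⟨.ofNat 271388, .ofNat 73276⟩⟩ ⟨.ofNat 2251, .ofNat 1057⟩ ⟨.negSucc 252, .ofNat 207⟩ ⟨.negSucc 0, .ofNat 1⟩ 9 (.s01 ⟨⟨.ofNat 169696, .ofNat 29601⟩, ⟨.ofNat 121550, .ofNat 9724⟩, ⟨.ofNat 53482, .ofNat 0⟩, ⟨.ofNat 68068, .ofNat 0⟩⟩ ⟨.ofNat 325, .ofNat 0⟩ ⟨.ofNat 11, .ofNat 0⟩ ⟨.ofNat 1, .ofNat 0⟩ 6 (.leaf 12 [9, 64, 64, 64, 64]) (.s03 ⟨⟨.ofNat 424971, .ofNat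 37895⟩, ⟨.ofNat 261800, .ofNat 0⟩, ⟨.ofNat 115192, .ofNat 0⟩, ⟨.ofNat 146608, .ofNat 0⟩⟩ ⟨.negSucc 157, .ofNat 557⟩ ⟨.ofNat 121, .ofNat 0⟩ ⟨.ofNat 1, .ofNat 1⟩ 9 (.leaf 12 [1, 64]) (.s02 ⟨⟨.ofNat 500, .ofNat 0⟩, ⟨.ofNat 275, .ofNat 0⟩, ⟨.ofNat 121, .ofNat 0⟩, ⟨.ofNat 154, .ofNat 0⟩⟩ ⟨.negSucc 69954, .ofNat 60557⟩ ⟨.ofNat 121, .ofNat 0⟩ ⟨.ofNat 153272, .ofNat 109480⟩ 9 (.leaf 12 [4, 64]) (.leaf 11 [4, 64])))) (.s12 ⟨⟨.ofNat 54, .ofNat 299⟩, ⟨.ofNat 325, .ofNat 26⟩, ⟨.ofNat 143, .ofNat 0⟩, ⟨.ofNat 182, .ofNat 0⟩⟩ ⟨.ofNat 1, .ofNat 0⟩ ⟨.ofNat 325, .ofNat 0⟩ ⟨.ofNat 34, .ofNat 0⟩ 4 (.s23 ⟨⟨.negSucc 30088, .ofNat 61497⟩, ⟨.ofNat 0, .ofNat 23800⟩, ⟨.ofNat 0, .ofNat 10472⟩, ⟨.ofNat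 0, .ofNat 13328⟩⟩ ⟨.negSucc 9397, .ofNat 51159⟩ ⟨.ofNat 11, .ofNat 11⟩ ⟨.ofNat 115, .ofNat 276⟩ 9 (.s03 ⟨⟨.ofNat 500, .ofNat 0⟩, ⟨.ofNat 275, .ofNat 0⟩, ⟨.ofNat 121, .ofNat 0⟩, ⟨.ofNat 154, .ofNat 0⟩⟩ ⟨.negSucc 69954, .ofNat 60557⟩ ⟨.ofNat 121, .ofNat 0⟩ ⟨.ofNat 153272, .ofNat 109480⟩ 9 (.leaf 12 [0, 64, 3]) (.leaf 11 [0, 64, 3])) (.leaf 11 [1, 64, 0])) (.s01 ⟨⟨.ofNat 169696, .ofNat 29601⟩, ⟨.ofNat 121550, .ofNat 9724⟩, ⟨.ofNat 53482, .ofNat 0⟩, ⟨.ofNat 68068, .ofNat 0⟩⟩ ⟨.ofNat 325, .ofNat 0⟩ ⟨.ofNat 11, .ofNat 0⟩ ⟨.ofNat 1, .ofNat 0⟩ 6 (.leaf 12 [0, 64, 64, 64, 64]) (.s03 ⟨⟨.ofNat 500, .ofNat 0⟩, ⟨.ofNat 275, .ofNat 0⟩, ⟨.ofNat 121, .ofNat 0⟩, ⟨.ofNat 154, .ofNat 0⟩⟩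 ⟨.negSucc 69954, .ofNat 60557⟩ ⟨.ofNat 121, .ofNat 0⟩ ⟨.ofNat 153272, .ofNat 109480⟩ 9 (.leaf 12 [0, 64, 3]) (.leaf 11 [0, 64, 3]))))) (.s12 ⟨⟨.ofNat 169696, .ofNat 29601⟩, ⟨.ofNat 121550, .ofNat 9724⟩, ⟨.ofNat 53482, .ofNat 0⟩, ⟨.ofNat 68068, .ofNat 0⟩⟩ ⟨.ofNat 11, .ofNat 0⟩ ⟨.ofNat 325, .ofNat 0⟩ ⟨.ofNat 1, .ofNat 0⟩ 6 (.s23 ⟨⟨.ofNat 424971, .ofNat 37895⟩, ⟨.ofNat 261800, .ofNat 0⟩, ⟨.ofNat 115192, .ofNat 0⟩, ⟨.ofNat 146608, .ofNat 0⟩⟩ ⟨.negSucc 157, .ofNat 557⟩ ⟨.ofNat 121, .ofNat 0⟩ ⟨.ofNat 1, .ofNat 1⟩ 9 (.s03 ⟨⟨.ofNat 15525, .ofNat 3575⟩, ⟨.ofNat 11050, .ofNat 0⟩, ⟨.ofNat 4862, .ofNat 0⟩, ⟨.ofNat 6188, .ofNat 0⟩⟩ ⟨.negSucc 157, .ofNat 557⟩ ⟨.ofNat 143, .ofNat 0⟩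 ⟨.ofNat 28, .ofNat 28⟩ 9 (.leaf 12 [1, 64]) (.leaf 11 [43, 0, 64, 64])) (.leaf 11 [45, 0, 64, 63])) (.s01 ⟨⟨.ofNat 17361, .ofNat 2691⟩, ⟨.ofNat 11050, .ofNat 884⟩, ⟨.ofNat 4862, .ofNat 0⟩, ⟨.ofNat 6188, .ofNat 0⟩⟩ ⟨.ofNat 25, .ofNat 0⟩ ⟨.ofNat 1, .ofNat 0⟩ ⟨.ofNat 1, .ofNat 0⟩ 8 (.leaf 12 [0, 64, 64, 62, 64]) (.s03 ⟨⟨.ofNat 15525, .ofNat 3575⟩, ⟨.ofNat 11050, .ofNat 0⟩, ⟨.ofNat 4862, .ofNat 0⟩, ⟨.ofNat 6188, .ofNat 0⟩⟩ ⟨.negSucc 157, .ofNat 557⟩ ⟨.ofNat 143, .ofNat 0⟩ ⟨.ofNat 28, .ofNat 28⟩ 9 (.leaf 12 [0, 62, 64]) (.leaf 11 [33, 0, 64, 64, 64]))))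

/-- part of a tree -/
def t4 : Tree := .s03 ⟨⟨.ofNat 4426, .ofNat 2021⟩, ⟨.ofNat 2494, .ofNat 999⟩, ⟨.ofNat 1110, .ofNat 395⟩, ⟨.ofNat 1384, .ofNat 604⟩⟩ ⟨.negSucc 4, .ofNat 6⟩ ⟨.ofNat 0, .ofNat 28⟩ ⟨.negSucc 0, .ofNat 1⟩ 9 (.s02 ⟨⟨.ofNat 899300, .ofNat 222180⟩, ⟨.ofNat 494615, .ofNat 122199⟩, ⟨.ofNat 223227, .ofNat 48923⟩, ⟨.ofNat 271388, .ofNat 73276⟩⟩ ⟨.negSucc 252, .ofNat 207⟩ ⟨.ofNat 2251, .ofNat 1057⟩ ⟨.negSucc 0, .ofNat 1⟩ 9 (.s23 ⟨⟨.ofNat 0, .ofNat 5⟩, ⟨.ofNat 5, .ofNat 0⟩, ⟨.ofNat 2, .ofNat 0⟩, ⟨.ofNat 3, .ofNat 0⟩⟩ ⟨.ofNat 5, .ofNat 0⟩ ⟨.ofNat 9, .ofNat 0⟩ ⟨.ofNat 68, .ofNat 0⟩ 6 (.s03 ⟨⟨.ofNat 4501925, .ofNat 4288950⟩, ⟨.ofNat 5645700, .ofNat 616420⟩, ⟨.ofNat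 2258280, .ofNat 246568⟩, ⟨.ofNat 3387420, .ofNat 369852⟩⟩ ⟨.ofNat 5, .ofNat 0⟩ ⟨.ofNat 126905, .ofNat 217⟩ ⟨.ofNat 1, .ofNat 0⟩ 8 (.leaf 13 [0, 64, 64, 22, 0, 0]) (.leaf 12 [0, 64, 64, 64, 64])) (.s12 ⟨⟨.ofNat 54, .ofNat 299⟩, ⟨.ofNat 325, .ofNat 26⟩, ⟨.ofNat 143, .ofNat 0⟩, ⟨.ofNat 182, .ofNat 0⟩⟩ ⟨.ofNat 1, .ofNat 0⟩ ⟨.ofNat 325, .ofNat 0⟩ ⟨.ofNat 34, .ofNat 0⟩ 4 (.s23 ⟨⟨.ofNat 0, .ofNat 25⟩, ⟨.ofNat 25, .ofNat 0⟩, ⟨.ofNat 11, .ofNat 0⟩, ⟨.ofNat 14, .ofNat 0⟩⟩ ⟨.ofNat 5, .ofNat 0⟩ ⟨.ofNat 22, .ofNat 0⟩ ⟨.ofNat 9, .ofNat 0⟩ 6 (.leaf 12 [1, 64, 64]) (.s02 ⟨⟨.negSucc 30088, .ofNat 61497⟩, ⟨.ofNat 0, .ofNat 23800⟩, ⟨.ofNat 0, .ofNat 10472⟩, ⟨.ofNat 0, .ofNat 13328⟩⟩ ⟨.ofNat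 11, .ofNat 11⟩ ⟨.negSucc 9397, .ofNat 51159⟩ ⟨.ofNat 115, .ofNat 276⟩ 9 (.leaf 11 [1, 64, 64]) (.leaf 12 [1, 64, 64]))) (.leaf 12 [0, 64, 64, 64, 64]))) (.s03 ⟨⟨.ofNat 161000, .ofNat 11500⟩, ⟨.ofNat 88550, .ofNat 6325⟩, ⟨.ofNat 39834, .ofNat 509⟩, ⟨.ofNat 48716, .ofNat 5816⟩⟩ ⟨.negSucc 274, .ofNat 225⟩ ⟨.ofNat 2251, .ofNat 1057⟩ ⟨.negSucc 4, .ofNat 6⟩ 9 (.s23 ⟨⟨.ofNat 4501925, .ofNat 4288950⟩, ⟨.ofNat 5645700, .ofNat 616420⟩, ⟨.ofNat 2258280, .ofNat 246568⟩, ⟨.ofNat 3387420, .ofNat 369852⟩⟩ ⟨.ofNat 5, .ofNat 0⟩ ⟨.ofNat 126905, .ofNat 217⟩ ⟨.ofNat 1, .ofNat 0⟩ 8 (.s03 ⟨⟨.ofNat 3105, .ofNat 2925⟩, ⟨.ofNat 4420, .ofNat 0⟩, ⟨.ofNat 1768, .ofNat 0⟩, ⟨.ofNat 2652, .ofNat 0⟩⟩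 ⟨.ofNat 1, .ofNat 1⟩ ⟨.ofNat 2393, .ofNat 372⟩ ⟨.ofNat 35, .ofNat 25⟩ 8 (.leaf 13 [0, 64, 64, 38, 0, 0]) (.leaf 12 [64, 64, 63])) (.leaf 12 [64, 64, 64, 64])) (.leaf 12 [9, 64, 64, 64, 64]))) t4_0

theorem g4 : Good (PE lin H) ⟨⟨.ofNat 621, .ofNat 0⟩, ⟨.ofNat 299, .ofNat 0⟩, ⟨.ofNat 143, .ofNat 0⟩, ⟨.ofNat 156, .ofNat 0⟩⟩
    ⟨⟨.ofNat 1836, .ofNat 2691⟩, ⟨.ofNat 3575, .ofNat 884⟩, ⟨.ofNat 1287, .ofNat 0⟩, ⟨.ofNat 2288, .ofNat 0⟩⟩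
    ⟨⟨.ofNat 0, .ofNat 23⟩, ⟨.ofNat 23, .ofNat 0⟩, ⟨.ofNat 11, .ofNat 0⟩, ⟨.ofNat 12, .ofNat 0⟩⟩
    ⟨⟨.ofNat 0, .ofNat 25⟩, ⟨.ofNat 25, .ofNat 0⟩, ⟨.ofNat 9, .ofNat 0⟩, ⟨.ofNat 16, .ofNat 0⟩⟩ :=
  goodE lin H t4 11 2 6 6 (by decide +kernel)

/-- part of a tree -/
def t6_1 : Tree := .s03 ⟨⟨.negSucc 2384, .ofNat 5391⟩, ⟨.negSucc 844, .ofNat 2535⟩, ⟨.negSucc 337, .ofNat 1014⟩, ⟨.negSucc 506, .ofNat 1521⟩⟩ ⟨.negSucc 12, .ofNat 39⟩ ⟨.ofNat 1, .ofNat 0⟩ ⟨.ofNat 9, .ofNat 0⟩ 10 (.s01 ⟨⟨.ofNat 34245, .ofNat 9368⟩, ⟨.ofNat 7267, .ofNat 11661⟩, ⟨.ofNat 2873, .ofNat 4394⟩, ⟨.ofNat 25688, .negSucc 6421⟩⟩ ⟨.ofNat 4, .ofNat 169⟩ ⟨.negSucc 64, .ofNat 52⟩ ⟨.ofNat 9, .ofNat 18⟩ 9 (.leaf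 14 [64, 0, 64, 64, 64, 6]) (.s02 ⟨⟨.negSucc 546983, .ofNat 876222⟩, ⟨.ofNat 133510, .ofNat 207363⟩, ⟨.ofNat 59657, .ofNat 73853⟩, ⟨.ofNat 131313, .ofNat 87542⟩⟩ ⟨.negSucc 30, .ofNat 145⟩ ⟨.negSucc 64, .ofNat 52⟩ ⟨.ofNat 0, .ofNat 1⟩ 9 (.leaf 14 [0, 64, 64, 6]) (.s03 ⟨⟨.negSucc 724, .ofNat 1696⟩, ⟨.ofNat 507, .ofNat 338⟩, ⟨.ofNat 676, .negSucc 168⟩, ⟨.negSucc 168, .ofNat 507⟩⟩ ⟨.ofNat 15, .negSucc 6⟩ ⟨.negSucc 2, .ofNat 2⟩ ⟨.ofNat 0, .ofNat 9⟩ 9 (.s23 ⟨⟨.negSucc 28132091, .ofNat 39846366⟩, ⟨.negSucc 1929979, .ofNat 13432289⟩, ⟨.negSucc 219023, .ofNat 4455009⟩, ⟨.negSucc 389375, .ofNat 7920016⟩⟩ ⟨.ofNat 0, .ofNat 23⟩ ⟨.negSucc 154, .ofNat 725⟩ ⟨.ofNat 0, .ofNat 1⟩ 9 (.s13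 ⟨⟨.negSucc 2666092, .ofNat 4906331⟩, ⟨.negSucc 821339, .ofNat 2265107⟩, ⟨.negSucc 232712, .ofNat 765063⟩, ⟨.negSucc 413711, .ofNat 1360112⟩⟩ ⟨.ofNat 23, .ofNat 46⟩ ⟨.negSucc 53, .ofNat 122⟩ ⟨.ofNat 0, .ofNat 1⟩ 9 (.s03 ⟨⟨.negSucc 13534, .ofNat 27277⟩, ⟨.negSucc 4224, .ofNat 12675⟩, ⟨.negSucc 1520, .ofNat 4563⟩, ⟨.negSucc 2703, .ofNat 8112⟩⟩ ⟨.ofNat 0, .ofNat 23⟩ ⟨.ofNat 16, .negSucc 8⟩ ⟨.ofNat 15, .negSucc 6⟩ 9 (.leaf 14 [0, 4]) (.leaf 13 [])) (.leaf 13 [])) (.leaf 13 [])) (.leaf 13 [])))) (.s03 ⟨⟨.ofNat 3912, .ofNat 835⟩, ⟨.ofNat 1448, .ofNat 765⟩, ⟨.ofNat 376, .ofNat 445⟩, ⟨.ofNat 1072, .ofNat 320⟩⟩ ⟨.ofNat 374, .ofNat 53⟩ ⟨.ofNat 140, .ofNat 140⟩ ⟨.ofNat 117, .ofNat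 234⟩ 10 (.leaf 12 [64, 0, 64, 64, 60, 63]) (.s01 ⟨⟨.ofNat 1485, .ofNat 0⟩, ⟨.ofNat 715, .ofNat 117⟩, ⟨.ofNat 286, .ofNat 0⟩, ⟨.ofNat 429, .ofNat 0⟩⟩ ⟨.ofNat 11, .ofNat 0⟩ ⟨.ofNat 1, .ofNat 0⟩ ⟨.ofNat 9, .ofNat 0⟩ 7 (.leaf 12 [64, 0, 64, 64, 60, 0]) (.s02 ⟨⟨.ofNat 17361, .ofNat 2691⟩, ⟨.ofNat 11050, .ofNat 884⟩, ⟨.ofNat 4862, .ofNat 0⟩, ⟨.ofNat 6188, .ofNat 0⟩⟩ ⟨.ofNat 25, .ofNat 0⟩ ⟨.ofNat 1, .ofNat 0⟩ ⟨.ofNat 1, .ofNat 0⟩ 8 (.leaf 12 [64, 0, 64, 64, 61, 0]) (.s01 ⟨⟨.ofNat 675, .ofNat 0⟩, ⟨.ofNat 325, .ofNat 26⟩, ⟨.ofNat 143, .ofNat 0⟩, ⟨.ofNat 182, .ofNat 0⟩⟩ ⟨.ofNat 5, .ofNat 0⟩ ⟨.ofNat 2, .ofNat 0⟩ ⟨.ofNat 9, .ofNat 0⟩ 9 (.leaf 12 [64, 64, 64, 61, 64]) (.s03 ⟨⟨.negSucc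 391, .ofNat 8747⟩, ⟨.ofNat 0, .ofNat 4225⟩, ⟨.ofNat 0, .ofNat 1859⟩, ⟨.ofNat 0, .ofNat 2366⟩⟩ ⟨.negSucc 195, .ofNat 571⟩ ⟨.ofNat 13, .ofNat 52⟩ ⟨.ofNat 70, .ofNat 0⟩ 11 (.leaf 12 [57, 64, 64, 64]) (.leaf 11 [0, 64, 64, 60]))))))

/-- part of a tree -/
def t6_0 : Tree := .s03 ⟨⟨.negSucc 13391, .ofNat 24300⟩, ⟨.negSucc 3717, .ofNat 11154⟩, ⟨.negSucc 1182, .ofNat 3549⟩, ⟨.negSucc 2534, .ofNat 7605⟩⟩ ⟨.negSucc 1133, .ofNat 2012⟩ ⟨.ofNat 1053, .ofNat 1053⟩ ⟨.ofNat 69, .ofNat 23⟩ 9 (.leaf 15 [64, 64, 0, 64, 64, 64, 64, 64, 6, 0]) t6_1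

/-- part of a tree -/
def t6 : Tree := .s01 ⟨⟨.ofNat 6534, .ofNat 0⟩, ⟨.ofNat 3146, .ofNat 1053⟩, ⟨.ofNat 1001, .ofNat 0⟩, ⟨.ofNat 2145, .ofNat 0⟩⟩ ⟨.ofNat 7, .ofNat 0⟩ ⟨.ofNat 81, .ofNat 0⟩ ⟨.ofNat 1, .ofNat 0⟩ 3 (.leaf 16 [64, 64, 0, 64, 0, 64, 64, 64, 64, 5, 0]) t6_0

theorem g6 : Good (PE lin H) ⟨⟨.ofNat 621, .ofNat 0⟩, ⟨.ofNat 299, .ofNat 0⟩, ⟨.ofNat 143, .ofNat 0⟩, ⟨.ofNat 156, .ofNat 0⟩⟩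
    ⟨⟨.ofNat 27, .ofNat 0⟩, ⟨.ofNat 13, .ofNat 13⟩, ⟨.ofNat 0, .ofNat 0⟩, ⟨.ofNat 13, .ofNat 0⟩⟩
    ⟨⟨.ofNat 1836, .ofNat 2691⟩, ⟨.ofNat 3575, .ofNat 884⟩, ⟨.ofNat 1287, .ofNat 0⟩, ⟨.ofNat 2288, .ofNat 0⟩⟩
    ⟨⟨.ofNat 0, .ofNat 322⟩, ⟨.ofNat 322, .ofNat 0⟩, ⟨.ofNat 297, .negSucc 142⟩, ⟨.ofNat 25, .ofNat 143⟩⟩ :=
  goodE lin H t6 11 28 2 6 (by decide +kernel)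

end

end Pool.Agent.PHCert.E2
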