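import Pool.Agent.PHCert.E2H

/-!
# PHCert: inequality E2, part 3 (86 leaves, checked by the kernel)
-/

set_option autoImplicit false

namespace Pool.Agent.PHCert.E2

open Zp Pool.Agent.PHCert

noncomputable section

/-- part of a tree -/
def t10_0 : Tree := .s02 ⟨⟨.ofNat 0, .ofNat 23⟩, ⟨.ofNat 23, .ofNat 0⟩, ⟨.ofNat 11, .ofNat 0⟩, ⟨.ofNat 12, .ofNat 0⟩⟩ ⟨.ofNat 1, .ofNat 0⟩ ⟨.negSucc 12, .ofNat 14⟩ ⟨.ofNat 0, .ofNat 14⟩ 6 (.s23 ⟨⟨.ofNat 841, .ofNat 0⟩, ⟨.ofNat 715, .ofNat 117⟩, ⟨.ofNat 286, .ofNat 0⟩, ⟨.ofNat 429, .ofNat 0⟩⟩ ⟨.ofNat 26, .ofNat 0⟩ ⟨.ofNat 9, .ofNat 0⟩ ⟨.ofNat 1, .ofNat 0⟩ 26 (.s13 ⟨⟨.ofNat 4527, .ofNat 0⟩,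 ⟨.ofNat 2288, .ofNat 2288⟩, ⟨.ofNat 1287, .ofNat 0⟩, ⟨.ofNat 2288, .ofNat 0⟩⟩ ⟨.ofNat 117, .ofNat 0⟩ ⟨.ofNat 68, .ofNat 0⟩ ⟨.ofNat 1, .ofNat 0⟩ 29 (.s03 ⟨⟨.ofNat 2187, .ofNat 2093⟩, ⟨.ofNat 3146, .ofNat 1053⟩, ⟨.ofNat 1001, .ofNat 0⟩, ⟨.ofNat 2145, .ofNat 0⟩⟩ ⟨.ofNat 91, .ofNat 0⟩ ⟨.ofNat 81, .ofNat 0⟩ ⟨.ofNat 1, .ofNat 0⟩ 1 (.leaf 15 [64, 64, 64, 64, 0, 0, 64, 28, 0]) (.leaf 12 [64, 12, 0, 0, 64, 64, 64, 0, 0, 0])) (.leaf 11 [26, 0, 0, 0, 64, 0, 0, 64, 0])) (.s02 ⟨⟨.ofNat 12, .ofNat 12⟩, ⟨.ofNat 23, .ofNat 0⟩, ⟨.ofNat 11, .ofNat 0⟩, ⟨.ofNat 12, .ofNat 0⟩⟩ ⟨.ofNat 12, .ofNat 1⟩ ⟨.ofNat 11, .negSucc 0⟩ ⟨.ofNat 23, .ofNat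 0⟩ 3 (.leaf 11 [64, 52, 0, 64, 47, 64, 0]) (.leaf 11 [26, 0, 0, 0, 64, 0, 0, 64, 0]))) (.s01 ⟨⟨.ofNat 0, .ofNat 322⟩, ⟨.negSucc 130, .ofNat 311⟩, ⟨.ofNat 154, .ofNat 0⟩, ⟨.ofNat 168, .ofNat 0⟩⟩ ⟨.ofNat 0, .ofNat 1⟩ ⟨.ofNat 14, .ofNat 1⟩ ⟨.ofNat 1, .ofNat 1⟩ 4 (.s13 ⟨⟨.ofNat 841, .ofNat 0⟩, ⟨.ofNat 429, .ofNat 429⟩, ⟨.ofNat 286, .ofNat 0⟩, ⟨.ofNat 429, .ofNat 0⟩⟩ ⟨.ofNat 26, .ofNat 0⟩ ⟨.ofNat 9, .ofNat 0⟩ ⟨.ofNat 1, .ofNat 0⟩ 29 (.s23 ⟨⟨.ofNat 1836, .ofNat 2691⟩, ⟨.ofNat 3575, .ofNat 884⟩, ⟨.ofNat 1287, .ofNat 0⟩, ⟨.ofNat 2288, .ofNat 0⟩⟩ ⟨.ofNat 117, .ofNat 0⟩ ⟨.ofNat 68, .ofNat 0⟩ ⟨.ofNat 1, .ofNat 0⟩ 2 (.leaf 13 [64, 64,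 64, 2, 0, 0, 64, 64, 26, 0, 0]) (.leaf 12 [64, 9, 0, 0, 64, 64, 64, 0, 0])) (.leaf 11 [26, 0, 0, 0, 64, 0, 0, 64])) (.s02 ⟨⟨.ofNat 460, .ofNat 0⟩, ⟨.ofNat 253, .ofNat 0⟩, ⟨.ofNat 121, .ofNat 0⟩, ⟨.ofNat 132, .ofNat 0⟩⟩ ⟨.negSucc 10, .ofNat 9⟩ ⟨.ofNat 0, .ofNat 37⟩ ⟨.negSucc 12, .ofNat 14⟩ 9 (.s23 ⟨⟨.ofNat 243, .ofNat 598⟩, ⟨.ofNat 715, .ofNat 117⟩, ⟨.ofNat 286, .ofNat 0⟩, ⟨.ofNat 429, .ofNat 0⟩⟩ ⟨.ofNat 26, .ofNat 0⟩ ⟨.ofNat 9, .ofNat 0⟩ ⟨.ofNat 1, .ofNat 0⟩ 3 (.s03 ⟨⟨.ofNat 14633, .ofNat 0⟩, ⟨.ofNat 7865, .ofNat 1287⟩, ⟨.ofNat 3146, .ofNat 0⟩, ⟨.ofNat 4719, .ofNat 0⟩⟩ ⟨.ofNat 26, .ofNat 0⟩ ⟨.ofNat 99, .ofNat 0⟩ ⟨.ofNat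 1, .ofNat 0⟩ 4 (.leaf 13 [64, 64, 64, 64, 64, 26, 0, 0]) (.leaf 11 [40, 0, 0, 64, 63, 0])) (.leaf 11 [12, 64, 64, 0])) (.s13 ⟨⟨.ofNat 1701, .ofNat 4186⟩, ⟨.negSucc 883, .ofNat 4862⟩, ⟨.ofNat 2002, .ofNat 0⟩, ⟨.ofNat 3003, .ofNat 0⟩⟩ ⟨.ofNat 13, .ofNat 0⟩ ⟨.ofNat 63, .ofNat 0⟩ ⟨.ofNat 1, .ofNat 0⟩ 2 (.s23 ⟨⟨.ofNat 14633, .ofNat 0⟩, ⟨.ofNat 7865, .ofNat 1287⟩, ⟨.ofNat 3146, .ofNat 0⟩, ⟨.ofNat 4719, .ofNat 0⟩⟩ ⟨.ofNat 26, .ofNat 0⟩ ⟨.ofNat 99, .ofNat 0⟩ ⟨.ofNat 1, .ofNat 0⟩ 4 (.leaf 12 [0, 0, 64, 0, 64, 0, 22, 0]) (.leaf 11 [64, 0, 64, 64, 64, 42])) (.leaf 11 [64, 0, 0, 64, 64, 64, 45]))))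

/-- part of a tree -/
def t10 : Tree := .s12 ⟨⟨.ofNat 23, .ofNat 0⟩, ⟨.ofNat 12, .ofNat 12⟩, ⟨.ofNat 11, .ofNat 0⟩, ⟨.ofNat 12, .ofNat 0⟩⟩ ⟨.ofNat 12, .ofNat 1⟩ ⟨.ofNat 0, .ofNat 1⟩ ⟨.ofNat 0, .ofNat 1⟩ 29 t10_0 (.s01 ⟨⟨.ofNat 621, .ofNat 0⟩, ⟨.ofNat 156, .ofNat 156⟩, ⟨.ofNat 143, .ofNat 0⟩, ⟨.ofNat 156, .ofNat 0⟩⟩ ⟨.ofNat 0, .ofNat 1⟩ ⟨.ofNat 156, .ofNat 13⟩ ⟨.ofNat 0, .ofNat 1⟩ 5 (.s12 ⟨⟨.ofNat 299, .ofNat 0⟩, ⟨.ofNat 621, .ofNat 0⟩, ⟨.ofNat 143, .ofNat 0⟩, ⟨.ofNat 156, .ofNat 0⟩⟩ ⟨.negSucc 155, .ofNat 309⟩ ⟨.ofNat 0, .ofNat 13⟩ ⟨.ofNat 0, .ofNat 1⟩ 37 (.s02 ⟨⟨.ofNat 0, .ofNat 23⟩, ⟨.ofNat 12, .ofNat 12⟩, ⟨.ofNat 11,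 .ofNat 0⟩, ⟨.ofNat 12, .ofNat 0⟩⟩ ⟨.ofNat 1, .ofNat 0⟩ ⟨.negSucc 12, .ofNat 14⟩ ⟨.ofNat 0, .ofNat 14⟩ 2 (.leaf 13 [64, 64, 64, 64, 0, 0, 64, 63, 0, 0, 25, 64, 0]) (.leaf 13 [64, 64, 64, 36, 0, 0, 64, 9, 0, 0, 0, 0])) (.leaf 12 [64, 64, 64, 41, 0, 0, 0, 0, 0, 0, 0, 0, 0, 0, 0])) (.s02 ⟨⟨.ofNat 0, .ofNat 322⟩, ⟨.negSucc 130, .ofNat 311⟩, ⟨.ofNat 154, .ofNat 0⟩, ⟨.ofNat 168, .ofNat 0⟩⟩ ⟨.ofNat 0, .ofNat 1⟩ ⟨.ofNat 14, .ofNat 1⟩ ⟨.ofNat 1, .ofNat 1⟩ 4 (.s12 ⟨⟨.ofNat 0, .ofNat 23⟩, ⟨.ofNat 12, .ofNat 12⟩, ⟨.ofNat 11, .ofNat 0⟩, ⟨.ofNat 12, .ofNat 0⟩⟩ ⟨.ofNat 1, .ofNat 0⟩ ⟨.negSucc 12, .ofNat 14⟩ ⟨.ofNat 0, .ofNat 14⟩ 2 (.leaf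 12 [64, 64, 64, 64, 0, 0, 64, 59, 0, 0, 0, 11, 64, 0]) (.leaf 13 [64, 64, 0, 64, 64, 48, 0, 56, 0])) (.leaf 11 [64, 0, 0, 64, 0, 48, 61, 0, 64, 0])))

theorem g10 : Good (PE lin H) ⟨⟨.ofNat 621, .ofNat 0⟩, ⟨.ofNat 299, .ofNat 0⟩, ⟨.ofNat 143, .ofNat 0⟩, ⟨.ofNat 156, .ofNat 0⟩⟩
    ⟨⟨.ofNat 0, .ofNat 0⟩, ⟨.ofNat 1, .ofNat 0⟩, ⟨.ofNat 0, .ofNat 0⟩, ⟨.ofNat 0, .ofNat 0⟩⟩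
    ⟨⟨.ofNat 23, .ofNat 0⟩, ⟨.ofNat 23, .ofNat 0⟩, ⟨.ofNat 11, .ofNat 0⟩, ⟨.ofNat 12, .ofNat 0⟩⟩
    ⟨⟨.ofNat 27, .ofNat 0⟩, ⟨.ofNat 13, .ofNat 13⟩, ⟨.ofNat 0, .ofNat 0⟩, ⟨.ofNat 13, .ofNat 0⟩⟩ :=
  goodE lin H t10 11 51 0 28 (by decide +kernel)

/-- part of a tree -/
def t12_3 : Tree := .s23 ⟨⟨.ofNat 594, .ofNat 0⟩, ⟨.ofNat 286, .ofNat 0⟩, ⟨.ofNat 91, .ofNat 0⟩, ⟨.ofNat 195, .ofNat 0⟩⟩ ⟨.ofNat 19, .ofNat 0⟩ ⟨.ofNat 81, .ofNat 0⟩ ⟨.ofNat 53, .ofNat 0⟩ 11 (.s23 ⟨⟨.ofNat 297, .ofNat 0⟩, ⟨.ofNat 143, .ofNat 0⟩, ⟨.ofNat 39, .ofNat 0⟩, ⟨.ofNat 104, .ofNat 0⟩⟩ ⟨.ofNat 5, .ofNat 0⟩ ⟨.ofNat 11, .ofNat 0⟩ ⟨.ofNat 19, .ofNat 0⟩ 11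 (.s13 ⟨⟨.ofNat 243, .ofNat 0⟩, ⟨.ofNat 121, .ofNat 0⟩, ⟨.ofNat 26, .ofNat 0⟩, ⟨.ofNat 91, .ofNat 0⟩⟩ ⟨.ofNat 4, .ofNat 0⟩ ⟨.negSucc 29, .ofNat 91⟩ ⟨.negSucc 25, .ofNat 91⟩ 11 (.s03 ⟨⟨.ofNat 4449, .ofNat 0⟩, ⟨.ofNat 2119, .ofNat 0⟩, ⟨.ofNat 477, .ofNat 0⟩, ⟨.ofNat 1642, .ofNat 0⟩⟩ ⟨.ofNat 1, .ofNat 0⟩ ⟨.ofNat 222, .ofNat 0⟩ ⟨.ofNat 13, .ofNat 0⟩ 11 (.s23 ⟨⟨.ofNat 27, .ofNat 0⟩, ⟨.ofNat 13, .ofNat 0⟩, ⟨.ofNat 3, .ofNat 0⟩, ⟨.ofNat 10, .ofNat 0⟩⟩ ⟨.ofNat 1, .ofNat 0⟩ ⟨.ofNat 6, .ofNat 0⟩ ⟨.ofNat 65, .ofNat 0⟩ 11 (.leaf 16 []) (.leaf 16 [])) (.leaf 16 [59])) (.leaf 16 [64, 52, 64, 31])) (.leaf 15 [64, 62, 64, 0])) (.s12 ⟨⟨.ofNat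 35775, .ofNat 0⟩, ⟨.ofNat 15457, .ofNat 6188⟩, ⟨.ofNat 6201, .ofNat 0⟩, ⟨.ofNat 11024, .ofNat 0⟩⟩ ⟨.ofNat 68, .ofNat 0⟩ ⟨.ofNat 31, .ofNat 0⟩ ⟨.ofNat 1, .ofNat 0⟩ 4 (.s02 ⟨⟨.ofNat 8241, .ofNat 0⟩, ⟨.ofNat 3575, .ofNat 0⟩, ⟨.ofNat 1287, .ofNat 0⟩, ⟨.ofNat 2288, .ofNat 0⟩⟩ ⟨.ofNat 17, .ofNat 0⟩ ⟨.ofNat 66, .ofNat 0⟩ ⟨.ofNat 13, .ofNat 0⟩ 12 (.s23 ⟨⟨.ofNat 135, .ofNat 0⟩, ⟨.ofNat 65, .ofNat 0⟩, ⟨.ofNat 26, .ofNat 0⟩, ⟨.ofNat 39, .ofNat 0⟩⟩ ⟨.ofNat 1, .ofNat 0⟩ ⟨.ofNat 1, .ofNat 0⟩ ⟨.ofNat 9, .ofNat 0⟩ 11 (.s12 ⟨⟨.negSucc 11204, .ofNat 71415⟩, ⟨.ofNat 12285, .ofNat 24661⟩, ⟨.negSucc 90, .ofNat 12376⟩, ⟨.negSucc 5303, .ofNat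 22009⟩⟩ ⟨.ofNat 2, .negSucc 0⟩ ⟨.negSucc 0, .ofNat 711⟩ ⟨.ofNat 0, .ofNat 1⟩ 10 (.s23 ⟨⟨.ofNat 0, .ofNat 27⟩, ⟨.ofNat 0, .ofNat 13⟩, ⟨.negSucc 12, .ofNat 13⟩, ⟨.ofNat 13, .ofNat 0⟩⟩ ⟨.ofNat 15, .negSucc 6⟩ ⟨.negSucc 2, .ofNat 2⟩ ⟨.ofNat 0, .ofNat 9⟩ 11 (.s13 ⟨⟨.negSucc 217349, .ofNat 1856925⟩, ⟨.negSucc 734941, .ofNat 1300715⟩, ⟨.negSucc 37673, .ofNat 321867⟩, ⟨.negSucc 66975, .ofNat 572208⟩⟩ ⟨.ofNat 0, .ofNat 23⟩ ⟨.negSucc 4, .ofNat 3555⟩ ⟨.ofNat 1, .ofNat 1⟩ 11 (.s23 ⟨⟨.ofNat 675, .ofNat 0⟩, ⟨.ofNat 325, .ofNat 0⟩, ⟨.ofNat 117, .ofNat 0⟩, ⟨.ofNat 208, .ofNat 0⟩⟩ ⟨.ofNat 0, .ofNat 23⟩ ⟨.ofNat 16, .negSucc 8⟩ ⟨.ofNat 15,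 .negSucc 6⟩ 11 (.leaf 14 [62]) (.leaf 13 [60])) (.leaf 13 [37])) (.leaf 13 [64, 9])) (.leaf 14 [64, 56])) (.leaf 12 [64, 64, 59])) (.leaf 14 [64, 64])) (.leaf 15 [64, 32, 64]))

/-- part of a tree -/
def t12_2 : Tree := .s02 ⟨⟨.ofNat 3891, .ofNat 0⟩, ⟨.ofNat 1573, .ofNat 0⟩, ⟨.ofNat 429, .ofNat 0⟩, ⟨.ofNat 1144, .ofNat 0⟩⟩ ⟨.ofNat 676, .ofNat 0⟩ ⟨.ofNat 3, .ofNat 0⟩ ⟨.ofNat 1, .ofNat 0⟩ 13 t12_3 (.leaf 17 [64, 64, 64, 64, 28])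

/-- part of a tree -/
def t12_1 : Tree := .s13 ⟨⟨.ofNat 243, .ofNat 0⟩, ⟨.ofNat 91, .ofNat 91⟩, ⟨.ofNat 26, .ofNat 0⟩, ⟨.ofNat 91, .ofNat 0⟩⟩ ⟨.negSucc 25, .ofNat 91⟩ ⟨.ofNat 1, .ofNat 0⟩ ⟨.ofNat 1, .ofNat 0⟩ 0 t12_2 (.s01 ⟨⟨.ofNat 3, .ofNat 0⟩, ⟨.ofNat 1, .ofNat 1⟩, ⟨.ofNat 0, .ofNat 0⟩, ⟨.ofNat 1, .ofNat 0⟩⟩ ⟨.ofNat 1, .ofNat 0⟩ ⟨.ofNat 0, .ofNat 1⟩ ⟨.ofNat 1, .ofNat 0⟩ 1 (.s12 ⟨⟨.ofNat 621, .ofNat 0⟩, ⟨.ofNat 156, .ofNat 156⟩, ⟨.ofNat 143, .ofNat 0⟩, ⟨.ofNat 156, .ofNat 0⟩⟩ ⟨.ofNat 156, .ofNat 13⟩ ⟨.ofNat 0, .ofNat 1⟩ ⟨.ofNat 0, .ofNat 1⟩ 5 (.leaf 12 [64, 11, 64, 64, 0]) (.leaf 15 [0, 0, 0, 0, 0, 0])) (.s02 ⟨⟨.ofNat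 3891, .ofNat 0⟩, ⟨.ofNat 1573, .ofNat 0⟩, ⟨.ofNat 429, .ofNat 0⟩, ⟨.ofNat 1144, .ofNat 0⟩⟩ ⟨.ofNat 676, .ofNat 0⟩ ⟨.ofNat 3, .ofNat 0⟩ ⟨.ofNat 1, .ofNat 0⟩ 13 (.s12 ⟨⟨.ofNat 7506, .ofNat 0⟩, ⟨.ofNat 3146, .ofNat 1053⟩, ⟨.ofNat 1001, .ofNat 0⟩, ⟨.ofNat 2145, .ofNat 0⟩⟩ ⟨.ofNat 1053, .ofNat 0⟩ ⟨.ofNat 7, .ofNat 0⟩ ⟨.ofNat 1, .ofNat 0⟩ 5 (.s23 ⟨⟨.ofNat 35775, .ofNat 0⟩, ⟨.ofNat 15457, .ofNat 6188⟩, ⟨.ofNat 6201, .ofNat 0⟩, ⟨.ofNat 11024, .ofNat 0⟩⟩ ⟨.ofNat 31, .ofNat 0⟩ ⟨.ofNat 68, .ofNat 0⟩ ⟨.ofNat 1, .ofNat 0⟩ 4 (.leaf 15 [64, 0, 64, 40]) (.s02 ⟨⟨.ofNat 8241, .ofNat 0⟩, ⟨.ofNat 3575, .ofNat 0⟩, ⟨.ofNat 1287, .ofNat 0⟩, ⟨.ofNat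 2288, .ofNat 0⟩⟩ ⟨.ofNat 17, .ofNat 0⟩ ⟨.ofNat 66, .ofNat 0⟩ ⟨.ofNat 13, .ofNat 0⟩ 12 (.leaf 12 [64, 64, 15]) (.leaf 14 [64, 64, 64]))) (.leaf 17 [64, 64, 64, 64, 64])) (.leaf 18 [64, 64, 64, 64, 0])))

/-- part of a tree -/
def t12_0 : Tree := .s23 ⟨⟨.ofNat 243, .ofNat 0⟩, ⟨.ofNat 117, .ofNat 0⟩, ⟨.ofNat 26, .ofNat 0⟩, ⟨.ofNat 91, .ofNat 0⟩⟩ ⟨.ofNat 2, .ofNat 0⟩ ⟨.ofNat 53, .ofNat 0⟩ ⟨.ofNat 11, .ofNat 0⟩ 11 (.s13 ⟨⟨.ofNat 27, .ofNat 0⟩, ⟨.ofNat 13, .ofNat 13⟩, ⟨.ofNat 0, .ofNat 0⟩, ⟨.ofNat 13, .ofNat 0⟩⟩ ⟨.ofNat 0, .ofNat 13⟩ ⟨.ofNat 1, .ofNat 0⟩ ⟨.ofNat 1, .ofNat 0⟩ 28 (.leaf 17 [64, 64, 0, 64, 64, 2]) (.s12 ⟨⟨.ofNat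 243, .ofNat 0⟩, ⟨.ofNat 91, .ofNat 91⟩, ⟨.ofNat 26, .ofNat 0⟩, ⟨.ofNat 91, .ofNat 0⟩⟩ ⟨.negSucc 25, .ofNat 91⟩ ⟨.ofNat 1, .ofNat 0⟩ ⟨.ofNat 1, .ofNat 0⟩ 0 (.leaf 17 [64, 64, 0, 64, 64, 28]) (.s01 ⟨⟨.ofNat 3, .ofNat 0⟩, ⟨.ofNat 1, .ofNat 1⟩, ⟨.ofNat 0, .ofNat 0⟩, ⟨.ofNat 1, .ofNat 0⟩⟩ ⟨.ofNat 1, .ofNat 0⟩ ⟨.ofNat 0, .ofNat 1⟩ ⟨.ofNat 1, .ofNat 0⟩ 1 (.leaf 19 [0, 0, 0, 0, 0, 0, 0]) (.leaf 20 [0, 0, 64, 0, 0, 0])))) t12_1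

/-- part of a tree -/
def t12_4 : Tree := .s02 ⟨⟨.ofNat 69, .ofNat 0⟩, ⟨.ofNat 23, .ofNat 0⟩, ⟨.ofNat 11, .ofNat 0⟩, ⟨.ofNat 12, .ofNat 0⟩⟩ ⟨.ofNat 276, .ofNat 0⟩ ⟨.ofNat 1, .ofNat 0⟩ ⟨.ofNat 13, .ofNat 0⟩ 14 (.s13 ⟨⟨.ofNat 3, .ofNat 0⟩, ⟨.ofNat 1, .ofNat 1⟩, ⟨.ofNat 0, .ofNat 0⟩, ⟨.ofNat 1, .ofNat 0⟩⟩ ⟨.ofNat 0, .ofNat 1⟩ ⟨.ofNat 1, .ofNat 0⟩ ⟨.ofNat 1, .ofNat 0⟩ 1 (.s23 ⟨⟨.ofNat 3891, .ofNat 0⟩, ⟨.ofNat 1573, .ofNat 0⟩, ⟨.ofNat 429, .ofNat 0⟩, ⟨.ofNat 1144, .ofNat 0⟩⟩ ⟨.ofNat 3, .ofNat 0⟩ ⟨.ofNat 676, .ofNat 0⟩ ⟨.ofNat 1, .ofNat 0⟩ 13 (.s03 ⟨⟨.ofNat 27, .ofNat 0⟩, ⟨.ofNat 9, .ofNat 0⟩, ⟨.ofNat 2, .ofNat 0⟩, ⟨.ofNat 7,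 .ofNat 0⟩⟩ ⟨.ofNat 2, .ofNat 0⟩ ⟨.ofNat 53, .ofNat 0⟩ ⟨.ofNat 11, .ofNat 0⟩ 14 (.leaf 18 [64, 64, 64, 64, 0]) (.leaf 15 [64, 64, 64, 0, 64, 64, 12, 0])) (.s12 ⟨⟨.ofNat 8241, .ofNat 0⟩, ⟨.ofNat 3575, .ofNat 884⟩, ⟨.ofNat 1287, .ofNat 0⟩, ⟨.ofNat 2288, .ofNat 0⟩⟩ ⟨.ofNat 884, .ofNat 0⟩ ⟨.ofNat 9, .ofNat 0⟩ ⟨.ofNat 1, .ofNat 0⟩ 7 (.s23 ⟨⟨.ofNat 1593, .ofNat 0⟩, ⟨.ofNat 715, .ofNat 0⟩, ⟨.ofNat 286, .ofNat 0⟩, ⟨.ofNat 429, .ofNat 0⟩⟩ ⟨.ofNat 77, .ofNat 0⟩ ⟨.ofNat 9, .ofNat 0⟩ ⟨.ofNat 52, .ofNat 0⟩ 12 (.leaf 13 [64, 0, 64, 64, 41, 0]) (.leaf 12 [64, 64, 64, 64, 0])) (.leaf 15 [64, 64, 64, 13, 64, 64, 0, 0]))) (.s12 ⟨⟨.ofNat 621,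 .ofNat 0⟩, ⟨.ofNat 156, .ofNat 156⟩, ⟨.ofNat 143, .ofNat 0⟩, ⟨.ofNat 156, .ofNat 0⟩⟩ ⟨.ofNat 156, .ofNat 13⟩ ⟨.ofNat 0, .ofNat 1⟩ ⟨.ofNat 0, .ofNat 1⟩ 5 (.leaf 12 [64, 11, 64, 64, 64, 64, 0]) (.leaf 13 [0, 0, 0, 0, 0, 0, 0, 0, 0]))) (.s13 ⟨⟨.ofNat 3, .ofNat 0⟩, ⟨.ofNat 1, .ofNat 1⟩, ⟨.ofNat 0, .ofNat 0⟩, ⟨.ofNat 1, .ofNat 0⟩⟩ ⟨.ofNat 0, .ofNat 1⟩ ⟨.ofNat 1, .ofNat 0⟩ ⟨.ofNat 1, .ofNat 0⟩ 1 (.s23 ⟨⟨.ofNat 51, .ofNat 0⟩, ⟨.ofNat 17, .ofNat 0⟩, ⟨.ofNat 3, .ofNat 0⟩, ⟨.ofNat 14, .ofNat 0⟩⟩ ⟨.ofNat 3, .ofNat 0⟩ ⟨.ofNat 118, .ofNat 0⟩ ⟨.ofNat 11, .ofNat 0⟩ 14 (.s03 ⟨⟨.ofNat 33, .ofNat 0⟩, ⟨.ofNat 7, .ofNat 0⟩, ⟨.ofNat 0, .ofNat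 0⟩, ⟨.ofNat 7, .ofNat 0⟩⟩ ⟨.ofNat 12, .ofNat 0⟩ ⟨.ofNat 7, .ofNat 0⟩ ⟨.ofNat 1, .ofNat 0⟩ 17 (.leaf 19 [64, 64, 64, 64, 3, 0]) (.s02 ⟨⟨.ofNat 63, .ofNat 0⟩, ⟨.ofNat 17, .ofNat 0⟩, ⟨.ofNat 3, .ofNat 0⟩, ⟨.ofNat 14, .ofNat 0⟩⟩ ⟨.ofNat 12, .ofNat 0⟩ ⟨.ofNat 1, .ofNat 0⟩ ⟨.ofNat 1, .ofNat 0⟩ 16 (.leaf 18 [2, 64, 64, 64, 0]) (.leaf 18 [0, 64, 64, 0, 0, 0, 0, 0]))) (.s03 ⟨⟨.ofNat 63, .ofNat 0⟩, ⟨.ofNat 17, .ofNat 0⟩, ⟨.ofNat 3, .ofNat 0⟩, ⟨.ofNat 14, .ofNat 0⟩⟩ ⟨.ofNat 12, .ofNat 0⟩ ⟨.ofNat 1, .ofNat 0⟩ ⟨.ofNat 1, .ofNat 0⟩ 16 (.s12 ⟨⟨.ofNat 297, .ofNat 0⟩, ⟨.ofNat 99, .ofNat 53⟩, ⟨.ofNat 22, .ofNat 0⟩, ⟨.ofNat 77, .ofNat 0⟩⟩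 ⟨.ofNat 53, .ofNat 0⟩ ⟨.ofNat 2, .ofNat 0⟩ ⟨.ofNat 1, .ofNat 0⟩ 6 (.s23 ⟨⟨.ofNat 33, .ofNat 0⟩, ⟨.ofNat 11, .ofNat 0⟩, ⟨.ofNat 3, .ofNat 0⟩, ⟨.ofNat 8, .ofNat 0⟩⟩ ⟨.ofNat 9, .ofNat 0⟩ ⟨.ofNat 26, .ofNat 0⟩ ⟨.ofNat 59, .ofNat 0⟩ 14 (.leaf 17 [45, 64, 64, 64, 0]) (.s02 ⟨⟨.ofNat 4380, .ofNat 0⟩, ⟨.ofNat 1298, .ofNat 0⟩, ⟨.ofNat 413, .ofNat 0⟩, ⟨.ofNat 885, .ofNat 0⟩⟩ ⟨.ofNat 81, .ofNat 0⟩ ⟨.ofNat 53, .ofNat 0⟩ ⟨.ofNat 2, .ofNat 0⟩ 15 (.leaf 14 [64, 64, 64, 15, 64, 64, 0]) (.leaf 16 [6, 64, 64, 49]))) (.leaf 18 [38, 64, 64, 64, 64, 0])) (.s12 ⟨⟨.ofNat 363, .ofNat 0⟩, ⟨.ofNat 121, .ofNat 52⟩, ⟨.ofNat 33, .ofNat 0⟩, ⟨.ofNat 88,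 .ofNat 0⟩⟩ ⟨.ofNat 52, .ofNat 0⟩ ⟨.ofNat 3, .ofNat 0⟩ ⟨.ofNat 1, .ofNat 0⟩ 8 (.s23 ⟨⟨.ofNat 4380, .ofNat 0⟩, ⟨.ofNat 1298, .ofNat 0⟩, ⟨.ofNat 413, .ofNat 0⟩, ⟨.ofNat 885, .ofNat 0⟩⟩ ⟨.ofNat 53, .ofNat 0⟩ ⟨.ofNat 81, .ofNat 0⟩ ⟨.ofNat 2, .ofNat 0⟩ 15 (.leaf 17 [0, 64, 0, 0, 0, 0]) (.leaf 13 [0, 64, 0, 39, 0, 0, 0])) (.leaf 18 [0, 64, 64, 0, 0, 0, 0, 0])))) (.s12 ⟨⟨.ofNat 69, .ofNat 0⟩, ⟨.ofNat 12, .ofNat 12⟩, ⟨.ofNat 11, .ofNat 0⟩, ⟨.ofNat 12, .ofNat 0⟩⟩ ⟨.ofNat 12, .ofNat 1⟩ ⟨.ofNat 0, .ofNat 1⟩ ⟨.ofNat 0, .ofNat 1⟩ 12 (.leaf 14 [0, 64, 64, 0, 64, 0, 0, 0, 0]) (.leaf 16 [0, 0, 0, 0, 0, 0, 0])))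

/-- part of a tree -/
def t12 : Tree := .s03 ⟨⟨.ofNat 3, .ofNat 0⟩, ⟨.ofNat 1, .ofNat 0⟩, ⟨.ofNat 0, .ofNat 0⟩, ⟨.ofNat 1, .ofNat 0⟩⟩ ⟨.ofNat 12, .ofNat 0⟩ ⟨.ofNat 1, .ofNat 0⟩ ⟨.ofNat 13, .ofNat 0⟩ 14 t12_0 t12_4

theorem g12 : Good (PE lin H) ⟨⟨.ofNat 1, .ofNat 0⟩, ⟨.ofNat 0, .ofNat 0⟩, ⟨.ofNat 0, .ofNat 0⟩, ⟨.ofNat 0, .ofNat 0⟩⟩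
    ⟨⟨.ofNat 0, .ofNat 0⟩, ⟨.ofNat 1, .ofNat 0⟩, ⟨.ofNat 0, .ofNat 0⟩, ⟨.ofNat 0, .ofNat 0⟩⟩
    ⟨⟨.ofNat 621, .ofNat 0⟩, ⟨.ofNat 299, .ofNat 0⟩, ⟨.ofNat 143, .ofNat 0⟩, ⟨.ofNat 156, .ofNat 0⟩⟩
    ⟨⟨.ofNat 27, .ofNat 0⟩, ⟨.ofNat 13, .ofNat 0⟩, ⟨.ofNat 0, .ofNat 0⟩, ⟨.ofNat 13, .ofNat 0⟩⟩ :=
  goodE lin H t12 25 51 11 11 (by decide +kernel)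

/-- part of a tree -/
def t15 : Tree := .s02 ⟨⟨.ofNat 0, .ofNat 8050⟩, ⟨.ofNat 8050, .ofNat 0⟩, ⟨.ofNat 6361, .negSucc 1208⟩, ⟨.ofNat 1689, .ofNat 1209⟩⟩ ⟨.ofNat 0, .ofNat 25⟩ ⟨.ofNat 322, .ofNat 23⟩ ⟨.ofNat 1, .ofNat 1⟩ 6 (.s23 ⟨⟨.ofNat 5, .ofNat 0⟩, ⟨.ofNat 5, .ofNat 0⟩, ⟨.ofNat 3, .ofNat 0⟩, ⟨.ofNat 2, .ofNat 0⟩⟩ ⟨.ofNat 14, .ofNat 0⟩ ⟨.ofNat 5, .ofNat 0⟩ ⟨.ofNat 93, .ofNat 0⟩ 0 (.s03 ⟨⟨.ofNat 32200, .ofNat 0⟩, ⟨.ofNat 24150, .ofNat 0⟩, ⟨.ofNat 10341, .ofNat 1302⟩, ⟨.ofNat 13809, .negSucc 1301⟩⟩ ⟨.ofNat 1, .ofNat 1⟩ ⟨.negSucc 349, .ofNat 700⟩ ⟨.ofNat 0, .ofNat 1⟩ 3 (.leaf 9 [64, 64, 59, 64, 64, 0, 0]) (.s02 ⟨⟨.ofNat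 32200, .ofNat 0⟩, ⟨.ofNat 24150, .ofNat 0⟩, ⟨.ofNat 13281, .ofNat 322⟩, ⟨.ofNat 10869, .negSucc 321⟩⟩ ⟨.ofNat 1, .ofNat 1⟩ ⟨.negSucc 1609, .ofNat 3220⟩ ⟨.ofNat 0, .ofNat 1⟩ 3 (.leaf 8 [64, 64, 43, 64, 0, 15]) (.leaf 9 [39, 0, 0, 0, 64, 0, 64, 0]))) (.s02 ⟨⟨.ofNat 917, .ofNat 29⟩, ⟨.ofNat 273, .ofNat 351⟩, ⟨.ofNat 78, .ofNat 273⟩, ⟨.ofNat 195, .ofNat 78⟩⟩ ⟨.negSucc 0, .ofNat 1⟩ ⟨.ofNat 595, .ofNat 29⟩ ⟨.ofNat 25, .ofNat 0⟩ 1 (.s23 ⟨⟨.ofNat 0, .ofNat 1⟩, ⟨.ofNat 0, .ofNat 1⟩, ⟨.ofNat 1, .ofNat 0⟩, ⟨.negSucc 0, .ofNat 1⟩⟩ ⟨.negSucc 0, .ofNat 1⟩ ⟨.ofNat 7, .negSucc 1⟩ ⟨.ofNat 5, .ofNat 10⟩ 0 (.leaf 7 [64, 64, 64, 7, 0]) (.leaf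 7 [64, 64, 64, 3, 0])) (.s12 ⟨⟨.ofNat 43, .ofNat 45316⟩, ⟨.ofNat 13299, .ofNat 39897⟩, ⟨.negSucc 16925, .ofNat 33852⟩, ⟨.negSucc 13298, .ofNat 26598⟩⟩ ⟨.ofNat 1911, .ofNat 39⟩ ⟨.ofNat 0, .ofNat 47⟩ ⟨.ofNat 0, .ofNat 1⟩ 26 (.s02 ⟨⟨.ofNat 7655, .ofNat 0⟩, ⟨.ofNat 6045, .ofNat 0⟩, ⟨.ofNat 3627, .ofNat 0⟩, ⟨.ofNat 2418, .ofNat 0⟩⟩ ⟨.negSucc 116, .ofNat 195⟩ ⟨.negSucc 1609, .ofNat 4435⟩ ⟨.ofNat 29, .ofNat 624⟩ 2 (.leaf 7 [64, 42, 0]) (.s03 ⟨⟨.ofNat 32200, .ofNat 0⟩, ⟨.ofNat 24150, .ofNat 0⟩, ⟨.ofNat 13281, .ofNat 322⟩, ⟨.ofNat 10869, .negSucc 321⟩⟩ ⟨.ofNat 1, .ofNat 1⟩ ⟨.negSucc 1609, .ofNat 3220⟩ ⟨.ofNat 0, .ofNat 1⟩ 3 (.leaf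 8 [64, 39, 0]) (.s01 ⟨⟨.negSucc 485930199, .ofNat 1459175200⟩, ⟨.ofNat 852108600, .ofNat 413109900⟩, ⟨.ofNat 10402065, .ofNat 475104528⟩, ⟨.negSucc 374849714, .ofNat 619276872⟩⟩ ⟨.negSucc 15176, .ofNat 90675⟩ ⟨.negSucc 8049, .ofNat 16100⟩ ⟨.ofNat 0, .ofNat 1⟩ 2 (.leaf 8 [64, 9, 0]) (.s02 ⟨⟨.ofNat 32200, .ofNat 0⟩, ⟨.ofNat 24150, .ofNat 0⟩, ⟨.ofNat 14247, .ofNat 0⟩, ⟨.ofNat 9903, .ofNat 0⟩⟩ ⟨.ofNat 243, .ofNat 243⟩ ⟨.negSucc 1609, .ofNat 3220⟩ ⟨.negSucc 321, .ofNat 887⟩ 3 (.leaf 8 []) (.leaf 8 [10, 64, 24]))))) (.s03 ⟨⟨.ofNat 32200, .ofNat 0⟩, ⟨.ofNat 24150, .ofNat 0⟩, ⟨.ofNat 13281, .ofNat 322⟩, ⟨.ofNat 10869, .negSucc 321⟩⟩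 ⟨.ofNat 1, .ofNat 1⟩ ⟨.negSucc 1609, .ofNat 3220⟩ ⟨.ofNat 0, .ofNat 1⟩ 3 (.leaf 8 [64, 49, 64, 2, 0]) (.leaf 9 [39, 0, 0, 0, 0, 64, 0, 64, 0]))))) (.s03 ⟨⟨.ofNat 0, .ofNat 23⟩, ⟨.ofNat 23, .ofNat 0⟩, ⟨.ofNat 11, .ofNat 0⟩, ⟨.ofNat 12, .ofNat 0⟩⟩ ⟨.ofNat 1, .ofNat 0⟩ ⟨.negSucc 12, .ofNat 14⟩ ⟨.ofNat 0, .ofNat 14⟩ 6 (.s23 ⟨⟨.ofNat 4293, .ofNat 5595⟩, ⟨.ofNat 8143, .ofNat 1395⟩, ⟨.ofNat 5152, .ofNat 93⟩, ⟨.ofNat 2991, .ofNat 1302⟩⟩ ⟨.ofNat 12, .ofNat 1⟩ ⟨.ofNat 3943, .ofNat 1045⟩ ⟨.ofNat 23, .ofNat 0⟩ 3 (.s03 ⟨⟨.ofNat 12, .ofNat 12⟩, ⟨.ofNat 23, .ofNat 0⟩, ⟨.ofNat 11, .ofNat 0⟩, ⟨.ofNat 12, .ofNat 0⟩⟩ ⟨.ofNat 12, .ofNat 1⟩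 ⟨.ofNat 11, .negSucc 0⟩ ⟨.ofNat 23, .ofNat 0⟩ 3 (.leaf 10 [64, 64, 39, 64, 28, 0]) (.leaf 10 [24, 0, 0, 0, 64, 0, 0, 64])) (.leaf 10 [0, 0, 54, 0, 64, 44, 0, 64, 0])) (.s01 ⟨⟨.ofNat 0, .ofNat 322⟩, ⟨.negSucc 130, .ofNat 311⟩, ⟨.ofNat 154, .ofNat 0⟩, ⟨.ofNat 168, .ofNat 0⟩⟩ ⟨.ofNat 0, .ofNat 1⟩ ⟨.ofNat 14, .ofNat 1⟩ ⟨.ofNat 1, .ofNat 1⟩ 4 (.leaf 10 [0, 0, 54, 0, 64, 44, 0, 64, 0]) (.s03 ⟨⟨.ofNat 460, .ofNat 0⟩, ⟨.ofNat 253, .ofNat 0⟩, ⟨.ofNat 121, .ofNat 0⟩, ⟨.ofNat 132, .ofNat 0⟩⟩ ⟨.negSucc 10, .ofNat 9⟩ ⟨.ofNat 0, .ofNat 37⟩ ⟨.negSucc 12, .ofNat 14⟩ 9 (.s23 ⟨⟨.ofNat 0, .ofNat 23⟩, ⟨.ofNat 23, .ofNat 0⟩, ⟨.ofNat 12, .ofNat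 0⟩, ⟨.ofNat 11, .ofNat 0⟩⟩ ⟨.ofNat 1, .ofNat 2⟩ ⟨.negSucc 256, .ofNat 695⟩ ⟨.ofNat 93, .ofNat 1395⟩ 6 (.leaf 10 [12, 64]) (.s02 ⟨⟨.ofNat 526470, .ofNat 58880⟩, ⟨.ofNat 329406, .ofNat 23529⟩, ⟨.ofNat 171864, .ofNat 12276⟩, ⟨.ofNat 157542, .ofNat 11253⟩⟩ ⟨.negSucc 256, .ofNat 695⟩ ⟨.ofNat 11, .ofNat 22⟩ ⟨.ofNat 0, .ofNat 1⟩ 8 (.leaf 9 [64, 64, 8, 64]) (.leaf 10 [9, 64]))) (.s02 ⟨⟨.ofNat 161000, .ofNat 0⟩, ⟨.ofNat 88550, .ofNat 0⟩, ⟨.ofNat 45791, .ofNat 0⟩, ⟨.ofNat 42759, .ofNat 0⟩⟩ ⟨.negSucc 699, .ofNat 2450⟩ ⟨.ofNat 37, .ofNat 74⟩ ⟨.ofNat 1, .ofNat 15⟩ 9 (.s23 ⟨⟨.ofNat 526470, .ofNat 58880⟩, ⟨.ofNat 329406, .ofNat 23529⟩,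 ⟨.ofNat 171864, .ofNat 12276⟩, ⟨.ofNat 157542, .ofNat 11253⟩⟩ ⟨.ofNat 11, .ofNat 22⟩ ⟨.negSucc 256, .ofNat 695⟩ ⟨.ofNat 0, .ofNat 1⟩ 8 (.leaf 10 [0, 64, 43]) (.leaf 9 [7, 64, 8, 0])) (.leaf 10 [64, 1, 0, 64, 44])))))

theorem g15 : Good (PE lin H) ⟨⟨.ofNat 621, .ofNat 0⟩, ⟨.ofNat 299, .ofNat 0⟩, ⟨.ofNat 143, .ofNat 0⟩, ⟨.ofNat 156, .ofNat 0⟩⟩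
    ⟨⟨.ofNat 23, .ofNat 0⟩, ⟨.ofNat 12, .ofNat 12⟩, ⟨.ofNat 11, .ofNat 0⟩, ⟨.ofNat 12, .ofNat 0⟩⟩
    ⟨⟨.ofNat 25, .ofNat 0⟩, ⟨.ofNat 25, .ofNat 0⟩, ⟨.ofNat 16, .ofNat 0⟩, ⟨.ofNat 9, .ofNat 0⟩⟩
    ⟨⟨.ofNat 23, .ofNat 0⟩, ⟨.ofNat 23, .ofNat 0⟩, ⟨.ofNat 11, .ofNat 0⟩, ⟨.ofNat 12, .ofNat 0⟩⟩ :=
  goodE lin H t15 11 29 0 0 (by decide +kernel)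

end

end Pool.Agent.PHCert.E2
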