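import Pool.Agent.PHCert.E2H

/-!
# PHCert: inequality E2, part 4 (74 leaves, checked by the kernel)
-/

set_option autoImplicit false

namespace Pool.Agent.PHCert.E2

open Zp Pool.Agent.PHCert

noncomputable section

/-- part of a tree -/
def t16_1 : Tree := .s23 ⟨⟨.ofNat 1, .ofNat 2⟩, ⟨.ofNat 1, .ofNat 2⟩, ⟨.ofNat 3, .ofNat 0⟩, ⟨.negSucc 1, .ofNat 2⟩⟩ ⟨.ofNat 21, .negSucc 4⟩ ⟨.ofNat 0, .ofNat 2⟩ ⟨.ofNat 7, .ofNat 7⟩ 0 (.s12 ⟨⟨.ofNat 15897, .ofNat 1611⟩, ⟨.ofNat 11823, .ofNat 5069⟩, ⟨.ofNat 9009, .ofNat 2171⟩, ⟨.ofNat 6888, .negSucc 559⟩⟩ ⟨.ofNat 47, .negSucc 25⟩ ⟨.ofNat 1680, .ofNat 140⟩ ⟨.negSucc 0, .ofNat 1⟩ 26 (.s02 ⟨⟨.ofNat 456525, .ofNat 155395⟩, ⟨.ofNat 287475, .ofNat 195645⟩, ⟨.ofNat 241800,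 .ofNat 114088⟩, ⟨.ofNat 45675, .ofNat 81557⟩⟩ ⟨.negSucc 72, .ofNat 47⟩ ⟨.ofNat 14159, .ofNat 3229⟩ ⟨.negSucc 2, .ofNat 2⟩ 1 (.s23 ⟨⟨.ofNat 22, .ofNat 0⟩, ⟨.ofNat 22, .ofNat 0⟩, ⟨.ofNat 15, .ofNat 0⟩, ⟨.ofNat 7, .ofNat 0⟩⟩ ⟨.ofNat 14, .ofNat 28⟩ ⟨.negSucc 8, .ofNat 12⟩ ⟨.negSucc 4, .ofNat 16⟩ 0 (.leaf 6 [64, 19]) (.leaf 5 [55, 0])) (.s03 ⟨⟨.negSucc 1135, .ofNat 114699⟩, ⟨.ofNat 103514, .ofNat 30174⟩, ⟨.ofNat 26243, .ofNat 47562⟩, ⟨.ofNat 77271, .negSucc 17387⟩⟩ ⟨.negSucc 4, .ofNat 16⟩ ⟨.ofNat 11349, .ofNat 4824⟩ ⟨.ofNat 2, .ofNat 2⟩ 2 (.leaf 6 [64, 19]) (.leaf 5 [39, 0, 0]))) (.s03 ⟨⟨.negSucc 1135, .ofNat 114699⟩, ⟨.ofNat 103514, .ofNat 30174⟩, ⟨.ofNat 26243, .ofNat 47562⟩, ⟨.ofNat 77271, .negSucc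 17387⟩⟩ ⟨.negSucc 4, .ofNat 16⟩ ⟨.ofNat 11349, .ofNat 4824⟩ ⟨.ofNat 2, .ofNat 2⟩ 2 (.leaf 6 [56, 0, 64]) (.leaf 5 [49, 64, 0, 0, 0]))) (.s12 ⟨⟨.negSucc 180, .ofNat 337⟩, ⟨.ofNat 141, .ofNat 183⟩, ⟨.negSucc 12, .ofNat 169⟩, ⟨.negSucc 167, .ofNat 168⟩⟩ ⟨.ofNat 1, .ofNat 0⟩ ⟨.ofNat 240, .ofNat 20⟩ ⟨.ofNat 1, .ofNat 1⟩ 28 (.s02 ⟨⟨.negSucc 74894, .ofNat 132855⟩, ⟨.negSucc 18544, .ofNat 76505⟩, ⟨.negSucc 30367, .ofNat 68042⟩, ⟨.ofNat 11823, .ofNat 8463⟩⟩ ⟨.negSucc 6, .ofNat 7⟩ ⟨.ofNat 14159, .ofNat 3229⟩ ⟨.ofNat 1, .ofNat 0⟩ 3 (.s23 ⟨⟨.ofNat 17, .ofNat 0⟩, ⟨.ofNat 17, .ofNat 0⟩, ⟨.ofNat 14, .ofNat 0⟩, ⟨.ofNat 3, .ofNat 0⟩⟩ ⟨.negSucc 8, .ofNat 19⟩ ⟨.ofNat 3, .ofNat 3⟩ ⟨.ofNat 0, .ofNat 2⟩ 0 (.s23 ⟨⟨.ofNat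 9, .ofNat 0⟩, ⟨.ofNat 9, .ofNat 0⟩, ⟨.ofNat 7, .ofNat 0⟩, ⟨.ofNat 2, .ofNat 0⟩⟩ ⟨.negSucc 5, .ofNat 8⟩ ⟨.ofNat 7, .ofNat 7⟩ ⟨.negSucc 8, .ofNat 19⟩ 0 (.s23 ⟨⟨.ofNat 11, .ofNat 0⟩, ⟨.ofNat 11, .ofNat 0⟩, ⟨.ofNat 8, .ofNat 0⟩, ⟨.ofNat 3, .ofNat 0⟩⟩ ⟨.ofNat 7, .negSucc 1⟩ ⟨.ofNat 5, .ofNat 10⟩ ⟨.ofNat 8, .ofNat 2⟩ 0 (.s03 ⟨⟨.negSucc 627038, .ofNat 1102047⟩, ⟨.negSucc 119888, .ofNat 707597⟩, ⟨.negSucc 87191, .ofNat 514616⟩, ⟨.negSucc 32696, .ofNat 192981⟩⟩ ⟨.ofNat 7, .negSucc 1⟩ ⟨.ofNat 87156, .ofNat 37890⟩ ⟨.ofNat 1, .ofNat 0⟩ 1 (.leaf 5 [64]) (.leaf 4 [55])) (.leaf 4 [62])) (.leaf 3 [64])) (.leaf 3 [64, 64])) (.s03 ⟨⟨.ofNat 456525, .ofNat 155395⟩, ⟨.ofNat 287475, .ofNat 195645⟩, ⟨.ofNat 241800, .ofNat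 114088⟩, ⟨.ofNat 45675, .ofNat 81557⟩⟩ ⟨.negSucc 72, .ofNat 47⟩ ⟨.ofNat 14159, .ofNat 3229⟩ ⟨.negSucc 2, .ofNat 2⟩ 1 (.s23 ⟨⟨.negSucc 627038, .ofNat 1102047⟩, ⟨.negSucc 119888, .ofNat 707597⟩, ⟨.negSucc 87191, .ofNat 514616⟩, ⟨.negSucc 32696, .ofNat 192981⟩⟩ ⟨.ofNat 7, .negSucc 1⟩ ⟨.ofNat 87156, .ofNat 37890⟩ ⟨.ofNat 1, .ofNat 0⟩ 1 (.leaf 5 [62]) (.leaf 4 [64])) (.s02 ⟨⟨.ofNat 14340, .negSucc 1856⟩, ⟨.negSucc 1759, .ofNat 6193⟩, ⟨.negSucc 1279, .ofNat 4504⟩, ⟨.negSucc 479, .ofNat 1689⟩⟩ ⟨.ofNat 45474, .negSucc 16421⟩ ⟨.ofNat 4830, .negSucc 1204⟩ ⟨.ofNat 20617, .ofNat 38005⟩ 3 (.leaf 4 [64, 64]) (.leaf 5 [28, 64])))) (.s13 ⟨⟨.ofNat 15897, .ofNat 1611⟩, ⟨.ofNat 11823, .ofNat 5069⟩, ⟨.ofNat 9009, .ofNat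 2171⟩, ⟨.ofNat 6888, .negSucc 559⟩⟩ ⟨.ofNat 47, .negSucc 25⟩ ⟨.ofNat 1680, .ofNat 140⟩ ⟨.negSucc 0, .ofNat 1⟩ 26 (.s03 ⟨⟨.ofNat 456525, .ofNat 155395⟩, ⟨.ofNat 287475, .ofNat 195645⟩, ⟨.ofNat 241800, .ofNat 114088⟩, ⟨.ofNat 45675, .ofNat 81557⟩⟩ ⟨.negSucc 72, .ofNat 47⟩ ⟨.ofNat 14159, .ofNat 3229⟩ ⟨.negSucc 2, .ofNat 2⟩ 1 (.leaf 5 [64, 13, 0]) (.leaf 5 [28, 64, 0, 0])) (.leaf 5 [49, 64, 0, 0, 0])))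

/-- part of a tree -/
def t16_0 : Tree := .s23 ⟨⟨.ofNat 20, .ofNat 0⟩, ⟨.ofNat 20, .ofNat 0⟩, ⟨.ofNat 13, .ofNat 0⟩, ⟨.ofNat 7, .ofNat 0⟩⟩ ⟨.ofNat 5, .ofNat 0⟩ ⟨.ofNat 7, .ofNat 0⟩ ⟨.ofNat 9, .ofNat 0⟩ 0 (.s03 ⟨⟨.negSucc 57959, .ofNat 231235⟩, ⟨.negSucc 57959, .ofNat 225485⟩, ⟨.negSucc 37673, .ofNat 145559⟩, ⟨.negSucc 20285, .ofNat 79926⟩⟩ ⟨.ofNat 0, .ofNat 5⟩ ⟨.negSucc 17387, .ofNat 59883⟩ ⟨.ofNat 7, .ofNat 0⟩ 0 (.leaf 6 [58, 0]) (.s03 ⟨⟨.ofNat 1538, .ofNat 43983⟩, ⟨.ofNat 38338, .ofNat 12933⟩, ⟨.ofNat 9706, .ofNat 18729⟩, ⟨.ofNat 28632, .negSucc 5795⟩⟩ ⟨.negSucc 39315, .ofNat 65726⟩ ⟨.negSucc 2174, .ofNat 3783⟩ ⟨.ofNat 19961, .ofNat 14165⟩ 2 (.leaf 6 [58, 0, 64]) (.s02 ⟨⟨.negSucc 1135, .ofNat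 114699⟩, ⟨.ofNat 103514, .ofNat 30174⟩, ⟨.ofNat 26243, .ofNat 47562⟩, ⟨.ofNat 77271, .negSucc 17387⟩⟩ ⟨.negSucc 4, .ofNat 16⟩ ⟨.ofNat 11349, .ofNat 4824⟩ ⟨.ofNat 2, .ofNat 2⟩ 2 (.leaf 6 [56, 0, 64]) (.leaf 5 [49, 64, 0, 0, 0])))) t16_1

/-- part of a tree -/
def t16 : Tree := .s12 ⟨⟨.negSucc 83, .ofNat 473⟩, ⟨.ofNat 84, .ofNat 487⟩, ⟨.negSucc 83, .ofNat 305⟩, ⟨.ofNat 0, .ofNat 168⟩⟩ ⟨.ofNat 14, .ofNat 14⟩ ⟨.ofNat 151, .ofNat 67⟩ ⟨.ofNat 0, .ofNat 1⟩ 29 t16_0 (.s01 ⟨⟨.negSucc 1480163, .ofNat 5939168⟩, ⟨.ofNat 1015764, .ofNat 4426072⟩, ⟨.negSucc 722693, .ofNat 2909701⟩, ⟨.negSucc 81269, .ofNat 1813917⟩⟩ ⟨.negSucc 83, .ofNat 151⟩ ⟨.negSucc 34775, .ofNat 119766⟩ ⟨.ofNat 1, .ofNat 0⟩ 26 (.leaf 7 [64,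 64, 64, 3, 0]) (.s03 ⟨⟨.negSucc 57959, .ofNat 231235⟩, ⟨.negSucc 57959, .ofNat 225485⟩, ⟨.negSucc 37673, .ofNat 145559⟩, ⟨.negSucc 20285, .ofNat 79926⟩⟩ ⟨.ofNat 0, .ofNat 5⟩ ⟨.negSucc 17387, .ofNat 59883⟩ ⟨.ofNat 7, .ofNat 0⟩ 0 (.leaf 6 [56, 64, 0]) (.s03 ⟨⟨.ofNat 1538, .ofNat 43983⟩, ⟨.ofNat 38338, .ofNat 12933⟩, ⟨.ofNat 9706, .ofNat 18729⟩, ⟨.ofNat 28632, .negSucc 5795⟩⟩ ⟨.negSucc 39315, .ofNat 65726⟩ ⟨.negSucc 2174, .ofNat 3783⟩ ⟨.ofNat 19961, .ofNat 14165⟩ 2 (.leaf 6 [55, 64, 0, 64]) (.leaf 5 [64, 64, 25, 0, 2, 0]))))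

theorem g16 : Good (PE lin H) ⟨⟨.ofNat 18518, .ofNat 5796⟩, ⟨.ofNat 10468, .ofNat 5796⟩, ⟨.ofNat 9259, .ofNat 2898⟩, ⟨.ofNat 1209, .ofNat 2898⟩⟩
    ⟨⟨.ofNat 23, .ofNat 0⟩, ⟨.ofNat 12, .ofNat 12⟩, ⟨.ofNat 11, .ofNat 0⟩, ⟨.ofNat 12, .ofNat 0⟩⟩
    ⟨⟨.ofNat 1, .ofNat 0⟩, ⟨.ofNat 1, .ofNat 0⟩, ⟨.ofNat 1, .ofNat 0⟩, ⟨.ofNat 0, .ofNat 0⟩⟩
    ⟨⟨.ofNat 25, .ofNat 0⟩, ⟨.ofNat 25, .ofNat 0⟩, ⟨.ofNat 16, .ofNat 0⟩, ⟨.ofNat 9, .ofNat 0⟩⟩ :=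
  goodE lin H t16 4 29 0 0 (by decide +kernel)

/-- part of a tree -/
def t17 : Tree := .s12 ⟨⟨.negSucc 1480163, .ofNat 5939168⟩, ⟨.ofNat 1015764, .ofNat 4426072⟩, ⟨.negSucc 722693, .ofNat 2909701⟩, ⟨.negSucc 81269, .ofNat 1813917⟩⟩ ⟨.negSucc 34775, .ofNat 119766⟩ ⟨.negSucc 83, .ofNat 151⟩ ⟨.ofNat 1, .ofNat 0⟩ 26 (.s23 ⟨⟨.negSucc 57959, .ofNat 231235⟩, ⟨.negSucc 57959, .ofNat 225485⟩, ⟨.negSucc 37673, .ofNat 145559⟩, ⟨.negSucc 20285, .ofNat 79926⟩⟩ ⟨.ofNat 0, .ofNat 5⟩ ⟨.negSucc 17387, .ofNat 59883⟩ ⟨.ofNat 7, .ofNat 0⟩ 0 (.s03 ⟨⟨.negSucc 188099, .ofNat 691285⟩, ⟨.negSucc 188099, .ofNat 651035⟩, ⟨.negSucc 122264, .ofNat 416129⟩, ⟨.negSucc 65834, .ofNat 234906⟩⟩ ⟨.ofNat 0, .ofNat 5⟩ ⟨.negSucc 56429,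 .ofNat 140973⟩ ⟨.ofNat 7, .ofNat 0⟩ 0 (.leaf 6 [64, 64]) (.leaf 6 [64, 64])) (.s23 ⟨⟨.ofNat 1538, .ofNat 43983⟩, ⟨.ofNat 38338, .ofNat 12933⟩, ⟨.ofNat 9706, .ofNat 18729⟩, ⟨.ofNat 28632, .negSucc 5795⟩⟩ ⟨.negSucc 39315, .ofNat 65726⟩ ⟨.negSucc 2174, .ofNat 3783⟩ ⟨.ofNat 19961, .ofNat 14165⟩ 2 (.leaf 6 [64, 61, 64]) (.s12 ⟨⟨.ofNat 23197, .ofNat 346508⟩, ⟨.ofNat 224324, .ofNat 160144⟩, ⟨.ofNat 23798, .ofNat 164317⟩, ⟨.negSucc 282350, .ofNat 270741⟩⟩ ⟨.negSucc 2174, .ofNat 3783⟩ ⟨.negSucc 513154, .ofNat 1401382⟩ ⟨.ofNat 28330, .ofNat 68252⟩ 2 (.s02 ⟨⟨.ofNat 4, .ofNat 2⟩, ⟨.negSucc 0, .ofNat 4⟩, ⟨.ofNat 2, .ofNat 1⟩, ⟨.negSucc 2, .ofNat 3⟩⟩ ⟨.ofNat 1986, .negSucc 724⟩ ⟨.negSucc 30250, .ofNat 22949⟩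 ⟨.negSucc 9732449, .ofNat 41473600⟩ 3 (.s02 ⟨⟨.ofNat 30, .ofNat 0⟩, ⟨.ofNat 22, .ofNat 0⟩, ⟨.ofNat 15, .ofNat 0⟩, ⟨.ofNat 7, .ofNat 0⟩⟩ ⟨.ofNat 310, .ofNat 23804⟩ ⟨.ofNat 17, .negSucc 3⟩ ⟨.ofNat 11349, .ofNat 4824⟩ 3 (.leaf 5 [36, 64]) (.leaf 6 [30, 46])) (.leaf 6 [26, 50])) (.leaf 6 [64, 30, 64])))) (.s01 ⟨⟨.negSucc 20261885, .ofNat 44607752⟩, ⟨.negSucc 10903673, .ofNat 35026528⟩, ⟨.negSucc 10074512, .ofNat 22162903⟩, ⟨.negSucc 5453972, .ofNat 13935999⟩⟩ ⟨.negSucc 83, .ofNat 151⟩ ⟨.negSucc 112859, .ofNat 281946⟩ ⟨.ofNat 1, .ofNat 0⟩ 1 (.leaf 7 [64, 64, 64, 3, 0]) (.s03 ⟨⟨.negSucc 188099, .ofNat 691285⟩, ⟨.negSucc 188099, .ofNat 651035⟩, ⟨.negSucc 122264, .ofNat 416129⟩, ⟨.negSucc 65834, .ofNat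 234906⟩⟩ ⟨.ofNat 0, .ofNat 5⟩ ⟨.negSucc 56429, .ofNat 140973⟩ ⟨.ofNat 7, .ofNat 0⟩ 0 (.leaf 7 [63, 64]) (.leaf 7 [62, 64])))

theorem g17 : Good (PE lin H) ⟨⟨.ofNat 244124, .ofNat 18810⟩, ⟨.ofNat 187774, .ofNat 18810⟩, ⟨.ofNat 122062, .ofNat 9405⟩, ⟨.ofNat 65712, .ofNat 9405⟩⟩
    ⟨⟨.ofNat 23, .ofNat 0⟩, ⟨.ofNat 12, .ofNat 12⟩, ⟨.ofNat 11, .ofNat 0⟩, ⟨.ofNat 12, .ofNat 0⟩⟩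
    ⟨⟨.ofNat 18518, .ofNat 5796⟩, ⟨.ofNat 10468, .ofNat 5796⟩, ⟨.ofNat 9259, .ofNat 2898⟩, ⟨.ofNat 1209, .ofNat 2898⟩⟩
    ⟨⟨.ofNat 25, .ofNat 0⟩, ⟨.ofNat 25, .ofNat 0⟩, ⟨.ofNat 16, .ofNat 0⟩, ⟨.ofNat 9, .ofNat 0⟩⟩ :=
  goodE lin H t17 2 29 4 0 (by decide +kernel)

/-- part of a tree -/
def t18_3 : Tree := .s03 ⟨⟨.ofNat 1427851500, .ofNat 44240500⟩, ⟨.ofNat 999496050, .ofNat 30968350⟩, ⟨.ofNat 653270055, .ofNat 9518272⟩, ⟨.ofNat 346225995, .ofNat 21450078⟩⟩ ⟨.ofNat 35872, .ofNat 87058⟩ ⟨.negSucc 44999, .ofNat 31275⟩ ⟨.negSucc 6, .ofNat 7⟩ 4 (.s03 ⟨⟨.negSucc 518051999, .ofNat 1748814200⟩, ⟨.negSucc 388538999, .ofNat 1311610650⟩, ⟨.negSucc 269554112, .ofNat 844438203⟩, ⟨.negSucc 118984886, .ofNat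 467172447⟩⟩ ⟨.ofNat 9362, .ofNat 9405⟩ ⟨.ofNat 142785150, .ofNat 4424050⟩ ⟨.negSucc 7656, .ofNat 25593⟩ 3 (.s23 ⟨⟨.ofNat 32, .ofNat 0⟩, ⟨.ofNat 25, .ofNat 0⟩, ⟨.ofNat 16, .ofNat 0⟩, ⟨.ofNat 9, .ofNat 0⟩⟩ ⟨.ofNat 6223, .ofNat 28168⟩ ⟨.ofNat 9, .negSucc 3⟩ ⟨.ofNat 68847, .negSucc 21905⟩ 3 (.leaf 7 []) (.s02 ⟨⟨.ofNat 11624694050, .ofNat 677601100⟩, ⟨.ofNat 8913460925, .ofNat 400298575⟩, ⟨.ofNat 5704614992, .ofNat 256191088⟩, ⟨.ofNat 3208845933, .ofNat 144107487⟩⟩ ⟨.negSucc 12, .ofNat 9⟩ ⟨.negSucc 41728224, .ofNat 132348050⟩ ⟨.ofNat 2, .negSucc 0⟩ 3 (.leaf 6 [21]) (.leaf 7 []))) (.s23 ⟨⟨.ofNat 11624694050, .ofNat 677601100⟩, ⟨.ofNat 8913460925, .ofNat 400298575⟩, ⟨.ofNat 5704614992, .ofNat 256191088⟩,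 ⟨.ofNat 3208845933, .ofNat 144107487⟩⟩ ⟨.negSucc 41728224, .ofNat 132348050⟩ ⟨.negSucc 12, .ofNat 9⟩ ⟨.ofNat 2, .negSucc 0⟩ 3 (.leaf 7 [2, 64]) (.s01 ⟨⟨.ofNat 16006096248600, .ofNat 2200792393400⟩, ⟨.ofNat 8485863706758, .ofNat 4473435927934⟩, ⟨.ofNat 7709090470407, .ofNat 1032188550954⟩, ⟨.ofNat 4295481716043, .ofNat 618405744096⟩⟩ ⟨.ofNat 2657, .ofNat 966⟩ ⟨.ofNat 11422812, .ofNat 353924⟩ ⟨.ofNat 1, .ofNat 0⟩ 2 (.leaf 6 [21]) (.s02 ⟨⟨.ofNat 4015680400, .ofNat 712710200⟩, ⟨.ofNat 3011760300, .ofNat 534532650⟩, ⟨.ofNat 1899130788, .ofNat 404408817⟩, ⟨.ofNat 1112629512, .ofNat 130123833⟩⟩ ⟨.negSucc 7, .ofNat 5⟩ ⟨.ofNat 142785150, .ofNat 4424050⟩ ⟨.negSucc 2, .ofNat 2⟩ 3 (.leaf 6 [19]) (.s02 ⟨⟨.ofNat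 7486299850, .ofNat 2291762550⟩, ⟨.ofNat 5355108550, .ofNat 1577521425⟩, ⟨.ofNat 3427269472, .ofNat 1009613712⟩, ⟨.ofNat 1927839078, .ofNat 567907713⟩⟩ ⟨.ofNat 20769307, .ofNat 11304039⟩ ⟨.ofNat 3433824, .negSucc 1097036⟩ ⟨.ofNat 5711406, .ofNat 176962⟩ 4 (.leaf 6 [6, 31]) (.leaf 7 [2, 64])))))) (.s01 ⟨⟨.ofNat 322000, .ofNat 0⟩, ⟨.ofNat 129541, .ofNat 63738⟩, ⟨.ofNat 144256, .ofNat 0⟩, ⟨.ofNat 81144, .ofNat 0⟩⟩ ⟨.ofNat 2898, .ofNat 30833⟩ ⟨.negSucc 8450, .ofNat 5553⟩ ⟨.negSucc 28090, .ofNat 21329⟩ 4 (.s13 ⟨⟨.ofNat 16006096248600, .ofNat 2200792393400⟩, ⟨.ofNat 8485863706758, .ofNat 4473435927934⟩, ⟨.ofNat 7709090470407, .ofNat 1032188550954⟩, ⟨.ofNat 4295481716043, .ofNat 618405744096⟩⟩ ⟨.ofNat 11422812,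 .ofNat 353924⟩ ⟨.ofNat 2657, .ofNat 966⟩ ⟨.ofNat 1, .ofNat 0⟩ 2 (.s23 ⟨⟨.ofNat 4015680400, .ofNat 712710200⟩, ⟨.ofNat 3011760300, .ofNat 534532650⟩, ⟨.ofNat 1899130788, .ofNat 404408817⟩, ⟨.ofNat 1112629512, .ofNat 130123833⟩⟩ ⟨.ofNat 142785150, .ofNat 4424050⟩ ⟨.negSucc 7, .ofNat 5⟩ ⟨.negSucc 2, .ofNat 2⟩ 3 (.s23 ⟨⟨.ofNat 7486299850, .ofNat 2291762550⟩, ⟨.ofNat 5355108550, .ofNat 1577521425⟩, ⟨.ofNat 3427269472, .ofNat 1009613712⟩, ⟨.ofNat 1927839078, .ofNat 567907713⟩⟩ ⟨.ofNat 3433824, .negSucc 1097036⟩ ⟨.ofNat 20769307, .ofNat 11304039⟩ ⟨.ofNat 5711406, .ofNat 176962⟩ 4 (.leaf 7 [0]) (.leaf 6 [0])) (.leaf 6 [58, 0])) (.leaf 6 [58, 0])) (.s02 ⟨⟨.ofNat 14950, .ofNat 76100⟩, ⟨.ofNat 10465, .ofNat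 53270⟩, ⟨.ofNat 35566, .ofNat 16721⟩, ⟨.negSucc 25100, .ofNat 36549⟩⟩ ⟨.ofNat 2, .ofNat 2⟩ ⟨.negSucc 1979, .ofNat 7785⟩ ⟨.ofNat 0, .ofNat 1⟩ 4 (.s23 ⟨⟨.ofNat 4015680400, .ofNat 712710200⟩, ⟨.ofNat 3011760300, .ofNat 534532650⟩, ⟨.ofNat 1899130788, .ofNat 404408817⟩, ⟨.ofNat 1112629512, .ofNat 130123833⟩⟩ ⟨.ofNat 142785150, .ofNat 4424050⟩ ⟨.negSucc 7, .ofNat 5⟩ ⟨.negSucc 2, .ofNat 2⟩ 3 (.s23 ⟨⟨.ofNat 7486299850, .ofNat 2291762550⟩, ⟨.ofNat 5355108550, .ofNat 1577521425⟩, ⟨.ofNat 3427269472, .ofNat 1009613712⟩, ⟨.ofNat 1927839078, .ofNat 567907713⟩⟩ ⟨.ofNat 3433824, .negSucc 1097036⟩ ⟨.ofNat 20769307, .ofNat 11304039⟩ ⟨.ofNat 5711406, .ofNat 176962⟩ 4 (.s03 ⟨⟨.ofNat 250, .ofNat 0⟩, ⟨.ofNat 175, .ofNat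 0⟩, ⟨.ofNat 112, .ofNat 0⟩, ⟨.ofNat 63, .ofNat 0⟩⟩ ⟨.ofNat 5802, .ofNat 12961⟩ ⟨.ofNat 5, .ofNat 1⟩ ⟨.ofNat 33026280, .ofNat 13259703⟩ 4 (.leaf 7 []) (.leaf 6 [52])) (.leaf 6 [52])) (.leaf 6 [20, 0])) (.s23 ⟨⟨.ofNat 250, .ofNat 0⟩, ⟨.ofNat 175, .ofNat 0⟩, ⟨.ofNat 112, .ofNat 0⟩, ⟨.ofNat 63, .ofNat 0⟩⟩ ⟨.ofNat 5802, .ofNat 12961⟩ ⟨.ofNat 5, .ofNat 1⟩ ⟨.ofNat 33026280, .ofNat 13259703⟩ 4 (.leaf 7 [57]) (.leaf 6 [50]))))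

/-- part of a tree -/
def t18_2 : Tree := .s23 ⟨⟨.ofNat 4, .ofNat 2⟩, ⟨.negSucc 0, .ofNat 4⟩, ⟨.ofNat 2, .ofNat 1⟩, ⟨.negSucc 2, .ofNat 3⟩⟩ ⟨.negSucc 30250, .ofNat 22949⟩ ⟨.ofNat 1986, .negSucc 724⟩ ⟨.negSucc 9732449, .ofNat 41473600⟩ 3 t18_3 (.s03 ⟨⟨.ofNat 14950, .ofNat 76100⟩, ⟨.ofNat 10465, .ofNat 53270⟩, ⟨.ofNat 35566, .ofNat 16721⟩, ⟨.negSucc 25100, .ofNat 36549⟩⟩ ⟨.ofNat 2, .ofNat 2⟩ ⟨.negSucc 1979, .ofNat 7785⟩ ⟨.ofNat 0, .ofNat 1⟩ 4 (.s12 ⟨⟨.ofNat 2980948, .ofNat 63756⟩, ⟨.ofNat 1360132, .ofNat 600708⟩, ⟨.ofNat 1467135, .ofNat 43470⟩, ⟨.ofNat 684663, .ofNat 20286⟩⟩ ⟨.negSucc 23183, .ofNat 23494⟩ ⟨.ofNat 22218, .ofNat 772087⟩ ⟨.negSucc 6761, .ofNat 14567⟩ 3 (.s02 ⟨⟨.negSucc 1849950797, .ofNat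 6449982142⟩, ⟨.negSucc 398372237, .ofNat 3998109522⟩, ⟨.negSucc 271617434, .ofNat 2725983765⟩, ⟨.negSucc 126754802, .ofNat 1272125757⟩⟩ ⟨.ofNat 310, .ofNat 23804⟩ ⟨.ofNat 236899, .ofNat 42610⟩ ⟨.ofNat 0, .ofNat 1⟩ 4 (.s23 ⟨⟨.ofNat 30, .ofNat 0⟩, ⟨.ofNat 22, .ofNat 0⟩, ⟨.ofNat 15, .ofNat 0⟩, ⟨.ofNat 7, .ofNat 0⟩⟩ ⟨.ofNat 17, .negSucc 3⟩ ⟨.ofNat 310, .ofNat 23804⟩ ⟨.ofNat 11349, .ofNat 4824⟩ 3 (.leaf 6 [26]) (.leaf 5 [])) (.leaf 6 [20])) (.leaf 6 [20, 0, 0])) (.s02 ⟨⟨.ofNat 102140, .negSucc 19191⟩, ⟨.negSucc 10559, .ofNat 37158⟩, ⟨.negSucc 7199, .ofNat 25335⟩, ⟨.negSucc 3359, .ofNat 11823⟩⟩ ⟨.ofNat 23494, .ofNat 310⟩ ⟨.ofNat 9269, .ofNat 22218⟩ ⟨.ofNat 14567, .ofNat 7805⟩ 4 (.s12 ⟨⟨.ofNat 2980948,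 .ofNat 63756⟩, ⟨.ofNat 1360132, .ofNat 600708⟩, ⟨.ofNat 1467135, .ofNat 43470⟩, ⟨.ofNat 684663, .ofNat 20286⟩⟩ ⟨.negSucc 23183, .ofNat 23494⟩ ⟨.ofNat 22218, .ofNat 772087⟩ ⟨.negSucc 6761, .ofNat 14567⟩ 3 (.s23 ⟨⟨.negSucc 1849950797, .ofNat 6449982142⟩, ⟨.negSucc 398372237, .ofNat 3998109522⟩, ⟨.negSucc 271617434, .ofNat 2725983765⟩, ⟨.negSucc 126754802, .ofNat 1272125757⟩⟩ ⟨.ofNat 236899, .ofNat 42610⟩ ⟨.ofNat 310, .ofNat 23804⟩ ⟨.ofNat 0, .ofNat 1⟩ 4 (.leaf 6 [49]) (.leaf 5 [64])) (.leaf 6 [47, 0, 0, 0])) (.leaf 6 [7, 0, 3, 0])))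

/-- part of a tree -/
def t18_1 : Tree := .s02 ⟨⟨.ofNat 44300, .negSucc 10074⟩, ⟨.negSucc 3999, .ofNat 14075⟩, ⟨.negSucc 2559, .ofNat 9008⟩, ⟨.negSucc 1439, .ofNat 5067⟩⟩ ⟨.negSucc 6761, .ofNat 14567⟩ ⟨.negSucc 2245, .ofNat 3135⟩ ⟨.ofNat 5152, .ofNat 3943⟩ 4 t18_2 (.s03 ⟨⟨.ofNat 2012500, .ofNat 0⟩, ⟨.ofNat 1408750, .ofNat 0⟩, ⟨.ofNat 921814, .negSucc 28214⟩, ⟨.ofNat 486936, .ofNat 28215⟩⟩ ⟨.ofNat 38, .ofNat 56316⟩ ⟨.ofNat 17921, .negSucc 9733⟩ ⟨.ofNat 2423, .negSucc 907⟩ 4 (.s23 ⟨⟨.ofNat 1427851500, .ofNat 44240500⟩, ⟨.ofNat 999496050, .ofNat 30968350⟩, ⟨.ofNat 653270055, .ofNat 9518272⟩, ⟨.ofNat 346225995, .ofNat 21450078⟩⟩ ⟨.ofNat 35872, .ofNat 87058⟩ ⟨.negSucc 44999, .ofNat 31275⟩ ⟨.negSucc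 6, .ofNat 7⟩ 4 (.leaf 7 [4, 64]) (.leaf 7 [0, 0, 58, 0])) (.leaf 7 [0, 0, 58, 0]))

/-- part of a tree -/
def t18_0 : Tree := .s12 ⟨⟨.ofNat 1064625, .ofNat 24150⟩, ⟨.ofNat 499312, .ofNat 273336⟩, ⟨.ofNat 521648, .ofNat 15456⟩, ⟨.ofNat 293427, .ofNat 8694⟩⟩ ⟨.negSucc 6761, .ofNat 14567⟩ ⟨.ofNat 4830, .ofNat 167845⟩ ⟨.negSucc 2897, .ofNat 11993⟩ 1 t18_1 (.s01 ⟨⟨.negSucc 6728189999, .ofNat 28011343500⟩, ⟨.ofNat 3509085771, .ofNat 15389301578⟩, ⟨.negSucc 2876266193, .ofNat 12004383099⟩, ⟨.negSucc 1833466805, .ofNat 7603557351⟩⟩ ⟨.ofNat 43470, .ofNat 721705⟩ ⟨.ofNat 44029, .negSucc 21014⟩ ⟨.negSucc 0, .ofNat 1⟩ 3 (.leaf 7 [55, 64]) (.s03 ⟨⟨.ofNat 2012500, .ofNat 0⟩, ⟨.ofNat 1408750, .ofNat 0⟩, ⟨.ofNat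 921814, .negSucc 28214⟩, ⟨.ofNat 486936, .ofNat 28215⟩⟩ ⟨.ofNat 38, .ofNat 56316⟩ ⟨.ofNat 17921, .negSucc 9733⟩ ⟨.ofNat 2423, .negSucc 907⟩ 4 (.leaf 7 [17]) (.leaf 7 [4, 0])))

/-- part of a tree -/
def t18 : Tree := .s12 ⟨⟨.ofNat 601745, .ofNat 14490⟩, ⟨.ofNat 290468, .ofNat 190284⟩, ⟨.ofNat 293427, .ofNat 8694⟩, ⟨.ofNat 195618, .ofNat 5796⟩⟩ ⟨.negSucc 2897, .ofNat 11993⟩ ⟨.ofNat 0, .ofNat 14⟩ ⟨.ofNat 0, .ofNat 1⟩ 0 t18_0 (.s01 ⟨⟨.ofNat 50712, .ofNat 34059⟩, ⟨.ofNat 50712, .ofNat 34059⟩, ⟨.ofNat 55797, .negSucc 5637⟩, ⟨.ofNat 67365, .negSucc 16652⟩⟩ ⟨.negSucc 1, .ofNat 5⟩ ⟨.negSucc 1609, .ofNat 3220⟩ ⟨.ofNat 0, .ofNat 1⟩ 0 (.s13 ⟨⟨.ofNat 9405, .ofNat 1427517⟩, ⟨.ofNat 3323348, .negSucc 600253⟩,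 ⟨.ofNat 122062, .ofNat 629255⟩, ⟨.negSucc 1408706, .ofNat 1418112⟩⟩ ⟨.ofNat 103295, .ofNat 37583⟩ ⟨.ofNat 1, .ofNat 13⟩ ⟨.ofNat 1, .ofNat 2⟩ 26 (.leaf 7 [64, 15]) (.leaf 9 [64, 43, 64, 0])) (.s01 ⟨⟨.negSucc 370299, .ofNat 740600⟩, ⟨.ofNat 91023, .ofNat 325287⟩, ⟨.negSucc 115968, .ofNat 284156⟩, ⟨.negSucc 143240, .ofNat 234264⟩⟩ ⟨.negSucc 46009, .ofNat 369303⟩ ⟨.ofNat 23014, .ofNat 1999⟩ ⟨.ofNat 0, .ofNat 8050⟩ 3 (.leaf 7 [64, 64, 15]) (.s02 ⟨⟨.negSucc 6728189999, .ofNat 28011343500⟩, ⟨.ofNat 3509085771, .ofNat 15389301578⟩, ⟨.negSucc 2876266193, .ofNat 12004383099⟩, ⟨.negSucc 1833466805, .ofNat 7603557351⟩⟩ ⟨.ofNat 43470, .ofNat 721705⟩ ⟨.ofNat 44029, .negSucc 21014⟩ ⟨.negSucc 0, .ofNat 1⟩ 3 (.leaf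 7 [52, 64]) (.s03 ⟨⟨.ofNat 2012500, .ofNat 0⟩, ⟨.ofNat 1408750, .ofNat 0⟩, ⟨.ofNat 921814, .negSucc 28214⟩, ⟨.ofNat 486936, .ofNat 28215⟩⟩ ⟨.ofNat 38, .ofNat 56316⟩ ⟨.ofNat 17921, .negSucc 9733⟩ ⟨.ofNat 2423, .negSucc 907⟩ 4 (.leaf 7 [17]) (.leaf 7 [])))))

theorem g18 : Good (PE lin H) ⟨⟨.negSucc 5151, .ofNat 12157⟩, ⟨.ofNat 2898, .ofNat 4107⟩, ⟨.ofNat 1209, .ofNat 2898⟩, ⟨.ofNat 1689, .ofNat 1209⟩⟩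
    ⟨⟨.ofNat 23, .ofNat 0⟩, ⟨.ofNat 12, .ofNat 12⟩, ⟨.ofNat 11, .ofNat 0⟩, ⟨.ofNat 12, .ofNat 0⟩⟩
    ⟨⟨.ofNat 18518, .ofNat 5796⟩, ⟨.ofNat 10468, .ofNat 5796⟩, ⟨.ofNat 9259, .ofNat 2898⟩, ⟨.ofNat 1209, .ofNat 2898⟩⟩
    ⟨⟨.ofNat 244124, .ofNat 18810⟩, ⟨.ofNat 187774, .ofNat 18810⟩, ⟨.ofNat 122062, .ofNat 9405⟩, ⟨.ofNat 65712, .ofNat 9405⟩⟩ :=
  goodE lin H t18 5 29 4 2 (by decide +kernel)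

end

end Pool.Agent.PHCert.E2
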