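import Pool.Agent.PHCert.E2H

/-!
# PHCert: inequality E2, part 5 (68 leaves, checked by the kernel)
-/

set_option autoImplicit false

namespace Pool.Agent.PHCert.E2

open Zp Pool.Agent.PHCert

noncomputable section

/-- part of a tree -/
def t21_0 : Tree := .s03 ⟨⟨.ofNat 917, .ofNat 29⟩, ⟨.ofNat 273, .ofNat 351⟩, ⟨.ofNat 78, .ofNat 273⟩, ⟨.ofNat 195, .ofNat 78⟩⟩ ⟨.ofNat 0, .ofNat 1⟩ ⟨.ofNat 273, .ofNat 29⟩ ⟨.ofNat 7, .ofNat 14⟩ 1 (.s23 ⟨⟨.ofNat 244124, .ofNat 18810⟩, ⟨.ofNat 187774, .ofNat 18810⟩, ⟨.ofNat 122062, .ofNat 9405⟩, ⟨.ofNat 65712, .ofNat 9405⟩⟩ ⟨.ofNat 7, .ofNat 7⟩ ⟨.negSucc 1208, .ofNat 5152⟩ ⟨.ofNat 0, .ofNat 1⟩ 2 (.s12 ⟨⟨.negSucc 20261885, .ofNat 44607752⟩, ⟨.negSucc 10903673,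 .ofNat 35026528⟩, ⟨.negSucc 10074512, .ofNat 22162903⟩, ⟨.negSucc 5453972, .ofNat 13935999⟩⟩ ⟨.negSucc 112859, .ofNat 281946⟩ ⟨.negSucc 83, .ofNat 151⟩ ⟨.ofNat 1, .ofNat 0⟩ 1 (.s23 ⟨⟨.negSucc 188099, .ofNat 691285⟩, ⟨.negSucc 188099, .ofNat 651035⟩, ⟨.negSucc 122264, .ofNat 416129⟩, ⟨.negSucc 65834, .ofNat 234906⟩⟩ ⟨.ofNat 0, .ofNat 5⟩ ⟨.negSucc 56429, .ofNat 140973⟩ ⟨.ofNat 7, .ofNat 0⟩ 0 (.leaf 7 [64]) (.leaf 7 [64, 22])) (.leaf 7 [64, 64, 64, 3, 0])) (.s12 ⟨⟨.negSucc 148119, .ofNat 296240⟩, ⟨.ofNat 43221, .ofNat 147069⟩, ⟨.negSucc 50462, .ofNat 118332⟩, ⟨.negSucc 60626, .ofNat 103848⟩⟩ ⟨.ofNat 13038, .ofNat 6033⟩ ⟨.ofNat 23, .ofNat 46⟩ ⟨.ofNat 1, .ofNat 3⟩ 2 (.s02 ⟨⟨.ofNat 0, .ofNat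 4⟩, ⟨.ofNat 0, .ofNat 3⟩, ⟨.ofNat 3, .ofNat 0⟩, ⟨.negSucc 2, .ofNat 3⟩⟩ ⟨.negSucc 9015, .ofNat 6681⟩ ⟨.negSucc 552, .ofNat 439⟩ ⟨.ofNat 574770, .ofNat 28014⟩ 3 (.s23 ⟨⟨.ofNat 2012500, .ofNat 0⟩, ⟨.ofNat 1408750, .ofNat 0⟩, ⟨.ofNat 921814, .negSucc 28214⟩, ⟨.ofNat 486936, .ofNat 28215⟩⟩ ⟨.ofNat 38, .ofNat 56316⟩ ⟨.ofNat 17921, .negSucc 9733⟩ ⟨.ofNat 2423, .negSucc 907⟩ 4 (.leaf 7 [17, 64, 0]) (.leaf 7 [25, 64, 0])) (.s01 ⟨⟨.negSucc 4298691, .ofNat 9796650⟩, ⟨.ofNat 1517973, .ofNat 5232948⟩, ⟨.negSucc 2149345, .ofNat 4898325⟩, ⟨.negSucc 2197001, .ofNat 3714975⟩⟩ ⟨.ofNat 13194, .ofNat 6394⟩ ⟨.ofNat 96, .negSucc 36⟩ ⟨.ofNat 3, .ofNat 0⟩ 1 (.leaf 7 [45, 0]) (.s02 ⟨⟨.ofNat 0, .ofNat 2⟩, ⟨.ofNat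 1, .ofNat 1⟩, ⟨.ofNat 0, .ofNat 1⟩, ⟨.ofNat 1, .ofNat 0⟩⟩ ⟨.ofNat 2, .ofNat 0⟩ ⟨.ofNat 273, .ofNat 29⟩ ⟨.negSucc 341, .ofNat 975⟩ 2 (.leaf 7 [3]) (.leaf 7 [22])))) (.s13 ⟨⟨.ofNat 9405, .ofNat 1427517⟩, ⟨.ofNat 3323348, .negSucc 600253⟩, ⟨.ofNat 122062, .ofNat 629255⟩, ⟨.negSucc 1408706, .ofNat 1418112⟩⟩ ⟨.ofNat 103295, .ofNat 37583⟩ ⟨.ofNat 1, .ofNat 13⟩ ⟨.ofNat 1, .ofNat 2⟩ 26 (.leaf 7 [64, 64, 22]) (.leaf 7 [64, 64, 64, 7, 0])))) (.s12 ⟨⟨.negSucc 148119, .ofNat 296240⟩, ⟨.ofNat 43221, .ofNat 147069⟩, ⟨.negSucc 50462, .ofNat 118332⟩, ⟨.negSucc 60626, .ofNat 103848⟩⟩ ⟨.ofNat 13038, .ofNat 6033⟩ ⟨.ofNat 23, .ofNat 46⟩ ⟨.ofNat 1, .ofNat 3⟩ 2 (.s23 ⟨⟨.ofNat 0, .ofNat 4⟩, ⟨.ofNat 0, .ofNat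 3⟩, ⟨.ofNat 3, .ofNat 0⟩, ⟨.negSucc 2, .ofNat 3⟩⟩ ⟨.negSucc 552, .ofNat 439⟩ ⟨.negSucc 9015, .ofNat 6681⟩ ⟨.ofNat 574770, .ofNat 28014⟩ 3 (.s23 ⟨⟨.ofNat 33, .negSucc 6⟩, ⟨.ofNat 7, .ofNat 7⟩, ⟨.ofNat 0, .ofNat 7⟩, ⟨.ofNat 7, .ofNat 0⟩⟩ ⟨.ofNat 390, .ofNat 320⟩ ⟨.negSucc 21, .ofNat 27⟩ ⟨.negSucc 341, .ofNat 975⟩ 2 (.leaf 7 [64, 52]) (.s02 ⟨⟨.ofNat 366894, .ofNat 102610⟩, ⟨.ofNat 300186, .ofNat 81590⟩, ⟨.ofNat 183447, .ofNat 49355⟩, ⟨.ofNat 116739, .ofNat 32235⟩⟩ ⟨.negSucc 70, .ofNat 49⟩ ⟨.ofNat 0, .ofNat 1950⟩ ⟨.negSucc 2, .ofNat 2⟩ 2 (.leaf 7 [64, 38, 0]) (.leaf 7 [64, 39]))) (.s02 ⟨⟨.negSucc 63157079, .ofNat 236883808⟩, ⟨.negSucc 47367809, .ofNat 177662856⟩, ⟨.negSucc 29338262, .ofNat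 108895248⟩, ⟨.negSucc 18029546, .ofNat 68767608⟩⟩ ⟨.negSucc 7004, .ofNat 13038⟩ ⟨.ofNat 3706, .ofNat 3706⟩ ⟨.ofNat 1, .ofNat 0⟩ 3 (.leaf 7 [25, 64, 0]) (.s03 ⟨⟨.ofNat 366894, .ofNat 102610⟩, ⟨.ofNat 300186, .ofNat 81590⟩, ⟨.ofNat 183447, .ofNat 49355⟩, ⟨.ofNat 116739, .ofNat 32235⟩⟩ ⟨.negSucc 70, .ofNat 49⟩ ⟨.ofNat 0, .ofNat 1950⟩ ⟨.negSucc 2, .ofNat 2⟩ 2 (.leaf 7 [61, 3]) (.s02 ⟨⟨.negSucc 106713974, .ofNat 321708268⟩, ⟨.negSucc 86597024, .ofNat 260171492⟩, ⟨.negSucc 52767599, .ofNat 158342534⟩, ⟨.negSucc 33829424, .ofNat 101828958⟩⟩ ⟨.negSucc 26246174, .ofNat 75561164⟩ ⟨.ofNat 975, .ofNat 0⟩ ⟨.ofNat 3706, .ofNat 0⟩ 2 (.leaf 7 [61, 5]) (.leaf 7 [61]))))) (.leaf 7 [43, 40, 64, 0, 0]))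

/-- part of a tree -/
def t21_1 : Tree := .s01 ⟨⟨.ofNat 32200, .ofNat 0⟩, ⟨.ofNat 8400, .ofNat 12250⟩, ⟨.ofNat 10341, .ofNat 1302⟩, ⟨.ofNat 13809, .negSucc 1301⟩⟩ ⟨.ofNat 1, .ofNat 1⟩ ⟨.negSucc 349, .ofNat 700⟩ ⟨.ofNat 0, .ofNat 1⟩ 1 (.s12 ⟨⟨.negSucc 148119, .ofNat 296240⟩, ⟨.ofNat 43221, .ofNat 147069⟩, ⟨.negSucc 50462, .ofNat 118332⟩, ⟨.negSucc 60626, .ofNat 103848⟩⟩ ⟨.ofNat 13038, .ofNat 6033⟩ ⟨.ofNat 23, .ofNat 46⟩ ⟨.ofNat 1, .ofNat 3⟩ 2 (.s23 ⟨⟨.negSucc 63157079, .ofNat 236883808⟩, ⟨.negSucc 47367809, .ofNat 177662856⟩, ⟨.negSucc 29338262, .ofNat 108895248⟩, ⟨.negSucc 18029546, .ofNat 68767608⟩⟩ ⟨.ofNat 3706, .ofNat 3706⟩ ⟨.negSucc 7004, .ofNat 13038⟩ ⟨.ofNat 1, .ofNat 0⟩ 3 (.s02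 ⟨⟨.ofNat 480545435400, .ofNat 94618095520⟩, ⟨.ofNat 353847532800, .ofNat 89853862640⟩, ⟨.ofNat 214390307115, .ofNat 38680978962⟩, ⟨.ofNat 146018769435, .ofNat 32282592678⟩⟩ ⟨.negSucc 26246174, .ofNat 75561164⟩ ⟨.ofNat 134080, .negSucc 68914⟩ ⟨.negSucc 62, .ofNat 49⟩ 2 (.s23 ⟨⟨.negSucc 106713974, .ofNat 321708268⟩, ⟨.negSucc 86597024, .ofNat 260171492⟩, ⟨.negSucc 52767599, .ofNat 158342534⟩, ⟨.negSucc 33829424, .ofNat 101828958⟩⟩ ⟨.ofNat 975, .ofNat 0⟩ ⟨.negSucc 26246174, .ofNat 75561164⟩ ⟨.ofNat 3706, .ofNat 0⟩ 2 (.leaf 7 [61]) (.leaf 7 [60, 5])) (.leaf 7 [54, 64])) (.leaf 7 [29, 64, 44, 0])) (.leaf 7 [43, 64, 64, 0, 0])) (.s03 ⟨⟨.ofNat 32200, .ofNat 0⟩, ⟨.ofNat 24150, .ofNat 0⟩, ⟨.ofNat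 14247, .ofNat 0⟩, ⟨.ofNat 9903, .ofNat 0⟩⟩ ⟨.ofNat 1853, .ofNat 1853⟩ ⟨.negSucc 4024, .ofNat 8050⟩ ⟨.negSucc 1126, .ofNat 4107⟩ 3 (.s23 ⟨⟨.negSucc 63157079, .ofNat 236883808⟩, ⟨.negSucc 47367809, .ofNat 177662856⟩, ⟨.negSucc 29338262, .ofNat 108895248⟩, ⟨.negSucc 18029546, .ofNat 68767608⟩⟩ ⟨.ofNat 3706, .ofNat 3706⟩ ⟨.negSucc 7004, .ofNat 13038⟩ ⟨.ofNat 1, .ofNat 0⟩ 3 (.s12 ⟨⟨.ofNat 480545435400, .ofNat 94618095520⟩, ⟨.ofNat 353847532800, .ofNat 89853862640⟩, ⟨.ofNat 214390307115, .ofNat 38680978962⟩, ⟨.ofNat 146018769435, .ofNat 32282592678⟩⟩ ⟨.negSucc 26246174, .ofNat 75561164⟩ ⟨.ofNat 134080, .negSucc 68914⟩ ⟨.negSucc 62, .ofNat 49⟩ 2 (.s23 ⟨⟨.negSucc 106713974, .ofNat 321708268⟩,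 ⟨.negSucc 86597024, .ofNat 260171492⟩, ⟨.negSucc 52767599, .ofNat 158342534⟩, ⟨.negSucc 33829424, .ofNat 101828958⟩⟩ ⟨.ofNat 975, .ofNat 0⟩ ⟨.negSucc 26246174, .ofNat 75561164⟩ ⟨.ofNat 3706, .ofNat 0⟩ 2 (.leaf 7 []) (.leaf 7 [18])) (.leaf 7 [56, 64])) (.leaf 7 [37, 64, 64, 0])) (.s12 ⟨⟨.ofNat 406944975, .ofNat 27326925⟩, ⟨.ofNat 93603275, .ofNat 157994175⟩, ⟨.ofNat 85846614, .ofNat 57295098⟩, ⟨.ofNat 67450911, .ofNat 45017577⟩⟩ ⟨.ofNat 1535, .ofNat 6519⟩ ⟨.ofNat 15675, .ofNat 4825⟩ ⟨.ofNat 0, .ofNat 1⟩ 3 (.s02 ⟨⟨.negSucc 7654, .ofNat 22145⟩, ⟨.ofNat 8445, .ofNat 6045⟩, ⟨.ofNat 5067, .ofNat 3627⟩, ⟨.ofNat 3378, .ofNat 2418⟩⟩ ⟨.negSucc 479, .ofNat 1689⟩ ⟨.negSucc 1609, .ofNat 4435⟩ ⟨.negSucc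 1044, .ofNat 3062⟩ 5 (.s03 ⟨⟨.ofNat 49668500, .ofNat 23747500⟩, ⟨.ofNat 34767950, .ofNat 16623250⟩, ⟨.ofNat 20584857, .ofNat 9932775⟩, ⟨.ofNat 14183093, .ofNat 6690475⟩⟩ ⟨.ofNat 3220, .ofNat 6440⟩ ⟨.ofNat 10219, .ofNat 1525⟩ ⟨.ofNat 9, .ofNat 0⟩ 4 (.leaf 7 [37, 64, 0]) (.leaf 7 [0, 63, 0])) (.leaf 8 [15, 64, 0])) (.leaf 8 [15, 64, 64, 0])))

/-- part of a tree -/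
def t21 : Tree := .s03 ⟨⟨.ofNat 12722, .ofNat 0⟩, ⟨.ofNat 10468, .ofNat 0⟩, ⟨.ofNat 6361, .ofNat 0⟩, ⟨.ofNat 4107, .ofNat 0⟩⟩ ⟨.ofNat 7, .ofNat 7⟩ ⟨.negSucc 2253, .ofNat 8214⟩ ⟨.ofNat 0, .ofNat 25⟩ 2 t21_0 t21_1

theorem g21 : Good (PE lin H) ⟨⟨.ofNat 0, .ofNat 8050⟩, ⟨.ofNat 8050, .ofNat 0⟩, ⟨.ofNat 6361, .negSucc 1208⟩, ⟨.ofNat 1689, .ofNat 1209⟩⟩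
    ⟨⟨.ofNat 23, .ofNat 0⟩, ⟨.ofNat 12, .ofNat 12⟩, ⟨.ofNat 11, .ofNat 0⟩, ⟨.ofNat 12, .ofNat 0⟩⟩
    ⟨⟨.negSucc 5151, .ofNat 12157⟩, ⟨.ofNat 2898, .ofNat 4107⟩, ⟨.ofNat 1209, .ofNat 2898⟩, ⟨.ofNat 1689, .ofNat 1209⟩⟩
    ⟨⟨.ofNat 25, .ofNat 0⟩, ⟨.ofNat 25, .ofNat 0⟩, ⟨.ofNat 16, .ofNat 0⟩, ⟨.ofNat 9, .ofNat 0⟩⟩ :=
  goodE lin H t21 6 29 5 0 (by decide +kernel)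

/-- part of a tree -/
def t23_0 : Tree := .s23 ⟨⟨.ofNat 44300, .negSucc 10074⟩, ⟨.negSucc 3999, .ofNat 14075⟩, ⟨.negSucc 2559, .ofNat 9008⟩, ⟨.negSucc 1439, .ofNat 5067⟩⟩ ⟨.ofNat 10075, .ofNat 0⟩ ⟨.ofNat 4504, .ofNat 3224⟩ ⟨.ofNat 4433, .ofNat 2576⟩ 4 (.s03 ⟨⟨.ofNat 475225, .ofNat 128800⟩, ⟨.ofNat 221650, .ofNat 128800⟩, ⟨.ofNat 141856, .ofNat 82432⟩, ⟨.ofNat 79794, .ofNat 46368⟩⟩ ⟨.ofNat 775, .ofNat 0⟩ ⟨.ofNat 0, .ofNat 16⟩ ⟨.ofNat 1, .ofNat 0⟩ 6 (.s13 ⟨⟨.ofNat 1913398, .ofNat 553270⟩, ⟨.ofNat 680229, .ofNat 890943⟩, ⟨.ofNat 614733, .ofNat 342556⟩, ⟨.ofNat 469515, .ofNat 210714⟩⟩ ⟨.negSucc 1044, .ofNat 3062⟩ ⟨.ofNat 103, .ofNat 103⟩ ⟨.ofNat 0, .ofNat 1⟩ 3 (.s03 ⟨⟨.ofNat 2882329, .negSucc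 48514⟩, ⟨.ofNat 546702, .ofNat 747630⟩, ⟨.ofNat 200928, .ofNat 546702⟩, ⟨.ofNat 345774, .ofNat 200928⟩⟩ ⟨.ofNat 595, .ofNat 29⟩ ⟨.negSucc 3713, .ofNat 8866⟩ ⟨.ofNat 125, .ofNat 50⟩ 6 (.s23 ⟨⟨.negSucc 5151, .ofNat 12157⟩, ⟨.ofNat 2898, .ofNat 4107⟩, ⟨.ofNat 1209, .ofNat 2898⟩, ⟨.ofNat 1689, .ofNat 1209⟩⟩ ⟨.ofNat 29, .ofNat 624⟩ ⟨.negSucc 159, .ofNat 563⟩ ⟨.ofNat 1625, .ofNat 650⟩ 5 (.s23 ⟨⟨.negSucc 7654, .ofNat 22145⟩, ⟨.ofNat 8445, .ofNat 6045⟩, ⟨.ofNat 5067, .ofNat 3627⟩, ⟨.ofNat 3378, .ofNat 2418⟩⟩ ⟨.negSucc 1609, .ofNat 4435⟩ ⟨.negSucc 479, .ofNat 1689⟩ ⟨.negSucc 1044, .ofNat 3062⟩ 5 (.s03 ⟨⟨.ofNat 23138375, .ofNat 2431100⟩, ⟨.ofNat 8644350, .ofNat 5023200⟩, ⟨.ofNat 4840836, .ofNat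 2812992⟩, ⟨.ofNat 3803514, .ofNat 2210208⟩⟩ ⟨.ofNat 30225, .negSucc 16099⟩ ⟨.ofNat 3200730, .ofNat 570102⟩ ⟨.ofNat 4107, .negSucc 1044⟩ 6 (.leaf 8 [0, 0]) (.leaf 7 [0, 0, 64])) (.leaf 7 [0, 0, 29])) (.s02 ⟨⟨.ofNat 179024620, .ofNat 3431841855⟩, ⟨.negSucc 574452964, .ofNat 2621945040⟩, ⟨.ofNat 71609848, .ofNat 1372736742⟩, ⟨.negSucc 646062812, .ofNat 1249208298⟩⟩ ⟨.negSucc 3614, .ofNat 10875⟩ ⟨.ofNat 514208, .ofNat 63677⟩ ⟨.ofNat 5, .ofNat 3⟩ 5 (.leaf 7 [0, 47, 0]) (.leaf 7 [0, 5, 8]))) (.s23 ⟨⟨.ofNat 179024620, .ofNat 3431841855⟩, ⟨.negSucc 574452964, .ofNat 2621945040⟩, ⟨.ofNat 71609848, .ofNat 1372736742⟩, ⟨.negSucc 646062812, .ofNat 1249208298⟩⟩ ⟨.ofNat 514208, .ofNat 63677⟩ ⟨.negSucc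 3614, .ofNat 10875⟩ ⟨.ofNat 5, .ofNat 3⟩ 5 (.leaf 7 [0, 0, 9, 0]) (.leaf 7 [0, 12, 0]))) (.leaf 6 [0, 0, 64, 0, 11, 0])) (.s02 ⟨⟨.ofNat 11024840, .ofNat 2906753⟩, ⟨.negSucc 2196479, .ofNat 7728864⟩, ⟨.negSucc 1497599, .ofNat 5269680⟩, ⟨.negSucc 698879, .ofNat 2459184⟩⟩ ⟨.negSucc 3679, .ofNat 12949⟩ ⟨.ofNat 286, .ofNat 0⟩ ⟨.ofNat 1, .ofNat 0⟩ 5 (.leaf 6 [4, 0, 64, 0]) (.s03 ⟨⟨.ofNat 7095803, .ofNat 2806391⟩, ⟨.ofNat 3803514, .ofNat 2210208⟩, ⟨.ofNat 2593305, .ofNat 1506960⟩, ⟨.ofNat 1210209, .ofNat 703248⟩⟩ ⟨.negSucc 42710, .ofNat 101959⟩ ⟨.negSucc 142, .ofNat 143⟩ ⟨.negSucc 15, .ofNat 16⟩ 6 (.leaf 6 [4, 0, 64, 0]) (.leaf 5 [0, 0, 64, 9])))) (.s03 ⟨⟨.ofNat 11024840, .ofNat 2906753⟩, ⟨.negSucc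 2196479, .ofNat 7728864⟩, ⟨.negSucc 1497599, .ofNat 5269680⟩, ⟨.negSucc 698879, .ofNat 2459184⟩⟩ ⟨.negSucc 3679, .ofNat 12949⟩ ⟨.ofNat 286, .ofNat 0⟩ ⟨.ofNat 1, .ofNat 0⟩ 5 (.s23 ⟨⟨.ofNat 102140, .negSucc 19191⟩, ⟨.negSucc 10559, .ofNat 37158⟩, ⟨.negSucc 7199, .ofNat 25335⟩, ⟨.negSucc 3359, .ofNat 11823⟩⟩ ⟨.ofNat 23, .ofNat 0⟩ ⟨.ofNat 11, .ofNat 0⟩ ⟨.ofNat 8, .ofNat 0⟩ 4 (.leaf 6 [16, 0, 64, 0]) (.leaf 5 [64, 0, 64, 16])) (.s13 ⟨⟨.negSucc 247994279, .ofNat 431959320⟩, ⟨.negSucc 21254598, .ofNat 231566317⟩, ⟨.negSucc 123997139, .ofNat 215979660⟩, ⟨.negSucc 57865331, .ofNat 100790508⟩⟩ ⟨.negSucc 1245173, .ofNat 5142259⟩ ⟨.ofNat 96, .ofNat 192⟩ ⟨.ofNat 7, .ofNat 7⟩ 3 (.s23 ⟨⟨.ofNat 20205520,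 .ofNat 9878256⟩, ⟨.ofNat 15492245, .ofNat 6132591⟩, ⟨.ofNat 10102760, .ofNat 4939128⟩, ⟨.ofNat 5389485, .ofNat 1193463⟩⟩ ⟨.negSucc 1245173, .ofNat 5142259⟩ ⟨.ofNat 4830, .negSucc 1204⟩ ⟨.ofNat 83, .ofNat 2092⟩ 4 (.leaf 5 [1]) (.s01 ⟨⟨.ofNat 180558995760, .ofNat 76897386720⟩, ⟨.ofNat 103471461113, .ofNat 74111852622⟩, ⟨.ofNat 88047708060, .ofNat 37498207320⟩, ⟨.ofNat 38343588972, .ofNat 16329963384⟩⟩ ⟨.ofNat 143986440, .ofNat 61321680⟩ ⟨.ofNat 0, .ofNat 269⟩ ⟨.ofNat 1, .ofNat 0⟩ 3 (.leaf 5 [62]) (.s02 ⟨⟨.ofNat 110, .ofNat 0⟩, ⟨.ofNat 77, .ofNat 0⟩, ⟨.ofNat 56, .ofNat 0⟩, ⟨.ofNat 21, .ofNat 0⟩⟩ ⟨.ofNat 31878, .negSucc 11172⟩ ⟨.ofNat 269, .ofNat 538⟩ ⟨.ofNat 155526, .ofNat 11109⟩ 4 (.leaf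 5 [63]) (.s03 ⟨⟨.negSucc 839130389, .ofNat 10623417560⟩, ⟨.negSucc 587391272, .ofNat 7436392292⟩, ⟨.negSucc 298326023, .ofNat 5223948896⟩, ⟨.negSucc 289065248, .ofNat 2212443396⟩⟩ ⟨.ofNat 3501974, .ofNat 1342020⟩ ⟨.ofNat 538, .ofNat 807⟩ ⟨.ofNat 1, .ofNat 2⟩ 4 (.leaf 5 [63]) (.s02 ⟨⟨.ofNat 16, .ofNat 0⟩, ⟨.ofNat 11, .ofNat 0⟩, ⟨.ofNat 8, .ofNat 0⟩, ⟨.ofNat 3, .ofNat 0⟩⟩ ⟨.ofNat 2, .ofNat 0⟩ ⟨.ofNat 31, .ofNat 0⟩ ⟨.ofNat 269, .ofNat 0⟩ 4 (.leaf 5 [63]) (.leaf 5 [])))))) (.s01 ⟨⟨.ofNat 51096, .ofNat 0⟩, ⟨.ofNat 33253, .ofNat 2604⟩, ⟨.ofNat 25548, .ofNat 0⟩, ⟨.ofNat 10092, .ofNat 0⟩⟩ ⟨.ofNat 96, .ofNat 0⟩ ⟨.ofNat 31, .ofNat 0⟩ ⟨.ofNat 1, .ofNat 0⟩ 3 (.leaf 5 [64, 13, 64]) (.s02 ⟨⟨.ofNat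 16, .ofNat 0⟩, ⟨.ofNat 11, .ofNat 0⟩, ⟨.ofNat 8, .ofNat 0⟩, ⟨.ofNat 3, .ofNat 0⟩⟩ ⟨.ofNat 4830, .negSucc 1204⟩ ⟨.ofNat 31, .ofNat 62⟩ ⟨.ofNat 155526, .ofNat 11109⟩ 4 (.leaf 5 [10]) (.leaf 5 [1])))))

/-- part of a tree -/
def t23_1 : Tree := .s12 ⟨⟨.ofNat 68, .ofNat 0⟩, ⟨.ofNat 57, .ofNat 12⟩, ⟨.ofNat 56, .ofNat 0⟩, ⟨.ofNat 12, .ofNat 0⟩⟩ ⟨.ofNat 1, .ofNat 0⟩ ⟨.ofNat 212, .ofNat 0⟩ ⟨.ofNat 7, .ofNat 0⟩ 27 (.s23 ⟨⟨.ofNat 13380, .ofNat 1521⟩, ⟨.negSucc 2719, .ofNat 9571⟩, ⟨.negSucc 2239, .ofNat 7882⟩, ⟨.negSucc 479, .ofNat 1689⟩⟩ ⟨.negSucc 959, .ofNat 3378⟩ ⟨.ofNat 1, .ofNat 0⟩ ⟨.ofNat 1, .ofNat 0⟩ 2 (.s01 ⟨⟨.negSucc 23243, .ofNat 95795⟩, ⟨.negSucc 10035, .ofNat 71565⟩, ⟨.negSucc 10815,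 .ofNat 54392⟩, ⟨.negSucc 4055, .ofNat 16770⟩⟩ ⟨.negSucc 51, .ofNat 153⟩ ⟨.ofNat 0, .ofNat 403⟩ ⟨.ofNat 1, .ofNat 0⟩ 2 (.leaf 4 [64, 64, 6]) (.s02 ⟨⟨.negSucc 2502200, .ofNat 23602278⟩, ⟨.negSucc 2682198, .ofNat 17484922⟩, ⟨.negSucc 1684929, .ofNat 13353340⟩, ⟨.negSucc 997268, .ofNat 4131582⟩⟩ ⟨.negSucc 19031, .ofNat 37996⟩ ⟨.ofNat 403, .ofNat 403⟩ ⟨.ofNat 1, .ofNat 0⟩ 4 (.leaf 4 [64, 6]) (.s01 ⟨⟨.ofNat 21776, .ofNat 0⟩, ⟨.ofNat 14351, .ofNat 372⟩, ⟨.ofNat 10888, .ofNat 0⟩, ⟨.ofNat 3804, .ofNat 0⟩⟩ ⟨.ofNat 367, .ofNat 52⟩ ⟨.negSucc 0, .ofNat 1⟩ ⟨.ofNat 13, .ofNat 0⟩ 4 (.leaf 4 [60, 0]) (.s02 ⟨⟨.negSucc 384955, .ofNat 1752968⟩, ⟨.negSucc 274026, .ofNat 1182706⟩, ⟨.negSucc 192477, .ofNat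 876484⟩, ⟨.negSucc 81548, .ofNat 306222⟩⟩ ⟨.negSucc 27988, .ofNat 100142⟩ ⟨.ofNat 1, .ofNat 0⟩ ⟨.ofNat 39, .ofNat 0⟩ 4 (.leaf 4 [21]) (.s03 ⟨⟨.ofNat 16, .ofNat 0⟩, ⟨.ofNat 11, .ofNat 0⟩, ⟨.ofNat 8, .ofNat 0⟩, ⟨.ofNat 3, .ofNat 0⟩⟩ ⟨.ofNat 4830, .negSucc 1204⟩ ⟨.ofNat 31, .ofNat 62⟩ ⟨.ofNat 155526, .ofNat 11109⟩ 4 (.leaf 4 [21]) (.leaf 4 [])))))) (.s02 ⟨⟨.ofNat 785, .ofNat 0⟩, ⟨.ofNat 624, .ofNat 0⟩, ⟨.ofNat 546, .ofNat 0⟩, ⟨.ofNat 78, .ofNat 0⟩⟩ ⟨.ofNat 1, .ofNat 0⟩ ⟨.ofNat 338, .ofNat 0⟩ ⟨.ofNat 1, .ofNat 0⟩ 2 (.leaf 1 [64, 64]) (.s02 ⟨⟨.ofNat 512, .ofNat 0⟩, ⟨.ofNat 351, .ofNat 0⟩, ⟨.ofNat 273, .ofNat 0⟩, ⟨.ofNat 78, .ofNat 0⟩⟩ ⟨.ofNat 21, .ofNat 0⟩ ⟨.ofNat 5, .ofNat 0⟩ ⟨.ofNat 26,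 .ofNat 0⟩ 4 (.leaf 3 [0, 0, 64, 33, 64]) (.s01 ⟨⟨.negSucc 23243, .ofNat 95795⟩, ⟨.negSucc 10035, .ofNat 71565⟩, ⟨.negSucc 10815, .ofNat 54392⟩, ⟨.negSucc 4055, .ofNat 16770⟩⟩ ⟨.negSucc 51, .ofNat 153⟩ ⟨.ofNat 0, .ofNat 403⟩ ⟨.ofNat 1, .ofNat 0⟩ 2 (.leaf 3 [64, 0, 64, 16]) (.s03 ⟨⟨.negSucc 2502200, .ofNat 23602278⟩, ⟨.negSucc 2682198, .ofNat 17484922⟩, ⟨.negSucc 1684929, .ofNat 13353340⟩, ⟨.negSucc 997268, .ofNat 4131582⟩⟩ ⟨.negSucc 19031, .ofNat 37996⟩ ⟨.ofNat 403, .ofNat 403⟩ ⟨.ofNat 1, .ofNat 0⟩ 4 (.leaf 3 [64, 0, 16]) (.leaf 4 [0, 0, 27])))))) (.s02 ⟨⟨.ofNat 21776, .ofNat 0⟩, ⟨.ofNat 14351, .ofNat 372⟩, ⟨.ofNat 10888, .ofNat 0⟩, ⟨.ofNat 3804, .ofNat 0⟩⟩ ⟨.ofNat 44, .ofNat 0⟩ ⟨.ofNat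 31, .ofNat 0⟩ ⟨.ofNat 1, .ofNat 0⟩ 4 (.leaf 4 [64, 64, 64, 2]) (.s01 ⟨⟨.ofNat 51096, .ofNat 0⟩, ⟨.ofNat 33253, .ofNat 2604⟩, ⟨.ofNat 25548, .ofNat 0⟩, ⟨.ofNat 10092, .ofNat 0⟩⟩ ⟨.ofNat 96, .ofNat 0⟩ ⟨.ofNat 31, .ofNat 0⟩ ⟨.ofNat 1, .ofNat 0⟩ 3 (.leaf 5 [36, 0, 64]) (.s03 ⟨⟨.ofNat 16, .ofNat 0⟩, ⟨.ofNat 11, .ofNat 0⟩, ⟨.ofNat 8, .ofNat 0⟩, ⟨.ofNat 3, .ofNat 0⟩⟩ ⟨.ofNat 4830, .negSucc 1204⟩ ⟨.ofNat 31, .ofNat 62⟩ ⟨.ofNat 155526, .ofNat 11109⟩ 4 (.leaf 4 [38]) (.leaf 4 []))))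

/-- part of a tree -/
def t23 : Tree := .s23 ⟨⟨.ofNat 14340, .negSucc 1856⟩, ⟨.negSucc 1759, .ofNat 6193⟩, ⟨.negSucc 1279, .ofNat 4504⟩, ⟨.negSucc 479, .ofNat 1689⟩⟩ ⟨.negSucc 1856, .ofNat 4433⟩ ⟨.ofNat 1, .ofNat 0⟩ ⟨.ofNat 0, .ofNat 1⟩ 3 t23_0 t23_1

theorem g23 : Good (PE lin H) ⟨⟨.ofNat 447, .ofNat 0⟩, ⟨.ofNat 286, .ofNat 0⟩, ⟨.ofNat 208, .ofNat 0⟩, ⟨.ofNat 78, .ofNat 0⟩⟩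
    ⟨⟨.ofNat 264, .ofNat 0⟩, ⟨.ofNat 187, .ofNat 84⟩, ⟨.ofNat 180, .ofNat 0⟩, ⟨.ofNat 84, .ofNat 0⟩⟩
    ⟨⟨.ofNat 1, .ofNat 0⟩, ⟨.ofNat 1, .ofNat 0⟩, ⟨.ofNat 1, .ofNat 0⟩, ⟨.ofNat 0, .ofNat 0⟩⟩
    ⟨⟨.ofNat 0, .ofNat 8050⟩, ⟨.ofNat 8050, .ofNat 0⟩, ⟨.ofNat 6361, .negSucc 1208⟩, ⟨.ofNat 1689, .ofNat 1209⟩⟩ :=
  goodE lin H t23 5 28 0 6 (by decide +kernel)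

end

end Pool.Agent.PHCert.E2
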