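import Pool.Agent.PHCert.E2H

/-!
# PHCert: inequality E2, part 6 (89 leaves, checked by the kernel)
-/

set_option autoImplicit false

namespace Pool.Agent.PHCert.E2

open Zp Pool.Agent.PHCert

noncomputable section

/-- part of a tree -/
def t24_3 : Tree := .s02 ⟨⟨.ofNat 4907602, .ofNat 24257548⟩, ⟨.ofNat 19349946, .ofNat 4907602⟩, ⟨.ofNat 14169876, .ofNat 1721359⟩, ⟨.ofNat 5180070, .ofNat 3186243⟩⟩ ⟨.ofNat 310138, .ofNat 69281⟩ ⟨.ofNat 149, .ofNat 465⟩ ⟨.ofNat 26, .ofNat 26⟩ 6 (.s13 ⟨⟨.negSucc 32866769, .ofNat 91251442⟩, ⟨.ofNat 27369501, .ofNat 27948717⟩, ⟨.ofNat 97327927, .negSucc 33445985⟩, ⟨.ofNat 26790285, .ofNat 579216⟩⟩ ⟨.ofNat 1, .ofNat 1⟩ ⟨.negSucc 13727, .ofNat 34320⟩ ⟨.ofNat 7, .ofNat 14⟩ 6 (.s03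 ⟨⟨.ofNat 1, .ofNat 1⟩, ⟨.ofNat 0, .ofNat 1⟩, ⟨.ofNat 1, .ofNat 0⟩, ⟨.negSucc 0, .ofNat 1⟩⟩ ⟨.negSucc 2, .ofNat 2⟩ ⟨.ofNat 6025, .negSucc 3700⟩ ⟨.ofNat 3732624, .ofNat 266616⟩ 6 (.s23 ⟨⟨.ofNat 4167215, .ofNat 745430⟩, ⟨.ofNat 1728870, .ofNat 1004640⟩, ⟨.ofNat 1037322, .ofNat 602784⟩, ⟨.ofNat 691548, .ofNat 401856⟩⟩ ⟨.negSucc 1609, .ofNat 4435⟩ ⟨.negSucc 144845, .ofNat 345774⟩ ⟨.negSucc 1044, .ofNat 3062⟩ 6 (.s03 ⟨⟨.ofNat 0, .ofNat 5⟩, ⟨.ofNat 5, .ofNat 0⟩, ⟨.ofNat 3, .ofNat 0⟩, ⟨.ofNat 2, .ofNat 0⟩⟩ ⟨.negSucc 1609, .ofNat 4435⟩ ⟨.ofNat 2, .negSucc 0⟩ ⟨.ofNat 4107, .negSucc 1044⟩ 6 (.leaf 8 [1]) (.leaf 7 [0])) (.leaf 7 [0])) (.leaf 7 [9])) (.leaf 7 [9])) (.s03 ⟨⟨.ofNat 883435, .ofNat 32857⟩, ⟨.ofNat 177450, .ofNat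 228150⟩, ⟨.ofNat 50700, .ofNat 177450⟩, ⟨.ofNat 126750, .ofNat 50700⟩⟩ ⟨.ofNat 595, .ofNat 29⟩ ⟨.negSucc 25, .ofNat 26⟩ ⟨.ofNat 1, .ofNat 0⟩ 8 (.s13 ⟨⟨.negSucc 32866769, .ofNat 91251442⟩, ⟨.ofNat 27369501, .ofNat 27948717⟩, ⟨.ofNat 97327927, .negSucc 33445985⟩, ⟨.ofNat 26790285, .ofNat 579216⟩⟩ ⟨.ofNat 1, .ofNat 1⟩ ⟨.negSucc 13727, .ofNat 34320⟩ ⟨.ofNat 7, .ofNat 14⟩ 6 (.s23 ⟨⟨.ofNat 1, .ofNat 1⟩, ⟨.ofNat 0, .ofNat 1⟩, ⟨.ofNat 1, .ofNat 0⟩, ⟨.negSucc 0, .ofNat 1⟩⟩ ⟨.negSucc 2, .ofNat 2⟩ ⟨.ofNat 6025, .negSucc 3700⟩ ⟨.ofNat 3732624, .ofNat 266616⟩ 6 (.s23 ⟨⟨.ofNat 0, .ofNat 5⟩, ⟨.ofNat 5, .ofNat 0⟩, ⟨.ofNat 3, .ofNat 0⟩, ⟨.ofNat 2, .ofNat 0⟩⟩ ⟨.negSucc 1609, .ofNat 4435⟩ ⟨.ofNat 2, .negSucc 0⟩ ⟨.ofNat 4107, .negSucc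 1044⟩ 6 (.s03 ⟨⟨.negSucc 155525, .ofNat 1423571⟩, ⟨.ofNat 0, .ofNat 785850⟩, ⟨.ofNat 0, .ofNat 471510⟩, ⟨.ofNat 0, .ofNat 314340⟩⟩ ⟨.ofNat 887, .ofNat 565⟩ ⟨.ofNat 25350, .ofNat 10140⟩ ⟨.ofNat 29, .ofNat 624⟩ 8 (.leaf 8 [55, 0]) (.s02 ⟨⟨.negSucc 2255024, .ofNat 4808525⟩, ⟨.negSucc 1353014, .ofNat 2885115⟩, ⟨.negSucc 330158, .ofNat 1452219⟩, ⟨.negSucc 1022855, .ofNat 1432896⟩⟩ ⟨.ofNat 5, .ofNat 0⟩ ⟨.ofNat 399573, .ofNat 78270⟩ ⟨.ofNat 0, .ofNat 1⟩ 7 (.leaf 7 [54, 0]) (.leaf 7 [26, 46]))) (.s03 ⟨⟨.negSucc 2255024, .ofNat 4808525⟩, ⟨.negSucc 1353014, .ofNat 2885115⟩, ⟨.negSucc 330158, .ofNat 1452219⟩, ⟨.negSucc 1022855, .ofNat 1432896⟩⟩ ⟨.ofNat 5, .ofNat 0⟩ ⟨.ofNat 399573, .ofNat 78270⟩ ⟨.ofNat 0, .ofNat 1⟩ 7 (.leaf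 7 [0]) (.s02 ⟨⟨.ofNat 0, .ofNat 5⟩, ⟨.ofNat 0, .ofNat 3⟩, ⟨.ofNat 3, .ofNat 0⟩, ⟨.negSucc 2, .ofNat 3⟩⟩ ⟨.ofNat 0, .ofNat 1⟩ ⟨.ofNat 399573, .ofNat 78270⟩ ⟨.ofNat 192341, .ofNat 102140⟩ 7 (.leaf 7 [38]) (.leaf 7 [10, 38])))) (.leaf 7 [64, 0])) (.leaf 7 [63, 0])) (.leaf 7 [63]))

/-- part of a tree -/
def t24_2 : Tree := .s01 ⟨⟨.ofNat 251973694, .ofNat 519203104⟩, ⟨.ofNat 692937819, .ofNat 441126⟩, ⟨.ofNat 216925266, .ofNat 124943107⟩, ⟨.ofNat 50304144, .ofNat 127030587⟩⟩ ⟨.negSucc 275879, .ofNat 808368⟩ ⟨.ofNat 483, .negSucc 166⟩ ⟨.ofNat 0, .ofNat 1⟩ 6 (.s03 ⟨⟨.ofNat 30660840, .ofNat 99514560⟩, ⟨.negSucc 74479174, .ofNat 120699780⟩, ⟨.ofNat 41312232, .ofNat 18396504⟩, ⟨.ofNat 27541488, .ofNat 12264336⟩⟩ ⟨.negSucc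 1609, .ofNat 4435⟩ ⟨.ofNat 151732553, .ofNat 20527006⟩ ⟨.ofNat 21434, .ofNat 14119⟩ 6 (.s23 ⟨⟨.ofNat 23138375, .ofNat 2431100⟩, ⟨.ofNat 8644350, .ofNat 5023200⟩, ⟨.ofNat 4840836, .ofNat 2812992⟩, ⟨.ofNat 3803514, .ofNat 2210208⟩⟩ ⟨.ofNat 30225, .negSucc 16099⟩ ⟨.ofNat 3200730, .ofNat 570102⟩ ⟨.ofNat 4107, .negSucc 1044⟩ 6 (.leaf 8 [0, 0]) (.leaf 7 [0, 0, 64])) (.leaf 7 [0, 0, 42, 64, 0])) t24_3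

/-- part of a tree -/
def t24_1 : Tree := .s23 ⟨⟨.ofNat 2882329, .negSucc 48514⟩, ⟨.ofNat 546702, .ofNat 747630⟩, ⟨.ofNat 200928, .ofNat 546702⟩, ⟨.ofNat 345774, .ofNat 200928⟩⟩ ⟨.ofNat 595, .ofNat 29⟩ ⟨.negSucc 3713, .ofNat 8866⟩ ⟨.ofNat 125, .ofNat 50⟩ 6 t24_2 (.s01 ⟨⟨.ofNat 251973694, .ofNat 519203104⟩, ⟨.ofNat 692937819, .ofNat 441126⟩, ⟨.ofNat 216925266, .ofNat 124943107⟩, ⟨.ofNat 50304144, .ofNat 127030587⟩⟩ ⟨.negSucc 275879, .ofNat 808368⟩ ⟨.ofNat 483, .negSucc 166⟩ ⟨.ofNat 0, .ofNat 1⟩ 6 (.leaf 7 [0, 0, 9, 0]) (.s03 ⟨⟨.ofNat 4907602, .ofNat 24257548⟩, ⟨.ofNat 19349946, .ofNat 4907602⟩, ⟨.ofNat 14169876, .ofNat 1721359⟩, ⟨.ofNat 5180070, .ofNat 3186243⟩⟩ ⟨.ofNat 310138, .ofNat 69281⟩ ⟨.ofNat 149, .ofNat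 465⟩ ⟨.ofNat 26, .ofNat 26⟩ 6 (.leaf 7 [0, 9]) (.s02 ⟨⟨.ofNat 0, .ofNat 25⟩, ⟨.ofNat 25, .ofNat 0⟩, ⟨.ofNat 16, .ofNat 0⟩, ⟨.ofNat 9, .ofNat 0⟩⟩ ⟨.ofNat 221650, .negSucc 124774⟩ ⟨.negSucc 649, .ofNat 483⟩ ⟨.ofNat 2488416, .ofNat 177744⟩ 6 (.leaf 7 [1]) (.leaf 7 [63]))))

/-- part of a tree -/
def t24_0 : Tree := .s13 ⟨⟨.ofNat 1913398, .ofNat 553270⟩, ⟨.ofNat 680229, .ofNat 890943⟩, ⟨.ofNat 614733, .ofNat 342556⟩, ⟨.ofNat 469515, .ofNat 210714⟩⟩ ⟨.negSucc 1044, .ofNat 3062⟩ ⟨.ofNat 103, .ofNat 103⟩ ⟨.ofNat 0, .ofNat 1⟩ 3 t24_1 (.s01 ⟨⟨.ofNat 0, .ofNat 127512⟩, ⟨.negSucc 14328, .ofNat 90622⟩, ⟨.ofNat 94116, .negSucc 7175⟩, ⟨.ofNat 33396, .ofNat 7176⟩⟩ ⟨.ofNat 0, .ofNat 264⟩ ⟨.ofNat 483, .negSucc 166⟩ ⟨.ofNat 1,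 .ofNat 1⟩ 5 (.leaf 6 [0, 0, 64, 64, 0, 11, 0]) (.s03 ⟨⟨.ofNat 251973694, .ofNat 519203104⟩, ⟨.ofNat 692937819, .ofNat 441126⟩, ⟨.ofNat 216925266, .ofNat 124943107⟩, ⟨.ofNat 50304144, .ofNat 127030587⟩⟩ ⟨.negSucc 275879, .ofNat 808368⟩ ⟨.ofNat 483, .negSucc 166⟩ ⟨.ofNat 0, .ofNat 1⟩ 6 (.leaf 7 [0, 64, 4, 0]) (.s02 ⟨⟨.ofNat 0, .ofNat 25⟩, ⟨.ofNat 25, .ofNat 0⟩, ⟨.ofNat 16, .ofNat 0⟩, ⟨.ofNat 9, .ofNat 0⟩⟩ ⟨.ofNat 221650, .negSucc 124774⟩ ⟨.negSucc 649, .ofNat 483⟩ ⟨.ofNat 2488416, .ofNat 177744⟩ 6 (.leaf 7 [20]) (.leaf 7 [59]))))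

/-- part of a tree -/
def t24 : Tree := .s23 ⟨⟨.ofNat 475225, .ofNat 128800⟩, ⟨.ofNat 221650, .ofNat 128800⟩, ⟨.ofNat 141856, .ofNat 82432⟩, ⟨.ofNat 79794, .ofNat 46368⟩⟩ ⟨.ofNat 775, .ofNat 0⟩ ⟨.ofNat 0, .ofNat 16⟩ ⟨.ofNat 1, .ofNat 0⟩ 6 t24_0 (.s23 ⟨⟨.ofNat 7095803, .ofNat 2806391⟩, ⟨.ofNat 3803514, .ofNat 2210208⟩, ⟨.ofNat 2593305, .ofNat 1506960⟩, ⟨.ofNat 1210209, .ofNat 703248⟩⟩ ⟨.negSucc 42710, .ofNat 101959⟩ ⟨.negSucc 142, .ofNat 143⟩ ⟨.negSucc 15, .ofNat 16⟩ 6 (.s01 ⟨⟨.ofNat 0, .ofNat 127512⟩, ⟨.negSucc 14328, .ofNat 90622⟩, ⟨.ofNat 94116, .negSucc 7175⟩, ⟨.ofNat 33396, .ofNat 7176⟩⟩ ⟨.ofNat 0, .ofNat 264⟩ ⟨.ofNat 483, .negSucc 166⟩ ⟨.ofNat 1, .ofNat 1⟩ 5 (.leaf 6 [4, 0, 64, 64, 0]) (.s02 ⟨⟨.ofNat 2274286,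 .ofNat 1261274⟩, ⟨.negSucc 1013011, .ofNat 2274286⟩, ⟨.negSucc 246544, .ofNat 1259074⟩, ⟨.negSucc 766466, .ofNat 1015212⟩⟩ ⟨.negSucc 149196, .ofNat 1379870⟩ ⟨.ofNat 316, .ofNat 149⟩ ⟨.ofNat 598, .ofNat 897⟩ 6 (.leaf 6 [64]) (.s03 ⟨⟨.ofNat 0, .ofNat 25⟩, ⟨.ofNat 25, .ofNat 0⟩, ⟨.ofNat 16, .ofNat 0⟩, ⟨.ofNat 9, .ofNat 0⟩⟩ ⟨.ofNat 221650, .negSucc 124774⟩ ⟨.negSucc 649, .ofNat 483⟩ ⟨.ofNat 2488416, .ofNat 177744⟩ 6 (.leaf 6 [37]) (.leaf 6 [57, 0])))) (.s01 ⟨⟨.ofNat 0, .ofNat 127512⟩, ⟨.negSucc 14328, .ofNat 90622⟩, ⟨.ofNat 94116, .negSucc 7175⟩, ⟨.ofNat 33396, .ofNat 7176⟩⟩ ⟨.ofNat 0, .ofNat 264⟩ ⟨.ofNat 483, .negSucc 166⟩ ⟨.ofNat 1, .ofNat 1⟩ 5 (.leaf 5 [0, 0, 64, 64, 9]) (.s02 ⟨⟨.ofNat 0, .ofNat 161⟩, ⟨.ofNat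 161, .ofNat 0⟩, ⟨.ofNat 239, .negSucc 77⟩, ⟨.negSucc 77, .ofNat 78⟩⟩ ⟨.ofNat 125, .negSucc 35⟩ ⟨.negSucc 166, .ofNat 316⟩ ⟨.ofNat 208, .ofNat 416⟩ 6 (.leaf 5 [58]) (.s03 ⟨⟨.ofNat 2274286, .ofNat 1261274⟩, ⟨.negSucc 1013011, .ofNat 2274286⟩, ⟨.negSucc 246544, .ofNat 1259074⟩, ⟨.negSucc 766466, .ofNat 1015212⟩⟩ ⟨.negSucc 149196, .ofNat 1379870⟩ ⟨.ofNat 316, .ofNat 149⟩ ⟨.ofNat 598, .ofNat 897⟩ 6 (.leaf 6 [64]) (.leaf 6 [45, 64])))))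

theorem g24 : Good (PE lin H) ⟨⟨.ofNat 1133, .ofNat 0⟩, ⟨.ofNat 650, .ofNat 0⟩, ⟨.ofNat 416, .ofNat 0⟩, ⟨.ofNat 234, .ofNat 0⟩⟩
    ⟨⟨.ofNat 264, .ofNat 0⟩, ⟨.ofNat 187, .ofNat 84⟩, ⟨.ofNat 180, .ofNat 0⟩, ⟨.ofNat 84, .ofNat 0⟩⟩
    ⟨⟨.ofNat 447, .ofNat 0⟩, ⟨.ofNat 286, .ofNat 0⟩, ⟨.ofNat 208, .ofNat 0⟩, ⟨.ofNat 78, .ofNat 0⟩⟩
    ⟨⟨.ofNat 0, .ofNat 8050⟩, ⟨.ofNat 8050, .ofNat 0⟩, ⟨.ofNat 6361, .negSucc 1208⟩, ⟨.ofNat 1689, .ofNat 1209⟩⟩ :=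
  goodE lin H t24 8 28 5 6 (by decide +kernel)

/-- part of a tree -/
def t25_0 : Tree := .s03 ⟨⟨.ofNat 306192256, .negSucc 58159759⟩, ⟨.ofNat 60399261, .ofNat 58552143⟩, ⟨.ofNat 34918611, .ofNat 29671018⟩, ⟨.ofNat 62246379, .negSucc 1847117⟩⟩ ⟨.negSucc 1044, .ofNat 3062⟩ ⟨.ofNat 8671, .ofNat 247⟩ ⟨.ofNat 0, .ofNat 1⟩ 3 (.s23 ⟨⟨.ofNat 883435, .ofNat 32857⟩, ⟨.ofNat 177450, .ofNat 228150⟩, ⟨.ofNat 50700, .ofNat 177450⟩, ⟨.ofNat 126750, .ofNat 50700⟩⟩ ⟨.ofNat 595, .ofNat 29⟩ ⟨.negSucc 25, .ofNat 26⟩ ⟨.ofNat 1, .ofNat 0⟩ 8 (.s12 ⟨⟨.negSucc 32866769, .ofNat 91251442⟩, ⟨.ofNat 27369501, .ofNat 27948717⟩, ⟨.ofNat 97327927, .negSucc 33445985⟩, ⟨.ofNat 26790285, .ofNat 579216⟩⟩ ⟨.ofNat 483, .negSucc 166⟩ ⟨.negSucc 527,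 .ofNat 1320⟩ ⟨.ofNat 7, .ofNat 7⟩ 6 (.s02 ⟨⟨.negSucc 37598145, .ofNat 236821662⟩, ⟨.ofNat 88665099, .ofNat 82378704⟩, ⟨.ofNat 179468314, .negSucc 31311750⟩, ⟨.ofNat 94951494, .negSucc 6286394⟩⟩ ⟨.ofNat 316, .ofNat 149⟩ ⟨.negSucc 18593, .ofNat 130092⟩ ⟨.ofNat 273, .ofNat 364⟩ 5 (.s23 ⟨⟨.negSucc 155525, .ofNat 1423571⟩, ⟨.ofNat 0, .ofNat 785850⟩, ⟨.ofNat 0, .ofNat 471510⟩, ⟨.ofNat 0, .ofNat 314340⟩⟩ ⟨.ofNat 887, .ofNat 565⟩ ⟨.ofNat 25350, .ofNat 10140⟩ ⟨.ofNat 29, .ofNat 624⟩ 8 (.leaf 8 [46, 0]) (.leaf 7 [30, 36])) (.leaf 8 [1])) (.leaf 8 [0, 0, 1])) (.s12 ⟨⟨.ofNat 251973694, .ofNat 519203104⟩, ⟨.ofNat 692937819, .ofNat 441126⟩, ⟨.ofNat 216925266, .ofNat 124943107⟩, ⟨.ofNat 50304144, .ofNat 127030587⟩⟩ ⟨.ofNat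 483, .negSucc 166⟩ ⟨.negSucc 275879, .ofNat 808368⟩ ⟨.ofNat 0, .ofNat 1⟩ 6 (.s02 ⟨⟨.ofNat 3824585590, .ofNat 2316223280⟩, ⟨.negSucc 3269090285, .ofNat 5043816477⟩, ⟨.negSucc 2130828352, .ofNat 3086390335⟩, ⟨.ofNat 622466043, .ofNat 738195255⟩⟩ ⟨.ofNat 316, .ofNat 149⟩ ⟨.negSucc 7290761, .ofNat 80638182⟩ ⟨.ofNat 13, .ofNat 13⟩ 5 (.leaf 7 [19]) (.s03 ⟨⟨.negSucc 37598145, .ofNat 236821662⟩, ⟨.ofNat 88665099, .ofNat 82378704⟩, ⟨.ofNat 179468314, .negSucc 31311750⟩, ⟨.ofNat 94951494, .negSucc 6286394⟩⟩ ⟨.ofNat 316, .ofNat 149⟩ ⟨.negSucc 18593, .ofNat 130092⟩ ⟨.ofNat 273, .ofNat 364⟩ 5 (.leaf 7 [36, 0]) (.leaf 7 [64, 17]))) (.s13 ⟨⟨.negSucc 32866769, .ofNat 91251442⟩, ⟨.ofNat 27369501, .ofNat 27948717⟩, ⟨.ofNat 97327927,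 .negSucc 33445985⟩, ⟨.ofNat 26790285, .ofNat 579216⟩⟩ ⟨.ofNat 483, .negSucc 166⟩ ⟨.negSucc 527, .ofNat 1320⟩ ⟨.ofNat 7, .ofNat 7⟩ 6 (.s03 ⟨⟨.negSucc 37598145, .ofNat 236821662⟩, ⟨.ofNat 88665099, .ofNat 82378704⟩, ⟨.ofNat 179468314, .negSucc 31311750⟩, ⟨.ofNat 94951494, .negSucc 6286394⟩⟩ ⟨.ofNat 316, .ofNat 149⟩ ⟨.negSucc 18593, .ofNat 130092⟩ ⟨.ofNat 273, .ofNat 364⟩ 5 (.leaf 7 [42, 0]) (.leaf 7 [64, 17])) (.leaf 7 [0, 0, 64, 32])))) (.s12 ⟨⟨.ofNat 251973694, .ofNat 519203104⟩, ⟨.ofNat 692937819, .ofNat 441126⟩, ⟨.ofNat 216925266, .ofNat 124943107⟩, ⟨.ofNat 50304144, .ofNat 127030587⟩⟩ ⟨.ofNat 483, .negSucc 166⟩ ⟨.negSucc 275879, .ofNat 808368⟩ ⟨.ofNat 0, .ofNat 1⟩ 6 (.s02 ⟨⟨.ofNat 0, .ofNat 623070⟩, ⟨.negSucc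 369816, .ofNat 634354⟩, ⟨.ofNat 258726, .ofNat 80340⟩, ⟨.ofNat 364344, .negSucc 80339⟩⟩ ⟨.negSucc 166, .ofNat 316⟩ ⟨.ofNat 22782, .ofNat 5394⟩ ⟨.ofNat 13, .ofNat 26⟩ 5 (.s23 ⟨⟨.ofNat 3824585590, .ofNat 2316223280⟩, ⟨.negSucc 3269090285, .ofNat 5043816477⟩, ⟨.negSucc 2130828352, .ofNat 3086390335⟩, ⟨.ofNat 622466043, .ofNat 738195255⟩⟩ ⟨.negSucc 7290761, .ofNat 80638182⟩ ⟨.ofNat 316, .ofNat 149⟩ ⟨.ofNat 13, .ofNat 13⟩ 5 (.leaf 7 [64, 17]) (.leaf 7 [19])) (.leaf 7 [64, 0, 64, 17])) (.leaf 8 [0, 64, 0, 0, 0]))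

/-- part of a tree -/
def t25 : Tree := .s13 ⟨⟨.ofNat 1913398, .ofNat 553270⟩, ⟨.ofNat 680229, .ofNat 890943⟩, ⟨.ofNat 614733, .ofNat 342556⟩, ⟨.ofNat 469515, .ofNat 210714⟩⟩ ⟨.negSucc 1044, .ofNat 3062⟩ ⟨.ofNat 103, .ofNat 103⟩ ⟨.ofNat 0, .ofNat 1⟩ 3 t25_0 (.s12 ⟨⟨.ofNat 0, .ofNat 127512⟩, ⟨.negSucc 14328, .ofNat 90622⟩, ⟨.ofNat 94116, .negSucc 7175⟩, ⟨.ofNat 33396, .ofNat 7176⟩⟩ ⟨.ofNat 483, .negSucc 166⟩ ⟨.ofNat 0, .ofNat 264⟩ ⟨.ofNat 1, .ofNat 1⟩ 5 (.s23 ⟨⟨.ofNat 251973694, .ofNat 519203104⟩, ⟨.ofNat 692937819, .ofNat 441126⟩, ⟨.ofNat 216925266, .ofNat 124943107⟩, ⟨.ofNat 50304144, .ofNat 127030587⟩⟩ ⟨.negSucc 275879, .ofNat 808368⟩ ⟨.ofNat 483, .negSucc 166⟩ ⟨.ofNat 0, .ofNat 1⟩ 6 (.leaf 7 [0, 64, 64,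 41, 0]) (.leaf 7 [64, 1, 64, 0, 0, 0])) (.leaf 7 [64, 0, 2, 64, 0, 0, 0]))

theorem g25 : Good (PE lin H) ⟨⟨.ofNat 57558, .ofNat 0⟩, ⟨.ofNat 33163, .ofNat 7644⟩, ⟨.ofNat 24102, .ofNat 0⟩, ⟨.ofNat 16068, .ofNat 0⟩⟩
    ⟨⟨.ofNat 264, .ofNat 0⟩, ⟨.ofNat 187, .ofNat 84⟩, ⟨.ofNat 180, .ofNat 0⟩, ⟨.ofNat 84, .ofNat 0⟩⟩
    ⟨⟨.ofNat 1133, .ofNat 0⟩, ⟨.ofNat 650, .ofNat 0⟩, ⟨.ofNat 416, .ofNat 0⟩, ⟨.ofNat 234, .ofNat 0⟩⟩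
    ⟨⟨.ofNat 0, .ofNat 8050⟩, ⟨.ofNat 8050, .ofNat 0⟩, ⟨.ofNat 6361, .negSucc 1208⟩, ⟨.ofNat 1689, .ofNat 1209⟩⟩ :=
  goodE lin H t25 2 28 8 6 (by decide +kernel)

/-- part of a tree -/
def t26_1 : Tree := .s23 ⟨⟨.ofNat 883435, .ofNat 32857⟩, ⟨.ofNat 177450, .ofNat 228150⟩, ⟨.ofNat 50700, .ofNat 177450⟩, ⟨.ofNat 126750, .ofNat 50700⟩⟩ ⟨.ofNat 595, .ofNat 29⟩ ⟨.negSucc 25, .ofNat 26⟩ ⟨.ofNat 1, .ofNat 0⟩ 8 (.s01 ⟨⟨.negSucc 1429208269, .ofNat 15258812030⟩, ⟨.ofNat 26389011831, .negSucc 6860936081⟩, ⟨.ofNat 14188800556, .negSucc 3650013160⟩, ⟨.ofNat 2499219744, .ofNat 2220804891⟩⟩ ⟨.negSucc 7290761, .ofNat 80638182⟩ ⟨.ofNat 1592, .ofNat 1413⟩ ⟨.ofNat 13, .ofNat 26⟩ 5 (.s12 ⟨⟨.negSucc 37598145, .ofNat 236821662⟩,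 ⟨.ofNat 88665099, .ofNat 82378704⟩, ⟨.ofNat 179468314, .negSucc 31311750⟩, ⟨.ofNat 94951494, .negSucc 6286394⟩⟩ ⟨.ofNat 316, .ofNat 149⟩ ⟨.negSucc 18593, .ofNat 130092⟩ ⟨.ofNat 273, .ofNat 364⟩ 5 (.s23 ⟨⟨.negSucc 155525, .ofNat 1423571⟩, ⟨.ofNat 0, .ofNat 785850⟩, ⟨.ofNat 0, .ofNat 471510⟩, ⟨.ofNat 0, .ofNat 314340⟩⟩ ⟨.ofNat 887, .ofNat 565⟩ ⟨.ofNat 25350, .ofNat 10140⟩ ⟨.ofNat 29, .ofNat 624⟩ 8 (.leaf 8 [29, 64]) (.leaf 7 [12, 64, 0])) (.leaf 8 [64])) (.s03 ⟨⟨.negSucc 28818999, .ofNat 256312000⟩, ⟨.negSucc 15850449, .ofNat 140971600⟩, ⟨.negSucc 9967266, .ofNat 79096645⟩, ⟨.negSucc 5883182, .ofNat 61874955⟩⟩ ⟨.negSucc 16099, .ofNat 56350⟩ ⟨.ofNat 1931, .ofNat 3862⟩ ⟨.ofNat 1, .ofNat 0⟩ 9 (.s23 ⟨⟨.negSucc 155525,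 .ofNat 1423571⟩, ⟨.ofNat 0, .ofNat 785850⟩, ⟨.ofNat 0, .ofNat 471510⟩, ⟨.ofNat 0, .ofNat 314340⟩⟩ ⟨.ofNat 887, .ofNat 565⟩ ⟨.ofNat 25350, .ofNat 10140⟩ ⟨.ofNat 29, .ofNat 624⟩ 8 (.leaf 8 [0, 55, 64]) (.s02 ⟨⟨.negSucc 25322065590, .ofNat 12561919281059⟩, ⟨.negSucc 457559058449, .ofNat 7477025518950⟩, ⟨.negSucc 274535435069, .ofNat 4486215311370⟩, ⟨.negSucc 183023623379, .ofNat 2990810207580⟩⟩ ⟨.ofNat 96330, .negSucc 55769⟩ ⟨.ofNat 5029318, .ofNat 456997⟩ ⟨.ofNat 2, .negSucc 0⟩ 8 (.leaf 8 [0, 0, 0]) (.leaf 8 [0, 55, 64, 64]))) (.s01 ⟨⟨.negSucc 28584165399, .ofNat 305176240600⟩, ⟨.negSucc 16618089851, .ofNat 171514459389⟩, ⟨.negSucc 9606646980, .ofNat 95284410625⟩, ⟨.negSucc 6114643988, .ofNat 72562521705⟩⟩ ⟨.negSucc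 43380498489, .ofNat 109670100750⟩ ⟨.ofNat 1931, .ofNat 3862⟩ ⟨.ofNat 1771, .negSucc 178⟩ 9 (.s23 ⟨⟨.negSucc 25322065590, .ofNat 12561919281059⟩, ⟨.negSucc 457559058449, .ofNat 7477025518950⟩, ⟨.negSucc 274535435069, .ofNat 4486215311370⟩, ⟨.negSucc 183023623379, .ofNat 2990810207580⟩⟩ ⟨.ofNat 5029318, .ofNat 456997⟩ ⟨.ofNat 96330, .negSucc 55769⟩ ⟨.ofNat 2, .negSucc 0⟩ 8 (.leaf 8 [0, 50, 64, 64]) (.leaf 8 [0, 64, 10, 0])) (.s02 ⟨⟨.ofNat 130088000, .ofNat 58926000⟩, ⟨.ofNat 71548400, .ofNat 32409300⟩, ⟨.ofNat 41322254, .ofNat 19429461⟩, ⟨.ofNat 30226146, .ofNat 12979839⟩⟩ ⟨.ofNat 2234361, .ofNat 267149⟩ ⟨.ofNat 1931, .ofNat 3862⟩ ⟨.ofNat 78, .ofNat 0⟩ 9 (.s23 ⟨⟨.negSucc 25322065590, .ofNat 12561919281059⟩, ⟨.negSucc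 457559058449, .ofNat 7477025518950⟩, ⟨.negSucc 274535435069, .ofNat 4486215311370⟩, ⟨.negSucc 183023623379, .ofNat 2990810207580⟩⟩ ⟨.ofNat 5029318, .ofNat 456997⟩ ⟨.ofNat 96330, .negSucc 55769⟩ ⟨.ofNat 2, .negSucc 0⟩ 8 (.leaf 8 [60, 64, 64]) (.leaf 8 [64, 10, 0])) (.leaf 8 [60, 64]))))) (.s02 ⟨⟨.ofNat 356, .ofNat 0⟩, ⟨.ofNat 195, .ofNat 0⟩, ⟨.ofNat 117, .ofNat 0⟩, ⟨.ofNat 78, .ofNat 0⟩⟩ ⟨.ofNat 1, .ofNat 0⟩ ⟨.ofNat 3, .ofNat 0⟩ ⟨.ofNat 20, .ofNat 0⟩ 9 (.s01 ⟨⟨.ofNat 1336628440, .ofNat 1038913680⟩, ⟨.negSucc 833410346, .ofNat 1732976259⟩, ⟨.negSucc 502124910, .ofNat 989897920⟩, ⟨.ofNat 204410151, .ofNat 346730520⟩⟩ ⟨.negSucc 7290761, .ofNat 80638182⟩ ⟨.ofNat 127, .ofNat 93⟩ ⟨.ofNat 13, .ofNat 13⟩ 5 (.s12 ⟨⟨.ofNat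 3824585590, .ofNat 2316223280⟩, ⟨.negSucc 3269090285, .ofNat 5043816477⟩, ⟨.negSucc 2130828352, .ofNat 3086390335⟩, ⟨.ofNat 622466043, .ofNat 738195255⟩⟩ ⟨.ofNat 316, .ofNat 149⟩ ⟨.negSucc 7290761, .ofNat 80638182⟩ ⟨.ofNat 13, .ofNat 13⟩ 5 (.leaf 7 [59, 0, 0, 0]) (.s13 ⟨⟨.negSucc 37598145, .ofNat 236821662⟩, ⟨.ofNat 88665099, .ofNat 82378704⟩, ⟨.ofNat 179468314, .negSucc 31311750⟩, ⟨.ofNat 94951494, .negSucc 6286394⟩⟩ ⟨.ofNat 316, .ofNat 149⟩ ⟨.negSucc 18593, .ofNat 130092⟩ ⟨.ofNat 273, .ofNat 364⟩ 5 (.leaf 7 [43, 62, 0, 0]) (.leaf 8 [9, 64, 64]))) (.leaf 7 [64, 0, 45, 0, 0])) (.s01 ⟨⟨.negSucc 1429208269, .ofNat 15258812030⟩, ⟨.ofNat 26389011831, .negSucc 6860936081⟩, ⟨.ofNat 14188800556, .negSucc 3650013160⟩,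 ⟨.ofNat 2499219744, .ofNat 2220804891⟩⟩ ⟨.negSucc 7290761, .ofNat 80638182⟩ ⟨.ofNat 1592, .ofNat 1413⟩ ⟨.ofNat 13, .ofNat 26⟩ 5 (.s12 ⟨⟨.ofNat 1336628440, .ofNat 1038913680⟩, ⟨.negSucc 833410346, .ofNat 1732976259⟩, ⟨.negSucc 502124910, .ofNat 989897920⟩, ⟨.ofNat 204410151, .ofNat 346730520⟩⟩ ⟨.ofNat 127, .ofNat 93⟩ ⟨.negSucc 7290761, .ofNat 80638182⟩ ⟨.ofNat 13, .ofNat 13⟩ 5 (.leaf 8 [64, 0, 0, 0]) (.s13 ⟨⟨.negSucc 37598145, .ofNat 236821662⟩, ⟨.ofNat 88665099, .ofNat 82378704⟩, ⟨.ofNat 179468314, .negSucc 31311750⟩, ⟨.ofNat 94951494, .negSucc 6286394⟩⟩ ⟨.ofNat 316, .ofNat 149⟩ ⟨.negSucc 18593, .ofNat 130092⟩ ⟨.ofNat 273, .ofNat 364⟩ 5 (.leaf 8 [9, 0, 0]) (.leaf 8 [0]))) (.s01 ⟨⟨.negSucc 28584165399, .ofNat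 305176240600⟩, ⟨.negSucc 16618089851, .ofNat 171514459389⟩, ⟨.negSucc 9606646980, .ofNat 95284410625⟩, ⟨.negSucc 6114643988, .ofNat 72562521705⟩⟩ ⟨.negSucc 43380498489, .ofNat 109670100750⟩ ⟨.ofNat 1931, .ofNat 3862⟩ ⟨.ofNat 1771, .negSucc 178⟩ 9 (.leaf 8 [64, 0, 64, 10, 0]) (.s03 ⟨⟨.ofNat 130088000, .ofNat 58926000⟩, ⟨.ofNat 71548400, .ofNat 32409300⟩, ⟨.ofNat 41322254, .ofNat 19429461⟩, ⟨.ofNat 30226146, .ofNat 12979839⟩⟩ ⟨.ofNat 2234361, .ofNat 267149⟩ ⟨.ofNat 1931, .ofNat 3862⟩ ⟨.ofNat 78, .ofNat 0⟩ 9 (.leaf 8 [64, 64, 10, 0]) (.leaf 8 [62, 64, 0])))))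

/-- part of a tree -/
def t26_0 : Tree := .s13 ⟨⟨.ofNat 306192256, .negSucc 58159759⟩, ⟨.ofNat 60399261, .ofNat 58552143⟩, ⟨.ofNat 34918611, .ofNat 29671018⟩, ⟨.ofNat 62246379, .negSucc 1847117⟩⟩ ⟨.negSucc 1044, .ofNat 3062⟩ ⟨.ofNat 8671, .ofNat 247⟩ ⟨.ofNat 0, .ofNat 1⟩ 3 t26_1 (.s02 ⟨⟨.ofNat 356, .ofNat 0⟩, ⟨.ofNat 195, .ofNat 0⟩, ⟨.ofNat 117, .ofNat 0⟩, ⟨.ofNat 78, .ofNat 0⟩⟩ ⟨.ofNat 1, .ofNat 0⟩ ⟨.ofNat 3, .ofNat 0⟩ ⟨.ofNat 20, .ofNat 0⟩ 9 (.s01 ⟨⟨.ofNat 0, .ofNat 4830⟩, ⟨.negSucc 1425, .ofNat 4077⟩, ⟨.ofNat 2898, .ofNat 0⟩, ⟨.ofNat 1932, .ofNat 0⟩⟩ ⟨.ofNat 22782, .ofNat 5394⟩ ⟨.negSucc 33, .ofNat 127⟩ ⟨.ofNat 637, .ofNat 1274⟩ 5 (.s12 ⟨⟨.ofNat 0, .ofNat 623070⟩, ⟨.negSucc 369816, .ofNat 634354⟩, ⟨.ofNat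 258726, .ofNat 80340⟩, ⟨.ofNat 364344, .negSucc 80339⟩⟩ ⟨.negSucc 166, .ofNat 316⟩ ⟨.ofNat 22782, .ofNat 5394⟩ ⟨.ofNat 13, .ofNat 26⟩ 5 (.s23 ⟨⟨.ofNat 3824585590, .ofNat 2316223280⟩, ⟨.negSucc 3269090285, .ofNat 5043816477⟩, ⟨.negSucc 2130828352, .ofNat 3086390335⟩, ⟨.ofNat 622466043, .ofNat 738195255⟩⟩ ⟨.negSucc 7290761, .ofNat 80638182⟩ ⟨.ofNat 316, .ofNat 149⟩ ⟨.ofNat 13, .ofNat 13⟩ 5 (.leaf 7 [64, 18]) (.leaf 7 [19, 0])) (.leaf 7 [64, 0, 64, 18])) (.s03 ⟨⟨.ofNat 1336628440, .ofNat 1038913680⟩, ⟨.negSucc 833410346, .ofNat 1732976259⟩, ⟨.negSucc 502124910, .ofNat 989897920⟩, ⟨.ofNat 204410151, .ofNat 346730520⟩⟩ ⟨.negSucc 7290761, .ofNat 80638182⟩ ⟨.ofNat 127, .ofNat 93⟩ ⟨.ofNat 13, .ofNat 13⟩ 5 (.s23 ⟨⟨.ofNat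 3824585590, .ofNat 2316223280⟩, ⟨.negSucc 3269090285, .ofNat 5043816477⟩, ⟨.negSucc 2130828352, .ofNat 3086390335⟩, ⟨.ofNat 622466043, .ofNat 738195255⟩⟩ ⟨.negSucc 7290761, .ofNat 80638182⟩ ⟨.ofNat 316, .ofNat 149⟩ ⟨.ofNat 13, .ofNat 13⟩ 5 (.leaf 8 [9, 64, 64]) (.leaf 7 [59, 0, 0, 0])) (.leaf 7 [64, 0, 45, 0, 0]))) (.s01 ⟨⟨.ofNat 0, .ofNat 2864190⟩, ⟨.negSucc 288028, .ofNat 2092398⟩, ⟨.ofNat 2063862, .negSucc 241019⟩, ⟨.ofNat 800328, .ofNat 241020⟩⟩ ⟨.ofNat 22782, .ofNat 5394⟩ ⟨.negSucc 178, .ofNat 1592⟩ ⟨.ofNat 13, .ofNat 26⟩ 4 (.s12 ⟨⟨.ofNat 0, .ofNat 4830⟩, ⟨.negSucc 1425, .ofNat 4077⟩, ⟨.ofNat 2898, .ofNat 0⟩, ⟨.ofNat 1932, .ofNat 0⟩⟩ ⟨.negSucc 33, .ofNat 127⟩ ⟨.ofNat 22782, .ofNat 5394⟩ ⟨.ofNat 637, .ofNat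 1274⟩ 5 (.s23 ⟨⟨.ofNat 1336628440, .ofNat 1038913680⟩, ⟨.negSucc 833410346, .ofNat 1732976259⟩, ⟨.negSucc 502124910, .ofNat 989897920⟩, ⟨.ofNat 204410151, .ofNat 346730520⟩⟩ ⟨.negSucc 7290761, .ofNat 80638182⟩ ⟨.ofNat 127, .ofNat 93⟩ ⟨.ofNat 13, .ofNat 13⟩ 5 (.leaf 8 [32, 64]) (.leaf 8 [64, 0, 64, 44, 0])) (.leaf 8 [64, 0, 12, 64])) (.s03 ⟨⟨.negSucc 1429208269, .ofNat 15258812030⟩, ⟨.ofNat 26389011831, .negSucc 6860936081⟩, ⟨.ofNat 14188800556, .negSucc 3650013160⟩, ⟨.ofNat 2499219744, .ofNat 2220804891⟩⟩ ⟨.negSucc 7290761, .ofNat 80638182⟩ ⟨.ofNat 1592, .ofNat 1413⟩ ⟨.ofNat 13, .ofNat 26⟩ 5 (.s23 ⟨⟨.ofNat 1336628440, .ofNat 1038913680⟩, ⟨.negSucc 833410346, .ofNat 1732976259⟩, ⟨.negSucc 502124910, .ofNat 989897920⟩,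 ⟨.ofNat 204410151, .ofNat 346730520⟩⟩ ⟨.negSucc 7290761, .ofNat 80638182⟩ ⟨.ofNat 127, .ofNat 93⟩ ⟨.ofNat 13, .ofNat 13⟩ 5 (.leaf 8 []) (.leaf 8 [64, 0, 36, 0])) (.leaf 8 [17, 0, 63, 64, 64]))))

/-- part of a tree -/
def t26 : Tree := .s02 ⟨⟨.ofNat 3721, .ofNat 0⟩, ⟨.ofNat 1950, .ofNat 0⟩, ⟨.ofNat 1092, .ofNat 0⟩, ⟨.ofNat 858, .ofNat 0⟩⟩ ⟨.ofNat 100, .ofNat 0⟩ ⟨.ofNat 47, .ofNat 0⟩ ⟨.ofNat 31, .ofNat 0⟩ 9 t26_0 (.s01 ⟨⟨.negSucc 7727, .ofNat 23184⟩, ⟨.negSucc 160, .ofNat 12558⟩, ⟨.ofNat 28380, .negSucc 11111⟩, ⟨.ofNat 2532, .ofNat 3384⟩⟩ ⟨.negSucc 599, .ofNat 7194⟩ ⟨.ofNat 92, .ofNat 69⟩ ⟨.ofNat 182, .ofNat 273⟩ 4 (.s12 ⟨⟨.ofNat 0, .ofNat 2864190⟩, ⟨.negSucc 288028, .ofNat 2092398⟩, ⟨.ofNat 2063862, .negSucc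 241019⟩, ⟨.ofNat 800328, .ofNat 241020⟩⟩ ⟨.negSucc 178, .ofNat 1592⟩ ⟨.ofNat 22782, .ofNat 5394⟩ ⟨.ofNat 13, .ofNat 26⟩ 4 (.s23 ⟨⟨.negSucc 28818999, .ofNat 256312000⟩, ⟨.negSucc 15850449, .ofNat 140971600⟩, ⟨.negSucc 9967266, .ofNat 79096645⟩, ⟨.negSucc 5883182, .ofNat 61874955⟩⟩ ⟨.negSucc 16099, .ofNat 56350⟩ ⟨.ofNat 1931, .ofNat 3862⟩ ⟨.ofNat 1, .ofNat 0⟩ 9 (.leaf 8 [0, 49]) (.leaf 8 [64, 0, 1])) (.leaf 8 [64, 0, 63])) (.s03 ⟨⟨.ofNat 161000, .ofNat 0⟩, ⟨.ofNat 88550, .ofNat 0⟩, ⟨.ofNat 45791, .ofNat 0⟩, ⟨.ofNat 42759, .ofNat 0⟩⟩ ⟨.negSucc 699, .ofNat 2450⟩ ⟨.ofNat 37, .ofNat 74⟩ ⟨.ofNat 1, .ofNat 15⟩ 9 (.leaf 9 [64, 0, 5]) (.s01 ⟨⟨.ofNat 1700160, .ofNat 0⟩, ⟨.ofNat 869561, .ofNat 71484⟩, ⟨.ofNat 492948, .ofNat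 0⟩, ⟨.ofNat 442140, .ofNat 0⟩⟩ ⟨.ofNat 7728, .ofNat 2688⟩ ⟨.ofNat 74, .ofNat 111⟩ ⟨.ofNat 4, .ofNat 3⟩ 8 (.leaf 9 [56, 0, 0]) (.leaf 9 [50]))))

theorem g26 : Good (PE lin H) ⟨⟨.ofNat 621, .ofNat 0⟩, ⟨.ofNat 299, .ofNat 0⟩, ⟨.ofNat 143, .ofNat 0⟩, ⟨.ofNat 156, .ofNat 0⟩⟩
    ⟨⟨.ofNat 57558, .ofNat 0⟩, ⟨.ofNat 33163, .ofNat 7644⟩, ⟨.ofNat 24102, .ofNat 0⟩, ⟨.ofNat 16068, .ofNat 0⟩⟩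
    ⟨⟨.ofNat 1133, .ofNat 0⟩, ⟨.ofNat 650, .ofNat 0⟩, ⟨.ofNat 416, .ofNat 0⟩, ⟨.ofNat 234, .ofNat 0⟩⟩
    ⟨⟨.ofNat 0, .ofNat 8050⟩, ⟨.ofNat 8050, .ofNat 0⟩, ⟨.ofNat 6361, .negSucc 1208⟩, ⟨.ofNat 1689, .ofNat 1209⟩⟩ :=
  goodE lin H t26 11 2 8 6 (by decide +kernel)

end

end Pool.Agent.PHCert.E2
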