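import Pool.Agent.PHCert.E2H

/-!
# PHCert: inequality E2, part 7 (85 leaves, checked by the kernel)
-/

set_option autoImplicit false

namespace Pool.Agent.PHCert.E2

open Zp Pool.Agent.PHCert

noncomputable section

/-- part of a tree -/
def t30 : Tree := .s01 ⟨⟨.ofNat 0, .ofNat 322⟩, ⟨.negSucc 130, .ofNat 311⟩, ⟨.ofNat 154, .ofNat 0⟩, ⟨.ofNat 168, .ofNat 0⟩⟩ ⟨.ofNat 0, .ofNat 1⟩ ⟨.ofNat 14, .ofNat 1⟩ ⟨.ofNat 1, .ofNat 1⟩ 4 (.s02 ⟨⟨.negSucc 2292, .ofNat 37175⟩, ⟨.ofNat 9198, .ofNat 24402⟩, ⟨.negSucc 12869, .ofNat 21971⟩, ⟨.negSucc 6005, .ofNat 15204⟩⟩ ⟨.ofNat 103, .ofNat 103⟩ ⟨.ofNat 156, .ofNat 13⟩ ⟨.ofNat 0, .ofNat 2⟩ 2 (.s23 ⟨⟨.ofNat 1913398, .ofNat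 553270⟩, ⟨.ofNat 680229, .ofNat 890943⟩, ⟨.ofNat 614733, .ofNat 342556⟩, ⟨.ofNat 469515, .ofNat 210714⟩⟩ ⟨.negSucc 1044, .ofNat 3062⟩ ⟨.ofNat 103, .ofNat 103⟩ ⟨.ofNat 0, .ofNat 1⟩ 3 (.leaf 9 [39, 0, 0, 0, 64, 0, 64, 0]) (.leaf 8 [64, 0, 64, 0, 64, 14, 64, 64, 64, 0])) (.leaf 10 [0, 0, 12, 0, 64, 64, 0, 64, 0])) (.s02 ⟨⟨.negSucc 7727, .ofNat 23184⟩, ⟨.negSucc 160, .ofNat 12558⟩, ⟨.ofNat 28380, .negSucc 11111⟩, ⟨.ofNat 2532, .ofNat 3384⟩⟩ ⟨.negSucc 23, .ofNat 72⟩ ⟨.ofNat 115, .negSucc 22⟩ ⟨.ofNat 1, .ofNat 1⟩ 4 (.s12 ⟨⟨.negSucc 2292, .ofNat 37175⟩, ⟨.ofNat 9198, .ofNat 24402⟩, ⟨.negSucc 12869, .ofNat 21971⟩, ⟨.negSucc 6005, .ofNat 15204⟩⟩ ⟨.ofNat 103,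 .ofNat 103⟩ ⟨.ofNat 156, .ofNat 13⟩ ⟨.ofNat 0, .ofNat 2⟩ 2 (.s23 ⟨⟨.ofNat 1913398, .ofNat 553270⟩, ⟨.ofNat 680229, .ofNat 890943⟩, ⟨.ofNat 614733, .ofNat 342556⟩, ⟨.ofNat 469515, .ofNat 210714⟩⟩ ⟨.negSucc 1044, .ofNat 3062⟩ ⟨.ofNat 103, .ofNat 103⟩ ⟨.ofNat 0, .ofNat 1⟩ 3 (.leaf 8 [0, 64, 0]) (.leaf 7 [0, 0, 64, 0, 0, 20, 64, 64])) (.leaf 9 [0, 54, 0, 13])) (.s12 ⟨⟨.ofNat 0, .ofNat 1932⟩, ⟨.negSucc 708, .ofNat 1782⟩, ⟨.ofNat 1008, .ofNat 0⟩, ⟨.ofNat 924, .ofNat 0⟩⟩ ⟨.ofNat 1632, .ofNat 678⟩ ⟨.ofNat 14, .ofNat 21⟩ ⟨.ofNat 412, .ofNat 309⟩ 4 (.s02 ⟨⟨.ofNat 682548, .ofNat 0⟩, ⟨.ofNat 346541, .ofNat 25116⟩, ⟨.ofNat 192816, .ofNat 0⟩, ⟨.ofNat 176748, .ofNat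 0⟩⟩ ⟨.ofNat 3264, .ofNat 1356⟩ ⟨.ofNat 26, .ofNat 39⟩ ⟨.ofNat 4, .ofNat 3⟩ 8 (.leaf 9 [64, 0, 64, 41]) (.s03 ⟨⟨.ofNat 49703, .ofNat 0⟩, ⟨.ofNat 27807, .ofNat 0⟩, ⟨.ofNat 14508, .ofNat 0⟩, ⟨.ofNat 13299, .ofNat 0⟩⟩ ⟨.negSucc 256, .ofNat 695⟩ ⟨.ofNat 13, .ofNat 26⟩ ⟨.ofNat 1, .ofNat 15⟩ 9 (.leaf 9 [64, 0, 64, 23]) (.leaf 10 [64, 24, 0, 64]))) (.s13 ⟨⟨.ofNat 4830, .ofNat 1932⟩, ⟨.ofNat 4794, .ofNat 251⟩, ⟨.negSucc 1511, .ofNat 2520⟩, ⟨.negSucc 1385, .ofNat 2310⟩⟩ ⟨.negSucc 256, .ofNat 695⟩ ⟨.ofNat 14, .ofNat 28⟩ ⟨.ofNat 73, .ofNat 50⟩ 5 (.s03 ⟨⟨.ofNat 49703, .ofNat 0⟩, ⟨.ofNat 27807, .ofNat 0⟩, ⟨.ofNat 14508, .ofNat 0⟩, ⟨.ofNat 13299, .ofNat 0⟩⟩ ⟨.negSucc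 256, .ofNat 695⟩ ⟨.ofNat 13, .ofNat 26⟩ ⟨.ofNat 1, .ofNat 15⟩ 9 (.leaf 9 [0, 64, 23, 0]) (.leaf 10 [64, 32, 0, 64, 0])) (.leaf 10 [64, 32, 0, 64, 0]))))

theorem g30 : Good (PE lin H) ⟨⟨.ofNat 621, .ofNat 0⟩, ⟨.ofNat 299, .ofNat 0⟩, ⟨.ofNat 143, .ofNat 0⟩, ⟨.ofNat 156, .ofNat 0⟩⟩
    ⟨⟨.ofNat 23, .ofNat 0⟩, ⟨.ofNat 12, .ofNat 12⟩, ⟨.ofNat 11, .ofNat 0⟩, ⟨.ofNat 12, .ofNat 0⟩⟩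
    ⟨⟨.ofNat 264, .ofNat 0⟩, ⟨.ofNat 187, .ofNat 84⟩, ⟨.ofNat 180, .ofNat 0⟩, ⟨.ofNat 84, .ofNat 0⟩⟩
    ⟨⟨.ofNat 0, .ofNat 8050⟩, ⟨.ofNat 8050, .ofNat 0⟩, ⟨.ofNat 6361, .negSucc 1208⟩, ⟨.ofNat 1689, .ofNat 1209⟩⟩ :=
  goodE lin H t30 11 29 28 6 (by decide +kernel)

/-- part of a tree -/
def t34 : Tree := .s23 ⟨⟨.ofNat 264, .ofNat 0⟩, ⟨.ofNat 187, .ofNat 84⟩, ⟨.ofNat 180, .ofNat 0⟩, ⟨.ofNat 84, .ofNat 0⟩⟩ ⟨.ofNat 103, .ofNat 0⟩ ⟨.ofNat 7, .ofNat 0⟩ ⟨.ofNat 1, .ofNat 0⟩ 28 (.s12 ⟨⟨.ofNat 286, .ofNat 0⟩, ⟨.ofNat 594, .ofNat 0⟩, ⟨.ofNat 195, .ofNat 0⟩, ⟨.ofNat 91, .ofNat 0⟩⟩ ⟨.negSucc 1091, .ofNat 3605⟩ ⟨.ofNat 0, .ofNat 13⟩ ⟨.ofNat 0, .ofNat 12⟩ 37 (.s03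 ⟨⟨.ofNat 0, .ofNat 23⟩, ⟨.ofNat 12, .ofNat 12⟩, ⟨.ofNat 11, .ofNat 0⟩, ⟨.ofNat 12, .ofNat 0⟩⟩ ⟨.ofNat 1, .ofNat 0⟩ ⟨.negSucc 12, .ofNat 14⟩ ⟨.ofNat 0, .ofNat 14⟩ 2 (.s23 ⟨⟨.ofNat 30, .ofNat 0⟩, ⟨.ofNat 19, .ofNat 12⟩, ⟨.ofNat 18, .ofNat 0⟩, ⟨.ofNat 12, .ofNat 0⟩⟩ ⟨.ofNat 7, .ofNat 0⟩ ⟨.ofNat 54, .ofNat 0⟩ ⟨.ofNat 103, .ofNat 0⟩ 29 (.leaf 9 [64, 64, 64, 19, 0, 28, 0, 0, 64, 64, 19, 0]) (.leaf 9 [64, 0, 64, 0, 0, 64, 33, 0, 64, 64, 0])) (.s02 ⟨⟨.ofNat 23184, .ofNat 15456⟩, ⟨.negSucc 4913, .ofNat 27061⟩, ⟨.negSucc 11111, .ofNat 17268⟩, ⟨.ofNat 3384, .ofNat 5916⟩⟩ ⟨.negSucc 23, .ofNat 72⟩ ⟨.ofNat 115, .negSucc 22⟩ ⟨.ofNat 0, .ofNat 1⟩ 2 (.leaf 9 [64, 0,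 64, 0, 0, 64, 33, 64, 64]) (.leaf 9 [64, 64, 64, 45, 0, 0, 64, 11, 0, 0, 1, 0, 0, 0]))) (.s13 ⟨⟨.ofNat 299, .ofNat 0⟩, ⟨.ofNat 621, .ofNat 0⟩, ⟨.ofNat 143, .ofNat 0⟩, ⟨.ofNat 156, .ofNat 0⟩⟩ ⟨.negSucc 155, .ofNat 309⟩ ⟨.ofNat 0, .ofNat 13⟩ ⟨.ofNat 0, .ofNat 1⟩ 37 (.s03 ⟨⟨.ofNat 0, .ofNat 23⟩, ⟨.ofNat 12, .ofNat 12⟩, ⟨.ofNat 11, .ofNat 0⟩, ⟨.ofNat 12, .ofNat 0⟩⟩ ⟨.ofNat 1, .ofNat 0⟩ ⟨.negSucc 12, .ofNat 14⟩ ⟨.ofNat 0, .ofNat 14⟩ 2 (.leaf 9 [64, 64, 64, 42, 0, 0, 0, 64, 64, 24, 0]) (.leaf 9 [64, 64, 64, 49, 0, 0, 64, 0, 0, 0, 0, 0, 21, 0])) (.s03 ⟨⟨.ofNat 4186, .ofNat 4186⟩, ⟨.negSucc 6044, .ofNat 10722⟩, ⟨.ofNat 0, .ofNat 2002⟩, ⟨.ofNat 0, .ofNat 2184⟩⟩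 ⟨.ofNat 0, .ofNat 13⟩ ⟨.ofNat 14, .ofNat 1⟩ ⟨.ofNat 0, .ofNat 1⟩ 26 (.leaf 9 [64, 64, 0, 0, 64, 49, 0, 0, 0, 0, 0]) (.s02 ⟨⟨.ofNat 16744, .ofNat 41860⟩, ⟨.ofNat 76422, .ofNat 6618⟩, ⟨.ofNat 18707, .ofNat 6669⟩, ⟨.ofNat 6409, .ofNat 10075⟩⟩ ⟨.negSucc 25, .ofNat 78⟩ ⟨.ofNat 115, .negSucc 22⟩ ⟨.ofNat 1, .ofNat 0⟩ 26 (.leaf 8 [64, 53, 0, 0, 64, 0, 0, 0, 0, 0]) (.leaf 10 [64, 60, 0, 0, 0, 0, 0, 0]))))) (.s12 ⟨⟨.ofNat 13, .ofNat 0⟩, ⟨.ofNat 27, .ofNat 0⟩, ⟨.ofNat 13, .ofNat 0⟩, ⟨.ofNat 0, .ofNat 0⟩⟩ ⟨.ofNat 14, .ofNat 0⟩ ⟨.ofNat 13, .ofNat 0⟩ ⟨.ofNat 1, .ofNat 0⟩ 37 (.s02 ⟨⟨.ofNat 1206, .ofNat 0⟩, ⟨.ofNat 741, .ofNat 156⟩, ⟨.ofNat 728, .ofNat 0⟩, ⟨.ofNat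 156, .ofNat 0⟩⟩ ⟨.ofNat 1, .ofNat 0⟩ ⟨.ofNat 585, .ofNat 0⟩ ⟨.ofNat 1, .ofNat 0⟩ 2 (.leaf 2 [64, 64, 0, 8, 64]) (.s03 ⟨⟨.ofNat 23184, .ofNat 15456⟩, ⟨.negSucc 4913, .ofNat 27061⟩, ⟨.negSucc 11111, .ofNat 17268⟩, ⟨.ofNat 3384, .ofNat 5916⟩⟩ ⟨.negSucc 23, .ofNat 72⟩ ⟨.ofNat 115, .negSucc 22⟩ ⟨.ofNat 0, .ofNat 1⟩ 2 (.leaf 5 [0, 0, 64, 0, 0, 9, 0, 64, 0]) (.s01 ⟨⟨.ofNat 894, .ofNat 0⟩, ⟨.ofNat 723, .ofNat 156⟩, ⟨.ofNat 416, .ofNat 0⟩, ⟨.ofNat 156, .ofNat 0⟩⟩ ⟨.ofNat 1, .ofNat 0⟩ ⟨.ofNat 21, .ofNat 0⟩ ⟨.ofNat 1, .ofNat 0⟩ 27 (.leaf 5 [0, 0, 64, 64, 0, 0, 9, 0, 64, 0]) (.s02 ⟨⟨.ofNat 2266, .ofNat 0⟩, ⟨.ofNat 871, .ofNat 468⟩, ⟨.ofNat 832, .ofNat 0⟩, ⟨.ofNat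 468, .ofNat 0⟩⟩ ⟨.ofNat 104, .ofNat 0⟩ ⟨.ofNat 31, .ofNat 0⟩ ⟨.ofNat 45, .ofNat 0⟩ 4 (.leaf 5 [64, 64, 0, 64, 0, 0, 9, 0, 64, 0]) (.leaf 7 [64, 64, 0, 0, 22, 0, 64, 0, 64, 0]))))) (.s13 ⟨⟨.ofNat 286, .ofNat 0⟩, ⟨.ofNat 594, .ofNat 0⟩, ⟨.ofNat 195, .ofNat 0⟩, ⟨.ofNat 91, .ofNat 0⟩⟩ ⟨.negSucc 1091, .ofNat 3605⟩ ⟨.ofNat 0, .ofNat 13⟩ ⟨.ofNat 0, .ofNat 12⟩ 37 (.s03 ⟨⟨.ofNat 23184, .ofNat 15456⟩, ⟨.negSucc 4913, .ofNat 27061⟩, ⟨.negSucc 11111, .ofNat 17268⟩, ⟨.ofNat 3384, .ofNat 5916⟩⟩ ⟨.negSucc 23, .ofNat 72⟩ ⟨.ofNat 115, .negSucc 22⟩ ⟨.ofNat 0, .ofNat 1⟩ 2 (.leaf 5 [0, 0, 64, 0, 0, 64, 0, 64, 15]) (.s02 ⟨⟨.ofNat 5686, .ofNat 0⟩, ⟨.ofNat 3873, .ofNat 1092⟩,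 ⟨.ofNat 2340, .ofNat 0⟩, ⟨.ofNat 1092, .ofNat 0⟩⟩ ⟨.ofNat 7, .ofNat 0⟩ ⟨.ofNat 103, .ofNat 0⟩ ⟨.ofNat 1, .ofNat 0⟩ 0 (.leaf 5 [64, 0, 0, 64, 64, 0, 0, 64, 0, 64, 15]) (.leaf 8 [64, 64, 64, 40, 0, 0, 64, 0, 0, 0, 18, 0, 0, 0]))) (.s02 ⟨⟨.ofNat 894, .ofNat 0⟩, ⟨.ofNat 723, .ofNat 156⟩, ⟨.ofNat 416, .ofNat 0⟩, ⟨.ofNat 156, .ofNat 0⟩⟩ ⟨.ofNat 1, .ofNat 0⟩ ⟨.ofNat 21, .ofNat 0⟩ ⟨.ofNat 1, .ofNat 0⟩ 27 (.leaf 3 [64, 64, 0, 0, 64, 0, 0, 0]) (.s03 ⟨⟨.ofNat 16744, .ofNat 41860⟩, ⟨.ofNat 76422, .ofNat 6618⟩, ⟨.ofNat 18707, .ofNat 6669⟩, ⟨.ofNat 6409, .ofNat 10075⟩⟩ ⟨.negSucc 25, .ofNat 78⟩ ⟨.ofNat 115, .negSucc 22⟩ ⟨.ofNat 1, .ofNat 0⟩ 26 (.leaf 6 [48, 0, 0,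 0, 64, 15, 0, 0, 0]) (.leaf 8 [64, 64, 59, 0, 0, 0, 64, 0, 0, 0, 0, 0])))))

theorem g34 : Good (PE lin H) ⟨⟨.ofNat 621, .ofNat 0⟩, ⟨.ofNat 156, .ofNat 156⟩, ⟨.ofNat 143, .ofNat 0⟩, ⟨.ofNat 156, .ofNat 0⟩⟩
    ⟨⟨.ofNat 0, .ofNat 0⟩, ⟨.ofNat 1, .ofNat 0⟩, ⟨.ofNat 0, .ofNat 0⟩, ⟨.ofNat 0, .ofNat 0⟩⟩
    ⟨⟨.ofNat 1, .ofNat 0⟩, ⟨.ofNat 1, .ofNat 0⟩, ⟨.ofNat 1, .ofNat 0⟩, ⟨.ofNat 0, .ofNat 0⟩⟩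
    ⟨⟨.ofNat 23, .ofNat 0⟩, ⟨.ofNat 12, .ofNat 12⟩, ⟨.ofNat 11, .ofNat 0⟩, ⟨.ofNat 12, .ofNat 0⟩⟩ :=
  goodE lin H t34 5 51 0 29 (by decide +kernel)

/-- part of a tree -/
def t35 : Tree := .s03 ⟨⟨.ofNat 0, .ofNat 322⟩, ⟨.negSucc 130, .ofNat 311⟩, ⟨.ofNat 154, .ofNat 0⟩, ⟨.ofNat 168, .ofNat 0⟩⟩ ⟨.ofNat 0, .ofNat 1⟩ ⟨.ofNat 14, .ofNat 1⟩ ⟨.ofNat 1, .ofNat 1⟩ 4 (.s13 ⟨⟨.ofNat 0, .ofNat 23⟩, ⟨.ofNat 12, .ofNat 12⟩, ⟨.ofNat 11, .ofNat 0⟩, ⟨.ofNat 12, .ofNat 0⟩⟩ ⟨.ofNat 1, .ofNat 0⟩ ⟨.negSucc 12, .ofNat 14⟩ ⟨.ofNat 0, .ofNat 14⟩ 2 (.s02 ⟨⟨.ofNat 2272, .ofNat 477⟩, ⟨.ofNat 1056, .ofNat 990⟩, ⟨.ofNat 1633, .negSucc 261⟩, ⟨.ofNat 1122, .negSucc 65⟩⟩ ⟨.ofNat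 2, .ofNat 7⟩ ⟨.negSucc 12, .ofNat 26⟩ ⟨.ofNat 0, .ofNat 2⟩ 1 (.leaf 9 [64, 0, 0, 0, 64, 23, 0, 49, 0]) (.leaf 10 [64, 0, 0, 43, 0, 18, 64, 0])) (.s12 ⟨⟨.ofNat 0, .ofNat 32200⟩, ⟨.ofNat 30843, .ofNat 7159⟩, ⟨.ofNat 25444, .negSucc 4835⟩, ⟨.ofNat 6756, .ofNat 4836⟩⟩ ⟨.ofNat 0, .ofNat 100⟩ ⟨.ofNat 322, .ofNat 23⟩ ⟨.ofNat 1, .ofNat 1⟩ 2 (.s02 ⟨⟨.ofNat 2272, .ofNat 477⟩, ⟨.ofNat 1056, .ofNat 990⟩, ⟨.ofNat 1633, .negSucc 261⟩, ⟨.ofNat 1122, .negSucc 65⟩⟩ ⟨.ofNat 2, .ofNat 7⟩ ⟨.negSucc 12, .ofNat 26⟩ ⟨.ofNat 0, .ofNat 2⟩ 1 (.leaf 9 [64, 0, 0, 0, 64, 17, 0]) (.leaf 10 [0, 64, 0, 54, 0])) (.leaf 10 [64, 64, 9, 64, 64, 56, 0]))) (.s02 ⟨⟨.ofNat 0, .ofNat 32200⟩,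 ⟨.ofNat 943, .ofNat 21459⟩, ⟨.ofNat 25444, .negSucc 4835⟩, ⟨.ofNat 6756, .ofNat 4836⟩⟩ ⟨.ofNat 0, .ofNat 100⟩ ⟨.ofNat 322, .ofNat 23⟩ ⟨.ofNat 1, .ofNat 1⟩ 4 (.s12 ⟨⟨.ofNat 0, .ofNat 32200⟩, ⟨.ofNat 30843, .ofNat 7159⟩, ⟨.ofNat 25444, .negSucc 4835⟩, ⟨.ofNat 6756, .ofNat 4836⟩⟩ ⟨.ofNat 0, .ofNat 100⟩ ⟨.ofNat 322, .ofNat 23⟩ ⟨.ofNat 1, .ofNat 1⟩ 2 (.s23 ⟨⟨.ofNat 2272, .ofNat 477⟩, ⟨.ofNat 1056, .ofNat 990⟩, ⟨.ofNat 1633, .negSucc 261⟩, ⟨.ofNat 1122, .negSucc 65⟩⟩ ⟨.negSucc 12, .ofNat 26⟩ ⟨.ofNat 2, .ofNat 7⟩ ⟨.ofNat 0, .ofNat 2⟩ 1 (.leaf 9 [0, 0, 0, 64, 4]) (.leaf 8 [0, 0, 0, 0, 0, 64, 31, 0])) (.leaf 10 [64, 64, 20, 0, 64, 64, 0, 61, 0])) (.s02 ⟨⟨.ofNat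 644000, .ofNat 0⟩, ⟨.ofNat 326117, .ofNat 30636⟩, ⟨.ofNat 183164, .ofNat 0⟩, ⟨.ofNat 171036, .ofNat 0⟩⟩ ⟨.negSucc 2799, .ofNat 9800⟩ ⟨.ofNat 37, .ofNat 74⟩ ⟨.ofNat 1, .ofNat 15⟩ 8 (.leaf 10 [64, 64, 14, 0, 64, 64, 0, 0]) (.leaf 10 [64, 0, 0, 27, 64, 64, 38])))

theorem g35 : Good (PE lin H) ⟨⟨.ofNat 621, .ofNat 0⟩, ⟨.ofNat 299, .ofNat 0⟩, ⟨.ofNat 143, .ofNat 0⟩, ⟨.ofNat 156, .ofNat 0⟩⟩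
    ⟨⟨.ofNat 621, .ofNat 0⟩, ⟨.ofNat 156, .ofNat 156⟩, ⟨.ofNat 143, .ofNat 0⟩, ⟨.ofNat 156, .ofNat 0⟩⟩
    ⟨⟨.ofNat 100, .ofNat 0⟩, ⟨.ofNat 67, .ofNat 36⟩, ⟨.ofNat 64, .ofNat 0⟩, ⟨.ofNat 36, .ofNat 0⟩⟩
    ⟨⟨.ofNat 23, .ofNat 0⟩, ⟨.ofNat 12, .ofNat 12⟩, ⟨.ofNat 11, .ofNat 0⟩, ⟨.ofNat 12, .ofNat 0⟩⟩ :=
  goodE lin H t35 11 5 28 29 (by decide +kernel)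

/-- part of a tree -/
def t36_0 : Tree := .s12 ⟨⟨.ofNat 894, .ofNat 0⟩, ⟨.ofNat 429, .ofNat 156⟩, ⟨.ofNat 416, .ofNat 0⟩, ⟨.ofNat 156, .ofNat 0⟩⟩ ⟨.ofNat 1, .ofNat 0⟩ ⟨.ofNat 273, .ofNat 0⟩ ⟨.ofNat 1, .ofNat 0⟩ 3 (.s23 ⟨⟨.ofNat 54, .ofNat 0⟩, ⟨.ofNat 43, .ofNat 12⟩, ⟨.ofNat 42, .ofNat 0⟩, ⟨.ofNat 12, .ofNat 0⟩⟩ ⟨.ofNat 62, .ofNat 0⟩ ⟨.ofNat 1, .ofNat 0⟩ ⟨.ofNat 3, .ofNat 0⟩ 27 (.s03 ⟨⟨.ofNat 45080, .ofNat 22540⟩, ⟨.ofNat 47459, .ofNat 2282⟩, ⟨.negSucc 10119, .ofNat 27416⟩, ⟨.negSucc 12419, .ofNat 17664⟩⟩ ⟨.ofNat 60, .ofNat 80⟩ ⟨.negSucc 127, .ofNat 205⟩ ⟨.ofNat 2, .ofNat 3⟩ 6 (.leaf 5 [64, 0, 64, 13, 0, 0, 0]) (.s02 ⟨⟨.ofNat 0, .ofNat 60858⟩, ⟨.ofNat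 8993, .ofNat 32400⟩, ⟨.ofNat 56226, .negSucc 8891⟩, ⟨.ofNat 4632, .ofNat 8892⟩⟩ ⟨.ofNat 54, .ofNat 108⟩ ⟨.ofNat 538, .negSucc 50⟩ ⟨.ofNat 2, .ofNat 3⟩ 6 (.leaf 5 [0, 0, 64, 50, 0]) (.leaf 5 [4, 64]))) (.s02 ⟨⟨.ofNat 603, .ofNat 0⟩, ⟨.ofNat 442, .ofNat 0⟩, ⟨.ofNat 364, .ofNat 0⟩, ⟨.ofNat 78, .ofNat 0⟩⟩ ⟨.ofNat 1, .ofNat 0⟩ ⟨.ofNat 1378, .ofNat 0⟩ ⟨.ofNat 7, .ofNat 0⟩ 3 (.leaf 2 [64, 0, 0, 64, 37, 0]) (.s03 ⟨⟨.ofNat 0, .ofNat 60858⟩, ⟨.ofNat 8993, .ofNat 32400⟩, ⟨.ofNat 56226, .negSucc 8891⟩, ⟨.ofNat 4632, .ofNat 8892⟩⟩ ⟨.ofNat 54, .ofNat 108⟩ ⟨.ofNat 538, .negSucc 50⟩ ⟨.ofNat 2, .ofNat 3⟩ 6 (.s02 ⟨⟨.ofNat 2282040, .ofNat 426006⟩, ⟨.ofNat 1587276, .ofNat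 289751⟩, ⟨.ofNat 1058148, .ofNat 331338⟩, ⟨.ofNat 302328, .ofNat 94668⟩⟩ ⟨.ofNat 0, .ofNat 7⟩ ⟨.ofNat 3078, .ofNat 0⟩ ⟨.ofNat 1, .ofNat 0⟩ 4 (.leaf 3 [64, 0, 64, 64, 13, 64]) (.leaf 4 [0, 0, 64, 0, 0])) (.s02 ⟨⟨.ofNat 0, .ofNat 161⟩, ⟨.ofNat 161, .ofNat 0⟩, ⟨.ofNat 239, .negSucc 77⟩, ⟨.negSucc 77, .ofNat 78⟩⟩ ⟨.ofNat 442, .negSucc 160⟩ ⟨.negSucc 1715, .ofNat 1127⟩ ⟨.ofNat 0, .ofNat 1378⟩ 6 (.s23 ⟨⟨.ofNat 14577030, .ofNat 1349019⟩, ⟨.ofNat 9732684, .ofNat 737984⟩, ⟨.ofNat 5240352, .ofNat 1640912⟩, ⟨.ofNat 1965132, .ofNat 615342⟩⟩ ⟨.ofNat 10667, .ofNat 5032⟩ ⟨.ofNat 78, .ofNat 156⟩ ⟨.ofNat 1, .ofNat 1⟩ 5 (.leaf 5 [62]) (.s02 ⟨⟨.ofNat 512, .ofNat 0⟩, ⟨.ofNat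 351, .ofNat 0⟩, ⟨.ofNat 273, .ofNat 0⟩, ⟨.ofNat 78, .ofNat 0⟩⟩ ⟨.ofNat 91, .ofNat 182⟩ ⟨.ofNat 190, .ofNat 29⟩ ⟨.ofNat 281, .ofNat 120⟩ 4 (.leaf 4 [39, 64, 64, 0, 64]) (.s02 ⟨⟨.ofNat 447, .ofNat 0⟩, ⟨.ofNat 286, .ofNat 0⟩, ⟨.ofNat 208, .ofNat 0⟩, ⟨.ofNat 78, .ofNat 0⟩⟩ ⟨.ofNat 65, .ofNat 130⟩ ⟨.ofNat 125, .negSucc 35⟩ ⟨.ofNat 190, .ofNat 29⟩ 5 (.leaf 4 [64, 21]) (.leaf 5 [63])))) (.leaf 5 [4, 64]))))) (.s13 ⟨⟨.ofNat 0, .ofNat 32200⟩, ⟨.ofNat 30843, .ofNat 7159⟩, ⟨.ofNat 25444, .negSucc 4835⟩, ⟨.ofNat 6756, .ofNat 4836⟩⟩ ⟨.ofNat 0, .ofNat 100⟩ ⟨.ofNat 322, .ofNat 23⟩ ⟨.ofNat 1, .ofNat 1⟩ 2 (.s03 ⟨⟨.ofNat 45080, .ofNat 22540⟩, ⟨.ofNat 47459, .ofNat 2282⟩,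 ⟨.negSucc 10119, .ofNat 27416⟩, ⟨.negSucc 12419, .ofNat 17664⟩⟩ ⟨.ofNat 60, .ofNat 80⟩ ⟨.negSucc 127, .ofNat 205⟩ ⟨.ofNat 2, .ofNat 3⟩ 6 (.leaf 6 [0, 0, 0, 0, 0, 64, 60, 0]) (.leaf 6 [0, 0, 0, 64, 3, 0])) (.s12 ⟨⟨.ofNat 712, .ofNat 0⟩, ⟨.ofNat 247, .ofNat 156⟩, ⟨.ofNat 234, .ofNat 0⟩, ⟨.ofNat 156, .ofNat 0⟩⟩ ⟨.ofNat 2, .ofNat 0⟩ ⟨.ofNat 1, .ofNat 0⟩ ⟨.ofNat 3, .ofNat 0⟩ 4 (.leaf 6 [64, 64, 0, 0, 64, 0, 64, 3, 0]) (.s01 ⟨⟨.ofNat 36668, .ofNat 0⟩, ⟨.ofNat 16224, .ofNat 4212⟩, ⟨.ofNat 12051, .ofNat 0⟩, ⟨.ofNat 8034, .ofNat 0⟩⟩ ⟨.ofNat 7, .ofNat 0⟩ ⟨.ofNat 27, .ofNat 0⟩ ⟨.ofNat 1, .ofNat 0⟩ 6 (.leaf 9 [64, 64, 0, 31, 64, 0, 24, 0]) (.leaf 6 [64, 64, 0,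 64, 0, 64, 3, 0]))))

/-- part of a tree -/
def t36_2 : Tree := .s02 ⟨⟨.ofNat 239, .ofNat 78⟩, ⟨.ofNat 78, .ofNat 78⟩, ⟨.ofNat 0, .ofNat 78⟩, ⟨.ofNat 78, .ofNat 0⟩⟩ ⟨.negSucc 41, .ofNat 48⟩ ⟨.ofNat 12, .ofNat 1⟩ ⟨.ofNat 0, .ofNat 103⟩ 9 (.s12 ⟨⟨.ofNat 36668, .ofNat 0⟩, ⟨.ofNat 16224, .ofNat 4212⟩, ⟨.ofNat 12051, .ofNat 0⟩, ⟨.ofNat 8034, .ofNat 0⟩⟩ ⟨.ofNat 27, .ofNat 0⟩ ⟨.ofNat 7, .ofNat 0⟩ ⟨.ofNat 1, .ofNat 0⟩ 6 (.s13 ⟨⟨.ofNat 1028146, .ofNat 281911⟩, ⟨.ofNat 551596, .ofNat 305744⟩, ⟨.negSucc 683816, .ofNat 750664⟩, ⟨.negSucc 62417, .ofNat 277482⟩⟩ ⟨.negSucc 448, .ofNat 944⟩ ⟨.negSucc 3501, .ofNat 13081⟩ ⟨.ofNat 0, .ofNat 39⟩ 4 (.s03 ⟨⟨.ofNat 0, .ofNat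 3703⟩, ⟨.ofNat 996, .ofNat 1854⟩, ⟨.ofNat 3565, .negSucc 857⟩, ⟨.ofNat 138, .ofNat 858⟩⟩ ⟨.negSucc 448, .ofNat 944⟩ ⟨.ofNat 5, .ofNat 88⟩ ⟨.ofNat 78, .ofNat 39⟩ 4 (.s23 ⟨⟨.negSucc 1126, .ofNat 62951⟩, ⟨.negSucc 7251, .ofNat 44208⟩, ⟨.ofNat 48028, .negSucc 4510⟩, ⟨.ofNat 16050, .ofNat 3384⟩⟩ ⟨.ofNat 944, .ofNat 495⟩ ⟨.ofNat 538, .negSucc 50⟩ ⟨.ofNat 0, .ofNat 39⟩ 5 (.leaf 8 [64, 64, 0, 0]) (.leaf 6 [64, 0, 16, 0])) (.s12 ⟨⟨.negSucc 115741408, .ofNat 1679239179⟩, ⟨.negSucc 29461899, .ofNat 1053682396⟩, ⟨.ofNat 47689824, .ofNat 597515360⟩, ⟨.ofNat 26825526, .ofNat 336102390⟩⟩ ⟨.ofNat 598, .ofNat 598⟩ ⟨.ofNat 946467, .ofNat 174379⟩ ⟨.negSucc 0, .ofNat 2⟩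 5 (.s23 ⟨⟨.negSucc 5771592, .ofNat 16770251⟩, ⟨.negSucc 3115943, .ofNat 10262148⟩, ⟨.negSucc 1667743, .ofNat 6184672⟩, ⟨.negSucc 938105, .ofNat 3478878⟩⟩ ⟨.ofNat 4341, .ofNat 1532⟩ ⟨.ofNat 598, .ofNat 1196⟩ ⟨.ofNat 0, .ofNat 1⟩ 6 (.leaf 7 [2, 64, 0]) (.leaf 6 [0, 2])) (.leaf 7 [2, 64, 64, 0]))) (.leaf 6 [64, 24, 64, 0, 11, 0])) (.s13 ⟨⟨.ofNat 0, .ofNat 8050⟩, ⟨.ofNat 2898, .ofNat 4107⟩, ⟨.ofNat 6361, .negSucc 1208⟩, ⟨.ofNat 1689, .ofNat 1209⟩⟩ ⟨.negSucc 448, .ofNat 944⟩ ⟨.ofNat 23, .ofNat 345⟩ ⟨.ofNat 104, .ofNat 52⟩ 3 (.leaf 8 [64, 16, 0, 64, 64, 64, 0]) (.leaf 8 [64, 64, 0, 64, 64, 64, 34, 6, 0]))) (.s02 ⟨⟨.ofNat 3721, .ofNat 0⟩, ⟨.ofNat 1950, .ofNat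 0⟩, ⟨.ofNat 1092, .ofNat 0⟩, ⟨.ofNat 858, .ofNat 0⟩⟩ ⟨.ofNat 66, .negSucc 17⟩ ⟨.ofNat 0, .ofNat 47⟩ ⟨.ofNat 12, .ofNat 1⟩ 9 (.s13 ⟨⟨.ofNat 0, .ofNat 8050⟩, ⟨.ofNat 2898, .ofNat 4107⟩, ⟨.ofNat 6361, .negSucc 1208⟩, ⟨.ofNat 1689, .ofNat 1209⟩⟩ ⟨.negSucc 448, .ofNat 944⟩ ⟨.ofNat 23, .ofNat 345⟩ ⟨.ofNat 104, .ofNat 52⟩ 3 (.s03 ⟨⟨.ofNat 113022, .ofNat 41377⟩, ⟨.ofNat 78090, .ofNat 27062⟩, ⟨.negSucc 69658, .ofNat 81828⟩, ⟨.negSucc 1985, .ofNat 31194⟩⟩ ⟨.negSucc 448, .ofNat 944⟩ ⟨.negSucc 178, .ofNat 1592⟩ ⟨.ofNat 0, .ofNat 39⟩ 4 (.leaf 8 [16, 0, 64, 64, 64, 0]) (.s03 ⟨⟨.ofNat 2260440, .ofNat 827540⟩, ⟨.ofNat 1223932, .ofNat 503422⟩, ⟨.ofNat 704094, .ofNat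 251561⟩, ⟨.ofNat 539148, .ofNat 203586⟩⟩ ⟨.ofNat 934444, .ofNat 63595⟩ ⟨.ofNat 1931, .ofNat 3862⟩ ⟨.ofNat 1771, .negSucc 178⟩ 8 (.leaf 8 [0, 64, 64, 59, 0]) (.s01 ⟨⟨.negSucc 28818999, .ofNat 256312000⟩, ⟨.negSucc 9937727, .ofNat 144866427⟩, ⟨.negSucc 9967266, .ofNat 79096645⟩, ⟨.negSucc 5883182, .ofNat 61874955⟩⟩ ⟨.negSucc 16099, .ofNat 56350⟩ ⟨.ofNat 1931, .ofNat 3862⟩ ⟨.ofNat 1, .ofNat 0⟩ 8 (.leaf 8 [0, 64, 64, 59, 0]) (.leaf 8 [0, 64, 46, 0])))) (.s13 ⟨⟨.ofNat 161000, .ofNat 0⟩, ⟨.ofNat 42759, .ofNat 42759⟩, ⟨.ofNat 45791, .ofNat 0⟩, ⟨.ofNat 42759, .ofNat 0⟩⟩ ⟨.negSucc 699, .ofNat 2450⟩ ⟨.ofNat 37, .ofNat 74⟩ ⟨.ofNat 1, .ofNat 15⟩ 4 (.s03 ⟨⟨.negSucc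 28818999, .ofNat 256312000⟩, ⟨.negSucc 9937727, .ofNat 144866427⟩, ⟨.negSucc 9967266, .ofNat 79096645⟩, ⟨.negSucc 5883182, .ofNat 61874955⟩⟩ ⟨.negSucc 16099, .ofNat 56350⟩ ⟨.ofNat 1931, .ofNat 3862⟩ ⟨.ofNat 1, .ofNat 0⟩ 8 (.leaf 8 [0, 64, 64, 43, 22, 0]) (.leaf 8 [6, 64, 64, 42, 0, 0])) (.leaf 8 [64, 6, 64, 64, 64, 42, 0, 0]))) (.s03 ⟨⟨.ofNat 0, .ofNat 32200⟩, ⟨.ofNat 943, .ofNat 21459⟩, ⟨.ofNat 25444, .negSucc 4835⟩, ⟨.ofNat 6756, .ofNat 4836⟩⟩ ⟨.negSucc 448, .ofNat 944⟩ ⟨.ofNat 23, .ofNat 345⟩ ⟨.ofNat 26, .ofNat 13⟩ 4 (.s13 ⟨⟨.ofNat 0, .ofNat 8050⟩, ⟨.ofNat 2898, .ofNat 4107⟩, ⟨.ofNat 6361, .negSucc 1208⟩, ⟨.ofNat 1689, .ofNat 1209⟩⟩ ⟨.negSucc 448,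 .ofNat 944⟩ ⟨.ofNat 23, .ofNat 345⟩ ⟨.ofNat 104, .ofNat 52⟩ 3 (.s23 ⟨⟨.ofNat 113022, .ofNat 41377⟩, ⟨.ofNat 78090, .ofNat 27062⟩, ⟨.negSucc 69658, .ofNat 81828⟩, ⟨.negSucc 1985, .ofNat 31194⟩⟩ ⟨.negSucc 448, .ofNat 944⟩ ⟨.negSucc 178, .ofNat 1592⟩ ⟨.ofNat 0, .ofNat 39⟩ 4 (.leaf 9 [0, 51]) (.leaf 9 [56, 0, 64, 0])) (.leaf 9 [64, 43, 0, 41, 64, 64, 0])) (.s03 ⟨⟨.ofNat 644000, .ofNat 0⟩, ⟨.ofNat 326117, .ofNat 30636⟩, ⟨.ofNat 183164, .ofNat 0⟩, ⟨.ofNat 171036, .ofNat 0⟩⟩ ⟨.negSucc 2799, .ofNat 9800⟩ ⟨.ofNat 37, .ofNat 74⟩ ⟨.ofNat 1, .ofNat 15⟩ 8 (.leaf 9 [64, 43, 0, 41, 64, 64, 0]) (.leaf 9 [19, 64, 64, 64]))))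

/-- part of a tree -/
def t36_1 : Tree := .s03 ⟨⟨.negSucc 231, .ofNat 2037⟩, ⟨.ofNat 312, .ofNat 1248⟩, ⟨.negSucc 2183, .ofNat 2067⟩, ⟨.negSucc 623, .ofNat 936⟩⟩ ⟨.ofNat 5, .ofNat 2⟩ ⟨.negSucc 12, .ofNat 26⟩ ⟨.ofNat 1, .ofNat 1⟩ 3 (.s13 ⟨⟨.ofNat 0, .ofNat 32200⟩, ⟨.ofNat 30843, .ofNat 7159⟩, ⟨.ofNat 25444, .negSucc 4835⟩, ⟨.ofNat 6756, .ofNat 4836⟩⟩ ⟨.ofNat 0, .ofNat 100⟩ ⟨.ofNat 322, .ofNat 23⟩ ⟨.ofNat 1, .ofNat 1⟩ 2 (.s23 ⟨⟨.ofNat 45080, .ofNat 22540⟩, ⟨.ofNat 47459, .ofNat 2282⟩, ⟨.negSucc 10119, .ofNat 27416⟩, ⟨.negSucc 12419, .ofNat 17664⟩⟩ ⟨.ofNat 60, .ofNat 80⟩ ⟨.negSucc 127, .ofNat 205⟩ ⟨.ofNat 2, .ofNat 3⟩ 6 (.leaf 7 [0, 0, 64, 32, 0, 64,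 0, 0]) (.s02 ⟨⟨.negSucc 1126, .ofNat 62951⟩, ⟨.negSucc 7251, .ofNat 44208⟩, ⟨.ofNat 48028, .negSucc 4510⟩, ⟨.ofNat 16050, .ofNat 3384⟩⟩ ⟨.ofNat 538, .negSucc 50⟩ ⟨.ofNat 944, .ofNat 495⟩ ⟨.ofNat 0, .ofNat 39⟩ 5 (.leaf 6 [0, 0, 64, 3, 0]) (.leaf 7 [64, 32, 64, 0, 0]))) (.s12 ⟨⟨.ofNat 36668, .ofNat 0⟩, ⟨.ofNat 16224, .ofNat 4212⟩, ⟨.ofNat 12051, .ofNat 0⟩, ⟨.ofNat 8034, .ofNat 0⟩⟩ ⟨.ofNat 27, .ofNat 0⟩ ⟨.ofNat 7, .ofNat 0⟩ ⟨.ofNat 1, .ofNat 0⟩ 6 (.s01 ⟨⟨.ofNat 1028146, .ofNat 281911⟩, ⟨.ofNat 551596, .ofNat 305744⟩, ⟨.negSucc 683816, .ofNat 750664⟩, ⟨.negSucc 62417, .ofNat 277482⟩⟩ ⟨.negSucc 3501, .ofNat 13081⟩ ⟨.negSucc 448, .ofNat 944⟩ ⟨.ofNat 0, .ofNat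 39⟩ 4 (.leaf 6 [64, 64, 0, 0, 64, 3, 0]) (.s02 ⟨⟨.negSucc 1126, .ofNat 62951⟩, ⟨.negSucc 7251, .ofNat 44208⟩, ⟨.ofNat 48028, .negSucc 4510⟩, ⟨.ofNat 16050, .ofNat 3384⟩⟩ ⟨.ofNat 538, .negSucc 50⟩ ⟨.ofNat 944, .ofNat 495⟩ ⟨.ofNat 0, .ofNat 39⟩ 5 (.leaf 6 [0, 0, 64, 3, 0]) (.leaf 8 [64, 64, 64, 0, 0]))) (.leaf 9 [64, 64, 64, 1, 64, 64, 0, 64, 64]))) t36_2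

/-- part of a tree -/
def t36 : Tree := .s02 ⟨⟨.ofNat 2843, .ofNat 0⟩, ⟨.ofNat 1716, .ofNat 0⟩, ⟨.ofNat 1170, .ofNat 0⟩, ⟨.ofNat 546, .ofNat 0⟩⟩ ⟨.ofNat 7, .ofNat 0⟩ ⟨.ofNat 1339, .ofNat 0⟩ ⟨.ofNat 2, .ofNat 0⟩ 7 t36_0 t36_1

theorem g36 : Good (PE lin H) ⟨⟨.ofNat 621, .ofNat 0⟩, ⟨.ofNat 299, .ofNat 0⟩, ⟨.ofNat 143, .ofNat 0⟩, ⟨.ofNat 156, .ofNat 0⟩⟩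
    ⟨⟨.ofNat 621, .ofNat 0⟩, ⟨.ofNat 156, .ofNat 156⟩, ⟨.ofNat 143, .ofNat 0⟩, ⟨.ofNat 156, .ofNat 0⟩⟩
    ⟨⟨.ofNat 1, .ofNat 0⟩, ⟨.ofNat 1, .ofNat 0⟩, ⟨.ofNat 1, .ofNat 0⟩, ⟨.ofNat 0, .ofNat 0⟩⟩
    ⟨⟨.ofNat 100, .ofNat 0⟩, ⟨.ofNat 67, .ofNat 36⟩, ⟨.ofNat 64, .ofNat 0⟩, ⟨.ofNat 36, .ofNat 0⟩⟩ :=
  goodE lin H t36 11 5 0 28 (by decide +kernel)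

end

end Pool.Agent.PHCert.E2
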