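import Pool.Agent.PHCert.E2H

/-!
# PHCert: inequality E2, part 8 (64 leaves, checked by the kernel)
-/

set_option autoImplicit false

namespace Pool.Agent.PHCert.E2

open Zp Pool.Agent.PHCert

noncomputable section

/-- part of a tree -/
def t40_1 : Tree := .s23 ⟨⟨.ofNat 1133, .ofNat 0⟩, ⟨.ofNat 650, .ofNat 0⟩, ⟨.ofNat 416, .ofNat 0⟩, ⟨.ofNat 234, .ofNat 0⟩⟩ ⟨.ofNat 31, .ofNat 0⟩ ⟨.ofNat 16, .ofNat 0⟩ ⟨.ofNat 21, .ofNat 0⟩ 8 (.s13 ⟨⟨.ofNat 1133, .ofNat 0⟩, ⟨.ofNat 867, .ofNat 0⟩, ⟨.ofNat 416, .ofNat 0⟩, ⟨.ofNat 234, .ofNat 0⟩⟩ ⟨.ofNat 31, .ofNat 0⟩ ⟨.ofNat 16, .ofNat 0⟩ ⟨.ofNat 21, .ofNat 0⟩ 3 (.s03 ⟨⟨.ofNat 493, .ofNat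 0⟩, ⟨.ofNat 195, .ofNat 0⟩, ⟨.ofNat 117, .ofNat 0⟩, ⟨.ofNat 78, .ofNat 0⟩⟩ ⟨.ofNat 26, .ofNat 0⟩ ⟨.ofNat 1, .ofNat 0⟩ ⟨.ofNat 3, .ofNat 0⟩ 13 (.s23 ⟨⟨.ofNat 3721, .ofNat 0⟩, ⟨.ofNat 1950, .ofNat 0⟩, ⟨.ofNat 1092, .ofNat 0⟩, ⟨.ofNat 858, .ofNat 0⟩⟩ ⟨.ofNat 47, .ofNat 0⟩ ⟨.ofNat 100, .ofNat 0⟩ ⟨.ofNat 31, .ofNat 0⟩ 9 (.s13 ⟨⟨.ofNat 7454, .ofNat 1014⟩, ⟨.ofNat 2106, .ofNat 2106⟩, ⟨.ofNat 1001, .ofNat 1014⟩, ⟨.ofNat 2106, .ofNat 0⟩⟩ ⟨.ofNat 26, .ofNat 13⟩ ⟨.negSucc 11, .ofNat 75⟩ ⟨.ofNat 2, .ofNat 7⟩ 7 (.leaf 9 [12, 64, 64, 59, 0]) (.s12 ⟨⟨.ofNat 372719, .ofNat 33800⟩, ⟨.ofNat 95862, .ofNat 95862⟩, ⟨.ofNat 78988, .ofNat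 33800⟩, ⟨.ofNat 95862, .ofNat 0⟩⟩ ⟨.negSucc 77, .ofNat 208⟩ ⟨.ofNat 133, .ofNat 55⟩ ⟨.ofNat 1, .ofNat 1⟩ 8 (.leaf 8 [41, 64, 64, 0, 0]) (.leaf 8 [64, 0, 64, 36, 0, 26]))) (.s23 ⟨⟨.ofNat 356, .ofNat 0⟩, ⟨.ofNat 195, .ofNat 0⟩, ⟨.ofNat 117, .ofNat 0⟩, ⟨.ofNat 78, .ofNat 0⟩⟩ ⟨.ofNat 3, .ofNat 0⟩ ⟨.ofNat 1, .ofNat 0⟩ ⟨.ofNat 20, .ofNat 0⟩ 9 (.s13 ⟨⟨.ofNat 372719, .ofNat 33800⟩, ⟨.ofNat 95862, .ofNat 95862⟩, ⟨.ofNat 78988, .ofNat 33800⟩, ⟨.ofNat 95862, .ofNat 0⟩⟩ ⟨.negSucc 77, .ofNat 208⟩ ⟨.ofNat 133, .ofNat 55⟩ ⟨.ofNat 1, .ofNat 1⟩ 8 (.leaf 8 [64, 64, 38, 0, 0]) (.leaf 7 [64, 0, 64, 64, 44, 59])) (.s13 ⟨⟨.ofNat 30929, .ofNat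 1690⟩, ⟨.ofNat 7332, .ofNat 7332⟩, ⟨.ofNat 8463, .ofNat 1690⟩, ⟨.ofNat 7332, .ofNat 0⟩⟩ ⟨.negSucc 12, .ofNat 13⟩ ⟨.ofNat 133, .ofNat 55⟩ ⟨.ofNat 1, .ofNat 1⟩ 8 (.s23 ⟨⟨.ofNat 239, .ofNat 78⟩, ⟨.ofNat 78, .ofNat 78⟩, ⟨.ofNat 0, .ofNat 78⟩, ⟨.ofNat 78, .ofNat 0⟩⟩ ⟨.ofNat 3, .ofNat 0⟩ ⟨.negSucc 3, .ofNat 10⟩ ⟨.ofNat 5, .ofNat 10⟩ 9 (.leaf 7 [64, 0, 64, 36]) (.leaf 7 [50, 0, 64, 64, 0])) (.leaf 7 [50, 0, 64, 64, 64, 0])))) (.s02 ⟨⟨.ofNat 242649, .ofNat 0⟩, ⟨.ofNat 116831, .ofNat 0⟩, ⟨.ofNat 77480, .ofNat 0⟩, ⟨.ofNat 39351, .ofNat 0⟩⟩ ⟨.ofNat 2821, .ofNat 0⟩ ⟨.ofNat 132, .ofNat 0⟩ ⟨.ofNat 1, .ofNat 0⟩ 11 (.leaf 7 [50, 0,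 64, 64, 64, 0]) (.leaf 6 [10, 0, 0, 31, 0, 64]))) (.s02 ⟨⟨.ofNat 242649, .ofNat 0⟩, ⟨.ofNat 116831, .ofNat 0⟩, ⟨.ofNat 77480, .ofNat 0⟩, ⟨.ofNat 39351, .ofNat 0⟩⟩ ⟨.ofNat 2821, .ofNat 0⟩ ⟨.ofNat 132, .ofNat 0⟩ ⟨.ofNat 1, .ofNat 0⟩ 11 (.leaf 6 [64, 27, 0, 0, 50, 0]) (.leaf 5 [49, 0, 0, 0, 0, 0, 64, 64]))) (.s02 ⟨⟨.ofNat 0, .ofNat 11⟩, ⟨.ofNat 11, .ofNat 0⟩, ⟨.ofNat 8, .ofNat 0⟩, ⟨.ofNat 3, .ofNat 0⟩⟩ ⟨.ofNat 286, .negSucc 160⟩ ⟨.negSucc 10, .ofNat 22⟩ ⟨.ofNat 0, .ofNat 411⟩ 6 (.s23 ⟨⟨.ofNat 0, .ofNat 161⟩, ⟨.ofNat 161, .ofNat 0⟩, ⟨.ofNat 239, .negSucc 77⟩, ⟨.negSucc 77, .ofNat 78⟩⟩ ⟨.negSucc 166, .ofNat 316⟩ ⟨.ofNat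 125, .negSucc 35⟩ ⟨.ofNat 208, .ofNat 416⟩ 6 (.s03 ⟨⟨.ofNat 12463, .ofNat 6578⟩, ⟨.ofNat 13728, .ofNat 0⟩, ⟨.ofNat 9360, .ofNat 0⟩, ⟨.ofNat 4368, .ofNat 0⟩⟩ ⟨.ofNat 598, .ofNat 0⟩ ⟨.ofNat 11, .ofNat 0⟩ ⟨.ofNat 1, .ofNat 0⟩ 8 (.leaf 6 [45, 0, 64, 64]) (.leaf 5 [60, 0, 64])) (.leaf 5 [62])) (.s02 ⟨⟨.ofNat 297, .ofNat 0⟩, ⟨.ofNat 143, .ofNat 0⟩, ⟨.ofNat 104, .ofNat 0⟩, ⟨.ofNat 39, .ofNat 0⟩⟩ ⟨.negSucc 12, .ofNat 14⟩ ⟨.ofNat 0, .ofNat 12⟩ ⟨.negSucc 0, .ofNat 2⟩ 11 (.s23 ⟨⟨.ofNat 12463, .ofNat 6578⟩, ⟨.ofNat 13728, .ofNat 0⟩, ⟨.ofNat 9360, .ofNat 0⟩, ⟨.ofNat 4368, .ofNat 0⟩⟩ ⟨.ofNat 598, .ofNat 0⟩ ⟨.ofNat 11, .ofNat 0⟩ ⟨.ofNat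 1, .ofNat 0⟩ 8 (.leaf 6 [64, 47, 0, 0, 64, 0]) (.s01 ⟨⟨.ofNat 715, .ofNat 0⟩, ⟨.ofNat 605, .ofNat 0⟩, ⟨.ofNat 312, .ofNat 0⟩, ⟨.ofNat 117, .ofNat 0⟩⟩ ⟨.ofNat 89, .ofNat 0⟩ ⟨.ofNat 176, .ofNat 0⟩ ⟨.ofNat 147, .ofNat 0⟩ 2 (.leaf 5 [60, 0, 64]) (.s02 ⟨⟨.ofNat 55, .ofNat 0⟩, ⟨.ofNat 33, .ofNat 0⟩, ⟨.ofNat 24, .ofNat 0⟩, ⟨.ofNat 9, .ofNat 0⟩⟩ ⟨.negSucc 2, .ofNat 2⟩ ⟨.ofNat 0, .ofNat 16⟩ ⟨.negSucc 12, .ofNat 14⟩ 7 (.leaf 5 [60, 64]) (.leaf 5 [64, 63, 64, 64])))) (.s03 ⟨⟨.ofNat 242649, .ofNat 0⟩, ⟨.ofNat 116831, .ofNat 0⟩, ⟨.ofNat 77480, .ofNat 0⟩, ⟨.ofNat 39351, .ofNat 0⟩⟩ ⟨.ofNat 2821, .ofNat 0⟩ ⟨.ofNat 132, .ofNat 0⟩ ⟨.ofNat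 1, .ofNat 0⟩ 11 (.leaf 6 [64, 13, 0, 0, 64, 0]) (.leaf 5 [49, 0, 0, 0, 0, 0, 64, 64]))))

/-- part of a tree -/
def t40_0 : Tree := .s12 ⟨⟨.ofNat 447, .ofNat 0⟩, ⟨.ofNat 433, .ofNat 0⟩, ⟨.ofNat 208, .ofNat 0⟩, ⟨.ofNat 78, .ofNat 0⟩⟩ ⟨.ofNat 147, .ofNat 0⟩ ⟨.ofNat 1, .ofNat 0⟩ ⟨.ofNat 1, .ofNat 0⟩ 0 t40_1 (.s13 ⟨⟨.ofNat 621, .ofNat 0⟩, ⟨.ofNat 156, .ofNat 156⟩, ⟨.ofNat 143, .ofNat 0⟩, ⟨.ofNat 156, .ofNat 0⟩⟩ ⟨.ofNat 156, .ofNat 13⟩ ⟨.ofNat 0, .ofNat 1⟩ ⟨.ofNat 0, .ofNat 1⟩ 5 (.s23 ⟨⟨.ofNat 7454, .ofNat 1014⟩, ⟨.ofNat 2106, .ofNat 2106⟩, ⟨.ofNat 1001, .ofNat 1014⟩, ⟨.ofNat 2106, .ofNat 0⟩⟩ ⟨.ofNat 156, .ofNat 13⟩ ⟨.negSucc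 77, .ofNat 277⟩ ⟨.ofNat 0, .ofNat 21⟩ 7 (.leaf 9 [0, 64, 64, 64, 64, 46, 0]) (.leaf 7 [64, 3, 0, 0, 0, 0, 64, 37, 64, 0, 0])) (.leaf 5 [64, 2, 0, 0, 0, 0, 0, 0, 0, 0, 0, 0, 0]))

/-- part of a tree -/
def t40 : Tree := .s02 ⟨⟨.ofNat 33, .ofNat 0⟩, ⟨.ofNat 11, .ofNat 0⟩, ⟨.ofNat 8, .ofNat 0⟩, ⟨.ofNat 3, .ofNat 0⟩⟩ ⟨.ofNat 411, .ofNat 0⟩ ⟨.ofNat 1, .ofNat 0⟩ ⟨.ofNat 26, .ofNat 0⟩ 14 t40_0 (.s03 ⟨⟨.ofNat 69, .ofNat 0⟩, ⟨.ofNat 23, .ofNat 0⟩, ⟨.ofNat 11, .ofNat 0⟩, ⟨.ofNat 12, .ofNat 0⟩⟩ ⟨.ofNat 276, .ofNat 0⟩ ⟨.ofNat 1, .ofNat 0⟩ ⟨.ofNat 13, .ofNat 0⟩ 14 (.s13 ⟨⟨.ofNat 621, .ofNat 0⟩, ⟨.ofNat 156, .ofNat 156⟩, ⟨.ofNat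 143, .ofNat 0⟩, ⟨.ofNat 156, .ofNat 0⟩⟩ ⟨.ofNat 156, .ofNat 13⟩ ⟨.ofNat 0, .ofNat 1⟩ ⟨.ofNat 0, .ofNat 1⟩ 5 (.leaf 9 [64, 64, 64, 64, 46, 0]) (.leaf 8 [0, 0, 0, 0, 0, 0, 0, 0])) (.s13 ⟨⟨.ofNat 69, .ofNat 0⟩, ⟨.ofNat 12, .ofNat 12⟩, ⟨.ofNat 11, .ofNat 0⟩, ⟨.ofNat 12, .ofNat 0⟩⟩ ⟨.ofNat 12, .ofNat 1⟩ ⟨.ofNat 0, .ofNat 1⟩ ⟨.ofNat 0, .ofNat 1⟩ 12 (.leaf 8 [0, 64, 0, 64, 34, 0]) (.leaf 7 [0, 0, 0, 0, 0, 0])))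

theorem g40 : Good (PE lin H) ⟨⟨.ofNat 1, .ofNat 0⟩, ⟨.ofNat 0, .ofNat 0⟩, ⟨.ofNat 0, .ofNat 0⟩, ⟨.ofNat 0, .ofNat 0⟩⟩
    ⟨⟨.ofNat 0, .ofNat 0⟩, ⟨.ofNat 1, .ofNat 0⟩, ⟨.ofNat 0, .ofNat 0⟩, ⟨.ofNat 0, .ofNat 0⟩⟩
    ⟨⟨.ofNat 447, .ofNat 0⟩, ⟨.ofNat 286, .ofNat 0⟩, ⟨.ofNat 208, .ofNat 0⟩, ⟨.ofNat 78, .ofNat 0⟩⟩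
    ⟨⟨.ofNat 621, .ofNat 0⟩, ⟨.ofNat 299, .ofNat 0⟩, ⟨.ofNat 143, .ofNat 0⟩, ⟨.ofNat 156, .ofNat 0⟩⟩ :=
  goodE lin H t40 25 51 5 11 (by decide +kernel)

/-- part of a tree -/
def t41_1 : Tree := .s23 ⟨⟨.ofNat 603, .ofNat 0⟩, ⟨.ofNat 442, .ofNat 0⟩, ⟨.ofNat 364, .ofNat 0⟩, ⟨.ofNat 78, .ofNat 0⟩⟩ ⟨.ofNat 156, .ofNat 0⟩ ⟨.ofNat 1, .ofNat 0⟩ ⟨.ofNat 1, .ofNat 0⟩ 3 (.s01 ⟨⟨.ofNat 0, .ofNat 13⟩, ⟨.ofNat 34, .negSucc 6⟩, ⟨.ofNat 13, .ofNat 0⟩, ⟨.ofNat 0, .ofNat 0⟩⟩ ⟨.ofNat 13, .ofNat 0⟩ ⟨.negSucc 0, .ofNat 2⟩ ⟨.ofNat 0, .ofNat 2⟩ 26 (.s13 ⟨⟨.ofNat 603, .ofNat 0⟩, ⟨.ofNat 610, .ofNat 0⟩, ⟨.ofNat 364, .ofNat 0⟩, ⟨.ofNat 78,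 .ofNat 0⟩⟩ ⟨.ofNat 12, .ofNat 0⟩ ⟨.ofNat 1, .ofNat 0⟩ ⟨.ofNat 1, .ofNat 0⟩ 26 (.leaf 4 [0, 64, 64, 30, 0, 64]) (.leaf 1 [64, 0, 64, 64, 64, 64])) (.s02 ⟨⟨.ofNat 0, .ofNat 241⟩, ⟨.ofNat 241, .ofNat 0⟩, ⟨.ofNat 163, .ofNat 26⟩, ⟨.ofNat 78, .negSucc 25⟩⟩ ⟨.ofNat 281, .ofNat 120⟩ ⟨.ofNat 1, .ofNat 3⟩ ⟨.ofNat 3, .ofNat 6⟩ 6 (.s13 ⟨⟨.ofNat 447, .ofNat 156⟩, ⟨.ofNat 694, .negSucc 83⟩, ⟨.ofNat 364, .ofNat 0⟩, ⟨.ofNat 78, .ofNat 0⟩⟩ ⟨.ofNat 12, .ofNat 0⟩ ⟨.ofNat 1, .ofNat 0⟩ ⟨.ofNat 1, .ofNat 0⟩ 2 (.s03 ⟨⟨.ofNat 67964, .ofNat 18794⟩, ⟨.ofNat 33462, .ofNat 17667⟩, ⟨.ofNat 26026, .ofNat 13741⟩, ⟨.ofNat 7436, .ofNat 3926⟩⟩ ⟨.ofNat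 0, .ofNat 65⟩ ⟨.ofNat 117, .ofNat 7⟩ ⟨.ofNat 1, .ofNat 0⟩ 6 (.leaf 4 [0, 64, 30, 0, 64]) (.leaf 3 [0, 64, 64, 0, 64])) (.leaf 2 [0, 0, 64, 36])) (.s13 ⟨⟨.ofNat 447, .ofNat 156⟩, ⟨.ofNat 694, .negSucc 83⟩, ⟨.ofNat 364, .ofNat 0⟩, ⟨.ofNat 78, .ofNat 0⟩⟩ ⟨.ofNat 12, .ofNat 0⟩ ⟨.ofNat 1, .ofNat 0⟩ ⟨.ofNat 1, .ofNat 0⟩ 2 (.s03 ⟨⟨.ofNat 0, .ofNat 137⟩, ⟨.ofNat 137, .ofNat 0⟩, ⟨.ofNat 59, .ofNat 26⟩, ⟨.ofNat 78, .negSucc 25⟩⟩ ⟨.negSucc 35, .ofNat 89⟩ ⟨.ofNat 3, .ofNat 4⟩ ⟨.ofNat 6, .ofNat 9⟩ 6 (.leaf 4 [64, 20, 0, 0]) (.s03 ⟨⟨.ofNat 915, .ofNat 0⟩, ⟨.ofNat 442, .ofNat 0⟩, ⟨.ofNat 364, .ofNat 0⟩, ⟨.ofNat 78, .ofNat 0⟩⟩ ⟨.ofNat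 473, .ofNat 31⟩ ⟨.ofNat 3, .ofNat 3⟩ ⟨.ofNat 2, .ofNat 1⟩ 11 (.s23 ⟨⟨.ofNat 0, .ofNat 9⟩, ⟨.ofNat 9, .ofNat 0⟩, ⟨.ofNat 7, .ofNat 0⟩, ⟨.ofNat 2, .ofNat 0⟩⟩ ⟨.ofNat 97, .negSucc 19⟩ ⟨.ofNat 7, .ofNat 124⟩ ⟨.ofNat 2704, .ofNat 1352⟩ 6 (.s01 ⟨⟨.ofNat 28730, .ofNat 0⟩, ⟨.ofNat 20983, .ofNat 0⟩, ⟨.ofNat 14196, .ofNat 0⟩, ⟨.ofNat 3042, .ofNat 0⟩⟩ ⟨.ofNat 254, .negSucc 106⟩ ⟨.ofNat 214, .ofNat 107⟩ ⟨.ofNat 12, .ofNat 0⟩ 3 (.leaf 4 [24, 59, 0, 0]) (.s02 ⟨⟨.ofNat 21285, .ofNat 1395⟩, ⟨.ofNat 12771, .ofNat 837⟩, ⟨.ofNat 10297, .ofNat 469⟩, ⟨.ofNat 2474, .ofNat 368⟩⟩ ⟨.negSucc 26, .ofNat 18⟩ ⟨.ofNat 0, .ofNat 535⟩ ⟨.negSucc 0,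 .ofNat 1⟩ 7 (.leaf 4 [64, 64]) (.leaf 4 [64, 64, 36, 64, 64, 64]))) (.leaf 3 [64, 64, 40, 0, 64, 64, 0, 0, 64])) (.leaf 2 [46, 0, 0, 0, 64, 64, 64, 0, 0]))) (.leaf 1 [64, 37, 0, 0, 64, 64, 64, 0, 0])))) (.s02 ⟨⟨.ofNat 0, .ofNat 1⟩, ⟨.ofNat 1, .ofNat 0⟩, ⟨.ofNat 1, .ofNat 0⟩, ⟨.ofNat 0, .ofNat 0⟩⟩ ⟨.ofNat 1, .ofNat 0⟩ ⟨.negSucc 0, .ofNat 2⟩ ⟨.ofNat 0, .ofNat 2⟩ 6 (.leaf 1 [64, 0, 64, 64]) (.s01 ⟨⟨.ofNat 0, .ofNat 13⟩, ⟨.ofNat 34, .negSucc 6⟩, ⟨.ofNat 13, .ofNat 0⟩, ⟨.ofNat 0, .ofNat 0⟩⟩ ⟨.ofNat 13, .ofNat 0⟩ ⟨.negSucc 0, .ofNat 2⟩ ⟨.ofNat 0, .ofNat 2⟩ 26 (.leaf 1 [64, 0, 64, 64, 64, 64]) (.s03 ⟨⟨.ofNat 0, .ofNat 241⟩,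 ⟨.ofNat 241, .ofNat 0⟩, ⟨.ofNat 163, .ofNat 26⟩, ⟨.ofNat 78, .negSucc 25⟩⟩ ⟨.ofNat 281, .ofNat 120⟩ ⟨.ofNat 1, .ofNat 3⟩ ⟨.ofNat 3, .ofNat 6⟩ 6 (.leaf 1 [64, 64, 64, 64]) (.leaf 1 [64, 37, 0, 64, 64, 64, 0, 0]))))

/-- part of a tree -/
def t41_0 : Tree := .s12 ⟨⟨.ofNat 13, .ofNat 0⟩, ⟨.ofNat 27, .ofNat 0⟩, ⟨.ofNat 13, .ofNat 0⟩, ⟨.ofNat 0, .ofNat 0⟩⟩ ⟨.ofNat 14, .ofNat 0⟩ ⟨.ofNat 13, .ofNat 0⟩ ⟨.ofNat 1, .ofNat 0⟩ 37 t41_1 (.s13 ⟨⟨.ofNat 447, .ofNat 0⟩, ⟨.ofNat 433, .ofNat 0⟩, ⟨.ofNat 208, .ofNat 0⟩, ⟨.ofNat 78, .ofNat 0⟩⟩ ⟨.ofNat 147, .ofNat 0⟩ ⟨.ofNat 1, .ofNat 0⟩ ⟨.ofNat 1, .ofNat 0⟩ 0 (.s02 ⟨⟨.ofNat 0, .ofNat 13⟩,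 ⟨.ofNat 34, .negSucc 6⟩, ⟨.ofNat 13, .ofNat 0⟩, ⟨.ofNat 0, .ofNat 0⟩⟩ ⟨.ofNat 13, .ofNat 0⟩ ⟨.negSucc 0, .ofNat 2⟩ ⟨.ofNat 0, .ofNat 2⟩ 26 (.leaf 4 [0, 0, 64, 64, 64, 21, 64]) (.s03 ⟨⟨.ofNat 0, .ofNat 137⟩, ⟨.ofNat 137, .ofNat 0⟩, ⟨.ofNat 59, .ofNat 26⟩, ⟨.ofNat 78, .negSucc 25⟩⟩ ⟨.negSucc 35, .ofNat 89⟩ ⟨.ofNat 3, .ofNat 4⟩ ⟨.ofNat 6, .ofNat 9⟩ 6 (.leaf 4 [32, 64, 0, 64]) (.s23 ⟨⟨.ofNat 0, .ofNat 5746⟩, ⟨.ofNat 12151, .negSucc 3093⟩, ⟨.ofNat 4732, .ofNat 0⟩, ⟨.ofNat 1014, .ofNat 0⟩⟩ ⟨.ofNat 473, .ofNat 31⟩ ⟨.ofNat 39, .ofNat 39⟩ ⟨.ofNat 2, .ofNat 1⟩ 3 (.s03 ⟨⟨.ofNat 915, .ofNat 0⟩, ⟨.ofNat 442, .ofNat 0⟩, ⟨.ofNat 364,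 .ofNat 0⟩, ⟨.ofNat 78, .ofNat 0⟩⟩ ⟨.ofNat 473, .ofNat 31⟩ ⟨.ofNat 3, .ofNat 3⟩ ⟨.ofNat 2, .ofNat 1⟩ 11 (.leaf 4 [64, 64, 36, 0, 64, 64, 0, 64]) (.leaf 2 [64, 64, 0, 0, 0, 0, 64, 0, 29])) (.leaf 1 [64, 64, 64, 30, 0, 0, 64, 0, 64])))) (.s23 ⟨⟨.ofNat 785, .ofNat 0⟩, ⟨.ofNat 1135, .ofNat 0⟩, ⟨.ofNat 546, .ofNat 0⟩, ⟨.ofNat 78, .ofNat 0⟩⟩ ⟨.ofNat 26, .ofNat 0⟩ ⟨.ofNat 1, .ofNat 0⟩ ⟨.ofNat 1, .ofNat 0⟩ 30 (.s01 ⟨⟨.ofNat 3, .ofNat 0⟩, ⟨.ofNat 1, .ofNat 1⟩, ⟨.ofNat 1, .ofNat 0⟩, ⟨.ofNat 0, .ofNat 0⟩⟩ ⟨.ofNat 1, .ofNat 0⟩ ⟨.ofNat 0, .ofNat 1⟩ ⟨.ofNat 1, .ofNat 0⟩ 1 (.leaf 3 [64, 64, 64, 64, 0, 0, 0, 0, 64, 0, 0, 0, 0]) (.leaf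 1 [64, 64, 64, 30, 0, 0, 64, 0, 64, 64, 0, 64, 64])) (.leaf 0 [64, 64, 9, 0, 0, 0, 0, 0, 0, 64, 64, 0, 0])))

/-- part of a tree -/
def t41 : Tree := .s02 ⟨⟨.ofNat 3, .ofNat 0⟩, ⟨.ofNat 1, .ofNat 0⟩, ⟨.ofNat 1, .ofNat 0⟩, ⟨.ofNat 0, .ofNat 0⟩⟩ ⟨.ofNat 2, .ofNat 0⟩ ⟨.ofNat 1, .ofNat 0⟩ ⟨.ofNat 1, .ofNat 0⟩ 14 t41_0 (.s03 ⟨⟨.ofNat 33, .ofNat 0⟩, ⟨.ofNat 11, .ofNat 0⟩, ⟨.ofNat 8, .ofNat 0⟩, ⟨.ofNat 3, .ofNat 0⟩⟩ ⟨.ofNat 411, .ofNat 0⟩ ⟨.ofNat 1, .ofNat 0⟩ ⟨.ofNat 26, .ofNat 0⟩ 14 (.s13 ⟨⟨.ofNat 447, .ofNat 0⟩, ⟨.ofNat 433, .ofNat 0⟩, ⟨.ofNat 208, .ofNat 0⟩, ⟨.ofNat 78, .ofNat 0⟩⟩ ⟨.ofNat 147, .ofNat 0⟩ ⟨.ofNat 1, .ofNat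 0⟩ ⟨.ofNat 1, .ofNat 0⟩ 0 (.s03 ⟨⟨.ofNat 0, .ofNat 11⟩, ⟨.ofNat 11, .ofNat 0⟩, ⟨.ofNat 8, .ofNat 0⟩, ⟨.ofNat 3, .ofNat 0⟩⟩ ⟨.ofNat 286, .negSucc 160⟩ ⟨.negSucc 10, .ofNat 22⟩ ⟨.ofNat 0, .ofNat 411⟩ 6 (.s23 ⟨⟨.ofNat 0, .ofNat 137⟩, ⟨.ofNat 137, .ofNat 0⟩, ⟨.ofNat 59, .ofNat 26⟩, ⟨.ofNat 78, .negSucc 25⟩⟩ ⟨.negSucc 35, .ofNat 89⟩ ⟨.ofNat 3, .ofNat 4⟩ ⟨.ofNat 6, .ofNat 9⟩ 6 (.leaf 4 [61]) (.s02 ⟨⟨.ofNat 15, .ofNat 22⟩, ⟨.ofNat 27, .ofNat 0⟩, ⟨.ofNat 21, .ofNat 0⟩, ⟨.ofNat 6, .ofNat 0⟩⟩ ⟨.ofNat 2, .ofNat 0⟩ ⟨.ofNat 5, .ofNat 0⟩ ⟨.ofNat 1, .ofNat 0⟩ 9 (.s23 ⟨⟨.ofNat 915, .ofNat 0⟩, ⟨.ofNat 442, .ofNat 0⟩, ⟨.ofNat 364, .ofNat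 0⟩, ⟨.ofNat 78, .ofNat 0⟩⟩ ⟨.ofNat 473, .ofNat 31⟩ ⟨.ofNat 3, .ofNat 3⟩ ⟨.ofNat 2, .ofNat 1⟩ 11 (.leaf 4 [64, 64, 36, 0, 64, 64, 64]) (.leaf 3 [0, 0, 0, 0, 64, 58, 0, 0])) (.leaf 4 [64, 41, 0, 64]))) (.s03 ⟨⟨.ofNat 297, .ofNat 0⟩, ⟨.ofNat 143, .ofNat 0⟩, ⟨.ofNat 104, .ofNat 0⟩, ⟨.ofNat 39, .ofNat 0⟩⟩ ⟨.negSucc 12, .ofNat 14⟩ ⟨.ofNat 0, .ofNat 12⟩ ⟨.negSucc 0, .ofNat 2⟩ 11 (.s23 ⟨⟨.ofNat 15, .ofNat 22⟩, ⟨.ofNat 27, .ofNat 0⟩, ⟨.ofNat 21, .ofNat 0⟩, ⟨.ofNat 6, .ofNat 0⟩⟩ ⟨.ofNat 5, .ofNat 0⟩ ⟨.ofNat 2, .ofNat 0⟩ ⟨.ofNat 1, .ofNat 0⟩ 9 (.s01 ⟨⟨.ofNat 715, .ofNat 0⟩, ⟨.ofNat 605, .ofNat 0⟩, ⟨.ofNat 312, .ofNat 0⟩, ⟨.ofNat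 117, .ofNat 0⟩⟩ ⟨.ofNat 89, .ofNat 0⟩ ⟨.ofNat 176, .ofNat 0⟩ ⟨.ofNat 147, .ofNat 0⟩ 2 (.leaf 4 [64, 41, 0, 64]) (.s03 ⟨⟨.ofNat 55, .ofNat 0⟩, ⟨.ofNat 33, .ofNat 0⟩, ⟨.ofNat 24, .ofNat 0⟩, ⟨.ofNat 9, .ofNat 0⟩⟩ ⟨.negSucc 2, .ofNat 2⟩ ⟨.ofNat 0, .ofNat 16⟩ ⟨.negSucc 12, .ofNat 14⟩ 7 (.leaf 4 [64, 41, 64]) (.leaf 4 [64, 59, 64, 64]))) (.leaf 3 [0, 0, 0, 0, 64, 58, 0, 0])) (.leaf 3 [42, 0, 0, 0, 7, 0, 64, 64]))) (.s12 ⟨⟨.ofNat 3, .ofNat 0⟩, ⟨.ofNat 1, .ofNat 1⟩, ⟨.ofNat 1, .ofNat 0⟩, ⟨.ofNat 0, .ofNat 0⟩⟩ ⟨.ofNat 0, .ofNat 1⟩ ⟨.ofNat 1, .ofNat 0⟩ ⟨.ofNat 1, .ofNat 0⟩ 1 (.leaf 2 [61, 0, 0, 0, 64, 0, 64, 0, 64, 64]) (.leaf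 4 [64, 1, 0, 0, 0, 0, 0, 0, 0, 0, 0]))) (.leaf 3 [0, 0, 0, 0, 0, 0]))

theorem g41 : Good (PE lin H) ⟨⟨.ofNat 1, .ofNat 0⟩, ⟨.ofNat 0, .ofNat 0⟩, ⟨.ofNat 0, .ofNat 0⟩, ⟨.ofNat 0, .ofNat 0⟩⟩
    ⟨⟨.ofNat 0, .ofNat 0⟩, ⟨.ofNat 1, .ofNat 0⟩, ⟨.ofNat 0, .ofNat 0⟩, ⟨.ofNat 0, .ofNat 0⟩⟩
    ⟨⟨.ofNat 1, .ofNat 0⟩, ⟨.ofNat 1, .ofNat 0⟩, ⟨.ofNat 1, .ofNat 0⟩, ⟨.ofNat 0, .ofNat 0⟩⟩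
    ⟨⟨.ofNat 447, .ofNat 0⟩, ⟨.ofNat 286, .ofNat 0⟩, ⟨.ofNat 208, .ofNat 0⟩, ⟨.ofNat 78, .ofNat 0⟩⟩ :=
  goodE lin H t41 25 51 0 5 (by decide +kernel)

end

end Pool.Agent.PHCert.E2
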