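import Pool.Agent.PHCert.E2a
import Pool.Agent.PHCert.E2b
import Pool.Agent.PHCert.E2c
import Pool.Agent.PHCert.E2d
import Pool.Agent.PHCert.E2e
import Pool.Agent.PHCert.E2f
import Pool.Agent.PHCert.E2g
import Pool.Agent.PHCert.E2h

/-!
# PHCert: inequality E2
-/

set_option autoImplicit false

namespace Pool.Agent.PHCert.E2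

open Zp Pool.Agent.PHCert

noncomputable section

theorem g5 : Good (PE lin H) ⟨⟨.ofNat 621, .ofNat 0⟩, ⟨.ofNat 299, .ofNat 0⟩, ⟨.ofNat 143, .ofNat 0⟩, ⟨.ofNat 156, .ofNat 0⟩⟩
    ⟨⟨.ofNat 1836, .ofNat 2691⟩, ⟨.ofNat 3575, .ofNat 884⟩, ⟨.ofNat 1287, .ofNat 0⟩, ⟨.ofNat 2288, .ofNat 0⟩⟩
    ⟨⟨.ofNat 0, .ofNat 23⟩, ⟨.ofNat 23, .ofNat 0⟩, ⟨.ofNat 11, .ofNat 0⟩, ⟨.ofNat 12, .ofNat 0⟩⟩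
    ⟨⟨.ofNat 0, .ofNat 322⟩, ⟨.ofNat 322, .ofNat 0⟩, ⟨.ofNat 297, .negSucc 142⟩, ⟨.ofNat 25, .ofNat 143⟩⟩ :=
  good23 ⟨.negSucc 951, .ofNat 2623⟩ ⟨.ofNat 68, .ofNat 68⟩ ⟨.ofNat 0, .ofNat 3289⟩ (by decide +kernel) g3 g4

theorem g7 : Good (PE lin H) ⟨⟨.ofNat 621, .ofNat 0⟩, ⟨.ofNat 299, .ofNat 0⟩, ⟨.ofNat 143, .ofNat 0⟩, ⟨.ofNat 156, .ofNat 0⟩⟩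
    ⟨⟨.ofNat 27, .ofNat 0⟩, ⟨.ofNat 13, .ofNat 13⟩, ⟨.ofNat 0, .ofNat 0⟩, ⟨.ofNat 13, .ofNat 0⟩⟩
    ⟨⟨.ofNat 0, .ofNat 23⟩, ⟨.ofNat 23, .ofNat 0⟩, ⟨.ofNat 11, .ofNat 0⟩, ⟨.ofNat 12, .ofNat 0⟩⟩
    ⟨⟨.ofNat 0, .ofNat 322⟩, ⟨.ofNat 322, .ofNat 0⟩, ⟨.ofNat 297, .negSucc 142⟩, ⟨.ofNat 25, .ofNat 143⟩⟩ :=
  good12 ⟨.ofNat 68, .ofNat 0⟩ ⟨.ofNat 117, .ofNat 0⟩ ⟨.ofNat 1, .ofNat 0⟩ (by decide +kernel) g5 g6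

theorem g8 : Good (PE lin H) ⟨⟨.ofNat 621, .ofNat 0⟩, ⟨.ofNat 299, .ofNat 0⟩, ⟨.ofNat 143, .ofNat 0⟩, ⟨.ofNat 156, .ofNat 0⟩⟩
    ⟨⟨.ofNat 27, .ofNat 0⟩, ⟨.ofNat 13, .ofNat 13⟩, ⟨.ofNat 0, .ofNat 0⟩, ⟨.ofNat 13, .ofNat 0⟩⟩
    ⟨⟨.ofNat 23, .ofNat 0⟩, ⟨.ofNat 23, .ofNat 0⟩, ⟨.ofNat 11, .ofNat 0⟩, ⟨.ofNat 12, .ofNat 0⟩⟩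
    ⟨⟨.ofNat 0, .ofNat 322⟩, ⟨.ofNat 322, .ofNat 0⟩, ⟨.ofNat 297, .negSucc 142⟩, ⟨.ofNat 25, .ofNat 143⟩⟩ :=
  good02 ⟨.ofNat 1, .ofNat 0⟩ ⟨.negSucc 12, .ofNat 14⟩ ⟨.ofNat 0, .ofNat 14⟩ (by decide +kernel) g2 g7

theorem g9 : Good (PE lin H) ⟨⟨.ofNat 621, .ofNat 0⟩, ⟨.ofNat 299, .ofNat 0⟩, ⟨.ofNat 143, .ofNat 0⟩, ⟨.ofNat 156, .ofNat 0⟩⟩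
    ⟨⟨.ofNat 27, .ofNat 0⟩, ⟨.ofNat 13, .ofNat 13⟩, ⟨.ofNat 0, .ofNat 0⟩, ⟨.ofNat 13, .ofNat 0⟩⟩
    ⟨⟨.ofNat 23, .ofNat 0⟩, ⟨.ofNat 23, .ofNat 0⟩, ⟨.ofNat 11, .ofNat 0⟩, ⟨.ofNat 12, .ofNat 0⟩⟩
    ⟨⟨.ofNat 27, .ofNat 0⟩, ⟨.ofNat 13, .ofNat 0⟩, ⟨.ofNat 0, .ofNat 0⟩, ⟨.ofNat 13, .ofNat 0⟩⟩ :=
  good23 ⟨.ofNat 14, .ofNat 1⟩ ⟨.ofNat 0, .ofNat 23⟩ ⟨.ofNat 1, .ofNat 1⟩ (by decide +kernel) g1 g8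

theorem g11 : Good (PE lin H) ⟨⟨.ofNat 621, .ofNat 0⟩, ⟨.ofNat 299, .ofNat 0⟩, ⟨.ofNat 143, .ofNat 0⟩, ⟨.ofNat 156, .ofNat 0⟩⟩
    ⟨⟨.ofNat 0, .ofNat 0⟩, ⟨.ofNat 1, .ofNat 0⟩, ⟨.ofNat 0, .ofNat 0⟩, ⟨.ofNat 0, .ofNat 0⟩⟩
    ⟨⟨.ofNat 23, .ofNat 0⟩, ⟨.ofNat 23, .ofNat 0⟩, ⟨.ofNat 11, .ofNat 0⟩, ⟨.ofNat 12, .ofNat 0⟩⟩
    ⟨⟨.ofNat 27, .ofNat 0⟩, ⟨.ofNat 13, .ofNat 0⟩, ⟨.ofNat 0, .ofNat 0⟩, ⟨.ofNat 13, .ofNat 0⟩⟩ :=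
  good13 ⟨.ofNat 0, .ofNat 13⟩ ⟨.ofNat 1, .ofNat 0⟩ ⟨.ofNat 1, .ofNat 0⟩ (by decide +kernel) g9 g10

theorem g13 : Good (PE lin H) ⟨⟨.ofNat 1, .ofNat 0⟩, ⟨.ofNat 0, .ofNat 0⟩, ⟨.ofNat 0, .ofNat 0⟩, ⟨.ofNat 0, .ofNat 0⟩⟩
    ⟨⟨.ofNat 0, .ofNat 0⟩, ⟨.ofNat 1, .ofNat 0⟩, ⟨.ofNat 0, .ofNat 0⟩, ⟨.ofNat 0, .ofNat 0⟩⟩
    ⟨⟨.ofNat 23, .ofNat 0⟩, ⟨.ofNat 23, .ofNat 0⟩, ⟨.ofNat 11, .ofNat 0⟩, ⟨.ofNat 12, .ofNat 0⟩⟩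
    ⟨⟨.ofNat 27, .ofNat 0⟩, ⟨.ofNat 13, .ofNat 0⟩, ⟨.ofNat 0, .ofNat 0⟩, ⟨.ofNat 13, .ofNat 0⟩⟩ :=
  good02 ⟨.ofNat 322, .ofNat 0⟩ ⟨.ofNat 13, .ofNat 0⟩ ⟨.ofNat 1, .ofNat 0⟩ (by decide +kernel) g11 g12

theorem g14 : Good (PE lin H) ⟨⟨.ofNat 1, .ofNat 0⟩, ⟨.ofNat 0, .ofNat 0⟩, ⟨.ofNat 0, .ofNat 0⟩, ⟨.ofNat 0, .ofNat 0⟩⟩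
    ⟨⟨.ofNat 0, .ofNat 0⟩, ⟨.ofNat 1, .ofNat 0⟩, ⟨.ofNat 0, .ofNat 0⟩, ⟨.ofNat 0, .ofNat 0⟩⟩
    ⟨⟨.ofNat 23, .ofNat 0⟩, ⟨.ofNat 23, .ofNat 0⟩, ⟨.ofNat 11, .ofNat 0⟩, ⟨.ofNat 12, .ofNat 0⟩⟩
    ⟨⟨.ofNat 1, .ofNat 0⟩, ⟨.ofNat 1, .ofNat 0⟩, ⟨.ofNat 0, .ofNat 0⟩, ⟨.ofNat 1, .ofNat 0⟩⟩ :=
  good03 ⟨.ofNat 14, .ofNat 0⟩ ⟨.ofNat 13, .ofNat 0⟩ ⟨.ofNat 1, .ofNat 0⟩ (by decide +kernel) g0 g13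

theorem g19 : Good (PE lin H) ⟨⟨.negSucc 5151, .ofNat 12157⟩, ⟨.ofNat 2898, .ofNat 4107⟩, ⟨.ofNat 1209, .ofNat 2898⟩, ⟨.ofNat 1689, .ofNat 1209⟩⟩
    ⟨⟨.ofNat 23, .ofNat 0⟩, ⟨.ofNat 12, .ofNat 12⟩, ⟨.ofNat 11, .ofNat 0⟩, ⟨.ofNat 12, .ofNat 0⟩⟩
    ⟨⟨.ofNat 18518, .ofNat 5796⟩, ⟨.ofNat 10468, .ofNat 5796⟩, ⟨.ofNat 9259, .ofNat 2898⟩, ⟨.ofNat 1209, .ofNat 2898⟩⟩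
    ⟨⟨.ofNat 25, .ofNat 0⟩, ⟨.ofNat 25, .ofNat 0⟩, ⟨.ofNat 16, .ofNat 0⟩, ⟨.ofNat 9, .ofNat 0⟩⟩ :=
  good03 ⟨.ofNat 7, .ofNat 7⟩ ⟨.negSucc 1208, .ofNat 5152⟩ ⟨.ofNat 0, .ofNat 1⟩ (by decide +kernel) g17 g18

theorem g20 : Good (PE lin H) ⟨⟨.negSucc 5151, .ofNat 12157⟩, ⟨.ofNat 2898, .ofNat 4107⟩, ⟨.ofNat 1209, .ofNat 2898⟩, ⟨.ofNat 1689, .ofNat 1209⟩⟩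
    ⟨⟨.ofNat 23, .ofNat 0⟩, ⟨.ofNat 12, .ofNat 12⟩, ⟨.ofNat 11, .ofNat 0⟩, ⟨.ofNat 12, .ofNat 0⟩⟩
    ⟨⟨.ofNat 1, .ofNat 0⟩, ⟨.ofNat 1, .ofNat 0⟩, ⟨.ofNat 1, .ofNat 0⟩, ⟨.ofNat 0, .ofNat 0⟩⟩
    ⟨⟨.ofNat 25, .ofNat 0⟩, ⟨.ofNat 25, .ofNat 0⟩, ⟨.ofNat 16, .ofNat 0⟩, ⟨.ofNat 9, .ofNat 0⟩⟩ :=
  good02 ⟨.ofNat 1, .ofNat 1⟩ ⟨.negSucc 1208, .ofNat 5152⟩ ⟨.ofNat 0, .ofNat 1⟩ (by decide +kernel) g16 g19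

theorem g22 : Good (PE lin H) ⟨⟨.ofNat 0, .ofNat 8050⟩, ⟨.ofNat 8050, .ofNat 0⟩, ⟨.ofNat 6361, .negSucc 1208⟩, ⟨.ofNat 1689, .ofNat 1209⟩⟩
    ⟨⟨.ofNat 23, .ofNat 0⟩, ⟨.ofNat 12, .ofNat 12⟩, ⟨.ofNat 11, .ofNat 0⟩, ⟨.ofNat 12, .ofNat 0⟩⟩
    ⟨⟨.ofNat 1, .ofNat 0⟩, ⟨.ofNat 1, .ofNat 0⟩, ⟨.ofNat 1, .ofNat 0⟩, ⟨.ofNat 0, .ofNat 0⟩⟩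
    ⟨⟨.ofNat 25, .ofNat 0⟩, ⟨.ofNat 25, .ofNat 0⟩, ⟨.ofNat 16, .ofNat 0⟩, ⟨.ofNat 9, .ofNat 0⟩⟩ :=
  good02 ⟨.ofNat 1, .ofNat 1⟩ ⟨.negSucc 1044, .ofNat 3062⟩ ⟨.ofNat 1, .ofNat 1⟩ (by decide +kernel) g20 g21

theorem g27 : Good (PE lin H) ⟨⟨.ofNat 621, .ofNat 0⟩, ⟨.ofNat 299, .ofNat 0⟩, ⟨.ofNat 143, .ofNat 0⟩, ⟨.ofNat 156, .ofNat 0⟩⟩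
    ⟨⟨.ofNat 264, .ofNat 0⟩, ⟨.ofNat 187, .ofNat 84⟩, ⟨.ofNat 180, .ofNat 0⟩, ⟨.ofNat 84, .ofNat 0⟩⟩
    ⟨⟨.ofNat 1133, .ofNat 0⟩, ⟨.ofNat 650, .ofNat 0⟩, ⟨.ofNat 416, .ofNat 0⟩, ⟨.ofNat 234, .ofNat 0⟩⟩
    ⟨⟨.ofNat 0, .ofNat 8050⟩, ⟨.ofNat 8050, .ofNat 0⟩, ⟨.ofNat 6361, .negSucc 1208⟩, ⟨.ofNat 1689, .ofNat 1209⟩⟩ :=
  good01 ⟨.ofNat 54, .ofNat 0⟩ ⟨.ofNat 91, .ofNat 0⟩ ⟨.ofNat 1, .ofNat 0⟩ (by decide +kernel) g25 g26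

theorem g28 : Good (PE lin H) ⟨⟨.ofNat 621, .ofNat 0⟩, ⟨.ofNat 299, .ofNat 0⟩, ⟨.ofNat 143, .ofNat 0⟩, ⟨.ofNat 156, .ofNat 0⟩⟩
    ⟨⟨.ofNat 264, .ofNat 0⟩, ⟨.ofNat 187, .ofNat 84⟩, ⟨.ofNat 180, .ofNat 0⟩, ⟨.ofNat 84, .ofNat 0⟩⟩
    ⟨⟨.ofNat 447, .ofNat 0⟩, ⟨.ofNat 286, .ofNat 0⟩, ⟨.ofNat 208, .ofNat 0⟩, ⟨.ofNat 78, .ofNat 0⟩⟩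
    ⟨⟨.ofNat 0, .ofNat 8050⟩, ⟨.ofNat 8050, .ofNat 0⟩, ⟨.ofNat 6361, .negSucc 1208⟩, ⟨.ofNat 1689, .ofNat 1209⟩⟩ :=
  good02 ⟨.ofNat 16, .ofNat 0⟩ ⟨.ofNat 31, .ofNat 0⟩ ⟨.ofNat 21, .ofNat 0⟩ (by decide +kernel) g24 g27

theorem g29 : Good (PE lin H) ⟨⟨.ofNat 621, .ofNat 0⟩, ⟨.ofNat 299, .ofNat 0⟩, ⟨.ofNat 143, .ofNat 0⟩, ⟨.ofNat 156, .ofNat 0⟩⟩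
    ⟨⟨.ofNat 264, .ofNat 0⟩, ⟨.ofNat 187, .ofNat 84⟩, ⟨.ofNat 180, .ofNat 0⟩, ⟨.ofNat 84, .ofNat 0⟩⟩
    ⟨⟨.ofNat 1, .ofNat 0⟩, ⟨.ofNat 1, .ofNat 0⟩, ⟨.ofNat 1, .ofNat 0⟩, ⟨.ofNat 0, .ofNat 0⟩⟩
    ⟨⟨.ofNat 0, .ofNat 8050⟩, ⟨.ofNat 8050, .ofNat 0⟩, ⟨.ofNat 6361, .negSucc 1208⟩, ⟨.ofNat 1689, .ofNat 1209⟩⟩ :=
  good02 ⟨.ofNat 1, .ofNat 0⟩ ⟨.ofNat 273, .ofNat 0⟩ ⟨.ofNat 2, .ofNat 0⟩ (by decide +kernel) g23 g28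

theorem g31 : Good (PE lin H) ⟨⟨.ofNat 621, .ofNat 0⟩, ⟨.ofNat 299, .ofNat 0⟩, ⟨.ofNat 143, .ofNat 0⟩, ⟨.ofNat 156, .ofNat 0⟩⟩
    ⟨⟨.ofNat 23, .ofNat 0⟩, ⟨.ofNat 12, .ofNat 12⟩, ⟨.ofNat 11, .ofNat 0⟩, ⟨.ofNat 12, .ofNat 0⟩⟩
    ⟨⟨.ofNat 1, .ofNat 0⟩, ⟨.ofNat 1, .ofNat 0⟩, ⟨.ofNat 1, .ofNat 0⟩, ⟨.ofNat 0, .ofNat 0⟩⟩
    ⟨⟨.ofNat 0, .ofNat 8050⟩, ⟨.ofNat 8050, .ofNat 0⟩, ⟨.ofNat 6361, .negSucc 1208⟩, ⟨.ofNat 1689, .ofNat 1209⟩⟩ :=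
  good12 ⟨.ofNat 7, .ofNat 0⟩ ⟨.ofNat 103, .ofNat 0⟩ ⟨.ofNat 1, .ofNat 0⟩ (by decide +kernel) g29 g30

theorem g32 : Good (PE lin H) ⟨⟨.ofNat 621, .ofNat 0⟩, ⟨.ofNat 299, .ofNat 0⟩, ⟨.ofNat 143, .ofNat 0⟩, ⟨.ofNat 156, .ofNat 0⟩⟩
    ⟨⟨.ofNat 23, .ofNat 0⟩, ⟨.ofNat 12, .ofNat 12⟩, ⟨.ofNat 11, .ofNat 0⟩, ⟨.ofNat 12, .ofNat 0⟩⟩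
    ⟨⟨.ofNat 1, .ofNat 0⟩, ⟨.ofNat 1, .ofNat 0⟩, ⟨.ofNat 1, .ofNat 0⟩, ⟨.ofNat 0, .ofNat 0⟩⟩
    ⟨⟨.ofNat 25, .ofNat 0⟩, ⟨.ofNat 25, .ofNat 0⟩, ⟨.ofNat 16, .ofNat 0⟩, ⟨.ofNat 9, .ofNat 0⟩⟩ :=
  good03 ⟨.ofNat 0, .ofNat 25⟩ ⟨.ofNat 322, .ofNat 23⟩ ⟨.ofNat 1, .ofNat 1⟩ (by decide +kernel) g22 g31

theorem g33 : Good (PE lin H) ⟨⟨.ofNat 621, .ofNat 0⟩, ⟨.ofNat 299, .ofNat 0⟩, ⟨.ofNat 143, .ofNat 0⟩, ⟨.ofNat 156, .ofNat 0⟩⟩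
    ⟨⟨.ofNat 23, .ofNat 0⟩, ⟨.ofNat 12, .ofNat 12⟩, ⟨.ofNat 11, .ofNat 0⟩, ⟨.ofNat 12, .ofNat 0⟩⟩
    ⟨⟨.ofNat 1, .ofNat 0⟩, ⟨.ofNat 1, .ofNat 0⟩, ⟨.ofNat 1, .ofNat 0⟩, ⟨.ofNat 0, .ofNat 0⟩⟩
    ⟨⟨.ofNat 23, .ofNat 0⟩, ⟨.ofNat 23, .ofNat 0⟩, ⟨.ofNat 11, .ofNat 0⟩, ⟨.ofNat 12, .ofNat 0⟩⟩ :=
  good23 ⟨.ofNat 31, .ofNat 0⟩ ⟨.ofNat 3, .ofNat 0⟩ ⟨.ofNat 4, .ofNat 0⟩ (by decide +kernel) g15 g32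

theorem g37 : Good (PE lin H) ⟨⟨.ofNat 621, .ofNat 0⟩, ⟨.ofNat 299, .ofNat 0⟩, ⟨.ofNat 143, .ofNat 0⟩, ⟨.ofNat 156, .ofNat 0⟩⟩
    ⟨⟨.ofNat 621, .ofNat 0⟩, ⟨.ofNat 156, .ofNat 156⟩, ⟨.ofNat 143, .ofNat 0⟩, ⟨.ofNat 156, .ofNat 0⟩⟩
    ⟨⟨.ofNat 1, .ofNat 0⟩, ⟨.ofNat 1, .ofNat 0⟩, ⟨.ofNat 1, .ofNat 0⟩, ⟨.ofNat 0, .ofNat 0⟩⟩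
    ⟨⟨.ofNat 23, .ofNat 0⟩, ⟨.ofNat 12, .ofNat 12⟩, ⟨.ofNat 11, .ofNat 0⟩, ⟨.ofNat 12, .ofNat 0⟩⟩ :=
  good23 ⟨.ofNat 31, .ofNat 0⟩ ⟨.ofNat 3, .ofNat 0⟩ ⟨.ofNat 1, .ofNat 0⟩ (by decide +kernel) g35 g36

theorem g38 : Good (PE lin H) ⟨⟨.ofNat 621, .ofNat 0⟩, ⟨.ofNat 299, .ofNat 0⟩, ⟨.ofNat 143, .ofNat 0⟩, ⟨.ofNat 156, .ofNat 0⟩⟩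
    ⟨⟨.ofNat 0, .ofNat 0⟩, ⟨.ofNat 1, .ofNat 0⟩, ⟨.ofNat 0, .ofNat 0⟩, ⟨.ofNat 0, .ofNat 0⟩⟩
    ⟨⟨.ofNat 1, .ofNat 0⟩, ⟨.ofNat 1, .ofNat 0⟩, ⟨.ofNat 1, .ofNat 0⟩, ⟨.ofNat 0, .ofNat 0⟩⟩
    ⟨⟨.ofNat 23, .ofNat 0⟩, ⟨.ofNat 12, .ofNat 12⟩, ⟨.ofNat 11, .ofNat 0⟩, ⟨.ofNat 12, .ofNat 0⟩⟩ :=
  good01 ⟨.ofNat 0, .ofNat 1⟩ ⟨.ofNat 156, .ofNat 13⟩ ⟨.ofNat 0, .ofNat 1⟩ (by decide +kernel) g34 g37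

theorem g39 : Good (PE lin H) ⟨⟨.ofNat 621, .ofNat 0⟩, ⟨.ofNat 299, .ofNat 0⟩, ⟨.ofNat 143, .ofNat 0⟩, ⟨.ofNat 156, .ofNat 0⟩⟩
    ⟨⟨.ofNat 0, .ofNat 0⟩, ⟨.ofNat 1, .ofNat 0⟩, ⟨.ofNat 0, .ofNat 0⟩, ⟨.ofNat 0, .ofNat 0⟩⟩
    ⟨⟨.ofNat 1, .ofNat 0⟩, ⟨.ofNat 1, .ofNat 0⟩, ⟨.ofNat 1, .ofNat 0⟩, ⟨.ofNat 0, .ofNat 0⟩⟩
    ⟨⟨.ofNat 23, .ofNat 0⟩, ⟨.ofNat 23, .ofNat 0⟩, ⟨.ofNat 11, .ofNat 0⟩, ⟨.ofNat 12, .ofNat 0⟩⟩ :=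
  good13 ⟨.ofNat 12, .ofNat 1⟩ ⟨.ofNat 0, .ofNat 1⟩ ⟨.ofNat 0, .ofNat 1⟩ (by decide +kernel) g33 g38

theorem g42 : Good (PE lin H) ⟨⟨.ofNat 1, .ofNat 0⟩, ⟨.ofNat 0, .ofNat 0⟩, ⟨.ofNat 0, .ofNat 0⟩, ⟨.ofNat 0, .ofNat 0⟩⟩
    ⟨⟨.ofNat 0, .ofNat 0⟩, ⟨.ofNat 1, .ofNat 0⟩, ⟨.ofNat 0, .ofNat 0⟩, ⟨.ofNat 0, .ofNat 0⟩⟩
    ⟨⟨.ofNat 1, .ofNat 0⟩, ⟨.ofNat 1, .ofNat 0⟩, ⟨.ofNat 1, .ofNat 0⟩, ⟨.ofNat 0, .ofNat 0⟩⟩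
    ⟨⟨.ofNat 621, .ofNat 0⟩, ⟨.ofNat 299, .ofNat 0⟩, ⟨.ofNat 143, .ofNat 0⟩, ⟨.ofNat 156, .ofNat 0⟩⟩ :=
  good23 ⟨.ofNat 273, .ofNat 0⟩ ⟨.ofNat 1, .ofNat 0⟩ ⟨.ofNat 2, .ofNat 0⟩ (by decide +kernel) g40 g41

theorem g43 : Good (PE lin H) ⟨⟨.ofNat 1, .ofNat 0⟩, ⟨.ofNat 0, .ofNat 0⟩, ⟨.ofNat 0, .ofNat 0⟩, ⟨.ofNat 0, .ofNat 0⟩⟩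
    ⟨⟨.ofNat 0, .ofNat 0⟩, ⟨.ofNat 1, .ofNat 0⟩, ⟨.ofNat 0, .ofNat 0⟩, ⟨.ofNat 0, .ofNat 0⟩⟩
    ⟨⟨.ofNat 1, .ofNat 0⟩, ⟨.ofNat 1, .ofNat 0⟩, ⟨.ofNat 1, .ofNat 0⟩, ⟨.ofNat 0, .ofNat 0⟩⟩
    ⟨⟨.ofNat 23, .ofNat 0⟩, ⟨.ofNat 23, .ofNat 0⟩, ⟨.ofNat 11, .ofNat 0⟩, ⟨.ofNat 12, .ofNat 0⟩⟩ :=
  good03 ⟨.ofNat 322, .ofNat 0⟩ ⟨.ofNat 13, .ofNat 0⟩ ⟨.ofNat 1, .ofNat 0⟩ (by decide +kernel) g39 g42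

theorem g44 : Good (PE lin H) ⟨⟨.ofNat 1, .ofNat 0⟩, ⟨.ofNat 0, .ofNat 0⟩, ⟨.ofNat 0, .ofNat 0⟩, ⟨.ofNat 0, .ofNat 0⟩⟩
    ⟨⟨.ofNat 0, .ofNat 0⟩, ⟨.ofNat 1, .ofNat 0⟩, ⟨.ofNat 0, .ofNat 0⟩, ⟨.ofNat 0, .ofNat 0⟩⟩
    ⟨⟨.ofNat 1, .ofNat 0⟩, ⟨.ofNat 1, .ofNat 0⟩, ⟨.ofNat 1, .ofNat 0⟩, ⟨.ofNat 0, .ofNat 0⟩⟩
    ⟨⟨.ofNat 1, .ofNat 0⟩, ⟨.ofNat 1, .ofNat 0⟩, ⟨.ofNat 0, .ofNat 0⟩, ⟨.ofNat 1, .ofNat 0⟩⟩ :=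
  good23 ⟨.ofNat 11, .ofNat 0⟩ ⟨.ofNat 12, .ofNat 0⟩ ⟨.ofNat 1, .ofNat 0⟩ (by decide +kernel) g14 g43

theorem root : Good (PE lin H) v0 v1 ⟨z1, z1, z1, z0⟩ ⟨z1, z1, z0, z1⟩ := g44

theorem ineq {e f a b : ℝ} (ha : 0 ≤ a) (hb : 0 ≤ b) (he : a + b ≤ e) (hf : a + b ≤ f) :
    0 ≤ tev ts ![e, f, a, b] + (DD : ℝ) / Lp * (VV e f - Real.goldenRatio ^ 2 * VV a b) := gen_E data root ha hb he hf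

end

end Pool.Agent.PHCert.E2
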