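import Pool.Agent.PHCert.E2H

/-!
# PHCert: inequality E2, part 1 (71 leaves, checked by the kernel)
-/

set_option autoImplicit false

namespace Pool.Agent.PHCert.E2

open Zp Pool.Agent.PHCert

noncomputable section

/-- part of a tree -/
def t0 : Tree := .s13 ⟨⟨.ofNat 13, .ofNat 0⟩, ⟨.ofNat 27, .ofNat 0⟩, ⟨.ofNat 0, .ofNat 0⟩, ⟨.ofNat 13, .ofNat 0⟩⟩ ⟨.ofNat 14, .ofNat 0⟩ ⟨.ofNat 13, .ofNat 0⟩ ⟨.ofNat 1, .ofNat 0⟩ 37 (.s23 ⟨⟨.ofNat 17, .ofNat 0⟩, ⟨.ofNat 17, .ofNat 0⟩, ⟨.ofNat 3, .ofNat 0⟩, ⟨.ofNat 14, .ofNat 0⟩⟩ ⟨.ofNat 3, .ofNat 0⟩ ⟨.ofNat 118, .ofNat 0⟩ ⟨.ofNat 11, .ofNat 0⟩ 0 (.leaf 20 [64, 64, 64, 64, 64, 44, 64, 64, 64, 64]) (.s02 ⟨⟨.ofNat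 2029, .ofNat 0⟩, ⟨.ofNat 1287, .ofNat 0⟩, ⟨.ofNat 286, .ofNat 0⟩, ⟨.ofNat 1001, .ofNat 0⟩⟩ ⟨.ofNat 53, .ofNat 0⟩ ⟨.ofNat 26, .ofNat 0⟩ ⟨.ofNat 1, .ofNat 0⟩ 6 (.s12 ⟨⟨.ofNat 121, .ofNat 0⟩, ⟨.ofNat 177, .ofNat 0⟩, ⟨.ofNat 33, .ofNat 0⟩, ⟨.ofNat 88, .ofNat 0⟩⟩ ⟨.ofNat 4, .ofNat 0⟩ ⟨.ofNat 3, .ofNat 0⟩ ⟨.ofNat 1, .ofNat 0⟩ 30 (.s23 ⟨⟨.ofNat 22, .ofNat 0⟩, ⟨.ofNat 22, .ofNat 0⟩, ⟨.ofNat 7, .ofNat 0⟩, ⟨.ofNat 15, .ofNat 0⟩⟩ ⟨.ofNat 53, .ofNat 0⟩ ⟨.ofNat 81, .ofNat 0⟩ ⟨.ofNat 118, .ofNat 0⟩ 0 (.leaf 16 [64, 64, 64, 64, 27]) (.leaf 14 [64, 64, 64, 0, 64, 3, 0, 0])) (.leaf 17 [64, 64, 64, 0, 64, 13])) (.leaf 19 [64, 64, 64, 59, 0, 0, 64, 64, 64, 26])))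 (.s12 ⟨⟨.ofNat 299, .ofNat 0⟩, ⟨.ofNat 621, .ofNat 0⟩, ⟨.ofNat 143, .ofNat 0⟩, ⟨.ofNat 156, .ofNat 0⟩⟩ ⟨.ofNat 322, .ofNat 0⟩ ⟨.ofNat 13, .ofNat 0⟩ ⟨.ofNat 1, .ofNat 0⟩ 37 (.s02 ⟨⟨.ofNat 177, .ofNat 0⟩, ⟨.ofNat 121, .ofNat 0⟩, ⟨.ofNat 33, .ofNat 0⟩, ⟨.ofNat 88, .ofNat 0⟩⟩ ⟨.ofNat 4, .ofNat 0⟩ ⟨.ofNat 3, .ofNat 0⟩ ⟨.ofNat 1, .ofNat 0⟩ 4 (.s23 ⟨⟨.ofNat 3146, .ofNat 0⟩, ⟨.ofNat 4280, .ofNat 0⟩, ⟨.ofNat 1001, .ofNat 0⟩, ⟨.ofNat 2145, .ofNat 0⟩⟩ ⟨.ofNat 91, .ofNat 0⟩ ⟨.ofNat 81, .ofNat 0⟩ ⟨.ofNat 1, .ofNat 0⟩ 29 (.leaf 14 [64, 64, 64, 0, 0, 45, 64, 64, 0, 0, 0]) (.leaf 12 [64, 64, 64, 0, 0, 0, 0, 60, 64, 64, 0, 0, 0])) (.s01 ⟨⟨.ofNat 4083, .ofNat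 0⟩, ⟨.ofNat 3397, .ofNat 0⟩, ⟨.ofNat 429, .ofNat 0⟩, ⟨.ofNat 2002, .ofNat 0⟩⟩ ⟨.ofNat 118, .ofNat 0⟩ ⟨.ofNat 3, .ofNat 0⟩ ⟨.ofNat 1, .ofNat 0⟩ 2 (.s12 ⟨⟨.ofNat 36219, .negSucc 649⟩, ⟨.ofNat 17886, .ofNat 17886⟩, ⟨.ofNat 5313, .ofNat 3718⟩, ⟨.ofNat 17886, .ofNat 0⟩⟩ ⟨.ofNat 88, .ofNat 55⟩ ⟨.negSucc 155, .ofNat 309⟩ ⟨.ofNat 0, .ofNat 2⟩ 29 (.leaf 17 [64, 64, 64, 64, 64, 0, 64, 27, 0]) (.leaf 16 [64, 64, 64, 64, 0, 0, 0, 64, 53, 0, 0, 0])) (.leaf 19 [64, 64, 64, 64, 0, 0, 64, 64, 64]))) (.s01 ⟨⟨.ofNat 27, .ofNat 0⟩, ⟨.ofNat 13, .ofNat 13⟩, ⟨.ofNat 0, .ofNat 0⟩, ⟨.ofNat 13, .ofNat 0⟩⟩ ⟨.ofNat 1, .ofNat 0⟩ ⟨.ofNat 0, .ofNat 13⟩ ⟨.ofNat 1, .ofNat 0⟩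 28 (.s23 ⟨⟨.ofNat 221, .ofNat 0⟩, ⟨.ofNat 459, .ofNat 0⟩, ⟨.ofNat 39, .ofNat 0⟩, ⟨.ofNat 182, .ofNat 0⟩⟩ ⟨.ofNat 3, .ofNat 0⟩ ⟨.ofNat 118, .ofNat 0⟩ ⟨.ofNat 11, .ofNat 0⟩ 37 (.s13 ⟨⟨.ofNat 7, .ofNat 0⟩, ⟨.ofNat 33, .ofNat 0⟩, ⟨.ofNat 0, .ofNat 0⟩, ⟨.ofNat 7, .ofNat 0⟩⟩ ⟨.ofNat 240, .ofNat 0⟩ ⟨.ofNat 7, .ofNat 0⟩ ⟨.ofNat 13, .ofNat 0⟩ 43 (.leaf 20 [64, 64, 64, 64, 64, 64, 64, 0, 64, 64, 53, 0]) (.s12 ⟨⟨.ofNat 17, .ofNat 0⟩, ⟨.ofNat 63, .ofNat 0⟩, ⟨.ofNat 3, .ofNat 0⟩, ⟨.ofNat 14, .ofNat 0⟩⟩ ⟨.ofNat 360, .ofNat 0⟩ ⟨.ofNat 1, .ofNat 0⟩ ⟨.ofNat 13, .ofNat 0⟩ 42 (.leaf 19 [64, 64, 64, 64, 64, 64, 64, 0, 64, 25, 0]) (.leaf 20 [64, 64, 64, 64, 64, 64,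 0, 0, 0, 0, 0, 0]))) (.s13 ⟨⟨.ofNat 17, .ofNat 0⟩, ⟨.ofNat 63, .ofNat 0⟩, ⟨.ofNat 3, .ofNat 0⟩, ⟨.ofNat 14, .ofNat 0⟩⟩ ⟨.ofNat 360, .ofNat 0⟩ ⟨.ofNat 1, .ofNat 0⟩ ⟨.ofNat 13, .ofNat 0⟩ 42 (.leaf 16 [64, 64, 64, 64, 64, 64, 64, 0, 17, 0, 0, 0]) (.leaf 15 [64, 64, 64, 64, 64, 64, 0, 64, 0, 0, 0, 0, 0]))) (.s02 ⟨⟨.ofNat 2054, .ofNat 0⟩, ⟨.ofNat 1466, .ofNat 0⟩, ⟨.ofNat 143, .ofNat 0⟩, ⟨.ofNat 1001, .ofNat 0⟩⟩ ⟨.ofNat 65, .ofNat 0⟩ ⟨.ofNat 1, .ofNat 0⟩ ⟨.ofNat 1, .ofNat 0⟩ 4 (.leaf 16 [64, 64, 64, 64, 64, 64, 64, 0, 2, 64, 64, 0, 0, 0]) (.leaf 20 [64, 64, 64, 15, 0, 0, 0, 0, 64, 64, 59]))))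

theorem g0 : Good (PE lin H) ⟨⟨.ofNat 27, .ofNat 0⟩, ⟨.ofNat 13, .ofNat 0⟩, ⟨.ofNat 0, .ofNat 0⟩, ⟨.ofNat 13, .ofNat 0⟩⟩
    ⟨⟨.ofNat 0, .ofNat 0⟩, ⟨.ofNat 1, .ofNat 0⟩, ⟨.ofNat 0, .ofNat 0⟩, ⟨.ofNat 0, .ofNat 0⟩⟩
    ⟨⟨.ofNat 23, .ofNat 0⟩, ⟨.ofNat 23, .ofNat 0⟩, ⟨.ofNat 11, .ofNat 0⟩, ⟨.ofNat 12, .ofNat 0⟩⟩
    ⟨⟨.ofNat 1, .ofNat 0⟩, ⟨.ofNat 1, .ofNat 0⟩, ⟨.ofNat 0, .ofNat 0⟩, ⟨.ofNat 1, .ofNat 0⟩⟩ :=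
  goodE lin H t0 11 51 0 0 (by decide +kernel)

/-- part of a tree -/
def t1_8 : Tree := .s02 ⟨⟨.ofNat 3912, .ofNat 835⟩, ⟨.ofNat 1448, .ofNat 765⟩, ⟨.ofNat 376, .ofNat 445⟩, ⟨.ofNat 1072, .ofNat 320⟩⟩ ⟨.ofNat 501, .negSucc 125⟩ ⟨.ofNat 0, .ofNat 140⟩ ⟨.ofNat 143, .negSucc 12⟩ 10 (.s12 ⟨⟨.ofNat 846, .ofNat 1927⟩, ⟨.ofNat 1014, .ofNat 676⟩, ⟨.ofNat 1352, .negSucc 337⟩, ⟨.ofNat 2028, .negSucc 506⟩⟩ ⟨.ofNat 52, .negSucc 12⟩ ⟨.ofNat 20, .ofNat 7⟩ ⟨.ofNat 10, .ofNat 9⟩ 9 (.s02 ⟨⟨.negSucc 2384, .ofNat 5391⟩, ⟨.negSucc 844, .ofNat 2535⟩, ⟨.negSucc 337, .ofNat 1014⟩, ⟨.negSucc 506, .ofNat 1521⟩⟩ ⟨.ofNat 676, .negSucc 168⟩ ⟨.ofNat 374, .ofNat 53⟩ ⟨.negSucc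 125, .ofNat 375⟩ 10 (.s23 ⟨⟨.ofNat 0, .ofNat 2⟩, ⟨.ofNat 0, .ofNat 1⟩, ⟨.negSucc 0, .ofNat 1⟩, ⟨.ofNat 1, .ofNat 0⟩⟩ ⟨.ofNat 2, .ofNat 3⟩ ⟨.negSucc 300, .ofNat 418⟩ ⟨.negSucc 2729, .ofNat 7462⟩ 10 (.s03 ⟨⟨.ofNat 1008, .ofNat 756⟩, ⟨.ofNat 504, .ofNat 378⟩, ⟨.ofNat 747, .negSucc 190⟩, ⟨.negSucc 242, .ofNat 569⟩⟩ ⟨.ofNat 1, .ofNat 2⟩ ⟨.ofNat 374, .ofNat 53⟩ ⟨.ofNat 0, .ofNat 13⟩ 10 (.leaf 13 [4, 63]) (.leaf 13 [64])) (.leaf 13 [64])) (.s03 ⟨⟨.negSucc 38569, .ofNat 62385⟩, ⟨.negSucc 8189, .ofNat 24375⟩, ⟨.negSucc 3275, .ofNat 9750⟩, ⟨.negSucc 4913, .ofNat 14625⟩⟩ ⟨.negSucc 12, .ofNat 13⟩ ⟨.ofNat 374, .ofNat 53⟩ ⟨.ofNat 1, .ofNat 0⟩ 10 (.s23 ⟨⟨.ofNat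 1008, .ofNat 756⟩, ⟨.ofNat 504, .ofNat 378⟩, ⟨.ofNat 747, .negSucc 190⟩, ⟨.negSucc 242, .ofNat 569⟩⟩ ⟨.ofNat 1, .ofNat 2⟩ ⟨.ofNat 374, .ofNat 53⟩ ⟨.ofNat 0, .ofNat 13⟩ 10 (.leaf 13 [4, 62]) (.leaf 13 [64])) (.leaf 12 [64]))) (.s13 ⟨⟨.ofNat 135, .ofNat 0⟩, ⟨.ofNat 26, .ofNat 26⟩, ⟨.ofNat 26, .ofNat 0⟩, ⟨.ofNat 39, .ofNat 0⟩⟩ ⟨.negSucc 0, .ofNat 1⟩ ⟨.ofNat 20, .ofNat 7⟩ ⟨.negSucc 0, .ofNat 10⟩ 10 (.s03 ⟨⟨.negSucc 38569, .ofNat 62385⟩, ⟨.negSucc 8189, .ofNat 24375⟩, ⟨.negSucc 3275, .ofNat 9750⟩, ⟨.negSucc 4913, .ofNat 14625⟩⟩ ⟨.negSucc 12, .ofNat 13⟩ ⟨.ofNat 374, .ofNat 53⟩ ⟨.ofNat 1, .ofNat 0⟩ 10 (.leaf 13 [11, 64, 35]) (.leaf 12 [64, 64, 29]))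 (.leaf 12 [57, 64, 64]))) (.s23 ⟨⟨.ofNat 15680, .ofNat 11760⟩, ⟨.ofNat 7840, .ofNat 5880⟩, ⟨.ofNat 10301, .negSucc 2085⟩, ⟨.negSucc 2460, .ofNat 7966⟩⟩ ⟨.ofNat 2, .ofNat 3⟩ ⟨.ofNat 374, .ofNat 53⟩ ⟨.ofNat 0, .ofNat 1⟩ 10 (.s03 ⟨⟨.ofNat 135, .ofNat 0⟩, ⟨.ofNat 65, .ofNat 0⟩, ⟨.ofNat 26, .ofNat 0⟩, ⟨.ofNat 39, .ofNat 0⟩⟩ ⟨.ofNat 2, .negSucc 0⟩ ⟨.ofNat 9, .ofNat 9⟩ ⟨.ofNat 11, .negSucc 0⟩ 11 (.leaf 13 [64, 64, 15]) (.s02 ⟨⟨.ofNat 49946075, .ofNat 23977360⟩, ⟨.ofNat 24255725, .ofNat 11897600⟩, ⟨.ofNat 10672519, .ofNat 5234944⟩, ⟨.ofNat 13583206, .ofNat 6662656⟩⟩ ⟨.ofNat 62375, .ofNat 7920⟩ ⟨.ofNat 286, .ofNat 572⟩ ⟨.ofNat 1, .ofNat 0⟩ 11 (.s02 ⟨⟨.ofNat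 9899055, .ofNat 4642200⟩, ⟨.ofNat 4851145, .ofNat 2379520⟩, ⟨.ofNat 1940458, .ofNat 951808⟩, ⟨.ofNat 2910687, .ofNat 1427712⟩⟩ ⟨.negSucc 7164, .ofNat 4438⟩ ⟨.ofNat 970229, .ofNat 475904⟩ ⟨.negSucc 34256, .ofNat 23366⟩ 11 (.leaf 13 [64, 64, 15]) (.leaf 12 [64, 64])) (.leaf 12 [64, 53, 59]))) (.s03 ⟨⟨.ofNat 49946075, .ofNat 23977360⟩, ⟨.ofNat 24255725, .ofNat 11897600⟩, ⟨.ofNat 10672519, .ofNat 5234944⟩, ⟨.ofNat 13583206, .ofNat 6662656⟩⟩ ⟨.ofNat 62375, .ofNat 7920⟩ ⟨.ofNat 286, .ofNat 572⟩ ⟨.ofNat 1, .ofNat 0⟩ 11 (.s03 ⟨⟨.ofNat 9899055, .ofNat 4642200⟩, ⟨.ofNat 4851145, .ofNat 2379520⟩, ⟨.ofNat 1940458, .ofNat 951808⟩, ⟨.ofNat 2910687, .ofNat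 1427712⟩⟩ ⟨.negSucc 7164, .ofNat 4438⟩ ⟨.ofNat 970229, .ofNat 475904⟩ ⟨.negSucc 34256, .ofNat 23366⟩ 11 (.leaf 12 [49, 64, 64, 64]) (.leaf 12 [50, 64, 64])) (.s02 ⟨⟨.negSucc 391, .ofNat 8747⟩, ⟨.ofNat 0, .ofNat 4225⟩, ⟨.ofNat 0, .ofNat 1859⟩, ⟨.ofNat 0, .ofNat 2366⟩⟩ ⟨.negSucc 195, .ofNat 571⟩ ⟨.ofNat 13, .ofNat 52⟩ ⟨.ofNat 70, .ofNat 0⟩ 11 (.leaf 12 [50, 64, 64]) (.leaf 11 [64, 64, 60]))))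

/-- part of a tree -/
def t1_7 : Tree := .s02 ⟨⟨.negSucc 724, .ofNat 1696⟩, ⟨.ofNat 507, .ofNat 338⟩, ⟨.ofNat 676, .negSucc 168⟩, ⟨.negSucc 168, .ofNat 507⟩⟩ ⟨.negSucc 168, .ofNat 221⟩ ⟨.negSucc 0, .ofNat 10⟩ ⟨.ofNat 68, .ofNat 136⟩ 9 (.s23 ⟨⟨.ofNat 7616, .ofNat 5712⟩, ⟨.ofNat 3808, .ofNat 2856⟩, ⟨.ofNat 5319, .negSucc 1341⟩, ⟨.negSucc 1510, .ofNat 4198⟩⟩ ⟨.ofNat 1, .ofNat 2⟩ ⟨.ofNat 3158, .ofNat 1231⟩ ⟨.ofNat 0, .ofNat 13⟩ 10 (.s03 ⟨⟨.ofNat 0, .ofNat 2⟩, ⟨.ofNat 0, .ofNat 1⟩, ⟨.negSucc 0, .ofNat 1⟩, ⟨.ofNat 1, .ofNat 0⟩⟩ ⟨.ofNat 2, .ofNat 3⟩ ⟨.negSucc 300, .ofNat 418⟩ ⟨.negSucc 2729, .ofNat 7462⟩ 10 (.leaf 13 [64, 64, 62]) (.leaf 13 [62, 64,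 64, 62])) (.leaf 13 [64, 64, 64, 63])) t1_8

/-- part of a tree -/
def t1_6 : Tree := .s03 ⟨⟨.ofNat 0, .ofNat 27⟩, ⟨.ofNat 0, .ofNat 13⟩, ⟨.negSucc 12, .ofNat 13⟩, ⟨.ofNat 13, .ofNat 0⟩⟩ ⟨.ofNat 15, .negSucc 6⟩ ⟨.negSucc 11, .ofNat 11⟩ ⟨.ofNat 0, .ofNat 81⟩ 11 (.s13 ⟨⟨.ofNat 111375, .ofNat 2700⟩, ⟨.ofNat 56914, .ofNat 1001⟩, ⟨.ofNat 19305, .ofNat 468⟩, ⟨.ofNat 34320, .ofNat 832⟩⟩ ⟨.ofNat 23, .ofNat 23⟩ ⟨.negSucc 30, .ofNat 145⟩ ⟨.ofNat 0, .ofNat 1⟩ 10 (.s03 ⟨⟨.ofNat 675, .ofNat 0⟩, ⟨.ofNat 325, .ofNat 0⟩, ⟨.ofNat 117, .ofNat 0⟩, ⟨.ofNat 208, .ofNat 0⟩⟩ ⟨.ofNat 0, .ofNat 23⟩ ⟨.ofNat 16, .negSucc 8⟩ ⟨.ofNat 15, .negSucc 6⟩ 11 (.s02 ⟨⟨.ofNat 50,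 .ofNat 0⟩, ⟨.ofNat 25, .ofNat 0⟩, ⟨.ofNat 9, .ofNat 0⟩, ⟨.ofNat 16, .ofNat 0⟩⟩ ⟨.negSucc 1926, .ofNat 3158⟩ ⟨.ofNat 0, .ofNat 25⟩ ⟨.negSucc 12375, .ofNat 49504⟩ 10 (.leaf 14 [61, 64]) (.leaf 14 [63])) (.s02 ⟨⟨.ofNat 7616, .ofNat 5712⟩, ⟨.ofNat 3808, .ofNat 2856⟩, ⟨.ofNat 5319, .negSucc 1341⟩, ⟨.negSucc 1510, .ofNat 4198⟩⟩ ⟨.ofNat 3158, .ofNat 1231⟩ ⟨.ofNat 1, .ofNat 2⟩ ⟨.ofNat 0, .ofNat 13⟩ 10 (.s23 ⟨⟨.ofNat 50, .ofNat 0⟩, ⟨.ofNat 25, .ofNat 0⟩, ⟨.ofNat 9, .ofNat 0⟩, ⟨.ofNat 16, .ofNat 0⟩⟩ ⟨.ofNat 0, .ofNat 25⟩ ⟨.negSucc 1926, .ofNat 3158⟩ ⟨.negSucc 12375, .ofNat 49504⟩ 10 (.leaf 13 [64]) (.leaf 13 [63, 64])) (.leaf 13 [64]))) (.s02 ⟨⟨.ofNat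 7616, .ofNat 5712⟩, ⟨.ofNat 3808, .ofNat 2856⟩, ⟨.ofNat 5319, .negSucc 1341⟩, ⟨.negSucc 1510, .ofNat 4198⟩⟩ ⟨.ofNat 3158, .ofNat 1231⟩ ⟨.ofNat 1, .ofNat 2⟩ ⟨.ofNat 0, .ofNat 13⟩ 10 (.leaf 13 [64, 64, 64, 63]) (.leaf 13 [64, 64, 62]))) t1_7

/-- part of a tree -/
def t1_5 : Tree := .s01 ⟨⟨.ofNat 621, .ofNat 297⟩, ⟨.ofNat 143, .ofNat 286⟩, ⟨.ofNat 0, .ofNat 143⟩, ⟨.ofNat 299, .ofNat 0⟩⟩ ⟨.ofNat 176, .negSucc 30⟩ ⟨.negSucc 11, .ofNat 11⟩ ⟨.ofNat 0, .ofNat 68⟩ 9 (.leaf 14 [64, 64, 64, 63]) t1_6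

/-- part of a tree -/
def t1_4 : Tree := .s02 ⟨⟨.negSucc 13534, .ofNat 27277⟩, ⟨.negSucc 4224, .ofNat 12675⟩, ⟨.negSucc 1520, .ofNat 4563⟩, ⟨.negSucc 2703, .ofNat 8112⟩⟩ ⟨.negSucc 298, .ofNat 897⟩ ⟨.ofNat 68, .ofNat 0⟩ ⟨.ofNat 81, .ofNat 0⟩ 9 (.leaf 14 [61, 0, 64, 64, 64, 0]) t1_5

/-- part of a tree -/
def t1_3 : Tree := .s01 ⟨⟨.ofNat 7425, .ofNat 0⟩, ⟨.ofNat 3575, .ofNat 884⟩, ⟨.ofNat 1287, .ofNat 0⟩, ⟨.ofNat 2288, .ofNat 0⟩⟩ ⟨.ofNat 66, .ofNat 0⟩ ⟨.ofNat 17, .ofNat 0⟩ ⟨.ofNat 13, .ofNat 0⟩ 4 (.leaf 15 [59, 0, 64, 64, 64, 0]) t1_4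

/-- part of a tree -/
def t1_2 : Tree := .s03 ⟨⟨.ofNat 594, .ofNat 0⟩, ⟨.ofNat 286, .ofNat 0⟩, ⟨.ofNat 91, .ofNat 0⟩, ⟨.ofNat 195, .ofNat 0⟩⟩ ⟨.ofNat 19, .ofNat 0⟩ ⟨.ofNat 81, .ofNat 0⟩ ⟨.ofNat 53, .ofNat 0⟩ 11 (.s23 ⟨⟨.negSucc 9530, .ofNat 54054⟩, ⟨.negSucc 1858, .ofNat 26026⟩, ⟨.negSucc 506, .ofNat 7098⟩, ⟨.negSucc 1351, .ofNat 18928⟩⟩ ⟨.ofNat 5, .ofNat 0⟩ ⟨.negSucc 142, .ofNat 429⟩ ⟨.ofNat 5, .negSucc 0⟩ 9 (.s03 ⟨⟨.ofNat 297, .ofNat 0⟩, ⟨.ofNat 143, .ofNat 0⟩, ⟨.ofNat 39, .ofNat 0⟩, ⟨.ofNat 104, .ofNat 0⟩⟩ ⟨.ofNat 5, .ofNat 0⟩ ⟨.ofNat 11, .ofNat 0⟩ ⟨.ofNat 19, .ofNat 0⟩ 11 (.s13 ⟨⟨.negSucc 188, .ofNat 1674⟩, ⟨.negSucc 142, .ofNat 858⟩, ⟨.negSucc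 7, .ofNat 173⟩, ⟨.negSucc 82, .ofNat 633⟩⟩ ⟨.ofNat 2, .negSucc 0⟩ ⟨.negSucc 36, .ofNat 103⟩ ⟨.ofNat 13, .ofNat 0⟩ 11 (.s03 ⟨⟨.ofNat 27, .ofNat 0⟩, ⟨.ofNat 13, .ofNat 0⟩, ⟨.ofNat 3, .ofNat 0⟩, ⟨.ofNat 10, .ofNat 0⟩⟩ ⟨.ofNat 1, .ofNat 0⟩ ⟨.ofNat 6, .ofNat 0⟩ ⟨.ofNat 65, .ofNat 0⟩ 11 (.leaf 16 [3, 64, 47]) (.leaf 16 [2, 64])) (.leaf 16 [19, 64, 63, 64, 64])) (.leaf 15 [18, 64, 64, 64, 36])) (.leaf 15 [59, 0, 64, 64, 64, 0])) t1_3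

/-- part of a tree -/
def t1_1 : Tree := .s02 ⟨⟨.negSucc 13391, .ofNat 24300⟩, ⟨.negSucc 3717, .ofNat 11154⟩, ⟨.negSucc 1182, .ofNat 3549⟩, ⟨.negSucc 2534, .ofNat 7605⟩⟩ ⟨.negSucc 1133, .ofNat 2012⟩ ⟨.ofNat 1053, .ofNat 1053⟩ ⟨.ofNat 69, .ofNat 23⟩ 9 (.s02 ⟨⟨.negSucc 576, .ofNat 947⟩, ⟨.negSucc 142, .ofNat 429⟩, ⟨.negSucc 38, .ofNat 117⟩, ⟨.negSucc 103, .ofNat 312⟩⟩ ⟨.negSucc 55, .ofNat 65⟩ ⟨.ofNat 286, .ofNat 715⟩ ⟨.negSucc 1133, .ofNat 2012⟩ 8 (.leaf 16 [0, 0, 0, 64, 64, 16, 64, 64, 64, 0]) (.s03 ⟨⟨.negSucc 9530, .ofNat 54054⟩, ⟨.negSucc 1858, .ofNat 26026⟩, ⟨.negSucc 506, .ofNat 7098⟩, ⟨.negSucc 1351, .ofNat 18928⟩⟩ ⟨.ofNat 5, .ofNat 0⟩ ⟨.negSucc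 142, .ofNat 429⟩ ⟨.ofNat 5, .negSucc 0⟩ 9 (.leaf 16 [16, 0, 64, 64, 0, 64, 64, 64]) (.leaf 15 [64, 6, 64, 64, 48, 64, 64, 0]))) t1_2

/-- part of a tree -/
def t1_0 : Tree := .s01 ⟨⟨.ofNat 3267, .ofNat 0⟩, ⟨.ofNat 1573, .ofNat 676⟩, ⟨.ofNat 429, .ofNat 0⟩, ⟨.ofNat 1144, .ofNat 0⟩⟩ ⟨.ofNat 3, .ofNat 0⟩ ⟨.ofNat 52, .ofNat 0⟩ ⟨.ofNat 1, .ofNat 0⟩ 2 (.leaf 17 [0, 0, 0, 64, 64, 64, 22, 64, 64, 64, 0]) t1_1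

/-- part of a tree -/
def t1 : Tree := .s03 ⟨⟨.ofNat 243, .ofNat 0⟩, ⟨.ofNat 117, .ofNat 0⟩, ⟨.ofNat 26, .ofNat 0⟩, ⟨.ofNat 91, .ofNat 0⟩⟩ ⟨.ofNat 2, .ofNat 0⟩ ⟨.ofNat 53, .ofNat 0⟩ ⟨.ofNat 11, .ofNat 0⟩ 11 (.leaf 17 [0, 0, 0, 64, 64, 49, 25, 64, 64, 0]) t1_0

theorem g1 : Good (PE lin H) ⟨⟨.ofNat 621, .ofNat 0⟩, ⟨.ofNat 299, .ofNat 0⟩, ⟨.ofNat 143, .ofNat 0⟩, ⟨.ofNat 156, .ofNat 0⟩⟩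
    ⟨⟨.ofNat 27, .ofNat 0⟩, ⟨.ofNat 13, .ofNat 13⟩, ⟨.ofNat 0, .ofNat 0⟩, ⟨.ofNat 13, .ofNat 0⟩⟩
    ⟨⟨.ofNat 0, .ofNat 322⟩, ⟨.ofNat 322, .ofNat 0⟩, ⟨.ofNat 297, .negSucc 142⟩, ⟨.ofNat 25, .ofNat 143⟩⟩
    ⟨⟨.ofNat 27, .ofNat 0⟩, ⟨.ofNat 13, .ofNat 0⟩, ⟨.ofNat 0, .ofNat 0⟩, ⟨.ofNat 13, .ofNat 0⟩⟩ :=
  goodE lin H t1 11 28 6 11 (by decide +kernel)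

/-- part of a tree -/
def t2 : Tree := .s12 ⟨⟨.ofNat 4280, .ofNat 0⟩, ⟨.ofNat 3146, .ofNat 1053⟩, ⟨.ofNat 1001, .ofNat 0⟩, ⟨.ofNat 2145, .ofNat 0⟩⟩ ⟨.ofNat 81, .ofNat 0⟩ ⟨.ofNat 91, .ofNat 0⟩ ⟨.ofNat 1, .ofNat 0⟩ 27 (.s23 ⟨⟨.ofNat 4527, .ofNat 0⟩, ⟨.ofNat 3575, .ofNat 0⟩, ⟨.ofNat 1287, .ofNat 0⟩, ⟨.ofNat 2288, .ofNat 0⟩⟩ ⟨.negSucc 951, .ofNat 2623⟩ ⟨.ofNat 68, .ofNat 68⟩ ⟨.ofNat 0, .ofNat 23⟩ 2 (.s03 ⟨⟨.ofNat 0, .ofNat 25⟩, ⟨.ofNat 25, .ofNat 0⟩, ⟨.ofNat 9, .ofNat 0⟩, ⟨.ofNat 16, .ofNat 0⟩⟩ ⟨.negSucc 951, .ofNat 2623⟩ ⟨.ofNat 68, .ofNat 68⟩ ⟨.ofNat 0, .ofNat 3289⟩ 6 (.leaf 15 [0, 0, 64, 64, 35, 0]) (.s01 ⟨⟨.ofNat 4280, .ofNat 3289⟩, ⟨.ofNat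 6435, .ofNat 1053⟩, ⟨.ofNat 2574, .ofNat 0⟩, ⟨.ofNat 3861, .ofNat 0⟩⟩ ⟨.ofNat 143, .ofNat 0⟩ ⟨.ofNat 1, .ofNat 0⟩ ⟨.ofNat 1, .ofNat 0⟩ 2 (.leaf 14 [22, 0, 64, 64, 32, 0]) (.s02 ⟨⟨.ofNat 40743, .ofNat 16445⟩, ⟨.ofNat 48620, .ofNat 0⟩, ⟨.ofNat 19448, .ofNat 0⟩, ⟨.ofNat 29172, .ofNat 0⟩⟩ ⟨.ofNat 715, .ofNat 0⟩ ⟨.ofNat 9, .ofNat 0⟩ ⟨.ofNat 1, .ofNat 0⟩ 4 (.leaf 13 [8, 0, 64, 0, 64, 41, 0]) (.s03 ⟨⟨.ofNat 0, .ofNat 5⟩, ⟨.ofNat 5, .ofNat 0⟩, ⟨.ofNat 2, .ofNat 0⟩, ⟨.ofNat 3, .ofNat 0⟩⟩ ⟨.ofNat 5, .ofNat 0⟩ ⟨.ofNat 9, .ofNat 0⟩ ⟨.ofNat 68, .ofNat 0⟩ 6 (.leaf 13 [0, 64, 25, 19, 0, 0]) (.leaf 11 [0, 64, 64, 0, 64, 0, 0]))))) (.s03 ⟨⟨.ofNat 50924, .ofNat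 49224⟩, ⟨.ofNat 91949, .negSucc 2447⟩, ⟨.ofNat 39325, .negSucc 747⟩, ⟨.ofNat 52624, .negSucc 1699⟩⟩ ⟨.ofNat 2288, .ofNat 49⟩ ⟨.ofNat 11, .negSucc 0⟩ ⟨.ofNat 1, .ofNat 0⟩ 4 (.leaf 12 [64, 50, 64, 0, 64, 0, 64, 0, 0]) (.s02 ⟨⟨.ofNat 12, .ofNat 12⟩, ⟨.ofNat 23, .ofNat 0⟩, ⟨.ofNat 11, .ofNat 0⟩, ⟨.ofNat 12, .ofNat 0⟩⟩ ⟨.ofNat 12, .ofNat 1⟩ ⟨.ofNat 11, .negSucc 0⟩ ⟨.ofNat 23, .ofNat 0⟩ 3 (.leaf 12 [64, 50, 64, 0, 64, 0, 64, 0]) (.leaf 11 [0, 0, 60, 0, 0, 64])))) (.s01 ⟨⟨.ofNat 2187, .ofNat 2093⟩, ⟨.ofNat 3146, .ofNat 1053⟩, ⟨.ofNat 1001, .ofNat 0⟩, ⟨.ofNat 2145, .ofNat 0⟩⟩ ⟨.ofNat 91, .ofNat 0⟩ ⟨.ofNat 81, .ofNat 0⟩ ⟨.ofNat 1, .ofNat 0⟩ 1 (.leaf 16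 [64, 64, 0, 0, 0, 64, 0, 43, 64, 64, 0]) (.s03 ⟨⟨.ofNat 0, .ofNat 25⟩, ⟨.ofNat 25, .ofNat 0⟩, ⟨.ofNat 9, .ofNat 0⟩, ⟨.ofNat 16, .ofNat 0⟩⟩ ⟨.negSucc 951, .ofNat 2623⟩ ⟨.ofNat 68, .ofNat 68⟩ ⟨.ofNat 0, .ofNat 3289⟩ 6 (.leaf 15 [64, 0, 0, 64, 64, 64, 35, 0]) (.s02 ⟨⟨.ofNat 4280, .ofNat 3289⟩, ⟨.ofNat 6435, .ofNat 1053⟩, ⟨.ofNat 2574, .ofNat 0⟩, ⟨.ofNat 3861, .ofNat 0⟩⟩ ⟨.ofNat 143, .ofNat 0⟩ ⟨.ofNat 1, .ofNat 0⟩ ⟨.ofNat 1, .ofNat 0⟩ 2 (.leaf 14 [64, 9, 0, 0, 64, 0]) (.s01 ⟨⟨.ofNat 243, .ofNat 598⟩, ⟨.ofNat 715, .ofNat 117⟩, ⟨.ofNat 286, .ofNat 0⟩, ⟨.ofNat 429, .ofNat 0⟩⟩ ⟨.ofNat 143, .ofNat 0⟩ ⟨.ofNat 1, .ofNat 0⟩ ⟨.ofNat 9, .ofNat 0⟩ 3 (.leaf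 13 [50, 0, 0, 64, 64, 0]) (.s03 ⟨⟨.ofNat 0, .ofNat 5⟩, ⟨.ofNat 5, .ofNat 0⟩, ⟨.ofNat 2, .ofNat 0⟩, ⟨.ofNat 3, .ofNat 0⟩⟩ ⟨.ofNat 5, .ofNat 0⟩ ⟨.ofNat 9, .ofNat 0⟩ ⟨.ofNat 68, .ofNat 0⟩ 6 (.leaf 13 [64, 0, 64, 5, 0, 0]) (.leaf 11 [64, 0, 64, 64, 0, 64]))))))

theorem g2 : Good (PE lin H) ⟨⟨.ofNat 0, .ofNat 23⟩, ⟨.ofNat 23, .ofNat 0⟩, ⟨.ofNat 11, .ofNat 0⟩, ⟨.ofNat 12, .ofNat 0⟩⟩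
    ⟨⟨.ofNat 27, .ofNat 0⟩, ⟨.ofNat 13, .ofNat 13⟩, ⟨.ofNat 0, .ofNat 0⟩, ⟨.ofNat 13, .ofNat 0⟩⟩
    ⟨⟨.ofNat 23, .ofNat 0⟩, ⟨.ofNat 23, .ofNat 0⟩, ⟨.ofNat 11, .ofNat 0⟩, ⟨.ofNat 12, .ofNat 0⟩⟩
    ⟨⟨.ofNat 0, .ofNat 322⟩, ⟨.ofNat 322, .ofNat 0⟩, ⟨.ofNat 297, .negSucc 142⟩, ⟨.ofNat 25, .ofNat 143⟩⟩ :=
  goodE lin H t2 6 28 0 6 (by decide +kernel)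

end

end Pool.Agent.PHCert.E2
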