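import Pool.Agent.PHCert.E3H

/-!
# PHCert: inequality E3, part 2 (77 leaves, checked by the kernel)
-/

set_option autoImplicit false

namespace Pool.Agent.PHCert.E3

open Zp Pool.Agent.PHCert

noncomputable section

/-- part of a tree -/
def t3_2 : Tree := .s02 ⟨⟨.ofNat 13, .ofNat 80⟩, ⟨.ofNat 67, .ofNat 32⟩, ⟨.negSucc 53, .ofNat 67⟩, ⟨.ofNat 121, .negSucc 34⟩⟩ ⟨.ofNat 1, .ofNat 0⟩ ⟨.ofNat 268, .ofNat 62⟩ ⟨.ofNat 3, .ofNat 6⟩ 2 (.s13 ⟨⟨.ofNat 27601654, .ofNat 949215⟩, ⟨.ofNat 23438146, .ofNat 1182825⟩, ⟨.ofNat 9839547, .ofNat 202134⟩, ⟨.ofNat 14035945, .ofNat 586311⟩⟩ ⟨.ofNat 597, .ofNat 1374⟩ ⟨.ofNat 7029, .negSucc 726⟩ ⟨.ofNat 0, .ofNat 1⟩ 1 (.s03 ⟨⟨.ofNat 659878,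 .ofNat 101585⟩, ⟨.ofNat 578242, .ofNat 82055⟩, ⟨.ofNat 237759, .ofNat 31554⟩, ⟨.ofNat 340483, .ofNat 50501⟩⟩ ⟨.negSucc 179, .ofNat 777⟩ ⟨.negSucc 494, .ofNat 329⟩ ⟨.ofNat 2, .negSucc 0⟩ 1 (.s23 ⟨⟨.ofNat 147, .ofNat 131⟩, ⟨.ofNat 189, .ofNat 89⟩, ⟨.ofNat 163, .negSucc 15⟩, ⟨.ofNat 26, .ofNat 105⟩⟩ ⟨.negSucc 27, .ofNat 1145⟩ ⟨.ofNat 0, .ofNat 1⟩ ⟨.ofNat 7, .ofNat 14⟩ 0 (.leaf 12 [61, 64]) (.s12 ⟨⟨.ofNat 544947, .ofNat 8467507⟩, ⟨.negSucc 8015678, .ofNat 12864625⟩, ⟨.negSucc 7377612, .ofNat 7922560⟩, ⟨.ofNat 631006, .ofNat 4110339⟩⟩ ⟨.ofNat 1, .ofNat 1⟩ ⟨.negSucc 1029226, .ofNat 7236146⟩ ⟨.ofNat 2, .ofNat 3⟩ 1 (.s02 ⟨⟨.ofNat 38477, .ofNat 222837⟩, ⟨.negSucc 105264, .ofNat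 284943⟩, ⟨.negSucc 145882, .ofNat 184360⟩, ⟨.ofNat 40618, .ofNat 100583⟩⟩ ⟨.ofNat 1, .ofNat 1⟩ ⟨.negSucc 7998, .ofNat 183284⟩ ⟨.ofNat 2, .ofNat 3⟩ 1 (.leaf 12 [60, 0, 64]) (.leaf 12 [58, 64])) (.leaf 12 [0, 57]))) (.s12 ⟨⟨.ofNat 116088436, .ofNat 10086735⟩, ⟨.ofNat 103597912, .ofNat 10787565⟩, ⟨.ofNat 46160378, .ofNat 4225947⟩, ⟨.ofNat 58749572, .ofNat 5378478⟩⟩ ⟨.ofNat 3, .ofNat 0⟩ ⟨.ofNat 16641737, .ofNat 3619545⟩ ⟨.ofNat 1, .ofNat 0⟩ 1 (.s23 ⟨⟨.ofNat 2813008, .ofNat 532265⟩, ⟨.ofNat 2568100, .ofNat 473675⟩, ⟨.ofNat 1129964, .ofNat 208417⟩, ⟨.ofNat 1438136, .ofNat 265258⟩⟩ ⟨.ofNat 416687, .ofNat 113755⟩ ⟨.ofNat 3, .ofNat 0⟩ ⟨.ofNat 1, .ofNat 0⟩ 1 (.leaf 12 [0, 0, 64,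 58]) (.leaf 11 [0, 0, 52])) (.leaf 12 [0, 0, 64, 58]))) (.s23 ⟨⟨.ofNat 116088436, .ofNat 10086735⟩, ⟨.ofNat 103597912, .ofNat 10787565⟩, ⟨.ofNat 46160378, .ofNat 4225947⟩, ⟨.ofNat 58749572, .ofNat 5378478⟩⟩ ⟨.ofNat 16641737, .ofNat 3619545⟩ ⟨.ofNat 3, .ofNat 0⟩ ⟨.ofNat 1, .ofNat 0⟩ 1 (.leaf 11 [0, 0, 31, 64]) (.leaf 11 [0, 0, 51]))) (.s03 ⟨⟨.ofNat 1056656, .ofNat 267998⟩, ⟨.ofNat 851144, .ofNat 218522⟩, ⟨.ofNat 326499, .ofNat 84729⟩, ⟨.ofNat 524645, .ofNat 133793⟩⟩ ⟨.negSucc 179, .ofNat 777⟩ ⟨.ofNat 355, .negSucc 39⟩ ⟨.ofNat 0, .ofNat 1⟩ 2 (.s13 ⟨⟨.ofNat 27601654, .ofNat 949215⟩, ⟨.ofNat 23438146, .ofNat 1182825⟩, ⟨.ofNat 9839547, .ofNat 202134⟩, ⟨.ofNat 14035945, .ofNat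 586311⟩⟩ ⟨.ofNat 597, .ofNat 1374⟩ ⟨.ofNat 7029, .negSucc 726⟩ ⟨.ofNat 0, .ofNat 1⟩ 1 (.s23 ⟨⟨.ofNat 659878, .ofNat 101585⟩, ⟨.ofNat 578242, .ofNat 82055⟩, ⟨.ofNat 237759, .ofNat 31554⟩, ⟨.ofNat 340483, .ofNat 50501⟩⟩ ⟨.negSucc 179, .ofNat 777⟩ ⟨.negSucc 494, .ofNat 329⟩ ⟨.ofNat 2, .negSucc 0⟩ 1 (.leaf 13 [64, 48, 64]) (.leaf 12 [0, 64, 64, 58])) (.leaf 12 [0, 64, 64, 57])) (.s13 ⟨⟨.ofNat 33700815413, .ofNat 7382408719⟩, ⟨.ofNat 26088560363, .ofNat 7486924969⟩, ⟨.ofNat 11625805147, .ofNat 3067190489⟩, ⟨.ofNat 14796479278, .ofNat 3903696986⟩⟩ ⟨.ofNat 1200109, .ofNat 285517⟩ ⟨.ofNat 62093, .negSucc 36483⟩ ⟨.ofNat 2, .negSucc 0⟩ 2 (.s23 ⟨⟨.ofNat 819297493, .ofNat 322827769⟩,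 ⟨.ofNat 653875675, .ofNat 281968975⟩, ⟨.ofNat 287705297, .ofNat 124066349⟩, ⟨.ofNat 366170378, .ofNat 157902626⟩⟩ ⟨.ofNat 1200109, .ofNat 285517⟩ ⟨.negSucc 2086, .ofNat 1323⟩ ⟨.negSucc 2, .ofNat 2⟩ 2 (.leaf 12 [61, 35]) (.leaf 11 [3, 3])) (.leaf 11 [3, 0])))

/-- part of a tree -/
def t3_1 : Tree := .s12 ⟨⟨.ofNat 2754, .ofNat 3085⟩, ⟨.negSucc 1313, .ofNat 4867⟩, ⟨.ofNat 2423, .ofNat 331⟩, ⟨.negSucc 2560, .ofNat 3738⟩⟩ ⟨.negSucc 0, .ofNat 1⟩ ⟨.ofNat 1830, .ofNat 253⟩ ⟨.ofNat 1, .ofNat 0⟩ 2 t3_2 (.s13 ⟨⟨.negSucc 9847681, .ofNat 33084745⟩, ⟨.negSucc 8693677, .ofNat 26524135⟩, ⟨.negSucc 4383563, .ofNat 10217625⟩, ⟨.negSucc 5098873, .ofNat 16392442⟩⟩ ⟨.ofNat 1194, .ofNat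 2748⟩ ⟨.negSucc 3789, .ofNat 8185⟩ ⟨.ofNat 0, .ofNat 1⟩ 3 (.s03 ⟨⟨.ofNat 1056656, .ofNat 267998⟩, ⟨.ofNat 851144, .ofNat 218522⟩, ⟨.ofNat 326499, .ofNat 84729⟩, ⟨.ofNat 524645, .ofNat 133793⟩⟩ ⟨.negSucc 179, .ofNat 777⟩ ⟨.ofNat 355, .negSucc 39⟩ ⟨.ofNat 0, .ofNat 1⟩ 2 (.s23 ⟨⟨.ofNat 27601654, .ofNat 949215⟩, ⟨.ofNat 23438146, .ofNat 1182825⟩, ⟨.ofNat 9839547, .ofNat 202134⟩, ⟨.ofNat 14035945, .ofNat 586311⟩⟩ ⟨.ofNat 597, .ofNat 1374⟩ ⟨.ofNat 7029, .negSucc 726⟩ ⟨.ofNat 0, .ofNat 1⟩ 1 (.leaf 13 [0, 42, 62]) (.leaf 12 [0, 64, 64, 12, 41])) (.leaf 12 [64, 64, 0, 29])) (.s12 ⟨⟨.negSucc 4690, .ofNat 25776⟩, ⟨.negSucc 11548, .ofNat 24264⟩, ⟨.negSucc 2841, .ofNat 8757⟩, ⟨.negSucc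 7572, .ofNat 14247⟩⟩ ⟨.ofNat 11104, .ofNat 498⟩ ⟨.ofNat 6510, .ofNat 1655⟩ ⟨.ofNat 253, .ofNat 2083⟩ 3 (.leaf 12 [64, 64, 0, 29]) (.leaf 13 [64, 64, 64, 64, 8])))

/-- part of a tree -/
def t3_3 : Tree := .s12 ⟨⟨.ofNat 973923, .ofNat 130825⟩, ⟨.ofNat 381237, .ofNat 259975⟩, ⟨.ofNat 502499, .negSucc 121261⟩, ⟨.ofNat 71434, .ofNat 248517⟩⟩ ⟨.ofNat 12, .ofNat 184⟩ ⟨.negSucc 453, .ofNat 1125⟩ ⟨.ofNat 1, .ofNat 1⟩ 4 (.s02 ⟨⟨.ofNat 9, .ofNat 101⟩, ⟨.ofNat 15, .ofNat 59⟩, ⟨.negSucc 28, .ofNat 44⟩, ⟨.ofNat 44, .ofNat 15⟩⟩ ⟨.ofNat 172, .ofNat 12⟩ ⟨.ofNat 23, .negSucc 3⟩ ⟨.ofNat 160, .ofNat 69⟩ 5 (.s13 ⟨⟨.ofNat 717973853, .ofNat 154719492⟩, ⟨.ofNat 540199403, .ofNat 92445756⟩,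 ⟨.ofNat 250721353, .ofNat 5909052⟩, ⟨.ofNat 314543314, .ofNat 61791312⟩⟩ ⟨.ofNat 532, .ofNat 770⟩ ⟨.negSucc 34277, .ofNat 82261⟩ ⟨.ofNat 1, .ofNat 1⟩ 4 (.s03 ⟨⟨.negSucc 21262, .ofNat 96102⟩, ⟨.negSucc 25672, .ofNat 71658⟩, ⟨.negSucc 13938, .ofNat 29718⟩, ⟨.negSucc 11733, .ofNat 41940⟩⟩ ⟨.negSucc 55, .ofNat 294⟩ ⟨.negSucc 37, .ofNat 25⟩ ⟨.negSucc 0, .ofNat 1⟩ 4 (.s23 ⟨⟨.ofNat 220831, .ofNat 55267⟩, ⟨.ofNat 160729, .ofNat 42037⟩, ⟨.ofNat 65339, .ofNat 17711⟩, ⟨.ofNat 95390, .ofNat 24326⟩⟩ ⟨.negSucc 55, .ofNat 294⟩ ⟨.ofNat 75, .negSucc 38⟩ ⟨.ofNat 0, .ofNat 1⟩ 3 (.s03 ⟨⟨.negSucc 113307, .ofNat 461604⟩, ⟨.negSucc 121371, .ofNat 377196⟩, ⟨.negSucc 56834, .ofNat 146526⟩, ⟨.negSucc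 64536, .ofNat 230670⟩⟩ ⟨.negSucc 179, .ofNat 777⟩ ⟨.negSucc 5866, .ofNat 20970⟩ ⟨.negSucc 55, .ofNat 294⟩ 3 (.s13 ⟨⟨.ofNat 3454878556, .ofNat 720172476⟩, ⟨.ofNat 2835987724, .ofNat 515653764⟩, ⟨.ofNat 1176490449, .ofNat 108483780⟩, ⟨.ofNat 1729988227, .ofNat 339852216⟩⟩ ⟨.negSucc 179, .ofNat 777⟩ ⟨.ofNat 157271657, .ofNat 30895656⟩ ⟨.negSucc 55, .ofNat 294⟩ 2 (.s23 ⟨⟨.ofNat 1056656, .ofNat 267998⟩, ⟨.ofNat 851144, .ofNat 218522⟩, ⟨.ofNat 326499, .ofNat 84729⟩, ⟨.ofNat 524645, .ofNat 133793⟩⟩ ⟨.negSucc 179, .ofNat 777⟩ ⟨.ofNat 47695, .ofNat 12163⟩ ⟨.negSucc 55, .ofNat 294⟩ 2 (.leaf 13 [3, 0]) (.leaf 13 [64])) (.leaf 13 [64])) (.leaf 13 [64])) (.leaf 13 [64])) (.leaf 13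 [64, 64])) (.leaf 13 [64, 64])) (.s13 ⟨⟨.ofNat 717973853, .ofNat 154719492⟩, ⟨.ofNat 540199403, .ofNat 92445756⟩, ⟨.ofNat 250721353, .ofNat 5909052⟩, ⟨.ofNat 314543314, .ofNat 61791312⟩⟩ ⟨.ofNat 532, .ofNat 770⟩ ⟨.negSucc 34277, .ofNat 82261⟩ ⟨.ofNat 1, .ofNat 1⟩ 4 (.s03 ⟨⟨.negSucc 16334, .ofNat 84482⟩, ⟨.negSucc 20744, .ofNat 60038⟩, ⟨.negSucc 11474, .ofNat 23908⟩, ⟨.negSucc 9269, .ofNat 36130⟩⟩ ⟨.negSucc 55, .ofNat 294⟩ ⟨.negSucc 37, .ofNat 25⟩ ⟨.negSucc 0, .ofNat 1⟩ 6 (.s23 ⟨⟨.negSucc 21262, .ofNat 96102⟩, ⟨.negSucc 25672, .ofNat 71658⟩, ⟨.negSucc 13938, .ofNat 29718⟩, ⟨.negSucc 11733, .ofNat 41940⟩⟩ ⟨.negSucc 55, .ofNat 294⟩ ⟨.negSucc 37, .ofNat 25⟩ ⟨.negSucc 0,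 .ofNat 1⟩ 4 (.leaf 13 [0, 64, 64, 17]) (.leaf 13 [33, 0])) (.leaf 13 [11, 0])) (.leaf 13 [11, 0]))) (.s13 ⟨⟨.negSucc 1002100, .ofNat 3463486⟩, ⟨.negSucc 852034, .ofNat 2497402⟩, ⟨.negSucc 533148, .ofNat 1018352⟩, ⟨.negSucc 463533, .ofNat 1490222⟩⟩ ⟨.ofNat 532, .ofNat 770⟩ ⟨.ofNat 592, .ofNat 13⟩ ⟨.ofNat 1, .ofNat 1⟩ 4 (.s23 ⟨⟨.ofNat 717973853, .ofNat 154719492⟩, ⟨.ofNat 540199403, .ofNat 92445756⟩, ⟨.ofNat 250721353, .ofNat 5909052⟩, ⟨.ofNat 314543314, .ofNat 61791312⟩⟩ ⟨.ofNat 532, .ofNat 770⟩ ⟨.negSucc 34277, .ofNat 82261⟩ ⟨.ofNat 1, .ofNat 1⟩ 4 (.s03 ⟨⟨.negSucc 16334, .ofNat 84482⟩, ⟨.negSucc 20744, .ofNat 60038⟩, ⟨.negSucc 11474, .ofNat 23908⟩, ⟨.negSucc 9269, .ofNat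 36130⟩⟩ ⟨.negSucc 55, .ofNat 294⟩ ⟨.negSucc 37, .ofNat 25⟩ ⟨.negSucc 0, .ofNat 1⟩ 6 (.leaf 13 [0, 64, 64, 17]) (.leaf 13 [5, 0])) (.leaf 13 [6, 0])) (.leaf 13 [6, 0, 64]))

/-- part of a tree -/
def t3_0 : Tree := .s02 ⟨⟨.negSucc 16, .ofNat 674⟩, ⟨.negSucc 142, .ofNat 566⟩, ⟨.negSucc 27, .ofNat 217⟩, ⟨.negSucc 114, .ofNat 349⟩⟩ ⟨.ofNat 3, .ofNat 3⟩ ⟨.ofNat 160, .ofNat 69⟩ ⟨.ofNat 0, .ofNat 1⟩ 4 t3_1 t3_3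

/-- part of a tree -/
def t3 : Tree := .s23 ⟨⟨.negSucc 399, .ofNat 2919⟩, ⟨.negSucc 399, .ofNat 2625⟩, ⟨.negSucc 143, .ofNat 945⟩, ⟨.negSucc 255, .ofNat 1680⟩⟩ ⟨.negSucc 59, .ofNat 651⟩ ⟨.ofNat 7, .ofNat 0⟩ ⟨.ofNat 1, .ofNat 0⟩ 1 (.s13 ⟨⟨.negSucc 15388, .ofNat 374746⟩, ⟨.ofNat 6049, .ofNat 236734⟩, ⟨.negSucc 12279, .ofNat 85460⟩, ⟨.negSucc 2334, .ofNat 152870⟩⟩ ⟨.ofNat 76, .ofNat 110⟩ ⟨.ofNat 592, .ofNat 13⟩ ⟨.ofNat 1, .ofNat 1⟩ 5 (.s03 ⟨⟨.negSucc 7, .ofNat 51⟩, ⟨.negSucc 7, .ofNat 33⟩, ⟨.negSucc 3, .ofNat 12⟩, ⟨.negSucc 3, .ofNat 21⟩⟩ ⟨.ofNat 42, .ofNat 34⟩ ⟨.ofNat 25, .negSucc 12⟩ ⟨.ofNat 159, .ofNat 35⟩ 7 (.leaf 15 [0, 64, 0, 21, 0]) (.s02 ⟨⟨.negSucc 16334, .ofNat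 84482⟩, ⟨.negSucc 20744, .ofNat 60038⟩, ⟨.negSucc 11474, .ofNat 23908⟩, ⟨.negSucc 9269, .ofNat 36130⟩⟩ ⟨.negSucc 55, .ofNat 294⟩ ⟨.negSucc 37, .ofNat 25⟩ ⟨.negSucc 0, .ofNat 1⟩ 6 (.leaf 14 [0, 64, 0, 19]) (.leaf 14 []))) (.s12 ⟨⟨.negSucc 1002100, .ofNat 3463486⟩, ⟨.negSucc 852034, .ofNat 2497402⟩, ⟨.negSucc 533148, .ofNat 1018352⟩, ⟨.negSucc 463533, .ofNat 1490222⟩⟩ ⟨.ofNat 532, .ofNat 770⟩ ⟨.ofNat 592, .ofNat 13⟩ ⟨.ofNat 1, .ofNat 1⟩ 4 (.s02 ⟨⟨.negSucc 16334, .ofNat 84482⟩, ⟨.negSucc 20744, .ofNat 60038⟩, ⟨.negSucc 11474, .ofNat 23908⟩, ⟨.negSucc 9269, .ofNat 36130⟩⟩ ⟨.negSucc 55, .ofNat 294⟩ ⟨.negSucc 37, .ofNat 25⟩ ⟨.negSucc 0, .ofNat 1⟩ 6 (.leaf 14 [0, 64, 64, 18])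 (.leaf 14 [])) (.leaf 14 [48]))) t3_0

theorem g3 : Good (PE lin H) ⟨⟨.ofNat 63, .ofNat 55⟩, ⟨.ofNat 69, .ofNat 13⟩, ⟨.negSucc 1, .ofNat 21⟩, ⟨.ofNat 71, .negSucc 7⟩⟩
    ⟨⟨.ofNat 2579, .ofNat 1673⟩, ⟨.ofNat 4361, .negSucc 612⟩, ⟨.ofNat 78, .ofNat 671⟩, ⟨.ofNat 3485, .negSucc 905⟩⟩
    ⟨⟨.ofNat 2, .ofNat 0⟩, ⟨.ofNat 2, .ofNat 0⟩, ⟨.ofNat 1, .ofNat 0⟩, ⟨.ofNat 1, .ofNat 0⟩⟩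
    ⟨⟨.negSucc 39, .ofNat 231⟩, ⟨.negSucc 39, .ofNat 189⟩, ⟨.negSucc 11, .ofNat 42⟩, ⟨.negSucc 27, .ofNat 147⟩⟩ :=
  goodE lin H t3 8 5 0 2 (by decide +kernel)

/-- part of a tree -/
def t4_0 : Tree := .s02 ⟨⟨.ofNat 4527, .ofNat 4664⟩, ⟨.ofNat 5673, .ofNat 1376⟩, ⟨.ofNat 1283, .ofNat 1239⟩, ⟨.ofNat 4390, .ofNat 137⟩⟩ ⟨.ofNat 160, .ofNat 69⟩ ⟨.ofNat 10, .ofNat 1⟩ ⟨.ofNat 0, .ofNat 1⟩ 5 (.s12 ⟨⟨.ofNat 973923, .ofNat 130825⟩, ⟨.ofNat 381237, .ofNat 259975⟩, ⟨.ofNat 502499, .negSucc 121261⟩, ⟨.ofNat 71434, .ofNat 248517⟩⟩ ⟨.ofNat 12, .ofNat 184⟩ ⟨.negSucc 453, .ofNat 1125⟩ ⟨.ofNat 1, .ofNat 1⟩ 4 (.s23 ⟨⟨.ofNat 9, .ofNat 101⟩, ⟨.ofNat 15, .ofNat 59⟩, ⟨.negSucc 28, .ofNat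 44⟩, ⟨.ofNat 44, .ofNat 15⟩⟩ ⟨.ofNat 23, .negSucc 3⟩ ⟨.ofNat 172, .ofNat 12⟩ ⟨.ofNat 160, .ofNat 69⟩ 5 (.s03 ⟨⟨.ofNat 1, .ofNat 1⟩, ⟨.ofNat 0, .ofNat 1⟩, ⟨.negSucc 0, .ofNat 1⟩, ⟨.ofNat 1, .ofNat 0⟩⟩ ⟨.ofNat 50, .negSucc 26⟩ ⟨.negSucc 3150, .ofNat 2385⟩ ⟨.negSucc 26999, .ofNat 60084⟩ 6 (.leaf 13 [11, 0]) (.s02 ⟨⟨.ofNat 379278, .ofNat 138695⟩, ⟨.ofNat 467250, .negSucc 47094⟩, ⟨.ofNat 186900, .negSucc 18837⟩, ⟨.ofNat 280350, .negSucc 28256⟩⟩ ⟨.negSucc 28, .ofNat 44⟩ ⟨.ofNat 1955, .ofNat 467⟩ ⟨.ofNat 0, .ofNat 1⟩ 5 (.leaf 13 [0, 20]) (.s03 ⟨⟨.ofNat 3, .ofNat 3⟩, ⟨.ofNat 5, .ofNat 0⟩, ⟨.ofNat 2, .ofNat 0⟩, ⟨.ofNat 3, .ofNat 0⟩⟩ ⟨.negSucc 0, .ofNat 1⟩ ⟨.ofNat 1955, .ofNat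 467⟩ ⟨.negSucc 765, .ofNat 1619⟩ 5 (.s03 ⟨⟨.ofNat 17, .ofNat 17⟩, ⟨.ofNat 23, .ofNat 3⟩, ⟨.ofNat 6, .ofNat 3⟩, ⟨.ofNat 17, .ofNat 0⟩⟩ ⟨.ofNat 4, .negSucc 0⟩ ⟨.ofNat 5, .ofNat 3⟩ ⟨.ofNat 1, .ofNat 0⟩ 6 (.leaf 13 [0, 0]) (.leaf 13 [0])) (.leaf 12 [0])))) (.leaf 12 [64, 12])) (.s01 ⟨⟨.ofNat 41339, .ofNat 42158⟩, ⟨.ofNat 39571, .ofNat 19282⟩, ⟨.ofNat 59860, .negSucc 20288⟩, ⟨.ofNat 40520, .ofNat 819⟩⟩ ⟨.negSucc 453, .ofNat 1125⟩ ⟨.ofNat 1619, .ofNat 853⟩ ⟨.ofNat 72, .ofNat 138⟩ 5 (.leaf 13 [5, 0, 55]) (.s03 ⟨⟨.ofNat 1, .ofNat 1⟩, ⟨.ofNat 0, .ofNat 1⟩, ⟨.negSucc 0, .ofNat 1⟩, ⟨.ofNat 1, .ofNat 0⟩⟩ ⟨.ofNat 50, .negSucc 26⟩ ⟨.negSucc 3150, .ofNat 2385⟩ ⟨.negSucc 26999, .ofNat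 60084⟩ 6 (.leaf 13 [5, 0, 55]) (.s03 ⟨⟨.ofNat 3, .ofNat 3⟩, ⟨.ofNat 5, .ofNat 0⟩, ⟨.ofNat 2, .ofNat 0⟩, ⟨.ofNat 3, .ofNat 0⟩⟩ ⟨.negSucc 0, .ofNat 1⟩ ⟨.ofNat 1955, .ofNat 467⟩ ⟨.negSucc 765, .ofNat 1619⟩ 5 (.s03 ⟨⟨.ofNat 17, .ofNat 17⟩, ⟨.ofNat 23, .ofNat 3⟩, ⟨.ofNat 6, .ofNat 3⟩, ⟨.ofNat 17, .ofNat 0⟩⟩ ⟨.ofNat 4, .negSucc 0⟩ ⟨.ofNat 5, .ofNat 3⟩ ⟨.ofNat 1, .ofNat 0⟩ 6 (.leaf 13 [0, 0]) (.leaf 13 [64, 0])) (.leaf 12 [64, 0]))))) (.s12 ⟨⟨.ofNat 41339, .ofNat 42158⟩, ⟨.ofNat 39571, .ofNat 19282⟩, ⟨.ofNat 59860, .negSucc 20288⟩, ⟨.ofNat 40520, .ofNat 819⟩⟩ ⟨.ofNat 1619, .ofNat 853⟩ ⟨.negSucc 453, .ofNat 1125⟩ ⟨.ofNat 72, .ofNat 138⟩ 5 (.s23 ⟨⟨.ofNat 1, .ofNat 1⟩, ⟨.ofNat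 0, .ofNat 1⟩, ⟨.negSucc 0, .ofNat 1⟩, ⟨.ofNat 1, .ofNat 0⟩⟩ ⟨.ofNat 50, .negSucc 26⟩ ⟨.negSucc 3150, .ofNat 2385⟩ ⟨.negSucc 26999, .ofNat 60084⟩ 6 (.s03 ⟨⟨.ofNat 63, .ofNat 7⟩, ⟨.ofNat 21, .ofNat 13⟩, ⟨.ofNat 29, .negSucc 7⟩, ⟨.negSucc 7, .ofNat 21⟩⟩ ⟨.negSucc 3, .ofNat 19⟩ ⟨.ofNat 3, .ofNat 1⟩ ⟨.ofNat 1, .ofNat 11⟩ 8 (.leaf 13 [0, 13]) (.leaf 13 [0])) (.s23 ⟨⟨.ofNat 3, .ofNat 3⟩, ⟨.ofNat 5, .ofNat 0⟩, ⟨.ofNat 2, .ofNat 0⟩, ⟨.ofNat 3, .ofNat 0⟩⟩ ⟨.negSucc 0, .ofNat 1⟩ ⟨.ofNat 1955, .ofNat 467⟩ ⟨.negSucc 765, .ofNat 1619⟩ 5 (.s02 ⟨⟨.ofNat 182, .ofNat 8⟩, ⟨.negSucc 1, .ofNat 72⟩, ⟨.ofNat 27, .ofNat 12⟩, ⟨.negSucc 28, .ofNat 60⟩⟩ ⟨.negSucc 1, .ofNat 5⟩ ⟨.ofNat 20, .ofNat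 0⟩ ⟨.ofNat 0, .ofNat 1⟩ 8 (.s23 ⟨⟨.ofNat 17, .ofNat 17⟩, ⟨.ofNat 23, .ofNat 3⟩, ⟨.ofNat 6, .ofNat 3⟩, ⟨.ofNat 17, .ofNat 0⟩⟩ ⟨.ofNat 4, .negSucc 0⟩ ⟨.ofNat 5, .ofNat 3⟩ ⟨.ofNat 1, .ofNat 0⟩ 6 (.leaf 13 []) (.leaf 13 [29])) (.leaf 13 [30])) (.leaf 12 [64, 63]))) (.s01 ⟨⟨.negSucc 594, .ofNat 3556⟩, ⟨.ofNat 455, .ofNat 1564⟩, ⟨.negSucc 653, .ofNat 1109⟩, ⟨.ofNat 899, .ofNat 539⟩⟩ ⟨.negSucc 453, .ofNat 1125⟩ ⟨.ofNat 3, .ofNat 1⟩ ⟨.ofNat 10, .ofNat 1⟩ 8 (.leaf 13 [0, 33]) (.s03 ⟨⟨.ofNat 63, .ofNat 7⟩, ⟨.ofNat 21, .ofNat 13⟩, ⟨.ofNat 29, .negSucc 7⟩, ⟨.negSucc 7, .ofNat 21⟩⟩ ⟨.negSucc 3, .ofNat 19⟩ ⟨.ofNat 3, .ofNat 1⟩ ⟨.ofNat 1, .ofNat 11⟩ 8 (.leaf 13 [0, 13]) (.leaf 13 [0]))))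

/-- part of a tree -/
def t4_1 : Tree := .s02 ⟨⟨.ofNat 3, .ofNat 2⟩, ⟨.ofNat 6, .negSucc 0⟩, ⟨.ofNat 2, .ofNat 0⟩, ⟨.ofNat 4, .negSucc 0⟩⟩ ⟨.ofNat 0, .ofNat 1⟩ ⟨.ofNat 10, .ofNat 1⟩ ⟨.ofNat 4, .ofNat 4⟩ 4 (.s12 ⟨⟨.ofNat 2754, .ofNat 3085⟩, ⟨.negSucc 1313, .ofNat 4867⟩, ⟨.ofNat 2423, .ofNat 331⟩, ⟨.negSucc 2560, .ofNat 3738⟩⟩ ⟨.negSucc 0, .ofNat 1⟩ ⟨.ofNat 1830, .ofNat 253⟩ ⟨.ofNat 1, .ofNat 0⟩ 2 (.s23 ⟨⟨.ofNat 13, .ofNat 80⟩, ⟨.ofNat 67, .ofNat 32⟩, ⟨.negSucc 53, .ofNat 67⟩, ⟨.ofNat 121, .negSucc 34⟩⟩ ⟨.ofNat 268, .ofNat 62⟩ ⟨.ofNat 1, .ofNat 0⟩ ⟨.ofNat 3, .ofNat 6⟩ 2 (.leaf 11 [0, 50]) (.s02 ⟨⟨.ofNat 3, .ofNat 4⟩, ⟨.ofNat 6, .ofNat 1⟩, ⟨.ofNat 2, .ofNat 1⟩, ⟨.ofNat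 4, .ofNat 0⟩⟩ ⟨.ofNat 1, .ofNat 0⟩ ⟨.ofNat 0, .ofNat 1⟩ ⟨.ofNat 1, .ofNat 0⟩ 2 (.leaf 11 [21, 0, 64]) (.leaf 11 [21, 1]))) (.s12 ⟨⟨.negSucc 4690, .ofNat 25776⟩, ⟨.negSucc 11548, .ofNat 24264⟩, ⟨.negSucc 2841, .ofNat 8757⟩, ⟨.negSucc 7572, .ofNat 14247⟩⟩ ⟨.ofNat 11104, .ofNat 498⟩ ⟨.ofNat 6510, .ofNat 1655⟩ ⟨.ofNat 253, .ofNat 2083⟩ 3 (.leaf 11 [0, 42]) (.s01 ⟨⟨.ofNat 3759, .ofNat 3133⟩, ⟨.ofNat 6401, .negSucc 212⟩, ⟨.ofNat 1778, .ofNat 511⟩, ⟨.ofNat 4385, .negSucc 625⟩⟩ ⟨.ofNat 26040, .ofNat 6620⟩ ⟨.ofNat 10, .ofNat 3⟩ ⟨.ofNat 30, .ofNat 3⟩ 4 (.leaf 12 [57, 64, 64, 20]) (.leaf 11 [42])))) (.s12 ⟨⟨.ofNat 3759, .ofNat 3133⟩, ⟨.ofNat 6401, .negSucc 212⟩, ⟨.ofNat 1778, .ofNat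 511⟩, ⟨.ofNat 4385, .negSucc 625⟩⟩ ⟨.ofNat 10, .ofNat 3⟩ ⟨.ofNat 26040, .ofNat 6620⟩ ⟨.ofNat 30, .ofNat 3⟩ 4 (.s02 ⟨⟨.ofNat 2, .ofNat 38⟩, ⟨.ofNat 38, .ofNat 2⟩, ⟨.ofNat 7, .ofNat 7⟩, ⟨.ofNat 31, .negSucc 4⟩⟩ ⟨.ofNat 10, .ofNat 3⟩ ⟨.ofNat 0, .ofNat 80⟩ ⟨.ofNat 1, .ofNat 11⟩ 5 (.s03 ⟨⟨.ofNat 33, .ofNat 33⟩, ⟨.ofNat 47, .ofNat 7⟩, ⟨.ofNat 14, .ofNat 7⟩, ⟨.ofNat 33, .ofNat 0⟩⟩ ⟨.ofNat 160, .ofNat 69⟩ ⟨.negSucc 6, .ofNat 10⟩ ⟨.ofNat 270, .ofNat 27⟩ 4 (.s23 ⟨⟨.negSucc 1297, .ofNat 5371⟩, ⟨.ofNat 475, .ofNat 2950⟩, ⟨.ofNat 209, .ofNat 1298⟩, ⟨.ofNat 266, .ofNat 1652⟩⟩ ⟨.negSucc 71, .ofNat 729⟩ ⟨.negSucc 4, .ofNat 6⟩ ⟨.ofNat 0, .ofNat 1⟩ 4 (.leaf 12 [1]) (.s02 ⟨⟨.ofNat 14,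 .ofNat 14⟩, ⟨.ofNat 25, .ofNat 0⟩, ⟨.ofNat 11, .ofNat 0⟩, ⟨.ofNat 14, .ofNat 0⟩⟩ ⟨.ofNat 1, .ofNat 7⟩ ⟨.ofNat 40, .ofNat 11⟩ ⟨.ofNat 13, .ofNat 16⟩ 4 (.leaf 11 []) (.leaf 12 []))) (.s23 ⟨⟨.ofNat 14, .ofNat 14⟩, ⟨.ofNat 25, .ofNat 0⟩, ⟨.ofNat 11, .ofNat 0⟩, ⟨.ofNat 14, .ofNat 0⟩⟩ ⟨.ofNat 40, .ofNat 11⟩ ⟨.ofNat 1, .ofNat 7⟩ ⟨.ofNat 13, .ofNat 16⟩ 4 (.leaf 12 []) (.leaf 11 []))) (.s03 ⟨⟨.ofNat 4527, .ofNat 4664⟩, ⟨.ofNat 5673, .ofNat 1376⟩, ⟨.ofNat 1283, .ofNat 1239⟩, ⟨.ofNat 4390, .ofNat 137⟩⟩ ⟨.ofNat 160, .ofNat 69⟩ ⟨.ofNat 10, .ofNat 1⟩ ⟨.ofNat 0, .ofNat 1⟩ 5 (.s23 ⟨⟨.ofNat 33, .ofNat 33⟩, ⟨.ofNat 47, .ofNat 7⟩, ⟨.ofNat 14, .ofNat 7⟩, ⟨.ofNat 33, .ofNat 0⟩⟩ ⟨.ofNat 160,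 .ofNat 69⟩ ⟨.negSucc 6, .ofNat 10⟩ ⟨.ofNat 270, .ofNat 27⟩ 4 (.leaf 12 [1]) (.leaf 12 [])) (.leaf 12 [64, 60]))) (.s03 ⟨⟨.ofNat 4527, .ofNat 4664⟩, ⟨.ofNat 5673, .ofNat 1376⟩, ⟨.ofNat 1283, .ofNat 1239⟩, ⟨.ofNat 4390, .ofNat 137⟩⟩ ⟨.ofNat 160, .ofNat 69⟩ ⟨.ofNat 10, .ofNat 1⟩ ⟨.ofNat 0, .ofNat 1⟩ 5 (.leaf 12 [64, 64, 53, 0]) (.leaf 12 [64, 64, 53])))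

/-- part of a tree -/
def t4 : Tree := .s23 ⟨⟨.negSucc 16, .ofNat 674⟩, ⟨.negSucc 142, .ofNat 566⟩, ⟨.negSucc 27, .ofNat 217⟩, ⟨.negSucc 114, .ofNat 349⟩⟩ ⟨.ofNat 160, .ofNat 69⟩ ⟨.ofNat 3, .ofNat 3⟩ ⟨.ofNat 0, .ofNat 1⟩ 4 t4_0 t4_1

theorem g4 : Good (PE lin H) ⟨⟨.ofNat 26, .ofNat 0⟩, ⟨.ofNat 14, .ofNat 0⟩, ⟨.ofNat 9, .negSucc 1⟩, ⟨.ofNat 5, .ofNat 2⟩⟩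
    ⟨⟨.ofNat 2579, .ofNat 1673⟩, ⟨.ofNat 4361, .negSucc 612⟩, ⟨.ofNat 78, .ofNat 671⟩, ⟨.ofNat 3485, .negSucc 905⟩⟩
    ⟨⟨.ofNat 2, .ofNat 0⟩, ⟨.ofNat 2, .ofNat 0⟩, ⟨.ofNat 1, .ofNat 0⟩, ⟨.ofNat 1, .ofNat 0⟩⟩
    ⟨⟨.ofNat 63, .ofNat 55⟩, ⟨.ofNat 69, .ofNat 13⟩, ⟨.negSucc 1, .ofNat 21⟩, ⟨.ofNat 71, .negSucc 7⟩⟩ :=
  goodE lin H t4 9 5 0 8 (by decide +kernel)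

end

end Pool.Agent.PHCert.E3
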