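import Pool.Agent.PHCert.E3H

/-!
# PHCert: inequality E3, part 3 (85 leaves, checked by the kernel)
-/

set_option autoImplicit false

namespace Pool.Agent.PHCert.E3

open Zp Pool.Agent.PHCert

noncomputable section

/-- part of a tree -/
def t7_0 : Tree := .s03 ⟨⟨.ofNat 518, .ofNat 1257⟩, ⟨.negSucc 318, .ofNat 984⟩, ⟨.negSucc 97, .ofNat 245⟩, ⟨.negSucc 220, .ofNat 739⟩⟩ ⟨.ofNat 159, .ofNat 35⟩ ⟨.ofNat 3, .ofNat 7⟩ ⟨.ofNat 0, .ofNat 3⟩ 11 (.s23 ⟨⟨.negSucc 175, .ofNat 666⟩, ⟨.negSucc 175, .ofNat 462⟩, ⟨.negSucc 55, .ofNat 147⟩, ⟨.negSucc 119, .ofNat 315⟩⟩ ⟨.negSucc 15, .ofNat 399⟩ ⟨.ofNat 100, .negSucc 43⟩ ⟨.ofNat 45, .negSucc 9⟩ 6 (.leaf 16 [62, 0, 0]) (.s02 ⟨⟨.ofNat 86548,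 .ofNat 81038⟩, ⟨.ofNat 90112, .ofNat 13838⟩, ⟨.ofNat 28672, .ofNat 4403⟩, ⟨.ofNat 61440, .ofNat 9435⟩⟩ ⟨.ofNat 100, .negSucc 43⟩ ⟨.negSucc 76, .ofNat 1498⟩ ⟨.negSucc 0, .ofNat 1⟩ 9 (.s12 ⟨⟨.negSucc 594, .ofNat 3556⟩, ⟨.ofNat 455, .ofNat 1564⟩, ⟨.negSucc 653, .ofNat 1109⟩, ⟨.ofNat 899, .ofNat 539⟩⟩ ⟨.ofNat 5, .negSucc 1⟩ ⟨.negSucc 673, .ofNat 6581⟩ ⟨.ofNat 35, .ofNat 13⟩ 8 (.s23 ⟨⟨.ofNat 63, .ofNat 7⟩, ⟨.ofNat 21, .ofNat 13⟩, ⟨.ofNat 29, .negSucc 7⟩, ⟨.negSucc 7, .ofNat 21⟩⟩ ⟨.negSucc 42, .ofNat 181⟩ ⟨.negSucc 1, .ofNat 3⟩ ⟨.ofNat 12, .ofNat 68⟩ 8 (.leaf 13 [60, 0, 51, 0]) (.s02 ⟨⟨.ofNat 15468, .ofNat 6011⟩, ⟨.ofNat 4725, .ofNat 5354⟩, ⟨.ofNat 4096, .ofNat 629⟩, ⟨.ofNat 629,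 .ofNat 4725⟩⟩ ⟨.negSucc 1, .ofNat 3⟩ ⟨.ofNat 33397, .ofNat 9757⟩ ⟨.ofNat 56, .ofNat 12⟩ 9 (.leaf 13 [54]) (.leaf 13 [40]))) (.leaf 14 [64, 16, 20, 0, 0])) (.leaf 15 [0, 28, 64, 20, 0]))) (.s23 ⟨⟨.ofNat 86548, .ofNat 81038⟩, ⟨.ofNat 90112, .ofNat 13838⟩, ⟨.ofNat 28672, .ofNat 4403⟩, ⟨.ofNat 61440, .ofNat 9435⟩⟩ ⟨.negSucc 76, .ofNat 1498⟩ ⟨.ofNat 100, .negSucc 43⟩ ⟨.negSucc 0, .ofNat 1⟩ 9 (.s01 ⟨⟨.ofNat 840, .ofNat 712⟩, ⟨.ofNat 1387, .negSucc 133⟩, ⟨.ofNat 363, .negSucc 47⟩, ⟨.ofNat 968, .negSucc 127⟩⟩ ⟨.negSucc 1744, .ofNat 6341⟩ ⟨.ofNat 3, .ofNat 7⟩ ⟨.ofNat 39, .ofNat 144⟩ 8 (.leaf 15 [0, 0, 64, 38, 0]) (.s03 ⟨⟨.negSucc 750, .ofNat 2750⟩, ⟨.negSucc 198, .ofNat 965⟩, ⟨.negSucc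 8, .ofNat 222⟩, ⟨.negSucc 189, .ofNat 743⟩⟩ ⟨.ofNat 314, .ofNat 116⟩ ⟨.ofNat 3, .ofNat 0⟩ ⟨.ofNat 2, .ofNat 3⟩ 14 (.leaf 16 [64, 6, 0]) (.leaf 15 [64, 64, 37, 0]))) (.s12 ⟨⟨.negSucc 594, .ofNat 3556⟩, ⟨.ofNat 455, .ofNat 1564⟩, ⟨.negSucc 653, .ofNat 1109⟩, ⟨.ofNat 899, .ofNat 539⟩⟩ ⟨.ofNat 5, .negSucc 1⟩ ⟨.negSucc 673, .ofNat 6581⟩ ⟨.ofNat 35, .ofNat 13⟩ 8 (.s02 ⟨⟨.ofNat 4, .ofNat 1⟩, ⟨.ofNat 1, .ofNat 1⟩, ⟨.ofNat 1, .ofNat 0⟩, ⟨.ofNat 0, .ofNat 1⟩⟩ ⟨.negSucc 1, .ofNat 3⟩ ⟨.ofNat 5, .ofNat 2⟩ ⟨.ofNat 35, .ofNat 13⟩ 12 (.s23 ⟨⟨.ofNat 15468, .ofNat 6011⟩, ⟨.ofNat 4725, .ofNat 5354⟩, ⟨.ofNat 4096, .ofNat 629⟩, ⟨.ofNat 629, .ofNat 4725⟩⟩ ⟨.ofNat 33397, .ofNat 9757⟩ ⟨.negSucc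 1, .ofNat 3⟩ ⟨.ofNat 56, .ofNat 12⟩ 9 (.leaf 13 [0, 64]) (.leaf 13 [0, 64])) (.leaf 14 [0, 64, 64, 37])) (.s01 ⟨⟨.ofNat 840, .ofNat 712⟩, ⟨.ofNat 1387, .negSucc 133⟩, ⟨.ofNat 363, .negSucc 47⟩, ⟨.ofNat 968, .negSucc 127⟩⟩ ⟨.negSucc 1744, .ofNat 6341⟩ ⟨.ofNat 3, .ofNat 7⟩ ⟨.ofNat 39, .ofNat 144⟩ 8 (.leaf 14 [64, 18, 11, 0, 0]) (.leaf 14 [0, 64, 64, 37, 0]))))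

/-- part of a tree -/
def t7 : Tree := .s12 ⟨⟨.ofNat 10225, .ofNat 4099⟩, ⟨.ofNat 10435, .ofNat 3241⟩, ⟨.ofNat 2445, .ofNat 735⟩, ⟨.ofNat 6520, .ofNat 1960⟩⟩ ⟨.ofNat 57, .negSucc 21⟩ ⟨.ofNat 12, .ofNat 105⟩ ⟨.negSucc 0, .ofNat 1⟩ 0 t7_0 (.s01 ⟨⟨.ofNat 739, .ofNat 630⟩, ⟨.ofNat 1205, .negSucc 122⟩, ⟨.ofNat 301, .negSucc 55⟩, ⟨.ofNat 848, .negSucc 108⟩⟩ ⟨.negSucc 81, .ofNat 159⟩ ⟨.ofNat 4, .ofNat 3⟩ ⟨.ofNat 0, .ofNat 3⟩ 8 (.leaf 16 [0, 64, 64, 40, 0]) (.s03 ⟨⟨.ofNat 518, .ofNat 1257⟩, ⟨.negSucc 318, .ofNat 984⟩, ⟨.negSucc 97, .ofNat 245⟩, ⟨.negSucc 220, .ofNat 739⟩⟩ ⟨.ofNat 159, .ofNat 35⟩ ⟨.ofNat 3, .ofNat 7⟩ ⟨.ofNat 0, .ofNat 3⟩ 11 (.leaf 16 [62, 64, 0, 0]) (.s02 ⟨⟨.ofNat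 840, .ofNat 712⟩, ⟨.ofNat 1387, .negSucc 133⟩, ⟨.ofNat 363, .negSucc 47⟩, ⟨.ofNat 968, .negSucc 127⟩⟩ ⟨.negSucc 1744, .ofNat 6341⟩ ⟨.ofNat 3, .ofNat 7⟩ ⟨.ofNat 39, .ofNat 144⟩ 8 (.leaf 16 [20, 64, 0]) (.s03 ⟨⟨.negSucc 750, .ofNat 2750⟩, ⟨.negSucc 198, .ofNat 965⟩, ⟨.negSucc 8, .ofNat 222⟩, ⟨.negSucc 189, .ofNat 743⟩⟩ ⟨.ofNat 314, .ofNat 116⟩ ⟨.ofNat 3, .ofNat 0⟩ ⟨.ofNat 2, .ofNat 3⟩ 14 (.leaf 16 [0, 52, 0]) (.leaf 16 [0, 64, 10, 0])))))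

theorem g7 : Good (PE lin H) ⟨⟨.ofNat 11, .ofNat 15⟩, ⟨.ofNat 11, .ofNat 0⟩, ⟨.ofNat 3, .ofNat 0⟩, ⟨.ofNat 8, .ofNat 0⟩⟩
    ⟨⟨.negSucc 39, .ofNat 189⟩, ⟨.negSucc 39, .ofNat 231⟩, ⟨.negSucc 11, .ofNat 42⟩, ⟨.negSucc 27, .ofNat 147⟩⟩
    ⟨⟨.ofNat 26, .ofNat 0⟩, ⟨.ofNat 14, .ofNat 0⟩, ⟨.ofNat 9, .negSucc 1⟩, ⟨.ofNat 5, .ofNat 2⟩⟩
    ⟨⟨.negSucc 39, .ofNat 231⟩, ⟨.negSucc 39, .ofNat 189⟩, ⟨.negSucc 11, .ofNat 42⟩, ⟨.negSucc 27, .ofNat 147⟩⟩ :=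
  goodE lin H t7 15 28 9 2 (by decide +kernel)

/-- part of a tree -/
def t9 : Tree := .s01 ⟨⟨.ofNat 105, .ofNat 256⟩, ⟨.negSucc 53, .ofNat 207⟩, ⟨.negSucc 7, .ofNat 28⟩, ⟨.negSucc 45, .ofNat 151⟩⟩ ⟨.ofNat 159, .ofNat 77⟩ ⟨.ofNat 0, .ofNat 2⟩ ⟨.ofNat 0, .ofNat 3⟩ 9 (.s12 ⟨⟨.ofNat 739, .ofNat 630⟩, ⟨.ofNat 1205, .negSucc 122⟩, ⟨.ofNat 301, .negSucc 55⟩, ⟨.ofNat 848, .negSucc 108⟩⟩ ⟨.ofNat 4, .ofNat 3⟩ ⟨.negSucc 81, .ofNat 159⟩ ⟨.ofNat 0, .ofNat 3⟩ 8 (.s23 ⟨⟨.ofNat 518, .ofNat 1257⟩, ⟨.negSucc 318, .ofNat 984⟩, ⟨.negSucc 97, .ofNat 245⟩, ⟨.negSucc 220, .ofNat 739⟩⟩ ⟨.ofNat 159, .ofNat 35⟩ ⟨.ofNat 3, .ofNat 7⟩ ⟨.ofNat 0, .ofNat 3⟩ 11 (.leaf 17 [50, 64, 64, 0, 0]) (.s23 ⟨⟨.negSucc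 750, .ofNat 2750⟩, ⟨.negSucc 198, .ofNat 965⟩, ⟨.negSucc 8, .ofNat 222⟩, ⟨.negSucc 189, .ofNat 743⟩⟩ ⟨.ofNat 314, .ofNat 116⟩ ⟨.ofNat 3, .ofNat 0⟩ ⟨.ofNat 2, .ofNat 3⟩ 14 (.leaf 17 [0, 40, 0]) (.leaf 16 [0, 64, 11, 0]))) (.leaf 17 [0, 64, 64, 64, 36, 0])) (.s03 ⟨⟨.ofNat 21, .ofNat 19⟩, ⟨.ofNat 27, .negSucc 1⟩, ⟨.ofNat 4, .ofNat 0⟩, ⟨.ofNat 23, .negSucc 1⟩⟩ ⟨.ofNat 159, .ofNat 35⟩ ⟨.ofNat 0, .ofNat 2⟩ ⟨.ofNat 21, .ofNat 15⟩ 12 (.s23 ⟨⟨.ofNat 518, .ofNat 1257⟩, ⟨.negSucc 318, .ofNat 984⟩, ⟨.negSucc 97, .ofNat 245⟩, ⟨.negSucc 220, .ofNat 739⟩⟩ ⟨.ofNat 159, .ofNat 35⟩ ⟨.ofNat 3, .ofNat 7⟩ ⟨.ofNat 0, .ofNat 3⟩ 11 (.leaf 17 [50, 64, 64, 0, 0]) (.s12 ⟨⟨.ofNat 1777, .ofNat 1719⟩,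 ⟨.ofNat 2867, .negSucc 665⟩, ⟨.ofNat 606, .negSucc 147⟩, ⟨.ofNat 2121, .negSucc 517⟩⟩ ⟨.ofNat 5, .ofNat 0⟩ ⟨.negSucc 35, .ofNat 106⟩ ⟨.ofNat 0, .ofNat 1⟩ 13 (.s02 ⟨⟨.ofNat 243, .ofNat 261⟩, ⟨.ofNat 333, .negSucc 53⟩, ⟨.ofNat 74, .negSucc 11⟩, ⟨.ofNat 259, .negSucc 41⟩⟩ ⟨.ofNat 0, .ofNat 5⟩ ⟨.negSucc 3, .ofNat 14⟩ ⟨.ofNat 0, .ofNat 1⟩ 14 (.s23 ⟨⟨.negSucc 750, .ofNat 2750⟩, ⟨.negSucc 198, .ofNat 965⟩, ⟨.negSucc 8, .ofNat 222⟩, ⟨.negSucc 189, .ofNat 743⟩⟩ ⟨.ofNat 314, .ofNat 116⟩ ⟨.ofNat 3, .ofNat 0⟩ ⟨.ofNat 2, .ofNat 3⟩ 14 (.leaf 16 [0, 52, 0]) (.leaf 16 [64, 13])) (.leaf 17 [64, 64, 5])) (.leaf 17 [64, 64, 33]))) (.s02 ⟨⟨.ofNat 17, .ofNat 33⟩, ⟨.ofNat 17, .ofNat 0⟩, ⟨.ofNat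 3, .ofNat 0⟩, ⟨.ofNat 14, .ofNat 0⟩⟩ ⟨.ofNat 6, .ofNat 0⟩ ⟨.ofNat 1, .ofNat 0⟩ ⟨.ofNat 1, .ofNat 0⟩ 17 (.s03 ⟨⟨.negSucc 227, .ofNat 575⟩, ⟨.negSucc 26, .ofNat 155⟩, ⟨.ofNat 24, .ofNat 9⟩, ⟨.negSucc 50, .ofNat 146⟩⟩ ⟨.ofNat 40, .ofNat 13⟩ ⟨.negSucc 2, .ofNat 30⟩ ⟨.ofNat 3, .ofNat 4⟩ 15 (.s12 ⟨⟨.ofNat 1777, .ofNat 1719⟩, ⟨.ofNat 2867, .negSucc 665⟩, ⟨.ofNat 606, .negSucc 147⟩, ⟨.ofNat 2121, .negSucc 517⟩⟩ ⟨.ofNat 5, .ofNat 0⟩ ⟨.negSucc 35, .ofNat 106⟩ ⟨.ofNat 0, .ofNat 1⟩ 13 (.s23 ⟨⟨.ofNat 243, .ofNat 261⟩, ⟨.ofNat 333, .negSucc 53⟩, ⟨.ofNat 74, .negSucc 11⟩, ⟨.ofNat 259, .negSucc 41⟩⟩ ⟨.negSucc 3, .ofNat 14⟩ ⟨.ofNat 0, .ofNat 5⟩ ⟨.ofNat 0, .ofNat 1⟩ 14 (.leaf 17 [36, 0]) (.leaf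 17 [55, 0])) (.leaf 17 [36, 0])) (.leaf 17 [6, 52, 0, 0])) (.s03 ⟨⟨.negSucc 9, .ofNat 78⟩, ⟨.negSucc 9, .ofNat 27⟩, ⟨.negSucc 5, .ofNat 6⟩, ⟨.negSucc 3, .ofNat 21⟩⟩ ⟨.ofNat 40, .ofNat 13⟩ ⟨.ofNat 0, .ofNat 3⟩ ⟨.ofNat 2, .ofNat 2⟩ 16 (.s23 ⟨⟨.negSucc 227, .ofNat 575⟩, ⟨.negSucc 26, .ofNat 155⟩, ⟨.ofNat 24, .ofNat 9⟩, ⟨.negSucc 50, .ofNat 146⟩⟩ ⟨.ofNat 40, .ofNat 13⟩ ⟨.negSucc 2, .ofNat 30⟩ ⟨.ofNat 3, .ofNat 4⟩ 15 (.leaf 18 [64, 35, 0]) (.leaf 18 [0, 52, 0, 0])) (.leaf 19 [0, 64, 8, 0, 0]))))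

theorem g9 : Good (PE lin H) ⟨⟨.ofNat 1, .ofNat 3⟩, ⟨.ofNat 1, .ofNat 0⟩, ⟨.ofNat 0, .ofNat 0⟩, ⟨.ofNat 1, .ofNat 0⟩⟩
    ⟨⟨.negSucc 39, .ofNat 189⟩, ⟨.negSucc 39, .ofNat 231⟩, ⟨.negSucc 11, .ofNat 42⟩, ⟨.negSucc 27, .ofNat 147⟩⟩
    ⟨⟨.ofNat 11, .ofNat 15⟩, ⟨.ofNat 11, .ofNat 0⟩, ⟨.ofNat 3, .ofNat 0⟩, ⟨.ofNat 8, .ofNat 0⟩⟩
    ⟨⟨.negSucc 39, .ofNat 231⟩, ⟨.negSucc 39, .ofNat 189⟩, ⟨.negSucc 11, .ofNat 42⟩, ⟨.negSucc 27, .ofNat 147⟩⟩ :=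
  goodE lin H t9 19 28 15 2 (by decide +kernel)

/-- part of a tree -/
def t12 : Tree := .s03 ⟨⟨.ofNat 3512, .ofNat 3255⟩, ⟨.ofNat 5564, .negSucc 266⟩, ⟨.ofNat 1711, .negSucc 303⟩, ⟨.ofNat 3769, .negSucc 256⟩⟩ ⟨.negSucc 81, .ofNat 159⟩ ⟨.ofNat 2, .ofNat 7⟩ ⟨.ofNat 0, .ofNat 1⟩ 8 (.s02 ⟨⟨.ofNat 10040941, .ofNat 2292107⟩, ⟨.ofNat 7201999, .ofNat 1112153⟩, ⟨.ofNat 1805626, .ofNat 249546⟩, ⟨.ofNat 4229403, .ofNat 941945⟩⟩ ⟨.ofNat 783, .ofNat 1742⟩ ⟨.negSucc 1160, .ofNat 1517⟩ ⟨.ofNat 1, .ofNat 1⟩ 5 (.s12 ⟨⟨.ofNat 5224758, .ofNat 12558⟩, ⟨.ofNat 9703122, .ofNat 23322⟩, ⟨.ofNat 1726249, .negSucc 259664⟩, ⟨.ofNat 3498509, .ofNat 272223⟩⟩ ⟨.negSucc 703, .ofNat 3836⟩ ⟨.ofNat 2591,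 .negSucc 1330⟩ ⟨.ofNat 0, .ofNat 1⟩ 35 (.leaf 16 [64, 64, 0, 40, 0]) (.leaf 16 [64, 0, 46, 0, 0])) (.leaf 16 [64, 0, 46, 64, 0, 0])) (.s02 ⟨⟨.ofNat 1575, .ofNat 1335⟩, ⟨.ofNat 2690, .negSucc 253⟩, ⟨.ofNat 847, .negSucc 111⟩, ⟨.ofNat 1815, .negSucc 239⟩⟩ ⟨.ofNat 1687, .ofNat 600⟩ ⟨.ofNat 7, .ofNat 9⟩ ⟨.ofNat 24, .ofNat 24⟩ 7 (.s23 ⟨⟨.ofNat 10040941, .ofNat 2292107⟩, ⟨.ofNat 7201999, .ofNat 1112153⟩, ⟨.ofNat 1805626, .ofNat 249546⟩, ⟨.ofNat 4229403, .ofNat 941945⟩⟩ ⟨.negSucc 1160, .ofNat 1517⟩ ⟨.ofNat 783, .ofNat 1742⟩ ⟨.ofNat 1, .ofNat 1⟩ 5 (.leaf 16 [39, 64, 64]) (.s12 ⟨⟨.ofNat 5224758, .ofNat 12558⟩, ⟨.ofNat 9703122, .ofNat 23322⟩, ⟨.ofNat 1726249, .negSucc 259664⟩, ⟨.ofNat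 3498509, .ofNat 272223⟩⟩ ⟨.negSucc 703, .ofNat 3836⟩ ⟨.ofNat 2591, .negSucc 1330⟩ ⟨.ofNat 0, .ofNat 1⟩ 35 (.leaf 15 [48, 64, 64, 0, 64, 15]) (.leaf 16 [39, 64, 64]))) (.s01 ⟨⟨.ofNat 17659, .ofNat 13930⟩, ⟨.ofNat 35926, .negSucc 2572⟩, ⟨.ofNat 9807, .negSucc 2428⟩, ⟨.ofNat 21388, .negSucc 3728⟩⟩ ⟨.ofNat 837, .ofNat 273⟩ ⟨.ofNat 7, .ofNat 9⟩ ⟨.ofNat 1, .ofNat 1⟩ 2 (.leaf 16 [39, 64, 64, 64]) (.leaf 15 [26, 0])))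

theorem g12 : Good (PE lin H) ⟨⟨.ofNat 22, .ofNat 24⟩, ⟨.ofNat 22, .ofNat 0⟩, ⟨.ofNat 7, .ofNat 0⟩, ⟨.ofNat 15, .ofNat 0⟩⟩
    ⟨⟨.negSucc 318, .ofNat 984⟩, ⟨.ofNat 518, .ofNat 1257⟩, ⟨.negSucc 97, .ofNat 245⟩, ⟨.negSucc 220, .ofNat 739⟩⟩
    ⟨⟨.negSucc 351, .ofNat 2310⟩, ⟨.negSucc 351, .ofNat 2646⟩, ⟨.negSucc 111, .ofNat 735⟩, ⟨.negSucc 239, .ofNat 1575⟩⟩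
    ⟨⟨.negSucc 39, .ofNat 189⟩, ⟨.negSucc 39, .ofNat 231⟩, ⟨.negSucc 11, .ofNat 42⟩, ⟨.negSucc 27, .ofNat 147⟩⟩ :=
  goodE lin H t12 14 37 27 28 (by decide +kernel)

/-- part of a tree -/
def t13_1 : Tree := .s02 ⟨⟨.ofNat 1440, .ofNat 2999⟩, ⟨.negSucc 1263, .ofNat 4114⟩, ⟨.negSucc 118, .ofNat 1559⟩, ⟨.negSucc 1214, .ofNat 2527⟩⟩ ⟨.ofNat 2, .negSucc 0⟩ ⟨.negSucc 127, .ofNat 840⟩ ⟨.negSucc 0, .ofNat 1⟩ 1 (.s23 ⟨⟨.ofNat 189, .ofNat 89⟩, ⟨.ofNat 147, .ofNat 131⟩, ⟨.ofNat 163, .negSucc 15⟩, ⟨.ofNat 26, .ofNat 105⟩⟩ ⟨.ofNat 1288, .ofNat 313⟩ ⟨.ofNat 1, .ofNat 0⟩ ⟨.ofNat 8, .ofNat 8⟩ 26 (.s03 ⟨⟨.ofNat 65471, .negSucc 201⟩, ⟨.ofNat 17106, .ofNat 27646⟩, ⟨.ofNat 6566, .ofNat 10540⟩,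 ⟨.ofNat 2294, .ofNat 19724⟩⟩ ⟨.ofNat 313, .ofNat 1601⟩ ⟨.ofNat 1589, .ofNat 474⟩ ⟨.ofNat 89, .ofNat 194⟩ 0 (.s13 ⟨⟨.ofNat 46732802, .ofNat 21682610⟩, ⟨.ofNat 59748998, .ofNat 22457030⟩, ⟨.ofNat 17450307, .ofNat 9544209⟩, ⟨.ofNat 29282495, .ofNat 12138401⟩⟩ ⟨.ofNat 6628, .ofNat 15112⟩ ⟨.ofNat 14489, .ofNat 35⟩ ⟨.ofNat 0, .ofNat 1⟩ 28 (.leaf 13 [44, 64, 64, 64]) (.leaf 12 [64, 64, 12])) (.s02 ⟨⟨.ofNat 7117485, .ofNat 5202579⟩, ⟨.ofNat 9534995, .ofNat 3952741⟩, ⟨.ofNat 5950725, .ofNat 207606⟩, ⟨.ofNat 4579432, .ofNat 2517713⟩⟩ ⟨.negSucc 875, .ofNat 904⟩ ⟨.ofNat 27699, .ofNat 4862⟩ ⟨.ofNat 1, .ofNat 0⟩ 26 (.leaf 12 [64, 64, 12]) (.leaf 12 [64, 60, 50, 64]))) (.s03 ⟨⟨.ofNat 7117485,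 .ofNat 5202579⟩, ⟨.ofNat 9534995, .ofNat 3952741⟩, ⟨.ofNat 5950725, .ofNat 207606⟩, ⟨.ofNat 4579432, .ofNat 2517713⟩⟩ ⟨.negSucc 875, .ofNat 904⟩ ⟨.ofNat 27699, .ofNat 4862⟩ ⟨.ofNat 1, .ofNat 0⟩ 26 (.leaf 12 [64, 0, 12]) (.leaf 11 [64, 24, 0, 64]))) (.s01 ⟨⟨.ofNat 2377115, .ofNat 2951527⟩, ⟨.ofNat 5610698, .ofNat 1114858⟩, ⟨.ofNat 1802703, .ofNat 574412⟩, ⟨.ofNat 3048767, .ofNat 352028⟩⟩ ⟨.ofNat 1401, .negSucc 563⟩ ⟨.ofNat 840, .ofNat 712⟩ ⟨.ofNat 1, .ofNat 0⟩ 26 (.s23 ⟨⟨.ofNat 65471, .negSucc 201⟩, ⟨.ofNat 17106, .ofNat 27646⟩, ⟨.ofNat 6566, .ofNat 10540⟩, ⟨.ofNat 2294, .ofNat 19724⟩⟩ ⟨.ofNat 313, .ofNat 1601⟩ ⟨.ofNat 1589, .ofNat 474⟩ ⟨.ofNat 89, .ofNat 194⟩ 0 (.s03 ⟨⟨.ofNat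 899335534, .ofNat 337092932⟩, ⟨.ofNat 822276586, .ofNat 459692588⟩, ⟨.ofNat 251977197, .ofNat 163572258⟩, ⟨.ofNat 473443333, .ofNat 219116018⟩⟩ ⟨.ofNat 6628, .ofNat 15112⟩ ⟨.negSucc 3435621, .ofNat 27213493⟩ ⟨.ofNat 105, .ofNat 89⟩ 27 (.s13 ⟨⟨.ofNat 46732802, .ofNat 21682610⟩, ⟨.ofNat 59748998, .ofNat 22457030⟩, ⟨.ofNat 17450307, .ofNat 9544209⟩, ⟨.ofNat 29282495, .ofNat 12138401⟩⟩ ⟨.ofNat 6628, .ofNat 15112⟩ ⟨.ofNat 14489, .ofNat 35⟩ ⟨.ofNat 0, .ofNat 1⟩ 28 (.leaf 13 [0, 64, 58, 64]) (.leaf 12 [64, 64, 36])) (.leaf 12 [64, 64, 36, 64])) (.leaf 12 [64, 60, 64, 50, 64])) (.s23 ⟨⟨.ofNat 65471, .negSucc 201⟩, ⟨.ofNat 17106, .ofNat 27646⟩, ⟨.ofNat 6566, .ofNat 10540⟩, ⟨.ofNat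 2294, .ofNat 19724⟩⟩ ⟨.ofNat 313, .ofNat 1601⟩ ⟨.ofNat 1589, .ofNat 474⟩ ⟨.ofNat 89, .ofNat 194⟩ 0 (.leaf 13 [17, 64, 64, 64, 0, 64, 16]) (.s02 ⟨⟨.ofNat 29264, .ofNat 10850⟩, ⟨.negSucc 3183, .ofNat 24230⟩, ⟨.ofNat 4564, .ofNat 6139⟩, ⟨.negSucc 8587, .ofNat 17755⟩⟩ ⟨.negSucc 5991, .ofNat 12569⟩ ⟨.negSucc 4024, .ofNat 12047⟩ ⟨.ofNat 712, .ofNat 1552⟩ 3 (.leaf 12 [0, 64, 32, 43]) (.leaf 13 [0, 64, 29, 64, 64, 0, 56]))))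

/-- part of a tree -/
def t13_0 : Tree := .s12 ⟨⟨.negSucc 633, .ofNat 2045⟩, ⟨.ofNat 767, .ofNat 1481⟩, ⟨.ofNat 53, .ofNat 714⟩, ⟨.negSucc 686, .ofNat 1331⟩⟩ ⟨.negSucc 0, .ofNat 1⟩ ⟨.negSucc 554, .ofNat 6476⟩ ⟨.ofNat 0, .ofNat 7⟩ 28 t13_1 (.s02 ⟨⟨.ofNat 2377115, .ofNat 2951527⟩, ⟨.ofNat 5610698, .ofNat 1114858⟩, ⟨.ofNat 1802703, .ofNat 574412⟩, ⟨.ofNat 3048767, .ofNat 352028⟩⟩ ⟨.ofNat 1401, .negSucc 563⟩ ⟨.ofNat 840, .ofNat 712⟩ ⟨.ofNat 1, .ofNat 0⟩ 26 (.s12 ⟨⟨.negSucc 9985, .ofNat 16784⟩, ⟨.ofNat 6826, .ofNat 10016⟩, ⟨.negSucc 552, .ofNat 4690⟩, ⟨.negSucc 9432, .ofNat 12094⟩⟩ ⟨.ofNat 1189, .ofNat 3878⟩ ⟨.ofNat 42243, .ofNat 8437⟩ ⟨.ofNat 6476, .ofNat 5921⟩ 29 (.s03 ⟨⟨.ofNat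 899335534, .ofNat 337092932⟩, ⟨.ofNat 822276586, .ofNat 459692588⟩, ⟨.ofNat 251977197, .ofNat 163572258⟩, ⟨.ofNat 473443333, .ofNat 219116018⟩⟩ ⟨.ofNat 6628, .ofNat 15112⟩ ⟨.negSucc 3435621, .ofNat 27213493⟩ ⟨.ofNat 105, .ofNat 89⟩ 27 (.s23 ⟨⟨.ofNat 46732802, .ofNat 21682610⟩, ⟨.ofNat 59748998, .ofNat 22457030⟩, ⟨.ofNat 17450307, .ofNat 9544209⟩, ⟨.ofNat 29282495, .ofNat 12138401⟩⟩ ⟨.ofNat 6628, .ofNat 15112⟩ ⟨.ofNat 14489, .ofNat 35⟩ ⟨.ofNat 0, .ofNat 1⟩ 28 (.leaf 13 [0, 64, 0, 8]) (.leaf 12 [64, 64, 41])) (.leaf 12 [64, 64, 41, 64])) (.leaf 13 [0, 64, 64, 0, 64, 8])) (.leaf 14 [42, 64, 64, 64, 20, 64, 0]))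

/-- part of a tree -/
def t13_3 : Tree := .s02 ⟨⟨.ofNat 26, .ofNat 0⟩, ⟨.ofNat 14, .ofNat 0⟩, ⟨.ofNat 9, .negSucc 1⟩, ⟨.ofNat 5, .ofNat 2⟩⟩ ⟨.ofNat 0, .ofNat 1⟩ ⟨.ofNat 14, .ofNat 3⟩ ⟨.ofNat 2, .ofNat 2⟩ 9 (.s23 ⟨⟨.ofNat 29264, .ofNat 10850⟩, ⟨.negSucc 3183, .ofNat 24230⟩, ⟨.ofNat 4564, .ofNat 6139⟩, ⟨.negSucc 8587, .ofNat 17755⟩⟩ ⟨.negSucc 4024, .ofNat 12047⟩ ⟨.ofNat 12, .ofNat 0⟩ ⟨.ofNat 0, .ofNat 1⟩ 3 (.leaf 12 [64, 60, 64, 64, 5, 0]) (.s12 ⟨⟨.ofNat 3301620, .ofNat 1165214⟩, ⟨.negSucc 1555859, .ofNat 3728666⟩, ⟨.ofNat 305508, .ofNat 856429⟩, ⟨.negSucc 1765103, .ofNat 2474833⟩⟩ ⟨.negSucc 11, .ofNat 12⟩ ⟨.negSucc 572542, .ofNat 1446805⟩ ⟨.ofNat 0, .ofNat 1⟩ 1 (.s02 ⟨⟨.ofNat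 2, .ofNat 38⟩, ⟨.ofNat 38, .ofNat 2⟩, ⟨.ofNat 7, .ofNat 7⟩, ⟨.ofNat 31, .negSucc 4⟩⟩ ⟨.ofNat 0, .ofNat 3⟩ ⟨.ofNat 20, .ofNat 0⟩ ⟨.ofNat 1, .ofNat 1⟩ 5 (.s02 ⟨⟨.ofNat 3, .ofNat 4⟩, ⟨.ofNat 6, .ofNat 1⟩, ⟨.ofNat 2, .ofNat 1⟩, ⟨.ofNat 4, .ofNat 0⟩⟩ ⟨.ofNat 1, .ofNat 0⟩ ⟨.ofNat 17, .ofNat 5⟩ ⟨.ofNat 12, .ofNat 0⟩ 2 (.s23 ⟨⟨.ofNat 1440, .ofNat 2999⟩, ⟨.negSucc 1263, .ofNat 4114⟩, ⟨.negSucc 118, .ofNat 1559⟩, ⟨.negSucc 1214, .ofNat 2527⟩⟩ ⟨.negSucc 5991, .ofNat 12569⟩ ⟨.ofNat 1, .ofNat 0⟩ ⟨.ofNat 12, .ofNat 0⟩ 1 (.leaf 11 [64, 39, 64]) (.leaf 11 [0, 36, 64, 64, 0, 64])) (.s03 ⟨⟨.ofNat 3759, .ofNat 3133⟩, ⟨.ofNat 6401, .negSucc 212⟩, ⟨.ofNat 1778, .ofNat 511⟩, ⟨.ofNat 4385, .negSucc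 625⟩⟩ ⟨.negSucc 4024, .ofNat 12047⟩ ⟨.negSucc 6, .ofNat 10⟩ ⟨.ofNat 24, .ofNat 84⟩ 4 (.leaf 11 [64, 20, 0]) (.s01 ⟨⟨.ofNat 3116, .ofNat 16260⟩, ⟨.negSucc 275, .ofNat 13140⟩, ⟨.ofNat 497, .ofNat 5145⟩, ⟨.negSucc 10027, .ofNat 13144⟩⟩ ⟨.negSucc 572542, .ofNat 1446805⟩ ⟨.negSucc 6, .ofNat 10⟩ ⟨.ofNat 1764, .ofNat 2268⟩ 4 (.leaf 11 [64, 20]) (.s02 ⟨⟨.ofNat 3, .ofNat 2⟩, ⟨.ofNat 6, .negSucc 0⟩, ⟨.ofNat 2, .ofNat 0⟩, ⟨.ofNat 4, .negSucc 0⟩⟩ ⟨.ofNat 1, .ofNat 1⟩ ⟨.negSucc 6, .ofNat 10⟩ ⟨.ofNat 5, .ofNat 22⟩ 4 (.leaf 11 [20]) (.leaf 11 []))))) (.leaf 12 [64, 64, 64, 6, 0])) (.leaf 12 [64, 64, 64, 64, 6, 0]))) (.s12 ⟨⟨.negSucc 2722998, .ofNat 4665740⟩, ⟨.ofNat 307484, .ofNat 1515383⟩,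 ⟨.negSucc 900414, .ofNat 1207899⟩, ⟨.ofNat 1092504, .ofNat 298433⟩⟩ ⟨.ofNat 5, .negSucc 1⟩ ⟨.ofNat 179134, .ofNat 47464⟩ ⟨.ofNat 0, .ofNat 1⟩ 8 (.s23 ⟨⟨.negSucc 17596, .ofNat 28883⟩, ⟨.ofNat 1680, .ofNat 8950⟩, ⟨.negSucc 5589, .ofNat 7270⟩, ⟨.ofNat 7326, .ofNat 1442⟩⟩ ⟨.ofNat 1078, .ofNat 201⟩ ⟨.negSucc 1, .ofNat 3⟩ ⟨.ofNat 0, .ofNat 1⟩ 9 (.leaf 14 [54, 0]) (.s02 ⟨⟨.ofNat 4, .ofNat 1⟩, ⟨.ofNat 1, .ofNat 1⟩, ⟨.ofNat 1, .ofNat 0⟩, ⟨.ofNat 0, .ofNat 1⟩⟩ ⟨.negSucc 1, .ofNat 3⟩ ⟨.ofNat 8, .ofNat 1⟩ ⟨.ofNat 56, .ofNat 12⟩ 12 (.leaf 13 [64]) (.leaf 13 [23]))) (.leaf 14 [40, 0]))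

/-- part of a tree -/
def t13_2 : Tree := .s01 ⟨⟨.ofNat 131102, .ofNat 323627⟩, ⟨.negSucc 60066, .ofNat 346079⟩, ⟨.negSucc 23738, .ofNat 95342⟩, ⟨.negSucc 61422, .ofNat 192525⟩⟩ ⟨.ofNat 9011, .ofNat 1490⟩ ⟨.ofNat 7, .ofNat 9⟩ ⟨.ofNat 0, .ofNat 1⟩ 3 (.s12 ⟨⟨.negSucc 633, .ofNat 2045⟩, ⟨.ofNat 767, .ofNat 1481⟩, ⟨.ofNat 53, .ofNat 714⟩, ⟨.negSucc 686, .ofNat 1331⟩⟩ ⟨.negSucc 0, .ofNat 1⟩ ⟨.negSucc 554, .ofNat 6476⟩ ⟨.ofNat 0, .ofNat 7⟩ 28 (.s23 ⟨⟨.ofNat 1440, .ofNat 2999⟩, ⟨.negSucc 1263, .ofNat 4114⟩, ⟨.negSucc 118, .ofNat 1559⟩, ⟨.negSucc 1214, .ofNat 2527⟩⟩ ⟨.negSucc 127, .ofNat 840⟩ ⟨.ofNat 2, .negSucc 0⟩ ⟨.negSucc 0, .ofNat 1⟩ 1 (.s13 ⟨⟨.ofNat 2377115, .ofNat 2951527⟩,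 ⟨.ofNat 5610698, .ofNat 1114858⟩, ⟨.ofNat 1802703, .ofNat 574412⟩, ⟨.ofNat 3048767, .ofNat 352028⟩⟩ ⟨.ofNat 840, .ofNat 712⟩ ⟨.ofNat 1401, .negSucc 563⟩ ⟨.ofNat 1, .ofNat 0⟩ 26 (.s23 ⟨⟨.ofNat 29264, .ofNat 10850⟩, ⟨.negSucc 3183, .ofNat 24230⟩, ⟨.ofNat 4564, .ofNat 6139⟩, ⟨.negSucc 8587, .ofNat 17755⟩⟩ ⟨.negSucc 4024, .ofNat 12047⟩ ⟨.negSucc 5991, .ofNat 12569⟩ ⟨.ofNat 712, .ofNat 1552⟩ 3 (.leaf 13 [0, 64, 19, 64, 64, 3, 64]) (.leaf 12 [0, 64, 64, 64, 64, 52, 0, 64])) (.s01 ⟨⟨.ofNat 127923715, .ofNat 141920299⟩, ⟨.ofNat 382772857, .negSucc 830323⟩, ⟨.ofNat 113927131, .ofNat 13996584⟩, ⟨.ofNat 201426084, .negSucc 13484896⟩⟩ ⟨.ofNat 3366, .negSucc 1964⟩ ⟨.negSucc 37683, .ofNat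 97183⟩ ⟨.negSucc 1, .ofNat 2⟩ 26 (.leaf 11 [64, 58, 34, 0]) (.leaf 12 [0, 64, 64, 64, 64, 52, 0, 64]))) (.s02 ⟨⟨.ofNat 132943, .ofNat 311523⟩, ⟨.negSucc 271846, .ofNat 525144⟩, ⟨.negSucc 45636, .ofNat 178580⟩, ⟨.negSucc 218187, .ofNat 313447⟩⟩ ⟨.negSucc 2, .ofNat 2⟩ ⟨.negSucc 37683, .ofNat 97183⟩ ⟨.negSucc 0, .ofNat 1⟩ 1 (.leaf 11 [64, 2, 16]) (.s01 ⟨⟨.ofNat 127923715, .ofNat 141920299⟩, ⟨.ofNat 382772857, .negSucc 830323⟩, ⟨.ofNat 113927131, .ofNat 13996584⟩, ⟨.ofNat 201426084, .negSucc 13484896⟩⟩ ⟨.ofNat 3366, .negSucc 1964⟩ ⟨.negSucc 37683, .ofNat 97183⟩ ⟨.negSucc 1, .ofNat 2⟩ 26 (.leaf 11 [64, 58, 34, 0]) (.leaf 12 [0, 64, 64, 64, 64, 52, 0, 64])))) (.s23 ⟨⟨.ofNat 2377115,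 .ofNat 2951527⟩, ⟨.ofNat 5610698, .ofNat 1114858⟩, ⟨.ofNat 1802703, .ofNat 574412⟩, ⟨.ofNat 3048767, .ofNat 352028⟩⟩ ⟨.ofNat 840, .ofNat 712⟩ ⟨.ofNat 1401, .negSucc 563⟩ ⟨.ofNat 1, .ofNat 0⟩ 26 (.leaf 13 [28, 64, 64, 64, 1, 64, 0]) (.s02 ⟨⟨.negSucc 888768531, .ofNat 2029517134⟩, ⟨.ofNat 860805332, .ofNat 976772746⟩, ⟨.negSucc 4893559, .ofNat 526100729⟩, ⟨.negSucc 769756291, .ofNat 1191390137⟩⟩ ⟨.ofNat 2689, .ofNat 1189⟩ ⟨.negSucc 572542, .ofNat 1446805⟩ ⟨.ofNat 0, .ofNat 2⟩ 26 (.s12 ⟨⟨.negSucc 9985, .ofNat 16784⟩, ⟨.ofNat 6826, .ofNat 10016⟩, ⟨.negSucc 552, .ofNat 4690⟩, ⟨.negSucc 9432, .ofNat 12094⟩⟩ ⟨.ofNat 1189, .ofNat 3878⟩ ⟨.ofNat 42243, .ofNat 8437⟩ ⟨.ofNat 6476, .ofNat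 5921⟩ 29 (.leaf 12 [64, 64, 41, 64]) (.leaf 12 [64, 1, 64, 64, 0, 64])) (.leaf 13 [64, 64, 64, 64, 7, 64, 0])))) t13_3

/-- part of a tree -/
def t13 : Tree := .s03 ⟨⟨.ofNat 1575, .ofNat 1335⟩, ⟨.ofNat 2690, .negSucc 253⟩, ⟨.ofNat 847, .negSucc 111⟩, ⟨.ofNat 1815, .negSucc 239⟩⟩ ⟨.ofNat 1687, .ofNat 600⟩ ⟨.ofNat 7, .ofNat 9⟩ ⟨.ofNat 24, .ofNat 24⟩ 7 t13_0 t13_2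

theorem g13 : Good (PE lin H) ⟨⟨.ofNat 22, .ofNat 24⟩, ⟨.ofNat 22, .ofNat 0⟩, ⟨.ofNat 7, .ofNat 0⟩, ⟨.ofNat 15, .ofNat 0⟩⟩
    ⟨⟨.negSucc 3074, .ofNat 12350⟩, ⟨.ofNat 2784, .ofNat 14261⟩, ⟨.negSucc 1106, .ofNat 4446⟩, ⟨.negSucc 1967, .ofNat 7904⟩⟩
    ⟨⟨.ofNat 2, .ofNat 0⟩, ⟨.ofNat 2, .ofNat 0⟩, ⟨.ofNat 1, .ofNat 0⟩, ⟨.ofNat 1, .ofNat 0⟩⟩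
    ⟨⟨.negSucc 351, .ofNat 2310⟩, ⟨.negSucc 351, .ofNat 2646⟩, ⟨.negSucc 111, .ofNat 735⟩, ⟨.negSucc 239, .ofNat 1575⟩⟩ :=
  goodE lin H t13 14 31 0 27 (by decide +kernel)

end

end Pool.Agent.PHCert.E3
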