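import Pool.Agent.PHCert.E3H

/-!
# PHCert: inequality E3, part 4 (66 leaves, checked by the kernel)
-/

set_option autoImplicit false

namespace Pool.Agent.PHCert.E3

open Zp Pool.Agent.PHCert

noncomputable section

/-- part of a tree -/
def t14 : Tree := .s03 ⟨⟨.ofNat 1575, .ofNat 1335⟩, ⟨.ofNat 2690, .negSucc 253⟩, ⟨.ofNat 847, .negSucc 111⟩, ⟨.ofNat 1815, .negSucc 239⟩⟩ ⟨.ofNat 1687, .ofNat 600⟩ ⟨.ofNat 7, .ofNat 9⟩ ⟨.ofNat 24, .ofNat 24⟩ 7 (.s12 ⟨⟨.negSucc 2705, .ofNat 10868⟩, ⟨.ofNat 3990, .ofNat 13052⟩, ⟨.negSucc 860, .ofNat 3458⟩, ⟨.negSucc 1844, .ofNat 7410⟩⟩ ⟨.negSucc 2828, .ofNat 11362⟩ ⟨.negSucc 76, .ofNat 1498⟩ ⟨.negSucc 420, .ofNat 2731⟩ 34 (.leaf 14 [38, 64, 0, 64, 19]) (.s13 ⟨⟨.ofNat 5224758, .ofNat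 12558⟩, ⟨.ofNat 9703122, .ofNat 23322⟩, ⟨.ofNat 1726249, .negSucc 259664⟩, ⟨.ofNat 3498509, .ofNat 272223⟩⟩ ⟨.negSucc 703, .ofNat 3836⟩ ⟨.ofNat 2591, .negSucc 1330⟩ ⟨.ofNat 0, .ofNat 1⟩ 35 (.leaf 15 [48, 64, 64, 0, 64, 15]) (.leaf 16 [64, 0, 41, 64]))) (.s01 ⟨⟨.ofNat 17659, .ofNat 13930⟩, ⟨.ofNat 35926, .negSucc 2572⟩, ⟨.ofNat 9807, .negSucc 2428⟩, ⟨.ofNat 21388, .negSucc 3728⟩⟩ ⟨.ofNat 837, .ofNat 273⟩ ⟨.ofNat 7, .ofNat 9⟩ ⟨.ofNat 1, .ofNat 1⟩ 2 (.s12 ⟨⟨.negSucc 2705, .ofNat 10868⟩, ⟨.ofNat 3990, .ofNat 13052⟩, ⟨.negSucc 860, .ofNat 3458⟩, ⟨.negSucc 1844, .ofNat 7410⟩⟩ ⟨.negSucc 2828, .ofNat 11362⟩ ⟨.negSucc 76, .ofNat 1498⟩ ⟨.negSucc 420, .ofNat 2731⟩ 34 (.leaf 14 [48, 64, 64, 0]) (.leaf 16 [64, 0, 41, 64, 64]))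 (.s02 ⟨⟨.ofNat 131102, .ofNat 323627⟩, ⟨.negSucc 60066, .ofNat 346079⟩, ⟨.negSucc 23738, .ofNat 95342⟩, ⟨.negSucc 61422, .ofNat 192525⟩⟩ ⟨.ofNat 9011, .ofNat 1490⟩ ⟨.ofNat 7, .ofNat 9⟩ ⟨.ofNat 0, .ofNat 1⟩ 3 (.leaf 14 [41, 64, 64, 0]) (.leaf 15 [26, 0])))

theorem g14 : Good (PE lin H) ⟨⟨.ofNat 22, .ofNat 24⟩, ⟨.ofNat 22, .ofNat 0⟩, ⟨.ofNat 7, .ofNat 0⟩, ⟨.ofNat 15, .ofNat 0⟩⟩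
    ⟨⟨.negSucc 318, .ofNat 984⟩, ⟨.ofNat 518, .ofNat 1257⟩, ⟨.negSucc 97, .ofNat 245⟩, ⟨.negSucc 220, .ofNat 739⟩⟩
    ⟨⟨.negSucc 3074, .ofNat 12350⟩, ⟨.ofNat 2784, .ofNat 14261⟩, ⟨.negSucc 1106, .ofNat 4446⟩, ⟨.negSucc 1967, .ofNat 7904⟩⟩
    ⟨⟨.negSucc 351, .ofNat 2310⟩, ⟨.negSucc 351, .ofNat 2646⟩, ⟨.negSucc 111, .ofNat 735⟩, ⟨.negSucc 239, .ofNat 1575⟩⟩ :=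
  goodE lin H t14 14 37 31 27 (by decide +kernel)

/-- part of a tree -/
def t17 : Tree := .s03 ⟨⟨.ofNat 105, .ofNat 256⟩, ⟨.negSucc 53, .ofNat 207⟩, ⟨.negSucc 7, .ofNat 28⟩, ⟨.negSucc 45, .ofNat 151⟩⟩ ⟨.ofNat 159, .ofNat 77⟩ ⟨.ofNat 0, .ofNat 2⟩ ⟨.ofNat 0, .ofNat 3⟩ 9 (.s23 ⟨⟨.ofNat 3512, .ofNat 3255⟩, ⟨.ofNat 5564, .negSucc 266⟩, ⟨.ofNat 1711, .negSucc 303⟩, ⟨.ofNat 3769, .negSucc 256⟩⟩ ⟨.negSucc 81, .ofNat 159⟩ ⟨.ofNat 2, .ofNat 7⟩ ⟨.ofNat 0, .ofNat 1⟩ 8 (.leaf 16 [64, 0, 46, 64, 64, 0, 0]) (.s12 ⟨⟨.ofNat 17659, .ofNat 13930⟩, ⟨.ofNat 35926, .negSucc 2572⟩, ⟨.ofNat 9807, .negSucc 2428⟩, ⟨.ofNat 21388, .negSucc 3728⟩⟩ ⟨.ofNat 7, .ofNat 9⟩ ⟨.ofNat 837, .ofNat 273⟩ ⟨.ofNat 1, .ofNat 1⟩ 2 (.leaf 16 [64, 0, 0]) (.leaf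 16 [40, 0, 64, 64, 64]))) (.s01 ⟨⟨.ofNat 2315, .ofNat 1309⟩, ⟨.ofNat 2879, .ofNat 472⟩, ⟨.ofNat 686, .negSucc 195⟩, ⟨.ofNat 3321, .negSucc 1005⟩⟩ ⟨.ofNat 837, .ofNat 273⟩ ⟨.ofNat 0, .ofNat 2⟩ ⟨.ofNat 1, .ofNat 1⟩ 2 (.s12 ⟨⟨.ofNat 17659, .ofNat 13930⟩, ⟨.ofNat 35926, .negSucc 2572⟩, ⟨.ofNat 9807, .negSucc 2428⟩, ⟨.ofNat 21388, .negSucc 3728⟩⟩ ⟨.ofNat 7, .ofNat 9⟩ ⟨.ofNat 837, .ofNat 273⟩ ⟨.ofNat 1, .ofNat 1⟩ 2 (.leaf 16 [64, 0, 0]) (.leaf 17 [64, 0, 64, 64, 64])) (.s02 ⟨⟨.ofNat 17, .ofNat 33⟩, ⟨.ofNat 17, .ofNat 0⟩, ⟨.ofNat 3, .ofNat 0⟩, ⟨.ofNat 14, .ofNat 0⟩⟩ ⟨.ofNat 53, .ofNat 0⟩ ⟨.ofNat 3, .ofNat 0⟩ ⟨.ofNat 7, .ofNat 0⟩ 17 (.leaf 16 [30, 0, 0, 0, 0]) (.leaf 18 [0, 0, 0, 0, 0])))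

theorem g17 : Good (PE lin H) ⟨⟨.ofNat 1, .ofNat 3⟩, ⟨.ofNat 1, .ofNat 0⟩, ⟨.ofNat 0, .ofNat 0⟩, ⟨.ofNat 1, .ofNat 0⟩⟩
    ⟨⟨.negSucc 318, .ofNat 984⟩, ⟨.ofNat 518, .ofNat 1257⟩, ⟨.negSucc 97, .ofNat 245⟩, ⟨.negSucc 220, .ofNat 739⟩⟩
    ⟨⟨.ofNat 22, .ofNat 24⟩, ⟨.ofNat 22, .ofNat 0⟩, ⟨.ofNat 7, .ofNat 0⟩, ⟨.ofNat 15, .ofNat 0⟩⟩
    ⟨⟨.negSucc 39, .ofNat 189⟩, ⟨.negSucc 39, .ofNat 231⟩, ⟨.negSucc 11, .ofNat 42⟩, ⟨.negSucc 27, .ofNat 147⟩⟩ :=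
  goodE lin H t17 19 37 14 28 (by decide +kernel)

/-- part of a tree -/
def t19_3 : Tree := .s03 ⟨⟨.ofNat 105785, .ofNat 14566⟩, ⟨.ofNat 70875, .ofNat 80310⟩, ⟨.ofNat 28672, .ofNat 4403⟩, ⟨.ofNat 61440, .ofNat 9435⟩⟩ ⟨.negSucc 76, .ofNat 1498⟩ ⟨.ofNat 94208, .ofNat 14467⟩ ⟨.negSucc 420, .ofNat 2731⟩ 31 (.s13 ⟨⟨.ofNat 11, .ofNat 0⟩, ⟨.ofNat 8, .ofNat 8⟩, ⟨.ofNat 3, .ofNat 0⟩, ⟨.ofNat 8, .ofNat 0⟩⟩ ⟨.ofNat 31, .ofNat 4⟩ ⟨.negSucc 1032204, .ofNat 11077801⟩ ⟨.ofNat 1836654540, .ofNat 870224460⟩ 35 (.s23 ⟨⟨.ofNat 6787, .negSucc 1352⟩, ⟨.ofNat 3967, .ofNat 2832⟩, ⟨.ofNat 1851, .negSucc 368⟩, ⟨.ofNat 4936, .negSucc 983⟩⟩ ⟨.ofNat 136, .ofNat 121⟩ ⟨.ofNat 6787, .negSucc 1352⟩ ⟨.negSucc 76, .ofNat 1498⟩ 35 (.leaf 16 [0, 64,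 40]) (.leaf 15 [0, 3, 64, 64])) (.s02 ⟨⟨.ofNat 122041, .negSucc 5309⟩, ⟨.negSucc 27440, .ofNat 128510⟩, ⟨.ofNat 10535, .ofNat 13720⟩, ⟨.ofNat 22575, .ofNat 29400⟩⟩ ⟨.ofNat 3061, .ofNat 1962⟩ ⟨.ofNat 17427, .ofNat 2573⟩ ⟨.ofNat 2919, .ofNat 4340⟩ 32 (.s23 ⟨⟨.ofNat 149842, .ofNat 60676⟩, ⟨.ofNat 278278, .ofNat 112684⟩, ⟨.ofNat 79231, .negSucc 5653⟩, ⟨.ofNat 70611, .ofNat 66330⟩⟩ ⟨.negSucc 30, .ofNat 25⟩ ⟨.negSucc 13187, .ofNat 36732⟩ ⟨.ofNat 1, .ofNat 1⟩ 35 (.s13 ⟨⟨.ofNat 0, .ofNat 7⟩, ⟨.ofNat 0, .ofNat 13⟩, ⟨.ofNat 13, .negSucc 5⟩, ⟨.negSucc 12, .ofNat 13⟩⟩ ⟨.negSucc 30, .ofNat 25⟩ ⟨.ofNat 950440233, .negSucc 136068623⟩ ⟨.ofNat 281553142, .ofNat 459553709⟩ 35 (.leaf 15 [0, 45]) (.s12 ⟨⟨.ofNat 168970197954910, .negSucc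 4722155469415⟩, ⟨.ofNat 131495060320822, .ofNat 96159169453468⟩, ⟨.ofNat 53763244803835, .negSucc 1502504012995⟩, ⟨.ofNat 115206953151075, .negSucc 3219651456419⟩⟩ ⟨.ofNat 549120, .negSucc 145067⟩ ⟨.ofNat 147263641, .ofNat 14417550⟩ ⟨.ofNat 1, .ofNat 0⟩ 35 (.leaf 15 [0, 9]) (.s13 ⟨⟨.ofNat 22, .ofNat 0⟩, ⟨.ofNat 15, .ofNat 15⟩, ⟨.ofNat 7, .ofNat 0⟩, ⟨.ofNat 15, .ofNat 0⟩⟩ ⟨.ofNat 76, .negSucc 28⟩ ⟨.ofNat 161681191, .ofNat 176098741⟩ ⟨.ofNat 950440233, .negSucc 136068623⟩ 35 (.leaf 15 [9]) (.leaf 14 [])))) (.s13 ⟨⟨.ofNat 168970197954910, .negSucc 4722155469415⟩, ⟨.ofNat 131495060320822, .ofNat 96159169453468⟩, ⟨.ofNat 53763244803835, .negSucc 1502504012995⟩, ⟨.ofNat 115206953151075, .negSucc 3219651456419⟩⟩ ⟨.ofNat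 549120, .negSucc 145067⟩ ⟨.ofNat 147263641, .ofNat 14417550⟩ ⟨.ofNat 1, .ofNat 0⟩ 35 (.leaf 15 [0, 9]) (.leaf 14 [3]))) (.s01 ⟨⟨.ofNat 13439037235, .ofNat 107822069⟩, ⟨.ofNat 6593467205, .ofNat 9642763211⟩, ⟨.ofNat 3467205355, .ofNat 363408842⟩, ⟨.ofNat 3544171199, .ofNat 3049296006⟩⟩ ⟨.negSucc 45356207, .ofNat 271457203⟩ ⟨.ofNat 69708, .ofNat 10292⟩ ⟨.ofNat 1421, .ofNat 2919⟩ 33 (.s13 ⟨⟨.ofNat 0, .ofNat 7⟩, ⟨.ofNat 0, .ofNat 13⟩, ⟨.ofNat 13, .negSucc 5⟩, ⟨.negSucc 12, .ofNat 13⟩⟩ ⟨.negSucc 30, .ofNat 25⟩ ⟨.ofNat 950440233, .negSucc 136068623⟩ ⟨.ofNat 281553142, .ofNat 459553709⟩ 35 (.leaf 15 [0, 45]) (.s13 ⟨⟨.ofNat 22, .ofNat 0⟩, ⟨.ofNat 15, .ofNat 15⟩, ⟨.ofNat 7, .ofNat 0⟩, ⟨.ofNat 15, .ofNat 0⟩⟩ ⟨.ofNat 76, .negSucc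 28⟩ ⟨.ofNat 161681191, .ofNat 176098741⟩ ⟨.ofNat 950440233, .negSucc 136068623⟩ 35 (.leaf 15 [7]) (.leaf 14 []))) (.leaf 15 [0, 64, 58])))) (.leaf 14 [64, 64, 64, 3])

/-- part of a tree -/
def t19_2 : Tree := .s12 ⟨⟨.ofNat 281742075, .ofNat 59841509⟩, ⟨.ofNat 232242555, .ofNat 266349782⟩, ⟨.ofNat 83606747, .ofNat 25734282⟩, ⟨.ofNat 198135328, .ofNat 34107227⟩⟩ ⟨.negSucc 76, .ofNat 1498⟩ ⟨.negSucc 1478, .ofNat 29620⟩ ⟨.ofNat 1, .ofNat 1⟩ 34 t19_3 (.s03 ⟨⟨.ofNat 105785, .ofNat 14566⟩, ⟨.ofNat 70875, .ofNat 80310⟩, ⟨.ofNat 28672, .ofNat 4403⟩, ⟨.ofNat 61440, .ofNat 9435⟩⟩ ⟨.negSucc 76, .ofNat 1498⟩ ⟨.ofNat 94208, .ofNat 14467⟩ ⟨.negSucc 420, .ofNat 2731⟩ 31 (.s13 ⟨⟨.ofNat 90112, .ofNat 13838⟩, ⟨.ofNat 86548, .ofNat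 81038⟩, ⟨.ofNat 28672, .ofNat 4403⟩, ⟨.ofNat 61440, .ofNat 9435⟩⟩ ⟨.negSucc 76, .ofNat 1498⟩ ⟨.ofNat 94208, .ofNat 14467⟩ ⟨.negSucc 420, .ofNat 2731⟩ 35 (.s23 ⟨⟨.ofNat 11, .ofNat 0⟩, ⟨.ofNat 8, .ofNat 8⟩, ⟨.ofNat 3, .ofNat 0⟩, ⟨.ofNat 8, .ofNat 0⟩⟩ ⟨.ofNat 31, .ofNat 4⟩ ⟨.negSucc 1032204, .ofNat 11077801⟩ ⟨.ofNat 1836654540, .ofNat 870224460⟩ 35 (.leaf 16 [0, 61, 0]) (.s02 ⟨⟨.ofNat 13439037235, .ofNat 107822069⟩, ⟨.ofNat 6593467205, .ofNat 9642763211⟩, ⟨.ofNat 3467205355, .ofNat 363408842⟩, ⟨.ofNat 3544171199, .ofNat 3049296006⟩⟩ ⟨.negSucc 45356207, .ofNat 271457203⟩ ⟨.ofNat 69708, .ofNat 10292⟩ ⟨.ofNat 1421, .ofNat 2919⟩ 33 (.s12 ⟨⟨.ofNat 7011376554, .ofNat 3412704848⟩, ⟨.ofNat 13021127886, .ofNat 6337880432⟩, ⟨.ofNat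 3467205355, .ofNat 363408842⟩, ⟨.ofNat 3544171199, .ofNat 3049296006⟩⟩ ⟨.negSucc 45356207, .ofNat 271457203⟩ ⟨.ofNat 69708, .ofNat 10292⟩ ⟨.ofNat 1421, .ofNat 2919⟩ 35 (.s23 ⟨⟨.ofNat 0, .ofNat 7⟩, ⟨.ofNat 0, .ofNat 13⟩, ⟨.ofNat 13, .negSucc 5⟩, ⟨.negSucc 12, .ofNat 13⟩⟩ ⟨.negSucc 30, .ofNat 25⟩ ⟨.ofNat 950440233, .negSucc 136068623⟩ ⟨.ofNat 281553142, .ofNat 459553709⟩ 35 (.s13 ⟨⟨.ofNat 62320198126, .negSucc 3619876249⟩, ⟨.ofNat 81066742582, .ofNat 16288098902⟩, ⟨.ofNat 26473462949, .negSucc 6786931912⟩, ⟨.ofNat 35846735177, .ofNat 3167055663⟩⟩ ⟨.ofNat 5, .negSucc 2⟩ ⟨.ofNat 3409220900, .ofNat 962622156⟩ ⟨.ofNat 1, .ofNat 0⟩ 35 (.leaf 15 [0, 45]) (.leaf 15 [0])) (.s23 ⟨⟨.ofNat 22, .ofNat 0⟩, ⟨.ofNat 15, .ofNat 15⟩,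 ⟨.ofNat 7, .ofNat 0⟩, ⟨.ofNat 15, .ofNat 0⟩⟩ ⟨.ofNat 76, .negSucc 28⟩ ⟨.ofNat 161681191, .ofNat 176098741⟩ ⟨.ofNat 950440233, .negSucc 136068623⟩ 35 (.leaf 15 [0]) (.leaf 14 [50]))) (.s13 ⟨⟨.ofNat 300652, .negSucc 23209⟩, ⟨.ofNat 381108, .ofNat 74182⟩, ⟨.ofNat 130212, .negSucc 35952⟩, ⟨.ofNat 170440, .ofNat 12743⟩⟩ ⟨.ofNat 5, .negSucc 2⟩ ⟨.negSucc 11963, .ofNat 45172⟩ ⟨.ofNat 1, .ofNat 1⟩ 35 (.s23 ⟨⟨.ofNat 62320198126, .negSucc 3619876249⟩, ⟨.ofNat 81066742582, .ofNat 16288098902⟩, ⟨.ofNat 26473462949, .negSucc 6786931912⟩, ⟨.ofNat 35846735177, .ofNat 3167055663⟩⟩ ⟨.ofNat 5, .negSucc 2⟩ ⟨.ofNat 3409220900, .ofNat 962622156⟩ ⟨.ofNat 1, .ofNat 0⟩ 35 (.leaf 15 [0, 58]) (.leaf 15 [0])) (.leaf 15 [0, 64]))) (.leaf 15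 [0, 64, 37]))) (.leaf 14 [60, 64, 29])) (.leaf 14 [64, 64, 64, 28]))

/-- part of a tree -/
def t19_1 : Tree := .s01 ⟨⟨.ofNat 133499, .ofNat 14246⟩, ⟨.ofNat 75600, .ofNat 85664⟩, ⟨.ofNat 36864, .ofNat 5661⟩, ⟨.ofNat 65536, .ofNat 10064⟩⟩ ⟨.ofNat 10, .ofNat 1⟩ ⟨.ofNat 29, .negSucc 2⟩ ⟨.ofNat 12, .ofNat 28⟩ 29 t19_2 (.leaf 16 [64, 0, 41, 64, 64])

/-- part of a tree -/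
def t19_0 : Tree := .s23 ⟨⟨.negSucc 2705, .ofNat 10868⟩, ⟨.ofNat 3990, .ofNat 13052⟩, ⟨.negSucc 860, .ofNat 3458⟩, ⟨.negSucc 1844, .ofNat 7410⟩⟩ ⟨.negSucc 76, .ofNat 1498⟩ ⟨.negSucc 1106, .ofNat 4446⟩ ⟨.negSucc 147, .ofNat 743⟩ 34 t19_1 (.s12 ⟨⟨.ofNat 12332942, .ofNat 893475⟩, ⟨.ofNat 8647139, .ofNat 8444163⟩, ⟨.ofNat 3482827, .ofNat 1096451⟩, ⟨.ofNat 8850115, .negSucc 202975⟩⟩ ⟨.negSucc 147, .ofNat 743⟩ ⟨.negSucc 1478, .ofNat 29620⟩ ⟨.ofNat 5, .ofNat 10⟩ 33 (.leaf 13 [64, 64, 0, 13, 0, 64, 0]) (.s01 ⟨⟨.ofNat 133499, .ofNat 14246⟩, ⟨.ofNat 75600, .ofNat 85664⟩, ⟨.ofNat 36864, .ofNat 5661⟩, ⟨.ofNat 65536, .ofNat 10064⟩⟩ ⟨.ofNat 10, .ofNat 1⟩ ⟨.ofNat 29, .negSucc 2⟩ ⟨.ofNat 12, .ofNat 28⟩ 29 (.s13 ⟨⟨.ofNat 281742075,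 .ofNat 59841509⟩, ⟨.ofNat 232242555, .ofNat 266349782⟩, ⟨.ofNat 83606747, .ofNat 25734282⟩, ⟨.ofNat 198135328, .ofNat 34107227⟩⟩ ⟨.negSucc 76, .ofNat 1498⟩ ⟨.negSucc 1478, .ofNat 29620⟩ ⟨.ofNat 1, .ofNat 1⟩ 34 (.s23 ⟨⟨.negSucc 242709999, .ofNat 446689925⟩, ⟨.ofNat 27747371, .ofNat 470133677⟩, ⟨.negSucc 87375599, .ofNat 160808373⟩, ⟨.negSucc 155334399, .ofNat 285881552⟩⟩ ⟨.ofNat 23, .ofNat 46⟩ ⟨.negSucc 1478, .ofNat 29620⟩ ⟨.ofNat 1, .ofNat 2⟩ 33 (.leaf 14 [64, 64, 64, 3]) (.s12 ⟨⟨.ofNat 25, .ofNat 0⟩, ⟨.ofNat 16, .ofNat 16⟩, ⟨.ofNat 9, .ofNat 0⟩, ⟨.ofNat 16, .ofNat 0⟩⟩ ⟨.ofNat 2, .negSucc 0⟩ ⟨.negSucc 22, .ofNat 23⟩ ⟨.ofNat 9621396, .ofNat 2470284⟩ 34 (.leaf 13 [64, 64, 64]) (.leaf 14 [64, 64, 59]))) (.s23 ⟨⟨.ofNat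 25, .ofNat 0⟩, ⟨.ofNat 16, .ofNat 16⟩, ⟨.ofNat 9, .ofNat 0⟩, ⟨.ofNat 16, .ofNat 0⟩⟩ ⟨.negSucc 22, .ofNat 23⟩ ⟨.ofNat 2, .negSucc 0⟩ ⟨.ofNat 9621396, .ofNat 2470284⟩ 34 (.leaf 14 [64, 64, 64, 53]) (.leaf 13 [64, 64, 64, 61]))) (.leaf 13 [64, 64, 64, 0])))

/-- part of a tree -/
def t19 : Tree := .s03 ⟨⟨.negSucc 131588, .ofNat 394341⟩, ⟨.ofNat 13121, .ofNat 332866⟩, ⟨.negSucc 56744, .ofNat 116253⟩, ⟨.negSucc 100879, .ofNat 206672⟩⟩ ⟨.negSucc 420, .ofNat 2731⟩ ⟨.ofNat 247, .negSucc 100⟩ ⟨.ofNat 1, .ofNat 0⟩ 27 t19_0 (.s01 ⟨⟨.negSucc 1055486, .ofNat 3606763⟩, ⟨.ofNat 934429, .ofNat 3164698⟩, ⟨.negSucc 239482, .ofNat 1044718⟩, ⟨.negSucc 1295839, .ofNat 2230269⟩⟩ ⟨.negSucc 1478, .ofNat 29620⟩ ⟨.ofNat 29, .negSucc 2⟩ ⟨.ofNat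 0, .ofNat 1⟩ 28 (.s12 ⟨⟨.ofNat 12332942, .ofNat 893475⟩, ⟨.ofNat 8647139, .ofNat 8444163⟩, ⟨.ofNat 3482827, .ofNat 1096451⟩, ⟨.ofNat 8850115, .negSucc 202975⟩⟩ ⟨.negSucc 147, .ofNat 743⟩ ⟨.negSucc 1478, .ofNat 29620⟩ ⟨.ofNat 5, .ofNat 10⟩ 33 (.leaf 13 [64, 64, 0, 57, 0, 64, 0]) (.leaf 13 [64, 62, 64, 0, 0])) (.leaf 13 [64, 64, 7, 64, 64, 64, 64, 0]))

theorem g19 : Good (PE lin H) ⟨⟨.ofNat 58, .ofNat 26⟩, ⟨.ofNat 62, .ofNat 14⟩, ⟨.ofNat 25, .ofNat 1⟩, ⟨.ofNat 17, .ofNat 13⟩⟩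
    ⟨⟨.ofNat 102400, .ofNat 15725⟩, ⟨.ofNat 106699, .ofNat 84185⟩, ⟨.ofNat 36864, .ofNat 5661⟩, ⟨.ofNat 65536, .ofNat 10064⟩⟩
    ⟨⟨.negSucc 614, .ofNat 2470⟩, ⟨.ofNat 222, .ofNat 2743⟩, ⟨.negSucc 245, .ofNat 988⟩, ⟨.negSucc 368, .ofNat 1482⟩⟩
    ⟨⟨.negSucc 318, .ofNat 984⟩, ⟨.ofNat 518, .ofNat 1257⟩, ⟨.negSucc 97, .ofNat 245⟩, ⟨.negSucc 220, .ofNat 739⟩⟩ :=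
  goodE lin H t19 2 35 29 37 (by decide +kernel)

/-- part of a tree -/
def t20_0 : Tree := .s12 ⟨⟨.ofNat 28163, .ofNat 6722⟩, ⟨.ofNat 21584, .ofNat 24281⟩, ⟨.ofNat 9276, .ofNat 4025⟩, ⟨.ofNat 18887, .ofNat 2697⟩⟩ ⟨.negSucc 147, .ofNat 743⟩ ⟨.negSucc 8, .ofNat 10⟩ ⟨.ofNat 1, .ofNat 0⟩ 31 (.s23 ⟨⟨.ofNat 14203561, .ofNat 7470742⟩, ⟨.ofNat 4499332, .ofNat 23485147⟩, ⟨.ofNat 646798, .ofNat 5803099⟩, ⟨.ofNat 13556763, .ofNat 1667643⟩⟩ ⟨.negSucc 38986, .ofNat 79401⟩ ⟨.negSucc 1010, .ofNat 1854⟩ ⟨.ofNat 5, .ofNat 10⟩ 32 (.s13 ⟨⟨.negSucc 315492744, .ofNat 880172160⟩, ⟨.ofNat 19615796, .ofNat 1079512299⟩, ⟨.negSucc 126197097, .ofNat 352068864⟩, ⟨.negSucc 189295646, .ofNat 528103296⟩⟩ ⟨.ofNat 3145, .ofNat 23625⟩ ⟨.ofNat 6681,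 .negSucc 3264⟩ ⟨.ofNat 0, .ofNat 1⟩ 32 (.s23 ⟨⟨.ofNat 12332942, .ofNat 893475⟩, ⟨.ofNat 8647139, .ofNat 8444163⟩, ⟨.ofNat 3482827, .ofNat 1096451⟩, ⟨.ofNat 8850115, .negSucc 202975⟩⟩ ⟨.ofNat 143663, .ofNat 229565⟩ ⟨.ofNat 880586, .ofNat 90318⟩ ⟨.ofNat 280044, .ofNat 440273⟩ 33 (.s13 ⟨⟨.negSucc 243441988, .ofNat 1380741380⟩, ⟨.ofNat 1716812758, .ofNat 995494115⟩, ⟨.ofNat 238147360, .ofNat 332358683⟩, ⟨.negSucc 481589348, .ofNat 1048382697⟩⟩ ⟨.ofNat 40414, .ofNat 119815⟩ ⟨.negSucc 56173520, .ofNat 465584391⟩ ⟨.ofNat 50395, .ofNat 77165⟩ 34 (.leaf 13 [64, 64, 64, 9, 0]) (.s01 ⟨⟨.ofNat 2913018054, .ofNat 5766145085⟩, ⟨.negSucc 817591119, .ofNat 11898511443⟩, ⟨.ofNat 59891023, .ofNat 2853127031⟩, ⟨.negSucc 2258286548,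 .ofNat 5696200373⟩⟩ ⟨.negSucc 63098548, .ofNat 176034432⟩ ⟨.negSucc 1, .ofNat 10⟩ ⟨.ofNat 0, .ofNat 1⟩ 31 (.s12 ⟨⟨.ofNat 792073703879, .ofNat 644347704903⟩, ⟨.ofNat 2841130855325, .ofNat 79336827432⟩, ⟨.ofNat 939799702855, .negSucc 147725998975⟩, ⟨.negSucc 147725998975, .ofNat 792073703879⟩⟩ ⟨.negSucc 1810843, .ofNat 1160566⟩ ⟨.negSucc 63098548, .ofNat 176034432⟩ ⟨.ofNat 743, .ofNat 595⟩ 33 (.leaf 13 [23, 0, 0, 0]) (.leaf 13 [64, 0])) (.leaf 13 [64, 23, 0, 0, 0]))) (.s01 ⟨⟨.ofNat 2913018054, .ofNat 5766145085⟩, ⟨.negSucc 817591119, .ofNat 11898511443⟩, ⟨.ofNat 59891023, .ofNat 2853127031⟩, ⟨.negSucc 2258286548, .ofNat 5696200373⟩⟩ ⟨.negSucc 63098548, .ofNat 176034432⟩ ⟨.negSucc 1, .ofNat 10⟩ ⟨.ofNat 0, .ofNat 1⟩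 31 (.s13 ⟨⟨.ofNat 792073703879, .ofNat 644347704903⟩, ⟨.ofNat 2841130855325, .ofNat 79336827432⟩, ⟨.ofNat 939799702855, .negSucc 147725998975⟩, ⟨.negSucc 147725998975, .ofNat 792073703879⟩⟩ ⟨.negSucc 1810843, .ofNat 1160566⟩ ⟨.negSucc 63098548, .ofNat 176034432⟩ ⟨.ofNat 743, .ofNat 595⟩ 33 (.leaf 13 [0, 0, 40, 60]) (.leaf 13 [64, 64, 0, 24, 0])) (.leaf 13 [64, 20, 0, 57, 0]))) (.s12 ⟨⟨.ofNat 135866381075, .ofNat 10238350065⟩, ⟨.ofNat 116432533373, .ofNat 75985201230⟩, ⟨.ofNat 54346552430, .ofNat 4095340026⟩, ⟨.ofNat 81519828645, .ofNat 6143010039⟩⟩ ⟨.negSucc 2974889, .ofNat 8124231⟩ ⟨.ofNat 3416, .ofNat 151⟩ ⟨.ofNat 0, .ofNat 2⟩ 31 (.s23 ⟨⟨.ofNat 1249502194887779, .negSucc 147765946758943⟩, ⟨.ofNat 739598527817142,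 .ofNat 551043527876287⟩, ⟨.ofNat 321348667129782, .ofNat 40789053181911⟩, ⟨.ofNat 928153527757997, .negSucc 188554999940854⟩⟩ ⟨.negSucc 579643, .ofNat 105431211⟩ ⟨.ofNat 1670854, .negSucc 790267⟩ ⟨.ofNat 0, .ofNat 3⟩ 32 (.leaf 13 [64, 64, 64, 30, 20]) (.leaf 13 [64, 64, 64, 23, 0])) (.leaf 12 [64, 64, 64, 64, 19]))) (.s13 ⟨⟨.ofNat 135866381075, .ofNat 10238350065⟩, ⟨.ofNat 116432533373, .ofNat 75985201230⟩, ⟨.ofNat 54346552430, .ofNat 4095340026⟩, ⟨.ofNat 81519828645, .ofNat 6143010039⟩⟩ ⟨.negSucc 2974889, .ofNat 8124231⟩ ⟨.ofNat 3416, .ofNat 151⟩ ⟨.ofNat 0, .ofNat 2⟩ 31 (.leaf 13 [64, 64, 64, 23, 0, 0]) (.leaf 12 [64, 64, 64, 64, 0, 0]))) (.s23 ⟨⟨.negSucc 243441988, .ofNat 1380741380⟩, ⟨.ofNat 1716812758, .ofNat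 995494115⟩, ⟨.ofNat 238147360, .ofNat 332358683⟩, ⟨.negSucc 481589348, .ofNat 1048382697⟩⟩ ⟨.ofNat 79401, .ofNat 40414⟩ ⟨.negSucc 2169, .ofNat 14780⟩ ⟨.ofNat 1, .ofNat 2⟩ 34 (.leaf 13 [64, 0, 57, 57]) (.leaf 12 [64, 64, 64, 64, 57]))

/-- part of a tree -/
def t20 : Tree := .s01 ⟨⟨.ofNat 33, .negSucc 8⟩, ⟨.ofNat 7, .ofNat 9⟩, ⟨.ofNat 9, .negSucc 1⟩, ⟨.ofNat 5, .ofNat 2⟩⟩ ⟨.negSucc 8, .ofNat 10⟩ ⟨.ofNat 29, .negSucc 2⟩ ⟨.ofNat 12, .ofNat 28⟩ 27 t20_0 (.s03 ⟨⟨.negSucc 1055486, .ofNat 3606763⟩, ⟨.ofNat 934429, .ofNat 3164698⟩, ⟨.negSucc 239482, .ofNat 1044718⟩, ⟨.negSucc 1295839, .ofNat 2230269⟩⟩ ⟨.negSucc 1478, .ofNat 29620⟩ ⟨.ofNat 29, .negSucc 2⟩ ⟨.ofNat 0, .ofNat 1⟩ 28 (.s23 ⟨⟨.ofNat 12332942, .ofNat 893475⟩, ⟨.ofNat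 8647139, .ofNat 8444163⟩, ⟨.ofNat 3482827, .ofNat 1096451⟩, ⟨.ofNat 8850115, .negSucc 202975⟩⟩ ⟨.negSucc 1478, .ofNat 29620⟩ ⟨.negSucc 147, .ofNat 743⟩ ⟨.ofNat 5, .ofNat 10⟩ 33 (.leaf 13 [64, 62, 64, 0]) (.leaf 13 [64, 64, 0, 57, 0, 64, 0])) (.leaf 12 [64, 64, 10, 64, 64, 64, 64, 0]))

theorem g20 : Good (PE lin H) ⟨⟨.ofNat 58, .ofNat 26⟩, ⟨.ofNat 62, .ofNat 14⟩, ⟨.ofNat 25, .ofNat 1⟩, ⟨.ofNat 17, .ofNat 13⟩⟩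
    ⟨⟨.ofNat 14, .ofNat 0⟩, ⟨.ofNat 26, .ofNat 0⟩, ⟨.ofNat 9, .negSucc 1⟩, ⟨.ofNat 5, .ofNat 2⟩⟩
    ⟨⟨.negSucc 614, .ofNat 2470⟩, ⟨.ofNat 222, .ofNat 2743⟩, ⟨.negSucc 245, .ofNat 988⟩, ⟨.negSucc 368, .ofNat 1482⟩⟩
    ⟨⟨.ofNat 102400, .ofNat 15725⟩, ⟨.ofNat 106699, .ofNat 84185⟩, ⟨.ofNat 36864, .ofNat 5661⟩, ⟨.ofNat 65536, .ofNat 10064⟩⟩ :=
  goodE lin H t20 2 35 29 35 (by decide +kernel)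

end

end Pool.Agent.PHCert.E3
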