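import Pool.Agent.PHCert.E3H

/-!
# PHCert: inequality E3, part 5 (70 leaves, checked by the kernel)
-/

set_option autoImplicit false

namespace Pool.Agent.PHCert.E3

open Zp Pool.Agent.PHCert

noncomputable section

/-- part of a tree -/
def t22_1 : Tree := .s13 ⟨⟨.ofNat 28163, .ofNat 6722⟩, ⟨.ofNat 21584, .ofNat 24281⟩, ⟨.ofNat 9276, .ofNat 4025⟩, ⟨.ofNat 18887, .ofNat 2697⟩⟩ ⟨.negSucc 147, .ofNat 743⟩ ⟨.negSucc 8, .ofNat 10⟩ ⟨.ofNat 1, .ofNat 0⟩ 31 (.s12 ⟨⟨.ofNat 21462, .ofNat 205037⟩, ⟨.negSucc 45941, .ofNat 344963⟩, ⟨.negSucc 4283, .ofNat 96250⟩, ⟨.ofNat 25746, .ofNat 108787⟩⟩ ⟨.ofNat 17, .ofNat 5⟩ ⟨.negSucc 22810, .ofNat 56021⟩ ⟨.ofNat 1, .ofNat 2⟩ 30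 (.s02 ⟨⟨.ofNat 43, .ofNat 13⟩, ⟨.ofNat 27, .ofNat 32⟩, ⟨.ofNat 14, .ofNat 9⟩, ⟨.ofNat 57, .negSucc 14⟩⟩ ⟨.ofNat 1, .ofNat 0⟩ ⟨.negSucc 4, .ofNat 10⟩ ⟨.ofNat 0, .ofNat 1⟩ 28 (.s23 ⟨⟨.ofNat 4142, .ofNat 538⟩, ⟨.negSucc 351, .ofNat 4177⟩, ⟨.ofNat 758, .ofNat 943⟩, ⟨.ofNat 3384, .negSucc 404⟩⟩ ⟨.ofNat 837, .ofNat 273⟩ ⟨.ofNat 1, .ofNat 0⟩ ⟨.ofNat 1, .ofNat 1⟩ 29 (.leaf 12 [64, 64, 0]) (.s12 ⟨⟨.negSucc 5258, .ofNat 32251⟩, ⟨.ofNat 2199, .ofNat 36499⟩, ⟨.negSucc 611, .ofNat 13750⟩, ⟨.negSucc 4646, .ofNat 18501⟩⟩ ⟨.ofNat 1, .ofNat 0⟩ ⟨.negSucc 3059, .ofNat 68750⟩ ⟨.ofNat 17, .ofNat 5⟩ 29 (.leaf 11 [13]) (.leaf 11 [0]))) (.leaf 12 [64, 64, 64, 64, 48, 0, 0])) (.leaf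 12 [64, 64, 64, 64, 0, 0])) (.s23 ⟨⟨.ofNat 21462, .ofNat 205037⟩, ⟨.negSucc 45941, .ofNat 344963⟩, ⟨.negSucc 4283, .ofNat 96250⟩, ⟨.ofNat 25746, .ofNat 108787⟩⟩ ⟨.negSucc 22810, .ofNat 56021⟩ ⟨.ofNat 17, .ofNat 5⟩ ⟨.ofNat 1, .ofNat 2⟩ 30 (.s12 ⟨⟨.ofNat 217819, .ofNat 86842⟩, ⟨.ofNat 142957, .ofNat 244078⟩, ⟨.ofNat 175983, .negSucc 14278⟩, ⟨.ofNat 41836, .ofNat 101121⟩⟩ ⟨.negSucc 22810, .ofNat 56021⟩ ⟨.ofNat 1, .ofNat 11⟩ ⟨.ofNat 5, .ofNat 10⟩ 31 (.leaf 12 [64, 64, 64, 64]) (.leaf 12 [64, 64, 64, 64, 58])) (.s12 ⟨⟨.ofNat 6, .negSucc 0⟩, ⟨.ofNat 3, .ofNat 2⟩, ⟨.ofNat 2, .ofNat 0⟩, ⟨.ofNat 4, .negSucc 0⟩⟩ ⟨.ofNat 1, .ofNat 1⟩ ⟨.ofNat 10, .ofNat 1⟩ ⟨.ofNat 14, .ofNat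 9⟩ 30 (.s02 ⟨⟨.ofNat 43, .ofNat 13⟩, ⟨.ofNat 27, .ofNat 32⟩, ⟨.ofNat 14, .ofNat 9⟩, ⟨.ofNat 57, .negSucc 14⟩⟩ ⟨.ofNat 1, .ofNat 0⟩ ⟨.negSucc 4, .ofNat 10⟩ ⟨.ofNat 0, .ofNat 1⟩ 28 (.s23 ⟨⟨.negSucc 5258, .ofNat 32251⟩, ⟨.ofNat 2199, .ofNat 36499⟩, ⟨.negSucc 611, .ofNat 13750⟩, ⟨.negSucc 4646, .ofNat 18501⟩⟩ ⟨.negSucc 3059, .ofNat 68750⟩ ⟨.ofNat 1, .ofNat 0⟩ ⟨.ofNat 17, .ofNat 5⟩ 29 (.leaf 11 []) (.s12 ⟨⟨.ofNat 4, .ofNat 1⟩, ⟨.ofNat 1, .ofNat 4⟩, ⟨.ofNat 1, .ofNat 1⟩, ⟨.ofNat 3, .ofNat 0⟩⟩ ⟨.ofNat 1, .ofNat 0⟩ ⟨.negSucc 0, .ofNat 1⟩ ⟨.ofNat 0, .ofNat 1⟩ 29 (.leaf 11 []) (.leaf 11 []))) (.leaf 11 [64, 64, 64, 64, 51])) (.s12 ⟨⟨.ofNat 38, .ofNat 2⟩, ⟨.ofNat 2, .ofNat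 38⟩, ⟨.ofNat 7, .ofNat 7⟩, ⟨.ofNat 31, .negSucc 4⟩⟩ ⟨.ofNat 10, .ofNat 3⟩ ⟨.ofNat 0, .ofNat 80⟩ ⟨.ofNat 1, .ofNat 11⟩ 31 (.s13 ⟨⟨.ofNat 47, .ofNat 7⟩, ⟨.ofNat 33, .ofNat 33⟩, ⟨.ofNat 14, .ofNat 7⟩, ⟨.ofNat 33, .ofNat 0⟩⟩ ⟨.negSucc 22810, .ofNat 56021⟩ ⟨.ofNat 10, .ofNat 3⟩ ⟨.negSucc 12224, .ofNat 92790⟩ 30 (.leaf 12 [64, 64, 64, 64, 64]) (.leaf 12 [64, 64, 64, 64, 64])) (.s13 ⟨⟨.ofNat 217819, .ofNat 86842⟩, ⟨.ofNat 142957, .ofNat 244078⟩, ⟨.ofNat 175983, .negSucc 14278⟩, ⟨.ofNat 41836, .ofNat 101121⟩⟩ ⟨.negSucc 22810, .ofNat 56021⟩ ⟨.ofNat 1, .ofNat 11⟩ ⟨.ofNat 5, .ofNat 10⟩ 31 (.s23 ⟨⟨.ofNat 47, .ofNat 7⟩, ⟨.ofNat 33, .ofNat 33⟩, ⟨.ofNat 14, .ofNat 7⟩, ⟨.ofNat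 33, .ofNat 0⟩⟩ ⟨.negSucc 22810, .ofNat 56021⟩ ⟨.ofNat 10, .ofNat 3⟩ ⟨.negSucc 12224, .ofNat 92790⟩ 30 (.leaf 12 [64, 64, 64, 64]) (.leaf 12 [64, 64, 64, 64])) (.leaf 12 [64, 64, 64, 64, 55])))))

/-- part of a tree -/
def t22_0 : Tree := .s01 ⟨⟨.ofNat 33, .negSucc 8⟩, ⟨.ofNat 7, .ofNat 9⟩, ⟨.ofNat 9, .negSucc 1⟩, ⟨.ofNat 5, .ofNat 2⟩⟩ ⟨.negSucc 8, .ofNat 10⟩ ⟨.ofNat 29, .negSucc 2⟩ ⟨.ofNat 12, .ofNat 28⟩ 27 t22_1 (.s12 ⟨⟨.ofNat 43, .ofNat 13⟩, ⟨.ofNat 27, .ofNat 32⟩, ⟨.ofNat 14, .ofNat 9⟩, ⟨.ofNat 57, .negSucc 14⟩⟩ ⟨.ofNat 1, .ofNat 0⟩ ⟨.negSucc 4, .ofNat 10⟩ ⟨.ofNat 0, .ofNat 1⟩ 28 (.s02 ⟨⟨.ofNat 203, .ofNat 63⟩, ⟨.ofNat 52, .ofNat 187⟩, ⟨.ofNat 51, .ofNat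 50⟩, ⟨.ofNat 156, .negSucc 2⟩⟩ ⟨.ofNat 1, .ofNat 0⟩ ⟨.negSucc 4, .ofNat 35⟩ ⟨.ofNat 0, .ofNat 1⟩ 27 (.s23 ⟨⟨.ofNat 4142, .ofNat 538⟩, ⟨.negSucc 351, .ofNat 4177⟩, ⟨.ofNat 758, .ofNat 943⟩, ⟨.ofNat 3384, .negSucc 404⟩⟩ ⟨.ofNat 837, .ofNat 273⟩ ⟨.ofNat 1, .ofNat 0⟩ ⟨.ofNat 1, .ofNat 1⟩ 29 (.leaf 11 [53, 64, 0]) (.leaf 11 [13])) (.leaf 12 [37, 47, 64, 64, 64, 64, 0, 0])) (.leaf 12 [37, 47, 64, 64, 64, 64, 0, 0]))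

/-- part of a tree -/
def t22 : Tree := .s12 ⟨⟨.ofNat 6, .ofNat 1⟩, ⟨.ofNat 3, .ofNat 4⟩, ⟨.ofNat 2, .ofNat 1⟩, ⟨.ofNat 4, .ofNat 0⟩⟩ ⟨.ofNat 1, .ofNat 0⟩ ⟨.negSucc 4, .ofNat 14⟩ ⟨.ofNat 0, .ofNat 4⟩ 28 (.s23 ⟨⟨.negSucc 633, .ofNat 2045⟩, ⟨.ofNat 767, .ofNat 1481⟩, ⟨.ofNat 53, .ofNat 714⟩, ⟨.negSucc 686, .ofNat 1331⟩⟩ ⟨.ofNat 1013, .ofNat 493⟩ ⟨.ofNat 1, .ofNat 0⟩ ⟨.ofNat 1, .ofNat 1⟩ 28 (.s01 ⟨⟨.ofNat 203, .ofNat 63⟩, ⟨.ofNat 52, .ofNat 187⟩, ⟨.ofNat 51, .ofNat 50⟩, ⟨.ofNat 156, .negSucc 2⟩⟩ ⟨.ofNat 1, .ofNat 0⟩ ⟨.negSucc 4, .ofNat 35⟩ ⟨.ofNat 0, .ofNat 1⟩ 27 (.s13 ⟨⟨.ofNat 4142, .ofNat 538⟩, ⟨.negSucc 351, .ofNat 4177⟩, ⟨.ofNat 758, .ofNat 943⟩, ⟨.ofNat 3384,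 .negSucc 404⟩⟩ ⟨.ofNat 837, .ofNat 273⟩ ⟨.ofNat 1, .ofNat 0⟩ ⟨.ofNat 1, .ofNat 1⟩ 29 (.leaf 11 [64, 6, 64, 24]) (.leaf 11 [43, 0])) (.leaf 11 [64, 64, 64, 64, 64, 0, 64, 42, 0])) (.s02 ⟨⟨.ofNat 2, .ofNat 6⟩, ⟨.negSucc 6, .ofNat 11⟩, ⟨.negSucc 1, .ofNat 4⟩, ⟨.ofNat 10, .negSucc 2⟩⟩ ⟨.negSucc 0, .ofNat 1⟩ ⟨.ofNat 32, .negSucc 0⟩ ⟨.ofNat 4, .ofNat 4⟩ 1 (.leaf 11 [64, 64, 0, 43, 0]) (.s01 ⟨⟨.ofNat 104, .ofNat 95⟩, ⟨.ofNat 359, .negSucc 51⟩, ⟨.ofNat 113, .negSucc 8⟩, ⟨.negSucc 68, .ofNat 116⟩⟩ ⟨.ofNat 3, .ofNat 0⟩ ⟨.negSucc 0, .ofNat 31⟩ ⟨.ofNat 1, .ofNat 1⟩ 26 (.leaf 11 [64, 31, 61, 24, 0]) (.leaf 11 [64, 64, 0, 64, 64, 64, 0, 64, 42, 0])))) t22_0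

theorem g22 : Good (PE lin H) ⟨⟨.ofNat 58, .ofNat 26⟩, ⟨.ofNat 62, .ofNat 14⟩, ⟨.ofNat 25, .ofNat 1⟩, ⟨.ofNat 17, .ofNat 13⟩⟩
    ⟨⟨.ofNat 14, .ofNat 0⟩, ⟨.ofNat 26, .ofNat 0⟩, ⟨.ofNat 9, .negSucc 1⟩, ⟨.ofNat 5, .ofNat 2⟩⟩
    ⟨⟨.ofNat 2, .ofNat 0⟩, ⟨.ofNat 2, .ofNat 0⟩, ⟨.ofNat 1, .ofNat 0⟩, ⟨.ofNat 1, .ofNat 0⟩⟩
    ⟨⟨.negSucc 614, .ofNat 2470⟩, ⟨.ofNat 222, .ofNat 2743⟩, ⟨.negSucc 245, .ofNat 988⟩, ⟨.negSucc 368, .ofNat 1482⟩⟩ :=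
  goodE lin H t22 2 35 0 29 (by decide +kernel)

/-- part of a tree -/
def t24 : Tree := .s23 ⟨⟨.ofNat 102400, .ofNat 15725⟩, ⟨.ofNat 106699, .ofNat 84185⟩, ⟨.ofNat 36864, .ofNat 5661⟩, ⟨.ofNat 65536, .ofNat 10064⟩⟩ ⟨.negSucc 420, .ofNat 2731⟩ ⟨.ofNat 99, .negSucc 49⟩ ⟨.negSucc 0, .ofNat 1⟩ 35 (.s13 ⟨⟨.negSucc 198, .ofNat 965⟩, ⟨.negSucc 750, .ofNat 2750⟩, ⟨.negSucc 8, .ofNat 222⟩, ⟨.negSucc 189, .ofNat 743⟩⟩ ⟨.ofNat 314, .ofNat 116⟩ ⟨.ofNat 3, .ofNat 0⟩ ⟨.ofNat 2, .ofNat 3⟩ 40 (.s03 ⟨⟨.negSucc 121965, .ofNat 325194⟩, ⟨.ofNat 53274, .ofNat 299662⟩, ⟨.negSucc 44134, .ofNat 90419⟩, ⟨.negSucc 94574, .ofNat 193755⟩⟩ ⟨.negSucc 76, .ofNat 1498⟩ ⟨.ofNat 256, .negSucc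 75⟩ ⟨.ofNat 1, .ofNat 0⟩ 29 (.s23 ⟨⟨.ofNat 45056, .ofNat 6919⟩, ⟨.ofNat 39281, .ofNat 44299⟩, ⟨.ofNat 12288, .ofNat 1887⟩, ⟨.ofNat 32768, .ofNat 5032⟩⟩ ⟨.ofNat 121, .ofNat 257⟩ ⟨.ofNat 98304, .ofNat 15096⟩ ⟨.negSucc 420, .ofNat 2731⟩ 36 (.leaf 16 [64, 0, 0, 0, 54, 0]) (.leaf 15 [64, 0, 64, 0, 0])) (.leaf 14 [64, 0, 0, 64, 0])) (.s12 ⟨⟨.negSucc 100977, .ofNat 314445⟩, ⟨.negSucc 32421, .ofNat 612435⟩, ⟨.negSucc 74297, .ofNat 129069⟩, ⟨.negSucc 26679, .ofNat 185376⟩⟩ ⟨.ofNat 22997, .ofNat 6467⟩ ⟨.negSucc 0, .ofNat 4⟩ ⟨.ofNat 1, .ofNat 1⟩ 39 (.leaf 14 [64, 0, 0, 64, 0]) (.leaf 15 [10, 0, 64, 64, 0, 64, 0]))) (.s02 ⟨⟨.ofNat 7, .ofNat 5⟩, ⟨.ofNat 33, .negSucc 4⟩,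 ⟨.ofNat 9, .negSucc 1⟩, ⟨.ofNat 5, .ofNat 2⟩⟩ ⟨.negSucc 6, .ofNat 5⟩ ⟨.ofNat 32, .negSucc 0⟩ ⟨.ofNat 16, .ofNat 12⟩ 33 (.s12 ⟨⟨.ofNat 1, .ofNat 1⟩, ⟨.ofNat 4, .ofNat 1⟩, ⟨.ofNat 1, .ofNat 0⟩, ⟨.ofNat 0, .ofNat 1⟩⟩ ⟨.negSucc 1, .ofNat 3⟩ ⟨.ofNat 5, .ofNat 2⟩ ⟨.ofNat 35, .ofNat 13⟩ 38 (.leaf 13 [0, 63, 64]) (.s13 ⟨⟨.negSucc 100977, .ofNat 314445⟩, ⟨.negSucc 32421, .ofNat 612435⟩, ⟨.negSucc 74297, .ofNat 129069⟩, ⟨.negSucc 26679, .ofNat 185376⟩⟩ ⟨.ofNat 22997, .ofNat 6467⟩ ⟨.negSucc 0, .ofNat 4⟩ ⟨.ofNat 1, .ofNat 1⟩ 39 (.leaf 13 [0, 54]) (.leaf 14 [0, 0, 25, 0]))) (.s13 ⟨⟨.negSucc 100977, .ofNat 314445⟩, ⟨.negSucc 32421, .ofNat 612435⟩, ⟨.negSucc 74297, .ofNat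 129069⟩, ⟨.negSucc 26679, .ofNat 185376⟩⟩ ⟨.ofNat 22997, .ofNat 6467⟩ ⟨.negSucc 0, .ofNat 4⟩ ⟨.ofNat 1, .ofNat 1⟩ 39 (.leaf 13 [12, 8, 64, 0]) (.leaf 14 [64, 0, 0, 64, 0, 25, 0])))

theorem g24 : Good (PE lin H) ⟨⟨.ofNat 58, .ofNat 26⟩, ⟨.ofNat 62, .ofNat 14⟩, ⟨.ofNat 25, .ofNat 1⟩, ⟨.ofNat 17, .ofNat 13⟩⟩
    ⟨⟨.ofNat 11, .ofNat 0⟩, ⟨.ofNat 11, .ofNat 15⟩, ⟨.ofNat 3, .ofNat 0⟩, ⟨.ofNat 8, .ofNat 0⟩⟩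
    ⟨⟨.ofNat 14, .ofNat 0⟩, ⟨.ofNat 26, .ofNat 0⟩, ⟨.ofNat 9, .negSucc 1⟩, ⟨.ofNat 5, .ofNat 2⟩⟩
    ⟨⟨.negSucc 318, .ofNat 984⟩, ⟨.ofNat 518, .ofNat 1257⟩, ⟨.negSucc 97, .ofNat 245⟩, ⟨.negSucc 220, .ofNat 739⟩⟩ :=
  goodE lin H t24 2 41 35 37 (by decide +kernel)

/-- part of a tree -/
def t26 : Tree := .s03 ⟨⟨.ofNat 2644, .ofNat 571⟩, ⟨.ofNat 1221, .ofNat 1669⟩, ⟨.ofNat 417, .negSucc 26⟩, ⟨.ofNat 773, .ofNat 448⟩⟩ ⟨.ofNat 314, .ofNat 116⟩ ⟨.negSucc 0, .ofNat 2⟩ ⟨.ofNat 1, .ofNat 1⟩ 27 (.s13 ⟨⟨.negSucc 198, .ofNat 965⟩, ⟨.negSucc 750, .ofNat 2750⟩, ⟨.negSucc 8, .ofNat 222⟩, ⟨.negSucc 189, .ofNat 743⟩⟩ ⟨.ofNat 314, .ofNat 116⟩ ⟨.ofNat 3, .ofNat 0⟩ ⟨.ofNat 2,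 .ofNat 3⟩ 40 (.s02 ⟨⟨.ofNat 196695, .negSucc 35560⟩, ⟨.ofNat 703, .ofNat 87570⟩, ⟨.ofNat 18777, .ofNat 1551⟩, ⟨.ofNat 50072, .ofNat 4136⟩⟩ ⟨.negSucc 30, .ofNat 118⟩ ⟨.ofNat 1560, .ofNat 543⟩ ⟨.ofNat 1, .ofNat 3⟩ 26 (.s23 ⟨⟨.negSucc 121965, .ofNat 325194⟩, ⟨.ofNat 53274, .ofNat 299662⟩, ⟨.negSucc 44134, .ofNat 90419⟩, ⟨.negSucc 94574, .ofNat 193755⟩⟩ ⟨.negSucc 76, .ofNat 1498⟩ ⟨.ofNat 256, .negSucc 75⟩ ⟨.ofNat 1, .ofNat 0⟩ 29 (.leaf 16 [64, 0, 0, 0, 54, 0]) (.leaf 14 [64, 0, 0, 64, 0])) (.leaf 16 [64, 0, 0, 54, 0])) (.leaf 15 [10, 0, 64, 64, 0, 64, 0])) (.leaf 15 [10, 0, 64, 64, 64, 0, 64, 0])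

theorem g26 : Good (PE lin H) ⟨⟨.ofNat 0, .ofNat 8⟩, ⟨.ofNat 1, .ofNat 5⟩, ⟨.negSucc 0, .ofNat 1⟩, ⟨.negSucc 2, .ofNat 4⟩⟩
    ⟨⟨.ofNat 11, .ofNat 0⟩, ⟨.ofNat 11, .ofNat 15⟩, ⟨.ofNat 3, .ofNat 0⟩, ⟨.ofNat 8, .ofNat 0⟩⟩
    ⟨⟨.ofNat 58, .ofNat 26⟩, ⟨.ofNat 62, .ofNat 14⟩, ⟨.ofNat 25, .ofNat 1⟩, ⟨.ofNat 17, .ofNat 13⟩⟩
    ⟨⟨.negSucc 318, .ofNat 984⟩, ⟨.ofNat 518, .ofNat 1257⟩, ⟨.negSucc 97, .ofNat 245⟩, ⟨.negSucc 220, .ofNat 739⟩⟩ :=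
  goodE lin H t26 4 41 2 37 (by decide +kernel)

/-- part of a tree -/
def t28_2 : Tree := .s12 ⟨⟨.ofNat 58, .ofNat 26⟩, ⟨.ofNat 62, .ofNat 14⟩, ⟨.ofNat 25, .ofNat 1⟩, ⟨.ofNat 17, .ofNat 13⟩⟩ ⟨.ofNat 0, .ofNat 4⟩ ⟨.negSucc 2, .ofNat 26⟩ ⟨.ofNat 0, .ofNat 1⟩ 2 (.s02 ⟨⟨.ofNat 26, .ofNat 0⟩, ⟨.ofNat 14, .ofNat 0⟩, ⟨.ofNat 9, .negSucc 1⟩, ⟨.ofNat 5, .ofNat 2⟩⟩ ⟨.ofNat 0, .ofNat 1⟩ ⟨.ofNat 14, .ofNat 3⟩ ⟨.ofNat 2, .ofNat 2⟩ 9 (.s23 ⟨⟨.ofNat 3301620, .ofNat 1165214⟩, ⟨.negSucc 1555859, .ofNat 3728666⟩, ⟨.ofNat 305508, .ofNat 856429⟩, ⟨.negSucc 1765103, .ofNat 2474833⟩⟩ ⟨.negSucc 572542, .ofNat 1446805⟩ ⟨.negSucc 11, .ofNat 12⟩ ⟨.ofNat 0, .ofNat 1⟩ 1 (.leaf 13 [64,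 62, 64, 0, 0]) (.s02 ⟨⟨.ofNat 2, .ofNat 38⟩, ⟨.ofNat 38, .ofNat 2⟩, ⟨.ofNat 7, .ofNat 7⟩, ⟨.ofNat 31, .negSucc 4⟩⟩ ⟨.ofNat 0, .ofNat 3⟩ ⟨.ofNat 20, .ofNat 0⟩ ⟨.ofNat 1, .ofNat 1⟩ 5 (.s12 ⟨⟨.ofNat 2, .ofNat 6⟩, ⟨.negSucc 6, .ofNat 11⟩, ⟨.negSucc 1, .ofNat 4⟩, ⟨.ofNat 10, .negSucc 2⟩⟩ ⟨.negSucc 0, .ofNat 1⟩ ⟨.ofNat 32, .negSucc 0⟩ ⟨.ofNat 4, .ofNat 4⟩ 1 (.s02 ⟨⟨.ofNat 3, .ofNat 4⟩, ⟨.ofNat 6, .ofNat 1⟩, ⟨.ofNat 2, .ofNat 1⟩, ⟨.ofNat 4, .ofNat 0⟩⟩ ⟨.ofNat 1, .ofNat 0⟩ ⟨.ofNat 17, .ofNat 5⟩ ⟨.ofNat 12, .ofNat 0⟩ 2 (.leaf 11 [0, 36, 64, 64, 0, 64]) (.s01 ⟨⟨.ofNat 90, .ofNat 192⟩, ⟨.ofNat 275, .ofNat 9⟩, ⟨.ofNat 82, .ofNat 27⟩, ⟨.negSucc 11, .ofNat 102⟩⟩ ⟨.ofNat 1,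 .ofNat 4⟩ ⟨.ofNat 10, .ofNat 3⟩ ⟨.ofNat 0, .ofNat 1⟩ 4 (.leaf 11 [64, 43]) (.s03 ⟨⟨.ofNat 3116, .ofNat 16260⟩, ⟨.negSucc 275, .ofNat 13140⟩, ⟨.ofNat 497, .ofNat 5145⟩, ⟨.negSucc 10027, .ofNat 13144⟩⟩ ⟨.negSucc 572542, .ofNat 1446805⟩ ⟨.negSucc 6, .ofNat 10⟩ ⟨.ofNat 1764, .ofNat 2268⟩ 4 (.leaf 11 [64, 39]) (.s02 ⟨⟨.ofNat 3, .ofNat 2⟩, ⟨.ofNat 6, .negSucc 0⟩, ⟨.ofNat 2, .ofNat 0⟩, ⟨.ofNat 4, .negSucc 0⟩⟩ ⟨.ofNat 1, .ofNat 1⟩ ⟨.negSucc 6, .ofNat 10⟩ ⟨.ofNat 5, .ofNat 22⟩ 4 (.leaf 11 [21]) (.leaf 11 []))))) (.leaf 12 [64, 64, 64, 64, 27])) (.leaf 12 [64, 64, 64, 2]))) (.s23 ⟨⟨.negSucc 2722998, .ofNat 4665740⟩, ⟨.ofNat 307484, .ofNat 1515383⟩, ⟨.negSucc 900414, .ofNat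 1207899⟩, ⟨.ofNat 1092504, .ofNat 298433⟩⟩ ⟨.ofNat 179134, .ofNat 47464⟩ ⟨.ofNat 5, .negSucc 1⟩ ⟨.ofNat 0, .ofNat 1⟩ 8 (.leaf 13 [0]) (.s12 ⟨⟨.ofNat 33, .negSucc 4⟩, ⟨.ofNat 7, .ofNat 5⟩, ⟨.ofNat 9, .negSucc 1⟩, ⟨.ofNat 5, .ofNat 2⟩⟩ ⟨.ofNat 5, .negSucc 1⟩ ⟨.negSucc 12, .ofNat 23⟩ ⟨.ofNat 0, .ofNat 20⟩ 7 (.s02 ⟨⟨.ofNat 4, .ofNat 1⟩, ⟨.ofNat 1, .ofNat 1⟩, ⟨.ofNat 1, .ofNat 0⟩, ⟨.ofNat 0, .ofNat 1⟩⟩ ⟨.negSucc 1, .ofNat 3⟩ ⟨.ofNat 8, .ofNat 1⟩ ⟨.ofNat 56, .ofNat 12⟩ 12 (.leaf 12 [47]) (.leaf 13 [0])) (.leaf 13 [0])))) (.leaf 14 [64, 64, 0, 59, 0])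

/-- part of a tree -/
def t28_1 : Tree := .s03 ⟨⟨.ofNat 131102, .ofNat 323627⟩, ⟨.negSucc 60066, .ofNat 346079⟩, ⟨.negSucc 23738, .ofNat 95342⟩, ⟨.negSucc 61422, .ofNat 192525⟩⟩ ⟨.ofNat 9011, .ofNat 1490⟩ ⟨.ofNat 7, .ofNat 9⟩ ⟨.ofNat 0, .ofNat 1⟩ 3 (.s12 ⟨⟨.negSucc 1, .ofNat 10⟩, ⟨.ofNat 3, .ofNat 6⟩, ⟨.ofNat 0, .ofNat 3⟩, ⟨.negSucc 6, .ofNat 8⟩⟩ ⟨.ofNat 2, .negSucc 0⟩ ⟨.ofNat 3, .ofNat 1⟩ ⟨.ofNat 1, .ofNat 0⟩ 1 (.s23 ⟨⟨.negSucc 633, .ofNat 2045⟩, ⟨.ofNat 767, .ofNat 1481⟩, ⟨.ofNat 53, .ofNat 714⟩, ⟨.negSucc 686, .ofNat 1331⟩⟩ ⟨.negSucc 554, .ofNat 6476⟩ ⟨.negSucc 0, .ofNat 1⟩ ⟨.ofNat 0, .ofNat 7⟩ 28 (.s02 ⟨⟨.negSucc 888768531, .ofNat 2029517134⟩, ⟨.ofNat 860805332,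 .ofNat 976772746⟩, ⟨.negSucc 4893559, .ofNat 526100729⟩, ⟨.negSucc 769756291, .ofNat 1191390137⟩⟩ ⟨.ofNat 2689, .ofNat 1189⟩ ⟨.negSucc 572542, .ofNat 1446805⟩ ⟨.ofNat 0, .ofNat 2⟩ 26 (.s23 ⟨⟨.negSucc 9985, .ofNat 16784⟩, ⟨.ofNat 6826, .ofNat 10016⟩, ⟨.negSucc 552, .ofNat 4690⟩, ⟨.negSucc 9432, .ofNat 12094⟩⟩ ⟨.ofNat 42243, .ofNat 8437⟩ ⟨.ofNat 1189, .ofNat 3878⟩ ⟨.ofNat 6476, .ofNat 5921⟩ 29 (.leaf 12 [64, 0, 64, 52, 0, 64, 8]) (.leaf 12 [64, 64, 25, 64, 0])) (.leaf 13 [53, 64, 64, 64, 0, 0, 0])) (.s02 ⟨⟨.ofNat 132943, .ofNat 311523⟩, ⟨.negSucc 271846, .ofNat 525144⟩, ⟨.negSucc 45636, .ofNat 178580⟩, ⟨.negSucc 218187, .ofNat 313447⟩⟩ ⟨.negSucc 2, .ofNat 2⟩ ⟨.negSucc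 37683, .ofNat 97183⟩ ⟨.negSucc 0, .ofNat 1⟩ 1 (.leaf 11 [64, 64, 8, 0, 64, 0]) (.s03 ⟨⟨.ofNat 127923715, .ofNat 141920299⟩, ⟨.ofNat 382772857, .negSucc 830323⟩, ⟨.ofNat 113927131, .ofNat 13996584⟩, ⟨.ofNat 201426084, .negSucc 13484896⟩⟩ ⟨.ofNat 3366, .negSucc 1964⟩ ⟨.negSucc 37683, .ofNat 97183⟩ ⟨.negSucc 1, .ofNat 2⟩ 26 (.leaf 11 [64, 64, 10, 8, 64, 0]) (.leaf 12 [0, 64, 22, 64, 64, 64, 0, 0])))) (.leaf 14 [0, 64, 64, 64, 64, 64, 64, 5, 64, 64, 64, 0, 0])) t28_2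

/-- part of a tree -/
def t28_0 : Tree := .s23 ⟨⟨.negSucc 3074, .ofNat 12350⟩, ⟨.ofNat 2784, .ofNat 14261⟩, ⟨.negSucc 1106, .ofNat 4446⟩, ⟨.negSucc 1967, .ofNat 7904⟩⟩ ⟨.negSucc 420, .ofNat 2731⟩ ⟨.ofNat 7, .ofNat 0⟩ ⟨.ofNat 1, .ofNat 0⟩ 31 (.s03 ⟨⟨.ofNat 17659, .ofNat 13930⟩, ⟨.ofNat 35926, .negSucc 2572⟩, ⟨.ofNat 9807, .negSucc 2428⟩, ⟨.ofNat 21388, .negSucc 3728⟩⟩ ⟨.ofNat 837, .ofNat 273⟩ ⟨.ofNat 7, .ofNat 9⟩ ⟨.ofNat 1, .ofNat 1⟩ 2 (.s12 ⟨⟨.negSucc 51340, .ofNat 147323⟩, ⟨.negSucc 292, .ofNat 110588⟩, ⟨.negSucc 27740, .ofNat 33699⟩, ⟨.negSucc 73975, .ofNat 89864⟩⟩ ⟨.negSucc 2951, .ofNat 11856⟩ ⟨.negSucc 0, .ofNat 4⟩ ⟨.ofNat 0, .ofNat 1⟩ 0 (.s23 ⟨⟨.negSucc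 2705, .ofNat 10868⟩, ⟨.ofNat 3990, .ofNat 13052⟩, ⟨.negSucc 860, .ofNat 3458⟩, ⟨.negSucc 1844, .ofNat 7410⟩⟩ ⟨.negSucc 76, .ofNat 1498⟩ ⟨.negSucc 2828, .ofNat 11362⟩ ⟨.negSucc 420, .ofNat 2731⟩ 34 (.leaf 16 [64, 0, 41, 64, 64, 64, 64, 64]) (.leaf 15 [64, 64, 64, 64, 64, 64, 64, 31])) (.leaf 16 [64, 0, 64, 64, 64, 64, 64, 64, 13])) (.s02 ⟨⟨.ofNat 131102, .ofNat 323627⟩, ⟨.negSucc 60066, .ofNat 346079⟩, ⟨.negSucc 23738, .ofNat 95342⟩, ⟨.negSucc 61422, .ofNat 192525⟩⟩ ⟨.ofNat 9011, .ofNat 1490⟩ ⟨.ofNat 7, .ofNat 9⟩ ⟨.ofNat 0, .ofNat 1⟩ 3 (.leaf 15 [31, 64, 64, 64, 64, 64, 64, 64, 64, 0]) (.leaf 15 [64, 46, 0, 64, 0]))) t28_1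

/-- part of a tree -/
def t28 : Tree := .s02 ⟨⟨.ofNat 22, .ofNat 24⟩, ⟨.ofNat 22, .ofNat 0⟩, ⟨.ofNat 7, .ofNat 0⟩, ⟨.ofNat 15, .ofNat 0⟩⟩ ⟨.ofNat 8, .ofNat 0⟩ ⟨.ofNat 7, .ofNat 0⟩ ⟨.ofNat 1, .ofNat 0⟩ 14 t28_0 (.s03 ⟨⟨.ofNat 2315, .ofNat 1309⟩, ⟨.ofNat 2879, .ofNat 472⟩, ⟨.ofNat 686, .negSucc 195⟩, ⟨.ofNat 3321, .negSucc 1005⟩⟩ ⟨.ofNat 837, .ofNat 273⟩ ⟨.ofNat 0, .ofNat 2⟩ ⟨.ofNat 1, .ofNat 1⟩ 2 (.s23 ⟨⟨.ofNat 17659, .ofNat 13930⟩, ⟨.ofNat 35926, .negSucc 2572⟩, ⟨.ofNat 9807, .negSucc 2428⟩, ⟨.ofNat 21388, .negSucc 3728⟩⟩ ⟨.ofNat 837, .ofNat 273⟩ ⟨.ofNat 7, .ofNat 9⟩ ⟨.ofNat 1, .ofNat 1⟩ 2 (.leaf 17 [64, 0, 64, 64, 64, 64, 64, 64, 40]) (.leaf 16 [64, 64, 64,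 64, 0])) (.s02 ⟨⟨.ofNat 17, .ofNat 33⟩, ⟨.ofNat 17, .ofNat 0⟩, ⟨.ofNat 3, .ofNat 0⟩, ⟨.ofNat 14, .ofNat 0⟩⟩ ⟨.ofNat 53, .ofNat 0⟩ ⟨.ofNat 3, .ofNat 0⟩ ⟨.ofNat 7, .ofNat 0⟩ 17 (.leaf 16 [64, 30, 0, 0, 0]) (.leaf 18 [64, 0, 0, 0, 0])))

theorem g28 : Good (PE lin H) ⟨⟨.ofNat 1, .ofNat 3⟩, ⟨.ofNat 1, .ofNat 0⟩, ⟨.ofNat 0, .ofNat 0⟩, ⟨.ofNat 1, .ofNat 0⟩⟩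
    ⟨⟨.ofNat 0, .ofNat 8⟩, ⟨.ofNat 1, .ofNat 5⟩, ⟨.negSucc 0, .ofNat 1⟩, ⟨.negSucc 2, .ofNat 4⟩⟩
    ⟨⟨.ofNat 2, .ofNat 0⟩, ⟨.ofNat 2, .ofNat 0⟩, ⟨.ofNat 1, .ofNat 0⟩, ⟨.ofNat 1, .ofNat 0⟩⟩
    ⟨⟨.negSucc 318, .ofNat 984⟩, ⟨.ofNat 518, .ofNat 1257⟩, ⟨.negSucc 97, .ofNat 245⟩, ⟨.negSucc 220, .ofNat 739⟩⟩ :=
  goodE lin H t28 19 4 0 37 (by decide +kernel)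

end

end Pool.Agent.PHCert.E3
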