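import Pool.Agent.PHCert.E3H

/-!
# PHCert: inequality E3, part 6 (80 leaves, checked by the kernel)
-/

set_option autoImplicit false

namespace Pool.Agent.PHCert.E3

open Zp Pool.Agent.PHCert

noncomputable section

/-- part of a tree -/
def t31_1 : Tree := .s13 ⟨⟨.negSucc 9, .ofNat 27⟩, ⟨.negSucc 9, .ofNat 78⟩, ⟨.negSucc 5, .ofNat 6⟩, ⟨.negSucc 3, .ofNat 21⟩⟩ ⟨.ofNat 40, .ofNat 13⟩ ⟨.ofNat 0, .ofNat 3⟩ ⟨.ofNat 2, .ofNat 2⟩ 42 (.s12 ⟨⟨.negSucc 118, .ofNat 204⟩, ⟨.ofNat 547, .ofNat 99⟩, ⟨.negSucc 20, .ofNat 36⟩, ⟨.negSucc 97, .ofNat 168⟩⟩ ⟨.ofNat 0, .ofNat 6⟩ ⟨.negSucc 6, .ofNat 17⟩ ⟨.ofNat 1, .ofNat 1⟩ 41 (.s23 ⟨⟨.negSucc 106,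 .ofNat 221⟩, ⟨.ofNat 322, .ofNat 239⟩, ⟨.negSucc 149, .ofNat 129⟩, ⟨.ofNat 43, .ofNat 92⟩⟩ ⟨.ofNat 40, .ofNat 13⟩ ⟨.negSucc 2, .ofNat 12⟩ ⟨.ofNat 1, .ofNat 2⟩ 40 (.s13 ⟨⟨.ofNat 143, .ofNat 4317⟩, ⟨.negSucc 297, .ofNat 13953⟩, ⟨.ofNat 174, .ofNat 663⟩, ⟨.negSucc 30, .ofNat 3654⟩⟩ ⟨.ofNat 53, .ofNat 66⟩ ⟨.ofNat 225, .ofNat 69⟩ ⟨.ofNat 1, .ofNat 3⟩ 41 (.leaf 17 [64, 0, 29, 0]) (.leaf 17 [64, 60, 0, 0])) (.s02 ⟨⟨.ofNat 261, .ofNat 9⟩, ⟨.ofNat 207, .ofNat 198⟩, ⟨.ofNat 62, .negSucc 11⟩, ⟨.ofNat 217, .negSucc 41⟩⟩ ⟨.ofNat 0, .ofNat 1⟩ ⟨.negSucc 3, .ofNat 14⟩ ⟨.ofNat 0, .ofNat 1⟩ 35 (.s12 ⟨⟨.negSucc 62, .ofNat 108⟩, ⟨.ofNat 192, .ofNat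 108⟩, ⟨.negSucc 13, .ofNat 24⟩, ⟨.negSucc 48, .ofNat 84⟩⟩ ⟨.ofNat 0, .ofNat 5⟩ ⟨.ofNat 84, .ofNat 35⟩ ⟨.ofNat 0, .ofNat 18⟩ 41 (.leaf 16 [64, 55, 64]) (.leaf 17 [64, 60])) (.leaf 17 [64, 60, 0, 0]))) (.s23 ⟨⟨.ofNat 143, .ofNat 4317⟩, ⟨.negSucc 297, .ofNat 13953⟩, ⟨.ofNat 174, .ofNat 663⟩, ⟨.negSucc 30, .ofNat 3654⟩⟩ ⟨.ofNat 53, .ofNat 66⟩ ⟨.ofNat 225, .ofNat 69⟩ ⟨.ofNat 1, .ofNat 3⟩ 41 (.leaf 18 [64, 64, 0, 27, 0]) (.leaf 18 [64, 4, 0, 6]))) (.s12 ⟨⟨.ofNat 17, .ofNat 0⟩, ⟨.ofNat 17, .ofNat 33⟩, ⟨.ofNat 3, .ofNat 0⟩, ⟨.ofNat 14, .ofNat 0⟩⟩ ⟨.ofNat 6, .ofNat 0⟩ ⟨.ofNat 1, .ofNat 0⟩ ⟨.ofNat 1, .ofNat 0⟩ 43 (.s23 ⟨⟨.negSucc 118,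 .ofNat 204⟩, ⟨.ofNat 547, .ofNat 99⟩, ⟨.negSucc 20, .ofNat 36⟩, ⟨.negSucc 97, .ofNat 168⟩⟩ ⟨.negSucc 6, .ofNat 17⟩ ⟨.ofNat 0, .ofNat 6⟩ ⟨.ofNat 1, .ofNat 1⟩ 41 (.s01 ⟨⟨.negSucc 7184, .ofNat 18704⟩, ⟨.ofNat 29145, .ofNat 15416⟩, ⟨.negSucc 1136, .ofNat 2275⟩, ⟨.ofNat 3843, .ofNat 5971⟩⟩ ⟨.ofNat 140, .ofNat 49⟩ ⟨.ofNat 6, .ofNat 1007⟩ ⟨.ofNat 1, .ofNat 1⟩ 39 (.s13 ⟨⟨.negSucc 993, .ofNat 2045⟩, ⟨.negSucc 1605, .ofNat 6515⟩, ⟨.negSucc 538, .ofNat 547⟩, ⟨.negSucc 454, .ofNat 1498⟩⟩ ⟨.ofNat 85, .ofNat 190⟩ ⟨.negSucc 90, .ofNat 140⟩ ⟨.ofNat 0, .ofNat 3⟩ 42 (.leaf 18 [64]) (.s12 ⟨⟨.ofNat 17, .ofNat 0⟩, ⟨.ofNat 63, .ofNat 0⟩, ⟨.ofNat 3,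 .ofNat 0⟩, ⟨.ofNat 14, .ofNat 0⟩⟩ ⟨.ofNat 326, .negSucc 4⟩ ⟨.ofNat 20, .ofNat 7⟩ ⟨.ofNat 270, .ofNat 270⟩ 42 (.leaf 18 [64]) (.leaf 18 [64]))) (.leaf 18 [64, 0, 0, 7])) (.s02 ⟨⟨.ofNat 261, .ofNat 9⟩, ⟨.ofNat 207, .ofNat 198⟩, ⟨.ofNat 62, .negSucc 11⟩, ⟨.ofNat 217, .negSucc 41⟩⟩ ⟨.ofNat 0, .ofNat 1⟩ ⟨.negSucc 3, .ofNat 14⟩ ⟨.ofNat 0, .ofNat 1⟩ 35 (.s23 ⟨⟨.negSucc 62, .ofNat 108⟩, ⟨.ofNat 192, .ofNat 108⟩, ⟨.negSucc 13, .ofNat 24⟩, ⟨.negSucc 48, .ofNat 84⟩⟩ ⟨.ofNat 84, .ofNat 35⟩ ⟨.ofNat 0, .ofNat 5⟩ ⟨.ofNat 0, .ofNat 18⟩ 41 (.leaf 17 [64, 0, 41]) (.s12 ⟨⟨.ofNat 9, .ofNat 0⟩, ⟨.ofNat 9, .ofNat 15⟩, ⟨.ofNat 2, .ofNat 0⟩, ⟨.ofNat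 7, .ofNat 0⟩⟩ ⟨.ofNat 5, .ofNat 0⟩ ⟨.ofNat 7, .ofNat 0⟩ ⟨.ofNat 18, .ofNat 0⟩ 42 (.leaf 16 [64, 0, 43]) (.leaf 17 [64, 0, 37]))) (.leaf 17 [64, 0, 0, 41, 0]))) (.leaf 18 [64, 0, 0, 64, 23, 0]))

/-- part of a tree -/
def t31_0 : Tree := .s03 ⟨⟨.ofNat 63, .ofNat 53⟩, ⟨.ofNat 69, .ofNat 32⟩, ⟨.ofNat 8, .ofNat 0⟩, ⟨.ofNat 73, .negSucc 9⟩⟩ ⟨.negSucc 5, .ofNat 21⟩ ⟨.ofNat 0, .ofNat 2⟩ ⟨.ofNat 0, .ofNat 1⟩ 2 t31_1 (.s01 ⟨⟨.ofNat 0, .ofNat 1⟩, ⟨.ofNat 1, .ofNat 1⟩, ⟨.ofNat 0, .ofNat 0⟩, ⟨.negSucc 0, .ofNat 1⟩⟩ ⟨.ofNat 1, .ofNat 0⟩ ⟨.ofNat 2, .ofNat 0⟩ ⟨.ofNat 0, .ofNat 3⟩ 32 (.s12 ⟨⟨.ofNat 17, .ofNat 0⟩, ⟨.ofNat 17, .ofNat 33⟩, ⟨.ofNat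 3, .ofNat 0⟩, ⟨.ofNat 14, .ofNat 0⟩⟩ ⟨.ofNat 6, .ofNat 0⟩ ⟨.ofNat 1, .ofNat 0⟩ ⟨.ofNat 1, .ofNat 0⟩ 43 (.leaf 16 [64, 0, 0, 64, 0, 0]) (.leaf 18 [64, 0, 0, 0, 0, 0])) (.s02 ⟨⟨.negSucc 0, .ofNat 8⟩, ⟨.negSucc 1, .ofNat 11⟩, ⟨.negSucc 1, .ofNat 2⟩, ⟨.negSucc 9, .ofNat 9⟩⟩ ⟨.ofNat 11, .negSucc 2⟩ ⟨.ofNat 2, .ofNat 0⟩ ⟨.ofNat 0, .ofNat 3⟩ 29 (.leaf 16 [61, 49, 0, 64, 64, 0]) (.leaf 19 [64, 0, 64, 0, 0, 0])))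

/-- part of a tree -/
def t31 : Tree := .s13 ⟨⟨.ofNat 27, .negSucc 1⟩, ⟨.ofNat 21, .ofNat 19⟩, ⟨.ofNat 4, .ofNat 0⟩, ⟨.ofNat 23, .negSucc 1⟩⟩ ⟨.ofNat 159, .ofNat 35⟩ ⟨.ofNat 0, .ofNat 2⟩ ⟨.ofNat 21, .ofNat 15⟩ 38 (.s23 ⟨⟨.negSucc 318, .ofNat 984⟩, ⟨.ofNat 518, .ofNat 1257⟩, ⟨.negSucc 97, .ofNat 245⟩, ⟨.negSucc 220, .ofNat 739⟩⟩ ⟨.ofNat 159, .ofNat 35⟩ ⟨.ofNat 3, .ofNat 7⟩ ⟨.ofNat 0, .ofNat 3⟩ 37 (.s03 ⟨⟨.ofNat 105, .ofNat 256⟩, ⟨.negSucc 53, .ofNat 207⟩, ⟨.negSucc 7, .ofNat 28⟩, ⟨.negSucc 45, .ofNat 151⟩⟩ ⟨.ofNat 159, .ofNat 77⟩ ⟨.ofNat 0, .ofNat 2⟩ ⟨.ofNat 0, .ofNat 3⟩ 9 (.leaf 16 [64, 0, 21, 0, 64, 12, 0]) (.s01 ⟨⟨.ofNat 63,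 .ofNat 53⟩, ⟨.ofNat 69, .ofNat 32⟩, ⟨.ofNat 8, .ofNat 0⟩, ⟨.ofNat 73, .negSucc 9⟩⟩ ⟨.negSucc 5, .ofNat 21⟩ ⟨.ofNat 0, .ofNat 2⟩ ⟨.ofNat 0, .ofNat 1⟩ 2 (.leaf 17 [64, 0, 64, 64, 64]) (.s02 ⟨⟨.ofNat 2315, .ofNat 1309⟩, ⟨.ofNat 2879, .ofNat 472⟩, ⟨.ofNat 686, .negSucc 195⟩, ⟨.ofNat 3321, .negSucc 1005⟩⟩ ⟨.ofNat 837, .ofNat 273⟩ ⟨.ofNat 0, .ofNat 2⟩ ⟨.ofNat 1, .ofNat 1⟩ 2 (.leaf 17 [64, 0, 64, 64, 64]) (.leaf 18 [64, 0, 0, 0, 0, 0])))) (.s01 ⟨⟨.ofNat 63, .ofNat 53⟩, ⟨.ofNat 69, .ofNat 32⟩, ⟨.ofNat 8, .ofNat 0⟩, ⟨.ofNat 73, .negSucc 9⟩⟩ ⟨.negSucc 5, .ofNat 21⟩ ⟨.ofNat 0, .ofNat 2⟩ ⟨.ofNat 0, .ofNat 1⟩ 2 (.s12 ⟨⟨.negSucc 106, .ofNat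 221⟩, ⟨.ofNat 322, .ofNat 239⟩, ⟨.negSucc 149, .ofNat 129⟩, ⟨.ofNat 43, .ofNat 92⟩⟩ ⟨.negSucc 2, .ofNat 12⟩ ⟨.ofNat 40, .ofNat 13⟩ ⟨.ofNat 1, .ofNat 2⟩ 40 (.s23 ⟨⟨.negSucc 198, .ofNat 965⟩, ⟨.negSucc 750, .ofNat 2750⟩, ⟨.negSucc 8, .ofNat 222⟩, ⟨.negSucc 189, .ofNat 743⟩⟩ ⟨.ofNat 314, .ofNat 116⟩ ⟨.ofNat 3, .ofNat 0⟩ ⟨.ofNat 2, .ofNat 3⟩ 40 (.leaf 16 [64, 0, 0, 47, 0]) (.leaf 16 [60, 0, 64, 0])) (.s12 ⟨⟨.negSucc 77, .ofNat 139⟩, ⟨.ofNat 213, .ofNat 88⟩, ⟨.negSucc 126, .ofNat 96⟩, ⟨.ofNat 49, .ofNat 43⟩⟩ ⟨.negSucc 11, .ofNat 98⟩ ⟨.negSucc 28, .ofNat 23⟩ ⟨.negSucc 26, .ofNat 40⟩ 39 (.leaf 16 [64, 0, 0, 47, 0]) (.leaf 17 [64, 0,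 0, 64, 52]))) (.s03 ⟨⟨.ofNat 2315, .ofNat 1309⟩, ⟨.ofNat 2879, .ofNat 472⟩, ⟨.ofNat 686, .negSucc 195⟩, ⟨.ofNat 3321, .negSucc 1005⟩⟩ ⟨.ofNat 837, .ofNat 273⟩ ⟨.ofNat 0, .ofNat 2⟩ ⟨.ofNat 1, .ofNat 1⟩ 2 (.s23 ⟨⟨.negSucc 198, .ofNat 965⟩, ⟨.negSucc 750, .ofNat 2750⟩, ⟨.negSucc 8, .ofNat 222⟩, ⟨.negSucc 189, .ofNat 743⟩⟩ ⟨.ofNat 314, .ofNat 116⟩ ⟨.ofNat 3, .ofNat 0⟩ ⟨.ofNat 2, .ofNat 3⟩ 40 (.leaf 16 [64, 0, 0, 0, 54, 0]) (.leaf 16 [60, 0, 0, 64, 0])) (.s02 ⟨⟨.negSucc 0, .ofNat 8⟩, ⟨.negSucc 1, .ofNat 11⟩, ⟨.negSucc 1, .ofNat 2⟩, ⟨.negSucc 9, .ofNat 9⟩⟩ ⟨.ofNat 11, .negSucc 2⟩ ⟨.ofNat 2, .ofNat 0⟩ ⟨.ofNat 0, .ofNat 3⟩ 29 (.leaf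 16 [60, 0, 64, 0, 64, 0]) (.leaf 18 [64, 0, 64, 0, 0, 0]))))) t31_0

theorem g31 : Good (PE lin H) ⟨⟨.ofNat 1, .ofNat 3⟩, ⟨.ofNat 1, .ofNat 0⟩, ⟨.ofNat 0, .ofNat 0⟩, ⟨.ofNat 1, .ofNat 0⟩⟩
    ⟨⟨.ofNat 1, .ofNat 0⟩, ⟨.ofNat 1, .ofNat 3⟩, ⟨.ofNat 0, .ofNat 0⟩, ⟨.ofNat 1, .ofNat 0⟩⟩
    ⟨⟨.ofNat 11, .ofNat 0⟩, ⟨.ofNat 11, .ofNat 15⟩, ⟨.ofNat 3, .ofNat 0⟩, ⟨.ofNat 8, .ofNat 0⟩⟩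
    ⟨⟨.negSucc 39, .ofNat 189⟩, ⟨.negSucc 39, .ofNat 231⟩, ⟨.negSucc 11, .ofNat 42⟩, ⟨.negSucc 27, .ofNat 147⟩⟩ :=
  goodE lin H t31 19 45 41 28 (by decide +kernel)

/-- part of a tree -/
def t35 : Tree := .s03 ⟨⟨.ofNat 0, .ofNat 1⟩, ⟨.ofNat 1, .ofNat 1⟩, ⟨.ofNat 0, .ofNat 0⟩, ⟨.negSucc 0, .ofNat 1⟩⟩ ⟨.ofNat 1, .ofNat 0⟩ ⟨.ofNat 2, .ofNat 0⟩ ⟨.ofNat 0, .ofNat 3⟩ 32 (.s13 ⟨⟨.ofNat 9, .ofNat 0⟩, ⟨.ofNat 9, .ofNat 27⟩, ⟨.ofNat 2, .ofNat 0⟩, ⟨.ofNat 7, .ofNat 0⟩⟩ ⟨.ofNat 2, .ofNat 0⟩ ⟨.ofNat 5, .ofNat 0⟩ ⟨.ofNat 1, .ofNat 0⟩ 45 (.s23 ⟨⟨.ofNat 17, .ofNat 0⟩, ⟨.ofNat 17, .ofNat 33⟩, ⟨.ofNat 3, .ofNat 0⟩, ⟨.ofNat 14, .ofNat 0⟩⟩ ⟨.ofNat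 3, .ofNat 0⟩ ⟨.ofNat 53, .ofNat 0⟩ ⟨.ofNat 7, .ofNat 0⟩ 43 (.leaf 18 [64, 0, 0]) (.s02 ⟨⟨.ofNat 63, .ofNat 19⟩, ⟨.ofNat 63, .ofNat 86⟩, ⟨.ofNat 14, .ofNat 0⟩, ⟨.ofNat 49, .ofNat 0⟩⟩ ⟨.ofNat 0, .ofNat 19⟩ ⟨.ofNat 2, .ofNat 0⟩ ⟨.ofNat 1, .ofNat 0⟩ 38 (.s23 ⟨⟨.ofNat 11, .ofNat 0⟩, ⟨.ofNat 11, .ofNat 15⟩, ⟨.ofNat 3, .ofNat 0⟩, ⟨.ofNat 8, .ofNat 0⟩⟩ ⟨.ofNat 18, .ofNat 0⟩ ⟨.ofNat 11, .ofNat 0⟩ ⟨.ofNat 53, .ofNat 0⟩ 41 (.leaf 16 [64, 0, 64, 64]) (.leaf 15 [64, 14, 0, 64, 64, 0])) (.leaf 18 [64, 36, 0]))) (.leaf 15 [64, 0, 0, 64, 64, 64, 18, 0])) (.s02 ⟨⟨.ofNat 45, .ofNat 38⟩, ⟨.ofNat 66, .ofNat 41⟩, ⟨.ofNat 14, .ofNat 0⟩, ⟨.ofNat 52,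 .negSucc 6⟩⟩ ⟨.negSucc 6, .ofNat 15⟩ ⟨.ofNat 0, .ofNat 2⟩ ⟨.ofNat 0, .ofNat 1⟩ 28 (.leaf 15 [64, 0, 0, 64, 64, 64, 18, 0]) (.s01 ⟨⟨.ofNat 2, .ofNat 7⟩, ⟨.ofNat 5, .ofNat 1⟩, ⟨.ofNat 2, .negSucc 0⟩, ⟨.ofNat 9, .negSucc 3⟩⟩ ⟨.ofNat 4, .ofNat 1⟩ ⟨.ofNat 1, .ofNat 0⟩ ⟨.ofNat 1, .ofNat 1⟩ 11 (.leaf 16 [29, 64, 64, 64, 0, 0]) (.leaf 19 [0, 64, 64, 64])))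

theorem g35 : Good (PE lin H) ⟨⟨.ofNat 1, .ofNat 3⟩, ⟨.ofNat 1, .ofNat 0⟩, ⟨.ofNat 0, .ofNat 0⟩, ⟨.ofNat 1, .ofNat 0⟩⟩
    ⟨⟨.ofNat 2, .ofNat 0⟩, ⟨.ofNat 2, .ofNat 6⟩, ⟨.ofNat 1, .ofNat 0⟩, ⟨.ofNat 1, .ofNat 0⟩⟩
    ⟨⟨.ofNat 22, .ofNat 0⟩, ⟨.ofNat 22, .ofNat 24⟩, ⟨.ofNat 7, .ofNat 0⟩, ⟨.ofNat 15, .ofNat 0⟩⟩
    ⟨⟨.ofNat 1, .ofNat 0⟩, ⟨.ofNat 1, .ofNat 3⟩, ⟨.ofNat 0, .ofNat 0⟩, ⟨.ofNat 1, .ofNat 0⟩⟩ :=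
  goodE lin H t35 19 45 40 45 (by decide +kernel)

/-- part of a tree -/
def t36 : Tree := .s13 ⟨⟨.ofNat 350, .ofNat 0⟩, ⟨.ofNat 551, .ofNat 126⟩, ⟨.ofNat 154, .ofNat 0⟩, ⟨.ofNat 196, .ofNat 0⟩⟩ ⟨.ofNat 67, .ofNat 0⟩ ⟨.ofNat 21, .ofNat 0⟩ ⟨.ofNat 4, .ofNat 0⟩ 38 (.s01 ⟨⟨.ofNat 4354, .ofNat 7882⟩, ⟨.negSucc 12088, .ofNat 25303⟩, ⟨.ofNat 826, .ofNat 3528⟩, ⟨.negSucc 10919, .ofNat 11914⟩⟩ ⟨.negSucc 41, .ofNat 112⟩ ⟨.ofNat 65, .ofNat 45⟩ ⟨.ofNat 1, .ofNat 2⟩ 34 (.s12 ⟨⟨.negSucc 1091, .ofNat 4172⟩, ⟨.negSucc 902, .ofNat 7253⟩, ⟨.negSucc 692, .ofNat 1887⟩, ⟨.negSucc 398, .ofNat 2285⟩⟩ ⟨.ofNat 10, .negSucc 4⟩ ⟨.ofNat 126, .ofNat 47⟩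 ⟨.negSucc 0, .ofNat 1⟩ 35 (.s23 ⟨⟨.ofNat 6, .ofNat 1⟩, ⟨.ofNat 9, .ofNat 4⟩, ⟨.ofNat 3, .ofNat 0⟩, ⟨.ofNat 3, .ofNat 1⟩⟩ ⟨.ofNat 17, .ofNat 10⟩ ⟨.ofNat 5, .ofNat 0⟩ ⟨.ofNat 56, .ofNat 12⟩ 37 (.leaf 13 [45]) (.leaf 12 [56])) (.s13 ⟨⟨.ofNat 14, .ofNat 14⟩, ⟨.ofNat 101, .negSucc 6⟩, ⟨.ofNat 14, .ofNat 0⟩, ⟨.ofNat 0, .ofNat 14⟩⟩ ⟨.negSucc 6, .ofNat 8⟩ ⟨.ofNat 154, .negSucc 41⟩ ⟨.ofNat 0, .ofNat 67⟩ 39 (.leaf 13 [45]) (.leaf 12 []))) (.s02 ⟨⟨.ofNat 99, .ofNat 82⟩, ⟨.ofNat 381, .negSucc 1⟩, ⟨.ofNat 116, .negSucc 16⟩, ⟨.ofNat 52, .ofNat 45⟩⟩ ⟨.ofNat 5, .negSucc 1⟩ ⟨.negSucc 19, .ofNat 65⟩ ⟨.ofNat 0, .ofNat 4⟩ 33 (.s23 ⟨⟨.ofNat 6, .ofNat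 1⟩, ⟨.ofNat 9, .ofNat 4⟩, ⟨.ofNat 3, .ofNat 0⟩, ⟨.ofNat 3, .ofNat 1⟩⟩ ⟨.ofNat 17, .ofNat 10⟩ ⟨.ofNat 5, .ofNat 0⟩ ⟨.ofNat 56, .ofNat 12⟩ 37 (.leaf 13 [0, 0, 0]) (.leaf 12 [0, 56])) (.leaf 13 [0, 42, 0, 0, 64, 0, 0]))) (.s01 ⟨⟨.ofNat 21, .ofNat 28⟩, ⟨.ofNat 99, .negSucc 7⟩, ⟨.ofNat 14, .ofNat 7⟩, ⟨.ofNat 28, .ofNat 0⟩⟩ ⟨.ofNat 7, .ofNat 0⟩ ⟨.negSucc 19, .ofNat 65⟩ ⟨.ofNat 4, .ofNat 20⟩ 29 (.s12 ⟨⟨.ofNat 7, .ofNat 0⟩, ⟨.ofNat 13, .ofNat 0⟩, ⟨.ofNat 3, .ofNat 0⟩, ⟨.ofNat 4, .ofNat 0⟩⟩ ⟨.negSucc 0, .ofNat 1⟩ ⟨.ofNat 1, .ofNat 1⟩ ⟨.ofNat 0, .ofNat 4⟩ 35 (.leaf 12 [64, 0, 0, 0, 27]) (.leaf 11 [64, 0, 64, 0])) (.s03 ⟨⟨.ofNat 4354, .ofNat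 7882⟩, ⟨.negSucc 12088, .ofNat 25303⟩, ⟨.ofNat 826, .ofNat 3528⟩, ⟨.negSucc 10919, .ofNat 11914⟩⟩ ⟨.negSucc 41, .ofNat 112⟩ ⟨.ofNat 65, .ofNat 45⟩ ⟨.ofNat 1, .ofNat 2⟩ 34 (.leaf 12 [64, 0, 0, 0, 27]) (.s02 ⟨⟨.ofNat 99, .ofNat 82⟩, ⟨.ofNat 381, .negSucc 1⟩, ⟨.ofNat 116, .negSucc 16⟩, ⟨.ofNat 52, .ofNat 45⟩⟩ ⟨.ofNat 5, .negSucc 1⟩ ⟨.negSucc 19, .ofNat 65⟩ ⟨.ofNat 0, .ofNat 4⟩ 33 (.leaf 12 [64, 64, 64, 0, 63]) (.leaf 11 [0, 64, 64, 0, 64, 23, 59]))))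

theorem g36 : Good (PE lin H) ⟨⟨.ofNat 132, .ofNat 26⟩, ⟨.ofNat 108, .ofNat 14⟩, ⟨.ofNat 48, .negSucc 0⟩, ⟨.ofNat 36, .ofNat 15⟩⟩
    ⟨⟨.ofNat 14, .ofNat 0⟩, ⟨.ofNat 26, .ofNat 0⟩, ⟨.ofNat 7, .ofNat 0⟩, ⟨.ofNat 7, .ofNat 0⟩⟩
    ⟨⟨.ofNat 14, .ofNat 0⟩, ⟨.ofNat 26, .ofNat 0⟩, ⟨.ofNat 9, .negSucc 1⟩, ⟨.ofNat 5, .ofNat 2⟩⟩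
    ⟨⟨.ofNat 22, .ofNat 0⟩, ⟨.ofNat 22, .ofNat 24⟩, ⟨.ofNat 7, .ofNat 0⟩, ⟨.ofNat 15, .ofNat 0⟩⟩ :=
  goodE lin H t36 3 35 35 40 (by decide +kernel)

/-- part of a tree -/
def t37_0 : Tree := .s12 ⟨⟨.negSucc 29, .ofNat 91⟩, ⟨.ofNat 27, .ofNat 82⟩, ⟨.negSucc 1, .ofNat 36⟩, ⟨.negSucc 27, .ofNat 55⟩⟩ ⟨.ofNat 1, .ofNat 1⟩ ⟨.ofNat 12, .ofNat 5⟩ ⟨.ofNat 0, .ofNat 1⟩ 29 (.s23 ⟨⟨.ofNat 6, .negSucc 0⟩, ⟨.ofNat 3, .ofNat 2⟩, ⟨.ofNat 2, .ofNat 0⟩, ⟨.ofNat 4, .negSucc 0⟩⟩ ⟨.ofNat 10, .ofNat 1⟩ ⟨.ofNat 1, .ofNat 1⟩ ⟨.ofNat 14, .ofNat 9⟩ 30 (.s13 ⟨⟨.ofNat 8854, .ofNat 806⟩, ⟨.ofNat 2866, .ofNat 8114⟩, ⟨.ofNat 2051, .ofNat 1561⟩, ⟨.ofNat 6803,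 .negSucc 754⟩⟩ ⟨.negSucc 79, .ofNat 80⟩ ⟨.negSucc 58, .ofNat 229⟩ ⟨.ofNat 1, .ofNat 0⟩ 32 (.s23 ⟨⟨.ofNat 38, .ofNat 2⟩, ⟨.ofNat 2, .ofNat 38⟩, ⟨.ofNat 7, .ofNat 7⟩, ⟨.ofNat 31, .negSucc 4⟩⟩ ⟨.ofNat 0, .ofNat 80⟩ ⟨.ofNat 10, .ofNat 3⟩ ⟨.ofNat 1, .ofNat 11⟩ 31 (.leaf 12 [64, 64, 56, 64, 0, 64, 64]) (.leaf 11 [36, 64, 64, 64, 64])) (.s01 ⟨⟨.negSucc 66, .ofNat 107⟩, ⟨.ofNat 7, .ofNat 83⟩, ⟨.negSucc 11, .ofNat 38⟩, ⟨.negSucc 68, .ofNat 76⟩⟩ ⟨.ofNat 7, .ofNat 0⟩ ⟨.ofNat 50, .ofNat 0⟩ ⟨.ofNat 36, .ofNat 15⟩ 29 (.s13 ⟨⟨.ofNat 962, .ofNat 253⟩, ⟨.ofNat 503, .ofNat 862⟩, ⟨.ofNat 293, .ofNat 223⟩, ⟨.ofNat 669, .ofNat 30⟩⟩ ⟨.negSucc 349,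 .ofNat 1465⟩ ⟨.ofNat 14, .negSucc 6⟩ ⟨.ofNat 288, .negSucc 58⟩ 30 (.leaf 11 []) (.s12 ⟨⟨.ofNat 6, .ofNat 1⟩, ⟨.ofNat 4, .ofNat 4⟩, ⟨.ofNat 2, .ofNat 1⟩, ⟨.ofNat 4, .ofNat 0⟩⟩ ⟨.ofNat 1, .ofNat 0⟩ ⟨.ofNat 7, .ofNat 0⟩ ⟨.ofNat 0, .ofNat 12⟩ 29 (.leaf 11 []) (.leaf 11 []))) (.leaf 11 [36, 64, 64, 64, 64]))) (.s02 ⟨⟨.negSucc 150, .ofNat 286⟩, ⟨.ofNat 71, .ofNat 184⟩, ⟨.negSucc 15, .ofNat 94⟩, ⟨.negSucc 191, .ofNat 213⟩⟩ ⟨.ofNat 0, .ofNat 1⟩ ⟨.ofNat 50, .ofNat 0⟩ ⟨.ofNat 0, .ofNat 1⟩ 28 (.s23 ⟨⟨.ofNat 4, .ofNat 1⟩, ⟨.ofNat 1, .ofNat 4⟩, ⟨.ofNat 1, .ofNat 1⟩, ⟨.ofNat 3, .ofNat 0⟩⟩ ⟨.negSucc 0, .ofNat 1⟩ ⟨.ofNat 1, .ofNat 0⟩ ⟨.ofNat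 0, .ofNat 1⟩ 29 (.s13 ⟨⟨.ofNat 6, .ofNat 1⟩, ⟨.ofNat 4, .ofNat 4⟩, ⟨.ofNat 2, .ofNat 1⟩, ⟨.ofNat 4, .ofNat 0⟩⟩ ⟨.ofNat 1, .ofNat 0⟩ ⟨.ofNat 7, .ofNat 0⟩ ⟨.ofNat 0, .ofNat 12⟩ 29 (.leaf 11 []) (.leaf 11 [])) (.leaf 11 [])) (.s01 ⟨⟨.negSucc 66, .ofNat 107⟩, ⟨.ofNat 7, .ofNat 83⟩, ⟨.negSucc 11, .ofNat 38⟩, ⟨.negSucc 68, .ofNat 76⟩⟩ ⟨.ofNat 7, .ofNat 0⟩ ⟨.ofNat 50, .ofNat 0⟩ ⟨.ofNat 36, .ofNat 15⟩ 29 (.s13 ⟨⟨.ofNat 6, .ofNat 1⟩, ⟨.ofNat 4, .ofNat 4⟩, ⟨.ofNat 2, .ofNat 1⟩, ⟨.ofNat 4, .ofNat 0⟩⟩ ⟨.ofNat 1, .ofNat 0⟩ ⟨.ofNat 7, .ofNat 0⟩ ⟨.ofNat 0, .ofNat 12⟩ 29 (.leaf 11 []) (.leaf 11 [])) (.leaf 11 [36, 64, 64, 64, 64])))) (.s23 ⟨⟨.ofNat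 8854, .ofNat 806⟩, ⟨.ofNat 2866, .ofNat 8114⟩, ⟨.ofNat 2051, .ofNat 1561⟩, ⟨.ofNat 6803, .negSucc 754⟩⟩ ⟨.negSucc 79, .ofNat 80⟩ ⟨.negSucc 58, .ofNat 229⟩ ⟨.ofNat 1, .ofNat 0⟩ 32 (.s12 ⟨⟨.ofNat 15, .ofNat 0⟩, ⟨.ofNat 25, .ofNat 0⟩, ⟨.ofNat 7, .ofNat 0⟩, ⟨.ofNat 8, .ofNat 0⟩⟩ ⟨.negSucc 618, .ofNat 1301⟩ ⟨.ofNat 1, .ofNat 2⟩ ⟨.ofNat 120, .ofNat 2556⟩ 33 (.leaf 12 [64, 64, 56, 64, 0, 64, 64]) (.s13 ⟨⟨.ofNat 7, .ofNat 0⟩, ⟨.ofNat 13, .ofNat 0⟩, ⟨.ofNat 3, .ofNat 0⟩, ⟨.ofNat 4, .ofNat 0⟩⟩ ⟨.negSucc 0, .ofNat 1⟩ ⟨.ofNat 1, .ofNat 1⟩ ⟨.ofNat 0, .ofNat 4⟩ 35 (.leaf 12 [64, 64, 58, 64, 0, 64, 59]) (.leaf 11 [64, 0, 64, 64]))) (.s02 ⟨⟨.negSucc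 66, .ofNat 107⟩, ⟨.ofNat 7, .ofNat 83⟩, ⟨.negSucc 11, .ofNat 38⟩, ⟨.negSucc 68, .ofNat 76⟩⟩ ⟨.ofNat 7, .ofNat 0⟩ ⟨.ofNat 50, .ofNat 0⟩ ⟨.ofNat 36, .ofNat 15⟩ 29 (.s12 ⟨⟨.ofNat 44, .ofNat 5⟩, ⟨.ofNat 41, .ofNat 20⟩, ⟨.ofNat 17, .ofNat 5⟩, ⟨.ofNat 27, .ofNat 0⟩⟩ ⟨.ofNat 7, .ofNat 0⟩ ⟨.ofNat 0, .ofNat 5⟩ ⟨.ofNat 12, .ofNat 5⟩ 30 (.leaf 11 [52]) (.leaf 11 [64, 21])) (.leaf 11 [64, 64, 64, 64, 64, 20])))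

/-- part of a tree -/
def t37 : Tree := .s01 ⟨⟨.ofNat 99, .negSucc 13⟩, ⟨.ofNat 21, .ofNat 34⟩, ⟨.ofNat 34, .negSucc 5⟩, ⟨.ofNat 8, .ofNat 13⟩⟩ ⟨.negSucc 6, .ofNat 12⟩ ⟨.ofNat 52, .negSucc 4⟩ ⟨.ofNat 4, .ofNat 20⟩ 0 t37_0 (.s03 ⟨⟨.ofNat 369, .negSucc 49⟩, ⟨.ofNat 111, .ofNat 130⟩, ⟨.ofNat 76, .ofNat 9⟩, ⟨.ofNat 92, .ofNat 19⟩⟩ ⟨.ofNat 10, .ofNat 1⟩ ⟨.negSucc 4, .ofNat 47⟩ ⟨.ofNat 4, .ofNat 4⟩ 27 (.s23 ⟨⟨.ofNat 6, .negSucc 0⟩, ⟨.ofNat 3, .ofNat 2⟩, ⟨.ofNat 2, .ofNat 0⟩, ⟨.ofNat 4, .negSucc 0⟩⟩ ⟨.ofNat 10, .ofNat 1⟩ ⟨.ofNat 1, .ofNat 1⟩ ⟨.ofNat 14, .ofNat 9⟩ 30 (.s23 ⟨⟨.ofNat 38, .ofNat 2⟩, ⟨.ofNat 2, .ofNat 38⟩, ⟨.ofNat 7, .ofNat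 7⟩, ⟨.ofNat 31, .negSucc 4⟩⟩ ⟨.ofNat 0, .ofNat 80⟩ ⟨.ofNat 10, .ofNat 3⟩ ⟨.ofNat 1, .ofNat 11⟩ 31 (.leaf 12 [64, 64, 56, 64, 0, 64, 64]) (.leaf 11 [36, 64, 64, 64, 64, 64])) (.s02 ⟨⟨.negSucc 708, .ofNat 1004⟩, ⟨.ofNat 224, .ofNat 551⟩, ⟨.negSucc 96, .ofNat 311⟩, ⟨.negSucc 332, .ofNat 492⟩⟩ ⟨.ofNat 1, .ofNat 0⟩ ⟨.ofNat 100, .ofNat 35⟩ ⟨.ofNat 0, .ofNat 1⟩ 28 (.s12 ⟨⟨.negSucc 150, .ofNat 286⟩, ⟨.ofNat 71, .ofNat 184⟩, ⟨.negSucc 15, .ofNat 94⟩, ⟨.negSucc 191, .ofNat 213⟩⟩ ⟨.ofNat 0, .ofNat 1⟩ ⟨.ofNat 50, .ofNat 0⟩ ⟨.ofNat 0, .ofNat 1⟩ 28 (.s23 ⟨⟨.ofNat 4, .ofNat 1⟩, ⟨.ofNat 1, .ofNat 4⟩, ⟨.ofNat 1, .ofNat 1⟩, ⟨.ofNat 3, .ofNat 0⟩⟩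 ⟨.negSucc 0, .ofNat 1⟩ ⟨.ofNat 1, .ofNat 0⟩ ⟨.ofNat 0, .ofNat 1⟩ 29 (.leaf 11 []) (.leaf 11 [])) (.leaf 11 [36, 64, 64, 64, 64])) (.leaf 11 [36, 64, 64, 64, 64, 64]))) (.s02 ⟨⟨.ofNat 172, .ofNat 341⟩, ⟨.negSucc 106, .ofNat 524⟩, ⟨.ofNat 3, .ofNat 169⟩, ⟨.ofNat 277, .ofNat 28⟩⟩ ⟨.ofNat 3, .ofNat 0⟩ ⟨.negSucc 19, .ofNat 65⟩ ⟨.ofNat 0, .ofNat 1⟩ 26 (.s23 ⟨⟨.negSucc 708, .ofNat 1004⟩, ⟨.ofNat 224, .ofNat 551⟩, ⟨.negSucc 96, .ofNat 311⟩, ⟨.negSucc 332, .ofNat 492⟩⟩ ⟨.ofNat 100, .ofNat 35⟩ ⟨.ofNat 1, .ofNat 0⟩ ⟨.ofNat 0, .ofNat 1⟩ 28 (.leaf 11 [0, 42, 64, 64, 64, 64]) (.s12 ⟨⟨.negSucc 150, .ofNat 286⟩, ⟨.ofNat 71, .ofNat 184⟩, ⟨.negSucc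 15, .ofNat 94⟩, ⟨.negSucc 191, .ofNat 213⟩⟩ ⟨.ofNat 0, .ofNat 1⟩ ⟨.ofNat 50, .ofNat 0⟩ ⟨.ofNat 0, .ofNat 1⟩ 28 (.leaf 11 [64, 61]) (.leaf 11 [0, 42, 64, 64, 64]))) (.leaf 11 [64, 17, 64, 64])))

theorem g37 : Good (PE lin H) ⟨⟨.ofNat 132, .ofNat 26⟩, ⟨.ofNat 108, .ofNat 14⟩, ⟨.ofNat 48, .negSucc 0⟩, ⟨.ofNat 36, .ofNat 15⟩⟩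
    ⟨⟨.ofNat 14, .ofNat 0⟩, ⟨.ofNat 26, .ofNat 0⟩, ⟨.ofNat 7, .ofNat 0⟩, ⟨.ofNat 7, .ofNat 0⟩⟩
    ⟨⟨.ofNat 6, .ofNat 1⟩, ⟨.ofNat 3, .ofNat 4⟩, ⟨.ofNat 2, .ofNat 1⟩, ⟨.ofNat 4, .ofNat 0⟩⟩
    ⟨⟨.ofNat 14, .ofNat 0⟩, ⟨.ofNat 26, .ofNat 0⟩, ⟨.ofNat 9, .negSucc 1⟩, ⟨.ofNat 5, .ofNat 2⟩⟩ :=
  goodE lin H t37 3 35 28 35 (by decide +kernel)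

end

end Pool.Agent.PHCert.E3
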