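import Pool.Agent.PHCert.E3H

/-!
# PHCert: inequality E3, part 7 (74 leaves, checked by the kernel)
-/

set_option autoImplicit false

namespace Pool.Agent.PHCert.E3

open Zp Pool.Agent.PHCert

noncomputable section

/-- part of a tree -/
def t38_0 : Tree := .s01 ⟨⟨.ofNat 99, .negSucc 13⟩, ⟨.ofNat 21, .ofNat 34⟩, ⟨.ofNat 34, .negSucc 5⟩, ⟨.ofNat 8, .ofNat 13⟩⟩ ⟨.negSucc 6, .ofNat 12⟩ ⟨.ofNat 52, .negSucc 4⟩ ⟨.ofNat 4, .ofNat 20⟩ 0 (.s13 ⟨⟨.negSucc 29, .ofNat 91⟩, ⟨.ofNat 27, .ofNat 82⟩, ⟨.negSucc 1, .ofNat 36⟩, ⟨.negSucc 27, .ofNat 55⟩⟩ ⟨.ofNat 1, .ofNat 1⟩ ⟨.ofNat 12, .ofNat 5⟩ ⟨.ofNat 0, .ofNat 1⟩ 29 (.s02 ⟨⟨.negSucc 3, .ofNat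 7⟩, ⟨.ofNat 4, .ofNat 3⟩, ⟨.ofNat 0, .ofNat 2⟩, ⟨.ofNat 5, .negSucc 0⟩⟩ ⟨.negSucc 0, .ofNat 1⟩ ⟨.ofNat 50, .ofNat 0⟩ ⟨.ofNat 12, .ofNat 5⟩ 28 (.leaf 10 []) (.s03 ⟨⟨.negSucc 150, .ofNat 286⟩, ⟨.ofNat 71, .ofNat 184⟩, ⟨.negSucc 15, .ofNat 94⟩, ⟨.negSucc 191, .ofNat 213⟩⟩ ⟨.ofNat 0, .ofNat 1⟩ ⟨.ofNat 50, .ofNat 0⟩ ⟨.ofNat 0, .ofNat 1⟩ 28 (.leaf 11 []) (.s01 ⟨⟨.negSucc 66, .ofNat 107⟩, ⟨.ofNat 7, .ofNat 83⟩, ⟨.negSucc 11, .ofNat 38⟩, ⟨.negSucc 68, .ofNat 76⟩⟩ ⟨.ofNat 7, .ofNat 0⟩ ⟨.ofNat 50, .ofNat 0⟩ ⟨.ofNat 36, .ofNat 15⟩ 29 (.leaf 11 []) (.leaf 11 [0, 61, 64, 64, 64])))) (.s02 ⟨⟨.negSucc 3, .ofNat 7⟩, ⟨.ofNat 4, .ofNat 3⟩, ⟨.ofNat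 0, .ofNat 2⟩, ⟨.ofNat 5, .negSucc 0⟩⟩ ⟨.negSucc 0, .ofNat 1⟩ ⟨.ofNat 50, .ofNat 0⟩ ⟨.ofNat 12, .ofNat 5⟩ 28 (.s12 ⟨⟨.ofNat 2, .ofNat 0⟩, ⟨.ofNat 3, .ofNat 0⟩, ⟨.ofNat 1, .ofNat 0⟩, ⟨.ofNat 1, .ofNat 0⟩⟩ ⟨.negSucc 0, .ofNat 1⟩ ⟨.ofNat 0, .ofNat 5⟩ ⟨.negSucc 6, .ofNat 12⟩ 30 (.leaf 10 []) (.s13 ⟨⟨.ofNat 44, .ofNat 5⟩, ⟨.ofNat 41, .ofNat 20⟩, ⟨.ofNat 17, .ofNat 5⟩, ⟨.ofNat 27, .ofNat 0⟩⟩ ⟨.ofNat 7, .ofNat 0⟩ ⟨.ofNat 0, .ofNat 5⟩ ⟨.ofNat 12, .ofNat 5⟩ 30 (.leaf 10 []) (.leaf 10 [64, 27]))) (.s03 ⟨⟨.negSucc 66, .ofNat 107⟩, ⟨.ofNat 7, .ofNat 83⟩, ⟨.negSucc 11, .ofNat 38⟩, ⟨.negSucc 68, .ofNat 76⟩⟩ ⟨.ofNat 7, .ofNat 0⟩ ⟨.ofNat 50,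 .ofNat 0⟩ ⟨.ofNat 36, .ofNat 15⟩ 29 (.s13 ⟨⟨.ofNat 44, .ofNat 5⟩, ⟨.ofNat 41, .ofNat 20⟩, ⟨.ofNat 17, .ofNat 5⟩, ⟨.ofNat 27, .ofNat 0⟩⟩ ⟨.ofNat 7, .ofNat 0⟩ ⟨.ofNat 0, .ofNat 5⟩ ⟨.ofNat 12, .ofNat 5⟩ 30 (.leaf 10 []) (.leaf 10 [64, 27])) (.leaf 10 [51, 64, 64, 64, 64, 28])))) (.s02 ⟨⟨.ofNat 28, .ofNat 64⟩, ⟨.ofNat 182, .negSucc 28⟩, ⟨.negSucc 7, .ofNat 36⟩, ⟨.negSucc 47, .ofNat 64⟩⟩ ⟨.ofNat 1, .ofNat 0⟩ ⟨.negSucc 19, .ofNat 65⟩ ⟨.ofNat 1, .ofNat 1⟩ 26 (.s12 ⟨⟨.negSucc 3, .ofNat 7⟩, ⟨.ofNat 4, .ofNat 3⟩, ⟨.ofNat 0, .ofNat 2⟩, ⟨.ofNat 5, .negSucc 0⟩⟩ ⟨.negSucc 0, .ofNat 1⟩ ⟨.ofNat 50, .ofNat 0⟩ ⟨.ofNat 12, .ofNat 5⟩ 28 (.leaf 10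 [64, 64]) (.s13 ⟨⟨.negSucc 150, .ofNat 286⟩, ⟨.ofNat 71, .ofNat 184⟩, ⟨.negSucc 15, .ofNat 94⟩, ⟨.negSucc 191, .ofNat 213⟩⟩ ⟨.ofNat 0, .ofNat 1⟩ ⟨.ofNat 50, .ofNat 0⟩ ⟨.ofNat 0, .ofNat 1⟩ 28 (.leaf 11 [64, 59]) (.leaf 11 [0, 50, 64, 64, 64]))) (.s03 ⟨⟨.ofNat 172, .ofNat 341⟩, ⟨.negSucc 106, .ofNat 524⟩, ⟨.ofNat 3, .ofNat 169⟩, ⟨.ofNat 277, .ofNat 28⟩⟩ ⟨.ofNat 3, .ofNat 0⟩ ⟨.negSucc 19, .ofNat 65⟩ ⟨.ofNat 0, .ofNat 1⟩ 26 (.s13 ⟨⟨.negSucc 150, .ofNat 286⟩, ⟨.ofNat 71, .ofNat 184⟩, ⟨.negSucc 15, .ofNat 94⟩, ⟨.negSucc 191, .ofNat 213⟩⟩ ⟨.ofNat 0, .ofNat 1⟩ ⟨.ofNat 50, .ofNat 0⟩ ⟨.ofNat 0, .ofNat 1⟩ 28 (.leaf 11 [64, 59]) (.leaf 11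 [0, 37, 64, 64, 64])) (.leaf 11 [31, 64, 64])))

/-- part of a tree -/
def t38 : Tree := .s12 ⟨⟨.ofNat 2, .ofNat 0⟩, ⟨.ofNat 1, .ofNat 1⟩, ⟨.ofNat 1, .ofNat 0⟩, ⟨.ofNat 1, .ofNat 0⟩⟩ ⟨.ofNat 1, .ofNat 0⟩ ⟨.negSucc 6, .ofNat 12⟩ ⟨.ofNat 0, .ofNat 12⟩ 29 (.s02 ⟨⟨.ofNat 7, .ofNat 16⟩, ⟨.negSucc 1, .ofNat 19⟩, ⟨.negSucc 1, .ofNat 9⟩, ⟨.negSucc 11, .ofNat 16⟩⟩ ⟨.ofNat 1, .ofNat 0⟩ ⟨.negSucc 19, .ofNat 65⟩ ⟨.ofNat 4, .ofNat 4⟩ 1 (.leaf 10 [64, 0, 0]) (.s01 ⟨⟨.ofNat 28, .ofNat 64⟩, ⟨.ofNat 182, .negSucc 28⟩, ⟨.negSucc 7, .ofNat 36⟩, ⟨.negSucc 47, .ofNat 64⟩⟩ ⟨.ofNat 1, .ofNat 0⟩ ⟨.negSucc 19, .ofNat 65⟩ ⟨.ofNat 1, .ofNat 1⟩ 26 (.leaf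 10 [64, 30, 63]) (.s03 ⟨⟨.ofNat 172, .ofNat 341⟩, ⟨.negSucc 106, .ofNat 524⟩, ⟨.ofNat 3, .ofNat 169⟩, ⟨.ofNat 277, .ofNat 28⟩⟩ ⟨.ofNat 3, .ofNat 0⟩ ⟨.negSucc 19, .ofNat 65⟩ ⟨.ofNat 0, .ofNat 1⟩ 26 (.leaf 11 [64, 33, 57]) (.leaf 11 [57, 44, 0, 64, 64])))) t38_0

theorem g38 : Good (PE lin H) ⟨⟨.ofNat 132, .ofNat 26⟩, ⟨.ofNat 108, .ofNat 14⟩, ⟨.ofNat 48, .negSucc 0⟩, ⟨.ofNat 36, .ofNat 15⟩⟩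
    ⟨⟨.ofNat 14, .ofNat 0⟩, ⟨.ofNat 26, .ofNat 0⟩, ⟨.ofNat 7, .ofNat 0⟩, ⟨.ofNat 7, .ofNat 0⟩⟩
    ⟨⟨.ofNat 2, .ofNat 0⟩, ⟨.ofNat 2, .ofNat 0⟩, ⟨.ofNat 1, .ofNat 0⟩, ⟨.ofNat 1, .ofNat 0⟩⟩
    ⟨⟨.ofNat 6, .ofNat 1⟩, ⟨.ofNat 3, .ofNat 4⟩, ⟨.ofNat 2, .ofNat 1⟩, ⟨.ofNat 4, .ofNat 0⟩⟩ :=
  goodE lin H t38 3 35 0 28 (by decide +kernel)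

/-- part of a tree -/
def t41 : Tree := .s23 ⟨⟨.ofNat 350, .ofNat 0⟩, ⟨.ofNat 551, .ofNat 126⟩, ⟨.ofNat 154, .ofNat 0⟩, ⟨.ofNat 196, .ofNat 0⟩⟩ ⟨.ofNat 67, .ofNat 0⟩ ⟨.ofNat 21, .ofNat 0⟩ ⟨.ofNat 4, .ofNat 0⟩ 38 (.s02 ⟨⟨.ofNat 4354, .ofNat 7882⟩, ⟨.negSucc 12088, .ofNat 25303⟩, ⟨.ofNat 826, .ofNat 3528⟩, ⟨.negSucc 10919, .ofNat 11914⟩⟩ ⟨.negSucc 41, .ofNat 112⟩ ⟨.ofNat 65, .ofNat 45⟩ ⟨.ofNat 1, .ofNat 2⟩ 34 (.s23 ⟨⟨.ofNat 14, .ofNat 14⟩, ⟨.ofNat 101, .negSucc 6⟩, ⟨.ofNat 14, .ofNat 0⟩, ⟨.ofNat 0, .ofNat 14⟩⟩ ⟨.negSucc 6, .ofNat 8⟩ ⟨.ofNat 154, .negSucc 41⟩ ⟨.ofNat 0, .ofNat 67⟩ 39 (.leaf 13 [42, 0, 64, 64, 64, 64, 0]) (.leaf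 12 [64, 64, 64, 57, 0, 0])) (.s01 ⟨⟨.ofNat 386, .ofNat 74⟩, ⟨.ofNat 161, .ofNat 188⟩, ⟨.ofNat 150, .negSucc 6⟩, ⟨.ofNat 134, .ofNat 27⟩⟩ ⟨.ofNat 5, .ofNat 6⟩ ⟨.ofNat 52, .negSucc 4⟩ ⟨.ofNat 2, .ofNat 2⟩ 1 (.leaf 13 [64, 0, 42, 0, 64, 64, 64, 64, 64, 0]) (.leaf 13 [0, 42, 0, 0, 64, 0]))) (.s02 ⟨⟨.ofNat 21, .ofNat 28⟩, ⟨.ofNat 99, .negSucc 7⟩, ⟨.ofNat 14, .ofNat 7⟩, ⟨.ofNat 28, .ofNat 0⟩⟩ ⟨.ofNat 7, .ofNat 0⟩ ⟨.negSucc 19, .ofNat 65⟩ ⟨.ofNat 4, .ofNat 20⟩ 29 (.leaf 11 [64, 0, 64, 64, 54, 0, 64, 57, 0, 0]) (.s03 ⟨⟨.ofNat 4354, .ofNat 7882⟩, ⟨.negSucc 12088, .ofNat 25303⟩, ⟨.ofNat 826, .ofNat 3528⟩, ⟨.negSucc 10919, .ofNat 11914⟩⟩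 ⟨.negSucc 41, .ofNat 112⟩ ⟨.ofNat 65, .ofNat 45⟩ ⟨.ofNat 1, .ofNat 2⟩ 34 (.leaf 11 [64, 0, 64, 64, 0, 0, 64, 58, 0, 0]) (.leaf 11 [0, 0, 64, 0, 64, 0, 0, 0, 0, 64, 64, 11, 0])))

theorem g41 : Good (PE lin H) ⟨⟨.ofNat 132, .ofNat 26⟩, ⟨.ofNat 108, .ofNat 14⟩, ⟨.ofNat 48, .negSucc 0⟩, ⟨.ofNat 36, .ofNat 15⟩⟩
    ⟨⟨.ofNat 2, .ofNat 0⟩, ⟨.ofNat 2, .ofNat 6⟩, ⟨.ofNat 1, .ofNat 0⟩, ⟨.ofNat 1, .ofNat 0⟩⟩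
    ⟨⟨.ofNat 14, .ofNat 0⟩, ⟨.ofNat 26, .ofNat 0⟩, ⟨.ofNat 7, .ofNat 0⟩, ⟨.ofNat 7, .ofNat 0⟩⟩
    ⟨⟨.ofNat 22, .ofNat 0⟩, ⟨.ofNat 22, .ofNat 24⟩, ⟨.ofNat 7, .ofNat 0⟩, ⟨.ofNat 15, .ofNat 0⟩⟩ :=
  goodE lin H t41 3 45 35 40 (by decide +kernel)

/-- part of a tree -/
def t43 : Tree := .s12 ⟨⟨.ofNat 386, .ofNat 74⟩, ⟨.ofNat 161, .ofNat 188⟩, ⟨.ofNat 150, .negSucc 6⟩, ⟨.ofNat 134, .ofNat 27⟩⟩ ⟨.ofNat 52, .negSucc 4⟩ ⟨.ofNat 5, .ofNat 6⟩ ⟨.ofNat 2, .ofNat 2⟩ 1 (.leaf 13 [0, 42, 64, 64, 0, 0, 64, 0, 64, 64, 64]) (.leaf 13 [64, 0, 42, 0, 64, 64, 64, 64, 64, 0])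

theorem g43 : Good (PE lin H) ⟨⟨.ofNat 2, .ofNat 7⟩, ⟨.ofNat 5, .ofNat 1⟩, ⟨.ofNat 2, .negSucc 0⟩, ⟨.ofNat 9, .negSucc 3⟩⟩
    ⟨⟨.ofNat 2, .ofNat 0⟩, ⟨.ofNat 2, .ofNat 6⟩, ⟨.ofNat 1, .ofNat 0⟩, ⟨.ofNat 1, .ofNat 0⟩⟩
    ⟨⟨.ofNat 132, .ofNat 26⟩, ⟨.ofNat 108, .ofNat 14⟩, ⟨.ofNat 48, .negSucc 0⟩, ⟨.ofNat 36, .ofNat 15⟩⟩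
    ⟨⟨.ofNat 22, .ofNat 0⟩, ⟨.ofNat 22, .ofNat 24⟩, ⟨.ofNat 7, .ofNat 0⟩, ⟨.ofNat 15, .ofNat 0⟩⟩ :=
  goodE lin H t43 11 45 3 40 (by decide +kernel)

/-- part of a tree -/
def t45_4 : Tree := .s13 ⟨⟨.ofNat 369, .negSucc 49⟩, ⟨.ofNat 111, .ofNat 130⟩, ⟨.ofNat 76, .ofNat 9⟩, ⟨.ofNat 92, .ofNat 19⟩⟩ ⟨.ofNat 10, .ofNat 1⟩ ⟨.negSucc 4, .ofNat 47⟩ ⟨.ofNat 4, .ofNat 4⟩ 27 (.s03 ⟨⟨.ofNat 33, .negSucc 8⟩, ⟨.ofNat 7, .ofNat 9⟩, ⟨.ofNat 9, .negSucc 1⟩, ⟨.ofNat 5, .ofNat 2⟩⟩ ⟨.ofNat 10, .ofNat 1⟩ ⟨.ofNat 104, .ofNat 1⟩ ⟨.ofNat 84, .ofNat 108⟩ 27 (.s23 ⟨⟨.ofNat 6, .negSucc 0⟩, ⟨.ofNat 3, .ofNat 2⟩, ⟨.ofNat 2, .ofNat 0⟩, ⟨.ofNat 4, .negSucc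 0⟩⟩ ⟨.ofNat 10, .ofNat 1⟩ ⟨.ofNat 1, .ofNat 1⟩ ⟨.ofNat 14, .ofNat 9⟩ 30 (.s23 ⟨⟨.ofNat 38, .ofNat 2⟩, ⟨.ofNat 2, .ofNat 38⟩, ⟨.ofNat 7, .ofNat 7⟩, ⟨.ofNat 31, .negSucc 4⟩⟩ ⟨.ofNat 0, .ofNat 80⟩ ⟨.ofNat 10, .ofNat 3⟩ ⟨.ofNat 1, .ofNat 11⟩ 31 (.leaf 12 [64, 64, 63, 60, 0]) (.leaf 12 [64, 64, 64, 64, 64])) (.s02 ⟨⟨.ofNat 43, .ofNat 13⟩, ⟨.ofNat 27, .ofNat 32⟩, ⟨.ofNat 14, .ofNat 9⟩, ⟨.ofNat 57, .negSucc 14⟩⟩ ⟨.ofNat 1, .ofNat 0⟩ ⟨.negSucc 4, .ofNat 10⟩ ⟨.ofNat 0, .ofNat 1⟩ 28 (.s12 ⟨⟨.negSucc 708, .ofNat 1004⟩, ⟨.ofNat 224, .ofNat 551⟩, ⟨.negSucc 96, .ofNat 311⟩, ⟨.negSucc 332, .ofNat 492⟩⟩ ⟨.ofNat 1, .ofNat 0⟩ ⟨.ofNat 100, .ofNat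 35⟩ ⟨.ofNat 0, .ofNat 1⟩ 28 (.s23 ⟨⟨.ofNat 4, .ofNat 1⟩, ⟨.ofNat 1, .ofNat 4⟩, ⟨.ofNat 1, .ofNat 1⟩, ⟨.ofNat 3, .ofNat 0⟩⟩ ⟨.negSucc 0, .ofNat 1⟩ ⟨.ofNat 1, .ofNat 0⟩ ⟨.ofNat 0, .ofNat 1⟩ 29 (.leaf 11 []) (.leaf 11 [])) (.leaf 11 [64, 64, 64, 51])) (.leaf 11 [64, 64, 64, 64, 51]))) (.s02 ⟨⟨.ofNat 431, .ofNat 456⟩, ⟨.ofNat 1325, .negSucc 44⟩, ⟨.ofNat 406, .ofNat 25⟩, ⟨.ofNat 133, .ofNat 251⟩⟩ ⟨.negSucc 2, .ofNat 3⟩ ⟨.negSucc 10, .ofNat 59⟩ ⟨.ofNat 1, .ofNat 0⟩ 26 (.s23 ⟨⟨.ofNat 43, .ofNat 13⟩, ⟨.ofNat 27, .ofNat 32⟩, ⟨.ofNat 14, .ofNat 9⟩, ⟨.ofNat 57, .negSucc 14⟩⟩ ⟨.negSucc 4, .ofNat 10⟩ ⟨.ofNat 1, .ofNat 0⟩ ⟨.ofNat 0, .ofNat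 1⟩ 28 (.leaf 11 [64, 39, 64, 64, 59]) (.s12 ⟨⟨.negSucc 708, .ofNat 1004⟩, ⟨.ofNat 224, .ofNat 551⟩, ⟨.negSucc 96, .ofNat 311⟩, ⟨.negSucc 332, .ofNat 492⟩⟩ ⟨.ofNat 1, .ofNat 0⟩ ⟨.ofNat 100, .ofNat 35⟩ ⟨.ofNat 0, .ofNat 1⟩ 28 (.leaf 11 [64, 62]) (.leaf 11 [64, 35, 64, 64]))) (.leaf 12 [64, 64, 34]))) (.s12 ⟨⟨.ofNat 172, .ofNat 341⟩, ⟨.negSucc 106, .ofNat 524⟩, ⟨.ofNat 3, .ofNat 169⟩, ⟨.ofNat 277, .ofNat 28⟩⟩ ⟨.ofNat 3, .ofNat 0⟩ ⟨.negSucc 19, .ofNat 65⟩ ⟨.ofNat 0, .ofNat 1⟩ 26 (.s02 ⟨⟨.ofNat 431, .ofNat 456⟩, ⟨.ofNat 1325, .negSucc 44⟩, ⟨.ofNat 406, .ofNat 25⟩, ⟨.ofNat 133, .ofNat 251⟩⟩ ⟨.negSucc 2, .ofNat 3⟩ ⟨.negSucc 10, .ofNat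 59⟩ ⟨.ofNat 1, .ofNat 0⟩ 26 (.s23 ⟨⟨.negSucc 708, .ofNat 1004⟩, ⟨.ofNat 224, .ofNat 551⟩, ⟨.negSucc 96, .ofNat 311⟩, ⟨.negSucc 332, .ofNat 492⟩⟩ ⟨.ofNat 100, .ofNat 35⟩ ⟨.ofNat 1, .ofNat 0⟩ ⟨.ofNat 0, .ofNat 1⟩ 28 (.leaf 11 [0, 46, 64, 64]) (.leaf 11 [64, 61])) (.leaf 12 [64, 64, 52])) (.leaf 12 [64, 64, 32, 64, 64]))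

/-- part of a tree -/
def t45_3 : Tree := .s23 ⟨⟨.ofNat 6, .ofNat 1⟩, ⟨.ofNat 3, .ofNat 4⟩, ⟨.ofNat 2, .ofNat 1⟩, ⟨.ofNat 4, .ofNat 0⟩⟩ ⟨.negSucc 4, .ofNat 14⟩ ⟨.ofNat 1, .ofNat 0⟩ ⟨.ofNat 0, .ofNat 4⟩ 28 t45_4 (.s12 ⟨⟨.ofNat 7, .ofNat 16⟩, ⟨.negSucc 1, .ofNat 19⟩, ⟨.negSucc 1, .ofNat 9⟩, ⟨.negSucc 11, .ofNat 16⟩⟩ ⟨.ofNat 1, .ofNat 0⟩ ⟨.negSucc 19, .ofNat 65⟩ ⟨.ofNat 4, .ofNat 4⟩ 1 (.s02 ⟨⟨.ofNat 31, .ofNat 34⟩, ⟨.ofNat 88, .negSucc 4⟩, ⟨.ofNat 28, .ofNat 3⟩, ⟨.ofNat 12, .ofNat 16⟩⟩ ⟨.negSucc 0, .ofNat 1⟩ ⟨.negSucc 10, .ofNat 59⟩ ⟨.ofNat 4, .ofNat 0⟩ 0 (.leaf 11 [64, 64, 0, 24]) (.s03 ⟨⟨.ofNat 431, .ofNat 456⟩, ⟨.ofNat 1325,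 .negSucc 44⟩, ⟨.ofNat 406, .ofNat 25⟩, ⟨.ofNat 133, .ofNat 251⟩⟩ ⟨.negSucc 2, .ofNat 3⟩ ⟨.negSucc 10, .ofNat 59⟩ ⟨.ofNat 1, .ofNat 0⟩ 26 (.leaf 11 [64, 44, 59]) (.leaf 11 [43, 64, 64, 64, 0]))) (.s13 ⟨⟨.ofNat 172, .ofNat 341⟩, ⟨.negSucc 106, .ofNat 524⟩, ⟨.ofNat 3, .ofNat 169⟩, ⟨.ofNat 277, .ofNat 28⟩⟩ ⟨.ofNat 3, .ofNat 0⟩ ⟨.negSucc 19, .ofNat 65⟩ ⟨.ofNat 0, .ofNat 1⟩ 26 (.s03 ⟨⟨.ofNat 431, .ofNat 456⟩, ⟨.ofNat 1325, .negSucc 44⟩, ⟨.ofNat 406, .ofNat 25⟩, ⟨.ofNat 133, .ofNat 251⟩⟩ ⟨.negSucc 2, .ofNat 3⟩ ⟨.negSucc 10, .ofNat 59⟩ ⟨.ofNat 1, .ofNat 0⟩ 26 (.leaf 11 [64, 44, 59]) (.leaf 11 [43, 64, 64, 64, 0])) (.leaf 11 [53, 64,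 64, 49, 0, 64, 64])))

/-- part of a tree -/
def t45_2 : Tree := .s23 ⟨⟨.ofNat 14, .ofNat 0⟩, ⟨.ofNat 26, .ofNat 0⟩, ⟨.ofNat 9, .negSucc 1⟩, ⟨.ofNat 5, .ofNat 2⟩⟩ ⟨.ofNat 14, .ofNat 3⟩ ⟨.ofNat 0, .ofNat 1⟩ ⟨.ofNat 2, .ofNat 2⟩ 35 (.s12 ⟨⟨.ofNat 99, .ofNat 82⟩, ⟨.ofNat 381, .negSucc 1⟩, ⟨.ofNat 116, .negSucc 16⟩, ⟨.ofNat 52, .ofNat 45⟩⟩ ⟨.ofNat 5, .negSucc 1⟩ ⟨.negSucc 19, .ofNat 65⟩ ⟨.ofNat 0, .ofNat 4⟩ 33 (.s23 ⟨⟨.ofNat 6, .ofNat 1⟩, ⟨.ofNat 9, .ofNat 4⟩, ⟨.ofNat 3, .ofNat 0⟩, ⟨.ofNat 3, .ofNat 1⟩⟩ ⟨.ofNat 17, .ofNat 10⟩ ⟨.ofNat 5, .ofNat 0⟩ ⟨.ofNat 56, .ofNat 12⟩ 37 (.leaf 13 [29, 0, 0, 0, 0]) (.leaf 12 [64, 64, 46, 0])) (.leaf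 13 [0, 42, 0, 0, 64, 0, 0])) t45_3

/-- part of a tree -/
def t45_1 : Tree := .s02 ⟨⟨.ofNat 18, .ofNat 164⟩, ⟨.negSucc 137, .ofNat 236⟩, ⟨.negSucc 46, .ofNat 76⟩, ⟨.ofNat 5, .ofNat 64⟩⟩ ⟨.ofNat 4, .ofNat 0⟩ ⟨.ofNat 104, .ofNat 1⟩ ⟨.ofNat 0, .ofNat 1⟩ 1 t45_2 (.leaf 13 [0, 42, 64, 64, 0, 0, 64, 0, 64, 0])

/-- part of a tree -/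
def t45_0 : Tree := .s12 ⟨⟨.ofNat 132, .ofNat 26⟩, ⟨.ofNat 108, .ofNat 14⟩, ⟨.ofNat 48, .negSucc 0⟩, ⟨.ofNat 36, .ofNat 15⟩⟩ ⟨.ofNat 4, .ofNat 4⟩ ⟨.negSucc 4, .ofNat 47⟩ ⟨.ofNat 0, .ofNat 1⟩ 3 t45_1 (.leaf 13 [0, 42, 64, 64, 0, 0, 64, 0, 64, 64, 64])

/-- part of a tree -/
def t45_5 : Tree := .s02 ⟨⟨.ofNat 22, .ofNat 24⟩, ⟨.ofNat 22, .ofNat 0⟩, ⟨.ofNat 7, .ofNat 0⟩, ⟨.ofNat 15, .ofNat 0⟩⟩ ⟨.ofNat 8, .ofNat 0⟩ ⟨.ofNat 7, .ofNat 0⟩ ⟨.ofNat 1, .ofNat 0⟩ 14 (.s12 ⟨⟨.ofNat 132, .ofNat 26⟩, ⟨.ofNat 108, .ofNat 14⟩, ⟨.ofNat 48, .negSucc 0⟩, ⟨.ofNat 36, .ofNat 15⟩⟩ ⟨.ofNat 4, .ofNat 4⟩ ⟨.negSucc 4, .ofNat 47⟩ ⟨.ofNat 0, .ofNat 1⟩ 3 (.s23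 ⟨⟨.ofNat 18, .ofNat 164⟩, ⟨.negSucc 137, .ofNat 236⟩, ⟨.negSucc 46, .ofNat 76⟩, ⟨.ofNat 5, .ofNat 64⟩⟩ ⟨.ofNat 104, .ofNat 1⟩ ⟨.ofNat 4, .ofNat 0⟩ ⟨.ofNat 0, .ofNat 1⟩ 1 (.leaf 14 [64, 64, 64, 20, 0, 0, 64, 0]) (.s02 ⟨⟨.ofNat 26, .ofNat 0⟩, ⟨.ofNat 14, .ofNat 0⟩, ⟨.ofNat 9, .negSucc 1⟩, ⟨.ofNat 5, .ofNat 2⟩⟩ ⟨.ofNat 0, .ofNat 1⟩ ⟨.ofNat 14, .ofNat 3⟩ ⟨.ofNat 2, .ofNat 2⟩ 9 (.s02 ⟨⟨.ofNat 2, .ofNat 38⟩, ⟨.ofNat 38, .ofNat 2⟩, ⟨.ofNat 7, .ofNat 7⟩, ⟨.ofNat 31, .negSucc 4⟩⟩ ⟨.ofNat 0, .ofNat 3⟩ ⟨.ofNat 20, .ofNat 0⟩ ⟨.ofNat 1, .ofNat 1⟩ 5 (.s12 ⟨⟨.ofNat 7, .ofNat 16⟩, ⟨.negSucc 1, .ofNat 19⟩, ⟨.negSucc 1, .ofNat 9⟩, ⟨.negSucc 11,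 .ofNat 16⟩⟩ ⟨.ofNat 1, .ofNat 0⟩ ⟨.negSucc 19, .ofNat 65⟩ ⟨.ofNat 4, .ofNat 4⟩ 1 (.s23 ⟨⟨.ofNat 31, .ofNat 34⟩, ⟨.ofNat 88, .negSucc 4⟩, ⟨.ofNat 28, .ofNat 3⟩, ⟨.ofNat 12, .ofNat 16⟩⟩ ⟨.negSucc 10, .ofNat 59⟩ ⟨.negSucc 0, .ofNat 1⟩ ⟨.ofNat 4, .ofNat 0⟩ 0 (.leaf 11 [64, 64, 64, 52, 0, 31]) (.s02 ⟨⟨.ofNat 3, .ofNat 4⟩, ⟨.ofNat 6, .ofNat 1⟩, ⟨.ofNat 2, .ofNat 1⟩, ⟨.ofNat 4, .ofNat 0⟩⟩ ⟨.ofNat 1, .ofNat 0⟩ ⟨.ofNat 17, .ofNat 5⟩ ⟨.ofNat 12, .ofNat 0⟩ 2 (.leaf 11 [21, 64, 0, 64]) (.s03 ⟨⟨.ofNat 575, .ofNat 783⟩, ⟨.ofNat 1925, .negSucc 365⟩, ⟨.ofNat 574, .ofNat 2⟩, ⟨.ofNat 367, .ofNat 208⟩⟩ ⟨.ofNat 10, .ofNat 7⟩ ⟨.ofNat 17, .negSucc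 6⟩ ⟨.ofNat 1, .ofNat 0⟩ 4 (.leaf 11 [43]) (.s02 ⟨⟨.ofNat 3, .ofNat 2⟩, ⟨.ofNat 6, .negSucc 0⟩, ⟨.ofNat 2, .ofNat 0⟩, ⟨.ofNat 4, .negSucc 0⟩⟩ ⟨.ofNat 1, .ofNat 1⟩ ⟨.negSucc 6, .ofNat 10⟩ ⟨.ofNat 5, .ofNat 22⟩ 4 (.leaf 11 [21]) (.leaf 11 [0, 25]))))) (.leaf 11 [64, 64, 64, 52, 0, 31, 64])) (.leaf 12 [60, 64, 64, 0, 64])) (.s23 ⟨⟨.ofNat 33, .negSucc 4⟩, ⟨.ofNat 7, .ofNat 5⟩, ⟨.ofNat 9, .negSucc 1⟩, ⟨.ofNat 5, .ofNat 2⟩⟩ ⟨.negSucc 35, .ofNat 95⟩ ⟨.negSucc 1, .ofNat 3⟩ ⟨.ofNat 0, .ofNat 96⟩ 7 (.leaf 13 [0, 0, 0, 0]) (.s02 ⟨⟨.ofNat 4, .ofNat 1⟩, ⟨.ofNat 1, .ofNat 1⟩, ⟨.ofNat 1, .ofNat 0⟩, ⟨.ofNat 0, .ofNat 1⟩⟩ ⟨.negSucc 1, .ofNat 3⟩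 ⟨.ofNat 8, .ofNat 1⟩ ⟨.ofNat 56, .ofNat 12⟩ 12 (.leaf 12 [62, 0, 0, 52]) (.leaf 13 [0, 0, 0]))))) (.leaf 15 [64, 64, 64, 41, 0, 64, 64, 64])) (.s02 ⟨⟨.ofNat 17, .ofNat 33⟩, ⟨.ofNat 17, .ofNat 0⟩, ⟨.ofNat 3, .ofNat 0⟩, ⟨.ofNat 14, .ofNat 0⟩⟩ ⟨.ofNat 53, .ofNat 0⟩ ⟨.ofNat 3, .ofNat 0⟩ ⟨.ofNat 7, .ofNat 0⟩ 17 (.leaf 16 [64, 30, 0, 64, 64, 0]) (.leaf 18 [64, 0, 0]))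

/-- part of a tree -/
def t45 : Tree := .s03 ⟨⟨.negSucc 10, .ofNat 45⟩, ⟨.ofNat 7, .ofNat 24⟩, ⟨.negSucc 6, .ofNat 7⟩, ⟨.negSucc 9, .ofNat 17⟩⟩ ⟨.ofNat 5, .ofNat 2⟩ ⟨.negSucc 0, .ofNat 1⟩ ⟨.ofNat 1, .ofNat 0⟩ 3 t45_0 t45_5

theorem g45 : Good (PE lin H) ⟨⟨.ofNat 1, .ofNat 3⟩, ⟨.ofNat 1, .ofNat 0⟩, ⟨.ofNat 0, .ofNat 0⟩, ⟨.ofNat 1, .ofNat 0⟩⟩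
    ⟨⟨.ofNat 2, .ofNat 7⟩, ⟨.ofNat 5, .ofNat 1⟩, ⟨.ofNat 2, .negSucc 0⟩, ⟨.ofNat 9, .negSucc 3⟩⟩
    ⟨⟨.ofNat 2, .ofNat 0⟩, ⟨.ofNat 2, .ofNat 0⟩, ⟨.ofNat 1, .ofNat 0⟩, ⟨.ofNat 1, .ofNat 0⟩⟩
    ⟨⟨.ofNat 22, .ofNat 0⟩, ⟨.ofNat 22, .ofNat 24⟩, ⟨.ofNat 7, .ofNat 0⟩, ⟨.ofNat 15, .ofNat 0⟩⟩ :=
  goodE lin H t45 19 11 0 40 (by decide +kernel)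

/-- part of a tree -/
def t48 : Tree := .s01 ⟨⟨.ofNat 2, .ofNat 1⟩, ⟨.ofNat 0, .ofNat 1⟩, ⟨.ofNat 0, .ofNat 0⟩, ⟨.negSucc 0, .ofNat 1⟩⟩ ⟨.ofNat 1, .ofNat 0⟩ ⟨.ofNat 0, .ofNat 1⟩ ⟨.ofNat 0, .ofNat 1⟩ 12 (.s23 ⟨⟨.ofNat 17, .ofNat 0⟩, ⟨.ofNat 17, .ofNat 51⟩, ⟨.ofNat 3, .ofNat 0⟩, ⟨.ofNat 14, .ofNat 0⟩⟩ ⟨.ofNat 3, .ofNat 0⟩ ⟨.ofNat 11, .ofNat 0⟩ ⟨.ofNat 1, .ofNat 0⟩ 45 (.leaf 19 [64, 64, 0]) (.leaf 16 [64, 42, 64, 0])) (.s02 ⟨⟨.ofNat 2, .ofNat 7⟩, ⟨.ofNat 5, .ofNat 1⟩, ⟨.ofNat 2, .negSucc 0⟩, ⟨.ofNat 9, .negSucc 3⟩⟩ ⟨.ofNat 4, .ofNat 1⟩ ⟨.ofNat 1, .ofNat 0⟩ ⟨.ofNat 1, .ofNat 1⟩ 11 (.s23 ⟨⟨.ofNat 17, .ofNat 0⟩, ⟨.ofNat 17, .ofNat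 51⟩, ⟨.ofNat 3, .ofNat 0⟩, ⟨.ofNat 14, .ofNat 0⟩⟩ ⟨.ofNat 3, .ofNat 0⟩ ⟨.ofNat 11, .ofNat 0⟩ ⟨.ofNat 1, .ofNat 0⟩ 45 (.leaf 19 [64, 64]) (.leaf 16 [64, 43, 64, 64])) (.s03 ⟨⟨.ofNat 1, .ofNat 1⟩, ⟨.ofNat 0, .ofNat 1⟩, ⟨.ofNat 0, .ofNat 0⟩, ⟨.negSucc 0, .ofNat 1⟩⟩ ⟨.ofNat 2, .ofNat 0⟩ ⟨.ofNat 1, .ofNat 0⟩ ⟨.ofNat 0, .ofNat 3⟩ 6 (.leaf 20 [0, 54]) (.leaf 20 [0])))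

theorem g48 : Good (PE lin H) ⟨⟨.ofNat 1, .ofNat 3⟩, ⟨.ofNat 1, .ofNat 0⟩, ⟨.ofNat 0, .ofNat 0⟩, ⟨.ofNat 1, .ofNat 0⟩⟩
    ⟨⟨.ofNat 0, .ofNat 0⟩, ⟨.ofNat 1, .ofNat 0⟩, ⟨.ofNat 0, .ofNat 0⟩, ⟨.ofNat 0, .ofNat 0⟩⟩
    ⟨⟨.ofNat 2, .ofNat 0⟩, ⟨.ofNat 2, .ofNat 6⟩, ⟨.ofNat 1, .ofNat 0⟩, ⟨.ofNat 1, .ofNat 0⟩⟩
    ⟨⟨.ofNat 1, .ofNat 0⟩, ⟨.ofNat 1, .ofNat 3⟩, ⟨.ofNat 0, .ofNat 0⟩, ⟨.ofNat 1, .ofNat 0⟩⟩ :=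
  goodE lin H t48 19 51 45 45 (by decide +kernel)

end

end Pool.Agent.PHCert.E3
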