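import Pool.Agent.PHCert.E3H

/-!
# PHCert: inequality E3, part 8 (64 leaves, checked by the kernel)
-/

set_option autoImplicit false

namespace Pool.Agent.PHCert.E3

open Zp Pool.Agent.PHCert

noncomputable section

/-- part of a tree -/
def t51_2 : Tree := .s23 ⟨⟨.ofNat 2, .ofNat 38⟩, ⟨.ofNat 38, .ofNat 2⟩, ⟨.ofNat 7, .ofNat 7⟩, ⟨.ofNat 31, .negSucc 4⟩⟩ ⟨.negSucc 9, .ofNat 147⟩ ⟨.ofNat 12, .ofNat 0⟩ ⟨.ofNat 7, .ofNat 7⟩ 5 (.s23 ⟨⟨.ofNat 26, .ofNat 0⟩, ⟨.ofNat 14, .ofNat 0⟩, ⟨.ofNat 9, .negSucc 1⟩, ⟨.ofNat 5, .ofNat 2⟩⟩ ⟨.ofNat 49, .negSucc 0⟩ ⟨.negSucc 79, .ofNat 80⟩ ⟨.negSucc 9, .ofNat 147⟩ 9 (.leaf 12 [64,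 32, 0, 5]) (.leaf 12 [64, 64, 64, 37])) (.s02 ⟨⟨.ofNat 1, .ofNat 1⟩, ⟨.ofNat 2, .ofNat 0⟩, ⟨.ofNat 1, .ofNat 0⟩, ⟨.ofNat 1, .ofNat 0⟩⟩ ⟨.ofNat 1, .ofNat 0⟩ ⟨.negSucc 6, .ofNat 12⟩ ⟨.ofNat 0, .ofNat 12⟩ 3 (.s12 ⟨⟨.ofNat 7, .ofNat 16⟩, ⟨.negSucc 1, .ofNat 19⟩, ⟨.negSucc 1, .ofNat 9⟩, ⟨.negSucc 11, .ofNat 16⟩⟩ ⟨.ofNat 1, .ofNat 0⟩ ⟨.negSucc 19, .ofNat 65⟩ ⟨.ofNat 4, .ofNat 4⟩ 1 (.s23 ⟨⟨.ofNat 3, .ofNat 4⟩, ⟨.ofNat 6, .ofNat 1⟩, ⟨.ofNat 2, .ofNat 1⟩, ⟨.ofNat 4, .ofNat 0⟩⟩ ⟨.ofNat 17, .ofNat 5⟩ ⟨.ofNat 1, .ofNat 0⟩ ⟨.ofNat 12, .ofNat 0⟩ 2 (.s03 ⟨⟨.ofNat 51, .ofNat 27⟩, ⟨.negSucc 25, .ofNat 58⟩, ⟨.ofNat 5, .ofNat 17⟩,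 ⟨.negSucc 30, .ofNat 41⟩⟩ ⟨.ofNat 0, .ofNat 5⟩ ⟨.negSucc 2, .ofNat 2⟩ ⟨.ofNat 2, .negSucc 0⟩ 4 (.s23 ⟨⟨.ofNat 3, .ofNat 2⟩, ⟨.ofNat 6, .negSucc 0⟩, ⟨.ofNat 2, .ofNat 0⟩, ⟨.ofNat 4, .negSucc 0⟩⟩ ⟨.negSucc 6, .ofNat 10⟩ ⟨.ofNat 1, .ofNat 1⟩ ⟨.ofNat 5, .ofNat 22⟩ 4 (.leaf 11 [0, 25]) (.s02 ⟨⟨.ofNat 23, .ofNat 101⟩, ⟨.negSucc 68, .ofNat 127⟩, ⟨.negSucc 13, .ofNat 49⟩, ⟨.negSucc 54, .ofNat 78⟩⟩ ⟨.ofNat 2, .ofNat 3⟩ ⟨.ofNat 10, .ofNat 3⟩ ⟨.ofNat 1, .ofNat 2⟩ 3 (.leaf 11 [21]) (.leaf 11 [21, 0]))) (.leaf 10 [48])) (.leaf 10 [8, 0, 23])) (.s01 ⟨⟨.ofNat 283, .negSucc 15⟩, ⟨.ofNat 202, .negSucc 3⟩, ⟨.ofNat 97, .negSucc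 3⟩, ⟨.ofNat 57, .ofNat 24⟩⟩ ⟨.ofNat 0, .ofNat 45⟩ ⟨.ofNat 2, .negSucc 0⟩ ⟨.ofNat 1, .ofNat 0⟩ 3 (.leaf 11 [64, 64, 0, 24, 64]) (.s03 ⟨⟨.ofNat 51, .ofNat 27⟩, ⟨.negSucc 25, .ofNat 58⟩, ⟨.ofNat 5, .ofNat 17⟩, ⟨.negSucc 30, .ofNat 41⟩⟩ ⟨.ofNat 0, .ofNat 5⟩ ⟨.negSucc 2, .ofNat 2⟩ ⟨.ofNat 2, .negSucc 0⟩ 4 (.leaf 11 [0, 25]) (.leaf 10 [26])))) (.s12 ⟨⟨.ofNat 283, .negSucc 15⟩, ⟨.ofNat 202, .negSucc 3⟩, ⟨.ofNat 97, .negSucc 3⟩, ⟨.ofNat 57, .ofNat 24⟩⟩ ⟨.ofNat 2, .negSucc 0⟩ ⟨.ofNat 0, .ofNat 45⟩ ⟨.ofNat 1, .ofNat 0⟩ 3 (.s23 ⟨⟨.ofNat 51, .ofNat 27⟩, ⟨.negSucc 25, .ofNat 58⟩, ⟨.ofNat 5, .ofNat 17⟩, ⟨.negSucc 30, .ofNat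 41⟩⟩ ⟨.ofNat 0, .ofNat 5⟩ ⟨.negSucc 2, .ofNat 2⟩ ⟨.ofNat 2, .negSucc 0⟩ 4 (.leaf 11 [51]) (.leaf 10 [28, 48])) (.leaf 11 [64, 41, 43])))

/-- part of a tree -/
def t51_1 : Tree := .s02 ⟨⟨.ofNat 26, .ofNat 0⟩, ⟨.ofNat 14, .ofNat 0⟩, ⟨.ofNat 7, .ofNat 0⟩, ⟨.ofNat 7, .ofNat 0⟩⟩ ⟨.ofNat 2, .ofNat 0⟩ ⟨.negSucc 1, .ofNat 7⟩ ⟨.ofNat 0, .ofNat 1⟩ 9 t51_2 (.leaf 12 [64, 64, 64, 8, 0, 64, 64, 64, 22])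

/-- part of a tree -/
def t51_0 : Tree := .s12 ⟨⟨.ofNat 132, .ofNat 26⟩, ⟨.ofNat 108, .ofNat 14⟩, ⟨.ofNat 48, .negSucc 0⟩, ⟨.ofNat 36, .ofNat 15⟩⟩ ⟨.ofNat 4, .ofNat 4⟩ ⟨.negSucc 4, .ofNat 47⟩ ⟨.ofNat 0, .ofNat 1⟩ 3 t51_1 (.leaf 13 [64, 64, 44, 64, 0, 0, 64, 64, 64, 0])

/-- part of a tree -/
def t51 : Tree := .s23 ⟨⟨.ofNat 25, .ofNat 21⟩, ⟨.ofNat 25, .ofNat 0⟩, ⟨.ofNat 9, .ofNat 0⟩, ⟨.ofNat 16, .ofNat 0⟩⟩ ⟨.ofNat 9, .ofNat 0⟩ ⟨.ofNat 7, .ofNat 0⟩ ⟨.ofNat 1, .ofNat 0⟩ 13 (.s03 ⟨⟨.ofNat 11, .ofNat 33⟩, ⟨.ofNat 11, .ofNat 0⟩, ⟨.ofNat 3, .ofNat 0⟩, ⟨.ofNat 8, .ofNat 0⟩⟩ ⟨.ofNat 3, .ofNat 0⟩ ⟨.ofNat 5, .ofNat 0⟩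 ⟨.ofNat 1, .ofNat 0⟩ 19 (.s23 ⟨⟨.ofNat 9, .ofNat 15⟩, ⟨.ofNat 9, .ofNat 0⟩, ⟨.ofNat 2, .ofNat 0⟩, ⟨.ofNat 7, .ofNat 0⟩⟩ ⟨.ofNat 2, .ofNat 0⟩ ⟨.ofNat 31, .ofNat 0⟩ ⟨.ofNat 9, .ofNat 0⟩ 16 (.leaf 18 [64, 64, 0]) (.leaf 15 [64, 64, 0, 64, 64, 1])) (.leaf 14 [64, 56, 26, 64, 64, 64, 0, 0])) t51_0

theorem g51 : Good (PE lin H) ⟨⟨.ofNat 2, .ofNat 6⟩, ⟨.ofNat 2, .ofNat 0⟩, ⟨.ofNat 1, .ofNat 0⟩, ⟨.ofNat 1, .ofNat 0⟩⟩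
    ⟨⟨.ofNat 2, .ofNat 7⟩, ⟨.ofNat 5, .ofNat 1⟩, ⟨.ofNat 2, .negSucc 0⟩, ⟨.ofNat 9, .negSucc 3⟩⟩
    ⟨⟨.ofNat 2, .ofNat 0⟩, ⟨.ofNat 2, .ofNat 0⟩, ⟨.ofNat 1, .ofNat 0⟩, ⟨.ofNat 1, .ofNat 0⟩⟩
    ⟨⟨.ofNat 1, .ofNat 3⟩, ⟨.ofNat 1, .ofNat 0⟩, ⟨.ofNat 0, .ofNat 0⟩, ⟨.ofNat 1, .ofNat 0⟩⟩ :=
  goodE lin H t51 19 11 0 19 (by decide +kernel)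

/-- part of a tree -/
def t52 : Tree := .s23 ⟨⟨.ofNat 7, .ofNat 16⟩, ⟨.negSucc 1, .ofNat 19⟩, ⟨.negSucc 1, .ofNat 9⟩, ⟨.negSucc 11, .ofNat 16⟩⟩ ⟨.ofNat 1, .ofNat 7⟩ ⟨.negSucc 0, .ofNat 1⟩ ⟨.ofNat 1, .ofNat 0⟩ 1 (.s13 ⟨⟨.ofNat 1, .ofNat 3⟩, ⟨.ofNat 0, .ofNat 4⟩, ⟨.negSucc 0, .ofNat 2⟩, ⟨.negSucc 3, .ofNat 4⟩⟩ ⟨.ofNat 1, .ofNat 7⟩ ⟨.negSucc 0, .ofNat 1⟩ ⟨.ofNat 4, .ofNat 1⟩ 27 (.s03 ⟨⟨.negSucc 1, .ofNat 10⟩, ⟨.ofNat 3, .ofNat 4⟩, ⟨.ofNat 2, .ofNat 1⟩, ⟨.ofNat 19, .negSucc 8⟩⟩ ⟨.ofNat 4, .ofNat 1⟩ ⟨.negSucc 0, .ofNat 1⟩ ⟨.ofNat 0, .ofNat 1⟩ 4 (.s23 ⟨⟨.ofNat 13, .ofNat 4⟩, ⟨.ofNat 4, .ofNat 7⟩, ⟨.ofNat 1, .ofNat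 3⟩, ⟨.negSucc 8, .ofNat 10⟩⟩ ⟨.ofNat 4, .ofNat 1⟩ ⟨.ofNat 9, .negSucc 2⟩ ⟨.ofNat 1, .ofNat 7⟩ 2 (.leaf 12 [64, 64, 64, 64, 64, 64, 0, 32, 64, 64, 64, 0]) (.leaf 11 [64, 39, 64, 0, 49, 64])) (.s01 ⟨⟨.ofNat 2, .ofNat 2⟩, ⟨.ofNat 2, .ofNat 2⟩, ⟨.ofNat 2, .ofNat 0⟩, ⟨.ofNat 7, .negSucc 2⟩⟩ ⟨.ofNat 1, .ofNat 0⟩ ⟨.ofNat 1, .ofNat 0⟩ ⟨.ofNat 0, .ofNat 1⟩ 0 (.leaf 11 [64, 39, 64, 0, 49, 64]) (.leaf 10 [64, 64, 11, 35, 64]))) (.s03 ⟨⟨.ofNat 2, .ofNat 2⟩, ⟨.ofNat 2, .ofNat 2⟩, ⟨.ofNat 2, .ofNat 0⟩, ⟨.ofNat 7, .negSucc 2⟩⟩ ⟨.ofNat 1, .ofNat 0⟩ ⟨.ofNat 1, .ofNat 0⟩ ⟨.ofNat 0, .ofNat 1⟩ 0 (.s13 ⟨⟨.negSucc 3, .ofNat 7⟩, ⟨.ofNat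 4, .ofNat 3⟩, ⟨.ofNat 0, .ofNat 2⟩, ⟨.ofNat 5, .negSucc 0⟩⟩ ⟨.ofNat 3, .ofNat 0⟩ ⟨.ofNat 1, .ofNat 0⟩ ⟨.ofNat 0, .ofNat 1⟩ 28 (.leaf 10 [0, 39, 0]) (.s01 ⟨⟨.negSucc 1, .ofNat 6⟩, ⟨.ofNat 2, .ofNat 4⟩, ⟨.ofNat 0, .ofNat 2⟩, ⟨.ofNat 5, .negSucc 0⟩⟩ ⟨.ofNat 0, .ofNat 1⟩ ⟨.ofNat 2, .ofNat 0⟩ ⟨.ofNat 0, .ofNat 1⟩ 27 (.leaf 10 [64, 45]) (.leaf 10 [64, 47, 9]))) (.s13 ⟨⟨.negSucc 1, .ofNat 6⟩, ⟨.ofNat 2, .ofNat 4⟩, ⟨.ofNat 0, .ofNat 2⟩, ⟨.ofNat 5, .negSucc 0⟩⟩ ⟨.ofNat 2, .ofNat 0⟩ ⟨.ofNat 0, .ofNat 1⟩ ⟨.ofNat 0, .ofNat 1⟩ 27 (.leaf 10 [0, 33]) (.leaf 10 [63])))) (.leaf 10 [63, 0, 0])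

theorem g52 : Good (PE lin H) ⟨⟨.ofNat 1, .ofNat 1⟩, ⟨.ofNat 2, .ofNat 0⟩, ⟨.ofNat 1, .ofNat 0⟩, ⟨.ofNat 1, .ofNat 0⟩⟩
    ⟨⟨.ofNat 2, .ofNat 0⟩, ⟨.ofNat 1, .ofNat 1⟩, ⟨.ofNat 1, .ofNat 0⟩, ⟨.ofNat 1, .ofNat 0⟩⟩
    ⟨⟨.ofNat 2, .ofNat 0⟩, ⟨.ofNat 2, .ofNat 0⟩, ⟨.ofNat 1, .ofNat 0⟩, ⟨.ofNat 1, .ofNat 0⟩⟩
    ⟨⟨.ofNat 2, .ofNat 7⟩, ⟨.ofNat 5, .ofNat 1⟩, ⟨.ofNat 2, .negSucc 0⟩, ⟨.ofNat 9, .negSucc 3⟩⟩ :=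
  goodE lin H t52 3 29 0 11 (by decide +kernel)

/-- part of a tree -/
def t53_2 : Tree := .s23 ⟨⟨.ofNat 10, .ofNat 33⟩, ⟨.negSucc 14, .ofNat 37⟩, ⟨.negSucc 7, .ofNat 17⟩, ⟨.negSucc 0, .ofNat 14⟩⟩ ⟨.ofNat 13, .ofNat 2⟩ ⟨.ofNat 1, .ofNat 2⟩ ⟨.ofNat 0, .ofNat 1⟩ 4 (.s13 ⟨⟨.ofNat 19, .ofNat 39⟩, ⟨.ofNat 30, .ofNat 34⟩, ⟨.negSucc 0, .ofNat 20⟩, ⟨.negSucc 54, .ofNat 55⟩⟩ ⟨.ofNat 1, .ofNat 7⟩ ⟨.ofNat 3, .ofNat 0⟩ ⟨.ofNat 0, .ofNat 1⟩ 26 (.leaf 10 [64, 47, 64, 57, 0]) (.s12 ⟨⟨.negSucc 27, .ofNat 130⟩, ⟨.ofNat 43, .ofNat 90⟩, ⟨.negSucc 3, .ofNat 47⟩, ⟨.ofNat 62, .ofNat 9⟩⟩ ⟨.ofNat 13, .ofNat 2⟩ ⟨.ofNat 1, .ofNat 0⟩ ⟨.ofNat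 1, .ofNat 0⟩ 26 (.leaf 10 [29, 63, 64, 12]) (.s01 ⟨⟨.ofNat 17, .ofNat 2⟩, ⟨.ofNat 8, .ofNat 8⟩, ⟨.ofNat 8, .ofNat 0⟩, ⟨.ofNat 0, .ofNat 5⟩⟩ ⟨.ofNat 0, .ofNat 1⟩ ⟨.ofNat 1, .ofNat 0⟩ ⟨.ofNat 0, .ofNat 1⟩ 26 (.leaf 10 [0, 14]) (.leaf 10 [49, 0])))) (.s23 ⟨⟨.ofNat 7, .ofNat 28⟩, ⟨.ofNat 3, .ofNat 22⟩, ⟨.ofNat 2, .ofNat 10⟩, ⟨.ofNat 19, .ofNat 0⟩⟩ ⟨.ofNat 20, .ofNat 5⟩ ⟨.ofNat 1, .ofNat 0⟩ ⟨.ofNat 1, .ofNat 1⟩ 3 (.s13 ⟨⟨.ofNat 97, .ofNat 103⟩, ⟨.ofNat 208, .ofNat 32⟩, ⟨.ofNat 91, .ofNat 6⟩, ⟨.ofNat 72, .ofNat 22⟩⟩ ⟨.ofNat 1, .ofNat 7⟩ ⟨.ofNat 6, .negSucc 2⟩ ⟨.negSucc 0, .ofNat 1⟩ 0 (.leaf 10 [55, 9]) (.s12 ⟨⟨.ofNat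 2, .ofNat 4⟩, ⟨.negSucc 1, .ofNat 6⟩, ⟨.ofNat 0, .ofNat 2⟩, ⟨.ofNat 5, .negSucc 0⟩⟩ ⟨.ofNat 6, .ofNat 1⟩ ⟨.negSucc 2, .ofNat 3⟩ ⟨.negSucc 2, .ofNat 13⟩ 1 (.leaf 10 [55, 9]) (.s12 ⟨⟨.negSucc 1, .ofNat 6⟩, ⟨.ofNat 2, .ofNat 4⟩, ⟨.ofNat 0, .ofNat 2⟩, ⟨.ofNat 5, .negSucc 0⟩⟩ ⟨.ofNat 2, .ofNat 0⟩ ⟨.ofNat 1, .ofNat 0⟩ ⟨.ofNat 3, .ofNat 0⟩ 27 (.leaf 10 [0, 10]) (.s01 ⟨⟨.ofNat 17, .ofNat 2⟩, ⟨.ofNat 8, .ofNat 8⟩, ⟨.ofNat 8, .ofNat 0⟩, ⟨.ofNat 0, .ofNat 5⟩⟩ ⟨.ofNat 0, .ofNat 1⟩ ⟨.ofNat 1, .ofNat 0⟩ ⟨.ofNat 0, .ofNat 1⟩ 26 (.leaf 10 [0, 15, 18]) (.leaf 10 [0, 10]))))) (.s02 ⟨⟨.ofNat 1, .ofNat 1⟩, ⟨.ofNat 4, .negSucc 0⟩,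 ⟨.ofNat 1, .ofNat 0⟩, ⟨.ofNat 1, .ofNat 0⟩⟩ ⟨.ofNat 1, .ofNat 0⟩ ⟨.negSucc 4, .ofNat 5⟩ ⟨.ofNat 1, .ofNat 5⟩ 1 (.s13 ⟨⟨.ofNat 2, .ofNat 4⟩, ⟨.negSucc 1, .ofNat 6⟩, ⟨.ofNat 0, .ofNat 2⟩, ⟨.ofNat 5, .negSucc 0⟩⟩ ⟨.ofNat 6, .ofNat 1⟩ ⟨.negSucc 2, .ofNat 3⟩ ⟨.negSucc 2, .ofNat 13⟩ 1 (.leaf 10 [37]) (.leaf 10 [56, 64])) (.s13 ⟨⟨.ofNat 2, .ofNat 4⟩, ⟨.negSucc 1, .ofNat 6⟩, ⟨.ofNat 0, .ofNat 2⟩, ⟨.ofNat 5, .negSucc 0⟩⟩ ⟨.ofNat 6, .ofNat 1⟩ ⟨.negSucc 2, .ofNat 3⟩ ⟨.negSucc 2, .ofNat 13⟩ 1 (.leaf 10 [48, 9]) (.s12 ⟨⟨.negSucc 2, .ofNat 9⟩, ⟨.ofNat 3, .ofNat 6⟩, ⟨.ofNat 0, .ofNat 3⟩, ⟨.ofNat 5, .ofNat 0⟩⟩ ⟨.ofNat 1, .ofNat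 0⟩ ⟨.ofNat 0, .ofNat 1⟩ ⟨.ofNat 1, .ofNat 0⟩ 27 (.leaf 10 [0, 10]) (.s13 ⟨⟨.negSucc 1, .ofNat 6⟩, ⟨.ofNat 2, .ofNat 4⟩, ⟨.ofNat 0, .ofNat 2⟩, ⟨.ofNat 5, .negSucc 0⟩⟩ ⟨.ofNat 2, .ofNat 0⟩ ⟨.ofNat 1, .ofNat 0⟩ ⟨.ofNat 3, .ofNat 0⟩ 27 (.leaf 10 [0, 10]) (.s01 ⟨⟨.ofNat 17, .ofNat 2⟩, ⟨.ofNat 8, .ofNat 8⟩, ⟨.ofNat 8, .ofNat 0⟩, ⟨.ofNat 0, .ofNat 5⟩⟩ ⟨.ofNat 0, .ofNat 1⟩ ⟨.ofNat 1, .ofNat 0⟩ ⟨.ofNat 0, .ofNat 1⟩ 26 (.leaf 10 [0, 16]) (.leaf 10 [0, 10])))))))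

/-- part of a tree -/
def t53_1 : Tree := .s23 ⟨⟨.negSucc 1, .ofNat 10⟩, ⟨.ofNat 3, .ofNat 4⟩, ⟨.ofNat 2, .ofNat 1⟩, ⟨.ofNat 19, .negSucc 8⟩⟩ ⟨.ofNat 4, .ofNat 1⟩ ⟨.negSucc 0, .ofNat 1⟩ ⟨.ofNat 0, .ofNat 1⟩ 4 (.s03 ⟨⟨.negSucc 4, .ofNat 38⟩, ⟨.ofNat 11, .ofNat 27⟩, ⟨.negSucc 4, .ofNat 16⟩, ⟨.ofNat 39, .negSucc 10⟩⟩ ⟨.ofNat 4, .ofNat 1⟩ ⟨.negSucc 2, .ofNat 2⟩ ⟨.ofNat 0, .ofNat 1⟩ 0 (.s13 ⟨⟨.ofNat 1, .ofNat 3⟩, ⟨.ofNat 0, .ofNat 4⟩, ⟨.negSucc 0, .ofNat 2⟩, ⟨.negSucc 3, .ofNat 4⟩⟩ ⟨.ofNat 1, .ofNat 7⟩ ⟨.ofNat 6, .negSucc 2⟩ ⟨.negSucc 2, .ofNat 13⟩ 27 (.leaf 10 [64, 64, 64, 64, 64, 64, 25, 0, 64, 64, 64, 0]) (.s12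 ⟨⟨.ofNat 19, .ofNat 39⟩, ⟨.ofNat 30, .ofNat 34⟩, ⟨.negSucc 0, .ofNat 20⟩, ⟨.negSucc 54, .ofNat 55⟩⟩ ⟨.ofNat 1, .ofNat 7⟩ ⟨.ofNat 3, .ofNat 0⟩ ⟨.ofNat 0, .ofNat 1⟩ 26 (.leaf 11 [64, 64, 37, 0]) (.leaf 10 [0, 52, 64, 0]))) (.s12 ⟨⟨.ofNat 19, .ofNat 39⟩, ⟨.ofNat 30, .ofNat 34⟩, ⟨.negSucc 0, .ofNat 20⟩, ⟨.negSucc 54, .ofNat 55⟩⟩ ⟨.ofNat 1, .ofNat 7⟩ ⟨.ofNat 3, .ofNat 0⟩ ⟨.ofNat 0, .ofNat 1⟩ 26 (.leaf 10 [64, 47, 64, 57, 0]) (.s01 ⟨⟨.ofNat 17, .ofNat 2⟩, ⟨.ofNat 8, .ofNat 8⟩, ⟨.ofNat 8, .ofNat 0⟩, ⟨.ofNat 0, .ofNat 5⟩⟩ ⟨.ofNat 0, .ofNat 1⟩ ⟨.ofNat 1, .ofNat 0⟩ ⟨.ofNat 0, .ofNat 1⟩ 26 (.leaf 10 [0, 52, 64, 0]) (.leaf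 10 [52, 44, 64, 0])))) t53_2

/-- part of a tree -/
def t53_0 : Tree := .s13 ⟨⟨.negSucc 3, .ofNat 7⟩, ⟨.ofNat 4, .ofNat 3⟩, ⟨.ofNat 0, .ofNat 2⟩, ⟨.ofNat 5, .negSucc 0⟩⟩ ⟨.negSucc 2, .ofNat 13⟩ ⟨.ofNat 2, .negSucc 0⟩ ⟨.ofNat 4, .ofNat 1⟩ 28 t53_1 (.s01 ⟨⟨.ofNat 20, .negSucc 3⟩, ⟨.ofNat 0, .ofNat 9⟩, ⟨.ofNat 4, .ofNat 1⟩, ⟨.ofNat 4, .ofNat 1⟩⟩ ⟨.ofNat 0, .ofNat 1⟩ ⟨.ofNat 5, .ofNat 0⟩ ⟨.ofNat 1, .ofNat 1⟩ 26 (.leaf 10 [64, 61]) (.s02 ⟨⟨.ofNat 1, .ofNat 1⟩, ⟨.ofNat 4, .negSucc 0⟩, ⟨.ofNat 1, .ofNat 0⟩, ⟨.ofNat 1, .ofNat 0⟩⟩ ⟨.ofNat 1, .ofNat 0⟩ ⟨.negSucc 4, .ofNat 5⟩ ⟨.ofNat 1, .ofNat 5⟩ 1 (.leaf 10 [56, 64]) (.s23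 ⟨⟨.negSucc 2, .ofNat 9⟩, ⟨.ofNat 3, .ofNat 6⟩, ⟨.ofNat 0, .ofNat 3⟩, ⟨.ofNat 5, .ofNat 0⟩⟩ ⟨.ofNat 0, .ofNat 1⟩ ⟨.ofNat 1, .ofNat 0⟩ ⟨.ofNat 1, .ofNat 0⟩ 27 (.s03 ⟨⟨.ofNat 17, .ofNat 2⟩, ⟨.ofNat 8, .ofNat 8⟩, ⟨.ofNat 8, .ofNat 0⟩, ⟨.ofNat 0, .ofNat 5⟩⟩ ⟨.ofNat 0, .ofNat 1⟩ ⟨.ofNat 1, .ofNat 0⟩ ⟨.ofNat 0, .ofNat 1⟩ 26 (.leaf 10 [0, 31, 23]) (.leaf 10 [0, 10])) (.leaf 10 [0, 10]))))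

/-- part of a tree -/
def t53 : Tree := .s01 ⟨⟨.ofNat 6, .ofNat 6⟩, ⟨.ofNat 9, .ofNat 4⟩, ⟨.ofNat 6, .ofNat 0⟩, ⟨.ofNat 6, .ofNat 0⟩⟩ ⟨.ofNat 2, .negSucc 0⟩ ⟨.ofNat 4, .ofNat 1⟩ ⟨.ofNat 1, .ofNat 0⟩ 0 t53_0 (.s23 ⟨⟨.ofNat 211, .ofNat 185⟩, ⟨.ofNat 289, .ofNat 35⟩, ⟨.ofNat 130, .ofNat 4⟩, ⟨.ofNat 45, .ofNat 73⟩⟩ ⟨.negSucc 14, .ofNat 141⟩ ⟨.ofNat 12, .ofNat 5⟩ ⟨.ofNat 0, .ofNat 1⟩ 4 (.s13 ⟨⟨.negSucc 309, .ofNat 1161⟩, ⟨.negSucc 309, .ofNat 1059⟩, ⟨.negSucc 685, .ofNat 731⟩, ⟨.ofNat 469, .ofNat 46⟩⟩ ⟨.negSucc 14, .ofNat 141⟩ ⟨.ofNat 65, .negSucc 4⟩ ⟨.ofNat 1, .ofNat 1⟩ 1 (.leaf 12 [64, 64, 14, 64, 0, 0, 64, 37,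 0, 0]) (.s01 ⟨⟨.ofNat 170, .negSucc 27⟩, ⟨.negSucc 9, .ofNat 68⟩, ⟨.ofNat 28, .ofNat 7⟩, ⟨.ofNat 28, .ofNat 7⟩⟩ ⟨.ofNat 65, .negSucc 4⟩ ⟨.ofNat 30, .ofNat 72⟩ ⟨.ofNat 6, .ofNat 11⟩ 2 (.leaf 10 [55, 64]) (.leaf 10 [64, 31, 64, 0, 0, 64, 49, 0, 0]))) (.s02 ⟨⟨.ofNat 26, .ofNat 0⟩, ⟨.ofNat 14, .ofNat 0⟩, ⟨.ofNat 7, .ofNat 0⟩, ⟨.ofNat 7, .ofNat 0⟩⟩ ⟨.ofNat 19, .negSucc 6⟩ ⟨.negSucc 11, .ofNat 42⟩ ⟨.ofNat 1, .ofNat 5⟩ 9 (.s23 ⟨⟨.ofNat 7, .ofNat 28⟩, ⟨.ofNat 3, .ofNat 22⟩, ⟨.ofNat 2, .ofNat 10⟩, ⟨.ofNat 19, .ofNat 0⟩⟩ ⟨.ofNat 200, .ofNat 50⟩ ⟨.negSucc 0, .ofNat 1⟩ ⟨.ofNat 12, .ofNat 5⟩ 3 (.leaf 10 [64, 4]) (.s02 ⟨⟨.ofNat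 3, .ofNat 0⟩, ⟨.ofNat 2, .ofNat 0⟩, ⟨.ofNat 1, .ofNat 0⟩, ⟨.ofNat 1, .ofNat 0⟩⟩ ⟨.negSucc 0, .ofNat 1⟩ ⟨.ofNat 0, .ofNat 5⟩ ⟨.negSucc 6, .ofNat 12⟩ 4 (.s12 ⟨⟨.ofNat 1, .ofNat 1⟩, ⟨.ofNat 4, .negSucc 0⟩, ⟨.ofNat 1, .ofNat 0⟩, ⟨.ofNat 1, .ofNat 0⟩⟩ ⟨.ofNat 1, .ofNat 0⟩ ⟨.negSucc 4, .ofNat 5⟩ ⟨.ofNat 1, .ofNat 5⟩ 1 (.leaf 10 []) (.leaf 10 [4])) (.leaf 10 [4]))) (.s01 ⟨⟨.ofNat 170, .negSucc 27⟩, ⟨.negSucc 9, .ofNat 68⟩, ⟨.ofNat 28, .ofNat 7⟩, ⟨.ofNat 28, .ofNat 7⟩⟩ ⟨.ofNat 65, .negSucc 4⟩ ⟨.ofNat 30, .ofNat 72⟩ ⟨.ofNat 6, .ofNat 11⟩ 2 (.leaf 10 [62]) (.leaf 10 [64, 64, 39, 0, 64, 30, 0, 0]))))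

theorem g53 : Good (PE lin H) ⟨⟨.ofNat 2, .ofNat 6⟩, ⟨.ofNat 2, .ofNat 0⟩, ⟨.ofNat 1, .ofNat 0⟩, ⟨.ofNat 1, .ofNat 0⟩⟩
    ⟨⟨.ofNat 2, .ofNat 0⟩, ⟨.ofNat 1, .ofNat 1⟩, ⟨.ofNat 1, .ofNat 0⟩, ⟨.ofNat 1, .ofNat 0⟩⟩
    ⟨⟨.ofNat 1, .ofNat 1⟩, ⟨.ofNat 2, .ofNat 0⟩, ⟨.ofNat 1, .ofNat 0⟩, ⟨.ofNat 1, .ofNat 0⟩⟩
    ⟨⟨.ofNat 2, .ofNat 7⟩, ⟨.ofNat 5, .ofNat 1⟩, ⟨.ofNat 2, .negSucc 0⟩, ⟨.ofNat 9, .negSucc 3⟩⟩ :=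
  goodE lin H t53 19 29 3 11 (by decide +kernel)

end

end Pool.Agent.PHCert.E3
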