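import Pool.Agent.PHCert.E3H

/-!
# PHCert: inequality E3, part 9 (49 leaves, checked by the kernel)
-/

set_option autoImplicit false

namespace Pool.Agent.PHCert.E3

open Zp Pool.Agent.PHCert

noncomputable section

/-- part of a tree -/
def t55_1 : Tree := .s12 ⟨⟨.ofNat 2, .ofNat 0⟩, ⟨.ofNat 3, .ofNat 0⟩, ⟨.ofNat 1, .ofNat 0⟩, ⟨.ofNat 1, .ofNat 0⟩⟩ ⟨.ofNat 2, .negSucc 0⟩ ⟨.negSucc 0, .ofNat 6⟩ ⟨.ofNat 1, .ofNat 5⟩ 30 (.s02 ⟨⟨.ofNat 20, .negSucc 3⟩, ⟨.ofNat 0, .ofNat 9⟩, ⟨.ofNat 4, .ofNat 1⟩, ⟨.ofNat 4, .ofNat 1⟩⟩ ⟨.ofNat 0, .ofNat 1⟩ ⟨.ofNat 5, .ofNat 0⟩ ⟨.ofNat 1, .ofNat 1⟩ 26 (.s01 ⟨⟨.ofNat 4, .negSucc 0⟩, ⟨.ofNat 1,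 .ofNat 1⟩, ⟨.ofNat 1, .ofNat 0⟩, ⟨.ofNat 1, .ofNat 0⟩⟩ ⟨.ofNat 0, .ofNat 1⟩ ⟨.negSucc 0, .ofNat 1⟩ ⟨.ofNat 0, .ofNat 6⟩ 27 (.s02 ⟨⟨.ofNat 40, .ofNat 0⟩, ⟨.ofNat 17, .ofNat 17⟩, ⟨.ofNat 17, .ofNat 0⟩, ⟨.ofNat 17, .ofNat 0⟩⟩ ⟨.ofNat 6, .ofNat 6⟩ ⟨.ofNat 11, .negSucc 5⟩ ⟨.ofNat 1, .ofNat 0⟩ 27 (.leaf 10 []) (.leaf 10 [11])) (.s12 ⟨⟨.ofNat 40, .ofNat 0⟩, ⟨.ofNat 17, .ofNat 17⟩, ⟨.ofNat 17, .ofNat 0⟩, ⟨.ofNat 17, .ofNat 0⟩⟩ ⟨.ofNat 6, .ofNat 6⟩ ⟨.ofNat 11, .negSucc 5⟩ ⟨.ofNat 1, .ofNat 0⟩ 27 (.leaf 10 [62, 60]) (.leaf 10 [0, 38]))) (.s01 ⟨⟨.ofNat 4, .ofNat 4⟩, ⟨.ofNat 1, .ofNat 6⟩, ⟨.negSucc 3, .ofNat 5⟩, ⟨.negSucc 3, .ofNat 5⟩⟩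 ⟨.ofNat 1, .ofNat 0⟩ ⟨.negSucc 0, .ofNat 1⟩ ⟨.ofNat 0, .ofNat 1⟩ 26 (.s12 ⟨⟨.ofNat 4, .negSucc 0⟩, ⟨.ofNat 1, .ofNat 1⟩, ⟨.ofNat 1, .ofNat 0⟩, ⟨.ofNat 1, .ofNat 0⟩⟩ ⟨.negSucc 0, .ofNat 1⟩ ⟨.ofNat 0, .ofNat 1⟩ ⟨.ofNat 0, .ofNat 6⟩ 27 (.s23 ⟨⟨.ofNat 5, .ofNat 7⟩, ⟨.ofNat 5, .ofNat 8⟩, ⟨.ofNat 2, .ofNat 3⟩, ⟨.ofNat 15, .negSucc 4⟩⟩ ⟨.ofNat 0, .ofNat 1⟩ ⟨.negSucc 0, .ofNat 1⟩ ⟨.ofNat 0, .ofNat 1⟩ 27 (.leaf 10 [0, 4]) (.leaf 10 [4])) (.leaf 10 [0, 4])) (.s03 ⟨⟨.ofNat 17, .ofNat 2⟩, ⟨.ofNat 8, .ofNat 8⟩, ⟨.ofNat 8, .ofNat 0⟩, ⟨.ofNat 0, .ofNat 5⟩⟩ ⟨.ofNat 0, .ofNat 1⟩ ⟨.ofNat 1, .ofNat 0⟩ ⟨.ofNat 0, .ofNat 1⟩ 26 (.s23 ⟨⟨.ofNat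 5, .ofNat 7⟩, ⟨.ofNat 5, .ofNat 8⟩, ⟨.ofNat 2, .ofNat 3⟩, ⟨.ofNat 15, .negSucc 4⟩⟩ ⟨.ofNat 0, .ofNat 1⟩ ⟨.negSucc 0, .ofNat 1⟩ ⟨.ofNat 0, .ofNat 1⟩ 27 (.leaf 10 [0, 4]) (.leaf 10 [4])) (.leaf 10 [])))) (.s01 ⟨⟨.negSucc 9, .ofNat 40⟩, ⟨.ofNat 3, .ofNat 32⟩, ⟨.negSucc 25, .ofNat 29⟩, ⟨.negSucc 25, .ofNat 29⟩⟩ ⟨.ofNat 1, .ofNat 5⟩ ⟨.negSucc 2, .ofNat 2⟩ ⟨.ofNat 1, .ofNat 1⟩ 26 (.s13 ⟨⟨.ofNat 271, .negSucc 28⟩, ⟨.negSucc 10, .ofNat 229⟩, ⟨.ofNat 92, .ofNat 5⟩, ⟨.negSucc 0, .ofNat 65⟩⟩ ⟨.ofNat 25, .ofNat 0⟩ ⟨.ofNat 15, .ofNat 36⟩ ⟨.ofNat 1, .ofNat 1⟩ 32 (.leaf 10 [0, 64, 3]) (.s12 ⟨⟨.ofNat 14, .ofNat 0⟩, ⟨.ofNat 26, .ofNat 0⟩,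 ⟨.ofNat 7, .ofNat 0⟩, ⟨.ofNat 7, .ofNat 0⟩⟩ ⟨.ofNat 5, .ofNat 0⟩ ⟨.negSucc 11, .ofNat 42⟩ ⟨.negSucc 0, .ofNat 6⟩ 35 (.leaf 10 [3, 64, 64]) (.s01 ⟨⟨.negSucc 157, .ofNat 450⟩, ⟨.ofNat 838, .negSucc 89⟩, ⟨.ofNat 119, .ofNat 63⟩, ⟨.ofNat 119, .ofNat 63⟩⟩ ⟨.ofNat 72, .ofNat 102⟩ ⟨.ofNat 321, .negSucc 13⟩ ⟨.ofNat 6, .ofNat 11⟩ 28 (.leaf 10 [64, 0, 64, 64, 64, 0, 64, 34, 0, 0]) (.leaf 10 [3, 64, 64])))) (.s02 ⟨⟨.ofNat 4, .ofNat 4⟩, ⟨.ofNat 1, .ofNat 6⟩, ⟨.negSucc 3, .ofNat 5⟩, ⟨.negSucc 3, .ofNat 5⟩⟩ ⟨.ofNat 1, .ofNat 0⟩ ⟨.negSucc 0, .ofNat 1⟩ ⟨.ofNat 0, .ofNat 1⟩ 26 (.leaf 10 [0, 3]) (.s03 ⟨⟨.ofNat 17, .ofNat 2⟩, ⟨.ofNat 8, .ofNat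 8⟩, ⟨.ofNat 8, .ofNat 0⟩, ⟨.ofNat 0, .ofNat 5⟩⟩ ⟨.ofNat 0, .ofNat 1⟩ ⟨.ofNat 1, .ofNat 0⟩ ⟨.ofNat 0, .ofNat 1⟩ 26 (.leaf 10 [0, 3]) (.leaf 10 []))))

/-- part of a tree -/
def t55_0 : Tree := .s23 ⟨⟨.negSucc 3, .ofNat 7⟩, ⟨.ofNat 4, .ofNat 3⟩, ⟨.ofNat 0, .ofNat 2⟩, ⟨.ofNat 5, .negSucc 0⟩⟩ ⟨.negSucc 2, .ofNat 13⟩ ⟨.ofNat 2, .negSucc 0⟩ ⟨.ofNat 4, .ofNat 1⟩ 28 (.s01 ⟨⟨.negSucc 9, .ofNat 40⟩, ⟨.ofNat 3, .ofNat 32⟩, ⟨.negSucc 25, .ofNat 29⟩, ⟨.negSucc 25, .ofNat 29⟩⟩ ⟨.ofNat 1, .ofNat 5⟩ ⟨.negSucc 2, .ofNat 2⟩ ⟨.ofNat 1, .ofNat 1⟩ 26 (.s23 ⟨⟨.ofNat 99, .negSucc 13⟩, ⟨.ofNat 21, .ofNat 34⟩, ⟨.ofNat 34, .negSucc 5⟩, ⟨.ofNat 8,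 .ofNat 13⟩⟩ ⟨.negSucc 14, .ofNat 141⟩ ⟨.ofNat 50, .ofNat 0⟩ ⟨.ofNat 13, .ofNat 10⟩ 0 (.s03 ⟨⟨.ofNat 1719, .ofNat 491⟩, ⟨.ofNat 501, .ofNat 1109⟩, ⟨.ofNat 884, .negSucc 47⟩, ⟨.negSucc 106, .ofNat 608⟩⟩ ⟨.ofNat 141, .ofNat 126⟩ ⟨.ofNat 321, .negSucc 13⟩ ⟨.ofNat 1, .ofNat 5⟩ 1 (.leaf 12 [0, 0, 64, 0, 64, 0, 0, 0, 64, 12, 0, 0]) (.s01 ⟨⟨.negSucc 157, .ofNat 450⟩, ⟨.ofNat 838, .negSucc 89⟩, ⟨.ofNat 119, .ofNat 63⟩, ⟨.ofNat 119, .ofNat 63⟩⟩ ⟨.ofNat 72, .ofNat 102⟩ ⟨.ofNat 321, .negSucc 13⟩ ⟨.ofNat 6, .ofNat 11⟩ 28 (.leaf 10 [0, 0, 64, 0, 64, 0, 0, 12, 64, 14, 0, 0]) (.leaf 10 [0, 64, 60]))) (.s12 ⟨⟨.ofNat 271, .negSucc 28⟩, ⟨.negSucc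 10, .ofNat 229⟩, ⟨.ofNat 92, .ofNat 5⟩, ⟨.negSucc 0, .ofNat 65⟩⟩ ⟨.ofNat 25, .ofNat 0⟩ ⟨.ofNat 15, .ofNat 36⟩ ⟨.ofNat 1, .ofNat 1⟩ 32 (.leaf 10 [0, 62, 64, 64, 3]) (.s01 ⟨⟨.negSucc 157, .ofNat 450⟩, ⟨.ofNat 838, .negSucc 89⟩, ⟨.ofNat 119, .ofNat 63⟩, ⟨.ofNat 119, .ofNat 63⟩⟩ ⟨.ofNat 72, .ofNat 102⟩ ⟨.ofNat 321, .negSucc 13⟩ ⟨.ofNat 6, .ofNat 11⟩ 28 (.leaf 10 [0, 0, 64, 30, 64, 0, 0, 64, 64, 59, 0, 0]) (.leaf 10 [0, 22, 64, 64])))) (.s03 ⟨⟨.negSucc 4, .ofNat 38⟩, ⟨.ofNat 11, .ofNat 27⟩, ⟨.negSucc 4, .ofNat 16⟩, ⟨.ofNat 39, .negSucc 10⟩⟩ ⟨.ofNat 4, .ofNat 1⟩ ⟨.negSucc 2, .ofNat 2⟩ ⟨.ofNat 0, .ofNat 1⟩ 0 (.s23 ⟨⟨.ofNat 1, .ofNat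 3⟩, ⟨.ofNat 0, .ofNat 4⟩, ⟨.negSucc 0, .ofNat 2⟩, ⟨.negSucc 3, .ofNat 4⟩⟩ ⟨.ofNat 1, .ofNat 7⟩ ⟨.ofNat 6, .negSucc 2⟩ ⟨.negSucc 2, .ofNat 13⟩ 27 (.s13 ⟨⟨.ofNat 1719, .ofNat 491⟩, ⟨.ofNat 501, .ofNat 1109⟩, ⟨.ofNat 884, .negSucc 47⟩, ⟨.negSucc 106, .ofNat 608⟩⟩ ⟨.ofNat 141, .ofNat 126⟩ ⟨.ofNat 321, .negSucc 13⟩ ⟨.ofNat 1, .ofNat 5⟩ 1 (.leaf 10 [64, 64, 64, 64, 64, 64, 25, 0, 64, 64, 64, 0]) (.leaf 10 [0, 64, 60, 0])) (.leaf 10 [0, 52, 64, 0])) (.s02 ⟨⟨.ofNat 17, .ofNat 2⟩, ⟨.ofNat 8, .ofNat 8⟩, ⟨.ofNat 8, .ofNat 0⟩, ⟨.ofNat 0, .ofNat 5⟩⟩ ⟨.ofNat 0, .ofNat 1⟩ ⟨.ofNat 1, .ofNat 0⟩ ⟨.ofNat 0, .ofNat 1⟩ 26 (.leaf 10 [0, 52, 64,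 0]) (.leaf 10 [52, 64])))) t55_1

/-- part of a tree -/
def t55_2 : Tree := .s01 ⟨⟨.ofNat 2, .ofNat 3⟩, ⟨.ofNat 0, .ofNat 1⟩, ⟨.negSucc 0, .ofNat 1⟩, ⟨.negSucc 0, .ofNat 1⟩⟩ ⟨.ofNat 4, .ofNat 1⟩ ⟨.ofNat 2, .negSucc 0⟩ ⟨.ofNat 0, .ofNat 6⟩ 17 (.s12 ⟨⟨.negSucc 9, .ofNat 40⟩, ⟨.ofNat 3, .ofNat 32⟩, ⟨.negSucc 25, .ofNat 29⟩, ⟨.negSucc 25, .ofNat 29⟩⟩ ⟨.negSucc 2, .ofNat 2⟩ ⟨.ofNat 1, .ofNat 5⟩ ⟨.ofNat 1, .ofNat 1⟩ 26 (.s23 ⟨⟨.negSucc 309, .ofNat 1161⟩, ⟨.negSucc 309, .ofNat 1059⟩, ⟨.negSucc 685, .ofNat 731⟩, ⟨.ofNat 469, .ofNat 46⟩⟩ ⟨.negSucc 14, .ofNat 141⟩ ⟨.ofNat 65, .negSucc 4⟩ ⟨.ofNat 1, .ofNat 1⟩ 1 (.s13 ⟨⟨.ofNat 1719,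 .ofNat 491⟩, ⟨.ofNat 501, .ofNat 1109⟩, ⟨.ofNat 884, .negSucc 47⟩, ⟨.negSucc 106, .ofNat 608⟩⟩ ⟨.ofNat 141, .ofNat 126⟩ ⟨.ofNat 321, .negSucc 13⟩ ⟨.ofNat 1, .ofNat 5⟩ 1 (.leaf 12 [64, 64, 64, 14, 0, 64, 64, 64, 0]) (.s01 ⟨⟨.ofNat 33, .negSucc 6⟩, ⟨.ofNat 7, .ofNat 7⟩, ⟨.ofNat 7, .ofNat 0⟩, ⟨.ofNat 7, .ofNat 0⟩⟩ ⟨.ofNat 321, .negSucc 13⟩ ⟨.ofNat 30, .ofNat 72⟩ ⟨.ofNat 139, .ofNat 201⟩ 2 (.leaf 10 [41, 64, 3]) (.leaf 10 [64, 64, 22, 0, 64, 56, 0, 0]))) (.s02 ⟨⟨.negSucc 76, .ofNat 312⟩, ⟨.negSucc 242, .ofNat 368⟩, ⟨.negSucc 55, .ofNat 119⟩, ⟨.negSucc 55, .ofNat 119⟩⟩ ⟨.ofNat 65, .negSucc 4⟩ ⟨.ofNat 42, .ofNat 30⟩ ⟨.ofNat 1,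 .ofNat 2⟩ 2 (.leaf 10 [0, 53, 64, 31]) (.s01 ⟨⟨.ofNat 33, .negSucc 6⟩, ⟨.ofNat 7, .ofNat 7⟩, ⟨.ofNat 7, .ofNat 0⟩, ⟨.ofNat 7, .ofNat 0⟩⟩ ⟨.ofNat 321, .negSucc 13⟩ ⟨.ofNat 30, .ofNat 72⟩ ⟨.ofNat 139, .ofNat 201⟩ 2 (.leaf 10 [0, 33, 64, 41]) (.leaf 10 [64, 9, 64, 21, 0, 64, 64, 0, 0])))) (.s23 ⟨⟨.ofNat 1719, .ofNat 491⟩, ⟨.ofNat 501, .ofNat 1109⟩, ⟨.ofNat 884, .negSucc 47⟩, ⟨.negSucc 106, .ofNat 608⟩⟩ ⟨.ofNat 141, .ofNat 126⟩ ⟨.ofNat 321, .negSucc 13⟩ ⟨.ofNat 1, .ofNat 5⟩ 1 (.leaf 12 [0, 0, 64, 0, 64, 0, 0, 0, 64, 12, 0, 0]) (.s12 ⟨⟨.negSucc 157, .ofNat 450⟩, ⟨.ofNat 838, .negSucc 89⟩, ⟨.ofNat 119, .ofNat 63⟩, ⟨.ofNat 119,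 .ofNat 63⟩⟩ ⟨.ofNat 321, .negSucc 13⟩ ⟨.ofNat 72, .ofNat 102⟩ ⟨.ofNat 6, .ofNat 11⟩ 28 (.s02 ⟨⟨.ofNat 33, .negSucc 6⟩, ⟨.ofNat 7, .ofNat 7⟩, ⟨.ofNat 7, .ofNat 0⟩, ⟨.ofNat 7, .ofNat 0⟩⟩ ⟨.ofNat 321, .negSucc 13⟩ ⟨.ofNat 30, .ofNat 72⟩ ⟨.ofNat 139, .ofNat 201⟩ 2 (.leaf 10 [43, 64, 0]) (.leaf 10 [64, 0, 64, 24, 0, 0, 64, 55, 0, 0])) (.leaf 10 [0, 0, 64, 0, 64, 0, 0, 0, 64, 6, 0, 0])))) (.s23 ⟨⟨.negSucc 309, .ofNat 1161⟩, ⟨.negSucc 309, .ofNat 1059⟩, ⟨.negSucc 685, .ofNat 731⟩, ⟨.ofNat 469, .ofNat 46⟩⟩ ⟨.negSucc 14, .ofNat 141⟩ ⟨.ofNat 65, .negSucc 4⟩ ⟨.ofNat 1, .ofNat 1⟩ 1 (.leaf 12 [64, 64, 0, 64, 0, 0, 64, 22, 0, 0]) (.s02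 ⟨⟨.ofNat 170, .negSucc 27⟩, ⟨.negSucc 9, .ofNat 68⟩, ⟨.ofNat 28, .ofNat 7⟩, ⟨.ofNat 28, .ofNat 7⟩⟩ ⟨.ofNat 65, .negSucc 4⟩ ⟨.ofNat 30, .ofNat 72⟩ ⟨.ofNat 6, .ofNat 11⟩ 2 (.s12 ⟨⟨.negSucc 76, .ofNat 312⟩, ⟨.negSucc 242, .ofNat 368⟩, ⟨.negSucc 55, .ofNat 119⟩, ⟨.negSucc 55, .ofNat 119⟩⟩ ⟨.ofNat 65, .negSucc 4⟩ ⟨.ofNat 42, .ofNat 30⟩ ⟨.ofNat 1, .ofNat 2⟩ 2 (.leaf 10 [55, 64]) (.leaf 10 [64, 13, 64, 26, 0, 64, 64, 0, 0])) (.leaf 10 [64, 18, 64, 0, 0, 64, 36, 0, 0])))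

/-- part of a tree -/
def t55 : Tree := .s02 ⟨⟨.ofNat 6, .ofNat 6⟩, ⟨.ofNat 9, .ofNat 4⟩, ⟨.ofNat 6, .ofNat 0⟩, ⟨.ofNat 6, .ofNat 0⟩⟩ ⟨.ofNat 2, .negSucc 0⟩ ⟨.ofNat 4, .ofNat 1⟩ ⟨.ofNat 1, .ofNat 0⟩ 0 t55_0 t55_2

theorem g55 : Good (PE lin H) ⟨⟨.ofNat 2, .ofNat 6⟩, ⟨.ofNat 2, .ofNat 0⟩, ⟨.ofNat 1, .ofNat 0⟩, ⟨.ofNat 1, .ofNat 0⟩⟩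
    ⟨⟨.ofNat 2, .ofNat 0⟩, ⟨.ofNat 2, .ofNat 6⟩, ⟨.ofNat 1, .ofNat 0⟩, ⟨.ofNat 1, .ofNat 0⟩⟩
    ⟨⟨.ofNat 2, .ofNat 0⟩, ⟨.ofNat 1, .ofNat 1⟩, ⟨.ofNat 1, .ofNat 0⟩, ⟨.ofNat 1, .ofNat 0⟩⟩
    ⟨⟨.ofNat 2, .ofNat 7⟩, ⟨.ofNat 5, .ofNat 1⟩, ⟨.ofNat 2, .negSucc 0⟩, ⟨.ofNat 9, .negSucc 3⟩⟩ :=
  goodE lin H t55 19 45 29 11 (by decide +kernel)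

/-- part of a tree -/
def t58 : Tree := .s03 ⟨⟨.ofNat 22, .ofNat 66⟩, ⟨.ofNat 22, .ofNat 0⟩, ⟨.ofNat 7, .ofNat 0⟩, ⟨.ofNat 15, .ofNat 0⟩⟩ ⟨.ofNat 7, .ofNat 0⟩ ⟨.ofNat 8, .ofNat 0⟩ ⟨.ofNat 1, .ofNat 0⟩ 19 (.s13 ⟨⟨.ofNat 2, .ofNat 1⟩, ⟨.ofNat 0, .ofNat 1⟩, ⟨.ofNat 0, .ofNat 0⟩, ⟨.negSucc 0, .ofNat 1⟩⟩ ⟨.ofNat 0, .ofNat 1⟩ ⟨.ofNat 1, .ofNat 0⟩ ⟨.ofNat 0, .ofNat 1⟩ 12 (.s23 ⟨⟨.ofNat 2, .ofNat 7⟩, ⟨.ofNat 5, .ofNat 1⟩, ⟨.ofNat 2, .negSucc 0⟩, ⟨.ofNat 9, .negSucc 3⟩⟩ ⟨.ofNat 1, .ofNat 0⟩ ⟨.ofNat 4, .ofNat 1⟩ ⟨.ofNat 1, .ofNat 1⟩ 11 (.leaf 18 [64]) (.leaf 15 [0, 41, 0, 0, 0, 64])) (.leaf 15 [0, 0, 0, 0, 0, 0])) (.leaf 13 [0, 0,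 0, 0, 0, 0, 0])

theorem g58 : Good (PE lin H) ⟨⟨.ofNat 2, .ofNat 6⟩, ⟨.ofNat 2, .ofNat 0⟩, ⟨.ofNat 1, .ofNat 0⟩, ⟨.ofNat 1, .ofNat 0⟩⟩
    ⟨⟨.ofNat 0, .ofNat 0⟩, ⟨.ofNat 1, .ofNat 0⟩, ⟨.ofNat 0, .ofNat 0⟩, ⟨.ofNat 0, .ofNat 0⟩⟩
    ⟨⟨.ofNat 2, .ofNat 0⟩, ⟨.ofNat 2, .ofNat 6⟩, ⟨.ofNat 1, .ofNat 0⟩, ⟨.ofNat 1, .ofNat 0⟩⟩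
    ⟨⟨.ofNat 1, .ofNat 3⟩, ⟨.ofNat 1, .ofNat 0⟩, ⟨.ofNat 0, .ofNat 0⟩, ⟨.ofNat 1, .ofNat 0⟩⟩ :=
  goodE lin H t58 19 51 45 19 (by decide +kernel)

/-- part of a tree -/
def t60 : Tree := .s13 ⟨⟨.ofNat 2, .ofNat 1⟩, ⟨.ofNat 0, .ofNat 1⟩, ⟨.ofNat 0, .ofNat 0⟩, ⟨.negSucc 0, .ofNat 1⟩⟩ ⟨.ofNat 0, .ofNat 1⟩ ⟨.ofNat 1, .ofNat 0⟩ ⟨.ofNat 0, .ofNat 1⟩ 12 (.s23 ⟨⟨.ofNat 17, .ofNat 51⟩, ⟨.ofNat 17, .ofNat 0⟩, ⟨.ofNat 3, .ofNat 0⟩, ⟨.ofNat 14, .ofNat 0⟩⟩ ⟨.ofNat 3, .ofNat 0⟩ ⟨.ofNat 11, .ofNat 0⟩ ⟨.ofNat 1, .ofNat 0⟩ 19 (.leaf 19 [64, 0]) (.leaf 16 [64, 33, 0])) (.leaf 15 [0, 0, 0, 0])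

theorem g60 : Good (PE lin H) ⟨⟨.ofNat 1, .ofNat 0⟩, ⟨.ofNat 0, .ofNat 0⟩, ⟨.ofNat 0, .ofNat 0⟩, ⟨.ofNat 0, .ofNat 0⟩⟩
    ⟨⟨.ofNat 0, .ofNat 0⟩, ⟨.ofNat 1, .ofNat 0⟩, ⟨.ofNat 0, .ofNat 0⟩, ⟨.ofNat 0, .ofNat 0⟩⟩
    ⟨⟨.ofNat 2, .ofNat 6⟩, ⟨.ofNat 2, .ofNat 0⟩, ⟨.ofNat 1, .ofNat 0⟩, ⟨.ofNat 1, .ofNat 0⟩⟩
    ⟨⟨.ofNat 1, .ofNat 3⟩, ⟨.ofNat 1, .ofNat 0⟩, ⟨.ofNat 0, .ofNat 0⟩, ⟨.ofNat 1, .ofNat 0⟩⟩ :=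
  goodE lin H t60 25 51 19 19 (by decide +kernel)

end

end Pool.Agent.PHCert.E3
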