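import Pool.Agent.PHCert.E3a
import Pool.Agent.PHCert.E3b
import Pool.Agent.PHCert.E3c
import Pool.Agent.PHCert.E3d
import Pool.Agent.PHCert.E3e
import Pool.Agent.PHCert.E3f
import Pool.Agent.PHCert.E3g
import Pool.Agent.PHCert.E3h
import Pool.Agent.PHCert.E3i

/-!
# PHCert: inequality E3
-/

set_option autoImplicit false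

namespace Pool.Agent.PHCert.E3

open Zp Pool.Agent.PHCert

noncomputable section

theorem g5 : Good (PE lin H) ⟨⟨.ofNat 26, .ofNat 0⟩, ⟨.ofNat 14, .ofNat 0⟩, ⟨.ofNat 9, .negSucc 1⟩, ⟨.ofNat 5, .ofNat 2⟩⟩
    ⟨⟨.ofNat 2579, .ofNat 1673⟩, ⟨.ofNat 4361, .negSucc 612⟩, ⟨.ofNat 78, .ofNat 671⟩, ⟨.ofNat 3485, .negSucc 905⟩⟩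
    ⟨⟨.ofNat 2, .ofNat 0⟩, ⟨.ofNat 2, .ofNat 0⟩, ⟨.ofNat 1, .ofNat 0⟩, ⟨.ofNat 1, .ofNat 0⟩⟩
    ⟨⟨.negSucc 39, .ofNat 231⟩, ⟨.negSucc 39, .ofNat 189⟩, ⟨.negSucc 11, .ofNat 42⟩, ⟨.negSucc 27, .ofNat 147⟩⟩ :=
  good03 ⟨.ofNat 159, .ofNat 35⟩ ⟨.ofNat 19, .negSucc 8⟩ ⟨.negSucc 9, .ofNat 35⟩ (by decide +kernel) g3 g4

theorem g6 : Good (PE lin H) ⟨⟨.ofNat 26, .ofNat 0⟩, ⟨.ofNat 14, .ofNat 0⟩, ⟨.ofNat 9, .negSucc 1⟩, ⟨.ofNat 5, .ofNat 2⟩⟩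
    ⟨⟨.negSucc 39, .ofNat 189⟩, ⟨.negSucc 39, .ofNat 231⟩, ⟨.negSucc 11, .ofNat 42⟩, ⟨.negSucc 27, .ofNat 147⟩⟩
    ⟨⟨.ofNat 2, .ofNat 0⟩, ⟨.ofNat 2, .ofNat 0⟩, ⟨.ofNat 1, .ofNat 0⟩, ⟨.ofNat 1, .ofNat 0⟩⟩
    ⟨⟨.negSucc 39, .ofNat 231⟩, ⟨.negSucc 39, .ofNat 189⟩, ⟨.negSucc 11, .ofNat 42⟩, ⟨.negSucc 27, .ofNat 147⟩⟩ :=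
  good01 ⟨.ofNat 159, .ofNat 77⟩ ⟨.ofNat 19, .negSucc 8⟩ ⟨.ofNat 0, .ofNat 1⟩ (by decide +kernel) g2 g5

theorem g8 : Good (PE lin H) ⟨⟨.ofNat 11, .ofNat 15⟩, ⟨.ofNat 11, .ofNat 0⟩, ⟨.ofNat 3, .ofNat 0⟩, ⟨.ofNat 8, .ofNat 0⟩⟩
    ⟨⟨.negSucc 39, .ofNat 189⟩, ⟨.negSucc 39, .ofNat 231⟩, ⟨.negSucc 11, .ofNat 42⟩, ⟨.negSucc 27, .ofNat 147⟩⟩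
    ⟨⟨.ofNat 2, .ofNat 0⟩, ⟨.ofNat 2, .ofNat 0⟩, ⟨.ofNat 1, .ofNat 0⟩, ⟨.ofNat 1, .ofNat 0⟩⟩
    ⟨⟨.negSucc 39, .ofNat 231⟩, ⟨.negSucc 39, .ofNat 189⟩, ⟨.negSucc 11, .ofNat 42⟩, ⟨.negSucc 27, .ofNat 147⟩⟩ :=
  good02 ⟨.ofNat 0, .ofNat 4⟩ ⟨.ofNat 35, .ofNat 13⟩ ⟨.ofNat 5, .ofNat 5⟩ (by decide +kernel) g6 g7

theorem g10 : Good (PE lin H) ⟨⟨.ofNat 1, .ofNat 3⟩, ⟨.ofNat 1, .ofNat 0⟩, ⟨.ofNat 0, .ofNat 0⟩, ⟨.ofNat 1, .ofNat 0⟩⟩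
    ⟨⟨.negSucc 39, .ofNat 189⟩, ⟨.negSucc 39, .ofNat 231⟩, ⟨.negSucc 11, .ofNat 42⟩, ⟨.negSucc 27, .ofNat 147⟩⟩
    ⟨⟨.ofNat 2, .ofNat 0⟩, ⟨.ofNat 2, .ofNat 0⟩, ⟨.ofNat 1, .ofNat 0⟩, ⟨.ofNat 1, .ofNat 0⟩⟩
    ⟨⟨.negSucc 39, .ofNat 231⟩, ⟨.negSucc 39, .ofNat 189⟩, ⟨.negSucc 11, .ofNat 42⟩, ⟨.negSucc 27, .ofNat 147⟩⟩ :=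
  good02 ⟨.ofNat 5, .ofNat 0⟩ ⟨.ofNat 3, .ofNat 0⟩ ⟨.ofNat 1, .ofNat 0⟩ (by decide +kernel) g8 g9

theorem g11 : Good (PE lin H) ⟨⟨.ofNat 1, .ofNat 3⟩, ⟨.ofNat 1, .ofNat 0⟩, ⟨.ofNat 0, .ofNat 0⟩, ⟨.ofNat 1, .ofNat 0⟩⟩
    ⟨⟨.negSucc 39, .ofNat 189⟩, ⟨.negSucc 39, .ofNat 231⟩, ⟨.negSucc 11, .ofNat 42⟩, ⟨.negSucc 27, .ofNat 147⟩⟩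
    ⟨⟨.ofNat 2, .ofNat 0⟩, ⟨.ofNat 2, .ofNat 0⟩, ⟨.ofNat 1, .ofNat 0⟩, ⟨.ofNat 1, .ofNat 0⟩⟩
    ⟨⟨.ofNat 9, .ofNat 0⟩, ⟨.ofNat 9, .ofNat 0⟩, ⟨.ofNat 2, .ofNat 0⟩, ⟨.ofNat 7, .ofNat 0⟩⟩ :=
  good03 ⟨.ofNat 14, .ofNat 0⟩ ⟨.negSucc 5, .ofNat 21⟩ ⟨.ofNat 1, .ofNat 0⟩ (by decide +kernel) g1 g10

theorem g15 : Good (PE lin H) ⟨⟨.ofNat 22, .ofNat 24⟩, ⟨.ofNat 22, .ofNat 0⟩, ⟨.ofNat 7, .ofNat 0⟩, ⟨.ofNat 15, .ofNat 0⟩⟩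
    ⟨⟨.negSucc 318, .ofNat 984⟩, ⟨.ofNat 518, .ofNat 1257⟩, ⟨.negSucc 97, .ofNat 245⟩, ⟨.negSucc 220, .ofNat 739⟩⟩
    ⟨⟨.ofNat 2, .ofNat 0⟩, ⟨.ofNat 2, .ofNat 0⟩, ⟨.ofNat 1, .ofNat 0⟩, ⟨.ofNat 1, .ofNat 0⟩⟩
    ⟨⟨.negSucc 351, .ofNat 2310⟩, ⟨.negSucc 351, .ofNat 2646⟩, ⟨.negSucc 111, .ofNat 735⟩, ⟨.negSucc 239, .ofNat 1575⟩⟩ :=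
  good12 ⟨.ofNat 7, .ofNat 0⟩ ⟨.negSucc 420, .ofNat 2731⟩ ⟨.ofNat 1, .ofNat 0⟩ (by decide +kernel) g13 g14

theorem g16 : Good (PE lin H) ⟨⟨.ofNat 22, .ofNat 24⟩, ⟨.ofNat 22, .ofNat 0⟩, ⟨.ofNat 7, .ofNat 0⟩, ⟨.ofNat 15, .ofNat 0⟩⟩
    ⟨⟨.negSucc 318, .ofNat 984⟩, ⟨.ofNat 518, .ofNat 1257⟩, ⟨.negSucc 97, .ofNat 245⟩, ⟨.negSucc 220, .ofNat 739⟩⟩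
    ⟨⟨.ofNat 2, .ofNat 0⟩, ⟨.ofNat 2, .ofNat 0⟩, ⟨.ofNat 1, .ofNat 0⟩, ⟨.ofNat 1, .ofNat 0⟩⟩
    ⟨⟨.negSucc 39, .ofNat 189⟩, ⟨.negSucc 39, .ofNat 231⟩, ⟨.negSucc 11, .ofNat 42⟩, ⟨.negSucc 27, .ofNat 147⟩⟩ :=
  good23 ⟨.negSucc 15, .ofNat 399⟩ ⟨.ofNat 8, .ofNat 0⟩ ⟨.ofNat 1, .ofNat 0⟩ (by decide +kernel) g12 g15

theorem g18 : Good (PE lin H) ⟨⟨.ofNat 1, .ofNat 3⟩, ⟨.ofNat 1, .ofNat 0⟩, ⟨.ofNat 0, .ofNat 0⟩, ⟨.ofNat 1, .ofNat 0⟩⟩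
    ⟨⟨.negSucc 318, .ofNat 984⟩, ⟨.ofNat 518, .ofNat 1257⟩, ⟨.negSucc 97, .ofNat 245⟩, ⟨.negSucc 220, .ofNat 739⟩⟩
    ⟨⟨.ofNat 2, .ofNat 0⟩, ⟨.ofNat 2, .ofNat 0⟩, ⟨.ofNat 1, .ofNat 0⟩, ⟨.ofNat 1, .ofNat 0⟩⟩
    ⟨⟨.negSucc 39, .ofNat 189⟩, ⟨.negSucc 39, .ofNat 231⟩, ⟨.negSucc 11, .ofNat 42⟩, ⟨.negSucc 27, .ofNat 147⟩⟩ :=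
  good02 ⟨.ofNat 8, .ofNat 0⟩ ⟨.ofNat 7, .ofNat 0⟩ ⟨.ofNat 1, .ofNat 0⟩ (by decide +kernel) g16 g17

theorem g21 : Good (PE lin H) ⟨⟨.ofNat 58, .ofNat 26⟩, ⟨.ofNat 62, .ofNat 14⟩, ⟨.ofNat 25, .ofNat 1⟩, ⟨.ofNat 17, .ofNat 13⟩⟩
    ⟨⟨.ofNat 14, .ofNat 0⟩, ⟨.ofNat 26, .ofNat 0⟩, ⟨.ofNat 9, .negSucc 1⟩, ⟨.ofNat 5, .ofNat 2⟩⟩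
    ⟨⟨.negSucc 614, .ofNat 2470⟩, ⟨.ofNat 222, .ofNat 2743⟩, ⟨.negSucc 245, .ofNat 988⟩, ⟨.negSucc 368, .ofNat 1482⟩⟩
    ⟨⟨.negSucc 318, .ofNat 984⟩, ⟨.ofNat 518, .ofNat 1257⟩, ⟨.negSucc 97, .ofNat 245⟩, ⟨.negSucc 220, .ofNat 739⟩⟩ :=
  good13 ⟨.negSucc 420, .ofNat 2731⟩ ⟨.ofNat 99, .negSucc 49⟩ ⟨.negSucc 0, .ofNat 1⟩ (by decide +kernel) g19 g20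

theorem g23 : Good (PE lin H) ⟨⟨.ofNat 58, .ofNat 26⟩, ⟨.ofNat 62, .ofNat 14⟩, ⟨.ofNat 25, .ofNat 1⟩, ⟨.ofNat 17, .ofNat 13⟩⟩
    ⟨⟨.ofNat 14, .ofNat 0⟩, ⟨.ofNat 26, .ofNat 0⟩, ⟨.ofNat 9, .negSucc 1⟩, ⟨.ofNat 5, .ofNat 2⟩⟩
    ⟨⟨.ofNat 2, .ofNat 0⟩, ⟨.ofNat 2, .ofNat 0⟩, ⟨.ofNat 1, .ofNat 0⟩, ⟨.ofNat 1, .ofNat 0⟩⟩
    ⟨⟨.negSucc 318, .ofNat 984⟩, ⟨.ofNat 518, .ofNat 1257⟩, ⟨.negSucc 97, .ofNat 245⟩, ⟨.negSucc 220, .ofNat 739⟩⟩ :=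
  good23 ⟨.negSucc 147, .ofNat 743⟩ ⟨.ofNat 1, .ofNat 0⟩ ⟨.ofNat 1, .ofNat 0⟩ (by decide +kernel) g21 g22

theorem g25 : Good (PE lin H) ⟨⟨.ofNat 58, .ofNat 26⟩, ⟨.ofNat 62, .ofNat 14⟩, ⟨.ofNat 25, .ofNat 1⟩, ⟨.ofNat 17, .ofNat 13⟩⟩
    ⟨⟨.ofNat 11, .ofNat 0⟩, ⟨.ofNat 11, .ofNat 15⟩, ⟨.ofNat 3, .ofNat 0⟩, ⟨.ofNat 8, .ofNat 0⟩⟩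
    ⟨⟨.ofNat 2, .ofNat 0⟩, ⟨.ofNat 2, .ofNat 0⟩, ⟨.ofNat 1, .ofNat 0⟩, ⟨.ofNat 1, .ofNat 0⟩⟩
    ⟨⟨.negSucc 318, .ofNat 984⟩, ⟨.ofNat 518, .ofNat 1257⟩, ⟨.negSucc 97, .ofNat 245⟩, ⟨.negSucc 220, .ofNat 739⟩⟩ :=
  good12 ⟨.ofNat 0, .ofNat 4⟩ ⟨.ofNat 35, .ofNat 13⟩ ⟨.ofNat 5, .ofNat 5⟩ (by decide +kernel) g23 g24

theorem g27 : Good (PE lin H) ⟨⟨.ofNat 0, .ofNat 8⟩, ⟨.ofNat 1, .ofNat 5⟩, ⟨.negSucc 0, .ofNat 1⟩, ⟨.negSucc 2, .ofNat 4⟩⟩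
    ⟨⟨.ofNat 11, .ofNat 0⟩, ⟨.ofNat 11, .ofNat 15⟩, ⟨.ofNat 3, .ofNat 0⟩, ⟨.ofNat 8, .ofNat 0⟩⟩
    ⟨⟨.ofNat 2, .ofNat 0⟩, ⟨.ofNat 2, .ofNat 0⟩, ⟨.ofNat 1, .ofNat 0⟩, ⟨.ofNat 1, .ofNat 0⟩⟩
    ⟨⟨.negSucc 318, .ofNat 984⟩, ⟨.ofNat 518, .ofNat 1257⟩, ⟨.negSucc 97, .ofNat 245⟩, ⟨.negSucc 220, .ofNat 739⟩⟩ :=
  good02 ⟨.ofNat 0, .ofNat 4⟩ ⟨.negSucc 2, .ofNat 26⟩ ⟨.ofNat 0, .ofNat 1⟩ (by decide +kernel) g25 g26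

theorem g29 : Good (PE lin H) ⟨⟨.ofNat 1, .ofNat 3⟩, ⟨.ofNat 1, .ofNat 0⟩, ⟨.ofNat 0, .ofNat 0⟩, ⟨.ofNat 1, .ofNat 0⟩⟩
    ⟨⟨.ofNat 11, .ofNat 0⟩, ⟨.ofNat 11, .ofNat 15⟩, ⟨.ofNat 3, .ofNat 0⟩, ⟨.ofNat 8, .ofNat 0⟩⟩
    ⟨⟨.ofNat 2, .ofNat 0⟩, ⟨.ofNat 2, .ofNat 0⟩, ⟨.ofNat 1, .ofNat 0⟩, ⟨.ofNat 1, .ofNat 0⟩⟩
    ⟨⟨.negSucc 318, .ofNat 984⟩, ⟨.ofNat 518, .ofNat 1257⟩, ⟨.negSucc 97, .ofNat 245⟩, ⟨.negSucc 220, .ofNat 739⟩⟩ :=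
  good01 ⟨.negSucc 0, .ofNat 4⟩ ⟨.negSucc 0, .ofNat 1⟩ ⟨.ofNat 3, .ofNat 0⟩ (by decide +kernel) g27 g28

theorem g30 : Good (PE lin H) ⟨⟨.ofNat 1, .ofNat 3⟩, ⟨.ofNat 1, .ofNat 0⟩, ⟨.ofNat 0, .ofNat 0⟩, ⟨.ofNat 1, .ofNat 0⟩⟩
    ⟨⟨.ofNat 11, .ofNat 0⟩, ⟨.ofNat 11, .ofNat 15⟩, ⟨.ofNat 3, .ofNat 0⟩, ⟨.ofNat 8, .ofNat 0⟩⟩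
    ⟨⟨.ofNat 2, .ofNat 0⟩, ⟨.ofNat 2, .ofNat 0⟩, ⟨.ofNat 1, .ofNat 0⟩, ⟨.ofNat 1, .ofNat 0⟩⟩
    ⟨⟨.negSucc 39, .ofNat 189⟩, ⟨.negSucc 39, .ofNat 231⟩, ⟨.negSucc 11, .ofNat 42⟩, ⟨.negSucc 27, .ofNat 147⟩⟩ :=
  good13 ⟨.ofNat 159, .ofNat 35⟩ ⟨.ofNat 3, .ofNat 7⟩ ⟨.ofNat 0, .ofNat 3⟩ (by decide +kernel) g18 g29

theorem g32 : Good (PE lin H) ⟨⟨.ofNat 1, .ofNat 3⟩, ⟨.ofNat 1, .ofNat 0⟩, ⟨.ofNat 0, .ofNat 0⟩, ⟨.ofNat 1, .ofNat 0⟩⟩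
    ⟨⟨.ofNat 1, .ofNat 0⟩, ⟨.ofNat 1, .ofNat 3⟩, ⟨.ofNat 0, .ofNat 0⟩, ⟨.ofNat 1, .ofNat 0⟩⟩
    ⟨⟨.ofNat 2, .ofNat 0⟩, ⟨.ofNat 2, .ofNat 0⟩, ⟨.ofNat 1, .ofNat 0⟩, ⟨.ofNat 1, .ofNat 0⟩⟩
    ⟨⟨.negSucc 39, .ofNat 189⟩, ⟨.negSucc 39, .ofNat 231⟩, ⟨.negSucc 11, .ofNat 42⟩, ⟨.negSucc 27, .ofNat 147⟩⟩ :=
  good12 ⟨.ofNat 5, .ofNat 0⟩ ⟨.ofNat 3, .ofNat 0⟩ ⟨.ofNat 1, .ofNat 0⟩ (by decide +kernel) g30 g31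

theorem g33 : Good (PE lin H) ⟨⟨.ofNat 1, .ofNat 3⟩, ⟨.ofNat 1, .ofNat 0⟩, ⟨.ofNat 0, .ofNat 0⟩, ⟨.ofNat 1, .ofNat 0⟩⟩
    ⟨⟨.ofNat 1, .ofNat 0⟩, ⟨.ofNat 1, .ofNat 3⟩, ⟨.ofNat 0, .ofNat 0⟩, ⟨.ofNat 1, .ofNat 0⟩⟩
    ⟨⟨.ofNat 2, .ofNat 0⟩, ⟨.ofNat 2, .ofNat 0⟩, ⟨.ofNat 1, .ofNat 0⟩, ⟨.ofNat 1, .ofNat 0⟩⟩
    ⟨⟨.ofNat 9, .ofNat 0⟩, ⟨.ofNat 9, .ofNat 0⟩, ⟨.ofNat 2, .ofNat 0⟩, ⟨.ofNat 7, .ofNat 0⟩⟩ :=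
  good13 ⟨.ofNat 14, .ofNat 0⟩ ⟨.negSucc 5, .ofNat 21⟩ ⟨.ofNat 1, .ofNat 0⟩ (by decide +kernel) g11 g32

theorem g34 : Good (PE lin H) ⟨⟨.ofNat 1, .ofNat 3⟩, ⟨.ofNat 1, .ofNat 0⟩, ⟨.ofNat 0, .ofNat 0⟩, ⟨.ofNat 1, .ofNat 0⟩⟩
    ⟨⟨.ofNat 1, .ofNat 0⟩, ⟨.ofNat 1, .ofNat 3⟩, ⟨.ofNat 0, .ofNat 0⟩, ⟨.ofNat 1, .ofNat 0⟩⟩
    ⟨⟨.ofNat 2, .ofNat 0⟩, ⟨.ofNat 2, .ofNat 0⟩, ⟨.ofNat 1, .ofNat 0⟩, ⟨.ofNat 1, .ofNat 0⟩⟩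
    ⟨⟨.ofNat 1, .ofNat 0⟩, ⟨.ofNat 1, .ofNat 0⟩, ⟨.ofNat 0, .ofNat 0⟩, ⟨.ofNat 1, .ofNat 0⟩⟩ :=
  good23 ⟨.ofNat 2, .ofNat 0⟩ ⟨.ofNat 5, .ofNat 0⟩ ⟨.ofNat 1, .ofNat 0⟩ (by decide +kernel) g0 g33

theorem g39 : Good (PE lin H) ⟨⟨.ofNat 132, .ofNat 26⟩, ⟨.ofNat 108, .ofNat 14⟩, ⟨.ofNat 48, .negSucc 0⟩, ⟨.ofNat 36, .ofNat 15⟩⟩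
    ⟨⟨.ofNat 14, .ofNat 0⟩, ⟨.ofNat 26, .ofNat 0⟩, ⟨.ofNat 7, .ofNat 0⟩, ⟨.ofNat 7, .ofNat 0⟩⟩
    ⟨⟨.ofNat 2, .ofNat 0⟩, ⟨.ofNat 2, .ofNat 0⟩, ⟨.ofNat 1, .ofNat 0⟩, ⟨.ofNat 1, .ofNat 0⟩⟩
    ⟨⟨.ofNat 14, .ofNat 0⟩, ⟨.ofNat 26, .ofNat 0⟩, ⟨.ofNat 9, .negSucc 1⟩, ⟨.ofNat 5, .ofNat 2⟩⟩ :=
  good23 ⟨.negSucc 4, .ofNat 14⟩ ⟨.ofNat 1, .ofNat 0⟩ ⟨.ofNat 0, .ofNat 4⟩ (by decide +kernel) g37 g38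

theorem g40 : Good (PE lin H) ⟨⟨.ofNat 132, .ofNat 26⟩, ⟨.ofNat 108, .ofNat 14⟩, ⟨.ofNat 48, .negSucc 0⟩, ⟨.ofNat 36, .ofNat 15⟩⟩
    ⟨⟨.ofNat 14, .ofNat 0⟩, ⟨.ofNat 26, .ofNat 0⟩, ⟨.ofNat 7, .ofNat 0⟩, ⟨.ofNat 7, .ofNat 0⟩⟩
    ⟨⟨.ofNat 2, .ofNat 0⟩, ⟨.ofNat 2, .ofNat 0⟩, ⟨.ofNat 1, .ofNat 0⟩, ⟨.ofNat 1, .ofNat 0⟩⟩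
    ⟨⟨.ofNat 22, .ofNat 0⟩, ⟨.ofNat 22, .ofNat 24⟩, ⟨.ofNat 7, .ofNat 0⟩, ⟨.ofNat 15, .ofNat 0⟩⟩ :=
  good23 ⟨.ofNat 14, .ofNat 3⟩ ⟨.ofNat 0, .ofNat 1⟩ ⟨.ofNat 2, .ofNat 2⟩ (by decide +kernel) g36 g39

theorem g42 : Good (PE lin H) ⟨⟨.ofNat 132, .ofNat 26⟩, ⟨.ofNat 108, .ofNat 14⟩, ⟨.ofNat 48, .negSucc 0⟩, ⟨.ofNat 36, .ofNat 15⟩⟩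
    ⟨⟨.ofNat 2, .ofNat 0⟩, ⟨.ofNat 2, .ofNat 6⟩, ⟨.ofNat 1, .ofNat 0⟩, ⟨.ofNat 1, .ofNat 0⟩⟩
    ⟨⟨.ofNat 2, .ofNat 0⟩, ⟨.ofNat 2, .ofNat 0⟩, ⟨.ofNat 1, .ofNat 0⟩, ⟨.ofNat 1, .ofNat 0⟩⟩
    ⟨⟨.ofNat 22, .ofNat 0⟩, ⟨.ofNat 22, .ofNat 24⟩, ⟨.ofNat 7, .ofNat 0⟩, ⟨.ofNat 15, .ofNat 0⟩⟩ :=
  good12 ⟨.ofNat 2, .ofNat 0⟩ ⟨.negSucc 1, .ofNat 7⟩ ⟨.ofNat 0, .ofNat 1⟩ (by decide +kernel) g40 g41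

theorem g44 : Good (PE lin H) ⟨⟨.ofNat 2, .ofNat 7⟩, ⟨.ofNat 5, .ofNat 1⟩, ⟨.ofNat 2, .negSucc 0⟩, ⟨.ofNat 9, .negSucc 3⟩⟩
    ⟨⟨.ofNat 2, .ofNat 0⟩, ⟨.ofNat 2, .ofNat 6⟩, ⟨.ofNat 1, .ofNat 0⟩, ⟨.ofNat 1, .ofNat 0⟩⟩
    ⟨⟨.ofNat 2, .ofNat 0⟩, ⟨.ofNat 2, .ofNat 0⟩, ⟨.ofNat 1, .ofNat 0⟩, ⟨.ofNat 1, .ofNat 0⟩⟩
    ⟨⟨.ofNat 22, .ofNat 0⟩, ⟨.ofNat 22, .ofNat 24⟩, ⟨.ofNat 7, .ofNat 0⟩, ⟨.ofNat 15, .ofNat 0⟩⟩ :=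
  good02 ⟨.ofNat 4, .ofNat 4⟩ ⟨.negSucc 4, .ofNat 47⟩ ⟨.ofNat 0, .ofNat 1⟩ (by decide +kernel) g42 g43

theorem g46 : Good (PE lin H) ⟨⟨.ofNat 1, .ofNat 3⟩, ⟨.ofNat 1, .ofNat 0⟩, ⟨.ofNat 0, .ofNat 0⟩, ⟨.ofNat 1, .ofNat 0⟩⟩
    ⟨⟨.ofNat 2, .ofNat 0⟩, ⟨.ofNat 2, .ofNat 6⟩, ⟨.ofNat 1, .ofNat 0⟩, ⟨.ofNat 1, .ofNat 0⟩⟩
    ⟨⟨.ofNat 2, .ofNat 0⟩, ⟨.ofNat 2, .ofNat 0⟩, ⟨.ofNat 1, .ofNat 0⟩, ⟨.ofNat 1, .ofNat 0⟩⟩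
    ⟨⟨.ofNat 22, .ofNat 0⟩, ⟨.ofNat 22, .ofNat 24⟩, ⟨.ofNat 7, .ofNat 0⟩, ⟨.ofNat 15, .ofNat 0⟩⟩ :=
  good01 ⟨.ofNat 4, .ofNat 1⟩ ⟨.ofNat 1, .ofNat 0⟩ ⟨.ofNat 1, .ofNat 1⟩ (by decide +kernel) g44 g45

theorem g47 : Good (PE lin H) ⟨⟨.ofNat 1, .ofNat 3⟩, ⟨.ofNat 1, .ofNat 0⟩, ⟨.ofNat 0, .ofNat 0⟩, ⟨.ofNat 1, .ofNat 0⟩⟩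
    ⟨⟨.ofNat 2, .ofNat 0⟩, ⟨.ofNat 2, .ofNat 6⟩, ⟨.ofNat 1, .ofNat 0⟩, ⟨.ofNat 1, .ofNat 0⟩⟩
    ⟨⟨.ofNat 2, .ofNat 0⟩, ⟨.ofNat 2, .ofNat 0⟩, ⟨.ofNat 1, .ofNat 0⟩, ⟨.ofNat 1, .ofNat 0⟩⟩
    ⟨⟨.ofNat 1, .ofNat 0⟩, ⟨.ofNat 1, .ofNat 3⟩, ⟨.ofNat 0, .ofNat 0⟩, ⟨.ofNat 1, .ofNat 0⟩⟩ :=
  good23 ⟨.ofNat 7, .ofNat 0⟩ ⟨.ofNat 8, .ofNat 0⟩ ⟨.ofNat 1, .ofNat 0⟩ (by decide +kernel) g35 g46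

theorem g49 : Good (PE lin H) ⟨⟨.ofNat 1, .ofNat 3⟩, ⟨.ofNat 1, .ofNat 0⟩, ⟨.ofNat 0, .ofNat 0⟩, ⟨.ofNat 1, .ofNat 0⟩⟩
    ⟨⟨.ofNat 0, .ofNat 0⟩, ⟨.ofNat 1, .ofNat 0⟩, ⟨.ofNat 0, .ofNat 0⟩, ⟨.ofNat 0, .ofNat 0⟩⟩
    ⟨⟨.ofNat 2, .ofNat 0⟩, ⟨.ofNat 2, .ofNat 0⟩, ⟨.ofNat 1, .ofNat 0⟩, ⟨.ofNat 1, .ofNat 0⟩⟩
    ⟨⟨.ofNat 1, .ofNat 0⟩, ⟨.ofNat 1, .ofNat 3⟩, ⟨.ofNat 0, .ofNat 0⟩, ⟨.ofNat 1, .ofNat 0⟩⟩ :=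
  good12 ⟨.ofNat 0, .ofNat 6⟩ ⟨.ofNat 1, .ofNat 0⟩ ⟨.ofNat 1, .ofNat 0⟩ (by decide +kernel) g47 g48

theorem g50 : Good (PE lin H) ⟨⟨.ofNat 1, .ofNat 3⟩, ⟨.ofNat 1, .ofNat 0⟩, ⟨.ofNat 0, .ofNat 0⟩, ⟨.ofNat 1, .ofNat 0⟩⟩
    ⟨⟨.ofNat 0, .ofNat 0⟩, ⟨.ofNat 1, .ofNat 0⟩, ⟨.ofNat 0, .ofNat 0⟩, ⟨.ofNat 0, .ofNat 0⟩⟩
    ⟨⟨.ofNat 2, .ofNat 0⟩, ⟨.ofNat 2, .ofNat 0⟩, ⟨.ofNat 1, .ofNat 0⟩, ⟨.ofNat 1, .ofNat 0⟩⟩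
    ⟨⟨.ofNat 1, .ofNat 0⟩, ⟨.ofNat 1, .ofNat 0⟩, ⟨.ofNat 0, .ofNat 0⟩, ⟨.ofNat 1, .ofNat 0⟩⟩ :=
  good13 ⟨.ofNat 0, .ofNat 3⟩ ⟨.ofNat 1, .ofNat 0⟩ ⟨.ofNat 1, .ofNat 0⟩ (by decide +kernel) g34 g49

theorem g54 : Good (PE lin H) ⟨⟨.ofNat 2, .ofNat 6⟩, ⟨.ofNat 2, .ofNat 0⟩, ⟨.ofNat 1, .ofNat 0⟩, ⟨.ofNat 1, .ofNat 0⟩⟩
    ⟨⟨.ofNat 2, .ofNat 0⟩, ⟨.ofNat 1, .ofNat 1⟩, ⟨.ofNat 1, .ofNat 0⟩, ⟨.ofNat 1, .ofNat 0⟩⟩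
    ⟨⟨.ofNat 2, .ofNat 0⟩, ⟨.ofNat 2, .ofNat 0⟩, ⟨.ofNat 1, .ofNat 0⟩, ⟨.ofNat 1, .ofNat 0⟩⟩
    ⟨⟨.ofNat 2, .ofNat 7⟩, ⟨.ofNat 5, .ofNat 1⟩, ⟨.ofNat 2, .negSucc 0⟩, ⟨.ofNat 9, .negSucc 3⟩⟩ :=
  good02 ⟨.negSucc 0, .ofNat 1⟩ ⟨.ofNat 1, .ofNat 5⟩ ⟨.ofNat 0, .ofNat 6⟩ (by decide +kernel) g52 g53

theorem g56 : Good (PE lin H) ⟨⟨.ofNat 2, .ofNat 6⟩, ⟨.ofNat 2, .ofNat 0⟩, ⟨.ofNat 1, .ofNat 0⟩, ⟨.ofNat 1, .ofNat 0⟩⟩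
    ⟨⟨.ofNat 2, .ofNat 0⟩, ⟨.ofNat 2, .ofNat 6⟩, ⟨.ofNat 1, .ofNat 0⟩, ⟨.ofNat 1, .ofNat 0⟩⟩
    ⟨⟨.ofNat 2, .ofNat 0⟩, ⟨.ofNat 2, .ofNat 0⟩, ⟨.ofNat 1, .ofNat 0⟩, ⟨.ofNat 1, .ofNat 0⟩⟩
    ⟨⟨.ofNat 2, .ofNat 7⟩, ⟨.ofNat 5, .ofNat 1⟩, ⟨.ofNat 2, .negSucc 0⟩, ⟨.ofNat 9, .negSucc 3⟩⟩ :=
  good12 ⟨.negSucc 0, .ofNat 1⟩ ⟨.ofNat 1, .ofNat 5⟩ ⟨.ofNat 0, .ofNat 6⟩ (by decide +kernel) g54 g55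

theorem g57 : Good (PE lin H) ⟨⟨.ofNat 2, .ofNat 6⟩, ⟨.ofNat 2, .ofNat 0⟩, ⟨.ofNat 1, .ofNat 0⟩, ⟨.ofNat 1, .ofNat 0⟩⟩
    ⟨⟨.ofNat 2, .ofNat 0⟩, ⟨.ofNat 2, .ofNat 6⟩, ⟨.ofNat 1, .ofNat 0⟩, ⟨.ofNat 1, .ofNat 0⟩⟩
    ⟨⟨.ofNat 2, .ofNat 0⟩, ⟨.ofNat 2, .ofNat 0⟩, ⟨.ofNat 1, .ofNat 0⟩, ⟨.ofNat 1, .ofNat 0⟩⟩
    ⟨⟨.ofNat 1, .ofNat 3⟩, ⟨.ofNat 1, .ofNat 0⟩, ⟨.ofNat 0, .ofNat 0⟩, ⟨.ofNat 1, .ofNat 0⟩⟩ :=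
  good13 ⟨.ofNat 1, .ofNat 0⟩ ⟨.ofNat 4, .ofNat 1⟩ ⟨.ofNat 1, .ofNat 1⟩ (by decide +kernel) g51 g56

theorem g59 : Good (PE lin H) ⟨⟨.ofNat 2, .ofNat 6⟩, ⟨.ofNat 2, .ofNat 0⟩, ⟨.ofNat 1, .ofNat 0⟩, ⟨.ofNat 1, .ofNat 0⟩⟩
    ⟨⟨.ofNat 0, .ofNat 0⟩, ⟨.ofNat 1, .ofNat 0⟩, ⟨.ofNat 0, .ofNat 0⟩, ⟨.ofNat 0, .ofNat 0⟩⟩
    ⟨⟨.ofNat 2, .ofNat 0⟩, ⟨.ofNat 2, .ofNat 0⟩, ⟨.ofNat 1, .ofNat 0⟩, ⟨.ofNat 1, .ofNat 0⟩⟩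
    ⟨⟨.ofNat 1, .ofNat 3⟩, ⟨.ofNat 1, .ofNat 0⟩, ⟨.ofNat 0, .ofNat 0⟩, ⟨.ofNat 1, .ofNat 0⟩⟩ :=
  good12 ⟨.ofNat 0, .ofNat 6⟩ ⟨.ofNat 1, .ofNat 0⟩ ⟨.ofNat 1, .ofNat 0⟩ (by decide +kernel) g57 g58

theorem g61 : Good (PE lin H) ⟨⟨.ofNat 1, .ofNat 0⟩, ⟨.ofNat 0, .ofNat 0⟩, ⟨.ofNat 0, .ofNat 0⟩, ⟨.ofNat 0, .ofNat 0⟩⟩
    ⟨⟨.ofNat 0, .ofNat 0⟩, ⟨.ofNat 1, .ofNat 0⟩, ⟨.ofNat 0, .ofNat 0⟩, ⟨.ofNat 0, .ofNat 0⟩⟩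
    ⟨⟨.ofNat 2, .ofNat 0⟩, ⟨.ofNat 2, .ofNat 0⟩, ⟨.ofNat 1, .ofNat 0⟩, ⟨.ofNat 1, .ofNat 0⟩⟩
    ⟨⟨.ofNat 1, .ofNat 3⟩, ⟨.ofNat 1, .ofNat 0⟩, ⟨.ofNat 0, .ofNat 0⟩, ⟨.ofNat 1, .ofNat 0⟩⟩ :=
  good02 ⟨.ofNat 0, .ofNat 6⟩ ⟨.ofNat 1, .ofNat 0⟩ ⟨.ofNat 1, .ofNat 0⟩ (by decide +kernel) g59 g60

theorem g62 : Good (PE lin H) ⟨⟨.ofNat 1, .ofNat 0⟩, ⟨.ofNat 0, .ofNat 0⟩, ⟨.ofNat 0, .ofNat 0⟩, ⟨.ofNat 0, .ofNat 0⟩⟩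
    ⟨⟨.ofNat 0, .ofNat 0⟩, ⟨.ofNat 1, .ofNat 0⟩, ⟨.ofNat 0, .ofNat 0⟩, ⟨.ofNat 0, .ofNat 0⟩⟩
    ⟨⟨.ofNat 2, .ofNat 0⟩, ⟨.ofNat 2, .ofNat 0⟩, ⟨.ofNat 1, .ofNat 0⟩, ⟨.ofNat 1, .ofNat 0⟩⟩
    ⟨⟨.ofNat 1, .ofNat 0⟩, ⟨.ofNat 1, .ofNat 0⟩, ⟨.ofNat 0, .ofNat 0⟩, ⟨.ofNat 1, .ofNat 0⟩⟩ :=
  good03 ⟨.ofNat 0, .ofNat 3⟩ ⟨.ofNat 1, .ofNat 0⟩ ⟨.ofNat 1, .ofNat 0⟩ (by decide +kernel) g50 g61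

theorem root : Good (PE lin H) v0 v1 ⟨z2, z2, z1, z1⟩ ⟨z1, z1, z0, z1⟩ := g62

theorem ineq {e f a b : ℝ} (ha : 0 ≤ a) (hb : a ≤ b) (he : a + b ≤ e) (hf : a + b ≤ f) :
    0 ≤ tev ts ![e, f, a, b] + (DD : ℝ) / Lp * (VV e f - Real.goldenRatio ^ 2 * VV a b) := gen_ES data root ha hb he hf

end

end Pool.Agent.PHCert.E3
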