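import Pool.Agent.PHCert.E3H

/-!
# PHCert: inequality E3, part 1 (87 leaves, checked by the kernel)
-/

set_option autoImplicit false

namespace Pool.Agent.PHCert.E3

open Zp Pool.Agent.PHCert

noncomputable section

/-- part of a tree -/
def t0_0 : Tree := .s03 ⟨⟨.ofNat 13, .ofNat 0⟩, ⟨.ofNat 7, .ofNat 0⟩, ⟨.ofNat 0, .ofNat 0⟩, ⟨.ofNat 7, .ofNat 0⟩⟩ ⟨.ofNat 2, .ofNat 0⟩ ⟨.negSucc 1, .ofNat 7⟩ ⟨.ofNat 0, .ofNat 1⟩ 9 (.s23 ⟨⟨.ofNat 14, .ofNat 0⟩, ⟨.ofNat 14, .ofNat 0⟩, ⟨.ofNat 1, .ofNat 0⟩, ⟨.ofNat 13, .ofNat 0⟩⟩ ⟨.ofNat 1, .ofNat 0⟩ ⟨.ofNat 19, .ofNat 0⟩ ⟨.ofNat 2, .ofNat 0⟩ 0 (.leaf 20 [41, 64]) (.s02 ⟨⟨.ofNat 155, .ofNat 0⟩, ⟨.ofNat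 98, .ofNat 0⟩, ⟨.ofNat 7, .ofNat 0⟩, ⟨.ofNat 91, .ofNat 0⟩⟩ ⟨.ofNat 19, .ofNat 0⟩ ⟨.ofNat 7, .ofNat 0⟩ ⟨.ofNat 2, .ofNat 0⟩ 6 (.s12 ⟨⟨.ofNat 8, .ofNat 0⟩, ⟨.ofNat 11, .ofNat 0⟩, ⟨.ofNat 1, .ofNat 0⟩, ⟨.ofNat 7, .ofNat 0⟩⟩ ⟨.ofNat 1, .ofNat 0⟩ ⟨.ofNat 1, .ofNat 0⟩ ⟨.ofNat 2, .ofNat 0⟩ 29 (.s23 ⟨⟨.ofNat 8, .ofNat 0⟩, ⟨.ofNat 8, .ofNat 0⟩, ⟨.ofNat 1, .ofNat 0⟩, ⟨.ofNat 7, .ofNat 0⟩⟩ ⟨.ofNat 6, .ofNat 0⟩ ⟨.ofNat 7, .ofNat 0⟩ ⟨.ofNat 19, .ofNat 0⟩ 0 (.leaf 19 [60]) (.s02 ⟨⟨.ofNat 20, .ofNat 0⟩, ⟨.ofNat 17, .ofNat 0⟩, ⟨.ofNat 3, .ofNat 0⟩, ⟨.ofNat 14, .ofNat 0⟩⟩ ⟨.ofNat 1, .ofNat 0⟩ ⟨.ofNat 25, .ofNat 0⟩ ⟨.ofNat 19, .ofNat 0⟩ 2 (.s23 ⟨⟨.ofNat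 17, .ofNat 0⟩, ⟨.ofNat 17, .ofNat 0⟩, ⟨.ofNat 3, .ofNat 0⟩, ⟨.ofNat 14, .ofNat 0⟩⟩ ⟨.ofNat 1, .ofNat 0⟩ ⟨.ofNat 1, .ofNat 0⟩ ⟨.ofNat 1, .ofNat 0⟩ 0 (.leaf 18 [64]) (.leaf 17 [0])) (.leaf 18 [47, 0]))) (.leaf 20 [64, 64])) (.leaf 20 [41, 64]))) (.s02 ⟨⟨.negSucc 39, .ofNat 231⟩, ⟨.negSucc 39, .ofNat 189⟩, ⟨.negSucc 11, .ofNat 42⟩, ⟨.negSucc 27, .ofNat 147⟩⟩ ⟨.ofNat 14, .ofNat 0⟩ ⟨.negSucc 5, .ofNat 21⟩ ⟨.ofNat 1, .ofNat 0⟩ 2 (.leaf 17 [56, 64, 64]) (.s01 ⟨⟨.ofNat 7, .ofNat 7⟩, ⟨.ofNat 11, .ofNat 0⟩, ⟨.ofNat 0, .ofNat 0⟩, ⟨.ofNat 7, .ofNat 0⟩⟩ ⟨.ofNat 7, .ofNat 0⟩ ⟨.ofNat 2, .ofNat 0⟩ ⟨.ofNat 3, .ofNat 0⟩ 7 (.leaf 19 [0, 64, 64, 64, 64,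 64, 64]) (.s02 ⟨⟨.ofNat 21, .ofNat 19⟩, ⟨.ofNat 27, .negSucc 1⟩, ⟨.ofNat 4, .ofNat 0⟩, ⟨.ofNat 23, .negSucc 1⟩⟩ ⟨.ofNat 159, .ofNat 35⟩ ⟨.ofNat 0, .ofNat 2⟩ ⟨.ofNat 21, .ofNat 15⟩ 12 (.leaf 18 [3, 0, 64, 64, 0]) (.s23 ⟨⟨.ofNat 524, .ofNat 159⟩, ⟨.ofNat 392, .ofNat 0⟩, ⟨.ofNat 28, .ofNat 0⟩, ⟨.ofNat 364, .ofNat 0⟩⟩ ⟨.ofNat 7, .ofNat 0⟩ ⟨.ofNat 29, .ofNat 2⟩ ⟨.ofNat 1, .ofNat 0⟩ 10 (.leaf 20 [6, 0, 64, 64, 64, 0, 0, 0, 0]) (.s12 ⟨⟨.ofNat 91, .ofNat 91⟩, ⟨.ofNat 127, .ofNat 2⟩, ⟨.ofNat 7, .ofNat 0⟩, ⟨.ofNat 91, .ofNat 0⟩⟩ ⟨.ofNat 29, .ofNat 2⟩ ⟨.ofNat 7, .ofNat 0⟩ ⟨.ofNat 4, .ofNat 0⟩ 9 (.s02 ⟨⟨.ofNat 16, .ofNat 21⟩, ⟨.ofNat 16, .ofNat 0⟩,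 ⟨.ofNat 2, .ofNat 0⟩, ⟨.ofNat 14, .ofNat 0⟩⟩ ⟨.ofNat 5, .ofNat 2⟩ ⟨.ofNat 1, .ofNat 0⟩ ⟨.ofNat 2, .ofNat 0⟩ 15 (.leaf 19 [0, 64, 27, 0]) (.s02 ⟨⟨.ofNat 28, .ofNat 57⟩, ⟨.ofNat 28, .ofNat 0⟩, ⟨.ofNat 2, .ofNat 0⟩, ⟨.ofNat 26, .ofNat 0⟩⟩ ⟨.ofNat 12, .ofNat 0⟩ ⟨.ofNat 1, .ofNat 0⟩ ⟨.ofNat 1, .ofNat 0⟩ 17 (.leaf 19 [50, 0, 64, 0, 0, 0]) (.leaf 20 [6, 0, 64, 64, 64, 0, 0, 0]))) (.leaf 20 [6, 0, 64, 64, 64, 0, 0, 0]))))))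

/-- part of a tree -/
def t0_4 : Tree := .s23 ⟨⟨.ofNat 392, .ofNat 0⟩, ⟨.ofNat 524, .ofNat 159⟩, ⟨.ofNat 28, .ofNat 0⟩, ⟨.ofNat 364, .ofNat 0⟩⟩ ⟨.ofNat 7, .ofNat 0⟩ ⟨.ofNat 29, .ofNat 2⟩ ⟨.ofNat 1, .ofNat 0⟩ 36 (.s13 ⟨⟨.ofNat 1, .ofNat 0⟩, ⟨.ofNat 4, .ofNat 0⟩, ⟨.ofNat 0, .ofNat 0⟩, ⟨.ofNat 1, .ofNat 0⟩⟩ ⟨.ofNat 5, .ofNat 0⟩ ⟨.negSucc 0, .ofNat 1⟩ ⟨.negSucc 1, .ofNat 7⟩ 42 (.leaf 20 [64, 0, 64, 0, 64, 47, 0, 0]) (.s12 ⟨⟨.negSucc 271, .ofNat 1017⟩, ⟨.negSucc 667, .ofNat 3648⟩, ⟨.negSucc 83, .ofNat 84⟩, ⟨.negSucc 187, .ofNat 933⟩⟩ ⟨.negSucc 158, .ofNat 745⟩ ⟨.ofNat 3, .ofNat 0⟩ ⟨.ofNat 0, .ofNat 1⟩ 42 (.leaf 20 [64, 0, 64, 0, 64, 31, 0])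 (.leaf 20 [0, 0, 0, 0, 64, 41, 0, 0]))) (.s02 ⟨⟨.ofNat 406, .ofNat 217⟩, ⟨.ofNat 466, .ofNat 155⟩, ⟨.ofNat 28, .ofNat 0⟩, ⟨.ofNat 364, .ofNat 0⟩⟩ ⟨.ofNat 29, .ofNat 2⟩ ⟨.ofNat 7, .ofNat 0⟩ ⟨.ofNat 1, .ofNat 0⟩ 0 (.s12 ⟨⟨.ofNat 16, .ofNat 0⟩, ⟨.ofNat 16, .ofNat 21⟩, ⟨.ofNat 2, .ofNat 0⟩, ⟨.ofNat 14, .ofNat 0⟩⟩ ⟨.ofNat 5, .ofNat 2⟩ ⟨.ofNat 1, .ofNat 0⟩ ⟨.ofNat 2, .ofNat 0⟩ 41 (.leaf 19 [64, 0, 64, 27, 0]) (.s12 ⟨⟨.ofNat 28, .ofNat 0⟩, ⟨.ofNat 28, .ofNat 57⟩, ⟨.ofNat 2, .ofNat 0⟩, ⟨.ofNat 26, .ofNat 0⟩⟩ ⟨.ofNat 12, .ofNat 0⟩ ⟨.ofNat 1, .ofNat 0⟩ ⟨.ofNat 1, .ofNat 0⟩ 43 (.s01 ⟨⟨.ofNat 714, .ofNat 105⟩, ⟨.ofNat 546, .ofNat 442⟩, ⟨.ofNat 50,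 .negSucc 7⟩, ⟨.ofNat 650, .negSucc 103⟩⟩ ⟨.ofNat 0, .ofNat 1⟩ ⟨.negSucc 3, .ofNat 7⟩ ⟨.ofNat 0, .ofNat 1⟩ 30 (.s13 ⟨⟨.ofNat 14, .ofNat 0⟩, ⟨.ofNat 13, .ofNat 13⟩, ⟨.ofNat 1, .ofNat 0⟩, ⟨.ofNat 13, .ofNat 0⟩⟩ ⟨.negSucc 5, .ofNat 7⟩ ⟨.ofNat 0, .ofNat 1⟩ ⟨.negSucc 11, .ofNat 42⟩ 39 (.leaf 19 [64, 0, 64, 20, 0]) (.leaf 19 [64, 0, 51, 0, 0])) (.leaf 19 [64, 0, 64, 20, 0])) (.s13 ⟨⟨.negSucc 271, .ofNat 1017⟩, ⟨.negSucc 667, .ofNat 3648⟩, ⟨.negSucc 83, .ofNat 84⟩, ⟨.negSucc 187, .ofNat 933⟩⟩ ⟨.negSucc 158, .ofNat 745⟩ ⟨.ofNat 3, .ofNat 0⟩ ⟨.ofNat 0, .ofNat 1⟩ 42 (.s02 ⟨⟨.ofNat 714, .ofNat 105⟩, ⟨.ofNat 546, .ofNat 442⟩, ⟨.ofNat 50, .negSucc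 7⟩, ⟨.ofNat 650, .negSucc 103⟩⟩ ⟨.ofNat 0, .ofNat 1⟩ ⟨.negSucc 3, .ofNat 7⟩ ⟨.ofNat 0, .ofNat 1⟩ 30 (.s23 ⟨⟨.ofNat 14, .ofNat 0⟩, ⟨.ofNat 13, .ofNat 13⟩, ⟨.ofNat 1, .ofNat 0⟩, ⟨.ofNat 13, .ofNat 0⟩⟩ ⟨.negSucc 5, .ofNat 7⟩ ⟨.ofNat 0, .ofNat 1⟩ ⟨.negSucc 11, .ofNat 42⟩ 39 (.leaf 20 [64, 64, 0, 64, 31, 0]) (.leaf 20 [64, 0, 52, 0, 0])) (.leaf 20 [64, 64, 0, 64, 31, 0])) (.leaf 20 [0, 0, 0, 64, 34, 0, 0])))) (.s13 ⟨⟨.negSucc 271, .ofNat 1017⟩, ⟨.negSucc 667, .ofNat 3648⟩, ⟨.negSucc 83, .ofNat 84⟩, ⟨.negSucc 187, .ofNat 933⟩⟩ ⟨.negSucc 158, .ofNat 745⟩ ⟨.ofNat 3, .ofNat 0⟩ ⟨.ofNat 0, .ofNat 1⟩ 42 (.leaf 20 [64, 0, 64, 0, 64, 31, 0]) (.leaf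 20 [0, 0, 0, 0, 64, 41, 0, 0])))

/-- part of a tree -/
def t0_3 : Tree := .s03 ⟨⟨.ofNat 7, .ofNat 7⟩, ⟨.ofNat 11, .ofNat 0⟩, ⟨.ofNat 0, .ofNat 0⟩, ⟨.ofNat 7, .ofNat 0⟩⟩ ⟨.ofNat 7, .ofNat 0⟩ ⟨.ofNat 2, .ofNat 0⟩ ⟨.ofNat 3, .ofNat 0⟩ 7 t0_4 (.s02 ⟨⟨.ofNat 63, .ofNat 53⟩, ⟨.ofNat 69, .ofNat 32⟩, ⟨.ofNat 8, .ofNat 0⟩, ⟨.ofNat 73, .negSucc 9⟩⟩ ⟨.negSucc 5, .ofNat 21⟩ ⟨.ofNat 0, .ofNat 2⟩ ⟨.ofNat 0, .ofNat 1⟩ 2 (.s23 ⟨⟨.ofNat 406, .ofNat 217⟩, ⟨.ofNat 466, .ofNat 155⟩, ⟨.ofNat 28, .ofNat 0⟩, ⟨.ofNat 364, .ofNat 0⟩⟩ ⟨.ofNat 7, .ofNat 0⟩ ⟨.ofNat 29, .ofNat 2⟩ ⟨.ofNat 1, .ofNat 0⟩ 0 (.leaf 20 [0, 0, 0, 0, 64, 41, 0, 0]) (.s12 ⟨⟨.ofNat 16, .ofNat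 0⟩, ⟨.ofNat 16, .ofNat 21⟩, ⟨.ofNat 2, .ofNat 0⟩, ⟨.ofNat 14, .ofNat 0⟩⟩ ⟨.ofNat 5, .ofNat 2⟩ ⟨.ofNat 1, .ofNat 0⟩ ⟨.ofNat 2, .ofNat 0⟩ 41 (.leaf 18 [64, 0, 64, 6]) (.leaf 19 [64, 0, 0, 64, 50, 0, 0]))) (.s13 ⟨⟨.ofNat 25, .ofNat 10⟩, ⟨.ofNat 21, .ofNat 17⟩, ⟨.ofNat 0, .ofNat 0⟩, ⟨.ofNat 25, .negSucc 3⟩⟩ ⟨.negSucc 3, .ofNat 7⟩ ⟨.ofNat 0, .ofNat 2⟩ ⟨.ofNat 0, .ofNat 1⟩ 28 (.leaf 20 [64, 0, 0, 64, 22, 0, 0]) (.s01 ⟨⟨.ofNat 1, .ofNat 1⟩, ⟨.ofNat 0, .ofNat 1⟩, ⟨.ofNat 0, .ofNat 0⟩, ⟨.negSucc 0, .ofNat 1⟩⟩ ⟨.ofNat 2, .ofNat 0⟩ ⟨.ofNat 1, .ofNat 0⟩ ⟨.ofNat 0, .ofNat 3⟩ 6 (.leaf 20 [0, 0, 64, 0, 64, 29, 0]) (.leaf 20 [64, 0, 0, 64, 22, 0]))))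

/-- part of a tree -/
def t0_2 : Tree := .s12 ⟨⟨.ofNat 27, .negSucc 1⟩, ⟨.ofNat 21, .ofNat 19⟩, ⟨.ofNat 4, .ofNat 0⟩, ⟨.ofNat 23, .negSucc 1⟩⟩ ⟨.ofNat 159, .ofNat 35⟩ ⟨.ofNat 0, .ofNat 2⟩ ⟨.ofNat 21, .ofNat 15⟩ 38 (.s03 ⟨⟨.ofNat 7, .ofNat 7⟩, ⟨.ofNat 11, .ofNat 0⟩, ⟨.ofNat 0, .ofNat 0⟩, ⟨.ofNat 7, .ofNat 0⟩⟩ ⟨.ofNat 7, .ofNat 0⟩ ⟨.ofNat 2, .ofNat 0⟩ ⟨.ofNat 3, .ofNat 0⟩ 7 (.leaf 18 [64, 0, 3, 0, 64, 64, 0]) (.s02 ⟨⟨.ofNat 105, .ofNat 256⟩, ⟨.negSucc 53, .ofNat 207⟩, ⟨.negSucc 7, .ofNat 28⟩, ⟨.negSucc 45, .ofNat 151⟩⟩ ⟨.ofNat 159, .ofNat 77⟩ ⟨.ofNat 0, .ofNat 2⟩ ⟨.ofNat 0, .ofNat 3⟩ 9 (.leaf 18 [64, 0, 3, 0, 64, 64, 0]) (.s01 ⟨⟨.ofNat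 63, .ofNat 53⟩, ⟨.ofNat 69, .ofNat 32⟩, ⟨.ofNat 8, .ofNat 0⟩, ⟨.ofNat 73, .negSucc 9⟩⟩ ⟨.negSucc 5, .ofNat 21⟩ ⟨.ofNat 0, .ofNat 2⟩ ⟨.ofNat 0, .ofNat 1⟩ 2 (.leaf 19 [64, 0, 64, 64]) (.leaf 19 [64, 0, 64, 31, 0, 0])))) t0_3

/-- part of a tree -/
def t0_1 : Tree := .s12 ⟨⟨.negSucc 39, .ofNat 189⟩, ⟨.negSucc 39, .ofNat 231⟩, ⟨.negSucc 11, .ofNat 42⟩, ⟨.negSucc 27, .ofNat 147⟩⟩ ⟨.ofNat 14, .ofNat 0⟩ ⟨.negSucc 5, .ofNat 21⟩ ⟨.ofNat 1, .ofNat 0⟩ 28 (.s02 ⟨⟨.negSucc 39, .ofNat 231⟩, ⟨.negSucc 39, .ofNat 189⟩, ⟨.negSucc 11, .ofNat 42⟩, ⟨.negSucc 27, .ofNat 147⟩⟩ ⟨.ofNat 14, .ofNat 0⟩ ⟨.negSucc 5, .ofNat 21⟩ ⟨.ofNat 1, .ofNat 0⟩ 2 (.leaf 17 [64,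 58, 0]) (.s03 ⟨⟨.ofNat 7, .ofNat 7⟩, ⟨.ofNat 11, .ofNat 0⟩, ⟨.ofNat 0, .ofNat 0⟩, ⟨.ofNat 7, .ofNat 0⟩⟩ ⟨.ofNat 7, .ofNat 0⟩ ⟨.ofNat 2, .ofNat 0⟩ ⟨.ofNat 3, .ofNat 0⟩ 7 (.leaf 18 [0, 64, 48, 0, 64, 64, 0]) (.s01 ⟨⟨.ofNat 105, .ofNat 256⟩, ⟨.negSucc 53, .ofNat 207⟩, ⟨.negSucc 7, .ofNat 28⟩, ⟨.negSucc 45, .ofNat 151⟩⟩ ⟨.ofNat 159, .ofNat 77⟩ ⟨.ofNat 0, .ofNat 2⟩ ⟨.ofNat 0, .ofNat 3⟩ 9 (.leaf 18 [0, 48, 0, 64, 64, 0]) (.s02 ⟨⟨.ofNat 21, .ofNat 19⟩, ⟨.ofNat 27, .negSucc 1⟩, ⟨.ofNat 4, .ofNat 0⟩, ⟨.ofNat 23, .negSucc 1⟩⟩ ⟨.ofNat 159, .ofNat 35⟩ ⟨.ofNat 0, .ofNat 2⟩ ⟨.ofNat 21, .ofNat 15⟩ 12 (.leaf 18 [3, 0, 64, 64, 0]) (.s23 ⟨⟨.ofNat 91, .ofNat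 91⟩, ⟨.ofNat 127, .ofNat 2⟩, ⟨.ofNat 7, .ofNat 0⟩, ⟨.ofNat 91, .ofNat 0⟩⟩ ⟨.ofNat 7, .ofNat 0⟩ ⟨.ofNat 29, .ofNat 2⟩ ⟨.ofNat 4, .ofNat 0⟩ 9 (.leaf 20 [0, 64, 64, 20, 0]) (.s02 ⟨⟨.ofNat 16, .ofNat 21⟩, ⟨.ofNat 16, .ofNat 0⟩, ⟨.ofNat 2, .ofNat 0⟩, ⟨.ofNat 14, .ofNat 0⟩⟩ ⟨.ofNat 5, .ofNat 2⟩ ⟨.ofNat 1, .ofNat 0⟩ ⟨.ofNat 2, .ofNat 0⟩ 15 (.leaf 18 [64, 6]) (.leaf 19 [0, 64, 53, 0, 0]))))))) t0_2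

/-- part of a tree -/
def t0 : Tree := .s13 ⟨⟨.ofNat 7, .ofNat 0⟩, ⟨.ofNat 13, .ofNat 0⟩, ⟨.ofNat 0, .ofNat 0⟩, ⟨.ofNat 7, .ofNat 0⟩⟩ ⟨.ofNat 2, .ofNat 0⟩ ⟨.negSucc 1, .ofNat 7⟩ ⟨.ofNat 0, .ofNat 1⟩ 35 t0_0 t0_1

theorem g0 : Good (PE lin H) ⟨⟨.ofNat 1, .ofNat 3⟩, ⟨.ofNat 1, .ofNat 0⟩, ⟨.ofNat 0, .ofNat 0⟩, ⟨.ofNat 1, .ofNat 0⟩⟩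
    ⟨⟨.ofNat 1, .ofNat 0⟩, ⟨.ofNat 1, .ofNat 3⟩, ⟨.ofNat 0, .ofNat 0⟩, ⟨.ofNat 1, .ofNat 0⟩⟩
    ⟨⟨.ofNat 9, .ofNat 0⟩, ⟨.ofNat 9, .ofNat 0⟩, ⟨.ofNat 2, .ofNat 0⟩, ⟨.ofNat 7, .ofNat 0⟩⟩
    ⟨⟨.ofNat 1, .ofNat 0⟩, ⟨.ofNat 1, .ofNat 0⟩, ⟨.ofNat 0, .ofNat 0⟩, ⟨.ofNat 1, .ofNat 0⟩⟩ :=
  goodE lin H t0 19 45 0 0 (by decide +kernel)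

/-- part of a tree -/
def t1_1 : Tree := .s02 ⟨⟨.ofNat 63, .ofNat 131⟩, ⟨.ofNat 105, .ofNat 89⟩, ⟨.ofNat 121, .negSucc 15⟩, ⟨.negSucc 15, .ofNat 105⟩⟩ ⟨.ofNat 1, .ofNat 0⟩ ⟨.ofNat 117, .ofNat 47⟩ ⟨.ofNat 1, .ofNat 1⟩ 1 (.s23 ⟨⟨.ofNat 0, .ofNat 1⟩, ⟨.ofNat 0, .ofNat 1⟩, ⟨.negSucc 0, .ofNat 1⟩, ⟨.ofNat 1, .ofNat 0⟩⟩ ⟨.negSucc 6, .ofNat 8⟩ ⟨.ofNat 1, .ofNat 0⟩ ⟨.ofNat 8, .ofNat 8⟩ 0 (.s13 ⟨⟨.ofNat 32200, .ofNat 7825⟩, ⟨.ofNat 32200, .ofNat 8791⟩, ⟨.ofNat 11592, .ofNat 2817⟩, ⟨.ofNat 20608, .ofNat 5008⟩⟩ ⟨.ofNat 23, .ofNat 46⟩ ⟨.negSucc 27, .ofNat 1145⟩ ⟨.ofNat 0, .ofNat 1⟩ 26 (.s23 ⟨⟨.ofNat 25, .ofNat 0⟩, ⟨.ofNat 25, .ofNat 0⟩, ⟨.ofNat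 9, .ofNat 0⟩, ⟨.ofNat 16, .ofNat 0⟩⟩ ⟨.ofNat 0, .ofNat 23⟩ ⟨.ofNat 16, .negSucc 8⟩ ⟨.ofNat 15, .negSucc 6⟩ 0 (.s23 ⟨⟨.ofNat 20, .ofNat 0⟩, ⟨.ofNat 20, .ofNat 0⟩, ⟨.ofNat 7, .ofNat 0⟩, ⟨.ofNat 13, .ofNat 0⟩⟩ ⟨.ofNat 14, .ofNat 0⟩ ⟨.ofNat 5, .ofNat 0⟩ ⟨.ofNat 23, .ofNat 0⟩ 0 (.leaf 14 [1, 0]) (.leaf 13 [])) (.leaf 13 [])) (.leaf 13 [45])) (.s23 ⟨⟨.ofNat 25, .ofNat 0⟩, ⟨.ofNat 25, .ofNat 0⟩, ⟨.ofNat 11, .ofNat 0⟩, ⟨.ofNat 14, .ofNat 0⟩⟩ ⟨.ofNat 11, .negSucc 2⟩ ⟨.ofNat 3, .ofNat 3⟩ ⟨.ofNat 1, .ofNat 0⟩ 0 (.s02 ⟨⟨.negSucc 2454, .ofNat 5700⟩, ⟨.negSucc 2454, .ofNat 5490⟩, ⟨.negSucc 981, .ofNat 2238⟩, ⟨.negSucc 1472, .ofNat 3252⟩⟩ ⟨.ofNat 5,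 .ofNat 10⟩ ⟨.ofNat 163, .ofNat 26⟩ ⟨.ofNat 0, .ofNat 1⟩ 0 (.s23 ⟨⟨.ofNat 5, .ofNat 0⟩, ⟨.ofNat 5, .ofNat 0⟩, ⟨.ofNat 2, .ofNat 0⟩, ⟨.ofNat 3, .ofNat 0⟩⟩ ⟨.ofNat 2, .negSucc 0⟩ ⟨.ofNat 5, .ofNat 5⟩ ⟨.ofNat 11, .negSucc 2⟩ 0 (.s03 ⟨⟨.negSucc 1404, .ofNat 7380⟩, ⟨.negSucc 1404, .ofNat 7170⟩, ⟨.negSucc 561, .ofNat 2868⟩, ⟨.negSucc 842, .ofNat 4302⟩⟩ ⟨.ofNat 5, .negSucc 2⟩ ⟨.ofNat 0, .ofNat 210⟩ ⟨.ofNat 5, .negSucc 2⟩ 0 (.leaf 13 []) (.leaf 12 [])) (.leaf 12 [56])) (.s23 ⟨⟨.negSucc 1404, .ofNat 7380⟩, ⟨.negSucc 1404, .ofNat 7170⟩, ⟨.negSucc 561, .ofNat 2868⟩, ⟨.negSucc 842, .ofNat 4302⟩⟩ ⟨.ofNat 5, .negSucc 2⟩ ⟨.ofNat 0, .ofNat 210⟩ ⟨.ofNat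 5, .negSucc 2⟩ 0 (.leaf 13 [45]) (.leaf 12 [40]))) (.s02 ⟨⟨.ofNat 147, .ofNat 131⟩, ⟨.ofNat 189, .ofNat 89⟩, ⟨.ofNat 163, .negSucc 15⟩, ⟨.ofNat 26, .ofNat 105⟩⟩ ⟨.ofNat 1, .ofNat 0⟩ ⟨.ofNat 42, .ofNat 0⟩ ⟨.ofNat 1, .ofNat 0⟩ 0 (.leaf 12 [60, 0, 64]) (.s03 ⟨⟨.ofNat 1350, .ofNat 859⟩, ⟨.ofNat 1938, .ofNat 397⟩, ⟨.ofNat 1841, .negSucc 490⟩, ⟨.ofNat 97, .ofNat 888⟩⟩ ⟨.negSucc 2, .ofNat 8⟩ ⟨.ofNat 0, .ofNat 42⟩ ⟨.ofNat 0, .ofNat 1⟩ 0 (.leaf 12 [26]) (.leaf 12 [31]))))) (.s01 ⟨⟨.ofNat 222397, .ofNat 79077⟩, ⟨.ofNat 200683, .ofNat 94323⟩, ⟨.ofNat 74039, .ofNat 30345⟩, ⟨.ofNat 127484, .ofNat 50748⟩⟩ ⟨.ofNat 497, .negSucc 47⟩ ⟨.ofNat 295, .ofNat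 610⟩ ⟨.ofNat 0, .ofNat 1⟩ 26 (.s13 ⟨⟨.ofNat 12880, .ofNat 1513⟩, ⟨.ofNat 12880, .ofNat 1807⟩, ⟨.ofNat 4508, .ofNat 581⟩, ⟨.ofNat 8372, .ofNat 932⟩⟩ ⟨.ofNat 7, .ofNat 14⟩ ⟨.negSucc 47, .ofNat 449⟩ ⟨.ofNat 0, .ofNat 1⟩ 26 (.leaf 14 [1, 0]) (.leaf 13 [45])) (.leaf 14 [64, 64, 58, 0, 0]))

/-- part of a tree -/
def t1_0 : Tree := .s12 ⟨⟨.ofNat 189, .ofNat 89⟩, ⟨.ofNat 147, .ofNat 131⟩, ⟨.ofNat 163, .negSucc 15⟩, ⟨.ofNat 26, .ofNat 105⟩⟩ ⟨.negSucc 0, .ofNat 1⟩ ⟨.negSucc 69, .ofNat 159⟩ ⟨.ofNat 0, .ofNat 1⟩ 26 t1_1 (.s02 ⟨⟨.ofNat 222397, .ofNat 79077⟩, ⟨.ofNat 200683, .ofNat 94323⟩, ⟨.ofNat 74039, .ofNat 30345⟩, ⟨.ofNat 127484, .ofNat 50748⟩⟩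 ⟨.ofNat 497, .negSucc 47⟩ ⟨.ofNat 295, .ofNat 610⟩ ⟨.ofNat 0, .ofNat 1⟩ 26 (.s12 ⟨⟨.negSucc 159, .ofNat 1197⟩, ⟨.negSucc 159, .ofNat 1323⟩, ⟨.negSucc 55, .ofNat 441⟩, ⟨.negSucc 103, .ofNat 756⟩⟩ ⟨.ofNat 497, .negSucc 47⟩ ⟨.ofNat 295, .ofNat 610⟩ ⟨.ofNat 159, .ofNat 89⟩ 27 (.s23 ⟨⟨.ofNat 12880, .ofNat 1513⟩, ⟨.ofNat 12880, .ofNat 1807⟩, ⟨.ofNat 4508, .ofNat 581⟩, ⟨.ofNat 8372, .ofNat 932⟩⟩ ⟨.ofNat 7, .ofNat 14⟩ ⟨.negSucc 47, .ofNat 449⟩ ⟨.ofNat 0, .ofNat 1⟩ 26 (.leaf 14 [43]) (.leaf 13 [53])) (.leaf 15 [64, 48, 14])) (.leaf 15 [64, 64, 9, 27]))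

/-- part of a tree -/
def t1 : Tree := .s23 ⟨⟨.ofNat 22, .ofNat 0⟩, ⟨.ofNat 22, .ofNat 0⟩, ⟨.ofNat 7, .ofNat 0⟩, ⟨.ofNat 15, .ofNat 0⟩⟩ ⟨.ofNat 19, .ofNat 0⟩ ⟨.ofNat 8, .ofNat 0⟩ ⟨.ofNat 5, .ofNat 0⟩ 0 (.s02 ⟨⟨.negSucc 175, .ofNat 4851⟩, ⟨.negSucc 175, .ofNat 4389⟩, ⟨.negSucc 47, .ofNat 1197⟩, ⟨.negSucc 127, .ofNat 3192⟩⟩ ⟨.ofNat 11, .ofNat 0⟩ ⟨.ofNat 12, .ofNat 105⟩ ⟨.ofNat 1, .ofNat 0⟩ 1 (.s12 ⟨⟨.negSucc 175, .ofNat 4389⟩, ⟨.negSucc 175, .ofNat 4851⟩, ⟨.negSucc 47, .ofNat 1197⟩, ⟨.negSucc 127, .ofNat 3192⟩⟩ ⟨.ofNat 11, .ofNat 0⟩ ⟨.ofNat 12, .ofNat 105⟩ ⟨.ofNat 1, .ofNat 0⟩ 27 (.s23 ⟨⟨.ofNat 11, .ofNat 0⟩, ⟨.ofNat 11, .ofNat 0⟩, ⟨.ofNat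 3, .ofNat 0⟩, ⟨.ofNat 8, .ofNat 0⟩⟩ ⟨.ofNat 5, .ofNat 0⟩ ⟨.ofNat 11, .ofNat 0⟩ ⟨.ofNat 19, .ofNat 0⟩ 0 (.leaf 16 [64]) (.s23 ⟨⟨.ofNat 10, .ofNat 0⟩, ⟨.ofNat 10, .ofNat 0⟩, ⟨.ofNat 3, .ofNat 0⟩, ⟨.ofNat 7, .ofNat 0⟩⟩ ⟨.ofNat 3, .ofNat 0⟩ ⟨.ofNat 4, .ofNat 0⟩ ⟨.ofNat 11, .ofNat 0⟩ 0 (.leaf 15 [2, 64]) (.leaf 15 [64, 1]))) (.leaf 16 [64])) (.leaf 16 [64, 64])) t1_0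

theorem g1 : Good (PE lin H) ⟨⟨.negSucc 39, .ofNat 231⟩, ⟨.negSucc 39, .ofNat 189⟩, ⟨.negSucc 11, .ofNat 42⟩, ⟨.negSucc 27, .ofNat 147⟩⟩
    ⟨⟨.negSucc 39, .ofNat 189⟩, ⟨.negSucc 39, .ofNat 231⟩, ⟨.negSucc 11, .ofNat 42⟩, ⟨.negSucc 27, .ofNat 147⟩⟩
    ⟨⟨.ofNat 2, .ofNat 0⟩, ⟨.ofNat 2, .ofNat 0⟩, ⟨.ofNat 1, .ofNat 0⟩, ⟨.ofNat 1, .ofNat 0⟩⟩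
    ⟨⟨.ofNat 9, .ofNat 0⟩, ⟨.ofNat 9, .ofNat 0⟩, ⟨.ofNat 2, .ofNat 0⟩, ⟨.ofNat 7, .ofNat 0⟩⟩ :=
  goodE lin H t1 2 28 0 0 (by decide +kernel)

/-- part of a tree -/
def t2_2 : Tree := .s02 ⟨⟨.ofNat 2754, .ofNat 3085⟩, ⟨.negSucc 1313, .ofNat 4867⟩, ⟨.ofNat 2423, .ofNat 331⟩, ⟨.negSucc 2560, .ofNat 3738⟩⟩ ⟨.negSucc 0, .ofNat 1⟩ ⟨.ofNat 1830, .ofNat 253⟩ ⟨.ofNat 1, .ofNat 0⟩ 2 (.s03 ⟨⟨.ofNat 27601654, .ofNat 949215⟩, ⟨.ofNat 23438146, .ofNat 1182825⟩, ⟨.ofNat 9839547, .ofNat 202134⟩, ⟨.ofNat 14035945, .ofNat 586311⟩⟩ ⟨.ofNat 597, .ofNat 1374⟩ ⟨.ofNat 7029, .negSucc 726⟩ ⟨.ofNat 0, .ofNat 1⟩ 1 (.s23 ⟨⟨.ofNat 147, .ofNat 131⟩, ⟨.ofNat 189,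 .ofNat 89⟩, ⟨.ofNat 163, .negSucc 15⟩, ⟨.ofNat 26, .ofNat 105⟩⟩ ⟨.negSucc 27, .ofNat 1145⟩ ⟨.ofNat 0, .ofNat 1⟩ ⟨.ofNat 7, .ofNat 14⟩ 0 (.leaf 12 [19, 60, 64]) (.s02 ⟨⟨.ofNat 544947, .ofNat 8467507⟩, ⟨.negSucc 8015678, .ofNat 12864625⟩, ⟨.negSucc 7377612, .ofNat 7922560⟩, ⟨.ofNat 631006, .ofNat 4110339⟩⟩ ⟨.ofNat 1, .ofNat 1⟩ ⟨.negSucc 1029226, .ofNat 7236146⟩ ⟨.ofNat 2, .ofNat 3⟩ 1 (.leaf 12 [60, 0, 64]) (.leaf 12 [24, 0, 57]))) (.s01 ⟨⟨.ofNat 92442, .ofNat 54605⟩, ⟨.ofNat 103738, .ofNat 34243⟩, ⟨.ofNat 64885, .ofNat 3057⟩, ⟨.ofNat 49045, .ofNat 22212⟩⟩ ⟨.ofNat 34, .ofNat 76⟩ ⟨.ofNat 592, .ofNat 13⟩ ⟨.ofNat 3, .ofNat 3⟩ 1 (.s23 ⟨⟨.ofNat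 544947, .ofNat 8467507⟩, ⟨.negSucc 8015678, .ofNat 12864625⟩, ⟨.negSucc 7377612, .ofNat 7922560⟩, ⟨.ofNat 631006, .ofNat 4110339⟩⟩ ⟨.negSucc 1029226, .ofNat 7236146⟩ ⟨.ofNat 1, .ofNat 1⟩ ⟨.ofNat 2, .ofNat 3⟩ 1 (.leaf 12 [59, 0, 14]) (.leaf 12 [31, 0, 17])) (.leaf 12 [64, 19, 64, 0, 64]))) (.s01 ⟨⟨.ofNat 11187, .ofNat 330335⟩, ⟨.ofNat 399981, .ofNat 93245⟩, ⟨.negSucc 307960, .ofNat 319148⟩, ⟨.ofNat 481940, .negSucc 110276⟩⟩ ⟨.negSucc 41, .ofNat 42⟩ ⟨.ofNat 1830, .ofNat 253⟩ ⟨.ofNat 0, .ofNat 1⟩ 26 (.s23 ⟨⟨.ofNat 27601654, .ofNat 949215⟩, ⟨.ofNat 23438146, .ofNat 1182825⟩, ⟨.ofNat 9839547, .ofNat 202134⟩, ⟨.ofNat 14035945, .ofNat 586311⟩⟩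 ⟨.ofNat 597, .ofNat 1374⟩ ⟨.ofNat 7029, .negSucc 726⟩ ⟨.ofNat 0, .ofNat 1⟩ 1 (.leaf 13 [36, 52, 64]) (.s12 ⟨⟨.ofNat 92442, .ofNat 54605⟩, ⟨.ofNat 103738, .ofNat 34243⟩, ⟨.ofNat 64885, .ofNat 3057⟩, ⟨.ofNat 49045, .ofNat 22212⟩⟩ ⟨.ofNat 592, .ofNat 13⟩ ⟨.ofNat 34, .ofNat 76⟩ ⟨.ofNat 3, .ofNat 3⟩ 1 (.leaf 12 [64, 0, 64, 54, 64, 0]) (.leaf 12 [59, 64, 0, 14]))) (.s03 ⟨⟨.negSucc 9847681, .ofNat 33084745⟩, ⟨.negSucc 8693677, .ofNat 26524135⟩, ⟨.negSucc 4383563, .ofNat 10217625⟩, ⟨.negSucc 5098873, .ofNat 16392442⟩⟩ ⟨.ofNat 1194, .ofNat 2748⟩ ⟨.negSucc 3789, .ofNat 8185⟩ ⟨.ofNat 0, .ofNat 1⟩ 3 (.s23 ⟨⟨.ofNat 27601654, .ofNat 949215⟩, ⟨.ofNat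 23438146, .ofNat 1182825⟩, ⟨.ofNat 9839547, .ofNat 202134⟩, ⟨.ofNat 14035945, .ofNat 586311⟩⟩ ⟨.ofNat 597, .ofNat 1374⟩ ⟨.ofNat 7029, .negSucc 726⟩ ⟨.ofNat 0, .ofNat 1⟩ 1 (.leaf 13 [29, 37, 64]) (.leaf 12 [28, 64, 64, 35, 64, 0])) (.s02 ⟨⟨.negSucc 4690, .ofNat 25776⟩, ⟨.negSucc 11548, .ofNat 24264⟩, ⟨.negSucc 2841, .ofNat 8757⟩, ⟨.negSucc 7572, .ofNat 14247⟩⟩ ⟨.ofNat 11104, .ofNat 498⟩ ⟨.ofNat 6510, .ofNat 1655⟩ ⟨.ofNat 253, .ofNat 2083⟩ 3 (.leaf 12 [5, 64, 64, 23, 64, 0]) (.s01 ⟨⟨.negSucc 7108, .ofNat 278245⟩, ⟨.negSucc 68194, .ofNat 251047⟩, ⟨.negSucc 76290, .ofNat 122378⟩, ⟨.negSucc 18825, .ofNat 132323⟩⟩ ⟨.negSucc 53195, .ofNat 109780⟩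 ⟨.ofNat 592, .ofNat 13⟩ ⟨.ofNat 1830, .ofNat 253⟩ 3 (.leaf 13 [7, 64, 64, 64, 0]) (.leaf 13 [50, 64, 64, 64, 14])))))

/-- part of a tree -/
def t2_1 : Tree := .s12 ⟨⟨.ofNat 189, .ofNat 89⟩, ⟨.ofNat 147, .ofNat 131⟩, ⟨.ofNat 163, .negSucc 15⟩, ⟨.ofNat 26, .ofNat 105⟩⟩ ⟨.ofNat 1, .ofNat 0⟩ ⟨.ofNat 1288, .ofNat 313⟩ ⟨.ofNat 8, .ofNat 8⟩ 26 t2_2 (.s02 ⟨⟨.ofNat 11187, .ofNat 330335⟩, ⟨.ofNat 399981, .ofNat 93245⟩, ⟨.negSucc 307960, .ofNat 319148⟩, ⟨.ofNat 481940, .negSucc 110276⟩⟩ ⟨.negSucc 41, .ofNat 42⟩ ⟨.ofNat 1830, .ofNat 253⟩ ⟨.ofNat 0, .ofNat 1⟩ 26 (.leaf 13 [44, 64, 64]) (.leaf 13 [17, 64, 64, 38, 64, 64, 0]))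

/-- part of a tree -/
def t2_0 : Tree := .s23 ⟨⟨.negSucc 399, .ofNat 2919⟩, ⟨.negSucc 399, .ofNat 2625⟩, ⟨.negSucc 143, .ofNat 945⟩, ⟨.negSucc 255, .ofNat 1680⟩⟩ ⟨.negSucc 59, .ofNat 651⟩ ⟨.ofNat 7, .ofNat 0⟩ ⟨.ofNat 1, .ofNat 0⟩ 1 (.leaf 15 [0, 64, 40, 64, 64, 16, 0]) t2_1

/-- part of a tree -/
def t2 : Tree := .s12 ⟨⟨.negSucc 351, .ofNat 2310⟩, ⟨.negSucc 351, .ofNat 2646⟩, ⟨.negSucc 111, .ofNat 735⟩, ⟨.negSucc 239, .ofNat 1575⟩⟩ ⟨.ofNat 8, .ofNat 0⟩ ⟨.negSucc 15, .ofNat 399⟩ ⟨.ofNat 1, .ofNat 0⟩ 27 t2_0 (.leaf 15 [0, 0, 64, 64, 15, 0])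

theorem g2 : Good (PE lin H) ⟨⟨.ofNat 2579, .ofNat 1673⟩, ⟨.ofNat 4361, .negSucc 612⟩, ⟨.ofNat 78, .ofNat 671⟩, ⟨.ofNat 3485, .negSucc 905⟩⟩
    ⟨⟨.negSucc 39, .ofNat 189⟩, ⟨.negSucc 39, .ofNat 231⟩, ⟨.negSucc 11, .ofNat 42⟩, ⟨.negSucc 27, .ofNat 147⟩⟩
    ⟨⟨.ofNat 2, .ofNat 0⟩, ⟨.ofNat 2, .ofNat 0⟩, ⟨.ofNat 1, .ofNat 0⟩, ⟨.ofNat 1, .ofNat 0⟩⟩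
    ⟨⟨.negSucc 39, .ofNat 231⟩, ⟨.negSucc 39, .ofNat 189⟩, ⟨.negSucc 11, .ofNat 42⟩, ⟨.negSucc 27, .ofNat 147⟩⟩ :=
  goodE lin H t2 5 28 0 2 (by decide +kernel)

end

end Pool.Agent.PHCert.E3
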