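import Pool.Agent.PHCert.E4a

/-!
# PHCert: inequality E4
-/

set_option autoImplicit false

namespace Pool.Agent.PHCert.E4

open Zp Pool.Agent.PHCert

noncomputable section

theorem g2 : Good (PE lin H) ⟨⟨.ofNat 1, .ofNat 0⟩, ⟨.ofNat 0, .ofNat 0⟩, ⟨.ofNat 0, .ofNat 0⟩, ⟨.ofNat 0, .ofNat 0⟩⟩
    ⟨⟨.ofNat 0, .ofNat 0⟩, ⟨.ofNat 1, .ofNat 0⟩, ⟨.ofNat 0, .ofNat 0⟩, ⟨.ofNat 0, .ofNat 0⟩⟩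
    ⟨⟨.ofNat 1, .ofNat 0⟩, ⟨.ofNat 1, .ofNat 0⟩, ⟨.ofNat 1, .ofNat 0⟩, ⟨.ofNat 0, .ofNat 0⟩⟩
    ⟨⟨.ofNat 1, .ofNat 0⟩, ⟨.ofNat 1, .ofNat 0⟩, ⟨.ofNat 0, .ofNat 0⟩, ⟨.ofNat 1, .ofNat 0⟩⟩ :=
  good23 ⟨.ofNat 11, .ofNat 0⟩ ⟨.ofNat 12, .ofNat 0⟩ ⟨.ofNat 1, .ofNat 0⟩ (by decide +kernel) g0 g1

theorem root : Good (PE lin H) v0 v1 ⟨z1, z1, z1, z0⟩ ⟨z1, z1, z0, z1⟩ := g2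

theorem ineq {e f a b : ℝ} (ha : 0 ≤ a) (hb : 0 ≤ b) (he : a + b ≤ e) (hf : a + b ≤ f) :
    0 ≤ tev ts ![e, f, a, b] + (DD : ℝ) / Lp * (VV e f - Real.goldenRatio ^ 2 * VV a b) := gen_E data root ha hb he hf

end

end Pool.Agent.PHCert.E4
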