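import Pool.Agent.PHCert.E4H

/-!
# PHCert: inequality E4, part 1 (73 leaves, checked by the kernel)
-/

set_option autoImplicit false

namespace Pool.Agent.PHCert.E4

open Zp Pool.Agent.PHCert

noncomputable section

/-- part of a tree -/
def t0_1 : Tree := .s02 ⟨⟨.ofNat 46, .ofNat 69⟩, ⟨.ofNat 23, .ofNat 0⟩, ⟨.ofNat 11, .ofNat 0⟩, ⟨.ofNat 12, .ofNat 0⟩⟩ ⟨.ofNat 46, .ofNat 23⟩ ⟨.negSucc 0, .ofNat 1⟩ ⟨.negSucc 0, .ofNat 1⟩ 19 (.s02 ⟨⟨.ofNat 460, .ofNat 0⟩, ⟨.ofNat 299, .ofNat 0⟩, ⟨.ofNat 143, .ofNat 0⟩, ⟨.ofNat 156, .ofNat 0⟩⟩ ⟨.negSucc 6, .ofNat 7⟩ ⟨.ofNat 33, .ofNat 6⟩ ⟨.ofNat 2, .ofNat 1⟩ 5 (.leaf 13 [0, 0, 64, 64, 64,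 64, 12]) (.s03 ⟨⟨.ofNat 920, .ofNat 460⟩, ⟨.negSucc 22, .ofNat 1058⟩, ⟨.negSucc 76, .ofNat 77⟩, ⟨.ofNat 675, .ofNat 222⟩⟩ ⟨.negSucc 6, .ofNat 7⟩ ⟨.ofNat 759, .ofNat 138⟩ ⟨.ofNat 1, .ofNat 0⟩ 26 (.leaf 15 [0, 0, 64, 64, 0, 0, 0]) (.s01 ⟨⟨.ofNat 920, .ofNat 460⟩, ⟨.negSucc 22, .ofNat 1058⟩, ⟨.ofNat 286, .ofNat 143⟩, ⟨.ofNat 312, .ofNat 156⟩⟩ ⟨.ofNat 7, .ofNat 0⟩ ⟨.ofNat 6, .ofNat 39⟩ ⟨.ofNat 0, .ofNat 1⟩ 26 (.leaf 13 [0, 0, 64, 64, 54, 64]) (.leaf 14 [64, 44, 0, 64, 0, 0, 0, 64, 0])))) (.s03 ⟨⟨.ofNat 1, .ofNat 2⟩, ⟨.ofNat 1, .ofNat 0⟩, ⟨.ofNat 0, .ofNat 0⟩, ⟨.negSucc 0, .ofNat 1⟩⟩ ⟨.ofNat 2, .ofNat 1⟩ ⟨.negSucc 0, .ofNat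 1⟩ ⟨.ofNat 1, .ofNat 0⟩ 17 (.s23 ⟨⟨.ofNat 920, .ofNat 460⟩, ⟨.negSucc 22, .ofNat 1058⟩, ⟨.negSucc 76, .ofNat 77⟩, ⟨.ofNat 675, .ofNat 222⟩⟩ ⟨.negSucc 6, .ofNat 7⟩ ⟨.ofNat 759, .ofNat 138⟩ ⟨.ofNat 1, .ofNat 0⟩ 26 (.s13 ⟨⟨.ofNat 17, .ofNat 0⟩, ⟨.ofNat 0, .ofNat 17⟩, ⟨.ofNat 3, .ofNat 0⟩, ⟨.ofNat 14, .ofNat 0⟩⟩ ⟨.ofNat 3, .ofNat 0⟩ ⟨.ofNat 118, .ofNat 0⟩ ⟨.ofNat 11, .ofNat 0⟩ 32 (.leaf 20 [64, 64, 64, 18, 64, 64, 64, 0]) (.s03 ⟨⟨.negSucc 339, .ofNat 680⟩, ⟨.ofNat 442, .ofNat 221⟩, ⟨.negSucc 80, .ofNat 99⟩, ⟨.negSucc 139, .ofNat 343⟩⟩ ⟨.ofNat 119, .ofNat 0⟩ ⟨.ofNat 33, .ofNat 6⟩ ⟨.ofNat 0, .ofNat 1⟩ 26 (.leaf 15 [0, 0]) (.s01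 ⟨⟨.negSucc 459, .ofNat 920⟩, ⟨.ofNat 598, .ofNat 299⟩, ⟨.negSucc 296, .ofNat 363⟩, ⟨.negSucc 1, .ofNat 235⟩⟩ ⟨.ofNat 161, .ofNat 0⟩ ⟨.ofNat 33, .ofNat 6⟩ ⟨.ofNat 0, .ofNat 1⟩ 26 (.leaf 15 [64, 64, 0, 0]) (.leaf 17 [64, 64, 64, 0, 0, 0, 0])))) (.s12 ⟨⟨.ofNat 920, .ofNat 460⟩, ⟨.negSucc 22, .ofNat 1058⟩, ⟨.ofNat 286, .ofNat 143⟩, ⟨.ofNat 312, .ofNat 156⟩⟩ ⟨.ofNat 6, .ofNat 39⟩ ⟨.ofNat 7, .ofNat 0⟩ ⟨.ofNat 0, .ofNat 1⟩ 26 (.leaf 16 [64, 46, 0, 64, 0, 0, 0, 0, 0]) (.s01 ⟨⟨.negSucc 459, .ofNat 920⟩, ⟨.ofNat 598, .ofNat 299⟩, ⟨.negSucc 296, .ofNat 363⟩, ⟨.negSucc 1, .ofNat 235⟩⟩ ⟨.ofNat 161, .ofNat 0⟩ ⟨.ofNat 33, .ofNat 6⟩ ⟨.ofNat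 0, .ofNat 1⟩ 26 (.leaf 13 [64, 64, 54, 64]) (.leaf 15 [64, 64, 9, 0, 0, 58, 0])))) (.s01 ⟨⟨.ofNat 23, .ofNat 46⟩, ⟨.ofNat 23, .ofNat 0⟩, ⟨.negSucc 10, .ofNat 11⟩, ⟨.negSucc 11, .ofNat 12⟩⟩ ⟨.ofNat 46, .ofNat 23⟩ ⟨.negSucc 0, .ofNat 1⟩ ⟨.ofNat 1, .ofNat 0⟩ 17 (.s12 ⟨⟨.ofNat 920, .ofNat 460⟩, ⟨.negSucc 22, .ofNat 1058⟩, ⟨.ofNat 286, .ofNat 143⟩, ⟨.ofNat 312, .ofNat 156⟩⟩ ⟨.ofNat 6, .ofNat 39⟩ ⟨.ofNat 7, .ofNat 0⟩ ⟨.ofNat 0, .ofNat 1⟩ 26 (.leaf 13 [64, 25, 0, 4, 0, 0]) (.s13 ⟨⟨.negSucc 459, .ofNat 920⟩, ⟨.ofNat 598, .ofNat 299⟩, ⟨.negSucc 296, .ofNat 363⟩, ⟨.negSucc 1, .ofNat 235⟩⟩ ⟨.ofNat 33, .ofNat 6⟩ ⟨.ofNat 161, .ofNat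 0⟩ ⟨.ofNat 0, .ofNat 1⟩ 26 (.leaf 13 [64, 39, 0, 64]) (.s01 ⟨⟨.ofNat 460, .ofNat 0⟩, ⟨.ofNat 0, .ofNat 299⟩, ⟨.ofNat 143, .ofNat 0⟩, ⟨.ofNat 156, .ofNat 0⟩⟩ ⟨.ofNat 7, .ofNat 0⟩ ⟨.ofNat 33, .ofNat 6⟩ ⟨.ofNat 2, .ofNat 1⟩ 26 (.leaf 11 [64, 1]) (.leaf 11 [64, 35, 0])))) (.leaf 14 [0, 0, 64])))

/-- part of a tree -/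
def t0_0 : Tree := .s12 ⟨⟨.ofNat 23, .ofNat 0⟩, ⟨.ofNat 0, .ofNat 23⟩, ⟨.ofNat 11, .ofNat 0⟩, ⟨.ofNat 12, .ofNat 0⟩⟩ ⟨.ofNat 23, .ofNat 0⟩ ⟨.ofNat 0, .ofNat 1⟩ ⟨.ofNat 0, .ofNat 1⟩ 32 t0_1 (.s03 ⟨⟨.ofNat 1, .ofNat 2⟩, ⟨.ofNat 1, .ofNat 0⟩, ⟨.ofNat 0, .ofNat 0⟩, ⟨.negSucc 0, .ofNat 1⟩⟩ ⟨.ofNat 2, .ofNat 1⟩ ⟨.negSucc 0, .ofNat 1⟩ ⟨.ofNat 1, .ofNat 0⟩ 17 (.s13 ⟨⟨.ofNat 1, .ofNat 0⟩, ⟨.ofNat 4, .ofNat 0⟩, ⟨.ofNat 0, .ofNat 0⟩, ⟨.ofNat 1, .ofNat 0⟩⟩ ⟨.negSucc 0, .ofNat 3⟩ ⟨.ofNat 0, .ofNat 1⟩ ⟨.ofNat 0, .ofNat 1⟩ 42 (.s23 ⟨⟨.ofNat 17, .ofNat 0⟩, ⟨.ofNat 0, .ofNat 17⟩, ⟨.ofNat 3, .ofNat 0⟩, ⟨.ofNat 14, .ofNat 0⟩⟩ ⟨.ofNat 3,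 .ofNat 0⟩ ⟨.ofNat 118, .ofNat 0⟩ ⟨.ofNat 11, .ofNat 0⟩ 32 (.leaf 20 [64, 64, 64, 18, 64, 64, 64, 64, 64, 0]) (.s03 ⟨⟨.negSucc 339, .ofNat 680⟩, ⟨.ofNat 442, .ofNat 221⟩, ⟨.negSucc 80, .ofNat 99⟩, ⟨.negSucc 139, .ofNat 343⟩⟩ ⟨.ofNat 119, .ofNat 0⟩ ⟨.ofNat 33, .ofNat 6⟩ ⟨.ofNat 0, .ofNat 1⟩ 26 (.leaf 15 [64, 0, 0]) (.s02 ⟨⟨.negSucc 459, .ofNat 920⟩, ⟨.ofNat 598, .ofNat 299⟩, ⟨.negSucc 296, .ofNat 363⟩, ⟨.negSucc 1, .ofNat 235⟩⟩ ⟨.ofNat 161, .ofNat 0⟩ ⟨.ofNat 33, .ofNat 6⟩ ⟨.ofNat 0, .ofNat 1⟩ 26 (.leaf 15 [64, 64, 64, 0, 0]) (.leaf 17 [64, 64, 64, 0, 64, 0, 0, 0, 0])))) (.s12 ⟨⟨.ofNat 23, .ofNat 0⟩, ⟨.ofNat 92, .ofNat 0⟩,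 ⟨.ofNat 11, .ofNat 0⟩, ⟨.ofNat 12, .ofNat 0⟩⟩ ⟨.negSucc 22, .ofNat 69⟩ ⟨.ofNat 0, .ofNat 1⟩ ⟨.ofNat 0, .ofNat 1⟩ 42 (.s02 ⟨⟨.negSucc 459, .ofNat 920⟩, ⟨.ofNat 598, .ofNat 299⟩, ⟨.negSucc 296, .ofNat 363⟩, ⟨.negSucc 1, .ofNat 235⟩⟩ ⟨.ofNat 161, .ofNat 0⟩ ⟨.ofNat 33, .ofNat 6⟩ ⟨.ofNat 0, .ofNat 1⟩ 26 (.leaf 13 [4, 64, 64]) (.leaf 15 [64, 64, 0, 0, 0, 36, 0, 0])) (.leaf 17 [64, 64, 64, 6, 0, 0, 0, 0, 0]))) (.s02 ⟨⟨.ofNat 23, .ofNat 46⟩, ⟨.ofNat 23, .ofNat 0⟩, ⟨.negSucc 10, .ofNat 11⟩, ⟨.negSucc 11, .ofNat 12⟩⟩ ⟨.ofNat 46, .ofNat 23⟩ ⟨.negSucc 0, .ofNat 1⟩ ⟨.ofNat 1, .ofNat 0⟩ 17 (.s23 ⟨⟨.negSucc 459, .ofNat 920⟩, ⟨.ofNat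 598, .ofNat 299⟩, ⟨.negSucc 296, .ofNat 363⟩, ⟨.negSucc 1, .ofNat 235⟩⟩ ⟨.ofNat 33, .ofNat 6⟩ ⟨.ofNat 161, .ofNat 0⟩ ⟨.ofNat 0, .ofNat 1⟩ 26 (.leaf 14 [64, 64, 36, 0, 0, 0]) (.s02 ⟨⟨.ofNat 460, .ofNat 0⟩, ⟨.ofNat 0, .ofNat 299⟩, ⟨.ofNat 143, .ofNat 0⟩, ⟨.ofNat 156, .ofNat 0⟩⟩ ⟨.ofNat 7, .ofNat 0⟩ ⟨.ofNat 33, .ofNat 6⟩ ⟨.ofNat 2, .ofNat 1⟩ 26 (.s12 ⟨⟨.ofNat 23, .ofNat 0⟩, ⟨.ofNat 92, .ofNat 0⟩, ⟨.ofNat 11, .ofNat 0⟩, ⟨.ofNat 12, .ofNat 0⟩⟩ ⟨.negSucc 22, .ofNat 69⟩ ⟨.ofNat 0, .ofNat 1⟩ ⟨.ofNat 0, .ofNat 1⟩ 42 (.leaf 11 [23, 64, 64]) (.leaf 11 [0, 0, 0, 0])) (.leaf 11 [64, 64, 23, 0, 0]))) (.leaf 16 [0, 0, 0])))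

/-- part of a tree -/
def t0 : Tree := .s13 ⟨⟨.ofNat 1, .ofNat 0⟩, ⟨.ofNat 0, .ofNat 1⟩, ⟨.ofNat 0, .ofNat 0⟩, ⟨.ofNat 1, .ofNat 0⟩⟩ ⟨.ofNat 1, .ofNat 0⟩ ⟨.ofNat 0, .ofNat 1⟩ ⟨.ofNat 0, .ofNat 1⟩ 32 (.s03 ⟨⟨.ofNat 2, .ofNat 3⟩, ⟨.ofNat 1, .ofNat 0⟩, ⟨.ofNat 0, .ofNat 0⟩, ⟨.ofNat 1, .ofNat 0⟩⟩ ⟨.ofNat 1, .ofNat 3⟩ ⟨.ofNat 1, .ofNat 0⟩ ⟨.ofNat 1, .ofNat 0⟩ 19 (.s23 ⟨⟨.ofNat 17, .ofNat 0⟩, ⟨.ofNat 17, .ofNat 0⟩, ⟨.ofNat 3, .ofNat 0⟩, ⟨.ofNat 14, .ofNat 0⟩⟩ ⟨.ofNat 3, .ofNat 0⟩ ⟨.ofNat 118, .ofNat 0⟩ ⟨.ofNat 11, .ofNat 0⟩ 0 (.leaf 19 [64, 64, 64, 0, 64, 64, 64, 64, 64, 10]) (.s03 ⟨⟨.negSucc 339, .ofNat 680⟩, ⟨.negSucc 220,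 .ofNat 442⟩, ⟨.negSucc 80, .ofNat 99⟩, ⟨.negSucc 139, .ofNat 343⟩⟩ ⟨.ofNat 119, .ofNat 0⟩ ⟨.ofNat 6, .ofNat 39⟩ ⟨.ofNat 1, .ofNat 1⟩ 5 (.leaf 16 [64, 64, 0]) (.s02 ⟨⟨.ofNat 920, .ofNat 460⟩, ⟨.ofNat 598, .ofNat 299⟩, ⟨.ofNat 363, .ofNat 66⟩, ⟨.ofNat 235, .ofNat 233⟩⟩ ⟨.ofNat 161, .ofNat 0⟩ ⟨.ofNat 6, .ofNat 39⟩ ⟨.ofNat 0, .ofNat 1⟩ 5 (.leaf 15 [64, 64, 64, 64, 32]) (.leaf 17 [64, 64, 43, 0, 64, 2, 0, 0, 64, 0])))) (.s02 ⟨⟨.ofNat 46, .ofNat 69⟩, ⟨.ofNat 23, .ofNat 0⟩, ⟨.ofNat 11, .ofNat 0⟩, ⟨.ofNat 12, .ofNat 0⟩⟩ ⟨.ofNat 46, .ofNat 23⟩ ⟨.negSucc 0, .ofNat 1⟩ ⟨.negSucc 0, .ofNat 1⟩ 19 (.s23 ⟨⟨.ofNat 920, .ofNat 460⟩, ⟨.ofNat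 598, .ofNat 299⟩, ⟨.ofNat 363, .ofNat 66⟩, ⟨.ofNat 235, .ofNat 233⟩⟩ ⟨.ofNat 6, .ofNat 39⟩ ⟨.ofNat 161, .ofNat 0⟩ ⟨.ofNat 0, .ofNat 1⟩ 5 (.leaf 16 [64, 64, 0, 0, 64, 0, 0, 0, 6, 0]) (.s12 ⟨⟨.ofNat 242, .ofNat 0⟩, ⟨.ofNat 161, .ofNat 81⟩, ⟨.ofNat 77, .ofNat 0⟩, ⟨.ofNat 165, .ofNat 0⟩⟩ ⟨.ofNat 81, .ofNat 0⟩ ⟨.ofNat 7, .ofNat 0⟩ ⟨.ofNat 1, .ofNat 0⟩ 28 (.s02 ⟨⟨.ofNat 460, .ofNat 0⟩, ⟨.ofNat 299, .ofNat 0⟩, ⟨.ofNat 143, .ofNat 0⟩, ⟨.ofNat 156, .ofNat 0⟩⟩ ⟨.negSucc 6, .ofNat 7⟩ ⟨.ofNat 33, .ofNat 6⟩ ⟨.ofNat 2, .ofNat 1⟩ 5 (.leaf 12 [64, 51]) (.leaf 13 [64, 64, 64, 0, 0, 0, 14])) (.leaf 15 [64, 64, 0, 0, 64, 0, 0, 0, 34, 0])))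 (.s12 ⟨⟨.ofNat 111, .ofNat 69⟩, ⟨.ofNat 23, .ofNat 65⟩, ⟨.ofNat 11, .ofNat 0⟩, ⟨.ofNat 77, .ofNat 0⟩⟩ ⟨.ofNat 65, .ofNat 0⟩ ⟨.ofNat 1, .ofNat 0⟩ ⟨.ofNat 1, .ofNat 0⟩ 8 (.leaf 17 [0, 0, 0, 64, 21, 0]) (.s01 ⟨⟨.ofNat 1, .ofNat 2⟩, ⟨.ofNat 1, .ofNat 0⟩, ⟨.ofNat 0, .ofNat 0⟩, ⟨.negSucc 0, .ofNat 1⟩⟩ ⟨.ofNat 2, .ofNat 1⟩ ⟨.negSucc 0, .ofNat 1⟩ ⟨.ofNat 1, .ofNat 0⟩ 17 (.leaf 20 [64, 60, 0, 0, 64, 0, 0, 0, 64, 0]) (.leaf 20 [0, 0, 0, 0, 0, 0]))))) t0_0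

theorem g0 : Good (PE lin H) ⟨⟨.ofNat 1, .ofNat 0⟩, ⟨.ofNat 0, .ofNat 0⟩, ⟨.ofNat 0, .ofNat 0⟩, ⟨.ofNat 0, .ofNat 0⟩⟩
    ⟨⟨.ofNat 0, .ofNat 0⟩, ⟨.ofNat 1, .ofNat 0⟩, ⟨.ofNat 0, .ofNat 0⟩, ⟨.ofNat 0, .ofNat 0⟩⟩
    ⟨⟨.ofNat 23, .ofNat 0⟩, ⟨.ofNat 23, .ofNat 0⟩, ⟨.ofNat 11, .ofNat 0⟩, ⟨.ofNat 12, .ofNat 0⟩⟩
    ⟨⟨.ofNat 1, .ofNat 0⟩, ⟨.ofNat 1, .ofNat 0⟩, ⟨.ofNat 0, .ofNat 0⟩, ⟨.ofNat 1, .ofNat 0⟩⟩ :=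
  goodE lin H t0 25 51 0 0 (by decide +kernel)

/-- part of a tree -/
def t1_1 : Tree := .s02 ⟨⟨.ofNat 2, .ofNat 3⟩, ⟨.ofNat 1, .ofNat 0⟩, ⟨.ofNat 1, .ofNat 0⟩, ⟨.ofNat 0, .ofNat 0⟩⟩ ⟨.ofNat 1, .ofNat 3⟩ ⟨.ofNat 1, .ofNat 0⟩ ⟨.ofNat 1, .ofNat 0⟩ 19 (.s23 ⟨⟨.ofNat 920, .ofNat 460⟩, ⟨.ofNat 598, .ofNat 299⟩, ⟨.ofNat 682, .ofNat 215⟩, ⟨.negSucc 83, .ofNat 84⟩⟩ ⟨.ofNat 759, .ofNat 138⟩ ⟨.negSucc 6, .ofNat 7⟩ ⟨.ofNat 1, .ofNat 0⟩ 5 (.s13 ⟨⟨.ofNat 920, .ofNat 460⟩, ⟨.negSucc 22, .ofNat 1058⟩, ⟨.ofNat 286, .ofNat 143⟩, ⟨.ofNat 312, .ofNat 156⟩⟩ ⟨.ofNat 6, .ofNat 39⟩ ⟨.ofNat 7, .ofNat 0⟩ ⟨.ofNat 0, .ofNat 1⟩ 26 (.leaf 5 [64, 43,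 0, 64, 0, 0]) (.s01 ⟨⟨.ofNat 920, .ofNat 460⟩, ⟨.negSucc 22, .ofNat 1058⟩, ⟨.ofNat 202, .ofNat 227⟩, ⟨.ofNat 396, .ofNat 72⟩⟩ ⟨.ofNat 161, .ofNat 0⟩ ⟨.ofNat 6, .ofNat 39⟩ ⟨.ofNat 0, .ofNat 1⟩ 26 (.leaf 7 [64, 64, 0, 0]) (.leaf 5 [64, 49, 0, 64, 0]))) (.s12 ⟨⟨.ofNat 68, .ofNat 0⟩, ⟨.ofNat 45, .ofNat 23⟩, ⟨.ofNat 56, .ofNat 0⟩, ⟨.ofNat 12, .ofNat 0⟩⟩ ⟨.ofNat 1, .ofNat 0⟩ ⟨.ofNat 45, .ofNat 0⟩ ⟨.ofNat 1, .ofNat 0⟩ 28 (.leaf 1 [64, 64, 64, 9]) (.s02 ⟨⟨.negSucc 1359, .ofNat 2720⟩, ⟨.ofNat 496, .ofNat 1147⟩, ⟨.negSucc 559, .ofNat 1372⟩, ⟨.negSucc 323, .ofNat 396⟩⟩ ⟨.ofNat 476, .ofNat 0⟩ ⟨.ofNat 6, .ofNat 39⟩ ⟨.ofNat 1, .ofNat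 1⟩ 3 (.s13 ⟨⟨.ofNat 2216, .ofNat 541⟩, ⟨.ofNat 727, .ofNat 1300⟩, ⟨.ofNat 1386, .ofNat 252⟩, ⟨.ofNat 396, .ofNat 72⟩⟩ ⟨.negSucc 78, .ofNat 897⟩ ⟨.ofNat 0, .ofNat 31⟩ ⟨.ofNat 0, .ofNat 23⟩ 1 (.leaf 2 []) (.leaf 6 [0, 0, 64, 64])) (.s01 ⟨⟨.ofNat 920, .ofNat 460⟩, ⟨.negSucc 22, .ofNat 1058⟩, ⟨.ofNat 202, .ofNat 227⟩, ⟨.ofNat 396, .ofNat 72⟩⟩ ⟨.ofNat 161, .ofNat 0⟩ ⟨.ofNat 6, .ofNat 39⟩ ⟨.ofNat 0, .ofNat 1⟩ 26 (.leaf 6 [0, 0, 64, 31]) (.leaf 3 [64, 64, 64, 0, 0]))))) (.s01 ⟨⟨.ofNat 23, .ofNat 46⟩, ⟨.ofNat 23, .ofNat 0⟩, ⟨.negSucc 10, .ofNat 11⟩, ⟨.negSucc 11, .ofNat 12⟩⟩ ⟨.ofNat 46, .ofNat 23⟩ ⟨.negSucc 0, .ofNat 1⟩ ⟨.ofNat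 1, .ofNat 0⟩ 17 (.s13 ⟨⟨.ofNat 920, .ofNat 460⟩, ⟨.negSucc 22, .ofNat 1058⟩, ⟨.ofNat 286, .ofNat 143⟩, ⟨.ofNat 312, .ofNat 156⟩⟩ ⟨.ofNat 6, .ofNat 39⟩ ⟨.ofNat 7, .ofNat 0⟩ ⟨.ofNat 0, .ofNat 1⟩ 26 (.leaf 8 [64, 5, 0, 64, 0, 0]) (.s12 ⟨⟨.ofNat 920, .ofNat 460⟩, ⟨.negSucc 22, .ofNat 1058⟩, ⟨.ofNat 202, .ofNat 227⟩, ⟨.ofNat 396, .ofNat 72⟩⟩ ⟨.ofNat 6, .ofNat 39⟩ ⟨.ofNat 161, .ofNat 0⟩ ⟨.ofNat 0, .ofNat 1⟩ 26 (.leaf 8 [64, 5, 0, 64, 0]) (.s01 ⟨⟨.ofNat 460, .ofNat 0⟩, ⟨.ofNat 0, .ofNat 299⟩, ⟨.ofNat 143, .ofNat 0⟩, ⟨.ofNat 156, .ofNat 0⟩⟩ ⟨.ofNat 7, .ofNat 0⟩ ⟨.ofNat 33, .ofNat 6⟩ ⟨.ofNat 2, .ofNat 1⟩ 26 (.leaf 10 [57, 0]) (.leaf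 10 [64, 34, 0])))) (.leaf 6 [64, 64, 0]))

/-- part of a tree -/
def t1_0 : Tree := .s03 ⟨⟨.ofNat 46, .ofNat 69⟩, ⟨.ofNat 23, .ofNat 0⟩, ⟨.ofNat 11, .ofNat 0⟩, ⟨.ofNat 12, .ofNat 0⟩⟩ ⟨.ofNat 46, .ofNat 23⟩ ⟨.negSucc 0, .ofNat 1⟩ ⟨.negSucc 0, .ofNat 1⟩ 19 (.s03 ⟨⟨.ofNat 460, .ofNat 0⟩, ⟨.ofNat 299, .ofNat 0⟩, ⟨.ofNat 143, .ofNat 0⟩, ⟨.ofNat 156, .ofNat 0⟩⟩ ⟨.negSucc 6, .ofNat 7⟩ ⟨.ofNat 33, .ofNat 6⟩ ⟨.ofNat 2, .ofNat 1⟩ 5 (.leaf 6 [46, 0, 14, 0, 0, 0]) (.s02 ⟨⟨.ofNat 920, .ofNat 460⟩, ⟨.ofNat 598, .ofNat 299⟩, ⟨.ofNat 682, .ofNat 215⟩, ⟨.negSucc 83, .ofNat 84⟩⟩ ⟨.negSucc 6, .ofNat 7⟩ ⟨.ofNat 759, .ofNat 138⟩ ⟨.ofNat 1,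 .ofNat 0⟩ 5 (.leaf 6 [34, 0, 0, 0, 0, 0]) (.s01 ⟨⟨.ofNat 920, .ofNat 460⟩, ⟨.negSucc 22, .ofNat 1058⟩, ⟨.ofNat 286, .ofNat 143⟩, ⟨.ofNat 312, .ofNat 156⟩⟩ ⟨.ofNat 7, .ofNat 0⟩ ⟨.ofNat 6, .ofNat 39⟩ ⟨.ofNat 0, .ofNat 1⟩ 26 (.leaf 7 [64, 64, 0, 0, 0, 0]) (.leaf 7 [64, 64, 15, 64, 64, 0, 0])))) t1_1

/-- part of a tree -/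
def t1_2 : Tree := .s02 ⟨⟨.ofNat 2, .ofNat 3⟩, ⟨.ofNat 1, .ofNat 0⟩, ⟨.ofNat 1, .ofNat 0⟩, ⟨.ofNat 0, .ofNat 0⟩⟩ ⟨.ofNat 1, .ofNat 3⟩ ⟨.ofNat 1, .ofNat 0⟩ ⟨.ofNat 1, .ofNat 0⟩ 19 (.s12 ⟨⟨.ofNat 1, .ofNat 0⟩, ⟨.ofNat 4, .ofNat 0⟩, ⟨.ofNat 1, .ofNat 0⟩, ⟨.ofNat 0, .ofNat 0⟩⟩ ⟨.ofNat 3, .ofNat 0⟩ ⟨.ofNat 1, .ofNat 0⟩ ⟨.ofNat 1, .ofNat 0⟩ 42 (.s23 ⟨⟨.ofNat 68, .ofNat 0⟩, ⟨.ofNat 45, .ofNat 23⟩, ⟨.ofNat 56, .ofNat 0⟩, ⟨.ofNat 12, .ofNat 0⟩⟩ ⟨.ofNat 45, .ofNat 0⟩ ⟨.ofNat 1, .ofNat 0⟩ ⟨.ofNat 1, .ofNat 0⟩ 28 (.s02 ⟨⟨.negSucc 1359, .ofNat 2720⟩, ⟨.ofNat 496, .ofNat 1147⟩, ⟨.negSucc 559, .ofNat 1372⟩, ⟨.negSucc 323, .ofNat 396⟩⟩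 ⟨.ofNat 476, .ofNat 0⟩ ⟨.ofNat 6, .ofNat 39⟩ ⟨.ofNat 1, .ofNat 1⟩ 3 (.leaf 6 [64, 22, 0, 0, 0, 0]) (.s03 ⟨⟨.ofNat 920, .ofNat 460⟩, ⟨.negSucc 22, .ofNat 1058⟩, ⟨.ofNat 202, .ofNat 227⟩, ⟨.ofNat 396, .ofNat 72⟩⟩ ⟨.ofNat 161, .ofNat 0⟩ ⟨.ofNat 6, .ofNat 39⟩ ⟨.ofNat 0, .ofNat 1⟩ 26 (.leaf 6 [64, 13, 0, 0, 64, 23]) (.leaf 3 [64, 64, 59, 0, 64, 23, 0, 0]))) (.s02 ⟨⟨.ofNat 20, .ofNat 0⟩, ⟨.ofNat 13, .ofNat 0⟩, ⟨.ofNat 13, .ofNat 0⟩, ⟨.ofNat 0, .ofNat 0⟩⟩ ⟨.negSucc 6, .ofNat 7⟩ ⟨.ofNat 33, .ofNat 6⟩ ⟨.ofNat 2, .ofNat 1⟩ 5 (.leaf 0 [64, 46, 0, 0]) (.s03 ⟨⟨.negSucc 1359, .ofNat 2720⟩, ⟨.ofNat 496, .ofNat 1147⟩, ⟨.negSucc 559, .ofNat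 1372⟩, ⟨.negSucc 323, .ofNat 396⟩⟩ ⟨.ofNat 476, .ofNat 0⟩ ⟨.ofNat 6, .ofNat 39⟩ ⟨.ofNat 1, .ofNat 1⟩ 3 (.leaf 1 [64, 26, 0, 0]) (.leaf 0 [64, 64, 44, 0, 64, 21, 0, 0])))) (.s03 ⟨⟨.ofNat 920, .ofNat 460⟩, ⟨.negSucc 22, .ofNat 1058⟩, ⟨.ofNat 202, .ofNat 227⟩, ⟨.ofNat 396, .ofNat 72⟩⟩ ⟨.ofNat 161, .ofNat 0⟩ ⟨.ofNat 6, .ofNat 39⟩ ⟨.ofNat 0, .ofNat 1⟩ 26 (.s13 ⟨⟨.ofNat 23, .ofNat 0⟩, ⟨.ofNat 92, .ofNat 0⟩, ⟨.ofNat 11, .ofNat 0⟩, ⟨.ofNat 12, .ofNat 0⟩⟩ ⟨.negSucc 22, .ofNat 69⟩ ⟨.ofNat 0, .ofNat 1⟩ ⟨.ofNat 0, .ofNat 1⟩ 42 (.leaf 8 [1, 0, 64, 0]) (.leaf 6 [0, 0, 0, 0, 0])) (.s23 ⟨⟨.ofNat 2104, .ofNat 485⟩, ⟨.ofNat 4713, .ofNat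 1158⟩, ⟨.ofNat 1386, .ofNat 252⟩, ⟨.ofNat 396, .ofNat 72⟩⟩ ⟨.ofNat 1184, .ofNat 25⟩ ⟨.ofNat 1, .ofNat 0⟩ ⟨.ofNat 1, .ofNat 0⟩ 38 (.s13 ⟨⟨.ofNat 920, .ofNat 460⟩, ⟨.ofNat 2392, .ofNat 1196⟩, ⟨.ofNat 202, .ofNat 227⟩, ⟨.ofNat 396, .ofNat 72⟩⟩ ⟨.ofNat 2415, .ofNat 138⟩ ⟨.ofNat 1, .ofNat 0⟩ ⟨.ofNat 1, .ofNat 0⟩ 39 (.leaf 6 [64, 6, 0, 0, 64, 9, 0, 0]) (.leaf 4 [0, 0, 0, 0, 0, 0, 0, 0, 0])) (.leaf 1 [45, 0, 0, 0, 0, 0, 0, 0, 0])))) (.s03 ⟨⟨.ofNat 23, .ofNat 46⟩, ⟨.ofNat 23, .ofNat 0⟩, ⟨.negSucc 10, .ofNat 11⟩, ⟨.negSucc 11, .ofNat 12⟩⟩ ⟨.ofNat 46, .ofNat 23⟩ ⟨.negSucc 0, .ofNat 1⟩ ⟨.ofNat 1, .ofNat 0⟩ 17 (.s23 ⟨⟨.ofNat 920,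 .ofNat 460⟩, ⟨.negSucc 22, .ofNat 1058⟩, ⟨.ofNat 202, .ofNat 227⟩, ⟨.ofNat 396, .ofNat 72⟩⟩ ⟨.ofNat 161, .ofNat 0⟩ ⟨.ofNat 6, .ofNat 39⟩ ⟨.ofNat 0, .ofNat 1⟩ 26 (.s03 ⟨⟨.ofNat 460, .ofNat 0⟩, ⟨.ofNat 0, .ofNat 299⟩, ⟨.ofNat 143, .ofNat 0⟩, ⟨.ofNat 156, .ofNat 0⟩⟩ ⟨.ofNat 7, .ofNat 0⟩ ⟨.ofNat 33, .ofNat 6⟩ ⟨.ofNat 2, .ofNat 1⟩ 26 (.s13 ⟨⟨.ofNat 23, .ofNat 0⟩, ⟨.ofNat 92, .ofNat 0⟩, ⟨.ofNat 11, .ofNat 0⟩, ⟨.ofNat 12, .ofNat 0⟩⟩ ⟨.negSucc 22, .ofNat 69⟩ ⟨.ofNat 0, .ofNat 1⟩ ⟨.ofNat 0, .ofNat 1⟩ 42 (.leaf 10 [24, 0, 62, 0]) (.leaf 10 [0, 0, 0, 0, 0])) (.leaf 10 [64, 64, 39, 0, 0, 0])) (.s13 ⟨⟨.ofNat 920, .ofNat 460⟩, ⟨.ofNat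 2392, .ofNat 1196⟩, ⟨.ofNat 202, .ofNat 227⟩, ⟨.ofNat 396, .ofNat 72⟩⟩ ⟨.ofNat 2415, .ofNat 138⟩ ⟨.ofNat 1, .ofNat 0⟩ ⟨.ofNat 1, .ofNat 0⟩ 39 (.leaf 7 [52, 0, 0, 64, 10, 0, 0]) (.leaf 6 [0, 0, 0, 0, 0, 0, 0, 0]))) (.leaf 4 [0, 0, 0, 0, 0]))

/-- part of a tree -/
def t1 : Tree := .s13 ⟨⟨.ofNat 23, .ofNat 0⟩, ⟨.ofNat 0, .ofNat 23⟩, ⟨.ofNat 11, .ofNat 0⟩, ⟨.ofNat 12, .ofNat 0⟩⟩ ⟨.ofNat 23, .ofNat 0⟩ ⟨.ofNat 0, .ofNat 1⟩ ⟨.ofNat 0, .ofNat 1⟩ 32 t1_0 t1_2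

theorem g1 : Good (PE lin H) ⟨⟨.ofNat 1, .ofNat 0⟩, ⟨.ofNat 0, .ofNat 0⟩, ⟨.ofNat 0, .ofNat 0⟩, ⟨.ofNat 0, .ofNat 0⟩⟩
    ⟨⟨.ofNat 0, .ofNat 0⟩, ⟨.ofNat 1, .ofNat 0⟩, ⟨.ofNat 0, .ofNat 0⟩, ⟨.ofNat 0, .ofNat 0⟩⟩
    ⟨⟨.ofNat 1, .ofNat 0⟩, ⟨.ofNat 1, .ofNat 0⟩, ⟨.ofNat 1, .ofNat 0⟩, ⟨.ofNat 0, .ofNat 0⟩⟩
    ⟨⟨.ofNat 23, .ofNat 0⟩, ⟨.ofNat 23, .ofNat 0⟩, ⟨.ofNat 11, .ofNat 0⟩, ⟨.ofNat 12, .ofNat 0⟩⟩ :=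
  goodE lin H t1 25 51 0 0 (by decide +kernel)

end

end Pool.Agent.PHCert.E4
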