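import Pool.Agent.PHCert.E5H

/-!
# PHCert: inequality E5, part 2 (78 leaves, checked by the kernel)
-/

set_option autoImplicit false

namespace Pool.Agent.PHCert.E5

open Zp Pool.Agent.PHCert

noncomputable section

/-- part of a tree -/
def t4_2 : Tree := .s13 ⟨⟨.ofNat 230, .ofNat 0⟩, ⟨.ofNat 253, .ofNat 0⟩, ⟨.ofNat 110, .negSucc 32⟩, ⟨.ofNat 51, .ofNat 33⟩⟩ ⟨.negSucc 2, .ofNat 4⟩ ⟨.ofNat 0, .ofNat 3⟩ ⟨.ofNat 0, .ofNat 1⟩ 27 (.s02 ⟨⟨.ofNat 680, .ofNat 349⟩, ⟨.ofNat 1999, .negSucc 348⟩, ⟨.ofNat 297, .ofNat 0⟩, ⟨.ofNat 528, .ofNat 0⟩⟩ ⟨.ofNat 0, .ofNat 68⟩ ⟨.ofNat 349, .ofNat 0⟩ ⟨.ofNat 0, .ofNat 23⟩ 27 (.s03 ⟨⟨.negSucc 18767, .ofNat 134504⟩, ⟨.ofNat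 0, .ofNat 109480⟩, ⟨.negSucc 54196, .ofNat 56793⟩, ⟨.ofNat 54197, .ofNat 19843⟩⟩ ⟨.ofNat 69, .negSucc 22⟩ ⟨.ofNat 3300, .ofNat 857⟩ ⟨.ofNat 0, .ofNat 1⟩ 1 (.leaf 12 [0, 64, 64, 0, 29, 64, 0]) (.s02 ⟨⟨.negSucc 275, .ofNat 1978⟩, ⟨.ofNat 0, .ofNat 1610⟩, ⟨.ofNat 132, .ofNat 440⟩, ⟨.negSucc 131, .ofNat 687⟩⟩ ⟨.ofNat 69, .negSucc 22⟩ ⟨.ofNat 3300, .ofNat 857⟩ ⟨.ofNat 0, .ofNat 68⟩ 1 (.s12 ⟨⟨.ofNat 78, .ofNat 159⟩, ⟨.negSucc 185, .ofNat 315⟩, ⟨.negSucc 32, .ofNat 77⟩, ⟨.negSucc 2, .ofNat 81⟩⟩ ⟨.ofNat 10, .ofNat 9⟩ ⟨.negSucc 28, .ofNat 88⟩ ⟨.ofNat 0, .ofNat 23⟩ 0 (.leaf 11 [0, 9, 0, 13, 64, 0]) (.leaf 11 [0, 64, 0, 13, 0])) (.s23 ⟨⟨.negSucc 59, .ofNat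 430⟩, ⟨.ofNat 0, .ofNat 350⟩, ⟨.ofNat 0, .ofNat 98⟩, ⟨.ofNat 0, .ofNat 147⟩⟩ ⟨.ofNat 140292, .ofNat 9599⟩ ⟨.ofNat 606, .ofNat 552⟩ ⟨.ofNat 834900, .ofNat 216821⟩ 1 (.leaf 14 [0, 64, 64, 16, 64, 64, 0]) (.s03 ⟨⟨.ofNat 402650, .negSucc 92154⟩, ⟨.ofNat 29995, .ofNat 145495⟩, ⟨.ofNat 49665, .ofNat 7378⟩, ⟨.ofNat 65835, .ofNat 22617⟩⟩ ⟨.ofNat 175, .ofNat 210⟩ ⟨.ofNat 476, .ofNat 127⟩ ⟨.ofNat 1, .ofNat 2⟩ 26 (.s12 ⟨⟨.negSucc 2645, .ofNat 5196⟩, ⟨.negSucc 1667, .ofNat 4602⟩, ⟨.negSucc 461, .ofNat 1232⟩, ⟨.negSucc 692, .ofNat 1848⟩⟩ ⟨.negSucc 17, .ofNat 202⟩ ⟨.ofNat 55, .negSucc 20⟩ ⟨.ofNat 23, .ofNat 0⟩ 26 (.s02 ⟨⟨.ofNat 107066290, .negSucc 24180559⟩, ⟨.ofNat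 16376990, .ofNat 31949330⟩, ⟨.ofNat 13419196, .ofNat 2459786⟩, ⟨.ofNat 20128794, .ofNat 3689679⟩⟩ ⟨.negSucc 17, .ofNat 202⟩ ⟨.ofNat 7700, .ofNat 1925⟩ ⟨.ofNat 0, .ofNat 1⟩ 26 (.leaf 11 [0, 64, 0, 12]) (.leaf 13 [0, 49, 64])) (.leaf 13 [0, 48, 64, 34])) (.s02 ⟨⟨.negSucc 229, .ofNat 391⟩, ⟨.ofNat 161, .ofNat 161⟩, ⟨.ofNat 33, .ofNat 44⟩, ⟨.negSucc 32, .ofNat 117⟩⟩ ⟨.ofNat 644, .ofNat 161⟩ ⟨.ofNat 825, .negSucc 348⟩ ⟨.ofNat 3300, .ofNat 857⟩ 26 (.leaf 11 [0, 60, 0, 2, 0]) (.leaf 13 [64, 64, 38, 32, 0])))))) (.leaf 14 [0, 64, 64, 12, 0, 0, 64, 64])) (.s12 ⟨⟨.ofNat 230, .ofNat 0⟩, ⟨.ofNat 253, .ofNat 0⟩, ⟨.ofNat 77, .ofNat 0⟩, ⟨.ofNat 84, .ofNat 0⟩⟩ ⟨.negSucc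 2, .ofNat 4⟩ ⟨.ofNat 0, .ofNat 3⟩ ⟨.ofNat 0, .ofNat 1⟩ 27 (.s23 ⟨⟨.ofNat 1840, .ofNat 460⟩, ⟨.ofNat 1748, .ofNat 437⟩, ⟨.ofNat 803, .negSucc 54⟩, ⟨.ofNat 393, .ofNat 354⟩⟩ ⟨.ofNat 0, .ofNat 10⟩ ⟨.negSucc 6, .ofNat 6⟩ ⟨.negSucc 0, .ofNat 1⟩ 0 (.leaf 12 [64, 64, 64, 28, 0, 0, 64, 0]) (.s12 ⟨⟨.ofNat 460, .ofNat 0⟩, ⟨.ofNat 437, .ofNat 0⟩, ⟨.ofNat 143, .ofNat 0⟩, ⟨.ofNat 156, .ofNat 0⟩⟩ ⟨.negSucc 6, .ofNat 6⟩ ⟨.ofNat 0, .ofNat 10⟩ ⟨.negSucc 2, .ofNat 4⟩ 0 (.s02 ⟨⟨.ofNat 30, .ofNat 34⟩, ⟨.ofNat 144, .negSucc 33⟩, ⟨.ofNat 22, .ofNat 0⟩, ⟨.ofNat 33, .ofNat 0⟩⟩ ⟨.ofNat 0, .ofNat 3⟩ ⟨.ofNat 34, .ofNat 0⟩ ⟨.ofNat 0, .ofNat 23⟩ 26 (.s02 ⟨⟨.negSucc 413, .ofNat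 3542⟩, ⟨.ofNat 0, .ofNat 3220⟩, ⟨.ofNat 198, .ofNat 770⟩, ⟨.negSucc 197, .ofNat 1323⟩⟩ ⟨.ofNat 23, .ofNat 184⟩ ⟨.negSucc 111, .ofNat 218⟩ ⟨.ofNat 3, .ofNat 3⟩ 0 (.leaf 11 [3, 0, 64]) (.leaf 11 [55, 0, 0, 64])) (.s01 ⟨⟨.ofNat 1070, .ofNat 0⟩, ⟨.ofNat 1192, .ofNat 0⟩, ⟨.ofNat 286, .ofNat 0⟩, ⟨.ofNat 429, .ofNat 0⟩⟩ ⟨.ofNat 39, .ofNat 0⟩ ⟨.ofNat 34, .ofNat 0⟩ ⟨.ofNat 23, .ofNat 0⟩ 27 (.leaf 11 [32, 64, 64, 55, 0, 0, 64]) (.leaf 13 [64, 64, 64, 64, 64, 64, 36, 0]))) (.s02 ⟨⟨.ofNat 1070, .ofNat 0⟩, ⟨.ofNat 1192, .ofNat 0⟩, ⟨.ofNat 286, .ofNat 0⟩, ⟨.ofNat 429, .ofNat 0⟩⟩ ⟨.ofNat 39, .ofNat 0⟩ ⟨.ofNat 34, .ofNat 0⟩ ⟨.ofNat 23, .ofNat 0⟩ 27 (.leaf 11 [64,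 64, 56, 0, 0, 64]) (.leaf 12 [64, 64, 64, 28, 0, 0, 64, 0])))) (.leaf 12 [0, 64, 64, 50, 0, 0, 29, 0]))

/-- part of a tree -/
def t4_1 : Tree := .s01 ⟨⟨.ofNat 230, .ofNat 0⟩, ⟨.ofNat 322, .ofNat 0⟩, ⟨.ofNat 44, .ofNat 0⟩, ⟨.ofNat 117, .ofNat 0⟩⟩ ⟨.ofNat 69, .ofNat 0⟩ ⟨.ofNat 4, .ofNat 0⟩ ⟨.ofNat 1, .ofNat 0⟩ 30 t4_2 (.s02 ⟨⟨.ofNat 161, .ofNat 323⟩, ⟨.negSucc 160, .ofNat 484⟩, ⟨.ofNat 0, .ofNat 77⟩, ⟨.ofNat 0, .ofNat 165⟩⟩ ⟨.ofNat 0, .ofNat 81⟩ ⟨.ofNat 7, .ofNat 0⟩ ⟨.ofNat 1, .ofNat 0⟩ 1 (.s12 ⟨⟨.ofNat 680, .ofNat 349⟩, ⟨.ofNat 1999, .negSucc 348⟩, ⟨.ofNat 297, .ofNat 0⟩, ⟨.ofNat 528, .ofNat 0⟩⟩ ⟨.ofNat 0, .ofNat 68⟩ ⟨.ofNat 349, .ofNat 0⟩ ⟨.ofNat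 0, .ofNat 23⟩ 27 (.s13 ⟨⟨.negSucc 18767, .ofNat 134504⟩, ⟨.ofNat 0, .ofNat 109480⟩, ⟨.negSucc 54196, .ofNat 56793⟩, ⟨.ofNat 54197, .ofNat 19843⟩⟩ ⟨.ofNat 69, .negSucc 22⟩ ⟨.ofNat 3300, .ofNat 857⟩ ⟨.ofNat 0, .ofNat 1⟩ 1 (.leaf 12 [64, 0, 64, 64, 0, 7, 64, 0]) (.s12 ⟨⟨.negSucc 275, .ofNat 1978⟩, ⟨.ofNat 0, .ofNat 1610⟩, ⟨.ofNat 132, .ofNat 440⟩, ⟨.negSucc 131, .ofNat 687⟩⟩ ⟨.ofNat 69, .negSucc 22⟩ ⟨.ofNat 3300, .ofNat 857⟩ ⟨.ofNat 0, .ofNat 68⟩ 1 (.leaf 11 [64, 60, 64, 7, 0, 10, 64, 0]) (.s23 ⟨⟨.negSucc 59, .ofNat 430⟩, ⟨.ofNat 0, .ofNat 350⟩, ⟨.ofNat 0, .ofNat 98⟩, ⟨.ofNat 0, .ofNat 147⟩⟩ ⟨.ofNat 140292, .ofNat 9599⟩ ⟨.ofNat 606, .ofNat 552⟩ ⟨.ofNat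 834900, .ofNat 216821⟩ 1 (.leaf 14 [64, 64, 0, 64, 64, 16, 64, 64, 0]) (.s13 ⟨⟨.ofNat 402650, .negSucc 92154⟩, ⟨.ofNat 29995, .ofNat 145495⟩, ⟨.ofNat 49665, .ofNat 7378⟩, ⟨.ofNat 65835, .ofNat 22617⟩⟩ ⟨.ofNat 175, .ofNat 210⟩ ⟨.ofNat 476, .ofNat 127⟩ ⟨.ofNat 1, .ofNat 2⟩ 26 (.s02 ⟨⟨.ofNat 23634, .ofNat 94880⟩, ⟨.ofNat 144798, .ofNat 8998⟩, ⟨.ofNat 21296, .ofNat 13134⟩, ⟨.ofNat 31944, .ofNat 19701⟩⟩ ⟨.ofNat 220, .negSucc 17⟩ ⟨.ofNat 0, .ofNat 33⟩ ⟨.ofNat 0, .ofNat 1⟩ 1 (.s12 ⟨⟨.ofNat 107066290, .negSucc 24180559⟩, ⟨.ofNat 16376990, .ofNat 31949330⟩, ⟨.ofNat 13419196, .ofNat 2459786⟩, ⟨.ofNat 20128794, .ofNat 3689679⟩⟩ ⟨.negSucc 17, .ofNat 202⟩ ⟨.ofNat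 7700, .ofNat 1925⟩ ⟨.ofNat 0, .ofNat 1⟩ 26 (.leaf 11 [63, 64, 0, 12]) (.leaf 13 [48, 0, 0])) (.leaf 13 [64, 48, 0, 0, 0])) (.s12 ⟨⟨.negSucc 229, .ofNat 391⟩, ⟨.ofNat 161, .ofNat 161⟩, ⟨.ofNat 33, .ofNat 44⟩, ⟨.negSucc 32, .ofNat 117⟩⟩ ⟨.ofNat 644, .ofNat 161⟩ ⟨.ofNat 825, .negSucc 348⟩ ⟨.ofNat 3300, .ofNat 857⟩ 26 (.s02 ⟨⟨.ofNat 23634, .ofNat 94880⟩, ⟨.ofNat 144798, .ofNat 8998⟩, ⟨.ofNat 21296, .ofNat 13134⟩, ⟨.ofNat 31944, .ofNat 19701⟩⟩ ⟨.ofNat 220, .negSucc 17⟩ ⟨.ofNat 0, .ofNat 33⟩ ⟨.ofNat 0, .ofNat 1⟩ 1 (.s12 ⟨⟨.negSucc 413, .ofNat 3542⟩, ⟨.ofNat 0, .ofNat 3220⟩, ⟨.ofNat 198, .ofNat 770⟩, ⟨.negSucc 197, .ofNat 1323⟩⟩ ⟨.ofNat 0, .ofNat 10⟩ ⟨.ofNat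 13, .negSucc 6⟩ ⟨.ofNat 7, .negSucc 2⟩ 0 (.leaf 11 [64, 63, 0, 10]) (.leaf 12 [64, 46, 0, 21])) (.leaf 13 [64, 64, 0, 0, 53, 0])) (.leaf 13 [64, 64, 0, 64, 53, 56, 0])))))) (.leaf 15 [64, 64, 1, 64, 64, 0, 0, 0, 64, 64])) (.leaf 16 [64, 35, 0, 64, 64, 5, 0, 0, 64, 0]))

/-- part of a tree -/
def t4_0 : Tree := .s12 ⟨⟨.ofNat 23, .ofNat 23⟩, ⟨.negSucc 22, .ofNat 46⟩, ⟨.ofNat 0, .ofNat 11⟩, ⟨.ofNat 0, .ofNat 12⟩⟩ ⟨.ofNat 1, .ofNat 0⟩ ⟨.ofNat 0, .ofNat 1⟩ ⟨.ofNat 0, .ofNat 1⟩ 1 (.leaf 12 [64, 64, 64, 64, 64, 64, 0, 0, 0, 23, 64, 0, 0]) t4_1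

/-- part of a tree -/
def t4 : Tree := .s23 ⟨⟨.ofNat 23, .ofNat 23⟩, ⟨.negSucc 22, .ofNat 46⟩, ⟨.ofNat 11, .ofNat 0⟩, ⟨.negSucc 10, .ofNat 23⟩⟩ ⟨.ofNat 0, .ofNat 1⟩ ⟨.ofNat 23, .ofNat 0⟩ ⟨.ofNat 0, .ofNat 1⟩ 1 (.leaf 15 [64, 64, 64, 64, 0, 64, 53, 0, 0, 0, 12, 64, 64, 0, 0, 0]) t4_0

theorem g4 : Good (PE lin H) ⟨⟨.ofNat 2, .ofNat 0⟩, ⟨.ofNat 2, .ofNat 0⟩, ⟨.ofNat 0, .ofNat 0⟩, ⟨.ofNat 1, .ofNat 0⟩⟩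
    ⟨⟨.ofNat 23, .ofNat 0⟩, ⟨.ofNat 46, .ofNat 0⟩, ⟨.ofNat 11, .ofNat 0⟩, ⟨.ofNat 12, .ofNat 0⟩⟩
    ⟨⟨.ofNat 46, .ofNat 0⟩, ⟨.ofNat 23, .ofNat 0⟩, ⟨.ofNat 11, .ofNat 0⟩, ⟨.ofNat 12, .ofNat 0⟩⟩
    ⟨⟨.ofNat 1, .ofNat 0⟩, ⟨.ofNat 2, .ofNat 0⟩, ⟨.ofNat 0, .ofNat 0⟩, ⟨.ofNat 1, .ofNat 0⟩⟩ :=
  goodE lin H t4 0 36 10 36 (by decide +kernel)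

/-- part of a tree -/
def t5_4 : Tree := .s02 ⟨⟨.negSucc 413, .ofNat 3542⟩, ⟨.ofNat 0, .ofNat 3220⟩, ⟨.ofNat 0, .ofNat 1001⟩, ⟨.ofNat 0, .ofNat 1092⟩⟩ ⟨.negSucc 5, .ofNat 7⟩ ⟨.ofNat 0, .ofNat 42⟩ ⟨.ofNat 1, .ofNat 0⟩ 0 (.s03 ⟨⟨.negSucc 13869, .ofNat 63406⟩, ⟨.ofNat 9310, .ofNat 49154⟩, ⟨.ofNat 1925, .ofNat 14707⟩, ⟨.negSucc 797, .ofNat 19698⟩⟩ ⟨.ofNat 272, .negSucc 6⟩ ⟨.ofNat 1218, .ofNat 252⟩ ⟨.ofNat 23, .ofNat 0⟩ 26 (.s12 ⟨⟨.ofNat 460, .ofNat 0⟩, ⟨.ofNat 437, .ofNat 0⟩, ⟨.ofNat 143, .ofNat 0⟩, ⟨.ofNat 156, .ofNat 0⟩⟩ ⟨.negSucc 6, .ofNat 6⟩ ⟨.ofNat 0, .ofNat 10⟩ ⟨.negSucc 2, .ofNat 4⟩ 0 (.s23 ⟨⟨.negSucc 413, .ofNat 3542⟩, ⟨.ofNat 0, .ofNat 3220⟩,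 ⟨.ofNat 198, .ofNat 770⟩, ⟨.negSucc 197, .ofNat 1323⟩⟩ ⟨.negSucc 6, .ofNat 35⟩ ⟨.ofNat 1, .ofNat 8⟩ ⟨.ofNat 0, .ofNat 1⟩ 0 (.leaf 11 [55, 0, 64]) (.leaf 11 [64, 0, 56])) (.s23 ⟨⟨.ofNat 21413, .ofNat 3956⟩, ⟨.ofNat 22540, .ofNat 3220⟩, ⟨.ofNat 7007, .ofNat 572⟩, ⟨.ofNat 7644, .ofNat 1521⟩⟩ ⟨.ofNat 42, .negSucc 6⟩ ⟨.ofNat 13, .ofNat 13⟩ ⟨.ofNat 1, .ofNat 0⟩ 0 (.leaf 11 [40, 0, 64]) (.s12 ⟨⟨.ofNat 437, .ofNat 0⟩, ⟨.ofNat 460, .ofNat 0⟩, ⟨.ofNat 143, .ofNat 0⟩, ⟨.ofNat 156, .ofNat 0⟩⟩ ⟨.ofNat 13, .ofNat 0⟩ ⟨.ofNat 3, .ofNat 0⟩ ⟨.ofNat 10, .ofNat 0⟩ 26 (.s02 ⟨⟨.negSucc 3626685, .ofNat 37531584⟩, ⟨.negSucc 6758779, .ofNat 39065040⟩, ⟨.negSucc 2623620,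 .ofNat 12036024⟩, ⟨.negSucc 1769585, .ofNat 13356252⟩⟩ ⟨.ofNat 299, .ofNat 299⟩ ⟨.ofNat 49392, .ofNat 294⟩ ⟨.ofNat 0, .ofNat 1⟩ 0 (.s01 ⟨⟨.ofNat 1432900, .ofNat 215280⟩, ⟨.ofNat 1432900, .ofNat 215280⟩, ⟨.ofNat 432047, .ofNat 64152⟩, ⟨.ofNat 499338, .ofNat 75780⟩⟩ ⟨.ofNat 1, .ofNat 1⟩ ⟨.ofNat 69506, .ofNat 2834⟩ ⟨.ofNat 39, .ofNat 39⟩ 0 (.leaf 11 [41, 60]) (.leaf 11 [58])) (.s12 ⟨⟨.ofNat 1432900, .ofNat 215280⟩, ⟨.ofNat 1432900, .ofNat 215280⟩, ⟨.ofNat 432047, .ofNat 64152⟩, ⟨.ofNat 499338, .ofNat 75780⟩⟩ ⟨.ofNat 69506, .ofNat 2834⟩ ⟨.ofNat 1, .ofNat 1⟩ ⟨.ofNat 39, .ofNat 39⟩ 0 (.leaf 11 [58]) (.leaf 11 [41, 60]))) (.leaf 11 [43, 61])))) (.s12 ⟨⟨.ofNat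 460, .ofNat 0⟩, ⟨.ofNat 437, .ofNat 0⟩, ⟨.ofNat 143, .ofNat 0⟩, ⟨.ofNat 156, .ofNat 0⟩⟩ ⟨.negSucc 6, .ofNat 6⟩ ⟨.ofNat 0, .ofNat 10⟩ ⟨.negSucc 2, .ofNat 4⟩ 0 (.leaf 11 [61, 0]) (.s12 ⟨⟨.ofNat 437, .ofNat 0⟩, ⟨.ofNat 460, .ofNat 0⟩, ⟨.ofNat 143, .ofNat 0⟩, ⟨.ofNat 156, .ofNat 0⟩⟩ ⟨.ofNat 13, .ofNat 0⟩ ⟨.ofNat 3, .ofNat 0⟩ ⟨.ofNat 10, .ofNat 0⟩ 26 (.leaf 11 [18, 47]) (.leaf 11 [39])))) (.s02 ⟨⟨.negSucc 229, .ofNat 391⟩, ⟨.ofNat 161, .ofNat 161⟩, ⟨.ofNat 0, .ofNat 77⟩, ⟨.ofNat 0, .ofNat 84⟩⟩ ⟨.ofNat 6, .negSucc 0⟩ ⟨.ofNat 1, .ofNat 0⟩ ⟨.ofNat 6, .ofNat 6⟩ 26 (.leaf 11 [16, 0, 30]) (.leaf 11 [47, 64, 64, 31, 0, 41]))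

/-- part of a tree -/
def t5_3 : Tree := .s23 ⟨⟨.negSucc 229, .ofNat 391⟩, ⟨.ofNat 161, .ofNat 161⟩, ⟨.ofNat 33, .ofNat 44⟩, ⟨.negSucc 32, .ofNat 117⟩⟩ ⟨.ofNat 7, .ofNat 0⟩ ⟨.ofNat 1, .ofNat 0⟩ ⟨.ofNat 0, .ofNat 1⟩ 26 (.leaf 12 [64, 64, 64, 47, 0, 6, 0]) t5_4

/-- part of a tree -/
def t5_2 : Tree := .s12 ⟨⟨.ofNat 230, .ofNat 0⟩, ⟨.ofNat 253, .ofNat 0⟩, ⟨.ofNat 77, .ofNat 0⟩, ⟨.ofNat 84, .ofNat 0⟩⟩ ⟨.negSucc 2, .ofNat 4⟩ ⟨.ofNat 0, .ofNat 3⟩ ⟨.ofNat 0, .ofNat 1⟩ 27 t5_3 (.leaf 12 [0, 64, 64, 48, 0, 0, 0])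

/-- part of a tree -/
def t5_7 : Tree := .s03 ⟨⟨.ofNat 92, .ofNat 253⟩, ⟨.ofNat 483, .ofNat 23⟩, ⟨.ofNat 110, .ofNat 11⟩, ⟨.ofNat 51, .ofNat 81⟩⟩ ⟨.negSucc 2, .ofNat 4⟩ ⟨.ofNat 0, .ofNat 1⟩ ⟨.ofNat 0, .ofNat 1⟩ 26 (.s02 ⟨⟨.ofNat 0, .ofNat 1196⟩, ⟨.ofNat 1840, .ofNat 0⟩, ⟨.negSucc 483, .ofNat 627⟩, ⟨.ofNat 1680, .negSucc 626⟩⟩ ⟨.ofNat 7, .ofNat 1⟩ ⟨.ofNat 66, .negSucc 0⟩ ⟨.ofNat 1, .ofNat 2⟩ 0 (.s13 ⟨⟨.negSucc 399, .ofNat 680⟩, ⟨.ofNat 280, .ofNat 280⟩, ⟨.ofNat 21, .ofNat 112⟩, ⟨.negSucc 20, .ofNat 168⟩⟩ ⟨.negSucc 6, .ofNat 265⟩ ⟨.ofNat 7, .ofNat 175⟩ ⟨.ofNat 0, .ofNat 253⟩ 26 (.s12 ⟨⟨.ofNat 59984, .ofNat 21712⟩, ⟨.ofNat 51520, .ofNat 25760⟩, ⟨.ofNat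 14021, .ofNat 8449⟩, ⟨.ofNat 19467, .ofNat 8295⟩⟩ ⟨.ofNat 69, .ofNat 46⟩ ⟨.ofNat 616, .ofNat 168⟩ ⟨.ofNat 0, .ofNat 1⟩ 0 (.s23 ⟨⟨.negSucc 413, .ofNat 3542⟩, ⟨.ofNat 0, .ofNat 3220⟩, ⟨.ofNat 198, .ofNat 770⟩, ⟨.negSucc 197, .ofNat 1323⟩⟩ ⟨.negSucc 6, .ofNat 35⟩ ⟨.ofNat 1, .ofNat 8⟩ ⟨.ofNat 0, .ofNat 1⟩ 0 (.leaf 11 [0, 64]) (.leaf 11 [1, 59])) (.leaf 11 [0, 64])) (.s01 ⟨⟨.negSucc 100247, .ofNat 194812⟩, ⟨.ofNat 71568, .ofNat 83468⟩, ⟨.ofNat 3311, .ofNat 34881⟩, ⟨.negSucc 5018, .ofNat 48699⟩⟩ ⟨.ofNat 1617, .ofNat 2688⟩ ⟨.ofNat 3984, .negSucc 315⟩ ⟨.ofNat 23, .ofNat 23⟩ 0 (.s23 ⟨⟨.ofNat 59984, .ofNat 21712⟩, ⟨.ofNat 51520, .ofNat 25760⟩, ⟨.ofNat 14021,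 .ofNat 8449⟩, ⟨.ofNat 19467, .ofNat 8295⟩⟩ ⟨.ofNat 616, .ofNat 168⟩ ⟨.ofNat 69, .ofNat 46⟩ ⟨.ofNat 0, .ofNat 1⟩ 0 (.leaf 11 []) (.leaf 11 [60, 0])) (.s23 ⟨⟨.ofNat 59984, .ofNat 21712⟩, ⟨.ofNat 51520, .ofNat 25760⟩, ⟨.ofNat 14021, .ofNat 8449⟩, ⟨.ofNat 19467, .ofNat 8295⟩⟩ ⟨.ofNat 616, .ofNat 168⟩ ⟨.ofNat 69, .ofNat 46⟩ ⟨.ofNat 0, .ofNat 1⟩ 0 (.leaf 11 [54]) (.leaf 11 [64, 0, 40])))) (.leaf 11 [64, 64, 0, 43])) (.s01 ⟨⟨.ofNat 92, .ofNat 253⟩, ⟨.ofNat 483, .ofNat 23⟩, ⟨.ofNat 77, .ofNat 44⟩, ⟨.ofNat 84, .ofNat 48⟩⟩ ⟨.negSucc 2, .ofNat 4⟩ ⟨.ofNat 0, .ofNat 1⟩ ⟨.ofNat 0, .ofNat 1⟩ 26 (.s23 ⟨⟨.ofNat 0, .ofNat 1196⟩, ⟨.ofNat 1840, .ofNat 0⟩, ⟨.negSucc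 483, .ofNat 627⟩, ⟨.ofNat 1680, .negSucc 626⟩⟩ ⟨.ofNat 66, .negSucc 0⟩ ⟨.ofNat 7, .ofNat 1⟩ ⟨.ofNat 1, .ofNat 2⟩ 0 (.leaf 11 [64, 64, 43]) (.s03 ⟨⟨.ofNat 111820, .ofNat 92696⟩, ⟨.negSucc 200859, .ofNat 278944⟩, ⟨.negSucc 3541, .ofNat 46783⟩, ⟨.negSucc 15581, .ofNat 65037⟩⟩ ⟨.ofNat 3984, .negSucc 315⟩ ⟨.ofNat 3421, .ofNat 5476⟩ ⟨.ofNat 23, .ofNat 46⟩ 0 (.s13 ⟨⟨.negSucc 100247, .ofNat 194812⟩, ⟨.ofNat 71568, .ofNat 83468⟩, ⟨.ofNat 3311, .ofNat 34881⟩, ⟨.negSucc 5018, .ofNat 48699⟩⟩ ⟨.ofNat 3984, .negSucc 315⟩ ⟨.ofNat 1617, .ofNat 2688⟩ ⟨.ofNat 23, .ofNat 23⟩ 0 (.leaf 11 [64, 0, 40]) (.leaf 11 [60, 0])) (.leaf 11 [64, 64, 60, 0]))) (.s02 ⟨⟨.negSucc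 137, .ofNat 598⟩, ⟨.ofNat 0, .ofNat 460⟩, ⟨.ofNat 0, .ofNat 143⟩, ⟨.ofNat 0, .ofNat 156⟩⟩ ⟨.negSucc 5, .ofNat 7⟩ ⟨.ofNat 0, .ofNat 6⟩ ⟨.ofNat 1, .ofNat 0⟩ 1 (.s23 ⟨⟨.ofNat 0, .ofNat 1196⟩, ⟨.ofNat 1840, .ofNat 0⟩, ⟨.negSucc 483, .ofNat 627⟩, ⟨.ofNat 1680, .negSucc 626⟩⟩ ⟨.ofNat 66, .negSucc 0⟩ ⟨.ofNat 7, .ofNat 1⟩ ⟨.ofNat 1, .ofNat 2⟩ 0 (.leaf 11 [64, 64, 64, 43]) (.s13 ⟨⟨.ofNat 111820, .ofNat 92696⟩, ⟨.negSucc 200859, .ofNat 278944⟩, ⟨.negSucc 3541, .ofNat 46783⟩, ⟨.negSucc 15581, .ofNat 65037⟩⟩ ⟨.ofNat 3984, .negSucc 315⟩ ⟨.ofNat 3421, .ofNat 5476⟩ ⟨.ofNat 23, .ofNat 46⟩ 0 (.leaf 11 [64, 64, 0, 40]) (.leaf 11 [64, 64, 64, 61, 0]))) (.leaf 11 [54,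 64, 64, 11, 64, 64, 0])))

/-- part of a tree -/
def t5_6 : Tree := .s12 ⟨⟨.negSucc 229, .ofNat 391⟩, ⟨.ofNat 161, .ofNat 161⟩, ⟨.ofNat 0, .ofNat 77⟩, ⟨.ofNat 0, .ofNat 84⟩⟩ ⟨.ofNat 1, .ofNat 0⟩ ⟨.ofNat 7, .ofNat 0⟩ ⟨.ofNat 0, .ofNat 1⟩ 26 t5_7 (.leaf 11 [64, 64, 0, 64, 41, 0, 64, 64, 39])

/-- part of a tree -/
def t5_5 : Tree := .s23 ⟨⟨.negSucc 229, .ofNat 391⟩, ⟨.ofNat 161, .ofNat 161⟩, ⟨.ofNat 33, .ofNat 44⟩, ⟨.negSucc 32, .ofNat 117⟩⟩ ⟨.ofNat 7, .ofNat 0⟩ ⟨.ofNat 1, .ofNat 0⟩ ⟨.ofNat 0, .ofNat 1⟩ 26 (.leaf 12 [64, 38, 0, 64, 0, 0, 64, 64, 64, 0]) t5_6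

/-- part of a tree -/
def t5_1 : Tree := .s01 ⟨⟨.ofNat 230, .ofNat 0⟩, ⟨.ofNat 322, .ofNat 0⟩, ⟨.ofNat 77, .ofNat 0⟩, ⟨.ofNat 84, .ofNat 0⟩⟩ ⟨.ofNat 3, .ofNat 0⟩ ⟨.ofNat 4, .ofNat 0⟩ ⟨.ofNat 1, .ofNat 0⟩ 30 t5_2 t5_5

/-- part of a tree -/
def t5_0 : Tree := .s13 ⟨⟨.ofNat 230, .ofNat 0⟩, ⟨.ofNat 322, .ofNat 0⟩, ⟨.ofNat 44, .ofNat 0⟩, ⟨.ofNat 117, .ofNat 0⟩⟩ ⟨.ofNat 4, .ofNat 0⟩ ⟨.ofNat 69, .ofNat 0⟩ ⟨.ofNat 1, .ofNat 0⟩ 30 (.s23 ⟨⟨.ofNat 136, .ofNat 207⟩, ⟨.ofNat 757, .negSucc 206⟩, ⟨.ofNat 99, .ofNat 0⟩, ⟨.ofNat 176, .ofNat 0⟩⟩ ⟨.ofNat 9, .ofNat 0⟩ ⟨.ofNat 0, .ofNat 68⟩ ⟨.ofNat 0, .ofNat 1⟩ 1 (.leaf 15 [0, 0, 0, 64, 24, 0, 0, 0, 0, 64, 64, 64,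 0, 0]) (.s12 ⟨⟨.negSucc 229, .ofNat 391⟩, ⟨.ofNat 161, .ofNat 161⟩, ⟨.ofNat 33, .ofNat 44⟩, ⟨.negSucc 32, .ofNat 117⟩⟩ ⟨.ofNat 1, .ofNat 0⟩ ⟨.ofNat 7, .ofNat 0⟩ ⟨.ofNat 0, .ofNat 1⟩ 26 (.s01 ⟨⟨.ofNat 92, .ofNat 253⟩, ⟨.ofNat 483, .ofNat 23⟩, ⟨.ofNat 110, .ofNat 11⟩, ⟨.ofNat 51, .ofNat 81⟩⟩ ⟨.negSucc 2, .ofNat 4⟩ ⟨.ofNat 0, .ofNat 1⟩ ⟨.ofNat 0, .ofNat 1⟩ 26 (.s02 ⟨⟨.ofNat 0, .ofNat 1196⟩, ⟨.ofNat 1840, .ofNat 0⟩, ⟨.negSucc 483, .ofNat 627⟩, ⟨.ofNat 1680, .negSucc 626⟩⟩ ⟨.ofNat 7, .ofNat 1⟩ ⟨.ofNat 66, .negSucc 0⟩ ⟨.ofNat 1, .ofNat 2⟩ 0 (.s12 ⟨⟨.negSucc 413, .ofNat 3542⟩, ⟨.ofNat 0, .ofNat 3220⟩, ⟨.ofNat 198, .ofNat 770⟩, ⟨.negSucc 197, .ofNat 1323⟩⟩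 ⟨.ofNat 1, .ofNat 8⟩ ⟨.negSucc 6, .ofNat 35⟩ ⟨.ofNat 0, .ofNat 1⟩ 0 (.leaf 11 [64, 61, 1, 0, 64]) (.leaf 11 [64, 60, 45, 0, 2])) (.leaf 11 [64, 44, 64, 64, 0, 0, 2])) (.s02 ⟨⟨.negSucc 137, .ofNat 598⟩, ⟨.ofNat 0, .ofNat 460⟩, ⟨.ofNat 0, .ofNat 143⟩, ⟨.ofNat 0, .ofNat 156⟩⟩ ⟨.negSucc 5, .ofNat 7⟩ ⟨.ofNat 0, .ofNat 6⟩ ⟨.ofNat 1, .ofNat 0⟩ 1 (.s12 ⟨⟨.ofNat 0, .ofNat 1196⟩, ⟨.ofNat 1840, .ofNat 0⟩, ⟨.negSucc 483, .ofNat 627⟩, ⟨.ofNat 1680, .negSucc 626⟩⟩ ⟨.ofNat 7, .ofNat 1⟩ ⟨.ofNat 66, .negSucc 0⟩ ⟨.ofNat 1, .ofNat 2⟩ 0 (.leaf 11 [64, 0, 0, 40]) (.leaf 11 [64, 64, 64, 10, 1, 64])) (.leaf 12 [0, 64, 64, 33, 0, 0, 64, 64, 48]))) (.leaf 13 [64, 31, 0,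 64, 22, 0, 0, 0, 0, 64, 64, 64, 0]))) t5_1

/-- part of a tree -/
def t5 : Tree := .s12 ⟨⟨.ofNat 23, .ofNat 23⟩, ⟨.negSucc 22, .ofNat 46⟩, ⟨.ofNat 0, .ofNat 11⟩, ⟨.ofNat 0, .ofNat 12⟩⟩ ⟨.ofNat 1, .ofNat 0⟩ ⟨.ofNat 0, .ofNat 1⟩ ⟨.ofNat 0, .ofNat 1⟩ 1 (.s23 ⟨⟨.ofNat 322, .ofNat 0⟩, ⟨.ofNat 230, .ofNat 0⟩, ⟨.ofNat 44, .ofNat 0⟩, ⟨.ofNat 117, .ofNat 0⟩⟩ ⟨.ofNat 4, .ofNat 0⟩ ⟨.ofNat 69, .ofNat 0⟩ ⟨.ofNat 1, .ofNat 0⟩ 4 (.s13 ⟨⟨.ofNat 136, .ofNat 207⟩, ⟨.ofNat 757, .negSucc 206⟩, ⟨.ofNat 99, .ofNat 0⟩, ⟨.ofNat 176, .ofNat 0⟩⟩ ⟨.ofNat 9, .ofNat 0⟩ ⟨.ofNat 0, .ofNat 68⟩ ⟨.ofNat 0, .ofNat 1⟩ 1 (.leaf 15 [64, 24, 0, 0, 0, 0, 64, 64, 64, 0, 0]) (.leaf 11 [59,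 64, 64, 64, 64, 0, 0, 64, 64, 7, 0])) (.leaf 11 [30, 64, 64, 64, 64, 15, 0, 0, 0, 64, 64, 0, 0])) t5_0

theorem g5 : Good (PE lin H) ⟨⟨.ofNat 46, .ofNat 0⟩, ⟨.ofNat 46, .ofNat 0⟩, ⟨.ofNat 11, .ofNat 0⟩, ⟨.ofNat 12, .ofNat 0⟩⟩
    ⟨⟨.ofNat 23, .ofNat 0⟩, ⟨.ofNat 46, .ofNat 0⟩, ⟨.ofNat 11, .ofNat 0⟩, ⟨.ofNat 12, .ofNat 0⟩⟩
    ⟨⟨.ofNat 46, .ofNat 0⟩, ⟨.ofNat 23, .ofNat 0⟩, ⟨.ofNat 11, .ofNat 0⟩, ⟨.ofNat 12, .ofNat 0⟩⟩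
    ⟨⟨.ofNat 2, .ofNat 0⟩, ⟨.ofNat 2, .ofNat 0⟩, ⟨.ofNat 0, .ofNat 0⟩, ⟨.ofNat 1, .ofNat 0⟩⟩ :=
  goodE lin H t5 0 36 10 0 (by decide +kernel)

/-- part of a tree -/
def t6 : Tree := .s02 ⟨⟨.ofNat 230, .ofNat 0⟩, ⟨.ofNat 69, .ofNat 0⟩, ⟨.ofNat 33, .ofNat 0⟩, ⟨.ofNat 36, .ofNat 0⟩⟩ ⟨.ofNat 92, .ofNat 0⟩ ⟨.ofNat 3, .ofNat 0⟩ ⟨.ofNat 1, .ofNat 0⟩ 15 (.leaf 13 [64, 64, 64, 64, 64, 15, 0, 0, 0, 0, 64, 64, 0, 0, 0]) (.leaf 13 [0, 0, 0, 0, 0, 0, 0, 0, 0, 0, 0, 0, 6, 0, 0, 0, 0, 0, 0])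

theorem g6 : Good (PE lin H) ⟨⟨.ofNat 1, .ofNat 0⟩, ⟨.ofNat 0, .ofNat 0⟩, ⟨.ofNat 0, .ofNat 0⟩, ⟨.ofNat 0, .ofNat 0⟩⟩
    ⟨⟨.ofNat 46, .ofNat 0⟩, ⟨.ofNat 46, .ofNat 0⟩, ⟨.ofNat 11, .ofNat 0⟩, ⟨.ofNat 12, .ofNat 0⟩⟩
    ⟨⟨.ofNat 46, .ofNat 0⟩, ⟨.ofNat 23, .ofNat 0⟩, ⟨.ofNat 11, .ofNat 0⟩, ⟨.ofNat 12, .ofNat 0⟩⟩
    ⟨⟨.ofNat 2, .ofNat 0⟩, ⟨.ofNat 2, .ofNat 0⟩, ⟨.ofNat 0, .ofNat 0⟩, ⟨.ofNat 1, .ofNat 0⟩⟩ :=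
  goodE lin H t6 25 0 10 0 (by decide +kernel)

end

end Pool.Agent.PHCert.E5
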