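import Pool.Agent.PHCert.E5H

/-!
# PHCert: inequality E5, part 3 (61 leaves, checked by the kernel)
-/

set_option autoImplicit false

namespace Pool.Agent.PHCert.E5

open Zp Pool.Agent.PHCert

noncomputable section

/-- part of a tree -/
def t10 : Tree := .s03 ⟨⟨.ofNat 2, .ofNat 0⟩, ⟨.ofNat 2, .ofNat 0⟩, ⟨.ofNat 0, .ofNat 0⟩, ⟨.ofNat 1, .ofNat 0⟩⟩ ⟨.ofNat 1, .ofNat 0⟩ ⟨.ofNat 1, .ofNat 0⟩ ⟨.ofNat 1, .ofNat 0⟩ 0 (.s23 ⟨⟨.ofNat 17, .ofNat 0⟩, ⟨.ofNat 34, .ofNat 0⟩, ⟨.ofNat 3, .ofNat 0⟩, ⟨.ofNat 14, .ofNat 0⟩⟩ ⟨.ofNat 3, .ofNat 0⟩ ⟨.ofNat 118, .ofNat 0⟩ ⟨.ofNat 11, .ofNat 0⟩ 36 (.s13 ⟨⟨.ofNat 3, .ofNat 0⟩, ⟨.ofNat 10, .ofNat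 0⟩, ⟨.ofNat 0, .ofNat 0⟩, ⟨.ofNat 3, .ofNat 0⟩⟩ ⟨.ofNat 4, .ofNat 0⟩ ⟨.ofNat 3, .ofNat 0⟩ ⟨.ofNat 1, .ofNat 0⟩ 41 (.leaf 20 [64, 64, 64, 64, 55, 64, 64, 64, 64, 64, 64, 0]) (.s12 ⟨⟨.ofNat 51, .ofNat 0⟩, ⟨.ofNat 170, .ofNat 0⟩, ⟨.ofNat 9, .ofNat 0⟩, ⟨.ofNat 42, .ofNat 0⟩⟩ ⟨.ofNat 68, .ofNat 0⟩ ⟨.ofNat 3, .ofNat 0⟩ ⟨.ofNat 1, .ofNat 0⟩ 41 (.leaf 19 [64, 64, 64, 64, 4, 64, 64, 0, 35, 64, 64, 0]) (.leaf 20 [64, 47, 0, 0, 0, 0, 0, 0, 0, 0, 0, 0, 0, 0, 0, 0]))) (.s02 ⟨⟨.ofNat 152, .ofNat 0⟩, ⟨.ofNat 198, .ofNat 0⟩, ⟨.ofNat 22, .ofNat 0⟩, ⟨.ofNat 77, .ofNat 0⟩⟩ ⟨.ofNat 53, .ofNat 0⟩ ⟨.ofNat 2, .ofNat 0⟩ ⟨.ofNat 1, .ofNat 0⟩ 29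 (.s23 ⟨⟨.ofNat 22, .ofNat 0⟩, ⟨.ofNat 44, .ofNat 0⟩, ⟨.ofNat 7, .ofNat 0⟩, ⟨.ofNat 15, .ofNat 0⟩⟩ ⟨.ofNat 53, .ofNat 0⟩ ⟨.ofNat 81, .ofNat 0⟩ ⟨.ofNat 118, .ofNat 0⟩ 36 (.s13 ⟨⟨.ofNat 51, .ofNat 0⟩, ⟨.ofNat 170, .ofNat 0⟩, ⟨.ofNat 9, .ofNat 0⟩, ⟨.ofNat 42, .ofNat 0⟩⟩ ⟨.ofNat 68, .ofNat 0⟩ ⟨.ofNat 3, .ofNat 0⟩ ⟨.ofNat 1, .ofNat 0⟩ 41 (.leaf 16 [64, 64, 64, 64, 64, 0, 64, 61, 0]) (.s12 ⟨⟨.ofNat 66, .ofNat 0⟩, ⟨.ofNat 220, .ofNat 0⟩, ⟨.ofNat 21, .ofNat 0⟩, ⟨.ofNat 45, .ofNat 0⟩⟩ ⟨.ofNat 88, .ofNat 0⟩ ⟨.ofNat 3, .ofNat 0⟩ ⟨.ofNat 1, .ofNat 0⟩ 41 (.leaf 16 [64, 32, 64, 64, 0, 0, 64, 53]) (.leaf 17 [0, 0, 0, 0, 0, 0, 0, 0, 0, 0,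 0, 0]))) (.s13 ⟨⟨.ofNat 66, .ofNat 0⟩, ⟨.ofNat 220, .ofNat 0⟩, ⟨.ofNat 21, .ofNat 0⟩, ⟨.ofNat 45, .ofNat 0⟩⟩ ⟨.ofNat 88, .ofNat 0⟩ ⟨.ofNat 3, .ofNat 0⟩ ⟨.ofNat 1, .ofNat 0⟩ 41 (.leaf 14 [64, 34, 64, 64, 64, 0, 64, 0]) (.s12 ⟨⟨.ofNat 69, .ofNat 0⟩, ⟨.ofNat 230, .ofNat 0⟩, ⟨.ofNat 33, .ofNat 0⟩, ⟨.ofNat 36, .ofNat 0⟩⟩ ⟨.ofNat 92, .ofNat 0⟩ ⟨.ofNat 3, .ofNat 0⟩ ⟨.ofNat 1, .ofNat 0⟩ 41 (.leaf 13 [64, 1, 64, 64, 35, 0, 64, 64, 64, 0]) (.s01 ⟨⟨.ofNat 152, .ofNat 0⟩, ⟨.ofNat 330, .ofNat 0⟩, ⟨.ofNat 22, .ofNat 0⟩, ⟨.ofNat 77, .ofNat 0⟩⟩ ⟨.ofNat 1, .ofNat 0⟩ ⟨.ofNat 132, .ofNat 0⟩ ⟨.ofNat 1, .ofNat 0⟩ 38 (.leaf 14 [64, 17, 0, 0,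 0]) (.leaf 15 [64, 0, 64, 64, 0, 0, 64, 64, 32, 0]))))) (.s13 ⟨⟨.ofNat 51, .ofNat 0⟩, ⟨.ofNat 170, .ofNat 0⟩, ⟨.ofNat 9, .ofNat 0⟩, ⟨.ofNat 42, .ofNat 0⟩⟩ ⟨.ofNat 68, .ofNat 0⟩ ⟨.ofNat 3, .ofNat 0⟩ ⟨.ofNat 1, .ofNat 0⟩ 41 (.leaf 18 [64, 64, 64, 44, 0, 64, 64, 0, 36, 64, 64, 0]) (.leaf 17 [64, 64, 64, 0, 0, 0, 0, 0, 0, 0, 0, 0, 0, 0, 0, 0])))) (.s02 ⟨⟨.ofNat 46, .ofNat 0⟩, ⟨.ofNat 46, .ofNat 0⟩, ⟨.ofNat 11, .ofNat 0⟩, ⟨.ofNat 12, .ofNat 0⟩⟩ ⟨.ofNat 23, .ofNat 0⟩ ⟨.ofNat 1, .ofNat 0⟩ ⟨.ofNat 1, .ofNat 0⟩ 0 (.s12 ⟨⟨.ofNat 69, .ofNat 0⟩, ⟨.ofNat 230, .ofNat 0⟩, ⟨.ofNat 33, .ofNat 0⟩, ⟨.ofNat 36, .ofNat 0⟩⟩ ⟨.ofNat 92, .ofNat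 0⟩ ⟨.ofNat 3, .ofNat 0⟩ ⟨.ofNat 1, .ofNat 0⟩ 41 (.leaf 12 [64, 64, 36, 0, 0, 64, 64, 64, 27, 0, 64, 64, 0, 0, 0]) (.leaf 13 [0, 0, 0, 0, 0, 0, 0, 0, 0, 6, 0, 0, 0, 0, 0, 0, 0])) (.s03 ⟨⟨.ofNat 10, .ofNat 0⟩, ⟨.ofNat 6, .ofNat 0⟩, ⟨.ofNat 0, .ofNat 0⟩, ⟨.ofNat 3, .ofNat 0⟩⟩ ⟨.ofNat 4, .ofNat 0⟩ ⟨.ofNat 3, .ofNat 0⟩ ⟨.ofNat 1, .ofNat 0⟩ 7 (.s23 ⟨⟨.ofNat 34, .ofNat 0⟩, ⟨.ofNat 34, .ofNat 0⟩, ⟨.ofNat 3, .ofNat 0⟩, ⟨.ofNat 14, .ofNat 0⟩⟩ ⟨.ofNat 3, .ofNat 0⟩ ⟨.ofNat 118, .ofNat 0⟩ ⟨.ofNat 11, .ofNat 0⟩ 0 (.leaf 20 [64, 0, 0, 0, 0, 64, 0, 0, 0, 0, 0, 0, 0]) (.s13 ⟨⟨.ofNat 102, .ofNat 0⟩, ⟨.ofNat 170, .ofNat 0⟩, ⟨.ofNat 9, .ofNat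 0⟩, ⟨.ofNat 42, .ofNat 0⟩⟩ ⟨.ofNat 68, .ofNat 0⟩ ⟨.ofNat 3, .ofNat 0⟩ ⟨.ofNat 1, .ofNat 0⟩ 33 (.leaf 16 [64, 64, 64, 64, 0, 0, 0, 0, 0, 0]) (.s12 ⟨⟨.ofNat 138, .ofNat 0⟩, ⟨.ofNat 230, .ofNat 0⟩, ⟨.ofNat 33, .ofNat 0⟩, ⟨.ofNat 36, .ofNat 0⟩⟩ ⟨.ofNat 92, .ofNat 0⟩ ⟨.ofNat 3, .ofNat 0⟩ ⟨.ofNat 1, .ofNat 0⟩ 33 (.leaf 15 [19, 64, 64, 64, 0, 0, 0, 0, 0]) (.leaf 17 [0, 0, 0, 0, 0, 0, 0, 0, 0, 0, 0])))) (.s02 ⟨⟨.ofNat 230, .ofNat 0⟩, ⟨.ofNat 138, .ofNat 0⟩, ⟨.ofNat 33, .ofNat 0⟩, ⟨.ofNat 36, .ofNat 0⟩⟩ ⟨.ofNat 92, .ofNat 0⟩ ⟨.ofNat 3, .ofNat 0⟩ ⟨.ofNat 1, .ofNat 0⟩ 7 (.leaf 12 [64, 0, 0, 0, 0, 0, 0, 0, 0, 0]) (.leaf 16 [0, 0, 0,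 0, 0, 0, 0, 0, 0, 0, 0]))))

theorem g10 : Good (PE lin H) ⟨⟨.ofNat 1, .ofNat 0⟩, ⟨.ofNat 0, .ofNat 0⟩, ⟨.ofNat 0, .ofNat 0⟩, ⟨.ofNat 0, .ofNat 0⟩⟩
    ⟨⟨.ofNat 0, .ofNat 0⟩, ⟨.ofNat 1, .ofNat 0⟩, ⟨.ofNat 0, .ofNat 0⟩, ⟨.ofNat 0, .ofNat 0⟩⟩
    ⟨⟨.ofNat 23, .ofNat 0⟩, ⟨.ofNat 46, .ofNat 0⟩, ⟨.ofNat 11, .ofNat 0⟩, ⟨.ofNat 12, .ofNat 0⟩⟩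
    ⟨⟨.ofNat 1, .ofNat 0⟩, ⟨.ofNat 2, .ofNat 0⟩, ⟨.ofNat 0, .ofNat 0⟩, ⟨.ofNat 1, .ofNat 0⟩⟩ :=
  goodE lin H t10 25 51 36 36 (by decide +kernel)

/-- part of a tree -/
def t13 : Tree := .s03 ⟨⟨.ofNat 115, .ofNat 0⟩, ⟨.ofNat 92, .ofNat 0⟩, ⟨.ofNat 44, .ofNat 0⟩, ⟨.ofNat 48, .ofNat 0⟩⟩ ⟨.ofNat 1, .ofNat 0⟩ ⟨.ofNat 3, .ofNat 0⟩ ⟨.ofNat 1, .ofNat 0⟩ 2 (.leaf 9 [64, 64, 50, 10, 0, 0, 0]) (.s02 ⟨⟨.ofNat 2875, .ofNat 0⟩, ⟨.ofNat 2300, .ofNat 0⟩, ⟨.ofNat 1379, .ofNat 0⟩, ⟨.ofNat 921, .ofNat 0⟩⟩ ⟨.ofNat 25, .ofNat 0⟩ ⟨.ofNat 69, .ofNat 0⟩ ⟨.ofNat 1, .ofNat 0⟩ 2 (.leaf 9 [64, 64, 38, 64, 0]) (.s01 ⟨⟨.ofNat 1610, .ofNat 0⟩, ⟨.ofNat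 1403, .ofNat 0⟩, ⟨.ofNat 539, .ofNat 0⟩, ⟨.ofNat 588, .ofNat 0⟩⟩ ⟨.ofNat 21, .ofNat 0⟩ ⟨.ofNat 4, .ofNat 0⟩ ⟨.ofNat 1, .ofNat 0⟩ 1 (.s12 ⟨⟨.ofNat 4053, .ofNat 4053⟩, ⟨.ofNat 11840, .negSucc 809⟩, ⟨.ofNat 1925, .ofNat 1953⟩, ⟨.ofNat 4053, .ofNat 0⟩⟩ ⟨.ofNat 1033, .ofNat 112⟩ ⟨.ofNat 7, .ofNat 91⟩ ⟨.ofNat 23, .ofNat 23⟩ 0 (.leaf 9 [8, 0, 0]) (.leaf 10 [27, 64, 0, 64, 64, 20])) (.s03 ⟨⟨.ofNat 230, .ofNat 0⟩, ⟨.ofNat 161, .ofNat 0⟩, ⟨.ofNat 77, .ofNat 0⟩, ⟨.ofNat 84, .ofNat 0⟩⟩ ⟨.ofNat 5, .ofNat 0⟩ ⟨.ofNat 4, .ofNat 0⟩ ⟨.ofNat 3, .ofNat 0⟩ 4 (.leaf 10 [0, 0]) (.s02 ⟨⟨.ofNat 5750, .ofNat 0⟩, ⟨.ofNat 4025, .ofNat 0⟩, ⟨.ofNat 2297,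 .ofNat 0⟩, ⟨.ofNat 1728, .ofNat 0⟩⟩ ⟨.ofNat 125, .ofNat 0⟩ ⟨.ofNat 4, .ofNat 0⟩ ⟨.ofNat 3, .ofNat 0⟩ 4 (.leaf 9 [0]) (.leaf 10 [64, 64, 21, 64, 0])))))

theorem g13 : Good (PE lin H) ⟨⟨.ofNat 46, .ofNat 0⟩, ⟨.ofNat 23, .ofNat 0⟩, ⟨.ofNat 11, .ofNat 0⟩, ⟨.ofNat 12, .ofNat 0⟩⟩
    ⟨⟨.ofNat 161, .ofNat 0⟩, ⟨.ofNat 230, .ofNat 0⟩, ⟨.ofNat 77, .ofNat 0⟩, ⟨.ofNat 84, .ofNat 0⟩⟩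
    ⟨⟨.ofNat 25, .ofNat 0⟩, ⟨.ofNat 25, .ofNat 0⟩, ⟨.ofNat 16, .ofNat 0⟩, ⟨.ofNat 9, .ofNat 0⟩⟩
    ⟨⟨.ofNat 23, .ofNat 0⟩, ⟨.ofNat 23, .ofNat 0⟩, ⟨.ofNat 11, .ofNat 0⟩, ⟨.ofNat 12, .ofNat 0⟩⟩ :=
  goodE lin H t13 10 30 0 0 (by decide +kernel)

/-- part of a tree -/
def t14_1 : Tree := .s01 ⟨⟨.ofNat 20125, .ofNat 0⟩, ⟨.ofNat 21275, .ofNat 0⟩, ⟨.ofNat 8816, .ofNat 0⟩, ⟨.ofNat 7284, .ofNat 0⟩⟩ ⟨.ofNat 175, .ofNat 0⟩ ⟨.ofNat 3, .ofNat 0⟩ ⟨.ofNat 1, .ofNat 0⟩ 26 (.s12 ⟨⟨.ofNat 30475, .ofNat 0⟩, ⟨.ofNat 34500, .ofNat 0⟩, ⟨.ofNat 16083, .ofNat 0⟩, ⟨.ofNat 11517, .ofNat 0⟩⟩ ⟨.ofNat 4, .ofNat 0⟩ ⟨.ofNat 5, .ofNat 0⟩ ⟨.ofNat 1, .ofNat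 0⟩ 27 (.s02 ⟨⟨.ofNat 2875, .ofNat 0⟩, ⟨.ofNat 2875, .ofNat 0⟩, ⟨.ofNat 1286, .ofNat 0⟩, ⟨.ofNat 1014, .ofNat 0⟩⟩ ⟨.ofNat 1, .ofNat 0⟩ ⟨.ofNat 2, .ofNat 0⟩ ⟨.ofNat 9, .ofNat 0⟩ 0 (.leaf 9 [50, 0, 17, 0]) (.leaf 9 [10, 0, 0])) (.leaf 9 [41, 6, 0, 0])) (.s02 ⟨⟨.ofNat 5750, .ofNat 0⟩, ⟨.ofNat 4025, .ofNat 0⟩, ⟨.ofNat 2297, .ofNat 0⟩, ⟨.ofNat 1728, .ofNat 0⟩⟩ ⟨.ofNat 125, .ofNat 0⟩ ⟨.ofNat 4, .ofNat 0⟩ ⟨.ofNat 3, .ofNat 0⟩ 4 (.s01 ⟨⟨.negSucc 12359, .ofNat 47155⟩, ⟨.ofNat 12948, .ofNat 25896⟩, ⟨.negSucc 2603, .ofNat 18069⟩, ⟨.ofNat 0, .ofNat 12948⟩⟩ ⟨.ofNat 6707, .negSucc 576⟩ ⟨.negSucc 568, .ofNat 1159⟩ ⟨.ofNat 0, .ofNat 575⟩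 1 (.s12 ⟨⟨.ofNat 2875, .ofNat 0⟩, ⟨.ofNat 2875, .ofNat 0⟩, ⟨.ofNat 1286, .ofNat 0⟩, ⟨.ofNat 1014, .ofNat 0⟩⟩ ⟨.ofNat 1, .ofNat 0⟩ ⟨.ofNat 2, .ofNat 0⟩ ⟨.ofNat 9, .ofNat 0⟩ 0 (.leaf 9 [50, 0, 17, 0]) (.leaf 9 [0, 3, 2, 0])) (.leaf 9 [64, 20, 0])) (.s03 ⟨⟨.ofNat 1610, .ofNat 0⟩, ⟨.ofNat 1403, .ofNat 0⟩, ⟨.ofNat 539, .ofNat 0⟩, ⟨.ofNat 588, .ofNat 0⟩⟩ ⟨.ofNat 35, .ofNat 0⟩ ⟨.ofNat 4, .ofNat 0⟩ ⟨.ofNat 3, .ofNat 0⟩ 1 (.s12 ⟨⟨.negSucc 12359, .ofNat 47155⟩, ⟨.ofNat 12948, .ofNat 25896⟩, ⟨.negSucc 2603, .ofNat 18069⟩, ⟨.ofNat 0, .ofNat 12948⟩⟩ ⟨.negSucc 568, .ofNat 1159⟩ ⟨.ofNat 6707, .negSucc 576⟩ ⟨.ofNat 0, .ofNat 575⟩ 1 (.leaf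 9 [54, 20, 0]) (.s01 ⟨⟨.ofNat 266245, .ofNat 4620⟩, ⟨.ofNat 99576, .ofNat 99576⟩, ⟨.ofNat 15483, .ofNat 54684⟩, ⟨.ofNat 99576, .ofNat 0⟩⟩ ⟨.negSucc 576, .ofNat 6130⟩ ⟨.ofNat 361, .ofNat 134⟩ ⟨.ofNat 23, .ofNat 46⟩ 0 (.leaf 9 [0, 3, 2, 0]) (.leaf 10 [59, 0, 0]))) (.s01 ⟨⟨.ofNat 40250, .ofNat 0⟩, ⟨.ofNat 35075, .ofNat 0⟩, ⟨.ofNat 14963, .ofNat 0⟩, ⟨.ofNat 13212, .ofNat 0⟩⟩ ⟨.ofNat 875, .ofNat 0⟩ ⟨.ofNat 4, .ofNat 0⟩ ⟨.ofNat 3, .ofNat 0⟩ 1 (.s12 ⟨⟨.negSucc 12359, .ofNat 47155⟩, ⟨.ofNat 12948, .ofNat 25896⟩, ⟨.negSucc 2603, .ofNat 18069⟩, ⟨.ofNat 0, .ofNat 12948⟩⟩ ⟨.negSucc 568, .ofNat 1159⟩ ⟨.ofNat 6707, .negSucc 576⟩ ⟨.ofNat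 0, .ofNat 575⟩ 1 (.leaf 9 [18]) (.s13 ⟨⟨.ofNat 266245, .ofNat 4620⟩, ⟨.ofNat 99576, .ofNat 99576⟩, ⟨.ofNat 15483, .ofNat 54684⟩, ⟨.ofNat 99576, .ofNat 0⟩⟩ ⟨.ofNat 361, .ofNat 134⟩ ⟨.negSucc 576, .ofNat 6130⟩ ⟨.ofNat 23, .ofNat 46⟩ 0 (.leaf 9 [64, 18]) (.leaf 9 [9]))) (.s02 ⟨⟨.ofNat 0, .ofNat 575⟩, ⟨.ofNat 575, .ofNat 0⟩, ⟨.ofNat 461, .negSucc 92⟩, ⟨.ofNat 114, .ofNat 93⟩⟩ ⟨.ofNat 100, .ofNat 25⟩ ⟨.ofNat 0, .ofNat 1⟩ ⟨.ofNat 4, .ofNat 8⟩ 6 (.leaf 9 [64, 18]) (.s01 ⟨⟨.ofNat 0, .ofNat 4025⟩, ⟨.ofNat 7475, .negSucc 1724⟩, ⟨.ofNat 2669, .negSucc 371⟩, ⟨.ofNat 1356, .ofNat 372⟩⟩ ⟨.ofNat 700, .ofNat 175⟩ ⟨.ofNat 0, .ofNat 1⟩ ⟨.ofNat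 4, .ofNat 8⟩ 4 (.leaf 9 [64, 18, 64]) (.leaf 10 [64, 57, 0, 64]))))))

/-- part of a tree -/
def t14_0 : Tree := .s03 ⟨⟨.ofNat 805, .ofNat 0⟩, ⟨.ofNat 851, .ofNat 0⟩, ⟨.ofNat 308, .ofNat 0⟩, ⟨.ofNat 336, .ofNat 0⟩⟩ ⟨.ofNat 7, .ofNat 0⟩ ⟨.ofNat 3, .ofNat 0⟩ ⟨.ofNat 1, .ofNat 0⟩ 26 (.s23 ⟨⟨.ofNat 6095, .ofNat 0⟩, ⟨.ofNat 6900, .ofNat 0⟩, ⟨.ofNat 2919, .ofNat 0⟩, ⟨.ofNat 2601, .ofNat 0⟩⟩ ⟨.ofNat 1, .ofNat 0⟩ ⟨.ofNat 20, .ofNat 0⟩ ⟨.ofNat 1, .ofNat 0⟩ 27 (.leaf 10 [0, 0, 0]) (.s12 ⟨⟨.ofNat 30475, .ofNat 0⟩, ⟨.ofNat 34500, .ofNat 0⟩, ⟨.ofNat 16083, .ofNat 0⟩, ⟨.ofNat 11517, .ofNat 0⟩⟩ ⟨.ofNat 4, .ofNat 0⟩ ⟨.ofNat 5, .ofNat 0⟩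 ⟨.ofNat 1, .ofNat 0⟩ 27 (.leaf 9 [64, 15, 31, 0]) (.leaf 9 [39, 64, 5, 0]))) t14_1

/-- part of a tree -/
def t14 : Tree := .s02 ⟨⟨.ofNat 2875, .ofNat 0⟩, ⟨.ofNat 2300, .ofNat 0⟩, ⟨.ofNat 1379, .ofNat 0⟩, ⟨.ofNat 921, .ofNat 0⟩⟩ ⟨.ofNat 25, .ofNat 0⟩ ⟨.ofNat 69, .ofNat 0⟩ ⟨.ofNat 1, .ofNat 0⟩ 2 (.s23 ⟨⟨.ofNat 460, .ofNat 0⟩, ⟨.ofNat 575, .ofNat 0⟩, ⟨.ofNat 251, .ofNat 0⟩, ⟨.ofNat 209, .ofNat 0⟩⟩ ⟨.ofNat 23, .ofNat 0⟩ ⟨.ofNat 5, .ofNat 0⟩ ⟨.ofNat 3, .ofNat 0⟩ 28 (.s03 ⟨⟨.ofNat 6095, .ofNat 0⟩, ⟨.ofNat 6900, .ofNat 0⟩, ⟨.ofNat 2919, .ofNat 0⟩, ⟨.ofNat 2601, .ofNat 0⟩⟩ ⟨.ofNat 1, .ofNat 0⟩ ⟨.ofNat 20, .ofNat 0⟩ ⟨.ofNat 1, .ofNat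 0⟩ 27 (.leaf 9 [1, 14]) (.s01 ⟨⟨.ofNat 30475, .ofNat 0⟩, ⟨.ofNat 34500, .ofNat 0⟩, ⟨.ofNat 16083, .ofNat 0⟩, ⟨.ofNat 11517, .ofNat 0⟩⟩ ⟨.ofNat 5, .ofNat 0⟩ ⟨.ofNat 4, .ofNat 0⟩ ⟨.ofNat 1, .ofNat 0⟩ 27 (.leaf 9 [44, 64, 0]) (.leaf 8 [1, 3, 0]))) (.s12 ⟨⟨.ofNat 2300, .ofNat 0⟩, ⟨.ofNat 2875, .ofNat 0⟩, ⟨.ofNat 1379, .ofNat 0⟩, ⟨.ofNat 921, .ofNat 0⟩⟩ ⟨.ofNat 1, .ofNat 0⟩ ⟨.ofNat 115, .ofNat 0⟩ ⟨.ofNat 3, .ofNat 0⟩ 28 (.leaf 8 [0, 2, 0]) (.s01 ⟨⟨.ofNat 30475, .ofNat 0⟩, ⟨.ofNat 34500, .ofNat 0⟩, ⟨.ofNat 16083, .ofNat 0⟩, ⟨.ofNat 11517, .ofNat 0⟩⟩ ⟨.ofNat 5, .ofNat 0⟩ ⟨.ofNat 4, .ofNat 0⟩ ⟨.ofNat 1, .ofNat 0⟩ 27 (.leaf 8 [36,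 64, 0]) (.leaf 8 [0, 2, 0])))) t14_0

theorem g14 : Good (PE lin H) ⟨⟨.ofNat 46, .ofNat 0⟩, ⟨.ofNat 23, .ofNat 0⟩, ⟨.ofNat 11, .ofNat 0⟩, ⟨.ofNat 12, .ofNat 0⟩⟩
    ⟨⟨.ofNat 4025, .ofNat 0⟩, ⟨.ofNat 5750, .ofNat 0⟩, ⟨.ofNat 2297, .ofNat 0⟩, ⟨.ofNat 1728, .ofNat 0⟩⟩
    ⟨⟨.ofNat 25, .ofNat 0⟩, ⟨.ofNat 25, .ofNat 0⟩, ⟨.ofNat 16, .ofNat 0⟩, ⟨.ofNat 9, .ofNat 0⟩⟩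
    ⟨⟨.ofNat 161, .ofNat 0⟩, ⟨.ofNat 230, .ofNat 0⟩, ⟨.ofNat 77, .ofNat 0⟩, ⟨.ofNat 84, .ofNat 0⟩⟩ :=
  goodE lin H t14 10 30 0 30 (by decide +kernel)

/-- part of a tree -/
def t15 : Tree := .leaf 10 [64, 64, 64, 61, 0, 0, 0, 64, 0]

theorem g15 : Good (PE lin H) ⟨⟨.ofNat 805, .ofNat 0⟩, ⟨.ofNat 851, .ofNat 0⟩, ⟨.ofNat 308, .ofNat 0⟩, ⟨.ofNat 336, .ofNat 0⟩⟩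
    ⟨⟨.ofNat 23, .ofNat 0⟩, ⟨.ofNat 46, .ofNat 0⟩, ⟨.ofNat 11, .ofNat 0⟩, ⟨.ofNat 12, .ofNat 0⟩⟩
    ⟨⟨.ofNat 4025, .ofNat 0⟩, ⟨.ofNat 5750, .ofNat 0⟩, ⟨.ofNat 2297, .ofNat 0⟩, ⟨.ofNat 1728, .ofNat 0⟩⟩
    ⟨⟨.ofNat 161, .ofNat 0⟩, ⟨.ofNat 230, .ofNat 0⟩, ⟨.ofNat 77, .ofNat 0⟩, ⟨.ofNat 84, .ofNat 0⟩⟩ :=
  goodE lin H t15 26 36 30 30 (by decide +kernel)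

/-- part of a tree -/
def t16 : Tree := .s13 ⟨⟨.ofNat 3703, .ofNat 0⟩, ⟨.ofNat 4370, .ofNat 0⟩, ⟨.ofNat 1463, .ofNat 0⟩, ⟨.ofNat 1596, .ofNat 0⟩⟩ ⟨.ofNat 21, .ofNat 0⟩ ⟨.ofNat 4, .ofNat 0⟩ ⟨.ofNat 1, .ofNat 0⟩ 28 (.leaf 9 [41, 6, 0, 0]) (.s01 ⟨⟨.ofNat 92575, .ofNat 0⟩, ⟨.ofNat 109250, .ofNat 0⟩, ⟨.ofNat 41039, .ofNat 0⟩, ⟨.ofNat 35436, .ofNat 0⟩⟩ ⟨.ofNat 4, .ofNat 0⟩ ⟨.ofNat 525, .ofNat 0⟩ ⟨.ofNat 1, .ofNat 0⟩ 28 (.leaf 10 [64, 64, 64, 46, 64]) (.leaf 9 [14, 0]))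

theorem g16 : Good (PE lin H) ⟨⟨.ofNat 20125, .ofNat 0⟩, ⟨.ofNat 21275, .ofNat 0⟩, ⟨.ofNat 8816, .ofNat 0⟩, ⟨.ofNat 7284, .ofNat 0⟩⟩
    ⟨⟨.ofNat 23, .ofNat 0⟩, ⟨.ofNat 46, .ofNat 0⟩, ⟨.ofNat 11, .ofNat 0⟩, ⟨.ofNat 12, .ofNat 0⟩⟩
    ⟨⟨.ofNat 4025, .ofNat 0⟩, ⟨.ofNat 5750, .ofNat 0⟩, ⟨.ofNat 2297, .ofNat 0⟩, ⟨.ofNat 1728, .ofNat 0⟩⟩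
    ⟨⟨.ofNat 805, .ofNat 0⟩, ⟨.ofNat 851, .ofNat 0⟩, ⟨.ofNat 308, .ofNat 0⟩, ⟨.ofNat 336, .ofNat 0⟩⟩ :=
  goodE lin H t16 26 36 30 26 (by decide +kernel)

/-- part of a tree -/
def t17 : Tree := .s12 ⟨⟨.ofNat 92575, .ofNat 0⟩, ⟨.ofNat 109250, .ofNat 0⟩, ⟨.ofNat 41039, .ofNat 0⟩, ⟨.ofNat 35436, .ofNat 0⟩⟩ ⟨.ofNat 525, .ofNat 0⟩ ⟨.ofNat 4, .ofNat 0⟩ ⟨.ofNat 1, .ofNat 0⟩ 28 (.s02 ⟨⟨.ofNat 37375, .ofNat 0⟩, ⟨.ofNat 40250, .ofNat 0⟩, ⟨.ofNat 14591, .ofNat 0⟩, ⟨.ofNat 13584, .ofNat 0⟩⟩ ⟨.ofNat 75, .ofNat 0⟩ ⟨.ofNat 1, .ofNat 0⟩ ⟨.ofNat 1, .ofNat 0⟩ 26 (.leaf 9 [18, 12, 2, 0, 64, 0]) (.s01 ⟨⟨.ofNat 116725, .ofNat 0⟩, ⟨.ofNat 135815,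 .ofNat 0⟩, ⟨.ofNat 49124, .ofNat 0⟩, ⟨.ofNat 44256, .ofNat 0⟩⟩ ⟨.ofNat 105, .ofNat 0⟩ ⟨.ofNat 1, .ofNat 0⟩ ⟨.ofNat 1, .ofNat 0⟩ 27 (.leaf 10 [29, 46, 0, 0, 0, 64, 0]) (.leaf 10 [64, 0, 0, 35, 0, 64, 0]))) (.s01 ⟨⟨.ofNat 115, .ofNat 0⟩, ⟨.ofNat 161, .ofNat 0⟩, ⟨.ofNat 44, .ofNat 0⟩, ⟨.ofNat 48, .ofNat 0⟩⟩ ⟨.ofNat 1, .ofNat 0⟩ ⟨.ofNat 5, .ofNat 0⟩ ⟨.ofNat 3, .ofNat 0⟩ 30 (.leaf 10 [64, 64, 64, 61, 0, 0, 0, 64, 0]) (.s02 ⟨⟨.ofNat 116725, .ofNat 0⟩, ⟨.ofNat 135815, .ofNat 0⟩, ⟨.ofNat 49124, .ofNat 0⟩, ⟨.ofNat 44256, .ofNat 0⟩⟩ ⟨.ofNat 105, .ofNat 0⟩ ⟨.ofNat 1, .ofNat 0⟩ ⟨.ofNat 1, .ofNat 0⟩ 27 (.leaf 10 [64, 64, 64, 7, 0, 64,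 0, 64, 0]) (.leaf 10 [64, 64, 64, 0, 0, 35, 0, 64, 0])))

theorem g17 : Good (PE lin H) ⟨⟨.ofNat 230, .ofNat 0⟩, ⟨.ofNat 253, .ofNat 0⟩, ⟨.ofNat 77, .ofNat 0⟩, ⟨.ofNat 84, .ofNat 0⟩⟩
    ⟨⟨.ofNat 23, .ofNat 0⟩, ⟨.ofNat 46, .ofNat 0⟩, ⟨.ofNat 11, .ofNat 0⟩, ⟨.ofNat 12, .ofNat 0⟩⟩
    ⟨⟨.ofNat 20125, .ofNat 0⟩, ⟨.ofNat 21275, .ofNat 0⟩, ⟨.ofNat 8816, .ofNat 0⟩, ⟨.ofNat 7284, .ofNat 0⟩⟩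
    ⟨⟨.ofNat 805, .ofNat 0⟩, ⟨.ofNat 851, .ofNat 0⟩, ⟨.ofNat 308, .ofNat 0⟩, ⟨.ofNat 336, .ofNat 0⟩⟩ :=
  goodE lin H t17 27 36 26 26 (by decide +kernel)

end

end Pool.Agent.PHCert.E5
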