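import Pool.Agent.PHCert.E5H

/-!
# PHCert: inequality E5, part 4 (75 leaves, checked by the kernel)
-/

set_option autoImplicit false

namespace Pool.Agent.PHCert.E5

open Zp Pool.Agent.PHCert

noncomputable section

/-- part of a tree -/
def t18_2 : Tree := .s12 ⟨⟨.ofNat 162725, .ofNat 0⟩, ⟨.ofNat 144900, .ofNat 0⟩, ⟨.ofNat 54951, .ofNat 0⟩, ⟨.ofNat 53724, .ofNat 0⟩⟩ ⟨.ofNat 325, .ofNat 0⟩ ⟨.ofNat 2, .ofNat 0⟩ ⟨.ofNat 1, .ofNat 0⟩ 1 (.s03 ⟨⟨.ofNat 1610, .ofNat 0⟩, ⟨.ofNat 1495, .ofNat 0⟩, ⟨.ofNat 539, .ofNat 0⟩, ⟨.ofNat 588, .ofNat 0⟩⟩ ⟨.ofNat 7, .ofNat 0⟩ ⟨.ofNat 1, .ofNat 0⟩ ⟨.ofNat 1, .ofNat 0⟩ 0 (.s13 ⟨⟨.ofNat 215050,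 .ofNat 0⟩, ⟨.ofNat 200215, .ofNat 0⟩, ⟨.ofNat 74971, .ofNat 0⟩, ⟨.ofNat 75564, .ofNat 0⟩⟩ ⟨.ofNat 1, .ofNat 0⟩ ⟨.ofNat 65, .ofNat 0⟩ ⟨.ofNat 1, .ofNat 0⟩ 0 (.s23 ⟨⟨.ofNat 125580, .negSucc 10464⟩, ⟨.ofNat 23556, .ofNat 47112⟩, ⟨.ofNat 41664, .negSucc 602⟩, ⟨.ofNat 0, .ofNat 23556⟩⟩ ⟨.ofNat 135, .ofNat 113⟩ ⟨.negSucc 470, .ofNat 3619⟩ ⟨.ofNat 46, .ofNat 69⟩ 1 (.leaf 10 [0, 47, 0]) (.s02 ⟨⟨.ofNat 26040, .ofNat 11830⟩, ⟨.ofNat 9480, .ofNat 18960⟩, ⟨.ofNat 18228, .negSucc 1198⟩, ⟨.ofNat 0, .ofNat 9480⟩⟩ ⟨.negSucc 470, .ofNat 3619⟩ ⟨.ofNat 219, .ofNat 169⟩ ⟨.ofNat 184, .ofNat 276⟩ 1 (.leaf 9 [0]) (.leaf 10 [31]))) (.s01 ⟨⟨.negSucc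 34704, .ofNat 399420⟩, ⟨.ofNat 212340, .ofNat 212340⟩, ⟨.negSucc 30290, .ofNat 145824⟩, ⟨.ofNat 212340, .ofNat 0⟩⟩ ⟨.ofNat 21180, .ofNat 4908⟩ ⟨.negSucc 49, .ofNat 219⟩ ⟨.ofNat 46, .ofNat 69⟩ 1 (.leaf 9 [0, 64]) (.s02 ⟨⟨.ofNat 26040, .ofNat 11830⟩, ⟨.ofNat 9480, .ofNat 18960⟩, ⟨.ofNat 18228, .negSucc 1198⟩, ⟨.ofNat 0, .ofNat 9480⟩⟩ ⟨.negSucc 470, .ofNat 3619⟩ ⟨.ofNat 219, .ofNat 169⟩ ⟨.ofNat 184, .ofNat 276⟩ 1 (.leaf 9 [0]) (.leaf 10 [31])))) (.s02 ⟨⟨.ofNat 80500, .ofNat 0⟩, ⟨.ofNat 67275, .ofNat 0⟩, ⟨.ofNat 26513, .ofNat 0⟩, ⟨.ofNat 25812, .ofNat 0⟩⟩ ⟨.ofNat 350, .ofNat 0⟩ ⟨.ofNat 1, .ofNat 0⟩ ⟨.ofNat 1, .ofNat 0⟩ 2 (.s13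 ⟨⟨.negSucc 34704, .ofNat 399420⟩, ⟨.ofNat 212340, .ofNat 212340⟩, ⟨.negSucc 30290, .ofNat 145824⟩, ⟨.ofNat 212340, .ofNat 0⟩⟩ ⟨.negSucc 49, .ofNat 219⟩ ⟨.ofNat 21180, .ofNat 4908⟩ ⟨.ofNat 46, .ofNat 69⟩ 1 (.s23 ⟨⟨.ofNat 26040, .ofNat 11830⟩, ⟨.ofNat 9480, .ofNat 18960⟩, ⟨.ofNat 18228, .negSucc 1198⟩, ⟨.ofNat 0, .ofNat 9480⟩⟩ ⟨.ofNat 219, .ofNat 169⟩ ⟨.negSucc 470, .ofNat 3619⟩ ⟨.ofNat 184, .ofNat 276⟩ 1 (.leaf 10 [63]) (.leaf 9 [0, 0, 64])) (.leaf 9 [0, 0, 64])) (.leaf 10 [64, 28, 42, 64]))) (.s03 ⟨⟨.ofNat 1610, .ofNat 0⟩, ⟨.ofNat 1495, .ofNat 0⟩, ⟨.ofNat 539, .ofNat 0⟩, ⟨.ofNat 588, .ofNat 0⟩⟩ ⟨.ofNat 7, .ofNat 0⟩ ⟨.ofNat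 1, .ofNat 0⟩ ⟨.ofNat 1, .ofNat 0⟩ 0 (.s13 ⟨⟨.ofNat 690, .ofNat 0⟩, ⟨.ofNat 667, .ofNat 0⟩, ⟨.ofNat 231, .ofNat 0⟩, ⟨.ofNat 252, .ofNat 0⟩⟩ ⟨.ofNat 5, .ofNat 0⟩ ⟨.ofNat 1, .ofNat 0⟩ ⟨.ofNat 3, .ofNat 0⟩ 0 (.leaf 10 [44, 64, 0, 0, 64, 0]) (.s01 ⟨⟨.ofNat 22540, .ofNat 0⟩, ⟨.ofNat 20585, .ofNat 0⟩, ⟨.ofNat 7007, .ofNat 0⟩, ⟨.ofNat 7644, .ofNat 0⟩⟩ ⟨.ofNat 3, .ofNat 0⟩ ⟨.ofNat 70, .ofNat 0⟩ ⟨.ofNat 1, .ofNat 0⟩ 1 (.leaf 11 [20, 64]) (.leaf 10 [0, 17, 64]))) (.s03 ⟨⟨.ofNat 3220, .ofNat 0⟩, ⟨.ofNat 2783, .ofNat 0⟩, ⟨.ofNat 1001, .ofNat 0⟩, ⟨.ofNat 1092, .ofNat 0⟩⟩ ⟨.ofNat 14, .ofNat 0⟩ ⟨.ofNat 1, .ofNat 0⟩ ⟨.ofNat 1, .ofNat 0⟩ 1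 (.s13 ⟨⟨.ofNat 22540, .ofNat 0⟩, ⟨.ofNat 20585, .ofNat 0⟩, ⟨.ofNat 7007, .ofNat 0⟩, ⟨.ofNat 7644, .ofNat 0⟩⟩ ⟨.ofNat 70, .ofNat 0⟩ ⟨.ofNat 3, .ofNat 0⟩ ⟨.ofNat 1, .ofNat 0⟩ 1 (.leaf 10 [0, 17, 64]) (.leaf 10 [0, 0, 0, 53])) (.leaf 10 [64, 0, 0, 5, 15])))

/-- part of a tree -/
def t18_1 : Tree := .s01 ⟨⟨.ofNat 115, .ofNat 0⟩, ⟨.ofNat 92, .ofNat 0⟩, ⟨.ofNat 33, .ofNat 0⟩, ⟨.ofNat 36, .ofNat 0⟩⟩ ⟨.ofNat 2, .ofNat 0⟩ ⟨.ofNat 1, .ofNat 0⟩ ⟨.ofNat 3, .ofNat 0⟩ 2 t18_2 (.s03 ⟨⟨.ofNat 1610, .ofNat 0⟩, ⟨.ofNat 1403, .ofNat 0⟩, ⟨.ofNat 539, .ofNat 0⟩, ⟨.ofNat 588, .ofNat 0⟩⟩ ⟨.ofNat 35, .ofNat 0⟩ ⟨.ofNat 4, .ofNat 0⟩ ⟨.ofNat 3, .ofNat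 0⟩ 1 (.s13 ⟨⟨.ofNat 1610, .ofNat 0⟩, ⟨.ofNat 1495, .ofNat 0⟩, ⟨.ofNat 539, .ofNat 0⟩, ⟨.ofNat 588, .ofNat 0⟩⟩ ⟨.ofNat 7, .ofNat 0⟩ ⟨.ofNat 1, .ofNat 0⟩ ⟨.ofNat 1, .ofNat 0⟩ 0 (.s02 ⟨⟨.ofNat 0, .ofNat 70⟩, ⟨.ofNat 0, .ofNat 61⟩, ⟨.ofNat 61, .negSucc 11⟩, ⟨.negSucc 60, .ofNat 61⟩⟩ ⟨.ofNat 21863, .negSucc 13211⟩ ⟨.negSucc 814, .ofNat 588⟩ ⟨.ofNat 0, .ofNat 34224⟩ 1 (.s23 ⟨⟨.ofNat 125580, .negSucc 10464⟩, ⟨.ofNat 23556, .ofNat 47112⟩, ⟨.ofNat 41664, .negSucc 602⟩, ⟨.ofNat 0, .ofNat 23556⟩⟩ ⟨.ofNat 135, .ofNat 113⟩ ⟨.negSucc 470, .ofNat 3619⟩ ⟨.ofNat 46, .ofNat 69⟩ 1 (.leaf 10 [48, 0, 0]) (.s12 ⟨⟨.ofNat 26040, .ofNat 11830⟩, ⟨.ofNat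 9480, .ofNat 18960⟩, ⟨.ofNat 18228, .negSucc 1198⟩, ⟨.ofNat 0, .ofNat 9480⟩⟩ ⟨.negSucc 470, .ofNat 3619⟩ ⟨.ofNat 219, .ofNat 169⟩ ⟨.ofNat 184, .ofNat 276⟩ 1 (.leaf 9 [1]) (.leaf 10 [43]))) (.leaf 10 [48, 0, 0])) (.s12 ⟨⟨.ofNat 80500, .ofNat 0⟩, ⟨.ofNat 67275, .ofNat 0⟩, ⟨.ofNat 26513, .ofNat 0⟩, ⟨.ofNat 25812, .ofNat 0⟩⟩ ⟨.ofNat 350, .ofNat 0⟩ ⟨.ofNat 1, .ofNat 0⟩ ⟨.ofNat 1, .ofNat 0⟩ 2 (.s02 ⟨⟨.ofNat 0, .ofNat 70⟩, ⟨.ofNat 0, .ofNat 61⟩, ⟨.ofNat 61, .negSucc 11⟩, ⟨.negSucc 60, .ofNat 61⟩⟩ ⟨.ofNat 21863, .negSucc 13211⟩ ⟨.negSucc 814, .ofNat 588⟩ ⟨.ofNat 0, .ofNat 34224⟩ 1 (.s23 ⟨⟨.ofNat 26040, .ofNat 11830⟩, ⟨.ofNat 9480,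 .ofNat 18960⟩, ⟨.ofNat 18228, .negSucc 1198⟩, ⟨.ofNat 0, .ofNat 9480⟩⟩ ⟨.ofNat 219, .ofNat 169⟩ ⟨.negSucc 470, .ofNat 3619⟩ ⟨.ofNat 184, .ofNat 276⟩ 1 (.leaf 10 [43, 64]) (.leaf 9 [1, 0, 64])) (.leaf 10 [56, 64])) (.leaf 10 [64, 22, 0, 64]))) (.s02 ⟨⟨.ofNat 0, .ofNat 4025⟩, ⟨.ofNat 7475, .negSucc 1724⟩, ⟨.ofNat 2669, .negSucc 371⟩, ⟨.ofNat 1356, .ofNat 372⟩⟩ ⟨.ofNat 700, .ofNat 175⟩ ⟨.ofNat 0, .ofNat 1⟩ ⟨.ofNat 4, .ofNat 8⟩ 4 (.s12 ⟨⟨.ofNat 80500, .ofNat 0⟩, ⟨.ofNat 67275, .ofNat 0⟩, ⟨.ofNat 26513, .ofNat 0⟩, ⟨.ofNat 25812, .ofNat 0⟩⟩ ⟨.ofNat 350, .ofNat 0⟩ ⟨.ofNat 1, .ofNat 0⟩ ⟨.ofNat 1, .ofNat 0⟩ 2 (.leaf 9 [64, 64, 18,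 64]) (.leaf 10 [63, 0, 0, 64])) (.leaf 10 [64, 56, 0, 50, 64])))

/-- part of a tree -/
def t18_0 : Tree := .s02 ⟨⟨.ofNat 40250, .ofNat 0⟩, ⟨.ofNat 35075, .ofNat 0⟩, ⟨.ofNat 14963, .ofNat 0⟩, ⟨.ofNat 13212, .ofNat 0⟩⟩ ⟨.ofNat 875, .ofNat 0⟩ ⟨.ofNat 4, .ofNat 0⟩ ⟨.ofNat 3, .ofNat 0⟩ 1 (.s12 ⟨⟨.ofNat 17250, .ofNat 0⟩, ⟨.ofNat 16675, .ofNat 0⟩, ⟨.ofNat 6147, .ofNat 0⟩, ⟨.ofNat 5928, .ofNat 0⟩⟩ ⟨.ofNat 125, .ofNat 0⟩ ⟨.ofNat 1, .ofNat 0⟩ ⟨.ofNat 3, .ofNat 0⟩ 0 (.s01 ⟨⟨.ofNat 3450, .ofNat 0⟩, ⟨.ofNat 3220, .ofNat 0⟩, ⟨.ofNat 1248, .ofNat 0⟩, ⟨.ofNat 1167, .ofNat 0⟩⟩ ⟨.ofNat 3, .ofNat 0⟩ ⟨.ofNat 13, .ofNat 0⟩ ⟨.ofNat 100, .ofNat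 0⟩ 0 (.leaf 9 [40, 0, 0, 64, 0]) (.leaf 9 [0, 0, 0, 64, 0])) (.s01 ⟨⟨.ofNat 162725, .ofNat 0⟩, ⟨.ofNat 144900, .ofNat 0⟩, ⟨.ofNat 54951, .ofNat 0⟩, ⟨.ofNat 53724, .ofNat 0⟩⟩ ⟨.ofNat 2, .ofNat 0⟩ ⟨.ofNat 325, .ofNat 0⟩ ⟨.ofNat 1, .ofNat 0⟩ 1 (.s13 ⟨⟨.ofNat 690, .ofNat 0⟩, ⟨.ofNat 667, .ofNat 0⟩, ⟨.ofNat 231, .ofNat 0⟩, ⟨.ofNat 252, .ofNat 0⟩⟩ ⟨.ofNat 5, .ofNat 0⟩ ⟨.ofNat 1, .ofNat 0⟩ ⟨.ofNat 3, .ofNat 0⟩ 0 (.leaf 10 [44, 64, 0, 0, 64, 0]) (.s12 ⟨⟨.ofNat 80500, .ofNat 0⟩, ⟨.ofNat 74175, .ofNat 0⟩, ⟨.ofNat 25397, .ofNat 0⟩, ⟨.ofNat 26928, .ofNat 0⟩⟩ ⟨.ofNat 250, .ofNat 0⟩ ⟨.ofNat 1, .ofNat 0⟩ ⟨.ofNat 1, .ofNat 0⟩ 1 (.leaf 10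 [54]) (.leaf 11 [20, 64]))) (.s13 ⟨⟨.ofNat 215050, .ofNat 0⟩, ⟨.ofNat 200215, .ofNat 0⟩, ⟨.ofNat 74971, .ofNat 0⟩, ⟨.ofNat 75564, .ofNat 0⟩⟩ ⟨.ofNat 1, .ofNat 0⟩ ⟨.ofNat 65, .ofNat 0⟩ ⟨.ofNat 1, .ofNat 0⟩ 0 (.s02 ⟨⟨.ofNat 3450, .ofNat 0⟩, ⟨.ofNat 3220, .ofNat 0⟩, ⟨.ofNat 1248, .ofNat 0⟩, ⟨.ofNat 1167, .ofNat 0⟩⟩ ⟨.ofNat 3, .ofNat 0⟩ ⟨.ofNat 13, .ofNat 0⟩ ⟨.ofNat 100, .ofNat 0⟩ 0 (.leaf 10 [42, 2, 0, 64, 0]) (.leaf 9 [0, 0, 0, 64, 0])) (.s02 ⟨⟨.ofNat 3450, .ofNat 0⟩, ⟨.ofNat 3220, .ofNat 0⟩, ⟨.ofNat 1248, .ofNat 0⟩, ⟨.ofNat 1167, .ofNat 0⟩⟩ ⟨.ofNat 3, .ofNat 0⟩ ⟨.ofNat 13, .ofNat 0⟩ ⟨.ofNat 100, .ofNat 0⟩ 0 (.leaf 10 [3, 64])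 (.leaf 9 [0, 64]))))) t18_1

/-- part of a tree -/
def t18 : Tree := .s01 ⟨⟨.ofNat 253, .ofNat 0⟩, ⟨.ofNat 230, .ofNat 0⟩, ⟨.ofNat 77, .ofNat 0⟩, ⟨.ofNat 84, .ofNat 0⟩⟩ ⟨.ofNat 7, .ofNat 0⟩ ⟨.ofNat 3, .ofNat 0⟩ ⟨.ofNat 4, .ofNat 0⟩ 1 (.s02 ⟨⟨.ofNat 17250, .ofNat 0⟩, ⟨.ofNat 16675, .ofNat 0⟩, ⟨.ofNat 6147, .ofNat 0⟩, ⟨.ofNat 5928, .ofNat 0⟩⟩ ⟨.ofNat 125, .ofNat 0⟩ ⟨.ofNat 1, .ofNat 0⟩ ⟨.ofNat 3, .ofNat 0⟩ 0 (.s12 ⟨⟨.ofNat 37375, .ofNat 0⟩, ⟨.ofNat 40250, .ofNat 0⟩, ⟨.ofNat 14591, .ofNat 0⟩, ⟨.ofNat 13584, .ofNat 0⟩⟩ ⟨.ofNat 75, .ofNat 0⟩ ⟨.ofNat 1, .ofNat 0⟩ ⟨.ofNat 1, .ofNat 0⟩ 26 (.leaf 9 [27, 4, 0, 64, 0]) (.s13 ⟨⟨.ofNat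 1495, .ofNat 0⟩, ⟨.ofNat 1610, .ofNat 0⟩, ⟨.ofNat 539, .ofNat 0⟩, ⟨.ofNat 588, .ofNat 0⟩⟩ ⟨.ofNat 3, .ofNat 0⟩ ⟨.ofNat 1, .ofNat 0⟩ ⟨.ofNat 1, .ofNat 0⟩ 26 (.leaf 10 [0, 14, 0, 64, 0]) (.leaf 10 [64, 13, 0, 0]))) (.s03 ⟨⟨.ofNat 3220, .ofNat 0⟩, ⟨.ofNat 2967, .ofNat 0⟩, ⟨.ofNat 1001, .ofNat 0⟩, ⟨.ofNat 1092, .ofNat 0⟩⟩ ⟨.ofNat 35, .ofNat 0⟩ ⟨.ofNat 1, .ofNat 0⟩ ⟨.ofNat 3, .ofNat 0⟩ 1 (.s03 ⟨⟨.ofNat 690, .ofNat 0⟩, ⟨.ofNat 667, .ofNat 0⟩, ⟨.ofNat 231, .ofNat 0⟩, ⟨.ofNat 252, .ofNat 0⟩⟩ ⟨.ofNat 1, .ofNat 0⟩ ⟨.ofNat 2, .ofNat 0⟩ ⟨.ofNat 7, .ofNat 0⟩ 0 (.s13 ⟨⟨.ofNat 1495, .ofNat 0⟩, ⟨.ofNat 1610, .ofNat 0⟩, ⟨.ofNat 539, .ofNat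 0⟩, ⟨.ofNat 588, .ofNat 0⟩⟩ ⟨.ofNat 3, .ofNat 0⟩ ⟨.ofNat 1, .ofNat 0⟩ ⟨.ofNat 1, .ofNat 0⟩ 26 (.leaf 10 [0, 14, 0, 64, 0]) (.leaf 10 [64, 12, 0, 53])) (.leaf 10 [64, 12, 53])) (.s02 ⟨⟨.ofNat 80500, .ofNat 0⟩, ⟨.ofNat 74175, .ofNat 0⟩, ⟨.ofNat 25397, .ofNat 0⟩, ⟨.ofNat 26928, .ofNat 0⟩⟩ ⟨.ofNat 250, .ofNat 0⟩ ⟨.ofNat 1, .ofNat 0⟩ ⟨.ofNat 1, .ofNat 0⟩ 1 (.leaf 10 [64, 13, 34]) (.s01 ⟨⟨.ofNat 460, .ofNat 0⟩, ⟨.ofNat 437, .ofNat 0⟩, ⟨.ofNat 143, .ofNat 0⟩, ⟨.ofNat 156, .ofNat 0⟩⟩ ⟨.ofNat 10, .ofNat 0⟩ ⟨.ofNat 3, .ofNat 0⟩ ⟨.ofNat 7, .ofNat 0⟩ 0 (.leaf 10 [64, 6, 64]) (.leaf 10 [6, 64]))))) t18_0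

theorem g18 : Good (PE lin H) ⟨⟨.ofNat 46, .ofNat 0⟩, ⟨.ofNat 23, .ofNat 0⟩, ⟨.ofNat 11, .ofNat 0⟩, ⟨.ofNat 12, .ofNat 0⟩⟩
    ⟨⟨.ofNat 230, .ofNat 0⟩, ⟨.ofNat 253, .ofNat 0⟩, ⟨.ofNat 77, .ofNat 0⟩, ⟨.ofNat 84, .ofNat 0⟩⟩
    ⟨⟨.ofNat 20125, .ofNat 0⟩, ⟨.ofNat 21275, .ofNat 0⟩, ⟨.ofNat 8816, .ofNat 0⟩, ⟨.ofNat 7284, .ofNat 0⟩⟩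
    ⟨⟨.ofNat 805, .ofNat 0⟩, ⟨.ofNat 851, .ofNat 0⟩, ⟨.ofNat 308, .ofNat 0⟩, ⟨.ofNat 336, .ofNat 0⟩⟩ :=
  goodE lin H t18 10 27 26 26 (by decide +kernel)

/-- part of a tree -/
def t24 : Tree := .s12 ⟨⟨.ofNat 2112, .ofNat 0⟩, ⟨.ofNat 2687, .ofNat 0⟩, ⟨.ofNat 1536, .ofNat 0⟩, ⟨.ofNat 576, .ofNat 0⟩⟩ ⟨.ofNat 1, .ofNat 0⟩ ⟨.ofNat 2311, .ofNat 0⟩ ⟨.ofNat 3, .ofNat 0⟩ 28 (.s02 ⟨⟨.ofNat 9439, .ofNat 0⟩, ⟨.ofNat 8289, .ofNat 0⟩, ⟨.ofNat 6447, .ofNat 0⟩, ⟨.ofNat 1842, .ofNat 0⟩⟩ ⟨.ofNat 2, .ofNat 0⟩ ⟨.ofNat 3689, .ofNat 0⟩ ⟨.ofNat 1, .ofNat 0⟩ 1 (.leaf 4 [64, 64, 64, 28, 0]) (.s02 ⟨⟨.ofNat 24287, .ofNat 0⟩, ⟨.ofNat 20262, .ofNat 0⟩,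 ⟨.ofNat 13815, .ofNat 0⟩, ⟨.ofNat 6447, .ofNat 0⟩⟩ ⟨.ofNat 17499, .ofNat 0⟩ ⟨.ofNat 4162, .ofNat 0⟩ ⟨.ofNat 3689, .ofNat 0⟩ 2 (.leaf 5 [64, 26, 0, 0]) (.s01 ⟨⟨.ofNat 7431072, .ofNat 0⟩, ⟨.ofNat 8020447, .ofNat 0⟩, ⟨.ofNat 4652640, .ofNat 0⟩, ⟨.ofNat 2171232, .ofNat 0⟩⟩ ⟨.ofNat 1056, .ofNat 0⟩ ⟨.ofNat 2081, .ofNat 0⟩ ⟨.ofNat 1, .ofNat 0⟩ 26 (.leaf 5 [64, 40, 0, 0]) (.leaf 6 [16, 64, 64, 0])))) (.s12 ⟨⟨.ofNat 1600, .ofNat 0⟩, ⟨.ofNat 2175, .ofNat 0⟩, ⟨.ofNat 1024, .ofNat 0⟩, ⟨.ofNat 576, .ofNat 0⟩⟩ ⟨.ofNat 512, .ofNat 0⟩ ⟨.ofNat 775, .ofNat 0⟩ ⟨.ofNat 2311, .ofNat 0⟩ 29 (.s13 ⟨⟨.ofNat 100, .ofNat 0⟩, ⟨.ofNat 125, .ofNat 0⟩,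 ⟨.ofNat 64, .ofNat 0⟩, ⟨.ofNat 36, .ofNat 0⟩⟩ ⟨.ofNat 1, .ofNat 0⟩ ⟨.ofNat 28, .ofNat 0⟩ ⟨.ofNat 23, .ofNat 0⟩ 28 (.s02 ⟨⟨.ofNat 7431072, .ofNat 0⟩, ⟨.ofNat 8020447, .ofNat 0⟩, ⟨.ofNat 4652640, .ofNat 0⟩, ⟨.ofNat 2171232, .ofNat 0⟩⟩ ⟨.ofNat 1056, .ofNat 0⟩ ⟨.ofNat 2081, .ofNat 0⟩ ⟨.ofNat 1, .ofNat 0⟩ 26 (.leaf 6 [41, 0, 0, 0]) (.leaf 6 [16, 64, 64, 0])) (.s01 ⟨⟨.ofNat 11385, .ofNat 0⟩, ⟨.ofNat 13225, .ofNat 0⟩, ⟨.ofNat 6641, .ofNat 0⟩, ⟨.ofNat 3939, .ofNat 0⟩⟩ ⟨.ofNat 7, .ofNat 0⟩ ⟨.ofNat 23, .ofNat 0⟩ ⟨.ofNat 5, .ofNat 0⟩ 27 (.leaf 6 [43, 0, 0]) (.s02 ⟨⟨.ofNat 6052800, .ofNat 0⟩, ⟨.ofNat 5615225, .ofNat 0⟩, ⟨.ofNat 3308544,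 .ofNat 0⟩, ⟨.ofNat 1861056, .ofNat 0⟩⟩ ⟨.ofNat 1536, .ofNat 0⟩ ⟨.ofNat 775, .ofNat 0⟩ ⟨.ofNat 1, .ofNat 0⟩ 0 (.leaf 6 [16, 0, 0]) (.leaf 7 [0, 54])))) (.s13 ⟨⟨.ofNat 2300, .ofNat 0⟩, ⟨.ofNat 2875, .ofNat 0⟩, ⟨.ofNat 1379, .ofNat 0⟩, ⟨.ofNat 921, .ofNat 0⟩⟩ ⟨.ofNat 1, .ofNat 0⟩ ⟨.ofNat 115, .ofNat 0⟩ ⟨.ofNat 3, .ofNat 0⟩ 28 (.s23 ⟨⟨.ofNat 100, .ofNat 0⟩, ⟨.ofNat 125, .ofNat 0⟩, ⟨.ofNat 64, .ofNat 0⟩, ⟨.ofNat 36, .ofNat 0⟩⟩ ⟨.ofNat 1, .ofNat 0⟩ ⟨.ofNat 28, .ofNat 0⟩ ⟨.ofNat 23, .ofNat 0⟩ 28 (.leaf 7 [0, 0, 54]) (.s02 ⟨⟨.ofNat 11385, .ofNat 0⟩, ⟨.ofNat 13225, .ofNat 0⟩, ⟨.ofNat 6641, .ofNat 0⟩, ⟨.ofNat 3939, .ofNat 0⟩⟩ ⟨.ofNat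 7, .ofNat 0⟩ ⟨.ofNat 23, .ofNat 0⟩ ⟨.ofNat 5, .ofNat 0⟩ 27 (.leaf 7 [48, 0, 0]) (.leaf 7 [0, 0, 54]))) (.s01 ⟨⟨.ofNat 30475, .ofNat 0⟩, ⟨.ofNat 34500, .ofNat 0⟩, ⟨.ofNat 16083, .ofNat 0⟩, ⟨.ofNat 11517, .ofNat 0⟩⟩ ⟨.ofNat 5, .ofNat 0⟩ ⟨.ofNat 4, .ofNat 0⟩ ⟨.ofNat 1, .ofNat 0⟩ 27 (.leaf 7 [8, 31, 0]) (.s02 ⟨⟨.ofNat 11385, .ofNat 0⟩, ⟨.ofNat 13225, .ofNat 0⟩, ⟨.ofNat 6641, .ofNat 0⟩, ⟨.ofNat 3939, .ofNat 0⟩⟩ ⟨.ofNat 7, .ofNat 0⟩ ⟨.ofNat 23, .ofNat 0⟩ ⟨.ofNat 5, .ofNat 0⟩ 27 (.leaf 7 [48, 0, 0]) (.leaf 7 [0, 0, 63])))))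

theorem g24 : Good (PE lin H) ⟨⟨.ofNat 2875, .ofNat 0⟩, ⟨.ofNat 2300, .ofNat 0⟩, ⟨.ofNat 1379, .ofNat 0⟩, ⟨.ofNat 921, .ofNat 0⟩⟩
    ⟨⟨.ofNat 4025, .ofNat 0⟩, ⟨.ofNat 5750, .ofNat 0⟩, ⟨.ofNat 2297, .ofNat 0⟩, ⟨.ofNat 1728, .ofNat 0⟩⟩
    ⟨⟨.ofNat 1, .ofNat 0⟩, ⟨.ofNat 1, .ofNat 0⟩, ⟨.ofNat 1, .ofNat 0⟩, ⟨.ofNat 0, .ofNat 0⟩⟩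
    ⟨⟨.ofNat 25, .ofNat 0⟩, ⟨.ofNat 25, .ofNat 0⟩, ⟨.ofNat 16, .ofNat 0⟩, ⟨.ofNat 9, .ofNat 0⟩⟩ :=
  goodE lin H t24 2 30 0 0 (by decide +kernel)

/-- part of a tree -/
def t25 : Tree := .s02 ⟨⟨.ofNat 72775, .ofNat 0⟩, ⟨.ofNat 76225, .ofNat 0⟩, ⟨.ofNat 38848, .ofNat 0⟩, ⟨.ofNat 21852, .ofNat 0⟩⟩ ⟨.ofNat 3, .ofNat 0⟩ ⟨.ofNat 12400, .ofNat 0⟩ ⟨.ofNat 1, .ofNat 0⟩ 26 (.s12 ⟨⟨.ofNat 2112, .ofNat 0⟩, ⟨.ofNat 2687, .ofNat 0⟩, ⟨.ofNat 1536, .ofNat 0⟩, ⟨.ofNat 576, .ofNat 0⟩⟩ ⟨.ofNat 1, .ofNat 0⟩ ⟨.ofNat 2311, .ofNat 0⟩ ⟨.ofNat 3, .ofNat 0⟩ 28 (.s23 ⟨⟨.ofNat 9439, .ofNat 0⟩, ⟨.ofNat 8289, .ofNat 0⟩, ⟨.ofNat 6447, .ofNat 0⟩, ⟨.ofNat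 1842, .ofNat 0⟩⟩ ⟨.ofNat 3689, .ofNat 0⟩ ⟨.ofNat 2, .ofNat 0⟩ ⟨.ofNat 1, .ofNat 0⟩ 1 (.s23 ⟨⟨.ofNat 24287, .ofNat 0⟩, ⟨.ofNat 20262, .ofNat 0⟩, ⟨.ofNat 13815, .ofNat 0⟩, ⟨.ofNat 6447, .ofNat 0⟩⟩ ⟨.ofNat 4162, .ofNat 0⟩ ⟨.ofNat 17499, .ofNat 0⟩ ⟨.ofNat 3689, .ofNat 0⟩ 2 (.s13 ⟨⟨.ofNat 7431072, .ofNat 0⟩, ⟨.ofNat 8020447, .ofNat 0⟩, ⟨.ofNat 4652640, .ofNat 0⟩, ⟨.ofNat 2171232, .ofNat 0⟩⟩ ⟨.ofNat 2081, .ofNat 0⟩ ⟨.ofNat 1056, .ofNat 0⟩ ⟨.ofNat 1, .ofNat 0⟩ 26 (.leaf 6 [64, 16, 64, 64, 0]) (.leaf 5 [39, 46])) (.leaf 5 [55, 0])) (.leaf 5 [64, 0, 0])) (.s12 ⟨⟨.ofNat 1600, .ofNat 0⟩, ⟨.ofNat 2175, .ofNat 0⟩, ⟨.ofNat 1024, .ofNat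 0⟩, ⟨.ofNat 576, .ofNat 0⟩⟩ ⟨.ofNat 512, .ofNat 0⟩ ⟨.ofNat 775, .ofNat 0⟩ ⟨.ofNat 2311, .ofNat 0⟩ 29 (.s13 ⟨⟨.ofNat 11385, .ofNat 0⟩, ⟨.ofNat 13225, .ofNat 0⟩, ⟨.ofNat 6641, .ofNat 0⟩, ⟨.ofNat 3939, .ofNat 0⟩⟩ ⟨.ofNat 23, .ofNat 0⟩ ⟨.ofNat 7, .ofNat 0⟩ ⟨.ofNat 5, .ofNat 0⟩ 27 (.s23 ⟨⟨.ofNat 6052800, .ofNat 0⟩, ⟨.ofNat 5615225, .ofNat 0⟩, ⟨.ofNat 3308544, .ofNat 0⟩, ⟨.ofNat 1861056, .ofNat 0⟩⟩ ⟨.ofNat 775, .ofNat 0⟩ ⟨.ofNat 1536, .ofNat 0⟩ ⟨.ofNat 1, .ofNat 0⟩ 0 (.leaf 7 [64, 9, 64, 0]) (.leaf 6 [16, 0, 0])) (.leaf 6 [43, 0, 0])) (.s13 ⟨⟨.ofNat 30475, .ofNat 0⟩, ⟨.ofNat 34500, .ofNat 0⟩, ⟨.ofNat 16083, .ofNat 0⟩, ⟨.ofNat 11517,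 .ofNat 0⟩⟩ ⟨.ofNat 4, .ofNat 0⟩ ⟨.ofNat 5, .ofNat 0⟩ ⟨.ofNat 1, .ofNat 0⟩ 27 (.s23 ⟨⟨.ofNat 11385, .ofNat 0⟩, ⟨.ofNat 13225, .ofNat 0⟩, ⟨.ofNat 6641, .ofNat 0⟩, ⟨.ofNat 3939, .ofNat 0⟩⟩ ⟨.ofNat 23, .ofNat 0⟩ ⟨.ofNat 7, .ofNat 0⟩ ⟨.ofNat 5, .ofNat 0⟩ 27 (.leaf 7 [64, 9, 64, 0]) (.leaf 7 [43, 64, 0])) (.leaf 7 [0, 9, 64, 0])))) (.s13 ⟨⟨.ofNat 30475, .ofNat 0⟩, ⟨.ofNat 34500, .ofNat 0⟩, ⟨.ofNat 16083, .ofNat 0⟩, ⟨.ofNat 11517, .ofNat 0⟩⟩ ⟨.ofNat 4, .ofNat 0⟩ ⟨.ofNat 5, .ofNat 0⟩ ⟨.ofNat 1, .ofNat 0⟩ 27 (.s03 ⟨⟨.ofNat 2875, .ofNat 0⟩, ⟨.ofNat 2875, .ofNat 0⟩, ⟨.ofNat 1286, .ofNat 0⟩, ⟨.ofNat 1014, .ofNat 0⟩⟩ ⟨.ofNat 1, .ofNat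 0⟩ ⟨.ofNat 2, .ofNat 0⟩ ⟨.ofNat 9, .ofNat 0⟩ 0 (.leaf 8 [64, 3, 64, 0]) (.s02 ⟨⟨.ofNat 22235, .ofNat 0⟩, ⟨.ofNat 23385, .ofNat 0⟩, ⟨.ofNat 10926, .ofNat 0⟩, ⟨.ofNat 7284, .ofNat 0⟩⟩ ⟨.ofNat 607, .ofNat 0⟩ ⟨.ofNat 211, .ofNat 0⟩ ⟨.ofNat 1240, .ofNat 0⟩ 26 (.leaf 8 [38, 0]) (.leaf 9 [4]))) (.s02 ⟨⟨.ofNat 22235, .ofNat 0⟩, ⟨.ofNat 23385, .ofNat 0⟩, ⟨.ofNat 10926, .ofNat 0⟩, ⟨.ofNat 7284, .ofNat 0⟩⟩ ⟨.ofNat 607, .ofNat 0⟩ ⟨.ofNat 211, .ofNat 0⟩ ⟨.ofNat 1240, .ofNat 0⟩ 26 (.leaf 8 [18, 0, 64, 0]) (.leaf 9 [32, 0, 16])))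

theorem g25 : Good (PE lin H) ⟨⟨.ofNat 20125, .ofNat 0⟩, ⟨.ofNat 21275, .ofNat 0⟩, ⟨.ofNat 8816, .ofNat 0⟩, ⟨.ofNat 7284, .ofNat 0⟩⟩
    ⟨⟨.ofNat 4025, .ofNat 0⟩, ⟨.ofNat 5750, .ofNat 0⟩, ⟨.ofNat 2297, .ofNat 0⟩, ⟨.ofNat 1728, .ofNat 0⟩⟩
    ⟨⟨.ofNat 1, .ofNat 0⟩, ⟨.ofNat 1, .ofNat 0⟩, ⟨.ofNat 1, .ofNat 0⟩, ⟨.ofNat 0, .ofNat 0⟩⟩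
    ⟨⟨.ofNat 2875, .ofNat 0⟩, ⟨.ofNat 2300, .ofNat 0⟩, ⟨.ofNat 1379, .ofNat 0⟩, ⟨.ofNat 921, .ofNat 0⟩⟩ :=
  goodE lin H t25 26 30 0 2 (by decide +kernel)

end

end Pool.Agent.PHCert.E5
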