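import Pool.Agent.PHCert.E5H

/-!
# PHCert: inequality E5, part 5 (85 leaves, checked by the kernel)
-/

set_option autoImplicit false

namespace Pool.Agent.PHCert.E5

open Zp Pool.Agent.PHCert

noncomputable section

/-- part of a tree -/
def t26_0 : Tree := .s23 ⟨⟨.ofNat 3952, .ofNat 0⟩, ⟨.ofNat 3377, .ofNat 0⟩, ⟨.ofNat 2456, .ofNat 0⟩, ⟨.ofNat 921, .ofNat 0⟩⟩ ⟨.ofNat 1077, .ofNat 0⟩ ⟨.ofNat 1, .ofNat 0⟩ ⟨.ofNat 1, .ofNat 0⟩ 1 (.s02 ⟨⟨.ofNat 1755130, .ofNat 0⟩, ⟨.ofNat 1228591, .ofNat 0⟩, ⟨.ofNat 840232, .ofNat 0⟩, ⟨.ofNat 388359, .ofNat 0⟩⟩ ⟨.ofNat 6106, .ofNat 0⟩ ⟨.ofNat 183, .ofNat 0⟩ ⟨.ofNat 1, .ofNat 0⟩ 4 (.leaf 6 [14, 64, 0, 64, 17, 0])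 (.s01 ⟨⟨.ofNat 16000, .ofNat 0⟩, ⟨.ofNat 12725, .ofNat 0⟩, ⟨.ofNat 7168, .ofNat 0⟩, ⟨.ofNat 4032, .ofNat 0⟩⟩ ⟨.ofNat 32525, .ofNat 0⟩ ⟨.ofNat 61, .ofNat 0⟩ ⟨.ofNat 621, .ofNat 0⟩ 2 (.leaf 6 [0, 64, 8, 64, 64, 0]) (.s03 ⟨⟨.ofNat 1012000, .ofNat 0⟩, ⟨.ofNat 708400, .ofNat 0⟩, ⟨.ofNat 436357, .ofNat 0⟩, ⟨.ofNat 272043, .ofNat 0⟩⟩ ⟨.ofNat 2875, .ofNat 0⟩ ⟨.ofNat 183, .ofNat 0⟩ ⟨.ofNat 1, .ofNat 0⟩ 4 (.s23 ⟨⟨.ofNat 115321250, .ofNat 0⟩, ⟨.ofNat 86342975, .ofNat 0⟩, ⟨.ofNat 55259504, .ofNat 0⟩, ⟨.ofNat 31083471, .ofNat 0⟩⟩ ⟨.ofNat 775, .ofNat 0⟩ ⟨.ofNat 449448, .ofNat 0⟩ ⟨.ofNat 23, .ofNat 0⟩ 3 (.leaf 7 [13, 64, 64, 0]) (.s02 ⟨⟨.ofNat 250, .ofNat 0⟩,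 ⟨.ofNat 175, .ofNat 0⟩, ⟨.ofNat 112, .ofNat 0⟩, ⟨.ofNat 63, .ofNat 0⟩⟩ ⟨.ofNat 2456, .ofNat 0⟩ ⟨.ofNat 775, .ofNat 0⟩ ⟨.ofNat 15382791, .ofNat 0⟩ 4 (.leaf 6 [23, 0]) (.leaf 7 [10, 64, 64]))) (.s23 ⟨⟨.ofNat 250, .ofNat 0⟩, ⟨.ofNat 175, .ofNat 0⟩, ⟨.ofNat 112, .ofNat 0⟩, ⟨.ofNat 63, .ofNat 0⟩⟩ ⟨.ofNat 775, .ofNat 0⟩ ⟨.ofNat 2456, .ofNat 0⟩ ⟨.ofNat 15382791, .ofNat 0⟩ 4 (.leaf 7 [64, 64, 64, 10, 64, 64]) (.leaf 6 [64, 64, 61, 0]))))) (.s02 ⟨⟨.ofNat 230, .ofNat 0⟩, ⟨.ofNat 161, .ofNat 0⟩, ⟨.ofNat 125, .ofNat 0⟩, ⟨.ofNat 36, .ofNat 0⟩⟩ ⟨.ofNat 1, .ofNat 0⟩ ⟨.ofNat 61, .ofNat 0⟩ ⟨.ofNat 1, .ofNat 0⟩ 4 (.s12 ⟨⟨.ofNat 45301, .ofNat 0⟩, ⟨.ofNat 46451,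 .ofNat 0⟩, ⟨.ofNat 33992, .ofNat 0⟩, ⟨.ofNat 7284, .ofNat 0⟩⟩ ⟨.ofNat 1, .ofNat 0⟩ ⟨.ofNat 63128, .ofNat 0⟩ ⟨.ofNat 3, .ofNat 0⟩ 26 (.leaf 3 [37, 64]) (.s12 ⟨⟨.ofNat 30733, .ofNat 0⟩, ⟨.ofNat 31883, .ofNat 0⟩, ⟨.ofNat 19424, .ofNat 0⟩, ⟨.ofNat 7284, .ofNat 0⟩⟩ ⟨.ofNat 3, .ofNat 0⟩ ⟨.ofNat 4, .ofNat 0⟩ ⟨.ofNat 13, .ofNat 0⟩ 26 (.leaf 4 [29]) (.leaf 5 [15, 64, 0]))) (.s03 ⟨⟨.ofNat 1755130, .ofNat 0⟩, ⟨.ofNat 1228591, .ofNat 0⟩, ⟨.ofNat 840232, .ofNat 0⟩, ⟨.ofNat 388359, .ofNat 0⟩⟩ ⟨.ofNat 6106, .ofNat 0⟩ ⟨.ofNat 183, .ofNat 0⟩ ⟨.ofNat 1, .ofNat 0⟩ 4 (.leaf 5 [11, 64, 0]) (.s01 ⟨⟨.ofNat 16000, .ofNat 0⟩, ⟨.ofNat 12725, .ofNat 0⟩, ⟨.ofNat 7168, .ofNat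 0⟩, ⟨.ofNat 4032, .ofNat 0⟩⟩ ⟨.ofNat 32525, .ofNat 0⟩ ⟨.ofNat 61, .ofNat 0⟩ ⟨.ofNat 621, .ofNat 0⟩ 2 (.leaf 5 [5, 64, 0]) (.leaf 5 [64, 64, 59]))))

/-- part of a tree -/
def t26_2 : Tree := .s03 ⟨⟨.ofNat 1012000, .ofNat 0⟩, ⟨.ofNat 708400, .ofNat 0⟩, ⟨.ofNat 436357, .ofNat 0⟩, ⟨.ofNat 272043, .ofNat 0⟩⟩ ⟨.ofNat 2875, .ofNat 0⟩ ⟨.ofNat 183, .ofNat 0⟩ ⟨.ofNat 1, .ofNat 0⟩ 4 (.s01 ⟨⟨.ofNat 4111250, .ofNat 0⟩, ⟨.ofNat 3984750, .ofNat 0⟩, ⟨.ofNat 1794021, .ofNat 0⟩, ⟨.ofNat 1393779, .ofNat 0⟩⟩ ⟨.ofNat 1, .ofNat 0⟩ ⟨.ofNat 154, .ofNat 0⟩ ⟨.ofNat 1, .ofNat 0⟩ 0 (.s12 ⟨⟨.ofNat 2654000, .ofNat 0⟩, ⟨.ofNat 2700925, .ofNat 0⟩, ⟨.ofNat 1166592, .ofNat 0⟩,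 ⟨.ofNat 916608, .ofNat 0⟩⟩ ⟨.ofNat 112, .ofNat 0⟩ ⟨.ofNat 25, .ofNat 0⟩ ⟨.ofNat 1, .ofNat 0⟩ 26 (.leaf 8 [53, 0, 64, 64, 0]) (.s13 ⟨⟨.ofNat 2875, .ofNat 0⟩, ⟨.ofNat 2875, .ofNat 0⟩, ⟨.ofNat 1286, .ofNat 0⟩, ⟨.ofNat 1014, .ofNat 0⟩⟩ ⟨.ofNat 1, .ofNat 0⟩ ⟨.ofNat 2, .ofNat 0⟩ ⟨.ofNat 9, .ofNat 0⟩ 0 (.leaf 8 [48, 0, 0]) (.leaf 9 [25]))) (.s23 ⟨⟨.ofNat 8625, .ofNat 117135⟩, ⟨.ofNat 0, .ofNat 97845⟩, ⟨.negSucc 42454, .ofNat 84119⟩, ⟨.negSucc 97844, .ofNat 97845⟩⟩ ⟨.negSucc 457, .ofNat 463⟩ ⟨.ofNat 4661, .ofNat 629⟩ ⟨.ofNat 25, .ofNat 50⟩ 2 (.s13 ⟨⟨.negSucc 383744, .ofNat 2711260⟩, ⟨.ofNat 807414, .ofNat 1614828⟩, ⟨.negSucc 469091, .ofNat 1442202⟩, ⟨.ofNat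 0, .ofNat 807414⟩⟩ ⟨.ofNat 463, .ofNat 5⟩ ⟨.negSucc 196586, .ofNat 1000605⟩ ⟨.ofNat 575, .ofNat 575⟩ 1 (.leaf 7 [1]) (.s01 ⟨⟨.negSucc 3298334, .ofNat 6053330⟩, ⟨.ofNat 1091703, .ofNat 2183406⟩, ⟨.negSucc 1356683, .ofNat 2570529⟩, ⟨.ofNat 0, .ofNat 1091703⟩⟩ ⟨.negSucc 196586, .ofNat 1000605⟩ ⟨.ofNat 107729, .negSucc 56584⟩ ⟨.ofNat 88550, .ofNat 88550⟩ 4 (.leaf 7 [0]) (.leaf 7 [1]))) (.s02 ⟨⟨.ofNat 1190560, .ofNat 178560⟩, ⟨.ofNat 397035, .ofNat 397035⟩, ⟨.ofNat 436357, .ofNat 124992⟩, ⟨.ofNat 397035, .ofNat 0⟩⟩ ⟨.ofNat 5919, .ofNat 11209⟩ ⟨.ofNat 51144, .negSucc 5440⟩ ⟨.ofNat 4575, .ofNat 7625⟩ 4 (.leaf 7 [64, 64]) (.s01 ⟨⟨.negSucc 3298334, .ofNat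 6053330⟩, ⟨.ofNat 1091703, .ofNat 2183406⟩, ⟨.negSucc 1356683, .ofNat 2570529⟩, ⟨.ofNat 0, .ofNat 1091703⟩⟩ ⟨.negSucc 196586, .ofNat 1000605⟩ ⟨.ofNat 107729, .negSucc 56584⟩ ⟨.ofNat 88550, .ofNat 88550⟩ 4 (.leaf 7 []) (.leaf 7 []))))) (.s13 ⟨⟨.ofNat 4111250, .ofNat 0⟩, ⟨.ofNat 3984750, .ofNat 0⟩, ⟨.ofNat 1794021, .ofNat 0⟩, ⟨.ofNat 1393779, .ofNat 0⟩⟩ ⟨.ofNat 154, .ofNat 0⟩ ⟨.ofNat 1, .ofNat 0⟩ ⟨.ofNat 1, .ofNat 0⟩ 0 (.s01 ⟨⟨.ofNat 1276132000, .ofNat 0⟩, ⟨.ofNat 1039134250, .ofNat 0⟩, ⟨.ofNat 526657843, .ofNat 0⟩, ⟨.ofNat 366634557, .ofNat 0⟩⟩ ⟨.ofNat 3099250, .ofNat 0⟩ ⟨.ofNat 183, .ofNat 0⟩ ⟨.ofNat 1, .ofNat 0⟩ 2 (.s23 ⟨⟨.ofNat 1190560, .ofNat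 178560⟩, ⟨.ofNat 397035, .ofNat 397035⟩, ⟨.ofNat 436357, .ofNat 124992⟩, ⟨.ofNat 397035, .ofNat 0⟩⟩ ⟨.ofNat 51144, .negSucc 5440⟩ ⟨.ofNat 5919, .ofNat 11209⟩ ⟨.ofNat 4575, .ofNat 7625⟩ 4 (.s13 ⟨⟨.negSucc 3298334, .ofNat 6053330⟩, ⟨.ofNat 1091703, .ofNat 2183406⟩, ⟨.negSucc 1356683, .ofNat 2570529⟩, ⟨.ofNat 0, .ofNat 1091703⟩⟩ ⟨.ofNat 107729, .negSucc 56584⟩ ⟨.negSucc 196586, .ofNat 1000605⟩ ⟨.ofNat 88550, .ofNat 88550⟩ 4 (.leaf 7 [31]) (.leaf 7 [])) (.leaf 7 [64, 64])) (.leaf 7 [64, 64, 64, 13, 64, 64])) (.s01 ⟨⟨.ofNat 7084000, .ofNat 0⟩, ⟨.ofNat 5905825, .ofNat 0⟩, ⟨.ofNat 2901328, .ofNat 0⟩, ⟨.ofNat 2057472, .ofNat 0⟩⟩ ⟨.ofNat 20125, .ofNat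 0⟩ ⟨.ofNat 183, .ofNat 0⟩ ⟨.ofNat 1, .ofNat 0⟩ 2 (.s12 ⟨⟨.ofNat 2654000, .ofNat 0⟩, ⟨.ofNat 2700925, .ofNat 0⟩, ⟨.ofNat 1166592, .ofNat 0⟩, ⟨.ofNat 916608, .ofNat 0⟩⟩ ⟨.ofNat 112, .ofNat 0⟩ ⟨.ofNat 25, .ofNat 0⟩ ⟨.ofNat 1, .ofNat 0⟩ 26 (.leaf 8 [53, 64, 64]) (.leaf 9 [1, 0])) (.s03 ⟨⟨.ofNat 1276132000, .ofNat 0⟩, ⟨.ofNat 1039134250, .ofNat 0⟩, ⟨.ofNat 526657843, .ofNat 0⟩, ⟨.ofNat 366634557, .ofNat 0⟩⟩ ⟨.ofNat 3099250, .ofNat 0⟩ ⟨.ofNat 183, .ofNat 0⟩ ⟨.ofNat 1, .ofNat 0⟩ 2 (.leaf 8 [43, 0]) (.leaf 7 [64, 64, 36, 47, 0]))))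

/-- part of a tree -/
def t26_1 : Tree := .s02 ⟨⟨.ofNat 16000, .ofNat 0⟩, ⟨.ofNat 12725, .ofNat 0⟩, ⟨.ofNat 7168, .ofNat 0⟩, ⟨.ofNat 4032, .ofNat 0⟩⟩ ⟨.ofNat 32525, .ofNat 0⟩ ⟨.ofNat 61, .ofNat 0⟩ ⟨.ofNat 621, .ofNat 0⟩ 2 (.s12 ⟨⟨.ofNat 22235, .ofNat 0⟩, ⟨.ofNat 23385, .ofNat 0⟩, ⟨.ofNat 10926, .ofNat 0⟩, ⟨.ofNat 7284, .ofNat 0⟩⟩ ⟨.ofNat 607, .ofNat 0⟩ ⟨.ofNat 211, .ofNat 0⟩ ⟨.ofNat 1240, .ofNat 0⟩ 26 (.leaf 7 [7, 64, 1, 64, 64, 0]) (.s01 ⟨⟨.ofNat 2654000, .ofNat 0⟩, ⟨.ofNat 2700925, .ofNat 0⟩, ⟨.ofNat 1166592, .ofNat 0⟩, ⟨.ofNat 916608, .ofNat 0⟩⟩ ⟨.ofNat 25, .ofNat 0⟩ ⟨.ofNat 112, .ofNat 0⟩ ⟨.ofNat 1, .ofNat 0⟩ 26 (.s13 ⟨⟨.ofNat 2875, .ofNat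 0⟩, ⟨.ofNat 2875, .ofNat 0⟩, ⟨.ofNat 1286, .ofNat 0⟩, ⟨.ofNat 1014, .ofNat 0⟩⟩ ⟨.ofNat 1, .ofNat 0⟩ ⟨.ofNat 2, .ofNat 0⟩ ⟨.ofNat 9, .ofNat 0⟩ 0 (.leaf 8 [0, 48, 0, 0]) (.leaf 9 [37, 0])) (.leaf 8 [0, 53, 0, 64, 64, 0]))) t26_2

/-- part of a tree -/
def t26 : Tree := .s12 ⟨⟨.ofNat 72775, .ofNat 0⟩, ⟨.ofNat 76225, .ofNat 0⟩, ⟨.ofNat 38848, .ofNat 0⟩, ⟨.ofNat 21852, .ofNat 0⟩⟩ ⟨.ofNat 3, .ofNat 0⟩ ⟨.ofNat 12400, .ofNat 0⟩ ⟨.ofNat 1, .ofNat 0⟩ 26 t26_0 t26_1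

theorem g26 : Good (PE lin H) ⟨⟨.ofNat 169, .ofNat 0⟩, ⟨.ofNat 100, .ofNat 0⟩, ⟨.ofNat 64, .ofNat 0⟩, ⟨.ofNat 36, .ofNat 0⟩⟩
    ⟨⟨.ofNat 20125, .ofNat 0⟩, ⟨.ofNat 21275, .ofNat 0⟩, ⟨.ofNat 8816, .ofNat 0⟩, ⟨.ofNat 7284, .ofNat 0⟩⟩
    ⟨⟨.ofNat 1, .ofNat 0⟩, ⟨.ofNat 1, .ofNat 0⟩, ⟨.ofNat 1, .ofNat 0⟩, ⟨.ofNat 0, .ofNat 0⟩⟩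
    ⟨⟨.ofNat 2875, .ofNat 0⟩, ⟨.ofNat 2300, .ofNat 0⟩, ⟨.ofNat 1379, .ofNat 0⟩, ⟨.ofNat 921, .ofNat 0⟩⟩ :=
  goodE lin H t26 8 26 0 2 (by decide +kernel)

/-- part of a tree -/
def t27_0 : Tree := .s23 ⟨⟨.ofNat 1012000, .ofNat 0⟩, ⟨.ofNat 708400, .ofNat 0⟩, ⟨.ofNat 436357, .ofNat 0⟩, ⟨.ofNat 272043, .ofNat 0⟩⟩ ⟨.ofNat 2875, .ofNat 0⟩ ⟨.ofNat 183, .ofNat 0⟩ ⟨.ofNat 1, .ofNat 0⟩ 4 (.s12 ⟨⟨.ofNat 4111250, .ofNat 0⟩, ⟨.ofNat 3984750, .ofNat 0⟩, ⟨.ofNat 1794021, .ofNat 0⟩, ⟨.ofNat 1393779, .ofNat 0⟩⟩ ⟨.ofNat 154, .ofNat 0⟩ ⟨.ofNat 1, .ofNat 0⟩ ⟨.ofNat 1, .ofNat 0⟩ 0 (.s01 ⟨⟨.ofNat 9486160, .negSucc 1582589⟩, ⟨.ofNat 2218587, .ofNat 2218587⟩, ⟨.ofNat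 3183642, .negSucc 176420⟩, ⟨.ofNat 2218587, .ofNat 0⟩⟩ ⟨.negSucc 196586, .ofNat 1000605⟩ ⟨.ofNat 1159, .ofNat 590⟩ ⟨.ofNat 575, .ofNat 1150⟩ 2 (.s13 ⟨⟨.negSucc 383744, .ofNat 2711260⟩, ⟨.ofNat 807414, .ofNat 1614828⟩, ⟨.negSucc 469091, .ofNat 1442202⟩, ⟨.ofNat 0, .ofNat 807414⟩⟩ ⟨.ofNat 463, .ofNat 5⟩ ⟨.negSucc 196586, .ofNat 1000605⟩ ⟨.ofNat 575, .ofNat 575⟩ 1 (.leaf 7 [0]) (.s12 ⟨⟨.negSucc 3298334, .ofNat 6053330⟩, ⟨.ofNat 1091703, .ofNat 2183406⟩, ⟨.negSucc 1356683, .ofNat 2570529⟩, ⟨.ofNat 0, .ofNat 1091703⟩⟩ ⟨.ofNat 107729, .negSucc 56584⟩ ⟨.negSucc 196586, .ofNat 1000605⟩ ⟨.ofNat 88550, .ofNat 88550⟩ 4 (.leaf 7 [0]) (.leaf 7 [0]))) (.leaf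 7 [0])) (.s01 ⟨⟨.negSucc 12359, .ofNat 47155⟩, ⟨.ofNat 12948, .ofNat 25896⟩, ⟨.negSucc 2603, .ofNat 18069⟩, ⟨.ofNat 0, .ofNat 12948⟩⟩ ⟨.ofNat 6707, .negSucc 576⟩ ⟨.negSucc 568, .ofNat 1159⟩ ⟨.ofNat 0, .ofNat 575⟩ 1 (.s13 ⟨⟨.ofNat 2875, .ofNat 0⟩, ⟨.ofNat 2875, .ofNat 0⟩, ⟨.ofNat 1286, .ofNat 0⟩, ⟨.ofNat 1014, .ofNat 0⟩⟩ ⟨.ofNat 1, .ofNat 0⟩ ⟨.ofNat 2, .ofNat 0⟩ ⟨.ofNat 9, .ofNat 0⟩ 0 (.leaf 8 [2, 64]) (.leaf 9 [9, 64])) (.leaf 8 [16, 0]))) (.s13 ⟨⟨.ofNat 4111250, .ofNat 0⟩, ⟨.ofNat 3984750, .ofNat 0⟩, ⟨.ofNat 1794021, .ofNat 0⟩, ⟨.ofNat 1393779, .ofNat 0⟩⟩ ⟨.ofNat 154, .ofNat 0⟩ ⟨.ofNat 1, .ofNat 0⟩ ⟨.ofNat 1, .ofNat 0⟩ 0 (.s12 ⟨⟨.ofNat 1276132000,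 .ofNat 0⟩, ⟨.ofNat 1039134250, .ofNat 0⟩, ⟨.ofNat 526657843, .ofNat 0⟩, ⟨.ofNat 366634557, .ofNat 0⟩⟩ ⟨.ofNat 183, .ofNat 0⟩ ⟨.ofNat 3099250, .ofNat 0⟩ ⟨.ofNat 1, .ofNat 0⟩ 2 (.leaf 7 [64, 64, 63, 28, 64, 64, 0]) (.s01 ⟨⟨.ofNat 9486160, .negSucc 1582589⟩, ⟨.ofNat 2218587, .ofNat 2218587⟩, ⟨.ofNat 3183642, .negSucc 176420⟩, ⟨.ofNat 2218587, .ofNat 0⟩⟩ ⟨.negSucc 196586, .ofNat 1000605⟩ ⟨.ofNat 1159, .ofNat 590⟩ ⟨.ofNat 575, .ofNat 1150⟩ 2 (.s13 ⟨⟨.negSucc 3298334, .ofNat 6053330⟩, ⟨.ofNat 1091703, .ofNat 2183406⟩, ⟨.negSucc 1356683, .ofNat 2570529⟩, ⟨.ofNat 0, .ofNat 1091703⟩⟩ ⟨.ofNat 107729, .negSucc 56584⟩ ⟨.negSucc 196586, .ofNat 1000605⟩ ⟨.ofNat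 88550, .ofNat 88550⟩ 4 (.leaf 7 [31]) (.leaf 7 [])) (.leaf 7 [36, 0]))) (.s12 ⟨⟨.ofNat 7084000, .ofNat 0⟩, ⟨.ofNat 5905825, .ofNat 0⟩, ⟨.ofNat 2901328, .ofNat 0⟩, ⟨.ofNat 2057472, .ofNat 0⟩⟩ ⟨.ofNat 183, .ofNat 0⟩ ⟨.ofNat 20125, .ofNat 0⟩ ⟨.ofNat 1, .ofNat 0⟩ 2 (.s23 ⟨⟨.ofNat 1276132000, .ofNat 0⟩, ⟨.ofNat 1039134250, .ofNat 0⟩, ⟨.ofNat 526657843, .ofNat 0⟩, ⟨.ofNat 366634557, .ofNat 0⟩⟩ ⟨.ofNat 3099250, .ofNat 0⟩ ⟨.ofNat 183, .ofNat 0⟩ ⟨.ofNat 1, .ofNat 0⟩ 2 (.leaf 8 [16, 0]) (.leaf 8 [64, 64, 38, 27, 64, 64, 0])) (.s01 ⟨⟨.negSucc 12359, .ofNat 47155⟩, ⟨.ofNat 12948, .ofNat 25896⟩, ⟨.negSucc 2603, .ofNat 18069⟩, ⟨.ofNat 0, .ofNat 12948⟩⟩ ⟨.ofNat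 6707, .negSucc 576⟩ ⟨.negSucc 568, .ofNat 1159⟩ ⟨.ofNat 0, .ofNat 575⟩ 1 (.leaf 9 [5, 14]) (.leaf 8 [16, 0]))))

/-- part of a tree -/
def t27 : Tree := .s03 ⟨⟨.ofNat 5750, .ofNat 0⟩, ⟨.ofNat 4025, .ofNat 0⟩, ⟨.ofNat 2297, .ofNat 0⟩, ⟨.ofNat 1728, .ofNat 0⟩⟩ ⟨.ofNat 125, .ofNat 0⟩ ⟨.ofNat 4, .ofNat 0⟩ ⟨.ofNat 3, .ofNat 0⟩ 4 t27_0 (.s01 ⟨⟨.ofNat 40250, .ofNat 0⟩, ⟨.ofNat 35075, .ofNat 0⟩, ⟨.ofNat 14963, .ofNat 0⟩, ⟨.ofNat 13212, .ofNat 0⟩⟩ ⟨.ofNat 875, .ofNat 0⟩ ⟨.ofNat 4, .ofNat 0⟩ ⟨.ofNat 3, .ofNat 0⟩ 1 (.s12 ⟨⟨.ofNat 7084000, .ofNat 0⟩, ⟨.ofNat 5905825, .ofNat 0⟩, ⟨.ofNat 2901328, .ofNat 0⟩, ⟨.ofNat 2057472, .ofNat 0⟩⟩ ⟨.ofNat 183, .ofNat 0⟩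 ⟨.ofNat 20125, .ofNat 0⟩ ⟨.ofNat 1, .ofNat 0⟩ 2 (.s02 ⟨⟨.ofNat 81533, .ofNat 0⟩, ⟨.ofNat 55750, .ofNat 0⟩, ⟨.ofNat 30690, .ofNat 0⟩, ⟨.ofNat 20460, .ofNat 0⟩⟩ ⟨.ofNat 2, .ofNat 0⟩ ⟨.ofNat 971, .ofNat 0⟩ ⟨.ofNat 3, .ofNat 0⟩ 4 (.leaf 8 [64, 64, 38, 27, 64, 64, 0]) (.leaf 9 [64, 14, 64, 24])) (.s13 ⟨⟨.negSucc 12359, .ofNat 47155⟩, ⟨.ofNat 12948, .ofNat 25896⟩, ⟨.negSucc 2603, .ofNat 18069⟩, ⟨.ofNat 0, .ofNat 12948⟩⟩ ⟨.negSucc 568, .ofNat 1159⟩ ⟨.ofNat 6707, .negSucc 576⟩ ⟨.ofNat 0, .ofNat 575⟩ 1 (.leaf 9 [14, 24]) (.leaf 9 [5, 14]))) (.s03 ⟨⟨.ofNat 0, .ofNat 575⟩, ⟨.ofNat 575, .ofNat 0⟩, ⟨.ofNat 461, .negSucc 92⟩, ⟨.ofNat 114, .ofNat 93⟩⟩ ⟨.ofNat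 100, .ofNat 25⟩ ⟨.ofNat 0, .ofNat 1⟩ ⟨.ofNat 4, .ofNat 8⟩ 6 (.s12 ⟨⟨.ofNat 153245, .ofNat 0⟩, ⟨.ofNat 120700, .ofNat 0⟩, ⟨.ofNat 57288, .ofNat 0⟩, ⟨.ofNat 45012, .ofNat 0⟩⟩ ⟨.ofNat 8, .ofNat 0⟩ ⟨.ofNat 815, .ofNat 0⟩ ⟨.ofNat 3, .ofNat 0⟩ 2 (.leaf 8 [64, 64, 0, 57, 64, 0, 0]) (.leaf 9 [64, 17, 64])) (.s01 ⟨⟨.ofNat 0, .ofNat 4025⟩, ⟨.ofNat 7475, .negSucc 1724⟩, ⟨.ofNat 2669, .negSucc 371⟩, ⟨.ofNat 1356, .ofNat 372⟩⟩ ⟨.ofNat 700, .ofNat 175⟩ ⟨.ofNat 0, .ofNat 1⟩ ⟨.ofNat 4, .ofNat 8⟩ 4 (.s02 ⟨⟨.ofNat 95068, .ofNat 24933⟩, ⟨.ofNat 23400, .ofNat 41700⟩, ⟨.ofNat 20832, .ofNat 15624⟩, ⟨.ofNat 16368, .ofNat 12276⟩⟩ ⟨.ofNat 8, .ofNat 8⟩ ⟨.negSucc 42, .ofNat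 329⟩ ⟨.ofNat 0, .ofNat 1⟩ 4 (.s12 ⟨⟨.ofNat 153245, .ofNat 0⟩, ⟨.ofNat 120700, .ofNat 0⟩, ⟨.ofNat 57288, .ofNat 0⟩, ⟨.ofNat 45012, .ofNat 0⟩⟩ ⟨.ofNat 8, .ofNat 0⟩ ⟨.ofNat 815, .ofNat 0⟩ ⟨.ofNat 3, .ofNat 0⟩ 2 (.leaf 8 [64, 52, 0, 16, 64, 64, 0]) (.leaf 9 [64, 64, 13, 53])) (.leaf 9 [64, 64, 13, 53])) (.leaf 9 [0, 46, 2, 0, 0]))))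

theorem g27 : Good (PE lin H) ⟨⟨.ofNat 46, .ofNat 0⟩, ⟨.ofNat 23, .ofNat 0⟩, ⟨.ofNat 11, .ofNat 0⟩, ⟨.ofNat 12, .ofNat 0⟩⟩
    ⟨⟨.ofNat 20125, .ofNat 0⟩, ⟨.ofNat 21275, .ofNat 0⟩, ⟨.ofNat 8816, .ofNat 0⟩, ⟨.ofNat 7284, .ofNat 0⟩⟩
    ⟨⟨.ofNat 169, .ofNat 0⟩, ⟨.ofNat 100, .ofNat 0⟩, ⟨.ofNat 64, .ofNat 0⟩, ⟨.ofNat 36, .ofNat 0⟩⟩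
    ⟨⟨.ofNat 2875, .ofNat 0⟩, ⟨.ofNat 2300, .ofNat 0⟩, ⟨.ofNat 1379, .ofNat 0⟩, ⟨.ofNat 921, .ofNat 0⟩⟩ :=
  goodE lin H t27 10 26 8 2 (by decide +kernel)

/-- part of a tree -/
def t31_1 : Tree := .s23 ⟨⟨.ofNat 2112, .ofNat 0⟩, ⟨.ofNat 2687, .ofNat 0⟩, ⟨.ofNat 1536, .ofNat 0⟩, ⟨.ofNat 576, .ofNat 0⟩⟩ ⟨.ofNat 2311, .ofNat 0⟩ ⟨.ofNat 1, .ofNat 0⟩ ⟨.ofNat 3, .ofNat 0⟩ 28 (.s23 ⟨⟨.ofNat 1600, .ofNat 0⟩, ⟨.ofNat 2175, .ofNat 0⟩, ⟨.ofNat 1024, .ofNat 0⟩, ⟨.ofNat 576, .ofNat 0⟩⟩ ⟨.ofNat 775, .ofNat 0⟩ ⟨.ofNat 512, .ofNat 0⟩ ⟨.ofNat 2311, .ofNat 0⟩ 29 (.s01 ⟨⟨.ofNat 299425, .ofNat 0⟩, ⟨.ofNat 382000, .ofNat 0⟩, ⟨.ofNat 171136, .ofNat 0⟩, ⟨.ofNat 96264,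 .ofNat 0⟩⟩ ⟨.ofNat 61, .ofNat 0⟩ ⟨.ofNat 24475, .ofNat 0⟩ ⟨.ofNat 23, .ofNat 0⟩ 29 (.s12 ⟨⟨.ofNat 175, .ofNat 0⟩, ⟨.ofNat 250, .ofNat 0⟩, ⟨.ofNat 112, .ofNat 0⟩, ⟨.ofNat 63, .ofNat 0⟩⟩ ⟨.ofNat 775, .ofNat 0⟩ ⟨.ofNat 183, .ofNat 0⟩ ⟨.ofNat 2116, .ofNat 0⟩ 30 (.leaf 7 [0, 64, 44, 0]) (.leaf 7 [64, 64, 64, 0, 64, 44, 0])) (.leaf 7 [0, 7, 64, 64, 0])) (.s01 ⟨⟨.ofNat 299425, .ofNat 0⟩, ⟨.ofNat 382000, .ofNat 0⟩, ⟨.ofNat 171136, .ofNat 0⟩, ⟨.ofNat 96264, .ofNat 0⟩⟩ ⟨.ofNat 61, .ofNat 0⟩ ⟨.ofNat 24475, .ofNat 0⟩ ⟨.ofNat 23, .ofNat 0⟩ 29 (.s12 ⟨⟨.ofNat 154399, .ofNat 0⟩, ⟨.ofNat 220570, .ofNat 0⟩, ⟨.ofNat 107248, .ofNat 0⟩, ⟨.ofNat 47151, .ofNat 0⟩⟩ ⟨.ofNat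 2311, .ofNat 0⟩ ⟨.ofNat 183, .ofNat 0⟩ ⟨.ofNat 4, .ofNat 0⟩ 30 (.leaf 6 [29, 0, 0]) (.s13 ⟨⟨.ofNat 175, .ofNat 0⟩, ⟨.ofNat 250, .ofNat 0⟩, ⟨.ofNat 112, .ofNat 0⟩, ⟨.ofNat 63, .ofNat 0⟩⟩ ⟨.ofNat 775, .ofNat 0⟩ ⟨.ofNat 183, .ofNat 0⟩ ⟨.ofNat 2116, .ofNat 0⟩ 30 (.leaf 6 [50, 0]) (.leaf 6 [64, 64, 64, 49]))) (.leaf 6 [29, 0, 0]))) (.s12 ⟨⟨.ofNat 161, .ofNat 0⟩, ⟨.ofNat 230, .ofNat 0⟩, ⟨.ofNat 125, .ofNat 0⟩, ⟨.ofNat 36, .ofNat 0⟩⟩ ⟨.ofNat 1, .ofNat 0⟩ ⟨.ofNat 61, .ofNat 0⟩ ⟨.ofNat 1, .ofNat 0⟩ 30 (.s02 ⟨⟨.ofNat 45301, .ofNat 0⟩, ⟨.ofNat 46451, .ofNat 0⟩, ⟨.ofNat 33992, .ofNat 0⟩, ⟨.ofNat 7284, .ofNat 0⟩⟩ ⟨.ofNat 1, .ofNat 0⟩ ⟨.ofNat 63128, .ofNat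 0⟩ ⟨.ofNat 3, .ofNat 0⟩ 26 (.leaf 3 [64, 0, 64]) (.leaf 5 [64, 12, 0])) (.s01 ⟨⟨.ofNat 299425, .ofNat 0⟩, ⟨.ofNat 382000, .ofNat 0⟩, ⟨.ofNat 171136, .ofNat 0⟩, ⟨.ofNat 96264, .ofNat 0⟩⟩ ⟨.ofNat 61, .ofNat 0⟩ ⟨.ofNat 24475, .ofNat 0⟩ ⟨.ofNat 23, .ofNat 0⟩ 29 (.s02 ⟨⟨.ofNat 764561, .ofNat 0⟩, ⟨.ofNat 1008480, .ofNat 0⟩, ⟨.ofNat 481320, .ofNat 0⟩, ⟨.ofNat 224616, .ofNat 0⟩⟩ ⟨.ofNat 335, .ofNat 0⟩ ⟨.ofNat 246008, .ofNat 0⟩ ⟨.ofNat 183, .ofNat 0⟩ 29 (.s13 ⟨⟨.ofNat 154399, .ofNat 0⟩, ⟨.ofNat 220570, .ofNat 0⟩, ⟨.ofNat 107248, .ofNat 0⟩, ⟨.ofNat 47151, .ofNat 0⟩⟩ ⟨.ofNat 2311, .ofNat 0⟩ ⟨.ofNat 183, .ofNat 0⟩ ⟨.ofNat 4, .ofNat 0⟩ 30 (.leaf 5 [0]) (.leaf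 5 [64, 64, 39])) (.s03 ⟨⟨.ofNat 143994312, .ofNat 0⟩, ⟨.ofNat 183475937, .ofNat 0⟩, ⟨.ofNat 92413440, .ofNat 0⟩, ⟨.ofNat 43126272, .ofNat 0⟩⟩ ⟨.ofNat 264, .ofNat 0⟩ ⟨.ofNat 30751, .ofNat 0⟩ ⟨.ofNat 1, .ofNat 0⟩ 29 (.s13 ⟨⟨.ofNat 154399, .ofNat 0⟩, ⟨.ofNat 220570, .ofNat 0⟩, ⟨.ofNat 107248, .ofNat 0⟩, ⟨.ofNat 47151, .ofNat 0⟩⟩ ⟨.ofNat 2311, .ofNat 0⟩ ⟨.ofNat 183, .ofNat 0⟩ ⟨.ofNat 4, .ofNat 0⟩ 30 (.leaf 5 [22]) (.leaf 6 [64, 64, 64, 6])) (.leaf 6 [64, 64, 64, 6]))) (.s02 ⟨⟨.ofNat 11123503, .ofNat 0⟩, ⟨.ofNat 12793165, .ofNat 0⟩, ⟨.ofNat 6664860, .ofNat 0⟩, ⟨.ofNat 3110268, .ofNat 0⟩⟩ ⟨.ofNat 335, .ofNat 0⟩ ⟨.ofNat 55844, .ofNat 0⟩ ⟨.ofNat 3, .ofNat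 0⟩ 27 (.s12 ⟨⟨.ofNat 122731, .ofNat 0⟩, ⟨.ofNat 168080, .ofNat 0⟩, ⟨.ofNat 85568, .ofNat 0⟩, ⟨.ofNat 32088, .ofNat 0⟩⟩ ⟨.ofNat 29, .ofNat 0⟩ ⟨.ofNat 85568, .ofNat 0⟩ ⟨.ofNat 183, .ofNat 0⟩ 29 (.leaf 4 [64]) (.leaf 6 [29])) (.leaf 6 [29, 0]))))

/-- part of a tree -/
def t31_0 : Tree := .s02 ⟨⟨.ofNat 72775, .ofNat 0⟩, ⟨.ofNat 76225, .ofNat 0⟩, ⟨.ofNat 38848, .ofNat 0⟩, ⟨.ofNat 21852, .ofNat 0⟩⟩ ⟨.ofNat 3, .ofNat 0⟩ ⟨.ofNat 12400, .ofNat 0⟩ ⟨.ofNat 1, .ofNat 0⟩ 26 t31_1 (.s12 ⟨⟨.ofNat 299425, .ofNat 0⟩, ⟨.ofNat 382000, .ofNat 0⟩, ⟨.ofNat 171136, .ofNat 0⟩, ⟨.ofNat 96264, .ofNat 0⟩⟩ ⟨.ofNat 24475, .ofNat 0⟩ ⟨.ofNat 61, .ofNat 0⟩ ⟨.ofNat 23, .ofNat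 0⟩ 29 (.s01 ⟨⟨.ofNat 23398585, .ofNat 0⟩, ⟨.ofNat 27498270, .ofNat 0⟩, ⟨.ofNat 11936736, .ofNat 0⟩, ⟨.ofNat 7957824, .ofNat 0⟩⟩ ⟨.ofNat 2674, .ofNat 0⟩ ⟨.ofNat 211, .ofNat 0⟩ ⟨.ofNat 5, .ofNat 0⟩ 28 (.leaf 7 [0, 7, 64, 64, 0]) (.s02 ⟨⟨.ofNat 22235, .ofNat 0⟩, ⟨.ofNat 23385, .ofNat 0⟩, ⟨.ofNat 10926, .ofNat 0⟩, ⟨.ofNat 7284, .ofNat 0⟩⟩ ⟨.ofNat 607, .ofNat 0⟩ ⟨.ofNat 211, .ofNat 0⟩ ⟨.ofNat 1240, .ofNat 0⟩ 26 (.leaf 7 [0, 9, 64, 0]) (.leaf 9 [37, 0, 1]))) (.s02 ⟨⟨.ofNat 23398585, .ofNat 0⟩, ⟨.ofNat 27498270, .ofNat 0⟩, ⟨.ofNat 11936736, .ofNat 0⟩, ⟨.ofNat 7957824, .ofNat 0⟩⟩ ⟨.ofNat 2674, .ofNat 0⟩ ⟨.ofNat 211, .ofNat 0⟩ ⟨.ofNat 5, .ofNat 0⟩ 28 (.leaf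 7 [64, 64, 64, 0, 3, 64, 64, 0]) (.s01 ⟨⟨.ofNat 1630125, .ofNat 0⟩, ⟨.ofNat 1978000, .ofNat 0⟩, ⟨.ofNat 795376, .ofNat 0⟩, ⟨.ofNat 589224, .ofNat 0⟩⟩ ⟨.ofNat 61, .ofNat 0⟩ ⟨.ofNat 4025, .ofNat 0⟩ ⟨.ofNat 1, .ofNat 0⟩ 28 (.leaf 8 [64, 64, 64, 0, 0, 47, 0, 0]) (.leaf 9 [37, 0, 1]))))

/-- part of a tree -/
def t31 : Tree := .s12 ⟨⟨.ofNat 100, .ofNat 0⟩, ⟨.ofNat 169, .ofNat 0⟩, ⟨.ofNat 64, .ofNat 0⟩, ⟨.ofNat 36, .ofNat 0⟩⟩ ⟨.ofNat 3, .ofNat 0⟩ ⟨.ofNat 31, .ofNat 0⟩ ⟨.ofNat 1, .ofNat 0⟩ 34 t31_0 (.s01 ⟨⟨.ofNat 92575, .ofNat 0⟩, ⟨.ofNat 109250, .ofNat 0⟩, ⟨.ofNat 41039, .ofNat 0⟩, ⟨.ofNat 35436, .ofNat 0⟩⟩ ⟨.ofNat 4, .ofNat 0⟩ ⟨.ofNat 525, .ofNat 0⟩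 ⟨.ofNat 1, .ofNat 0⟩ 28 (.leaf 9 [64, 64, 64, 28, 2, 64, 64, 0]) (.s02 ⟨⟨.ofNat 1630125, .ofNat 0⟩, ⟨.ofNat 1978000, .ofNat 0⟩, ⟨.ofNat 795376, .ofNat 0⟩, ⟨.ofNat 589224, .ofNat 0⟩⟩ ⟨.ofNat 61, .ofNat 0⟩ ⟨.ofNat 4025, .ofNat 0⟩ ⟨.ofNat 1, .ofNat 0⟩ 28 (.leaf 8 [64, 64, 55, 0, 64, 64, 0]) (.leaf 9 [31, 0, 18])))

theorem g31 : Good (PE lin H) ⟨⟨.ofNat 20125, .ofNat 0⟩, ⟨.ofNat 21275, .ofNat 0⟩, ⟨.ofNat 8816, .ofNat 0⟩, ⟨.ofNat 7284, .ofNat 0⟩⟩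
    ⟨⟨.ofNat 23, .ofNat 0⟩, ⟨.ofNat 46, .ofNat 0⟩, ⟨.ofNat 11, .ofNat 0⟩, ⟨.ofNat 12, .ofNat 0⟩⟩
    ⟨⟨.ofNat 1, .ofNat 0⟩, ⟨.ofNat 1, .ofNat 0⟩, ⟨.ofNat 1, .ofNat 0⟩, ⟨.ofNat 0, .ofNat 0⟩⟩
    ⟨⟨.ofNat 4025, .ofNat 0⟩, ⟨.ofNat 5750, .ofNat 0⟩, ⟨.ofNat 2297, .ofNat 0⟩, ⟨.ofNat 1728, .ofNat 0⟩⟩ :=
  goodE lin H t31 26 36 0 30 (by decide +kernel)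

end

end Pool.Agent.PHCert.E5
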