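import Pool.Agent.PHCert.E5H

/-!
# PHCert: inequality E5, part 6 (77 leaves, checked by the kernel)
-/

set_option autoImplicit false

namespace Pool.Agent.PHCert.E5

open Zp Pool.Agent.PHCert

noncomputable section

/-- part of a tree -/
def t32_1 : Tree := .s03 ⟨⟨.ofNat 46500, .ofNat 0⟩, ⟨.ofNat 51659, .ofNat 0⟩, ⟨.ofNat 22320, .ofNat 0⟩, ⟨.ofNat 14880, .ofNat 0⟩⟩ ⟨.ofNat 211, .ofNat 0⟩ ⟨.ofNat 1, .ofNat 0⟩ ⟨.ofNat 1, .ofNat 0⟩ 27 (.s12 ⟨⟨.ofNat 1969835, .ofNat 0⟩, ⟨.ofNat 2463300, .ofNat 0⟩, ⟨.ofNat 1059126, .ofNat 0⟩, ⟨.ofNat 665184, .ofNat 0⟩⟩ ⟨.ofNat 6135, .ofNat 0⟩ ⟨.ofNat 61, .ofNat 0⟩ ⟨.ofNat 1, .ofNat 0⟩ 28 (.s13 ⟨⟨.ofNat 23439220,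 .ofNat 0⟩, ⟨.ofNat 28272975, .ofNat 0⟩, ⟨.ofNat 12067902, .ofNat 0⟩, ⟨.ofNat 8045268, .ofNat 0⟩⟩ ⟨.ofNat 211, .ofNat 0⟩ ⟨.ofNat 6135, .ofNat 0⟩ ⟨.ofNat 23, .ofNat 0⟩ 28 (.s03 ⟨⟨.ofNat 23250, .ofNat 0⟩, ⟨.ofNat 24875, .ofNat 0⟩, ⟨.ofNat 10416, .ofNat 0⟩, ⟨.ofNat 8184, .ofNat 0⟩⟩ ⟨.ofNat 25, .ofNat 0⟩ ⟨.ofNat 186, .ofNat 0⟩ ⟨.ofNat 211, .ofNat 0⟩ 26 (.s12 ⟨⟨.ofNat 13735, .ofNat 0⟩, ⟨.ofNat 15280, .ofNat 0⟩, ⟨.ofNat 6876, .ofNat 0⟩, ⟨.ofNat 4584, .ofNat 0⟩⟩ ⟨.ofNat 179, .ofNat 0⟩ ⟨.ofNat 291083, .ofNat 0⟩ ⟨.ofNat 776691, .ofNat 0⟩ 27 (.leaf 9 [64, 1]) (.s13 ⟨⟨.ofNat 96064675, .ofNat 0⟩, ⟨.ofNat 103458600, .ofNat 0⟩, ⟨.ofNat 43063374, .ofNat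 0⟩, ⟨.ofNat 34530576, .ofNat 0⟩⟩ ⟨.ofNat 115, .ofNat 0⟩ ⟨.ofNat 873249, .ofNat 0⟩ ⟨.ofNat 211, .ofNat 0⟩ 26 (.leaf 9 [64, 1]) (.leaf 8 []))) (.leaf 8 [16])) (.leaf 7 [12])) (.s13 ⟨⟨.ofNat 1630125, .ofNat 0⟩, ⟨.ofNat 1978000, .ofNat 0⟩, ⟨.ofNat 795376, .ofNat 0⟩, ⟨.ofNat 589224, .ofNat 0⟩⟩ ⟨.ofNat 4025, .ofNat 0⟩ ⟨.ofNat 61, .ofNat 0⟩ ⟨.ofNat 1, .ofNat 0⟩ 28 (.s23 ⟨⟨.ofNat 23439220, .ofNat 0⟩, ⟨.ofNat 28272975, .ofNat 0⟩, ⟨.ofNat 12067902, .ofNat 0⟩, ⟨.ofNat 8045268, .ofNat 0⟩⟩ ⟨.ofNat 211, .ofNat 0⟩ ⟨.ofNat 6135, .ofNat 0⟩ ⟨.ofNat 23, .ofNat 0⟩ 28 (.s03 ⟨⟨.ofNat 23250, .ofNat 0⟩, ⟨.ofNat 24875, .ofNat 0⟩, ⟨.ofNat 10416, .ofNat 0⟩, ⟨.ofNat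 8184, .ofNat 0⟩⟩ ⟨.ofNat 25, .ofNat 0⟩ ⟨.ofNat 186, .ofNat 0⟩ ⟨.ofNat 211, .ofNat 0⟩ 26 (.s13 ⟨⟨.ofNat 2210875, .ofNat 0⟩, ⟨.ofNat 2373600, .ofNat 0⟩, ⟨.ofNat 980112, .ofNat 0⟩, ⟨.ofNat 800088, .ofNat 0⟩⟩ ⟨.ofNat 1, .ofNat 0⟩ ⟨.ofNat 688, .ofNat 0⟩ ⟨.ofNat 7, .ofNat 0⟩ 26 (.s23 ⟨⟨.ofNat 96064675, .ofNat 0⟩, ⟨.ofNat 103458600, .ofNat 0⟩, ⟨.ofNat 43063374, .ofNat 0⟩, ⟨.ofNat 34530576, .ofNat 0⟩⟩ ⟨.ofNat 115, .ofNat 0⟩ ⟨.ofNat 873249, .ofNat 0⟩ ⟨.ofNat 211, .ofNat 0⟩ 26 (.leaf 9 [64, 3]) (.leaf 9 [])) (.leaf 9 [])) (.leaf 8 [])) (.leaf 8 [])) (.leaf 7 [64, 64, 64, 14, 64, 0]))) (.s12 ⟨⟨.ofNat 1969835, .ofNat 0⟩, ⟨.ofNat 2463300, .ofNat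 0⟩, ⟨.ofNat 1059126, .ofNat 0⟩, ⟨.ofNat 665184, .ofNat 0⟩⟩ ⟨.ofNat 6135, .ofNat 0⟩ ⟨.ofNat 61, .ofNat 0⟩ ⟨.ofNat 1, .ofNat 0⟩ 28 (.leaf 7 [64, 0, 31, 0]) (.leaf 7 [64, 64, 64, 14, 64, 0]))

/-- part of a tree -/
def t32_0 : Tree := .s23 ⟨⟨.ofNat 22235, .ofNat 0⟩, ⟨.ofNat 23385, .ofNat 0⟩, ⟨.ofNat 10926, .ofNat 0⟩, ⟨.ofNat 7284, .ofNat 0⟩⟩ ⟨.ofNat 1055, .ofNat 0⟩ ⟨.ofNat 16389, .ofNat 0⟩ ⟨.ofNat 23774, .ofNat 0⟩ 26 t32_1 (.s12 ⟨⟨.ofNat 828961, .ofNat 0⟩, ⟨.ofNat 1077480, .ofNat 0⟩, ⟨.ofNat 500484, .ofNat 0⟩, ⟨.ofNat 253752, .ofNat 0⟩⟩ ⟨.ofNat 75723, .ofNat 0⟩ ⟨.ofNat 61, .ofNat 0⟩ ⟨.ofNat 23, .ofNat 0⟩ 29 (.leaf 6 [64, 21, 0, 23, 0])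 (.s13 ⟨⟨.ofNat 1969835, .ofNat 0⟩, ⟨.ofNat 2463300, .ofNat 0⟩, ⟨.ofNat 1059126, .ofNat 0⟩, ⟨.ofNat 665184, .ofNat 0⟩⟩ ⟨.ofNat 6135, .ofNat 0⟩ ⟨.ofNat 61, .ofNat 0⟩ ⟨.ofNat 1, .ofNat 0⟩ 28 (.leaf 7 [64, 0, 25, 0]) (.leaf 6 [64, 64, 64, 64, 14])))

/-- part of a tree -/
def t32_3 : Tree := .s13 ⟨⟨.ofNat 46500, .ofNat 0⟩, ⟨.ofNat 51659, .ofNat 0⟩, ⟨.ofNat 22320, .ofNat 0⟩, ⟨.ofNat 14880, .ofNat 0⟩⟩ ⟨.ofNat 211, .ofNat 0⟩ ⟨.ofNat 1, .ofNat 0⟩ ⟨.ofNat 1, .ofNat 0⟩ 27 (.s02 ⟨⟨.ofNat 8539900, .ofNat 0⟩, ⟨.ofNat 6924955, .ofNat 0⟩, ⟨.ofNat 3692578, .ofNat 0⟩, ⟨.ofNat 2285352, .ofNat 0⟩⟩ ⟨.ofNat 26455, .ofNat 0⟩ ⟨.ofNat 183, .ofNat 0⟩ ⟨.ofNat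 1, .ofNat 0⟩ 2 (.s03 ⟨⟨.ofNat 940200125, .ofNat 0⟩, ⟨.ofNat 948209775, .ofNat 0⟩, ⟨.ofNat 410813256, .ofNat 0⟩, ⟨.ofNat 322781844, .ofNat 0⟩⟩ ⟨.ofNat 500, .ofNat 0⟩ ⟨.ofNat 862343, .ofNat 0⟩ ⟨.ofNat 23, .ofNat 0⟩ 26 (.s13 ⟨⟨.ofNat 23250, .ofNat 0⟩, ⟨.ofNat 24875, .ofNat 0⟩, ⟨.ofNat 10416, .ofNat 0⟩, ⟨.ofNat 8184, .ofNat 0⟩⟩ ⟨.ofNat 25, .ofNat 0⟩ ⟨.ofNat 186, .ofNat 0⟩ ⟨.ofNat 211, .ofNat 0⟩ 26 (.leaf 9 [32, 64, 0]) (.leaf 8 [0, 32])) (.leaf 8 [0, 60, 0, 64])) (.s03 ⟨⟨.ofNat 7084000, .ofNat 0⟩, ⟨.ofNat 5905825, .ofNat 0⟩, ⟨.ofNat 2901328, .ofNat 0⟩, ⟨.ofNat 2057472, .ofNat 0⟩⟩ ⟨.ofNat 20125, .ofNat 0⟩ ⟨.ofNat 183, .ofNat 0⟩ ⟨.ofNat 1,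 .ofNat 0⟩ 2 (.s23 ⟨⟨.ofNat 940200125, .ofNat 0⟩, ⟨.ofNat 948209775, .ofNat 0⟩, ⟨.ofNat 410813256, .ofNat 0⟩, ⟨.ofNat 322781844, .ofNat 0⟩⟩ ⟨.ofNat 500, .ofNat 0⟩ ⟨.ofNat 862343, .ofNat 0⟩ ⟨.ofNat 23, .ofNat 0⟩ 26 (.s13 ⟨⟨.ofNat 23250, .ofNat 0⟩, ⟨.ofNat 24875, .ofNat 0⟩, ⟨.ofNat 10416, .ofNat 0⟩, ⟨.ofNat 8184, .ofNat 0⟩⟩ ⟨.ofNat 25, .ofNat 0⟩ ⟨.ofNat 186, .ofNat 0⟩ ⟨.ofNat 211, .ofNat 0⟩ 26 (.leaf 9 [64, 1, 0]) (.leaf 8 [41, 0])) (.leaf 8 [60, 0, 64])) (.s01 ⟨⟨.ofNat 5456000, .ofNat 0⟩, ⟨.ofNat 4701199, .ofNat 0⟩, ⟨.ofNat 2353520, .ofNat 0⟩, ⟨.ofNat 1465680, .ofNat 0⟩⟩ ⟨.ofNat 15500, .ofNat 0⟩ ⟨.ofNat 61, .ofNat 0⟩ ⟨.ofNat 1, .ofNat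 0⟩ 1 (.leaf 7 [55, 0, 64, 64]) (.leaf 7 [64, 64, 29, 64, 0])))) (.s02 ⟨⟨.ofNat 8539900, .ofNat 0⟩, ⟨.ofNat 6924955, .ofNat 0⟩, ⟨.ofNat 3692578, .ofNat 0⟩, ⟨.ofNat 2285352, .ofNat 0⟩⟩ ⟨.ofNat 26455, .ofNat 0⟩ ⟨.ofNat 183, .ofNat 0⟩ ⟨.ofNat 1, .ofNat 0⟩ 2 (.s01 ⟨⟨.ofNat 665383675, .ofNat 0⟩, ⟨.ofNat 673305680, .ofNat 0⟩, ⟨.ofNat 318921216, .ofNat 0⟩, ⟨.ofNat 186058044, .ofNat 0⟩⟩ ⟨.ofNat 32, .ofNat 0⟩ ⟨.ofNat 3136855, .ofNat 0⟩ ⟨.ofNat 1, .ofNat 0⟩ 26 (.leaf 7 [29, 64, 0, 43, 0]) (.leaf 7 [0, 55, 0, 64, 64])) (.s03 ⟨⟨.ofNat 5456000, .ofNat 0⟩, ⟨.ofNat 4701199, .ofNat 0⟩, ⟨.ofNat 2353520, .ofNat 0⟩, ⟨.ofNat 1465680, .ofNat 0⟩⟩ ⟨.ofNat 15500,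 .ofNat 0⟩ ⟨.ofNat 61, .ofNat 0⟩ ⟨.ofNat 1, .ofNat 0⟩ 1 (.s12 ⟨⟨.ofNat 665383675, .ofNat 0⟩, ⟨.ofNat 673305680, .ofNat 0⟩, ⟨.ofNat 318921216, .ofNat 0⟩, ⟨.ofNat 186058044, .ofNat 0⟩⟩ ⟨.ofNat 3136855, .ofNat 0⟩ ⟨.ofNat 32, .ofNat 0⟩ ⟨.ofNat 1, .ofNat 0⟩ 26 (.leaf 7 [55, 0, 64, 64]) (.leaf 7 [64, 17, 0, 0, 0])) (.s01 ⟨⟨.ofNat 1000, .ofNat 0⟩, ⟨.ofNat 883, .ofNat 0⟩, ⟨.ofNat 448, .ofNat 0⟩, ⟨.ofNat 252, .ofNat 0⟩⟩ ⟨.ofNat 125, .ofNat 0⟩ ⟨.ofNat 183, .ofNat 0⟩ ⟨.ofNat 44, .ofNat 0⟩ 1 (.s12 ⟨⟨.ofNat 665383675, .ofNat 0⟩, ⟨.ofNat 673305680, .ofNat 0⟩, ⟨.ofNat 318921216, .ofNat 0⟩, ⟨.ofNat 186058044, .ofNat 0⟩⟩ ⟨.ofNat 3136855, .ofNat 0⟩ ⟨.ofNat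 32, .ofNat 0⟩ ⟨.ofNat 1, .ofNat 0⟩ 26 (.leaf 7 [32, 0]) (.leaf 7 [64, 17, 0])) (.leaf 7 [64, 64, 38, 64, 0]))))

/-- part of a tree -/
def t32_2 : Tree := .s23 ⟨⟨.ofNat 22235, .ofNat 0⟩, ⟨.ofNat 23385, .ofNat 0⟩, ⟨.ofNat 10926, .ofNat 0⟩, ⟨.ofNat 7284, .ofNat 0⟩⟩ ⟨.ofNat 1055, .ofNat 0⟩ ⟨.ofNat 16389, .ofNat 0⟩ ⟨.ofNat 23774, .ofNat 0⟩ 26 t32_3 (.s02 ⟨⟨.ofNat 3582440, .ofNat 0⟩, ⟨.ofNat 2795933, .ofNat 0⟩, ⟨.ofNat 1658252, .ofNat 0⟩, ⟨.ofNat 849456, .ofNat 0⟩⟩ ⟨.ofNat 283519, .ofNat 0⟩ ⟨.ofNat 183, .ofNat 0⟩ ⟨.ofNat 23, .ofNat 0⟩ 3 (.s01 ⟨⟨.ofNat 320017205, .ofNat 0⟩, ⟨.ofNat 326066608, .ofNat 0⟩, ⟨.ofNat 158218176, .ofNat 0⟩, ⟨.ofNat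 86331780, .ofNat 0⟩⟩ ⟨.ofNat 32, .ofNat 0⟩ ⟨.ofNat 1643033, .ofNat 0⟩ ⟨.ofNat 1, .ofNat 0⟩ 26 (.leaf 6 [64, 64, 21, 0, 23, 0]) (.leaf 6 [18, 47, 44, 0])) (.s03 ⟨⟨.ofNat 8539900, .ofNat 0⟩, ⟨.ofNat 6924955, .ofNat 0⟩, ⟨.ofNat 3692578, .ofNat 0⟩, ⟨.ofNat 2285352, .ofNat 0⟩⟩ ⟨.ofNat 26455, .ofNat 0⟩ ⟨.ofNat 183, .ofNat 0⟩ ⟨.ofNat 1, .ofNat 0⟩ 2 (.s12 ⟨⟨.ofNat 320017205, .ofNat 0⟩, ⟨.ofNat 326066608, .ofNat 0⟩, ⟨.ofNat 158218176, .ofNat 0⟩, ⟨.ofNat 86331780, .ofNat 0⟩⟩ ⟨.ofNat 1643033, .ofNat 0⟩ ⟨.ofNat 32, .ofNat 0⟩ ⟨.ofNat 1, .ofNat 0⟩ 26 (.leaf 7 [0, 41, 21, 0]) (.s01 ⟨⟨.ofNat 665383675, .ofNat 0⟩, ⟨.ofNat 673305680, .ofNat 0⟩, ⟨.ofNat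 318921216, .ofNat 0⟩, ⟨.ofNat 186058044, .ofNat 0⟩⟩ ⟨.ofNat 32, .ofNat 0⟩ ⟨.ofNat 3136855, .ofNat 0⟩ ⟨.ofNat 1, .ofNat 0⟩ 26 (.leaf 7 [22, 64, 0, 46, 0]) (.leaf 7 [0, 15, 38, 0]))) (.s01 ⟨⟨.ofNat 1000, .ofNat 0⟩, ⟨.ofNat 883, .ofNat 0⟩, ⟨.ofNat 448, .ofNat 0⟩, ⟨.ofNat 252, .ofNat 0⟩⟩ ⟨.ofNat 125, .ofNat 0⟩ ⟨.ofNat 183, .ofNat 0⟩ ⟨.ofNat 44, .ofNat 0⟩ 1 (.s12 ⟨⟨.ofNat 320017205, .ofNat 0⟩, ⟨.ofNat 326066608, .ofNat 0⟩, ⟨.ofNat 158218176, .ofNat 0⟩, ⟨.ofNat 86331780, .ofNat 0⟩⟩ ⟨.ofNat 1643033, .ofNat 0⟩ ⟨.ofNat 32, .ofNat 0⟩ ⟨.ofNat 1, .ofNat 0⟩ 26 (.leaf 6 [49, 0]) (.s13 ⟨⟨.ofNat 665383675, .ofNat 0⟩, ⟨.ofNat 673305680, .ofNat 0⟩, ⟨.ofNat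 318921216, .ofNat 0⟩, ⟨.ofNat 186058044, .ofNat 0⟩⟩ ⟨.ofNat 3136855, .ofNat 0⟩ ⟨.ofNat 32, .ofNat 0⟩ ⟨.ofNat 1, .ofNat 0⟩ 26 (.leaf 7 [28, 0]) (.leaf 6 [64, 12]))) (.leaf 6 [64, 64, 50, 64, 0]))))

/-- part of a tree -/
def t32 : Tree := .s01 ⟨⟨.ofNat 125, .ofNat 0⟩, ⟨.ofNat 144, .ofNat 0⟩, ⟨.ofNat 64, .ofNat 0⟩, ⟨.ofNat 36, .ofNat 0⟩⟩ ⟨.ofNat 25, .ofNat 0⟩ ⟨.ofNat 44, .ofNat 0⟩ ⟨.ofNat 69, .ofNat 0⟩ 27 t32_0 t32_2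

theorem g32 : Good (PE lin H) ⟨⟨.ofNat 169, .ofNat 0⟩, ⟨.ofNat 100, .ofNat 0⟩, ⟨.ofNat 64, .ofNat 0⟩, ⟨.ofNat 36, .ofNat 0⟩⟩
    ⟨⟨.ofNat 100, .ofNat 0⟩, ⟨.ofNat 169, .ofNat 0⟩, ⟨.ofNat 64, .ofNat 0⟩, ⟨.ofNat 36, .ofNat 0⟩⟩
    ⟨⟨.ofNat 188423, .ofNat 0⟩, ⟨.ofNat 196473, .ofNat 0⟩, ⟨.ofNat 109260, .ofNat 0⟩, ⟨.ofNat 50988, .ofNat 0⟩⟩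
    ⟨⟨.ofNat 20125, .ofNat 0⟩, ⟨.ofNat 21275, .ofNat 0⟩, ⟨.ofNat 8816, .ofNat 0⟩, ⟨.ofNat 7284, .ofNat 0⟩⟩ :=
  goodE lin H t32 8 34 26 26 (by decide +kernel)

/-- part of a tree -/
def t33_1 : Tree := .s01 ⟨⟨.ofNat 30130, .ofNat 0⟩, ⟨.ofNat 37030, .ofNat 0⟩, ⟨.ofNat 17929, .ofNat 0⟩, ⟨.ofNat 7992, .ofNat 0⟩⟩ ⟨.ofNat 61, .ofNat 0⟩ ⟨.ofNat 161, .ofNat 0⟩ ⟨.ofNat 1, .ofNat 0⟩ 28 (.s13 ⟨⟨.ofNat 828961, .ofNat 0⟩, ⟨.ofNat 1077480, .ofNat 0⟩, ⟨.ofNat 500484, .ofNat 0⟩, ⟨.ofNat 253752, .ofNat 0⟩⟩ ⟨.ofNat 75723, .ofNat 0⟩ ⟨.ofNat 61, .ofNat 0⟩ ⟨.ofNat 23, .ofNat 0⟩ 29 (.leaf 5 [27, 0]) (.leaf 5 [64, 64, 43])) (.s02 ⟨⟨.ofNat 805, .ofNat 0⟩,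 ⟨.ofNat 759, .ofNat 0⟩, ⟨.ofNat 500, .ofNat 0⟩, ⟨.ofNat 144, .ofNat 0⟩⟩ ⟨.ofNat 7, .ofNat 0⟩ ⟨.ofNat 5, .ofNat 0⟩ ⟨.ofNat 3, .ofNat 0⟩ 0 (.s03 ⟨⟨.ofNat 2709813, .ofNat 0⟩, ⟨.ofNat 2691390, .ofNat 0⟩, ⟨.ofNat 1626760, .ofNat 0⟩, ⟨.ofNat 610035, .ofNat 0⟩⟩ ⟨.ofNat 6677, .ofNat 0⟩ ⟨.ofNat 29, .ofNat 0⟩ ⟨.ofNat 4, .ofNat 0⟩ 0 (.leaf 5 [56, 0]) (.s01 ⟨⟨.ofNat 650900, .ofNat 0⟩, ⟨.ofNat 725788, .ofNat 0⟩, ⟨.ofNat 394077, .ofNat 0⟩, ⟨.ofNat 150264, .ofNat 0⟩⟩ ⟨.ofNat 322, .ofNat 0⟩ ⟨.ofNat 13, .ofNat 0⟩ ⟨.ofNat 1, .ofNat 0⟩ 27 (.leaf 5 [56, 0]) (.leaf 4 [64, 9]))) (.s01 ⟨⟨.ofNat 2300, .ofNat 0⟩, ⟨.ofNat 2369, .ofNat 0⟩, ⟨.ofNat 1324, .ofNat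 0⟩, ⟨.ofNat 516, .ofNat 0⟩⟩ ⟨.ofNat 79, .ofNat 0⟩ ⟨.ofNat 1, .ofNat 0⟩ ⟨.ofNat 21, .ofNat 0⟩ 26 (.s23 ⟨⟨.ofNat 2709813, .ofNat 0⟩, ⟨.ofNat 2691390, .ofNat 0⟩, ⟨.ofNat 1626760, .ofNat 0⟩, ⟨.ofNat 610035, .ofNat 0⟩⟩ ⟨.ofNat 6677, .ofNat 0⟩ ⟨.ofNat 29, .ofNat 0⟩ ⟨.ofNat 4, .ofNat 0⟩ 0 (.leaf 5 [56, 0]) (.s12 ⟨⟨.ofNat 270365, .ofNat 0⟩, ⟨.ofNat 298399, .ofNat 0⟩, ⟨.ofNat 163968, .ofNat 0⟩, ⟨.ofNat 61488, .ofNat 0⟩⟩ ⟨.ofNat 116, .ofNat 0⟩ ⟨.ofNat 3383, .ofNat 0⟩ ⟨.ofNat 23, .ofNat 0⟩ 27 (.s02 ⟨⟨.ofNat 55, .ofNat 0⟩, ⟨.ofNat 56, .ofNat 0⟩, ⟨.ofNat 32, .ofNat 0⟩, ⟨.ofNat 12, .ofNat 0⟩⟩ ⟨.ofNat 29, .ofNat 0⟩ ⟨.ofNat 13, .ofNat 0⟩ ⟨.ofNat 1403,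 .ofNat 0⟩ 26 (.leaf 4 [19]) (.leaf 5 [6])) (.leaf 5 [56, 0]))) (.s23 ⟨⟨.ofNat 2709813, .ofNat 0⟩, ⟨.ofNat 2691390, .ofNat 0⟩, ⟨.ofNat 1626760, .ofNat 0⟩, ⟨.ofNat 610035, .ofNat 0⟩⟩ ⟨.ofNat 6677, .ofNat 0⟩ ⟨.ofNat 29, .ofNat 0⟩ ⟨.ofNat 4, .ofNat 0⟩ 0 (.s01 ⟨⟨.ofNat 18860, .ofNat 0⟩, ⟨.ofNat 18515, .ofNat 0⟩, ⟨.ofNat 10768, .ofNat 0⟩, ⟨.ofNat 4044, .ofNat 0⟩⟩ ⟨.ofNat 12, .ofNat 0⟩ ⟨.ofNat 7, .ofNat 0⟩ ⟨.ofNat 1, .ofNat 0⟩ 0 (.leaf 5 [27, 17]) (.leaf 5 [10])) (.s12 ⟨⟨.ofNat 55, .ofNat 0⟩, ⟨.ofNat 56, .ofNat 0⟩, ⟨.ofNat 32, .ofNat 0⟩, ⟨.ofNat 12, .ofNat 0⟩⟩ ⟨.ofNat 29, .ofNat 0⟩ ⟨.ofNat 13, .ofNat 0⟩ ⟨.ofNat 1403, .ofNat 0⟩ 26 (.leaf 4 [14,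 25]) (.s01 ⟨⟨.ofNat 18860, .ofNat 0⟩, ⟨.ofNat 18515, .ofNat 0⟩, ⟨.ofNat 10768, .ofNat 0⟩, ⟨.ofNat 4044, .ofNat 0⟩⟩ ⟨.ofNat 12, .ofNat 0⟩ ⟨.ofNat 7, .ofNat 0⟩ ⟨.ofNat 1, .ofNat 0⟩ 0 (.leaf 5 [28, 10]) (.leaf 4 [14, 25]))))))

/-- part of a tree -/
def t33_0 : Tree := .s12 ⟨⟨.ofNat 161, .ofNat 0⟩, ⟨.ofNat 230, .ofNat 0⟩, ⟨.ofNat 125, .ofNat 0⟩, ⟨.ofNat 36, .ofNat 0⟩⟩ ⟨.ofNat 1, .ofNat 0⟩ ⟨.ofNat 61, .ofNat 0⟩ ⟨.ofNat 1, .ofNat 0⟩ 30 (.s02 ⟨⟨.ofNat 115, .ofNat 0⟩, ⟨.ofNat 92, .ofNat 0⟩, ⟨.ofNat 80, .ofNat 0⟩, ⟨.ofNat 12, .ofNat 0⟩⟩ ⟨.ofNat 1, .ofNat 0⟩ ⟨.ofNat 115, .ofNat 0⟩ ⟨.ofNat 3, .ofNat 0⟩ 2 (.leaf 4 [64, 60, 64]) (.s01 ⟨⟨.ofNat 805,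 .ofNat 0⟩, ⟨.ofNat 759, .ofNat 0⟩, ⟨.ofNat 500, .ofNat 0⟩, ⟨.ofNat 144, .ofNat 0⟩⟩ ⟨.ofNat 7, .ofNat 0⟩ ⟨.ofNat 5, .ofNat 0⟩ ⟨.ofNat 3, .ofNat 0⟩ 0 (.leaf 4 [64, 60, 64]) (.s03 ⟨⟨.ofNat 32604685, .ofNat 0⟩, ⟨.ofNat 30249623, .ofNat 0⟩, ⟨.ofNat 18508400, .ofNat 0⟩, ⟨.ofNat 7575348, .ofNat 0⟩⟩ ⟨.ofNat 47548, .ofNat 0⟩ ⟨.ofNat 115, .ofNat 0⟩ ⟨.ofNat 1, .ofNat 0⟩ 0 (.leaf 4 [64]) (.leaf 4 [0])))) t33_1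

/-- part of a tree -/
def t33_2 : Tree := .s12 ⟨⟨.ofNat 30130, .ofNat 0⟩, ⟨.ofNat 37030, .ofNat 0⟩, ⟨.ofNat 17929, .ofNat 0⟩, ⟨.ofNat 7992, .ofNat 0⟩⟩ ⟨.ofNat 161, .ofNat 0⟩ ⟨.ofNat 61, .ofNat 0⟩ ⟨.ofNat 1, .ofNat 0⟩ 28 (.s01 ⟨⟨.ofNat 1519610, .ofNat 0⟩, ⟨.ofNat 1289610, .ofNat 0⟩, ⟨.ofNat 708023, .ofNat 0⟩, ⟨.ofNat 355704, .ofNat 0⟩⟩ ⟨.ofNat 16100, .ofNat 0⟩ ⟨.ofNat 61, .ofNat 0⟩ ⟨.ofNat 3, .ofNat 0⟩ 2 (.s12 ⟨⟨.ofNat 2300, .ofNat 0⟩, ⟨.ofNat 2369, .ofNat 0⟩, ⟨.ofNat 1324, .ofNat 0⟩, ⟨.ofNat 516, .ofNat 0⟩⟩ ⟨.ofNat 1, .ofNat 0⟩ ⟨.ofNat 79, .ofNat 0⟩ ⟨.ofNat 21, .ofNat 0⟩ 26 (.s12 ⟨⟨.ofNat 18860, .ofNat 0⟩, ⟨.ofNat 18515, .ofNat 0⟩,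 ⟨.ofNat 10768, .ofNat 0⟩, ⟨.ofNat 4044, .ofNat 0⟩⟩ ⟨.ofNat 7, .ofNat 0⟩ ⟨.ofNat 12, .ofNat 0⟩ ⟨.ofNat 1, .ofNat 0⟩ 0 (.leaf 5 [10]) (.leaf 5 [11, 18])) (.s01 ⟨⟨.ofNat 2279415, .ofNat 0⟩, ⟨.ofNat 2475260, .ofNat 0⟩, ⟨.ofNat 1245648, .ofNat 0⟩, ⟨.ofNat 577884, .ofNat 0⟩⟩ ⟨.ofNat 79, .ofNat 0⟩ ⟨.ofNat 6607, .ofNat 0⟩ ⟨.ofNat 140, .ofNat 0⟩ 27 (.leaf 5 [54, 0]) (.leaf 5 [11, 64, 18]))) (.s02 ⟨⟨.ofNat 67, .ofNat 0⟩, ⟨.ofNat 44, .ofNat 0⟩, ⟨.ofNat 32, .ofNat 0⟩, ⟨.ofNat 12, .ofNat 0⟩⟩ ⟨.ofNat 29, .ofNat 0⟩ ⟨.ofNat 32, .ofNat 0⟩ ⟨.ofNat 183, .ofNat 0⟩ 5 (.leaf 5 [64, 7]) (.s03 ⟨⟨.ofNat 3582440, .ofNat 0⟩, ⟨.ofNat 2795933, .ofNat 0⟩, ⟨.ofNat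 1658252, .ofNat 0⟩, ⟨.ofNat 849456, .ofNat 0⟩⟩ ⟨.ofNat 283519, .ofNat 0⟩ ⟨.ofNat 183, .ofNat 0⟩ ⟨.ofNat 23, .ofNat 0⟩ 3 (.leaf 5 [64, 7]) (.leaf 6 [64, 64, 33])))) (.s01 ⟨⟨.ofNat 1000, .ofNat 0⟩, ⟨.ofNat 883, .ofNat 0⟩, ⟨.ofNat 448, .ofNat 0⟩, ⟨.ofNat 252, .ofNat 0⟩⟩ ⟨.ofNat 100, .ofNat 0⟩ ⟨.ofNat 61, .ofNat 0⟩ ⟨.ofNat 23, .ofNat 0⟩ 1 (.s13 ⟨⟨.ofNat 828961, .ofNat 0⟩, ⟨.ofNat 1077480, .ofNat 0⟩, ⟨.ofNat 500484, .ofNat 0⟩, ⟨.ofNat 253752, .ofNat 0⟩⟩ ⟨.ofNat 75723, .ofNat 0⟩ ⟨.ofNat 61, .ofNat 0⟩ ⟨.ofNat 23, .ofNat 0⟩ 29 (.s01 ⟨⟨.ofNat 217454125, .ofNat 0⟩, ⟨.ofNat 235200422, .ofNat 0⟩, ⟨.ofNat 113558132, .ofNat 0⟩, ⟨.ofNat 60405168, .ofNat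 0⟩⟩ ⟨.ofNat 113834, .ofNat 0⟩ ⟨.ofNat 125, .ofNat 0⟩ ⟨.ofNat 1, .ofNat 0⟩ 26 (.leaf 6 [33, 0]) (.s02 ⟨⟨.ofNat 1610000, .ofNat 0⟩, ⟨.ofNat 1769137, .ofNat 0⟩, ⟨.ofNat 868972, .ofNat 0⟩, ⟨.ofNat 419028, .ofNat 0⟩⟩ ⟨.ofNat 1817, .ofNat 0⟩ ⟨.ofNat 100, .ofNat 0⟩ ⟨.ofNat 3, .ofNat 0⟩ 27 (.leaf 6 [33, 0]) (.leaf 6 [21, 64, 8]))) (.s01 ⟨⟨.ofNat 125, .ofNat 0⟩, ⟨.ofNat 144, .ofNat 0⟩, ⟨.ofNat 64, .ofNat 0⟩, ⟨.ofNat 36, .ofNat 0⟩⟩ ⟨.ofNat 1, .ofNat 0⟩ ⟨.ofNat 5, .ofNat 0⟩ ⟨.ofNat 12, .ofNat 0⟩ 27 (.leaf 6 [64, 64, 43]) (.s03 ⟨⟨.ofNat 217454125, .ofNat 0⟩, ⟨.ofNat 235200422, .ofNat 0⟩, ⟨.ofNat 113558132, .ofNat 0⟩, ⟨.ofNat 60405168, .ofNat 0⟩⟩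 ⟨.ofNat 113834, .ofNat 0⟩ ⟨.ofNat 125, .ofNat 0⟩ ⟨.ofNat 1, .ofNat 0⟩ 26 (.leaf 6 [56]) (.s02 ⟨⟨.ofNat 1610000, .ofNat 0⟩, ⟨.ofNat 1769137, .ofNat 0⟩, ⟨.ofNat 868972, .ofNat 0⟩, ⟨.ofNat 419028, .ofNat 0⟩⟩ ⟨.ofNat 1817, .ofNat 0⟩ ⟨.ofNat 100, .ofNat 0⟩ ⟨.ofNat 3, .ofNat 0⟩ 27 (.leaf 6 [56]) (.leaf 6 [64, 12]))))) (.s02 ⟨⟨.ofNat 1519610, .ofNat 0⟩, ⟨.ofNat 1289610, .ofNat 0⟩, ⟨.ofNat 708023, .ofNat 0⟩, ⟨.ofNat 355704, .ofNat 0⟩⟩ ⟨.ofNat 16100, .ofNat 0⟩ ⟨.ofNat 61, .ofNat 0⟩ ⟨.ofNat 3, .ofNat 0⟩ 2 (.s02 ⟨⟨.ofNat 2279415, .ofNat 0⟩, ⟨.ofNat 2475260, .ofNat 0⟩, ⟨.ofNat 1245648, .ofNat 0⟩, ⟨.ofNat 577884, .ofNat 0⟩⟩ ⟨.ofNat 79, .ofNat 0⟩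 ⟨.ofNat 6607, .ofNat 0⟩ ⟨.ofNat 140, .ofNat 0⟩ 27 (.s12 ⟨⟨.ofNat 1610000, .ofNat 0⟩, ⟨.ofNat 1769137, .ofNat 0⟩, ⟨.ofNat 868972, .ofNat 0⟩, ⟨.ofNat 419028, .ofNat 0⟩⟩ ⟨.ofNat 1817, .ofNat 0⟩ ⟨.ofNat 100, .ofNat 0⟩ ⟨.ofNat 3, .ofNat 0⟩ 27 (.leaf 5 [39, 0]) (.leaf 6 [21, 64, 8])) (.leaf 6 [16, 64, 18])) (.s03 ⟨⟨.ofNat 3582440, .ofNat 0⟩, ⟨.ofNat 2795933, .ofNat 0⟩, ⟨.ofNat 1658252, .ofNat 0⟩, ⟨.ofNat 849456, .ofNat 0⟩⟩ ⟨.ofNat 283519, .ofNat 0⟩ ⟨.ofNat 183, .ofNat 0⟩ ⟨.ofNat 23, .ofNat 0⟩ 3 (.leaf 6 [17, 64]) (.leaf 6 [64, 64, 37, 64]))))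

/-- part of a tree -/
def t33 : Tree := .s02 ⟨⟨.ofNat 230, .ofNat 0⟩, ⟨.ofNat 161, .ofNat 0⟩, ⟨.ofNat 125, .ofNat 0⟩, ⟨.ofNat 36, .ofNat 0⟩⟩ ⟨.ofNat 1, .ofNat 0⟩ ⟨.ofNat 61, .ofNat 0⟩ ⟨.ofNat 1, .ofNat 0⟩ 4 t33_0 t33_2

theorem g33 : Good (PE lin H) ⟨⟨.ofNat 169, .ofNat 0⟩, ⟨.ofNat 100, .ofNat 0⟩, ⟨.ofNat 64, .ofNat 0⟩, ⟨.ofNat 36, .ofNat 0⟩⟩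
    ⟨⟨.ofNat 100, .ofNat 0⟩, ⟨.ofNat 169, .ofNat 0⟩, ⟨.ofNat 64, .ofNat 0⟩, ⟨.ofNat 36, .ofNat 0⟩⟩
    ⟨⟨.ofNat 1, .ofNat 0⟩, ⟨.ofNat 1, .ofNat 0⟩, ⟨.ofNat 1, .ofNat 0⟩, ⟨.ofNat 0, .ofNat 0⟩⟩
    ⟨⟨.ofNat 188423, .ofNat 0⟩, ⟨.ofNat 196473, .ofNat 0⟩, ⟨.ofNat 109260, .ofNat 0⟩, ⟨.ofNat 50988, .ofNat 0⟩⟩ :=
  goodE lin H t33 8 34 0 26 (by decide +kernel)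

end

end Pool.Agent.PHCert.E5
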