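import Pool.Agent.PHCert.E5H

/-!
# PHCert: inequality E5, part 7 (84 leaves, checked by the kernel)
-/

set_option autoImplicit false

namespace Pool.Agent.PHCert.E5

open Zp Pool.Agent.PHCert

noncomputable section

/-- part of a tree -/
def t35_0 : Tree := .s13 ⟨⟨.ofNat 327188, .ofNat 0⟩, ⟨.ofNat 359925, .ofNat 0⟩, ⟨.ofNat 156240, .ofNat 0⟩, ⟨.ofNat 104160, .ofNat 0⟩⟩ ⟨.ofNat 211, .ofNat 0⟩ ⟨.ofNat 7, .ofNat 0⟩ ⟨.ofNat 1, .ofNat 0⟩ 27 (.s23 ⟨⟨.ofNat 7084000, .ofNat 0⟩, ⟨.ofNat 5905825, .ofNat 0⟩, ⟨.ofNat 2901328, .ofNat 0⟩, ⟨.ofNat 2057472, .ofNat 0⟩⟩ ⟨.ofNat 20125, .ofNat 0⟩ ⟨.ofNat 183, .ofNat 0⟩ ⟨.ofNat 1, .ofNat 0⟩ 2 (.s03 ⟨⟨.ofNat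 564098000, .ofNat 0⟩, ⟨.ofNat 502168775, .ofNat 0⟩, ⟨.ofNat 218546216, .ofNat 0⟩, ⟨.ofNat 176322384, .ofNat 0⟩⟩ ⟨.ofNat 2875, .ofNat 0⟩ ⟨.ofNat 12901, .ofNat 0⟩ ⟨.ofNat 1, .ofNat 0⟩ 1 (.s13 ⟨⟨.ofNat 162950, .ofNat 0⟩, ⟨.ofNat 173925, .ofNat 0⟩, ⟨.ofNat 72912, .ofNat 0⟩, ⟨.ofNat 57288, .ofNat 0⟩⟩ ⟨.ofNat 25, .ofNat 0⟩ ⟨.ofNat 1302, .ofNat 0⟩ ⟨.ofNat 211, .ofNat 0⟩ 26 (.leaf 9 [64, 1, 0]) (.leaf 8 [46, 0])) (.s01 ⟨⟨.ofNat 2988896000, .ofNat 0⟩, ⟨.ofNat 2730834275, .ofNat 0⟩, ⟨.ofNat 1216439504, .ofNat 0⟩, ⟨.ofNat 875787696, .ofNat 0⟩⟩ ⟨.ofNat 44812, .ofNat 0⟩ ⟨.ofNat 12901, .ofNat 0⟩ ⟨.ofNat 3, .ofNat 0⟩ 1 (.leaf 8 [46, 0]) (.leaf 8 [64, 64,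 34]))) (.s12 ⟨⟨.ofNat 112888000, .ofNat 0⟩, ⟨.ofNat 97234675, .ofNat 0⟩, ⟨.ofNat 48667696, .ofNat 0⟩, ⟨.ofNat 30353904, .ofNat 0⟩⟩ ⟨.ofNat 183, .ofNat 0⟩ ⟨.ofNat 313684, .ofNat 0⟩ ⟨.ofNat 1, .ofNat 0⟩ 1 (.leaf 7 [64, 64, 29, 64, 0]) (.s01 ⟨⟨.ofNat 2988896000, .ofNat 0⟩, ⟨.ofNat 2730834275, .ofNat 0⟩, ⟨.ofNat 1216439504, .ofNat 0⟩, ⟨.ofNat 875787696, .ofNat 0⟩⟩ ⟨.ofNat 44812, .ofNat 0⟩ ⟨.ofNat 12901, .ofNat 0⟩ ⟨.ofNat 3, .ofNat 0⟩ 1 (.leaf 8 [46, 0, 64, 57]) (.leaf 8 [64, 64, 35, 64, 50])))) (.s23 ⟨⟨.ofNat 112888000, .ofNat 0⟩, ⟨.ofNat 97234675, .ofNat 0⟩, ⟨.ofNat 48667696, .ofNat 0⟩, ⟨.ofNat 30353904, .ofNat 0⟩⟩ ⟨.ofNat 313684, .ofNat 0⟩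 ⟨.ofNat 183, .ofNat 0⟩ ⟨.ofNat 1, .ofNat 0⟩ 1 (.s03 ⟨⟨.ofNat 2988896000, .ofNat 0⟩, ⟨.ofNat 2730834275, .ofNat 0⟩, ⟨.ofNat 1216439504, .ofNat 0⟩, ⟨.ofNat 875787696, .ofNat 0⟩⟩ ⟨.ofNat 44812, .ofNat 0⟩ ⟨.ofNat 12901, .ofNat 0⟩ ⟨.ofNat 3, .ofNat 0⟩ 1 (.leaf 7 [17, 0, 33, 0]) (.s01 ⟨⟨.ofNat 118910, .ofNat 0⟩, ⟨.ofNat 110837, .ofNat 0⟩, ⟨.ofNat 50225, .ofNat 0⟩, ⟨.ofNat 33012, .ofNat 0⟩⟩ ⟨.ofNat 117, .ofNat 0⟩ ⟨.ofNat 12901, .ofNat 0⟩ ⟨.ofNat 200, .ofNat 0⟩ 0 (.leaf 7 [17, 0, 33, 0]) (.leaf 8 [64, 64, 8, 64, 9]))) (.s12 ⟨⟨.ofNat 1000, .ofNat 0⟩, ⟨.ofNat 883, .ofNat 0⟩, ⟨.ofNat 448, .ofNat 0⟩, ⟨.ofNat 252, .ofNat 0⟩⟩ ⟨.ofNat 61, .ofNat 0⟩ ⟨.ofNat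 273, .ofNat 0⟩ ⟨.ofNat 100, .ofNat 0⟩ 1 (.leaf 7 [64, 64, 38, 64, 0, 0]) (.s01 ⟨⟨.ofNat 118910, .ofNat 0⟩, ⟨.ofNat 110837, .ofNat 0⟩, ⟨.ofNat 50225, .ofNat 0⟩, ⟨.ofNat 33012, .ofNat 0⟩⟩ ⟨.ofNat 117, .ofNat 0⟩ ⟨.ofNat 12901, .ofNat 0⟩ ⟨.ofNat 200, .ofNat 0⟩ 0 (.leaf 7 [25, 0]) (.leaf 7 [64, 61, 18, 64, 0]))))

/-- part of a tree -/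
def t35 : Tree := .s01 ⟨⟨.ofNat 105901, .ofNat 0⟩, ⟨.ofNat 79200, .ofNat 0⟩, ⟨.ofNat 36456, .ofNat 0⟩, ⟨.ofNat 28644, .ofNat 0⟩⟩ ⟨.ofNat 1400, .ofNat 0⟩ ⟨.ofNat 47, .ofNat 0⟩ ⟨.ofNat 1, .ofNat 0⟩ 3 t35_0 (.s03 ⟨⟨.ofNat 40250, .ofNat 0⟩, ⟨.ofNat 35075, .ofNat 0⟩, ⟨.ofNat 14963, .ofNat 0⟩, ⟨.ofNat 13212, .ofNat 0⟩⟩ ⟨.ofNat 875, .ofNat 0⟩ ⟨.ofNat 4, .ofNat 0⟩ ⟨.ofNat 3, .ofNat 0⟩ 1 (.s23 ⟨⟨.ofNat 7084000, .ofNat 0⟩, ⟨.ofNat 5905825, .ofNat 0⟩, ⟨.ofNat 2901328, .ofNat 0⟩, ⟨.ofNat 2057472, .ofNat 0⟩⟩ ⟨.ofNat 20125, .ofNat 0⟩ ⟨.ofNat 183, .ofNat 0⟩ ⟨.ofNat 1, .ofNat 0⟩ 2 (.s13 ⟨⟨.ofNat 564098000, .ofNat 0⟩, ⟨.ofNat 502168775, .ofNat 0⟩, ⟨.ofNat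 218546216, .ofNat 0⟩, ⟨.ofNat 176322384, .ofNat 0⟩⟩ ⟨.ofNat 2875, .ofNat 0⟩ ⟨.ofNat 12901, .ofNat 0⟩ ⟨.ofNat 1, .ofNat 0⟩ 1 (.leaf 9 [3, 8]) (.leaf 9 [64, 64, 64, 1])) (.s02 ⟨⟨.ofNat 81533, .ofNat 0⟩, ⟨.ofNat 55750, .ofNat 0⟩, ⟨.ofNat 30690, .ofNat 0⟩, ⟨.ofNat 20460, .ofNat 0⟩⟩ ⟨.ofNat 2, .ofNat 0⟩ ⟨.ofNat 971, .ofNat 0⟩ ⟨.ofNat 3, .ofNat 0⟩ 4 (.leaf 8 [64, 64, 13, 64, 0]) (.leaf 9 [64, 63, 64, 0]))) (.s03 ⟨⟨.ofNat 0, .ofNat 4025⟩, ⟨.ofNat 7475, .negSucc 1724⟩, ⟨.ofNat 2669, .negSucc 371⟩, ⟨.ofNat 1356, .ofNat 372⟩⟩ ⟨.ofNat 700, .ofNat 175⟩ ⟨.ofNat 0, .ofNat 1⟩ ⟨.ofNat 4, .ofNat 8⟩ 4 (.s02 ⟨⟨.ofNat 95068, .ofNat 24933⟩, ⟨.ofNat 23400, .ofNat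 41700⟩, ⟨.ofNat 20832, .ofNat 15624⟩, ⟨.ofNat 16368, .ofNat 12276⟩⟩ ⟨.ofNat 8, .ofNat 8⟩ ⟨.negSucc 42, .ofNat 329⟩ ⟨.ofNat 0, .ofNat 1⟩ 4 (.s23 ⟨⟨.ofNat 81533, .ofNat 0⟩, ⟨.ofNat 55750, .ofNat 0⟩, ⟨.ofNat 30690, .ofNat 0⟩, ⟨.ofNat 20460, .ofNat 0⟩⟩ ⟨.ofNat 971, .ofNat 0⟩ ⟨.ofNat 2, .ofNat 0⟩ ⟨.ofNat 3, .ofNat 0⟩ 4 (.leaf 9 [64, 64, 4, 64, 0]) (.leaf 8 [64, 4, 0, 43, 0])) (.leaf 9 [64, 64, 7, 19])) (.leaf 9 [45, 6, 64, 0])))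

theorem g35 : Good (PE lin H) ⟨⟨.ofNat 46, .ofNat 0⟩, ⟨.ofNat 23, .ofNat 0⟩, ⟨.ofNat 11, .ofNat 0⟩, ⟨.ofNat 12, .ofNat 0⟩⟩
    ⟨⟨.ofNat 883, .ofNat 0⟩, ⟨.ofNat 1000, .ofNat 0⟩, ⟨.ofNat 448, .ofNat 0⟩, ⟨.ofNat 252, .ofNat 0⟩⟩
    ⟨⟨.ofNat 169, .ofNat 0⟩, ⟨.ofNat 100, .ofNat 0⟩, ⟨.ofNat 64, .ofNat 0⟩, ⟨.ofNat 36, .ofNat 0⟩⟩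
    ⟨⟨.ofNat 20125, .ofNat 0⟩, ⟨.ofNat 21275, .ofNat 0⟩, ⟨.ofNat 8816, .ofNat 0⟩, ⟨.ofNat 7284, .ofNat 0⟩⟩ :=
  goodE lin H t35 10 27 8 26 (by decide +kernel)

/-- part of a tree -/
def t36_1 : Tree := .s01 ⟨⟨.ofNat 9679961, .ofNat 0⟩, ⟨.ofNat 10273000, .ofNat 0⟩, ⟨.ofNat 4284616, .ofNat 0⟩, ⟨.ofNat 2906484, .ofNat 0⟩⟩ ⟨.ofNat 61, .ofNat 0⟩ ⟨.ofNat 32200, .ofNat 0⟩ ⟨.ofNat 1, .ofNat 0⟩ 26 (.s13 ⟨⟨.ofNat 1630125, .ofNat 0⟩, ⟨.ofNat 1978000, .ofNat 0⟩, ⟨.ofNat 795376, .ofNat 0⟩, ⟨.ofNat 589224, .ofNat 0⟩⟩ ⟨.ofNat 4025, .ofNat 0⟩ ⟨.ofNat 61, .ofNat 0⟩ ⟨.ofNat 1, .ofNat 0⟩ 28 (.s23 ⟨⟨.ofNat 162950, .ofNat 0⟩, ⟨.ofNat 173925, .ofNat 0⟩, ⟨.ofNat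 72912, .ofNat 0⟩, ⟨.ofNat 57288, .ofNat 0⟩⟩ ⟨.ofNat 25, .ofNat 0⟩ ⟨.ofNat 1302, .ofNat 0⟩ ⟨.ofNat 211, .ofNat 0⟩ 26 (.s13 ⟨⟨.ofNat 2210875, .ofNat 0⟩, ⟨.ofNat 2373600, .ofNat 0⟩, ⟨.ofNat 980112, .ofNat 0⟩, ⟨.ofNat 800088, .ofNat 0⟩⟩ ⟨.ofNat 1, .ofNat 0⟩ ⟨.ofNat 688, .ofNat 0⟩ ⟨.ofNat 7, .ofNat 0⟩ 26 (.s03 ⟨⟨.ofNat 625530701, .ofNat 0⟩, ⟨.ofNat 661581200, .ofNat 0⟩, ⟨.ofNat 274360104, .ofNat 0⟩, ⟨.ofNat 221825796, .ofNat 0⟩⟩ ⟨.ofNat 23, .ofNat 0⟩ ⟨.ofNat 82184, .ofNat 0⟩ ⟨.ofNat 3, .ofNat 0⟩ 26 (.leaf 9 [24, 63, 0]) (.leaf 9 [4, 64, 64])) (.leaf 9 [11, 64, 64])) (.leaf 8 [22, 64, 64])) (.s12 ⟨⟨.ofNat 5693992, .ofNat 0⟩, ⟨.ofNat 6679250, .ofNat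 0⟩, ⟨.ofNat 2833460, .ofNat 0⟩, ⟨.ofNat 1842015, .ofNat 0⟩⟩ ⟨.ofNat 28175, .ofNat 0⟩ ⟨.ofNat 61, .ofNat 0⟩ ⟨.ofNat 4, .ofNat 0⟩ 27 (.leaf 8 [22, 64, 64]) (.leaf 7 [36, 64, 64, 64, 40, 0]))) (.s03 ⟨⟨.ofNat 564098000, .ofNat 0⟩, ⟨.ofNat 502168775, .ofNat 0⟩, ⟨.ofNat 218546216, .ofNat 0⟩, ⟨.ofNat 176322384, .ofNat 0⟩⟩ ⟨.ofNat 2875, .ofNat 0⟩ ⟨.ofNat 12901, .ofNat 0⟩ ⟨.ofNat 1, .ofNat 0⟩ 1 (.s23 ⟨⟨.ofNat 162950, .ofNat 0⟩, ⟨.ofNat 173925, .ofNat 0⟩, ⟨.ofNat 72912, .ofNat 0⟩, ⟨.ofNat 57288, .ofNat 0⟩⟩ ⟨.ofNat 25, .ofNat 0⟩ ⟨.ofNat 1302, .ofNat 0⟩ ⟨.ofNat 211, .ofNat 0⟩ 26 (.s01 ⟨⟨.ofNat 10658993548829, .ofNat 0⟩, ⟨.ofNat 10179182854800, .ofNat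 0⟩, ⟨.ofNat 4352372783016, .ofNat 0⟩, ⟨.ofNat 3282014358084, .ofNat 0⟩⟩ ⟨.ofNat 82184, .ofNat 0⟩ ⟨.ofNat 2918723, .ofNat 0⟩ ⟨.ofNat 7, .ofNat 0⟩ 0 (.s13 ⟨⟨.ofNat 625530701, .ofNat 0⟩, ⟨.ofNat 661581200, .ofNat 0⟩, ⟨.ofNat 274360104, .ofNat 0⟩, ⟨.ofNat 221825796, .ofNat 0⟩⟩ ⟨.ofNat 23, .ofNat 0⟩ ⟨.ofNat 82184, .ofNat 0⟩ ⟨.ofNat 3, .ofNat 0⟩ 26 (.leaf 9 [64, 5]) (.leaf 9 [64, 30])) (.leaf 9 [64, 5])) (.leaf 8 [33, 64, 64])) (.s02 ⟨⟨.ofNat 2988896000, .ofNat 0⟩, ⟨.ofNat 2730834275, .ofNat 0⟩, ⟨.ofNat 1216439504, .ofNat 0⟩, ⟨.ofNat 875787696, .ofNat 0⟩⟩ ⟨.ofNat 44812, .ofNat 0⟩ ⟨.ofNat 12901, .ofNat 0⟩ ⟨.ofNat 3, .ofNat 0⟩ 1 (.leaf 8 [33, 64,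 64]) (.s01 ⟨⟨.ofNat 40801000, .ofNat 0⟩, ⟨.ofNat 39021883, .ofNat 0⟩, ⟨.ofNat 16716448, .ofNat 0⟩, ⟨.ofNat 11844252, .ofNat 0⟩⟩ ⟨.ofNat 593039, .ofNat 0⟩ ⟨.ofNat 12901, .ofNat 0⟩ ⟨.ofNat 4600, .ofNat 0⟩ 0 (.leaf 8 [33, 64, 64]) (.leaf 8 [64, 64, 61, 0, 0]))))

/-- part of a tree -/
def t36_0 : Tree := .s23 ⟨⟨.ofNat 327188, .ofNat 0⟩, ⟨.ofNat 359925, .ofNat 0⟩, ⟨.ofNat 156240, .ofNat 0⟩, ⟨.ofNat 104160, .ofNat 0⟩⟩ ⟨.ofNat 211, .ofNat 0⟩ ⟨.ofNat 7, .ofNat 0⟩ ⟨.ofNat 1, .ofNat 0⟩ 27 t36_1 (.s01 ⟨⟨.ofNat 40801000, .ofNat 0⟩, ⟨.ofNat 39021883, .ofNat 0⟩, ⟨.ofNat 16716448, .ofNat 0⟩, ⟨.ofNat 11844252, .ofNat 0⟩⟩ ⟨.ofNat 300, .ofNat 0⟩ ⟨.ofNat 90307,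 .ofNat 0⟩ ⟨.ofNat 1, .ofNat 0⟩ 0 (.s01 ⟨⟨.ofNat 5100125, .ofNat 0⟩, ⟨.ofNat 6124894, .ofNat 0⟩, ⟨.ofNat 2481064, .ofNat 0⟩, ⟨.ofNat 1599036, .ofNat 0⟩⟩ ⟨.ofNat 1, .ofNat 0⟩ ⟨.ofNat 204005, .ofNat 0⟩ ⟨.ofNat 12, .ofNat 0⟩ 28 (.leaf 7 [64, 64, 64, 64, 20, 64, 0]) (.leaf 7 [47, 0, 0])) (.s03 ⟨⟨.ofNat 2988896000, .ofNat 0⟩, ⟨.ofNat 2730834275, .ofNat 0⟩, ⟨.ofNat 1216439504, .ofNat 0⟩, ⟨.ofNat 875787696, .ofNat 0⟩⟩ ⟨.ofNat 44812, .ofNat 0⟩ ⟨.ofNat 12901, .ofNat 0⟩ ⟨.ofNat 3, .ofNat 0⟩ 1 (.leaf 7 [1, 64, 0]) (.s02 ⟨⟨.ofNat 118910, .ofNat 0⟩, ⟨.ofNat 110837, .ofNat 0⟩, ⟨.ofNat 50225, .ofNat 0⟩, ⟨.ofNat 33012, .ofNat 0⟩⟩ ⟨.ofNat 117, .ofNat 0⟩ ⟨.ofNat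 12901, .ofNat 0⟩ ⟨.ofNat 200, .ofNat 0⟩ 0 (.leaf 7 [1, 64, 0]) (.leaf 8 [64, 64, 61, 0, 64, 0]))))

/-- part of a tree -/
def t36_2 : Tree := .s01 ⟨⟨.ofNat 5106, .ofNat 0⟩, ⟨.ofNat 5290, .ofNat 0⟩, ⟨.ofNat 2143, .ofNat 0⟩, ⟨.ofNat 1560, .ofNat 0⟩⟩ ⟨.ofNat 61, .ofNat 0⟩ ⟨.ofNat 23, .ofNat 0⟩ ⟨.ofNat 1, .ofNat 0⟩ 26 (.s12 ⟨⟨.ofNat 9679961, .ofNat 0⟩, ⟨.ofNat 10273000, .ofNat 0⟩, ⟨.ofNat 4284616, .ofNat 0⟩, ⟨.ofNat 2906484, .ofNat 0⟩⟩ ⟨.ofNat 32200, .ofNat 0⟩ ⟨.ofNat 61, .ofNat 0⟩ ⟨.ofNat 1, .ofNat 0⟩ 26 (.s23 ⟨⟨.ofNat 564098000, .ofNat 0⟩, ⟨.ofNat 502168775, .ofNat 0⟩, ⟨.ofNat 218546216, .ofNat 0⟩, ⟨.ofNat 176322384, .ofNat 0⟩⟩ ⟨.ofNat 2875,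 .ofNat 0⟩ ⟨.ofNat 12901, .ofNat 0⟩ ⟨.ofNat 1, .ofNat 0⟩ 1 (.s12 ⟨⟨.ofNat 10658993548829, .ofNat 0⟩, ⟨.ofNat 10179182854800, .ofNat 0⟩, ⟨.ofNat 4352372783016, .ofNat 0⟩, ⟨.ofNat 3282014358084, .ofNat 0⟩⟩ ⟨.ofNat 2918723, .ofNat 0⟩ ⟨.ofNat 82184, .ofNat 0⟩ ⟨.ofNat 7, .ofNat 0⟩ 0 (.leaf 9 [40, 0]) (.s13 ⟨⟨.ofNat 625530701, .ofNat 0⟩, ⟨.ofNat 661581200, .ofNat 0⟩, ⟨.ofNat 274360104, .ofNat 0⟩, ⟨.ofNat 221825796, .ofNat 0⟩⟩ ⟨.ofNat 23, .ofNat 0⟩ ⟨.ofNat 82184, .ofNat 0⟩ ⟨.ofNat 3, .ofNat 0⟩ 26 (.leaf 9 [40, 0]) (.leaf 9 [64, 30]))) (.s12 ⟨⟨.ofNat 40801000, .ofNat 0⟩, ⟨.ofNat 39021883, .ofNat 0⟩, ⟨.ofNat 16716448, .ofNat 0⟩, ⟨.ofNat 11844252, .ofNat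 0⟩⟩ ⟨.ofNat 12901, .ofNat 0⟩ ⟨.ofNat 593039, .ofNat 0⟩ ⟨.ofNat 4600, .ofNat 0⟩ 0 (.leaf 8 [64, 64, 20, 17, 0, 64]) (.leaf 8 [33, 64, 64]))) (.s13 ⟨⟨.ofNat 1630125, .ofNat 0⟩, ⟨.ofNat 1978000, .ofNat 0⟩, ⟨.ofNat 795376, .ofNat 0⟩, ⟨.ofNat 589224, .ofNat 0⟩⟩ ⟨.ofNat 4025, .ofNat 0⟩ ⟨.ofNat 61, .ofNat 0⟩ ⟨.ofNat 1, .ofNat 0⟩ 28 (.s13 ⟨⟨.ofNat 2210875, .ofNat 0⟩, ⟨.ofNat 2373600, .ofNat 0⟩, ⟨.ofNat 980112, .ofNat 0⟩, ⟨.ofNat 800088, .ofNat 0⟩⟩ ⟨.ofNat 1, .ofNat 0⟩ ⟨.ofNat 688, .ofNat 0⟩ ⟨.ofNat 7, .ofNat 0⟩ 26 (.s23 ⟨⟨.ofNat 625530701, .ofNat 0⟩, ⟨.ofNat 661581200, .ofNat 0⟩, ⟨.ofNat 274360104, .ofNat 0⟩, ⟨.ofNat 221825796, .ofNat 0⟩⟩ ⟨.ofNat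 23, .ofNat 0⟩ ⟨.ofNat 82184, .ofNat 0⟩ ⟨.ofNat 3, .ofNat 0⟩ 26 (.leaf 9 [0, 40, 0]) (.leaf 9 [4, 64, 64])) (.leaf 9 [11, 64, 64])) (.s01 ⟨⟨.ofNat 11500, .ofNat 0⟩, ⟨.ofNat 13961, .ofNat 0⟩, ⟨.ofNat 5516, .ofNat 0⟩, ⟨.ofNat 3684, .ofNat 0⟩⟩ ⟨.ofNat 100, .ofNat 0⟩ ⟨.ofNat 1909, .ofNat 0⟩ ⟨.ofNat 61, .ofNat 0⟩ 28 (.leaf 7 [36, 64, 64, 64, 40, 0]) (.leaf 8 [22, 64, 64])))) (.s03 ⟨⟨.ofNat 40250, .ofNat 0⟩, ⟨.ofNat 35075, .ofNat 0⟩, ⟨.ofNat 14963, .ofNat 0⟩, ⟨.ofNat 13212, .ofNat 0⟩⟩ ⟨.ofNat 875, .ofNat 0⟩ ⟨.ofNat 4, .ofNat 0⟩ ⟨.ofNat 3, .ofNat 0⟩ 1 (.s23 ⟨⟨.ofNat 564098000, .ofNat 0⟩, ⟨.ofNat 502168775, .ofNat 0⟩, ⟨.ofNat 218546216, .ofNat 0⟩,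 ⟨.ofNat 176322384, .ofNat 0⟩⟩ ⟨.ofNat 2875, .ofNat 0⟩ ⟨.ofNat 12901, .ofNat 0⟩ ⟨.ofNat 1, .ofNat 0⟩ 1 (.s01 ⟨⟨.ofNat 3510950, .ofNat 0⟩, ⟨.ofNat 3332700, .ofNat 0⟩, ⟨.ofNat 1384773, .ofNat 0⟩, ⟨.ofNat 1114752, .ofNat 0⟩⟩ ⟨.ofNat 46, .ofNat 0⟩ ⟨.ofNat 325, .ofNat 0⟩ ⟨.ofNat 1, .ofNat 0⟩ 0 (.leaf 9 [40, 0]) (.leaf 9 [3, 19])) (.s12 ⟨⟨.ofNat 114230029, .ofNat 0⟩, ⟨.ofNat 102202800, .ofNat 0⟩, ⟨.ofNat 43715424, .ofNat 0⟩, ⟨.ofNat 32936676, .ofNat 0⟩⟩ ⟨.ofNat 11400, .ofNat 0⟩ ⟨.ofNat 529, .ofNat 0⟩ ⟨.ofNat 1, .ofNat 0⟩ 1 (.leaf 9 [64, 64, 45, 0]) (.s01 ⟨⟨.ofNat 3510950, .ofNat 0⟩, ⟨.ofNat 3332700, .ofNat 0⟩, ⟨.ofNat 1384773, .ofNat 0⟩, ⟨.ofNat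 1114752, .ofNat 0⟩⟩ ⟨.ofNat 46, .ofNat 0⟩ ⟨.ofNat 325, .ofNat 0⟩ ⟨.ofNat 1, .ofNat 0⟩ 0 (.leaf 8 [54, 33]) (.leaf 9 [37, 14, 0])))) (.s01 ⟨⟨.ofNat 7222, .ofNat 0⟩, ⟨.ofNat 6348, .ofNat 0⟩, ⟨.ofNat 2649, .ofNat 0⟩, ⟨.ofNat 2112, .ofNat 0⟩⟩ ⟨.ofNat 46, .ofNat 0⟩ ⟨.ofNat 1, .ofNat 0⟩ ⟨.ofNat 1, .ofNat 0⟩ 1 (.s12 ⟨⟨.ofNat 114230029, .ofNat 0⟩, ⟨.ofNat 102202800, .ofNat 0⟩, ⟨.ofNat 43715424, .ofNat 0⟩, ⟨.ofNat 32936676, .ofNat 0⟩⟩ ⟨.ofNat 11400, .ofNat 0⟩ ⟨.ofNat 529, .ofNat 0⟩ ⟨.ofNat 1, .ofNat 0⟩ 1 (.leaf 9 [64, 64, 45, 0]) (.s13 ⟨⟨.ofNat 3510950, .ofNat 0⟩, ⟨.ofNat 3332700, .ofNat 0⟩, ⟨.ofNat 1384773, .ofNat 0⟩, ⟨.ofNat 1114752, .ofNat 0⟩⟩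 ⟨.ofNat 325, .ofNat 0⟩ ⟨.ofNat 46, .ofNat 0⟩ ⟨.ofNat 1, .ofNat 0⟩ 0 (.leaf 9 [37, 14, 0]) (.leaf 8 [38]))) (.s03 ⟨⟨.ofNat 0, .ofNat 4025⟩, ⟨.ofNat 7475, .negSucc 1724⟩, ⟨.ofNat 2669, .negSucc 371⟩, ⟨.ofNat 1356, .ofNat 372⟩⟩ ⟨.ofNat 700, .ofNat 175⟩ ⟨.ofNat 0, .ofNat 1⟩ ⟨.ofNat 4, .ofNat 8⟩ 4 (.leaf 9 [64, 64, 64, 6, 5]) (.leaf 9 [64, 26, 0, 0, 0]))))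

/-- part of a tree -/
def t36 : Tree := .s02 ⟨⟨.ofNat 105901, .ofNat 0⟩, ⟨.ofNat 79200, .ofNat 0⟩, ⟨.ofNat 36456, .ofNat 0⟩, ⟨.ofNat 28644, .ofNat 0⟩⟩ ⟨.ofNat 1400, .ofNat 0⟩ ⟨.ofNat 47, .ofNat 0⟩ ⟨.ofNat 1, .ofNat 0⟩ 3 t36_0 t36_2

theorem g36 : Good (PE lin H) ⟨⟨.ofNat 46, .ofNat 0⟩, ⟨.ofNat 23, .ofNat 0⟩, ⟨.ofNat 11, .ofNat 0⟩, ⟨.ofNat 12, .ofNat 0⟩⟩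
    ⟨⟨.ofNat 100, .ofNat 0⟩, ⟨.ofNat 169, .ofNat 0⟩, ⟨.ofNat 64, .ofNat 0⟩, ⟨.ofNat 36, .ofNat 0⟩⟩
    ⟨⟨.ofNat 883, .ofNat 0⟩, ⟨.ofNat 1000, .ofNat 0⟩, ⟨.ofNat 448, .ofNat 0⟩, ⟨.ofNat 252, .ofNat 0⟩⟩
    ⟨⟨.ofNat 20125, .ofNat 0⟩, ⟨.ofNat 21275, .ofNat 0⟩, ⟨.ofNat 8816, .ofNat 0⟩, ⟨.ofNat 7284, .ofNat 0⟩⟩ :=
  goodE lin H t36 10 34 27 26 (by decide +kernel)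

/-- part of a tree -/
def t39_0 : Tree := .s01 ⟨⟨.ofNat 230, .ofNat 0⟩, ⟨.ofNat 253, .ofNat 0⟩, ⟨.ofNat 77, .ofNat 0⟩, ⟨.ofNat 84, .ofNat 0⟩⟩ ⟨.ofNat 3, .ofNat 0⟩ ⟨.ofNat 7, .ofNat 0⟩ ⟨.ofNat 4, .ofNat 0⟩ 27 (.s13 ⟨⟨.ofNat 92575, .ofNat 0⟩, ⟨.ofNat 109250, .ofNat 0⟩, ⟨.ofNat 41039, .ofNat 0⟩, ⟨.ofNat 35436, .ofNat 0⟩⟩ ⟨.ofNat 525, .ofNat 0⟩ ⟨.ofNat 4, .ofNat 0⟩ ⟨.ofNat 1, .ofNat 0⟩ 28 (.s03 ⟨⟨.ofNat 37375, .ofNat 0⟩, ⟨.ofNat 40250, .ofNat 0⟩, ⟨.ofNat 14591, .ofNat 0⟩, ⟨.ofNat 13584, .ofNat 0⟩⟩ ⟨.ofNat 75, .ofNat 0⟩ ⟨.ofNat 1, .ofNat 0⟩ ⟨.ofNat 1, .ofNat 0⟩ 26 (.s23 ⟨⟨.ofNat 29448625, .ofNat 0⟩, ⟨.ofNat 31105200, .ofNat 0⟩, ⟨.ofNat 12727884,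 .ofNat 0⟩, ⟨.ofNat 10601016, .ofNat 0⟩⟩ ⟨.ofNat 25, .ofNat 0⟩ ⟨.ofNat 1349, .ofNat 0⟩ ⟨.ofNat 1, .ofNat 0⟩ 26 (.leaf 9 [15, 7, 0, 64]) (.leaf 9 [1, 62, 0, 0])) (.s12 ⟨⟨.ofNat 9338000, .ofNat 0⟩, ⟨.ofNat 10760389, .ofNat 0⟩, ⟨.ofNat 3984604, .ofNat 0⟩, ⟨.ofNat 3485796, .ofNat 0⟩⟩ ⟨.ofNat 80, .ofNat 0⟩ ⟨.ofNat 21, .ofNat 0⟩ ⟨.ofNat 1, .ofNat 0⟩ 27 (.leaf 10 [64]) (.s01 ⟨⟨.ofNat 116725, .ofNat 0⟩, ⟨.ofNat 135815, .ofNat 0⟩, ⟨.ofNat 49124, .ofNat 0⟩, ⟨.ofNat 44256, .ofNat 0⟩⟩ ⟨.ofNat 105, .ofNat 0⟩ ⟨.ofNat 1, .ofNat 0⟩ ⟨.ofNat 1, .ofNat 0⟩ 27 (.leaf 9 [19, 0, 64]) (.leaf 10 [64, 0])))) (.s12 ⟨⟨.ofNat 138000, .ofNat 0⟩, ⟨.ofNat 188209, .ofNat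 0⟩, ⟨.ofNat 55404, .ofNat 0⟩, ⟨.ofNat 54996, .ofNat 0⟩⟩ ⟨.ofNat 2000, .ofNat 0⟩ ⟨.ofNat 1, .ofNat 0⟩ ⟨.ofNat 1, .ofNat 0⟩ 29 (.s23 ⟨⟨.ofNat 9338000, .ofNat 0⟩, ⟨.ofNat 10760389, .ofNat 0⟩, ⟨.ofNat 3984604, .ofNat 0⟩, ⟨.ofNat 3485796, .ofNat 0⟩⟩ ⟨.ofNat 21, .ofNat 0⟩ ⟨.ofNat 80, .ofNat 0⟩ ⟨.ofNat 1, .ofNat 0⟩ 27 (.s03 ⟨⟨.ofNat 116725, .ofNat 0⟩, ⟨.ofNat 135815, .ofNat 0⟩, ⟨.ofNat 49124, .ofNat 0⟩, ⟨.ofNat 44256, .ofNat 0⟩⟩ ⟨.ofNat 105, .ofNat 0⟩ ⟨.ofNat 1, .ofNat 0⟩ ⟨.ofNat 1, .ofNat 0⟩ 27 (.leaf 9 [64, 64, 61, 64, 0]) (.leaf 10 [64, 64, 62, 23, 0])) (.leaf 10 [64, 64, 62, 23])) (.s01 ⟨⟨.ofNat 115, .ofNat 0⟩, ⟨.ofNat 161, .ofNat 0⟩, ⟨.ofNat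 44, .ofNat 0⟩, ⟨.ofNat 48, .ofNat 0⟩⟩ ⟨.ofNat 1, .ofNat 0⟩ ⟨.ofNat 5, .ofNat 0⟩ ⟨.ofNat 3, .ofNat 0⟩ 30 (.leaf 10 [64, 64, 64, 46, 64]) (.s03 ⟨⟨.ofNat 116725, .ofNat 0⟩, ⟨.ofNat 135815, .ofNat 0⟩, ⟨.ofNat 49124, .ofNat 0⟩, ⟨.ofNat 44256, .ofNat 0⟩⟩ ⟨.ofNat 105, .ofNat 0⟩ ⟨.ofNat 1, .ofNat 0⟩ ⟨.ofNat 1, .ofNat 0⟩ 27 (.leaf 10 [64, 64, 55, 64, 0]) (.leaf 10 [64, 64, 39, 31, 0]))))) (.s03 ⟨⟨.ofNat 17250, .ofNat 0⟩, ⟨.ofNat 16675, .ofNat 0⟩, ⟨.ofNat 6147, .ofNat 0⟩, ⟨.ofNat 5928, .ofNat 0⟩⟩ ⟨.ofNat 125, .ofNat 0⟩ ⟨.ofNat 1, .ofNat 0⟩ ⟨.ofNat 3, .ofNat 0⟩ 0 (.s13 ⟨⟨.ofNat 37375, .ofNat 0⟩, ⟨.ofNat 40250, .ofNat 0⟩, ⟨.ofNat 14591, .ofNat 0⟩, ⟨.ofNat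 13584, .ofNat 0⟩⟩ ⟨.ofNat 75, .ofNat 0⟩ ⟨.ofNat 1, .ofNat 0⟩ ⟨.ofNat 1, .ofNat 0⟩ 26 (.s23 ⟨⟨.ofNat 29448625, .ofNat 0⟩, ⟨.ofNat 31105200, .ofNat 0⟩, ⟨.ofNat 12727884, .ofNat 0⟩, ⟨.ofNat 10601016, .ofNat 0⟩⟩ ⟨.ofNat 25, .ofNat 0⟩ ⟨.ofNat 1349, .ofNat 0⟩ ⟨.ofNat 1, .ofNat 0⟩ 26 (.leaf 9 [21, 64]) (.leaf 9 [62, 0])) (.leaf 10 [64, 13])) (.s03 ⟨⟨.ofNat 80500, .ofNat 0⟩, ⟨.ofNat 74175, .ofNat 0⟩, ⟨.ofNat 25397, .ofNat 0⟩, ⟨.ofNat 26928, .ofNat 0⟩⟩ ⟨.ofNat 250, .ofNat 0⟩ ⟨.ofNat 1, .ofNat 0⟩ ⟨.ofNat 1, .ofNat 0⟩ 1 (.leaf 10 [64, 13]) (.leaf 11 [38, 64, 0])))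

/-- part of a tree -/
def t39 : Tree := .s02 ⟨⟨.ofNat 92000, .ofNat 0⟩, ⟨.ofNat 96209, .ofNat 0⟩, ⟨.ofNat 33404, .ofNat 0⟩, ⟨.ofNat 30996, .ofNat 0⟩⟩ ⟨.ofNat 300, .ofNat 0⟩ ⟨.ofNat 161, .ofNat 0⟩ ⟨.ofNat 1, .ofNat 0⟩ 26 (.s13 ⟨⟨.ofNat 92575, .ofNat 0⟩, ⟨.ofNat 109250, .ofNat 0⟩, ⟨.ofNat 41039, .ofNat 0⟩, ⟨.ofNat 35436, .ofNat 0⟩⟩ ⟨.ofNat 525, .ofNat 0⟩ ⟨.ofNat 4, .ofNat 0⟩ ⟨.ofNat 1, .ofNat 0⟩ 28 (.s23 ⟨⟨.ofNat 1630125, .ofNat 0⟩, ⟨.ofNat 1978000, .ofNat 0⟩, ⟨.ofNat 795376, .ofNat 0⟩, ⟨.ofNat 589224, .ofNat 0⟩⟩ ⟨.ofNat 4025, .ofNat 0⟩ ⟨.ofNat 61, .ofNat 0⟩ ⟨.ofNat 1, .ofNat 0⟩ 28 (.s03 ⟨⟨.ofNat 29448625, .ofNat 0⟩, ⟨.ofNat 31105200, .ofNat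 0⟩, ⟨.ofNat 12727884, .ofNat 0⟩, ⟨.ofNat 10601016, .ofNat 0⟩⟩ ⟨.ofNat 25, .ofNat 0⟩ ⟨.ofNat 1349, .ofNat 0⟩ ⟨.ofNat 1, .ofNat 0⟩ 26 (.s02 ⟨⟨.ofNat 238742875, .ofNat 0⟩, ⟨.ofNat 257296400, .ofNat 0⟩, ⟨.ofNat 105002708, .ofNat 0⟩, ⟨.ofNat 85991592, .ofNat 0⟩⟩ ⟨.ofNat 7, .ofNat 0⟩ ⟨.ofNat 20, .ofNat 0⟩ ⟨.ofNat 1, .ofNat 0⟩ 26 (.leaf 9 [36, 0, 12]) (.leaf 9 [16, 11, 0, 46])) (.s02 ⟨⟨.ofNat 9740500, .ofNat 0⟩, ⟨.ofNat 11279315, .ofNat 0⟩, ⟨.ofNat 4350644, .ofNat 0⟩, ⟨.ofNat 3441756, .ofNat 0⟩⟩ ⟨.ofNat 35, .ofNat 0⟩ ⟨.ofNat 4, .ofNat 0⟩ ⟨.ofNat 1, .ofNat 0⟩ 27 (.leaf 9 [15, 64, 0, 0]) (.leaf 9 [1, 62, 0, 0]))) (.s02 ⟨⟨.ofNat 46000, .ofNat 0⟩, ⟨.ofNat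 57983, .ofNat 0⟩, ⟨.ofNat 20948, .ofNat 0⟩, ⟨.ofNat 15852, .ofNat 0⟩⟩ ⟨.ofNat 1, .ofNat 0⟩ ⟨.ofNat 460, .ofNat 0⟩ ⟨.ofNat 3, .ofNat 0⟩ 28 (.leaf 8 [64, 64, 55, 0, 64, 64, 0]) (.leaf 9 [22, 64, 0, 0]))) (.s02 ⟨⟨.ofNat 46000, .ofNat 0⟩, ⟨.ofNat 57983, .ofNat 0⟩, ⟨.ofNat 20948, .ofNat 0⟩, ⟨.ofNat 15852, .ofNat 0⟩⟩ ⟨.ofNat 1, .ofNat 0⟩ ⟨.ofNat 460, .ofNat 0⟩ ⟨.ofNat 3, .ofNat 0⟩ 28 (.leaf 9 [64, 64, 64, 28, 2, 64, 64, 0]) (.s13 ⟨⟨.ofNat 18975, .negSucc 4024⟩, ⟨.ofNat 0, .ofNat 10925⟩, ⟨.ofNat 7457, .negSucc 1115⟩, ⟨.ofNat 3468, .ofNat 1116⟩⟩ ⟨.ofNat 1900, .ofNat 475⟩ ⟨.ofNat 0, .ofNat 1⟩ ⟨.ofNat 4, .ofNat 8⟩ 30 (.leaf 9 [18, 64, 0, 0]) (.leaf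 9 [0, 64, 64, 45, 0, 0])))) t39_0

theorem g39 : Good (PE lin H) ⟨⟨.ofNat 253, .ofNat 0⟩, ⟨.ofNat 230, .ofNat 0⟩, ⟨.ofNat 77, .ofNat 0⟩, ⟨.ofNat 84, .ofNat 0⟩⟩
    ⟨⟨.ofNat 23, .ofNat 0⟩, ⟨.ofNat 46, .ofNat 0⟩, ⟨.ofNat 11, .ofNat 0⟩, ⟨.ofNat 12, .ofNat 0⟩⟩
    ⟨⟨.ofNat 100, .ofNat 0⟩, ⟨.ofNat 169, .ofNat 0⟩, ⟨.ofNat 64, .ofNat 0⟩, ⟨.ofNat 36, .ofNat 0⟩⟩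
    ⟨⟨.ofNat 20125, .ofNat 0⟩, ⟨.ofNat 21275, .ofNat 0⟩, ⟨.ofNat 8816, .ofNat 0⟩, ⟨.ofNat 7284, .ofNat 0⟩⟩ :=
  goodE lin H t39 1 36 34 26 (by decide +kernel)

end

end Pool.Agent.PHCert.E5
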