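import Pool.Agent.PHCert.E5H

/-!
# PHCert: inequality E5, part 8 (57 leaves, checked by the kernel)
-/

set_option autoImplicit false

namespace Pool.Agent.PHCert.E5

open Zp Pool.Agent.PHCert

noncomputable section

/-- part of a tree -/
def t40_0 : Tree := .s12 ⟨⟨.ofNat 92000, .ofNat 0⟩, ⟨.ofNat 96209, .ofNat 0⟩, ⟨.ofNat 33404, .ofNat 0⟩, ⟨.ofNat 30996, .ofNat 0⟩⟩ ⟨.ofNat 300, .ofNat 0⟩ ⟨.ofNat 161, .ofNat 0⟩ ⟨.ofNat 1, .ofNat 0⟩ 26 (.s23 ⟨⟨.ofNat 1630125, .ofNat 0⟩, ⟨.ofNat 1978000, .ofNat 0⟩, ⟨.ofNat 795376, .ofNat 0⟩, ⟨.ofNat 589224, .ofNat 0⟩⟩ ⟨.ofNat 4025, .ofNat 0⟩ ⟨.ofNat 61, .ofNat 0⟩ ⟨.ofNat 1, .ofNat 0⟩ 28 (.s13 ⟨⟨.ofNat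 29448625, .ofNat 0⟩, ⟨.ofNat 31105200, .ofNat 0⟩, ⟨.ofNat 12727884, .ofNat 0⟩, ⟨.ofNat 10601016, .ofNat 0⟩⟩ ⟨.ofNat 25, .ofNat 0⟩ ⟨.ofNat 1349, .ofNat 0⟩ ⟨.ofNat 1, .ofNat 0⟩ 26 (.s02 ⟨⟨.ofNat 2435125, .ofNat 0⟩, ⟨.ofNat 2763680, .ofNat 0⟩, ⟨.ofNat 1116956, .ofNat 0⟩, ⟨.ofNat 831144, .ofNat 0⟩⟩ ⟨.ofNat 140, .ofNat 0⟩ ⟨.ofNat 1, .ofNat 0⟩ ⟨.ofNat 1, .ofNat 0⟩ 27 (.s12 ⟨⟨.ofNat 238742875, .ofNat 0⟩, ⟨.ofNat 257296400, .ofNat 0⟩, ⟨.ofNat 105002708, .ofNat 0⟩, ⟨.ofNat 85991592, .ofNat 0⟩⟩ ⟨.ofNat 7, .ofNat 0⟩ ⟨.ofNat 20, .ofNat 0⟩ ⟨.ofNat 1, .ofNat 0⟩ 26 (.s23 ⟨⟨.ofNat 2210875, .ofNat 0⟩, ⟨.ofNat 2373600, .ofNat 0⟩, ⟨.ofNat 980112,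 .ofNat 0⟩, ⟨.ofNat 800088, .ofNat 0⟩⟩ ⟨.ofNat 1, .ofNat 0⟩ ⟨.ofNat 688, .ofNat 0⟩ ⟨.ofNat 7, .ofNat 0⟩ 26 (.s03 ⟨⟨.ofNat 526125, .ofNat 0⟩, ⟨.ofNat 561200, .ofNat 0⟩, ⟨.ofNat 231804, .ofNat 0⟩, ⟨.ofNat 189096, .ofNat 0⟩⟩ ⟨.ofNat 5, .ofNat 0⟩ ⟨.ofNat 4336, .ofNat 0⟩ ⟨.ofNat 189, .ofNat 0⟩ 26 (.leaf 9 [46, 0]) (.leaf 9 [])) (.leaf 9 [])) (.s03 ⟨⟨.ofNat 526125, .ofNat 0⟩, ⟨.ofNat 561200, .ofNat 0⟩, ⟨.ofNat 231804, .ofNat 0⟩, ⟨.ofNat 189096, .ofNat 0⟩⟩ ⟨.ofNat 5, .ofNat 0⟩ ⟨.ofNat 4336, .ofNat 0⟩ ⟨.ofNat 189, .ofNat 0⟩ 26 (.leaf 9 [46, 0]) (.leaf 9 [0]))) (.s23 ⟨⟨.ofNat 526125, .ofNat 0⟩, ⟨.ofNat 561200, .ofNat 0⟩, ⟨.ofNat 231804,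 .ofNat 0⟩, ⟨.ofNat 189096, .ofNat 0⟩⟩ ⟨.ofNat 5, .ofNat 0⟩ ⟨.ofNat 4336, .ofNat 0⟩ ⟨.ofNat 189, .ofNat 0⟩ 26 (.leaf 9 [55, 0]) (.leaf 9 [0]))) (.s12 ⟨⟨.ofNat 9740500, .ofNat 0⟩, ⟨.ofNat 11279315, .ofNat 0⟩, ⟨.ofNat 4350644, .ofNat 0⟩, ⟨.ofNat 3441756, .ofNat 0⟩⟩ ⟨.ofNat 35, .ofNat 0⟩ ⟨.ofNat 4, .ofNat 0⟩ ⟨.ofNat 1, .ofNat 0⟩ 27 (.leaf 9 [15, 64, 0]) (.leaf 9 [62, 0]))) (.s02 ⟨⟨.ofNat 11500, .ofNat 0⟩, ⟨.ofNat 13961, .ofNat 0⟩, ⟨.ofNat 5516, .ofNat 0⟩, ⟨.ofNat 3684, .ofNat 0⟩⟩ ⟨.ofNat 4, .ofNat 0⟩ ⟨.ofNat 115, .ofNat 0⟩ ⟨.ofNat 3, .ofNat 0⟩ 28 (.s12 ⟨⟨.ofNat 46000, .ofNat 0⟩, ⟨.ofNat 57983, .ofNat 0⟩, ⟨.ofNat 20948, .ofNat 0⟩,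 ⟨.ofNat 15852, .ofNat 0⟩⟩ ⟨.ofNat 1, .ofNat 0⟩ ⟨.ofNat 460, .ofNat 0⟩ ⟨.ofNat 3, .ofNat 0⟩ 28 (.leaf 8 [64, 64, 22, 64, 64]) (.leaf 8 [8, 64, 64, 64])) (.leaf 8 [8, 0, 64, 64]))) (.s13 ⟨⟨.ofNat 17250, .ofNat 0⟩, ⟨.ofNat 16675, .ofNat 0⟩, ⟨.ofNat 6147, .ofNat 0⟩, ⟨.ofNat 5928, .ofNat 0⟩⟩ ⟨.ofNat 125, .ofNat 0⟩ ⟨.ofNat 1, .ofNat 0⟩ ⟨.ofNat 3, .ofNat 0⟩ 0 (.s23 ⟨⟨.ofNat 29448625, .ofNat 0⟩, ⟨.ofNat 31105200, .ofNat 0⟩, ⟨.ofNat 12727884, .ofNat 0⟩, ⟨.ofNat 10601016, .ofNat 0⟩⟩ ⟨.ofNat 25, .ofNat 0⟩ ⟨.ofNat 1349, .ofNat 0⟩ ⟨.ofNat 1, .ofNat 0⟩ 26 (.leaf 9 [39, 10]) (.leaf 9 [62, 0])) (.s01 ⟨⟨.ofNat 80500, .ofNat 0⟩, ⟨.ofNat 74336,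 .ofNat 0⟩, ⟨.ofNat 26141, .ofNat 0⟩, ⟨.ofNat 26184, .ofNat 0⟩⟩ ⟨.ofNat 3, .ofNat 0⟩ ⟨.ofNat 250, .ofNat 0⟩ ⟨.ofNat 1, .ofNat 0⟩ 0 (.s13 ⟨⟨.ofNat 80500, .ofNat 0⟩, ⟨.ofNat 74175, .ofNat 0⟩, ⟨.ofNat 25397, .ofNat 0⟩, ⟨.ofNat 26928, .ofNat 0⟩⟩ ⟨.ofNat 250, .ofNat 0⟩ ⟨.ofNat 1, .ofNat 0⟩ ⟨.ofNat 1, .ofNat 0⟩ 1 (.leaf 10 [37]) (.leaf 10 [22, 0])) (.leaf 9 [45])))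

/-- part of a tree -/
def t40_1 : Tree := .s03 ⟨⟨.ofNat 40250, .ofNat 0⟩, ⟨.ofNat 35075, .ofNat 0⟩, ⟨.ofNat 14963, .ofNat 0⟩, ⟨.ofNat 13212, .ofNat 0⟩⟩ ⟨.ofNat 875, .ofNat 0⟩ ⟨.ofNat 4, .ofNat 0⟩ ⟨.ofNat 3, .ofNat 0⟩ 1 (.s13 ⟨⟨.ofNat 17250, .ofNat 0⟩, ⟨.ofNat 16675, .ofNat 0⟩, ⟨.ofNat 6147, .ofNat 0⟩, ⟨.ofNat 5928, .ofNat 0⟩⟩ ⟨.ofNat 125, .ofNat 0⟩ ⟨.ofNat 1, .ofNat 0⟩ ⟨.ofNat 3, .ofNat 0⟩ 0 (.s02 ⟨⟨.ofNat 1052250, .ofNat 0⟩, ⟨.ofNat 982100, .ofNat 0⟩, ⟨.ofNat 408447, .ofNat 0⟩, ⟨.ofNat 328128, .ofNat 0⟩⟩ ⟨.ofNat 32, .ofNat 0⟩ ⟨.ofNat 325, .ofNat 0⟩ ⟨.ofNat 3, .ofNat 0⟩ 0 (.leaf 9 [39, 10]) (.s01 ⟨⟨.ofNat 3450, .ofNat 0⟩, ⟨.ofNat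 3220, .ofNat 0⟩, ⟨.ofNat 1248, .ofNat 0⟩, ⟨.ofNat 1167, .ofNat 0⟩⟩ ⟨.ofNat 3, .ofNat 0⟩ ⟨.ofNat 13, .ofNat 0⟩ ⟨.ofNat 100, .ofNat 0⟩ 0 (.leaf 9 [34, 25]) (.leaf 9 [0, 12]))) (.s01 ⟨⟨.ofNat 162725, .ofNat 0⟩, ⟨.ofNat 144900, .ofNat 0⟩, ⟨.ofNat 54951, .ofNat 0⟩, ⟨.ofNat 53724, .ofNat 0⟩⟩ ⟨.ofNat 2, .ofNat 0⟩ ⟨.ofNat 325, .ofNat 0⟩ ⟨.ofNat 1, .ofNat 0⟩ 1 (.s12 ⟨⟨.ofNat 80500, .ofNat 0⟩, ⟨.ofNat 74336, .ofNat 0⟩, ⟨.ofNat 26141, .ofNat 0⟩, ⟨.ofNat 26184, .ofNat 0⟩⟩ ⟨.ofNat 250, .ofNat 0⟩ ⟨.ofNat 3, .ofNat 0⟩ ⟨.ofNat 1, .ofNat 0⟩ 0 (.leaf 9 []) (.leaf 10 [32])) (.s02 ⟨⟨.ofNat 1052250, .ofNat 0⟩, ⟨.ofNat 982100, .ofNat 0⟩, ⟨.ofNat 408447,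 .ofNat 0⟩, ⟨.ofNat 328128, .ofNat 0⟩⟩ ⟨.ofNat 32, .ofNat 0⟩ ⟨.ofNat 325, .ofNat 0⟩ ⟨.ofNat 3, .ofNat 0⟩ 0 (.leaf 9 []) (.s03 ⟨⟨.ofNat 3450, .ofNat 0⟩, ⟨.ofNat 3220, .ofNat 0⟩, ⟨.ofNat 1248, .ofNat 0⟩, ⟨.ofNat 1167, .ofNat 0⟩⟩ ⟨.ofNat 3, .ofNat 0⟩ ⟨.ofNat 13, .ofNat 0⟩ ⟨.ofNat 100, .ofNat 0⟩ 0 (.leaf 9 []) (.leaf 9 [0, 12]))))) (.s01 ⟨⟨.ofNat 115, .ofNat 0⟩, ⟨.ofNat 92, .ofNat 0⟩, ⟨.ofNat 33, .ofNat 0⟩, ⟨.ofNat 36, .ofNat 0⟩⟩ ⟨.ofNat 2, .ofNat 0⟩ ⟨.ofNat 1, .ofNat 0⟩ ⟨.ofNat 3, .ofNat 0⟩ 2 (.s13 ⟨⟨.ofNat 162725, .ofNat 0⟩, ⟨.ofNat 144900, .ofNat 0⟩, ⟨.ofNat 54951, .ofNat 0⟩, ⟨.ofNat 53724, .ofNat 0⟩⟩ ⟨.ofNat 325, .ofNat 0⟩ ⟨.ofNat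 2, .ofNat 0⟩ ⟨.ofNat 1, .ofNat 0⟩ 1 (.s03 ⟨⟨.ofNat 80500, .ofNat 0⟩, ⟨.ofNat 67275, .ofNat 0⟩, ⟨.ofNat 26513, .ofNat 0⟩, ⟨.ofNat 25812, .ofNat 0⟩⟩ ⟨.ofNat 350, .ofNat 0⟩ ⟨.ofNat 1, .ofNat 0⟩ ⟨.ofNat 1, .ofNat 0⟩ 2 (.leaf 9 [64, 0, 0, 0]) (.leaf 9 [64, 12, 0, 0])) (.s02 ⟨⟨.ofNat 11500, .ofNat 0⟩, ⟨.ofNat 10212, .ofNat 0⟩, ⟨.ofNat 3947, .ofNat 0⟩, ⟨.ofNat 3528, .ofNat 0⟩⟩ ⟨.ofNat 50, .ofNat 0⟩ ⟨.ofNat 1, .ofNat 0⟩ ⟨.ofNat 1, .ofNat 0⟩ 1 (.s12 ⟨⟨.ofNat 80500, .ofNat 0⟩, ⟨.ofNat 74336, .ofNat 0⟩, ⟨.ofNat 26141, .ofNat 0⟩, ⟨.ofNat 26184, .ofNat 0⟩⟩ ⟨.ofNat 250, .ofNat 0⟩ ⟨.ofNat 3, .ofNat 0⟩ ⟨.ofNat 1, .ofNat 0⟩ 0 (.leaf 9 []) (.leaf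 10 [12])) (.leaf 10 [61, 0, 3]))) (.s03 ⟨⟨.ofNat 0, .ofNat 4025⟩, ⟨.ofNat 7475, .negSucc 1724⟩, ⟨.ofNat 2669, .negSucc 371⟩, ⟨.ofNat 1356, .ofNat 372⟩⟩ ⟨.ofNat 700, .ofNat 175⟩ ⟨.ofNat 0, .ofNat 1⟩ ⟨.ofNat 4, .ofNat 8⟩ 4 (.s13 ⟨⟨.ofNat 80500, .ofNat 0⟩, ⟨.ofNat 67275, .ofNat 0⟩, ⟨.ofNat 26513, .ofNat 0⟩, ⟨.ofNat 25812, .ofNat 0⟩⟩ ⟨.ofNat 350, .ofNat 0⟩ ⟨.ofNat 1, .ofNat 0⟩ ⟨.ofNat 1, .ofNat 0⟩ 2 (.leaf 9 [64, 64, 1, 0, 0]) (.leaf 9 [64, 14, 4, 0, 0])) (.s02 ⟨⟨.ofNat 0, .ofNat 2300⟩, ⟨.ofNat 5474, .negSucc 1586⟩, ⟨.ofNat 1844, .negSucc 371⟩, ⟨.ofNat 456, .ofNat 372⟩⟩ ⟨.ofNat 100, .ofNat 25⟩ ⟨.ofNat 0, .ofNat 1⟩ ⟨.ofNat 1, .ofNat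 2⟩ 3 (.leaf 9 [64, 14, 4, 0, 0]) (.leaf 10 [64, 56, 33]))))

/-- part of a tree -/
def t40 : Tree := .s02 ⟨⟨.ofNat 5750, .ofNat 0⟩, ⟨.ofNat 5612, .ofNat 0⟩, ⟨.ofNat 2297, .ofNat 0⟩, ⟨.ofNat 1728, .ofNat 0⟩⟩ ⟨.ofNat 75, .ofNat 0⟩ ⟨.ofNat 23, .ofNat 0⟩ ⟨.ofNat 1, .ofNat 0⟩ 0 t40_0 t40_1

theorem g40 : Good (PE lin H) ⟨⟨.ofNat 46, .ofNat 0⟩, ⟨.ofNat 23, .ofNat 0⟩, ⟨.ofNat 11, .ofNat 0⟩, ⟨.ofNat 12, .ofNat 0⟩⟩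
    ⟨⟨.ofNat 253, .ofNat 0⟩, ⟨.ofNat 230, .ofNat 0⟩, ⟨.ofNat 77, .ofNat 0⟩, ⟨.ofNat 84, .ofNat 0⟩⟩
    ⟨⟨.ofNat 100, .ofNat 0⟩, ⟨.ofNat 169, .ofNat 0⟩, ⟨.ofNat 64, .ofNat 0⟩, ⟨.ofNat 36, .ofNat 0⟩⟩
    ⟨⟨.ofNat 20125, .ofNat 0⟩, ⟨.ofNat 21275, .ofNat 0⟩, ⟨.ofNat 8816, .ofNat 0⟩, ⟨.ofNat 7284, .ofNat 0⟩⟩ :=
  goodE lin H t40 10 1 34 26 (by decide +kernel)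

/-- part of a tree -/
def t46 : Tree := .s23 ⟨⟨.ofNat 169, .ofNat 0⟩, ⟨.ofNat 100, .ofNat 0⟩, ⟨.ofNat 64, .ofNat 0⟩, ⟨.ofNat 36, .ofNat 0⟩⟩ ⟨.ofNat 1, .ofNat 0⟩ ⟨.ofNat 2, .ofNat 0⟩ ⟨.ofNat 1, .ofNat 0⟩ 8 (.s13 ⟨⟨.ofNat 32890, .ofNat 0⟩, ⟨.ofNat 30475, .ofNat 0⟩, ⟨.ofNat 13987, .ofNat 0⟩, ⟨.ofNat 9036, .ofNat 0⟩⟩ ⟨.ofNat 4, .ofNat 0⟩ ⟨.ofNat 245, .ofNat 0⟩ ⟨.ofNat 1, .ofNat 0⟩ 0 (.s03 ⟨⟨.ofNat 3703, .ofNat 3703⟩, ⟨.negSucc 3702, .ofNat 7406⟩, ⟨.negSucc 1235, .ofNat 3007⟩, ⟨.ofNat 1236, .ofNat 696⟩⟩ ⟨.ofNat 0, .ofNat 23⟩ ⟨.ofNat 161, .ofNat 58⟩ ⟨.ofNat 1, .ofNat 1⟩ 1 (.s13 ⟨⟨.ofNat 0, .ofNat 3289⟩, ⟨.ofNat 7015, .negSucc 1862⟩,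 ⟨.ofNat 3061, .negSucc 743⟩, ⟨.ofNat 228, .ofNat 744⟩⟩ ⟨.ofNat 0, .ofNat 1⟩ ⟨.ofNat 572, .ofNat 143⟩ ⟨.ofNat 4, .ofNat 8⟩ 3 (.leaf 8 [0, 64, 0, 0, 11, 0]) (.leaf 7 [64, 64, 42, 64, 23, 0, 0])) (.s02 ⟨⟨.ofNat 33343, .ofNat 0⟩, ⟨.ofNat 32200, .ofNat 0⟩, ⟨.ofNat 15088, .ofNat 0⟩, ⟨.ofNat 7452, .ofNat 0⟩⟩ ⟨.ofNat 60, .ofNat 0⟩ ⟨.ofNat 67, .ofNat 0⟩ ⟨.ofNat 1, .ofNat 0⟩ 0 (.leaf 6 [64, 64, 60, 63, 0]) (.s01 ⟨⟨.ofNat 3444457, .ofNat 0⟩, ⟨.ofNat 3478750, .ofNat 0⟩, ⟨.ofNat 1545709, .ofNat 0⟩, ⟨.ofNat 889416, .ofNat 0⟩⟩ ⟨.ofNat 3381, .ofNat 0⟩ ⟨.ofNat 67, .ofNat 0⟩ ⟨.ofNat 1, .ofNat 0⟩ 26 (.leaf 7 [64, 0, 0]) (.leaf 7 [64, 0, 53, 0]))))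 (.s12 ⟨⟨.ofNat 1941430, .ofNat 0⟩, ⟨.ofNat 1699930, .ofNat 0⟩, ⟨.ofNat 877249, .ofNat 0⟩, ⟨.ofNat 481752, .ofNat 0⟩⟩ ⟨.ofNat 183, .ofNat 0⟩ ⟨.ofNat 5635, .ofNat 0⟩ ⟨.ofNat 1, .ofNat 0⟩ 1 (.s02 ⟨⟨.ofNat 33343, .ofNat 0⟩, ⟨.ofNat 32200, .ofNat 0⟩, ⟨.ofNat 15088, .ofNat 0⟩, ⟨.ofNat 7452, .ofNat 0⟩⟩ ⟨.ofNat 60, .ofNat 0⟩ ⟨.ofNat 67, .ofNat 0⟩ ⟨.ofNat 1, .ofNat 0⟩ 0 (.leaf 6 [64, 64, 61, 64, 0]) (.s01 ⟨⟨.ofNat 254158510, .ofNat 0⟩, ⟨.ofNat 257587810, .ofNat 0⟩, ⟨.ofNat 119633683, .ofNat 0⟩, ⟨.ofNat 60677784, .ofNat 0⟩⟩ ⟨.ofNat 338100, .ofNat 0⟩ ⟨.ofNat 67, .ofNat 0⟩ ⟨.ofNat 1, .ofNat 0⟩ 26 (.leaf 6 [17, 35]) (.s03 ⟨⟨.ofNat 3444457,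 .ofNat 0⟩, ⟨.ofNat 3478750, .ofNat 0⟩, ⟨.ofNat 1545709, .ofNat 0⟩, ⟨.ofNat 889416, .ofNat 0⟩⟩ ⟨.ofNat 3381, .ofNat 0⟩ ⟨.ofNat 67, .ofNat 0⟩ ⟨.ofNat 1, .ofNat 0⟩ 26 (.leaf 6 [33, 22]) (.leaf 6 [34, 64])))) (.s02 ⟨⟨.ofNat 254158510, .ofNat 0⟩, ⟨.ofNat 257587810, .ofNat 0⟩, ⟨.ofNat 119633683, .ofNat 0⟩, ⟨.ofNat 60677784, .ofNat 0⟩⟩ ⟨.ofNat 338100, .ofNat 0⟩ ⟨.ofNat 67, .ofNat 0⟩ ⟨.ofNat 1, .ofNat 0⟩ 26 (.leaf 6 [0, 24]) (.s03 ⟨⟨.ofNat 3444457, .ofNat 0⟩, ⟨.ofNat 3478750, .ofNat 0⟩, ⟨.ofNat 1545709, .ofNat 0⟩, ⟨.ofNat 889416, .ofNat 0⟩⟩ ⟨.ofNat 3381, .ofNat 0⟩ ⟨.ofNat 67, .ofNat 0⟩ ⟨.ofNat 1, .ofNat 0⟩ 26 (.leaf 7 [2, 0]) (.leaf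 6 [0, 59]))))) (.s02 ⟨⟨.ofNat 85249, .ofNat 0⟩, ⟨.ofNat 86940, .ofNat 0⟩, ⟨.ofNat 43230, .ofNat 0⟩, ⟨.ofNat 17628, .ofNat 0⟩⟩ ⟨.ofNat 162, .ofNat 0⟩ ⟨.ofNat 335, .ofNat 0⟩ ⟨.ofNat 1, .ofNat 0⟩ 26 (.s12 ⟨⟨.ofNat 2392, .ofNat 0⟩, ⟨.ofNat 2484, .ofNat 0⟩, ⟨.ofNat 1263, .ofNat 0⟩, ⟨.ofNat 600, .ofNat 0⟩⟩ ⟨.ofNat 1, .ofNat 0⟩ ⟨.ofNat 23, .ofNat 0⟩ ⟨.ofNat 3, .ofNat 0⟩ 26 (.s23 ⟨⟨.ofNat 67, .ofNat 0⟩, ⟨.ofNat 44, .ofNat 0⟩, ⟨.ofNat 32, .ofNat 0⟩, ⟨.ofNat 12, .ofNat 0⟩⟩ ⟨.ofNat 16, .ofNat 0⟩ ⟨.ofNat 5, .ofNat 0⟩ ⟨.ofNat 31, .ofNat 0⟩ 5 (.s13 ⟨⟨.ofNat 756470, .ofNat 0⟩, ⟨.ofNat 643172, .ofNat 0⟩, ⟨.ofNat 351833, .ofNat 0⟩, ⟨.ofNat 177696,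 .ofNat 0⟩⟩ ⟨.ofNat 183, .ofNat 0⟩ ⟨.ofNat 1886, .ofNat 0⟩ ⟨.ofNat 1, .ofNat 0⟩ 2 (.leaf 5 [64, 64, 64, 0, 64, 22]) (.leaf 5 [59, 64, 39])) (.leaf 5 [64, 64, 42])) (.s13 ⟨⟨.ofNat 1941430, .ofNat 0⟩, ⟨.ofNat 1699930, .ofNat 0⟩, ⟨.ofNat 877249, .ofNat 0⟩, ⟨.ofNat 481752, .ofNat 0⟩⟩ ⟨.ofNat 183, .ofNat 0⟩ ⟨.ofNat 5635, .ofNat 0⟩ ⟨.ofNat 1, .ofNat 0⟩ 1 (.s23 ⟨⟨.ofNat 756470, .ofNat 0⟩, ⟨.ofNat 643172, .ofNat 0⟩, ⟨.ofNat 351833, .ofNat 0⟩, ⟨.ofNat 177696, .ofNat 0⟩⟩ ⟨.ofNat 183, .ofNat 0⟩ ⟨.ofNat 1886, .ofNat 0⟩ ⟨.ofNat 1, .ofNat 0⟩ 2 (.leaf 5 [64, 64, 64, 0, 64, 22]) (.leaf 6 [47, 0])) (.leaf 6 [0, 17]))) (.s13 ⟨⟨.ofNat 1941430, .ofNat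 0⟩, ⟨.ofNat 1699930, .ofNat 0⟩, ⟨.ofNat 877249, .ofNat 0⟩, ⟨.ofNat 481752, .ofNat 0⟩⟩ ⟨.ofNat 183, .ofNat 0⟩ ⟨.ofNat 5635, .ofNat 0⟩ ⟨.ofNat 1, .ofNat 0⟩ 1 (.s03 ⟨⟨.ofNat 33343, .ofNat 0⟩, ⟨.ofNat 32200, .ofNat 0⟩, ⟨.ofNat 15088, .ofNat 0⟩, ⟨.ofNat 7452, .ofNat 0⟩⟩ ⟨.ofNat 60, .ofNat 0⟩ ⟨.ofNat 67, .ofNat 0⟩ ⟨.ofNat 1, .ofNat 0⟩ 0 (.leaf 6 [64, 64, 64, 0, 64, 0]) (.s01 ⟨⟨.ofNat 254158510, .ofNat 0⟩, ⟨.ofNat 257587810, .ofNat 0⟩, ⟨.ofNat 119633683, .ofNat 0⟩, ⟨.ofNat 60677784, .ofNat 0⟩⟩ ⟨.ofNat 338100, .ofNat 0⟩ ⟨.ofNat 67, .ofNat 0⟩ ⟨.ofNat 1, .ofNat 0⟩ 26 (.leaf 6 [20, 20]) (.leaf 5 [24, 64]))) (.s03 ⟨⟨.ofNat 254158510, .ofNat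 0⟩, ⟨.ofNat 257587810, .ofNat 0⟩, ⟨.ofNat 119633683, .ofNat 0⟩, ⟨.ofNat 60677784, .ofNat 0⟩⟩ ⟨.ofNat 338100, .ofNat 0⟩ ⟨.ofNat 67, .ofNat 0⟩ ⟨.ofNat 1, .ofNat 0⟩ 26 (.leaf 6 [0, 17]) (.leaf 6 [0, 59]))))

theorem g46 : Good (PE lin H) ⟨⟨.ofNat 367, .ofNat 0⟩, ⟨.ofNat 425, .ofNat 0⟩, ⟨.ofNat 180, .ofNat 0⟩, ⟨.ofNat 84, .ofNat 0⟩⟩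
    ⟨⟨.ofNat 5405, .ofNat 0⟩, ⟨.ofNat 6210, .ofNat 0⟩, ⟨.ofNat 2823, .ofNat 0⟩, ⟨.ofNat 1524, .ofNat 0⟩⟩
    ⟨⟨.ofNat 77, .ofNat 0⟩, ⟨.ofNat 54, .ofNat 0⟩, ⟨.ofNat 42, .ofNat 0⟩, ⟨.ofNat 12, .ofNat 0⟩⟩
    ⟨⟨.ofNat 46, .ofNat 0⟩, ⟨.ofNat 23, .ofNat 0⟩, ⟨.ofNat 11, .ofNat 0⟩, ⟨.ofNat 12, .ofNat 0⟩⟩ :=
  goodE lin H t46 27 27 4 10 (by decide +kernel)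

end

end Pool.Agent.PHCert.E5
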