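import Pool.Agent.PHCert.E5H

/-!
# PHCert: inequality E5, part 9 (52 leaves, checked by the kernel)
-/

set_option autoImplicit false

namespace Pool.Agent.PHCert.E5

open Zp Pool.Agent.PHCert

noncomputable section

/-- part of a tree -/
def t47_1 : Tree := .s12 ⟨⟨.ofNat 174485, .ofNat 0⟩, ⟨.ofNat 195717, .ofNat 0⟩, ⟨.ofNat 72912, .ofNat 0⟩, ⟨.ofNat 57288, .ofNat 0⟩⟩ ⟨.ofNat 9717, .ofNat 0⟩ ⟨.ofNat 329, .ofNat 0⟩ ⟨.ofNat 23, .ofNat 0⟩ 27 (.s23 ⟨⟨.ofNat 32890, .ofNat 0⟩, ⟨.ofNat 30475, .ofNat 0⟩, ⟨.ofNat 13987, .ofNat 0⟩, ⟨.ofNat 9036, .ofNat 0⟩⟩ ⟨.ofNat 4, .ofNat 0⟩ ⟨.ofNat 245, .ofNat 0⟩ ⟨.ofNat 1, .ofNat 0⟩ 0 (.s13 ⟨⟨.ofNat 0, .ofNat 1976045⟩, ⟨.ofNat 4989827,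 .negSucc 1506890⟩, ⟨.ofNat 1434617, .negSucc 244775⟩, ⟨.ofNat 541428, .ofNat 244776⟩⟩ ⟨.ofNat 0, .ofNat 23⟩ ⟨.ofNat 85915, .ofNat 41630⟩ ⟨.ofNat 1, .ofNat 2⟩ 2 (.s03 ⟨⟨.ofNat 0, .ofNat 2919551⟩, ⟨.ofNat 8758653, .negSucc 2919550⟩, ⟨.ofNat 2209595, .negSucc 406643⟩, ⟨.ofNat 709956, .ofNat 406644⟩⟩ ⟨.ofNat 0, .ofNat 23⟩ ⟨.ofNat 126937, .ofNat 37574⟩ ⟨.ofNat 1, .ofNat 2⟩ 1 (.s23 ⟨⟨.ofNat 0, .ofNat 3289⟩, ⟨.ofNat 7015, .negSucc 1862⟩, ⟨.ofNat 3061, .negSucc 743⟩, ⟨.ofNat 228, .ofNat 744⟩⟩ ⟨.ofNat 0, .ofNat 1⟩ ⟨.ofNat 572, .ofNat 143⟩ ⟨.ofNat 4, .ofNat 8⟩ 3 (.leaf 9 [0, 62, 0, 0]) (.leaf 8 [56, 10, 0, 64, 64])) (.s01 ⟨⟨.negSucc 938617268970, .ofNat 2759165465815⟩, ⟨.negSucc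 751072991349, .ofNat 2508332241650⟩, ⟨.negSucc 274467610836, .ofNat 944556469115⟩, ⟨.negSucc 251283483107, .ofNat 811276100040⟩⟩ ⟨.ofNat 5928135, .ofNat 1308033⟩ ⟨.ofNat 239659, .ofNat 479318⟩ ⟨.ofNat 0, .ofNat 1⟩ 0 (.leaf 8 [56, 10, 64, 64]) (.s02 ⟨⟨.ofNat 266318725, .ofNat 0⟩, ⟨.ofNat 267469990, .ofNat 0⟩, ⟨.ofNat 110199577, .ofNat 0⟩, ⟨.ofNat 77029416, .ofNat 0⟩⟩ ⟨.ofNat 345, .ofNat 0⟩ ⟨.ofNat 4891, .ofNat 0⟩ ⟨.ofNat 1, .ofNat 0⟩ 26 (.leaf 8 [59, 0, 0, 64, 64]) (.leaf 9 [63, 0, 64, 5, 64, 64])))) (.s03 ⟨⟨.negSucc 938617268970, .ofNat 2759165465815⟩, ⟨.negSucc 751072991349, .ofNat 2508332241650⟩, ⟨.negSucc 274467610836, .ofNat 944556469115⟩, ⟨.negSucc 251283483107,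 .ofNat 811276100040⟩⟩ ⟨.ofNat 5928135, .ofNat 1308033⟩ ⟨.ofNat 239659, .ofNat 479318⟩ ⟨.ofNat 0, .ofNat 1⟩ 0 (.s13 ⟨⟨.ofNat 19760450, .ofNat 0⟩, ⟨.ofNat 19859879, .ofNat 0⟩, ⟨.ofNat 7594559, .ofNat 0⟩, ⟨.ofNat 6237756, .ofNat 0⟩⟩ ⟨.ofNat 1580836, .ofNat 395209⟩ ⟨.ofNat 16121, .ofNat 32242⟩ ⟨.ofNat 17183, .ofNat 8326⟩ 26 (.leaf 8 [57, 64, 17, 64, 64]) (.leaf 8 [37, 52, 0, 64, 64])) (.s02 ⟨⟨.ofNat 266318725, .ofNat 0⟩, ⟨.ofNat 267469990, .ofNat 0⟩, ⟨.ofNat 110199577, .ofNat 0⟩, ⟨.ofNat 77029416, .ofNat 0⟩⟩ ⟨.ofNat 345, .ofNat 0⟩ ⟨.ofNat 4891, .ofNat 0⟩ ⟨.ofNat 1, .ofNat 0⟩ 26 (.leaf 8 [37, 52, 0, 64, 64]) (.leaf 8 [21, 64, 64, 64])))) (.s03 ⟨⟨.ofNat 266318725, .ofNat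 0⟩, ⟨.ofNat 267469990, .ofNat 0⟩, ⟨.ofNat 110199577, .ofNat 0⟩, ⟨.ofNat 77029416, .ofNat 0⟩⟩ ⟨.ofNat 345, .ofNat 0⟩ ⟨.ofNat 4891, .ofNat 0⟩ ⟨.ofNat 1, .ofNat 0⟩ 26 (.leaf 7 [0, 44, 0, 29, 0]) (.leaf 7 [0, 53, 0, 0]))) (.s23 ⟨⟨.ofNat 0, .ofNat 1976045⟩, ⟨.ofNat 4989827, .negSucc 1506890⟩, ⟨.ofNat 1434617, .negSucc 244775⟩, ⟨.ofNat 541428, .ofNat 244776⟩⟩ ⟨.ofNat 0, .ofNat 23⟩ ⟨.ofNat 85915, .ofNat 41630⟩ ⟨.ofNat 1, .ofNat 2⟩ 2 (.s03 ⟨⟨.ofNat 0, .ofNat 2919551⟩, ⟨.ofNat 8758653, .negSucc 2919550⟩, ⟨.ofNat 2209595, .negSucc 406643⟩, ⟨.ofNat 709956, .ofNat 406644⟩⟩ ⟨.ofNat 0, .ofNat 23⟩ ⟨.ofNat 126937, .ofNat 37574⟩ ⟨.ofNat 1, .ofNat 2⟩ 1 (.s13 ⟨⟨.ofNat 23, .ofNat 23⟩,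 ⟨.negSucc 22, .ofNat 46⟩, ⟨.ofNat 0, .ofNat 11⟩, ⟨.ofNat 0, .ofNat 12⟩⟩ ⟨.ofNat 1, .ofNat 0⟩ ⟨.negSucc 2, .ofNat 4⟩ ⟨.ofNat 0, .ofNat 4⟩ 1 (.leaf 10 [1, 0, 0, 11]) (.s13 ⟨⟨.ofNat 460, .ofNat 0⟩, ⟨.ofNat 437, .ofNat 0⟩, ⟨.ofNat 143, .ofNat 0⟩, ⟨.ofNat 156, .ofNat 0⟩⟩ ⟨.negSucc 6, .ofNat 6⟩ ⟨.ofNat 0, .ofNat 10⟩ ⟨.negSucc 2, .ofNat 4⟩ 0 (.leaf 10 [19, 0]) (.s12 ⟨⟨.negSucc 32368704, .ofNat 86945980⟩, ⟨.negSucc 26440569, .ofNat 79041800⟩, ⟨.negSucc 7138410, .ofNat 26461820⟩, ⟨.negSucc 11369987, .ofNat 28867440⟩⟩ ⟨.ofNat 257745, .ofNat 56871⟩ ⟨.ofNat 7, .ofNat 14⟩ ⟨.ofNat 0, .ofNat 1⟩ 0 (.leaf 10 [0, 19, 0]) (.leaf 10 [45, 64, 0])))) (.s02 ⟨⟨.negSucc 938617268970, .ofNat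 2759165465815⟩, ⟨.negSucc 751072991349, .ofNat 2508332241650⟩, ⟨.negSucc 274467610836, .ofNat 944556469115⟩, ⟨.negSucc 251283483107, .ofNat 811276100040⟩⟩ ⟨.ofNat 5928135, .ofNat 1308033⟩ ⟨.ofNat 239659, .ofNat 479318⟩ ⟨.ofNat 0, .ofNat 1⟩ 0 (.s12 ⟨⟨.negSucc 32368704, .ofNat 86945980⟩, ⟨.negSucc 26440569, .ofNat 79041800⟩, ⟨.negSucc 7138410, .ofNat 26461820⟩, ⟨.negSucc 11369987, .ofNat 28867440⟩⟩ ⟨.ofNat 257745, .ofNat 56871⟩ ⟨.ofNat 7, .ofNat 14⟩ ⟨.ofNat 0, .ofNat 1⟩ 0 (.leaf 9 [36, 0]) (.leaf 10 [45, 64, 0])) (.s01 ⟨⟨.ofNat 282647, .ofNat 0⟩, ⟨.ofNat 314341, .ofNat 0⟩, ⟨.ofNat 103824, .ofNat 0⟩, ⟨.ofNat 95172, .ofNat 0⟩⟩ ⟨.ofNat 23, .ofNat 0⟩ ⟨.ofNat 27192, .ofNat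 0⟩ ⟨.ofNat 47, .ofNat 0⟩ 27 (.leaf 10 [45, 0, 64, 0]) (.leaf 9 [55, 0, 64, 0, 64])))) (.s03 ⟨⟨.negSucc 938617268970, .ofNat 2759165465815⟩, ⟨.negSucc 751072991349, .ofNat 2508332241650⟩, ⟨.negSucc 274467610836, .ofNat 944556469115⟩, ⟨.negSucc 251283483107, .ofNat 811276100040⟩⟩ ⟨.ofNat 5928135, .ofNat 1308033⟩ ⟨.ofNat 239659, .ofNat 479318⟩ ⟨.ofNat 0, .ofNat 1⟩ 0 (.s23 ⟨⟨.ofNat 19760450, .ofNat 0⟩, ⟨.ofNat 19859879, .ofNat 0⟩, ⟨.ofNat 7594559, .ofNat 0⟩, ⟨.ofNat 6237756, .ofNat 0⟩⟩ ⟨.ofNat 1580836, .ofNat 395209⟩ ⟨.ofNat 16121, .ofNat 32242⟩ ⟨.ofNat 17183, .ofNat 8326⟩ 26 (.s13 ⟨⟨.negSucc 32368704, .ofNat 86945980⟩, ⟨.negSucc 26440569, .ofNat 79041800⟩, ⟨.negSucc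 7138410, .ofNat 26461820⟩, ⟨.negSucc 11369987, .ofNat 28867440⟩⟩ ⟨.ofNat 257745, .ofNat 56871⟩ ⟨.ofNat 7, .ofNat 14⟩ ⟨.ofNat 0, .ofNat 1⟩ 0 (.leaf 9 [45, 64, 0]) (.leaf 10 [64])) (.leaf 9 [13, 11])) (.leaf 9 [13, 11, 64])))

/-- part of a tree -/
def t47_0 : Tree := .s01 ⟨⟨.ofNat 305663, .ofNat 0⟩, ⟨.ofNat 343237, .ofNat 0⟩, ⟨.ofNat 121128, .ofNat 0⟩, ⟨.ofNat 95172, .ofNat 0⟩⟩ ⟨.ofNat 329, .ofNat 0⟩ ⟨.ofNat 804, .ofNat 0⟩ ⟨.ofNat 1, .ofNat 0⟩ 27 t47_1 (.s23 ⟨⟨.ofNat 32890, .ofNat 0⟩, ⟨.ofNat 30475, .ofNat 0⟩, ⟨.ofNat 13987, .ofNat 0⟩, ⟨.ofNat 9036, .ofNat 0⟩⟩ ⟨.ofNat 4, .ofNat 0⟩ ⟨.ofNat 245, .ofNat 0⟩ ⟨.ofNat 1, .ofNat 0⟩ 0 (.s03 ⟨⟨.ofNat 3703, .ofNat 3703⟩, ⟨.negSucc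 3702, .ofNat 7406⟩, ⟨.negSucc 1235, .ofNat 3007⟩, ⟨.ofNat 1236, .ofNat 696⟩⟩ ⟨.ofNat 0, .ofNat 23⟩ ⟨.ofNat 161, .ofNat 58⟩ ⟨.ofNat 1, .ofNat 1⟩ 1 (.s13 ⟨⟨.ofNat 0, .ofNat 2919551⟩, ⟨.ofNat 8758653, .negSucc 2919550⟩, ⟨.ofNat 2209595, .negSucc 406643⟩, ⟨.ofNat 709956, .ofNat 406644⟩⟩ ⟨.ofNat 0, .ofNat 23⟩ ⟨.ofNat 126937, .ofNat 37574⟩ ⟨.ofNat 1, .ofNat 2⟩ 1 (.s23 ⟨⟨.ofNat 0, .ofNat 3289⟩, ⟨.ofNat 7015, .negSucc 1862⟩, ⟨.ofNat 3061, .negSucc 743⟩, ⟨.ofNat 228, .ofNat 744⟩⟩ ⟨.ofNat 0, .ofNat 1⟩ ⟨.ofNat 572, .ofNat 143⟩ ⟨.ofNat 4, .ofNat 8⟩ 3 (.leaf 9 [0, 8, 0, 0, 0, 0]) (.leaf 8 [53, 0, 0, 52, 0])) (.s12 ⟨⟨.ofNat 266318725, .ofNat 0⟩, ⟨.ofNat 267469990, .ofNat 0⟩, ⟨.ofNat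 110199577, .ofNat 0⟩, ⟨.ofNat 77029416, .ofNat 0⟩⟩ ⟨.ofNat 345, .ofNat 0⟩ ⟨.ofNat 4891, .ofNat 0⟩ ⟨.ofNat 1, .ofNat 0⟩ 26 (.leaf 8 [53, 0, 0, 52, 0]) (.leaf 8 [40, 0, 64, 0, 52, 0]))) (.s02 ⟨⟨.ofNat 3444457, .ofNat 0⟩, ⟨.ofNat 3478750, .ofNat 0⟩, ⟨.ofNat 1545709, .ofNat 0⟩, ⟨.ofNat 889416, .ofNat 0⟩⟩ ⟨.ofNat 3381, .ofNat 0⟩ ⟨.ofNat 67, .ofNat 0⟩ ⟨.ofNat 1, .ofNat 0⟩ 26 (.s12 ⟨⟨.ofNat 266318725, .ofNat 0⟩, ⟨.ofNat 267469990, .ofNat 0⟩, ⟨.ofNat 110199577, .ofNat 0⟩, ⟨.ofNat 77029416, .ofNat 0⟩⟩ ⟨.ofNat 345, .ofNat 0⟩ ⟨.ofNat 4891, .ofNat 0⟩ ⟨.ofNat 1, .ofNat 0⟩ 26 (.leaf 7 [63, 0, 0]) (.leaf 7 [64, 0, 50, 0, 0])) (.leaf 7 [64, 0, 50, 0, 0]))) (.s03 ⟨⟨.ofNat 3444457,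 .ofNat 0⟩, ⟨.ofNat 3478750, .ofNat 0⟩, ⟨.ofNat 1545709, .ofNat 0⟩, ⟨.ofNat 889416, .ofNat 0⟩⟩ ⟨.ofNat 3381, .ofNat 0⟩ ⟨.ofNat 67, .ofNat 0⟩ ⟨.ofNat 1, .ofNat 0⟩ 26 (.s13 ⟨⟨.ofNat 266318725, .ofNat 0⟩, ⟨.ofNat 267469990, .ofNat 0⟩, ⟨.ofNat 110199577, .ofNat 0⟩, ⟨.ofNat 77029416, .ofNat 0⟩⟩ ⟨.ofNat 345, .ofNat 0⟩ ⟨.ofNat 4891, .ofNat 0⟩ ⟨.ofNat 1, .ofNat 0⟩ 26 (.leaf 7 [6, 0]) (.leaf 7 [0, 53, 0])) (.leaf 7 [0, 53, 0])))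

/-- part of a tree -/
def t47 : Tree := .s13 ⟨⟨.ofNat 230, .ofNat 0⟩, ⟨.ofNat 253, .ofNat 0⟩, ⟨.ofNat 77, .ofNat 0⟩, ⟨.ofNat 84, .ofNat 0⟩⟩ ⟨.ofNat 4, .ofNat 0⟩ ⟨.ofNat 3, .ofNat 0⟩ ⟨.ofNat 1, .ofNat 0⟩ 27 t47_0 (.s03 ⟨⟨.ofNat 305663, .ofNat 0⟩, ⟨.ofNat 343237, .ofNat 0⟩, ⟨.ofNat 121128, .ofNat 0⟩, ⟨.ofNat 95172, .ofNat 0⟩⟩ ⟨.ofNat 329, .ofNat 0⟩ ⟨.ofNat 804, .ofNat 0⟩ ⟨.ofNat 1, .ofNat 0⟩ 27 (.s23 ⟨⟨.ofNat 174485, .ofNat 0⟩, ⟨.ofNat 195717, .ofNat 0⟩, ⟨.ofNat 72912, .ofNat 0⟩, ⟨.ofNat 57288, .ofNat 0⟩⟩ ⟨.ofNat 329, .ofNat 0⟩ ⟨.ofNat 9717, .ofNat 0⟩ ⟨.ofNat 23, .ofNat 0⟩ 27 (.leaf 10 [0, 64, 64, 42, 0, 0, 64]) (.s12 ⟨⟨.ofNat 2300, .negSucc 528⟩, ⟨.ofNat 0, .ofNat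 1242⟩, ⟨.ofNat 1338, .negSucc 371⟩, ⟨.negSucc 95, .ofNat 372⟩⟩ ⟨.ofNat 108, .ofNat 27⟩ ⟨.ofNat 0, .ofNat 1⟩ ⟨.ofNat 2, .ofNat 4⟩ 30 (.leaf 7 [0, 53, 0, 0]) (.leaf 9 [0, 64, 64, 26, 0, 0, 64]))) (.s12 ⟨⟨.ofNat 2300, .negSucc 528⟩, ⟨.ofNat 0, .ofNat 1242⟩, ⟨.ofNat 1338, .negSucc 371⟩, ⟨.negSucc 95, .ofNat 372⟩⟩ ⟨.ofNat 108, .ofNat 27⟩ ⟨.ofNat 0, .ofNat 1⟩ ⟨.ofNat 2, .ofNat 4⟩ 30 (.leaf 7 [0, 53, 0]) (.leaf 7 [0, 64, 63, 0, 0, 41, 0])))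

theorem g47 : Good (PE lin H) ⟨⟨.ofNat 367, .ofNat 0⟩, ⟨.ofNat 425, .ofNat 0⟩, ⟨.ofNat 180, .ofNat 0⟩, ⟨.ofNat 84, .ofNat 0⟩⟩
    ⟨⟨.ofNat 23, .ofNat 0⟩, ⟨.ofNat 46, .ofNat 0⟩, ⟨.ofNat 11, .ofNat 0⟩, ⟨.ofNat 12, .ofNat 0⟩⟩
    ⟨⟨.ofNat 5405, .ofNat 0⟩, ⟨.ofNat 6210, .ofNat 0⟩, ⟨.ofNat 2823, .ofNat 0⟩, ⟨.ofNat 1524, .ofNat 0⟩⟩
    ⟨⟨.ofNat 46, .ofNat 0⟩, ⟨.ofNat 23, .ofNat 0⟩, ⟨.ofNat 11, .ofNat 0⟩, ⟨.ofNat 12, .ofNat 0⟩⟩ :=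
  goodE lin H t47 27 36 27 10 (by decide +kernel)

/-- part of a tree -/
def t49 : Tree := .s12 ⟨⟨.ofNat 85249, .ofNat 0⟩, ⟨.ofNat 86940, .ofNat 0⟩, ⟨.ofNat 43230, .ofNat 0⟩, ⟨.ofNat 17628, .ofNat 0⟩⟩ ⟨.ofNat 162, .ofNat 0⟩ ⟨.ofNat 335, .ofNat 0⟩ ⟨.ofNat 1, .ofNat 0⟩ 26 (.s03 ⟨⟨.ofNat 22, .ofNat 0⟩, ⟨.ofNat 11, .ofNat 0⟩, ⟨.ofNat 8, .ofNat 0⟩, ⟨.ofNat 3, .ofNat 0⟩⟩ ⟨.ofNat 21, .ofNat 0⟩ ⟨.ofNat 1, .ofNat 0⟩ ⟨.ofNat 4, .ofNat 0⟩ 10 (.s23 ⟨⟨.ofNat 425, .ofNat 0⟩, ⟨.ofNat 264, .ofNat 0⟩, ⟨.ofNat 180, .ofNat 0⟩, ⟨.ofNat 84, .ofNat 0⟩⟩ ⟨.ofNat 103, .ofNat 0⟩ ⟨.ofNat 114, .ofNat 0⟩ ⟨.ofNat 31, .ofNat 0⟩ 6 (.s13 ⟨⟨.ofNat 838741, .ofNat 838741⟩, ⟨.negSucc 599885, .ofNat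 1438627⟩, ⟨.negSucc 324851, .ofNat 725989⟩, ⟨.ofNat 324852, .ofNat 112752⟩⟩ ⟨.ofNat 0, .ofNat 23⟩ ⟨.ofNat 36467, .ofNat 12076⟩ ⟨.ofNat 1, .ofNat 1⟩ 2 (.leaf 7 [0, 0, 64, 9, 0, 0]) (.leaf 5 [64, 64, 45, 0, 64, 0])) (.s12 ⟨⟨.ofNat 24539, .ofNat 0⟩, ⟨.ofNat 21735, .ofNat 0⟩, ⟨.ofNat 12840, .ofNat 0⟩, ⟨.ofNat 4548, .ofNat 0⟩⟩ ⟨.ofNat 1, .ofNat 0⟩ ⟨.ofNat 805, .ofNat 0⟩ ⟨.ofNat 6, .ofNat 0⟩ 1 (.leaf 4 [64, 64, 43, 0]) (.leaf 5 [64, 64, 52, 0, 64, 8]))) (.leaf 4 [64, 64, 63, 0, 64, 5, 64])) (.s13 ⟨⟨.ofNat 3703, .ofNat 3703⟩, ⟨.negSucc 3702, .ofNat 7406⟩, ⟨.negSucc 1235, .ofNat 3007⟩, ⟨.ofNat 1236, .ofNat 696⟩⟩ ⟨.ofNat 0, .ofNat 23⟩ ⟨.ofNat 161, .ofNat 58⟩ ⟨.ofNat 1, .ofNat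 1⟩ 1 (.s23 ⟨⟨.ofNat 838741, .ofNat 838741⟩, ⟨.negSucc 599885, .ofNat 1438627⟩, ⟨.negSucc 324851, .ofNat 725989⟩, ⟨.ofNat 324852, .ofNat 112752⟩⟩ ⟨.ofNat 0, .ofNat 23⟩ ⟨.ofNat 36467, .ofNat 12076⟩ ⟨.ofNat 1, .ofNat 1⟩ 2 (.leaf 6 [0, 64, 0, 0, 64, 7, 0]) (.s01 ⟨⟨.ofNat 12767, .ofNat 1401⟩, ⟨.ofNat 829, .ofNat 6255⟩, ⟨.ofNat 3296, .ofNat 1856⟩, ⟨.ofNat 1236, .ofNat 696⟩⟩ ⟨.negSucc 1150, .ofNat 3381⟩ ⟨.ofNat 0, .ofNat 1⟩ ⟨.ofNat 0, .ofNat 1⟩ 3 (.leaf 6 [64, 64, 32, 0, 0]) (.leaf 5 [64, 64, 40, 0, 64, 0, 64]))) (.s03 ⟨⟨.ofNat 14827, .ofNat 2561⟩, ⟨.ofNat 1859, .ofNat 6835⟩, ⟨.ofNat 4326, .ofNat 2436⟩, ⟨.ofNat 1236, .ofNat 696⟩⟩ ⟨.negSucc 570, .ofNat 4991⟩ ⟨.ofNat 0, .ofNat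 1⟩ ⟨.ofNat 0, .ofNat 1⟩ 4 (.s01 ⟨⟨.ofNat 154399, .ofNat 387688⟩, ⟨.ofNat 545468, .ofNat 75509⟩, ⟨.ofNat 157963, .ofNat 122499⟩, ⟨.ofNat 75326, .ofNat 31900⟩⟩ ⟨.ofNat 161, .ofNat 58⟩ ⟨.negSucc 570, .ofNat 4991⟩ ⟨.ofNat 0, .ofNat 6⟩ 1 (.leaf 6 [37, 0, 64, 0]) (.leaf 6 [64, 64, 20, 0, 0, 0, 64])) (.s01 ⟨⟨.ofNat 85, .ofNat 0⟩, ⟨.ofNat 77, .ofNat 0⟩, ⟨.ofNat 42, .ofNat 0⟩, ⟨.ofNat 12, .ofNat 0⟩⟩ ⟨.ofNat 114, .ofNat 0⟩ ⟨.ofNat 1, .ofNat 0⟩ ⟨.ofNat 7, .ofNat 0⟩ 1 (.s13 ⟨⟨.ofNat 154399, .ofNat 387688⟩, ⟨.ofNat 545468, .ofNat 75509⟩, ⟨.ofNat 157963, .ofNat 122499⟩, ⟨.ofNat 75326, .ofNat 31900⟩⟩ ⟨.negSucc 570, .ofNat 4991⟩ ⟨.ofNat 161, .ofNat 58⟩ ⟨.ofNat 0, .ofNat 6⟩ 1 (.leaf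 4 [64, 64, 35, 0, 0, 0, 64]) (.leaf 4 [64, 0, 18, 0, 64])) (.leaf 4 [64, 64, 64, 0, 59, 0, 64]))))

theorem g49 : Good (PE lin H) ⟨⟨.ofNat 2, .ofNat 0⟩, ⟨.ofNat 1, .ofNat 0⟩, ⟨.ofNat 1, .ofNat 0⟩, ⟨.ofNat 0, .ofNat 0⟩⟩
    ⟨⟨.ofNat 367, .ofNat 0⟩, ⟨.ofNat 425, .ofNat 0⟩, ⟨.ofNat 180, .ofNat 0⟩, ⟨.ofNat 84, .ofNat 0⟩⟩
    ⟨⟨.ofNat 77, .ofNat 0⟩, ⟨.ofNat 54, .ofNat 0⟩, ⟨.ofNat 42, .ofNat 0⟩, ⟨.ofNat 12, .ofNat 0⟩⟩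
    ⟨⟨.ofNat 46, .ofNat 0⟩, ⟨.ofNat 23, .ofNat 0⟩, ⟨.ofNat 11, .ofNat 0⟩, ⟨.ofNat 12, .ofNat 0⟩⟩ :=
  goodE lin H t49 10 27 4 10 (by decide +kernel)

/-- part of a tree -/
def t51 : Tree := .leaf 3 [64, 64, 64, 64, 1, 64, 5, 0]

theorem g51 : Good (PE lin H) ⟨⟨.ofNat 2, .ofNat 0⟩, ⟨.ofNat 1, .ofNat 0⟩, ⟨.ofNat 1, .ofNat 0⟩, ⟨.ofNat 0, .ofNat 0⟩⟩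
    ⟨⟨.ofNat 68, .ofNat 0⟩, ⟨.ofNat 91, .ofNat 0⟩, ⟨.ofNat 56, .ofNat 0⟩, ⟨.ofNat 12, .ofNat 0⟩⟩
    ⟨⟨.ofNat 1, .ofNat 0⟩, ⟨.ofNat 1, .ofNat 0⟩, ⟨.ofNat 1, .ofNat 0⟩, ⟨.ofNat 0, .ofNat 0⟩⟩
    ⟨⟨.ofNat 77, .ofNat 0⟩, ⟨.ofNat 54, .ofNat 0⟩, ⟨.ofNat 42, .ofNat 0⟩, ⟨.ofNat 12, .ofNat 0⟩⟩ :=
  goodE lin H t51 10 29 0 4 (by decide +kernel)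

end

end Pool.Agent.PHCert.E5
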