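import Pool.Agent.PHCert.E5H

/-!
# PHCert: inequality E5, part 10 (67 leaves, checked by the kernel)
-/

set_option autoImplicit false

namespace Pool.Agent.PHCert.E5

open Zp Pool.Agent.PHCert

noncomputable section

/-- part of a tree -/
def t52_3 : Tree := .s23 ⟨⟨.ofNat 55, .ofNat 0⟩, ⟨.ofNat 56, .ofNat 0⟩, ⟨.ofNat 32, .ofNat 0⟩, ⟨.ofNat 12, .ofNat 0⟩⟩ ⟨.ofNat 142, .ofNat 0⟩ ⟨.ofNat 11, .ofNat 0⟩ ⟨.ofNat 483, .ofNat 0⟩ 26 (.s03 ⟨⟨.ofNat 4523975, .ofNat 0⟩, ⟨.ofNat 4643056, .ofNat 0⟩, ⟨.ofNat 2573016, .ofNat 0⟩, ⟨.ofNat 909276, .ofNat 0⟩⟩ ⟨.ofNat 674, .ofNat 0⟩ ⟨.ofNat 1205, .ofNat 0⟩ ⟨.ofNat 1, .ofNat 0⟩ 26 (.leaf 5 [3]) (.s02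 ⟨⟨.ofNat 2835, .ofNat 0⟩, ⟨.ofNat 3024, .ofNat 0⟩, ⟨.ofNat 1664, .ofNat 0⟩, ⟨.ofNat 604, .ofNat 0⟩⟩ ⟨.ofNat 8, .ofNat 0⟩ ⟨.ofNat 1205, .ofNat 0⟩ ⟨.ofNat 33, .ofNat 0⟩ 26 (.s13 ⟨⟨.ofNat 175806835, .ofNat 0⟩, ⟨.ofNat 180350956, .ofNat 0⟩, ⟨.ofNat 98568096, .ofNat 0⟩, ⟨.ofNat 36963036, .ofNat 0⟩⟩ ⟨.ofNat 3370, .ofNat 0⟩ ⟨.ofNat 31, .ofNat 0⟩ ⟨.ofNat 1, .ofNat 0⟩ 26 (.leaf 4 []) (.s01 ⟨⟨.ofNat 3322325, .ofNat 0⟩, ⟨.ofNat 3525792, .ofNat 0⟩, ⟨.ofNat 1925472, .ofNat 0⟩, ⟨.ofNat 722052, .ofNat 0⟩⟩ ⟨.ofNat 1023, .ofNat 0⟩ ⟨.ofNat 40, .ofNat 0⟩ ⟨.ofNat 1, .ofNat 0⟩ 26 (.leaf 5 []) (.leaf 4 []))) (.s01 ⟨⟨.ofNat 158475, .ofNat 0⟩, ⟨.ofNat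 179239, .ofNat 0⟩, ⟨.ofNat 91264, .ofNat 0⟩, ⟨.ofNat 34224, .ofNat 0⟩⟩ ⟨.ofNat 31, .ofNat 0⟩ ⟨.ofNat 5, .ofNat 0⟩ ⟨.ofNat 1, .ofNat 0⟩ 27 (.s13 ⟨⟨.ofNat 175806835, .ofNat 0⟩, ⟨.ofNat 180350956, .ofNat 0⟩, ⟨.ofNat 98568096, .ofNat 0⟩, ⟨.ofNat 36963036, .ofNat 0⟩⟩ ⟨.ofNat 3370, .ofNat 0⟩ ⟨.ofNat 31, .ofNat 0⟩ ⟨.ofNat 1, .ofNat 0⟩ 26 (.leaf 4 [0]) (.s12 ⟨⟨.ofNat 3322325, .ofNat 0⟩, ⟨.ofNat 3525792, .ofNat 0⟩, ⟨.ofNat 1925472, .ofNat 0⟩, ⟨.ofNat 722052, .ofNat 0⟩⟩ ⟨.ofNat 40, .ofNat 0⟩ ⟨.ofNat 1023, .ofNat 0⟩ ⟨.ofNat 1, .ofNat 0⟩ 26 (.leaf 4 [0]) (.leaf 5 [13]))) (.leaf 4 [62])))) (.s23 ⟨⟨.ofNat 157, .ofNat 0⟩, ⟨.ofNat 176, .ofNat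 0⟩, ⟨.ofNat 96, .ofNat 0⟩, ⟨.ofNat 36, .ofNat 0⟩⟩ ⟨.ofNat 8, .ofNat 0⟩ ⟨.ofNat 25, .ofNat 0⟩ ⟨.ofNat 11, .ofNat 0⟩ 27 (.s03 ⟨⟨.ofNat 2835, .ofNat 0⟩, ⟨.ofNat 3024, .ofNat 0⟩, ⟨.ofNat 1664, .ofNat 0⟩, ⟨.ofNat 604, .ofNat 0⟩⟩ ⟨.ofNat 8, .ofNat 0⟩ ⟨.ofNat 1205, .ofNat 0⟩ ⟨.ofNat 33, .ofNat 0⟩ 26 (.s01 ⟨⟨.ofNat 3322325, .ofNat 0⟩, ⟨.ofNat 3525792, .ofNat 0⟩, ⟨.ofNat 1925472, .ofNat 0⟩, ⟨.ofNat 722052, .ofNat 0⟩⟩ ⟨.ofNat 1023, .ofNat 0⟩ ⟨.ofNat 40, .ofNat 0⟩ ⟨.ofNat 1, .ofNat 0⟩ 26 (.leaf 5 [41]) (.leaf 4 [54])) (.s01 ⟨⟨.ofNat 158475, .ofNat 0⟩, ⟨.ofNat 179239, .ofNat 0⟩, ⟨.ofNat 91264, .ofNat 0⟩, ⟨.ofNat 34224, .ofNat 0⟩⟩ ⟨.ofNat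 31, .ofNat 0⟩ ⟨.ofNat 5, .ofNat 0⟩ ⟨.ofNat 1, .ofNat 0⟩ 27 (.s13 ⟨⟨.ofNat 3322325, .ofNat 0⟩, ⟨.ofNat 3525792, .ofNat 0⟩, ⟨.ofNat 1925472, .ofNat 0⟩, ⟨.ofNat 722052, .ofNat 0⟩⟩ ⟨.ofNat 40, .ofNat 0⟩ ⟨.ofNat 1023, .ofNat 0⟩ ⟨.ofNat 1, .ofNat 0⟩ 26 (.leaf 4 [50, 16]) (.leaf 5 [40, 42])) (.leaf 4 [55, 62]))) (.leaf 5 [48, 64, 0]))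

/-- part of a tree -/
def t52_2 : Tree := .s02 ⟨⟨.ofNat 3410, .ofNat 0⟩, ⟨.ofNat 4039, .ofNat 0⟩, ⟨.ofNat 2044, .ofNat 0⟩, ⟨.ofNat 684, .ofNat 0⟩⟩ ⟨.ofNat 22, .ofNat 0⟩ ⟨.ofNat 35, .ofNat 0⟩ ⟨.ofNat 1, .ofNat 0⟩ 28 t52_3 (.s02 ⟨⟨.ofNat 1240, .ofNat 0⟩, ⟨.ofNat 1259, .ofNat 0⟩, ⟨.ofNat 664, .ofNat 0⟩, ⟨.ofNat 204, .ofNat 0⟩⟩ ⟨.ofNat 62, .ofNat 0⟩ ⟨.ofNat 1, .ofNat 0⟩ ⟨.ofNat 7, .ofNat 0⟩ 26 (.s23 ⟨⟨.ofNat 4523975, .ofNat 0⟩, ⟨.ofNat 4643056, .ofNat 0⟩, ⟨.ofNat 2573016, .ofNat 0⟩, ⟨.ofNat 909276, .ofNat 0⟩⟩ ⟨.ofNat 674, .ofNat 0⟩ ⟨.ofNat 1205, .ofNat 0⟩ ⟨.ofNat 1, .ofNat 0⟩ 26 (.leaf 5 [64, 54, 0]) (.leaf 5 [64, 0])) (.s01 ⟨⟨.ofNat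 1257780, .ofNat 0⟩, ⟨.ofNat 1207943, .ofNat 0⟩, ⟨.ofNat 641598, .ofNat 0⟩, ⟨.ofNat 238848, .ofNat 0⟩⟩ ⟨.ofNat 7969, .ofNat 0⟩ ⟨.ofNat 55, .ofNat 0⟩ ⟨.ofNat 1, .ofNat 0⟩ 0 (.leaf 5 [64, 54, 0]) (.leaf 4 [64, 48, 64, 64, 0, 64])))

/-- part of a tree -/
def t52_1 : Tree := .s13 ⟨⟨.ofNat 1847, .ofNat 0⟩, ⟨.ofNat 1594, .ofNat 0⟩, ⟨.ofNat 992, .ofNat 0⟩, ⟨.ofNat 372, .ofNat 0⟩⟩ ⟨.ofNat 5, .ofNat 0⟩ ⟨.ofNat 682, .ofNat 0⟩ ⟨.ofNat 57, .ofNat 0⟩ 1 (.s02 ⟨⟨.ofNat 3410, .ofNat 0⟩, ⟨.ofNat 4039, .ofNat 0⟩, ⟨.ofNat 2044, .ofNat 0⟩, ⟨.ofNat 684, .ofNat 0⟩⟩ ⟨.ofNat 22, .ofNat 0⟩ ⟨.ofNat 35, .ofNat 0⟩ ⟨.ofNat 1, .ofNat 0⟩ 28 (.s23 ⟨⟨.ofNat 2530,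 .ofNat 0⟩, ⟨.ofNat 2461, .ofNat 0⟩, ⟨.ofNat 1532, .ofNat 0⟩, ⟨.ofNat 492, .ofNat 0⟩⟩ ⟨.ofNat 19, .ofNat 0⟩ ⟨.ofNat 22, .ofNat 0⟩ ⟨.ofNat 1, .ofNat 0⟩ 0 (.leaf 4 [64, 64, 3]) (.s12 ⟨⟨.ofNat 55, .ofNat 0⟩, ⟨.ofNat 56, .ofNat 0⟩, ⟨.ofNat 32, .ofNat 0⟩, ⟨.ofNat 12, .ofNat 0⟩⟩ ⟨.ofNat 11, .ofNat 0⟩ ⟨.ofNat 142, .ofNat 0⟩ ⟨.ofNat 483, .ofNat 0⟩ 26 (.s23 ⟨⟨.ofNat 4301, .ofNat 0⟩, ⟨.ofNat 4968, .ofNat 0⟩, ⟨.ofNat 2778, .ofNat 0⟩, ⟨.ofNat 948, .ofNat 0⟩⟩ ⟨.ofNat 713, .ofNat 0⟩ ⟨.ofNat 25, .ofNat 0⟩ ⟨.ofNat 22, .ofNat 0⟩ 27 (.leaf 4 [64, 56, 0]) (.s12 ⟨⟨.ofNat 157, .ofNat 0⟩, ⟨.ofNat 176, .ofNat 0⟩, ⟨.ofNat 96, .ofNat 0⟩, ⟨.ofNat 36, .ofNat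 0⟩⟩ ⟨.ofNat 25, .ofNat 0⟩ ⟨.ofNat 8, .ofNat 0⟩ ⟨.ofNat 11, .ofNat 0⟩ 27 (.leaf 4 [54]) (.leaf 4 [64, 56]))) (.leaf 4 [64, 56, 0]))) (.s02 ⟨⟨.ofNat 1240, .ofNat 0⟩, ⟨.ofNat 1259, .ofNat 0⟩, ⟨.ofNat 664, .ofNat 0⟩, ⟨.ofNat 204, .ofNat 0⟩⟩ ⟨.ofNat 62, .ofNat 0⟩ ⟨.ofNat 1, .ofNat 0⟩ ⟨.ofNat 7, .ofNat 0⟩ 26 (.leaf 4 [64, 64, 3]) (.leaf 4 [64, 44, 64, 64, 7, 64]))) t52_2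

/-- part of a tree -/
def t52_0 : Tree := .s13 ⟨⟨.ofNat 10553, .ofNat 0⟩, ⟨.ofNat 10806, .ofNat 0⟩, ⟨.ofNat 5580, .ofNat 0⟩, ⟨.ofNat 2604, .ofNat 0⟩⟩ ⟨.ofNat 114, .ofNat 0⟩ ⟨.ofNat 103, .ofNat 0⟩ ⟨.ofNat 1, .ofNat 0⟩ 26 t52_1 (.s13 ⟨⟨.ofNat 5405, .ofNat 0⟩, ⟨.ofNat 6210, .ofNat 0⟩, ⟨.ofNat 2823, .ofNat 0⟩, ⟨.ofNat 1524, .ofNat 0⟩⟩ ⟨.ofNat 3099, .ofNat 0⟩ ⟨.ofNat 46, .ofNat 0⟩ ⟨.ofNat 103, .ofNat 0⟩ 27 (.s02 ⟨⟨.ofNat 3410, .ofNat 0⟩, ⟨.ofNat 4039, .ofNat 0⟩, ⟨.ofNat 2044, .ofNat 0⟩, ⟨.ofNat 684, .ofNat 0⟩⟩ ⟨.ofNat 22, .ofNat 0⟩ ⟨.ofNat 35, .ofNat 0⟩ ⟨.ofNat 1, .ofNat 0⟩ 28 (.leaf 5 [56, 64, 0]) (.s01 ⟨⟨.ofNat 155250, .ofNat 0⟩,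 ⟨.ofNat 155089, .ofNat 0⟩, ⟨.ofNat 78387, .ofNat 0⟩, ⟨.ofNat 30288, .ofNat 0⟩⟩ ⟨.ofNat 1127, .ofNat 0⟩ ⟨.ofNat 11, .ofNat 0⟩ ⟨.ofNat 1, .ofNat 0⟩ 0 (.leaf 5 [50, 64, 0]) (.s02 ⟨⟨.ofNat 1240, .ofNat 0⟩, ⟨.ofNat 1259, .ofNat 0⟩, ⟨.ofNat 664, .ofNat 0⟩, ⟨.ofNat 204, .ofNat 0⟩⟩ ⟨.ofNat 62, .ofNat 0⟩ ⟨.ofNat 1, .ofNat 0⟩ ⟨.ofNat 7, .ofNat 0⟩ 26 (.leaf 5 [55, 0]) (.s03 ⟨⟨.ofNat 1257780, .ofNat 0⟩, ⟨.ofNat 1207943, .ofNat 0⟩, ⟨.ofNat 641598, .ofNat 0⟩, ⟨.ofNat 238848, .ofNat 0⟩⟩ ⟨.ofNat 7969, .ofNat 0⟩ ⟨.ofNat 55, .ofNat 0⟩ ⟨.ofNat 1, .ofNat 0⟩ 0 (.leaf 5 [56, 0]) (.leaf 4 [64, 52, 64]))))) (.s01 ⟨⟨.ofNat 131, .ofNat 0⟩, ⟨.ofNat 169,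 .ofNat 0⟩, ⟨.ofNat 64, .ofNat 0⟩, ⟨.ofNat 36, .ofNat 0⟩⟩ ⟨.ofNat 1, .ofNat 0⟩ ⟨.ofNat 2, .ofNat 0⟩ ⟨.ofNat 1, .ofNat 0⟩ 29 (.s13 ⟨⟨.ofNat 2300, .negSucc 528⟩, ⟨.ofNat 0, .ofNat 1242⟩, ⟨.ofNat 1338, .negSucc 371⟩, ⟨.negSucc 95, .ofNat 372⟩⟩ ⟨.ofNat 108, .ofNat 27⟩ ⟨.ofNat 0, .ofNat 1⟩ ⟨.ofNat 2, .ofNat 4⟩ 30 (.leaf 6 [45, 64, 64, 42, 0]) (.leaf 6 [64, 64, 64, 3, 0, 0, 0, 0])) (.s02 ⟨⟨.ofNat 3410, .ofNat 0⟩, ⟨.ofNat 4039, .ofNat 0⟩, ⟨.ofNat 2044, .ofNat 0⟩, ⟨.ofNat 684, .ofNat 0⟩⟩ ⟨.ofNat 22, .ofNat 0⟩ ⟨.ofNat 35, .ofNat 0⟩ ⟨.ofNat 1, .ofNat 0⟩ 28 (.leaf 6 [41, 64, 64, 58]) (.s03 ⟨⟨.ofNat 155250, .ofNat 0⟩, ⟨.ofNat 155089, .ofNat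 0⟩, ⟨.ofNat 78387, .ofNat 0⟩, ⟨.ofNat 30288, .ofNat 0⟩⟩ ⟨.ofNat 1127, .ofNat 0⟩ ⟨.ofNat 11, .ofNat 0⟩ ⟨.ofNat 1, .ofNat 0⟩ 0 (.leaf 6 [0, 64, 64, 64, 0]) (.leaf 5 [64, 33, 64, 64, 45, 0, 64])))))

/-- part of a tree -/
def t52 : Tree := .s12 ⟨⟨.ofNat 44, .ofNat 0⟩, ⟨.ofNat 67, .ofNat 0⟩, ⟨.ofNat 32, .ofNat 0⟩, ⟨.ofNat 12, .ofNat 0⟩⟩ ⟨.ofNat 8, .ofNat 0⟩ ⟨.ofNat 7, .ofNat 0⟩ ⟨.ofNat 15, .ofNat 0⟩ 31 (.s02 ⟨⟨.ofNat 5270, .ofNat 0⟩, ⟨.ofNat 5803, .ofNat 0⟩, ⟨.ofNat 3388, .ofNat 0⟩, ⟨.ofNat 828, .ofNat 0⟩⟩ ⟨.ofNat 34, .ofNat 0⟩ ⟨.ofNat 35, .ofNat 0⟩ ⟨.ofNat 1, .ofNat 0⟩ 27 (.s23 ⟨⟨.ofNat 3910, .ofNat 0⟩, ⟨.ofNat 3565, .ofNat 0⟩, ⟨.ofNat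 2492, .ofNat 0⟩, ⟨.ofNat 636, .ofNat 0⟩⟩ ⟨.ofNat 19, .ofNat 0⟩ ⟨.ofNat 34, .ofNat 0⟩ ⟨.ofNat 1, .ofNat 0⟩ 1 (.s13 ⟨⟨.ofNat 2530, .ofNat 0⟩, ⟨.ofNat 2461, .ofNat 0⟩, ⟨.ofNat 1532, .ofNat 0⟩, ⟨.ofNat 492, .ofNat 0⟩⟩ ⟨.ofNat 19, .ofNat 0⟩ ⟨.ofNat 22, .ofNat 0⟩ ⟨.ofNat 1, .ofNat 0⟩ 0 (.leaf 3 [64, 61, 64]) (.leaf 4 [64, 46, 0, 64])) (.leaf 4 [64, 46, 0, 64])) (.s01 ⟨⟨.ofNat 3410, .ofNat 0⟩, ⟨.ofNat 4039, .ofNat 0⟩, ⟨.ofNat 2044, .ofNat 0⟩, ⟨.ofNat 684, .ofNat 0⟩⟩ ⟨.ofNat 22, .ofNat 0⟩ ⟨.ofNat 35, .ofNat 0⟩ ⟨.ofNat 1, .ofNat 0⟩ 28 (.s13 ⟨⟨.ofNat 2530, .ofNat 0⟩, ⟨.ofNat 2461, .ofNat 0⟩, ⟨.ofNat 1532, .ofNat 0⟩, ⟨.ofNat 492, .ofNat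 0⟩⟩ ⟨.ofNat 19, .ofNat 0⟩ ⟨.ofNat 22, .ofNat 0⟩ ⟨.ofNat 1, .ofNat 0⟩ 0 (.leaf 4 [64, 64, 3, 64]) (.leaf 4 [64, 43, 0, 64])) (.s02 ⟨⟨.ofNat 21080, .ofNat 0⟩, ⟨.ofNat 20713, .ofNat 0⟩, ⟨.ofNat 11648, .ofNat 0⟩, ⟨.ofNat 3108, .ofNat 0⟩⟩ ⟨.ofNat 1054, .ofNat 0⟩ ⟨.ofNat 11, .ofNat 0⟩ ⟨.ofNat 7, .ofNat 0⟩ 0 (.leaf 4 [64, 64, 3, 64]) (.s01 ⟨⟨.ofNat 1240, .ofNat 0⟩, ⟨.ofNat 1259, .ofNat 0⟩, ⟨.ofNat 664, .ofNat 0⟩, ⟨.ofNat 204, .ofNat 0⟩⟩ ⟨.ofNat 62, .ofNat 0⟩ ⟨.ofNat 1, .ofNat 0⟩ ⟨.ofNat 7, .ofNat 0⟩ 26 (.leaf 4 [64, 64, 3, 64]) (.leaf 3 [64, 34, 64, 64, 12, 64]))))) t52_0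

theorem g52 : Good (PE lin H) ⟨⟨.ofNat 85, .ofNat 0⟩, ⟨.ofNat 77, .ofNat 0⟩, ⟨.ofNat 42, .ofNat 0⟩, ⟨.ofNat 12, .ofNat 0⟩⟩
    ⟨⟨.ofNat 23, .ofNat 0⟩, ⟨.ofNat 46, .ofNat 0⟩, ⟨.ofNat 11, .ofNat 0⟩, ⟨.ofNat 12, .ofNat 0⟩⟩
    ⟨⟨.ofNat 68, .ofNat 0⟩, ⟨.ofNat 91, .ofNat 0⟩, ⟨.ofNat 56, .ofNat 0⟩, ⟨.ofNat 12, .ofNat 0⟩⟩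
    ⟨⟨.ofNat 77, .ofNat 0⟩, ⟨.ofNat 54, .ofNat 0⟩, ⟨.ofNat 42, .ofNat 0⟩, ⟨.ofNat 12, .ofNat 0⟩⟩ :=
  goodE lin H t52 1 36 29 4 (by decide +kernel)

/-- part of a tree -/
def t53 : Tree := .s02 ⟨⟨.ofNat 170, .ofNat 0⟩, ⟨.ofNat 142, .ofNat 0⟩, ⟨.ofNat 107, .ofNat 0⟩, ⟨.ofNat 12, .ofNat 0⟩⟩ ⟨.ofNat 51, .ofNat 0⟩ ⟨.ofNat 1, .ofNat 0⟩ ⟨.ofNat 1, .ofNat 0⟩ 2 (.s12 ⟨⟨.ofNat 21080, .ofNat 0⟩, ⟨.ofNat 20713, .ofNat 0⟩, ⟨.ofNat 11648, .ofNat 0⟩, ⟨.ofNat 3108, .ofNat 0⟩⟩ ⟨.ofNat 204, .ofNat 0⟩ ⟨.ofNat 55, .ofNat 0⟩ ⟨.ofNat 1, .ofNat 0⟩ 0 (.leaf 3 [17, 64, 34, 64]) (.leaf 3 [64, 0, 64, 30, 64])) (.leaf 3 [64, 64, 10, 0, 64, 53, 64])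

theorem g53 : Good (PE lin H) ⟨⟨.ofNat 2, .ofNat 0⟩, ⟨.ofNat 1, .ofNat 0⟩, ⟨.ofNat 1, .ofNat 0⟩, ⟨.ofNat 0, .ofNat 0⟩⟩
    ⟨⟨.ofNat 85, .ofNat 0⟩, ⟨.ofNat 77, .ofNat 0⟩, ⟨.ofNat 42, .ofNat 0⟩, ⟨.ofNat 12, .ofNat 0⟩⟩
    ⟨⟨.ofNat 68, .ofNat 0⟩, ⟨.ofNat 91, .ofNat 0⟩, ⟨.ofNat 56, .ofNat 0⟩, ⟨.ofNat 12, .ofNat 0⟩⟩
    ⟨⟨.ofNat 77, .ofNat 0⟩, ⟨.ofNat 54, .ofNat 0⟩, ⟨.ofNat 42, .ofNat 0⟩, ⟨.ofNat 12, .ofNat 0⟩⟩ :=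
  goodE lin H t53 10 1 29 4 (by decide +kernel)

/-- part of a tree -/
def t57_0 : Tree := .s02 ⟨⟨.ofNat 528, .ofNat 0⟩, ⟨.ofNat 425, .ofNat 0⟩, ⟨.ofNat 180, .ofNat 0⟩, ⟨.ofNat 84, .ofNat 0⟩⟩ ⟨.ofNat 7, .ofNat 0⟩ ⟨.ofNat 103, .ofNat 0⟩ ⟨.ofNat 1, .ofNat 0⟩ 2 (.s23 ⟨⟨.negSucc 2557, .ofNat 4315⟩, ⟨.ofNat 3482, .negSucc 222⟩, ⟨.ofNat 224, .ofNat 992⟩, ⟨.ofNat 84, .ofNat 372⟩⟩ ⟨.ofNat 1364, .ofNat 85⟩ ⟨.ofNat 0, .ofNat 3⟩ ⟨.ofNat 0, .ofNat 1⟩ 4 (.s01 ⟨⟨.ofNat 0, .ofNat 792⟩, ⟨.ofNat 1459, .negSucc 91⟩, ⟨.ofNat 444, .ofNat 48⟩, ⟨.ofNat 348, .negSucc 47⟩⟩ ⟨.negSucc 30, .ofNat 69⟩ ⟨.ofNat 264, .ofNat 0⟩ ⟨.ofNat 23, .ofNat 23⟩ 26 (.s12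 ⟨⟨.ofNat 17457, .ofNat 13846⟩, ⟨.negSucc 28289, .ofNat 38525⟩, ⟨.negSucc 1695, .ofNat 11704⟩, ⟨.negSucc 1914, .ofNat 5753⟩⟩ ⟨.ofNat 1364, .ofNat 85⟩ ⟨.ofNat 69, .ofNat 38⟩ ⟨.ofNat 0, .ofNat 12⟩ 1 (.leaf 7 [64, 64, 57, 0, 0, 0]) (.s23 ⟨⟨.ofNat 0, .ofNat 25⟩, ⟨.ofNat 75, .negSucc 24⟩, ⟨.ofNat 16, .ofNat 0⟩, ⟨.ofNat 9, .ofNat 0⟩⟩ ⟨.negSucc 30, .ofNat 31⟩ ⟨.ofNat 248, .ofNat 304⟩ ⟨.ofNat 31372, .ofNat 1955⟩ 1 (.s13 ⟨⟨.ofNat 10051, .ofNat 0⟩, ⟨.ofNat 10580, .ofNat 0⟩, ⟨.ofNat 4157, .ofNat 0⟩, ⟨.ofNat 2720, .ofNat 0⟩⟩ ⟨.ofNat 3703, .ofNat 529⟩ ⟨.ofNat 197, .ofNat 394⟩ ⟨.ofNat 69, .ofNat 38⟩ 26 (.leaf 7 [24, 64, 48, 0]) (.s12 ⟨⟨.ofNat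 475, .ofNat 0⟩, ⟨.ofNat 500, .ofNat 0⟩, ⟨.ofNat 208, .ofNat 0⟩, ⟨.ofNat 117, .ofNat 0⟩⟩ ⟨.ofNat 325, .negSucc 149⟩ ⟨.ofNat 0, .ofNat 197⟩ ⟨.ofNat 100, .negSucc 30⟩ 26 (.leaf 7 [29, 64, 42, 0]) (.leaf 7 [64, 1, 64, 49]))) (.s13 ⟨⟨.ofNat 250, .ofNat 0⟩, ⟨.ofNat 275, .ofNat 0⟩, ⟨.ofNat 112, .ofNat 0⟩, ⟨.ofNat 63, .ofNat 0⟩⟩ ⟨.negSucc 74, .ofNat 100⟩ ⟨.ofNat 83, .ofNat 83⟩ ⟨.negSucc 30, .ofNat 69⟩ 27 (.leaf 6 [43, 64, 49, 0]) (.leaf 6 [64, 0, 64, 64, 35, 0])))) (.leaf 7 [64, 64, 57, 0, 0, 0])) (.s12 ⟨⟨.ofNat 230, .ofNat 0⟩, ⟨.ofNat 253, .ofNat 0⟩, ⟨.ofNat 113, .ofNat 0⟩, ⟨.ofNat 48, .ofNat 0⟩⟩ ⟨.ofNat 4, .ofNat 0⟩ ⟨.ofNat 83, .ofNat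 0⟩ ⟨.ofNat 3, .ofNat 0⟩ 27 (.leaf 4 [64, 64, 4, 64, 0, 0, 0, 64]) (.s01 ⟨⟨.ofNat 0, .ofNat 792⟩, ⟨.ofNat 1459, .negSucc 91⟩, ⟨.ofNat 444, .ofNat 48⟩, ⟨.ofNat 348, .negSucc 47⟩⟩ ⟨.negSucc 30, .ofNat 69⟩ ⟨.ofNat 264, .ofNat 0⟩ ⟨.ofNat 23, .ofNat 23⟩ 26 (.s13 ⟨⟨.ofNat 17457, .ofNat 13846⟩, ⟨.negSucc 28289, .ofNat 38525⟩, ⟨.negSucc 1695, .ofNat 11704⟩, ⟨.negSucc 1914, .ofNat 5753⟩⟩ ⟨.ofNat 1364, .ofNat 85⟩ ⟨.ofNat 69, .ofNat 38⟩ ⟨.ofNat 0, .ofNat 12⟩ 1 (.leaf 5 [64, 58, 0, 64, 62, 0, 0, 0]) (.leaf 6 [64, 0, 64, 64, 35, 0])) (.leaf 5 [64, 58, 0, 64, 62, 0, 0, 0])))) (.s03 ⟨⟨.negSucc 1057, .ofNat 1587⟩, ⟨.ofNat 529, .ofNat 529⟩, ⟨.ofNat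 248, .ofNat 129⟩, ⟨.negSucc 247, .ofNat 400⟩⟩ ⟨.ofNat 23, .ofNat 0⟩ ⟨.ofNat 0, .ofNat 1⟩ ⟨.ofNat 0, .ofNat 1⟩ 1 (.s12 ⟨⟨.ofNat 0, .ofNat 792⟩, ⟨.ofNat 1459, .negSucc 91⟩, ⟨.ofNat 444, .ofNat 48⟩, ⟨.ofNat 348, .negSucc 47⟩⟩ ⟨.ofNat 264, .ofNat 0⟩ ⟨.negSucc 30, .ofNat 69⟩ ⟨.ofNat 23, .ofNat 23⟩ 26 (.leaf 7 [64, 64, 47, 0]) (.s13 ⟨⟨.ofNat 10051, .ofNat 0⟩, ⟨.ofNat 10580, .ofNat 0⟩, ⟨.ofNat 4157, .ofNat 0⟩, ⟨.ofNat 2720, .ofNat 0⟩⟩ ⟨.ofNat 3703, .ofNat 529⟩ ⟨.ofNat 197, .ofNat 394⟩ ⟨.ofNat 69, .ofNat 38⟩ 26 (.s02 ⟨⟨.ofNat 467682, .ofNat 289368⟩, ⟨.negSucc 139098, .ofNat 647496⟩, ⟨.negSucc 19385, .ofNat 217764⟩, ⟨.negSucc 12923, .ofNat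 145176⟩⟩ ⟨.ofNat 42, .ofNat 162⟩ ⟨.negSucc 148, .ofNat 322⟩ ⟨.ofNat 1, .ofNat 0⟩ 0 (.leaf 7 [64, 64, 24, 64, 48, 0]) (.s01 ⟨⟨.ofNat 4232, .ofNat 11638⟩, ⟨.ofNat 14812, .ofNat 4761⟩, ⟨.ofNat 6022, .ofNat 1280⟩, ⟨.ofNat 1384, .ofNat 2952⟩⟩ ⟨.ofNat 7, .ofNat 1⟩ ⟨.ofNat 1, .ofNat 0⟩ ⟨.ofNat 1, .ofNat 0⟩ 0 (.leaf 8 [64, 64, 34, 64, 38, 0]) (.leaf 8 [64, 64, 63, 0]))) (.s01 ⟨⟨.ofNat 73002, .ofNat 56603⟩, ⟨.negSucc 69298, .ofNat 146004⟩, ⟨.negSucc 32642, .ofNat 55870⟩, ⟨.ofNat 16244, .ofNat 17132⟩⟩ ⟨.ofNat 69, .ofNat 38⟩ ⟨.ofNat 529, .ofNat 0⟩ ⟨.ofNat 0, .ofNat 1⟩ 26 (.leaf 7 [64, 1, 64, 48]) (.leaf 8 [64, 64, 30, 64])))) (.leaf 7 [64,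 64, 3, 0, 64, 64, 0]))

/-- part of a tree -/
def t57 : Tree := .s13 ⟨⟨.ofNat 0, .ofNat 529⟩, ⟨.ofNat 1587, .negSucc 528⟩, ⟨.ofNat 501, .negSucc 123⟩, ⟨.ofNat 28, .ofNat 124⟩⟩ ⟨.ofNat 23, .ofNat 0⟩ ⟨.negSucc 30, .ofNat 69⟩ ⟨.ofNat 3, .ofNat 3⟩ 1 (.s23 ⟨⟨.ofNat 50, .ofNat 0⟩, ⟨.ofNat 25, .ofNat 0⟩, ⟨.ofNat 16, .ofNat 0⟩, ⟨.ofNat 9, .ofNat 0⟩⟩ ⟨.ofNat 31, .ofNat 0⟩ ⟨.ofNat 3, .ofNat 0⟩ ⟨.ofNat 4, .ofNat 0⟩ 10 (.leaf 9 [0, 64, 64, 64, 64, 15, 0, 0, 0, 64, 64]) (.s02 ⟨⟨.ofNat 528, .ofNat 0⟩, ⟨.ofNat 425, .ofNat 0⟩, ⟨.ofNat 180, .ofNat 0⟩, ⟨.ofNat 84, .ofNat 0⟩⟩ ⟨.ofNat 7, .ofNat 0⟩ ⟨.ofNat 103, .ofNat 0⟩ ⟨.ofNat 1, .ofNat 0⟩ 2 (.leaf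 6 [60, 64, 64, 0, 0, 64]) (.leaf 8 [0, 64, 64, 64, 57, 0, 0, 0]))) t57_0

theorem g57 : Good (PE lin H) ⟨⟨.ofNat 46, .ofNat 0⟩, ⟨.ofNat 46, .ofNat 0⟩, ⟨.ofNat 11, .ofNat 0⟩, ⟨.ofNat 12, .ofNat 0⟩⟩
    ⟨⟨.ofNat 131, .ofNat 0⟩, ⟨.ofNat 169, .ofNat 0⟩, ⟨.ofNat 64, .ofNat 0⟩, ⟨.ofNat 36, .ofNat 0⟩⟩
    ⟨⟨.ofNat 2, .ofNat 0⟩, ⟨.ofNat 1, .ofNat 0⟩, ⟨.ofNat 1, .ofNat 0⟩, ⟨.ofNat 0, .ofNat 0⟩⟩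
    ⟨⟨.ofNat 46, .ofNat 0⟩, ⟨.ofNat 23, .ofNat 0⟩, ⟨.ofNat 11, .ofNat 0⟩, ⟨.ofNat 12, .ofNat 0⟩⟩ :=
  goodE lin H t57 0 29 10 10 (by decide +kernel)

end

end Pool.Agent.PHCert.E5
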