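import Pool.Agent.PHCert.E5H

/-!
# PHCert: inequality E5, part 12 (27 leaves, checked by the kernel)
-/

set_option autoImplicit false

namespace Pool.Agent.PHCert.E5

open Zp Pool.Agent.PHCert

noncomputable section

/-- part of a tree -/
def t65_1 : Tree := .s12 ⟨⟨.ofNat 6, .ofNat 0⟩, ⟨.ofNat 10, .ofNat 0⟩, ⟨.ofNat 3, .ofNat 0⟩, ⟨.ofNat 0, .ofNat 0⟩⟩ ⟨.ofNat 7, .ofNat 0⟩ ⟨.ofNat 3, .ofNat 0⟩ ⟨.ofNat 1, .ofNat 0⟩ 33 (.s02 ⟨⟨.ofNat 108, .ofNat 0⟩, ⟨.ofNat 77, .ofNat 0⟩, ⟨.ofNat 42, .ofNat 0⟩, ⟨.ofNat 12, .ofNat 0⟩⟩ ⟨.ofNat 1, .ofNat 0⟩ ⟨.ofNat 31, .ofNat 0⟩ ⟨.ofNat 1, .ofNat 0⟩ 4 (.s23 ⟨⟨.ofNat 169, .ofNat 0⟩, ⟨.ofNat 119,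 .ofNat 0⟩, ⟨.ofNat 84, .ofNat 0⟩, ⟨.ofNat 12, .ofNat 0⟩⟩ ⟨.ofNat 408, .ofNat 0⟩ ⟨.ofNat 1, .ofNat 0⟩ ⟨.ofNat 7, .ofNat 0⟩ 4 (.s13 ⟨⟨.ofNat 339, .ofNat 0⟩, ⟨.ofNat 485, .ofNat 0⟩, ⟨.ofNat 168, .ofNat 0⟩, ⟨.ofNat 36, .ofNat 0⟩⟩ ⟨.ofNat 212, .ofNat 0⟩ ⟨.ofNat 3, .ofNat 0⟩ ⟨.ofNat 7, .ofNat 0⟩ 30 (.s03 ⟨⟨.ofNat 0, .ofNat 8694⟩, ⟨.ofNat 17641, .negSucc 2621⟩, ⟨.ofNat 4026, .ofNat 1368⟩, ⟨.ofNat 4668, .negSucc 1367⟩⟩ ⟨.ofNat 161, .ofNat 58⟩ ⟨.ofNat 0, .ofNat 54⟩ ⟨.ofNat 1, .ofNat 2⟩ 0 (.leaf 4 [64, 64, 57, 0, 64, 64, 64, 64, 64, 23, 0, 0, 0, 64]) (.leaf 3 [64, 64, 64, 64, 64, 64, 0, 0, 0, 0, 64])) (.leaf 2 [0, 64, 64, 64, 64,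 64, 64, 3, 0, 0, 0, 0])) (.leaf 1 [64, 64, 64, 64, 64, 64, 9, 0, 0, 0, 0])) (.s23 ⟨⟨.ofNat 0, .ofNat 8694⟩, ⟨.ofNat 17641, .negSucc 2621⟩, ⟨.ofNat 4026, .ofNat 1368⟩, ⟨.ofNat 4668, .negSucc 1367⟩⟩ ⟨.ofNat 161, .ofNat 58⟩ ⟨.ofNat 0, .ofNat 54⟩ ⟨.ofNat 1, .ofNat 2⟩ 0 (.s01 ⟨⟨.ofNat 22, .ofNat 0⟩, ⟨.ofNat 29, .ofNat 0⟩, ⟨.ofNat 8, .ofNat 0⟩, ⟨.ofNat 3, .ofNat 0⟩⟩ ⟨.ofNat 1, .ofNat 0⟩ ⟨.ofNat 7, .ofNat 0⟩ ⟨.ofNat 4, .ofNat 0⟩ 29 (.leaf 5 [64, 64, 17, 0, 64, 64, 64, 64, 64, 19, 0, 64]) (.s03 ⟨⟨.ofNat 0, .ofNat 3703⟩, ⟨.ofNat 2668, .ofNat 2369⟩, ⟨.ofNat 4243, .negSucc 1235⟩, ⟨.negSucc 539, .ofNat 1236⟩⟩ ⟨.ofNat 161, .ofNat 58⟩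 ⟨.ofNat 0, .ofNat 23⟩ ⟨.ofNat 1, .ofNat 2⟩ 27 (.leaf 6 [64, 64, 10, 0, 64, 64, 64, 64, 2, 64]) (.leaf 6 [64, 64, 64, 64, 64, 12, 64]))) (.leaf 4 [0, 64, 64, 64, 64, 64, 54, 0, 0, 0, 64]))) (.s13 ⟨⟨.ofNat 367, .ofNat 0⟩, ⟨.ofNat 880, .ofNat 0⟩, ⟨.ofNat 180, .ofNat 0⟩, ⟨.ofNat 84, .ofNat 0⟩⟩ ⟨.ofNat 455, .ofNat 0⟩ ⟨.ofNat 1, .ofNat 0⟩ ⟨.ofNat 1, .ofNat 0⟩ 39 (.s13 ⟨⟨.ofNat 367, .ofNat 0⟩, ⟨.ofNat 528, .ofNat 0⟩, ⟨.ofNat 180, .ofNat 0⟩, ⟨.ofNat 84, .ofNat 0⟩⟩ ⟨.ofNat 103, .ofNat 0⟩ ⟨.ofNat 352, .ofNat 0⟩ ⟨.ofNat 455, .ofNat 0⟩ 30 (.s03 ⟨⟨.ofNat 0, .ofNat 3703⟩, ⟨.ofNat 2668, .ofNat 2369⟩, ⟨.ofNat 4243, .negSucc 1235⟩, ⟨.negSucc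 539, .ofNat 1236⟩⟩ ⟨.ofNat 161, .ofNat 58⟩ ⟨.ofNat 0, .ofNat 23⟩ ⟨.ofNat 1, .ofNat 2⟩ 27 (.leaf 5 [64, 64, 64, 0, 64, 64, 64, 64, 16, 0, 0, 64]) (.leaf 6 [43, 0, 0, 0, 64, 64, 64, 42, 0, 64])) (.leaf 5 [63, 0, 0, 0, 64, 64, 64, 64])) (.s01 ⟨⟨.ofNat 138, .ofNat 0⟩, ⟨.ofNat 230, .ofNat 0⟩, ⟨.ofNat 33, .ofNat 0⟩, ⟨.ofNat 36, .ofNat 0⟩⟩ ⟨.ofNat 3, .ofNat 0⟩ ⟨.ofNat 92, .ofNat 0⟩ ⟨.ofNat 1, .ofNat 0⟩ 33 (.leaf 5 [0, 0, 0, 0, 0]) (.leaf 6 [0, 0, 0, 0, 64, 64, 6, 64])))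

/-- part of a tree -/
def t65_0 : Tree := .s23 ⟨⟨.ofNat 367, .ofNat 0⟩, ⟨.ofNat 425, .ofNat 0⟩, ⟨.ofNat 180, .ofNat 0⟩, ⟨.ofNat 84, .ofNat 0⟩⟩ ⟨.ofNat 103, .ofNat 0⟩ ⟨.ofNat 7, .ofNat 0⟩ ⟨.ofNat 1, .ofNat 0⟩ 27 (.s12 ⟨⟨.ofNat 367, .ofNat 0⟩, ⟨.ofNat 880, .ofNat 0⟩, ⟨.ofNat 180, .ofNat 0⟩, ⟨.ofNat 84, .ofNat 0⟩⟩ ⟨.ofNat 455, .ofNat 0⟩ ⟨.ofNat 1, .ofNat 0⟩ ⟨.ofNat 1, .ofNat 0⟩ 39 (.s03 ⟨⟨.ofNat 230, .ofNat 0⟩, ⟨.ofNat 322, .ofNat 0⟩, ⟨.ofNat 77, .ofNat 0⟩, ⟨.ofNat 84, .ofNat 0⟩⟩ ⟨.ofNat 3, .ofNat 0⟩ ⟨.ofNat 4, .ofNat 0⟩ ⟨.ofNat 1, .ofNat 0⟩ 30 (.leaf 7 [0, 64, 64, 64, 64, 18, 0, 0, 0, 64, 0, 0]) (.s12 ⟨⟨.ofNat 367, .ofNat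 0⟩, ⟨.ofNat 528, .ofNat 0⟩, ⟨.ofNat 180, .ofNat 0⟩, ⟨.ofNat 84, .ofNat 0⟩⟩ ⟨.ofNat 103, .ofNat 0⟩ ⟨.ofNat 352, .ofNat 0⟩ ⟨.ofNat 455, .ofNat 0⟩ 30 (.s02 ⟨⟨.ofNat 0, .ofNat 3703⟩, ⟨.ofNat 2668, .ofNat 2369⟩, ⟨.ofNat 4243, .negSucc 1235⟩, ⟨.negSucc 539, .ofNat 1236⟩⟩ ⟨.ofNat 161, .ofNat 58⟩ ⟨.ofNat 0, .ofNat 23⟩ ⟨.ofNat 1, .ofNat 2⟩ 27 (.leaf 7 [64, 37, 64, 29, 0, 0, 0]) (.leaf 8 [64, 40, 0, 0, 0, 0, 0])) (.leaf 8 [64, 40, 0, 0, 64, 64, 64, 64, 0, 0]))) (.s13 ⟨⟨.ofNat 69, .ofNat 0⟩, ⟨.ofNat 230, .ofNat 0⟩, ⟨.ofNat 33, .ofNat 0⟩, ⟨.ofNat 36, .ofNat 0⟩⟩ ⟨.ofNat 92, .ofNat 0⟩ ⟨.ofNat 3, .ofNat 0⟩ ⟨.ofNat 1, .ofNat 0⟩ 41 (.leaf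 9 [64, 64, 64, 1, 0, 64, 64, 64, 0, 64, 64, 64]) (.leaf 9 [0, 0, 0, 0, 0, 0, 0, 0, 0, 0, 0]))) t65_1

/-- part of a tree -/
def t65 : Tree := .s03 ⟨⟨.ofNat 46, .ofNat 0⟩, ⟨.ofNat 46, .ofNat 0⟩, ⟨.ofNat 11, .ofNat 0⟩, ⟨.ofNat 12, .ofNat 0⟩⟩ ⟨.ofNat 23, .ofNat 0⟩ ⟨.ofNat 1, .ofNat 0⟩ ⟨.ofNat 1, .ofNat 0⟩ 0 t65_0 (.s12 ⟨⟨.ofNat 2, .ofNat 0⟩, ⟨.ofNat 2, .ofNat 0⟩, ⟨.ofNat 1, .ofNat 0⟩, ⟨.ofNat 0, .ofNat 0⟩⟩ ⟨.ofNat 1, .ofNat 0⟩ ⟨.ofNat 1, .ofNat 0⟩ ⟨.ofNat 1, .ofNat 0⟩ 0 (.s23 ⟨⟨.ofNat 136, .ofNat 0⟩, ⟨.ofNat 91, .ofNat 0⟩, ⟨.ofNat 56, .ofNat 0⟩, ⟨.ofNat 12, .ofNat 0⟩⟩ ⟨.ofNat 45, .ofNat 0⟩ ⟨.ofNat 1, .ofNat 0⟩ ⟨.ofNat 1, .ofNat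 0⟩ 4 (.s02 ⟨⟨.ofNat 680, .ofNat 0⟩, ⟨.ofNat 273, .ofNat 0⟩, ⟨.ofNat 168, .ofNat 0⟩, ⟨.ofNat 36, .ofNat 0⟩⟩ ⟨.ofNat 272, .ofNat 0⟩ ⟨.ofNat 3, .ofNat 0⟩ ⟨.ofNat 1, .ofNat 0⟩ 13 (.leaf 4 [64, 0, 0, 0, 0, 0, 64]) (.s13 ⟨⟨.ofNat 18, .ofNat 0⟩, ⟨.ofNat 18, .ofNat 0⟩, ⟨.ofNat 7, .ofNat 0⟩, ⟨.ofNat 2, .ofNat 0⟩⟩ ⟨.ofNat 31, .ofNat 0⟩ ⟨.ofNat 1, .ofNat 0⟩ ⟨.ofNat 6, .ofNat 0⟩ 0 (.s03 ⟨⟨.ofNat 230, .ofNat 0⟩, ⟨.ofNat 138, .ofNat 0⟩, ⟨.ofNat 33, .ofNat 0⟩, ⟨.ofNat 36, .ofNat 0⟩⟩ ⟨.ofNat 92, .ofNat 0⟩ ⟨.ofNat 3, .ofNat 0⟩ ⟨.ofNat 1, .ofNat 0⟩ 7 (.leaf 6 [28, 0, 0, 0, 0, 0, 64]) (.leaf 5 [0, 0, 0, 0, 0, 0, 0, 0, 0, 0])) (.leaf 2 [0,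 0, 0, 0, 0, 0, 0, 0, 0]))) (.leaf 2 [0, 0, 0, 0, 64, 64, 64, 64, 64, 0, 0])) (.s03 ⟨⟨.ofNat 230, .ofNat 0⟩, ⟨.ofNat 138, .ofNat 0⟩, ⟨.ofNat 33, .ofNat 0⟩, ⟨.ofNat 36, .ofNat 0⟩⟩ ⟨.ofNat 92, .ofNat 0⟩ ⟨.ofNat 3, .ofNat 0⟩ ⟨.ofNat 1, .ofNat 0⟩ 7 (.s13 ⟨⟨.ofNat 138, .ofNat 0⟩, ⟨.ofNat 230, .ofNat 0⟩, ⟨.ofNat 33, .ofNat 0⟩, ⟨.ofNat 36, .ofNat 0⟩⟩ ⟨.ofNat 92, .ofNat 0⟩ ⟨.ofNat 3, .ofNat 0⟩ ⟨.ofNat 1, .ofNat 0⟩ 33 (.leaf 7 [64, 64, 64, 64, 0]) (.leaf 5 [64, 0, 0, 0, 0, 0])) (.leaf 3 [0, 0, 0, 0, 0, 0, 0, 0, 0])))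

theorem g65 : Good (PE lin H) ⟨⟨.ofNat 1, .ofNat 0⟩, ⟨.ofNat 0, .ofNat 0⟩, ⟨.ofNat 0, .ofNat 0⟩, ⟨.ofNat 0, .ofNat 0⟩⟩
    ⟨⟨.ofNat 0, .ofNat 0⟩, ⟨.ofNat 1, .ofNat 0⟩, ⟨.ofNat 0, .ofNat 0⟩, ⟨.ofNat 0, .ofNat 0⟩⟩
    ⟨⟨.ofNat 2, .ofNat 0⟩, ⟨.ofNat 1, .ofNat 0⟩, ⟨.ofNat 1, .ofNat 0⟩, ⟨.ofNat 0, .ofNat 0⟩⟩
    ⟨⟨.ofNat 23, .ofNat 0⟩, ⟨.ofNat 46, .ofNat 0⟩, ⟨.ofNat 11, .ofNat 0⟩, ⟨.ofNat 12, .ofNat 0⟩⟩ :=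
  goodE lin H t65 25 51 10 36 (by decide +kernel)

end

end Pool.Agent.PHCert.E5
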