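import Pool.Agent.PHCert.E5H

/-!
# PHCert: inequality E5, part 1 (71 leaves, checked by the kernel)
-/

set_option autoImplicit false

namespace Pool.Agent.PHCert.E5

open Zp Pool.Agent.PHCert

noncomputable section

/-- part of a tree -/
def t0_0 : Tree := .s02 ⟨⟨.ofNat 46, .ofNat 0⟩, ⟨.ofNat 23, .ofNat 0⟩, ⟨.ofNat 11, .ofNat 0⟩, ⟨.ofNat 12, .ofNat 0⟩⟩ ⟨.ofNat 23, .ofNat 0⟩ ⟨.ofNat 1, .ofNat 0⟩ ⟨.ofNat 1, .ofNat 0⟩ 10 (.s12 ⟨⟨.ofNat 121, .ofNat 0⟩, ⟨.ofNat 173, .ofNat 0⟩, ⟨.ofNat 33, .ofNat 0⟩, ⟨.ofNat 88, .ofNat 0⟩⟩ ⟨.ofNat 52, .ofNat 0⟩ ⟨.ofNat 3, .ofNat 0⟩ ⟨.ofNat 1, .ofNat 0⟩ 30 (.s23 ⟨⟨.ofNat 0, .ofNat 23⟩, ⟨.ofNat 23, .ofNat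 0⟩, ⟨.ofNat 22, .negSucc 10⟩, ⟨.ofNat 1, .ofNat 11⟩⟩ ⟨.negSucc 0, .ofNat 1⟩ ⟨.ofNat 23, .ofNat 0⟩ ⟨.ofNat 0, .ofNat 1⟩ 6 (.s13 ⟨⟨.ofNat 0, .ofNat 121⟩, ⟨.ofNat 225, .negSucc 51⟩, ⟨.ofNat 66, .negSucc 32⟩, ⟨.ofNat 55, .ofNat 33⟩⟩ ⟨.negSucc 0, .ofNat 1⟩ ⟨.ofNat 121, .ofNat 0⟩ ⟨.ofNat 0, .ofNat 1⟩ 4 (.leaf 17 [0, 0, 64, 3, 0, 0, 0]) (.s01 ⟨⟨.ofNat 0, .ofNat 2783⟩, ⟨.ofNat 5175, .negSucc 1195⟩, ⟨.ofNat 187, .ofNat 572⟩, ⟨.ofNat 2596, .negSucc 571⟩⟩ ⟨.ofNat 0, .ofNat 121⟩ ⟨.ofNat 23, .ofNat 0⟩ ⟨.ofNat 1, .ofNat 1⟩ 4 (.leaf 16 [64, 33, 0, 64, 64, 64, 64, 64, 0, 0]) (.leaf 15 [0, 25, 64, 64, 64, 0, 0]))) (.s02 ⟨⟨.ofNat 0, .ofNat 23⟩,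 ⟨.ofNat 23, .ofNat 0⟩, ⟨.ofNat 11, .ofNat 0⟩, ⟨.ofNat 12, .ofNat 0⟩⟩ ⟨.ofNat 1, .ofNat 0⟩ ⟨.negSucc 0, .ofNat 1⟩ ⟨.ofNat 0, .ofNat 1⟩ 6 (.leaf 13 [64, 40, 0, 64, 64, 64, 64, 64, 0, 0, 0]) (.s01 ⟨⟨.ofNat 0, .ofNat 2783⟩, ⟨.ofNat 5175, .negSucc 1195⟩, ⟨.ofNat 187, .ofNat 572⟩, ⟨.ofNat 2596, .negSucc 571⟩⟩ ⟨.ofNat 0, .ofNat 121⟩ ⟨.ofNat 23, .ofNat 0⟩ ⟨.ofNat 1, .ofNat 1⟩ 4 (.leaf 13 [64, 40, 0, 64, 64, 64, 64, 64, 0, 0, 0]) (.leaf 13 [38, 64, 64, 64, 64, 2, 0])))) (.s01 ⟨⟨.ofNat 256, .ofNat 0⟩, ⟨.ofNat 305, .ofNat 0⟩, ⟨.ofNat 33, .ofNat 0⟩, ⟨.ofNat 154, .ofNat 0⟩⟩ ⟨.ofNat 3, .ofNat 0⟩ ⟨.ofNat 118, .ofNat 0⟩ ⟨.ofNat 1, .ofNat 0⟩ 28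 (.leaf 19 [64, 64, 64, 64, 39, 64, 64, 64, 64, 64, 64, 0, 64]) (.s23 ⟨⟨.ofNat 0, .ofNat 121⟩, ⟨.ofNat 225, .negSucc 51⟩, ⟨.ofNat 66, .negSucc 32⟩, ⟨.ofNat 55, .ofNat 33⟩⟩ ⟨.negSucc 0, .ofNat 1⟩ ⟨.ofNat 121, .ofNat 0⟩ ⟨.ofNat 0, .ofNat 1⟩ 4 (.leaf 16 [0, 0, 0, 0, 64, 64, 64, 64, 0, 10, 64, 64, 0, 0, 0]) (.s02 ⟨⟨.ofNat 0, .ofNat 2783⟩, ⟨.ofNat 5175, .negSucc 1195⟩, ⟨.ofNat 187, .ofNat 572⟩, ⟨.ofNat 2596, .negSucc 571⟩⟩ ⟨.ofNat 0, .ofNat 121⟩ ⟨.ofNat 23, .ofNat 0⟩ ⟨.ofNat 1, .ofNat 1⟩ 4 (.leaf 16 [64, 33, 0, 64, 64, 64, 64, 64, 64, 64, 0, 0]) (.leaf 15 [0, 0, 0, 0, 64, 64, 64, 64, 0, 46, 64, 64, 0, 0, 0]))))) (.s12 ⟨⟨.ofNat 256,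 .ofNat 0⟩, ⟨.ofNat 305, .ofNat 0⟩, ⟨.ofNat 33, .ofNat 0⟩, ⟨.ofNat 154, .ofNat 0⟩⟩ ⟨.ofNat 118, .ofNat 0⟩ ⟨.ofNat 3, .ofNat 0⟩ ⟨.ofNat 1, .ofNat 0⟩ 28 (.s01 ⟨⟨.ofNat 1870, .ofNat 0⟩, ⟨.ofNat 915, .ofNat 0⟩, ⟨.ofNat 99, .ofNat 0⟩, ⟨.ofNat 462, .ofNat 0⟩⟩ ⟨.ofNat 1102, .ofNat 0⟩ ⟨.ofNat 3, .ofNat 0⟩ ⟨.ofNat 1, .ofNat 0⟩ 11 (.leaf 16 [64, 64, 0, 0, 0, 0, 64, 64, 64, 64, 0, 10, 64, 64, 0, 0, 0]) (.s23 ⟨⟨.ofNat 18, .ofNat 0⟩, ⟨.ofNat 9, .ofNat 0⟩, ⟨.ofNat 2, .ofNat 0⟩, ⟨.ofNat 7, .ofNat 0⟩⟩ ⟨.ofNat 2, .ofNat 0⟩ ⟨.ofNat 53, .ofNat 0⟩ ⟨.ofNat 11, .ofNat 0⟩ 10 (.s03 ⟨⟨.ofNat 10, .ofNat 0⟩, ⟨.ofNat 3, .ofNat 0⟩, ⟨.ofNat 0, .ofNat 0⟩, ⟨.ofNat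 3, .ofNat 0⟩⟩ ⟨.ofNat 4, .ofNat 0⟩ ⟨.ofNat 3, .ofNat 0⟩ ⟨.ofNat 1, .ofNat 0⟩ 15 (.leaf 19 [0, 64, 64, 64, 64, 64, 0, 64, 64, 64, 30, 0]) (.s02 ⟨⟨.ofNat 30, .ofNat 0⟩, ⟨.ofNat 9, .ofNat 0⟩, ⟨.ofNat 2, .ofNat 0⟩, ⟨.ofNat 7, .ofNat 0⟩⟩ ⟨.ofNat 12, .ofNat 0⟩ ⟨.ofNat 1, .ofNat 0⟩ ⟨.ofNat 1, .ofNat 0⟩ 15 (.leaf 18 [2, 64, 64, 64, 64, 64, 0, 64, 64, 0, 0]) (.leaf 18 [0, 0, 64, 64, 64, 64, 64, 0, 0, 0, 0, 0]))) (.s03 ⟨⟨.ofNat 30, .ofNat 0⟩, ⟨.ofNat 9, .ofNat 0⟩, ⟨.ofNat 2, .ofNat 0⟩, ⟨.ofNat 7, .ofNat 0⟩⟩ ⟨.ofNat 12, .ofNat 0⟩ ⟨.ofNat 1, .ofNat 0⟩ ⟨.ofNat 1, .ofNat 0⟩ 15 (.leaf 15 [64, 64, 64, 64, 64, 64, 0, 62, 0, 0, 0]) (.s02 ⟨⟨.ofNat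 230, .ofNat 0⟩, ⟨.ofNat 69, .ofNat 0⟩, ⟨.ofNat 33, .ofNat 0⟩, ⟨.ofNat 36, .ofNat 0⟩⟩ ⟨.ofNat 92, .ofNat 0⟩ ⟨.ofNat 3, .ofNat 0⟩ ⟨.ofNat 1, .ofNat 0⟩ 15 (.leaf 14 [17, 64, 64, 64, 64, 64, 64, 64, 0]) (.leaf 15 [0, 0, 64, 64, 64, 49, 0, 0, 0, 0, 0]))))) (.s01 ⟨⟨.ofNat 2, .ofNat 0⟩, ⟨.ofNat 2, .ofNat 0⟩, ⟨.ofNat 0, .ofNat 0⟩, ⟨.ofNat 1, .ofNat 0⟩⟩ ⟨.ofNat 1, .ofNat 0⟩ ⟨.ofNat 1, .ofNat 0⟩ ⟨.ofNat 1, .ofNat 0⟩ 0 (.leaf 20 [64, 64, 46, 0, 0, 64, 64, 64, 64, 0, 0, 0, 64]) (.s02 ⟨⟨.ofNat 1870, .ofNat 0⟩, ⟨.ofNat 915, .ofNat 0⟩, ⟨.ofNat 99, .ofNat 0⟩, ⟨.ofNat 462, .ofNat 0⟩⟩ ⟨.ofNat 1102, .ofNat 0⟩ ⟨.ofNat 3, .ofNat 0⟩ ⟨.ofNat 1, .ofNat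 0⟩ 11 (.leaf 19 [64, 39, 0, 0, 0, 0, 64, 64, 64, 0, 0, 0, 0, 64, 64, 64, 4, 0, 0]) (.s03 ⟨⟨.ofNat 33, .ofNat 0⟩, ⟨.ofNat 7, .ofNat 0⟩, ⟨.ofNat 0, .ofNat 0⟩, ⟨.ofNat 7, .ofNat 0⟩⟩ ⟨.ofNat 19, .ofNat 0⟩ ⟨.ofNat 7, .ofNat 0⟩ ⟨.ofNat 1, .ofNat 0⟩ 17 (.leaf 20 [64, 64, 0, 64, 64, 64, 64, 64, 64, 0, 9, 64, 64, 64, 3, 0]) (.leaf 20 [0, 0, 0, 0, 0, 0, 0, 0, 0, 0, 0, 0, 0, 0, 0, 0, 0, 0])))))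

/-- part of a tree -/
def t0 : Tree := .s03 ⟨⟨.ofNat 2, .ofNat 0⟩, ⟨.ofNat 1, .ofNat 0⟩, ⟨.ofNat 0, .ofNat 0⟩, ⟨.ofNat 1, .ofNat 0⟩⟩ ⟨.ofNat 1, .ofNat 0⟩ ⟨.ofNat 1, .ofNat 0⟩ ⟨.ofNat 1, .ofNat 0⟩ 10 (.leaf 16 [64, 64, 64, 64, 34, 64, 64, 64, 64, 64, 64, 26, 64, 53, 0]) t0_0

theorem g0 : Good (PE lin H) ⟨⟨.ofNat 1, .ofNat 0⟩, ⟨.ofNat 0, .ofNat 0⟩, ⟨.ofNat 0, .ofNat 0⟩, ⟨.ofNat 0, .ofNat 0⟩⟩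
    ⟨⟨.ofNat 1, .ofNat 0⟩, ⟨.ofNat 2, .ofNat 0⟩, ⟨.ofNat 0, .ofNat 0⟩, ⟨.ofNat 1, .ofNat 0⟩⟩
    ⟨⟨.ofNat 23, .ofNat 0⟩, ⟨.ofNat 23, .ofNat 0⟩, ⟨.ofNat 11, .ofNat 0⟩, ⟨.ofNat 12, .ofNat 0⟩⟩
    ⟨⟨.ofNat 1, .ofNat 0⟩, ⟨.ofNat 1, .ofNat 0⟩, ⟨.ofNat 0, .ofNat 0⟩, ⟨.ofNat 1, .ofNat 0⟩⟩ :=
  goodE lin H t0 25 36 0 0 (by decide +kernel)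

/-- part of a tree -/
def t1 : Tree := .s13 ⟨⟨.ofNat 0, .ofNat 1⟩, ⟨.ofNat 0, .ofNat 2⟩, ⟨.ofNat 2, .negSucc 0⟩, ⟨.negSucc 1, .ofNat 2⟩⟩ ⟨.ofNat 1, .ofNat 0⟩ ⟨.negSucc 11, .ofNat 22⟩ ⟨.ofNat 11, .ofNat 11⟩ 36 (.s23 ⟨⟨.ofNat 161, .ofNat 0⟩, ⟨.ofNat 230, .ofNat 0⟩, ⟨.ofNat 44, .ofNat 0⟩, ⟨.ofNat 117, .ofNat 0⟩⟩ ⟨.ofNat 4, .ofNat 0⟩ ⟨.ofNat 69, .ofNat 0⟩ ⟨.ofNat 1, .ofNat 0⟩ 30 (.s03 ⟨⟨.ofNat 1403, .ofNat 0⟩, ⟨.ofNat 1610, .ofNat 0⟩, ⟨.ofNat 308, .ofNat 0⟩, ⟨.ofNat 819, .ofNat 0⟩⟩ ⟨.ofNat 4, .ofNat 0⟩ ⟨.ofNat 483, .ofNat 0⟩ ⟨.ofNat 1, .ofNat 0⟩ 27 (.leaf 17 [64, 41, 0, 0, 64]) (.s01 ⟨⟨.ofNat 0, .ofNat 1403⟩, ⟨.ofNat 0, .ofNat 1610⟩,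 ⟨.ofNat 966, .negSucc 174⟩, ⟨.negSucc 965, .ofNat 1302⟩⟩ ⟨.ofNat 0, .ofNat 4⟩ ⟨.ofNat 483, .ofNat 0⟩ ⟨.ofNat 1, .ofNat 0⟩ 27 (.leaf 15 [64, 64, 32, 0, 64, 25, 0]) (.leaf 14 [0, 64, 64, 64, 56, 0, 0]))) (.s12 ⟨⟨.ofNat 0, .ofNat 161⟩, ⟨.ofNat 0, .ofNat 230⟩, ⟨.ofNat 138, .negSucc 24⟩, ⟨.negSucc 137, .ofNat 186⟩⟩ ⟨.ofNat 69, .ofNat 0⟩ ⟨.ofNat 0, .ofNat 4⟩ ⟨.ofNat 1, .ofNat 0⟩ 30 (.leaf 12 [0, 64, 64, 64, 64, 61, 0]) (.s01 ⟨⟨.ofNat 0, .ofNat 1403⟩, ⟨.ofNat 0, .ofNat 1610⟩, ⟨.ofNat 966, .negSucc 174⟩, ⟨.negSucc 965, .ofNat 1302⟩⟩ ⟨.ofNat 0, .ofNat 4⟩ ⟨.ofNat 483, .ofNat 0⟩ ⟨.ofNat 1, .ofNat 0⟩ 27 (.leaf 15 [64, 64, 32, 0, 64, 25, 0])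 (.leaf 13 [0, 64, 64, 64, 64, 35, 0])))) (.s12 ⟨⟨.ofNat 23, .ofNat 0⟩, ⟨.ofNat 12, .ofNat 12⟩, ⟨.ofNat 11, .ofNat 0⟩, ⟨.ofNat 12, .ofNat 0⟩⟩ ⟨.ofNat 12, .ofNat 1⟩ ⟨.negSucc 11, .ofNat 22⟩ ⟨.ofNat 0, .ofNat 23⟩ 29 (.s23 ⟨⟨.ofNat 0, .ofNat 161⟩, ⟨.ofNat 0, .ofNat 230⟩, ⟨.ofNat 138, .negSucc 24⟩, ⟨.negSucc 137, .ofNat 186⟩⟩ ⟨.ofNat 0, .ofNat 4⟩ ⟨.ofNat 69, .ofNat 0⟩ ⟨.ofNat 1, .ofNat 0⟩ 30 (.s03 ⟨⟨.ofNat 0, .ofNat 1403⟩, ⟨.ofNat 0, .ofNat 1610⟩, ⟨.ofNat 966, .negSucc 174⟩, ⟨.negSucc 965, .ofNat 1302⟩⟩ ⟨.ofNat 0, .ofNat 4⟩ ⟨.ofNat 483, .ofNat 0⟩ ⟨.ofNat 1, .ofNat 0⟩ 27 (.leaf 13 [64, 64, 54, 0, 0, 0, 0]) (.leaf 12 [44, 64, 64, 64,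 0, 0])) (.leaf 11 [57, 64, 64, 64, 0, 0])) (.s01 ⟨⟨.ofNat 263, .negSucc 35⟩, ⟨.ofNat 84, .ofNat 84⟩, ⟨.ofNat 77, .ofNat 0⟩, ⟨.ofNat 84, .ofNat 0⟩⟩ ⟨.negSucc 11, .ofNat 22⟩ ⟨.ofNat 84, .ofNat 7⟩ ⟨.ofNat 0, .ofNat 23⟩ 26 (.leaf 12 [64, 64, 64, 64, 49, 0, 64, 64, 0, 0]) (.s03 ⟨⟨.ofNat 0, .ofNat 1403⟩, ⟨.ofNat 0, .ofNat 1610⟩, ⟨.ofNat 966, .negSucc 174⟩, ⟨.negSucc 965, .ofNat 1302⟩⟩ ⟨.ofNat 0, .ofNat 4⟩ ⟨.ofNat 483, .ofNat 0⟩ ⟨.ofNat 1, .ofNat 0⟩ 27 (.leaf 12 [64, 64, 64, 64, 49, 0, 64, 0, 0]) (.leaf 11 [25, 64, 25, 64, 64]))))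

theorem g1 : Good (PE lin H) ⟨⟨.ofNat 230, .ofNat 0⟩, ⟨.ofNat 161, .ofNat 0⟩, ⟨.ofNat 77, .ofNat 0⟩, ⟨.ofNat 84, .ofNat 0⟩⟩
    ⟨⟨.ofNat 23, .ofNat 0⟩, ⟨.ofNat 46, .ofNat 0⟩, ⟨.ofNat 11, .ofNat 0⟩, ⟨.ofNat 12, .ofNat 0⟩⟩
    ⟨⟨.ofNat 23, .ofNat 0⟩, ⟨.ofNat 23, .ofNat 0⟩, ⟨.ofNat 11, .ofNat 0⟩, ⟨.ofNat 12, .ofNat 0⟩⟩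
    ⟨⟨.ofNat 1, .ofNat 0⟩, ⟨.ofNat 2, .ofNat 0⟩, ⟨.ofNat 0, .ofNat 0⟩, ⟨.ofNat 1, .ofNat 0⟩⟩ :=
  goodE lin H t1 4 36 0 36 (by decide +kernel)

/-- part of a tree -/
def t2_1 : Tree := .s03 ⟨⟨.ofNat 46, .ofNat 69⟩, ⟨.ofNat 23, .ofNat 69⟩, ⟨.ofNat 57, .negSucc 11⟩, ⟨.negSucc 33, .ofNat 58⟩⟩ ⟨.ofNat 1, .ofNat 1⟩ ⟨.ofNat 23, .ofNat 0⟩ ⟨.ofNat 1, .ofNat 0⟩ 1 (.s12 ⟨⟨.ofNat 685, .ofNat 487⟩, ⟨.ofNat 798, .ofNat 714⟩, ⟨.negSucc 328, .ofNat 511⟩, ⟨.ofNat 882, .negSucc 83⟩⟩ ⟨.ofNat 14, .ofNat 182⟩ ⟨.negSucc 5, .ofNat 11⟩ ⟨.ofNat 23, .ofNat 0⟩ 29 (.leaf 14 [64, 41, 0, 64, 64, 64, 0, 0, 64, 0, 0]) (.s01 ⟨⟨.ofNat 33, .ofNat 55⟩, ⟨.ofNat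 0, .ofNat 80⟩, ⟨.ofNat 91, .negSucc 34⟩, ⟨.negSucc 79, .ofNat 80⟩⟩ ⟨.ofNat 34, .negSucc 11⟩ ⟨.ofNat 1, .ofNat 13⟩ ⟨.ofNat 23, .ofNat 0⟩ 26 (.leaf 13 [64, 0, 64, 64, 21, 64, 54, 0, 0]) (.leaf 14 [64, 41, 0, 64, 64, 64, 0, 0, 64, 64, 0, 0]))) (.s01 ⟨⟨.ofNat 23, .ofNat 23⟩, ⟨.negSucc 22, .ofNat 46⟩, ⟨.ofNat 0, .ofNat 11⟩, ⟨.ofNat 0, .ofNat 12⟩⟩ ⟨.ofNat 0, .ofNat 1⟩ ⟨.ofNat 1, .ofNat 0⟩ ⟨.ofNat 0, .ofNat 1⟩ 1 (.s13 ⟨⟨.ofNat 0, .ofNat 230⟩, ⟨.ofNat 0, .ofNat 253⟩, ⟨.negSucc 239, .ofNat 215⟩, ⟨.ofNat 240, .negSucc 53⟩⟩ ⟨.ofNat 4, .ofNat 1⟩ ⟨.ofNat 3, .ofNat 0⟩ ⟨.ofNat 0, .ofNat 1⟩ 27 (.s02 ⟨⟨.ofNat 510, .ofNat 1416⟩, ⟨.ofNat 64, .ofNat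 1607⟩, ⟨.ofNat 582, .ofNat 155⟩, ⟨.negSucc 395, .ofNat 906⟩⟩ ⟨.negSucc 100, .ofNat 336⟩ ⟨.negSucc 11, .ofNat 11⟩ ⟨.negSucc 22, .ofNat 23⟩ 0 (.leaf 12 [64, 8, 0, 64, 0, 64, 64, 22]) (.s01 ⟨⟨.ofNat 90, .ofNat 168⟩, ⟨.ofNat 384, .negSucc 8⟩, ⟨.ofNat 146, .negSucc 24⟩, ⟨.ofNat 12, .ofNat 78⟩⟩ ⟨.ofNat 88, .negSucc 9⟩ ⟨.ofNat 10, .ofNat 9⟩ ⟨.ofNat 0, .ofNat 23⟩ 26 (.leaf 12 [64, 64, 0, 26, 46, 0]) (.leaf 11 [0, 3, 4, 64, 0]))) (.s01 ⟨⟨.ofNat 230, .ofNat 0⟩, ⟨.ofNat 253, .ofNat 0⟩, ⟨.ofNat 77, .ofNat 0⟩, ⟨.ofNat 84, .ofNat 0⟩⟩ ⟨.ofNat 0, .ofNat 3⟩ ⟨.negSucc 2, .ofNat 4⟩ ⟨.ofNat 0, .ofNat 1⟩ 27 (.leaf 11 [0, 64, 64, 56, 0, 48, 0, 64,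 0]) (.s02 ⟨⟨.ofNat 17020, .ofNat 11500⟩, ⟨.ofNat 13961, .ofNat 11293⟩, ⟨.negSucc 5754, .ofNat 10085⟩, ⟨.ofNat 16818, .negSucc 2609⟩⟩ ⟨.ofNat 0, .ofNat 187⟩ ⟨.ofNat 13, .negSucc 6⟩ ⟨.negSucc 0, .ofNat 1⟩ 1 (.s12 ⟨⟨.ofNat 5465, .ofNat 3701⟩, ⟨.ofNat 6258, .ofNat 4074⟩, ⟨.negSucc 4080, .ofNat 4781⟩, ⟨.ofNat 8442, .negSucc 2183⟩⟩ ⟨.ofNat 28, .ofNat 364⟩ ⟨.negSucc 83, .ofNat 85⟩ ⟨.ofNat 23, .ofNat 0⟩ 27 (.leaf 12 [0, 0, 64, 6, 7, 64, 0]) (.leaf 11 [0, 64, 10, 0, 0, 64, 0])) (.s01 ⟨⟨.ofNat 253, .ofNat 0⟩, ⟨.ofNat 230, .ofNat 0⟩, ⟨.ofNat 77, .ofNat 0⟩, ⟨.ofNat 84, .ofNat 0⟩⟩ ⟨.ofNat 0, .ofNat 7⟩ ⟨.negSucc 3, .ofNat 3⟩ ⟨.negSucc 2, .ofNat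 4⟩ 1 (.s01 ⟨⟨.ofNat 460, .ofNat 0⟩, ⟨.ofNat 437, .ofNat 0⟩, ⟨.ofNat 143, .ofNat 0⟩, ⟨.ofNat 156, .ofNat 0⟩⟩ ⟨.ofNat 10, .ofNat 0⟩ ⟨.ofNat 3, .ofNat 0⟩ ⟨.ofNat 7, .ofNat 0⟩ 0 (.leaf 11 [64, 10, 0, 0, 64]) (.leaf 11 [20, 64, 4, 0, 0, 64])) (.s03 ⟨⟨.ofNat 90, .ofNat 168⟩, ⟨.ofNat 384, .negSucc 8⟩, ⟨.ofNat 146, .negSucc 24⟩, ⟨.ofNat 12, .ofNat 78⟩⟩ ⟨.ofNat 88, .negSucc 9⟩ ⟨.ofNat 10, .ofNat 9⟩ ⟨.ofNat 0, .ofNat 23⟩ 26 (.leaf 11 [20, 64, 4, 0, 0, 64]) (.leaf 11 [0, 4, 0, 64])))))) (.leaf 11 [64, 64, 33, 0, 0, 7, 0, 0, 64, 64, 0]))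

/-- part of a tree -/
def t2_3 : Tree := .s01 ⟨⟨.ofNat 23, .ofNat 23⟩, ⟨.negSucc 22, .ofNat 46⟩, ⟨.ofNat 0, .ofNat 11⟩, ⟨.ofNat 0, .ofNat 12⟩⟩ ⟨.ofNat 0, .ofNat 1⟩ ⟨.ofNat 1, .ofNat 0⟩ ⟨.ofNat 0, .ofNat 1⟩ 1 (.s01 ⟨⟨.ofNat 230, .ofNat 0⟩, ⟨.ofNat 253, .ofNat 0⟩, ⟨.ofNat 77, .ofNat 0⟩, ⟨.ofNat 84, .ofNat 0⟩⟩ ⟨.ofNat 0, .ofNat 3⟩ ⟨.negSucc 2, .ofNat 4⟩ ⟨.ofNat 0, .ofNat 1⟩ 27 (.leaf 11 [0, 64, 64, 56, 0, 48, 0, 64, 0]) (.s03 ⟨⟨.ofNat 8510, .ofNat 5750⟩, ⟨.ofNat 7889, .ofNat 5957⟩, ⟨.negSucc 2904, .ofNat 5075⟩, ⟨.ofNat 8862, .negSucc 1049⟩⟩ ⟨.ofNat 0, .ofNat 63⟩ ⟨.ofNat 7, .negSucc 2⟩ ⟨.negSucc 0, .ofNat 1⟩ 0 (.leaf 11 [0, 61, 0,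 26, 0, 64, 0]) (.s02 ⟨⟨.negSucc 2759, .ofNat 8510⟩, ⟨.negSucc 1931, .ofNat 7889⟩, ⟨.negSucc 923, .ofNat 2849⟩, ⟨.negSucc 1007, .ofNat 3108⟩⟩ ⟨.ofNat 0, .ofNat 63⟩ ⟨.negSucc 2, .ofNat 4⟩ ⟨.ofNat 1, .ofNat 0⟩ 0 (.leaf 11 [0, 64, 0, 24, 0, 64, 0]) (.s01 ⟨⟨.ofNat 253, .ofNat 0⟩, ⟨.ofNat 230, .ofNat 0⟩, ⟨.ofNat 77, .ofNat 0⟩, ⟨.ofNat 84, .ofNat 0⟩⟩ ⟨.ofNat 0, .ofNat 7⟩ ⟨.negSucc 3, .ofNat 3⟩ ⟨.negSucc 2, .ofNat 4⟩ 1 (.s02 ⟨⟨.negSucc 38639, .ofNat 119140⟩, ⟨.negSucc 33395, .ofNat 108767⟩, ⟨.negSucc 12011, .ofNat 37037⟩, ⟨.negSucc 13103, .ofNat 40404⟩⟩ ⟨.negSucc 119, .ofNat 370⟩ ⟨.ofNat 3, .ofNat 0⟩ ⟨.ofNat 1, .ofNat 0⟩ 0 (.leaf 11 [64,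 3, 0, 3, 64, 0]) (.s03 ⟨⟨.negSucc 38639, .ofNat 119140⟩, ⟨.negSucc 33395, .ofNat 108767⟩, ⟨.ofNat 14700, .ofNat 19775⟩, ⟨.negSucc 39815, .ofNat 57666⟩⟩ ⟨.negSucc 119, .ofNat 370⟩ ⟨.negSucc 2, .ofNat 3⟩ ⟨.ofNat 1, .ofNat 0⟩ 0 (.leaf 11 [64, 3, 0, 3, 64, 0]) (.s01 ⟨⟨.ofNat 460, .ofNat 0⟩, ⟨.ofNat 437, .ofNat 0⟩, ⟨.ofNat 143, .ofNat 0⟩, ⟨.ofNat 156, .ofNat 0⟩⟩ ⟨.ofNat 10, .ofNat 0⟩ ⟨.ofNat 3, .ofNat 0⟩ ⟨.ofNat 7, .ofNat 0⟩ 0 (.leaf 11 [64, 0, 64]) (.leaf 11 [1, 64])))) (.leaf 11 [20, 0, 0, 64, 0]))))) (.s03 ⟨⟨.ofNat 0, .ofNat 8510⟩, ⟨.ofNat 0, .ofNat 7889⟩, ⟨.ofNat 3864, .negSucc 6⟩, ⟨.negSucc 3863, .ofNat 5964⟩⟩ ⟨.ofNat 0, .ofNat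 63⟩ ⟨.ofNat 4, .ofNat 0⟩ ⟨.ofNat 1, .ofNat 0⟩ 0 (.s13 ⟨⟨.ofNat 8510, .ofNat 5750⟩, ⟨.ofNat 7889, .ofNat 5957⟩, ⟨.negSucc 2904, .ofNat 5075⟩, ⟨.ofNat 8862, .negSucc 1049⟩⟩ ⟨.ofNat 0, .ofNat 63⟩ ⟨.ofNat 7, .negSucc 2⟩ ⟨.negSucc 0, .ofNat 1⟩ 0 (.leaf 12 [0, 0, 30, 0]) (.s12 ⟨⟨.negSucc 2759, .ofNat 8510⟩, ⟨.negSucc 1931, .ofNat 7889⟩, ⟨.negSucc 923, .ofNat 2849⟩, ⟨.negSucc 1007, .ofNat 3108⟩⟩ ⟨.ofNat 0, .ofNat 63⟩ ⟨.negSucc 2, .ofNat 4⟩ ⟨.ofNat 1, .ofNat 0⟩ 0 (.leaf 11 [0, 0, 13, 35, 0]) (.leaf 11 [39, 0, 0, 22, 64, 0]))) (.s02 ⟨⟨.ofNat 8510, .ofNat 0⟩, ⟨.ofNat 7889, .ofNat 0⟩, ⟨.ofNat 2849, .ofNat 0⟩, ⟨.ofNat 3108, .ofNat 0⟩⟩ ⟨.ofNat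 63, .ofNat 0⟩ ⟨.ofNat 4, .ofNat 0⟩ ⟨.ofNat 1, .ofNat 0⟩ 0 (.s12 ⟨⟨.negSucc 2759, .ofNat 8510⟩, ⟨.negSucc 1931, .ofNat 7889⟩, ⟨.negSucc 923, .ofNat 2849⟩, ⟨.negSucc 1007, .ofNat 3108⟩⟩ ⟨.ofNat 0, .ofNat 63⟩ ⟨.negSucc 2, .ofNat 4⟩ ⟨.ofNat 1, .ofNat 0⟩ 0 (.leaf 11 [0, 0, 13, 35, 0]) (.leaf 11 [39, 0, 0, 22, 64, 0])) (.leaf 11 [64, 64, 4, 34, 0, 0, 64, 64, 0])))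

/-- part of a tree -/
def t2_2 : Tree := .s12 ⟨⟨.ofNat 1403, .ofNat 0⟩, ⟨.ofNat 1610, .ofNat 0⟩, ⟨.ofNat 539, .ofNat 0⟩, ⟨.ofNat 588, .ofNat 0⟩⟩ ⟨.ofNat 21, .ofNat 0⟩ ⟨.ofNat 4, .ofNat 0⟩ ⟨.ofNat 1, .ofNat 0⟩ 27 (.s03 ⟨⟨.ofNat 0, .ofNat 8510⟩, ⟨.ofNat 0, .ofNat 7889⟩, ⟨.ofNat 3864, .negSucc 6⟩, ⟨.negSucc 3863, .ofNat 5964⟩⟩ ⟨.ofNat 0, .ofNat 63⟩ ⟨.ofNat 4, .ofNat 0⟩ ⟨.ofNat 1, .ofNat 0⟩ 0 (.leaf 12 [0, 31, 0, 64, 64, 0]) (.s01 ⟨⟨.ofNat 8510, .ofNat 0⟩, ⟨.ofNat 7889, .ofNat 0⟩, ⟨.ofNat 2849, .ofNat 0⟩, ⟨.ofNat 3108, .ofNat 0⟩⟩ ⟨.ofNat 63, .ofNat 0⟩ ⟨.ofNat 4, .ofNat 0⟩ ⟨.ofNat 1, .ofNat 0⟩ 0 (.leaf 11 [0, 42, 0, 64, 64, 0]) (.leaf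 11 [64, 64, 7, 0, 0, 64, 0]))) t2_3

/-- part of a tree -/
def t2_0 : Tree := .s23 ⟨⟨.ofNat 0, .ofNat 1403⟩, ⟨.ofNat 0, .ofNat 1610⟩, ⟨.ofNat 966, .negSucc 174⟩, ⟨.negSucc 965, .ofNat 1302⟩⟩ ⟨.ofNat 0, .ofNat 4⟩ ⟨.ofNat 483, .ofNat 0⟩ ⟨.ofNat 1, .ofNat 0⟩ 27 t2_1 t2_2

/-- part of a tree -/
def t2 : Tree := .s13 ⟨⟨.ofNat 0, .ofNat 1⟩, ⟨.ofNat 0, .ofNat 2⟩, ⟨.ofNat 2, .negSucc 0⟩, ⟨.negSucc 1, .ofNat 2⟩⟩ ⟨.ofNat 1, .ofNat 0⟩ ⟨.negSucc 11, .ofNat 22⟩ ⟨.ofNat 11, .ofNat 11⟩ 36 (.s03 ⟨⟨.ofNat 23, .ofNat 23⟩, ⟨.negSucc 22, .ofNat 46⟩, ⟨.ofNat 11, .ofNat 0⟩, ⟨.negSucc 10, .ofNat 23⟩⟩ ⟨.ofNat 0, .ofNat 1⟩ ⟨.ofNat 23, .ofNat 0⟩ ⟨.ofNat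 0, .ofNat 1⟩ 1 (.s23 ⟨⟨.ofNat 1403, .ofNat 0⟩, ⟨.ofNat 1610, .ofNat 0⟩, ⟨.ofNat 308, .ofNat 0⟩, ⟨.ofNat 819, .ofNat 0⟩⟩ ⟨.ofNat 4, .ofNat 0⟩ ⟨.ofNat 483, .ofNat 0⟩ ⟨.ofNat 1, .ofNat 0⟩ 27 (.leaf 17 [64, 64, 0, 64, 64, 54, 0, 0, 64, 43, 0]) (.s12 ⟨⟨.ofNat 0, .ofNat 1403⟩, ⟨.ofNat 0, .ofNat 1610⟩, ⟨.ofNat 966, .negSucc 174⟩, ⟨.negSucc 965, .ofNat 1302⟩⟩ ⟨.ofNat 483, .ofNat 0⟩ ⟨.ofNat 0, .ofNat 4⟩ ⟨.ofNat 1, .ofNat 0⟩ 27 (.leaf 14 [64, 64, 0, 64, 64, 11, 0, 0]) (.leaf 15 [64, 64, 0, 64, 64, 24, 0, 0, 64, 0]))) (.s01 ⟨⟨.ofNat 46, .ofNat 69⟩, ⟨.ofNat 23, .ofNat 69⟩, ⟨.ofNat 57, .negSucc 11⟩, ⟨.negSucc 33, .ofNat 58⟩⟩ ⟨.ofNat 1, .ofNat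 1⟩ ⟨.ofNat 23, .ofNat 0⟩ ⟨.ofNat 1, .ofNat 0⟩ 1 (.s12 ⟨⟨.ofNat 0, .ofNat 1403⟩, ⟨.ofNat 0, .ofNat 1610⟩, ⟨.ofNat 966, .negSucc 174⟩, ⟨.negSucc 965, .ofNat 1302⟩⟩ ⟨.ofNat 483, .ofNat 0⟩ ⟨.ofNat 0, .ofNat 4⟩ ⟨.ofNat 1, .ofNat 0⟩ 27 (.leaf 13 [64, 7, 0, 64, 45, 64]) (.leaf 14 [64, 41, 0, 64, 64, 64, 0, 0, 64, 0, 0])) (.leaf 12 [64, 43, 0, 64, 64, 0, 64, 14]))) t2_0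

theorem g2 : Good (PE lin H) ⟨⟨.ofNat 46, .ofNat 0⟩, ⟨.ofNat 23, .ofNat 0⟩, ⟨.ofNat 11, .ofNat 0⟩, ⟨.ofNat 12, .ofNat 0⟩⟩
    ⟨⟨.ofNat 23, .ofNat 0⟩, ⟨.ofNat 46, .ofNat 0⟩, ⟨.ofNat 11, .ofNat 0⟩, ⟨.ofNat 12, .ofNat 0⟩⟩
    ⟨⟨.ofNat 230, .ofNat 0⟩, ⟨.ofNat 161, .ofNat 0⟩, ⟨.ofNat 77, .ofNat 0⟩, ⟨.ofNat 84, .ofNat 0⟩⟩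
    ⟨⟨.ofNat 1, .ofNat 0⟩, ⟨.ofNat 2, .ofNat 0⟩, ⟨.ofNat 0, .ofNat 0⟩, ⟨.ofNat 1, .ofNat 0⟩⟩ :=
  goodE lin H t2 10 36 4 36 (by decide +kernel)

end

end Pool.Agent.PHCert.E5
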