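import Pool.Agent.PHCert.E5H

/-!
# PHCert: inequality E5, part 11 (71 leaves, checked by the kernel)
-/

set_option autoImplicit false

namespace Pool.Agent.PHCert.E5

open Zp Pool.Agent.PHCert

noncomputable section

/-- part of a tree -/
def t58_2 : Tree := .s03 ⟨⟨.negSucc 1057, .ofNat 1587⟩, ⟨.ofNat 529, .ofNat 529⟩, ⟨.ofNat 248, .ofNat 129⟩, ⟨.negSucc 247, .ofNat 400⟩⟩ ⟨.ofNat 23, .ofNat 0⟩ ⟨.ofNat 0, .ofNat 1⟩ ⟨.ofNat 0, .ofNat 1⟩ 1 (.s02 ⟨⟨.ofNat 73002, .ofNat 56603⟩, ⟨.negSucc 69298, .ofNat 146004⟩, ⟨.negSucc 32642, .ofNat 55870⟩, ⟨.ofNat 16244, .ofNat 17132⟩⟩ ⟨.ofNat 69, .ofNat 38⟩ ⟨.ofNat 529, .ofNat 0⟩ ⟨.ofNat 0, .ofNat 1⟩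 26 (.s23 ⟨⟨.ofNat 5290, .ofNat 0⟩, ⟨.ofNat 5819, .ofNat 0⟩, ⟨.ofNat 2267, .ofNat 0⟩, ⟨.ofNat 1436, .ofNat 0⟩⟩ ⟨.ofNat 2116, .ofNat 529⟩ ⟨.ofNat 83, .ofNat 166⟩ ⟨.ofNat 69, .ofNat 38⟩ 27 (.leaf 8 [57, 64, 59, 0, 0, 0]) (.s02 ⟨⟨.negSucc 163989, .ofNat 730020⟩, ⟨.negSucc 180388, .ofNat 846929⟩, ⟨.negSucc 70276, .ofNat 312846⟩, ⟨.negSucc 44515, .ofNat 198168⟩⟩ ⟨.ofNat 83, .ofNat 83⟩ ⟨.ofNat 341205, .ofNat 7406⟩ ⟨.negSucc 30, .ofNat 69⟩ 27 (.s12 ⟨⟨.negSucc 7129, .ofNat 15870⟩, ⟨.negSucc 7842, .ofNat 17457⟩, ⟨.negSucc 3502, .ofNat 6801⟩, ⟨.negSucc 1487, .ofNat 4308⟩⟩ ⟨.ofNat 83, .ofNat 166⟩ ⟨.ofNat 23115, .ofNat 2438⟩ ⟨.ofNat 0, .ofNat 272⟩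 27 (.leaf 7 [64, 55]) (.s01 ⟨⟨.ofNat 2059368434, .ofNat 449199821⟩, ⟨.ofNat 2088862300, .ofNat 478480500⟩, ⟨.ofNat 806305555, .ofNat 138900045⟩, ⟨.ofNat 551454940, .ofNat 172112280⟩⟩ ⟨.negSucc 5364, .ofNat 3536⟩ ⟨.negSucc 2138, .ofNat 34339⟩ ⟨.ofNat 2, .negSucc 0⟩ 26 (.leaf 8 [64, 5, 0]) (.leaf 8 [64, 53, 0]))) (.s12 ⟨⟨.ofNat 2059368434, .ofNat 449199821⟩, ⟨.ofNat 2088862300, .ofNat 478480500⟩, ⟨.ofNat 806305555, .ofNat 138900045⟩, ⟨.ofNat 551454940, .ofNat 172112280⟩⟩ ⟨.negSucc 2138, .ofNat 34339⟩ ⟨.negSucc 5364, .ofNat 3536⟩ ⟨.ofNat 2, .negSucc 0⟩ 26 (.leaf 8 [64, 64, 53, 0]) (.leaf 8 [57, 64, 59, 0, 0])))) (.leaf 9 [64, 48, 0, 64,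 42, 0, 47, 0])) (.s02 ⟨⟨.ofNat 0, .ofNat 1587⟩, ⟨.ofNat 1748, .ofNat 713⟩, ⟨.ofNat 1503, .negSucc 371⟩, ⟨.ofNat 84, .ofNat 372⟩⟩ ⟨.negSucc 30, .ofNat 69⟩ ⟨.ofNat 23, .ofNat 0⟩ ⟨.ofNat 1, .ofNat 1⟩ 27 (.s23 ⟨⟨.ofNat 73002, .ofNat 56603⟩, ⟨.negSucc 69298, .ofNat 146004⟩, ⟨.negSucc 32642, .ofNat 55870⟩, ⟨.ofNat 16244, .ofNat 17132⟩⟩ ⟨.ofNat 529, .ofNat 0⟩ ⟨.ofNat 69, .ofNat 38⟩ ⟨.ofNat 0, .ofNat 1⟩ 26 (.leaf 9 [64, 64, 0, 64, 64, 64, 0, 29, 0]) (.s23 ⟨⟨.negSucc 163989, .ofNat 730020⟩, ⟨.negSucc 180388, .ofNat 846929⟩, ⟨.negSucc 70276, .ofNat 312846⟩, ⟨.negSucc 44515, .ofNat 198168⟩⟩ ⟨.ofNat 341205, .ofNat 7406⟩ ⟨.ofNat 83, .ofNat 83⟩ ⟨.negSucc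 30, .ofNat 69⟩ 27 (.leaf 9 [64, 64, 64, 64, 0, 0, 0]) (.s02 ⟨⟨.ofNat 15870, .ofNat 0⟩, ⟨.ofNat 19366, .ofNat 0⟩, ⟨.ofNat 6801, .ofNat 0⟩, ⟨.ofNat 4308, .ofNat 0⟩⟩ ⟨.ofNat 83, .ofNat 166⟩ ⟨.ofNat 6348, .ofNat 1587⟩ ⟨.ofNat 69, .ofNat 38⟩ 28 (.s12 ⟨⟨.negSucc 7129, .ofNat 15870⟩, ⟨.negSucc 7842, .ofNat 17457⟩, ⟨.negSucc 3502, .ofNat 6801⟩, ⟨.negSucc 1487, .ofNat 4308⟩⟩ ⟨.ofNat 83, .ofNat 166⟩ ⟨.ofNat 23115, .ofNat 2438⟩ ⟨.ofNat 0, .ofNat 272⟩ 27 (.leaf 7 [64, 45]) (.leaf 9 [64, 64, 0, 0, 0])) (.leaf 9 [64, 64, 64, 64, 0, 0, 0])))) (.s01 ⟨⟨.ofNat 1587, .ofNat 9430⟩, ⟨.ofNat 21229, .negSucc 3081⟩, ⟨.ofNat 4123, .ofNat 759⟩, ⟨.ofNat 3720,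 .ofNat 828⟩⟩ ⟨.negSucc 30, .ofNat 69⟩ ⟨.ofNat 1, .ofNat 0⟩ ⟨.ofNat 1, .ofNat 0⟩ 0 (.leaf 9 [64, 64, 0, 64, 64, 64, 0, 29, 0]) (.leaf 9 [64, 64, 64, 20, 64, 0])))

/-- part of a tree -/
def t58_1 : Tree := .s23 ⟨⟨.ofNat 0, .ofNat 529⟩, ⟨.ofNat 1587, .negSucc 528⟩, ⟨.ofNat 501, .negSucc 123⟩, ⟨.ofNat 28, .ofNat 124⟩⟩ ⟨.ofNat 23, .ofNat 0⟩ ⟨.negSucc 30, .ofNat 69⟩ ⟨.ofNat 3, .ofNat 3⟩ 1 (.s13 ⟨⟨.ofNat 1587, .ofNat 9430⟩, ⟨.ofNat 21942, .negSucc 4668⟩, ⟨.ofNat 4123, .ofNat 759⟩, ⟨.ofNat 3720, .ofNat 828⟩⟩ ⟨.ofNat 1, .ofNat 0⟩ ⟨.negSucc 30, .ofNat 69⟩ ⟨.ofNat 1, .ofNat 0⟩ 1 (.leaf 10 [0, 64, 64, 64, 64, 22, 0, 0, 0, 14, 0]) (.s01 ⟨⟨.ofNat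 1587, .ofNat 9430⟩, ⟨.ofNat 21229, .negSucc 3081⟩, ⟨.ofNat 4123, .ofNat 759⟩, ⟨.ofNat 3720, .ofNat 828⟩⟩ ⟨.negSucc 30, .ofNat 69⟩ ⟨.ofNat 1, .ofNat 0⟩ ⟨.ofNat 1, .ofNat 0⟩ 0 (.leaf 9 [0, 64, 9, 64, 22]) (.leaf 9 [0, 64, 64, 64, 57, 0, 64, 44]))) t58_2

/-- part of a tree -/
def t58_0 : Tree := .s12 ⟨⟨.ofNat 3013, .ofNat 6256⟩, ⟨.ofNat 22655, .negSucc 6255⟩, ⟨.ofNat 4464, .ofNat 0⟩, ⟨.ofNat 4092, .ofNat 0⟩⟩ ⟨.ofNat 272, .ofNat 0⟩ ⟨.ofNat 0, .ofNat 23⟩ ⟨.ofNat 0, .ofNat 1⟩ 0 t58_1 (.s23 ⟨⟨.ofNat 1587, .ofNat 9430⟩, ⟨.ofNat 21942, .negSucc 4668⟩, ⟨.ofNat 4123, .ofNat 759⟩, ⟨.ofNat 3720, .ofNat 828⟩⟩ ⟨.ofNat 1, .ofNat 0⟩ ⟨.negSucc 30, .ofNat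 69⟩ ⟨.ofNat 1, .ofNat 0⟩ 1 (.leaf 10 [33, 64, 64, 64, 64, 15, 0, 0, 0, 64, 64]) (.s02 ⟨⟨.ofNat 1587, .ofNat 9430⟩, ⟨.ofNat 21229, .negSucc 3081⟩, ⟨.ofNat 4123, .ofNat 759⟩, ⟨.ofNat 3720, .ofNat 828⟩⟩ ⟨.negSucc 30, .ofNat 69⟩ ⟨.ofNat 1, .ofNat 0⟩ ⟨.ofNat 1, .ofNat 0⟩ 0 (.leaf 10 [0, 64, 22]) (.leaf 10 [64, 64, 64, 64, 64, 0, 64, 64])))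

/-- part of a tree -/
def t58_3 : Tree := .s23 ⟨⟨.ofNat 3013, .ofNat 6256⟩, ⟨.ofNat 22655, .negSucc 6255⟩, ⟨.ofNat 4464, .ofNat 0⟩, ⟨.ofNat 4092, .ofNat 0⟩⟩ ⟨.ofNat 0, .ofNat 23⟩ ⟨.ofNat 272, .ofNat 0⟩ ⟨.ofNat 0, .ofNat 1⟩ 0 (.s01 ⟨⟨.ofNat 230, .ofNat 0⟩, ⟨.ofNat 322, .ofNat 0⟩, ⟨.ofNat 77, .ofNat 0⟩, ⟨.ofNat 84, .ofNat 0⟩⟩ ⟨.ofNat 3, .ofNat 0⟩ ⟨.ofNat 4, .ofNat 0⟩ ⟨.ofNat 1, .ofNat 0⟩ 30 (.s13 ⟨⟨.ofNat 230, .ofNat 0⟩, ⟨.ofNat 253, .ofNat 0⟩, ⟨.ofNat 77, .ofNat 0⟩, ⟨.ofNat 84, .ofNat 0⟩⟩ ⟨.negSucc 2, .ofNat 4⟩ ⟨.ofNat 0, .ofNat 3⟩ ⟨.ofNat 0, .ofNat 1⟩ 27 (.s03 ⟨⟨.negSucc 229, .ofNat 391⟩, ⟨.ofNat 161, .ofNat 161⟩, ⟨.ofNat 0, .ofNat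 77⟩, ⟨.ofNat 0, .ofNat 84⟩⟩ ⟨.ofNat 1, .ofNat 0⟩ ⟨.ofNat 7, .ofNat 0⟩ ⟨.ofNat 0, .ofNat 1⟩ 26 (.s13 ⟨⟨.ofNat 460, .ofNat 0⟩, ⟨.ofNat 437, .ofNat 0⟩, ⟨.ofNat 143, .ofNat 0⟩, ⟨.ofNat 156, .ofNat 0⟩⟩ ⟨.negSucc 6, .ofNat 6⟩ ⟨.ofNat 0, .ofNat 10⟩ ⟨.negSucc 2, .ofNat 4⟩ 0 (.leaf 11 [0, 60, 0]) (.leaf 10 [34, 50])) (.leaf 10 [64, 64, 64, 52, 0])) (.s12 ⟨⟨.ofNat 62560, .ofNat 7130⟩, ⟨.ofNat 68816, .ofNat 7843⟩, ⟨.ofNat 20944, .ofNat 3503⟩, ⟨.ofNat 22848, .ofNat 1488⟩⟩ ⟨.ofNat 1005, .ofNat 106⟩ ⟨.ofNat 3, .ofNat 6⟩ ⟨.ofNat 1, .ofNat 1⟩ 27 (.leaf 10 [64, 64, 52, 0]) (.leaf 10 [0, 64, 64, 16, 0]))) (.s13 ⟨⟨.negSucc 229, .ofNat 391⟩, ⟨.ofNat 161,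 .ofNat 161⟩, ⟨.ofNat 0, .ofNat 77⟩, ⟨.ofNat 0, .ofNat 84⟩⟩ ⟨.ofNat 1, .ofNat 0⟩ ⟨.ofNat 7, .ofNat 0⟩ ⟨.ofNat 0, .ofNat 1⟩ 26 (.s02 ⟨⟨.ofNat 1587, .ofNat 9430⟩, ⟨.ofNat 21229, .negSucc 3081⟩, ⟨.ofNat 4123, .ofNat 759⟩, ⟨.ofNat 3720, .ofNat 828⟩⟩ ⟨.negSucc 30, .ofNat 69⟩ ⟨.ofNat 1, .ofNat 0⟩ ⟨.ofNat 1, .ofNat 0⟩ 0 (.leaf 11 [0, 60, 0]) (.s01 ⟨⟨.ofNat 92, .ofNat 253⟩, ⟨.ofNat 483, .ofNat 23⟩, ⟨.ofNat 77, .ofNat 44⟩, ⟨.ofNat 84, .ofNat 48⟩⟩ ⟨.negSucc 2, .ofNat 4⟩ ⟨.ofNat 0, .ofNat 1⟩ ⟨.ofNat 0, .ofNat 1⟩ 26 (.leaf 11 [64, 64, 60, 0]) (.leaf 11 [64, 64, 64, 64, 61, 0, 64, 64]))) (.s01 ⟨⟨.ofNat 0, .ofNat 23⟩, ⟨.ofNat 46, .ofNat 0⟩, ⟨.ofNat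 11, .ofNat 0⟩, ⟨.ofNat 12, .ofNat 0⟩⟩ ⟨.negSucc 2, .ofNat 4⟩ ⟨.ofNat 1, .ofNat 0⟩ ⟨.ofNat 4, .ofNat 4⟩ 28 (.leaf 10 [64, 64, 64, 52, 0, 64, 64]) (.s02 ⟨⟨.ofNat 1587, .ofNat 9430⟩, ⟨.ofNat 21229, .negSucc 3081⟩, ⟨.ofNat 4123, .ofNat 759⟩, ⟨.ofNat 3720, .ofNat 828⟩⟩ ⟨.negSucc 30, .ofNat 69⟩ ⟨.ofNat 1, .ofNat 0⟩ ⟨.ofNat 1, .ofNat 0⟩ 0 (.leaf 10 [0, 64, 64, 55, 0, 64, 64]) (.leaf 10 [64, 47, 64, 59, 0, 64, 64]))))) (.s01 ⟨⟨.ofNat 230, .ofNat 0⟩, ⟨.ofNat 322, .ofNat 0⟩, ⟨.ofNat 77, .ofNat 0⟩, ⟨.ofNat 84, .ofNat 0⟩⟩ ⟨.ofNat 3, .ofNat 0⟩ ⟨.ofNat 4, .ofNat 0⟩ ⟨.ofNat 1, .ofNat 0⟩ 30 (.s13 ⟨⟨.ofNat 62560, .ofNat 7130⟩, ⟨.ofNat 68816, .ofNat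 7843⟩, ⟨.ofNat 20944, .ofNat 3503⟩, ⟨.ofNat 22848, .ofNat 1488⟩⟩ ⟨.ofNat 1005, .ofNat 106⟩ ⟨.ofNat 3, .ofNat 6⟩ ⟨.ofNat 1, .ofNat 1⟩ 27 (.s23 ⟨⟨.negSucc 7129, .ofNat 15870⟩, ⟨.negSucc 7842, .ofNat 17457⟩, ⟨.negSucc 3502, .ofNat 6801⟩, ⟨.negSucc 1487, .ofNat 4308⟩⟩ ⟨.ofNat 23115, .ofNat 2438⟩ ⟨.ofNat 83, .ofNat 166⟩ ⟨.ofNat 0, .ofNat 272⟩ 27 (.leaf 9 [64, 64, 50, 0, 64, 64]) (.leaf 9 [64, 64, 29, 29, 0])) (.leaf 9 [0, 64, 64, 7, 0, 64, 0])) (.s02 ⟨⟨.ofNat 0, .ofNat 1587⟩, ⟨.ofNat 1748, .ofNat 713⟩, ⟨.ofNat 1503, .negSucc 371⟩, ⟨.ofNat 84, .ofNat 372⟩⟩ ⟨.negSucc 30, .ofNat 69⟩ ⟨.ofNat 23, .ofNat 0⟩ ⟨.ofNat 1, .ofNat 1⟩ 27 (.s02 ⟨⟨.ofNat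 15870, .ofNat 0⟩, ⟨.ofNat 19366, .ofNat 0⟩, ⟨.ofNat 6801, .ofNat 0⟩, ⟨.ofNat 4308, .ofNat 0⟩⟩ ⟨.ofNat 83, .ofNat 166⟩ ⟨.ofNat 6348, .ofNat 1587⟩ ⟨.ofNat 69, .ofNat 38⟩ 28 (.s23 ⟨⟨.negSucc 7129, .ofNat 15870⟩, ⟨.negSucc 7842, .ofNat 17457⟩, ⟨.negSucc 3502, .ofNat 6801⟩, ⟨.negSucc 1487, .ofNat 4308⟩⟩ ⟨.ofNat 23115, .ofNat 2438⟩ ⟨.ofNat 83, .ofNat 166⟩ ⟨.ofNat 0, .ofNat 272⟩ 27 (.s13 ⟨⟨.negSucc 57338, .ofNat 113482⟩, ⟨.ofNat 48783, .ofNat 53774⟩, ⟨.ofNat 4991, .ofNat 23331⟩, ⟨.ofNat 0, .ofNat 25452⟩⟩ ⟨.negSucc 37, .ofNat 265⟩ ⟨.ofNat 7, .ofNat 7⟩ ⟨.ofNat 1, .ofNat 1⟩ 26 (.leaf 9 [64, 64, 0, 3, 0]) (.leaf 9 [64, 64, 25, 0, 0])) (.leaf 8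 [64, 64, 7, 0, 0])) (.s13 ⟨⟨.negSucc 57338, .ofNat 113482⟩, ⟨.ofNat 48783, .ofNat 53774⟩, ⟨.ofNat 4991, .ofNat 23331⟩, ⟨.ofNat 0, .ofNat 25452⟩⟩ ⟨.negSucc 37, .ofNat 265⟩ ⟨.ofNat 7, .ofNat 7⟩ ⟨.ofNat 1, .ofNat 1⟩ 26 (.leaf 9 [64, 64, 64, 64, 0, 3, 0]) (.leaf 9 [64, 64, 60, 10, 0]))) (.s01 ⟨⟨.ofNat 0, .ofNat 23⟩, ⟨.ofNat 46, .ofNat 0⟩, ⟨.ofNat 11, .ofNat 0⟩, ⟨.ofNat 12, .ofNat 0⟩⟩ ⟨.negSucc 2, .ofNat 4⟩ ⟨.ofNat 1, .ofNat 0⟩ ⟨.ofNat 4, .ofNat 4⟩ 28 (.leaf 9 [64, 64, 64, 50, 0, 64, 64]) (.s03 ⟨⟨.ofNat 1587, .ofNat 9430⟩, ⟨.ofNat 21229, .negSucc 3081⟩, ⟨.ofNat 4123, .ofNat 759⟩, ⟨.ofNat 3720, .ofNat 828⟩⟩ ⟨.negSucc 30, .ofNat 69⟩ ⟨.ofNat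 1, .ofNat 0⟩ ⟨.ofNat 1, .ofNat 0⟩ 0 (.leaf 9 [0, 64, 64, 53, 0, 64, 64]) (.leaf 10 [64, 64, 64, 11, 64, 0])))))

/-- part of a tree -/
def t58 : Tree := .s13 ⟨⟨.ofNat 23, .ofNat 23⟩, ⟨.negSucc 22, .ofNat 46⟩, ⟨.ofNat 0, .ofNat 11⟩, ⟨.ofNat 0, .ofNat 12⟩⟩ ⟨.ofNat 1, .ofNat 0⟩ ⟨.ofNat 0, .ofNat 1⟩ ⟨.ofNat 0, .ofNat 1⟩ 1 t58_0 t58_3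

theorem g58 : Good (PE lin H) ⟨⟨.ofNat 46, .ofNat 0⟩, ⟨.ofNat 46, .ofNat 0⟩, ⟨.ofNat 11, .ofNat 0⟩, ⟨.ofNat 12, .ofNat 0⟩⟩
    ⟨⟨.ofNat 23, .ofNat 0⟩, ⟨.ofNat 46, .ofNat 0⟩, ⟨.ofNat 11, .ofNat 0⟩, ⟨.ofNat 12, .ofNat 0⟩⟩
    ⟨⟨.ofNat 131, .ofNat 0⟩, ⟨.ofNat 169, .ofNat 0⟩, ⟨.ofNat 64, .ofNat 0⟩, ⟨.ofNat 36, .ofNat 0⟩⟩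
    ⟨⟨.ofNat 46, .ofNat 0⟩, ⟨.ofNat 23, .ofNat 0⟩, ⟨.ofNat 11, .ofNat 0⟩, ⟨.ofNat 12, .ofNat 0⟩⟩ :=
  goodE lin H t58 0 36 29 10 (by decide +kernel)

/-- part of a tree -/
def t60 : Tree := .s03 ⟨⟨.ofNat 230, .ofNat 0⟩, ⟨.ofNat 69, .ofNat 0⟩, ⟨.ofNat 33, .ofNat 0⟩, ⟨.ofNat 36, .ofNat 0⟩⟩ ⟨.ofNat 92, .ofNat 0⟩ ⟨.ofNat 3, .ofNat 0⟩ ⟨.ofNat 1, .ofNat 0⟩ 15 (.s23 ⟨⟨.ofNat 50, .ofNat 0⟩, ⟨.ofNat 25, .ofNat 0⟩, ⟨.ofNat 16, .ofNat 0⟩, ⟨.ofNat 9, .ofNat 0⟩⟩ ⟨.ofNat 31, .ofNat 0⟩ ⟨.ofNat 3, .ofNat 0⟩ ⟨.ofNat 4, .ofNat 0⟩ 10 (.leaf 9 [64, 64, 64, 64, 64, 15, 0, 0, 0, 64, 64]) (.leaf 6 [64, 64, 64, 64, 48, 0, 0, 0, 0, 64])) (.s12 ⟨⟨.ofNat 528,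 .ofNat 0⟩, ⟨.ofNat 425, .ofNat 0⟩, ⟨.ofNat 180, .ofNat 0⟩, ⟨.ofNat 84, .ofNat 0⟩⟩ ⟨.ofNat 7, .ofNat 0⟩ ⟨.ofNat 103, .ofNat 0⟩ ⟨.ofNat 1, .ofNat 0⟩ 2 (.s02 ⟨⟨.ofNat 10, .ofNat 0⟩, ⟨.ofNat 3, .ofNat 0⟩, ⟨.ofNat 3, .ofNat 0⟩, ⟨.ofNat 0, .ofNat 0⟩⟩ ⟨.ofNat 4, .ofNat 0⟩ ⟨.ofNat 3, .ofNat 0⟩ ⟨.ofNat 1, .ofNat 0⟩ 15 (.leaf 3 [0, 64, 57, 0, 0, 0, 64]) (.s01 ⟨⟨.ofNat 880, .ofNat 0⟩, ⟨.ofNat 425, .ofNat 0⟩, ⟨.ofNat 180, .ofNat 0⟩, ⟨.ofNat 84, .ofNat 0⟩⟩ ⟨.ofNat 352, .ofNat 0⟩ ⟨.ofNat 1, .ofNat 0⟩ ⟨.ofNat 1, .ofNat 0⟩ 11 (.leaf 5 [0, 64, 62, 0, 0, 0, 0]) (.leaf 5 [0, 0, 64, 64, 64, 64, 0, 0]))) (.s02 ⟨⟨.ofNat 880, .ofNat 0⟩, ⟨.ofNat 425, .ofNat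 0⟩, ⟨.ofNat 180, .ofNat 0⟩, ⟨.ofNat 84, .ofNat 0⟩⟩ ⟨.ofNat 352, .ofNat 0⟩ ⟨.ofNat 1, .ofNat 0⟩ ⟨.ofNat 1, .ofNat 0⟩ 11 (.leaf 8 [0, 64, 64, 31, 0, 0, 0, 0, 0, 64]) (.leaf 9 [0, 0, 0, 0, 0, 0, 0, 0, 0, 0, 0, 0, 0])))

theorem g60 : Good (PE lin H) ⟨⟨.ofNat 1, .ofNat 0⟩, ⟨.ofNat 0, .ofNat 0⟩, ⟨.ofNat 0, .ofNat 0⟩, ⟨.ofNat 0, .ofNat 0⟩⟩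
    ⟨⟨.ofNat 46, .ofNat 0⟩, ⟨.ofNat 46, .ofNat 0⟩, ⟨.ofNat 11, .ofNat 0⟩, ⟨.ofNat 12, .ofNat 0⟩⟩
    ⟨⟨.ofNat 2, .ofNat 0⟩, ⟨.ofNat 1, .ofNat 0⟩, ⟨.ofNat 1, .ofNat 0⟩, ⟨.ofNat 0, .ofNat 0⟩⟩
    ⟨⟨.ofNat 46, .ofNat 0⟩, ⟨.ofNat 23, .ofNat 0⟩, ⟨.ofNat 11, .ofNat 0⟩, ⟨.ofNat 12, .ofNat 0⟩⟩ :=
  goodE lin H t60 25 0 10 10 (by decide +kernel)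

/-- part of a tree -/
def t64 : Tree := .s12 ⟨⟨.ofNat 1, .ofNat 0⟩, ⟨.ofNat 2, .ofNat 0⟩, ⟨.ofNat 1, .ofNat 0⟩, ⟨.ofNat 0, .ofNat 0⟩⟩ ⟨.ofNat 1, .ofNat 0⟩ ⟨.ofNat 1, .ofNat 0⟩ ⟨.ofNat 1, .ofNat 0⟩ 36 (.s23 ⟨⟨.ofNat 96, .ofNat 0⟩, ⟨.ofNat 119, .ofNat 0⟩, ⟨.ofNat 84, .ofNat 0⟩, ⟨.ofNat 12, .ofNat 0⟩⟩ ⟨.ofNat 73, .ofNat 0⟩ ⟨.ofNat 1, .ofNat 0⟩ ⟨.ofNat 1, .ofNat 0⟩ 28 (.s03 ⟨⟨.ofNat 113, .ofNat 0⟩, ⟨.ofNat 91, .ofNat 0⟩, ⟨.ofNat 56, .ofNat 0⟩, ⟨.ofNat 12, .ofNat 0⟩⟩ ⟨.ofNat 45, .ofNat 0⟩ ⟨.ofNat 1, .ofNat 0⟩ ⟨.ofNat 1, .ofNat 0⟩ 2 (.s13 ⟨⟨.ofNat 9, .ofNat 0⟩, ⟨.ofNat 18, .ofNat 0⟩, ⟨.ofNat 7, .ofNat 0⟩, ⟨.ofNat 2, .ofNat 0⟩⟩ ⟨.ofNat 31,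 .ofNat 0⟩ ⟨.ofNat 1, .ofNat 0⟩ ⟨.ofNat 6, .ofNat 0⟩ 36 (.s23 ⟨⟨.ofNat 44, .ofNat 0⟩, ⟨.ofNat 67, .ofNat 0⟩, ⟨.ofNat 32, .ofNat 0⟩, ⟨.ofNat 12, .ofNat 0⟩⟩ ⟨.ofNat 21, .ofNat 0⟩ ⟨.ofNat 52, .ofNat 0⟩ ⟨.ofNat 73, .ofNat 0⟩ 31 (.s03 ⟨⟨.ofNat 367, .ofNat 0⟩, ⟨.ofNat 425, .ofNat 0⟩, ⟨.ofNat 180, .ofNat 0⟩, ⟨.ofNat 84, .ofNat 0⟩⟩ ⟨.ofNat 103, .ofNat 0⟩ ⟨.ofNat 212, .ofNat 0⟩ ⟨.ofNat 45, .ofNat 0⟩ 27 (.leaf 6 [58, 64, 64, 10, 0, 0, 64, 0, 0]) (.s02 ⟨⟨.ofNat 825, .ofNat 0⟩, ⟨.ofNat 959, .ofNat 0⟩, ⟨.ofNat 504, .ofNat 0⟩, ⟨.ofNat 156, .ofNat 0⟩⟩ ⟨.ofNat 11, .ofNat 0⟩ ⟨.ofNat 28, .ofNat 0⟩ ⟨.ofNat 3, .ofNat 0⟩ 27 (.leaf 4 [24, 64, 64, 64, 0, 64])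 (.s01 ⟨⟨.ofNat 1350, .ofNat 0⟩, ⟨.ofNat 1485, .ofNat 0⟩, ⟨.ofNat 763, .ofNat 0⟩, ⟨.ofNat 182, .ofNat 0⟩⟩ ⟨.ofNat 9, .ofNat 0⟩ ⟨.ofNat 37, .ofNat 0⟩ ⟨.ofNat 1, .ofNat 0⟩ 27 (.leaf 4 [9, 64, 64, 56, 0, 64]) (.leaf 4 [64, 64, 31, 56, 0, 64])))) (.s02 ⟨⟨.ofNat 1350, .ofNat 0⟩, ⟨.ofNat 1379, .ofNat 0⟩, ⟨.ofNat 924, .ofNat 0⟩, ⟨.ofNat 156, .ofNat 0⟩⟩ ⟨.ofNat 6, .ofNat 0⟩ ⟨.ofNat 7, .ofNat 0⟩ ⟨.ofNat 1, .ofNat 0⟩ 26 (.leaf 3 [64, 64, 64, 64, 10, 0, 0, 0]) (.s03 ⟨⟨.ofNat 825, .ofNat 0⟩, ⟨.ofNat 959, .ofNat 0⟩, ⟨.ofNat 504, .ofNat 0⟩, ⟨.ofNat 156, .ofNat 0⟩⟩ ⟨.ofNat 11, .ofNat 0⟩ ⟨.ofNat 28, .ofNat 0⟩ ⟨.ofNat 3, .ofNat 0⟩ 27 (.leaf 3 [64, 64,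 64, 64, 10, 0, 0]) (.leaf 3 [64, 64, 57, 0, 64, 64, 64, 64, 0, 0, 0])))) (.s02 ⟨⟨.ofNat 14400, .ofNat 0⟩, ⟨.ofNat 13139, .ofNat 0⟩, ⟨.ofNat 8484, .ofNat 0⟩, ⟨.ofNat 1596, .ofNat 0⟩⟩ ⟨.ofNat 96, .ofNat 0⟩ ⟨.ofNat 37, .ofNat 0⟩ ⟨.ofNat 1, .ofNat 0⟩ 1 (.leaf 2 [24, 64, 64, 64, 51, 0, 0, 0]) (.leaf 3 [64, 64, 39, 0, 64, 64, 64, 30, 0, 0]))) (.leaf 1 [64, 64, 64, 37, 0, 64, 64, 64, 64, 64, 64, 0])) (.leaf 0 [64, 64, 64, 64, 35, 64, 64, 64, 64, 64, 64, 29])) (.s03 ⟨⟨.ofNat 113, .ofNat 0⟩, ⟨.ofNat 91, .ofNat 0⟩, ⟨.ofNat 56, .ofNat 0⟩, ⟨.ofNat 12, .ofNat 0⟩⟩ ⟨.ofNat 45, .ofNat 0⟩ ⟨.ofNat 1, .ofNat 0⟩ ⟨.ofNat 1, .ofNat 0⟩ 2 (.s01 ⟨⟨.ofNat 113,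 .ofNat 0⟩, ⟨.ofNat 136, .ofNat 0⟩, ⟨.ofNat 56, .ofNat 0⟩, ⟨.ofNat 12, .ofNat 0⟩⟩ ⟨.ofNat 1, .ofNat 0⟩ ⟨.ofNat 45, .ofNat 0⟩ ⟨.ofNat 1, .ofNat 0⟩ 28 (.s13 ⟨⟨.ofNat 69, .ofNat 0⟩, ⟨.ofNat 230, .ofNat 0⟩, ⟨.ofNat 33, .ofNat 0⟩, ⟨.ofNat 36, .ofNat 0⟩⟩ ⟨.ofNat 92, .ofNat 0⟩ ⟨.ofNat 3, .ofNat 0⟩ ⟨.ofNat 1, .ofNat 0⟩ 41 (.leaf 5 [64, 64, 64, 64, 64, 64, 64, 7, 64, 0, 0]) (.leaf 3 [64, 59, 0, 0, 0, 0, 0, 0, 0, 0])) (.s23 ⟨⟨.ofNat 9, .ofNat 0⟩, ⟨.ofNat 18, .ofNat 0⟩, ⟨.ofNat 7, .ofNat 0⟩, ⟨.ofNat 2, .ofNat 0⟩⟩ ⟨.ofNat 31, .ofNat 0⟩ ⟨.ofNat 1, .ofNat 0⟩ ⟨.ofNat 6, .ofNat 0⟩ 36 (.s03 ⟨⟨.ofNat 65, .ofNat 0⟩, ⟨.ofNat 67, .ofNat 0⟩, ⟨.ofNat 32, .ofNat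 0⟩, ⟨.ofNat 12, .ofNat 0⟩⟩ ⟨.ofNat 7, .ofNat 0⟩ ⟨.ofNat 8, .ofNat 0⟩ ⟨.ofNat 15, .ofNat 0⟩ 26 (.s13 ⟨⟨.ofNat 367, .ofNat 0⟩, ⟨.ofNat 528, .ofNat 0⟩, ⟨.ofNat 180, .ofNat 0⟩, ⟨.ofNat 84, .ofNat 0⟩⟩ ⟨.ofNat 103, .ofNat 0⟩ ⟨.ofNat 212, .ofNat 0⟩ ⟨.ofNat 45, .ofNat 0⟩ 30 (.s23 ⟨⟨.ofNat 25, .ofNat 0⟩, ⟨.ofNat 50, .ofNat 0⟩, ⟨.ofNat 16, .ofNat 0⟩, ⟨.ofNat 9, .ofNat 0⟩⟩ ⟨.ofNat 3, .ofNat 0⟩ ⟨.ofNat 1, .ofNat 0⟩ ⟨.ofNat 2, .ofNat 0⟩ 36 (.s03 ⟨⟨.ofNat 131, .ofNat 0⟩, ⟨.ofNat 169, .ofNat 0⟩, ⟨.ofNat 64, .ofNat 0⟩, ⟨.ofNat 36, .ofNat 0⟩⟩ ⟨.ofNat 31, .ofNat 0⟩ ⟨.ofNat 32, .ofNat 0⟩ ⟨.ofNat 21, .ofNat 0⟩ 29 (.leaf 7 [64, 0, 0, 35, 0]) (.leaf 6 [64,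 0, 64, 64, 57, 0])) (.leaf 5 [64, 0, 64, 64, 34, 0, 64])) (.leaf 4 [64, 64, 44, 0, 64, 64, 32, 0, 64])) (.leaf 3 [64, 64, 24, 0, 64, 64, 64, 0, 0, 0])) (.leaf 3 [64, 64, 24, 0, 64, 64, 64, 0, 0]))) (.s01 ⟨⟨.ofNat 2, .ofNat 0⟩, ⟨.ofNat 2, .ofNat 0⟩, ⟨.ofNat 1, .ofNat 0⟩, ⟨.ofNat 0, .ofNat 0⟩⟩ ⟨.ofNat 1, .ofNat 0⟩ ⟨.ofNat 1, .ofNat 0⟩ ⟨.ofNat 1, .ofNat 0⟩ 0 (.s13 ⟨⟨.ofNat 113, .ofNat 0⟩, ⟨.ofNat 136, .ofNat 0⟩, ⟨.ofNat 56, .ofNat 0⟩, ⟨.ofNat 12, .ofNat 0⟩⟩ ⟨.ofNat 45, .ofNat 0⟩ ⟨.ofNat 1, .ofNat 0⟩ ⟨.ofNat 1, .ofNat 0⟩ 28 (.leaf 1 [64, 56, 0, 0, 0, 64, 64, 64, 33, 0]) (.leaf 2 [64, 64, 10, 0, 0, 0, 0, 0, 0])) (.leaf 1 [64, 64, 29, 0,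 0, 64, 64, 64, 64, 0, 0, 0])))

theorem g64 : Good (PE lin H) ⟨⟨.ofNat 2, .ofNat 0⟩, ⟨.ofNat 1, .ofNat 0⟩, ⟨.ofNat 1, .ofNat 0⟩, ⟨.ofNat 0, .ofNat 0⟩⟩
    ⟨⟨.ofNat 0, .ofNat 0⟩, ⟨.ofNat 1, .ofNat 0⟩, ⟨.ofNat 0, .ofNat 0⟩, ⟨.ofNat 0, .ofNat 0⟩⟩
    ⟨⟨.ofNat 1, .ofNat 0⟩, ⟨.ofNat 1, .ofNat 0⟩, ⟨.ofNat 1, .ofNat 0⟩, ⟨.ofNat 0, .ofNat 0⟩⟩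
    ⟨⟨.ofNat 23, .ofNat 0⟩, ⟨.ofNat 46, .ofNat 0⟩, ⟨.ofNat 11, .ofNat 0⟩, ⟨.ofNat 12, .ofNat 0⟩⟩ :=
  goodE lin H t64 10 51 0 36 (by decide +kernel)

end

end Pool.Agent.PHCert.E5
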