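import Mathlib
import Pool.Agent.PHCert.Defs

/-!
# PHCert: the entropy function
-/

set_option autoImplicit false

namespace Pool.Agent.PHCert

theorem Lp_pos : 0 < Lp := Real.log_pos Real.one_lt_goldenRatio

/-- Gibbs' inequality -/
theorem VV_le {x y p q : ℝ} (hx : 0 ≤ x) (hy : 0 ≤ y) (hp : 0 < p) (hq : 0 < q) (hpq : p + q ≤ 1) :
    VV x y ≤ -(x * Real.log p) - y * Real.log q := by
  unfold VV
  rcases eq_or_lt_of_le hx with rfl | hx'
  · rcases eq_or_lt_of_le hy with rfl | hy'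
    · simp
    · have h1 : Real.log q ≤ 0 := Real.log_nonpos hq.le (by linarith)
      simp only [zero_add, zero_mul, sub_zero, neg_zero, zero_sub]
      nlinarith [mul_nonneg hy (neg_nonneg.2 h1)]
  · rcases eq_or_lt_of_le hy with rfl | hy'
    · have h1 : Real.log p ≤ 0 := Real.log_nonpos hp.le (by linarith)
      simp only [add_zero, zero_mul, sub_zero]
      nlinarith [mul_nonneg hx (neg_nonneg.2 h1)]
    · have hs : 0 < x + y := by linarith
      have h1 : Real.log (p * (x + y) / x) ≤ p * (x + y) / x - 1 := Real.log_le_sub_one_of_pos (by positivity)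
      have h2 : Real.log (q * (x + y) / y) ≤ q * (x + y) / y - 1 := Real.log_le_sub_one_of_pos (by positivity)
      rw [Real.log_div (by positivity) hx'.ne', Real.log_mul hp.ne' hs.ne'] at h1
      rw [Real.log_div (by positivity) hy'.ne', Real.log_mul hq.ne' hs.ne'] at h2
      have h3 := mul_le_mul_of_nonneg_left h1 hx
      have h4 := mul_le_mul_of_nonneg_left h2 hy
      have h5 : x * (p * (x + y) / x - 1) = p * (x + y) - x := by field_simp
      have h6 : y * (q * (x + y) / y - 1) = q * (x + y) - y := by field_simp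
      rw [h5] at h3
      rw [h6] at h4
      nlinarith [mul_nonneg hs.le (sub_nonneg.2 hpq)]

theorem VV_eq {x y : ℝ} (hx : 0 < x) (hy : 0 < y) :
    VV x y = -(x * Real.log (x / (x + y))) - y * Real.log (y / (x + y)) := by
  unfold VV
  have hs : 0 < x + y := by linarith
  rw [Real.log_div hx.ne' hs.ne', Real.log_div hy.ne' hs.ne']
  ring

theorem VV_smul (c : ℝ) {x y : ℝ} (hx : 0 ≤ x) (hy : 0 ≤ y) (hc : 0 ≤ c) :
    VV (c * x) (c * y) = c * VV x y := by
  rcases eq_or_lt_of_le hc with rfl | hc'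
  · simp [VV]
  · have key : ∀ t : ℝ, 0 ≤ t → (c * t) * Real.log (c * t) = c * (t * Real.log t) + c * t * Real.log c := by
      intro t ht
      rcases eq_or_lt_of_le ht with rfl | ht'
      · simp
      · rw [Real.log_mul hc'.ne' ht'.ne']
        ring
    unfold VV
    rw [← mul_add, key x hx, key y hy, key (x + y) (by linarith)]
    ring

theorem VV_zero_left (y : ℝ) : VV 0 y = 0 := by simp [VV]

theorem VV_zero_right (x : ℝ) : VV x 0 = 0 := by simp [VV]

theorem VV_comm (x y : ℝ) : VV x y = VV y x := by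
  unfold VV
  rw [add_comm]
  ring

theorem VV_nonneg {x y : ℝ} (hx : 0 ≤ x) (hy : 0 ≤ y) : 0 ≤ VV x y := by
  rcases eq_or_lt_of_le hx with rfl | hx'
  · rw [VV_zero_left]
  · rcases eq_or_lt_of_le hy with rfl | hy'
    · rw [VV_zero_right]
    · rw [VV_eq hx' hy']
      have h1 : Real.log (x / (x + y)) ≤ 0 :=
        Real.log_nonpos (by positivity) (by rw [div_le_one (by linarith)]; linarith)
      have h2 : Real.log (y / (x + y)) ≤ 0 :=
        Real.log_nonpos (by positivity) (by rw [div_le_one (by linarith)]; linarith)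
      nlinarith [mul_nonneg hx (neg_nonneg.2 h1), mul_nonneg hy (neg_nonneg.2 h2)]

/-- superadditivity -/
theorem VV_add {x y x' y' : ℝ} (hx : 0 ≤ x) (hy : 0 ≤ y) (hx' : 0 ≤ x') (hy' : 0 ≤ y') :
    VV x y + VV x' y' ≤ VV (x + x') (y + y') := by
  rcases eq_or_lt_of_le (add_nonneg hx hx') with h0 | h0
  · have e1 : x = 0 := by linarith
    have e2 : x' = 0 := by linarith
    subst e1 e2
    simp [VV_zero_left]
  · rcases eq_or_lt_of_le (add_nonneg hy hy') with h1 | h1
    · have e1 : y = 0 := by linarith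
      have e2 : y' = 0 := by linarith
      subst e1 e2
      simp [VV_zero_right]
    · rw [VV_eq h0 h1]
      set s := x + x' + (y + y') with hs
      have hs0 : 0 < s := by positivity
      have hp : 0 < (x + x') / s := by positivity
      have hq : 0 < (y + y') / s := by positivity
      have hpq : (x + x') / s + (y + y') / s ≤ 1 := by
        rw [← add_div, div_self hs0.ne']
      have a1 := VV_le hx hy hp hq hpq
      have a2 := VV_le hx' hy' hp hq hpq
      nlinarith

theorem VV_comb {a0 a1 a2 a3 x0 x1 x2 x3 y0 y1 y2 y3 : ℝ} (h0 : 0 ≤ a0) (h1 : 0 ≤ a1) (h2 : 0 ≤ a2) (h3 : 0 ≤ a3)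
    (hx0 : 0 ≤ x0) (hx1 : 0 ≤ x1) (hx2 : 0 ≤ x2) (hx3 : 0 ≤ x3)
    (hy0 : 0 ≤ y0) (hy1 : 0 ≤ y1) (hy2 : 0 ≤ y2) (hy3 : 0 ≤ y3) :
    a0 * VV x0 y0 + a1 * VV x1 y1 + a2 * VV x2 y2 + a3 * VV x3 y3 ≤
      VV (a0 * x0 + a1 * x1 + a2 * x2 + a3 * x3) (a0 * y0 + a1 * y1 + a2 * y2 + a3 * y3) := by
  rw [← VV_smul a0 hx0 hy0 h0, ← VV_smul a1 hx1 hy1 h1, ← VV_smul a2 hx2 hy2 h2, ← VV_smul a3 hx3 hy3 h3]
  refine le_trans (add_le_add_left (le_trans (add_le_add_left (VV_add ?_ ?_ ?_ ?_) _) (VV_add ?_ ?_ ?_ ?_)) _)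
    (VV_add ?_ ?_ ?_ ?_) <;> positivity

end Pool.Agent.PHCert
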