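import Pool.Agent.PHCert.D0
import Pool.Agent.PHCert.D1
import Pool.Agent.PHCert.D2
import Pool.Agent.PHCert.D3
import Pool.Agent.PHCert.D4
import Pool.Agent.PHCert.D5
import Pool.Agent.PHCert.D6
import Pool.Agent.PHCert.D7
import Pool.Agent.PHCert.E1
import Pool.Agent.PHCert.E2
import Pool.Agent.PHCert.E3
import Pool.Agent.PHCert.E4
import Pool.Agent.PHCert.E5
import Pool.Agent.PHI.Defs

/-!
# PHCert: the certificate for `φ²`
-/

set_option autoImplicit false

namespace Pool.Agent.PHCert

open Zp Pool.Agent.PHI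

/-- The data of the pair of flags. -/
noncomputable def fd : Fl → Fl → Fd
  | .a, .a => faa
  | .a, .b => fab
  | .b, .a => fab
  | .a, .c => fac
  | .c, .a => fac
  | .b, .b => fbb
  | .b, .c => fbc
  | .c, .b => fbc
  | .c, .c => fcc

/-- The functions of the certificate. -/
noncomputable def PP (x y : Fl) (e f l : ℝ) : ℝ := Lp / DD * (fd x y).ev e f l

theorem DD_pos : (0 : ℝ) < (DD : ℝ) := by norm_num [DD]

theorem LD_pos : 0 < Lp / (DD : ℝ) := div_pos Lp_pos DD_pos

/-- The Lipschitz constant of a list of kinks. -/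
noncomputable def kC : List Kd → ℝ
  | [] => 0
  | k :: K => |k.k.val| * k.q + kC K

theorem kC_nonneg : ∀ K : List Kd, 0 ≤ kC K
  | [] => le_rfl
  | k :: K => by
    unfold kC
    have := kC_nonneg K
    positivity

/-- The lengths are at least `l` and the positions of the kinks are nonnegative. -/
theorem kev_lip (e f : ℝ) : ∀ (K : List Kd) (l l' : ℝ), l ≤ l' → |kev K e f l' - kev K e f l| ≤ kC K * (l' - l)
  | [], l, l', _ => by simp [kev, kC]
  | k :: K, l, l', h => by
    unfold kev kC
    have ih := kev_lip e f K l l' h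
    have hq : (0 : ℝ) ≤ k.q := Nat.cast_nonneg _
    have h1 : |max 0 (k.q * l' - k.p.val * lenR k.comp e f) - max 0 (k.q * l - k.p.val * lenR k.comp e f)| ≤
        k.q * (l' - l) := by
      have h2 : (k.q : ℝ) * l ≤ k.q * l' := mul_le_mul_of_nonneg_left h hq
      rw [abs_of_nonneg (sub_nonneg.2 (max_le_max le_rfl (by linarith)))]
      rcases le_total 0 (k.q * l - k.p.val * lenR k.comp e f) with h3 | h3
      · rw [max_eq_right h3, max_eq_right (by linarith)]
        linarith
      · rw [max_eq_left h3, sub_zero]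
        refine max_le ?_ ?_
        · nlinarith
        · linarith
    have e1 : k.k.val * max 0 (k.q * l' - k.p.val * lenR k.comp e f) + kev K e f l' -
        (k.k.val * max 0 (k.q * l - k.p.val * lenR k.comp e f) + kev K e f l) =
        k.k.val * (max 0 (k.q * l' - k.p.val * lenR k.comp e f) - max 0 (k.q * l - k.p.val * lenR k.comp e f)) +
          (kev K e f l' - kev K e f l) := by ring
    rw [e1]
    refine (abs_add_le _ _).trans ?_
    rw [abs_mul, add_mul]
    refine add_le_add ?_ ih
    calc |k.k.val| * |max 0 (k.q * l' - k.p.val * lenR k.comp e f) - max 0 (k.q * l - k.p.val * lenR k.comp e f)|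
        ≤ |k.k.val| * (k.q * (l' - l)) := mul_le_mul_of_nonneg_left h1 (abs_nonneg _)
      _ = |k.k.val| * k.q * (l' - l) := by ring

/-- all positions are nonnegative -/
def posK (K : List Kd) : Bool := K.all fun k => k.p.nneg

theorem kev_zero {e f : ℝ} (he : 0 ≤ e) (hf : 0 ≤ f) : ∀ K : List Kd, posK K = true → kev K e f 0 = 0
  | [], _ => rfl
  | k :: K, h => by
    unfold posK at h
    rw [List.all_cons, Bool.and_eq_true] at h
    unfold kev
    rw [kev_zero he hf K h.2]
    have h1 := nneg_sound h.1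
    have h2 : 0 ≤ lenR k.comp e f := by
      unfold lenR
      split
      · exact he
      · exact hf
      · positivity
    rw [max_eq_left]
    · simp
    · have := mul_nonneg h1 h2
      linarith

theorem ev_lip (F : Fd) (e f l l' : ℝ) (h : l ≤ l') :
    |F.ev e f l' - F.ev e f l| ≤ (|F.c.val| + kC F.K) * (l' - l) := by
  unfold Fd.ev
  have e1 : F.c.val * l' + kev F.K e f l' - (F.c.val * l + kev F.K e f l) =
      F.c.val * (l' - l) + (kev F.K e f l' - kev F.K e f l) := by ring
  rw [e1]
  refine (abs_add_le _ _).trans ?_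
  rw [abs_mul, abs_of_nonneg (sub_nonneg.2 h), add_mul]
  exact add_le_add le_rfl (kev_lip e f F.K l l' h)

theorem ev_zero (F : Fd) (hF : posK F.K = true) {e f : ℝ} (he : 0 ≤ e) (hf : 0 ≤ f) : F.ev e f 0 = 0 := by
  unfold Fd.ev
  rw [kev_zero he hf F.K hF]
  ring

theorem posK_all : posK faa.K = true ∧ posK fab.K = true ∧ posK fac.K = true ∧ posK fbb.K = true ∧
    posK fbc.K = true ∧ posK fcc.K = true := by
  refine ⟨?_, ?_, ?_, ?_, ?_, ?_⟩ <;> decide +kernel

theorem posK_fd (x y : Fl) : posK (fd x y).K = true := by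
  obtain ⟨h1, h2, h3, h4, h5, h6⟩ := posK_all
  cases x <;> cases y <;> assumption

/-- A constant for one function. -/
noncomputable def c1 (F : Fd) : ℝ := |F.c.val| + kC F.K

theorem c1_nonneg (F : Fd) : 0 ≤ c1 F := add_nonneg (abs_nonneg _) (kC_nonneg _)

/-- The constant. -/
noncomputable def CC0 : ℝ := Lp / DD * (c1 faa + c1 fab + c1 fac + c1 fbb + c1 fbc + c1 fcc)

theorem c1_le (x y : Fl) : c1 (fd x y) ≤ c1 faa + c1 fab + c1 fac + c1 fbb + c1 fbc + c1 fcc := by
  have h1 := c1_nonneg faa
  have h2 := c1_nonneg fab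
  have h3 := c1_nonneg fac
  have h4 := c1_nonneg fbb
  have h5 := c1_nonneg fbc
  have h6 := c1_nonneg fcc
  cases x <;> cases y <;> simp only [fd] <;> linarith

theorem CC0_nonneg : 0 ≤ CC0 := by
  have h1 := c1_nonneg faa
  have h2 := c1_nonneg fab
  have h3 := c1_nonneg fac
  have h4 := c1_nonneg fbb
  have h5 := c1_nonneg fbc
  have h6 := c1_nonneg fcc
  have := LD_pos
  unfold CC0
  positivity

theorem PP_lip (x y : Fl) (e f l l' : ℝ) (h : l ≤ l') : |PP x y e f l' - PP x y e f l| ≤ CC0 * (l' - l) := by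
  unfold PP
  rw [← mul_sub, abs_mul, abs_of_pos LD_pos]
  unfold CC0
  rw [mul_assoc]
  refine mul_le_mul_of_nonneg_left ?_ LD_pos.le
  exact (ev_lip (fd x y) e f l l' h).trans
    (mul_le_mul_of_nonneg_right (c1_le x y) (sub_nonneg.2 h))

theorem PP_zero (x y : Fl) {e f : ℝ} (he : 0 ≤ e) (hf : 0 ≤ f) : PP x y e f 0 = 0 := by
  unfold PP
  rw [ev_zero (fd x y) (posK_fd x y) he hf]
  ring

theorem PP_sym (x y : Fl) (e f l : ℝ) : PP x y e f l = PP y x e f l := by
  cases x <;> cases y <;> rfl

theorem scale {a b : ℝ} (h : 0 ≤ b - a) : Lp / DD * a ≤ Lp / DD * b :=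
  mul_le_mul_of_nonneg_left (by linarith) LD_pos.le

section
variable {n r s l : ℝ} (h0 : 0 ≤ l) (hn : l ≤ n) (hr : l ≤ r) (hs : l ≤ s)
include h0 hn hr hs

theorem q0 : fbb.ev s n l + fcc.ev r n l ≤ faa.ev (n + r) s l + fcc.ev (n + s) r l := by
  have h := D0.ineq h0 hn hr hs
  simp only [D0.ts, tev, dotR_add, dotR_v0, dotR_v1, dotR_v2, dotR_v3] at h
  simp at h
  linarith

theorem q1 : fbc.ev s n l + fcc.ev r n l ≤ fab.ev (n + r) s l + fbc.ev (n + s) r l := by
  have h := D1.ineq h0 hn hr hs
  simp only [D1.ts, tev, dotR_add, dotR_v0, dotR_v1, dotR_v2, dotR_v3] at h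
  simp at h
  linarith

theorem q4 : fbb.ev r n l + fcc.ev s n l ≤ faa.ev r (n + s) l + fcc.ev s (n + r) l := by
  have h := D4.ineq h0 hn hr hs
  simp only [D4.ts, tev, dotR_add, dotR_v0, dotR_v1, dotR_v2, dotR_v3] at h
  simp at h
  linarith

theorem q5 : fbb.ev r n l + fbc.ev s n l ≤ fab.ev r (n + s) l + fbc.ev s (n + r) l := by
  have h := D5.ineq h0 hn hr hs
  simp only [D5.ts, tev, dotR_add, dotR_v0, dotR_v1, dotR_v2, dotR_v3] at h
  simp at h
  linarith

theorem q2 : fbc.ev s n l + fbc.ev r n l ≤ fac.ev (n + r) s l + fac.ev (n + s) r l := by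
  rcases le_total r s with hrs | hrs
  · have h := D2.ineq h0 hn hr hrs
    simp only [D2.ts, tev, dotR_add, dotR_v0, dotR_v1, dotR_v2, dotR_v3] at h
    simp at h
    linarith
  · have h := D2.ineq h0 hn hs hrs
    simp only [D2.ts, tev, dotR_add, dotR_v0, dotR_v1, dotR_v2, dotR_v3] at h
    simp at h
    linarith

theorem q3 : fcc.ev s n l + fcc.ev r n l ≤ fbb.ev (n + r) s l + fbb.ev (n + s) r l := by
  rcases le_total r s with hrs | hrs
  · have h := D3.ineq h0 hn hr hrs
    simp only [D3.ts, tev, dotR_add, dotR_v0, dotR_v1, dotR_v2, dotR_v3] at h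
    simp at h
    linarith
  · have h := D3.ineq h0 hn hs hrs
    simp only [D3.ts, tev, dotR_add, dotR_v0, dotR_v1, dotR_v2, dotR_v3] at h
    simp at h
    linarith

theorem q6 : fbc.ev r n l + fbc.ev s n l ≤ fac.ev r (n + s) l + fac.ev s (n + r) l := by
  rcases le_total r s with hrs | hrs
  · have h := D6.ineq h0 hn hr hrs
    simp only [D6.ts, tev, dotR_add, dotR_v0, dotR_v1, dotR_v2, dotR_v3] at h
    simp at h
    linarith
  · have h := D6.ineq h0 hn hs hrs
    simp only [D6.ts, tev, dotR_add, dotR_v0, dotR_v1, dotR_v2, dotR_v3] at h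
    simp at h
    linarith

theorem q7 : fbb.ev r n l + fbb.ev s n l ≤ fbb.ev r (n + s) l + fbb.ev s (n + r) l := by
  rcases le_total r s with hrs | hrs
  · have h := D7.ineq h0 hn hr hrs
    simp only [D7.ts, tev, dotR_add, dotR_v0, dotR_v1, dotR_v2, dotR_v3] at h
    simp at h
    linarith
  · have h := D7.ineq h0 hn hs hrs
    simp only [D7.ts, tev, dotR_add, dotR_v0, dotR_v1, dotR_v2, dotR_v3] at h
    simp at h
    linarith

end

section
variable {e f a b : ℝ} (ha : 0 ≤ a) (hb : 0 ≤ b) (he : a + b ≤ e) (hf : a + b ≤ f)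
include ha hb he hf

theorem w1 : fab.ev e f a + fab.ev e f b ≤ fbb.ev e f (a + b) +
    DD / Lp * (VV e f - Real.goldenRatio ^ 2 * VV a b) := by
  rw [Real.goldenRatio_sq]
  rcases le_total a b with hab | hab
  · have h := E1.ineq ha hab he hf
    simp only [E1.ts, tev, dotR_add, dotR_v0, dotR_v1, dotR_v2, dotR_v3] at h
    simp at h
    linarith
  · have h := E1.ineq hb hab (by linarith) (by linarith) (e := e) (f := f)
    simp only [E1.ts, tev, dotR_add, dotR_v0, dotR_v1, dotR_v2, dotR_v3] at h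
    simp at h
    rw [VV_comm b a, add_comm b a] at h
    linarith

theorem w2 : fab.ev e f a + fac.ev e f b ≤ fbc.ev e f (a + b) +
    DD / Lp * (VV e f - Real.goldenRatio ^ 2 * VV a b) := by
  rw [Real.goldenRatio_sq]
  have h := E2.ineq ha hb he hf
  simp only [E2.ts, tev, dotR_add, dotR_v0, dotR_v1, dotR_v2, dotR_v3] at h
  simp at h
  linarith

theorem w3 : fac.ev e f a + fac.ev e f b ≤ fcc.ev e f (a + b) +
    DD / Lp * (VV e f - Real.goldenRatio ^ 2 * VV a b) := by
  rw [Real.goldenRatio_sq]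
  rcases le_total a b with hab | hab
  · have h := E3.ineq ha hab he hf
    simp only [E3.ts, tev, dotR_add, dotR_v0, dotR_v1, dotR_v2, dotR_v3] at h
    simp at h
    linarith
  · have h := E3.ineq hb hab (by linarith) (by linarith) (e := e) (f := f)
    simp only [E3.ts, tev, dotR_add, dotR_v0, dotR_v1, dotR_v2, dotR_v3] at h
    simp at h
    rw [VV_comm b a, add_comm b a] at h
    linarith

theorem w4 : faa.ev e f a + fab.ev e f b ≤ fab.ev e f (a + b) +
    DD / Lp * (VV e f - Real.goldenRatio ^ 2 * VV a b) := by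
  rw [Real.goldenRatio_sq]
  have h := E4.ineq ha hb he hf
  simp only [E4.ts, tev, dotR_add, dotR_v0, dotR_v1, dotR_v2, dotR_v3] at h
  simp at h
  linarith

theorem w5 : faa.ev e f a + fac.ev e f b ≤ fac.ev e f (a + b) +
    DD / Lp * (VV e f - Real.goldenRatio ^ 2 * VV a b) := by
  rw [Real.goldenRatio_sq]
  have h := E5.ineq ha hb he hf
  simp only [E5.ts, tev, dotR_add, dotR_v0, dotR_v1, dotR_v2, dotR_v3] at h
  simp at h
  linarith

end

theorem phi_eq : phi = Real.goldenRatio := rfl

theorem VV_eq' (x y : ℝ) : PHI.VV x y = VV x y := rfl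

theorem scaleE {A B G : ℝ} (h : A ≤ B + DD / Lp * G) : Lp / DD * A ≤ Lp / DD * B + G := by
  have h1 := mul_le_mul_of_nonneg_left h LD_pos.le
  have h2 : Lp / DD * (B + DD / Lp * G) = Lp / DD * B + G := by
    have := Lp_pos.ne'
    have := DD_pos.ne'
    field_simp
  linarith

/-- **The certificate exists.** -/
theorem cert : Cert PP CC0 where
  C0 := CC0_nonneg
  sym := PP_sym
  bd := by
    intro x y e f l h0 he hf
    have h := PP_lip x y e f 0 l h0
    rw [PP_zero x y (h0.trans he) (h0.trans hf), sub_zero, sub_zero] at h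
    exact h
  lip := fun x y e f l l' _ h _ _ => PP_lip x y e f l l' h
  dP := by
    intro n r s l h0 hn hr hs x y
    have a0 := q0 h0 hn hr hs
    have a0' := q0 h0 hn hs hr
    have a1 := q1 h0 hn hr hs
    have a1' := q1 h0 hn hs hr
    have a2 := q2 h0 hn hr hs
    have a3 := q3 h0 hn hr hs
    unfold PP
    rw [← mul_add, ← mul_add]
    apply scale
    cases x <;> cases y <;> simp only [fa, fc, Fl.star, fd] <;> linarith
  dF := by
    intro n r s l h0 hn hr hs x y
    have a4 := q4 h0 hn hr hs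
    have a4' := q4 h0 hn hs hr
    have a5 := q5 h0 hn hr hs
    have a5' := q5 h0 hn hs hr
    have a6 := q6 h0 hn hr hs
    have a7 := q7 h0 hn hr hs
    unfold PP
    rw [← mul_add, ← mul_add]
    apply scale
    cases x <;> cases y <;> simp only [gc, ga, Fl.star, fd] <;> linarith
  t1 := by
    intro e f a b ha hb he hf x y hx hy
    have a1 := w1 ha hb he hf
    have a2 := w2 ha hb he hf
    have a2' := w2 hb ha (by linarith) (by linarith) (e := e) (f := f)
    have a3 := w3 ha hb he hf
    rw [VV_comm b a, add_comm b a] at a2'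
    rw [phi_eq, VV_eq', VV_eq']
    unfold PP
    have key : (fd x .a).ev e f a + (fd .a y).ev e f b ≤ (fd x y).ev e f (a + b) +
        DD / Lp * (VV e f - Real.goldenRatio ^ 2 * VV a b) := by
      cases x <;> cases y <;> simp only [fd] <;> first | exact absurd rfl hx | exact absurd rfl hy | linarith
    have h := scaleE key
    linarith
  t2 := by
    intro e f a b ha hb he hf y hy
    have a4 := w4 ha hb he hf
    have a5 := w5 ha hb he hf
    rw [phi_eq, VV_eq', VV_eq']
    unfold PP
    have key : (fd .a .a).ev e f a + (fd .a y).ev e f b ≤ (fd .a y).ev e f (a + b) +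
        DD / Lp * (VV e f - Real.goldenRatio ^ 2 * VV a b) := by
      cases y <;> simp only [fd] <;> first | exact absurd rfl hy | linarith
    have h := scaleE key
    linarith

end Pool.Agent.PHCert
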