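import Pool.Agent.PHCert.Tab

/-!
# PHCert: combining subtrees
-/

set_option autoImplicit false

namespace Pool.Agent.PHCert

open Zp

/-- the function is nonnegative on the cone -/
def Good (T : Prob) (x0 x1 x2 x3 : V4) : Prop :=
  ∀ x : Fin 4 → ℝ, 0 ≤ x 2 → 0 ≤ x 3 → ∀ a0 a1 a2 a3 : ℝ, 0 ≤ a0 → 0 ≤ a1 → 0 ≤ a2 → 0 ≤ a3 →
    x = cmb a0 a1 a2 a3 x0 x1 x2 x3 → 0 ≤ T.F x

/-- a problem without entropy -/
def PD (lin : V4) (H : List Hinge) : Prob := ⟨false, lin, H, chords, tans⟩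

/-- a problem with entropy -/
def PE (lin : V4) (H : List Hinge) : Prob := ⟨true, lin, H, chords, tans⟩

theorem goodD (lin : V4) (H : List Hinge) (t : Tree) {r0 r1 r2 r3 : V4}
    (h : (PD lin H).run t r0 r1 r2 r3 0 0 0 0 = true) : Good (PD lin H) r0 r1 r2 r3 :=
  fun _ hx2 hx3 _ _ _ _ h0 h1 h2 h3 hx => run_sound (T := PD lin H) chords_ok tans_ok h hx2 hx3 h0 h1 h2 h3 hx

theorem goodE (lin : V4) (H : List Hinge) (t : Tree) {r0 r1 r2 r3 : V4} (k0 k1 k2 k3 : ℕ)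
    (h : (PE lin H).run t r0 r1 r2 r3 k0 k1 k2 k3 = true) : Good (PE lin H) r0 r1 r2 r3 :=
  fun _ hx2 hx3 _ _ _ _ h0 h1 h2 h3 hx => run_sound (T := PE lin H) chords_ok tans_ok h hx2 hx3 h0 h1 h2 h3 hx

section
variable {T : Prob} {x0 x1 x2 x3 w : V4} (al be ga : Zp)

theorem good01 (g : splitOk w al be ga x0 x1 = true) (g3 : Good T w x1 x2 x3) (g4 : Good T x0 w x2 x3) :
    Good T x0 x1 x2 x3 := by
  intro x hx2 hx3 a0 a1 a2 a3 h0 h1 h2 h3 hx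
  rcases split_point g h0 h1 with ⟨c, d, hc, hd, he⟩ | ⟨c, d, hc, hd, he⟩
  · refine g3 x hx2 hx3 c d a2 a3 hc hd h2 h3 ?_
    rw [hx]
    unfold cmb
    rw [he]
  · refine g4 x hx2 hx3 c d a2 a3 hc hd h2 h3 ?_
    rw [hx]
    unfold cmb
    rw [he]

theorem good02 (g : splitOk w al be ga x0 x2 = true) (g3 : Good T w x1 x2 x3) (g4 : Good T x0 x1 w x3) :
    Good T x0 x1 x2 x3 := by
  intro x hx2 hx3 a0 a1 a2 a3 h0 h1 h2 h3 hx
  have e : a0 • vecR x0 + a1 • vecR x1 + a2 • vecR x2 + a3 • vecR x3 =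
      (a0 • vecR x0 + a2 • vecR x2) + a1 • vecR x1 + a3 • vecR x3 := by abel
  rcases split_point g h0 h2 with ⟨c, d, hc, hd, he⟩ | ⟨c, d, hc, hd, he⟩
  · refine g3 x hx2 hx3 c a1 d a3 hc h1 hd h3 ?_
    rw [hx]
    unfold cmb
    rw [e, he]
    abel
  · refine g4 x hx2 hx3 c a1 d a3 hc h1 hd h3 ?_
    rw [hx]
    unfold cmb
    rw [e, he]
    abel

theorem good12 (g : splitOk w al be ga x1 x2 = true) (g3 : Good T x0 w x2 x3) (g4 : Good T x0 x1 w x3) :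
    Good T x0 x1 x2 x3 := by
  intro x hx2 hx3 a0 a1 a2 a3 h0 h1 h2 h3 hx
  have e : a0 • vecR x0 + a1 • vecR x1 + a2 • vecR x2 + a3 • vecR x3 =
      (a1 • vecR x1 + a2 • vecR x2) + a0 • vecR x0 + a3 • vecR x3 := by abel
  rcases split_point g h1 h2 with ⟨c, d, hc, hd, he⟩ | ⟨c, d, hc, hd, he⟩
  · refine g3 x hx2 hx3 a0 c d a3 h0 hc hd h3 ?_
    rw [hx]
    unfold cmb
    rw [e, he]
    abel
  · refine g4 x hx2 hx3 a0 c d a3 h0 hc hd h3 ?_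
    rw [hx]
    unfold cmb
    rw [e, he]
    abel

theorem good03 (g : splitOk w al be ga x0 x3 = true) (g3 : Good T w x1 x2 x3) (g4 : Good T x0 x1 x2 w) :
    Good T x0 x1 x2 x3 := by
  intro x hx2 hx3 a0 a1 a2 a3 h0 h1 h2 h3 hx
  have e : a0 • vecR x0 + a1 • vecR x1 + a2 • vecR x2 + a3 • vecR x3 =
      (a0 • vecR x0 + a3 • vecR x3) + a1 • vecR x1 + a2 • vecR x2 := by abel
  rcases split_point g h0 h3 with ⟨c, d, hc, hd, he⟩ | ⟨c, d, hc, hd, he⟩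
  · refine g3 x hx2 hx3 c a1 a2 d hc h1 h2 hd ?_
    rw [hx]
    unfold cmb
    rw [e, he]
    abel
  · refine g4 x hx2 hx3 c a1 a2 d hc h1 h2 hd ?_
    rw [hx]
    unfold cmb
    rw [e, he]
    abel

theorem good13 (g : splitOk w al be ga x1 x3 = true) (g3 : Good T x0 w x2 x3) (g4 : Good T x0 x1 x2 w) :
    Good T x0 x1 x2 x3 := by
  intro x hx2 hx3 a0 a1 a2 a3 h0 h1 h2 h3 hx
  have e : a0 • vecR x0 + a1 • vecR x1 + a2 • vecR x2 + a3 • vecR x3 =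
      (a1 • vecR x1 + a3 • vecR x3) + a0 • vecR x0 + a2 • vecR x2 := by abel
  rcases split_point g h1 h3 with ⟨c, d, hc, hd, he⟩ | ⟨c, d, hc, hd, he⟩
  · refine g3 x hx2 hx3 a0 c a2 d h0 hc h2 hd ?_
    rw [hx]
    unfold cmb
    rw [e, he]
    abel
  · refine g4 x hx2 hx3 a0 c a2 d h0 hc h2 hd ?_
    rw [hx]
    unfold cmb
    rw [e, he]
    abel

theorem good23 (g : splitOk w al be ga x2 x3 = true) (g3 : Good T x0 x1 w x3) (g4 : Good T x0 x1 x2 w) :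
    Good T x0 x1 x2 x3 := by
  intro x hx2 hx3 a0 a1 a2 a3 h0 h1 h2 h3 hx
  have e : a0 • vecR x0 + a1 • vecR x1 + a2 • vecR x2 + a3 • vecR x3 =
      (a2 • vecR x2 + a3 • vecR x3) + a0 • vecR x0 + a1 • vecR x1 := by abel
  rcases split_point g h2 h3 with ⟨c, d, hc, hd, he⟩ | ⟨c, d, hc, hd, he⟩
  · refine g3 x hx2 hx3 a0 a1 c d h0 h1 hc hd ?_
    rw [hx]
    unfold cmb
    rw [e, he]
    abel
  · refine g4 x hx2 hx3 a0 a1 c d h0 h1 hc hd ?_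
    rw [hx]
    unfold cmb
    rw [e, he]
    abel

end

end Pool.Agent.PHCert
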