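import Pool.Agent.PHCert.Ent

/-!
# PHCert: soundness of the checker
-/

set_option autoImplicit false

namespace Pool.Agent.PHCert

open Zp

/-- the combination of four points -/
noncomputable def cmb (a0 a1 a2 a3 : ℝ) (x0 x1 x2 x3 : V4) : Fin 4 → ℝ :=
  a0 • vecR x0 + a1 • vecR x1 + a2 • vecR x2 + a3 • vecR x3

theorem nneg_false {x : Zp} (h : x.nneg = false) : x.val ≤ 0 := by
  unfold nneg at h
  rcases hs : x.sg with _ | _ | _
  · exact sg_neg hs
  · simp [hs] at h
  · simp [hs] at h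

theorem ispos_sound {x : Zp} (h : x.ispos = true) : 0 < x.val := by
  unfold ispos at h
  rcases hs : x.sg with _ | _ | _
  · simp [hs] at h
  · simp [hs] at h
  · exact sg_pos hs

theorem pp_val (x : V4) (h : Hinge) :
    (h.ent x).pp.val = 64 * (h.c.val * max 0 (dotR h.l (vecR x))) := by
  have e1 : (h.ent x).s = (h.l.dot x).sg := rfl
  have e2 : (h.ent x).cl = h.c.mul (h.l.dot x) := rfl
  unfold Ent.pp
  rw [e1, e2]
  rcases hs : (h.l.dot x).sg with _ | _ | _
  · have h1 := sg_neg hs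
    rw [dot_val] at h1
    rw [max_eq_left h1]
    simp [val_zero]
  · have h1 := sg_zero hs
    rw [dot_val] at h1
    rw [h1]
    simp [val_zero]
  · have h1 := sg_pos hs
    rw [dot_val] at h1
    rw [max_eq_right h1.le]
    simp only [val_smul, val_mul, dot_val]
    norm_num

theorem ent_nonpos {x : V4} {h : Hinge} (hs : (h.ent x).s ≠ Sg.p) : dotR h.l (vecR x) ≤ 0 := by
  have e1 : (h.ent x).s = (h.l.dot x).sg := rfl
  rw [e1] at hs
  rw [← dot_val]
  rcases hs' : (h.l.dot x).sg with _ | _ | _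
  · exact sg_neg hs'
  · exact (sg_zero hs').le
  · exact absurd hs' hs

theorem ent_nonneg {x : V4} {h : Hinge} (hs : (h.ent x).s ≠ Sg.m) : 0 ≤ dotR h.l (vecR x) := by
  have e1 : (h.ent x).s = (h.l.dot x).sg := rfl
  rw [e1] at hs
  rw [← dot_val]
  rcases hs' : (h.l.dot x).sg with _ | _ | _
  · exact absurd hs' hs
  · exact (sg_zero hs').ge
  · exact (sg_pos hs').le

theorem anyP_false {a b c d : Sg} (h : anyP a b c d = false) : a ≠ Sg.p ∧ b ≠ Sg.p ∧ c ≠ Sg.p ∧ d ≠ Sg.p := by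
  cases a <;> cases b <;> cases c <;> cases d <;> simp [anyP] at h ⊢

theorem anyM_false {a b c d : Sg} (h : anyM a b c d = false) : a ≠ Sg.m ∧ b ≠ Sg.m ∧ c ≠ Sg.m ∧ d ≠ Sg.m := by
  cases a <;> cases b <;> cases c <;> cases d <;> simp [anyM] at h ⊢

theorem dotR_cmb (l : V4) (a0 a1 a2 a3 : ℝ) (x0 x1 x2 x3 : V4) :
    dotR l (cmb a0 a1 a2 a3 x0 x1 x2 x3) = a0 * dotR l (vecR x0) + a1 * dotR l (vecR x1) +
      a2 * dotR l (vecR x2) + a3 * dotR l (vecR x3) := dotR_comb l a0 a1 a2 a3 _ _ _ _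

section
variable {a0 a1 a2 a3 : ℝ} (h0 : 0 ≤ a0) (h1 : 0 ≤ a1) (h2 : 0 ≤ a2) (h3 : 0 ≤ a3) (x0 x1 x2 x3 : V4)
include h0 h1 h2 h3

theorem leafGo_sound : ∀ (H : List Hinge) (th : List Nat) (s0 s1 s2 s3 : Zp),
    leafGo (flags H) (H.map (Hinge.ent x0)) (H.map (Hinge.ent x1)) (H.map (Hinge.ent x2)) (H.map (Hinge.ent x3))
      th s0 s1 s2 s3 = true →
    0 ≤ a0 * s0.val + a1 * s1.val + a2 * s2.val + a3 * s3.val + 64 * evH H (cmb a0 a1 a2 a3 x0 x1 x2 x3) := by
  intro H
  induction H with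
  | nil =>
    intro th s0 s1 s2 s3 h
    simp only [flags, List.map_nil, leafGo, Bool.and_eq_true] at h
    obtain ⟨g0, g1, g2, g3⟩ := h
    have := nneg_sound g0
    have := nneg_sound g1
    have := nneg_sound g2
    have := nneg_sound g3
    simp only [evH, mul_zero, add_zero]
    positivity
  | cons h H ih =>
    intro th s0 s1 s2 s3 hg
    simp only [flags, List.map_cons, leafGo] at hg
    set y0 := dotR h.l (vecR x0) with hy0
    set y1 := dotR h.l (vecR x1) with hy1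
    set y2 := dotR h.l (vecR x2) with hy2
    set y3 := dotR h.l (vecR x3) with hy3
    have hY : dotR h.l (cmb a0 a1 a2 a3 x0 x1 x2 x3) = a0 * y0 + a1 * y1 + a2 * y2 + a3 * y3 :=
      dotR_cmb _ _ _ _ _ _ _ _ _
    simp only [evH, hY]
    -- second case
    have second : h.c.val * (a0 * max 0 y0 + a1 * max 0 y1 + a2 * max 0 y2 + a3 * max 0 y3) ≤
        h.c.val * max 0 (a0 * y0 + a1 * y1 + a2 * y2 + a3 * y3) →
        leafGo (flags H) (H.map (Hinge.ent x0)) (H.map (Hinge.ent x1)) (H.map (Hinge.ent x2)) (H.map (Hinge.ent x3))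
          th (s0.add (h.ent x0).pp) (s1.add (h.ent x1).pp) (s2.add (h.ent x2).pp) (s3.add (h.ent x3).pp) = true →
        0 ≤ a0 * s0.val + a1 * s1.val + a2 * s2.val + a3 * s3.val +
          64 * (h.c.val * max 0 (a0 * y0 + a1 * y1 + a2 * y2 + a3 * y3) + evH H (cmb a0 a1 a2 a3 x0 x1 x2 x3)) := by
      intro hle hg2
      have h4 := ih th _ _ _ _ hg2
      simp only [val_add, pp_val] at h4
      rw [← hy0, ← hy1, ← hy2, ← hy3] at h4
      linarith
    rcases hm : (h.c.nneg && (anyP (h.ent x0).s (h.ent x1).s (h.ent x2).s (h.ent x3).s &&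
        anyM (h.ent x0).s (h.ent x1).s (h.ent x2).s (h.ent x3).s)) with _ | _
    · rw [hm] at hg
      refine second ?_ hg
      rcases hc : h.c.nneg with _ | _
      · have hc' := nneg_false hc
        have h5 : max 0 (a0 * y0 + a1 * y1 + a2 * y2 + a3 * y3) ≤
            a0 * max 0 y0 + a1 * max 0 y1 + a2 * max 0 y2 + a3 * max 0 y3 := by
          refine max_le (by positivity) ?_
          have := mul_le_mul_of_nonneg_left (le_max_right 0 y0) h0
          have := mul_le_mul_of_nonneg_left (le_max_right 0 y1) h1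
          have := mul_le_mul_of_nonneg_left (le_max_right 0 y2) h2
          have := mul_le_mul_of_nonneg_left (le_max_right 0 y3) h3
          linarith
        exact mul_le_mul_of_nonpos_left h5 hc'
      · rw [hc, Bool.true_and] at hm
        rcases Bool.and_eq_false_iff.1 hm with hp | hp
        · obtain ⟨e0, e1, e2, e3⟩ := anyP_false hp
          have g0 : y0 ≤ 0 := ent_nonpos e0
          have g1 : y1 ≤ 0 := ent_nonpos e1
          have g2 : y2 ≤ 0 := ent_nonpos e2
          have g3 : y3 ≤ 0 := ent_nonpos e3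
          rw [max_eq_left g0, max_eq_left g1, max_eq_left g2, max_eq_left g3, max_eq_left]
          · simp
          · have := mul_nonneg h0 (neg_nonneg.2 g0)
            have := mul_nonneg h1 (neg_nonneg.2 g1)
            have := mul_nonneg h2 (neg_nonneg.2 g2)
            have := mul_nonneg h3 (neg_nonneg.2 g3)
            linarith
        · obtain ⟨e0, e1, e2, e3⟩ := anyM_false hp
          have g0 : 0 ≤ y0 := ent_nonneg e0
          have g1 : 0 ≤ y1 := ent_nonneg e1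
          have g2 : 0 ≤ y2 := ent_nonneg e2
          have g3 : 0 ≤ y3 := ent_nonneg e3
          rw [max_eq_right g0, max_eq_right g1, max_eq_right g2, max_eq_right g3, max_eq_right (by positivity)]
    · rw [hm] at hg
      rw [Bool.and_eq_true] at hm
      have hc := nneg_sound hm.1
      cases th with
      | nil => simp at hg
      | cons k th =>
        simp only [Bool.and_eq_true] at hg
        obtain ⟨hk, hg2⟩ := hg
        have hk' : (k : ℝ) ≤ 64 := by
          have : k ≤ 64 := Nat.le_of_ble_eq_true hk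
          exact_mod_cast this
        have hk0 : (0 : ℝ) ≤ k := Nat.cast_nonneg k
        have h4 := ih th _ _ _ _ hg2
        have e : ∀ x : V4, (h.ent x).cl.val = h.c.val * dotR h.l (vecR x) := by
          intro x
          show (h.c.mul (h.l.dot x)).val = _
          rw [val_mul, dot_val]
        simp only [val_add, val_smul, e] at h4
        rw [← hy0, ← hy1, ← hy2, ← hy3] at h4
        have hk2 : ((Int.ofNat k : Int) : ℝ) = (k : ℝ) := by simp
        rw [hk2] at h4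
        have h6 : (k : ℝ) * (a0 * y0 + a1 * y1 + a2 * y2 + a3 * y3) ≤
            64 * max 0 (a0 * y0 + a1 * y1 + a2 * y2 + a3 * y3) := by
          rcases le_total 0 (a0 * y0 + a1 * y1 + a2 * y2 + a3 * y3) with hY0 | hY0
          · rw [max_eq_right hY0]
            exact mul_le_mul_of_nonneg_right hk' hY0
          · rw [max_eq_left hY0]
            nlinarith [mul_nonneg hk0 (neg_nonneg.2 hY0)]
        have h7 := mul_le_mul_of_nonneg_left h6 hc
        linarith

end

/-- what is known about a vertex -/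
structure WF (T : Prob) (v : Vtx) : Prop where
  row : v.row = T.H.map (Hinge.ent v.x)
  base : v.base.val ≤ dotR T.lin (vecR v.x) +
    (if T.E = true then (DD : ℝ) / Lp * VV v.x.a.val v.x.b.val else 0)
  nn : T.E = true → 0 ≤ v.x.a.val ∧ 0 ≤ v.x.b.val

theorem getC_mem : ∀ (L : List Chord) (n : Nat) (c : Chord), getC L n = some c → c ∈ L
  | [], _, _, h => by simp [getC] at h
  | c :: _, 0, _, h => by simp only [getC, Option.some.injEq] at h; simp [h]
  | _ :: L, n + 1, c, h => by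
    have := getC_mem L n c (by simpa [getC] using h)
    simp [this]

theorem getT_mem : ∀ (L : List Tang) (n : Nat) (c : Tang), getT L n = some c → c ∈ L
  | [], _, _, h => by simp [getT] at h
  | c :: _, 0, _, h => by simp only [getT, Option.some.injEq] at h; simp [h]
  | _ :: L, n + 1, c, h => by
    have := getT_mem L n c (by simpa [getT] using h)
    simp [this]

theorem chord_sound {c : Chord} (hc : c.Ok) {e f : Zp} (h : c.inside e f = true) :
    0 ≤ e.val ∧ 0 ≤ f.val ∧ (c.A.val * e.val + c.B.val * f.val) * Lp ≤ (DD : ℝ) * VV e.val f.val := by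
  unfold Chord.inside at h
  rw [Bool.and_eq_true] at h
  have h1 := nneg_sound h.1
  have h2 := nneg_sound h.2
  rw [val_add, val_neg, val_mul, val_mul] at h1 h2
  obtain ⟨p1, q1, p2, q2, det, low1, low2⟩ := hc
  set P1 := c.p1.val
  set Q1 := c.q1.val
  set P2 := c.p2.val
  set Q2 := c.q2.val
  set Δ := P2 * Q1 - P1 * Q2 with hΔ
  set α := (f.val * P2 - e.val * Q2) / Δ with hα
  set β := (e.val * Q1 - f.val * P1) / Δ with hβ
  have hα0 : 0 ≤ α := div_nonneg (by linarith) det.le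
  have hβ0 : 0 ≤ β := div_nonneg (by linarith) det.le
  have he : e.val = α * P1 + β * P2 := by
    rw [hα, hβ]
    field_simp
    rw [hΔ]
    ring
  have hf : f.val = α * Q1 + β * Q2 := by
    rw [hα, hβ]
    field_simp
    rw [hΔ]
    ring
  have hDD : (0 : ℝ) ≤ (DD : ℝ) := by norm_num [DD]
  refine ⟨by rw [he]; positivity, by rw [hf]; positivity, ?_⟩
  rw [he, hf]
  have h3 : α * VV P1 Q1 + β * VV P2 Q2 ≤ VV (α * P1 + β * P2) (α * Q1 + β * Q2) := by
    rw [← VV_smul α p1 q1 hα0, ← VV_smul β p2 q2 hβ0]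
    exact VV_add (by positivity) (by positivity) (by positivity) (by positivity)
  have h4 := mul_le_mul_of_nonneg_left h3 hDD
  have h5 := mul_le_mul_of_nonneg_left low1 hα0
  have h6 := mul_le_mul_of_nonneg_left low2 hβ0
  linarith

theorem WF_mk {T : Prob} (hC : ∀ c ∈ T.ch, c.Ok) {x : V4} {k : Nat} (h : T.okC x k = true) : WF T (T.mk' x k) := by
  have hbase : (T.mk' x k).base = T.base x k := rfl
  have hx : (T.mk' x k).x = x := rfl
  rcases hE : T.E with _ | _
  · refine ⟨rfl, ?_, fun h1 => by rw [hE] at h1; cases h1⟩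
    rw [hbase, hx]
    unfold Prob.base
    simp only [hE, dot_val]
    simp
  · unfold Prob.okC at h
    simp only [hE] at h
    rcases hg : getC T.ch k with _ | c
    · simp [hg] at h
    · simp only [hg] at h
      have hc := hC c (getC_mem _ _ _ hg)
      obtain ⟨h1, h2, h3⟩ := chord_sound hc h
      refine ⟨rfl, ?_, fun _ => ⟨h1, h2⟩⟩
      rw [hbase, hx]
      unfold Prob.base
      simp only [hE, hg, val_add, val_mul, dot_val, if_true]
      have hL := Lp_pos
      have h4 : c.A.val * x.a.val + c.B.val * x.b.val ≤ (DD : ℝ) / Lp * VV x.a.val x.b.val := by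
        rw [div_mul_eq_mul_div, le_div_iff₀ hL]
        exact h3
      linarith

theorem splitOk_sound {w : V4} {al be ga : Zp} {u v : V4} (h : splitOk w al be ga u v = true) :
    0 < al.val ∧ 0 < be.val ∧ 0 < ga.val ∧ ga.val • vecR w = al.val • vecR u + be.val • vecR v := by
  unfold splitOk at h
  simp only [Bool.and_eq_true] at h
  obtain ⟨h1, h2, h3, h4⟩ := h
  refine ⟨ispos_sound h1, ispos_sound h2, ispos_sound h3, ?_⟩
  have h5 := V4.beq_sound h4
  have e : ∀ (t : Zp) (z : V4), vecR (V4.smul t z) = t.val • vecR z := by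
    intro t z
    funext i
    fin_cases i <;> simp [vecR, V4.smul, val_mul]
  have e2 : ∀ (y z : V4), vecR (y.add z) = vecR y + vecR z := by
    intro y z
    funext i
    fin_cases i <;> simp [vecR, V4.add, val_add]
  rw [← e, h5, e2, e, e]

/-- replacing one of two points -/
theorem split_point {w u v : V4} {al be ga : Zp} (h : splitOk w al be ga u v = true) {a b : ℝ} (ha : 0 ≤ a)
    (hb : 0 ≤ b) :
    (∃ c d : ℝ, 0 ≤ c ∧ 0 ≤ d ∧ a • vecR u + b • vecR v = c • vecR w + d • vecR v) ∨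
      (∃ c d : ℝ, 0 ≤ c ∧ 0 ≤ d ∧ a • vecR u + b • vecR v = c • vecR u + d • vecR w) := by
  obtain ⟨h1, h2, h3, h4⟩ := splitOk_sound h
  have hw : vecR w = (al.val / ga.val) • vecR u + (be.val / ga.val) • vecR v := by
    have : vecR w = ga.val⁻¹ • (ga.val • vecR w) := by
      rw [smul_smul, inv_mul_cancel₀ h3.ne', one_smul]
    rw [this, h4, smul_add, smul_smul, smul_smul]
    congr 2 <;> field_simp
  rcases le_total (a * be.val) (b * al.val) with hab | hab
  · left
    refine ⟨a * ga.val / al.val, b - a * be.val / al.val, by positivity, ?_, ?_⟩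
    · rw [sub_nonneg, div_le_iff₀ h1]
      exact hab
    · rw [hw]
      funext i
      simp only [Pi.add_apply, Pi.smul_apply, smul_eq_mul]
      field_simp
      ring
  · right
    refine ⟨a - b * al.val / be.val, b * ga.val / be.val, ?_, by positivity, ?_⟩
    · rw [sub_nonneg, div_le_iff₀ h2]
      exact hab
    · rw [hw]
      funext i
      simp only [Pi.add_apply, Pi.smul_apply, smul_eq_mul]
      field_simp
      ring

theorem start_val (T : Prob) (t : Tang) (v : Vtx) :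
    (T.start t v).val = 64 * (v.base.val + (if T.E = true then
      (v.x.c.val * t.a + v.x.d.val * t.b) * (-(Real.goldenRatio ^ 2)) else 0)) := by
  unfold Prob.start
  have h := Real.goldenRatio_sq
  rcases hE : T.E with _ | _
  · simp [val_smul]
  · simp only [val_smul, val_add, val_mul, if_true]
    have e : (⟨-1, -1⟩ : Zp).val = -(Real.goldenRatio ^ 2) := by
      unfold val
      rw [h]
      push_cast
      ring
    rw [e]
    push_cast
    ring

theorem leaf_sound {T : Prob} (hT : ∀ t ∈ T.tn, t.Ok) {v0 v1 v2 v3 : Vtx} (w0 : WF T v0) (w1 : WF T v1)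
    (w2 : WF T v2) (w3 : WF T v3) {tan : Nat} {th : List Nat}
    (h : T.check (flags T.H) (Tree.leaf tan th) v0 v1 v2 v3 = true) {a0 a1 a2 a3 : ℝ} (h0 : 0 ≤ a0) (h1 : 0 ≤ a1)
    (h2 : 0 ≤ a2) (h3 : 0 ≤ a3) {x : Fin 4 → ℝ} (hx : x = cmb a0 a1 a2 a3 v0.x v1.x v2.x v3.x)
    (hx2 : 0 ≤ x 2) (hx3 : 0 ≤ x 3) : 0 ≤ T.F x := by
  simp only [Prob.check] at h
  rcases hg : getT T.tn tan with _ | t
  · simp [hg] at h
  · simp only [hg] at h
    rw [w0.row, w1.row, w2.row, w3.row] at h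
    have h4 := leafGo_sound h0 h1 h2 h3 v0.x v1.x v2.x v3.x T.H th _ _ _ _ h
    rw [← hx] at h4
    simp only [start_val] at h4
    have ht := hT t (getT_mem _ _ _ hg)
    have hlin : dotR T.lin x = a0 * dotR T.lin (vecR v0.x) + a1 * dotR T.lin (vecR v1.x) +
        a2 * dotR T.lin (vecR v2.x) + a3 * dotR T.lin (vecR v3.x) := by
      rw [hx, dotR_cmb]
    have b0 := mul_le_mul_of_nonneg_left w0.base h0
    have b1 := mul_le_mul_of_nonneg_left w1.base h1
    have b2 := mul_le_mul_of_nonneg_left w2.base h2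
    have b3 := mul_le_mul_of_nonneg_left w3.base h3
    unfold Prob.F
    rcases hE : T.E with _ | _
    · simp only [hE, Bool.false_eq_true, if_false, add_zero] at h4 b0 b1 b2 b3 ⊢
      linarith
    · simp only [hE, if_true] at h4 b0 b1 b2 b3 ⊢
      have hL := Lp_pos
      have hDD : (0 : ℝ) ≤ (DD : ℝ) := by norm_num [DD]
      have hk : 0 ≤ (DD : ℝ) / Lp := div_nonneg hDD hL.le
      obtain ⟨n0, m0⟩ := w0.nn hE
      obtain ⟨n1, m1⟩ := w1.nn hE
      obtain ⟨n2, m2⟩ := w2.nn hE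
      obtain ⟨n3, m3⟩ := w3.nn hE
      have c0 : x 0 = a0 * v0.x.a.val + a1 * v1.x.a.val + a2 * v2.x.a.val + a3 * v3.x.a.val := by
        rw [hx]; simp [cmb, vecR]
      have c1 : x 1 = a0 * v0.x.b.val + a1 * v1.x.b.val + a2 * v2.x.b.val + a3 * v3.x.b.val := by
        rw [hx]; simp [cmb, vecR]
      have c2 : x 2 = a0 * v0.x.c.val + a1 * v1.x.c.val + a2 * v2.x.c.val + a3 * v3.x.c.val := by
        rw [hx]; simp [cmb, vecR]
      have c3 : x 3 = a0 * v0.x.d.val + a1 * v1.x.d.val + a2 * v2.x.d.val + a3 * v3.x.d.val := by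
        rw [hx]; simp [cmb, vecR]
      have hV := mul_le_mul_of_nonneg_left (VV_comb h0 h1 h2 h3 n0 n1 n2 n3 m0 m1 m2 m3) hk
      rw [← c0, ← c1] at hV
      have hW : (DD : ℝ) / Lp * VV (x 2) (x 3) ≤ (t.a : ℝ) * x 2 + (t.b : ℝ) * x 3 := by
        rw [div_mul_eq_mul_div, div_le_iff₀ hL]
        exact ht _ _ hx2 hx3
      have hW' := mul_le_mul_of_nonneg_left hW (sq_nonneg Real.goldenRatio)
      have e : (t.a : ℝ) * x 2 + (t.b : ℝ) * x 3 =
          a0 * (v0.x.c.val * t.a + v0.x.d.val * t.b) + a1 * (v1.x.c.val * t.a + v1.x.d.val * t.b) +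
            a2 * (v2.x.c.val * t.a + v2.x.d.val * t.b) + a3 * (v3.x.c.val * t.a + v3.x.d.val * t.b) := by
        rw [c2, c3]; ring
      rw [e] at hW'
      nlinarith

theorem check_sound {T : Prob} (hC : ∀ c ∈ T.ch, c.Ok) (hT : ∀ t ∈ T.tn, t.Ok) {x : Fin 4 → ℝ}
    (hx2 : 0 ≤ x 2) (hx3 : 0 ≤ x 3) : ∀ (t : Tree) (v0 v1 v2 v3 : Vtx), WF T v0 → WF T v1 → WF T v2 → WF T v3 →
    T.check (flags T.H) t v0 v1 v2 v3 = true → ∀ a0 a1 a2 a3 : ℝ, 0 ≤ a0 → 0 ≤ a1 → 0 ≤ a2 → 0 ≤ a3 →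
    x = cmb a0 a1 a2 a3 v0.x v1.x v2.x v3.x → 0 ≤ T.F x := by
  intro t
  induction t with
  | leaf tan th =>
    intro v0 v1 v2 v3 w0 w1 w2 w3 h a0 a1 a2 a3 h0 h1 h2 h3 hx
    exact leaf_sound hT w0 w1 w2 w3 h h0 h1 h2 h3 hx hx2 hx3
  | s01 w al be ga k t1 t2 ih1 ih2 =>
    intro v0 v1 v2 v3 w0 w1 w2 w3 h a0 a1 a2 a3 h0 h1 h2 h3 hx
    simp only [Prob.check, Bool.and_eq_true] at h
    obtain ⟨g1, g2, g3, g4⟩ := h
    have hw := WF_mk hC g2
    rcases split_point g1 h0 h1 with ⟨c, d, hc, hd, he⟩ | ⟨c, d, hc, hd, he⟩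
    · refine ih1 _ _ _ _ hw w1 w2 w3 g3 c d a2 a3 hc hd h2 h3 ?_
      rw [hx]
      unfold cmb
      rw [he]
      rfl
    · refine ih2 _ _ _ _ w0 hw w2 w3 g4 c d a2 a3 hc hd h2 h3 ?_
      rw [hx]
      unfold cmb
      rw [he]
      rfl
  | s02 w al be ga k t1 t2 ih1 ih2 =>
    intro v0 v1 v2 v3 w0 w1 w2 w3 h a0 a1 a2 a3 h0 h1 h2 h3 hx
    simp only [Prob.check, Bool.and_eq_true] at h
    obtain ⟨g1, g2, g3, g4⟩ := h
    have hw := WF_mk hC g2
    rcases split_point g1 h0 h2 with ⟨c, d, hc, hd, he⟩ | ⟨c, d, hc, hd, he⟩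
    · refine ih1 _ _ _ _ hw w1 w2 w3 g3 c a1 d a3 hc h1 hd h3 ?_
      rw [hx]
      show a0 • vecR v0.x + a1 • vecR v1.x + a2 • vecR v2.x + a3 • vecR v3.x =
        c • vecR w + a1 • vecR v1.x + d • vecR v2.x + a3 • vecR v3.x
      rw [add_right_comm (a0 • _), he]
      abel
    · refine ih2 _ _ _ _ w0 w1 hw w3 g4 c a1 d a3 hc h1 hd h3 ?_
      rw [hx]
      show a0 • vecR v0.x + a1 • vecR v1.x + a2 • vecR v2.x + a3 • vecR v3.x =
        c • vecR v0.x + a1 • vecR v1.x + d • vecR w + a3 • vecR v3.x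
      rw [add_right_comm (a0 • _), he]
      abel
  | s03 w al be ga k t1 t2 ih1 ih2 =>
    intro v0 v1 v2 v3 w0 w1 w2 w3 h a0 a1 a2 a3 h0 h1 h2 h3 hx
    simp only [Prob.check, Bool.and_eq_true] at h
    obtain ⟨g1, g2, g3, g4⟩ := h
    have hw := WF_mk hC g2
    rcases split_point g1 h0 h3 with ⟨c, d, hc, hd, he⟩ | ⟨c, d, hc, hd, he⟩
    · refine ih1 _ _ _ _ hw w1 w2 w3 g3 c a1 a2 d hc h1 h2 hd ?_
      rw [hx]
      show a0 • vecR v0.x + a1 • vecR v1.x + a2 • vecR v2.x + a3 • vecR v3.x =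
        c • vecR w + a1 • vecR v1.x + a2 • vecR v2.x + d • vecR v3.x
      have e : a0 • vecR v0.x + a1 • vecR v1.x + a2 • vecR v2.x + a3 • vecR v3.x =
        (a0 • vecR v0.x + a3 • vecR v3.x) + a1 • vecR v1.x + a2 • vecR v2.x := by abel
      rw [e, he]
      abel
    · refine ih2 _ _ _ _ w0 w1 w2 hw g4 c a1 a2 d hc h1 h2 hd ?_
      rw [hx]
      show a0 • vecR v0.x + a1 • vecR v1.x + a2 • vecR v2.x + a3 • vecR v3.x =
        c • vecR v0.x + a1 • vecR v1.x + a2 • vecR v2.x + d • vecR w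
      have e : a0 • vecR v0.x + a1 • vecR v1.x + a2 • vecR v2.x + a3 • vecR v3.x =
        (a0 • vecR v0.x + a3 • vecR v3.x) + a1 • vecR v1.x + a2 • vecR v2.x := by abel
      rw [e, he]
      abel
  | s12 w al be ga k t1 t2 ih1 ih2 =>
    intro v0 v1 v2 v3 w0 w1 w2 w3 h a0 a1 a2 a3 h0 h1 h2 h3 hx
    simp only [Prob.check, Bool.and_eq_true] at h
    obtain ⟨g1, g2, g3, g4⟩ := h
    have hw := WF_mk hC g2
    have e : a0 • vecR v0.x + a1 • vecR v1.x + a2 • vecR v2.x + a3 • vecR v3.x =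
        (a1 • vecR v1.x + a2 • vecR v2.x) + a0 • vecR v0.x + a3 • vecR v3.x := by abel
    rcases split_point g1 h1 h2 with ⟨c, d, hc, hd, he⟩ | ⟨c, d, hc, hd, he⟩
    · refine ih1 _ _ _ _ w0 hw w2 w3 g3 a0 c d a3 h0 hc hd h3 ?_
      rw [hx]
      show a0 • vecR v0.x + a1 • vecR v1.x + a2 • vecR v2.x + a3 • vecR v3.x =
        a0 • vecR v0.x + c • vecR w + d • vecR v2.x + a3 • vecR v3.x
      rw [e, he]
      abel
    · refine ih2 _ _ _ _ w0 w1 hw w3 g4 a0 c d a3 h0 hc hd h3 ?_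
      rw [hx]
      show a0 • vecR v0.x + a1 • vecR v1.x + a2 • vecR v2.x + a3 • vecR v3.x =
        a0 • vecR v0.x + c • vecR v1.x + d • vecR w + a3 • vecR v3.x
      rw [e, he]
      abel
  | s13 w al be ga k t1 t2 ih1 ih2 =>
    intro v0 v1 v2 v3 w0 w1 w2 w3 h a0 a1 a2 a3 h0 h1 h2 h3 hx
    simp only [Prob.check, Bool.and_eq_true] at h
    obtain ⟨g1, g2, g3, g4⟩ := h
    have hw := WF_mk hC g2
    have e : a0 • vecR v0.x + a1 • vecR v1.x + a2 • vecR v2.x + a3 • vecR v3.x =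
        (a1 • vecR v1.x + a3 • vecR v3.x) + a0 • vecR v0.x + a2 • vecR v2.x := by abel
    rcases split_point g1 h1 h3 with ⟨c, d, hc, hd, he⟩ | ⟨c, d, hc, hd, he⟩
    · refine ih1 _ _ _ _ w0 hw w2 w3 g3 a0 c a2 d h0 hc h2 hd ?_
      rw [hx]
      show a0 • vecR v0.x + a1 • vecR v1.x + a2 • vecR v2.x + a3 • vecR v3.x =
        a0 • vecR v0.x + c • vecR w + a2 • vecR v2.x + d • vecR v3.x
      rw [e, he]
      abel
    · refine ih2 _ _ _ _ w0 w1 w2 hw g4 a0 c a2 d h0 hc h2 hd ?_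
      rw [hx]
      show a0 • vecR v0.x + a1 • vecR v1.x + a2 • vecR v2.x + a3 • vecR v3.x =
        a0 • vecR v0.x + c • vecR v1.x + a2 • vecR v2.x + d • vecR w
      rw [e, he]
      abel
  | s23 w al be ga k t1 t2 ih1 ih2 =>
    intro v0 v1 v2 v3 w0 w1 w2 w3 h a0 a1 a2 a3 h0 h1 h2 h3 hx
    simp only [Prob.check, Bool.and_eq_true] at h
    obtain ⟨g1, g2, g3, g4⟩ := h
    have hw := WF_mk hC g2
    have e : a0 • vecR v0.x + a1 • vecR v1.x + a2 • vecR v2.x + a3 • vecR v3.x =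
        (a2 • vecR v2.x + a3 • vecR v3.x) + a0 • vecR v0.x + a1 • vecR v1.x := by abel
    rcases split_point g1 h2 h3 with ⟨c, d, hc, hd, he⟩ | ⟨c, d, hc, hd, he⟩
    · refine ih1 _ _ _ _ w0 w1 hw w3 g3 a0 a1 c d h0 h1 hc hd ?_
      rw [hx]
      show a0 • vecR v0.x + a1 • vecR v1.x + a2 • vecR v2.x + a3 • vecR v3.x =
        a0 • vecR v0.x + a1 • vecR v1.x + c • vecR w + d • vecR v3.x
      rw [e, he]
      abel
    · refine ih2 _ _ _ _ w0 w1 w2 hw g4 a0 a1 c d h0 h1 hc hd ?_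
      rw [hx]
      show a0 • vecR v0.x + a1 • vecR v1.x + a2 • vecR v2.x + a3 • vecR v3.x =
        a0 • vecR v0.x + a1 • vecR v1.x + c • vecR v2.x + d • vecR w
      rw [e, he]
      abel

/-- soundness of the checker -/
theorem run_sound {T : Prob} (hC : ∀ c ∈ T.ch, c.Ok) (hT : ∀ t ∈ T.tn, t.Ok) {t : Tree} {r0 r1 r2 r3 : V4}
    {k0 k1 k2 k3 : Nat} (h : T.run t r0 r1 r2 r3 k0 k1 k2 k3 = true) {x : Fin 4 → ℝ} (hx2 : 0 ≤ x 2)
    (hx3 : 0 ≤ x 3) {a0 a1 a2 a3 : ℝ} (h0 : 0 ≤ a0) (h1 : 0 ≤ a1) (h2 : 0 ≤ a2) (h3 : 0 ≤ a3)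
    (hx : x = cmb a0 a1 a2 a3 r0 r1 r2 r3) : 0 ≤ T.F x := by
  unfold Prob.run at h
  simp only [Bool.and_eq_true] at h
  obtain ⟨g0, g1, g2, g3, g4⟩ := h
  exact check_sound hC hT hx2 hx3 t _ _ _ _ (WF_mk hC g0) (WF_mk hC g1) (WF_mk hC g2) (WF_mk hC g3) g4 a0 a1 a2 a3
    h0 h1 h2 h3 hx

end Pool.Agent.PHCert
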