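import Pool.Agent.PHCert.Data

/-!
# PHCert: validity of the tables
-/

set_option autoImplicit false
set_option exponentiation.threshold 100000000

namespace Pool.Agent.PHCert

open Zp

theorem ray0 : Ray.Ok ⟨⟨1, 0⟩, ⟨1, 0⟩, ⟨288000, 0⟩⟩ :=
  ray_ok 1 1 2880 (by decide) (by decide) (by decide +kernel)

theorem ray1 : Ray.Ok ⟨⟨13, 0⟩, ⟨12, 0⟩, ⟨3596800, 0⟩⟩ :=
  ray_ok 13 12 35968 (by decide) (by decide) (by decide +kernel)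

theorem ray2 : Ray.Ok ⟨⟨27, 0⟩, ⟨23, 0⟩, ⟨7168800, 0⟩⟩ :=
  ray_ok 27 23 71688 (by decide) (by decide) (by decide +kernel)

theorem ray3 : Ray.Ok ⟨⟨14, 0⟩, ⟨11, 0⟩, ⟨3563500, 0⟩⟩ :=
  ray_ok 14 11 35635 (by decide) (by decide) (by decide +kernel)

theorem ray4 : Ray.Ok ⟨⟨29, 0⟩, ⟨21, 0⟩, ⟨7068500, 0⟩⟩ :=
  ray_ok 29 21 70685 (by decide) (by decide) (by decide +kernel)

theorem ray5 : Ray.Ok ⟨⟨3, 0⟩, ⟨2, 0⟩, ⟨699200, 0⟩⟩ :=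
  ray_ok 3 2 6992 (by decide) (by decide) (by decide +kernel)

theorem ray6 : Ray.Ok ⟨⟨11, 0⟩, ⟨7, 0⟩, ⟨2499600, 0⟩⟩ :=
  ray_ok 11 7 24996 (by decide) (by decide) (by decide +kernel)

theorem ray7 : Ray.Ok ⟨⟨0, 1⟩, ⟨1, 0⟩, ⟨200000, 100000⟩⟩ := ray_gold

theorem ray8 : Ray.Ok ⟨⟨5, 0⟩, ⟨3, 0⟩, ⟨1099800, 0⟩⟩ :=
  ray_ok 5 3 10998 (by decide) (by decide) (by decide +kernel)

theorem ray9 : Ray.Ok ⟨⟨16, 0⟩, ⟨9, 0⟩, ⟨3394600, 0⟩⟩ :=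
  ray_ok 16 9 33946 (by decide) (by decide) (by decide +kernel)

theorem ray10 : Ray.Ok ⟨⟨33, 0⟩, ⟨17, 0⟩, ⟨6660600, 0⟩⟩ :=
  ray_ok 33 17 66606 (by decide) (by decide) (by decide +kernel)

theorem ray11 : Ray.Ok ⟨⟨2, 0⟩, ⟨1, 0⟩, ⟨396800, 0⟩⟩ :=
  ray_ok 2 1 3968 (by decide) (by decide) (by decide +kernel)

theorem ray12 : Ray.Ok ⟨⟨17, 0⟩, ⟨8, 0⟩, ⟨3256700, 0⟩⟩ :=
  ray_ok 17 8 32567 (by decide) (by decide) (by decide +kernel)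

theorem ray13 : Ray.Ok ⟨⟨7, 0⟩, ⟨3, 0⟩, ⟨1269400, 0⟩⟩ :=
  ray_ok 7 3 12694 (by decide) (by decide) (by decide +kernel)

theorem ray14 : Ray.Ok ⟨⟨29, 0⟩, ⟨11, 0⟩, ⟨4889000, 0⟩⟩ :=
  ray_ok 29 11 48890 (by decide) (by decide) (by decide +kernel)

theorem ray15 : Ray.Ok ⟨⟨3, 0⟩, ⟨1, 0⟩, ⟨467400, 0⟩⟩ :=
  ray_ok 3 1 4674 (by decide) (by decide) (by decide +kernel)

theorem ray16 : Ray.Ok ⟨⟨31, 0⟩, ⟨9, 0⟩, ⟨4431800, 0⟩⟩ :=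
  ray_ok 31 9 44318 (by decide) (by decide) (by decide +kernel)

theorem ray17 : Ray.Ok ⟨⟨4, 0⟩, ⟨1, 0⟩, ⟨519900, 0⟩⟩ :=
  ray_ok 4 1 5199 (by decide) (by decide) (by decide +kernel)

theorem ray18 : Ray.Ok ⟨⟨33, 0⟩, ⟨7, 0⟩, ⟨3854600, 0⟩⟩ :=
  ray_ok 33 7 38546 (by decide) (by decide) (by decide +kernel)

theorem ray19 : Ray.Ok ⟨⟨17, 0⟩, ⟨3, 0⟩, ⟨1756800, 0⟩⟩ :=
  ray_ok 17 3 17568 (by decide) (by decide) (by decide +kernel)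

theorem ray20 : Ray.Ok ⟨⟨7, 0⟩, ⟨1, 0⟩, ⟨626300, 0⟩⟩ :=
  ray_ok 7 1 6263 (by decide) (by decide) (by decide +kernel)

theorem ray21 : Ray.Ok ⟨⟨9, 0⟩, ⟨1, 0⟩, ⟨675500, 0⟩⟩ :=
  ray_ok 9 1 6755 (by decide) (by decide) (by decide +kernel)

theorem ray22 : Ray.Ok ⟨⟨37, 0⟩, ⟨3, 0⟩, ⟨2214200, 0⟩⟩ :=
  ray_ok 37 3 22142 (by decide) (by decide) (by decide +kernel)

theorem ray23 : Ray.Ok ⟨⟨19, 0⟩, ⟨1, 0⟩, ⟨825000, 0⟩⟩ :=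
  ray_ok 19 1 8250 (by decide) (by decide) (by decide +kernel)

theorem ray24 : Ray.Ok ⟨⟨39, 0⟩, ⟨1, 0⟩, ⟨971700, 0⟩⟩ :=
  ray_ok 39 1 9717 (by decide) (by decide) (by decide +kernel)

theorem ray25 : Ray.Ok ⟨⟨99, 0⟩, ⟨1, 0⟩, ⟨1163700, 0⟩⟩ :=
  ray_ok 99 1 11637 (by decide) (by decide) (by decide +kernel)

theorem ray26 : Ray.Ok ⟨⟨1, 0⟩, ⟨0, 0⟩, ⟨0, 0⟩⟩ := ray_zero

/-- all rays -/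
def rays : List Ray := [
  ⟨⟨1, 0⟩, ⟨1, 0⟩, ⟨288000, 0⟩⟩,
  ⟨⟨13, 0⟩, ⟨12, 0⟩, ⟨3596800, 0⟩⟩,
  ⟨⟨27, 0⟩, ⟨23, 0⟩, ⟨7168800, 0⟩⟩,
  ⟨⟨14, 0⟩, ⟨11, 0⟩, ⟨3563500, 0⟩⟩,
  ⟨⟨29, 0⟩, ⟨21, 0⟩, ⟨7068500, 0⟩⟩,
  ⟨⟨3, 0⟩, ⟨2, 0⟩, ⟨699200, 0⟩⟩,
  ⟨⟨11, 0⟩, ⟨7, 0⟩, ⟨2499600, 0⟩⟩,
  ⟨⟨0, 1⟩, ⟨1, 0⟩, ⟨200000, 100000⟩⟩,
  ⟨⟨5, 0⟩, ⟨3, 0⟩, ⟨1099800, 0⟩⟩,
  ⟨⟨16, 0⟩, ⟨9, 0⟩, ⟨3394600, 0⟩⟩,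
  ⟨⟨33, 0⟩, ⟨17, 0⟩, ⟨6660600, 0⟩⟩,
  ⟨⟨2, 0⟩, ⟨1, 0⟩, ⟨396800, 0⟩⟩,
  ⟨⟨17, 0⟩, ⟨8, 0⟩, ⟨3256700, 0⟩⟩,
  ⟨⟨7, 0⟩, ⟨3, 0⟩, ⟨1269400, 0⟩⟩,
  ⟨⟨29, 0⟩, ⟨11, 0⟩, ⟨4889000, 0⟩⟩,
  ⟨⟨3, 0⟩, ⟨1, 0⟩, ⟨467400, 0⟩⟩,
  ⟨⟨31, 0⟩, ⟨9, 0⟩, ⟨4431800, 0⟩⟩,
  ⟨⟨4, 0⟩, ⟨1, 0⟩, ⟨519900, 0⟩⟩,
  ⟨⟨33, 0⟩, ⟨7, 0⟩, ⟨3854600, 0⟩⟩,
  ⟨⟨17, 0⟩, ⟨3, 0⟩, ⟨1756800, 0⟩⟩,
  ⟨⟨7, 0⟩, ⟨1, 0⟩, ⟨626300, 0⟩⟩,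
  ⟨⟨9, 0⟩, ⟨1, 0⟩, ⟨675500, 0⟩⟩,
  ⟨⟨37, 0⟩, ⟨3, 0⟩, ⟨2214200, 0⟩⟩,
  ⟨⟨19, 0⟩, ⟨1, 0⟩, ⟨825000, 0⟩⟩,
  ⟨⟨39, 0⟩, ⟨1, 0⟩, ⟨971700, 0⟩⟩,
  ⟨⟨99, 0⟩, ⟨1, 0⟩, ⟨1163700, 0⟩⟩,
  ⟨⟨1, 0⟩, ⟨0, 0⟩, ⟨0, 0⟩⟩,
  ⟨⟨1, 0⟩, ⟨1, 0⟩, ⟨288000, 0⟩⟩,
  ⟨⟨12, 0⟩, ⟨13, 0⟩, ⟨3596800, 0⟩⟩,
  ⟨⟨23, 0⟩, ⟨27, 0⟩, ⟨7168800, 0⟩⟩,
  ⟨⟨11, 0⟩, ⟨14, 0⟩, ⟨3563500, 0⟩⟩,
  ⟨⟨21, 0⟩, ⟨29, 0⟩, ⟨7068500, 0⟩⟩,
  ⟨⟨2, 0⟩, ⟨3, 0⟩, ⟨699200, 0⟩⟩,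
  ⟨⟨7, 0⟩, ⟨11, 0⟩, ⟨2499600, 0⟩⟩,
  ⟨⟨1, 0⟩, ⟨0, 1⟩, ⟨200000, 100000⟩⟩,
  ⟨⟨3, 0⟩, ⟨5, 0⟩, ⟨1099800, 0⟩⟩,
  ⟨⟨9, 0⟩, ⟨16, 0⟩, ⟨3394600, 0⟩⟩,
  ⟨⟨17, 0⟩, ⟨33, 0⟩, ⟨6660600, 0⟩⟩,
  ⟨⟨1, 0⟩, ⟨2, 0⟩, ⟨396800, 0⟩⟩,
  ⟨⟨8, 0⟩, ⟨17, 0⟩, ⟨3256700, 0⟩⟩,
  ⟨⟨3, 0⟩, ⟨7, 0⟩, ⟨1269400, 0⟩⟩,
  ⟨⟨11, 0⟩, ⟨29, 0⟩, ⟨4889000, 0⟩⟩,
  ⟨⟨1, 0⟩, ⟨3, 0⟩, ⟨467400, 0⟩⟩,
  ⟨⟨9, 0⟩, ⟨31, 0⟩, ⟨4431800, 0⟩⟩,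
  ⟨⟨1, 0⟩, ⟨4, 0⟩, ⟨519900, 0⟩⟩,
  ⟨⟨7, 0⟩, ⟨33, 0⟩, ⟨3854600, 0⟩⟩,
  ⟨⟨3, 0⟩, ⟨17, 0⟩, ⟨1756800, 0⟩⟩,
  ⟨⟨1, 0⟩, ⟨7, 0⟩, ⟨626300, 0⟩⟩,
  ⟨⟨1, 0⟩, ⟨9, 0⟩, ⟨675500, 0⟩⟩,
  ⟨⟨3, 0⟩, ⟨37, 0⟩, ⟨2214200, 0⟩⟩,
  ⟨⟨1, 0⟩, ⟨19, 0⟩, ⟨825000, 0⟩⟩,
  ⟨⟨1, 0⟩, ⟨39, 0⟩, ⟨971700, 0⟩⟩,
  ⟨⟨1, 0⟩, ⟨99, 0⟩, ⟨1163700, 0⟩⟩,
  ⟨⟨0, 0⟩, ⟨1, 0⟩, ⟨0, 0⟩⟩]

theorem rays_ok : ∀ r ∈ rays, r.Ok := by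
  intro r hr
  simp only [rays, List.mem_cons, List.not_mem_nil, or_false] at hr
  rcases hr with rfl | rfl | rfl | rfl | rfl | rfl | rfl | rfl | rfl | rfl | rfl | rfl | rfl | rfl | rfl | rfl | rfl | rfl | rfl | rfl | rfl | rfl | rfl | rfl | rfl | rfl | rfl | rfl | rfl | rfl | rfl | rfl | rfl | rfl | rfl | rfl | rfl | rfl | rfl | rfl | rfl | rfl | rfl | rfl | rfl | rfl | rfl | rfl | rfl | rfl | rfl | rfl | rfl | rfl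
  · exact ray0
  · exact ray1
  · exact ray2
  · exact ray3
  · exact ray4
  · exact ray5
  · exact ray6
  · exact ray7
  · exact ray8
  · exact ray9
  · exact ray10
  · exact ray11
  · exact ray12
  · exact ray13
  · exact ray14
  · exact ray15
  · exact ray16
  · exact ray17
  · exact ray18
  · exact ray19
  · exact ray20
  · exact ray21
  · exact ray22
  · exact ray23
  · exact ray24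
  · exact ray25
  · exact ray26
  · exact ray0.symm
  · exact ray1.symm
  · exact ray2.symm
  · exact ray3.symm
  · exact ray4.symm
  · exact ray5.symm
  · exact ray6.symm
  · exact ray7.symm
  · exact ray8.symm
  · exact ray9.symm
  · exact ray10.symm
  · exact ray11.symm
  · exact ray12.symm
  · exact ray13.symm
  · exact ray14.symm
  · exact ray15.symm
  · exact ray16.symm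
  · exact ray17.symm
  · exact ray18.symm
  · exact ray19.symm
  · exact ray20.symm
  · exact ray21.symm
  · exact ray22.symm
  · exact ray23.symm
  · exact ray24.symm
  · exact ray25.symm
  · exact ray26.symm

theorem chords_chk : (chords.all (chordChk rays)) = true := by decide +kernel

theorem chords_ok : ∀ c ∈ chords, c.Ok := fun c hc =>
  chordChk_sound rays_ok (List.all_eq_true.1 chords_chk c hc)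

theorem tg_5 : Tang.Ok ⟨622550, 10700⟩ :=
  tang_nat 5 95 12451 214 (by decide) (by decide) (by decide) (by decide +kernel) (by decide +kernel)

theorem tg_10 : Tang.Ok ⟨478500, 21900⟩ :=
  tang_nat 10 90 9570 438 (by decide) (by decide) (by decide) (by decide +kernel) (by decide +kernel)

theorem tg_15 : Tang.Ok ⟨394250, 33800⟩ :=
  tang_nat 15 85 7885 676 (by decide) (by decide) (by decide) (by decide +kernel) (by decide +kernel)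

theorem tg_20 : Tang.Ok ⟨334500, 46400⟩ :=
  tang_nat 20 80 6690 928 (by decide) (by decide) (by decide) (by decide +kernel) (by decide +kernel)

theorem tg_25 : Tang.Ok ⟨288100, 59800⟩ :=
  tang_nat 25 75 5762 1196 (by decide) (by decide) (by decide) (by decide +kernel) (by decide +kernel)

theorem tg_30 : Tang.Ok ⟨250200, 74150⟩ :=
  tang_nat 30 70 5004 1483 (by decide) (by decide) (by decide) (by decide +kernel) (by decide +kernel)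

theorem tg_34 : Tang.Ok ⟨224200, 86350⟩ :=
  tang_nat 34 66 4484 1727 (by decide) (by decide) (by decide) (by decide +kernel) (by decide +kernel)

theorem tg_42 : Tang.Ok ⟨180300, 113200⟩ :=
  tang_nat 42 58 3606 2264 (by decide) (by decide) (by decide) (by decide +kernel) (by decide +kernel)

theorem tg_46 : Tang.Ok ⟨161400, 128050⟩ :=
  tang_nat 46 54 3228 2561 (by decide) (by decide) (by decide) (by decide +kernel) (by decide +kernel)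

theorem tg_50 : Tang.Ok ⟨144050, 144050⟩ :=
  tang_nat 50 50 2881 2881 (by decide) (by decide) (by decide) (by decide +kernel) (by decide +kernel)

theorem tans_ok : ∀ t ∈ tans, t.Ok := by
  intro t ht
  simp only [tans, List.mem_cons, List.not_mem_nil, or_false] at ht
  rcases ht with rfl | rfl | rfl | rfl | rfl | rfl | rfl | rfl | rfl | rfl | rfl | rfl | rfl | rfl | rfl | rfl | rfl | rfl | rfl | rfl | rfl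
  · exact tang_symm tg_5
  · exact tang_symm tg_10
  · exact tang_symm tg_15
  · exact tang_symm tg_20
  · exact tang_symm tg_25
  · exact tang_symm tg_30
  · exact tang_symm tg_34
  · exact tang_gold
  · exact tang_symm tg_42
  · exact tang_symm tg_46
  · exact tg_50
  · exact tg_46
  · exact tg_42
  · exact tang_symm tang_gold
  · exact tg_34
  · exact tg_30
  · exact tg_25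
  · exact tg_20
  · exact tg_15
  · exact tg_10
  · exact tg_5

end Pool.Agent.PHCert
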