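import Mathlib

/-!
# Project PHCert (MP_b68e99_co, certificate for `φ²`): arithmetic in `ℤ[φ]`
-/

set_option autoImplicit false

namespace Pool.Agent.PHCert

/-- signs -/
inductive Sg where
  | m
  | z
  | p
deriving DecidableEq

/-- `a + b φ` with integers `a`, `b` -/
structure Zp where
  a : Int
  b : Int
deriving DecidableEq

namespace Zp

/-- the real value -/
noncomputable def val (x : Zp) : ℝ := (x.a : ℝ) + (x.b : ℝ) * Real.goldenRatio

/-- zero -/
def zero : Zp := ⟨Int.ofNat 0, Int.ofNat 0⟩

/-- sum -/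
def add (x y : Zp) : Zp := ⟨Int.add x.a y.a, Int.add x.b y.b⟩

/-- opposite -/
def neg (x : Zp) : Zp := ⟨Int.neg x.a, Int.neg x.b⟩

/-- product with an integer -/
def smul (n : Int) (x : Zp) : Zp := ⟨Int.mul n x.a, Int.mul n x.b⟩

/-- product -/
def mul (x y : Zp) : Zp :=
  ⟨Int.add (Int.mul x.a y.a) (Int.mul x.b y.b),
    Int.add (Int.mul x.a y.b) (Int.mul x.b (Int.add y.a y.b))⟩

/-- nonnegativity of an integer -/
def isNN : Int → Bool
  | Int.ofNat _ => true
  | Int.negSucc _ => false

/-- vanishing of an integer -/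
def isZ : Int → Bool
  | Int.ofNat n => Nat.beq n 0
  | Int.negSucc _ => false

/-- sign for `2 a + b = t` -/
def sgAux (t b : Int) : Sg :=
  match isNN t, isNN b with
  | true, true => match isZ t, isZ b with
    | true, true => Sg.z
    | _, _ => Sg.p
  | true, false => match isNN (Int.sub (Int.mul t t) (Int.mul 5 (Int.mul b b))) with
    | true => Sg.p
    | false => Sg.m
  | false, true => match isNN (Int.sub (Int.mul 5 (Int.mul b b)) (Int.mul t t)) with
    | true => Sg.p
    | false => Sg.m
  | false, false => Sg.m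

/-- sign -/
def sg (x : Zp) : Sg := sgAux (Int.add (Int.add x.a x.a) x.b) x.b

/-- nonnegativity -/
def nneg (x : Zp) : Bool :=
  match x.sg with
  | Sg.m => false
  | _ => true

theorem val_zero : zero.val = 0 := by
  simp [val, zero]

theorem val_add (x y : Zp) : (x.add y).val = x.val + y.val := by
  show ((x.a + y.a : Int) : ℝ) + ((x.b + y.b : Int) : ℝ) * Real.goldenRatio = _
  unfold val
  push_cast
  ring

theorem val_neg (x : Zp) : x.neg.val = -x.val := by
  show ((-x.a : Int) : ℝ) + ((-x.b : Int) : ℝ) * Real.goldenRatio = _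
  unfold val
  push_cast
  ring

theorem val_smul (n : Int) (x : Zp) : (x.smul n).val = n * x.val := by
  show ((n * x.a : Int) : ℝ) + ((n * x.b : Int) : ℝ) * Real.goldenRatio = _
  unfold val
  push_cast
  ring

theorem val_mul (x y : Zp) : (x.mul y).val = x.val * y.val := by
  show ((x.a * y.a + x.b * y.b : Int) : ℝ) + ((x.a * y.b + x.b * (y.a + y.b) : Int) : ℝ) * Real.goldenRatio = _
  unfold val
  have h := Real.goldenRatio_sq
  push_cast
  linear_combination (-(x.b : ℝ) * y.b) * h

theorem isNN_true {n : Int} (h : isNN n = true) : 0 ≤ n := by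
  cases n with
  | ofNat k => exact Int.natCast_nonneg k
  | negSucc k => cases h

theorem isNN_false {n : Int} (h : isNN n = false) : n < 0 := by
  cases n with
  | ofNat k => cases h
  | negSucc k => exact Int.negSucc_lt_zero k

theorem isZ_true {n : Int} (h : isZ n = true) : n = 0 := by
  cases n with
  | ofNat k =>
    have : k = 0 := Nat.eq_of_beq_eq_true h
    rw [this]; rfl
  | negSucc k => cases h

theorem isZ_false {n : Int} (h : isZ n = false) : n ≠ 0 := by
  rintro rfl
  cases h

/-- twice the value -/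
theorem two_val (x : Zp) : 2 * x.val = ((x.a + x.a + x.b : Int) : ℝ) + (x.b : ℝ) * √5 := by
  unfold val Real.goldenRatio
  push_cast
  ring

theorem eq_zero_of_sq {t b : Int} (h : (t : ℝ) ^ 2 = 5 * (b : ℝ) ^ 2) : b = 0 := by
  by_contra hb
  have h1 : Irrational √5 := by
    have := Nat.Prime.irrational_sqrt (show Nat.Prime 5 by norm_num)
    exact_mod_cast this
  have hb' : (b : ℝ) ≠ 0 := by exact_mod_cast hb
  have h2 : √5 = |(t : ℝ)| / |(b : ℝ)| := by
    rw [← abs_div, ← Real.sqrt_sq_eq_abs]
    congr 1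
    field_simp
    linarith
  apply h1
  refine ⟨|(t : ℚ)| / |(b : ℚ)|, ?_⟩
  rw [h2]
  push_cast
  rfl

theorem sgAux_spec (t b : Int) :
    (sgAux t b = Sg.p → 0 < (t : ℝ) + b * √5) ∧ (sgAux t b = Sg.z → (t : ℝ) + b * √5 = 0) ∧
      (sgAux t b = Sg.m → (t : ℝ) + b * √5 ≤ 0) := by
  have h5 : √5 ^ 2 = 5 := Real.sq_sqrt (by norm_num)
  have h5' : 0 < √5 := Real.sqrt_pos.2 (by norm_num)
  unfold sgAux
  rcases ht : isNN t with _ | _ <;> rcases hb : isNN b with _ | _
  · have h1 : (t : ℝ) < 0 := by exact_mod_cast isNN_false ht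
    have h2 : (b : ℝ) < 0 := by exact_mod_cast isNN_false hb
    refine ⟨fun h => by simp at h, fun h => by simp at h, fun _ => ?_⟩
    nlinarith
  · have h1 : (t : ℝ) < 0 := by exact_mod_cast isNN_false ht
    have h2 : (0 : ℝ) ≤ b := by exact_mod_cast isNN_true hb
    rcases hd : isNN (Int.sub (Int.mul 5 (Int.mul b b)) (Int.mul t t)) with _ | _
    · refine ⟨fun h => by simp at h, fun h => by simp at h, fun _ => ?_⟩
      have h3 : 5 * (b * b) - t * t < 0 := isNN_false hd
      have h4 : 5 * ((b : ℝ) * b) - t * t < 0 := by exact_mod_cast h3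
      by_contra hc
      push Not at hc
      nlinarith [mul_nonneg h2 h5'.le]
    · refine ⟨fun _ => ?_, fun h => by simp at h, fun h => by simp at h⟩
      have h3 : 0 ≤ 5 * (b * b) - t * t := isNN_true hd
      have h4 : 0 ≤ 5 * ((b : ℝ) * b) - t * t := by exact_mod_cast h3
      have h5 : 5 * (b : ℝ) ^ 2 ≠ (t : ℝ) ^ 2 := by
        intro he
        have hb0 := eq_zero_of_sq he.symm
        rw [hb0] at he
        simp at he
        nlinarith
      have h6 : (t : ℝ) ^ 2 < 5 * (b : ℝ) ^ 2 := lt_of_le_of_ne (by nlinarith) (Ne.symm h5)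
      by_contra hc
      push Not at hc
      nlinarith [mul_nonneg h2 h5'.le]
  · have h1 : (0 : ℝ) ≤ t := by exact_mod_cast isNN_true ht
    have h2 : (b : ℝ) < 0 := by exact_mod_cast isNN_false hb
    rcases hd : isNN (Int.sub (Int.mul t t) (Int.mul 5 (Int.mul b b))) with _ | _
    · refine ⟨fun h => by simp at h, fun h => by simp at h, fun _ => ?_⟩
      have h3 : t * t - 5 * (b * b) < 0 := isNN_false hd
      have h4 : (t : ℝ) * t - 5 * ((b : ℝ) * b) < 0 := by exact_mod_cast h3
      by_contra hc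
      push Not at hc
      nlinarith [mul_pos (neg_pos.2 h2) h5']
    · refine ⟨fun _ => ?_, fun h => by simp at h, fun h => by simp at h⟩
      have h3 : 0 ≤ t * t - 5 * (b * b) := isNN_true hd
      have h4 : 0 ≤ (t : ℝ) * t - 5 * ((b : ℝ) * b) := by exact_mod_cast h3
      have h5 : 5 * (b : ℝ) ^ 2 ≠ (t : ℝ) ^ 2 := by
        intro he
        have hb0 := eq_zero_of_sq he.symm
        rw [hb0] at h2
        simp at h2
      have h6 : 5 * (b : ℝ) ^ 2 < (t : ℝ) ^ 2 := lt_of_le_of_ne (by nlinarith) h5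
      by_contra hc
      push Not at hc
      nlinarith [mul_pos (neg_pos.2 h2) h5']
  · have h1 : (0 : ℝ) ≤ t := by exact_mod_cast isNN_true ht
    have h2 : (0 : ℝ) ≤ b := by exact_mod_cast isNN_true hb
    have h3 : 0 ≤ (t : ℝ) + b * √5 := by positivity
    rcases hz : isZ t with _ | _
    · refine ⟨fun _ => ?_, fun h => by simp at h, fun h => by simp at h⟩
      have h4 : (t : ℝ) ≠ 0 := by exact_mod_cast isZ_false hz
      have h5 : 0 < (t : ℝ) := lt_of_le_of_ne h1 (Ne.symm h4)
      positivity
    · rcases hz' : isZ b with _ | _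
      · refine ⟨fun _ => ?_, fun h => by simp at h, fun h => by simp at h⟩
        have h4 : (b : ℝ) ≠ 0 := by exact_mod_cast isZ_false hz'
        have h5 : 0 < (b : ℝ) := lt_of_le_of_ne h2 (Ne.symm h4)
        positivity
      · refine ⟨fun h => by simp at h, fun _ => ?_, fun h => by simp at h⟩
        rw [isZ_true hz, isZ_true hz']
        simp

theorem sg_pos {x : Zp} (h : x.sg = Sg.p) : 0 < x.val := by
  have h1 := (sgAux_spec (x.a + x.a + x.b) x.b).1 h
  rw [← two_val] at h1
  linarith

theorem sg_zero {x : Zp} (h : x.sg = Sg.z) : x.val = 0 := by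
  have h1 := (sgAux_spec (x.a + x.a + x.b) x.b).2.1 h
  rw [← two_val] at h1
  linarith

theorem sg_neg {x : Zp} (h : x.sg = Sg.m) : x.val ≤ 0 := by
  have h1 := (sgAux_spec (x.a + x.a + x.b) x.b).2.2 h
  rw [← two_val] at h1
  linarith

theorem nneg_sound {x : Zp} (h : x.nneg = true) : 0 ≤ x.val := by
  unfold nneg at h
  rcases hs : x.sg with _ | _ | _
  · simp [hs] at h
  · exact (sg_zero hs).ge
  · exact (sg_pos hs).le

/-- equality test -/
def beq (x y : Zp) : Bool := isZ (Int.sub x.a y.a) && isZ (Int.sub x.b y.b)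

theorem beq_sound {x y : Zp} (h : x.beq y = true) : x = y := by
  unfold beq at h
  rw [Bool.and_eq_true] at h
  have h1 : x.a - y.a = 0 := isZ_true h.1
  have h2 : x.b - y.b = 0 := isZ_true h.2
  cases x
  cases y
  simp only [mk.injEq]
  constructor <;> simp at h1 h2 <;> omega

end Zp

end Pool.Agent.PHCert
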